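import Pool.Agent.Lib.MP_5e64e7_nt.ODefs

set_option autoImplicit false

/-!
# O.WP : the second derivative of the Weierstrass function (about 80 lines)

Mathlib has (`Mathlib/Analysis/SpecialFunctions/Elliptic/Weierstrass.lean`, namespace
`PeriodPair`): `derivWeierstrassP_sq` (the differential equation), `deriv_weierstrassP`,
`analyticOnNhd_weierstrassP`, `analyticOnNhd_derivWeierstrassP` (on the complement of the
lattice), `isClosed_lattice`, `not_continuousAt_weierstrassP`, `order_weierstrassP`.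

Proof of `wp_second`. Put `G z = deriv ℘' z - (6 ℘ z ^ 2 - g₂ / 2)` on the open set
`Ω = (L.lattice)ᶜ`. Differentiating `℘' ^ 2 = 4 ℘ ^ 3 - g₂ ℘ - g₃` (valid on the open set `Ω`)
gives `2 ℘' (deriv ℘') = (12 ℘ ^ 2 - g₂) ℘'`, so `℘' z * G z = 0` on `Ω`. There is a point of `Ω`
with `℘' ≠ 0` (otherwise `℘` would be constant, against the pole at `0`), near it `G = 0`, and
`G = 0` on `Ω` by the identity theorem.
-/

noncomputable section

namespace Pool.Agent.Lib.MP5e

open Polynomial Topology

/-- the complement of the lattice is open -/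
private theorem wp_open (L : PeriodPair) : IsOpen ((L.lattice : Set ℂ)ᶜ) :=
  L.isClosed_lattice.isOpen_compl

private theorem wp_countable (L : PeriodPair) : (L.lattice : Set ℂ).Countable := by
  have : Countable L.lattice := L.latticeEquivProd.toEquiv.countable_iff.mpr inferInstance
  exact Set.countable_coe_iff.mp inferInstance

private theorem wp_precon (L : PeriodPair) : IsPreconnected ((L.lattice : Set ℂ)ᶜ) :=
  ((wp_countable L).isConnected_compl_of_one_lt_rank (by simp)).isPreconnected

/-- `℘` has derivative `℘'` off the lattice -/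
theorem wp_first (L : PeriodPair) {z : ℂ} (hz : z ∉ L.lattice) :
    HasDerivAt L.weierstrassP (L.derivWeierstrassP z) z := by
  have h := (L.analyticOnNhd_weierstrassP z hz).differentiableAt.hasDerivAt
  rwa [L.deriv_weierstrassP] at h

/-- `|℘| → ∞` at lattice points -/
theorem wp_pole (L : PeriodPair) {l : ℂ} (hl : l ∈ L.lattice) :
    Filter.Tendsto (fun t => ‖L.weierstrassP t‖) (𝓝[≠] l) Filter.atTop := by
  have h : Filter.Tendsto L.weierstrassP (𝓝[≠] l) (Bornology.cobounded ℂ) := by
    rw [tendsto_cobounded_iff_meromorphicOrderAt_neg (L.meromorphic_weierstrassP l),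
      L.order_weierstrassP l hl]
    decide
  exact tendsto_norm_atTop_iff_cobounded.mpr h

private theorem wp_nhdsNe (L : PeriodPair) (l : ℂ) : ∀ᶠ t in 𝓝[≠] l, t ∉ L.lattice := by
  have h := L.compl_lattice_sdiff_singleton_mem_nhds l
  filter_upwards [mem_nhdsWithin_of_mem_nhds h, self_mem_nhdsWithin] with t ht hne hmem
  exact ht ⟨hmem, hne⟩

private theorem wp_ex (L : PeriodPair) : ∃ z : ℂ, z ∉ L.lattice ∧ L.derivWeierstrassP z ≠ 0 := by
  by_contra hcon
  push Not at hcon
  have hd : Set.EqOn (deriv L.weierstrassP) 0 ((L.lattice : Set ℂ)ᶜ) := by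
    intro z hz
    rw [L.deriv_weierstrassP]
    exact hcon z hz
  obtain ⟨c, hc⟩ := (wp_open L).exists_is_const_of_deriv_eq_zero (wp_precon L)
    L.differentiableOn_weierstrassP hd
  have h := (wp_pole L (zero_mem L.lattice)).eventually (Filter.eventually_gt_atTop ‖c‖)
  obtain ⟨t, ht1, ht2⟩ := (h.and (wp_nhdsNe L 0)).exists
  rw [hc t ht2] at ht1
  exact lt_irrefl _ ht1

private theorem wp_mul (L : PeriodPair) {z : ℂ} (hz : z ∉ L.lattice) :
    L.derivWeierstrassP z *
      (deriv L.derivWeierstrassP z - (6 * L.weierstrassP z ^ 2 - L.g₂ / 2)) = 0 := by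
  have h1 := wp_first L hz
  have h2 := (L.analyticOnNhd_derivWeierstrassP z hz).differentiableAt.hasDerivAt
  have h3 : HasDerivAt (fun t => L.derivWeierstrassP t ^ 2)
      (((2 : ℕ) : ℂ) * L.derivWeierstrassP z ^ (2 - 1) * deriv L.derivWeierstrassP z) z := h2.pow 2
  have h4 : HasDerivAt (fun t => 4 * L.weierstrassP t ^ 3 - L.g₂ * L.weierstrassP t - L.g₃)
      (4 * (((3 : ℕ) : ℂ) * L.weierstrassP z ^ (3 - 1) * L.derivWeierstrassP z) -
        L.g₂ * L.derivWeierstrassP z) z :=
    (((h1.pow 3).const_mul 4).sub (h1.const_mul L.g₂)).sub_const L.g₃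
  have h5 : (fun t => L.derivWeierstrassP t ^ 2) =ᶠ[𝓝 z]
      (fun t => 4 * L.weierstrassP t ^ 3 - L.g₂ * L.weierstrassP t - L.g₃) := by
    filter_upwards [(wp_open L).mem_nhds hz] with t ht
    exact L.derivWeierstrassP_sq t ht
  have h6 := h3.unique (h4.congr_of_eventuallyEq h5)
  norm_num at h6
  linear_combination h6 / 2

/-- `℘'' = 6 ℘² - g₂/2` off the lattice -/
theorem wp_second (L : PeriodPair) {z : ℂ} (hz : z ∉ L.lattice) :
    HasDerivAt L.derivWeierstrassP (6 * L.weierstrassP z ^ 2 - L.g₂ / 2) z := by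
  obtain ⟨z0, hz0, hne⟩ := wp_ex L
  have hA : AnalyticOnNhd ℂ
      (fun t => deriv L.derivWeierstrassP t - (6 * L.weierstrassP t ^ 2 - L.g₂ / 2))
      ((L.lattice : Set ℂ)ᶜ) := by
    intro t ht
    have a1 := (L.analyticOnNhd_derivWeierstrassP t ht).deriv
    have a2 := L.analyticOnNhd_weierstrassP t ht
    exact a1.sub (((analyticAt_const.mul (a2.pow 2))).sub analyticAt_const)
  have hz0' : (fun t => deriv L.derivWeierstrassP t - (6 * L.weierstrassP t ^ 2 - L.g₂ / 2))
      =ᶠ[𝓝 z0] 0 := by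
    have hc : ContinuousAt L.derivWeierstrassP z0 :=
      (L.analyticOnNhd_derivWeierstrassP z0 hz0).continuousAt
    filter_upwards [hc.eventually_ne hne, (wp_open L).mem_nhds hz0] with t ht1 ht2
    exact (mul_eq_zero.mp (wp_mul L ht2)).resolve_left ht1
  have h := hA.eqOn_zero_of_preconnected_of_eventuallyEq_zero (wp_precon L) hz0 hz0' hz
  have h' : deriv L.derivWeierstrassP z = 6 * L.weierstrassP z ^ 2 - L.g₂ / 2 := sub_eq_zero.mp h
  rw [← h']
  exact (L.analyticOnNhd_derivWeierstrassP z hz).differentiableAt.hasDerivAt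

end Pool.Agent.Lib.MP5e
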