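import Pool.Agent.Lib.MP_5e64e7_nt.OWp

set_option autoImplicit false

/-!
# O.ADD : the addition theorem for `℘` (about 180 lines)

Write `x = ℘ u`, `y = ℘' u`, `s = ℘ v`, `t = ℘' v`, `K = ℘ (u + v)`.

Proof of `wp_add`. Fix `c = u + v ∉ L` and let `G = {p | p ∉ L ∧ c - p ∉ L}`, an open set,
preconnected as the complement of a countable set (`Set.Countable.isConnected_compl_of_one_lt_rank`,
the lattice is countable). The function
`F p = (℘' p - ℘' (c - p))² - 4 (℘ p + ℘ (c - p) + ℘ c) (℘ p - ℘ (c - p))²`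
is analytic on `G`. It suffices that `F = 0` near one point of `G`
(`AnalyticOnNhd.eqOn_zero_of_preconnected_of_eventuallyEq_zero`).

Choose `ε > 0` such that for `0 < |p| < ε`: `p ∈ G` and `℘ p ≠ ℘ (c - p)` (possible:
`|℘ p| → ∞` as `p → 0` by `wp_pole`, while `℘ (c - p) → ℘ c`). On the punctured disc
`D = {0 < |p| < ε}` (preconnected) put
`φ p = - ℘ p - ℘ (c - p) + ((℘' p - ℘' (c - p)) / (℘ p - ℘ (c - p)))² / 4`.
Its derivative is `0`: with `x = ℘ p`, `y = ℘' p`, `s = ℘ (c - p)`, `t = ℘' (c - p)` one has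
`x' = y`, `s' = - t`, `y' = 6x² - g₂/2`, `t' = -(6s² - g₂/2)` (`wp_first`, `wp_second`), and for
`R = (y - t)/(x - s)`:
`R' = ((6x² + 6s² - g₂)(x - s) - (y - t)(y + t)) / (x - s)²`, and
`y² - t² = 4(x³ - s³) - g₂(x - s)` (`PeriodPair.derivWeierstrassP_sq`), so `R' = 2 (x - s)` and
`φ' = - y + t + R R' / 2 = - y + t + (y - t) = 0`. So `φ` is constant on `D`
(`IsOpen.is_const_of_deriv_eq_zero` / `IsOpen.exists_is_const_of_deriv_eq_zero`). The constant is
`℘ c`, because `φ p → ℘ c` as `p → 0`: near `0` one has `℘ p = p⁻² + h p` with `h = ℘[L - 0]`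
analytic at `0`, `h 0 = 0` (`weierstrassPExcept_add`, `weierstrassPExcept_zero`,
`analyticAt_weierstrassPExcept`), `℘' p = -2 p⁻³ + k p` with `k` analytic at `0`
(`derivWeierstrassPExcept_def`, `analyticAt_derivWeierstrassPExcept`), so
`p R = (-2 + p³ (k p - t)) / (1 + p² (h p - s))` and
`φ p = - s - h p + (p² R² / 4 - 1) / p²`
`    = - s - h p + ((1 - p³ (k p - t)/2)² - (1 + p² (h p - s))²) / (p² (1 + p² (h p - s))²)`
whose limit for `p → 0` is `- ℘ c - 0 + 2 ℘ c = ℘ c` (expand: the numerator is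
`p² ( - p (k p - t) + p⁴ (k p - t)²/4 - 2 (h p - s) - p² (h p - s)² )`).
Multiplying `φ p = ℘ c` by `4 (x - s)²` gives `F = 0` on `D`.

`wp_sym` : `wp_add` for `(u, v)` and for `(u, -v)` (`weierstrassP_neg`, `derivWeierstrassP_neg`),
add: `2 (y² + t²) = 4 (2 (x + s) + P + M) (x - s)²`, replace `y², t²` by the differential
equation, `ring`.

`wp_dup` : for `v` near `u`, `v ≠ u`, divide `wp_add` by `(v - u)²`:
`((℘' v - ℘' u)/(v - u))² = 4 (℘ u + ℘ v + ℘ (u + v)) ((℘ v - ℘ u)/(v - u))²`; let `v → u`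
(`hasDerivAt_iff_tendsto_slope`, `wp_first`, `wp_second`, continuity of `℘` at `u` and `u + u`).
-/

noncomputable section

namespace Pool.Agent.Lib.MP5e

open Polynomial Topology

private theorem ad_open (L : PeriodPair) : IsOpen ((L.lattice : Set ℂ)ᶜ) :=
  L.isClosed_lattice.isOpen_compl

private theorem ad_countable (L : PeriodPair) : (L.lattice : Set ℂ).Countable := by
  have : Countable L.lattice := L.latticeEquivProd.toEquiv.countable_iff.mpr inferInstance
  exact Set.countable_coe_iff.mp inferInstance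

/-- the set of `p` with `p ∉ L` and `c - p ∉ L` -/
private def adG (L : PeriodPair) (c : ℂ) : Set ℂ := {p | p ∉ L.lattice ∧ c - p ∉ L.lattice}

private theorem adG_open (L : PeriodPair) (c : ℂ) : IsOpen (adG L c) := by
  have h1 := ad_open L
  have h2 : IsOpen ((fun p : ℂ => c - p) ⁻¹' ((L.lattice : Set ℂ)ᶜ)) :=
    h1.preimage (by fun_prop)
  exact h1.inter h2

private theorem adG_precon (L : PeriodPair) (c : ℂ) : IsPreconnected (adG L c) := by
  have h1 : ((L.lattice : Set ℂ) ∪ (fun p : ℂ => c - p) ⁻¹' (L.lattice : Set ℂ)).Countable :=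
    (ad_countable L).union ((ad_countable L).preimage (fun x y h => by simpa using h))
  have h2 := (h1.isConnected_compl_of_one_lt_rank (by simp)).isPreconnected
  have h3 : adG L c = ((L.lattice : Set ℂ) ∪ (fun p : ℂ => c - p) ⁻¹' (L.lattice : Set ℂ))ᶜ := by
    ext p
    simp [adG]
  rw [h3]
  exact h2

private theorem ad_dS (L : PeriodPair) (c : ℂ) {p : ℂ} (hp : c - p ∉ L.lattice) :
    HasDerivAt (fun p => L.weierstrassP (c - p)) (-L.derivWeierstrassP (c - p)) p := by
  have h := (wp_first L hp).comp p ((hasDerivAt_id p).const_sub c)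
  exact h.congr_deriv (by simp)

private theorem ad_dT (L : PeriodPair) (c : ℂ) {p : ℂ} (hp : c - p ∉ L.lattice) :
    HasDerivAt (fun p => L.derivWeierstrassP (c - p))
      (-(6 * L.weierstrassP (c - p) ^ 2 - L.g₂ / 2)) p := by
  have h := (wp_second L hp).comp p ((hasDerivAt_id p).const_sub c)
  exact h.congr_deriv (by simp)

/-- the function which is constant -/
private def adphi (L : PeriodPair) (c p : ℂ) : ℂ :=
  -L.weierstrassP p - L.weierstrassP (c - p) +
    ((L.derivWeierstrassP p - L.derivWeierstrassP (c - p)) /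
      (L.weierstrassP p - L.weierstrassP (c - p))) ^ 2 / 4

private theorem adphi_deriv (L : PeriodPair) (c : ℂ) {p : ℂ} (hp : p ∈ adG L c)
    (hne : L.weierstrassP p ≠ L.weierstrassP (c - p)) : HasDerivAt (adphi L c) 0 p := by
  have hx := wp_first L hp.1
  have hy := wp_second L hp.1
  have hs := ad_dS L c hp.2
  have ht := ad_dT L c hp.2
  have e1 := L.derivWeierstrassP_sq p hp.1
  have e2 := L.derivWeierstrassP_sq (c - p) hp.2
  have hxs : L.weierstrassP p - L.weierstrassP (c - p) ≠ 0 := sub_ne_zero.mpr hne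
  have h := ((hx.neg.sub hs)).add ((((hy.sub ht).div (hx.sub hs) hxs).pow 2).div_const 4)
  refine h.congr_deriv ?_
  simp only [Pi.sub_apply, Pi.div_apply]
  set x := L.weierstrassP p
  set y := L.derivWeierstrassP p
  set s := L.weierstrassP (c - p)
  set t := L.derivWeierstrassP (c - p)
  have key : (6 * x ^ 2 - L.g₂ / 2 - -(6 * s ^ 2 - L.g₂ / 2)) * (x - s) - (y - t) * (y - -t) =
      2 * (x - s) ^ 3 := by
    linear_combination e2 - e1
  rw [key]
  have k1 : 2 * (x - s) ^ 3 / (x - s) ^ 2 = 2 * (x - s) := by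
    field_simp
  have k2 : (y - t) / (x - s) * (x - s) = y - t := div_mul_cancel₀ _ hxs
  rw [k1]
  norm_num
  linear_combination k2

/-- the function `φ` near `0`, without the pole -/
private def adPhi (L : PeriodPair) (c p : ℂ) : ℂ :=
  -L.weierstrassP (c - p) - L.weierstrassPExcept 0 p +
    (-(p * (L.derivWeierstrassPExcept 0 p - L.derivWeierstrassP (c - p))) +
      p ^ 4 * (L.derivWeierstrassPExcept 0 p - L.derivWeierstrassP (c - p)) ^ 2 / 4 -
      2 * (L.weierstrassPExcept 0 p - L.weierstrassP (c - p)) -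
      p ^ 2 * (L.weierstrassPExcept 0 p - L.weierstrassP (c - p)) ^ 2) /
      (1 + p ^ 2 * (L.weierstrassPExcept 0 p - L.weierstrassP (c - p))) ^ 2

private theorem ad_P0 (L : PeriodPair) (p : ℂ) :
    L.weierstrassP p = 1 / p ^ 2 + L.weierstrassPExcept 0 p := by
  have h := L.weierstrassPExcept_add 0 p
  rw [← h]
  simp
  ring

private theorem ad_Q0 (L : PeriodPair) (p : ℂ) :
    L.derivWeierstrassP p = -2 / p ^ 3 + L.derivWeierstrassPExcept 0 p := by
  have h := L.derivWeierstrassPExcept_sub 0 p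
  rw [← h]
  simp
  ring

private theorem adphi_eq (L : PeriodPair) (c : ℂ) {p : ℂ} (hp : p ≠ 0)
    (hd : 1 + p ^ 2 * (L.weierstrassPExcept 0 p - L.weierstrassP (c - p)) ≠ 0) :
    adphi L c p = adPhi L c p := by
  unfold adphi adPhi
  rw [ad_P0 L p, ad_Q0 L p]
  set h := L.weierstrassPExcept 0 p
  set k := L.derivWeierstrassPExcept 0 p
  set s := L.weierstrassP (c - p)
  set t := L.derivWeierstrassP (c - p)
  have h1 : 1 / p ^ 2 + h - s = (1 + p ^ 2 * (h - s)) / p ^ 2 := by
    field_simp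
    ring
  have h2 : -2 / p ^ 3 + k - t = (-2 + p ^ 3 * (k - t)) / p ^ 3 := by
    field_simp
    ring
  rw [h1, h2]
  field_simp
  ring

private theorem ad_an (L : PeriodPair) {c : ℂ} (hc : c ∉ L.lattice) :
    AnalyticAt ℂ (adPhi L c) 0 := by
  have hs : AnalyticAt ℂ (fun p => L.weierstrassP (c - p)) 0 := by
    have h := L.analyticOnNhd_weierstrassP (c - 0) (by simpa using hc)
    exact h.comp (f := fun p : ℂ => c - p) (by fun_prop)
  have ht : AnalyticAt ℂ (fun p => L.derivWeierstrassP (c - p)) 0 := by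
    have h := L.analyticOnNhd_derivWeierstrassP (c - 0) (by simpa using hc)
    exact h.comp (f := fun p : ℂ => c - p) (by fun_prop)
  have hh : AnalyticAt ℂ (fun p => L.weierstrassPExcept 0 p) 0 := L.analyticAt_weierstrassPExcept 0
  have hk : AnalyticAt ℂ (fun p => L.derivWeierstrassPExcept 0 p) 0 :=
    L.analyticAt_derivWeierstrassPExcept 0
  unfold adPhi
  refine AnalyticAt.add ?_ (AnalyticAt.div ?_ ?_ ?_)
  · fun_prop
  · fun_prop
  · fun_prop
  · simp

private theorem adphi_const (L : PeriodPair) {c : ℂ} (hc : c ∉ L.lattice) :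
    ∀ᶠ p in 𝓝[≠] (0 : ℂ), p ∈ adG L c ∧ L.weierstrassP p ≠ L.weierstrassP (c - p) ∧
      adphi L c p = L.weierstrassP c := by
  have hcc : ContinuousAt (fun p => L.weierstrassP (c - p)) 0 :=
    (ad_dS L c (p := 0) (by simpa using hc)).continuousAt
  -- near `0`
  have e1 : ∀ᶠ p in 𝓝[≠] (0 : ℂ), p ∉ L.lattice := by
    have h := L.compl_lattice_sdiff_singleton_mem_nhds 0
    filter_upwards [mem_nhdsWithin_of_mem_nhds h, self_mem_nhdsWithin] with t ht hne hmem
    exact ht ⟨hmem, hne⟩
  have e2 : ∀ᶠ p in 𝓝[≠] (0 : ℂ), c - p ∉ L.lattice := by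
    have h2 : IsOpen ((fun p : ℂ => c - p) ⁻¹' ((L.lattice : Set ℂ)ᶜ)) :=
      (ad_open L).preimage (by fun_prop)
    exact mem_nhdsWithin_of_mem_nhds (h2.mem_nhds (by simpa using hc))
  have e3 : ∀ᶠ p in 𝓝[≠] (0 : ℂ), L.weierstrassP p ≠ L.weierstrassP (c - p) := by
    have h3 : ∀ᶠ p in 𝓝 (0 : ℂ), ‖L.weierstrassP (c - p)‖ < ‖L.weierstrassP (c - 0)‖ + 1 :=
      hcc.norm.eventually_lt continuousAt_const (by simp)
    filter_upwards [mem_nhdsWithin_of_mem_nhds h3, (wp_pole L (zero_mem L.lattice)).eventually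
      (Filter.eventually_gt_atTop (‖L.weierstrassP (c - 0)‖ + 1))] with p hp1 hp2 heq
    rw [heq] at hp2
    exact lt_asymm hp1 hp2
  have e4 : ∀ᶠ p in 𝓝[≠] (0 : ℂ),
      1 + p ^ 2 * (L.weierstrassPExcept 0 p - L.weierstrassP (c - p)) ≠ 0 := by
    have h4 : ContinuousAt
        (fun p : ℂ => 1 + p ^ 2 * (L.weierstrassPExcept 0 p - L.weierstrassP (c - p))) 0 := by
      have := (L.analyticAt_weierstrassPExcept 0).continuousAt
      fun_prop
    exact mem_nhdsWithin_of_mem_nhds (h4.eventually_ne (by simp))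
  have hall : ∀ᶠ p in 𝓝[≠] (0 : ℂ), p ∈ adG L c ∧ L.weierstrassP p ≠ L.weierstrassP (c - p) ∧
      adphi L c p = adPhi L c p := by
    filter_upwards [e1, e2, e3, e4, self_mem_nhdsWithin] with p h1 h2 h3 h4 h5
    exact ⟨⟨h1, h2⟩, h3, adphi_eq L c h5 h4⟩
  have han := ad_an L hc
  -- the derivative of `adPhi` vanishes near `0`
  have hd : ∀ᶠ p in 𝓝[≠] (0 : ℂ), deriv (adPhi L c) p = 0 := by
    have h := eventually_nhdsNE_eventually_nhds_iff.mpr hall
    filter_upwards [h] with p hp
    have h1 : adPhi L c =ᶠ[𝓝 p] adphi L c := by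
      filter_upwards [hp] with q hq
      exact hq.2.2.symm
    rw [h1.deriv_eq]
    exact (adphi_deriv L c hp.self_of_nhds.1 hp.self_of_nhds.2.1).deriv
  have hd0 : ∀ᶠ p in 𝓝 (0 : ℂ), deriv (adPhi L c) p = 0 :=
    (han.deriv.frequently_zero_iff_eventually_zero).mp hd.frequently
  obtain ⟨ε, hε, hball⟩ := Metric.eventually_nhds_iff_ball.mp (hd0.and han.eventually_analyticAt)
  have hconst : ∀ p ∈ Metric.ball (0 : ℂ) ε, adPhi L c p = adPhi L c 0 := by
    intro p hp
    refine Metric.isOpen_ball.is_const_of_deriv_eq_zero (convex_ball _ _).isPreconnected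
      (fun q hq => (hball q hq).2.differentiableAt.differentiableWithinAt)
      (fun q hq => (hball q hq).1) hp (Metric.mem_ball_self hε)
  have h0 : adPhi L c 0 = L.weierstrassP c := by
    unfold adPhi
    simp
    ring
  filter_upwards [hall, mem_nhdsWithin_of_mem_nhds (Metric.ball_mem_nhds (0 : ℂ) hε)] with p h1 h2
  exact ⟨h1.1, h1.2.1, by rw [h1.2.2, hconst p h2, h0]⟩

/-- the addition theorem -/
theorem wp_add (L : PeriodPair) {u v : ℂ} (hu : u ∉ L.lattice) (hv : v ∉ L.lattice)
    (huv : u + v ∉ L.lattice) :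
    (L.derivWeierstrassP u - L.derivWeierstrassP v) ^ 2 =
      4 * (L.weierstrassP u + L.weierstrassP v + L.weierstrassP (u + v)) *
        (L.weierstrassP u - L.weierstrassP v) ^ 2 := by
  set c := u + v with hc
  set F : ℂ → ℂ := fun p => (L.derivWeierstrassP p - L.derivWeierstrassP (c - p)) ^ 2 -
    4 * (L.weierstrassP p + L.weierstrassP (c - p) + L.weierstrassP c) *
      (L.weierstrassP p - L.weierstrassP (c - p)) ^ 2 with hF
  have hdiff : DifferentiableOn ℂ F (adG L c) := by
    intro p hp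
    have hx := (wp_first L hp.1).differentiableAt
    have hy := (wp_second L hp.1).differentiableAt
    have hs := (ad_dS L c hp.2).differentiableAt
    have ht := (ad_dT L c hp.2).differentiableAt
    have h : DifferentiableAt ℂ F p := by
      rw [hF]
      fun_prop
    exact h.differentiableWithinAt
  have hA : AnalyticOnNhd ℂ F (adG L c) := hdiff.analyticOnNhd (adG_open L c)
  have hall := eventually_nhdsNE_eventually_nhds_iff.mpr (adphi_const L huv)
  obtain ⟨p0, hp0⟩ := hall.exists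
  have hz : F =ᶠ[𝓝 p0] 0 := by
    filter_upwards [hp0] with p hp
    have hne : L.weierstrassP p - L.weierstrassP (c - p) ≠ 0 := sub_ne_zero.mpr hp.2.1
    have h3 := hp.2.2
    unfold adphi at h3
    have h4 : ((L.derivWeierstrassP p - L.derivWeierstrassP (c - p)) /
      (L.weierstrassP p - L.weierstrassP (c - p))) ^ 2 =
      4 * (L.weierstrassP p + L.weierstrassP (c - p) + L.weierstrassP c) := by
      linear_combination 4 * h3
    rw [div_pow, div_eq_iff (pow_ne_zero 2 hne)] at h4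
    simp only [hF, Pi.zero_apply]
    rw [h4]
    ring
  have h := hA.eqOn_zero_of_preconnected_of_eventuallyEq_zero (adG_precon L c)
    hp0.self_of_nhds.1 hz (x := u) ⟨hu, by rw [hc]; simpa using hv⟩
  simp only [hF, Pi.zero_apply] at h
  have hcu : c - u = v := by rw [hc]; ring
  rw [hcu] at h
  linear_combination h

/-- `℘ (u + v) + ℘ (u - v)` -/
theorem wp_sym (L : PeriodPair) {u v : ℂ} (hu : u ∉ L.lattice) (hv : v ∉ L.lattice)
    (huv : u + v ∉ L.lattice) (huv' : u - v ∉ L.lattice) :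
    (L.weierstrassP (u + v) + L.weierstrassP (u - v)) *
        (L.weierstrassP u - L.weierstrassP v) ^ 2 =
      2 * L.weierstrassP u * L.weierstrassP v * (L.weierstrassP u + L.weierstrassP v) -
        L.g₂ / 2 * (L.weierstrassP u + L.weierstrassP v) - L.g₃ := by
  have hv' : -v ∉ L.lattice := fun h => hv (by simpa using neg_mem h)
  have h1 := wp_add L hu hv huv
  have h2 := wp_add L hu hv' (by simpa [sub_eq_add_neg] using huv')
  rw [L.weierstrassP_neg, L.derivWeierstrassP_neg, ← sub_eq_add_neg u v] at h2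
  have e1 := L.derivWeierstrassP_sq u hu
  have e2 := L.derivWeierstrassP_sq v hv
  linear_combination (-1 / 4) * h1 + (-1 / 4) * h2 + (1 / 2) * e1 + (1 / 2) * e2

/-- duplication -/
theorem wp_dup (L : PeriodPair) {u : ℂ} (hu : u ∉ L.lattice) (h2 : u + u ∉ L.lattice) :
    4 * L.derivWeierstrassP u ^ 2 * (L.weierstrassP (u + u) + 2 * L.weierstrassP u) =
      (6 * L.weierstrassP u ^ 2 - L.g₂ / 2) ^ 2 := by
  have hP := hasDerivAt_iff_tendsto_slope.mp (wp_first L hu)
  have hQ := hasDerivAt_iff_tendsto_slope.mp (wp_second L hu)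
  have hcont : Filter.Tendsto (fun v => L.weierstrassP v) (𝓝[≠] u) (𝓝 (L.weierstrassP u)) :=
    (wp_first L hu).continuousAt.continuousWithinAt
  have hsum : Filter.Tendsto (fun v => L.weierstrassP (u + v)) (𝓝[≠] u)
      (𝓝 (L.weierstrassP (u + u))) := by
    have h : ContinuousAt (fun v => L.weierstrassP (u + v)) u := by
      have h1 := (wp_first L h2).continuousAt
      exact ContinuousAt.comp (f := fun v : ℂ => u + v) h1 (by fun_prop)
    exact h.continuousWithinAt
  have hL : Filter.Tendsto (fun v => slope L.derivWeierstrassP u v ^ 2) (𝓝[≠] u)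
      (𝓝 ((6 * L.weierstrassP u ^ 2 - L.g₂ / 2) ^ 2)) := hQ.pow 2
  have hR : Filter.Tendsto (fun v => 4 * (L.weierstrassP u + L.weierstrassP v +
      L.weierstrassP (u + v)) * slope L.weierstrassP u v ^ 2) (𝓝[≠] u)
      (𝓝 (4 * (L.weierstrassP u + L.weierstrassP u + L.weierstrassP (u + u)) *
        L.derivWeierstrassP u ^ 2)) :=
    (((tendsto_const_nhds.add hcont).add hsum).const_mul 4).mul (hP.pow 2)
  have heq : (fun v => slope L.derivWeierstrassP u v ^ 2) =ᶠ[𝓝[≠] u]
      (fun v => 4 * (L.weierstrassP u + L.weierstrassP v +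
      L.weierstrassP (u + v)) * slope L.weierstrassP u v ^ 2) := by
    have o1 : ∀ᶠ v in 𝓝 u, v ∉ L.lattice := (ad_open L).mem_nhds hu
    have o2 : ∀ᶠ v in 𝓝 u, u + v ∉ L.lattice := by
      have h2' : IsOpen ((fun p : ℂ => u + p) ⁻¹' ((L.lattice : Set ℂ)ᶜ)) :=
        (ad_open L).preimage (by fun_prop)
      exact h2'.mem_nhds h2
    filter_upwards [mem_nhdsWithin_of_mem_nhds o1, mem_nhdsWithin_of_mem_nhds o2,
      self_mem_nhdsWithin] with v hv1 hv2 hv3
    have hne : v - u ≠ 0 := sub_ne_zero.mpr hv3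
    have h := wp_add L hu hv1 hv2
    rw [slope_def_field, slope_def_field, div_pow, div_pow]
    field_simp
    linear_combination h
  have h := tendsto_nhds_unique (hL.congr' heq) hR
  linear_combination -h

end Pool.Agent.Lib.MP5e
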