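import Pool.Agent.Lib.MP_5e64e7_nt.Defs

set_option autoImplicit false

noncomputable section

namespace Pool.Agent.Lib.MP5e

open Polynomial Topology

theorem hnf_bezout (p r : ℤ) (B : ℕ) (hpr : IsCoprime p r) (hp : |p| ≤ (B : ℤ))
    (hr : |r| ≤ (B : ℤ)) :
    ∃ q s : ℤ, p * s - q * r = 1 ∧ |q| ≤ (B : ℤ) ∧ |s| ≤ (B : ℤ) := by
  by_cases hr0 : r = 0
  · subst hr0
    have hu : IsUnit p := isCoprime_zero_right.mp hpr
    rcases Int.isUnit_iff.mp hu with h | h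
    · subst h
      refine ⟨0, 1, by norm_num, ?_, ?_⟩
      · rw [abs_zero]; exact Int.natCast_nonneg B
      · exact hp
    · subst h
      refine ⟨0, -1, by norm_num, ?_, ?_⟩
      · rw [abs_zero]; exact Int.natCast_nonneg B
      · exact hp
  · obtain ⟨a, b, hab⟩ := hpr
    -- a * p + b * r = 1
    have hrpos : 0 < |r| := abs_pos.mpr hr0
    -- s = a mod r
    have hs0 : 0 ≤ a % r := Int.emod_nonneg a hr0
    have hs1 : a % r < |r| := Int.emod_lt_abs a hr0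
    have hdiv : r * (a / r) + a % r = a := Int.mul_ediv_add_emod a r
    set s : ℤ := a % r with hs
    set t : ℤ := a / r with ht
    refine ⟨-(b + p * t), s, ?_, ?_, ?_⟩
    · have : p * s - -(b + p * t) * r = (r * t + s) * p + b * r := by ring
      rw [this, hdiv]; exact hab
    · have hq : (-(b + p * t)) * r = p * s - 1 := by
        have : p * s + (b + p * t) * r = (r * t + s) * p + b * r := by ring
        rw [hdiv, hab] at this
        linarith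
      have h1 : |(-(b + p * t))| * |r| = |p * s - 1| := by rw [← abs_mul, hq]
      have h2 : |p * s - 1| ≤ |p| * |s| + 1 := by
        calc |p * s - 1| ≤ |p * s| + |(1 : ℤ)| := abs_sub _ _
          _ = |p| * |s| + 1 := by rw [abs_mul, abs_one]
      have h3 : |s| = s := abs_of_nonneg hs0
      by_cases hp0 : p = 0
      · subst hp0
        have h4 : |(-(b + 0 * t))| * |r| = 1 := by
          rw [h1]; norm_num
        have h5 : |(-(b + 0 * t))| ≤ |(-(b + 0 * t))| * |r| := by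
          nlinarith [abs_nonneg (-(b + 0 * t))]
        have h6 : (1 : ℤ) ≤ |r| := hrpos
        linarith
      · have hp1 : 1 ≤ |p| := Int.one_le_abs hp0
        have h4 : |(-(b + p * t))| * |r| ≤ |p| * |r| := by
          rw [h1]
          have h5 : |s| ≤ |r| - 1 := by rw [h3]; linarith
          nlinarith
        have h5 : |(-(b + p * t))| ≤ |p| := le_of_mul_le_mul_right h4 hrpos
        exact h5.trans hp
    · rw [abs_of_nonneg hs0]
      linarith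

theorem hnf (g : Matrix (Fin 2) (Fin 2) ℤ) (e B : ℕ) (hdet : g.det = 2 ^ e)
    (hB : ∀ i k, |g i k| ≤ (B : ℤ)) :
    ∃ (u w : ℕ) (v p q r s : ℤ), u + w = e ∧ p * s - q * r = 1 ∧
      g 0 0 = p * 2 ^ u ∧ g 1 0 = r * 2 ^ u ∧ g 0 1 = p * v + q * 2 ^ w ∧
      g 1 1 = r * v + s * 2 ^ w ∧ |v| ≤ 2 * (B : ℤ) ^ 2 ∧
      |p| ≤ (B : ℤ) ∧ |q| ≤ (B : ℤ) ∧ |r| ≤ (B : ℤ) ∧ |s| ≤ (B : ℤ) := by
  rw [Matrix.det_fin_two] at hdet
  have hdvd : ((Int.gcd (g 0 0) (g 1 0) : ℕ) : ℤ) ∣ 2 ^ e := by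
    rw [← hdet]
    exact dvd_sub (Dvd.dvd.mul_right (Int.gcd_dvd_left _ _) _)
      (Dvd.dvd.mul_left (Int.gcd_dvd_right _ _) _)
  have hdvd2 : Int.gcd (g 0 0) (g 1 0) ∣ 2 ^ e := by
    have : ((Int.gcd (g 0 0) (g 1 0) : ℕ) : ℤ) ∣ ((2 ^ e : ℕ) : ℤ) := by
      push_cast; exact hdvd
    exact Int.natCast_dvd_natCast.mp this
  obtain ⟨u, hue, hu⟩ := (Nat.dvd_prime_pow Nat.prime_two).mp hdvd2
  have hgpos : 0 < Int.gcd (g 0 0) (g 1 0) := by rw [hu]; positivity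
  obtain ⟨p, hp⟩ : ((Int.gcd (g 0 0) (g 1 0) : ℕ) : ℤ) ∣ g 0 0 := Int.gcd_dvd_left _ _
  obtain ⟨r, hr⟩ : ((Int.gcd (g 0 0) (g 1 0) : ℕ) : ℤ) ∣ g 1 0 := Int.gcd_dvd_right _ _
  have hcop : IsCoprime p r := by
    rw [Int.isCoprime_iff_gcd_eq_one]
    have h := Int.gcd_mul_left ((Int.gcd (g 0 0) (g 1 0) : ℕ) : ℤ) p r
    rw [← hp, ← hr, Int.natAbs_natCast] at h
    have h2 : Int.gcd (g 0 0) (g 1 0) * 1 = Int.gcd (g 0 0) (g 1 0) * Int.gcd p r := by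
      rw [mul_one]; exact h
    exact (Nat.eq_of_mul_eq_mul_left hgpos h2).symm
  rw [hu] at hp hr
  have hp' : g 0 0 = p * 2 ^ u := by rw [hp]; push_cast; ring
  have hr' : g 1 0 = r * 2 ^ u := by rw [hr]; push_cast; ring
  have hpow1 : (1 : ℤ) ≤ 2 ^ u := one_le_pow₀ (by norm_num)
  have habs2 : |(2 : ℤ) ^ u| = 2 ^ u := abs_of_pos (by positivity)
  have hpB : |p| ≤ (B : ℤ) := by
    have h := hB 0 0
    rw [hp', abs_mul, habs2] at h
    nlinarith [abs_nonneg p]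
  have hrB : |r| ≤ (B : ℤ) := by
    have h := hB 1 0
    rw [hr', abs_mul, habs2] at h
    nlinarith [abs_nonneg r]
  obtain ⟨q, s, hbez, hq, hs⟩ := hnf_bezout p r B hcop hpB hrB
  have hw : p * g 1 1 - r * g 0 1 = 2 ^ (e - u) := by
    have h1 : (2 : ℤ) ^ u * (p * g 1 1 - r * g 0 1) = 2 ^ u * 2 ^ (e - u) := by
      rw [← pow_add, Nat.add_sub_cancel' hue, ← hdet, hp', hr']; ring
    exact mul_left_cancel₀ (by positivity) h1
  refine ⟨u, e - u, s * g 0 1 - q * g 1 1, p, q, r, s, Nat.add_sub_cancel' hue, hbez, hp', hr',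
    ?_, ?_, ?_, hpB, hq, hrB, hs⟩
  · rw [← hw]
    have : p * (s * g 0 1 - q * g 1 1) + q * (p * g 1 1 - r * g 0 1)
        = (p * s - q * r) * g 0 1 := by ring
    rw [this, hbez, one_mul]
  · rw [← hw]
    have : r * (s * g 0 1 - q * g 1 1) + s * (p * g 1 1 - r * g 0 1)
        = (p * s - q * r) * g 1 1 := by ring
    rw [this, hbez, one_mul]
  · have h1 : |s * g 0 1 - q * g 1 1| ≤ |s| * |g 0 1| + |q| * |g 1 1| := by
      calc |s * g 0 1 - q * g 1 1| ≤ |s * g 0 1| + |q * g 1 1| := abs_sub _ _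
        _ = |s| * |g 0 1| + |q| * |g 1 1| := by rw [abs_mul, abs_mul]
    have hB0 : (0 : ℤ) ≤ B := Int.natCast_nonneg B
    have h2 : |s| * |g 0 1| ≤ (B : ℤ) * B :=
      mul_le_mul hs (hB 0 1) (abs_nonneg _) hB0
    have h3 : |q| * |g 1 1| ≤ (B : ℤ) * B :=
      mul_le_mul hq (hB 1 1) (abs_nonneg _) hB0
    nlinarith

theorem two_pow_le (g : Matrix (Fin 2) (Fin 2) ℤ) (e B : ℕ) (hdet : g.det = 2 ^ e)
    (hB : ∀ i k, |g i k| ≤ (B : ℤ)) : 2 ^ e ≤ 2 * B ^ 2 := by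
  rw [Matrix.det_fin_two] at hdet
  have hB0 : (0 : ℤ) ≤ B := Int.natCast_nonneg B
  have h1 : |g 0 0| * |g 1 1| ≤ (B : ℤ) * B :=
    mul_le_mul (hB 0 0) (hB 1 1) (abs_nonneg _) hB0
  have h2 : |g 0 1| * |g 1 0| ≤ (B : ℤ) * B :=
    mul_le_mul (hB 0 1) (hB 1 0) (abs_nonneg _) hB0
  rw [← abs_mul] at h1 h2
  have h3 : (2 : ℤ) ^ e ≤ 2 * (B : ℤ) ^ 2 := by
    rw [← hdet]
    have h4 := le_abs_self (g 0 0 * g 1 1)
    have h5 := neg_abs_le (g 0 1 * g 1 0)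
    nlinarith
  exact_mod_cast h3

theorem tau_im_pos (g : Matrix (Fin 2) (Fin 2) ℤ) (e : ℕ) (hdet : g.det = 2 ^ e) :
    0 < (tau g).im := by
  rw [Matrix.det_fin_two] at hdet
  have hne : (g 1 0 : ℝ) ^ 2 + (g 1 1 : ℝ) ^ 2 ≠ 0 := by
    intro h
    have h0 : (g 1 0 : ℝ) = 0 := by nlinarith [sq_nonneg (g 1 0 : ℝ), sq_nonneg (g 1 1 : ℝ)]
    have h1 : (g 1 1 : ℝ) = 0 := by nlinarith [sq_nonneg (g 1 0 : ℝ), sq_nonneg (g 1 1 : ℝ)]
    have h0' : g 1 0 = 0 := by exact_mod_cast h0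
    have h1' : g 1 1 = 0 := by exact_mod_cast h1
    rw [h0', h1'] at hdet
    have : (2 : ℤ) ^ e ≠ 0 := by positivity
    apply this
    rw [← hdet]; ring
  have him : (tau g).im = (2 : ℝ) ^ e / ((g 1 0 : ℝ) ^ 2 + (g 1 1 : ℝ) ^ 2) := by
    have hdetR : (g 0 0 : ℝ) * (g 1 1 : ℝ) - (g 0 1 : ℝ) * (g 1 0 : ℝ) = 2 ^ e := by
      exact_mod_cast hdet
    have hns : Complex.normSq ((g 1 0 : ℂ) * Complex.I + (g 1 1 : ℂ))
        = (g 1 0 : ℝ) ^ 2 + (g 1 1 : ℝ) ^ 2 := by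
      rw [Complex.normSq_apply]
      simp
      ring
    unfold tau
    rw [Complex.div_im, hns]
    simp
    rw [← hdetR]
    field_simp
  rw [him]
  have : 0 < (g 1 0 : ℝ) ^ 2 + (g 1 1 : ℝ) ^ 2 :=
    lt_of_le_of_ne (by positivity) (Ne.symm hne)
  positivity

end Pool.Agent.Lib.MP5e
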