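import Pool.Agent.Lib.MP_5e64e7_nt.JDer

set_option autoImplicit false

noncomputable section

namespace Pool.Agent.Lib.MP5e

open Polynomial Topology

theorem JTr_ne (p q r s : ℤ) (h : p * s - q * r = 1) {w : ℂ} (hw : 0 < w.im) :
    (r : ℂ) * w + s ≠ 0 := by
  rw [← TransA_denom p q r s h (⟨w, hw⟩ : UpperHalfPlane)]
  exact UpperHalfPlane.denom_ne_zero _ _

theorem jf_sl (p q r s : ℤ) (h : p * s - q * r = 1) {w : ℂ} (hw : 0 < w.im) :
    jf (((p : ℂ) * w + q) / ((r : ℂ) * w + s)) = jf w := by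
  have hne := JTr_ne p q r s h hw
  have hd := disc_ne hw
  rw [jf, E4f_sl p q r s h hw, E6f_sl p q r s h hw, jf]
  generalize (r : ℂ) * w + s = d at hne
  generalize E4f w = x at hd
  generalize E6f w = y at hd
  have h1 : (d ^ 4 * x) ^ 3 - (d ^ 6 * y) ^ 2 = d ^ 12 * (x ^ 3 - y ^ 2) := by ring
  rw [h1, div_eq_div_iff (mul_ne_zero (pow_ne_zero _ hne) hd) hd]
  ring

theorem djf_sl (p q r s : ℤ) (h : p * s - q * r = 1) {w : ℂ} (hw : 0 < w.im) :
    deriv jf (((p : ℂ) * w + q) / ((r : ℂ) * w + s)) = ((r : ℂ) * w + s) ^ 2 * deriv jf w := by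
  have hne := JTr_ne p q r s h hw
  have hd := disc_ne hw
  rw [djf (sl_im_pos p q r s h hw), djf hw, E4f_sl p q r s h hw, E6f_sl p q r s h hw]
  generalize (r : ℂ) * w + s = d at hne
  generalize E4f w = x at hd
  generalize E6f w = y at hd
  have h1 : (d ^ 4 * x) ^ 3 - (d ^ 6 * y) ^ 2 = d ^ 12 * (x ^ 3 - y ^ 2) := by ring
  rw [h1, mul_div_assoc', div_eq_div_iff (mul_ne_zero (pow_ne_zero _ hne) hd) hd]
  ring

theorem ddjf_sl (p q r s : ℤ) (h : p * s - q * r = 1) {w : ℂ} (hw : 0 < w.im) :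
    deriv (deriv jf) (((p : ℂ) * w + q) / ((r : ℂ) * w + s)) =
      ((r : ℂ) * w + s) ^ 4 * deriv (deriv jf) w +
        2 * r * ((r : ℂ) * w + s) ^ 3 * deriv jf w := by
  have hne := JTr_ne p q r s h hw
  have hd := disc_ne hw
  rw [ddjf (sl_im_pos p q r s h hw), ddjf hw, djf hw, E2f_sl p q r s h hw,
    E4f_sl p q r s h hw, E6f_sl p q r s h hw]
  generalize (r : ℂ) * w + s = d at hne
  generalize E4f w = x at hd
  generalize E6f w = y at hd
  generalize E2f w = t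
  have h1 : (d ^ 4 * x) ^ 3 - (d ^ 6 * y) ^ 2 = d ^ 12 * (x ^ 3 - y ^ 2) := by ring
  have hpi : (Real.pi : ℂ) ≠ 0 := Complex.ofReal_ne_zero.mpr Real.pi_ne_zero
  have h2 : (6 * (r : ℂ) * d) / ((Real.pi : ℂ) * Complex.I) =
      -(6 * r * d * Complex.I) / (Real.pi : ℂ) := by
    rw [div_eq_div_iff (mul_ne_zero hpi Complex.I_ne_zero) hpi]
    linear_combination ((6 : ℂ) * r * d * Real.pi) * Complex.I_sq
  rw [h1, h2]
  field_simp
  ring

end Pool.Agent.Lib.MP5e
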