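import Pool.Agent.Lib.MP_5e64e7_nt.Chain
import Pool.Agent.Lib.MP_5e64e7_nt.Hnf
import Pool.Agent.Lib.MP_5e64e7_nt.JTr

set_option autoImplicit false

noncomputable section

namespace Pool.Agent.Lib.MP5e

open Polynomial Topology

section arith

variable {K : IntermediateField ℚ ℂ} {B : ℕ}

private lemma val_mul {n m : ℕ} {x y : ℂ} (h : AI K ((B : ℝ) ^ n) x) (h' : AI K ((B : ℝ) ^ m) y) :
    AI K ((B : ℝ) ^ (n + m)) (x * y) := by
  rw [pow_add]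
  exact h.mul h'

private lemma val_sum_le (hB : 2 ≤ B) (n m : ℕ) :
    (B : ℝ) ^ n + (B : ℝ) ^ m ≤ (B : ℝ) ^ (n + m + 1) := by
  have hB' : (2 : ℝ) ≤ B := by exact_mod_cast hB
  have h1 : (1 : ℝ) ≤ (B : ℝ) ^ n := one_le_pow₀ (by linarith)
  have h2 : (1 : ℝ) ≤ (B : ℝ) ^ m := one_le_pow₀ (by linarith)
  have h3 : (B : ℝ) ^ n + (B : ℝ) ^ m ≤ 2 * ((B : ℝ) ^ n * (B : ℝ) ^ m) := by nlinarith
  calc (B : ℝ) ^ n + (B : ℝ) ^ m ≤ 2 * ((B : ℝ) ^ n * (B : ℝ) ^ m) := h3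
    _ ≤ B * ((B : ℝ) ^ n * (B : ℝ) ^ m) := mul_le_mul_of_nonneg_right hB' (by positivity)
    _ = (B : ℝ) ^ (n + m + 1) := by ring

private lemma val_add (hB : 2 ≤ B) {n m : ℕ} {x y : ℂ} (h : AI K ((B : ℝ) ^ n) x)
    (h' : AI K ((B : ℝ) ^ m) y) : AI K ((B : ℝ) ^ (n + m + 1)) (x + y) :=
  (h.add h').mono le_rfl (val_sum_le hB n m)

private lemma val_sub (hB : 2 ≤ B) {n m : ℕ} {x y : ℂ} (h : AI K ((B : ℝ) ^ n) x)
    (h' : AI K ((B : ℝ) ^ m) y) : AI K ((B : ℝ) ^ (n + m + 1)) (x - y) :=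
  (h.sub h').mono le_rfl (val_sum_le hB n m)

private lemma val_pow {n : ℕ} (k : ℕ) {x : ℂ} (h : AI K ((B : ℝ) ^ n) x) :
    AI K ((B : ℝ) ^ (n * k)) (x ^ k) := by
  rw [pow_mul]
  exact h.pow k

private lemma val_int (v : ℤ) (n : ℕ) (h : |v| ≤ (B : ℤ) ^ n) : AI K ((B : ℝ) ^ n) (v : ℂ) := by
  refine (AI.int K v).mono le_rfl ?_
  exact_mod_cast h

private lemma val_const (hB : 2 ≤ B) (c n : ℕ) (h : c ≤ 2 ^ n) : AI K ((B : ℝ) ^ n) (c : ℂ) := by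
  refine (AI.nat K c).mono le_rfl ?_
  have h1 : (c : ℝ) ≤ 2 ^ n := by exact_mod_cast h
  refine h1.trans ?_
  apply pow_le_pow_left₀ (by norm_num)
  exact_mod_cast hB

private lemma val_mono (hB : 2 ≤ B) {n m : ℕ} {x : ℂ} (h : AI K ((B : ℝ) ^ n) x) (hnm : n ≤ m) :
    AI K ((B : ℝ) ^ m) x := by
  refine h.mono le_rfl ?_
  apply pow_le_pow_right₀ _ hnm
  have hB' : (2 : ℝ) ≤ B := by exact_mod_cast hB
  linarith

private lemma val_R0 {n : ℕ} {x : ℂ} (h : AI K ((B : ℝ) ^ n) x) : Rep K 2 ((B : ℝ) ^ n) x :=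
  h.rep 2

private lemma val_R1 {n : ℕ} {x : ℂ} (h : AI K ((B : ℝ) ^ n) x) :
    Rep K 2 ((B : ℝ) ^ n) (x * (th : ℂ)) := by
  have h1 := (h.rep 1).mul (Rep.th K)
  rw [mul_one] at h1
  exact h1

private lemma val_R2 {n : ℕ} {x : ℂ} (h : AI K ((B : ℝ) ^ n) x) :
    Rep K 2 ((B : ℝ) ^ n) (x * (th : ℂ) ^ 2) := by
  have h1 := (h.rep 0).mul ((Rep.th K).pow 2)
  rw [one_pow, mul_one, mul_one, zero_add] at h1
  exact h1

private lemma val_Radd (hB : 2 ≤ B) {n m : ℕ} {x y : ℂ} (h : Rep K 2 ((B : ℝ) ^ n) x)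
    (h' : Rep K 2 ((B : ℝ) ^ m) y) : Rep K 2 ((B : ℝ) ^ (n + m + 1)) (x + y) :=
  (h.add h').mono le_rfl le_rfl (val_sum_le hB n m)

private lemma val_Rmono (hB : 2 ≤ B) {n m : ℕ} {x : ℂ} (h : Rep K 2 ((B : ℝ) ^ n) x)
    (hnm : n ≤ m) : Rep K 2 ((B : ℝ) ^ m) x := by
  refine h.mono le_rfl le_rfl ?_
  apply pow_le_pow_right₀ _ hnm
  have hB' : (2 : ℝ) ≤ B := by exact_mod_cast hB
  linarith

end arith

/-- the values at `σ` in terms of `a, b, c` -/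
private lemma val_formulas {σ a b c t U W Y : ℂ} {e : ℕ} (hσ : 0 < σ.im) (ht : t = 2 ^ e)
    (hU : U ≠ 0) (hW : W ≠ 0) (hY : Y = U / W) (hYσ : (σ.im : ℂ) = Y)
    (h2 : 8 ^ e * E2f σ = (s0 : ℂ) * a + 8 ^ e * (3 / ((Real.pi : ℂ) * (σ.im : ℂ))))
    (h4 : 64 ^ e * E4f σ = (s0 : ℂ) ^ 2 * b) (h6 : 512 ^ e * E6f σ = (s0 : ℂ) ^ 3 * c) :
    b ^ 3 - c ^ 2 ≠ 0 ∧ jf σ * (b ^ 3 - c ^ 2) = 1728 * b ^ 3 ∧
    deriv jf σ * ((b ^ 3 - c ^ 2) * t ^ 3) = -3456 * Complex.I * (th : ℂ) * (b ^ 2 * c) ∧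
    deriv (deriv jf) σ * ((b ^ 3 - c ^ 2) * t ^ 6 * U) =
      (th : ℂ) ^ 2 * (1152 * (a * (b ^ 2 * c)) - 4608 * (b * c ^ 2) - 3456 * b ^ 4) * U +
        3456 * (th : ℂ) * (b ^ 2 * c) * t ^ 3 * W := by
  have ht0 : t ≠ 0 := by rw [ht]; exact pow_ne_zero _ two_ne_zero
  have h8 : (8 : ℂ) ^ e = t ^ 3 := by
    rw [ht, ← pow_mul, mul_comm, pow_mul]; norm_num
  have h64 : (64 : ℂ) ^ e = t ^ 6 := by
    rw [ht, ← pow_mul, mul_comm, pow_mul]; norm_num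
  have h512 : (512 : ℂ) ^ e = t ^ 9 := by
    rw [ht, ← pow_mul, mul_comm, pow_mul]; norm_num
  rw [h8, hYσ] at h2
  rw [h64] at h4
  rw [h512] at h6
  have hs : (s0 : ℂ) ≠ 0 := by exact_mod_cast s0_pos.ne'
  have hπ : (Real.pi : ℂ) ≠ 0 := by exact_mod_cast Real.pi_ne_zero
  have hY0 : Y ≠ 0 := by rw [hY]; exact div_ne_zero hU hW
  have hD := disc_ne hσ
  have hth : (th : ℂ) = (Real.pi : ℂ) * (s0 : ℂ) := by
    unfold th
    push_cast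
    ring
  have e4 : E4f σ = (s0 : ℂ) ^ 2 * b / t ^ 6 := by
    rw [eq_div_iff (pow_ne_zero _ ht0), ← h4]; ring
  have e6 : E6f σ = (s0 : ℂ) ^ 3 * c / t ^ 9 := by
    rw [eq_div_iff (pow_ne_zero _ ht0), ← h6]; ring
  have e2 : E2f σ = (s0 : ℂ) * a / t ^ 3 + 3 / ((Real.pi : ℂ) * Y) := by
    have : t ^ 3 * E2f σ = t ^ 3 * ((s0 : ℂ) * a / t ^ 3 + 3 / ((Real.pi : ℂ) * Y)) := by
      rw [h2]
      field_simp
    exact mul_left_cancel₀ (pow_ne_zero 3 ht0) this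
  have hDe : E4f σ ^ 3 - E6f σ ^ 2 = (s0 : ℂ) ^ 6 * (b ^ 3 - c ^ 2) / t ^ 18 := by
    rw [e4, e6]
    field_simp
  have hδ : b ^ 3 - c ^ 2 ≠ 0 := by
    intro h
    apply hD
    rw [hDe, h]
    simp
  refine ⟨hδ, ?_, ?_, ?_⟩
  · unfold jf
    rw [hDe, e4]
    field_simp
  · rw [djf hσ, hDe, e4, e6, hth]
    field_simp
    ring
  · rw [ddjf hσ, hDe, e4, e6, e2, hth, hY]
    field_simp
    ring

theorem val : ∃ C : ℕ, ∀ (K0 : IntermediateField ℚ ℂ), FiniteDimensional ℚ K0 →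
    Complex.I ∈ K0 → ∀ (B : ℕ), 2 ≤ B → ∀ (g : Matrix (Fin 2) (Fin 2) ℤ) (e : ℕ),
    g.det = 2 ^ e → (∀ i k, |g i k| ≤ (B : ℤ)) →
    ∃ K : IntermediateField ℚ ℂ, K0 ≤ K ∧ FiniteDimensional ℚ K ∧
      Module.finrank ℚ K ≤ B ^ C * Module.finrank ℚ K0 ∧
      ∃ dl : ℂ, dl ≠ 0 ∧ AI K ((B : ℝ) ^ C) dl ∧
        ∀ k : Fin 4, Rep K 2 ((B : ℝ) ^ C) (dl * J4 (tau g) k) := by
  refine ⟨1000, ?_⟩
  intro K0 hfd hI B hB g e hdet hg
  obtain ⟨u, w, v, p, q, r, s, huw, hps, h00, h10, h01, h11, hv, hp, hq, hr, hs⟩ :=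
    hnf g e B hdet hg
  obtain ⟨K, hK, hKfd, hrank, hCMD⟩ := chain K0 hfd u w v
  rw [huw] at hrank hCMD
  have hBpos : 0 < B := by omega
  have h2e : 2 ^ e ≤ B ^ 3 := by
    calc 2 ^ e ≤ 2 * B ^ 2 := two_pow_le g e B hdet hg
      _ ≤ B * B ^ 2 := Nat.mul_le_mul_right _ hB
      _ = B ^ 3 := by ring
  refine ⟨K, hK, hKfd, ?_, ?_⟩
  · refine hrank.trans (Nat.mul_le_mul_right _ ?_)
    calc 3 ^ e ≤ 4 ^ e := Nat.pow_le_pow_left (by norm_num) e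
      _ = (2 ^ e) ^ 2 := by rw [← pow_mul, mul_comm, pow_mul]; norm_num
      _ ≤ (B ^ 3) ^ 2 := Nat.pow_le_pow_left h2e 2
      _ = B ^ 6 := by ring
      _ ≤ B ^ 1000 := Nat.pow_le_pow_right hBpos (by norm_num)
  -- notation
  set σ : ℂ := (2 ^ u * Complex.I + v) / 2 ^ w with hσdef
  obtain ⟨hσ, a, b, c, ha, hb, hc, h2, h4, h6⟩ := hCMD
  have hU : (2 : ℂ) ^ u ≠ 0 := pow_ne_zero _ two_ne_zero
  have hW : (2 : ℂ) ^ w ≠ 0 := pow_ne_zero _ two_ne_zero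
  have hYσ : (σ.im : ℂ) = (2 : ℂ) ^ u / (2 : ℂ) ^ w := by
    have h1 : σ = (((v : ℝ) / 2 ^ w : ℝ) : ℂ) + (((2 : ℝ) ^ u / 2 ^ w : ℝ) : ℂ) * Complex.I := by
      rw [hσdef]
      push_cast
      field_simp
      ring
    have h3 : σ.im = (2 : ℝ) ^ u / 2 ^ w := by
      rw [h1, Complex.add_im, Complex.ofReal_im, Complex.im_ofReal_mul]
      simp
    rw [h3]
    push_cast
    rfl
  obtain ⟨hδ, hj, hdj, hddj⟩ := val_formulas (t := 2 ^ e) hσ rfl hU hW rfl hYσ h2 h4 h6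
  -- the point
  have hσW : σ * (2 : ℂ) ^ w = 2 ^ u * Complex.I + v := by
    rw [hσdef]
    field_simp
  set z : ℂ := (r : ℂ) * σ + s with hz
  set m : ℂ := (g 1 0 : ℂ) * Complex.I + (g 1 1 : ℂ) with hm
  set mb : ℂ := (g 1 1 : ℂ) - (g 1 0 : ℂ) * Complex.I with hmb
  set m' : ℂ := (g 0 0 : ℂ) * Complex.I + (g 0 1 : ℂ) with hm'
  have hzm : z * (2 : ℂ) ^ w = m := by
    rw [hz, hm, h10, h11, add_mul, mul_assoc, hσW]
    push_cast
    ring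
  have hzm' : ((p : ℂ) * σ + q) * (2 : ℂ) ^ w = m' := by
    rw [hm', h00, h01, add_mul, mul_assoc, hσW]
    push_cast
    ring
  have hz0 : z ≠ 0 := by
    intro h0
    rw [hz] at h0
    have him := congrArg Complex.im h0
    have hre := congrArg Complex.re h0
    have e1 : ((r : ℂ) * σ + s).im = r * σ.im := by
      rw [Complex.add_im, Complex.intCast_im, add_zero, Complex.mul_im, Complex.intCast_re,
        Complex.intCast_im, zero_mul, add_zero]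
    rw [e1, Complex.zero_im] at him
    have hr0 : (r : ℝ) = 0 := by
      rcases mul_eq_zero.mp him with h | h
      · exact h
      · exact absurd h hσ.ne'
    have hr0' : r = 0 := by exact_mod_cast hr0
    rw [hr0'] at h0
    have hs0 : (s : ℂ) = 0 := by simpa using h0
    have hs0' : s = 0 := by exact_mod_cast hs0
    rw [hr0', hs0'] at hps
    norm_num at hps
  have hm0 : m ≠ 0 := by
    rw [← hzm]
    exact mul_ne_zero hz0 hW
  have hmmb : m * mb = ((g 1 0 ^ 2 + g 1 1 ^ 2 : ℤ) : ℂ) := by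
    rw [hm, hmb]
    push_cast
    ring_nf
    rw [Complex.I_sq]
    ring
  have hmb0 : mb ≠ 0 := by
    intro h0
    rw [h0, mul_zero] at hmmb
    have h1 : (g 1 0 ^ 2 + g 1 1 ^ 2 : ℤ) = 0 := by exact_mod_cast hmmb.symm
    have h2 : g 1 0 = 0 := by nlinarith [sq_nonneg (g 1 0), sq_nonneg (g 1 1)]
    have h3 : g 1 1 = 0 := by nlinarith [sq_nonneg (g 1 0), sq_nonneg (g 1 1)]
    apply hm0
    rw [hm, h2, h3]
    simp
  have htau : tau g = ((p : ℂ) * σ + q) / ((r : ℂ) * σ + s) := by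
    unfold tau
    rw [← hm, ← hm', ← hz, ← hzm, ← hzm', mul_div_mul_right _ _ hW]
  have htau' : m * tau g = m' := by
    unfold tau
    rw [← hm, ← hm', mul_div_cancel₀ _ hm0]
  have hjt : jf (tau g) = jf σ := by rw [htau]; exact jf_sl p q r s hps hσ
  have hdjt : deriv jf (tau g) = z ^ 2 * deriv jf σ := by rw [htau]; exact djf_sl p q r s hps hσ
  have hddjt : deriv (deriv jf) (tau g) =
      z ^ 4 * deriv (deriv jf) σ + 2 * r * z ^ 3 * deriv jf σ := by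
    rw [htau]; exact ddjf_sl p q r s hps hσ
  -- sizes
  have h40 : (40 : ℝ) ^ e ≤ (B : ℝ) ^ 18 := by
    have h1 : (40 : ℕ) ^ e ≤ B ^ 18 := by
      calc 40 ^ e ≤ 64 ^ e := Nat.pow_le_pow_left (by norm_num) e
        _ = (2 ^ e) ^ 6 := by rw [← pow_mul, mul_comm, pow_mul]; norm_num
        _ ≤ (B ^ 3) ^ 6 := Nat.pow_le_pow_left h2e 6
        _ = B ^ 18 := by ring
    exact_mod_cast h1
  have hB' : (2 : ℝ) ≤ B := by exact_mod_cast hB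
  have hB0 : (0 : ℝ) ≤ B := by linarith
  have ha' : AI K ((B : ℝ) ^ 19) a := by
    refine ha.mono le_rfl ?_
    calc 2 * (40 : ℝ) ^ e ≤ B * (B : ℝ) ^ 18 := mul_le_mul hB' h40 (by positivity) hB0
      _ = (B : ℝ) ^ 19 := by ring
  have hb' : AI K ((B : ℝ) ^ 38) b := by
    refine hb.mono le_rfl ?_
    calc 4 * (1600 : ℝ) ^ e = 2 ^ 2 * ((40 : ℝ) ^ e) ^ 2 := by
          rw [← pow_mul, mul_comm e, pow_mul]; norm_num
      _ ≤ (B : ℝ) ^ 2 * ((B : ℝ) ^ 18) ^ 2 :=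
          mul_le_mul (pow_le_pow_left₀ (by norm_num) hB' 2)
            (pow_le_pow_left₀ (by positivity) h40 2) (by positivity) (by positivity)
      _ = (B : ℝ) ^ 38 := by ring
  have hc' : AI K ((B : ℝ) ^ 57) c := by
    refine hc.mono le_rfl ?_
    calc 8 * (64000 : ℝ) ^ e = 2 ^ 3 * ((40 : ℝ) ^ e) ^ 3 := by
          rw [← pow_mul, mul_comm e, pow_mul]; norm_num
      _ ≤ (B : ℝ) ^ 3 * ((B : ℝ) ^ 18) ^ 3 :=
          mul_le_mul (pow_le_pow_left₀ (by norm_num) hB' 3)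
            (pow_le_pow_left₀ (by positivity) h40 3) (by positivity) (by positivity)
      _ = (B : ℝ) ^ 57 := by ring
  have hIK : AI K ((B : ℝ) ^ 0) Complex.I := by
    rw [pow_zero]
    exact AI.I (hK hI)
  have hgi : ∀ i k, AI K ((B : ℝ) ^ 1) ((g i k : ℤ) : ℂ) := fun i k =>
    val_int _ 1 (by rw [pow_one]; exact hg i k)
  have hri : AI K ((B : ℝ) ^ 1) ((r : ℤ) : ℂ) := val_int _ 1 (by rw [pow_one]; exact hr)
  have hmA : AI K ((B : ℝ) ^ 3) m := val_add hB (val_mul (hgi 1 0) hIK) (hgi 1 1)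
  have hm'A : AI K ((B : ℝ) ^ 3) m' := val_add hB (val_mul (hgi 0 0) hIK) (hgi 0 1)
  have hmbA : AI K ((B : ℝ) ^ 3) mb := val_sub hB (hgi 1 1) (val_mul (hgi 1 0) hIK)
  have hpow2 : ∀ x : ℕ, x ≤ e → AI K ((B : ℝ) ^ 3) ((2 : ℂ) ^ x) := by
    intro x hx
    have h1 := AI.nat K (2 ^ x)
    push_cast at h1
    refine h1.mono le_rfl ?_
    have h3 : 2 ^ x ≤ B ^ 3 := (Nat.pow_le_pow_right (by norm_num) hx).trans h2e
    exact_mod_cast h3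
  have hUA := hpow2 u (by omega)
  have hWA := hpow2 w (by omega)
  have htA := hpow2 e le_rfl
  have hδA : AI K ((B : ℝ) ^ 229) (b ^ 3 - c ^ 2) := val_sub hB (val_pow 3 hb') (val_pow 2 hc')
  have hb2c : AI K ((B : ℝ) ^ 133) (b ^ 2 * c) := val_mul (val_pow 2 hb') hc'
  have c1728 : AI K ((B : ℝ) ^ 11) (1728 : ℂ) := by
    exact_mod_cast val_const (K := K) hB 1728 11 (by norm_num)
  have c1152 : AI K ((B : ℝ) ^ 11) (1152 : ℂ) := by
    exact_mod_cast val_const (K := K) hB 1152 11 (by norm_num)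
  have c3456 : AI K ((B : ℝ) ^ 12) (3456 : ℂ) := by
    exact_mod_cast val_const (K := K) hB 3456 12 (by norm_num)
  have c4608 : AI K ((B : ℝ) ^ 13) (4608 : ℂ) := by
    exact_mod_cast val_const (K := K) hB 4608 13 (by norm_num)
  have c6912 : AI K ((B : ℝ) ^ 13) (6912 : ℂ) := by
    exact_mod_cast val_const (K := K) hB 6912 13 (by norm_num)
  refine ⟨m * mb * (b ^ 3 - c ^ 2) * (2 ^ w) ^ 4 * (2 ^ e) ^ 6 * 2 ^ u, ?_, ?_, ?_⟩
  · exact mul_ne_zero (mul_ne_zero (mul_ne_zero (mul_ne_zero (mul_ne_zero hm0 hmb0) hδ)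
      (pow_ne_zero _ hW)) (pow_ne_zero _ (pow_ne_zero _ two_ne_zero))) hU
  · exact val_mono hB (val_mul (val_mul (val_mul (val_mul (val_mul hmA hmbA) hδA) (val_pow 4 hWA))
      (val_pow 6 htA)) hUA) (by norm_num)
  · intro k
    fin_cases k
    · -- τ
      have e1 : m * mb * (b ^ 3 - c ^ 2) * (2 ^ w) ^ 4 * (2 ^ e) ^ 6 * 2 ^ u * J4 (tau g) 0 =
          m' * mb * (b ^ 3 - c ^ 2) * (2 ^ w) ^ 4 * (2 ^ e) ^ 6 * 2 ^ u := by
        rw [← htau']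
        change _ * tau g = _
        ring
      change Rep K 2 _ (m * mb * (b ^ 3 - c ^ 2) * (2 ^ w) ^ 4 * (2 ^ e) ^ 6 * 2 ^ u * J4 (tau g) 0)
      rw [e1]
      exact val_Rmono hB (val_R0 (val_mul (val_mul (val_mul (val_mul (val_mul hm'A hmbA) hδA)
        (val_pow 4 hWA)) (val_pow 6 htA)) hUA)) (by norm_num)
    · -- j
      have e1 : m * mb * (b ^ 3 - c ^ 2) * (2 ^ w) ^ 4 * (2 ^ e) ^ 6 * 2 ^ u * J4 (tau g) 1 =
          m * mb * (2 ^ w) ^ 4 * (2 ^ e) ^ 6 * 2 ^ u * (1728 * b ^ 3) := by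
        change _ * jf (tau g) = _
        rw [hjt, ← hj]
        ring
      change Rep K 2 _ (m * mb * (b ^ 3 - c ^ 2) * (2 ^ w) ^ 4 * (2 ^ e) ^ 6 * 2 ^ u * J4 (tau g) 1)
      rw [e1]
      exact val_Rmono hB (val_R0 (val_mul (val_mul (val_mul (val_mul (val_mul hmA hmbA)
        (val_pow 4 hWA)) (val_pow 6 htA)) hUA) (val_mul c1728 (val_pow 3 hb')))) (by norm_num)
    · -- j'
      have e1 : m * mb * (b ^ 3 - c ^ 2) * (2 ^ w) ^ 4 * (2 ^ e) ^ 6 * 2 ^ u * J4 (tau g) 2 =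
          -(m * mb * (2 ^ w) ^ 2 * (2 ^ e) ^ 3 * 2 ^ u * m ^ 2 * (3456 * Complex.I * (b ^ 2 * c))) *
            (th : ℂ) := by
        change _ * deriv jf (tau g) = _
        rw [hdjt]
        calc _ = m * mb * (2 ^ w) ^ 2 * (2 ^ e) ^ 3 * 2 ^ u * (z * 2 ^ w) ^ 2 *
              (deriv jf σ * ((b ^ 3 - c ^ 2) * (2 ^ e) ^ 3)) := by ring
          _ = _ := by rw [hzm, hdj]; ring
      change Rep K 2 _ (m * mb * (b ^ 3 - c ^ 2) * (2 ^ w) ^ 4 * (2 ^ e) ^ 6 * 2 ^ u * J4 (tau g) 2)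
      rw [e1]
      exact val_Rmono hB (val_R1 (AI.neg (val_mul (val_mul (val_mul (val_mul (val_mul
        (val_mul hmA hmbA) (val_pow 2 hWA)) (val_pow 3 htA)) hUA) (val_pow 2 hmA))
        (val_mul (val_mul c3456 hIK) hb2c)))) (by norm_num)
    · -- j''
      have e1 : m * mb * (b ^ 3 - c ^ 2) * (2 ^ w) ^ 4 * (2 ^ e) ^ 6 * 2 ^ u * J4 (tau g) 3 =
          (m * mb * m ^ 4 * 2 ^ u *
            (1152 * (a * (b ^ 2 * c)) - 4608 * (b * c ^ 2) - 3456 * b ^ 4)) * (th : ℂ) ^ 2 +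
          (m * mb * m ^ 4 * (3456 * (b ^ 2 * c) * (2 ^ e) ^ 3 * 2 ^ w)) * (th : ℂ) +
          (-(m * mb * 2 ^ u * 2 ^ w * (2 ^ e) ^ 3 * m ^ 3 * (r : ℂ) *
            (6912 * Complex.I * (b ^ 2 * c)))) * (th : ℂ) := by
        change _ * deriv (deriv jf) (tau g) = _
        rw [hddjt]
        calc _ = m * mb * (z * 2 ^ w) ^ 4 *
                (deriv (deriv jf) σ * ((b ^ 3 - c ^ 2) * (2 ^ e) ^ 6 * 2 ^ u)) +
              m * mb * 2 ^ u * 2 ^ w * (2 ^ e) ^ 3 * (2 * (r : ℂ)) * (z * 2 ^ w) ^ 3 *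
                (deriv jf σ * ((b ^ 3 - c ^ 2) * (2 ^ e) ^ 3)) := by ring
          _ = _ := by rw [hzm, hdj, hddj]; ring
      change Rep K 2 _ (m * mb * (b ^ 3 - c ^ 2) * (2 ^ w) ^ 4 * (2 ^ e) ^ 6 * 2 ^ u * J4 (tau g) 3)
      rw [e1]
      have t1 : AI K ((B : ℝ) ^ 494)
          (1152 * (a * (b ^ 2 * c)) - 4608 * (b * c ^ 2) - 3456 * b ^ 4) :=
        val_mono hB (val_sub hB (val_sub hB (val_mul c1152 (val_mul ha' hb2c))
          (val_mul c4608 (val_mul hb' (val_pow 2 hc')))) (val_mul c3456 (val_pow 4 hb')))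
          (by norm_num)
      exact val_Rmono hB (val_Radd hB (val_Radd hB
        (val_R2 (val_mul (val_mul (val_mul (val_mul hmA hmbA) (val_pow 4 hmA)) hUA) t1))
        (val_R1 (val_mul (val_mul (val_mul hmA hmbA) (val_pow 4 hmA))
          (val_mul (val_mul (val_mul c3456 hb2c) (val_pow 3 htA)) hWA))))
        (val_R1 (AI.neg (val_mul (val_mul (val_mul (val_mul (val_mul (val_mul (val_mul hmA hmbA)
          hUA) hWA) (val_pow 3 htA)) (val_pow 3 hmA)) hri)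
          (val_mul (val_mul c6912 hIK) hb2c))))) (by norm_num)

end Pool.Agent.Lib.MP5e
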