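import Pool.Agent.Lib.MP_5e64e7_nt.RepLow
import Pool.Agent.Lib.MP_5e64e7_nt.Val

set_option autoImplicit false

noncomputable section

namespace Pool.Agent.Lib.MP5e

open Polynomial Topology

namespace Approx

theorem AI_norm_le {K : IntermediateField ℚ ℂ} {M : ℝ} {x : ℂ} (h : AI K M x) : ‖x‖ ≤ M := by
  obtain ⟨a, ha, _, hφ⟩ := h
  have := hφ K.val
  rw [← ha]
  exact this

theorem AI_prod {K : IntermediateField ℚ ℂ} {ι : Type*} (s : Finset ι) (M : ℝ)
    (x : ι → ℂ) (h : ∀ i ∈ s, AI K M (x i)) : AI K (M ^ s.card) (∏ i ∈ s, x i) := by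
  classical
  induction s using Finset.induction_on with
  | empty => simpa using AI.int K 1
  | insert i s hi ih =>
    rw [Finset.prod_insert hi, Finset.card_insert_of_notMem hi, pow_succ, mul_comm (M ^ s.card)]
    exact (h i (Finset.mem_insert_self _ _)).mul
      (ih fun j hj => h j (Finset.mem_insert_of_mem hj))

/-- one field for all the points -/
theorem field (n : ℕ) (C0 : ℕ) (hval : ∀ (K0 : IntermediateField ℚ ℂ), FiniteDimensional ℚ K0 →
    Complex.I ∈ K0 → ∀ (B : ℕ), 2 ≤ B → ∀ (g : Matrix (Fin 2) (Fin 2) ℤ) (e : ℕ),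
    g.det = 2 ^ e → (∀ i k, |g i k| ≤ (B : ℤ)) →
    ∃ K : IntermediateField ℚ ℂ, K0 ≤ K ∧ FiniteDimensional ℚ K ∧
      Module.finrank ℚ K ≤ B ^ C0 * Module.finrank ℚ K0 ∧
      ∃ dl : ℂ, dl ≠ 0 ∧ AI K ((B : ℝ) ^ C0) dl ∧
        ∀ k : Fin 4, Rep K 2 ((B : ℝ) ^ C0) (dl * J4 (tau g) k))
    (K0 : IntermediateField ℚ ℂ) (hK0 : FiniteDimensional ℚ K0) (hI : Complex.I ∈ K0)
    (B : ℕ) (e : Fin n → ℕ) (g : Fin n → Matrix (Fin 2) (Fin 2) ℤ) (hB : 2 ≤ B)
    (hdet : ∀ l, (g l).det = 2 ^ e l) (hent : ∀ l i k, |g l i k| ≤ (B : ℤ)) (s : Finset (Fin n)) :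
    ∃ K : IntermediateField ℚ ℂ, K0 ≤ K ∧ FiniteDimensional ℚ K ∧
      Module.finrank ℚ K ≤ (B ^ C0) ^ s.card * Module.finrank ℚ K0 ∧
      ∀ l ∈ s, ∃ dl : ℂ, dl ≠ 0 ∧ AI K ((B : ℝ) ^ C0) dl ∧
        ∀ k : Fin 4, Rep K 2 ((B : ℝ) ^ C0) (dl * J4 (tau (g l)) k) := by
  classical
  induction s using Finset.induction_on with
  | empty => exact ⟨K0, le_rfl, hK0, by simp, by simp⟩
  | insert l s hl ih =>
    obtain ⟨K, h1, h2, h3, h4⟩ := ih
    obtain ⟨K', h1', h2', h3', dl, h4', h5', h6'⟩ := hval K h2 (h1 hI) B hB (g l) (e l) (hdet l)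
      (hent l)
    refine ⟨K', h1.trans h1', h2', ?_, ?_⟩
    · rw [Finset.card_insert_of_notMem hl]
      calc Module.finrank ℚ K' ≤ B ^ C0 * Module.finrank ℚ K := h3'
        _ ≤ B ^ C0 * ((B ^ C0) ^ s.card * Module.finrank ℚ K0) := Nat.mul_le_mul_left _ h3
        _ = (B ^ C0) ^ (s.card + 1) * Module.finrank ℚ K0 := by ring
    · intro l' hl'
      rcases Finset.mem_insert.mp hl' with h | h
      · subst h
        exact ⟨dl, h4', h5', h6'⟩
      · obtain ⟨dl', e1, e2, e3⟩ := h4 l' h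
        exact ⟨dl', e1, e2.mono h1' le_rfl, fun k => (e3 k).mono h1' le_rfl le_rfl⟩

/-- homogenisation of an integer polynomial -/
theorem homog {ι : Type*} (P : MvPolynomial ι ℤ) (x : ι → ℂ) (dl : ℂ) :
    dl ^ P.totalDegree * MvPolynomial.aeval x P =
      ∑ s ∈ P.support, ((P.coeff s : ℤ) : ℂ) * (dl ^ (P.totalDegree - s.sum fun _ k => k) *
        ∏ v ∈ s.support, (dl * x v) ^ s v) := by
  rw [MvPolynomial.aeval_def, MvPolynomial.eval₂_eq, Finset.mul_sum]
  refine Finset.sum_congr rfl fun s hs => ?_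
  have h1 : (s.sum fun _ k => k) ≤ P.totalDegree := MvPolynomial.le_totalDegree hs
  have h2 : ∏ v ∈ s.support, (dl * x v) ^ s v =
      dl ^ (s.sum fun _ k => k) * ∏ v ∈ s.support, x v ^ s v := by
    rw [Finsupp.sum, ← Finset.prod_pow_eq_pow_sum, ← Finset.prod_mul_distrib]
    exact Finset.prod_congr rfl fun v _ => mul_pow _ _ _
  rw [h2]
  have h3 : dl ^ P.totalDegree = dl ^ (P.totalDegree - s.sum fun _ k => k) *
      dl ^ (s.sum fun _ k => k) := by
    rw [← pow_add]; congr 1; omega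
  rw [h3]
  simp only [algebraMap_int_eq, eq_intCast]
  ring

theorem rep_homog {ι : Type*} (K : IntermediateField ℚ ℂ) (P : MvPolynomial ι ℤ) (x : ι → ℂ)
    (dl : ℂ) (M : ℝ) (hM : 1 ≤ M) (hdl : Rep K 0 M dl) (hx : ∀ v, Rep K 2 M (dl * x v)) :
    Rep K (2 * P.totalDegree) ((∑ s ∈ P.support, |((P.coeff s : ℤ) : ℝ)|) * M ^ P.totalDegree)
      (dl ^ P.totalDegree * MvPolynomial.aeval x P) := by
  rw [homog, Finset.sum_mul]
  refine Rep.sum _ _ _ fun s hs => ?_
  have h1 : (s.sum fun _ k => k) ≤ P.totalDegree := MvPolynomial.le_totalDegree hs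
  refine Rep.mono le_rfl (m := 0 + ((P.totalDegree - s.sum fun _ k => k) * 0 +
    ∑ v ∈ s.support, s v * 2)) ?_ (M := |((P.coeff s : ℤ) : ℝ)| *
      (M ^ (P.totalDegree - s.sum fun _ k => k) * ∏ v ∈ s.support, M ^ s v)) ?_ ?_
  · rw [← Finset.sum_mul]
    have : ∑ v ∈ s.support, s v = s.sum fun _ k => k := rfl
    rw [this]
    omega
  · rw [Finset.prod_pow_eq_pow_sum]
    have : ∑ v ∈ s.support, s v = s.sum fun _ k => k := rfl
    rw [this, ← pow_add]
    apply le_of_eq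
    congr 2
    omega
  · exact ((AI.int K _).rep 0).mul ((hdl.pow _).mul
      (Rep.prod _ _ _ _ fun v _ => (hx v).pow _))

end Approx

open Approx in
theorem approx (n : ℕ) (P : MvPolynomial (Option (Fin n × Fin 4)) ℤ) :
    ∃ C : ℕ, ∀ (B : ℕ) (e : Fin n → ℕ) (g : Fin n → Matrix (Fin 2) (Fin 2) ℤ), 2 ≤ B →
      (∀ l, (g l).det = 2 ^ e l) → (∀ l i k, |g l i k| ≤ (B : ℤ)) →
      MvPolynomial.aeval (fam fun l => tau (g l)) P = 0 ∨
        Real.exp (-((B : ℝ) ^ C)) ≤ ‖MvPolynomial.aeval (fam fun l => tau (g l)) P‖ := by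
  classical
  obtain ⟨C0, hval⟩ := val
  obtain ⟨A, hA⟩ := rep_lower
  -- the base field
  set K0 : IntermediateField ℚ ℂ := IntermediateField.adjoin ℚ {Complex.I} with hK0
  have hK0fd : FiniteDimensional ℚ K0 := by
    apply IntermediateField.adjoin.finiteDimensional
    have : IsIntegral ℤ Complex.I := Complex.isIntegral_int_I
    exact this.tower_top
  have hI : Complex.I ∈ K0 := IntermediateField.mem_adjoin_simple_self ℚ _
  set f0 := Module.finrank ℚ K0 with hf0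
  set T := P.totalDegree with hT
  set H1 : ℕ := ∑ s ∈ P.support, (P.coeff s).natAbs with hH1
  set C1 : ℕ := n * C0 + f0 + (2 * T + 1) + (H1 + 2 + n * C0 * T) with hC1
  refine ⟨(A + C1) * A + n * C0 * T + 1, fun B e g hB hdet hent => ?_⟩
  by_cases h0 : MvPolynomial.aeval (fam fun l => tau (g l)) P = 0
  · exact Or.inl h0
  right
  obtain ⟨K, hK1, hK2, hK3, hK4⟩ := field n C0 hval K0 hK0fd hI B e g hB hdet hent Finset.univ
  rw [Finset.card_univ, Fintype.card_fin] at hK3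
  choose! dl hdl0 hdlA hdlR using hK4
  have hB1 : (1 : ℝ) ≤ B := by exact_mod_cast (by omega : 1 ≤ B)
  set M1 : ℝ := ((B : ℝ) ^ C0) ^ n with hM1
  have hM11 : 1 ≤ M1 := one_le_pow₀ (one_le_pow₀ hB1)
  set DL : ℂ := ∏ l, dl l with hDL
  have hDL0 : DL ≠ 0 := Finset.prod_ne_zero_iff.mpr fun l _ => hdl0 l (Finset.mem_univ _)
  have hDLA : AI K M1 DL := by
    have := AI_prod (K := K) Finset.univ ((B : ℝ) ^ C0) dl (fun l _ => hdlA l (Finset.mem_univ _))
    rwa [Finset.card_univ, Fintype.card_fin] at this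
  have hvar : ∀ v, Rep K 2 M1 (DL * fam (fun l => tau (g l)) v) := by
    intro v
    rcases v with _ | ⟨l, k⟩
    · have h1 := (hDLA.rep 0).mul (Rep.th K)
      refine h1.mono le_rfl (by norm_num) (by simp)
    · have h1 : DL * fam (fun l => tau (g l)) (some (l, k)) =
          (∏ l' ∈ Finset.univ.erase l, dl l') * (dl l * J4 (tau (g l)) k) := by
        rw [hDL, ← Finset.mul_prod_erase Finset.univ dl (Finset.mem_univ l)]
        simp only [fam]
        ring
      rw [h1]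
      have h2 : AI K (((B : ℝ) ^ C0) ^ (n - 1)) (∏ l' ∈ Finset.univ.erase l, dl l') := by
        have := AI_prod (K := K) (Finset.univ.erase l) ((B : ℝ) ^ C0) dl
          (fun l _ => hdlA l (Finset.mem_univ _))
        rwa [Finset.card_erase_of_mem (Finset.mem_univ _), Finset.card_univ, Fintype.card_fin]
          at this
      refine ((h2.rep 0).mul (hdlR l (Finset.mem_univ _) k)).mono le_rfl (by norm_num) ?_
      have hn : n - 1 + 1 = n := by
        have := l.2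
        omega
      rw [hM1, ← pow_succ, hn]
  have hrep := rep_homog K P (fam fun l => tau (g l)) DL M1 hM11 (hDLA.rep 0) hvar
  set x : ℂ := DL ^ P.totalDegree * MvPolynomial.aeval (fam fun l => tau (g l)) P with hx
  have hx0 : x ≠ 0 := mul_ne_zero (pow_ne_zero _ hDL0) h0
  set M : ℕ := H1 * B ^ (n * C0 * T) + 2 with hM
  have hMle : (∑ s ∈ P.support, |((P.coeff s : ℤ) : ℝ)|) * M1 ^ P.totalDegree ≤ (M : ℝ) := by
    have h1 : (∑ s ∈ P.support, |((P.coeff s : ℤ) : ℝ)|) = (H1 : ℝ) := by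
      rw [hH1]
      push_cast
      refine Finset.sum_congr rfl fun s _ => ?_
      rw [Nat.cast_natAbs, Int.cast_abs]
    have h2 : M1 ^ P.totalDegree = (B : ℝ) ^ (n * C0 * T) := by
      rw [hM1, ← pow_mul, ← pow_mul]
      congr 1
      ring
    rw [h1, h2, hM]
    push_cast
    linarith
  have h1 := hA K hK2 ((B ^ C0) ^ n * f0) (2 * T + 1) M hK3 (by omega) (by omega) x
    (hrep.mono le_rfl (by omega) hMle) hx0
  have hpow : ∀ k : ℕ, k ≤ B ^ k := fun k =>
    (Nat.lt_two_pow_self).le.trans (Nat.pow_le_pow_left hB k)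
  have hsize : (B ^ C0) ^ n * f0 * (2 * T + 1) * M ≤ B ^ C1 := by
    have e1 : (B ^ C0) ^ n = B ^ (n * C0) := by rw [← pow_mul, mul_comm]
    have e2 : M ≤ B ^ (H1 + 2 + n * C0 * T) := by
      calc M ≤ (H1 + 2) * B ^ (n * C0 * T) := by
            rw [hM, add_mul]
            have : 1 ≤ B ^ (n * C0 * T) := Nat.one_le_pow _ _ (by omega)
            omega
        _ ≤ B ^ (H1 + 2) * B ^ (n * C0 * T) := Nat.mul_le_mul_right _ (hpow _)
        _ = _ := by rw [← pow_add]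
    calc (B ^ C0) ^ n * f0 * (2 * T + 1) * M
        ≤ B ^ (n * C0) * B ^ f0 * B ^ (2 * T + 1) * B ^ (H1 + 2 + n * C0 * T) := by
          rw [e1]
          exact Nat.mul_le_mul (Nat.mul_le_mul (Nat.mul_le_mul_left _ (hpow _)) (hpow _)) e2
      _ = B ^ C1 := by rw [hC1, ← pow_add, ← pow_add, ← pow_add]
  have hexp : (A * ((B ^ C0) ^ n * f0 * (2 * T + 1) * M)) ^ A ≤ B ^ ((A + C1) * A) := by
    rw [pow_mul]
    apply Nat.pow_le_pow_left
    rw [pow_add]
    exact Nat.mul_le_mul (hpow A) hsize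
  have h2 : Real.exp (-((B : ℝ) ^ ((A + C1) * A))) ≤ ‖x‖ := by
    refine le_trans (Real.exp_le_exp.mpr ?_) h1
    have : (((A * ((B ^ C0) ^ n * f0 * (2 * T + 1) * M)) ^ A : ℕ) : ℝ) ≤
        ((B ^ ((A + C1) * A) : ℕ) : ℝ) := by exact_mod_cast hexp
    push_cast at this ⊢
    linarith
  -- divide by the denominator
  have h3 : ‖x‖ ≤ Real.exp ((B : ℝ) ^ (n * C0 * T)) *
      ‖MvPolynomial.aeval (fam fun l => tau (g l)) P‖ := by
    rw [hx, norm_mul, norm_pow]
    gcongr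
    calc ‖DL‖ ^ P.totalDegree ≤ M1 ^ P.totalDegree := by
          gcongr
          exact AI_norm_le hDLA
      _ = (B : ℝ) ^ (n * C0 * T) := by
          rw [hM1, ← pow_mul, ← pow_mul]
          congr 1
          ring
      _ ≤ Real.exp ((B : ℝ) ^ (n * C0 * T)) := by
          have := Real.add_one_le_exp ((B : ℝ) ^ (n * C0 * T))
          linarith
  have h4 : Real.exp (-((B : ℝ) ^ ((A + C1) * A + n * C0 * T + 1))) *
      Real.exp ((B : ℝ) ^ (n * C0 * T)) ≤ Real.exp (-((B : ℝ) ^ ((A + C1) * A))) := by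
    rw [← Real.exp_add]
    apply Real.exp_le_exp.mpr
    have e1 : (B : ℝ) ^ ((A + C1) * A) ≤ (B : ℝ) ^ ((A + C1) * A + n * C0 * T) :=
      pow_le_pow_right₀ hB1 (by omega)
    have e2 : (B : ℝ) ^ (n * C0 * T) ≤ (B : ℝ) ^ ((A + C1) * A + n * C0 * T) :=
      pow_le_pow_right₀ hB1 (by omega)
    have e3 : 2 * (B : ℝ) ^ ((A + C1) * A + n * C0 * T) ≤
        (B : ℝ) ^ ((A + C1) * A + n * C0 * T + 1) := by
      rw [pow_succ, mul_comm]
      have : (2 : ℝ) ≤ B := by exact_mod_cast hB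
      gcongr
    linarith
  have h5 := (h4.trans h2).trans h3
  have h6 : 0 < Real.exp ((B : ℝ) ^ (n * C0 * T)) := Real.exp_pos _
  rw [mul_comm] at h5
  exact le_of_mul_le_mul_left h5 h6

end Pool.Agent.Lib.MP5e
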