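import Pool.Agent.Lib.MP_5e64e7_nt.Fgood

set_option autoImplicit false

noncomputable section

namespace Pool.Agent.Lib.MP5e

open Polynomial Topology

private theorem rrc_ne' : (rr : ℂ) ≠ 0 := by
  exact_mod_cast rr_pos.ne'

private theorem ff_split {w : ℂ} (hw : w ∈ good) : ff w = w / (1 - w) ^ 2 +
    (∑' k : ℕ, w * (rr : ℂ) ^ (k + 1) / (1 - w * (rr : ℂ) ^ (k + 1)) ^ 2) +
    ∑' k : ℕ, w⁻¹ * (rr : ℂ) ^ (k + 1) / (1 - w⁻¹ * (rr : ℂ) ^ (k + 1)) ^ 2 := by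
  unfold ff
  rw [(summable_sq hw).tsum_add (summable_sq (good_inv hw)), add_assoc]

private theorem gg_split {w : ℂ} (hw : w ∈ good) : gg w = (w + 1) / (2 * (w - 1)) +
    ((∑' k : ℕ, w⁻¹ * (rr : ℂ) ^ (k + 1) / (1 - w⁻¹ * (rr : ℂ) ^ (k + 1))) -
    ∑' k : ℕ, w * (rr : ℂ) ^ (k + 1) / (1 - w * (rr : ℂ) ^ (k + 1))) := by
  unfold gg
  rw [(summable_one (good_inv hw)).tsum_sub (summable_one hw)]

private theorem inv_rr_mul {w : ℂ} (k : ℕ) :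
    ((rr : ℂ) * w)⁻¹ * (rr : ℂ) ^ (k + 1 + 1) = w⁻¹ * (rr : ℂ) ^ (k + 1) := by
  have h := rrc_ne'
  rw [mul_inv, pow_succ _ (k + 1)]
  field_simp

private theorem inv_rr_mul0 {w : ℂ} :
    ((rr : ℂ) * w)⁻¹ * (rr : ℂ) ^ (0 + 1) = w⁻¹ := by
  have h := rrc_ne'
  rw [mul_inv, zero_add, pow_one]
  field_simp

private theorem rr_mul {w : ℂ} (k : ℕ) :
    ((rr : ℂ) * w) * (rr : ℂ) ^ (k + 1) = w * (rr : ℂ) ^ (k + 1 + 1) := by
  rw [pow_succ _ (k + 1)]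
  ring

private theorem one_sub_ne {w : ℂ} (hw : w ∈ good) : 1 - w ≠ 0 := by
  have h2 := good_one_sub hw 0
  rwa [pow_zero, mul_one] at h2

theorem ff_rr {w : ℂ} (hw : w ∈ good) : ff ((rr : ℂ) * w) = ff w := by
  have hrw := good_rr hw
  rw [ff_split hrw, ff_split hw]
  have h1 := (summable_sq (good_inv hrw)).tsum_eq_zero_add
  have h2 := (summable_sq hw).tsum_eq_zero_add
  rw [h1, h2]
  simp only [inv_rr_mul, inv_rr_mul0, rr_mul]
  have h3 : w⁻¹ / (1 - w⁻¹) ^ 2 = w / (1 - w) ^ 2 := by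
    have e1 := one_sub_ne hw
    have e2 := one_sub_ne (good_inv hw)
    have e3 : w ≠ 0 := hw.1
    have e4 : 1 - w⁻¹ = -(1 - w) / w := by field_simp; ring
    rw [e4]
    field_simp
  rw [h3, zero_add, pow_one, mul_comm (rr : ℂ) w]
  ring

theorem gg_rr {w : ℂ} (hw : w ∈ good) : gg ((rr : ℂ) * w) = gg w - 1 := by
  have hrw := good_rr hw
  rw [gg_split hrw, gg_split hw]
  have h1 := (summable_one (good_inv hrw)).tsum_eq_zero_add
  have h2 := (summable_one hw).tsum_eq_zero_add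
  rw [h1, h2]
  simp only [inv_rr_mul, inv_rr_mul0, rr_mul]
  have h3 : w⁻¹ / (1 - w⁻¹) = (w + 1) / (2 * (w - 1)) - 1 / 2 := by
    have e1 := one_sub_ne hw
    have e3 : w ≠ 0 := hw.1
    have e4 : 1 - w⁻¹ = (w - 1) / w := by field_simp
    have e5 : w - 1 ≠ 0 := by
      intro h0
      apply e1
      rw [← neg_sub, h0, neg_zero]
    rw [e4]
    field_simp
    ring
  have h4 : ((rr : ℂ) * w + 1) / (2 * ((rr : ℂ) * w - 1)) =
      -(w * (rr : ℂ) ^ (0 + 1) / (1 - w * (rr : ℂ) ^ (0 + 1))) - 1 / 2 := by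
    have e1 := one_sub_ne hrw
    have e5 : (rr : ℂ) * w - 1 ≠ 0 := by
      intro h0
      apply e1
      rw [← neg_sub, h0, neg_zero]
    have e6 : 1 - w * (rr : ℂ) ^ (0 + 1) = -((rr : ℂ) * w - 1) := by ring
    rw [e6]
    field_simp
    ring
  rw [h3, h4]
  ring

theorem ff_inv {w : ℂ} (hw : w ∈ good) : ff w⁻¹ = ff w := by
  have h3 : w⁻¹ / (1 - w⁻¹) ^ 2 = w / (1 - w) ^ 2 := by
    have e1 := one_sub_ne hw
    have e2 := one_sub_ne (good_inv hw)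
    have e3 : w ≠ 0 := hw.1
    have e4 : 1 - w⁻¹ = -(1 - w) / w := by field_simp; ring
    rw [e4]
    field_simp
  unfold ff
  rw [h3, inv_inv]
  congr 1
  exact tsum_congr fun k => add_comm _ _

theorem gg_neg_one : gg (-1) = 0 := by
  unfold gg
  have h : (-1 : ℂ)⁻¹ = -1 := by norm_num
  rw [h]
  simp

theorem ff_neg_one : ∃ x : ℝ, ff (-1) = (x : ℂ) ∧ x ≤ -(1 / 4) := by
  refine ⟨-(1 / 4) + ∑' k : ℕ, (-(rr ^ (k + 1) / (1 + rr ^ (k + 1)) ^ 2) +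
    -(rr ^ (k + 1) / (1 + rr ^ (k + 1)) ^ 2)), ?_, ?_⟩
  · unfold ff
    have h : (-1 : ℂ)⁻¹ = -1 := by norm_num
    rw [h]
    push_cast
    have h2 : (-1 : ℂ) / (1 - -1) ^ 2 = -(1 / 4) := by norm_num
    rw [h2]
    congr 1
    refine tsum_congr fun k => ?_
    have h3 : (1 : ℂ) - -1 * (rr : ℂ) ^ (k + 1) = 1 + (rr : ℂ) ^ (k + 1) := by ring
    rw [h3]
    ring
  · have h : ∑' k : ℕ, (-(rr ^ (k + 1) / (1 + rr ^ (k + 1)) ^ 2) +
        -(rr ^ (k + 1) / (1 + rr ^ (k + 1)) ^ 2)) ≤ 0 := by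
      refine tsum_nonpos fun k => ?_
      have := pow_pos rr_pos (k + 1)
      have h1 : 0 ≤ rr ^ (k + 1) / (1 + rr ^ (k + 1)) ^ 2 := by positivity
      linarith
    linarith

end Pool.Agent.Lib.MP5e
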