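import Pool.Agent.Lib.MP_5e64e7_nt.BdsA
import Pool.Agent.Lib.MP_5e64e7_nt.Fser

set_option autoImplicit false

noncomputable section

namespace Pool.Agent.Lib.MP5e

open Polynomial Topology

private theorem good_pow {w : ℂ} (hw : w ∈ good) (m : ℕ) : (rr : ℂ) ^ m * w ∈ good := by
  induction m with
  | zero => simpa using hw
  | succ m ih =>
    have h := good_rr ih
    rw [pow_succ']
    rwa [← mul_assoc] at h

private theorem ff_pow {w : ℂ} (hw : w ∈ good) (m : ℕ) : ff ((rr : ℂ) ^ m * w) = ff w := by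
  induction m with
  | zero => rw [pow_zero, one_mul]
  | succ m ih =>
    rw [pow_succ', mul_assoc, ff_rr (good_pow hw m), ih]

private theorem gg_pow {w : ℂ} (hw : w ∈ good) (m : ℕ) :
    gg ((rr : ℂ) ^ m * w) = gg w - m := by
  induction m with
  | zero => rw [pow_zero, one_mul]; simp
  | succ m ih =>
    rw [pow_succ', mul_assoc, gg_rr (good_pow hw m), ih]
    push_cast
    ring

theorem fg_circ : ∃ c : ℝ, 1 ≤ c ∧ ∀ (K : ℕ) (w : ℂ), (‖w‖ = rho K ∨ ‖w‖ = (rho K)⁻¹) →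
    ‖ff w‖ ≤ c ∧ ‖gg w‖ ≤ K + c := by
  have hrr : ∀ m : ℕ, ‖((rr : ℂ)) ^ m‖ = Real.exp (-(2 * Real.pi * m)) := by
    intro m
    rw [norm_pow, Complex.norm_real, Real.norm_of_nonneg rr_pos.le]
    unfold rr
    rw [← Real.exp_nat_mul]
    congr 1
    ring
  have hS : IsCompact (Metric.sphere (0 : ℂ) (rho 0)⁻¹) := isCompact_sphere _ _
  have hSg : ∀ w ∈ Metric.sphere (0 : ℂ) (rho 0)⁻¹, w ∈ good := by
    intro w hw
    rw [mem_sphere_zero_iff_norm] at hw
    exact circ_good 0 w (Or.inr hw)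
  have hf : ContinuousOn ff (Metric.sphere (0 : ℂ) (rho 0)⁻¹) := fun w hw =>
    (ff_differentiableAt (hSg w hw)).continuousAt.continuousWithinAt
  have hg : ContinuousOn gg (Metric.sphere (0 : ℂ) (rho 0)⁻¹) := fun w hw =>
    (gg_hasDerivAt (hSg w hw)).continuousAt.continuousWithinAt
  obtain ⟨c1, hc1⟩ := hS.exists_bound_of_continuousOn hf
  obtain ⟨c2, hc2⟩ := hS.exists_bound_of_continuousOn hg
  have key : ∀ w : ℂ, ‖w‖ = Real.exp (-Real.pi) → w ∈ good ∧ ‖ff w‖ ≤ max c1 c2 ∧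
      ‖gg w‖ ≤ max c1 c2 := by
    intro w hw
    have h1 : w ∈ Metric.sphere (0 : ℂ) (rho 0)⁻¹ := by
      rw [mem_sphere_zero_iff_norm, hw]
      unfold rho
      rw [← Real.exp_neg]
      congr 1
      push_cast
      ring
    exact ⟨hSg w h1, (hc1 w h1).trans (le_max_left _ _), (hc2 w h1).trans (le_max_right _ _)⟩
  refine ⟨max 0 (max c1 c2) + 1, by linarith [le_max_left 0 (max c1 c2)], ?_⟩
  have hm : max c1 c2 ≤ max 0 (max c1 c2) := le_max_right _ _
  have hm0 : 0 ≤ max 0 (max c1 c2) := le_max_left _ _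
  intro K w hw
  rcases hw with hw | hw
  · have hwg : w ∈ good := circ_good K w (Or.inl hw)
    have h1 : ‖(rr : ℂ) ^ (K + 1) * w‖ = Real.exp (-Real.pi) := by
      rw [norm_mul, hrr, hw]
      unfold rho
      rw [← Real.exp_add]
      congr 1
      push_cast
      ring
    obtain ⟨h2, h3, h4⟩ := key _ h1
    rw [ff_pow hwg] at h3
    rw [gg_pow hwg] at h4
    refine ⟨by linarith, ?_⟩
    have h5 : gg w = (gg w - ((K + 1 : ℕ) : ℂ)) + ((K + 1 : ℕ) : ℂ) := by ring
    rw [h5]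
    refine (norm_add_le _ _).trans ?_
    rw [Complex.norm_natCast]
    push_cast at h4 ⊢
    linarith
  · have hr0 : ((rr : ℂ)) ^ K ≠ 0 := pow_ne_zero _ (by
      have := rr_pos.ne'
      exact_mod_cast this)
    have h1 : ‖((rr : ℂ) ^ K)⁻¹ * w‖ = Real.exp (-Real.pi) := by
      rw [norm_mul, norm_inv, hrr, hw]
      unfold rho
      rw [← Real.exp_neg, ← Real.exp_neg, ← Real.exp_add]
      congr 1
      ring
    obtain ⟨h2, h3, h4⟩ := key _ h1
    have h5 : w = (rr : ℂ) ^ K * (((rr : ℂ) ^ K)⁻¹ * w) := by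
      rw [← mul_assoc, mul_inv_cancel₀ hr0, one_mul]
    have h6 : ff w = ff (((rr : ℂ) ^ K)⁻¹ * w) := by
      conv_lhs => rw [h5]
      exact ff_pow h2 K
    have h7 : gg w = gg (((rr : ℂ) ^ K)⁻¹ * w) - K := by
      conv_lhs => rw [h5]
      exact gg_pow h2 K
    refine ⟨by rw [h6]; linarith, ?_⟩
    rw [h7]
    refine (norm_sub_le _ _).trans ?_
    rw [Complex.norm_natCast]
    linarith

end Pool.Agent.Lib.MP5e
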