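import Pool.Agent.Lib.MP_5e64e7_nt.Fgood

set_option autoImplicit false

noncomputable section

namespace Pool.Agent.Lib.MP5e

open Polynomial Topology

private lemma bdsA_rr_pow (n : ℕ) : rr ^ n = Real.exp (-(2 * Real.pi * n)) := by
  unfold rr
  rw [← Real.exp_nat_mul]
  congr 1
  ring

theorem rho_ge (K : ℕ) : 20 ≤ rho K := by
  unfold rho
  have h1 : (3 : ℝ) ≤ Real.pi * (2 * K + 1) := by
    have hpi := Real.pi_gt_three
    have hK : (0 : ℝ) ≤ K := Nat.cast_nonneg K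
    nlinarith
  have h2 : Real.exp 3 ≤ Real.exp (Real.pi * (2 * K + 1)) := Real.exp_le_exp.mpr h1
  have h3 : Real.exp 3 = (Real.exp 1) ^ 3 := by
    rw [← Real.exp_nat_mul]; norm_num
  have h4 := Real.exp_one_gt_d9
  have h5 : (2.718 : ℝ) ^ 3 ≤ (Real.exp 1) ^ 3 := by
    apply pow_le_pow_left₀ (by norm_num)
    linarith
  norm_num at h5
  linarith

private lemma bdsA_rho_pos (K : ℕ) : 0 < rho K := Real.exp_pos _

theorem circ_good (K : ℕ) (w : ℂ) (h : ‖w‖ = rho K ∨ ‖w‖ = (rho K)⁻¹) : w ∈ good := by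
  have hw : 0 < ‖w‖ := by
    rcases h with h | h
    · rw [h]; exact bdsA_rho_pos K
    · rw [h]; exact inv_pos.mpr (bdsA_rho_pos K)
  refine ⟨norm_pos_iff.mp hw, ?_⟩
  intro k hk
  have h1 : ‖w‖ = Real.exp (-(2 * Real.pi * k)) := by
    rw [hk, norm_zpow, Complex.norm_real, Real.norm_of_nonneg rr_pos.le]
    unfold rr
    rw [← Real.rpow_intCast, ← Real.exp_mul]
    congr 1
    ring
  have hpi := Real.pi_pos
  rcases h with h | h
  · rw [h1] at h
    unfold rho at h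
    have h2 := Real.exp_injective h
    have h3 : Real.pi * ((2 * (K : ℝ) + 1) + 2 * k) = 0 := by linarith
    have h4 : (2 * (K : ℝ) + 1) + 2 * k = 0 := by
      rcases mul_eq_zero.mp h3 with h5 | h5
      · exact absurd h5 hpi.ne'
      · exact h5
    have h5 : ((2 * (K : ℤ) + 1) + 2 * k : ℤ) = 0 := by exact_mod_cast h4
    omega
  · rw [h1] at h
    unfold rho at h
    rw [← Real.exp_neg] at h
    have h2 := Real.exp_injective h
    have h3 : Real.pi * ((2 * (K : ℝ) + 1) - 2 * k) = 0 := by linarith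
    have h4 : (2 * (K : ℝ) + 1) - 2 * k = 0 := by
      rcases mul_eq_zero.mp h3 with h5 | h5
      · exact absurd h5 hpi.ne'
      · exact h5
    have h5 : ((2 * (K : ℤ) + 1) - 2 * k : ℤ) = 0 := by exact_mod_cast h4
    omega

theorem circ_ann (K : ℕ) : {w : ℂ | (rho K)⁻¹ ≤ ‖w‖ ∧ ‖w‖ ≤ rho K} ⊆ ann K := by
  rintro w ⟨h1, h2⟩
  have hpi := Real.pi_pos
  have h3 : rr ^ (K + 1) < (rho K)⁻¹ := by
    rw [bdsA_rr_pow]
    unfold rho
    rw [← Real.exp_neg]
    apply Real.exp_lt_exp.mpr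
    push_cast
    nlinarith
  have h4 : rho K < (rr ^ (K + 1))⁻¹ := by
    rw [bdsA_rr_pow, ← Real.exp_neg, neg_neg]
    unfold rho
    apply Real.exp_lt_exp.mpr
    push_cast
    nlinarith
  exact ⟨lt_of_lt_of_le h3 h1, lt_of_le_of_lt h2 h4⟩

private lemma bdsA_norm_rr (k : ℕ) : ‖((rr : ℂ)) ^ (k + 1)‖ = rr ^ (k + 1) := by
  rw [norm_pow, Complex.norm_real, Real.norm_of_nonneg rr_pos.le]

private lemma bdsA_norm_one_sub (u : ℂ) (k : ℕ) :
    ‖1 - u * (rr : ℂ) ^ (k + 1)‖ ≤ 1 + ‖u‖ * rr ^ (k + 1) := by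
  refine (norm_sub_le _ _).trans ?_
  rw [norm_one, norm_mul, bdsA_norm_rr]

private lemma bdsA_rr_pow_le_one (k : ℕ) : rr ^ (k + 1) ≤ 1 := by
  have := rr_lt
  exact pow_le_one₀ rr_pos.le (by linarith)

theorem hh_circ (K : ℕ) (w : ℂ) (h : ‖w‖ = rho K ∨ ‖w‖ = (rho K)⁻¹) :
    ‖hh K w‖ ≤ Real.exp (4 * ((K : ℝ) + 1) ^ 2) := by
  have hρ : 20 ≤ rho K := rho_ge K
  have hρ0 : 0 < rho K := bdsA_rho_pos K
  have hρi : (rho K)⁻¹ ≤ 1 := inv_le_one_of_one_le₀ (by linarith)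
  -- first factor
  have h1 : ‖1 - w‖ ≤ 2 * rho K := by
    refine (norm_sub_le _ _).trans ?_
    rw [norm_one]
    rcases h with h | h <;> rw [h] <;> linarith
  -- other factors
  have hbig : ∀ k < K, 1 ≤ rho K * rr ^ (k + 1) := by
    intro k hk
    rw [bdsA_rr_pow]
    unfold rho
    rw [← Real.exp_add]
    apply Real.one_le_exp
    have hpi := Real.pi_pos
    have hk' : ((k : ℝ) + 1) ≤ K := by exact_mod_cast hk
    push_cast
    nlinarith
  have h2 : ∀ k < K, ‖(1 - w⁻¹ * (rr : ℂ) ^ (k + 1)) * (1 - w * (rr : ℂ) ^ (k + 1))‖ ≤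
      4 * (rho K * rr ^ (k + 1)) := by
    intro k hk
    have hb := hbig k hk
    have hr1 := bdsA_rr_pow_le_one k
    have hr0 : 0 ≤ rr ^ (k + 1) := pow_nonneg rr_pos.le _
    have ha := bdsA_norm_one_sub w⁻¹ k
    have hc := bdsA_norm_one_sub w k
    have hsmall : (rho K)⁻¹ * rr ^ (k + 1) ≤ 1 := by
      calc (rho K)⁻¹ * rr ^ (k + 1) ≤ 1 * 1 :=
          mul_le_mul hρi hr1 hr0 (by norm_num)
        _ = 1 := one_mul 1
    rw [norm_mul]
    rcases h with h | h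
    · rw [norm_inv, h] at ha
      rw [h] at hc
      calc ‖1 - w⁻¹ * (rr : ℂ) ^ (k + 1)‖ * ‖1 - w * (rr : ℂ) ^ (k + 1)‖
          ≤ 2 * (2 * (rho K * rr ^ (k + 1))) :=
            mul_le_mul (by linarith) (by linarith) (norm_nonneg _) (by norm_num)
        _ = 4 * (rho K * rr ^ (k + 1)) := by ring
    · rw [norm_inv, h, inv_inv] at ha
      rw [h] at hc
      calc ‖1 - w⁻¹ * (rr : ℂ) ^ (k + 1)‖ * ‖1 - w * (rr : ℂ) ^ (k + 1)‖
          ≤ (2 * (rho K * rr ^ (k + 1))) * 2 :=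
            mul_le_mul (by linarith) (by linarith) (norm_nonneg _) (by positivity)
        _ = 4 * (rho K * rr ^ (k + 1)) := by ring
  have h3 : ‖hh K w‖ ≤ 2 * rho K * ∏ k ∈ Finset.range K, (4 * (rho K * rr ^ (k + 1))) := by
    unfold hh
    rw [norm_mul, norm_prod]
    apply mul_le_mul h1 _ (Finset.prod_nonneg (fun _ _ => norm_nonneg _)) (by positivity)
    apply Finset.prod_le_prod (fun _ _ => norm_nonneg _)
    intro k hk
    exact h2 k (Finset.mem_range.mp hk)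
  have h4 : ∀ n : ℕ, ∏ k ∈ Finset.range n, (4 * (rho K * rr ^ (k + 1))) =
      Real.exp (n * Real.log 4 + n * (Real.pi * (2 * K + 1)) - Real.pi * (n * (n + 1))) := by
    intro n
    induction n with
    | zero => simp
    | succ n ih =>
      rw [Finset.prod_range_succ, ih, bdsA_rr_pow]
      unfold rho
      have h5 : ∀ a : ℝ, 4 * Real.exp a = Real.exp (Real.log 4 + a) := by
        intro a
        rw [Real.exp_add, Real.exp_log (by norm_num)]
      rw [← Real.exp_add, h5, ← Real.exp_add]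
      congr 1
      push_cast
      ring
  rw [h4 K] at h3
  refine h3.trans ?_
  have h6 : (2 : ℝ) * rho K = Real.exp (Real.log 2 + Real.pi * (2 * K + 1)) := by
    unfold rho
    rw [Real.exp_add, Real.exp_log (by norm_num)]
  rw [h6, ← Real.exp_add]
  apply Real.exp_le_exp.mpr
  have hlog4 : Real.log 4 = 2 * Real.log 2 := by
    rw [show (4 : ℝ) = 2 ^ 2 by norm_num, Real.log_pow]
    norm_num
  rw [hlog4]
  have hl2 := Real.log_two_lt_d9
  have hl0 : 0 < Real.log 2 := Real.log_pos (by norm_num)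
  have hpi := Real.pi_lt_d2
  have hK : (0 : ℝ) ≤ K := Nat.cast_nonneg K
  have h7 : (2 * (K : ℝ) + 1) * Real.log 2 ≤ (4 - Real.pi) * ((K : ℝ) + 1) ^ 2 := by
    calc (2 * (K : ℝ) + 1) * Real.log 2 ≤ ((K : ℝ) + 1) ^ 2 * Real.log 2 := by
          apply mul_le_mul_of_nonneg_right _ hl0.le
          nlinarith
      _ ≤ ((K : ℝ) + 1) ^ 2 * (4 - Real.pi) := by
          apply mul_le_mul_of_nonneg_left _ (by positivity)
          linarith
      _ = (4 - Real.pi) * ((K : ℝ) + 1) ^ 2 := mul_comm _ _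
  nlinarith

theorem hh_near (K : ℕ) (w : ℂ) (h : ‖w + 1‖ ≤ 1 / 2) : ‖hh K w‖ ≤ 3 := by
  have hr0 := rr_pos
  have hr1 := rr_lt
  have h1 : ‖1 - w‖ ≤ 5 / 2 := by
    have e : 1 - w = 2 - (w + 1) := by ring
    rw [e]
    refine (norm_sub_le _ _).trans ?_
    rw [Complex.norm_ofNat]
    linarith
  have hw1 : ‖w‖ ≤ 2 := by
    have e : w = (w + 1) - 1 := by ring
    rw [e]
    refine (norm_sub_le _ _).trans ?_
    rw [norm_one]
    linarith
  have hw2 : 1 / 2 ≤ ‖w‖ := by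
    have e : (1 : ℂ) = (w + 1) - w := by ring
    have h2 : ‖(1 : ℂ)‖ ≤ ‖w + 1‖ + ‖w‖ := by
      conv_lhs => rw [e]
      exact norm_sub_le _ _
    rw [norm_one] at h2
    linarith
  have hw3 : ‖w⁻¹‖ ≤ 2 := by
    rw [norm_inv]
    rw [inv_le_comm₀ (by linarith) (by norm_num)]
    linarith
  have h2 : ∀ k, ‖(1 - w⁻¹ * (rr : ℂ) ^ (k + 1)) * (1 - w * (rr : ℂ) ^ (k + 1))‖ ≤
      Real.exp (4 * rr ^ (k + 1)) := by
    intro k
    have hk0 : 0 ≤ rr ^ (k + 1) := pow_nonneg hr0.le _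
    have ha := bdsA_norm_one_sub w⁻¹ k
    have hc := bdsA_norm_one_sub w k
    have hb : 1 + 2 * rr ^ (k + 1) ≤ Real.exp (2 * rr ^ (k + 1)) := by
      have := Real.add_one_le_exp (2 * rr ^ (k + 1))
      linarith
    have ha' : ‖1 - w⁻¹ * (rr : ℂ) ^ (k + 1)‖ ≤ Real.exp (2 * rr ^ (k + 1)) := by
      refine le_trans ha (le_trans ?_ hb)
      nlinarith
    have hc' : ‖1 - w * (rr : ℂ) ^ (k + 1)‖ ≤ Real.exp (2 * rr ^ (k + 1)) := by
      refine le_trans hc (le_trans ?_ hb)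
      nlinarith
    rw [norm_mul]
    calc _ ≤ Real.exp (2 * rr ^ (k + 1)) * Real.exp (2 * rr ^ (k + 1)) :=
          mul_le_mul ha' hc' (norm_nonneg _) (Real.exp_pos _).le
      _ = Real.exp (4 * rr ^ (k + 1)) := by rw [← Real.exp_add]; congr 1; ring
  have h3 : ∏ k ∈ Finset.range K, ‖(1 - w⁻¹ * (rr : ℂ) ^ (k + 1)) * (1 - w * (rr : ℂ) ^ (k + 1))‖ ≤
      Real.exp (∑ k ∈ Finset.range K, 4 * rr ^ (k + 1)) := by
    rw [Real.exp_sum]
    exact Finset.prod_le_prod (fun _ _ => norm_nonneg _) (fun k _ => h2 k)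
  have h4 : ∑ k ∈ Finset.range K, 4 * rr ^ (k + 1) ≤ 4 * (rr / (1 - rr)) := by
    rw [← Finset.mul_sum]
    apply mul_le_mul_of_nonneg_left _ (by norm_num)
    have h5 : ∑ k ∈ Finset.range K, rr ^ (k + 1) = rr * ∑ k ∈ Finset.range K, rr ^ k := by
      rw [Finset.mul_sum]
      apply Finset.sum_congr rfl
      intro k _
      ring
    rw [h5, geom_sum_eq (by linarith), div_eq_mul_inv rr]
    apply mul_le_mul_of_nonneg_left _ hr0.le
    have h6 : (rr ^ K - 1) / (rr - 1) = (1 - rr ^ K) / (1 - rr) := by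
      rw [← neg_sub 1 (rr ^ K), ← neg_sub 1 rr, neg_div_neg_eq]
    rw [h6, ← one_div]
    apply div_le_div_of_nonneg_right _ (by linarith)
    have := pow_nonneg hr0.le K
    linarith
  have h5 : 4 * (rr / (1 - rr)) ≤ 1 / 6 := by
    rw [mul_div_assoc', div_le_div_iff₀ (by linarith) (by norm_num)]
    linarith
  have h6 : Real.exp (∑ k ∈ Finset.range K, 4 * rr ^ (k + 1)) ≤ 6 / 5 := by
    refine le_trans (Real.exp_le_exp.mpr (h4.trans h5)) ?_
    have h7 := Real.one_sub_le_exp_neg (1 / 6)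
    rw [Real.exp_neg] at h7
    have h8 : 0 < Real.exp (1 / 6) := Real.exp_pos _
    have h9 : (5 / 6 : ℝ) ≤ (Real.exp (1 / 6))⁻¹ := by linarith
    rw [le_inv_comm₀ (by norm_num) h8] at h9
    norm_num at h9 ⊢
    linarith
  unfold hh
  rw [norm_mul, norm_prod]
  calc ‖1 - w‖ * ∏ k ∈ Finset.range K,
        ‖(1 - w⁻¹ * (rr : ℂ) ^ (k + 1)) * (1 - w * (rr : ℂ) ^ (k + 1))‖
      ≤ 5 / 2 * (6 / 5) := mul_le_mul h1 (h3.trans h6)
        (Finset.prod_nonneg (fun _ _ => norm_nonneg _)) (by norm_num)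
    _ = 3 := by norm_num

theorem hh_neg_one (K : ℕ) : 1 ≤ ‖hh K (-1)‖ := by
  unfold hh
  rw [norm_mul, norm_prod]
  have h1 : ‖(1 : ℂ) - -1‖ = 2 := by
    norm_num
  have h2 : ∀ k, 1 ≤ ‖(1 - (-1 : ℂ)⁻¹ * (rr : ℂ) ^ (k + 1)) * (1 - (-1) * (rr : ℂ) ^ (k + 1))‖ := by
    intro k
    have e : (1 - (-1 : ℂ)⁻¹ * (rr : ℂ) ^ (k + 1)) * (1 - (-1) * (rr : ℂ) ^ (k + 1)) =
        (((1 + rr ^ (k + 1)) ^ 2 : ℝ) : ℂ) := by
      rw [inv_neg, inv_one]
      push_cast
      ring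
    rw [e, Complex.norm_real, Real.norm_of_nonneg (by positivity)]
    have : 0 ≤ rr ^ (k + 1) := pow_nonneg rr_pos.le _
    nlinarith
  rw [h1]
  have h3 : 1 ≤ ∏ k ∈ Finset.range K,
      ‖(1 - (-1 : ℂ)⁻¹ * (rr : ℂ) ^ (k + 1)) * (1 - (-1) * (rr : ℂ) ^ (k + 1))‖ := by
    calc (1 : ℝ) = ∏ k ∈ Finset.range K, (1 : ℝ) := by rw [Finset.prod_const_one]
      _ ≤ _ := Finset.prod_le_prod (fun _ _ => by norm_num) (fun k _ => h2 k)
  linarith

theorem hh_differentiableAt (K : ℕ) {w : ℂ} (hw : w ≠ 0) : DifferentiableAt ℂ (hh K) w := by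
  have h : hh K = fun w : ℂ => (1 - w) * ∏ k ∈ Finset.range K,
      ((1 - w⁻¹ * (rr : ℂ) ^ (k + 1)) * (1 - w * (rr : ℂ) ^ (k + 1))) := rfl
  rw [h]
  apply DifferentiableAt.mul
  · exact (differentiableAt_const _).sub differentiableAt_id
  · apply DifferentiableAt.fun_finsetProd
    intro k _
    apply DifferentiableAt.mul
    · exact (differentiableAt_const _).sub ((differentiableAt_inv hw).mul (differentiableAt_const _))
    · exact (differentiableAt_const _).sub (differentiableAt_id.mul (differentiableAt_const _))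

end Pool.Agent.Lib.MP5e
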