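import Pool.Agent.Lib.MP_5e64e7_nt.Defs

set_option autoImplicit false

noncomputable section

namespace Pool.Agent.Lib.MP5e

open Polynomial Topology

/-- the cell of `x` in a partition of `[-L, L]` in `m` cells -/
private def bcell (m : ℕ) (L x : ℝ) : ℕ := min ⌊(x + L) * m / (2 * L)⌋₊ (m - 1)

private lemma bcell_lt {m : ℕ} (hm : 1 ≤ m) (L x : ℝ) : bcell m L x < m := by
  unfold bcell
  omega

private lemma bcell_eq {m : ℕ} (hm : 1 ≤ m) {L x y : ℝ} (hL : 0 < L) (hx : |x| ≤ L)
    (hy : |y| ≤ L) (h : bcell m L x = bcell m L y) : |x - y| ≤ 2 * L / m := by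
  have hm0 : (0 : ℝ) < m := by exact_mod_cast hm
  have key : ∀ z : ℝ, |z| ≤ L → (bcell m L z : ℝ) ≤ (z + L) * m / (2 * L) ∧
      (z + L) * m / (2 * L) ≤ bcell m L z + 1 := by
    intro z hz
    obtain ⟨hz1, hz2⟩ := abs_le.1 hz
    have h0 : 0 ≤ (z + L) * m / (2 * L) := by
      have : 0 ≤ z + L := by linarith
      positivity
    have h1 : (z + L) * m / (2 * L) ≤ m := by
      rw [div_le_iff₀ (by positivity)]
      nlinarith
    unfold bcell
    rcases le_total ⌊(z + L) * m / (2 * L)⌋₊ (m - 1) with h2 | h2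
    · rw [min_eq_left h2]
      exact ⟨Nat.floor_le h0, (Nat.lt_floor_add_one _).le⟩
    · rw [min_eq_right h2]
      refine ⟨?_, ?_⟩
      · exact le_trans (by exact_mod_cast h2) (Nat.floor_le h0)
      · have : (((m - 1 : ℕ) : ℝ)) + 1 = m := by
          rw [Nat.cast_sub hm]; push_cast; ring
        rw [this]
        exact h1
  obtain ⟨h1, h2⟩ := key x hx
  obtain ⟨h3, h4⟩ := key y hy
  rw [h] at h1 h2
  have h5 : |(x + L) * m / (2 * L) - (y + L) * m / (2 * L)| ≤ 1 := by
    rw [abs_le]; constructor <;> linarith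
  have h6 : (x + L) * m / (2 * L) - (y + L) * m / (2 * L) = (x - y) * (m / (2 * L)) := by ring
  rw [h6, abs_mul, abs_of_pos (by positivity : (0 : ℝ) < m / (2 * L))] at h5
  rw [le_div_iff₀ hm0]
  have h7 : |x - y| * (m / (2 * L)) * (2 * L) ≤ 1 * (2 * L) :=
    mul_le_mul_of_nonneg_right h5 (by positivity)
  have h8 : |x - y| * (m / (2 * L)) * (2 * L) = |x - y| * m := by field_simp
  rw [h8] at h7
  linarith

theorem box (M T Bd m : ℕ) (V : ℝ) (hV : 0 ≤ V) (v : Fin M → Fin T → ℂ)
    (hv : ∀ q t, ‖v q t‖ ≤ V) (hm : 1 ≤ m) (h : m ^ (2 * T) < (Bd + 1) ^ M) :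
    ∃ a : Fin M → ℤ, a ≠ 0 ∧ (∀ q, |a q| ≤ (Bd : ℤ)) ∧
      ∀ t, ‖∑ q, (a q : ℂ) * v q t‖ ≤ 4 * M * Bd * V / m := by
  have hm0 : (0 : ℝ) < m := by exact_mod_cast hm
  let S : (Fin M → Fin (Bd + 1)) → Fin T → ℂ := fun a t => ∑ q, ((a q : ℕ) : ℂ) * v q t
  have hS : ∀ a t, ‖S a t‖ ≤ M * Bd * V := by
    intro a t
    refine (norm_sum_le _ _).trans ?_
    have h1 : ∀ q ∈ (Finset.univ : Finset (Fin M)), ‖((a q : ℕ) : ℂ) * v q t‖ ≤ Bd * V := by
      intro q _
      rw [norm_mul, Complex.norm_natCast]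
      refine mul_le_mul ?_ (hv q t) (norm_nonneg _) (Nat.cast_nonneg _)
      exact_mod_cast Nat.lt_succ_iff.1 (a q).2
    refine (Finset.sum_le_sum h1).trans (le_of_eq ?_)
    rw [Finset.sum_const, Finset.card_univ, Fintype.card_fin, nsmul_eq_mul]
    ring
  by_cases hV0 : M * Bd * V = 0
  · -- degenerate case: all sums vanish
    have hMB : 1 ≤ M ∧ 1 ≤ Bd := by
      constructor
      · by_contra h0
        have : M = 0 := by omega
        subst this
        rw [pow_zero] at h
        have := Nat.one_le_pow (2 * T) m hm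
        omega
      · by_contra h0
        have : Bd = 0 := by omega
        subst this
        rw [zero_add, one_pow] at h
        have := Nat.one_le_pow (2 * T) m hm
        omega
    have hVz : V = 0 := by
      have hM' : (M : ℝ) ≠ 0 := by
        have : M ≠ 0 := by omega
        exact_mod_cast this
      have hB' : (Bd : ℝ) ≠ 0 := by
        have : Bd ≠ 0 := by omega
        exact_mod_cast this
      simpa [hM', hB'] using hV0
    refine ⟨fun _ => 1, ?_, ?_, ?_⟩
    · intro h0
      have := congrFun h0 ⟨0, hMB.1⟩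
      norm_num at this
    · intro q
      rw [abs_one]
      exact_mod_cast hMB.2
    · intro t
      have h2 : ∀ q, v q t = 0 := fun q => by
        have := hv q t
        rw [hVz] at this
        exact norm_le_zero_iff.1 this
      rw [Finset.sum_eq_zero (fun q _ => by rw [h2, mul_zero]), norm_zero, hVz]
      simp
  · have hL0 : 0 < M * Bd * V := lt_of_le_of_ne (by positivity) (Ne.symm hV0)
    set L' : ℝ := M * Bd * V with hL'
    let c : (Fin M → Fin (Bd + 1)) → (Fin T → Fin m × Fin m) := fun a t =>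
      (⟨bcell m L' (S a t).re, bcell_lt hm _ _⟩, ⟨bcell m L' (S a t).im, bcell_lt hm _ _⟩)
    have hcard : Fintype.card (Fin T → Fin m × Fin m) <
        Fintype.card (Fin M → Fin (Bd + 1)) := by
      rw [Fintype.card_fun, Fintype.card_fun, Fintype.card_prod, Fintype.card_fin,
        Fintype.card_fin, Fintype.card_fin, Fintype.card_fin]
      calc (m * m) ^ T = m ^ (2 * T) := by rw [pow_mul, sq]
        _ < (Bd + 1) ^ M := h
    obtain ⟨a, a', hne, hcc⟩ := Fintype.exists_ne_map_eq_of_card_lt c hcard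
    refine ⟨fun q => ((a q : ℕ) : ℤ) - ((a' q : ℕ) : ℤ), ?_, ?_, ?_⟩
    · intro h0
      apply hne
      funext q
      have h1 := congrFun h0 q
      simp only [Pi.zero_apply] at h1
      apply Fin.ext
      omega
    · intro q
      have h1 := (a q).2
      have h2 := (a' q).2
      show |((a q : ℕ) : ℤ) - ((a' q : ℕ) : ℤ)| ≤ (Bd : ℤ)
      rw [abs_le]
      constructor <;> omega
    · intro t
      have h1 := congrFun hcc t
      have h2 : bcell m L' (S a t).re = bcell m L' (S a' t).re :=
        congrArg (fun z : Fin m × Fin m => (z.1 : ℕ)) h1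
      have h3 : bcell m L' (S a t).im = bcell m L' (S a' t).im :=
        congrArg (fun z : Fin m × Fin m => (z.2 : ℕ)) h1
      have hre := bcell_eq hm hL0 ((Complex.abs_re_le_norm _).trans (hS a t))
        ((Complex.abs_re_le_norm _).trans (hS a' t)) h2
      have him := bcell_eq hm hL0 ((Complex.abs_im_le_norm _).trans (hS a t))
        ((Complex.abs_im_le_norm _).trans (hS a' t)) h3
      have h4 : ∑ q, (((((a q : ℕ) : ℤ) - ((a' q : ℕ) : ℤ) : ℤ)) : ℂ) * v q t =
          S a t - S a' t := by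
        show _ = ∑ q, ((a q : ℕ) : ℂ) * v q t - ∑ q, ((a' q : ℕ) : ℂ) * v q t
        rw [← Finset.sum_sub_distrib]
        refine Finset.sum_congr rfl fun q _ => ?_
        push_cast
        ring
      rw [h4]
      refine (Complex.norm_le_abs_re_add_abs_im _).trans ?_
      rw [Complex.sub_re, Complex.sub_im]
      have h5 : 4 * M * Bd * V / m = 2 * L' / m + 2 * L' / m := by
        rw [hL']
        ring
      rw [h5]
      exact add_le_add hre him

end Pool.Agent.Lib.MP5e
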