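import Pool.Agent.Lib.MP_5e64e7_nt.RamA

set_option autoImplicit false

noncomputable section

namespace Pool.Agent.Lib.MP5e

open Polynomial Topology

section aux

open UpperHalfPlane Filter ModularForm EisensteinSeries Derivative
open scoped MatrixGroups Manifold

theorem RamC_E2_slash (γ : SL(2, ℤ)) (z : ℍ) : (E2 ∣[(2 : ℤ)] γ) z =
    E2 z - 3 / (Real.pi : ℂ) ^ 2 * (2 * Real.pi * Complex.I * ((γ 1 0 : ℤ) : ℂ) / denom γ z) := by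
  rw [E2_slash_action]
  have h : (1 : ℂ) / (2 * riemannZeta 2) = 3 / (Real.pi : ℂ) ^ 2 := by
    rw [riemannZeta_two]
    have : (Real.pi : ℂ) ≠ 0 := by exact_mod_cast Real.pi_ne_zero
    field_simp
    norm_num
  rw [h]
  simp [D2]

theorem RamC_D_slash (γ : SL(2, ℤ)) (z : ℍ) : D (E2 ∣[(2 : ℤ)] γ) z =
    D E2 z + 3 / (Real.pi : ℂ) ^ 2 * (((γ 1 0 : ℤ) : ℂ) / denom γ z) ^ 2 := by
  have hz : denom γ z ≠ 0 := denom_ne_zero γ z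
  have h1 : DifferentiableAt ℂ (E2 ∘ ofComplex) (z : ℂ) :=
    mdifferentiableAt_iff.mp (E2_mdifferentiable z)
  have hden : ∀ w : ℍ, denom γ w = ((γ 1 0 : ℤ) : ℂ) * w + ((γ 1 1 : ℤ) : ℂ) := by
    intro w
    simp [denom]
  have h2 : HasDerivAt (fun w : ℂ => 3 / (Real.pi : ℂ) ^ 2 *
      (2 * Real.pi * Complex.I * ((γ 1 0 : ℤ) : ℂ) / (((γ 1 0 : ℤ) : ℂ) * w + ((γ 1 1 : ℤ) : ℂ))))
      (3 / (Real.pi : ℂ) ^ 2 * ((0 * (((γ 1 0 : ℤ) : ℂ) * z + ((γ 1 1 : ℤ) : ℂ)) -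
        (2 * Real.pi * Complex.I * ((γ 1 0 : ℤ) : ℂ)) * ((γ 1 0 : ℤ) : ℂ)) /
        (((γ 1 0 : ℤ) : ℂ) * z + ((γ 1 1 : ℤ) : ℂ)) ^ 2)) (z : ℂ) := by
    refine HasDerivAt.const_mul _ ?_
    refine HasDerivAt.div (hasDerivAt_const _ _) ?_ ?_
    · have := ((hasDerivAt_id (z : ℂ)).const_mul ((γ 1 0 : ℤ) : ℂ)).add_const ((γ 1 1 : ℤ) : ℂ)
      simpa using this
    · rw [← hden]
      exact hz
  have h3 := h1.hasDerivAt.sub h2
  have h4 : ((E2 ∣[(2 : ℤ)] γ) ∘ ofComplex) =ᶠ[𝓝 (z : ℂ)] ((E2 ∘ ofComplex) - fun w : ℂ =>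
      3 / (Real.pi : ℂ) ^ 2 * (2 * Real.pi * Complex.I * ((γ 1 0 : ℤ) : ℂ) /
      (((γ 1 0 : ℤ) : ℂ) * w + ((γ 1 1 : ℤ) : ℂ)))) := by
    filter_upwards [isOpen_upperHalfPlaneSet.mem_nhds z.im_pos] with w hw
    rw [Function.comp_apply, ofComplex_apply_of_im_pos hw, RamC_E2_slash, hden, Pi.sub_apply,
      Function.comp_apply, ofComplex_apply_of_im_pos hw]
  rw [normalizedDerivOfComplex, (h3.congr_of_eventuallyEq h4).deriv, ← hden,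
    normalizedDerivOfComplex]
  have hp : (Real.pi : ℂ) ≠ 0 := by exact_mod_cast Real.pi_ne_zero
  have hI : Complex.I ≠ 0 := Complex.I_ne_zero
  field_simp
  ring

theorem RamC_inv (γ : SL(2, ℤ)) : (fun z => D E2 z - 12⁻¹ * E2 z ^ 2) ∣[(4 : ℤ)] γ =
    fun z => D E2 z - 12⁻¹ * E2 z ^ 2 := by
  ext z
  have hz : denom γ z ≠ 0 := denom_ne_zero γ z
  have hp : (Real.pi : ℂ) ≠ 0 := by exact_mod_cast Real.pi_ne_zero
  have hI : Complex.I ≠ 0 := Complex.I_ne_zero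
  have h1 := RamC_E2_slash γ z
  have h2 := RamC_D_slash γ z
  have h3 := congrFun (normalizedDerivOfComplex_SL_slash (k := 2) E2_mdifferentiable (γ := γ)) z
  rw [h2, Pi.sub_apply, h1] at h3
  rw [SL_slash_apply] at h1 h3 ⊢
  have h5 : (E2 (γ • z) ^ 2) * denom γ z ^ (-4 : ℤ) = (E2 (γ • z) * denom γ z ^ (-2 : ℤ)) ^ 2 := by
    rw [mul_pow, ← zpow_natCast (denom γ z ^ (-2 : ℤ)), ← zpow_mul]
    norm_num
  have h6 : ((2 : ℤ) + 2) = 4 := by norm_num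
  rw [h6] at h3
  have h7 : (D E2 (γ • z) - 12⁻¹ * E2 (γ • z) ^ 2) * denom γ z ^ (-4 : ℤ) =
      D E2 (γ • z) * denom γ z ^ (-4 : ℤ) - 12⁻¹ * (E2 (γ • z) ^ 2 * denom γ z ^ (-4 : ℤ)) := by
    ring
  refine h7.trans ?_
  rw [h5, h1]
  have h8 : D E2 (γ • z) * denom γ z ^ (-4 : ℤ) = D E2 z +
      3 / (Real.pi : ℂ) ^ 2 * (((γ 1 0 : ℤ) : ℂ) / denom γ z) ^ 2 +
      ((2 : ℤ) : ℂ) * (2 * Real.pi * Complex.I)⁻¹ * (((γ 1 0 : ℤ) : ℂ) / denom γ z) *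
      (E2 z - 3 / (Real.pi : ℂ) ^ 2 * (2 * Real.pi * Complex.I * ((γ 1 0 : ℤ) : ℂ) / denom γ z)) := by
    rw [eq_sub_iff_add_eq] at h3
    exact h3.symm
  rw [h8]
  push_cast
  have h9 : Complex.I ^ 2 = -1 := Complex.I_sq
  have h10 : (2 * (Real.pi : ℂ) * Complex.I)⁻¹ = -Complex.I / (2 * Real.pi) := by
    rw [inv_eq_iff_eq_inv, inv_div]
    field_simp
    linear_combination h9
  rw [h10]
  field_simp
  ring_nf
  rw [h9]
  ring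

theorem RamC_main (z : ℍ) : D E2 z = 12⁻¹ * (E2 z ^ 2 - E₄ z) := by
  have hlim : Tendsto (fun z : ℍ => D E2 z - 12⁻¹ * E2 z ^ 2) atImInfty
      (𝓝 (0 - 12⁻¹ * 1 ^ 2)) :=
    RamA_E2.2.sub ((RamA_E2.1.pow 2).const_mul _)
  have hd : MDiff ((fun z : ℍ => D E2 z - 12⁻¹ * E2 z ^ 2) : ℍ → ℂ) :=
    (normalizedDerivOfComplex_mdifferentiable E2_mdifferentiable).sub
      (mdifferentiable_const.mul (E2_mdifferentiable.pow 2))
  have h := RamA_unique levelOne_weight_four_rank_one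
    (RamA_mk 4 _ RamC_inv hd (hlim.isBigO_one ℝ)) E₄ _ _ hlim RamA_E4 one_ne_zero z
  change D E2 z - 12⁻¹ * E2 z ^ 2 = _ at h
  linear_combination h

end aux

theorem E2f_hasDerivAt {w : ℂ} (hw : 0 < w.im) : HasDerivAt E2f
    (2 * (Real.pi : ℂ) * Complex.I * ((E2f w ^ 2 - E4f w) / 12)) w := by
  have h := RamA_hasDerivAt E2_mdifferentiable E2f_coe ⟨w, hw⟩
  have h1 := RamC_main ⟨w, hw⟩
  have h2 := E2f_coe ⟨w, hw⟩
  have h4 := E4f_coe ⟨w, hw⟩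
  change E2f w = _ at h2
  change E4f w = _ at h4
  rw [h2, h4]
  have h7 : Derivative.normalizedDerivOfComplex EisensteinSeries.E2 ⟨w, hw⟩ =
      (EisensteinSeries.E2 ⟨w, hw⟩ ^ 2 - ModularForm.E₄ ⟨w, hw⟩) / 12 := by
    rw [h1]
    ring
  rw [← h7]
  exact h

end Pool.Agent.Lib.MP5e
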