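import Pool.Agent.Lib.MP_5e64e7_nt.TransA

set_option autoImplicit false

noncomputable section

namespace Pool.Agent.Lib.MP5e

open Polynomial Topology

theorem E2f_sl (p q r s : ℤ) (h : p * s - q * r = 1) {w : ℂ} (hw : 0 < w.im) :
    E2f (((p : ℂ) * w + q) / ((r : ℂ) * w + s)) = ((r : ℂ) * w + s) ^ 2 * E2f w +
      6 * r * ((r : ℂ) * w + s) / ((Real.pi : ℂ) * Complex.I) := by
  have h1 := congrFun (EisensteinSeries.E2_slash_action (TransA_mat p q r s h))
    (⟨w, hw⟩ : UpperHalfPlane)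
  rw [ModularForm.SL_slash_apply] at h1
  have hd : UpperHalfPlane.denom (TransA_mat p q r s h) ((⟨w, hw⟩ : UpperHalfPlane) : ℂ) =
      (r : ℂ) * w + s :=
    TransA_denom p q r s h (⟨w, hw⟩ : UpperHalfPlane)
  have hne : (r : ℂ) * w + s ≠ 0 := by
    rw [← hd]
    exact UpperHalfPlane.denom_ne_zero _ _
  have hD : EisensteinSeries.D2 (TransA_mat p q r s h) (⟨w, hw⟩ : UpperHalfPlane) =
      2 * Real.pi * Complex.I * r / ((r : ℂ) * w + s) := by
    rw [EisensteinSeries.D2, hd]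
    simp [TransA_mat]
  rw [hd] at h1
  have h2 := TransA_coe p q r s h (⟨w, hw⟩ : UpperHalfPlane)
  change _ = ((p : ℂ) * w + q) / ((r : ℂ) * w + s) at h2
  rw [← h2, E2f_coe]
  change _ = _ * E2f ((⟨w, hw⟩ : UpperHalfPlane) : ℂ) + _
  rw [E2f_coe]
  rw [Pi.sub_apply, Pi.smul_apply, smul_eq_mul, hD, riemannZeta_two] at h1
  have hpi : (Real.pi : ℂ) ≠ 0 := Complex.ofReal_ne_zero.mpr Real.pi_ne_zero
  have h3 : EisensteinSeries.E2 (TransA_mat p q r s h • (⟨w, hw⟩ : UpperHalfPlane)) =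
      ((r : ℂ) * w + s) ^ 2 * (EisensteinSeries.E2 (⟨w, hw⟩ : UpperHalfPlane) -
        1 / (2 * ((Real.pi : ℂ) ^ 2 / 6)) *
          (2 * Real.pi * Complex.I * r / ((r : ℂ) * w + s))) := by
    rw [← h1, zpow_neg]
    field_simp
  rw [h3]
  field_simp
  ring_nf
  simp only [Complex.I_sq]
  ring

theorem TransB_I : ((0 : ℤ) : ℂ) * Complex.I + ((-1 : ℤ) : ℂ) = Complex.I * Complex.I := by
  simp

theorem TransB_SI : (((0 : ℤ) : ℂ) * Complex.I + ((-1 : ℤ) : ℂ)) /
    (((1 : ℤ) : ℂ) * Complex.I + ((0 : ℤ) : ℂ)) = Complex.I := by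
  rw [TransB_I]
  simp

theorem E2f_I : E2f Complex.I = 3 / (Real.pi : ℂ) := by
  have h1 := E2f_sl 0 (-1) 1 0 (by norm_num) (w := Complex.I) (by simp)
  rw [TransB_SI] at h1
  have hpi : (Real.pi : ℂ) ≠ 0 := Complex.ofReal_ne_zero.mpr Real.pi_ne_zero
  have h2 : E2f Complex.I = - E2f Complex.I + 6 / (Real.pi : ℂ) := by
    have h3 : (6 : ℂ) * Complex.I / ((Real.pi : ℂ) * Complex.I) = 6 / (Real.pi : ℂ) := by
      field_simp
    refine h1.trans ?_
    simp only [Int.cast_one, Int.cast_zero, one_mul, add_zero, mul_one, Complex.I_sq]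
    rw [h3]
    ring
  field_simp at h2 ⊢
  linear_combination h2 / 2

theorem E6f_I : E6f Complex.I = 0 := by
  have h1 := E6f_sl 0 (-1) 1 0 (by norm_num) (w := Complex.I) (by simp)
  rw [TransB_SI] at h1
  have h2 : (((1 : ℤ) : ℂ) * Complex.I + ((0 : ℤ) : ℂ)) ^ 6 = -1 := by
    have : Complex.I ^ 6 = (Complex.I ^ 2) ^ 3 := by ring
    simp only [Int.cast_one, Int.cast_zero, one_mul, add_zero]
    rw [this, Complex.I_sq]
    norm_num
  rw [h2] at h1
  linear_combination h1 / 2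

/-- the real number `E₄(i)` -/
def TransB_e : ℝ := 1 + 240 * ∑' m : ℕ,
  (((ArithmeticFunction.sigma 3) (m + 1) : ℕ) : ℝ) * Real.exp (-2 * Real.pi) ^ (m + 1)

theorem TransB_e_coe : E4f Complex.I = (TransB_e : ℂ) := by
  rw [E4f, TransB_e]
  have h1 : Complex.exp (2 * (Real.pi : ℂ) * Complex.I * Complex.I) =
      ((Real.exp (-2 * Real.pi) : ℝ) : ℂ) := by
    rw [Complex.ofReal_exp]
    congr 1
    push_cast
    rw [mul_assoc, Complex.I_mul_I]
    ring
  rw [h1]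
  push_cast
  rfl

theorem TransB_one_le : 1 ≤ TransB_e := by
  rw [TransB_e]
  have : 0 ≤ ∑' m : ℕ, (((ArithmeticFunction.sigma 3) (m + 1) : ℕ) : ℝ) *
      Real.exp (-2 * Real.pi) ^ (m + 1) := tsum_nonneg fun m => by positivity
  linarith

theorem E4f_I : E4f Complex.I = 3 * (s0 : ℂ) ^ 2 := by
  have h1 : s0 ^ 2 = TransB_e / 3 := by
    rw [s0, TransB_e_coe, Complex.ofReal_re, Real.sq_sqrt]
    have := TransB_one_le
    positivity
  rw [TransB_e_coe, ← Complex.ofReal_pow, h1]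
  push_cast
  ring

theorem s0_pos : 0 < s0 := by
  rw [s0, TransB_e_coe, Complex.ofReal_re]
  have := TransB_one_le
  positivity

theorem one_le_th : 1 ≤ th := by
  have h1 : s0 ^ 2 = TransB_e / 3 := by
    rw [s0, TransB_e_coe, Complex.ofReal_re, Real.sq_sqrt]
    have := TransB_one_le
    positivity
  have h2 : (1 : ℝ) ≤ th ^ 2 := by
    rw [th, mul_pow, h1]
    have h3 := TransB_one_le
    have h4 := Real.pi_gt_three
    nlinarith [mul_pos (by linarith : (0 : ℝ) < Real.pi - 3) (by linarith : (0 : ℝ) < Real.pi - 3)]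
  have h3 : 0 < th := mul_pos Real.pi_pos s0_pos
  nlinarith

end Pool.Agent.Lib.MP5e
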