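import Pool.Agent.Lib.MP_5e64e7_nt.TransA
import Pool.Agent.Lib.MP_5e64e7_nt.TransB

set_option autoImplicit false

noncomputable section

namespace Pool.Agent.Lib.MP5e

open Polynomial Topology


end Pool.Agent.Lib.MP5e
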