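import Pool.Agent.Lib.MP_5e64e7_nt.Sig
import Pool.Agent.Lib.MP_5e64e7_nt.Ram
import Pool.Agent.Lib.MP_5e64e7_nt.Trans

set_option autoImplicit false

noncomputable section

namespace Pool.Agent.Lib.MP5e

open Polynomial Topology

/-- an identity on the upper half plane can be differentiated -/
private theorem two_diff0 {F : ℂ → ℂ} (hF : ∀ w : ℂ, 0 < w.im → F w = 0) {w : ℂ} (hw : 0 < w.im)
    {F' : ℂ} (h : HasDerivAt F F' w) : F' = 0 := by
  have h1 : F =ᶠ[𝓝 w] fun _ => 0 := by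
    filter_upwards [(isOpen_lt continuous_const Complex.continuous_im).mem_nhds hw] with v hv
    exact hF v hv
  exact h.unique ((hasDerivAt_const w (0 : ℂ)).congr_of_eventuallyEq h1)

/-- a triple of functions satisfying the Ramanujan equations -/
private structure TwoRam (x y z : ℂ → ℂ) : Prop where
  hx : ∀ w : ℂ, 0 < w.im →
    HasDerivAt x (2 * (Real.pi : ℂ) * Complex.I * ((x w ^ 2 - y w) / 12)) w
  hy : ∀ w : ℂ, 0 < w.im →
    HasDerivAt y (2 * (Real.pi : ℂ) * Complex.I * ((x w * y w - z w) / 3)) w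
  hz : ∀ w : ℂ, 0 < w.im →
    HasDerivAt z (2 * (Real.pi : ℂ) * Complex.I * ((x w * z w - y w ^ 2) / 2)) w

private theorem two_c_ne : 2 * (Real.pi : ℂ) * Complex.I ≠ 0 :=
  mul_ne_zero (mul_ne_zero two_ne_zero (by exact_mod_cast Real.pi_ne_zero)) Complex.I_ne_zero

private theorem two_aff (a b : ℂ) (him : ∀ w : ℂ, 0 < w.im → 0 < (a * w + b).im) :
    TwoRam (fun w => a * E2f (a * w + b)) (fun w => a ^ 2 * E4f (a * w + b))
      (fun w => a ^ 3 * E6f (a * w + b)) := by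
  have h0 : ∀ w : ℂ, HasDerivAt (fun w : ℂ => a * w + b) a w := by
    intro w
    simpa using ((hasDerivAt_id w).const_mul a).add_const b
  refine ⟨fun w hw => ?_, fun w hw => ?_, fun w hw => ?_⟩
  · refine (((E2f_hasDerivAt (him w hw)).comp w (h0 w)).const_mul a).congr_deriv ?_
    ring
  · refine (((E4f_hasDerivAt (him w hw)).comp w (h0 w)).const_mul (a ^ 2)).congr_deriv ?_
    ring
  · refine (((E6f_hasDerivAt (him w hw)).comp w (h0 w)).const_mul (a ^ 3)).congr_deriv ?_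
    ring

/-- the cubic gives the formulas for `y` and `z` -/
private theorem two_step {x y z x0 y0 z0 : ℂ → ℂ} (R : TwoRam x y z) (R0 : TwoRam x0 y0 z0)
    (hd : ∀ w : ℂ, 0 < w.im → y0 w ^ 3 - z0 w ^ 2 ≠ 0)
    (hc : ∀ w : ℂ, 0 < w.im →
      4 * (x w - x0 w) ^ 3 - 3 * y0 w * (x w - x0 w) - z0 w = 0) {w : ℂ} (hw : 0 < w.im) :
    y w = 5 * (x w - x0 w) ^ 2 - y0 w ∧
      z w = 11 * (x w - x0 w) ^ 3 - 3 * (x w - x0 w) * y0 w := by
  have hy : ∀ w : ℂ, 0 < w.im → y w = 5 * (x w - x0 w) ^ 2 - y0 w := by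
    intro w hw
    have h1 := two_diff0 hc hw
      ((((((R.hx w hw).sub (R0.hx w hw)).pow 3).const_mul 4).sub
        (((R0.hy w hw).const_mul 3).mul ((R.hx w hw).sub (R0.hx w hw)))).sub (R0.hz w hw))
    have h2 := hc w hw
    have h3 : 2 * (Real.pi : ℂ) * Complex.I *
        (((x w - x0 w) ^ 2 - y0 w / 4) * (5 * (x w - x0 w) ^ 2 - y0 w - y w)) = 0 := by
      have h4 : z0 w = 4 * (x w - x0 w) ^ 3 - 3 * y0 w * (x w - x0 w) := by
        linear_combination -h2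
      rw [h4] at h1
      simp only [Pi.sub_apply] at h1
      linear_combination h1
    rcases mul_eq_zero.1 h3 with h4 | h4
    · exact absurd h4 two_c_ne
    · rcases mul_eq_zero.1 h4 with h5 | h5
      · exfalso
        refine hd w hw ?_
        have h6 : (x w - x0 w) ^ 2 = y0 w / 4 := by linear_combination h5
        have h7 : z0 w = -2 * y0 w * (x w - x0 w) := by
          linear_combination -h2 + 4 * (x w - x0 w) * h6
        rw [h7]
        linear_combination -4 * y0 w ^ 2 * h6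
      · linear_combination -h5
  refine ⟨hy w hw, ?_⟩
  have h0 : ∀ w : ℂ, 0 < w.im → y w - (5 * (x w - x0 w) ^ 2 - y0 w) = 0 := fun w hw => by
    rw [hy w hw, sub_self]
  have h1 := two_diff0 h0 hw ((R.hy w hw).sub
    (((((R.hx w hw).sub (R0.hx w hw)).pow 2).const_mul 5).sub (R0.hy w hw)))
  have h2 := hc w hw
  have h3 := hy w hw
  have h4 : z0 w = 4 * (x w - x0 w) ^ 3 - 3 * y0 w * (x w - x0 w) := by
    linear_combination -h2
  simp only [Pi.sub_apply] at h1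
  rw [h3, h4] at h1
  have h5 : 2 * (Real.pi : ℂ) * Complex.I *
      (z w - (11 * (x w - x0 w) ^ 3 - 3 * (x w - x0 w) * y0 w)) = 0 := by
    linear_combination -3 * h1
  rcases mul_eq_zero.1 h5 with h6 | h6
  · exact absurd h6 two_c_ne
  · linear_combination h6

/-- the cubic equation -/
private theorem two_cubic {x0 y0 z0 x1 y1 z1 x2 y2 z2 x3 y3 z3 : ℂ → ℂ} (R0 : TwoRam x0 y0 z0)
    (R1 : TwoRam x1 y1 z1) (R2 : TwoRam x2 y2 z2) (R3 : TwoRam x3 y3 z3)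
    (s1 : ∀ w : ℂ, 0 < w.im → x1 w + x2 w + x3 w - 3 * x0 w = 0)
    (s2 : ∀ w : ℂ, 0 < w.im → y1 w + y2 w + y3 w - 9 / 2 * y0 w = 0)
    (s3 : ∀ w : ℂ, 0 < w.im → z1 w + z2 w + z3 w - 33 / 4 * z0 w = 0) (w : ℂ) (hw : 0 < w.im) :
    4 * (x1 w - x0 w) ^ 3 - 3 * y0 w * (x1 w - x0 w) - z0 w = 0 := by
  have F3 : ∀ w : ℂ, 0 < w.im → x1 w ^ 2 + x2 w ^ 2 + x3 w ^ 2 - 3 * x0 w ^ 2 - 3 / 2 * y0 w = 0 := by
    intro w hw
    have h1 := two_diff0 s1 hw
      ((((R1.hx w hw).add (R2.hx w hw)).add (R3.hx w hw)).sub ((R0.hx w hw).const_mul 3))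
    have h2 := s2 w hw
    have h3 : 2 * (Real.pi : ℂ) * Complex.I *
        (x1 w ^ 2 + x2 w ^ 2 + x3 w ^ 2 - 3 * x0 w ^ 2 - 3 / 2 * y0 w) = 0 := by
      linear_combination 12 * h1 + 2 * (Real.pi : ℂ) * Complex.I * h2
    exact (mul_eq_zero.1 h3).resolve_left two_c_ne
  have h1 := two_diff0 s2 hw
    ((((R1.hy w hw).add (R2.hy w hw)).add (R3.hy w hw)).sub ((R0.hy w hw).const_mul (9 / 2)))
  have h2 := two_diff0 F3 hw
    ((((((R1.hx w hw).pow 2).add ((R2.hx w hw).pow 2)).add ((R3.hx w hw).pow 2)).sub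
      (((R0.hx w hw).pow 2).const_mul 3)).sub ((R0.hy w hw).const_mul (3 / 2)))
  have h3 := s3 w hw
  have h4 := F3 w hw
  have h5 := s1 w hw
  have h6 : 2 * (Real.pi : ℂ) * Complex.I *
      (x1 w ^ 3 + x2 w ^ 3 + x3 w ^ 3 - 3 * x0 w ^ 3 - 3 / 4 * z0 w - 9 / 2 * x0 w * y0 w) = 0 := by
    linear_combination 6 * h2 + 3 * h1 + 2 * (Real.pi : ℂ) * Complex.I * h3
  have h7 := (mul_eq_zero.1 h6).resolve_left two_c_ne
  have h8 : x3 w = 3 * x0 w - x1 w - x2 w := by linear_combination h5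
  rw [h8] at h4 h7
  linear_combination 2 * (x1 w - x0 w) * h4 + 4 / 3 * (h7 - 3 * x0 w * h4)

private theorem two_all : ∀ w : ℂ, 0 < w.im →
    (4 * (2 * E2f (2 * w + 0) - E2f w) ^ 3 - 3 * E4f w * (2 * E2f (2 * w + 0) - E2f w) -
      E6f w = 0 ∧
    2 ^ 2 * E4f (2 * w + 0) = 5 * (2 * E2f (2 * w + 0) - E2f w) ^ 2 - E4f w ∧
      2 ^ 3 * E6f (2 * w + 0) = 11 * (2 * E2f (2 * w + 0) - E2f w) ^ 3 -
        3 * (2 * E2f (2 * w + 0) - E2f w) * E4f w) ∧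
    (4 * (1 / 2 * E2f (1 / 2 * w + 0) - E2f w) ^ 3 -
      3 * E4f w * (1 / 2 * E2f (1 / 2 * w + 0) - E2f w) - E6f w = 0 ∧
    (1 / 2) ^ 2 * E4f (1 / 2 * w + 0) =
      5 * (1 / 2 * E2f (1 / 2 * w + 0) - E2f w) ^ 2 - E4f w ∧
      (1 / 2) ^ 3 * E6f (1 / 2 * w + 0) = 11 * (1 / 2 * E2f (1 / 2 * w + 0) - E2f w) ^ 3 -
        3 * (1 / 2 * E2f (1 / 2 * w + 0) - E2f w) * E4f w) := by
  have R0 : TwoRam E2f E4f E6f := ⟨fun w hw => E2f_hasDerivAt hw, fun w hw => E4f_hasDerivAt hw,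
    fun w hw => E6f_hasDerivAt hw⟩
  have R1 := two_aff 2 0 fun w hw => by simpa using hw
  have hh : ((1 / 2 : ℂ)).im = 0 := by norm_num
  have hr : ((1 / 2 : ℂ)).re = 1 / 2 := by norm_num
  have R2 := two_aff (1 / 2) 0 fun w hw => by
    rw [Complex.add_im, Complex.mul_im, hh, hr, Complex.zero_im]
    linarith
  have R3 := two_aff (1 / 2) (1 / 2) fun w hw => by
    rw [Complex.add_im, Complex.mul_im, hh, hr]
    linarith
  have e1 : ∀ w : ℂ, (1 / 2 : ℂ) * w + 0 = w / 2 := fun w => by ring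
  have e2 : ∀ w : ℂ, (1 / 2 : ℂ) * w + 1 / 2 = (w + 1) / 2 := fun w => by ring
  have e3 : ∀ w : ℂ, (2 : ℂ) * w + 0 = 2 * w := fun w => by ring
  have s1 : ∀ w : ℂ, 0 < w.im → 2 * E2f (2 * w + 0) + 1 / 2 * E2f (1 / 2 * w + 0) +
      1 / 2 * E2f (1 / 2 * w + 1 / 2) - 3 * E2f w = 0 := by
    intro w hw
    have h1 := sig2 hw
    rw [e1, e2, e3]
    linear_combination h1
  have s2 : ∀ w : ℂ, 0 < w.im → 2 ^ 2 * E4f (2 * w + 0) + (1 / 2) ^ 2 * E4f (1 / 2 * w + 0) +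
      (1 / 2) ^ 2 * E4f (1 / 2 * w + 1 / 2) - 9 / 2 * E4f w = 0 := by
    intro w hw
    have h1 := sig4 hw
    rw [e1, e2, e3]
    linear_combination 1 / 2 * h1
  have s3 : ∀ w : ℂ, 0 < w.im → 2 ^ 3 * E6f (2 * w + 0) + (1 / 2) ^ 3 * E6f (1 / 2 * w + 0) +
      (1 / 2) ^ 3 * E6f (1 / 2 * w + 1 / 2) - 33 / 4 * E6f w = 0 := by
    intro w hw
    have h1 := sig6 hw
    rw [e1, e2, e3]
    linear_combination 1 / 4 * h1
  have c1 := two_cubic R0 R1 R2 R3 s1 s2 s3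
  have c2 := two_cubic R0 R2 R1 R3 (fun w hw => by linear_combination s1 w hw)
    (fun w hw => by linear_combination s2 w hw) (fun w hw => by linear_combination s3 w hw)
  intro w hw
  refine ⟨⟨c1 w hw, ?_⟩, c2 w hw, ?_⟩
  · exact two_step R1 R0 (fun w hw => disc_ne hw) c1 hw
  · exact two_step R2 R0 (fun w hw => disc_ne hw) c2 hw

theorem two_double {w : ℂ} (hw : 0 < w.im) :
    4 * (2 * E2f (2 * w) - E2f w) ^ 3 - 3 * E4f w * (2 * E2f (2 * w) - E2f w) - E6f w = 0 ∧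
    4 * E4f (2 * w) = 5 * (2 * E2f (2 * w) - E2f w) ^ 2 - E4f w ∧
    8 * E6f (2 * w) = 11 * (2 * E2f (2 * w) - E2f w) ^ 3 -
      3 * (2 * E2f (2 * w) - E2f w) * E4f w := by
  obtain ⟨⟨h1, h2, h3⟩, _⟩ := two_all w hw
  rw [add_zero] at h1 h2 h3
  exact ⟨h1, by linear_combination h2, by linear_combination h3⟩

theorem two_half {w : ℂ} (hw : 0 < w.im) :
    4 * (E2f (w / 2) / 2 - E2f w) ^ 3 - 3 * E4f w * (E2f (w / 2) / 2 - E2f w) - E6f w = 0 ∧
    E4f (w / 2) = 4 * (5 * (E2f (w / 2) / 2 - E2f w) ^ 2 - E4f w) ∧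
    E6f (w / 2) = 8 * (11 * (E2f (w / 2) / 2 - E2f w) ^ 3 -
      3 * (E2f (w / 2) / 2 - E2f w) * E4f w) := by
  obtain ⟨_, h1, h2, h3⟩ := two_all w hw
  have e1 : (1 / 2 : ℂ) * w + 0 = w / 2 := by ring
  have e2 : 1 / 2 * E2f (w / 2) = E2f (w / 2) / 2 := by ring
  rw [e1] at h1 h2 h3
  rw [e2] at h1 h2 h3
  exact ⟨h1, by linear_combination 4 * h2, by linear_combination 8 * h3⟩

end Pool.Agent.Lib.MP5e
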