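import Pool.Agent.Lib.MP_5e64e7_nt.Cub
import Pool.Agent.Lib.MP_5e64e7_nt.Two

set_option autoImplicit false

noncomputable section

namespace Pool.Agent.Lib.MP5e

open Polynomial Topology

theorem CMD.mono {K K' : IntermediateField ℚ ℂ} (hK : K ≤ K') {e : ℕ} {σ : ℂ}
    (h : CMD K e σ) : CMD K' e σ := by
  obtain ⟨h0, a, b, c, ha, hb, hc, h1, h2, h3⟩ := h
  exact ⟨h0, a, b, c, ha.mono hK le_rfl, hb.mono hK le_rfl, hc.mono hK le_rfl, h1, h2, h3⟩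

theorem chain_start (K : IntermediateField ℚ ℂ) : CMD K 0 Complex.I := by
  refine ⟨by simp, 0, 3, 0, ?_, ?_, ?_, ?_, ?_, ?_⟩
  · have h := AI.mono (M' := 2 * 40 ^ 0) le_rfl (by norm_num) (AI.int K 0)
    simpa using h
  · have h := AI.mono (M' := 4 * 1600 ^ 0) le_rfl (by norm_num) (AI.nat K 3)
    simpa using h
  · have h := AI.mono (M' := 8 * 64000 ^ 0) le_rfl (by norm_num) (AI.int K 0)
    simpa using h
  · rw [E2f_I]; simp
  · rw [E4f_I]; ring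
  · rw [E6f_I]; simp

theorem chain_translate {K : IntermediateField ℚ ℂ} {e : ℕ} {σ : ℂ} (h : CMD K e σ) (v : ℤ) :
    CMD K e (σ + v) := by
  obtain ⟨h0, a, b, c, ha, hb, hc, h1, h2, h3⟩ := h
  have him : (σ + v).im = σ.im := by simp
  refine ⟨by rw [him]; exact h0, a, b, c, ha, hb, hc, ?_, ?_, ?_⟩
  · rw [E2f_add_int, him]; exact h1
  · rw [E4f_add_int]; exact h2
  · rw [E6f_add_int]; exact h3

/-- the common step -/
theorem Chain_cubic {K : IntermediateField ℚ ℂ} (hfd : FiniteDimensional ℚ K) {e : ℕ} {σ : ℂ}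
    {b c E : ℂ} (hb : AI K (4 * 1600 ^ e) b) (hc : AI K (8 * 64000 ^ e) c)
    (h2 : 64 ^ e * E4f σ = (s0 : ℂ) ^ 2 * b) (h3 : 512 ^ e * E6f σ = (s0 : ℂ) ^ 3 * c)
    (hE : 4 * E ^ 3 - 3 * E4f σ * E - E6f σ = 0) :
    ∃ K' : IntermediateField ℚ ℂ, K ≤ K' ∧ FiniteDimensional ℚ K' ∧
      Module.finrank ℚ K' ≤ 3 * Module.finrank ℚ K ∧
      ∃ x : ℂ, AI K' (4 * 40 ^ e) x ∧ 2 * (8 ^ e * E) = s0 * x := by
  have hs : (s0 : ℂ) ≠ 0 := by
    have := s0_pos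
    exact_mod_cast this.ne'
  have e1 : (1600 : ℝ) ^ e = (40 ^ e) ^ 2 := by rw [← pow_mul, mul_comm, pow_mul]; norm_num
  have e2 : (64000 : ℝ) ^ e = (40 ^ e) ^ 3 := by rw [← pow_mul, mul_comm, pow_mul]; norm_num
  have e3 : (64 : ℂ) ^ e = (8 ^ e) ^ 2 := by rw [← pow_mul, mul_comm, pow_mul]; norm_num
  have e4 : (512 : ℂ) ^ e = (8 ^ e) ^ 3 := by rw [← pow_mul, mul_comm, pow_mul]; norm_num
  rw [e1] at hb
  rw [e2] at hc
  rw [e3] at h2
  rw [e4] at h3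
  set q : ℂ := 8 ^ e with hq
  set x : ℂ := 2 * (q * E) / s0 with hx
  have hx' : (s0 : ℂ) * x = 2 * (q * E) := by rw [hx]; field_simp
  have hcub : x ^ 3 = 3 * b * x + 2 * c := by
    have h5 : (s0 : ℂ) ^ 3 * (x ^ 3 - (3 * b * x + 2 * c)) = 0 := by
      have h6 : (s0 : ℂ) ^ 3 * (x ^ 3 - (3 * b * x + 2 * c)) =
          (s0 * x) ^ 3 - 3 * ((s0 : ℂ) ^ 2 * b) * (s0 * x) - 2 * ((s0 : ℂ) ^ 3 * c) := by ring
      rw [h6, hx', ← h2, ← h3]
      linear_combination (2 * q ^ 3) * hE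
    rcases mul_eq_zero.mp h5 with h6 | h6
    · exact absurd h6 (pow_ne_zero 3 hs)
    · exact sub_eq_zero.mp h6
  obtain ⟨K', hK, hfd', hr, hAI⟩ := cubic_step K hfd (40 ^ e) (by positivity) b c x hb hc hcub
  exact ⟨K', hK, hfd', hr, x, hAI, hx'.symm⟩

theorem chain_double {K : IntermediateField ℚ ℂ} (hfd : FiniteDimensional ℚ K) {e : ℕ} {σ : ℂ}
    (h : CMD K e σ) : ∃ K' : IntermediateField ℚ ℂ, K ≤ K' ∧ FiniteDimensional ℚ K' ∧
      Module.finrank ℚ K' ≤ 3 * Module.finrank ℚ K ∧ CMD K' (e + 1) (2 * σ) := by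
  obtain ⟨h0, a, b, c, ha, hb, hc, h1, h2, h3⟩ := h
  obtain ⟨t1, t2, t3⟩ := two_double h0
  obtain ⟨K', hK, hfd', hr, x, hx, hxe⟩ := Chain_cubic hfd hb hc h2 h3 t1
  have him : (2 * σ).im = 2 * σ.im := by simp
  have ha' := ha.mono hK le_rfl
  have hb' := hb.mono hK le_rfl
  refine ⟨K', hK, hfd', hr, ?_⟩
  have e1 : (1600 : ℝ) ^ e = (40 ^ e) ^ 2 := by rw [← pow_mul, mul_comm, pow_mul]; norm_num
  have e2 : (64000 : ℝ) ^ e = (40 ^ e) ^ 3 := by rw [← pow_mul, mul_comm, pow_mul]; norm_num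
  have e3 : (64 : ℂ) ^ e = (8 ^ e) ^ 2 := by rw [← pow_mul, mul_comm, pow_mul]; norm_num
  have e4 : (512 : ℂ) ^ e = (8 ^ e) ^ 3 := by rw [← pow_mul, mul_comm, pow_mul]; norm_num
  have ht : (0 : ℝ) < 40 ^ e := by positivity
  refine ⟨by rw [him]; linarith, 4 * a + 2 * x, 20 * x ^ 2 - 16 * b, 88 * x ^ 3 - 96 * (x * b),
    ?_, ?_, ?_, ?_, ?_, ?_⟩
  · have h4 := ((AI.nat K' 4).mul ha').add ((AI.nat K' 2).mul hx)
    refine AI.mono le_rfl ?_ (by simpa using h4)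
    rw [pow_succ]
    nlinarith
  · have h4 := ((AI.nat K' 20).mul (hx.pow 2)).sub ((AI.nat K' 16).mul hb')
    refine AI.mono le_rfl ?_ (by simpa using h4)
    rw [pow_succ (1600 : ℝ) e, e1]
    nlinarith [pow_pos ht 2]
  · have h4 := ((AI.nat K' 88).mul (hx.pow 3)).sub ((AI.nat K' 96).mul (hx.mul hb'))
    refine AI.mono le_rfl ?_ (by simpa using h4)
    rw [pow_succ (64000 : ℝ) e, e1, e2]
    nlinarith [pow_pos ht 3]
  · rw [him]
    have hy : (σ.im : ℂ) ≠ 0 := by exact_mod_cast h0.ne'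
    have hpi : (Real.pi : ℂ) ≠ 0 := by exact_mod_cast Real.pi_ne_zero
    have h5 : (8 : ℂ) ^ (e + 1) * (3 / ((Real.pi : ℂ) * ((2 * σ.im : ℝ) : ℂ))) =
        4 * (8 ^ e * (3 / ((Real.pi : ℂ) * (σ.im : ℂ)))) := by
      push_cast
      field_simp
      ring
    rw [h5]
    linear_combination 4 * h1 + 2 * hxe
  · rw [e3] at h2
    have h6 : (64 : ℂ) ^ (e + 1) = 64 * (8 ^ e) ^ 2 := by rw [pow_succ, e3]; ring
    rw [h6]
    have h7 : (8 : ℂ) ^ e * (2 * E2f (2 * σ) - E2f σ) = s0 * x / 2 := by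
      rw [← hxe]; ring
    have h8 : 4 * (8 ^ e) ^ 2 * E4f (2 * σ) =
        5 * (8 ^ e * (2 * E2f (2 * σ) - E2f σ)) ^ 2 - (8 ^ e) ^ 2 * E4f σ := by
      linear_combination (8 ^ e) ^ 2 * t2
    rw [h7, h2] at h8
    linear_combination 16 * h8
  · rw [e3] at h2
    rw [e4] at h3
    have h6 : (512 : ℂ) ^ (e + 1) = 512 * (8 ^ e) ^ 3 := by rw [pow_succ, e4]; ring
    rw [h6]
    have h7 : (8 : ℂ) ^ e * (2 * E2f (2 * σ) - E2f σ) = s0 * x / 2 := by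
      rw [← hxe]; ring
    have h8 : 8 * (8 ^ e) ^ 3 * E6f (2 * σ) =
        11 * (8 ^ e * (2 * E2f (2 * σ) - E2f σ)) ^ 3 -
          3 * (8 ^ e * (2 * E2f (2 * σ) - E2f σ)) * ((8 ^ e) ^ 2 * E4f σ) := by
      linear_combination (8 ^ e) ^ 3 * t3
    rw [h7, h2] at h8
    linear_combination 64 * h8

theorem chain_half {K : IntermediateField ℚ ℂ} (hfd : FiniteDimensional ℚ K) {e : ℕ} {σ : ℂ}
    (h : CMD K e σ) : ∃ K' : IntermediateField ℚ ℂ, K ≤ K' ∧ FiniteDimensional ℚ K' ∧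
      Module.finrank ℚ K' ≤ 3 * Module.finrank ℚ K ∧ CMD K' (e + 1) (σ / 2) := by
  obtain ⟨h0, a, b, c, ha, hb, hc, h1, h2, h3⟩ := h
  obtain ⟨t1, t2, t3⟩ := two_half h0
  obtain ⟨K', hK, hfd', hr, x, hx, hxe⟩ := Chain_cubic hfd hb hc h2 h3 t1
  have him : (σ / 2).im = σ.im / 2 := by simp
  have ha' := ha.mono hK le_rfl
  have hb' := hb.mono hK le_rfl
  refine ⟨K', hK, hfd', hr, ?_⟩
  have e1 : (1600 : ℝ) ^ e = (40 ^ e) ^ 2 := by rw [← pow_mul, mul_comm, pow_mul]; norm_num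
  have e2 : (64000 : ℝ) ^ e = (40 ^ e) ^ 3 := by rw [← pow_mul, mul_comm, pow_mul]; norm_num
  have e3 : (64 : ℂ) ^ e = (8 ^ e) ^ 2 := by rw [← pow_mul, mul_comm, pow_mul]; norm_num
  have e4 : (512 : ℂ) ^ e = (8 ^ e) ^ 3 := by rw [← pow_mul, mul_comm, pow_mul]; norm_num
  have ht : (0 : ℝ) < 40 ^ e := by positivity
  refine ⟨by rw [him]; linarith, 16 * a + 8 * x, 320 * x ^ 2 - 256 * b,
    5632 * x ^ 3 - 6144 * (x * b), ?_, ?_, ?_, ?_, ?_, ?_⟩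
  · have h4 := ((AI.nat K' 16).mul ha').add ((AI.nat K' 8).mul hx)
    refine AI.mono le_rfl ?_ (by simpa using h4)
    rw [pow_succ]
    nlinarith
  · have h4 := ((AI.nat K' 320).mul (hx.pow 2)).sub ((AI.nat K' 256).mul hb')
    refine AI.mono le_rfl ?_ (by simpa using h4)
    rw [pow_succ (1600 : ℝ) e, e1]
    nlinarith [pow_pos ht 2]
  · have h4 := ((AI.nat K' 5632).mul (hx.pow 3)).sub ((AI.nat K' 6144).mul (hx.mul hb'))
    refine AI.mono le_rfl ?_ (by simpa using h4)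
    rw [pow_succ (64000 : ℝ) e, e1, e2]
    nlinarith [pow_pos ht 3]
  · rw [him]
    have hy : (σ.im : ℂ) ≠ 0 := by exact_mod_cast h0.ne'
    have hpi : (Real.pi : ℂ) ≠ 0 := by exact_mod_cast Real.pi_ne_zero
    have h5 : (8 : ℂ) ^ (e + 1) * (3 / ((Real.pi : ℂ) * ((σ.im / 2 : ℝ) : ℂ))) =
        16 * (8 ^ e * (3 / ((Real.pi : ℂ) * (σ.im : ℂ)))) := by
      push_cast
      field_simp
      ring
    rw [h5]
    linear_combination 16 * h1 + 8 * hxe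
  · rw [e3] at h2
    have h6 : (64 : ℂ) ^ (e + 1) = 64 * (8 ^ e) ^ 2 := by rw [pow_succ, e3]; ring
    rw [h6]
    have h7 : (8 : ℂ) ^ e * (E2f (σ / 2) / 2 - E2f σ) = s0 * x / 2 := by
      rw [← hxe]; ring
    have h8 : (8 ^ e) ^ 2 * E4f (σ / 2) =
        4 * (5 * (8 ^ e * (E2f (σ / 2) / 2 - E2f σ)) ^ 2 - (8 ^ e) ^ 2 * E4f σ) := by
      linear_combination (8 ^ e) ^ 2 * t2
    rw [h7, h2] at h8
    linear_combination 64 * h8
  · rw [e3] at h2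
    rw [e4] at h3
    have h6 : (512 : ℂ) ^ (e + 1) = 512 * (8 ^ e) ^ 3 := by rw [pow_succ, e4]; ring
    rw [h6]
    have h7 : (8 : ℂ) ^ e * (E2f (σ / 2) / 2 - E2f σ) = s0 * x / 2 := by
      rw [← hxe]; ring
    have h8 : (8 ^ e) ^ 3 * E6f (σ / 2) =
        8 * (11 * (8 ^ e * (E2f (σ / 2) / 2 - E2f σ)) ^ 3 -
          3 * (8 ^ e * (E2f (σ / 2) / 2 - E2f σ)) * ((8 ^ e) ^ 2 * E4f σ)) := by
      linear_combination (8 ^ e) ^ 3 * t3
    rw [h7, h2] at h8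
    linear_combination 512 * h8

theorem Chain_up (K : IntermediateField ℚ ℂ) (hfd : FiniteDimensional ℚ K) (u : ℕ) :
    ∃ K' : IntermediateField ℚ ℂ, K ≤ K' ∧ FiniteDimensional ℚ K' ∧
      Module.finrank ℚ K' ≤ 3 ^ u * Module.finrank ℚ K ∧ CMD K' u (2 ^ u * Complex.I) := by
  induction u with
  | zero => exact ⟨K, le_rfl, hfd, by simp, by simpa using chain_start K⟩
  | succ u ih =>
    obtain ⟨K', hK, hfd', hr, hC⟩ := ih
    obtain ⟨K'', hK', hfd'', hr', hC'⟩ := chain_double hfd' hC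
    refine ⟨K'', hK.trans hK', hfd'', ?_, ?_⟩
    · calc Module.finrank ℚ K'' ≤ 3 * Module.finrank ℚ K' := hr'
        _ ≤ 3 * (3 ^ u * Module.finrank ℚ K) := Nat.mul_le_mul_left _ hr
        _ = 3 ^ (u + 1) * Module.finrank ℚ K := by ring
    · have : (2 : ℂ) ^ (u + 1) * Complex.I = 2 * (2 ^ u * Complex.I) := by ring
      rw [this]; exact hC'

theorem Chain_down {K : IntermediateField ℚ ℂ} (hfd : FiniteDimensional ℚ K) {e : ℕ} {σ : ℂ}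
    (h : CMD K e σ) (w : ℕ) :
    ∃ K' : IntermediateField ℚ ℂ, K ≤ K' ∧ FiniteDimensional ℚ K' ∧
      Module.finrank ℚ K' ≤ 3 ^ w * Module.finrank ℚ K ∧ CMD K' (e + w) (σ / 2 ^ w) := by
  induction w with
  | zero => exact ⟨K, le_rfl, hfd, by simp, by simpa using h⟩
  | succ w ih =>
    obtain ⟨K', hK, hfd', hr, hC⟩ := ih
    obtain ⟨K'', hK', hfd'', hr', hC'⟩ := chain_half hfd' hC
    refine ⟨K'', hK.trans hK', hfd'', ?_, ?_⟩
    · calc Module.finrank ℚ K'' ≤ 3 * Module.finrank ℚ K' := hr'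
        _ ≤ 3 * (3 ^ w * Module.finrank ℚ K) := Nat.mul_le_mul_left _ hr
        _ = 3 ^ (w + 1) * Module.finrank ℚ K := by ring
    · have : σ / 2 ^ (w + 1) = σ / 2 ^ w / 2 := by rw [pow_succ, div_div]
      rw [this]; exact hC'

theorem chain (K : IntermediateField ℚ ℂ) (hfd : FiniteDimensional ℚ K) (u w : ℕ) (v : ℤ) :
    ∃ K' : IntermediateField ℚ ℂ, K ≤ K' ∧ FiniteDimensional ℚ K' ∧
      Module.finrank ℚ K' ≤ 3 ^ (u + w) * Module.finrank ℚ K ∧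
      CMD K' (u + w) ((2 ^ u * Complex.I + v) / 2 ^ w) := by
  obtain ⟨K', hK, hfd', hr, hC⟩ := Chain_up K hfd u
  obtain ⟨K'', hK', hfd'', hr', hC'⟩ := Chain_down hfd' (chain_translate hC v) w
  refine ⟨K'', hK.trans hK', hfd'', ?_, hC'⟩
  calc Module.finrank ℚ K'' ≤ 3 ^ w * Module.finrank ℚ K' := hr'
    _ ≤ 3 ^ w * (3 ^ u * Module.finrank ℚ K) := Nat.mul_le_mul_left _ hr
    _ = 3 ^ (u + w) * Module.finrank ℚ K := by ring

end Pool.Agent.Lib.MP5e
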