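import Pool.Agent.Lib.MP_5e64e7_nt.Defs

set_option autoImplicit false

noncomputable section

namespace Pool.Agent.Lib.MP5e

open Polynomial Topology

/-- factor `w - w0` out of an analytic function vanishing at `w0` -/
private theorem chg_factor {g : ℂ → ℂ} {w0 : ℂ} (hg : AnalyticAt ℂ g w0) (h0 : g w0 = 0) :
    ∃ ψ : ℂ → ℂ, AnalyticAt ℂ ψ w0 ∧ (∀ᶠ w in 𝓝 w0, g w = (w - w0) * ψ w) ∧
      ψ w0 = deriv g w0 := by
  have h1 : ((1 : ℕ) : ℕ∞) ≤ analyticOrderAt g w0 := by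
    rw [Nat.cast_one, Order.one_le_iff_ne_zero, analyticOrderAt_ne_zero]
    exact ⟨hg, h0⟩
  obtain ⟨ψ, hψ, he⟩ := (natCast_le_analyticOrderAt hg).mp h1
  have he' : ∀ᶠ w in 𝓝 w0, g w = (w - w0) * ψ w := by
    filter_upwards [he] with w hw
    rw [hw, pow_one, smul_eq_mul]
  refine ⟨ψ, hψ, he', ?_⟩
  have h2 : HasDerivAt (fun w => (w - w0) * ψ w) (1 * ψ w0 + (w0 - w0) * deriv ψ w0) w0 :=
    ((hasDerivAt_id w0).sub_const w0).mul hψ.differentiableAt.hasDerivAt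
  have h3 : deriv g w0 = deriv (fun w => (w - w0) * ψ w) w0 := Filter.EventuallyEq.deriv_eq he'
  rw [h3, h2.deriv]
  ring

/-- the derivatives of `(w - w0)^T H(w)` at `w0` -/
private theorem chg_mono {H : ℂ → ℂ} {w0 : ℂ} (hH : AnalyticAt ℂ H w0) (T : ℕ) :
    (∀ k < T, iteratedDeriv k (fun w => (w - w0) ^ T * H w) w0 = 0) ∧
      iteratedDeriv T (fun w => (w - w0) ^ T * H w) w0 = (T.factorial : ℂ) * H w0 := by
  have hlow : ∀ (n : ℕ) {G : ℂ → ℂ}, AnalyticAt ℂ G w0 →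
      ∀ k < n, iteratedDeriv k (fun w => (w - w0) ^ n * G w) w0 = 0 := by
    intro n G hG
    have ha : AnalyticAt ℂ (fun w => (w - w0) ^ n * G w) w0 :=
      ((analyticAt_id.sub analyticAt_const).pow n).mul hG
    rw [← natCast_le_analyticOrderAt_iff_iteratedDeriv_eq_zero ha, natCast_le_analyticOrderAt ha]
    exact ⟨G, hG, Filter.Eventually.of_forall fun w => by rw [smul_eq_mul]⟩
  refine ⟨hlow T hH, ?_⟩
  obtain ⟨H1, hH1, he, -⟩ := chg_factor (g := fun w => H w - H w0)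
    (hH.sub analyticAt_const) (sub_self _)
  have h1 : (fun w => (w - w0) ^ T * H w) =ᶠ[𝓝 w0]
      fun w => H w0 * (w - w0) ^ T + (w - w0) ^ (T + 1) * H1 w := by
    filter_upwards [he] with w hw
    have : H w = H w0 + (w - w0) * H1 w := by
      rw [← hw]; ring
    rw [this]
    ring
  have ha1 : AnalyticAt ℂ (fun w : ℂ => H w0 * (w - w0) ^ T) w0 :=
    analyticAt_const.mul ((analyticAt_id.sub analyticAt_const).pow T)
  have ha2 : AnalyticAt ℂ (fun w => (w - w0) ^ (T + 1) * H1 w) w0 :=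
    ((analyticAt_id.sub analyticAt_const).pow (T + 1)).mul hH1
  rw [h1.iteratedDeriv_eq, iteratedDeriv_fun_add ha1.contDiffAt ha2.contDiffAt,
    hlow (T + 1) hH1 T (Nat.lt_succ_self T), add_zero, iteratedDeriv_const_mul_field,
    iteratedDeriv_comp_sub_const T (fun z : ℂ => z ^ T) w0]
  simp only [sub_self]
  rw [iteratedDeriv_fun_pow_zero]
  simp
  ring

theorem chg (f φ h : ℂ → ℂ) (w0 d : ℂ) (hf : AnalyticAt ℂ f 0) (hφ : AnalyticAt ℂ φ w0)
    (hφ0 : φ w0 = 0) (hd : deriv φ w0 = d) (hh : AnalyticAt ℂ h w0) (T : ℕ) :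
    (∀ k < T, iteratedDeriv k (fun w => h w * f (φ w)) w0 =
      iteratedDeriv k (fun w => h w * ∑ l ∈ Finset.range T,
        iteratedDeriv l f 0 / (l.factorial : ℂ) * φ w ^ l) w0) ∧
    iteratedDeriv T (fun w => h w * f (φ w)) w0 =
      iteratedDeriv T (fun w => h w * ∑ l ∈ Finset.range T,
        iteratedDeriv l f 0 / (l.factorial : ℂ) * φ w ^ l) w0 +
      h w0 * d ^ T * iteratedDeriv T f 0 := by
  obtain ⟨F, hF, heF⟩ := hf.exists_eventuallyEq_sum_add_pow_mul (T + 1)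
  obtain ⟨ψ, hψ, heψ, hψ0⟩ := chg_factor hφ hφ0
  rw [hd] at hψ0
  obtain ⟨G, hG⟩ : ∃ G : ℂ → ℂ, G = fun z => iteratedDeriv T f 0 / (T.factorial : ℂ) + z * F z :=
    ⟨_, rfl⟩
  have hGa : AnalyticAt ℂ G 0 := by
    rw [hG]
    exact analyticAt_const.add (analyticAt_id.mul hF)
  obtain ⟨p, hp⟩ : ∃ p : ℂ → ℂ, p = fun z => ∑ l ∈ Finset.range T,
      iteratedDeriv l f 0 / (l.factorial : ℂ) * z ^ l := ⟨_, rfl⟩
  have hpa : ∀ z, AnalyticAt ℂ p z := by
    intro z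
    rw [hp]
    refine Finset.analyticAt_fun_sum _ fun l _ => ?_
    exact analyticAt_const.mul (analyticAt_id.pow l)
  have hfG : ∀ᶠ z in 𝓝 (0 : ℂ), f z = p z + z ^ T * G z := by
    filter_upwards [heF] with z hz
    rw [hz, Finset.sum_range_succ, hp, hG]
    simp only [smul_eq_mul]
    have : ∑ i ∈ Finset.range T, z ^ i / (i.factorial : ℂ) * iteratedDeriv i f 0 =
        ∑ l ∈ Finset.range T, iteratedDeriv l f 0 / (l.factorial : ℂ) * z ^ l :=
      Finset.sum_congr rfl fun i _ => by ring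
    rw [this]
    ring
  have hφc : Filter.Tendsto φ (𝓝 w0) (𝓝 0) := by
    have := hφ.continuousAt.tendsto
    rwa [hφ0] at this
  obtain ⟨H, hHdef⟩ : ∃ H : ℂ → ℂ, H = fun w => h w * (ψ w ^ T * G (φ w)) := ⟨_, rfl⟩
  have hGφ : AnalyticAt ℂ (fun w => G (φ w)) w0 := by
    have hGa' : AnalyticAt ℂ G (φ w0) := by rwa [hφ0]
    exact hGa'.comp hφ
  have hHa : AnalyticAt ℂ H w0 := by
    rw [hHdef]
    exact hh.mul ((hψ.pow T).mul hGφ)
  have hH0 : H w0 = h w0 * d ^ T * (iteratedDeriv T f 0 / (T.factorial : ℂ)) := by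
    rw [hHdef]
    simp only
    rw [hψ0, hφ0, hG]
    simp only
    ring
  have hfa : AnalyticAt ℂ (fun w => h w * f (φ w)) w0 := by
    have hf' : AnalyticAt ℂ f (φ w0) := by rwa [hφ0]
    exact hh.mul (hf'.comp hφ)
  have hpa' : AnalyticAt ℂ (fun w => h w * p (φ w)) w0 := hh.mul ((hpa (φ w0)).comp hφ)
  have hdiff : (fun w => h w * f (φ w) - h w * p (φ w)) =ᶠ[𝓝 w0] fun w => (w - w0) ^ T * H w := by
    filter_upwards [hφc.eventually hfG, heψ] with w hw1 hw2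
    rw [hw1, hHdef]
    simp only
    have : φ w ^ T = (w - w0) ^ T * ψ w ^ T := by
      rw [hw2, mul_pow]
    rw [this]
    ring
  obtain ⟨m1, m2⟩ := chg_mono hHa T
  have hsub : ∀ k, iteratedDeriv k (fun w => h w * f (φ w)) w0 -
      iteratedDeriv k (fun w => h w * p (φ w)) w0 =
        iteratedDeriv k (fun w => (w - w0) ^ T * H w) w0 := by
    intro k
    rw [← hdiff.iteratedDeriv_eq, iteratedDeriv_fun_sub hfa.contDiffAt hpa'.contDiffAt]
  have hfac : (T.factorial : ℂ) ≠ 0 := by exact_mod_cast Nat.factorial_ne_zero T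
  have hpp : (fun w => h w * p (φ w)) = fun w => h w * ∑ l ∈ Finset.range T,
        iteratedDeriv l f 0 / (l.factorial : ℂ) * φ w ^ l := by
    rw [hp]
  rw [← hpp]
  constructor
  · intro k hk
    have h1 := hsub k
    rw [m1 k hk] at h1
    exact sub_eq_zero.mp h1
  · have h1 := hsub T
    rw [m2, hH0] at h1
    have h2 : (T.factorial : ℂ) * (h w0 * d ^ T * (iteratedDeriv T f 0 / (T.factorial : ℂ))) =
        h w0 * d ^ T * iteratedDeriv T f 0 := by
      field_simp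
    rw [h2] at h1
    rw [← h1]
    ring

end Pool.Agent.Lib.MP5e
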