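import Pool.Agent.Lib.MP_5e64e7_nt.RepL

set_option autoImplicit false

noncomputable section

namespace Pool.Agent.Lib.MP5e

open Polynomial Topology

theorem Cub_bound (t s : ℝ) (ht : 0 ≤ t) (h : s ^ 3 ≤ 12 * t ^ 2 * s + 16 * t ^ 3) :
    s ≤ 4 * t := by
  by_contra hcon
  push Not at hcon
  have hs : 0 < s := by linarith
  have h1 : 0 < (s - 4 * t) * (s + 2 * t) ^ 2 := by
    apply mul_pos (by linarith)
    have : 0 < s + 2 * t := by linarith
    positivity
  have h2 : (s - 4 * t) * (s + 2 * t) ^ 2 = s ^ 3 - (12 * t ^ 2 * s + 16 * t ^ 3) := by ring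
  linarith

theorem Cub_root (R : Type) [CommRing R] [Nontrivial R] (b c : R) :
    (X ^ 3 - C (3 * b) * X - C (2 * c) : R[X]).Monic ∧
      (X ^ 3 - C (3 * b) * X - C (2 * c) : R[X]).natDegree = 3 := by
  have h1 : (C (3 * b) * X + C (2 * c) : R[X]).degree < 3 := by
    have := degree_linear_le (a := 3 * b) (b := 2 * c)
    exact lt_of_le_of_lt this (by norm_num)
  have h2 : (X ^ 3 - C (3 * b) * X - C (2 * c) : R[X]) = X ^ 3 - (C (3 * b) * X + C (2 * c)) := by
    ring
  rw [h2]
  constructor
  · exact monic_X_pow_sub (n := 3) (by simpa using h1)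
  · rw [natDegree_sub_eq_left_of_natDegree_lt]
    · exact natDegree_X_pow 3
    · rw [natDegree_X_pow]
      have h3 := natDegree_linear_le (a := 3 * b) (b := 2 * c)
      omega

theorem cubic_step (K : IntermediateField ℚ ℂ) (hfd : FiniteDimensional ℚ K) (t : ℝ)
    (ht : 0 ≤ t) (b c x : ℂ) (hb : AI K (4 * t ^ 2) b) (hc : AI K (8 * t ^ 3) c)
    (hx : x ^ 3 = 3 * b * x + 2 * c) :
    ∃ K' : IntermediateField ℚ ℂ, K ≤ K' ∧ FiniteDimensional ℚ K' ∧
      Module.finrank ℚ K' ≤ 3 * Module.finrank ℚ K ∧ AI K' (4 * t) x := by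
  obtain ⟨b', hb', hbi, hbb⟩ := hb
  obtain ⟨c', hc', hci, hcb⟩ := hc
  have hP := Cub_root K b' c'
  set P : K[X] := X ^ 3 - C (3 * b') * X - C (2 * c') with hPdef
  have hPx : aeval x P = 0 := by
    rw [hPdef]
    simp only [map_sub, map_mul, map_pow, aeval_X, aeval_C]
    have h1 : (algebraMap K ℂ) b' = b := hb'
    have h2 : (algebraMap K ℂ) c' = c := hc'
    rw [h1, h2, hx]
    simp only [map_ofNat]
    ring
  have hxint : IsIntegral K x := ⟨P, hP.1, by rw [← aeval_def]; exact hPx⟩
  have hKint : FiniteDimensional K (IntermediateField.adjoin K {x}) :=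
    IntermediateField.adjoin.finiteDimensional hxint
  have hfin2 : FiniteDimensional ℚ (IntermediateField.adjoin K {x}) :=
    FiniteDimensional.trans ℚ K _
  set K' : IntermediateField ℚ ℂ :=
    IntermediateField.restrictScalars ℚ (IntermediateField.adjoin K {x}) with hK'
  have hle : K ≤ K' := by
    intro y hy
    have h1 : algebraMap K ℂ ⟨y, hy⟩ ∈ IntermediateField.adjoin K {x} :=
      IntermediateField.algebraMap_mem _ _
    exact h1
  have hxmem : x ∈ K' := IntermediateField.mem_adjoin_simple_self K x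
  refine ⟨K', hle, hfin2, ?_, ⟨⟨x, hxmem⟩, rfl, ?_, ?_⟩⟩
  · have h1 : Module.finrank ℚ K * Module.finrank K (IntermediateField.adjoin K {x}) =
        Module.finrank ℚ (IntermediateField.adjoin K {x}) :=
      Module.finrank_mul_finrank ℚ K _
    have h2 : Module.finrank K (IntermediateField.adjoin K {x}) ≤ 3 := by
      rw [IntermediateField.adjoin.finrank hxint]
      have h3 := minpoly.min K x hP.1 hPx
      have h4 := natDegree_le_natDegree h3
      rw [hP.2] at h4
      exact h4
    have h3 : Module.finrank ℚ K' = Module.finrank ℚ (IntermediateField.adjoin K {x}) := rfl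
    rw [h3, ← h1, mul_comm]
    exact Nat.mul_le_mul_right _ h2
  · have hbi' : IsIntegral ℤ b := by
      rw [← hb']
      exact hbi.map (algebraMap K ℂ).toIntAlgHom
    have hci' : IsIntegral ℤ c := by
      rw [← hc']
      exact hci.map (algebraMap K ℂ).toIntAlgHom
    have hxi : IsIntegral ℤ x := by
      set R := integralClosure ℤ ℂ
      let b1 : R := ⟨b, hbi'⟩
      let c1 : R := ⟨c, hci'⟩
      have hQ := Cub_root R b1 c1
      have h1 : IsIntegral R x := by
        refine ⟨_, hQ.1, ?_⟩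
        rw [← aeval_def]
        simp only [map_sub, map_mul, map_pow, aeval_X, aeval_C]
        have h1 : (algebraMap R ℂ) b1 = b := rfl
        have h2 : (algebraMap R ℂ) c1 = c := rfl
        rw [h1, h2, hx]
        simp only [map_ofNat]
        ring
      exact isIntegral_trans (R := ℤ) (A := R) x h1
    have hinj : Function.Injective (algebraMap K' ℂ).toIntAlgHom := by
      intro u v huv
      exact (algebraMap K' ℂ).injective huv
    exact (isIntegral_algHom_iff (algebraMap K' ℂ).toIntAlgHom hinj).1 hxi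
  · intro φ
    set y := φ ⟨x, hxmem⟩ with hy
    let ψ : K →ₐ[ℚ] ℂ := φ.comp (IntermediateField.inclusion hle)
    have e1 : y ^ 3 = 3 * ψ b' * y + 2 * ψ c' := by
      have h1 : (⟨x, hxmem⟩ : K') ^ 3 = 3 * (IntermediateField.inclusion hle b') * ⟨x, hxmem⟩ +
          2 * (IntermediateField.inclusion hle c') := by
        apply Subtype.ext
        have h2 : ((IntermediateField.inclusion hle b' : K') : ℂ) = b := hb'
        have h3 : ((IntermediateField.inclusion hle c' : K') : ℂ) = c := hc'
        push_cast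
        rw [h2, h3]
        exact hx
      have h2 := congrArg φ h1
      simp only [map_pow, map_add, map_mul, map_ofNat] at h2
      exact h2
    apply Cub_bound t _ ht
    have h1 := hbb ψ
    have h2 := hcb ψ
    rw [← norm_pow, e1]
    calc ‖3 * ψ b' * y + 2 * ψ c'‖ ≤ ‖3 * ψ b' * y‖ + ‖2 * ψ c'‖ := norm_add_le _ _
      _ = 3 * ‖ψ b'‖ * ‖y‖ + 2 * ‖ψ c'‖ := by simp [norm_mul]
      _ ≤ 12 * t ^ 2 * ‖y‖ + 16 * t ^ 3 := by
        have h3 : ‖ψ b'‖ * ‖y‖ ≤ (4 * t ^ 2) * ‖y‖ :=
          mul_le_mul_of_nonneg_right h1 (norm_nonneg _)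
        nlinarith [h3, h2]

end Pool.Agent.Lib.MP5e
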