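import Mathlib

set_option autoImplicit false

/-!
# MP_5e64e7_nt : definitions (helper58)

Explicit tuples for the modular Schanuel conjecture with derivatives.
-/

noncomputable section

namespace Pool.Agent.Lib.MP5e

open Polynomial Topology

/-! ## Modular side -/

/-- `E₂` as a `q`-series on `ℂ` -/
def E2f (τ : ℂ) : ℂ := 1 - 24 * ∑' m : ℕ,
  (((ArithmeticFunction.sigma 1) (m + 1) : ℕ) : ℂ) *
    Complex.exp (2 * (Real.pi : ℂ) * Complex.I * τ) ^ (m + 1)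

/-- `E₄`, exactly as in the frozen statement -/
def E4f (τ : ℂ) : ℂ := 1 + 240 * ∑' m : ℕ,
  (((ArithmeticFunction.sigma 3) (m + 1) : ℕ) : ℂ) *
    Complex.exp (2 * (Real.pi : ℂ) * Complex.I * τ) ^ (m + 1)

/-- `E₆`, exactly as in the frozen statement -/
def E6f (τ : ℂ) : ℂ := 1 - 504 * ∑' m : ℕ,
  (((ArithmeticFunction.sigma 5) (m + 1) : ℕ) : ℂ) *
    Complex.exp (2 * (Real.pi : ℂ) * Complex.I * τ) ^ (m + 1)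

/-- the `j`-function, exactly as in the frozen statement -/
def jf (τ : ℂ) : ℂ := 1728 * E4f τ ^ 3 / (E4f τ ^ 3 - E6f τ ^ 2)

/-- `(τ, j, j', j'')` -/
def J4 (w : ℂ) : Fin 4 → ℂ := ![w, jf w, deriv jf w, deriv (deriv jf) w]

/-- `s₀ = √(E₄(i)/3)` -/
def s0 : ℝ := Real.sqrt ((E4f Complex.I).re / 3)

/-- `ϑ = π s₀` (`= ϖ²/π`) -/
def th : ℝ := Real.pi * s0

/-- `κ = 1/ϑ` -/
def kap : ℝ := 1 / (Real.pi * s0)

/-- the point `g·i` -/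
def tau (g : Matrix (Fin 2) (Fin 2) ℤ) : ℂ :=
  ((g 0 0 : ℂ) * Complex.I + (g 0 1 : ℂ)) / ((g 1 0 : ℂ) * Complex.I + (g 1 1 : ℂ))

/-- The approximation hypothesis. -/
def Near (C : ℕ) {n : ℕ} (z : Fin n → ℂ) : Prop :=
  ∃ (B : ℕ) (e : Fin n → ℕ) (g : Fin n → Matrix (Fin 2) (Fin 2) ℤ), 2 ≤ B ∧
    (∀ l, (g l).det = 2 ^ e l) ∧ (∀ l i k, |g l i k| ≤ (B : ℤ)) ∧ (∀ l, z l ≠ tau (g l)) ∧
    (∀ l : Fin n, (l : ℕ) = 0 → ‖z l - tau (g l)‖ ≤ Real.exp (-((B : ℝ) ^ C))) ∧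
    (∀ l m : Fin n, (m : ℕ) = (l : ℕ) + 1 →
      ‖z m - tau (g m)‖ ≤ ‖z l - tau (g l)‖ ^ C)

/-- the family `z_l, j(z_l), j'(z_l), j''(z_l)` together with `ϑ` -/
def fam {n : ℕ} (z : Fin n → ℂ) : Option (Fin n × Fin 4) → ℂ
  | none => (th : ℂ)
  | some p => J4 (z p.1) p.2

/-! ### heights -/

/-- `x ∈ K` is an algebraic integer, all of whose conjugates have absolute value at most `M` -/
def AI (K : IntermediateField ℚ ℂ) (M : ℝ) (x : ℂ) : Prop :=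
  ∃ a : K, (a : ℂ) = x ∧ IsIntegral ℤ a ∧ ∀ φ : K →ₐ[ℚ] ℂ, ‖φ a‖ ≤ M

/-- `x = R(ϑ)` with `R ∈ K[X]` of degree at most `m`, with integral coefficients, all of whose
conjugates have `L¹`-norm at most `M` -/
def Rep (K : IntermediateField ℚ ℂ) (m : ℕ) (M : ℝ) (x : ℂ) : Prop :=
  ∃ R : Polynomial K, R.natDegree ≤ m ∧ (∀ k, IsIntegral ℤ (R.coeff k)) ∧
    (∀ φ : K →ₐ[ℚ] ℂ, ∑ k ∈ Finset.range (m + 1), ‖φ (R.coeff k)‖ ≤ M) ∧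
    Polynomial.aeval (th : ℂ) R = x

/-- CM data at `σ`: the values of `E₂, E₄, E₆` at `σ` -/
def CMD (K : IntermediateField ℚ ℂ) (e : ℕ) (σ : ℂ) : Prop :=
  0 < σ.im ∧ ∃ a b c : ℂ, AI K (2 * 40 ^ e) a ∧ AI K (4 * 1600 ^ e) b ∧ AI K (8 * 64000 ^ e) c ∧
    8 ^ e * E2f σ = (s0 : ℂ) * a + 8 ^ e * (3 / ((Real.pi : ℂ) * (σ.im : ℂ))) ∧
    64 ^ e * E4f σ = (s0 : ℂ) ^ 2 * b ∧ 512 ^ e * E6f σ = (s0 : ℂ) ^ 3 * c

/-! ## Measure side -/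

/-- `r = e^{-2π}` -/
def rr : ℝ := Real.exp (-2 * Real.pi)

/-- the normalised `℘`-function in the multiplicative variable -/
def ff (w : ℂ) : ℂ := w / (1 - w) ^ 2 + ∑' k : ℕ,
  (w * (rr : ℂ) ^ (k + 1) / (1 - w * (rr : ℂ) ^ (k + 1)) ^ 2 +
    w⁻¹ * (rr : ℂ) ^ (k + 1) / (1 - w⁻¹ * (rr : ℂ) ^ (k + 1)) ^ 2)

/-- the normalised `ζ`-function in the multiplicative variable -/
def gg (w : ℂ) : ℂ := (w + 1) / (2 * (w - 1)) + ∑' k : ℕ,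
  (w⁻¹ * (rr : ℂ) ^ (k + 1) / (1 - w⁻¹ * (rr : ℂ) ^ (k + 1)) -
    w * (rr : ℂ) ^ (k + 1) / (1 - w * (rr : ℂ) ^ (k + 1)))

/-- the complement of `0` and the poles -/
def good : Set ℂ := {w | w ≠ 0 ∧ ∀ k : ℤ, w ≠ (rr : ℂ) ^ k}

/-- `μ = √s₀ / 2` -/
def mu : ℝ := Real.sqrt s0 / 2

/-- `X(t)`, solution of `X'^2 = 4X^3 - 4X`, `X(0) = -1` -/
def Xf (t : ℂ) : ℂ := (ff (-Complex.exp (t / (mu : ℂ))) + 1 / (4 * (Real.pi : ℂ))) / (mu : ℂ) ^ 2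

/-- `G(t)`, with `G' = κ - X`, `G(0) = 0` -/
def Gf (t : ℂ) : ℂ := gg (-Complex.exp (t / (mu : ℂ))) / (mu : ℂ)

/-- `P(X(t), G(t))` -/
def FF (D : ℕ) (a : ℕ → ℕ → ℂ) (s : ℂ) : ℂ :=
  ∑ i ∈ Finset.range (D + 1), ∑ j ∈ Finset.range (D + 1), a i j * Xf s ^ i * Gf s ^ j

/-- the Laurent polynomial vanishing at the poles `r^k`, `|k| ≤ K` -/
def hh (K : ℕ) (w : ℂ) : ℂ :=
  (1 - w) * ∏ k ∈ Finset.range K, ((1 - w⁻¹ * (rr : ℂ) ^ (k + 1)) * (1 - w * (rr : ℂ) ^ (k + 1)))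

/-- the annulus `r^{K+1} < |w| < r^{-(K+1)}` -/
def ann (K : ℕ) : Set ℂ := {w | rr ^ (K + 1) < ‖w‖ ∧ ‖w‖ < (rr ^ (K + 1))⁻¹}

/-- the radius `r^{-(K+1/2)} = e^{π(2K+1)}` -/
def rho (K : ℕ) : ℝ := Real.exp (Real.pi * (2 * K + 1))

/-- `L¹`-norm of an integer polynomial -/
def L1 (p : ℤ[X]) : ℕ := ∑ k ∈ p.support, (p.coeff k).natAbs

/-- `cc t i e j ∈ ℤ[κ]`: the value at the origin of the `t`-th derivative of `X^i Y^e G^j`, where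
`X' = Y`, `Y' = 6X² - 2`, `G' = κ - X` and `X(0) = -1`, `Y(0) = 0`, `G(0) = 0`. -/
def cc : ℕ → ℕ → ℕ → ℕ → ℤ[X]
  | 0, i, e, j => (-1) ^ i * 0 ^ e * 0 ^ j
  | t + 1, i, e, j => (i : ℤ[X]) * cc t (i - 1) (e + 1) j +
      (e : ℤ[X]) * (6 * cc t (i + 2) (e - 1) j - 2 * cc t i (e - 1) j) +
      (j : ℤ[X]) * (X * cc t i e (j - 1) - cc t (i + 1) e (j - 1))

/-- the formal power series `X̂^i Ŷ^e Ĝ^j` -/
def Phi (κ : ℂ) (i e j : ℕ) : PowerSeries ℂ :=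
  PowerSeries.mk (fun t => Polynomial.aeval κ (cc t i e j) / (t.factorial : ℂ))

/-- elements of `ℂ[X̂, Ŷ]` of weight at most `w` (`X̂` has weight 2, `Ŷ` weight 3) -/
def Wt (κ : ℂ) (w : ℕ) (f : PowerSeries ℂ) : Prop :=
  ∃ A B : ℂ[X], 2 * A.natDegree ≤ w ∧ (B = 0 ∨ 2 * B.natDegree + 3 ≤ w) ∧
    f = Polynomial.aeval (Phi κ 1 0 0) A + Polynomial.aeval (Phi κ 1 0 0) B * Phi κ 0 1 0

/-- the derivation `Y ∂_X + (6X²-2) ∂_Y + (κ - X) ∂_G` on coefficient sequences `∑ c_m G^m` -/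
def dS (κ : ℂ) (c : ℕ → PowerSeries ℂ) : ℕ → PowerSeries ℂ := fun m =>
  PowerSeries.derivative ℂ (c m) +
    ((m + 1 : ℕ) : PowerSeries ℂ) * (PowerSeries.C κ - Phi κ 1 0 0) * c (m + 1)

/-- `P(x, g)` in the multiplicative variable -/
def FW (D : ℕ) (a : ℕ → ℕ → ℂ) (w : ℂ) : ℂ :=
  ∑ i ∈ Finset.range (D + 1), ∑ j ∈ Finset.range (D + 1),
    a i j * ((ff w + 1 / (4 * (Real.pi : ℂ))) / (mu : ℂ) ^ 2) ^ i * (gg w / (mu : ℂ)) ^ j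

/-- the lattice `2π ℤ[i]` -/
def LP : PeriodPair where
  ω₁ := 2 * (Real.pi : ℂ)
  ω₂ := 2 * (Real.pi : ℂ) * Complex.I
  indep := by
    rw [LinearIndependent.pair_iff]
    intro s t h
    have h1 := congrArg Complex.re h
    have h2 := congrArg Complex.im h
    simp at h1 h2
    exact ⟨h1, h2⟩

end Pool.Agent.Lib.MP5e
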