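import Pool.Agent.Lib.MP_5e64e7_nt.L1l

set_option autoImplicit false

noncomputable section

namespace Pool.Agent.Lib.MP5e

open Polynomial Topology

theorem derA_zero_eq (i e j : ℕ) :
    cc 0 i e j = C ((-1 : ℤ) ^ i * 0 ^ e * 0 ^ j) := by
  simp only [cc, map_mul, map_pow, map_neg, map_one, map_zero]

theorem derA_natCast (a : ℕ) (p : ℤ[X]) : (a : ℤ[X]) * p = C (a : ℤ) * p := by
  rw [← Polynomial.C_eq_natCast]

theorem derA_deg (a : ℕ) (p : ℤ[X]) (m : ℕ) (h : p.natDegree ≤ m) :
    ((a : ℤ[X]) * p).natDegree ≤ m := by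
  rw [derA_natCast]
  exact (Polynomial.natDegree_C_mul_le _ _).trans h

theorem derA_L1 (a : ℕ) (p : ℤ[X]) : L1 ((a : ℤ[X]) * p) ≤ a * L1 p := by
  rw [derA_natCast]
  exact L1_C_mul _ _

theorem cc_natDegree (t i e j : ℕ) : (cc t i e j).natDegree ≤ j := by
  induction t generalizing i e j with
  | zero =>
    rw [derA_zero_eq, Polynomial.natDegree_C]
    exact Nat.zero_le _
  | succ t ih =>
    rw [cc]
    have h1 : ((i : ℤ[X]) * cc t (i - 1) (e + 1) j).natDegree ≤ j := derA_deg _ _ _ (ih _ _ _)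
    have h2 : ((e : ℤ[X]) * (6 * cc t (i + 2) (e - 1) j - 2 * cc t i (e - 1) j)).natDegree ≤ j := by
      apply derA_deg
      refine (Polynomial.natDegree_sub_le _ _).trans (max_le ?_ ?_)
      · exact derA_deg 6 _ _ (ih _ _ _)
      · exact derA_deg 2 _ _ (ih _ _ _)
    have h3 : ((j : ℤ[X]) * (X * cc t i e (j - 1) - cc t (i + 1) e (j - 1))).natDegree ≤ j := by
      rcases Nat.eq_zero_or_pos j with hj | hj
      · subst hj; simp
      · apply derA_deg
        refine (Polynomial.natDegree_sub_le _ _).trans (max_le ?_ ?_)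
        · refine Polynomial.natDegree_mul_le.trans ?_
          rw [Polynomial.natDegree_X]
          have := ih i e (j - 1)
          omega
        · have := ih (i + 1) e (j - 1)
          omega
    exact (Polynomial.natDegree_add_le _ _).trans
      (max_le ((Polynomial.natDegree_add_le _ _).trans (max_le h1 h2)) h3)

theorem cc_L1 (t i e j : ℕ) : L1 (cc t i e j) ≤ (8 * (i + e + j + t)) ^ t := by
  induction t generalizing i e j with
  | zero =>
    rw [derA_zero_eq, pow_zero]
    have h1 := L1_C_mul ((-1 : ℤ) ^ i * 0 ^ e * 0 ^ j) 1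
    rw [mul_one] at h1
    refine h1.trans ?_
    have h2 : L1 (1 : ℤ[X]) ≤ 1 := by
      rw [L1l_eq_range 1 0 (by simp)]
      simp
    have h3 : ((-1 : ℤ) ^ i * 0 ^ e * 0 ^ j).natAbs ≤ 1 := by
      rw [Int.natAbs_mul, Int.natAbs_mul, Int.natAbs_pow, Int.natAbs_pow, Int.natAbs_pow]
      have a1 : (Int.natAbs (-1)) ^ i ≤ 1 := by simp
      have a2 : (Int.natAbs 0) ^ e ≤ 1 := by
        rw [Int.natAbs_zero]; rcases Nat.eq_zero_or_pos e with h | h
        · subst h; simp
        · rw [zero_pow (by omega)]; omega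
      have a3 : (Int.natAbs 0) ^ j ≤ 1 := by
        rw [Int.natAbs_zero]; rcases Nat.eq_zero_or_pos j with h | h
        · subst h; simp
        · rw [zero_pow (by omega)]; omega
      calc _ ≤ 1 * 1 * 1 := Nat.mul_le_mul (Nat.mul_le_mul a1 a2) a3
        _ = 1 := by norm_num
    calc _ ≤ 1 * 1 := Nat.mul_le_mul h3 h2
      _ = 1 := by norm_num
  | succ t ih =>
    rw [cc]
    set N : ℕ := 8 * (i + e + j + (t + 1)) with hN
    have key : ∀ i' e' j' : ℕ, i' + e' + j' + t ≤ i + e + j + (t + 1) →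
        L1 (cc t i' e' j') ≤ N ^ t := fun i' e' j' h =>
      (ih i' e' j').trans (Nat.pow_le_pow_left (by omega) t)
    have h1 : L1 ((i : ℤ[X]) * cc t (i - 1) (e + 1) j) ≤ i * N ^ t := by
      refine (derA_L1 _ _).trans ?_
      rcases Nat.eq_zero_or_pos i with h | h
      · subst h; simp
      · exact Nat.mul_le_mul_left _ (key _ _ _ (by omega))
    have h2 : L1 ((e : ℤ[X]) * (6 * cc t (i + 2) (e - 1) j - 2 * cc t i (e - 1) j)) ≤
        e * (8 * N ^ t) := by
      refine (derA_L1 _ _).trans ?_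
      rcases Nat.eq_zero_or_pos e with h | h
      · subst h; simp
      · refine Nat.mul_le_mul_left _ ?_
        refine (L1_sub _ _).trans ?_
        have a1 : L1 (6 * cc t (i + 2) (e - 1) j) ≤ 6 * N ^ t :=
          (derA_L1 6 _).trans (Nat.mul_le_mul_left _ (key _ _ _ (by omega)))
        have a2 : L1 (2 * cc t i (e - 1) j) ≤ 2 * N ^ t :=
          (derA_L1 2 _).trans (Nat.mul_le_mul_left _ (key _ _ _ (by omega)))
        omega
    have h3 : L1 ((j : ℤ[X]) * (X * cc t i e (j - 1) - cc t (i + 1) e (j - 1))) ≤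
        j * (2 * N ^ t) := by
      refine (derA_L1 _ _).trans ?_
      rcases Nat.eq_zero_or_pos j with h | h
      · subst h; simp
      · refine Nat.mul_le_mul_left _ ?_
        refine (L1_sub _ _).trans ?_
        have a1 : L1 (X * cc t i e (j - 1)) ≤ N ^ t := (L1_X_mul _).trans (key _ _ _ (by omega))
        have a2 : L1 (cc t (i + 1) e (j - 1)) ≤ N ^ t := key _ _ _ (by omega)
        omega
    calc _ ≤ L1 ((i : ℤ[X]) * cc t (i - 1) (e + 1) j) +
          L1 ((e : ℤ[X]) * (6 * cc t (i + 2) (e - 1) j - 2 * cc t i (e - 1) j)) +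
          L1 ((j : ℤ[X]) * (X * cc t i e (j - 1) - cc t (i + 1) e (j - 1))) :=
          (L1_add _ _).trans (Nat.add_le_add_right (L1_add _ _) _)
      _ ≤ i * N ^ t + e * (8 * N ^ t) + j * (2 * N ^ t) :=
          Nat.add_le_add (Nat.add_le_add h1 h2) h3
      _ = (i + 8 * e + 2 * j) * N ^ t := by ring
      _ ≤ N * N ^ t := Nat.mul_le_mul_right _ (by omega)
      _ = N ^ (t + 1) := by rw [pow_succ]; ring

end Pool.Agent.Lib.MP5e
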