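import Pool.Agent.Lib.MP_5e64e7_nt.Defs

set_option autoImplicit false

noncomputable section

namespace Pool.Agent.Lib.MP5e

open Polynomial Topology

theorem derB_contDiffAt (f f' : ℂ → ℂ) (h : ∀ᶠ s in 𝓝 (0 : ℂ), HasDerivAt f (f' s) s) :
    AnalyticAt ℂ f 0 := by
  rw [Complex.analyticAt_iff_eventually_differentiableAt]
  exact h.mono fun s hs => hs.differentiableAt

theorem derB_lin (t : ℕ) (a b c d e : ℂ) (f1 f2 f3 f4 f5 : ℂ → ℂ)
    (h1 : AnalyticAt ℂ f1 0) (h2 : AnalyticAt ℂ f2 0) (h3 : AnalyticAt ℂ f3 0)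
    (h4 : AnalyticAt ℂ f4 0) (h5 : AnalyticAt ℂ f5 0) :
    iteratedDeriv t (fun s => a * f1 s + b * f2 s + c * f3 s + d * f4 s + e * f5 s) 0 =
      a * iteratedDeriv t f1 0 + b * iteratedDeriv t f2 0 + c * iteratedDeriv t f3 0 +
        d * iteratedDeriv t f4 0 + e * iteratedDeriv t f5 0 := by
  have g1 : ContDiffAt ℂ t (fun s => a * f1 s) 0 := contDiffAt_const.mul h1.contDiffAt
  have g2 : ContDiffAt ℂ t (fun s => b * f2 s) 0 := contDiffAt_const.mul h2.contDiffAt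
  have g3 : ContDiffAt ℂ t (fun s => c * f3 s) 0 := contDiffAt_const.mul h3.contDiffAt
  have g4 : ContDiffAt ℂ t (fun s => d * f4 s) 0 := contDiffAt_const.mul h4.contDiffAt
  have g5 : ContDiffAt ℂ t (fun s => e * f5 s) 0 := contDiffAt_const.mul h5.contDiffAt
  have k1 := iteratedDeriv_const_mul_field (n := t) (x := (0 : ℂ)) a f1
  have k2 := iteratedDeriv_const_mul_field (n := t) (x := (0 : ℂ)) b f2
  have k3 := iteratedDeriv_const_mul_field (n := t) (x := (0 : ℂ)) c f3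
  have k4 := iteratedDeriv_const_mul_field (n := t) (x := (0 : ℂ)) d f4
  have k5 := iteratedDeriv_const_mul_field (n := t) (x := (0 : ℂ)) e f5
  have e4 : iteratedDeriv t (fun s => a * f1 s + b * f2 s) 0 =
      a * iteratedDeriv t f1 0 + b * iteratedDeriv t f2 0 := by
    rw [← k1, ← k2]; exact iteratedDeriv_add g1 g2
  have e3 : iteratedDeriv t (fun s => a * f1 s + b * f2 s + c * f3 s) 0 =
      a * iteratedDeriv t f1 0 + b * iteratedDeriv t f2 0 + c * iteratedDeriv t f3 0 := by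
    rw [← k3, ← e4]; exact iteratedDeriv_add (g1.add g2) g3
  have e2 : iteratedDeriv t (fun s => a * f1 s + b * f2 s + c * f3 s + d * f4 s) 0 =
      a * iteratedDeriv t f1 0 + b * iteratedDeriv t f2 0 + c * iteratedDeriv t f3 0 +
        d * iteratedDeriv t f4 0 := by
    rw [← k4, ← e3]; exact iteratedDeriv_add ((g1.add g2).add g3) g4
  rw [← k5, ← e2]
  exact iteratedDeriv_add (((g1.add g2).add g3).add g4) g5

theorem iteratedDeriv_cc (κ : ℂ) (X Y G : ℂ → ℂ)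
    (hX : ∀ᶠ s in 𝓝 (0 : ℂ), HasDerivAt X (Y s) s)
    (hY : ∀ᶠ s in 𝓝 (0 : ℂ), HasDerivAt Y (6 * X s ^ 2 - 2) s)
    (hG : ∀ᶠ s in 𝓝 (0 : ℂ), HasDerivAt G (κ - X s) s)
    (hX0 : X 0 = -1) (hY0 : Y 0 = 0) (hG0 : G 0 = 0) (t i e j : ℕ) :
    iteratedDeriv t (fun s => X s ^ i * Y s ^ e * G s ^ j) 0 = aeval κ (cc t i e j) := by
  have aX := derB_contDiffAt X Y hX
  have aY := derB_contDiffAt Y _ hY
  have aG := derB_contDiffAt G _ hG
  have aF : ∀ i e j : ℕ, AnalyticAt ℂ (fun s => X s ^ i * Y s ^ e * G s ^ j) 0 := fun i e j =>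
    ((aX.pow i).mul (aY.pow e)).mul (aG.pow j)
  induction t generalizing i e j with
  | zero =>
    rw [iteratedDeriv_zero]
    simp only [hX0, hY0, hG0, cc, map_mul, map_pow, map_neg, map_one, map_zero]
  | succ t ih =>
    rw [iteratedDeriv_succ']
    have hd : deriv (fun s => X s ^ i * Y s ^ e * G s ^ j) =ᶠ[𝓝 (0 : ℂ)]
        fun s => (i : ℂ) * (X s ^ (i - 1) * Y s ^ (e + 1) * G s ^ j) +
          (6 * (e : ℂ)) * (X s ^ (i + 2) * Y s ^ (e - 1) * G s ^ j) +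
          (-2 * (e : ℂ)) * (X s ^ i * Y s ^ (e - 1) * G s ^ j) +
          ((j : ℂ) * κ) * (X s ^ i * Y s ^ e * G s ^ (j - 1)) +
          (-(j : ℂ)) * (X s ^ (i + 1) * Y s ^ e * G s ^ (j - 1)) := by
      filter_upwards [hX, hY, hG] with s h1 h2 h3
      have h4 := ((h1.fun_pow i).fun_mul (h2.fun_pow e)).fun_mul (h3.fun_pow j)
      rw [h4.deriv]
      ring
    rw [hd.iteratedDeriv_eq t, derB_lin t _ _ _ _ _ _ _ _ _ _ (aF _ _ _) (aF _ _ _) (aF _ _ _)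
      (aF _ _ _) (aF _ _ _), ih, ih, ih, ih, ih, cc]
    simp only [map_add, map_mul, map_sub, map_natCast, map_ofNat, Polynomial.aeval_X]
    ring

/-- the derivatives of `P(X(t), G(t))` at `0` -/
theorem iteratedDeriv_comb (κ : ℂ) (X Y G : ℂ → ℂ)
    (hX : ∀ᶠ s in 𝓝 (0 : ℂ), HasDerivAt X (Y s) s)
    (hY : ∀ᶠ s in 𝓝 (0 : ℂ), HasDerivAt Y (6 * X s ^ 2 - 2) s)
    (hG : ∀ᶠ s in 𝓝 (0 : ℂ), HasDerivAt G (κ - X s) s)
    (hX0 : X 0 = -1) (hY0 : Y 0 = 0) (hG0 : G 0 = 0) (D : ℕ) (a : ℕ → ℕ → ℂ) (t : ℕ) :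
    iteratedDeriv t (fun s => ∑ i ∈ Finset.range (D + 1), ∑ j ∈ Finset.range (D + 1),
      a i j * X s ^ i * G s ^ j) 0 =
    ∑ i ∈ Finset.range (D + 1), ∑ j ∈ Finset.range (D + 1), a i j * aeval κ (cc t i 0 j) := by
  have aX := derB_contDiffAt X Y hX
  have aG := derB_contDiffAt G _ hG
  have aF : ∀ i j : ℕ, AnalyticAt ℂ (fun s => a i j * X s ^ i * G s ^ j) 0 := fun i j =>
    (analyticAt_const.mul (aX.pow i)).mul (aG.pow j)
  rw [iteratedDeriv_fun_sum fun i _ => ContDiffAt.sum fun j _ => (aF i j).contDiffAt]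
  refine Finset.sum_congr rfl fun i _ => ?_
  rw [iteratedDeriv_fun_sum fun j _ => (aF i j).contDiffAt]
  refine Finset.sum_congr rfl fun j _ => ?_
  have h1 : (fun s => a i j * X s ^ i * G s ^ j) =
      fun s => a i j * (X s ^ i * Y s ^ 0 * G s ^ j) := by
    funext s; rw [pow_zero]; ring
  rw [h1, iteratedDeriv_const_mul_field, iteratedDeriv_cc κ X Y G hX hY hG hX0 hY0 hG0]

end Pool.Agent.Lib.MP5e
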