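import Pool.Agent.Lib.MP_5e64e7_nt.Defs

set_option autoImplicit false

noncomputable section

namespace Pool.Agent.Lib.MP5e

open Polynomial Topology

namespace Exa

variable {a : ℕ → ℕ}

lemma a_mono (h1 : ∀ k, a (k + 1) = 2 ^ ((k + 1) * a k)) (k : ℕ) :
    (k + 1) * a k + 1 ≤ a (k + 1) := by
  rw [h1]
  exact Nat.lt_two_pow_self

lemma a_step (h1 : ∀ k, a (k + 1) = 2 ^ ((k + 1) * a k)) (k : ℕ) : a k + 1 ≤ a (k + 1) := by
  have h2 := a_mono h1 k
  have h3 : 1 * a k ≤ (k + 1) * a k := Nat.mul_le_mul_right _ (by omega)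
  omega

lemma a_add (h1 : ∀ k, a (k + 1) = 2 ^ ((k + 1) * a k)) (k j : ℕ) : a k + j ≤ a (k + j) := by
  induction j with
  | zero => simp
  | succ j ih =>
    have := a_step h1 (k + j)
    rw [← add_assoc]
    rw [← add_assoc]
    omega

lemma a_le (h1 : ∀ k, a (k + 1) = 2 ^ ((k + 1) * a k)) {k l : ℕ} (h : k ≤ l) :
    a k + (l - k) ≤ a l := by
  have := a_add h1 k (l - k)
  rwa [Nat.add_sub_cancel' h] at this

lemma term_le (h1 : ∀ k, a (k + 1) = 2 ^ ((k + 1) * a k)) {n : ℕ} (hn : 1 ≤ n) (M l j : ℕ) :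
    (1 : ℝ) / 2 ^ a ((j + M) * n + l) ≤ 1 / 2 ^ a (M * n + l) * (1 / 2) ^ j := by
  have h2 : M * n + l + j ≤ (j + M) * n + l := by
    have : j * 1 ≤ j * n := Nat.mul_le_mul_left _ hn
    rw [add_mul]; omega
  have h3 := a_le h1 h2
  have h4 := a_add h1 (M * n + l) j
  have h5 : a (M * n + l) + j ≤ a ((j + M) * n + l) := by omega
  have h6 : (1 : ℝ) / 2 ^ a (M * n + l) * (1 / 2) ^ j = 1 / 2 ^ (a (M * n + l) + j) := by
    rw [one_div_pow, pow_add]; field_simp
  rw [h6]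
  exact one_div_le_one_div_of_le (by positivity) (pow_le_pow_right₀ (by norm_num) h5)

lemma summ (h1 : ∀ k, a (k + 1) = 2 ^ ((k + 1) * a k)) {n : ℕ} (hn : 1 ≤ n) (M l : ℕ) :
    Summable fun j : ℕ => (1 : ℝ) / 2 ^ a ((j + M) * n + l) := by
  refine Summable.of_nonneg_of_le (fun j => by positivity) (fun j => term_le h1 hn M l j) ?_
  exact (summable_geometric_two).mul_left _

lemma tail_le (h1 : ∀ k, a (k + 1) = 2 ^ ((k + 1) * a k)) {n : ℕ} (hn : 1 ≤ n) (M l : ℕ) :
    ∑' j : ℕ, (1 : ℝ) / 2 ^ a ((j + M) * n + l) ≤ 1 / 2 ^ a (M * n + l) * 2 := by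
  have h := (summ h1 hn M l).tsum_le_tsum (term_le h1 hn M l)
    ((summable_geometric_two).mul_left _)
  rwa [tsum_mul_left, tsum_geometric_two] at h

lemma le_tail (h1 : ∀ k, a (k + 1) = 2 ^ ((k + 1) * a k)) {n : ℕ} (hn : 1 ≤ n) (M l : ℕ) :
    (1 : ℝ) / 2 ^ a (M * n + l) ≤ ∑' j : ℕ, (1 : ℝ) / 2 ^ a ((j + M) * n + l) := by
  have := (summ h1 hn M l).le_tsum 0 fun j _ => by positivity
  simpa using this

end Exa

open Exa in
theorem exa (a : ℕ → ℕ) (h0 : a 0 = 1) (h1 : ∀ k, a (k + 1) = 2 ^ ((k + 1) * a k)) (n : ℕ)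
    (hn : 1 ≤ n) (z : Fin n → ℂ)
    (hz : ∀ l : Fin n, z l = Complex.I + ((∑' m : ℕ, (1 : ℝ) / 2 ^ a (m * n + l) : ℝ) : ℂ)) (C : ℕ) :
    Near C z := by
  obtain ⟨M, hM⟩ : ∃ M : ℕ, M = 2 * C + 2 := ⟨_, rfl⟩
  set w : ℕ → ℕ := fun l => a (M * n + l) with hw
  set v : ℕ → ℕ := fun l => ∑ m ∈ Finset.range (M + 1), 2 ^ (w l - a (m * n + l)) with hv
  set T : ℕ → ℝ := fun l => ∑' j : ℕ, (1 : ℝ) / 2 ^ a ((j + (M + 1)) * n + l) with hT
  have hTle : ∀ l, T l ≤ 1 / 2 ^ a ((M + 1) * n + l) * 2 := fun l => tail_le h1 hn (M + 1) l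
  have hleT : ∀ l, 1 / 2 ^ a ((M + 1) * n + l) ≤ T l := fun l => le_tail h1 hn (M + 1) l
  have hT0 : ∀ l, 0 < T l := fun l => lt_of_lt_of_le (by positivity) (hleT l)
  have hwm : ∀ l m, m ≤ M → a (m * n + l) + (M - m) ≤ w l := by
    intro l m hm
    have h2 : m * n + l + (M - m) ≤ M * n + l := by
      have h3 : (M - m) * 1 ≤ (M - m) * n := Nat.mul_le_mul_left _ hn
      have h4 : (M - m) * n + m * n = M * n := by rw [← add_mul, Nat.sub_add_cancel hm]
      omega
    have h5 := a_le h1 h2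
    have h6 := a_add h1 (m * n + l) (M - m)
    simp only [hw]
    omega
  have hvw : ∀ l, (v l : ℝ) / 2 ^ w l = ∑ m ∈ Finset.range (M + 1), (1 : ℝ) / 2 ^ a (m * n + l) := by
    intro l
    simp only [hv]
    push_cast
    rw [Finset.sum_div]
    refine Finset.sum_congr rfl fun m hm => ?_
    rw [Finset.mem_range] at hm
    have h2 := hwm l m (by omega)
    rw [div_eq_div_iff (by positivity) (by positivity), one_mul, ← pow_add]
    congr 1
    omega
  have hsplit : ∀ l, ∑' m : ℕ, (1 : ℝ) / 2 ^ a (m * n + l) = (v l : ℝ) / 2 ^ w l + T l := by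
    intro l
    rw [hvw l]
    have hs : Summable fun m : ℕ => (1 : ℝ) / 2 ^ a (m * n + l) := by
      have := summ h1 hn 0 l
      simpa using this
    exact (hs.sum_add_tsum_nat_add (M + 1)).symm
  have hvB : ∀ l, v l ≤ 2 ^ (w l + 1) := by
    intro l
    have h2 : ∑' m : ℕ, (1 : ℝ) / 2 ^ a (m * n + l) ≤ 2 := by
      have h3 := tail_le h1 hn 0 l
      simp only [add_zero, zero_mul, zero_add] at h3
      refine h3.trans ?_
      have h4 : (1 : ℝ) / 2 ^ a l ≤ 1 := by
        rw [div_le_one (by positivity)]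
        exact one_le_pow₀ (by norm_num)
      linarith
    have h5 := hsplit l
    have h6 := hT0 l
    have h7 : (v l : ℝ) / 2 ^ w l ≤ 2 := by linarith
    rw [div_le_iff₀ (by positivity)] at h7
    have h8 : (v l : ℝ) ≤ ((2 ^ (w l + 1) : ℕ) : ℝ) := by
      push_cast
      rw [pow_succ]; linarith
    exact_mod_cast h8
  have hwmono : ∀ l l', l ≤ l' → w l ≤ w l' := by
    intro l l' h
    have := a_le h1 (show M * n + l ≤ M * n + l' by omega)
    simp only [hw]
    omega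
  set g : Fin n → Matrix (Fin 2) (Fin 2) ℤ := fun l =>
    !![2 ^ w l, (v l : ℤ); 0, 2 ^ w l] with hg
  have htau : ∀ l : Fin n, tau (g l) = Complex.I + (((v l : ℝ) / 2 ^ w l : ℝ) : ℂ) := by
    intro l
    simp only [tau, hg, Matrix.of_apply, Matrix.cons_val', Matrix.cons_val_zero,
      Matrix.cons_val_one, Matrix.cons_val_fin_one]
    push_cast
    have h2 : (2 : ℂ) ^ w l ≠ 0 := pow_ne_zero _ two_ne_zero
    field_simp
    ring
  have hdiff : ∀ l : Fin n, z l - tau (g l) = ((T l : ℝ) : ℂ) := by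
    intro l
    rw [hz l, htau l, hsplit l]
    push_cast
    ring
  have hnorm : ∀ l : Fin n, ‖z l - tau (g l)‖ = T l := by
    intro l
    rw [hdiff l, Complex.norm_real, Real.norm_eq_abs, abs_of_pos (hT0 l)]
  set A : ℕ := w (n - 1) with hA
  refine ⟨2 ^ (A + 1), fun l => 2 * w l, g, ?_, ?_, ?_, ?_, ?_, ?_⟩
  · exact (le_of_eq (pow_one 2).symm).trans (Nat.pow_le_pow_right (by norm_num) (by omega))
  · intro l
    simp only [hg, Matrix.det_fin_two_of]
    rw [two_mul, pow_add]; ring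
  · intro l i k
    have hl : w l ≤ A := hwmono _ _ (by omega)
    have h2 : (2 : ℤ) ^ w l ≤ ((2 ^ (A + 1) : ℕ) : ℤ) := by
      push_cast
      exact pow_le_pow_right₀ (by norm_num) (by omega)
    have h3 : (v l : ℤ) ≤ ((2 ^ (A + 1) : ℕ) : ℤ) := by
      have := (hvB l).trans (Nat.pow_le_pow_right (by norm_num : 0 < 2) (Nat.succ_le_succ hl))
      exact_mod_cast this
    have h4 : (0 : ℤ) < 2 ^ w l := by positivity
    have h5 : (0 : ℤ) ≤ v l := Int.natCast_nonneg _
    fin_cases i <;> fin_cases k <;>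
      simp only [hg, Fin.zero_eta, Fin.isValue, Fin.mk_one, Matrix.of_apply, Matrix.cons_val',
        Matrix.cons_val_zero, Matrix.cons_val_one, Matrix.cons_val_fin_one]
    · rw [abs_of_pos h4]; exact h2
    · rw [abs_of_nonneg h5]; exact h3
    · rw [abs_zero]; exact Int.natCast_nonneg _
    · rw [abs_of_pos h4]; exact h2
  · intro l h
    have h2 := hnorm l
    rw [h, sub_self, norm_zero] at h2
    exact (hT0 l).ne h2
  · intro l hl0
    rw [hnorm l, hl0]
    set k : ℕ := (M + 1) * n - 1 with hk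
    have hk1 : (M + 1) * n = k + 1 := by
      have : 1 * 1 ≤ (M + 1) * n := Nat.mul_le_mul (by omega) hn
      omega
    have hAk : A = a k := by
      simp only [hA, hw]
      congr 1
      rw [add_mul] at hk
      omega
    have hA1 : 1 ≤ A := by
      rw [hAk, ← h0]
      have := a_le h1 (Nat.zero_le k)
      omega
    have hkM : M + 1 ≤ k + 1 := by
      rw [← hk1]
      exact Nat.le_mul_of_pos_right _ hn
    have hT2 : T 0 ≤ 1 / 2 ^ (2 ^ ((k + 1) * A)) * 2 := by
      have := hTle 0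
      rw [add_zero, hk1, h1 k, ← hAk] at this
      exact this
    have hbig : 4 * 2 ^ (C * (A + 1)) ≤ 2 ^ ((k + 1) * A) := by
      have : 2 + C * (A + 1) ≤ (k + 1) * A := by
        have h5 : (2 * C + 2) * A ≤ (k + 1) * A := Nat.mul_le_mul_right _ (by omega)
        nlinarith
      calc 4 * 2 ^ (C * (A + 1)) = 2 ^ (2 + C * (A + 1)) := by rw [pow_add]; norm_num
        _ ≤ _ := Nat.pow_le_pow_right (by norm_num) this
    refine hT2.trans ?_
    set X : ℕ := 2 ^ ((k + 1) * A) with hX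
    have hB : ((((2 ^ (A + 1) : ℕ) : ℝ)) ^ C) = ((2 ^ (C * (A + 1)) : ℕ) : ℝ) := by
      push_cast
      rw [← pow_mul, mul_comm]
    rw [hB]
    set Y : ℕ := 2 ^ (C * (A + 1)) with hY
    have hY1 : 1 ≤ Y := Nat.one_le_two_pow
    have hX4 : 4 * Y ≤ X := hbig
    have hlog : (1 : ℝ) / 2 ^ X * 2 = Real.exp (-((X - 1 : ℝ) * Real.log 2)) := by
      have h2 : (2 : ℝ) ^ X = Real.exp (X * Real.log 2) := by
        rw [← Real.rpow_natCast, Real.rpow_def_of_pos (by norm_num), mul_comm]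
      have h3 : -((X - 1 : ℝ) * Real.log 2) = -(X * Real.log 2) + Real.log 2 := by ring
      rw [h3, Real.exp_add, Real.exp_log (by norm_num), Real.exp_neg, ← h2, one_div]
    rw [hlog]
    refine Real.exp_le_exp.2 ?_
    have h6 : (4 : ℝ) * Y ≤ X := by exact_mod_cast hX4
    have h7 : (1 : ℝ) ≤ Y := by exact_mod_cast hY1
    have h8 := Real.log_two_gt_d9
    nlinarith
  · intro l m hlm
    rw [hnorm l, hnorm m, hlm]
    have h2 := hTle (l + 1)
    have h3 := hleT l
    refine h2.trans (le_trans ?_ (pow_le_pow_left₀ (by positivity) h3 C))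
    set k : ℕ := (M + 1) * n + l with hk
    have hk1 : (M + 1) * n + (l + 1) = k + 1 := by omega
    rw [hk1]
    have h4 := a_mono h1 k
    have hCk : C ≤ k + 1 := by
      have : M + 1 ≤ (M + 1) * n := Nat.le_mul_of_pos_right _ hn
      omega
    have h5 : C * a k + 1 ≤ a (k + 1) := by
      have := Nat.mul_le_mul_right (a k) hCk
      omega
    rw [one_div_pow, ← pow_mul, one_div_mul_eq_div, div_le_div_iff₀ (by positivity) (by positivity),
      one_mul, ← pow_succ']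
    exact pow_le_pow_right₀ (by norm_num) (by rw [mul_comm]; exact h5)

end Pool.Agent.Lib.MP5e
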