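import Pool.Agent.Lib.MP_5e64e7_nt.Trans

set_option autoImplicit false

noncomputable section

namespace Pool.Agent.Lib.MP5e

open Polynomial Topology

private lemma G2_G (k : ℕ) : LP.G k = ∑' p : ℤ × ℤ,
    (((p.1 : ℂ) * (2 * (Real.pi : ℂ)) + (p.2 : ℂ) * (2 * (Real.pi : ℂ) * Complex.I)) ^ k)⁻¹ := by
  rw [PeriodPair.G, ← LP.latticeEquivProd.symm.toEquiv.tsum_eq]
  refine tsum_congr fun p => ?_
  have := LP.latticeEquiv_symm_apply p
  change ((((LP.latticeEquivProd.symm p : LP.lattice) : ℂ)) ^ k)⁻¹ = _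
  rw [this]
  rfl

private lemma G2_four : LP.G 4 = ((2 * (Real.pi : ℂ)) ^ 4)⁻¹ *
    ∑' v : Fin 2 → ℤ, EisensteinSeries.eisSummand 4 v UpperHalfPlane.I := by
  rw [G2_G, ← tsum_mul_left, ← ((finTwoArrowEquiv ℤ).trans (Equiv.prodComm ℤ ℤ)).tsum_eq]
  refine tsum_congr fun v => ?_
  have e1 : (((finTwoArrowEquiv ℤ).trans (Equiv.prodComm ℤ ℤ)) v).1 = v 1 := rfl
  have e2 : (((finTwoArrowEquiv ℤ).trans (Equiv.prodComm ℤ ℤ)) v).2 = v 0 := rfl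
  rw [e1, e2, EisensteinSeries.eisSummand, UpperHalfPlane.coe_I, zpow_neg, ← mul_inv]
  congr 1
  have e3 : (((v 0 : ℤ) : ℂ) * Complex.I + ((v 1 : ℤ) : ℂ)) ^ (4 : ℤ) =
    (((v 0 : ℤ) : ℂ) * Complex.I + ((v 1 : ℤ) : ℂ)) ^ (4 : ℕ) := by norm_cast
  rw [e3]
  ring

theorem g2_eq : LP.g₂ = (s0 : ℂ) ^ 2 / 4 := by
  have hpi : (Real.pi : ℂ) ≠ 0 := by exact_mod_cast Real.pi_ne_zero
  have h1 := tsum_eisSummand_eq_tsum_sigma_mul_cexp_pow (k := 4) (by norm_num)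
    (by decide) UpperHalfPlane.I
  have h2 : E4f Complex.I = 1 + 240 * ∑' n : ℕ+, ((ArithmeticFunction.sigma 3 n : ℕ) : ℂ) *
      Complex.exp (2 * (Real.pi : ℂ) * Complex.I * Complex.I) ^ (n : ℕ) := by
    rw [E4f, tsum_pnat_eq_tsum_succ (f := fun n : ℕ => ((ArithmeticFunction.sigma 3 n : ℕ) : ℂ) *
      Complex.exp (2 * (Real.pi : ℂ) * Complex.I * Complex.I) ^ n)]
  have h3 := E4f_I
  rw [PeriodPair.g₂, G2_four]
  have e4 : ((4 : ℕ) : ℤ) = 4 := rfl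
  rw [e4] at h1
  rw [h1, UpperHalfPlane.coe_I]
  have e5 : riemannZeta ((4 : ℕ) : ℂ) = (Real.pi : ℂ) ^ 4 / 90 := by
    rw [← riemannZeta_four]
    norm_num
  have e6 : (((4 - 1).factorial : ℕ) : ℂ) = 6 := by
    norm_num [Nat.factorial]
  rw [e5, e6]
  rw [h3] at h2
  change 60 * (((2 * (Real.pi : ℂ)) ^ 4)⁻¹ * (2 * ((Real.pi : ℂ) ^ 4 / 90) +
    2 * ((-2 * (Real.pi : ℂ) * Complex.I) ^ 4 / 6) * ∑' n : ℕ+,
      ((ArithmeticFunction.sigma 3 n : ℕ) : ℂ) *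
      Complex.exp (2 * (Real.pi : ℂ) * Complex.I * Complex.I) ^ (n : ℕ))) = (s0 : ℂ) ^ 2 / 4
  have e7 : (-2 * (Real.pi : ℂ) * Complex.I) ^ 4 = 16 * (Real.pi : ℂ) ^ 4 := by
    rw [show (-2 * (Real.pi : ℂ) * Complex.I) ^ 4 =
      16 * (Real.pi : ℂ) ^ 4 * (Complex.I * Complex.I) ^ 2 by ring, Complex.I_mul_I]
    ring
  rw [e7]
  generalize (∑' n : ℕ+, ((ArithmeticFunction.sigma 3 n : ℕ) : ℂ) *
      Complex.exp (2 * (Real.pi : ℂ) * Complex.I * Complex.I) ^ (n : ℕ)) = S at h2 ⊢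
  field_simp
  linear_combination (-(1440 : ℂ)) * h2

theorem g3_eq : LP.g₃ = 0 := by
  have h : LP.G 6 = -LP.G 6 := by
    conv_lhs => rw [G2_G]
    rw [G2_G, ← tsum_neg]
    let e : ℤ × ℤ ≃ ℤ × ℤ :=
      { toFun := fun p => (-p.2, p.1)
        invFun := fun p => (p.2, -p.1)
        left_inv := fun p => by simp
        right_inv := fun p => by simp }
    rw [← e.tsum_eq]
    refine tsum_congr fun p => ?_
    have h1 : (((e p).1 : ℂ) * (2 * (Real.pi : ℂ)) + ((e p).2 : ℂ) *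
        (2 * (Real.pi : ℂ) * Complex.I)) = Complex.I * ((p.1 : ℂ) * (2 * (Real.pi : ℂ)) +
        (p.2 : ℂ) * (2 * (Real.pi : ℂ) * Complex.I)) := by
      simp only [e, Equiv.coe_fn_mk]
      push_cast
      linear_combination (-(p.2 : ℂ) * (2 * (Real.pi : ℂ))) * Complex.I_mul_I
    rw [h1, mul_pow, mul_inv]
    have h2 : Complex.I ^ 6 = -1 := by
      rw [show Complex.I ^ 6 = (Complex.I * Complex.I) ^ 3 by ring, Complex.I_mul_I]
      norm_num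
    rw [h2]
    norm_num
  have h4 : LP.G 6 = 0 := by
    have := self_eq_neg.mp h
    exact this
  rw [PeriodPair.g₃, h4, mul_zero]

end Pool.Agent.Lib.MP5e
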