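import Pool.Agent.Lib.MP_5e64e7_nt.Liouv
import Pool.Agent.Lib.MP_5e64e7_nt.G2

set_option autoImplicit false

noncomputable section

namespace Pool.Agent.Lib.MP5e

open Polynomial Topology

/-- `Y = X'` -/
def Yf (t : ℂ) : ℂ := deriv Xf t

theorem mu_pos : 0 < mu := by
  unfold mu
  exact div_pos (Real.sqrt_pos.2 s0_pos) two_pos

private theorem Ode_open : IsOpen ((LP.lattice : Set ℂ)ᶜ) := LP.isClosed_lattice.isOpen_compl

private theorem Ode_P {z : ℂ} (hz : z ∉ LP.lattice) :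
    HasDerivAt LP.weierstrassP (LP.derivWeierstrassP z) z := by
  have h := (LP.differentiableOn_weierstrassP.differentiableAt (Ode_open.mem_nhds hz)).hasDerivAt
  rwa [LP.deriv_weierstrassP] at h

private theorem Ode_Q {z : ℂ} (hz : z ∉ LP.lattice) :
    HasDerivAt LP.derivWeierstrassP (deriv LP.derivWeierstrassP z) z :=
  (LP.differentiableOn_derivWeierstrassP.differentiableAt (Ode_open.mem_nhds hz)).hasDerivAt

/-- the derivative of `℘` does not vanish locally -/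
private theorem Ode_nz {z₀ : ℂ} (hz₀ : z₀ ∉ LP.lattice) :
    ¬ ∀ᶠ z in 𝓝 z₀, LP.derivWeierstrassP z = 0 := by
  intro h
  have hc : IsPreconnected ((LP.lattice : Set ℂ)ᶜ) := by
    refine (Set.Countable.isConnected_compl_of_one_lt_rank (by simp) ?_).2
    exact countable_of_Lindelof_of_discrete (X := LP.lattice)
  have h1 := LP.analyticOnNhd_derivWeierstrassP.eqOn_zero_of_preconnected_of_eventuallyEq_zero
    hc hz₀ h
  have h2 : ∀ᶠ z in 𝓝[≠] (0 : ℂ), LP.derivWeierstrassPExcept 0 z * z ^ 3 = 2 := by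
    have h3 := LP.compl_lattice_sdiff_singleton_mem_nhds 0
    filter_upwards [nhdsWithin_le_nhds h3, self_mem_nhdsWithin] with z hz hz0
    have hz0' : z ≠ 0 := hz0
    have hzL : z ∉ LP.lattice := fun h4 => hz ⟨h4, hz0'⟩
    have h5 := LP.derivWeierstrassPExcept_def ⟨0, LP.lattice.zero_mem⟩ z
    have h6 : LP.derivWeierstrassP z = 0 := h1 hzL
    rw [h6, zero_add] at h5
    change LP.derivWeierstrassPExcept 0 z = 2 / (z - 0) ^ 3 at h5
    rw [h5, sub_zero]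
    field_simp
  have h3 : Filter.Tendsto (fun z : ℂ => LP.derivWeierstrassPExcept 0 z * z ^ 3) (𝓝[≠] 0)
      (𝓝 (LP.derivWeierstrassPExcept 0 0 * 0 ^ 3)) := by
    have h4 : ContinuousAt (fun z : ℂ => LP.derivWeierstrassPExcept 0 z * z ^ 3) 0 :=
      (LP.analyticAt_derivWeierstrassPExcept 0).continuousAt.mul (continuousAt_id.pow 3)
    exact h4.tendsto.mono_left nhdsWithin_le_nhds
  have h4 : Filter.Tendsto (fun z : ℂ => LP.derivWeierstrassPExcept 0 z * z ^ 3) (𝓝[≠] 0)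
      (𝓝 2) := by
    refine Filter.Tendsto.congr' ?_ tendsto_const_nhds
    filter_upwards [h2] with z hz
    exact hz.symm
  have h5 := tendsto_nhds_unique h3 h4
  norm_num at h5

private theorem Ode_PP {z : ℂ} (hz : z ∉ LP.lattice) :
    HasDerivAt LP.derivWeierstrassP (6 * LP.weierstrassP z ^ 2 - (s0 : ℂ) ^ 2 / 8) z := by
  have key : ∀ z : ℂ, z ∉ LP.lattice → LP.derivWeierstrassP z *
      (deriv LP.derivWeierstrassP z - (6 * LP.weierstrassP z ^ 2 - (s0 : ℂ) ^ 2 / 8)) = 0 := by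
    intro z hz
    have h1 : HasDerivAt (fun z => LP.derivWeierstrassP z ^ 2 -
        (4 * LP.weierstrassP z ^ 3 - (s0 : ℂ) ^ 2 / 4 * LP.weierstrassP z)) _ z :=
      ((Ode_Q hz).pow 2).sub ((((Ode_P hz).pow 3).const_mul 4).sub
        ((Ode_P hz).const_mul ((s0 : ℂ) ^ 2 / 4)))
    have h2 : (fun z => LP.derivWeierstrassP z ^ 2 -
        (4 * LP.weierstrassP z ^ 3 - (s0 : ℂ) ^ 2 / 4 * LP.weierstrassP z)) =ᶠ[𝓝 z]
        fun _ => 0 := by
      filter_upwards [Ode_open.mem_nhds hz] with v hv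
      have h3 := LP.derivWeierstrassP_sq v hv
      rw [g2_eq, g3_eq] at h3
      rw [h3]
      ring
    have h3 := h1.unique ((hasDerivAt_const z (0 : ℂ)).congr_of_eventuallyEq h2)
    linear_combination 1 / 2 * h3
  have h1 : deriv LP.derivWeierstrassP z - (6 * LP.weierstrassP z ^ 2 - (s0 : ℂ) ^ 2 / 8) = 0 := by
    by_contra h
    have hA : AnalyticAt ℂ (deriv LP.derivWeierstrassP) z :=
      (LP.analyticOnNhd_derivWeierstrassP z hz).deriv
    have hcont : ContinuousAt (fun z => deriv LP.derivWeierstrassP z -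
        (6 * LP.weierstrassP z ^ 2 - (s0 : ℂ) ^ 2 / 8)) z :=
      hA.continuousAt.sub ((((Ode_P hz).continuousAt.pow 2).const_mul 6).sub_const _)
    have h2 := hcont.eventually_ne h
    refine Ode_nz hz ?_
    filter_upwards [h2, Ode_open.mem_nhds hz] with v hv hv'
    exact (mul_eq_zero.1 (key v hv')).resolve_right hv
  have h2 := Ode_Q hz
  rwa [sub_eq_zero.1 h1] at h2

private theorem Ode_half : (Real.pi : ℂ) * Complex.I ∉ LP.lattice := by
  have h := LP.ω₂_div_two_notMem_lattice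
  have h1 : LP.ω₂ / 2 = (Real.pi : ℂ) * Complex.I := by
    show 2 * (Real.pi : ℂ) * Complex.I / 2 = _
    ring
  rwa [h1] at h

private theorem Ode_mu_ne : (mu : ℂ) ≠ 0 := by exact_mod_cast mu_pos.ne'

private theorem Ode_exp (t : ℂ) : -Complex.exp (t / (mu : ℂ)) =
    Complex.exp ((Real.pi : ℂ) * Complex.I + t / (mu : ℂ)) := by
  rw [Complex.exp_add, Complex.exp_pi_mul_I]
  ring

private theorem Ode_ev : ∀ᶠ t in 𝓝 (0 : ℂ),
    (Real.pi : ℂ) * Complex.I + t / (mu : ℂ) ∉ LP.lattice := by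
  have h1 : ContinuousAt (fun t : ℂ => (Real.pi : ℂ) * Complex.I + t / (mu : ℂ)) 0 := by fun_prop
  have h2 : (Real.pi : ℂ) * Complex.I + 0 / (mu : ℂ) ∉ LP.lattice := by
    rw [zero_div, add_zero]
    exact Ode_half
  exact h1.eventually (Ode_open.mem_nhds h2)

private theorem Ode_ff {s : ℂ} (hs : s ∉ LP.lattice) :
    ff (Complex.exp s) + 1 / (4 * (Real.pi : ℂ)) = LP.weierstrassP s := by
  rw [ff_eq_wp s hs, E2f_I]
  have : (Real.pi : ℂ) ≠ 0 := by exact_mod_cast Real.pi_ne_zero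
  field_simp
  ring

private theorem Ode_X {t : ℂ} (ht : (Real.pi : ℂ) * Complex.I + t / (mu : ℂ) ∉ LP.lattice) :
    Xf t = LP.weierstrassP ((Real.pi : ℂ) * Complex.I + t / (mu : ℂ)) / (mu : ℂ) ^ 2 := by
  unfold Xf
  rw [Ode_exp, Ode_ff ht]

private theorem Ode_lin (t : ℂ) :
    HasDerivAt (fun t : ℂ => (Real.pi : ℂ) * Complex.I + t / (mu : ℂ)) (1 / (mu : ℂ)) t := by
  simpa using ((hasDerivAt_id t).div_const (mu : ℂ)).const_add ((Real.pi : ℂ) * Complex.I)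

private theorem Ode_ev2 {t : ℂ} (ht : (Real.pi : ℂ) * Complex.I + t / (mu : ℂ) ∉ LP.lattice) :
    ∀ᶠ s in 𝓝 t, (Real.pi : ℂ) * Complex.I + s / (mu : ℂ) ∉ LP.lattice := by
  have h1 : ContinuousAt (fun t : ℂ => (Real.pi : ℂ) * Complex.I + t / (mu : ℂ)) t := by fun_prop
  exact h1.eventually (Ode_open.mem_nhds ht)

private theorem Ode_dX {t : ℂ} (ht : (Real.pi : ℂ) * Complex.I + t / (mu : ℂ) ∉ LP.lattice) :
    HasDerivAt Xf (LP.derivWeierstrassP ((Real.pi : ℂ) * Complex.I + t / (mu : ℂ)) /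
      (mu : ℂ) ^ 3) t := by
  have h1 : Xf =ᶠ[𝓝 t] fun t => LP.weierstrassP ((Real.pi : ℂ) * Complex.I + t / (mu : ℂ)) /
      (mu : ℂ) ^ 2 := by
    filter_upwards [Ode_ev2 ht] with s hs
    exact Ode_X hs
  refine HasDerivAt.congr_of_eventuallyEq ?_ h1
  refine (((Ode_P ht).comp t (Ode_lin t)).div_const ((mu : ℂ) ^ 2)).congr_deriv ?_
  have := Ode_mu_ne
  field_simp

private theorem Ode_Y {t : ℂ} (ht : (Real.pi : ℂ) * Complex.I + t / (mu : ℂ) ∉ LP.lattice) :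
    Yf t = LP.derivWeierstrassP ((Real.pi : ℂ) * Complex.I + t / (mu : ℂ)) / (mu : ℂ) ^ 3 :=
  (Ode_dX ht).deriv

private theorem Ode_mu_sq : (mu : ℂ) ^ 2 = (s0 : ℂ) / 4 := by
  have h1 : mu ^ 2 = s0 / 4 := by
    unfold mu
    rw [div_pow, Real.sq_sqrt s0_pos.le]
    norm_num
  exact_mod_cast h1

theorem ode_X : ∀ᶠ s in 𝓝 (0 : ℂ), HasDerivAt Xf (Yf s) s := by
  filter_upwards [Ode_ev] with t ht
  rw [Ode_Y ht]
  exact Ode_dX ht

theorem ode_Y : ∀ᶠ s in 𝓝 (0 : ℂ), HasDerivAt Yf (6 * Xf s ^ 2 - 2) s := by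
  filter_upwards [Ode_ev] with t ht
  have h1 : Yf =ᶠ[𝓝 t] fun t => LP.derivWeierstrassP ((Real.pi : ℂ) * Complex.I + t / (mu : ℂ)) /
      (mu : ℂ) ^ 3 := by
    filter_upwards [Ode_ev2 ht] with s hs
    exact Ode_Y hs
  refine HasDerivAt.congr_of_eventuallyEq ?_ h1
  refine (((Ode_PP ht).comp t (Ode_lin t)).div_const ((mu : ℂ) ^ 3)).congr_deriv ?_
  rw [Ode_X ht]
  have h2 := Ode_mu_ne
  have h3 : (s0 : ℂ) = 4 * (mu : ℂ) ^ 2 := by rw [Ode_mu_sq]; ring
  rw [h3]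
  field_simp
  ring

theorem ode_G : ∀ᶠ s in 𝓝 (0 : ℂ), HasDerivAt Gf ((kap : ℂ) - Xf s) s := by
  filter_upwards [Ode_ev] with t ht
  have hw : -Complex.exp (t / (mu : ℂ)) ∈ good := by
    rw [Ode_exp, exp_mem_good]
    exact ht
  have hw0 : Complex.exp (t / (mu : ℂ)) ≠ 0 := Complex.exp_ne_zero _
  have h1 : HasDerivAt (fun t : ℂ => -Complex.exp (t / (mu : ℂ)))
      (-(Complex.exp (t / (mu : ℂ)) * (1 / (mu : ℂ)))) t := by
    have h2 : HasDerivAt (fun t : ℂ => t / (mu : ℂ)) (1 / (mu : ℂ)) t :=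
      (hasDerivAt_id t).div_const (mu : ℂ)
    exact (h2.cexp).neg
  have h2 := ((gg_hasDerivAt hw).comp t h1).div_const (mu : ℂ)
  refine HasDerivAt.congr_deriv (f := Gf) h2 ?_
  have h3 : (kap : ℂ) = 1 / (4 * (Real.pi : ℂ)) / (mu : ℂ) ^ 2 := by
    rw [Ode_mu_sq]
    unfold kap
    push_cast
    have h4 : (s0 : ℂ) ≠ 0 := by exact_mod_cast s0_pos.ne'
    have h5 : (Real.pi : ℂ) ≠ 0 := by exact_mod_cast Real.pi_ne_zero
    field_simp
  unfold Xf
  rw [h3]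
  have h6 := Ode_mu_ne
  field_simp
  ring

private theorem Ode_dhalf : LP.derivWeierstrassP ((Real.pi : ℂ) * Complex.I) = 0 := by
  have h1 := LP.derivWeierstrassP_neg ((Real.pi : ℂ) * Complex.I)
  have h2 := LP.derivWeierstrassP_add_coe (-((Real.pi : ℂ) * Complex.I))
    ⟨LP.ω₂, LP.ω₂_mem_lattice⟩
  have h3 : -((Real.pi : ℂ) * Complex.I) + ((⟨LP.ω₂, LP.ω₂_mem_lattice⟩ : LP.lattice) : ℂ) =
      (Real.pi : ℂ) * Complex.I := by
    show -((Real.pi : ℂ) * Complex.I) + 2 * (Real.pi : ℂ) * Complex.I = _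
    ring
  rw [h3, h1] at h2
  exact self_eq_neg.1 h2

theorem Xf_zero : Xf 0 = -1 := by
  have h0 : (Real.pi : ℂ) * Complex.I + 0 / (mu : ℂ) = (Real.pi : ℂ) * Complex.I := by
    rw [zero_div, add_zero]
  have h1 : Xf 0 = LP.weierstrassP ((Real.pi : ℂ) * Complex.I) / (mu : ℂ) ^ 2 := by
    have h2 := Ode_X (t := 0) (by rw [h0]; exact Ode_half)
    rwa [h0] at h2
  have h2 : LP.weierstrassP ((Real.pi : ℂ) * Complex.I) =
      ff (-1) + 1 / (4 * (Real.pi : ℂ)) := by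
    rw [← Ode_ff Ode_half, Complex.exp_pi_mul_I]
  obtain ⟨x, hx, hx4⟩ := ff_neg_one
  have h3 : LP.weierstrassP ((Real.pi : ℂ) * Complex.I) =
      ((x + 1 / (4 * Real.pi) : ℝ) : ℂ) := by
    rw [h2, hx]
    push_cast
    ring
  have h4 := LP.derivWeierstrassP_sq _ Ode_half
  rw [Ode_dhalf, g2_eq, g3_eq, h3] at h4
  have h5 : (0 : ℝ) = 4 * (x + 1 / (4 * Real.pi)) ^ 3 - s0 ^ 2 / 4 * (x + 1 / (4 * Real.pi)) := by
    have h6 : (0 : ℂ) = ((4 * (x + 1 / (4 * Real.pi)) ^ 3 -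
        s0 ^ 2 / 4 * (x + 1 / (4 * Real.pi)) : ℝ) : ℂ) := by
      push_cast at h4 ⊢
      linear_combination h4
    exact_mod_cast h6
  have hneg : x + 1 / (4 * Real.pi) < 0 := by
    have h6 : 1 / (4 * Real.pi) < 1 / 4 := by
      refine one_div_lt_one_div_of_lt (by norm_num) ?_
      have := Real.pi_gt_three
      linarith
    linarith
  generalize x + 1 / (4 * Real.pi) = p at *
  have h6 : (4 * p - s0) * (4 * p + s0) = 0 := by
    have h7 : p * ((4 * p - s0) * (4 * p + s0)) = 0 := by linear_combination -4 * h5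
    exact (mul_eq_zero.1 h7).resolve_left hneg.ne
  have h7 : 4 * p + s0 = 0 := by
    rcases mul_eq_zero.1 h6 with h8 | h8
    · have := s0_pos
      linarith
    · exact h8
  have h8 : p = -(s0 / 4) := by linarith
  rw [h1, h3, h8, Ode_mu_sq]
  have h9 : (s0 : ℂ) ≠ 0 := by exact_mod_cast s0_pos.ne'
  push_cast
  field_simp

theorem Yf_zero : Yf 0 = 0 := by
  have h0 : (Real.pi : ℂ) * Complex.I + 0 / (mu : ℂ) = (Real.pi : ℂ) * Complex.I := by
    rw [zero_div, add_zero]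
  have h2 := Ode_Y (t := 0) (by rw [h0]; exact Ode_half)
  rw [h0, Ode_dhalf, zero_div] at h2
  exact h2

theorem Gf_zero : Gf 0 = 0 := by
  unfold Gf
  rw [zero_div, Complex.exp_zero, gg_neg_one, zero_div]

end Pool.Agent.Lib.MP5e
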