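import Pool.Agent.Lib.MP_5e64e7_nt.Defs

set_option autoImplicit false

noncomputable section

namespace Pool.Agent.Lib.MP5e

open Polynomial Topology

private lemma sch_diff {U : Set ℂ} (hU : U ∈ 𝓝 (-1 : ℂ)) {Φ : ℂ → ℂ}
    (hΦ : DifferentiableOn ℂ Φ U) (k : ℕ) :
    DifferentiableOn ℂ ((Function.swap dslope (-1 : ℂ))^[k] Φ) U := by
  induction k with
  | zero => exact hΦ
  | succ k ih =>
    rw [Function.iterate_succ_apply']
    exact (Complex.differentiableOn_dslope hU).2 ih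

private lemma sch_val {Φ : ℂ → ℂ} (h : AnalyticAt ℂ Φ (-1)) (k : ℕ) :
    (Function.swap dslope (-1 : ℂ))^[k] Φ (-1) = iteratedDeriv k Φ (-1) / k.factorial := by
  have h1 := h.hasFPowerSeriesAt.has_fpower_series_iterate_dslope_fslope k
  have h2 := h1.coeff_zero (fun _ => 1)
  rw [← h2]
  have h3 := FormalMultilinearSeries.coeff_iterate_fslope
    (p := FormalMultilinearSeries.ofScalars ℂ fun n => iteratedDeriv n Φ (-1) / n.factorial) k 0
  rw [zero_add, FormalMultilinearSeries.coeff_ofScalars] at h3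
  rw [← h3]
  rfl

private lemma sch_expand (Φ : ℂ → ℂ) (w : ℂ) (T : ℕ) :
    Φ w = ∑ k ∈ Finset.range T, (Function.swap dslope (-1 : ℂ))^[k] Φ (-1) * (w + 1) ^ k +
      (w + 1) ^ T * (Function.swap dslope (-1 : ℂ))^[T] Φ w := by
  induction T with
  | zero => simp
  | succ T ih =>
    rw [Finset.sum_range_succ, Function.iterate_succ_apply']
    have h := sub_smul_dslope ((Function.swap dslope (-1 : ℂ))^[T] Φ) (-1) w
    simp only [Function.swap, smul_eq_mul, sub_neg_eq_add] at h ih ⊢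
    rw [pow_succ, mul_assoc, h]
    conv_lhs => rw [ih]
    ring

private lemma sch_geom {x : ℝ} (hx : 2 ≤ x) (T : ℕ) : ∑ k ∈ Finset.range T, x ^ k ≤ x ^ T := by
  induction T with
  | zero => simp
  | succ T ih =>
    rw [Finset.sum_range_succ, pow_succ]
    have : 0 ≤ x ^ T := by positivity
    nlinarith

theorem sch (R : ℝ) (hR : 20 ≤ R) (Φ : ℂ → ℂ) (U : Set ℂ) (hU : IsOpen U)
    (hsub : {w : ℂ | R⁻¹ ≤ ‖w‖ ∧ ‖w‖ ≤ R} ⊆ U) (hΦ : DifferentiableOn ℂ Φ U)
    (B : ℝ) (hB : ∀ w : ℂ, (‖w‖ = R ∨ ‖w‖ = R⁻¹) → ‖Φ w‖ ≤ B)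
    (T : ℕ) (ε : ℝ) (hε : 0 ≤ ε)
    (hs : ∀ k < T, ‖iteratedDeriv k Φ (-1)‖ ≤ ε * k.factorial * 2 ^ k) :
    ‖iteratedDeriv T Φ (-1)‖ ≤
      T.factorial * 2 ^ T * (R ^ (T / 2))⁻¹ * (B + ε * (3 * R) ^ T) := by
  have hR0 : 0 < R := by linarith
  have hRi : R⁻¹ ≤ 1 / 20 := by
    rw [inv_eq_one_div]
    exact one_div_le_one_div_of_le (by norm_num) hR
  have hRi0 : 0 < R⁻¹ := inv_pos.2 hR0
  have hm1 : (-1 : ℂ) ∈ {w : ℂ | R⁻¹ ≤ ‖w‖ ∧ ‖w‖ ≤ R} := by
    refine ⟨?_, ?_⟩ <;> rw [norm_neg, norm_one] <;> linarith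
  have hUn : U ∈ 𝓝 (-1 : ℂ) := hU.mem_nhds (hsub hm1)
  have han : AnalyticAt ℂ Φ (-1) := hΦ.analyticAt hUn
  set Ψ := (Function.swap dslope (-1 : ℂ))^[T] Φ with hΨ
  have hΨd : DifferentiableOn ℂ Ψ U := sch_diff hUn hΦ T
  have hB0 : 0 ≤ B := (norm_nonneg _).trans (hB (R : ℂ) (Or.inl (by
    rw [Complex.norm_real, Real.norm_eq_abs, abs_of_pos hR0])))
  -- coefficients
  have hsk : ∀ k < T, ‖(Function.swap dslope (-1 : ℂ))^[k] Φ (-1)‖ ≤ ε * 2 ^ k := by
    intro k hk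
    rw [sch_val han, norm_div, Complex.norm_natCast,
      div_le_iff₀ (by exact_mod_cast Nat.factorial_pos k)]
    refine (hs k hk).trans (le_of_eq ?_)
    ring
  -- bound of the numerator
  have hnum : ∀ w : ℂ, (‖w‖ = R ∨ ‖w‖ = R⁻¹) →
      ‖(w + 1) ^ T * Ψ w‖ ≤ B + ε * (3 * R) ^ T := by
    intro w hw
    have h1 : (w + 1) ^ T * Ψ w = Φ w -
        ∑ k ∈ Finset.range T, (Function.swap dslope (-1 : ℂ))^[k] Φ (-1) * (w + 1) ^ k := by
      have := sch_expand Φ w T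
      rw [this, hΨ]
      ring
    have hw1 : ‖w + 1‖ ≤ 3 / 2 * R := by
      have h2 := norm_add_le w 1
      rw [norm_one] at h2
      rcases hw with hw | hw <;> rw [hw] at h2 <;> linarith
    rw [h1]
    refine (norm_sub_le _ _).trans (add_le_add (hB w hw) ?_)
    calc ‖∑ k ∈ Finset.range T, (Function.swap dslope (-1 : ℂ))^[k] Φ (-1) * (w + 1) ^ k‖
        ≤ ∑ k ∈ Finset.range T, ‖(Function.swap dslope (-1 : ℂ))^[k] Φ (-1) * (w + 1) ^ k‖ :=
          norm_sum_le _ _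
      _ ≤ ∑ k ∈ Finset.range T, ε * (3 * R) ^ k := by
          refine Finset.sum_le_sum fun k hk => ?_
          rw [norm_mul, norm_pow]
          calc ‖(Function.swap dslope (-1 : ℂ))^[k] Φ (-1)‖ * ‖w + 1‖ ^ k
              ≤ (ε * 2 ^ k) * (3 / 2 * R) ^ k := by
                refine mul_le_mul (hsk k (Finset.mem_range.1 hk)) ?_ (by positivity)
                  (by positivity)
                exact pow_le_pow_left₀ (norm_nonneg _) hw1 k
            _ = ε * (3 * R) ^ k := by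
                rw [mul_assoc, ← mul_pow]
                congr 2
                ring
      _ = ε * ∑ k ∈ Finset.range T, (3 * R) ^ k := by rw [Finset.mul_sum]
      _ ≤ ε * (3 * R) ^ T := mul_le_mul_of_nonneg_left (sch_geom (by linarith) T) hε
  have hM0 : 0 ≤ B + ε * (3 * R) ^ T := by positivity
  -- the function on the annulus
  set Θ : ℂ → ℂ := fun w => Ψ w * w ^ (T / 2) with hΘ
  set M : ℝ := 2 ^ T * (R ^ (T / 2))⁻¹ * (B + ε * (3 * R) ^ T) with hM
  have hbd : ∀ w : ℂ, (‖w‖ = R ∨ ‖w‖ = R⁻¹) → ‖Θ w‖ ≤ M := by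
    intro w hw
    have h1 := hnum w hw
    rw [norm_mul, norm_pow] at h1
    rw [hΘ]
    simp only [norm_mul, norm_pow]
    have h2 : ‖w‖ ≤ ‖w + 1‖ + 1 := by
      have := norm_sub_le (w + 1) 1
      rw [norm_one, add_sub_cancel_right] at this
      exact this
    have h3 : 1 ≤ ‖w + 1‖ + ‖w‖ := by
      have := norm_sub_le (w + 1) w
      rw [add_sub_cancel_left, norm_one] at this
      exact this
    rcases hw with hw | hw
    · rw [hw] at h2 ⊢
      have h4 : R / 2 ≤ ‖w + 1‖ := by linarith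
      have h5 : (R / 2) ^ T * ‖Ψ w‖ ≤ B + ε * (3 * R) ^ T :=
        (mul_le_mul_of_nonneg_right (pow_le_pow_left₀ (by positivity) h4 T)
          (norm_nonneg _)).trans h1
      have h6 : R ^ (T / 2) * R ^ (T / 2) ≤ R ^ T := by
        rw [← pow_add]
        exact pow_le_pow_right₀ (by linarith) (by omega)
      have h7 : ‖Ψ w‖ * R ^ (T / 2) ≤ ‖Ψ w‖ * (R ^ T * (R ^ (T / 2))⁻¹) := by
        refine mul_le_mul_of_nonneg_left ?_ (norm_nonneg _)
        rw [le_mul_inv_iff₀ (by positivity)]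
        exact h6
      refine h7.trans ?_
      rw [hM]
      calc ‖Ψ w‖ * (R ^ T * (R ^ (T / 2))⁻¹) =
            2 ^ T * (R ^ (T / 2))⁻¹ * ((R / 2) ^ T * ‖Ψ w‖) := by
            rw [div_pow]
            field_simp
        _ ≤ 2 ^ T * (R ^ (T / 2))⁻¹ * (B + ε * (3 * R) ^ T) :=
            mul_le_mul_of_nonneg_left h5 (by positivity)
    · rw [hw] at h3 ⊢
      have h4 : (1 : ℝ) / 2 ≤ ‖w + 1‖ := by linarith
      have h5 : (1 / 2 : ℝ) ^ T * ‖Ψ w‖ ≤ B + ε * (3 * R) ^ T :=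
        (mul_le_mul_of_nonneg_right (pow_le_pow_left₀ (by positivity) h4 T)
          (norm_nonneg _)).trans h1
      rw [hM]
      calc ‖Ψ w‖ * R⁻¹ ^ (T / 2) =
            2 ^ T * (R ^ (T / 2))⁻¹ * ((1 / 2) ^ T * ‖Ψ w‖) := by
            rw [div_pow, one_pow, inv_pow]
            field_simp
        _ ≤ 2 ^ T * (R ^ (T / 2))⁻¹ * (B + ε * (3 * R) ^ T) :=
            mul_le_mul_of_nonneg_left h5 (by positivity)
  -- maximum principle
  set A : Set ℂ := {w : ℂ | R⁻¹ < ‖w‖ ∧ ‖w‖ < R} with hA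
  have hAo : IsOpen A := (isOpen_lt continuous_const continuous_norm).inter
    (isOpen_lt continuous_norm continuous_const)
  have hcl : closure A ⊆ {w : ℂ | R⁻¹ ≤ ‖w‖ ∧ ‖w‖ ≤ R} := by
    apply closure_minimal
    · intro w hw
      exact ⟨hw.1.le, hw.2.le⟩
    · exact (isClosed_le continuous_const continuous_norm).inter
        (isClosed_le continuous_norm continuous_const)
  have hAb : Bornology.IsBounded A := by
    apply (Metric.isBounded_closedBall (x := (0 : ℂ)) (r := R)).subset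
    intro w hw
    rw [mem_closedBall_zero_iff]
    exact hw.2.le
  have hΘd : DifferentiableOn ℂ Θ (closure A) := by
    apply DifferentiableOn.mul (hΨd.mono (hcl.trans hsub))
    exact (differentiable_id.pow (T / 2)).differentiableOn
  have hfr : ∀ z ∈ frontier A, ‖Θ z‖ ≤ M := by
    intro z hz
    rw [frontier, hAo.interior_eq] at hz
    have h1 := hcl hz.1
    apply hbd
    by_contra hcon
    rw [not_or] at hcon
    exact hz.2 ⟨lt_of_le_of_ne h1.1 (fun h => hcon.2 h.symm), lt_of_le_of_ne h1.2 hcon.1⟩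
  have hm1A : (-1 : ℂ) ∈ A := by
    refine ⟨?_, ?_⟩ <;> rw [norm_neg, norm_one] <;> linarith
  have hmax := Complex.norm_le_of_forall_mem_frontier_norm_le hAb hΘd.diffContOnCl hfr
    (subset_closure hm1A)
  have hval : ‖Θ (-1)‖ = ‖iteratedDeriv T Φ (-1)‖ / T.factorial := by
    rw [hΘ]
    simp only [norm_mul, norm_pow, norm_neg, norm_one, one_pow, mul_one]
    rw [hΨ, sch_val han, norm_div, Complex.norm_natCast]
  rw [hval, div_le_iff₀ (by exact_mod_cast Nat.factorial_pos T)] at hmax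
  refine hmax.trans (le_of_eq ?_)
  rw [hM]
  ring

end Pool.Agent.Lib.MP5e
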