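import Pool.Agent.Lib.MP_5e64e7_nt.ExtB
import Pool.Agent.Lib.MP_5e64e7_nt.Sch
import Pool.Agent.Lib.MP_5e64e7_nt.Chg
import Pool.Agent.Lib.MP_5e64e7_nt.Ode

set_option autoImplicit false

noncomputable section

namespace Pool.Agent.Lib.MP5e

open Polynomial Topology

/-- the substitution `w = -exp (s / μ)` -/
private def exphi (w : ℂ) : ℂ := (mu : ℂ) * Complex.log (-w)

private lemma ex_mu : (mu : ℂ) ≠ 0 := by exact_mod_cast mu_pos.ne'

private lemma ex_sub (D : ℕ) (a : ℕ → ℕ → ℂ) {w : ℂ} (hw : w ≠ 0) :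
    FF D a (exphi w) = FW D a w := by
  have h1 : -Complex.exp (exphi w / (mu : ℂ)) = w := by
    unfold exphi
    rw [mul_div_cancel_left₀ _ ex_mu, Complex.exp_log (neg_ne_zero.2 hw), neg_neg]
  unfold FF FW Xf Gf
  rw [h1]

private lemma ex_slit {w : ℂ} (hw : ‖w + 1‖ ≤ 1 / 2) : -w ∈ Complex.slitPlane := by
  rw [Complex.mem_slitPlane_iff]
  left
  have h1 := (Complex.abs_re_le_norm (w + 1)).trans hw
  rw [Complex.add_re, Complex.one_re, abs_le] at h1
  rw [Complex.neg_re]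
  linarith

private lemma ex_phi_diff {w : ℂ} (hw : ‖w + 1‖ ≤ 1 / 2) : DifferentiableAt ℂ exphi w :=
  (differentiableAt_id.neg.clog (ex_slit hw)).const_mul _

private lemma ex_phi_norm {w : ℂ} (hw : ‖w + 1‖ ≤ 1 / 2) : ‖exphi w‖ ≤ mu := by
  have h0 : ‖-(w + 1)‖ ≤ 1 / 2 := by rwa [norm_neg]
  have h1 := Complex.norm_log_one_add_half_le_self h0
  rw [norm_neg] at h1
  have h2 : 1 + -(w + 1) = -w := by ring
  rw [h2] at h1
  unfold exphi
  rw [norm_mul, Complex.norm_real, Real.norm_eq_abs, abs_of_pos mu_pos]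
  have := mu_pos
  nlinarith [norm_nonneg (Complex.log (-w))]

private lemma ex_nhds : ∀ᶠ w in 𝓝 (-1 : ℂ), ‖w + 1‖ ≤ 1 / 2 := by
  have h : Filter.Tendsto (fun w : ℂ => ‖w + 1‖) (𝓝 (-1)) (𝓝 ‖(-1 : ℂ) + 1‖) :=
    (continuous_norm.comp (continuous_id.add continuous_const)).tendsto _
  rw [neg_add_cancel, norm_zero] at h
  exact h.eventually (Iic_mem_nhds (by norm_num))

private lemma ex_ne {w : ℂ} (hw : ‖w + 1‖ ≤ 1 / 2) : w ≠ 0 := by
  intro h
  rw [h, zero_add, norm_one] at hw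
  norm_num at hw

private lemma ex_phi_analytic : AnalyticAt ℂ exphi (-1) := by
  rw [Complex.analyticAt_iff_eventually_differentiableAt]
  exact ex_nhds.mono fun w hw => ex_phi_diff hw

private lemma ex_phi_zero : exphi (-1) = 0 := by
  unfold exphi
  rw [neg_neg, Complex.log_one, mul_zero]

private lemma ex_phi_deriv : deriv exphi (-1) = -(mu : ℂ) := by
  have h1 : HasDerivAt (fun w : ℂ => -w) (-1) (-1) := hasDerivAt_neg (-1 : ℂ)
  have h2 : (fun w : ℂ => -w) (-1) ∈ Complex.slitPlane := by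
    simp
  have h3 := (h1.clog h2).const_mul (mu : ℂ)
  have h4 : deriv exphi (-1) = (mu : ℂ) * (-1 / (fun w : ℂ => -w) (-1)) := h3.deriv
  rw [h4]
  simp

private lemma ex_FF_analytic (D : ℕ) (a : ℕ → ℕ → ℂ) : AnalyticAt ℂ (FF D a) 0 := by
  rw [Complex.analyticAt_iff_eventually_differentiableAt]
  filter_upwards [ode_X, ode_G] with s h1 h2
  unfold FF
  apply DifferentiableAt.fun_sum
  intro i _
  apply DifferentiableAt.fun_sum
  intro j _
  exact ((h1.differentiableAt.pow i).const_mul _).mul (h2.differentiableAt.pow j)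

private lemma ex_hh_analytic (D K : ℕ) : AnalyticAt ℂ (fun w => hh K w ^ (3 * D)) (-1) := by
  rw [Complex.analyticAt_iff_eventually_differentiableAt]
  exact ex_nhds.mono fun w hw => (hh_differentiableAt K (ex_ne hw)).pow _

/-- Cauchy estimate for the polynomial part -/
private lemma ex_cauchy (D K T : ℕ) (f : ℂ → ℂ) (η : ℝ) (hη : 0 ≤ η)
    (hf : ∀ t < T, ‖iteratedDeriv t f 0‖ ≤ η) (k : ℕ) :
    ‖iteratedDeriv k (fun w => hh K w ^ (3 * D) * ∑ l ∈ Finset.range T,
        iteratedDeriv l f 0 / (l.factorial : ℂ) * exphi w ^ l) (-1)‖ ≤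
      (27 ^ D * η * Real.exp mu) * k.factorial * 2 ^ k := by
  set C : ℝ := 27 ^ D * η * Real.exp mu with hC
  have hball : ∀ z ∈ Metric.closedBall (-1 : ℂ) (1 / 2), ‖z + 1‖ ≤ 1 / 2 := by
    intro z hz
    rw [Metric.mem_closedBall, dist_eq_norm, sub_neg_eq_add] at hz
    exact hz
  have hd : DifferentiableOn ℂ (fun w => hh K w ^ (3 * D) * ∑ l ∈ Finset.range T,
        iteratedDeriv l f 0 / (l.factorial : ℂ) * exphi w ^ l) (closure (Metric.ball (-1) (1 / 2))) := by
    intro z hz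
    have hz' := hball z (Metric.closure_ball_subset_closedBall hz)
    apply DifferentiableAt.differentiableWithinAt
    apply DifferentiableAt.mul ((hh_differentiableAt K (ex_ne hz')).pow _)
    apply DifferentiableAt.fun_sum
    intro l _
    exact ((ex_phi_diff hz').pow l).const_mul _
  have h := Complex.norm_iteratedDeriv_le_of_forall_mem_sphere_norm_le k
    (show (0 : ℝ) < 1 / 2 by norm_num) hd.diffContOnCl (C := C) (by
      intro z hz
      have hz' := hball z (Metric.sphere_subset_closedBall hz)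
      rw [norm_mul, norm_pow]
      have h1 : ‖hh K z‖ ^ (3 * D) ≤ 27 ^ D := by
        calc ‖hh K z‖ ^ (3 * D) ≤ 3 ^ (3 * D) :=
              pow_le_pow_left₀ (norm_nonneg _) (hh_near K z hz') _
          _ = 27 ^ D := by
              rw [pow_mul]
              norm_num
      have h2 : ‖∑ l ∈ Finset.range T, iteratedDeriv l f 0 / (l.factorial : ℂ) * exphi z ^ l‖ ≤
          η * Real.exp mu := by
        calc ‖∑ l ∈ Finset.range T, iteratedDeriv l f 0 / (l.factorial : ℂ) * exphi z ^ l‖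
            ≤ ∑ l ∈ Finset.range T, ‖iteratedDeriv l f 0 / (l.factorial : ℂ) * exphi z ^ l‖ :=
              norm_sum_le _ _
          _ ≤ ∑ l ∈ Finset.range T, η * (mu ^ l / l.factorial) := by
              refine Finset.sum_le_sum fun l hl => ?_
              rw [norm_mul, norm_div, norm_pow, Complex.norm_natCast]
              have hl0 : (0 : ℝ) < l.factorial := by exact_mod_cast Nat.factorial_pos l
              calc ‖iteratedDeriv l f 0‖ / l.factorial * ‖exphi z‖ ^ l
                  ≤ η / l.factorial * mu ^ l := by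
                    refine mul_le_mul ?_ ?_ (by positivity) (by positivity)
                    · exact div_le_div_of_nonneg_right (hf l (Finset.mem_range.1 hl)) hl0.le
                    · exact pow_le_pow_left₀ (norm_nonneg _) (ex_phi_norm hz') l
                _ = η * (mu ^ l / l.factorial) := by ring
          _ = η * ∑ l ∈ Finset.range T, mu ^ l / l.factorial := by rw [Finset.mul_sum]
          _ ≤ η * Real.exp mu :=
              mul_le_mul_of_nonneg_left (Real.sum_le_exp_of_nonneg mu_pos.le T) hη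
      rw [hC, mul_assoc]
      exact mul_le_mul h1 h2 (norm_nonneg _) (by positivity))
  refine h.trans (le_of_eq ?_)
  rw [div_pow, one_pow, div_div_eq_mul_div, div_one]
  ring

theorem ext : ∃ c : ℝ, 1 ≤ c ∧ ∀ (D K T : ℕ), 1 ≤ D → 1 ≤ K → 12 * D * K ≤ T →
    ∀ (a : ℕ → ℕ → ℂ) (S η : ℝ),
    (∑ i ∈ Finset.range (D + 1), ∑ j ∈ Finset.range (D + 1), ‖a i j‖) ≤ S → 0 ≤ η →
    (∀ t < T, ‖iteratedDeriv t (FF D a) 0‖ ≤ η) →
    ‖iteratedDeriv T (FF D a) 0‖ ≤
      T.factorial * c ^ T * (S * Real.exp (-((K : ℝ) * T)) + η * c ^ (K * T)) := by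
  obtain ⟨c₁, hc₁, hbound⟩ := bound_circ
  have hmu := mu_pos
  set A : ℝ := 2 * Real.exp 3 * c₁ / mu with hA
  set A' : ℝ := 324 * Real.exp mu / mu with hA'
  set E : ℝ := Real.exp (3 * Real.pi) with hE
  have hA0 : 0 ≤ A := by positivity
  have hA'0 : 0 ≤ A' := by positivity
  have hE0 : 0 ≤ E := by positivity
  refine ⟨1 + A + A' + E, by linarith, fun D K T hD hK hT a S η hS hη hder => ?_⟩
  set c : ℝ := 1 + A + A' + E with hc
  have hD1 : (1 : ℝ) ≤ D := by exact_mod_cast hD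
  have hK1 : (1 : ℝ) ≤ K := by exact_mod_cast hK
  have hT' : 12 * (D : ℝ) * K ≤ T := by exact_mod_cast hT
  have hDK : (1 : ℝ) ≤ D * K := by nlinarith
  have hT12 : (12 : ℝ) ≤ T := by linarith
  have hS0 : 0 ≤ S := (Finset.sum_nonneg fun i _ => Finset.sum_nonneg fun j _ =>
    norm_nonneg _).trans hS
  obtain ⟨Ψ, hΨd, hΨ⟩ := exists_Psi D K a
  set f := FF D a with hf
  set ρ := rho K with hρ
  have hρ20 : 20 ≤ ρ := rho_ge K
  have hρ0 : 0 < ρ := by linarith
  set ε : ℝ := 27 ^ D * η * Real.exp mu with hε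
  have hε0 : 0 ≤ ε := by positivity
  -- Taylor / change of variables
  obtain ⟨chg1, chg2⟩ := chg f exphi (fun w => hh K w ^ (3 * D)) (-1) (-(mu : ℂ))
    (ex_FF_analytic D a) ex_phi_analytic ex_phi_zero ex_phi_deriv (ex_hh_analytic D K) T
  have hev : Ψ =ᶠ[𝓝 (-1 : ℂ)] fun w => hh K w ^ (3 * D) * f (exphi w) := by
    have hm1 : (-1 : ℂ) ∈ ann K := by
      apply circ_ann K
      have h2 : (rho K)⁻¹ ≤ 1 := inv_le_one_of_one_le₀ (by linarith)
      refine ⟨?_, ?_⟩ <;> rw [norm_neg, norm_one] <;> linarith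
    filter_upwards [ex_nhds, (isOpen_ann K).mem_nhds hm1,
      isOpen_good.mem_nhds neg_one_mem_good] with w h1 h2 h3
    rw [hΨ w h2 h3, hf, ex_sub D a (ex_ne h1)]
  have hder' : ∀ k, iteratedDeriv k Ψ (-1) =
      iteratedDeriv k (fun w => hh K w ^ (3 * D) * f (exphi w)) (-1) := fun k =>
    hev.iteratedDeriv_eq k
  have hcau := ex_cauchy D K T f η hη hder
  rw [← hε] at hcau
  -- Schwarz lemma
  have hsch := sch ρ hρ20 Ψ (ann K) (isOpen_ann K) (circ_ann K) hΨd
    (S * Real.exp (12 * D * ((K : ℝ) + 1) ^ 2) * c₁ ^ (D * K)) (by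
      intro w hw
      have h1 : w ∈ good := circ_good K w hw
      have h2 : w ∈ ann K := by
        apply circ_ann K
        have h3 : (rho K)⁻¹ ≤ rho K := by
          have : (rho K)⁻¹ ≤ 1 := inv_le_one_of_one_le₀ (by linarith)
          linarith
        rcases hw with hw | hw
        · refine ⟨?_, ?_⟩ <;> rw [hw]
          exact h3
        · refine ⟨?_, ?_⟩ <;> rw [hw]
          exact h3
      rw [hΨ w h2 h1]
      exact hbound D K a S w hD hK hS hw) T ε hε0 (by
      intro k hk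
      rw [hder' k, chg1 k hk]
      exact hcau k)
  rw [hder' T, chg2] at hsch
  -- the derivative of `f`
  have hh1 := hh_neg_one K
  have hF0 : (0 : ℝ) < T.factorial := by exact_mod_cast Nat.factorial_pos T
  set G := iteratedDeriv T (fun w => hh K w ^ (3 * D) * ∑ l ∈ Finset.range T,
        iteratedDeriv l f 0 / (l.factorial : ℂ) * exphi w ^ l) (-1) with hG
  set M : ℝ := S * Real.exp (12 * D * ((K : ℝ) + 1) ^ 2) * c₁ ^ (D * K) with hM
  have hM0 : 0 ≤ M := by positivity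
  have key : mu ^ T * ‖iteratedDeriv T f 0‖ ≤
      T.factorial * 2 ^ T * (ρ ^ (T / 2))⁻¹ * (M + ε * (3 * ρ) ^ T) +
        ε * T.factorial * 2 ^ T := by
    have e1 : ‖hh K (-1) ^ (3 * D) * (-(mu : ℂ)) ^ T * iteratedDeriv T f 0‖ =
        ‖hh K (-1)‖ ^ (3 * D) * (mu ^ T * ‖iteratedDeriv T f 0‖) := by
      rw [norm_mul, norm_mul, norm_pow, norm_pow, norm_neg, Complex.norm_real, Real.norm_eq_abs,
        abs_of_pos hmu, mul_assoc]
    have e2 : mu ^ T * ‖iteratedDeriv T f 0‖ ≤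
        ‖hh K (-1) ^ (3 * D) * (-(mu : ℂ)) ^ T * iteratedDeriv T f 0‖ := by
      rw [e1]
      exact le_mul_of_one_le_left (by positivity) (one_le_pow₀ hh1)
    have e3 := norm_sub_le (G + hh K (-1) ^ (3 * D) * (-(mu : ℂ)) ^ T * iteratedDeriv T f 0) G
    rw [add_sub_cancel_left] at e3
    have e4 : ‖G‖ ≤ ε * T.factorial * 2 ^ T := hcau T
    linarith
  -- numerical estimates
  have hρe : ρ = Real.exp (Real.pi * (2 * K + 1)) := rfl
  have hpi3 := Real.pi_gt_three
  have hpi4 := Real.pi_lt_four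
  have hhalf : ((T : ℝ) - 1) / 2 ≤ ((T / 2 : ℕ) : ℝ) := by
    have h1 : T ≤ 2 * (T / 2) + 1 := by omega
    have h2 : (T : ℝ) ≤ 2 * ((T / 2 : ℕ) : ℝ) + 1 := by exact_mod_cast h1
    linarith
  have n1 : (ρ ^ (T / 2))⁻¹ * M ≤ S * Real.exp (-((K : ℝ) * T)) * (Real.exp 3 * c₁) ^ T := by
    have h1 : (ρ ^ (T / 2))⁻¹ = Real.exp (-(((T / 2 : ℕ) : ℝ) * (Real.pi * (2 * K + 1)))) := by
      rw [hρe, ← Real.exp_nat_mul, ← Real.exp_neg]
    have h2 : c₁ ^ (D * K) ≤ c₁ ^ T := pow_le_pow_right₀ hc₁ (by nlinarith)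
    have h3 : Real.exp (-(((T / 2 : ℕ) : ℝ) * (Real.pi * (2 * K + 1)))) *
        Real.exp (12 * D * ((K : ℝ) + 1) ^ 2) ≤ Real.exp (-((K : ℝ) * T)) * Real.exp 3 ^ T := by
      rw [← Real.exp_nat_mul, ← Real.exp_add, ← Real.exp_add]
      apply Real.exp_le_exp.2
      have h4 : ((T : ℝ) - 1) / 2 * (Real.pi * (2 * K + 1)) ≤
          ((T / 2 : ℕ) : ℝ) * (Real.pi * (2 * K + 1)) :=
        mul_le_mul_of_nonneg_right hhalf (by positivity)
      have h5 : 12 * (D : ℝ) * ((K : ℝ) + 1) ^ 2 ≤ T * (K + 3) := by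
        have : ((K : ℝ) + 1) ^ 2 ≤ K * (K + 3) := by nlinarith
        calc 12 * (D : ℝ) * ((K : ℝ) + 1) ^ 2 ≤ 12 * D * (K * (K + 3)) := by
              refine mul_le_mul_of_nonneg_left this (by positivity)
          _ = (12 * D * K) * (K + 3) := by ring
          _ ≤ T * (K + 3) := mul_le_mul_of_nonneg_right hT' (by positivity)
      have hKT : 12 * (K : ℝ) ≤ T := by nlinarith
      have h6 : (K : ℝ) * T * 2 + K * 1 * 0 ≤ ((T : ℝ) - 1) / 2 * (Real.pi * (2 * K + 1)) := by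
        have h7 : 3 * (2 * (K : ℝ) + 1) ≤ Real.pi * (2 * K + 1) :=
          mul_le_mul_of_nonneg_right hpi3.le (by positivity)
        have h8 : ((T : ℝ) - 1) / 2 * (3 * (2 * (K : ℝ) + 1)) ≤
            ((T : ℝ) - 1) / 2 * (Real.pi * (2 * K + 1)) :=
          mul_le_mul_of_nonneg_left h7 (by linarith)
        nlinarith
      nlinarith
    calc (ρ ^ (T / 2))⁻¹ * M = S * (Real.exp (-(((T / 2 : ℕ) : ℝ) * (Real.pi * (2 * K + 1)))) *
          Real.exp (12 * D * ((K : ℝ) + 1) ^ 2)) * c₁ ^ (D * K) := by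
          rw [h1, hM]
          ring
      _ ≤ S * (Real.exp (-((K : ℝ) * T)) * Real.exp 3 ^ T) * c₁ ^ T := by
          refine mul_le_mul (mul_le_mul_of_nonneg_left h3 hS0) h2 (by positivity) (by positivity)
      _ = S * Real.exp (-((K : ℝ) * T)) * (Real.exp 3 * c₁) ^ T := by
          rw [mul_pow]
          ring
  have hTpos : 0 < T := by
    have : 0 < (T : ℝ) := by linarith
    exact_mod_cast this
  have n2 : (ρ ^ (T / 2))⁻¹ * (ε * (3 * ρ) ^ T) + ε ≤
      η * (2 * 27 * Real.exp mu * 3) ^ T * E ^ (K * T) := by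
    have h1 : (ρ ^ (T / 2))⁻¹ ≤ 1 := inv_le_one_of_one_le₀ (one_le_pow₀ (by linarith))
    have h2 : (ρ ^ (T / 2))⁻¹ * (ε * (3 * ρ) ^ T) ≤ ε * (3 * ρ) ^ T := by
      have : 0 ≤ ε * (3 * ρ) ^ T := by positivity
      nlinarith
    have h3 : ε ≤ ε * (3 * ρ) ^ T := le_mul_of_one_le_right hε0 (one_le_pow₀ (by linarith))
    have h4 : ρ ^ T ≤ E ^ (K * T) := by
      rw [hρe, hE, ← Real.exp_nat_mul, ← Real.exp_nat_mul]
      apply Real.exp_le_exp.2
      push_cast
      have h5 : Real.pi * (2 * (K : ℝ) + 1) ≤ Real.pi * (3 * K) :=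
        mul_le_mul_of_nonneg_left (by linarith) Real.pi_pos.le
      calc (T : ℝ) * (Real.pi * (2 * K + 1)) ≤ T * (Real.pi * (3 * K)) :=
            mul_le_mul_of_nonneg_left h5 (by positivity)
        _ = (K : ℝ) * T * (3 * Real.pi) := by ring
    have h6 : (2 : ℝ) ≤ 2 ^ T := by
      calc (2 : ℝ) = 2 ^ 1 := by norm_num
        _ ≤ 2 ^ T := pow_le_pow_right₀ (by norm_num) hTpos
    have hDT : D ≤ T := by
      have : (D : ℝ) ≤ T := by nlinarith
      exact_mod_cast this
    have h7 : (27 : ℝ) ^ D ≤ 27 ^ T := pow_le_pow_right₀ (by norm_num) hDT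
    have h8 : Real.exp mu ≤ Real.exp mu ^ T :=
      le_self_pow₀ (Real.one_le_exp hmu.le) hTpos.ne'
    calc (ρ ^ (T / 2))⁻¹ * (ε * (3 * ρ) ^ T) + ε ≤ 2 * (ε * (3 * ρ) ^ T) := by linarith
      _ = η * (2 * 27 ^ D * Real.exp mu * 3 ^ T) * ρ ^ T := by
          rw [hε, mul_pow]
          ring
      _ ≤ η * (2 ^ T * 27 ^ T * Real.exp mu ^ T * 3 ^ T) * E ^ (K * T) := by
          refine mul_le_mul (mul_le_mul_of_nonneg_left ?_ hη) h4 (by positivity) (by positivity)
          refine mul_le_mul_of_nonneg_right ?_ (by positivity)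
          exact mul_le_mul (mul_le_mul h6 h7 (by positivity) (by positivity)) h8
            (by positivity) (by positivity)
      _ = η * (2 * 27 * Real.exp mu * 3) ^ T * E ^ (K * T) := by
          rw [mul_pow, mul_pow, mul_pow]
  have hmuT : 0 < mu ^ T := by positivity
  have hAc : A ^ T ≤ c ^ T := pow_le_pow_left₀ hA0 (by linarith) T
  have hA'c : A' ^ T ≤ c ^ T := pow_le_pow_left₀ hA'0 (by linarith) T
  have hEc : E ^ (K * T) ≤ c ^ (K * T) := pow_le_pow_left₀ hE0 (by linarith) _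
  calc ‖iteratedDeriv T f 0‖ = (mu ^ T * ‖iteratedDeriv T f 0‖) / mu ^ T := by
        field_simp
    _ ≤ (T.factorial * 2 ^ T * (ρ ^ (T / 2))⁻¹ * (M + ε * (3 * ρ) ^ T) +
        ε * T.factorial * 2 ^ T) / mu ^ T := div_le_div_of_nonneg_right key hmuT.le
    _ = T.factorial * (2 ^ T / mu ^ T) * ((ρ ^ (T / 2))⁻¹ * M) +
        T.factorial * (2 ^ T / mu ^ T) * ((ρ ^ (T / 2))⁻¹ * (ε * (3 * ρ) ^ T) + ε) := by ring
    _ ≤ T.factorial * (2 ^ T / mu ^ T) *
          (S * Real.exp (-((K : ℝ) * T)) * (Real.exp 3 * c₁) ^ T) +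
        T.factorial * (2 ^ T / mu ^ T) * (η * (2 * 27 * Real.exp mu * 3) ^ T * E ^ (K * T)) := by
        refine add_le_add (mul_le_mul_of_nonneg_left n1 (by positivity))
          (mul_le_mul_of_nonneg_left n2 (by positivity))
    _ = T.factorial * (A ^ T * (S * Real.exp (-((K : ℝ) * T))) +
          A' ^ T * (η * E ^ (K * T))) := by
        have i1 : A ^ T = 2 ^ T / mu ^ T * (Real.exp 3 * c₁) ^ T := by
          rw [hA, ← div_pow, ← mul_pow]
          congr 1
          ring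
        have i2 : A' ^ T = 2 ^ T / mu ^ T * (2 * 27 * Real.exp mu * 3) ^ T := by
          rw [hA', ← div_pow, ← mul_pow]
          congr 1
          ring
        rw [i1, i2]
        ring
    _ ≤ T.factorial * (c ^ T * (S * Real.exp (-((K : ℝ) * T))) +
          c ^ T * (η * c ^ (K * T))) := by
        refine mul_le_mul_of_nonneg_left (add_le_add
          (mul_le_mul_of_nonneg_right hAc (by positivity))
          (mul_le_mul hA'c (mul_le_mul_of_nonneg_left hEc hη) (by positivity) ?_)) hF0.le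
        have : 0 ≤ c := by linarith
        positivity
    _ = T.factorial * c ^ T * (S * Real.exp (-((K : ℝ) * T)) + η * c ^ (K * T)) := by ring

end Pool.Agent.Lib.MP5e
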