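import Pool.Agent.Lib.MP_5e64e7_nt.Hfun
import Pool.Agent.Lib.MP_5e64e7_nt.Bds
import Pool.Agent.Lib.MP_5e64e7_nt.Trans

set_option autoImplicit false

noncomputable section

namespace Pool.Agent.Lib.MP5e

open Polynomial Topology

lemma ann_ne_zero {K : ℕ} {w : ℂ} (hw : w ∈ ann K) : w ≠ 0 := by
  rintro rfl
  have h1 : rr ^ (K + 1) < ‖(0 : ℂ)‖ := hw.1
  rw [norm_zero] at h1
  have h2 : 0 < rr ^ (K + 1) := pow_pos (Real.exp_pos _) _
  linarith

theorem exists_Psi (D K : ℕ) (a : ℕ → ℕ → ℂ) : ∃ Ψ : ℂ → ℂ, DifferentiableOn ℂ Ψ (ann K) ∧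
    ∀ w ∈ ann K, w ∈ good → Ψ w = hh K w ^ (3 * D) * FW D a w := by
  obtain ⟨HF, HG, hF, hG, hFG⟩ := exists_HF K
  have hh1 : DifferentiableOn ℂ (hh K) (ann K) := fun w hw =>
    (hh_differentiableAt K (ann_ne_zero hw)).differentiableWithinAt
  refine ⟨fun w => ∑ i ∈ Finset.range (D + 1), ∑ j ∈ Finset.range (D + 1), a i j *
    ((HF w + hh K w ^ 2 * (1 / (4 * (Real.pi : ℂ)))) / (mu : ℂ) ^ 2) ^ i *
      (HG w / (mu : ℂ)) ^ j * hh K w ^ (3 * D - 2 * i - j), ?_, ?_⟩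
  · refine DifferentiableOn.fun_sum fun i _ => DifferentiableOn.fun_sum fun j _ => ?_
    exact (((((hF.add ((hh1.pow 2).mul_const _)).div_const _).pow i).const_mul _).mul
      ((hG.div_const _).pow j)).mul (hh1.pow _)
  · intro w hw hg
    obtain ⟨h1, h2⟩ := hFG w hw hg
    simp only [FW, Finset.mul_sum]
    refine Finset.sum_congr rfl fun i hi => Finset.sum_congr rfl fun j hj => ?_
    rw [Finset.mem_range] at hi hj
    have h3 : (HF w + hh K w ^ 2 * (1 / (4 * (Real.pi : ℂ)))) / (mu : ℂ) ^ 2 =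
        hh K w ^ 2 * ((ff w + 1 / (4 * (Real.pi : ℂ))) / (mu : ℂ) ^ 2) := by
      rw [h1]; ring
    have h4 : HG w / (mu : ℂ) = hh K w * (gg w / (mu : ℂ)) := by
      rw [h2]; ring
    rw [h3, h4, mul_pow, mul_pow]
    have h5 : hh K w ^ (3 * D) = (hh K w ^ 2) ^ i * hh K w ^ j * hh K w ^ (3 * D - 2 * i - j) := by
      rw [← pow_mul, ← pow_add, ← pow_add]
      congr 1
      omega
    rw [h5]
    ring

theorem bound_circ : ∃ c : ℝ, 1 ≤ c ∧ ∀ (D K : ℕ) (a : ℕ → ℕ → ℂ) (S : ℝ) (w : ℂ), 1 ≤ D →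
    1 ≤ K → (∑ i ∈ Finset.range (D + 1), ∑ j ∈ Finset.range (D + 1), ‖a i j‖) ≤ S →
    (‖w‖ = rho K ∨ ‖w‖ = (rho K)⁻¹) →
    ‖hh K w ^ (3 * D) * FW D a w‖ ≤ S * Real.exp (12 * D * ((K : ℝ) + 1) ^ 2) * c ^ (D * K) := by
  obtain ⟨c, hc, hfg⟩ := fg_circ
  set m : ℝ := ‖(mu : ℂ)‖ with hm
  set c1 : ℝ := 1 + (c + 1) / m ^ 2 with hc1
  set c2 : ℝ := c * (1 + 1 / m) with hc2
  have hm0 : 0 ≤ m := norm_nonneg _
  have hc1' : 1 ≤ c1 := by
    have : 0 ≤ (c + 1) / m ^ 2 := by positivity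
    linarith
  have hc2' : 1 ≤ c2 := by
    have : 0 ≤ 1 / m := by positivity
    nlinarith
  refine ⟨c1 * (2 * c2), by nlinarith, fun D K a S w hD hK hS hw => ?_⟩
  obtain ⟨hf, hg⟩ := hfg K w hw
  have hx : ‖(ff w + 1 / (4 * (Real.pi : ℂ))) / (mu : ℂ) ^ 2‖ ≤ c1 := by
    rw [norm_div, norm_pow, ← hm]
    have h1 : ‖ff w + 1 / (4 * (Real.pi : ℂ))‖ ≤ c + 1 := by
      refine (norm_add_le _ _).trans (add_le_add hf ?_)
      rw [norm_div, norm_mul, Complex.norm_real, norm_one, Real.norm_eq_abs,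
        abs_of_pos Real.pi_pos]
      have h2 := Real.pi_gt_three
      rw [div_le_one]
      · norm_num
        linarith
      · norm_num
        exact Real.pi_pos
    have h2 : ‖ff w + 1 / (4 * (Real.pi : ℂ))‖ / m ^ 2 ≤ (c + 1) / m ^ 2 :=
      div_le_div_of_nonneg_right h1 (by positivity)
    linarith
  have hK1 : (K : ℝ) + 1 ≤ 2 ^ K := by
    have h1 : K + 1 ≤ 2 ^ K := Nat.lt_two_pow_self
    exact_mod_cast h1
  have hgm : ‖gg w / (mu : ℂ)‖ ≤ 2 ^ K * c2 := by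
    rw [norm_div, ← hm]
    have h1 : ‖gg w‖ ≤ 2 ^ K * c := by
      refine hg.trans ?_
      have hK0 : (0 : ℝ) ≤ K := Nat.cast_nonneg K
      nlinarith
    calc ‖gg w‖ / m ≤ (2 ^ K * c) / m := div_le_div_of_nonneg_right h1 hm0
      _ = 2 ^ K * c * (1 / m) := by ring
      _ ≤ 2 ^ K * c * (1 + 1 / m) := by
          refine mul_le_mul_of_nonneg_left (by linarith) (by positivity)
      _ = 2 ^ K * c2 := by rw [hc2]; ring
  have h2K : (1 : ℝ) ≤ 2 ^ K := one_le_pow₀ (by norm_num)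
  have h2Kc : (1 : ℝ) ≤ 2 ^ K * c2 := by nlinarith
  have hS0 : 0 ≤ S := le_trans (Finset.sum_nonneg fun _ _ => Finset.sum_nonneg fun _ _ =>
    norm_nonneg _) hS
  have hFW : ‖FW D a w‖ ≤ S * (c1 ^ D * (2 ^ K * c2) ^ D) := by
    unfold FW
    calc ‖∑ i ∈ Finset.range (D + 1), ∑ j ∈ Finset.range (D + 1),
          a i j * ((ff w + 1 / (4 * (Real.pi : ℂ))) / (mu : ℂ) ^ 2) ^ i * (gg w / (mu : ℂ)) ^ j‖
        ≤ ∑ i ∈ Finset.range (D + 1), ∑ j ∈ Finset.range (D + 1),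
          ‖a i j‖ * (c1 ^ D * (2 ^ K * c2) ^ D) := by
          refine (norm_sum_le _ _).trans (Finset.sum_le_sum fun i hi => ?_)
          refine (norm_sum_le _ _).trans (Finset.sum_le_sum fun j hj => ?_)
          rw [Finset.mem_range] at hi hj
          rw [norm_mul, norm_mul, norm_pow, norm_pow, mul_assoc]
          refine mul_le_mul_of_nonneg_left ?_ (norm_nonneg _)
          refine mul_le_mul ?_ ?_ (by positivity) (by positivity)
          · exact (pow_le_pow_left₀ (norm_nonneg _) hx i).trans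
              (pow_le_pow_right₀ hc1' (by omega))
          · exact (pow_le_pow_left₀ (norm_nonneg _) hgm j).trans
              (pow_le_pow_right₀ h2Kc (by omega))
      _ = (∑ i ∈ Finset.range (D + 1), ∑ j ∈ Finset.range (D + 1), ‖a i j‖) *
          (c1 ^ D * (2 ^ K * c2) ^ D) := by
          rw [Finset.sum_mul]
          refine Finset.sum_congr rfl fun i _ => ?_
          rw [Finset.sum_mul]
      _ ≤ S * (c1 ^ D * (2 ^ K * c2) ^ D) :=
          mul_le_mul_of_nonneg_right hS (by positivity)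
  have hhb : ‖hh K w ^ (3 * D)‖ ≤ Real.exp (12 * D * ((K : ℝ) + 1) ^ 2) := by
    rw [norm_pow]
    calc ‖hh K w‖ ^ (3 * D) ≤ Real.exp (4 * ((K : ℝ) + 1) ^ 2) ^ (3 * D) :=
          pow_le_pow_left₀ (norm_nonneg _) (hh_circ K w hw) _
      _ = Real.exp (12 * D * ((K : ℝ) + 1) ^ 2) := by
          rw [← Real.exp_nat_mul]
          congr 1
          push_cast
          ring
  have hfin : c1 ^ D * (2 ^ K * c2) ^ D ≤ (c1 * (2 * c2)) ^ (D * K) := by
    have e1 : c1 ^ D ≤ c1 ^ (D * K) := pow_le_pow_right₀ hc1' (Nat.le_mul_of_pos_right D hK)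
    have e2 : c2 ^ D ≤ c2 ^ (D * K) := pow_le_pow_right₀ hc2' (Nat.le_mul_of_pos_right D hK)
    calc c1 ^ D * (2 ^ K * c2) ^ D = c1 ^ D * (2 ^ (D * K) * c2 ^ D) := by
          rw [mul_pow, ← pow_mul, mul_comm K D]
      _ ≤ c1 ^ (D * K) * (2 ^ (D * K) * c2 ^ (D * K)) := by gcongr
      _ = (c1 * (2 * c2)) ^ (D * K) := by rw [mul_pow c1, mul_pow 2 c2]
  rw [norm_mul]
  calc ‖hh K w ^ (3 * D)‖ * ‖FW D a w‖
      ≤ Real.exp (12 * D * ((K : ℝ) + 1) ^ 2) * (S * (c1 ^ D * (2 ^ K * c2) ^ D)) :=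
        mul_le_mul hhb hFW (norm_nonneg _) (Real.exp_pos _).le
    _ ≤ Real.exp (12 * D * ((K : ℝ) + 1) ^ 2) * (S * (c1 * (2 * c2)) ^ (D * K)) := by gcongr
    _ = S * Real.exp (12 * D * ((K : ℝ) + 1) ^ 2) * (c1 * (2 * c2)) ^ (D * K) := by ring

end Pool.Agent.Lib.MP5e
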