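import Pool.Agent.Lib.MP_5e64e7_nt.GDefs
import Pool.Agent.Lib.MSF.Ana

set_option autoImplicit false

/-!
# FT : the functional theorem (helper64, directory MSF)
-/

noncomputable section

namespace Pool.Agent.Lib.MP5e

open Polynomial Topology

theorem ft (n : ℕ) (z : Fin n → ℂ → ℂ) (t0 : ℂ) (hz : ∀ k, AnalyticAt ℂ (z k) t0)
    (him : ∀ k, 0 < (z k t0).im)
    (halg : ∀ k, ∃ P : Polynomial (Polynomial ℂ), P ≠ 0 ∧
      ∀ᶠ t in 𝓝 t0, (P.map (Polynomial.evalRingHom t)).eval (z k t) = 0)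
    (hnc : ∀ k, ¬ ∀ᶠ t in 𝓝 t0, z k t = z k t0)
    (hrel : ∀ k l, k ≠ l → ∀ a b c d : ℚ, 0 < a * d - b * c →
      ¬ ∀ᶠ t in 𝓝 t0, z l t = ((a : ℂ) * z k t + (b : ℂ)) / ((c : ℂ) * z k t + (d : ℂ)))
    (Q : MvPolynomial (Option (Fin n × Fin 3)) ℂ)
    (hQ : ∀ᶠ t in 𝓝 t0, MvPolynomial.eval (fun v : Option (Fin n × Fin 3) =>
      v.elim t fun p => J4 (z p.1 t) p.2.succ) Q = 0) : Q = 0 :=
  Pool.Agent.Lib.MSF.ft n z t0 hz him halg hnc hrel Q hQ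

end Pool.Agent.Lib.MP5e
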