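import Pool.Agent.Lib.MP_5e64e7_nt.Defs

set_option autoImplicit false

noncomputable section

namespace Pool.Agent.Lib.MP5e

open Polynomial Topology

theorem rr_pos : 0 < rr := Real.exp_pos _

theorem rr_lt : rr < 1 / 500 := by
  unfold rr
  have h1 : Real.exp (-2 * Real.pi) = (Real.exp (2 * Real.pi))⁻¹ := by
    rw [← Real.exp_neg]
    congr 1
    ring
  have h2 : (500 : ℝ) < Real.exp (2 * Real.pi) := by
    have h3 : (6.28 : ℝ) ≤ 2 * Real.pi := by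
      have := Real.pi_gt_d2
      linarith
    have h4 : Real.exp 6.28 ≤ Real.exp (2 * Real.pi) := Real.exp_le_exp.2 h3
    have h5 : Real.exp (6.28 : ℝ) = Real.exp 1 ^ 6 * Real.exp 0.28 := by
      rw [← Real.exp_nat_mul, ← Real.exp_add]
      norm_num
    have h6 : (2.7 : ℝ) < Real.exp 1 := by
      have := Real.exp_one_gt_d9
      linarith
    have h7 : (1.28 : ℝ) ≤ Real.exp 0.28 := by
      have := Real.add_one_le_exp (0.28 : ℝ)
      linarith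
    have h8 : (2.715 : ℝ) ^ 6 ≤ Real.exp 1 ^ 6 := by
      refine pow_le_pow_left₀ (by norm_num) ?_ 6
      have := Real.exp_one_gt_d9
      linarith
    have h9 : (500 : ℝ) < 2.715 ^ 6 * 1.28 := by norm_num
    have h10 : (2.715 : ℝ) ^ 6 * 1.28 ≤ Real.exp 1 ^ 6 * Real.exp 0.28 :=
      mul_le_mul h8 h7 (by norm_num) (by positivity)
    linarith
  rw [h1, one_div]
  exact inv_strictAnti₀ (by norm_num) h2

private theorem rr_lt_one : rr < 1 := by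
  have := rr_lt
  linarith

private theorem rrc_ne : (rr : ℂ) ≠ 0 := by
  exact_mod_cast rr_pos.ne'

private theorem norm_rrc (k : ℤ) : ‖(rr : ℂ) ^ k‖ = rr ^ k := by
  rw [norm_zpow, Complex.norm_real, Real.norm_of_nonneg rr_pos.le]

theorem isOpen_ann (K : ℕ) : IsOpen (ann K) :=
  (isOpen_lt continuous_const continuous_norm).inter (isOpen_lt continuous_norm continuous_const)

private theorem good_eq : good = ⋃ K : ℕ, ann K ∩
    ⋂ k ∈ Finset.Icc (-(K + 1 : ℤ)) (K + 1), {w : ℂ | w ≠ (rr : ℂ) ^ k} := by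
  ext w
  simp only [Set.mem_iUnion, Set.mem_inter_iff, Set.mem_iInter, Set.mem_ofPred_eq]
  constructor
  · rintro ⟨h0, h1⟩
    have hw : 0 < ‖w‖ := norm_pos_iff.2 h0
    obtain ⟨n, hn⟩ := exists_pow_lt_of_lt_one (lt_min hw (inv_pos.2 hw)) rr_lt_one
    have hn2 : rr ^ (n + 1) < min ‖w‖ (‖w‖)⁻¹ := by
      refine lt_of_le_of_lt ?_ hn
      exact pow_le_pow_of_le_one rr_pos.le rr_lt_one.le (Nat.le_succ n)
    refine ⟨n, ⟨hn2.trans_le (min_le_left _ _), ?_⟩, fun k _ => h1 k⟩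
    have h3 := hn2.trans_le (min_le_right _ _)
    have h4 := inv_strictAnti₀ (pow_pos rr_pos _) h3
    rwa [inv_inv] at h4
  · rintro ⟨K, ⟨h1, h2⟩, h3⟩
    have hw : 0 < ‖w‖ := lt_trans (pow_pos rr_pos _) h1
    refine ⟨norm_pos_iff.1 hw, fun k hk => ?_⟩
    have hnorm : ‖w‖ = rr ^ k := by rw [hk, norm_rrc]
    by_cases hk1 : (K + 1 : ℤ) < k
    · have h4 : rr ^ k ≤ rr ^ ((K + 1 : ℕ) : ℤ) :=
        zpow_le_zpow_right_of_le_one₀ rr_pos rr_lt_one.le (by push_cast; omega)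
      rw [zpow_natCast] at h4
      linarith
    · by_cases hk2 : k < -(K + 1 : ℤ)
      · have h4 : rr ^ (-((K + 1 : ℕ) : ℤ)) ≤ rr ^ k :=
          zpow_le_zpow_right_of_le_one₀ rr_pos rr_lt_one.le (by push_cast; omega)
        rw [zpow_neg, zpow_natCast] at h4
        linarith
      · exact h3 k (Finset.mem_Icc.2 ⟨by omega, by omega⟩) hk

theorem isOpen_good : IsOpen good := by
  rw [good_eq]
  refine isOpen_iUnion fun K => (isOpen_ann K).inter ?_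
  exact isOpen_biInter_finset fun k _ => isOpen_ne

theorem neg_one_mem_good : (-1 : ℂ) ∈ good := by
  refine ⟨by norm_num, fun k hk => ?_⟩
  have h1 : (0 : ℝ) < rr ^ k := zpow_pos rr_pos k
  have h2 := congrArg Complex.re hk
  have h3 : ((rr : ℂ) ^ k).re = rr ^ k := by
    rw [← Complex.ofReal_zpow, Complex.ofReal_re]
  rw [h3] at h2
  simp at h2
  linarith

theorem good_rr {w : ℂ} (hw : w ∈ good) : (rr : ℂ) * w ∈ good := by
  refine ⟨mul_ne_zero rrc_ne hw.1, fun k hk => ?_⟩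
  apply hw.2 (k - 1)
  rw [zpow_sub₀ rrc_ne, zpow_one, eq_div_iff rrc_ne, mul_comm]
  exact hk

theorem good_inv {w : ℂ} (hw : w ∈ good) : w⁻¹ ∈ good := by
  refine ⟨inv_ne_zero hw.1, fun k hk => ?_⟩
  apply hw.2 (-k)
  rw [zpow_neg, ← hk, inv_inv]

/-- crude bound for the terms of the series -/
theorem term_bound (K : ℕ) {w : ℂ} (hw : w ∈ ann K) (k : ℕ) (hk : K < k + 1) :
    ‖w * (rr : ℂ) ^ (k + 1)‖ < 1 ∧ ‖w⁻¹ * (rr : ℂ) ^ (k + 1)‖ < 1 := by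
  obtain ⟨h1, h2⟩ := hw
  have hw0 : 0 < ‖w‖ := lt_trans (pow_pos rr_pos _) h1
  have h3 : rr ^ (k + 1) ≤ rr ^ (K + 1) :=
    pow_le_pow_of_le_one rr_pos.le rr_lt_one.le (by omega)
  have h4 : 0 < rr ^ (K + 1) := pow_pos rr_pos _
  have h5 : ‖(rr : ℂ) ^ (k + 1)‖ = rr ^ (k + 1) := by
    rw [norm_pow, Complex.norm_real, Real.norm_of_nonneg rr_pos.le]
  constructor
  · rw [norm_mul, h5]
    calc ‖w‖ * rr ^ (k + 1) ≤ ‖w‖ * rr ^ (K + 1) := mul_le_mul_of_nonneg_left h3 hw0.le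
      _ < (rr ^ (K + 1))⁻¹ * rr ^ (K + 1) := mul_lt_mul_of_pos_right h2 h4
      _ = 1 := inv_mul_cancel₀ h4.ne'
  · rw [norm_mul, h5, norm_inv]
    calc ‖w‖⁻¹ * rr ^ (k + 1) ≤ ‖w‖⁻¹ * rr ^ (K + 1) :=
          mul_le_mul_of_nonneg_left h3 (inv_pos.2 hw0).le
      _ < ‖w‖⁻¹ * ‖w‖ := mul_lt_mul_of_pos_left h1 (inv_pos.2 hw0)
      _ = 1 := inv_mul_cancel₀ hw0.ne'

theorem good_one_sub {w : ℂ} (hw : w ∈ good) (k : ℕ) : 1 - w * (rr : ℂ) ^ k ≠ 0 := by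
  intro h
  apply hw.2 (-(k : ℤ))
  rw [zpow_neg, zpow_natCast]
  exact eq_inv_of_mul_eq_one_left (sub_eq_zero.1 h).symm

theorem norm_rr_pow (k : ℕ) : ‖(rr : ℂ) ^ k‖ = rr ^ k := by
  rw [norm_pow, Complex.norm_real, Real.norm_of_nonneg rr_pos.le]

private theorem good_unif_fin {w₀ : ℂ} (hw : w₀ ∈ good) (n : ℕ) :
    ∃ c : ℝ, 0 < c ∧ ∀ᶠ w in 𝓝 w₀, ∀ k < n, c ≤ ‖1 - w * (rr : ℂ) ^ k‖ := by
  induction n with
  | zero => exact ⟨1, one_pos, Filter.Eventually.of_forall fun w k hk => absurd hk (Nat.not_lt_zero k)⟩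
  | succ n ih =>
    obtain ⟨c, hc, h⟩ := ih
    have h1 : 0 < ‖1 - w₀ * (rr : ℂ) ^ n‖ := norm_pos_iff.2 (good_one_sub hw n)
    have h2 : ContinuousAt (fun w : ℂ => ‖1 - w * (rr : ℂ) ^ n‖) w₀ := by fun_prop
    have h3 : ∀ᶠ w in 𝓝 w₀, ‖1 - w₀ * (rr : ℂ) ^ n‖ / 2 < ‖1 - w * (rr : ℂ) ^ n‖ :=
      h2.eventually_const_lt (by linarith)
    refine ⟨min c (‖1 - w₀ * (rr : ℂ) ^ n‖ / 2), lt_min hc (by linarith), ?_⟩
    filter_upwards [h, h3] with w hw1 hw2 k hk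
    rcases Nat.lt_succ_iff_lt_or_eq.1 hk with hk' | rfl
    · exact (min_le_left _ _).trans (hw1 k hk')
    · exact (min_le_right _ _).trans hw2.le

private theorem good_unif_aux {w₀ : ℂ} (hw : w₀ ∈ good) :
    ∃ c : ℝ, 0 < c ∧ ∀ᶠ w in 𝓝 w₀, ∀ k : ℕ, c ≤ ‖1 - w * (rr : ℂ) ^ k‖ := by
  obtain ⟨n, hn⟩ := exists_pow_lt_of_lt_one
    (show (0 : ℝ) < 1 / (2 * (‖w₀‖ + 1)) by positivity) rr_lt_one
  obtain ⟨c, hc, h⟩ := good_unif_fin hw n
  have h1 : ∀ᶠ w in 𝓝 w₀, ‖w‖ < ‖w₀‖ + 1 :=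
    (continuous_norm.continuousAt).eventually_lt_const (by linarith)
  refine ⟨min c (1 / 2), lt_min hc (by norm_num), ?_⟩
  filter_upwards [h, h1] with w hw1 hw2 k
  by_cases hk : k < n
  · exact (min_le_left _ _).trans (hw1 k hk)
  · refine (min_le_right _ _).trans ?_
    have h2 : rr ^ k ≤ 1 / (2 * (‖w₀‖ + 1)) :=
      (pow_le_pow_of_le_one rr_pos.le rr_lt_one.le (not_lt.1 hk)).trans hn.le
    have h3 : ‖w * (rr : ℂ) ^ k‖ ≤ 1 / 2 := by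
      rw [norm_mul, norm_rr_pow]
      calc ‖w‖ * rr ^ k ≤ (‖w₀‖ + 1) * (1 / (2 * (‖w₀‖ + 1))) :=
            mul_le_mul hw2.le h2 (pow_nonneg rr_pos.le _) (by positivity)
        _ = 1 / 2 := by field_simp
    have h4 : ‖(1 : ℂ)‖ - ‖w * (rr : ℂ) ^ k‖ ≤ ‖1 - w * (rr : ℂ) ^ k‖ := norm_sub_norm_le _ _
    rw [norm_one] at h4
    linarith

/-- uniform bounds near a good point -/
theorem good_unif {w₀ : ℂ} (hw : w₀ ∈ good) :
    ∃ c M : ℝ, 0 < c ∧ 0 < M ∧ ∀ᶠ w in 𝓝 w₀, w ∈ good ∧ ‖w‖ ≤ M ∧ ‖w⁻¹‖ ≤ M ∧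
      (∀ k : ℕ, c ≤ ‖1 - w * (rr : ℂ) ^ k‖) ∧ ∀ k : ℕ, c ≤ ‖1 - w⁻¹ * (rr : ℂ) ^ k‖ := by
  obtain ⟨c₁, hc₁, h1⟩ := good_unif_aux hw
  obtain ⟨c₂, hc₂, h2⟩ := good_unif_aux (good_inv hw)
  have hinv : Filter.Tendsto (fun w : ℂ => w⁻¹) (𝓝 w₀) (𝓝 w₀⁻¹) := tendsto_inv₀ hw.1
  have h3 := hinv.eventually h2
  have h4 : ∀ᶠ w in 𝓝 w₀, ‖w‖ < ‖w₀‖ + 1 :=
    (continuous_norm.continuousAt).eventually_lt_const (by linarith)
  have h5 : ∀ᶠ w in 𝓝 w₀, ‖w⁻¹‖ < ‖w₀⁻¹‖ + 1 :=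
    (hinv.norm).eventually_lt_const (by linarith)
  have h6 : ∀ᶠ w in 𝓝 w₀, w ∈ good := isOpen_good.mem_nhds hw
  refine ⟨min c₁ c₂, max (‖w₀‖ + 1) (‖w₀⁻¹‖ + 1), lt_min hc₁ hc₂,
    lt_max_of_lt_left (by positivity), ?_⟩
  filter_upwards [h1, h3, h4, h5, h6] with w a1 a2 a3 a4 a5
  exact ⟨a5, a3.le.trans (le_max_left _ _), a4.le.trans (le_max_right _ _),
    fun k => (min_le_left _ _).trans (a1 k), fun k => (min_le_right _ _).trans (a2 k)⟩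

theorem summable_rr : Summable fun k : ℕ => rr ^ (k + 1) := by
  have := (summable_geometric_of_lt_one rr_pos.le rr_lt_one).mul_left rr
  refine this.congr fun k => ?_
  rw [pow_succ']

/-- the terms of `ff` are summable -/
theorem summable_sq {w : ℂ} (hw : w ∈ good) :
    Summable fun k : ℕ => w * (rr : ℂ) ^ (k + 1) / (1 - w * (rr : ℂ) ^ (k + 1)) ^ 2 := by
  obtain ⟨c, M, hc, hM, h⟩ := good_unif hw
  obtain ⟨-, h1, -, h2, -⟩ := h.self_of_nhds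
  refine Summable.of_norm_bounded ((summable_rr.mul_left M).div_const (c ^ 2)) fun k => ?_
  rw [norm_div, norm_mul, norm_rr_pow, norm_pow]
  exact div_le_div₀ (by have := pow_pos rr_pos (k + 1); positivity)
    (mul_le_mul_of_nonneg_right h1 (pow_nonneg rr_pos.le _)) (by positivity)
    (pow_le_pow_left₀ hc.le (h2 (k + 1)) 2)

/-- the terms of `gg` are summable -/
theorem summable_one {w : ℂ} (hw : w ∈ good) :
    Summable fun k : ℕ => w * (rr : ℂ) ^ (k + 1) / (1 - w * (rr : ℂ) ^ (k + 1)) := by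
  obtain ⟨c, M, hc, hM, h⟩ := good_unif hw
  obtain ⟨-, h1, -, h2, -⟩ := h.self_of_nhds
  refine Summable.of_norm_bounded ((summable_rr.mul_left M).div_const c) fun k => ?_
  rw [norm_div, norm_mul, norm_rr_pow]
  exact div_le_div₀ (by have := pow_pos rr_pos (k + 1); positivity)
    (mul_le_mul_of_nonneg_right h1 (pow_nonneg rr_pos.le _)) hc (h2 (k + 1))

end Pool.Agent.Lib.MP5e
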