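import Pool.Agent.Lib.MP_5e64e7_nt.JTr

set_option autoImplicit false

noncomputable section

namespace Pool.Agent.Lib.MP5e

open Polynomial Topology

private lemma eval_aeval (Q : MvPolynomial (Fin 3) ℂ) (g : Fin 3 → ℂ[X]) (t : ℂ) :
    Polynomial.eval t (MvPolynomial.aeval g Q) =
      MvPolynomial.eval (fun i => Polynomial.eval t (g i)) Q := by
  induction Q using MvPolynomial.induction_on with
  | C a => simp
  | add p q hp hq => rw [map_add, map_add, eval_add, hp, hq]
  | mul_X p i hp => rw [map_mul, map_mul, eval_mul, hp, MvPolynomial.aeval_X, MvPolynomial.eval_X]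

private lemma poly_ext (Q : MvPolynomial (Fin 3) ℂ) (g : Fin 3 → ℂ[X]) (s : Set ℂ)
    (hs : s.Infinite)
    (h : ∀ t ∈ s, MvPolynomial.eval (fun i => Polynomial.eval t (g i)) Q = 0) (t : ℂ) :
    MvPolynomial.eval (fun i => Polynomial.eval t (g i)) Q = 0 := by
  rw [← eval_aeval]
  have h0 : MvPolynomial.aeval g Q = 0 := by
    apply Polynomial.eq_zero_of_infinite_isRoot
    refine hs.mono fun u hu => ?_
    change Polynomial.eval u _ = 0
    rw [eval_aeval]
    exact h u hu
  rw [h0, eval_zero]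

private lemma inf_shift (w : ℂ) : (Set.range fun n : ℕ => w + (n : ℂ)).Infinite := by
  apply Set.infinite_range_of_injective
  intro a b hab
  have h1 : (a : ℂ) = b := add_left_cancel hab
  exact_mod_cast h1

private lemma inf_inv (w : ℂ) :
    (Set.range fun n : ℕ => (w + (n : ℂ))⁻¹).Infinite := by
  apply Set.infinite_range_of_injective
  intro a b hab
  have h1 : (a : ℂ) = b := add_left_cancel (inv_injective hab)
  exact_mod_cast h1

private def J3 (w : ℂ) : Fin 3 → ℂ := ![jf w, deriv jf w, deriv (deriv jf) w]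

private lemma J4_cons (w : ℂ) : J4 w = Fin.cons w (J3 w) := rfl

private lemma shift_J3 (n : ℕ) {w : ℂ} (hw : 0 < w.im) : J3 (w + n) = J3 w := by
  have h1 := jf_sl 1 n 0 1 (by ring) hw
  have h2 := djf_sl 1 n 0 1 (by ring) hw
  have h3 := ddjf_sl 1 n 0 1 (by ring) hw
  simp only [Int.cast_one, one_mul, Int.cast_zero, zero_mul, zero_add, div_one, Int.cast_natCast,
    one_pow, mul_zero, add_zero] at h1 h2 h3
  simp only [J3, h1, h2, h3]

private lemma inv_J (n : ℕ) {w : ℂ} (hw : 0 < w.im) :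
    0 < (-1 / (w + n)).im ∧ jf (-1 / (w + n)) = jf w ∧
      deriv jf (-1 / (w + n)) = (w + n) ^ 2 * deriv jf w ∧
      deriv (deriv jf) (-1 / (w + n)) = (w + n) ^ 4 * deriv (deriv jf) w +
        2 * (w + n) ^ 3 * deriv jf w := by
  have h0 := sl_im_pos 0 (-1) 1 n (by ring) hw
  have h1 := jf_sl 0 (-1) 1 n (by ring) hw
  have h2 := djf_sl 0 (-1) 1 n (by ring) hw
  have h3 := ddjf_sl 0 (-1) 1 n (by ring) hw
  simp only [Int.cast_one, one_mul, Int.cast_zero, zero_mul, zero_add, Int.cast_natCast,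
    Int.cast_neg, mul_one] at h0 h1 h2 h3
  exact ⟨h0, h1, h2, h3⟩

private lemma eval_analytic (P : MvPolynomial (Fin 4) ℂ) {w : ℂ} (hw : 0 < w.im) :
    AnalyticAt ℂ (fun u => MvPolynomial.eval (J4 u) P) w := by
  induction P using MvPolynomial.induction_on with
  | C a =>
    simp only [MvPolynomial.eval_C]
    exact analyticAt_const
  | add p q hp hq =>
    simp only [map_add]
    exact hp.add hq
  | mul_X p i hp =>
    simp only [map_mul, MvPolynomial.eval_X]
    exact hp.mul (J4_analyticAt hw i)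

/-- there is a point where `j'` does not vanish -/
private lemma exists_dj : ∃ w : ℂ, 0 < w.im ∧ deriv jf w ≠ 0 := by
  by_contra hcon
  push Not at hcon
  have hI : 0 < Complex.I.im := by simp
  have hE4 : E4f Complex.I ≠ 0 := by
    rw [E4f_I]
    have : (s0 : ℂ) ≠ 0 := Complex.ofReal_ne_zero.2 s0_pos.ne'
    exact mul_ne_zero (by norm_num) (pow_ne_zero 2 this)
  have hprod : ∀ w : ℂ, 0 < w.im → E4f w ^ 2 * E6f w = 0 := by
    intro w hw
    have h1 := hcon w hw
    rw [djf hw] at h1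
    have h2 := disc_ne hw
    have hpi : (2 * (Real.pi : ℂ) * Complex.I) ≠ 0 := Complex.two_pi_I_ne_zero
    rcases div_eq_zero_iff.1 h1 with h3 | h3
    · rcases mul_eq_zero.1 h3 with h4 | h4
      · rcases mul_eq_zero.1 h4 with h5 | h5
        · exact absurd (neg_eq_zero.1 h5) hpi
        · norm_num at h5
      · exact h4
    · exact absurd h3 h2
  have hnear : E6f =ᶠ[𝓝 Complex.I] fun _ => 0 := by
    have c1 : ContinuousAt E4f Complex.I := (E4f_diff hI).continuousAt
    have h1 : ∀ᶠ w in 𝓝 Complex.I, E4f w ≠ 0 := c1.eventually_ne hE4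
    have h2 : ∀ᶠ w in 𝓝 Complex.I, 0 < w.im :=
      (Complex.continuous_im.isOpen_preimage _ isOpen_Ioi).mem_nhds hI
    filter_upwards [h1, h2] with w hw1 hw2
    rcases mul_eq_zero.1 (hprod w hw2) with h3 | h3
    · exact absurd (pow_eq_zero_iff (two_ne_zero) |>.1 h3) hw1
    · exact h3
  have hd := E6f_hasDerivAt hI
  have hd0 : HasDerivAt E6f 0 Complex.I := (hasDerivAt_const Complex.I (0 : ℂ)).congr_of_eventuallyEq hnear
  have h3 := hd.unique hd0
  rw [E6f_I] at h3
  have hpi : (2 * (Real.pi : ℂ) * Complex.I) ≠ 0 := Complex.two_pi_I_ne_zero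
  rcases mul_eq_zero.1 h3 with h4 | h4
  · exact hpi h4
  · have h5 : E4f Complex.I ^ 2 = 0 := by linear_combination -2 * h4
    exact hE4 (pow_eq_zero_iff (two_ne_zero) |>.1 h5)

private lemma J3_indep (Q : MvPolynomial (Fin 3) ℂ)
    (h : ∀ w : ℂ, 0 < w.im → MvPolynomial.eval (J3 w) Q = 0) : Q = 0 := by
  -- step B
  have hB : ∀ w : ℂ, 0 < w.im → ∀ T : ℂ, MvPolynomial.eval ![jf w, T ^ 2 * deriv jf w,
      T ^ 4 * deriv (deriv jf) w + 2 * T ^ 3 * deriv jf w] Q = 0 := by
    intro w hw T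
    have h1 := poly_ext Q ![C (jf w), X ^ 2 * C (deriv jf w),
      X ^ 4 * C (deriv (deriv jf) w) + 2 * X ^ 3 * C (deriv jf w)] _ (inf_shift w) (by
        rintro t ⟨n, rfl⟩
        obtain ⟨h0, h1, h2, h3⟩ := inv_J n hw
        have h4 := h _ h0
        have h5 : J3 (-1 / (w + n)) = fun i => Polynomial.eval (w + (n : ℂ))
            ((![C (jf w), X ^ 2 * C (deriv jf w),
              X ^ 4 * C (deriv (deriv jf) w) + 2 * X ^ 3 * C (deriv jf w)] : Fin 3 → ℂ[X]) i) := by
          funext i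
          fin_cases i
          · simp [J3, h1]
          · simp [J3, h2]
            ring
          · simp [J3, h3]
            ring
        rw [h5] at h4
        exact h4) T
    have h5 : (![jf w, T ^ 2 * deriv jf w,
        T ^ 4 * deriv (deriv jf) w + 2 * T ^ 3 * deriv jf w] : Fin 3 → ℂ) =
        fun i => Polynomial.eval T
            ((![C (jf w), X ^ 2 * C (deriv jf w),
              X ^ 4 * C (deriv (deriv jf) w) + 2 * X ^ 3 * C (deriv jf w)] : Fin 3 → ℂ[X]) i) := by
      funext i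
      fin_cases i
      · simp
      · simp
        ring
      · simp
        ring
    rw [h5]
    exact h1
  -- step C
  have hC : ∀ w : ℂ, 0 < w.im → ∀ S Y : ℂ, MvPolynomial.eval ![jf w, S ^ 2 * deriv jf w,
      S ^ 4 * deriv (deriv jf) w + 2 * (S ^ 4 + S ^ 3) * deriv jf w * Y] Q = 0 := by
    intro w hw S Y
    have h1 := poly_ext Q ![C (jf w), C (S ^ 2 * deriv jf w),
      C (S ^ 4 * deriv (deriv jf) w) + C (2 * (S ^ 4 + S ^ 3) * deriv jf w) * X] _ (inf_inv w) (by
        rintro t ⟨n, rfl⟩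
        obtain ⟨h0, h1, h2, h3⟩ := inv_J n hw
        have hv : w + (n : ℂ) ≠ 0 := by
          intro h00
          have := congrArg Complex.im h00
          simp at this
          linarith
        have h4 := hB _ h0 (S / (w + n))
        rw [h1, h2, h3] at h4
        have h5 : (![jf w, (S / (w + n)) ^ 2 * ((w + n) ^ 2 * deriv jf w),
            (S / (w + n)) ^ 4 * ((w + n) ^ 4 * deriv (deriv jf) w +
              2 * (w + n) ^ 3 * deriv jf w) +
              2 * (S / (w + n)) ^ 3 * ((w + n) ^ 2 * deriv jf w)] : Fin 3 → ℂ) =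
            fun i => Polynomial.eval ((w + (n : ℂ))⁻¹) ((![C (jf w), C (S ^ 2 * deriv jf w),
              C (S ^ 4 * deriv (deriv jf) w) +
                C (2 * (S ^ 4 + S ^ 3) * deriv jf w) * X] : Fin 3 → ℂ[X]) i) := by
          funext i
          fin_cases i
          · simp
          · simp
            field_simp
          · simp
            field_simp
            ring
        rw [h5] at h4
        exact h4) Y
    have h5 : (![jf w, S ^ 2 * deriv jf w,
        S ^ 4 * deriv (deriv jf) w + 2 * (S ^ 4 + S ^ 3) * deriv jf w * Y] : Fin 3 → ℂ) =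
        fun i => Polynomial.eval Y ((![C (jf w), C (S ^ 2 * deriv jf w),
              C (S ^ 4 * deriv (deriv jf) w) +
                C (2 * (S ^ 4 + S ^ 3) * deriv jf w) * X] : Fin 3 → ℂ[X]) i) := by
      funext i
      fin_cases i
      · simp
      · simp
      · simp
    rw [h5]
    exact h1
  -- step D
  have hD : ∀ w : ℂ, 0 < w.im → deriv jf w ≠ 0 → ∀ y z : ℂ, y ≠ 0 →
      MvPolynomial.eval ![jf w, y, z] Q = 0 := by
    intro w hw hb y z hy
    obtain ⟨S, hS1, hS2, hS3⟩ : ∃ S : ℂ, S ^ 2 * deriv jf w = y ∧ S ≠ 0 ∧ S + 1 ≠ 0 := by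
      obtain ⟨S0, hS0⟩ := IsAlgClosed.exists_pow_nat_eq (y / deriv jf w) (n := 2) (by norm_num)
      have e1 : S0 ^ 2 * deriv jf w = y := by
        rw [hS0]
        field_simp
      have e2 : S0 ≠ 0 := by
        rintro rfl
        apply hy
        rw [← e1]
        ring
      rcases eq_or_ne (S0 + 1) 0 with h0 | h0
      · refine ⟨-S0, ?_, neg_ne_zero.2 e2, ?_⟩
        · rw [neg_sq, e1]
        · intro h1
          have h2 : (2 : ℂ) = 0 := by linear_combination h0 + h1
          norm_num at h2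
      · exact ⟨S0, e1, e2, h0⟩
    have hne : 2 * (S ^ 4 + S ^ 3) * deriv jf w ≠ 0 := by
      have : S ^ 4 + S ^ 3 = S ^ 3 * (S + 1) := by ring
      rw [this]
      exact mul_ne_zero (mul_ne_zero two_ne_zero (mul_ne_zero (pow_ne_zero 3 hS2) hS3)) hb
    have h1 := hC w hw S ((z - S ^ 4 * deriv (deriv jf) w) / (2 * (S ^ 4 + S ^ 3) * deriv jf w))
    rw [mul_div_cancel₀ _ hne, hS1, add_sub_cancel] at h1
    exact h1
  obtain ⟨w0, hw0, hdw0⟩ := exists_dj
  set V : Set ℂ := {w : ℂ | 0 < w.im ∧ deriv jf w ≠ 0} with hV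
  have hVn : V ∈ 𝓝 w0 := by
    have c1 : ContinuousAt (deriv jf) w0 := (jf_analyticAt hw0).deriv.continuousAt
    have h1 : ∀ᶠ w in 𝓝 w0, deriv jf w ≠ 0 := c1.eventually_ne hdw0
    have h2 : ∀ᶠ w in 𝓝 w0, 0 < w.im :=
      (Complex.continuous_im.isOpen_preimage _ isOpen_Ioi).mem_nhds hw0
    filter_upwards [h1, h2] with w hw1 hw2
    exact ⟨hw2, hw1⟩
  have hAinf : (jf '' V).Infinite := by
    have h1 := (jf_analyticAt hw0).hasStrictDerivAt.map_nhds_eq hdw0
    have h2 : jf '' V ∈ 𝓝 (jf w0) := by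
      rw [← h1]
      exact Filter.image_mem_map hVn
    exact infinite_of_mem_nhds _ h2
  refine MvPolynomial.funext_set ![jf '' V, {y : ℂ | y ≠ 0}, Set.univ] ?_ ?_
  · intro i
    fin_cases i
    · exact hAinf
    · change ({y : ℂ | y ≠ 0}).Infinite
      exact Set.infinite_of_finite_compl (by simp)
    · exact Set.infinite_univ
  · intro x hx
    have h0 : x 0 ∈ jf '' V := hx 0 (Set.mem_univ _)
    have h1 : x 1 ∈ {y : ℂ | y ≠ 0} := hx 1 (Set.mem_univ _)
    obtain ⟨w, ⟨hw1, hw2⟩, hw3⟩ := h0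
    have h2 := hD w hw1 hw2 (x 1) (x 2) h1
    have h3 : x = ![jf w, x 1, x 2] := by
      funext i
      fin_cases i
      · exact hw3.symm
      · rfl
      · rfl
    rw [h3, h2, map_zero]

/-- Mahler: `z, j, j', j''` are algebraically independent over `ℂ` -/
theorem J_indep (P : MvPolynomial (Fin 4) ℂ) (U : Set ℂ) (hU : IsOpen U) (hne : U.Nonempty)
    (hsub : U ⊆ {w : ℂ | 0 < w.im}) (h : ∀ w ∈ U, MvPolynomial.eval (J4 w) P = 0) : P = 0 := by
  have hall : ∀ w : ℂ, 0 < w.im → MvPolynomial.eval (J4 w) P = 0 := by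
    obtain ⟨w0, hw0⟩ := hne
    have han : AnalyticOnNhd ℂ (fun u => MvPolynomial.eval (J4 u) P) {w : ℂ | 0 < w.im} :=
      fun w hw => eval_analytic P hw
    have hpre : IsPreconnected {w : ℂ | 0 < w.im} := (convex_halfSpace_im_gt 0).isPreconnected
    have hev : (fun u => MvPolynomial.eval (J4 u) P) =ᶠ[𝓝 w0] 0 := by
      filter_upwards [hU.mem_nhds hw0] with w hw
      exact h w hw
    have := han.eqOn_zero_of_preconnected_of_eventuallyEq_zero hpre (hsub hw0) hev
    intro w hw
    exact this hw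
  have hcoeff : ∀ w : ℂ, 0 < w.im →
      Polynomial.map (MvPolynomial.eval (J3 w)) (MvPolynomial.finSuccEquiv ℂ 3 P) = 0 := by
    intro w hw
    apply Polynomial.eq_zero_of_infinite_isRoot
    refine (inf_shift w).mono ?_
    rintro _ ⟨n, rfl⟩
    change Polynomial.eval _ _ = 0
    rw [← MvPolynomial.eval_eq_eval_mv_eval', ← shift_J3 n hw]
    have h1 : 0 < (w + (n : ℂ)).im := by simpa using hw
    exact hall _ h1
  have hz : MvPolynomial.finSuccEquiv ℂ 3 P = 0 := by
    ext1 k
    rw [Polynomial.coeff_zero]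
    apply J3_indep
    intro w hw
    have h1 := congrArg (fun f : ℂ[X] => f.coeff k) (hcoeff w hw)
    simpa [Polynomial.coeff_map] using h1
  exact (map_eq_zero_iff _ (MvPolynomial.finSuccEquiv ℂ 3).injective).1 hz

end Pool.Agent.Lib.MP5e
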