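import Pool.Agent.Lib.MP_5e64e7_nt.FuncA

set_option autoImplicit false

noncomputable section

namespace Pool.Agent.Lib.MP5e

open Polynomial Topology

private theorem FuncB_analytic (P : MvPolynomial (Fin 4) ℂ) (z0 : ℂ) (hz : 0 < z0.im) :
    AnalyticAt ℂ (fun w => MvPolynomial.eval (J4 w) P) z0 := by
  induction P using MvPolynomial.induction_on with
  | C a =>
    simp only [MvPolynomial.eval_C]
    exact analyticAt_const
  | add p q hp hq =>
    simp only [map_add]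
    exact hp.add hq
  | mul_X p i hp =>
    simp only [map_mul, MvPolynomial.eval_X]
    exact hp.mul (J4_analyticAt hz i)

theorem J_lower (P : MvPolynomial (Fin 4) ℂ) (hP : P ≠ 0) (z0 : ℂ) (hz : 0 < z0.im) :
    ∃ (c : ℝ) (k : ℕ) (δ : ℝ), 0 < c ∧ 0 < δ ∧ ∀ w : ℂ, ‖w - z0‖ < δ →
      c * ‖w - z0‖ ^ k ≤ ‖MvPolynomial.eval (J4 w) P‖ := by
  have han := FuncB_analytic P z0 hz
  have hne : ¬ ∀ᶠ w in 𝓝 z0, MvPolynomial.eval (J4 w) P = 0 := by
    intro h
    apply hP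
    have hopen : IsOpen {w : ℂ | 0 < w.im} := isOpen_lt continuous_const Complex.continuous_im
    obtain ⟨U, hU, hUo, hzU⟩ := mem_nhds_iff.mp h
    refine J_indep P (U ∩ {w : ℂ | 0 < w.im}) (hUo.inter hopen) ⟨z0, hzU, hz⟩
      Set.inter_subset_right ?_
    intro w hw
    exact hU hw.1
  obtain ⟨k, g, hg, hg0, hev⟩ := han.exists_eventuallyEq_pow_smul_nonzero_iff.mpr hne
  have hcont : ∀ᶠ w in 𝓝 z0, ‖g z0‖ / 2 < ‖g w‖ := by
    apply (hg.continuousAt.norm).eventually (lt_mem_nhds _)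
    have : 0 < ‖g z0‖ := norm_pos_iff.mpr hg0
    linarith
  obtain ⟨δ, hδ, hball⟩ := Metric.eventually_nhds_iff.mp (hev.and hcont)
  refine ⟨‖g z0‖ / 2, k, δ, by have := norm_pos_iff.mpr hg0; positivity, hδ, ?_⟩
  intro w hw
  obtain ⟨h1, h2⟩ := hball (by rw [dist_eq_norm]; exact hw)
  rw [h1, norm_smul, norm_pow, mul_comm]
  exact mul_le_mul_of_nonneg_left h2.le (pow_nonneg (norm_nonneg _) _)

private theorem FuncB_contDiff (n : ℕ) (P : MvPolynomial (Option (Fin n × Fin 4)) ℤ)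
    (z : Fin n → ℂ) (hz : ∀ l, 0 < (z l).im) :
    ContDiffAt ℂ 1 (fun u : Fin n → ℂ => MvPolynomial.aeval (fam u) P) z := by
  induction P using MvPolynomial.induction_on with
  | C a =>
    simp only [MvPolynomial.aeval_C]
    exact contDiffAt_const
  | add p q hp hq =>
    simp only [map_add]
    exact hp.add hq
  | mul_X p i hp =>
    simp only [map_mul, MvPolynomial.aeval_X]
    refine hp.mul ?_
    rcases i with _ | ⟨l, m⟩
    · exact contDiffAt_const
    · have h1 : ContDiffAt ℂ 1 (fun w => J4 w m) (z l) := (J4_analyticAt (hz l) m).contDiffAt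
      have h2 : ContDiffAt ℂ 1 (fun u : Fin n → ℂ => u l) z := (contDiff_apply ℂ ℂ l).contDiffAt
      have h3 := ContDiffAt.comp (g := fun w => J4 w m) (f := fun u : Fin n → ℂ => u l) z h1 h2
      exact h3

/-- evaluation at `fam` is locally Lipschitz -/
theorem fam_lip (n : ℕ) (P : MvPolynomial (Option (Fin n × Fin 4)) ℤ) (z : Fin n → ℂ)
    (hz : ∀ l, 0 < (z l).im) :
    ∃ (c : ℝ) (δ : ℝ), 0 < c ∧ 0 < δ ∧ ∀ u v : Fin n → ℂ, (∀ l, ‖u l - z l‖ < δ) →
      (∀ l, ‖v l - z l‖ < δ) → ∀ x : ℝ, 0 ≤ x → (∀ l, ‖u l - v l‖ ≤ x) →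
      ‖MvPolynomial.aeval (fam u) P - MvPolynomial.aeval (fam v) P‖ ≤ c * x := by
  obtain ⟨K, t, ht, hK⟩ := (FuncB_contDiff n P z hz).exists_lipschitzOnWith
  obtain ⟨δ, hδ, hball⟩ := Metric.mem_nhds_iff.mp ht
  refine ⟨K + 1, δ, by positivity, hδ, ?_⟩
  intro u v hu hv x hx huv
  have h1 : ∀ w : Fin n → ℂ, (∀ l, ‖w l - z l‖ < δ) → w ∈ t := by
    intro w hw
    apply hball
    rw [Metric.mem_ball, dist_pi_lt_iff hδ]
    intro l
    rw [dist_eq_norm]
    exact hw l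
  have h2 := hK.dist_le_mul u (h1 u hu) v (h1 v hv)
  have h3 : dist u v ≤ x := by
    rw [dist_pi_le_iff hx]
    intro l
    rw [dist_eq_norm]
    exact huv l
  rw [dist_eq_norm] at h2
  refine h2.trans ?_
  have h4 : (K : ℝ) * dist u v ≤ K * x := mul_le_mul_of_nonneg_left h3 K.2
  linarith

end Pool.Agent.Lib.MP5e
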