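import Pool.Agent.Lib.MP_5e64e7_nt.GDefs

set_option autoImplicit false

/-!
# G.AV : common nonzeros of countably many analytic functions (about 90 lines)

`gavoid`: for each `i` let `U_i = (closure Ω)ᶜ ∪ {x ∈ Ω | F i x ≠ 0}`. It is open (`F i` is continuous on the open set `Ω`,
see the sets `U Q` in the proof of `rgen` in `RGen.lean`). It is dense: let `W` be open and nonempty; if `W ∩ Ω` is empty
then `W` does not meet the closure of `Ω`; otherwise, if `F i = 0` on `W ∩ Ω`, then `F i = 0` near a point `x₀ ∈ W ∩ Ω`, so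
`F i = 0` on `Ω` by the identity theorem on the preconnected open set `Ω`
(`AnalyticOnNhd.eqOn_zero_of_preconnected_of_eventuallyEq_zero`), contradicting `h0 i`.
`Fin m → ℂ` is a complete metric space, so `dense_iInter_of_isOpen` gives a point `x ∈ O` in all `U_i` (`ι` countable);
`x ∈ O ⊆ Ω` so it is not in `(closure Ω)ᶜ`.

`gprod`: `gavoid` with `ι = Bool` and `O = Ω` (if both `F` and `G` have a nonzero value on `Ω` there is a common one; `Ω` is
nonempty in this case).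
-/

noncomputable section

namespace Pool.Agent.Lib.MP5e

open Polynomial Topology

theorem gavoid {m : ℕ} {ι : Type} [Countable ι] (Ω : Set (Fin m → ℂ)) (hΩ : IsOpen Ω)
    (hc : IsPreconnected Ω) (F : ι → (Fin m → ℂ) → ℂ) (hF : ∀ i, AnalyticOnNhd ℂ (F i) Ω)
    (h0 : ∀ i, ∃ x ∈ Ω, F i x ≠ 0) (O : Set (Fin m → ℂ)) (hO : IsOpen O) (hne : O.Nonempty)
    (hOΩ : O ⊆ Ω) : ∃ x ∈ O, ∀ i, F i x ≠ 0 := by
  have hUo : ∀ i, IsOpen ((closure Ω)ᶜ ∪ (Ω ∩ (F i) ⁻¹' {0}ᶜ)) := by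
    intro i
    refine IsOpen.union isClosed_closure.isOpen_compl ?_
    exact (hF i).continuousOn.isOpen_inter_preimage hΩ isOpen_compl_singleton
  have hUd : ∀ i, Dense ((closure Ω)ᶜ ∪ (Ω ∩ (F i) ⁻¹' {0}ᶜ)) := by
    intro i
    rw [dense_iff_inter_open]
    intro W hW hWne
    by_cases hWΩ : (W ∩ Ω).Nonempty
    · by_contra hcon
      obtain ⟨x₀, hx₀W, hx₀Ω⟩ := hWΩ
      have hz : ∀ x ∈ W ∩ Ω, F i x = 0 := by
        intro x hx
        by_contra hx0
        exact hcon ⟨x, hx.1, Or.inr ⟨hx.2, hx0⟩⟩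
      have hev : F i =ᶠ[𝓝 x₀] 0 := by
        filter_upwards [(hW.inter hΩ).mem_nhds ⟨hx₀W, hx₀Ω⟩] with x hx
        exact hz x hx
      obtain ⟨y, hyΩ, hy⟩ := h0 i
      exact hy ((hF i).eqOn_zero_of_preconnected_of_eventuallyEq_zero hc hx₀Ω hev hyΩ)
    · obtain ⟨x, hx⟩ := hWne
      refine ⟨x, hx, Or.inl ?_⟩
      intro hxc
      exact hWΩ (mem_closure_iff.mp hxc W hW hx)
  have hd := dense_iInter_of_isOpen hUo hUd
  obtain ⟨x, hxO, hx⟩ := (dense_iff_inter_open.mp hd) O hO hne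
  refine ⟨x, hxO, fun i => ?_⟩
  rcases Set.mem_iInter.mp hx i with h1 | h1
  · exact absurd (subset_closure (hOΩ hxO)) h1
  · exact h1.2

theorem gprod {m : ℕ} (Ω : Set (Fin m → ℂ)) (hΩ : IsOpen Ω)
    (hc : IsPreconnected Ω) (F G : (Fin m → ℂ) → ℂ) (hF : AnalyticOnNhd ℂ F Ω)
    (hG : AnalyticOnNhd ℂ G Ω) (h : ∀ x ∈ Ω, F x * G x = 0) :
    (∀ x ∈ Ω, F x = 0) ∨ ∀ x ∈ Ω, G x = 0 := by
  by_contra hcon
  rw [not_or] at hcon
  obtain ⟨h1, h2⟩ := hcon
  push Not at h1 h2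
  obtain ⟨x, hx, hx0⟩ := h1
  obtain ⟨y, hy, hy0⟩ := h2
  obtain ⟨z, hz, hz0⟩ := gavoid (ι := Bool) Ω hΩ hc (fun b => cond b F G)
    (by intro b; cases b
        · exact hG
        · exact hF)
    (by intro b; cases b
        · exact ⟨y, hy, hy0⟩
        · exact ⟨x, hx, hx0⟩) Ω hΩ ⟨x, hx⟩ (le_refl Ω)
  rcases mul_eq_zero.mp (h z hz) with h3 | h3
  · exact hz0 true h3
  · exact hz0 false h3

/-- the upper half space is open and convex -/
theorem gH_open (n : ℕ) : IsOpen (gH n) := by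
  have h1 : gH n = ⋂ l : Fin n, {u : Fin n → ℂ | 0 < (u l).im} := by
    ext u
    simp [gH]
  rw [h1]
  exact isOpen_iInter_of_finite fun l =>
    isOpen_lt continuous_const (Complex.continuous_im.comp (continuous_apply l))

theorem gH_preconnected (n : ℕ) : IsPreconnected (gH n) := by
  refine Convex.isPreconnected ?_
  intro x hx y hy a b ha hb hab
  intro l
  have hxl : 0 < (x l).im := hx l
  have hyl : 0 < (y l).im := hy l
  have h1 : ((a • x + b • y) l).im = a * (x l).im + b * (y l).im := by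
    simp
  rw [h1]
  rcases eq_or_lt_of_le ha with h0 | h0
  · have hb1 : b = 1 := by linarith
    rw [← h0, hb1]
    simpa using hyl
  · have h2 : 0 < a * (x l).im := mul_pos h0 hxl
    have h3 : 0 ≤ b * (y l).im := mul_nonneg hb hyl.le
    linarith

end Pool.Agent.Lib.MP5e
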