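import Pool.Agent.Lib.MP_5e64e7_nt.RAna

set_option autoImplicit false

/-!
# R.SGN : points given in the usual form (about 150 lines)

`rform`: if `z = (P(w) + Q(w) √(δ(w)) i)/R(w)`, `δ(w) > 0`, `Im z > 0`, then `rz ⟨δ, P, Q, R⟩ w = z` and `RGood`
(`rs` at a real point with `δ(w) > 0` is the real square root: `Complex.ofReal_cpow`, `Real.sqrt_eq_rpow`;
`rev P w` is the real number `aeval w P`: `MvPolynomial.aeval` commutes with `Complex.ofRealHom`, e.g. by induction on `P`).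

`rquad`: `z` in the upper half plane, `A(w) z² + B(w) z + C(w) = 0`, `A(w) ≠ 0`, rational polynomials. Multiply by a common
denominator: there are integer polynomials `A', B', C'` and `N ≥ 1` with `A' = N A` etc. (e.g. an induction on the
polynomial for one, then common multiples; or `IsLocalization.exist_integer_multiples`,
`MvPolynomial.map`). Then `δ(w) = 4A'C' - B'^2 > 0` because `z` is not real (for real `a ≠ 0, b, c` and `a z² + b z + c = 0`:
`z̄` is the other root, `z + z̄ = -b/a`, `z z̄ = c/a`, so `4ac - b² = (2 a Im z)² > 0`), and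
`z = (-b + i √δ)/(2a)` if `a > 0`, `z = (b + i√δ)/(-2a)` if `a < 0`: so `δ = 4A'C' - B'²`, `P = ∓B'`, `Q = 1`,
`R = ±2A'`.
-/

noncomputable section

namespace Pool.Agent.Lib.MP5e

open Polynomial Topology

private theorem rsgn_rev {m : ℕ} (w : Fin m → ℝ) (P : MvPolynomial (Fin m) ℤ) :
    rev P (fun l => (w l : ℂ)) = ((MvPolynomial.aeval w P : ℝ) : ℂ) := by
  unfold rev
  exact MvPolynomial.aeval_algebraMap_apply (B := ℂ) w P

theorem rform {m : ℕ} (w : Fin m → ℝ) (δ P Q R : MvPolynomial (Fin m) ℤ) (z : ℂ)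
    (hδ : 0 < MvPolynomial.aeval w δ)
    (hz : z = ((MvPolynomial.aeval w P : ℝ) + (MvPolynomial.aeval w Q : ℝ) *
      ((Real.sqrt (MvPolynomial.aeval w δ) : ℂ) * Complex.I)) / (MvPolynomial.aeval w R : ℝ))
    (him : 0 < z.im) :
    RGood ⟨δ, P, Q, R⟩ (fun l => (w l : ℂ)) ∧ rz ⟨δ, P, Q, R⟩ (fun l => (w l : ℂ)) = z := by
  have hrs : rs ⟨δ, P, Q, R⟩ (fun l => (w l : ℂ)) =
      ((Real.sqrt (MvPolynomial.aeval w δ) : ℝ) : ℂ) := by
    unfold rs
    simp only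
    rw [rsgn_rev, Real.sqrt_eq_rpow, Complex.ofReal_cpow hδ.le]
    push_cast
    rfl
  have hrz : rz ⟨δ, P, Q, R⟩ (fun l => (w l : ℂ)) = z := by
    unfold rz
    simp only
    rw [hrs, rsgn_rev, rsgn_rev, rsgn_rev, hz, mul_comm Complex.I]
  refine ⟨⟨?_, ?_⟩, hrz⟩
  · simp only
    rw [rsgn_rev, Complex.ofReal_re]
    exact hδ
  · rw [hrz]
    exact him

private theorem rsgn_int {m : ℕ} (A : MvPolynomial (Fin m) ℚ) :
    ∃ (N : ℕ) (A' : MvPolynomial (Fin m) ℤ), 1 ≤ N ∧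
      ∀ w : Fin m → ℝ, MvPolynomial.aeval w A' = (N : ℝ) * MvPolynomial.aeval w A := by
  induction A using MvPolynomial.induction_on with
  | C q =>
    refine ⟨q.den, MvPolynomial.C q.num, q.den_pos, fun w => ?_⟩
    rw [MvPolynomial.aeval_C, MvPolynomial.aeval_C]
    have h1 : (q.den : ℝ) ≠ 0 := by exact_mod_cast q.den_ne_zero
    have h2 : (algebraMap ℚ ℝ q) = (q.num : ℝ) / (q.den : ℝ) := by
      rw [eq_ratCast]
      exact Rat.cast_def q
    rw [h2]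
    simp only [algebraMap_int_eq, eq_intCast]
    field_simp
  | add p q hp hq =>
    obtain ⟨N₁, A₁, h₁, e₁⟩ := hp
    obtain ⟨N₂, A₂, h₂, e₂⟩ := hq
    refine ⟨N₁ * N₂, MvPolynomial.C (N₂ : ℤ) * A₁ + MvPolynomial.C (N₁ : ℤ) * A₂,
      Nat.mul_pos h₁ h₂, fun w => ?_⟩
    rw [map_add, map_add, map_mul, map_mul, MvPolynomial.aeval_C, MvPolynomial.aeval_C, e₁, e₂]
    simp only [algebraMap_int_eq, eq_intCast]
    push_cast
    ring
  | mul_X p i hp =>
    obtain ⟨N₁, A₁, h₁, e₁⟩ := hp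
    refine ⟨N₁, A₁ * MvPolynomial.X i, h₁, fun w => ?_⟩
    rw [map_mul, map_mul, e₁, MvPolynomial.aeval_X, MvPolynomial.aeval_X]
    ring

private theorem rsgn_int3 {m : ℕ} (A B C : MvPolynomial (Fin m) ℚ) :
    ∃ (N : ℕ) (A' B' C' : MvPolynomial (Fin m) ℤ), 1 ≤ N ∧
      ∀ w : Fin m → ℝ, MvPolynomial.aeval w A' = (N : ℝ) * MvPolynomial.aeval w A ∧
        MvPolynomial.aeval w B' = (N : ℝ) * MvPolynomial.aeval w B ∧
        MvPolynomial.aeval w C' = (N : ℝ) * MvPolynomial.aeval w C := by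
  obtain ⟨N₁, A₁, h₁, e₁⟩ := rsgn_int A
  obtain ⟨N₂, A₂, h₂, e₂⟩ := rsgn_int B
  obtain ⟨N₃, A₃, h₃, e₃⟩ := rsgn_int C
  refine ⟨N₁ * N₂ * N₃, MvPolynomial.C (N₂ * N₃ : ℤ) * A₁, MvPolynomial.C (N₁ * N₃ : ℤ) * A₂,
    MvPolynomial.C (N₁ * N₂ : ℤ) * A₃, Nat.mul_pos (Nat.mul_pos h₁ h₂) h₃, fun w => ⟨?_, ?_, ?_⟩⟩
  · rw [map_mul, MvPolynomial.aeval_C, e₁]
    simp only [algebraMap_int_eq, eq_intCast]
    push_cast
    ring
  · rw [map_mul, MvPolynomial.aeval_C, e₂]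
    simp only [algebraMap_int_eq, eq_intCast]
    push_cast
    ring
  · rw [map_mul, MvPolynomial.aeval_C, e₃]
    simp only [algebraMap_int_eq, eq_intCast]
    push_cast
    ring

theorem rquad {m : ℕ} (w : Fin m → ℝ) (A B C : MvPolynomial (Fin m) ℚ) (z : ℂ) (him : 0 < z.im)
    (hA : MvPolynomial.aeval w A ≠ 0)
    (hz : ((MvPolynomial.aeval w A : ℝ) : ℂ) * z ^ 2 + ((MvPolynomial.aeval w B : ℝ) : ℂ) * z +
      ((MvPolynomial.aeval w C : ℝ) : ℂ) = 0) :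
    ∃ f : RF m, RGood f (fun l => (w l : ℂ)) ∧ rz f (fun l => (w l : ℂ)) = z := by
  obtain ⟨N, A', B', C', hN, hABC⟩ := rsgn_int3 A B C
  obtain ⟨eA, eB, eC⟩ := hABC w
  obtain ⟨a, ha⟩ : ∃ a : ℝ, a = MvPolynomial.aeval w A' := ⟨_, rfl⟩
  obtain ⟨b, hb⟩ : ∃ b : ℝ, b = MvPolynomial.aeval w B' := ⟨_, rfl⟩
  obtain ⟨c, hc⟩ : ∃ c : ℝ, c = MvPolynomial.aeval w C' := ⟨_, rfl⟩
  have hN0 : (N : ℝ) ≠ 0 := by
    have : (1 : ℝ) ≤ N := by exact_mod_cast hN
    linarith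
  have ha0 : a ≠ 0 := by
    rw [ha, eA]
    exact mul_ne_zero hN0 hA
  have hq : (a : ℂ) * z ^ 2 + (b : ℂ) * z + (c : ℂ) = 0 := by
    rw [ha, hb, hc, eA, eB, eC]
    push_cast
    linear_combination (N : ℂ) * hz
  obtain ⟨x, hx⟩ : ∃ x : ℝ, x = z.re := ⟨_, rfl⟩
  obtain ⟨y, hy⟩ : ∃ y : ℝ, y = z.im := ⟨_, rfl⟩
  have hzxy : z = (x : ℂ) + (y : ℂ) * Complex.I := by
    rw [hx, hy]
    exact (Complex.re_add_im z).symm
  have hy0 : 0 < y := by rw [hy]; exact him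
  have hre := congrArg Complex.re hq
  have him2 := congrArg Complex.im hq
  rw [hzxy] at hre him2
  simp [pow_two] at hre him2
  have hb' : b = -2 * a * x := by
    have h1 : y * (b + 2 * a * x) = 0 := by linarith [him2, mul_comm a x]
    rcases mul_eq_zero.mp h1 with h2 | h2
    · exact absurd h2 hy0.ne'
    · linarith
  have hc' : c = a * (x ^ 2 + y ^ 2) := by
    rw [hb'] at hre
    nlinarith [hre]
  have hδv : MvPolynomial.aeval w (4 * A' * C' - B' ^ 2) = (2 * a * y) ^ 2 := by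
    rw [map_sub, map_mul, map_mul, map_pow, ← ha, ← hb, ← hc, hb', hc']
    have h4 : MvPolynomial.aeval w (4 : MvPolynomial (Fin m) ℤ) = (4 : ℝ) := by
      simp
    rw [h4]
    ring
  have hδ0 : 0 < MvPolynomial.aeval w (4 * A' * C' - B' ^ 2) := by
    rw [hδv]
    have : 2 * a * y ≠ 0 := mul_ne_zero (mul_ne_zero two_ne_zero ha0) hy0.ne'
    positivity
  have hac : (a : ℂ) ≠ 0 := by exact_mod_cast ha0
  have h2 : MvPolynomial.aeval w (2 * A') = 2 * a := by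
    rw [map_mul, ← ha]
    have h4 : MvPolynomial.aeval w (2 : MvPolynomial (Fin m) ℤ) = (2 : ℝ) := by
      simp
    rw [h4]
  rcases lt_or_gt_of_ne ha0 with hneg | hpos
  · have hsq : Real.sqrt (MvPolynomial.aeval w (4 * A' * C' - B' ^ 2)) = -(2 * a * y) := by
      rw [hδv, ← neg_sq (2 * a * y)]
      apply Real.sqrt_sq
      nlinarith [mul_pos (neg_pos.mpr hneg) hy0]
    refine ⟨⟨4 * A' * C' - B' ^ 2, B', 1, -(2 * A')⟩, ?_⟩
    refine rform w _ _ _ _ z hδ0 ?_ him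
    rw [hsq, map_neg, h2, ← hb, map_one, hb', hzxy]
    push_cast
    field_simp
    ring
  · have hsq : Real.sqrt (MvPolynomial.aeval w (4 * A' * C' - B' ^ 2)) = 2 * a * y := by
      rw [hδv]
      apply Real.sqrt_sq
      positivity
    refine ⟨⟨4 * A' * C' - B' ^ 2, -B', 1, 2 * A'⟩, ?_⟩
    refine rform w _ _ _ _ z hδ0 ?_ him
    rw [hsq, map_neg, h2, ← hb, map_one, hb', hzxy]
    push_cast
    field_simp

end Pool.Agent.Lib.MP5e
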