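import Pool.Agent.Lib.MP_5e64e7_nt.GDefs
import Pool.Agent.Lib.MP_5e64e7_nt.RSgn

set_option autoImplicit false

/-!
# G.CLS : normal form of the points of `ℚ(w)(s)`, `s² ∈ ℚ(w)` (about 130 lines)

Every element of `gQ w` is `A(w)/B(w)`, `A, B` integer polynomials, `B(w) ≠ 0` (so it is real):
`IntermediateField.adjoin_induction`, or `Field.exists_...`; closure under `+, *, ⁻¹` is immediate, rational numbers and the
`w_l` are of this form. Every element of `gQs w s` is `a + b s`, `a, b ∈ gQ w` (same induction; for inverses: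
`(a + b s)(a - b s) = a² - b² s² ∈ gQ w`; if `a + b s ≠ 0` and `a - b s = 0` then `s = a/b ∈ gQ w` or `b = 0`, so that the
number is in `gQ w`: treat the case `s ∈ gQ w` separately (`gQs w s = gQ w`)).

If `s` is real, then all elements of `gQs w s` are real and there is nothing to prove (`δ = 0`). Otherwise `s² = -A(w)/B(w)` is
real and `s` is not real, so `s² < 0`; let `δ = A * B`: `δ(w) = -s² B(w)² > 0`, `(B(w) s)² = -δ(w)`, so
`B(w) s = ε √δ(w) i`, `ε = 1` or `ε = -1`. Let `z = a₁(w)/a₂(w) + b₁(w)/b₂(w) s`: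
`z = (a₁ b₂ B + ε b₁ a₂ √δ i)/(a₂ b₂ B)` at `w`; use `rform` with `P = a₁ b₂ B`, `Q = ε b₁ a₂`, `R = a₂ b₂ B`.
-/

noncomputable section

namespace Pool.Agent.Lib.MP5e

open Polynomial Topology

private theorem gcls_Q {m : ℕ} (w : Fin m → ℝ) (x : ℂ) (hx : x ∈ gQ w) :
    ∃ A B : MvPolynomial (Fin m) ℤ, (MvPolynomial.aeval w B : ℝ) ≠ 0 ∧
      x = ((MvPolynomial.aeval w A : ℝ) : ℂ) / ((MvPolynomial.aeval w B : ℝ) : ℂ) := by
  unfold gQ at hx
  induction hx using IntermediateField.adjoin_induction with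
  | mem x hx =>
    obtain ⟨l, rfl⟩ := hx
    refine ⟨MvPolynomial.X l, 1, ?_, ?_⟩
    · rw [map_one]; exact one_ne_zero
    · rw [map_one, MvPolynomial.aeval_X, Complex.ofReal_one, div_one]
  | algebraMap q =>
    refine ⟨MvPolynomial.C q.num, MvPolynomial.C (q.den : ℤ), ?_, ?_⟩
    · rw [MvPolynomial.aeval_C]
      simp only [algebraMap_int_eq, eq_intCast, Int.cast_natCast]
      exact_mod_cast q.den_ne_zero
    · rw [MvPolynomial.aeval_C, MvPolynomial.aeval_C]
      simp only [algebraMap_int_eq, eq_intCast, Int.cast_natCast, eq_ratCast,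
        Complex.ofReal_intCast, Complex.ofReal_natCast]
      exact Rat.cast_def q
  | add x y _ _ hx hy =>
    obtain ⟨A, B, hB, e⟩ := hx
    obtain ⟨A', B', hB', e'⟩ := hy
    refine ⟨A * B' + A' * B, B * B', ?_, ?_⟩
    · rw [map_mul]; exact mul_ne_zero hB hB'
    · have h1 : ((MvPolynomial.aeval w B : ℝ) : ℂ) ≠ 0 := by exact_mod_cast hB
      have h2 : ((MvPolynomial.aeval w B' : ℝ) : ℂ) ≠ 0 := by exact_mod_cast hB'
      rw [e, e', map_add, map_mul, map_mul, map_mul]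
      push_cast
      field_simp
  | inv x _ hx =>
    obtain ⟨A, B, hB, e⟩ := hx
    by_cases hA : (MvPolynomial.aeval w A : ℝ) = 0
    · refine ⟨0, 1, ?_, ?_⟩
      · rw [map_one]; exact one_ne_zero
      · rw [e, hA, map_zero, map_one]
        simp
    · refine ⟨B, A, hA, ?_⟩
      rw [e, inv_div]
  | mul x y _ _ hx hy =>
    obtain ⟨A, B, hB, e⟩ := hx
    obtain ⟨A', B', hB', e'⟩ := hy
    refine ⟨A * A', B * B', ?_, ?_⟩
    · rw [map_mul]; exact mul_ne_zero hB hB'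
    · rw [e, e', map_mul, map_mul]
      push_cast
      rw [div_mul_div_comm]

private theorem gcls_S {m : ℕ} (w : Fin m → ℝ) (s : ℂ) (hs : s ^ 2 ∈ gQ w) (x : ℂ)
    (hx : x ∈ gQs w s) : ∃ a ∈ gQ w, ∃ b ∈ gQ w, x = a + b * s := by
  unfold gQs at hx
  induction hx using IntermediateField.adjoin_induction with
  | mem x hx =>
    rcases hx with hx | hx
    · refine ⟨x, ?_, 0, (gQ w).zero_mem, by ring⟩
      exact IntermediateField.subset_adjoin ℚ _ hx
    · refine ⟨0, (gQ w).zero_mem, 1, (gQ w).one_mem, ?_⟩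
      rw [Set.mem_singleton_iff.mp hx]
      ring
  | algebraMap q => exact ⟨_, (gQ w).algebraMap_mem q, 0, (gQ w).zero_mem, by ring⟩
  | add x y _ _ hx hy =>
    obtain ⟨a, ha, b, hb, e⟩ := hx
    obtain ⟨a', ha', b', hb', e'⟩ := hy
    exact ⟨a + a', (gQ w).add_mem ha ha', b + b', (gQ w).add_mem hb hb', by rw [e, e']; ring⟩
  | inv x _ hx =>
    obtain ⟨a, ha, b, hb, e⟩ := hx
    by_cases h : a - b * s = 0
    · refine ⟨(2 * a)⁻¹, (gQ w).inv_mem ((gQ w).mul_mem ((gQ w).natCast_mem 2) ha), 0,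
        (gQ w).zero_mem, ?_⟩
      rw [e, show a + b * s = 2 * a by linear_combination -h]
      ring
    · by_cases h0 : x = 0
      · exact ⟨0, (gQ w).zero_mem, 0, (gQ w).zero_mem, by rw [h0]; simp⟩
      · have hN : a ^ 2 - b ^ 2 * s ^ 2 ∈ gQ w :=
          (gQ w).sub_mem ((gQ w).pow_mem ha 2) ((gQ w).mul_mem ((gQ w).pow_mem hb 2) hs)
        have hN0 : a ^ 2 - b ^ 2 * s ^ 2 ≠ 0 := by
          rw [show a ^ 2 - b ^ 2 * s ^ 2 = (a + b * s) * (a - b * s) by ring]
          exact mul_ne_zero (by rw [← e]; exact h0) h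
        refine ⟨a * (a ^ 2 - b ^ 2 * s ^ 2)⁻¹, (gQ w).mul_mem ha ((gQ w).inv_mem hN),
          -b * (a ^ 2 - b ^ 2 * s ^ 2)⁻¹, (gQ w).mul_mem ((gQ w).neg_mem hb)
            ((gQ w).inv_mem hN), ?_⟩
        have hx0 : a + b * s ≠ 0 := by rw [← e]; exact h0
        rw [e]
        field_simp
        ring
  | mul x y _ _ hx hy =>
    obtain ⟨a, ha, b, hb, e⟩ := hx
    obtain ⟨a', ha', b', hb', e'⟩ := hy
    refine ⟨a * a' + b * b' * s ^ 2, (gQ w).add_mem ((gQ w).mul_mem ha ha')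
      ((gQ w).mul_mem ((gQ w).mul_mem hb hb') hs), a * b' + a' * b,
      (gQ w).add_mem ((gQ w).mul_mem ha hb') ((gQ w).mul_mem ha' hb), ?_⟩
    rw [e, e']
    ring

private theorem gcls_im {m : ℕ} (w : Fin m → ℝ) (x : ℂ) (hx : x ∈ gQ w) : x.im = 0 := by
  obtain ⟨A, B, _, e⟩ := gcls_Q w x hx
  rw [e, ← Complex.ofReal_div, Complex.ofReal_im]

theorem gcls {m : ℕ} (w : Fin m → ℝ) (s : ℂ) (hs : s ^ 2 ∈ gQ w) :
    ∃ δ : MvPolynomial (Fin m) ℤ, ∀ z : ℂ, 0 < z.im → z ∈ gQs w s →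
      ∃ P Q R : MvPolynomial (Fin m) ℤ, RGood ⟨δ, P, Q, R⟩ (fun l => (w l : ℂ)) ∧
        rz ⟨δ, P, Q, R⟩ (fun l => (w l : ℂ)) = z := by
  by_cases hsi : s.im = 0
  · refine ⟨0, fun z hz hzs => ?_⟩
    exfalso
    obtain ⟨a, ha, b, hb, e⟩ := gcls_S w s hs z hzs
    rw [e, Complex.add_im, Complex.mul_im, gcls_im w a ha, gcls_im w b hb, hsi] at hz
    simp at hz
  · obtain ⟨A, B, hB, e⟩ := gcls_Q w _ hs
    have hBc : ((MvPolynomial.aeval w B : ℝ) : ℂ) ≠ 0 := by exact_mod_cast hB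
    -- the square of `s` is a negative real number
    have him := congrArg Complex.im e
    have hre := congrArg Complex.re e
    rw [← Complex.ofReal_div, Complex.ofReal_im, pow_two, Complex.mul_im] at him
    rw [← Complex.ofReal_div, Complex.ofReal_re, pow_two, Complex.mul_re] at hre
    have hsr : s.re = 0 := by
      have h1 : 2 * (s.re * s.im) = 0 := by linarith [mul_comm s.im s.re]
      rcases mul_eq_zero.mp (mul_eq_zero.mp h1 |>.resolve_left two_ne_zero) with h | h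
      · exact h
      · exact absurd h hsi
    rw [hsr] at hre
    have hA : MvPolynomial.aeval w A = -(s.im ^ 2) * MvPolynomial.aeval w B := by
      field_simp at hre
      linarith
    have hδv : MvPolynomial.aeval w (-(A * B)) = (s.im * MvPolynomial.aeval w B) ^ 2 := by
      rw [map_neg, map_mul, hA]
      ring
    have hδ : 0 < MvPolynomial.aeval w (-(A * B)) := by
      rw [hδv]
      have : s.im * MvPolynomial.aeval w B ≠ 0 := mul_ne_zero hsi hB
      positivity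
    have hsq : Real.sqrt (MvPolynomial.aeval w (-(A * B))) = |s.im * MvPolynomial.aeval w B| := by
      rw [hδv, Real.sqrt_sq_eq_abs]
    have hss : s = (s.im : ℂ) * Complex.I := by
      apply Complex.ext
      · simp [hsr]
      · simp
    -- the sign
    obtain ⟨ε, hε⟩ : ∃ ε : ℤ, s.im * MvPolynomial.aeval w B =
        (ε : ℝ) * |s.im * MvPolynomial.aeval w B| := by
      rcases abs_cases (s.im * MvPolynomial.aeval w B) with h | h
      · exact ⟨1, by rw [h.1]; simp⟩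
      · exact ⟨-1, by rw [h.1]; simp⟩
    have hεs : s = (ε : ℂ) * ((|s.im * MvPolynomial.aeval w B| : ℝ) : ℂ) * Complex.I /
        ((MvPolynomial.aeval w B : ℝ) : ℂ) := by
      rw [eq_div_iff hBc]
      have h1 : ((s.im : ℝ) : ℂ) * ((MvPolynomial.aeval w B : ℝ) : ℂ) =
          (ε : ℂ) * ((|s.im * MvPolynomial.aeval w B| : ℝ) : ℂ) := by exact_mod_cast hε
      calc s * ((MvPolynomial.aeval w B : ℝ) : ℂ)
          = ((s.im : ℝ) : ℂ) * Complex.I * ((MvPolynomial.aeval w B : ℝ) : ℂ) := by rw [← hss]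
        _ = (((s.im : ℝ) : ℂ) * ((MvPolynomial.aeval w B : ℝ) : ℂ)) * Complex.I := by ring
        _ = _ := by rw [h1]
    refine ⟨-(A * B), fun z hz hzs => ?_⟩
    obtain ⟨a, ha, b, hb, e'⟩ := gcls_S w s hs z hzs
    obtain ⟨a₁, a₂, ha₂, ea⟩ := gcls_Q w a ha
    obtain ⟨b₁, b₂, hb₂, eb⟩ := gcls_Q w b hb
    have ha₂c : ((MvPolynomial.aeval w a₂ : ℝ) : ℂ) ≠ 0 := by exact_mod_cast ha₂
    have hb₂c : ((MvPolynomial.aeval w b₂ : ℝ) : ℂ) ≠ 0 := by exact_mod_cast hb₂
    refine ⟨a₁ * b₂ * B, MvPolynomial.C ε * (b₁ * a₂), a₂ * b₂ * B, ?_⟩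
    refine rform w _ _ _ _ z hδ ?_ hz
    rw [hsq, e', ea, eb]
    conv_lhs => rw [hεs]
    have hC : MvPolynomial.aeval w (MvPolynomial.C ε : MvPolynomial (Fin m) ℤ) = (ε : ℝ) := by
      rw [MvPolynomial.aeval_C]
      simp
    rw [map_mul, map_mul, map_mul, map_mul, map_mul, map_mul, hC]
    push_cast
    field_simp

end Pool.Agent.Lib.MP5e
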