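import Pool.Agent.Lib.MP_5e64e7_nt.Ram
import Pool.Agent.Lib.MP_5e64e7_nt.Trans

set_option autoImplicit false

noncomputable section

namespace Pool.Agent.Lib.MP5e

open Polynomial Topology

theorem JDer_disc {w : ℂ} (hw : 0 < w.im) : HasDerivAt (fun u => E4f u ^ 3 - E6f u ^ 2)
    (2 * (Real.pi : ℂ) * Complex.I * (E2f w * (E4f w ^ 3 - E6f w ^ 2))) w := by
  have h4 := E4f_hasDerivAt hw
  have h6 := E6f_hasDerivAt hw
  refine ((h4.fun_pow 3).fun_sub (h6.fun_pow 2)).congr_deriv ?_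
  push_cast
  ring

theorem jf_hasDerivAt {w : ℂ} (hw : 0 < w.im) : HasDerivAt jf
    (-(2 * (Real.pi : ℂ) * Complex.I) * 1728 * (E4f w ^ 2 * E6f w) /
      (E4f w ^ 3 - E6f w ^ 2)) w := by
  have h4 := E4f_hasDerivAt hw
  have hd := disc_ne hw
  have h1 : HasDerivAt (fun u => 1728 * E4f u ^ 3 / (E4f u ^ 3 - E6f u ^ 2)) _ w :=
    ((h4.fun_pow 3).const_mul 1728).fun_div (JDer_disc hw) hd
  have h2 : jf = fun u => 1728 * E4f u ^ 3 / (E4f u ^ 3 - E6f u ^ 2) := rfl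
  rw [h2]
  refine h1.congr_deriv ?_
  field_simp
  push_cast
  ring

theorem djf {w : ℂ} (hw : 0 < w.im) : deriv jf w =
    -(2 * (Real.pi : ℂ) * Complex.I) * 1728 * (E4f w ^ 2 * E6f w) /
      (E4f w ^ 3 - E6f w ^ 2) := (jf_hasDerivAt hw).deriv

theorem JDer_open : IsOpen {u : ℂ | 0 < u.im} := isOpen_lt continuous_const Complex.continuous_im

theorem JDer_second {w : ℂ} (hw : 0 < w.im) : HasDerivAt
    (fun u => -(2 * (Real.pi : ℂ) * Complex.I) * 1728 * (E4f u ^ 2 * E6f u) /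
      (E4f u ^ 3 - E6f u ^ 2))
    (4 * (Real.pi : ℂ) ^ 2 * 1728 * (E2f w * E4f w ^ 2 * E6f w / 6 - 2 / 3 * E4f w * E6f w ^ 2 -
      1 / 2 * E4f w ^ 4) / (E4f w ^ 3 - E6f w ^ 2)) w := by
  have h4 := E4f_hasDerivAt hw
  have h6 := E6f_hasDerivAt hw
  have hd := disc_ne hw
  have h1 := (((h4.fun_pow 2).fun_mul h6).const_mul
    (-(2 * (Real.pi : ℂ) * Complex.I) * 1728)).fun_div (JDer_disc hw) hd
  refine h1.congr_deriv ?_
  have hI : Complex.I ^ 2 = -1 := Complex.I_sq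
  rw [div_eq_div_iff (pow_ne_zero 2 hd) hd]
  push_cast
  linear_combination (-1728 * 4 * (Real.pi : ℂ) ^ 2 * (E2f w * E4f w ^ 2 * E6f w / 6 -
    2 / 3 * E4f w * E6f w ^ 2 - 1 / 2 * E4f w ^ 4) * (E4f w ^ 3 - E6f w ^ 2) ^ 2) * hI

theorem ddjf {w : ℂ} (hw : 0 < w.im) : deriv (deriv jf) w =
    4 * (Real.pi : ℂ) ^ 2 * 1728 * (E2f w * E4f w ^ 2 * E6f w / 6 - 2 / 3 * E4f w * E6f w ^ 2 -
      1 / 2 * E4f w ^ 4) / (E4f w ^ 3 - E6f w ^ 2) := by
  have h1 : deriv jf =ᶠ[𝓝 w] fun u => -(2 * (Real.pi : ℂ) * Complex.I) * 1728 *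
      (E4f u ^ 2 * E6f u) / (E4f u ^ 3 - E6f u ^ 2) := by
    filter_upwards [JDer_open.mem_nhds hw] with u hu
    exact djf hu
  rw [h1.deriv_eq]
  exact (JDer_second hw).deriv

theorem jf_analyticAt {w : ℂ} (hw : 0 < w.im) : AnalyticAt ℂ jf w := by
  have h1 : DifferentiableOn ℂ jf {u : ℂ | 0 < u.im} := fun u hu =>
    (jf_hasDerivAt hu).differentiableAt.differentiableWithinAt
  exact h1.analyticAt (JDer_open.mem_nhds hw)

theorem J4_analyticAt {w : ℂ} (hw : 0 < w.im) (m : Fin 4) : AnalyticAt ℂ (fun u => J4 u m) w := by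
  have h := jf_analyticAt hw
  fin_cases m
  · exact analyticAt_id
  · exact h
  · exact h.deriv
  · exact h.deriv.deriv

end Pool.Agent.Lib.MP5e
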