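import Pool.Agent.Lib.MP_5e64e7_nt.RDefs
import Pool.Agent.Lib.MP_5e64e7_nt.JDer

set_option autoImplicit false

/-!
# R.ANA : analyticity (about 130 lines)

`rev P` is continuous and analytic everywhere (induction on `P`, or `AnalyticOnNhd.aeval_mvPolynomial`-like lemmas;
coordinates: `ContinuousLinearMap.proj`). If `0 < Re d(x)` then `d(x)` is in the slit plane, `rs f` is analytic at `x`
(`AnalyticAt.cpow` with a constant exponent, or `AnalyticAt.cpow_const`), `rs f x ≠ 0`, `rs f x ^ 2 = rev f.d x`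
(`Complex.cpow_nat_inv_pow`-like; `Complex.cpow_add`). `0 < Im (rz f x)` implies `rev f.R x ≠ 0` (division by `0` is `0`).
At a real point `w` with `RGood`: `d(w)` is a positive real number, `rs f w = √(d(w))` is real, so with the real number
`Y = Q(w) √(d(w))/R(w)` we get `rz f w = P(w)/R(w) + i Y`, `Im = Y`, `ry f w = Y`, in particular `ry f w ≠ 0`.
`rfam_analytic`: `jf, deriv jf, deriv (deriv jf)` are analytic at points of the upper half plane (`J4_analyticAt` with the
indices `1, 2, 3`), compose with `rz (f k)` (`AnalyticAt.comp`), quotients by nonzero functions.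
-/

noncomputable section

namespace Pool.Agent.Lib.MP5e

open Polynomial Topology

private theorem RAna_coord {m : ℕ} (l : Fin m) (x : Fin m → ℂ) :
    AnalyticAt ℂ (fun u : Fin m → ℂ => u l) x :=
  (ContinuousLinearMap.proj (R := ℂ) (φ := fun _ : Fin m => ℂ) l).analyticAt x

theorem rev_analytic {m : ℕ} (P : MvPolynomial (Fin m) ℤ) (x : Fin m → ℂ) :
    AnalyticAt ℂ (rev P) x := by
  induction P using MvPolynomial.induction_on with
  | C a =>
    have h : rev (MvPolynomial.C a : MvPolynomial (Fin m) ℤ) = fun _ => (a : ℂ) := by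
      funext u
      simp [rev]
    rw [h]
    exact analyticAt_const
  | add p q hp hq =>
    have h : rev (p + q) = fun u => rev p u + rev q u := by
      funext u
      simp [rev]
    rw [h]
    exact hp.add hq
  | mul_X p l hp =>
    have h : rev (p * MvPolynomial.X l) = fun u => rev p u * u l := by
      funext u
      simp [rev]
    rw [h]
    exact hp.mul (RAna_coord l x)

theorem rs_sq {m : ℕ} (f : RF m) (x : Fin m → ℂ) : rs f x ^ 2 = rev f.d x := by
  unfold rs
  rw [← Complex.cpow_nat_mul]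
  have h : ((2 : ℕ) : ℂ) * (1 / 2) = 1 := by norm_num
  rw [h, Complex.cpow_one]

theorem rs_ne {m : ℕ} (f : RF m) (x : Fin m → ℂ) (h : RGood f x) : rs f x ≠ 0 := by
  intro h0
  have h1 := rs_sq f x
  rw [h0] at h1
  have h2 := h.1
  rw [← h1] at h2
  simp at h2

theorem rR_ne {m : ℕ} (f : RF m) (x : Fin m → ℂ) (h : RGood f x) : rev f.R x ≠ 0 := by
  intro h0
  have h2 := h.2
  unfold rz at h2
  rw [h0, div_zero] at h2
  simp at h2

theorem rs_analytic {m : ℕ} (f : RF m) (x : Fin m → ℂ) (h : RGood f x) :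
    AnalyticAt ℂ (rs f) x := by
  exact (rev_analytic f.d x).cpow analyticAt_const (Or.inl h.1)

theorem rz_analytic {m : ℕ} (f : RF m) (x : Fin m → ℂ) (h : RGood f x) :
    AnalyticAt ℂ (rz f) x := by
  exact ((rev_analytic f.P x).add ((rev_analytic f.Q x).mul
    (analyticAt_const.mul (rs_analytic f x h)))).div (rev_analytic f.R x) (rR_ne f x h)

theorem rgood_nhds {m : ℕ} (f : RF m) (x : Fin m → ℂ) (h : RGood f x) :
    ∀ᶠ u in 𝓝 x, RGood f u := by
  have h1 : ContinuousAt (fun u => (rev f.d u).re) x :=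
    Complex.continuous_re.continuousAt.comp (rev_analytic f.d x).continuousAt
  have h2 : ContinuousAt (fun u => (rz f u).im) x :=
    Complex.continuous_im.continuousAt.comp (rz_analytic f x h).continuousAt
  filter_upwards [h1.eventually (lt_mem_nhds h.1), h2.eventually (lt_mem_nhds h.2)] with u a b
  exact ⟨a, b⟩

theorem rj_analytic {m : ℕ} (f : RF m) (x : Fin m → ℂ) (h : RGood f x) :
    AnalyticAt ℂ (fun u => jf (rz f u)) x := by
  exact (jf_analyticAt h.2).comp (rz_analytic f x h)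

private theorem RAna_real {m : ℕ} (P : MvPolynomial (Fin m) ℤ) (w : Fin m → ℝ) :
    ∃ r : ℝ, rev P (fun l => (w l : ℂ)) = (r : ℂ) := by
  refine ⟨MvPolynomial.aeval w P, ?_⟩
  unfold rev
  have h := MvPolynomial.map_aeval w (algebraMap ℝ ℂ) P
  have h2 : (algebraMap ℝ ℂ) (MvPolynomial.aeval w P) = ((MvPolynomial.aeval w P : ℝ) : ℂ) := rfl
  rw [← h2, h, MvPolynomial.aeval_def]
  congr 1

theorem ry_real {m : ℕ} (f : RF m) (w : Fin m → ℝ) (h : RGood f (fun l => (w l : ℂ))) :
    ry f (fun l => (w l : ℂ)) = ((rz f (fun l => (w l : ℂ))).im : ℂ) := by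
  obtain ⟨d, hd⟩ := RAna_real f.d w
  obtain ⟨P, hP⟩ := RAna_real f.P w
  obtain ⟨Q, hQ⟩ := RAna_real f.Q w
  obtain ⟨R, hR⟩ := RAna_real f.R w
  have hd0 : 0 < d := by
    have := h.1
    rw [hd] at this
    simpa using this
  have hs : rs f (fun l => (w l : ℂ)) = ((d ^ ((1 : ℝ) / 2) : ℝ) : ℂ) := by
    unfold rs
    rw [hd, Complex.ofReal_cpow hd0.le]
    norm_num
  unfold ry rz
  rw [hP, hQ, hR, hs]
  have e : ((P : ℂ) + (Q : ℂ) * (Complex.I * ((d ^ ((1 : ℝ) / 2) : ℝ) : ℂ))) / (R : ℂ) =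
      ((P / R : ℝ) : ℂ) + ((Q * d ^ ((1 : ℝ) / 2) / R : ℝ) : ℂ) * Complex.I := by
    push_cast
    ring
  rw [e]
  simp

theorem rfam_analytic {m n : ℕ} (f : Fin n → RF m) (rep : Fin n → Fin n) (w : Fin m → ℝ)
    (h : ∀ k, RGood (f k) (fun l => (w l : ℂ)))
    (hj : ∀ k, deriv jf (rz (f k) (fun l => (w l : ℂ))) ≠ 0)
    (i : Fin m ⊕ ((Fin n × Fin 2) ⊕ {k : Fin n // rep k ≠ k})) :
    AnalyticAt ℂ (fun x => rfam f rep x i) (fun l => (w l : ℂ)) := by
  have hj1 : ∀ k, AnalyticAt ℂ (fun x => deriv jf (rz (f k) x)) (fun l => (w l : ℂ)) := fun k =>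
    AnalyticAt.comp (g := deriv jf) (jf_analyticAt (h k).2).deriv (rz_analytic (f k) _ (h k))
  have hj2 : ∀ k, AnalyticAt ℂ (fun x => deriv (deriv jf) (rz (f k) x)) (fun l => (w l : ℂ)) :=
    fun k => AnalyticAt.comp (g := deriv (deriv jf)) (jf_analyticAt (h k).2).deriv.deriv
      (rz_analytic (f k) _ (h k))
  have hy : ∀ k, AnalyticAt ℂ (fun x => ry (f k) x) (fun l => (w l : ℂ)) := fun k =>
    ((rev_analytic (f k).Q _).mul (rs_analytic (f k) _ (h k))).div (rev_analytic (f k).R _)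
      (rR_ne (f k) _ (h k))
  have hy0 : ∀ k, ry (f k) (fun l => (w l : ℂ)) ≠ 0 := by
    intro k
    rw [ry_real (f k) w (h k)]
    exact_mod_cast (h k).2.ne'
  rcases i with l | ⟨⟨k, e⟩ | k⟩
  · exact RAna_coord l _
  · fin_cases e
    · exact rj_analytic (f k) _ (h k)
    · show AnalyticAt ℂ (fun x => rkap (rz (f k) x) (ry (f k) x)) _
      unfold rkap
      exact ((hj2 k).sub ((analyticAt_const.div (hy k) (hy0 k)).mul (hj1 k))).div
        ((hj1 k).pow 2) (pow_ne_zero 2 (hj k))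
  · exact (hj1 k.1).div (hj1 (rep k.1)) (hj (rep k.1))

end Pool.Agent.Lib.MP5e
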