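import Pool.Agent.Lib.MP_5e64e7_nt.GDefs
import Pool.Agent.Lib.MP_5e64e7_nt.RAna

set_option autoImplicit false

/-!
# G.CON : constant points (about 200 lines)

`gconst`: let `p ≠ 0` be an integer polynomial with `p(rz f w) = 0`, of degree `≤ N`. There are integer polynomials `A, B` in
`m` variables with `p(rz f x) * (rev f.R x)^N = rev A x + rev B x * (I * rs f x)` for all `x` with `rev f.R x ≠ 0`
(for `p = X^i`, `i ≤ N`, by induction on `i`: `rz f x * rev f.R x = rev f.P x + rev f.Q x * (I * rs f x)`,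
`(I * rs f x)² = - rev f.d x` (`rs_sq`); linear combinations). At the real point `w` (`RGood f w`: `rev f.d w > 0`) the number
`rs f w` is a nonzero real number (`rs` of a positive real number, see `rform`, `ry_real`), `rev A w, rev B w` are real, so
`rev A w = 0` and `rev B w = 0`, so `A = B = 0` by the algebraic independence of the `w_l` (integer coefficients: map to `ℚ`).
So `p(rz f x) = 0` for all `x` near `w` (`RGood`, `rgood_nhds`, `rR_ne`). `rz f` is continuous near `w` with values in the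
finite set of roots of `p`, so it is constant near `w`: there is a neighbourhood of `rz f w` which contains no other root.

`gconD`: the set of `x` for which all `RGood (f k) x` and `rz (f k) x = rz (f k) w` hold is a neighbourhood of `w`; it
contains a point `x` with rational coordinates (the rationals are dense in `ℝ`, `w` is real). At `x` the numbers
`rev P x` (`P` integer polynomials) are rational, `rev d x = q > 0` rational (`RGood`: real part positive), where `d` is the
common `d` (if `ι` is empty take `D = 1`). Write `q = a/b`, `D = a b` (`≥ 1`): `rs (f k) x = √q = √D/b`, so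
`I * rs (f k) x = qom D/b` and `rz (f k) x = (P + Q qom D/b)/R = u + v qom D` with `u, v` rational; `v > 0` because
`Im (rz (f k) x) > 0` and `Im qom D > 0` (`qom_im`, `QTpt.lean`, or directly).

`gquad_om`: `z = u + v ω`, `ω² = -D`: `z² - 2 u z + (u² + v² D) = 0`.
`gnonc`: `gconD` with `ι = Unit` and `gquad_om`. `gtrans`: `gconst` and `gnonc`.
-/

noncomputable section

namespace Pool.Agent.Lib.MP5e

open Polynomial Topology

private theorem gcreal {m : ℕ} (P : MvPolynomial (Fin m) ℤ) (w : Fin m → ℝ) :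
    ∃ r : ℝ, rev P (fun l => (w l : ℂ)) = (r : ℂ) := by
  refine ⟨MvPolynomial.aeval w P, ?_⟩
  unfold rev
  have h := MvPolynomial.map_aeval w (algebraMap ℝ ℂ) P
  have h2 : (algebraMap ℝ ℂ) (MvPolynomial.aeval w P) = ((MvPolynomial.aeval w P : ℝ) : ℂ) := rfl
  rw [← h2, h, MvPolynomial.aeval_def]
  congr 1

private theorem gcrat {m : ℕ} (P : MvPolynomial (Fin m) ℤ) (q : Fin m → ℚ) :
    rev P (fun l => (q l : ℂ)) = ((MvPolynomial.aeval q P : ℚ) : ℂ) := by
  unfold rev
  have h := MvPolynomial.map_aeval q (algebraMap ℚ ℂ) P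
  have h2 : (algebraMap ℚ ℂ) (MvPolynomial.aeval q P) = ((MvPolynomial.aeval q P : ℚ) : ℂ) := by
    simp
  rw [← h2, h, MvPolynomial.aeval_def]
  congr 1

private theorem gcrs {m : ℕ} (f : RF m) (x : Fin m → ℂ) (d : ℝ) (hx : rev f.d x = (d : ℂ))
    (hd : 0 < d) : rs f x = ((Real.sqrt d : ℝ) : ℂ) := by
  unfold rs
  rw [hx, Real.sqrt_eq_rpow, Complex.ofReal_cpow hd.le]
  norm_num

/-- functions of the form `A + B i s` -/
private def GForm {m : ℕ} (f : RF m) (g : (Fin m → ℂ) → ℂ) : Prop :=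
  ∃ A B : MvPolynomial (Fin m) ℤ, ∀ x, g x = rev A x + rev B x * (Complex.I * rs f x)

private theorem gform_rev {m : ℕ} (f : RF m) (P : MvPolynomial (Fin m) ℤ) : GForm f (rev P) :=
  ⟨P, 0, fun x => by simp [rev]⟩

private theorem gform_add {m : ℕ} {f : RF m} {g h : (Fin m → ℂ) → ℂ} (hg : GForm f g)
    (hh : GForm f h) : GForm f (fun x => g x + h x) := by
  obtain ⟨A, B, h1⟩ := hg
  obtain ⟨A', B', h2⟩ := hh
  refine ⟨A + A', B + B', fun x => ?_⟩
  beta_reduce
  rw [h1, h2]
  simp only [rev, map_add]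
  ring

private theorem gform_mul {m : ℕ} {f : RF m} {g h : (Fin m → ℂ) → ℂ} (hg : GForm f g)
    (hh : GForm f h) : GForm f (fun x => g x * h x) := by
  obtain ⟨A, B, h1⟩ := hg
  obtain ⟨A', B', h2⟩ := hh
  refine ⟨A * A' - B * B' * f.d, A * B' + A' * B, fun x => ?_⟩
  beta_reduce
  rw [h1, h2]
  have h3 : (Complex.I * rs f x) * (Complex.I * rs f x) = -rev f.d x := by
    rw [← rs_sq f x]
    linear_combination (rs f x) ^ 2 * Complex.I_mul_I
  have h4 : rev (A * A' - B * B' * f.d) x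
      = rev A x * rev A' x - rev B x * rev B' x * rev f.d x := by
    simp only [rev, map_sub, map_mul]
  have h5 : rev (A * B' + A' * B) x = rev A x * rev B' x + rev A' x * rev B x := by
    simp only [rev, map_add, map_mul]
  rw [h4, h5]
  linear_combination (rev B x * rev B' x) * h3

private theorem gform_pow {m : ℕ} {f : RF m} {g : (Fin m → ℂ) → ℂ} (hg : GForm f g) (k : ℕ) :
    GForm f (fun x => g x ^ k) := by
  induction k with
  | zero =>
    refine ⟨1, 0, fun x => ?_⟩
    simp [rev]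
  | succ k ih =>
    have h := gform_mul ih hg
    simpa only [pow_succ] using h

private theorem gform_sum {m : ℕ} {f : RF m} (s : Finset ℕ) (g : ℕ → (Fin m → ℂ) → ℂ)
    (hg : ∀ i ∈ s, GForm f (g i)) : GForm f (fun x => ∑ i ∈ s, g i x) := by
  classical
  induction s using Finset.induction_on with
  | empty => exact ⟨0, 0, fun x => by simp [rev]⟩
  | insert a s ha ih =>
    have h := gform_add (hg a (Finset.mem_insert_self _ _))
      (ih fun i hi => hg i (Finset.mem_insert_of_mem hi))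
    simpa only [Finset.sum_insert ha] using h

private theorem gform_poly {m : ℕ} (f : RF m) (p : ℤ[X]) : GForm f (fun x =>
    ∑ i ∈ Finset.range (p.natDegree + 1), rev (MvPolynomial.C (p.coeff i)) x *
      ((rev f.P x + rev f.Q x * (Complex.I * rs f x)) ^ i * rev f.R x ^ (p.natDegree - i))) := by
  refine gform_sum _ _ fun i _ => ?_
  exact gform_mul (gform_rev f _) (gform_mul (gform_pow ⟨f.P, f.Q, fun _ => rfl⟩ i)
    (gform_pow (gform_rev f f.R) _))

private theorem gform_eval {m : ℕ} (f : RF m) (p : ℤ[X]) (x : Fin m → ℂ) (hx : rev f.R x ≠ 0) :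
    ∑ i ∈ Finset.range (p.natDegree + 1), rev (MvPolynomial.C (p.coeff i)) x *
      ((rev f.P x + rev f.Q x * (Complex.I * rs f x)) ^ i * rev f.R x ^ (p.natDegree - i))
    = aeval (rz f x) p * rev f.R x ^ p.natDegree := by
  rw [aeval_eq_sum_range, Finset.sum_mul]
  refine Finset.sum_congr rfl fun i hi => ?_
  have h1 : i ≤ p.natDegree := by
    have := Finset.mem_range.1 hi
    omega
  have h2 : rev (MvPolynomial.C (p.coeff i)) x = ((p.coeff i : ℤ) : ℂ) := by
    simp [rev]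
  have h3 : rev f.P x + rev f.Q x * (Complex.I * rs f x) = rz f x * rev f.R x := by
    unfold rz
    rw [div_mul_cancel₀ _ hx]
  rw [h2, h3, mul_pow, mul_assoc, ← pow_add, Nat.add_sub_cancel' h1, zsmul_eq_mul, mul_assoc]

theorem gconst {m : ℕ} (f : RF m) (w : Fin m → ℝ)
    (hw : AlgebraicIndependent ℚ (fun l => (w l : ℂ))) (h : RGood f (fun l => (w l : ℂ)))
    (ha : IsAlgebraic ℚ (rz f (fun l => (w l : ℂ)))) :
    ∀ᶠ x in 𝓝 (fun l => (w l : ℂ)), rz f x = rz f (fun l => (w l : ℂ)) := by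
  obtain ⟨p, hp0, hp⟩ := (IsFractionRing.isAlgebraic_iff ℤ ℚ ℂ).2 ha
  obtain ⟨A, B, hAB⟩ := gform_poly f p
  beta_reduce at hAB
  set W : Fin m → ℂ := fun l => (w l : ℂ) with hW
  have hR : rev f.R W ≠ 0 := rR_ne f W h
  have h1 : rev A W + rev B W * (Complex.I * rs f W) = 0 := by
    rw [← hAB W, gform_eval f p W hR, hp, zero_mul]
  obtain ⟨a, ha'⟩ := gcreal A w
  obtain ⟨b, hb'⟩ := gcreal B w
  obtain ⟨d, hd'⟩ := gcreal f.d w
  have hd0 : 0 < d := by
    have := h.1
    rw [hW, hd'] at this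
    simpa using this
  have hs := gcrs f W d hd' hd0
  rw [hW] at h1
  rw [hW] at hs
  rw [ha', hb', hs] at h1
  have hsq : 0 < Real.sqrt d := Real.sqrt_pos.2 hd0
  have hre := congrArg Complex.re h1
  have him := congrArg Complex.im h1
  simp at hre him
  have ha0 : a = 0 := hre
  have hb0 : b = 0 := by
    rcases him with h2 | h2
    · exact h2
    · exact absurd h2 hsq.ne'
  have hind : AlgebraicIndependent ℤ (fun l => (w l : ℂ)) :=
    hw.restrictScalars (RingHom.injective_int (algebraMap ℤ ℚ))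
  have hzero : ∀ P : MvPolynomial (Fin m) ℤ, rev P (fun l => (w l : ℂ)) = 0 → P = 0 := by
    intro P hP
    exact (algebraicIndependent_iff.1 hind) P hP
  have hA : A = 0 := hzero A (by rw [ha', ha0]; simp)
  have hB : B = 0 := hzero B (by rw [hb', hb0]; simp)
  have hroot : ∀ x, rev f.R x ≠ 0 → aeval (rz f x) p = 0 := by
    intro x hx
    have h2 := gform_eval f p x hx
    rw [hAB x, hA, hB] at h2
    have h3 : aeval (rz f x) p * rev f.R x ^ p.natDegree = 0 := by
      rw [← h2]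
      simp [rev]
    exact (mul_eq_zero.1 h3).resolve_right (pow_ne_zero _ hx)
  have hfin : {z : ℂ | aeval z p = 0}.Finite := by
    have h2 := (p.map (algebraMap ℤ ℂ)).roots.toFinset.finite_toSet
    refine h2.subset fun z hz => ?_
    have hne : p.map (algebraMap ℤ ℂ) ≠ 0 := by
      rw [Ne, Polynomial.map_eq_zero_iff (RingHom.injective_int (algebraMap ℤ ℂ))]
      exact hp0
    simp only [Finset.mem_coe, Multiset.mem_toFinset]
    rw [mem_roots hne, IsRoot.def, eval_map_algebraMap]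
    exact hz
  have hopen : ∀ᶠ z in 𝓝 (rz f W), z ∉ ({z : ℂ | aeval z p = 0} \ {rz f W}) := by
    have h2 : IsClosed ({z : ℂ | aeval z p = 0} \ {rz f W}) := (hfin.subset Set.sdiff_subset).isClosed
    exact h2.isOpen_compl.mem_nhds (by simp)
  have hcont : ContinuousAt (rz f) W := (rz_analytic f W h).continuousAt
  filter_upwards [hcont.eventually hopen, rgood_nhds f W h] with x h3 h4
  by_contra h5
  exact h3 ⟨hroot x (rR_ne f x h4), h5⟩

private theorem gcdense {m : ℕ} (w : Fin m → ℝ) (U : Set (Fin m → ℂ))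
    (hU : U ∈ 𝓝 (fun l => (w l : ℂ))) : ∃ q : Fin m → ℚ, (fun l => (q l : ℂ)) ∈ U := by
  have hc : Continuous (fun (u : Fin m → ℝ) (l : Fin m) => (u l : ℂ)) := by fun_prop
  have h1 : (fun (u : Fin m → ℝ) (l : Fin m) => (u l : ℂ)) ⁻¹' U ∈ 𝓝 w :=
    hc.continuousAt.preimage_mem_nhds hU
  have h2 : DenseRange (Pi.map fun (_ : Fin m) (q : ℚ) => (q : ℝ)) :=
    DenseRange.piMap fun _ => Rat.denseRange_cast
  obtain ⟨y, hy, ⟨q, hq⟩⟩ := mem_closure_iff_nhds.1 (h2 w) _ h1
  refine ⟨q, ?_⟩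
  rw [← hq] at hy
  have h3 : (fun l => (((Pi.map (fun (_ : Fin m) (q : ℚ) => (q : ℝ)) q) l : ℝ) : ℂ))
      = (fun l => (q l : ℂ)) := by
    funext l
    simp [Pi.map]
  rw [← h3]
  exact hy

theorem gconD {m : ℕ} {ι : Type} [Fintype ι] (f : ι → RF m) (w : Fin m → ℝ)
    (h : ∀ k, RGood (f k) (fun l => (w l : ℂ))) (hd : ∀ k l, (f k).d = (f l).d)
    (hc : ∀ k, ∀ᶠ x in 𝓝 (fun l => (w l : ℂ)), rz (f k) x = rz (f k) (fun l => (w l : ℂ))) :
    ∃ D : ℕ, 1 ≤ D ∧ ∀ k, ∃ u v : ℚ, 0 < v ∧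
      rz (f k) (fun l => (w l : ℂ)) = (u : ℂ) + (v : ℂ) * qom D := by
  rcases isEmpty_or_nonempty ι with hι | ⟨⟨k0⟩⟩
  · exact ⟨1, le_rfl, fun k => (hι.false k).elim⟩
  have hU : ∀ᶠ x in 𝓝 (fun l => (w l : ℂ)), ∀ k, RGood (f k) x ∧
      rz (f k) x = rz (f k) (fun l => (w l : ℂ)) :=
    Filter.eventually_all.2 fun k => (rgood_nhds (f k) _ (h k)).and (hc k)
  obtain ⟨q, hq⟩ := gcdense w _ hU
  set x : Fin m → ℂ := fun l => (q l : ℂ) with hx
  have hq' : ∀ k, RGood (f k) x ∧ rz (f k) x = rz (f k) (fun l => (w l : ℂ)) := hq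
  obtain ⟨r, hr⟩ : ∃ r : ℚ, r = MvPolynomial.aeval q (f k0).d := ⟨_, rfl⟩
  have hrev : ∀ k, rev (f k).d x = ((r : ℝ) : ℂ) := by
    intro k
    rw [hd k k0, hx, gcrat, hr]
    simp
  have hr0 : 0 < r := by
    have h1 := (hq' k0).1.1
    rw [hrev k0, Complex.ofReal_re] at h1
    exact_mod_cast h1
  have hnum : 0 < r.num := Rat.num_pos.2 hr0
  have hden : 0 < r.den := r.den_pos
  refine ⟨r.num.toNat * r.den, ?_, fun k => ?_⟩
  · have h1 : 1 ≤ r.num.toNat := by omega
    exact Nat.mul_pos h1 hden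
  have hD : ((r.num.toNat * r.den : ℕ) : ℝ) = (r : ℝ) * (r.den : ℝ) ^ 2 := by
    have h1 : ((r.num.toNat : ℕ) : ℝ) = (r.num : ℝ) := by
      have h2 : ((r.num.toNat : ℕ) : ℤ) = r.num := Int.toNat_of_nonneg hnum.le
      exact_mod_cast h2
    have h3 : (r : ℝ) * (r.den : ℝ) = (r.num : ℝ) := by
      exact_mod_cast Rat.mul_den_eq_num r
    rw [Nat.cast_mul, h1, ← h3]
    ring
  have hsq : Real.sqrt ((r.num.toNat * r.den : ℕ) : ℝ) = Real.sqrt (r : ℝ) * (r.den : ℝ) := by
    rw [hD, Real.sqrt_mul (by exact_mod_cast hr0.le), Real.sqrt_sq (Nat.cast_nonneg _)]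
  have hs := gcrs (f k) x (r : ℝ) (hrev k) (by exact_mod_cast hr0)
  have hgood := (hq' k).1
  have hden0 : (r.den : ℂ) ≠ 0 := by exact_mod_cast hden.ne'
  have hR : rev (f k).R x ≠ 0 := rR_ne (f k) x hgood
  have hRq : rev (f k).R x = ((MvPolynomial.aeval q (f k).R : ℚ) : ℂ) := gcrat _ q
  have hPq : rev (f k).P x = ((MvPolynomial.aeval q (f k).P : ℚ) : ℂ) := gcrat _ q
  have hQq : rev (f k).Q x = ((MvPolynomial.aeval q (f k).Q : ℚ) : ℂ) := gcrat _ q
  have hform : rz (f k) x = (((MvPolynomial.aeval q (f k).P / MvPolynomial.aeval q (f k).R : ℚ)) : ℂ)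
      + (((MvPolynomial.aeval q (f k).Q / (r.den * MvPolynomial.aeval q (f k).R) : ℚ)) : ℂ)
        * qom (r.num.toNat * r.den) := by
    unfold rz qom
    rw [hs, hsq, hPq, hQq, hRq]
    rw [hRq] at hR
    push_cast
    field_simp
  refine ⟨_, _, ?_, (hq' k).2.symm.trans hform⟩
  have him := hgood.2
  rw [hform] at him
  simp only [Complex.add_im, Complex.ratCast_im, Complex.mul_im, zero_add, Complex.ratCast_re,
    zero_mul, add_zero] at him
  have h5 : (qom (r.num.toNat * r.den)).im = Real.sqrt ((r.num.toNat * r.den : ℕ) : ℝ) := by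
    unfold qom
    simp
  rw [h5] at him
  have h6 : 0 < Real.sqrt ((r.num.toNat * r.den : ℕ) : ℝ) := by
    rw [hsq]
    exact mul_pos (Real.sqrt_pos.2 (by exact_mod_cast hr0)) (by exact_mod_cast hden)
  have h7 := (pos_iff_pos_of_mul_pos him).2 h6
  exact_mod_cast h7

theorem gquad_om (D : ℕ) (u v : ℚ) : GQuad ((u : ℂ) + (v : ℂ) * qom D) := by
  refine ⟨1, -2 * u, u ^ 2 + v ^ 2 * D, one_ne_zero, ?_⟩
  have h : qom D ^ 2 = -(D : ℂ) := by
    unfold qom
    rw [mul_pow, Complex.I_sq, ← Complex.ofReal_pow, Real.sq_sqrt (Nat.cast_nonneg D)]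
    push_cast
    ring
  push_cast
  linear_combination (v : ℂ) ^ 2 * h

theorem gnonc {m : ℕ} (f : RF m) (w : Fin m → ℝ) (h : RGood f (fun l => (w l : ℂ)))
    (hq : ¬ GQuad (rz f (fun l => (w l : ℂ)))) :
    ¬ ∀ᶠ x in 𝓝 (fun l => (w l : ℂ)), rz f x = rz f (fun l => (w l : ℂ)) := by
  intro hc
  obtain ⟨D, -, hD⟩ := gconD (fun _ : Unit => f) w (fun _ => h) (fun _ _ => rfl) (fun _ => hc)
  obtain ⟨u, v, -, huv⟩ := hD ()
  apply hq
  rw [huv]
  exact gquad_om D u v

theorem gtrans {m : ℕ} (f : RF m) (w : Fin m → ℝ)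
    (hw : AlgebraicIndependent ℚ (fun l => (w l : ℂ))) (h : RGood f (fun l => (w l : ℂ)))
    (hq : ¬ GQuad (rz f (fun l => (w l : ℂ)))) :
    Transcendental ℚ (rz f (fun l => (w l : ℂ))) := by
  intro ha
  exact gnonc f w h hq (gconst f w hw h ha)

end Pool.Agent.Lib.MP5e
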