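import Pool.Agent.Lib.MP_5e64e7_nt.RDefs

set_option autoImplicit false

/-!
# MP_5e64e7_nt, fifth theorem (all tuples of a quadratic extension of `ℚ(w)`) : definitions (helper16)

`w = (w₀, …, w_{m-1})` real, hierarchically super-approximable by rational numbers (`QHier`). Points
`z_k ∈ ℍ ∩ ℚ(w)(s_{e k})`, `s_i² ∈ ℚ(w)`; CM coordinates and related coordinates are allowed. In the notation of
`RDefs.lean`, `z_k = rz (f k) w`, where `(f k).d` depends on the class `e k` only.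
-/

noncomputable section

namespace Pool.Agent.Lib.MP5e

open Polynomial Topology

/-- `z' = h z` for some `h` in `GL₂⁺(ℚ)` -/
def GRel (z z' : ℂ) : Prop := ∃ p q r s : ℚ, 0 < p * s - q * r ∧
  z' = ((p : ℂ) * z + (q : ℂ)) / ((r : ℂ) * z + (s : ℂ))

/-- a root of a quadratic polynomial over `ℚ` -/
def GQuad (z : ℂ) : Prop := ∃ a b c : ℚ, a ≠ 0 ∧ (a : ℂ) * z ^ 2 + (b : ℂ) * z + (c : ℂ) = 0

/-- the numbers `x_l, j(z_k), κ(z_k)`, and `j'(z_k)/j'(rz (g k) x)` for `k ∈ S` -/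
def gfam {m n : ℕ} (f g : Fin n → RF m) (S : Finset (Fin n)) (x : Fin m → ℂ) :
    Fin m ⊕ ((Fin n × Fin 2) ⊕ {k : Fin n // k ∈ S}) → ℂ :=
  Sum.elim x (Sum.elim
    (fun p => ![jf (rz (f p.1) x), rkap (rz (f p.1) x) (ry (f p.1) x)] p.2)
    (fun k => deriv jf (rz (f k.1) x) / deriv jf (rz (g k.1) x)))

/-- the numbers `x_l, j(z_k), j'(z_k), j''(z_k)` -/
def gall {m n : ℕ} (f : Fin n → RF m) (x : Fin m → ℂ) : Fin m ⊕ (Fin n × Fin 3) → ℂ :=
  Sum.elim x (fun p => J4 (rz (f p.1) x) p.2.succ)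

/-- the bases of the classes: the base of `k ∈ S` is one of the points `k' ∉ S`, or constant near `w` -/
def GBase {m n : ℕ} (f g : Fin n → RF m) (S : Finset (Fin n)) (w : Fin m → ℂ) : Prop :=
  (∀ k, (g k).d = (f k).d) ∧ (∀ k, RGood (g k) w) ∧ (∀ k, deriv jf (rz (g k) w) ≠ 0) ∧
    ∀ k ∈ S, (∃ k', k' ∉ S ∧ g k = f k') ∨ ∀ᶠ x in 𝓝 w, rz (g k) x = rz (g k) w

/-- `f` with the point multiplied by `M` -/
def gmul {m : ℕ} (M : ℕ) (f : RF m) : RF m :=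
  ⟨f.d, (M : MvPolynomial (Fin m) ℤ) * f.P, (M : MvPolynomial (Fin m) ℤ) * f.Q, f.R⟩

/-- the points of `ℍⁿ` satisfying all the special relations of `z` (the set `U` of the frozen statement) -/
def gU {n : ℕ} (z : Fin n → ℂ) : Set (Fin n → ℂ) :=
  {w : Fin n → ℂ | (∀ i, 0 < (w i).im) ∧
    (∀ (i k : Fin n) (a b c e : ℚ), 0 < a * e - b * c →
      z i = ((a : ℂ) * z k + (b : ℂ)) / ((c : ℂ) * z k + (e : ℂ)) →
      w i = ((a : ℂ) * w k + (b : ℂ)) / ((c : ℂ) * w k + (e : ℂ))) ∧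
    (∀ i, (∃ a b c : ℚ, a ≠ 0 ∧
      (a : ℂ) * z i ^ 2 + (b : ℂ) * z i + (c : ℂ) = 0) → w i = z i)}

/-- the graph -/
def ggr {n : ℕ} (w : Fin n → ℂ) : Fin 4 × Fin n → ℂ :=
  fun p => ![w p.2, jf (w p.2), deriv jf (w p.2), deriv (deriv jf) (w p.2)] p.1

/-- the upper half space -/
def gH (n : ℕ) : Set (Fin n → ℂ) := {u | ∀ l, 0 < (u l).im}

/-- the field `ℚ(w)` -/
def gQ {m : ℕ} (w : Fin m → ℝ) : IntermediateField ℚ ℂ :=
  IntermediateField.adjoin ℚ (Set.range (fun l => (w l : ℂ)))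

/-- the field `ℚ(w)(s)` -/
def gQs {m : ℕ} (w : Fin m → ℝ) (s : ℂ) : IntermediateField ℚ ℂ :=
  IntermediateField.adjoin ℚ (Set.range (fun l => (w l : ℂ)) ∪ {s})

end Pool.Agent.Lib.MP5e
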