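import Mathlib

set_option autoImplicit false

/-!
# G.DIMA : Krull dimension and algebraically independent elements (about 100 lines)

A chain of primes of length `d` in the domain `A` gives `d` algebraically independent elements over the field `k ⊆ A`.
By `Order.le_krullDim_iff` there is a chain `P₀ < … < P_d` (`LTSeries (PrimeSpectrum A)`). Prove by induction on `d`, for all
domains `A` (algebras over `k`) with a chain of length `d` of primes: there are `x : Fin d → A`, algebraically independent.
Step: chain `P₀ < P₁ < … < P_{d+1}`. The primes `P₁ < … < P_{d+1}` give a chain of length `d` in `A/P₁`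
(`PrimeSpectrum` of a quotient; or replace the statement by: for a chain starting at `P₀` there are `x : Fin d → A` whose images
in `A ⧸ P₀` are algebraically independent). Let `x̄ : Fin d → A/P₁` be independent, `x : Fin d → A` lifts: independent in `A/P₀`
because they are so in the quotient `A/P₁`. Let `y ∈ P₁ \ P₀`. Then `(x, y)` is independent in `A/P₀`: otherwise there is a nonzero
polynomial relation `∑ c_i(x) y^i = 0` in the domain `A/P₀` (`y ≠ 0`), of minimal degree, so `c₀ ≠ 0` (otherwise divide by
`y`; or: write the polynomial as `Y^a * R` with `R.coeff 0 ≠ 0`); modulo `P₁`: `c₀(x̄) = 0`, contradiction.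
(Useful: `algebraicIndependent_option`/`AlgebraicIndependent.option_iff_transcendental`, `MvPolynomial.finSuccEquiv`,
`Polynomial.exists_eq_pow_rootMultiplicity_mul_and_not_dvd` with root `0`, `Fin.cons`.)
Finally from `A/P₀` to `A` (again lifting).
-/

noncomputable section

namespace Pool.Agent.Lib.MP5e

/-- one step: a nonzero element of a prime modulo which the elements are independent -/
private theorem gdim_step {k A : Type} [Field k] [CommRing A] [IsDomain A] [Algebra k A] {d : ℕ}
    (P : Ideal A) [P.IsPrime] (y : A) (hy : y ∈ P) (hy0 : y ≠ 0)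
    (x : Fin d → A) (hx : AlgebraicIndependent k (fun i => Ideal.Quotient.mkₐ k P (x i))) :
    ∃ x' : Fin (d + 1) → A, AlgebraicIndependent k x' := by
  have hxA : AlgebraicIndependent k x :=
    AlgebraicIndependent.of_comp (Ideal.Quotient.mkₐ k P) hx
  have htr : Transcendental (Algebra.adjoin k (Set.range x)) y := by
    intro halg
    obtain ⟨p, hp0, hp⟩ := halg
    -- divide by the power of the variable
    obtain ⟨q, hq, hqn⟩ := Polynomial.exists_eq_pow_rootMultiplicity_mul_and_not_dvd p hp0 0
    have hq0 : q.coeff 0 ≠ 0 := by
      intro h0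
      apply hqn
      rw [Polynomial.C_0, sub_zero]
      exact Polynomial.X_dvd_iff.mpr h0
    have hqy : Polynomial.aeval y q = 0 := by
      rw [hq] at hp
      simp only [map_mul, map_pow, Polynomial.aeval_X, map_zero, sub_zero] at hp
      rcases mul_eq_zero.mp hp with h | h
      · exact absurd h (pow_ne_zero _ hy0)
      · exact h
    -- the constant coefficient lies in `P`
    have hmem : ((q.coeff 0 : Algebra.adjoin k (Set.range x)) : A) ∈ P := by
      have h1 : Polynomial.aeval y q = Polynomial.aeval y (Polynomial.X * q.divX) +
          ((q.coeff 0 : Algebra.adjoin k (Set.range x)) : A) := by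
        conv_lhs => rw [← Polynomial.divX_mul_X_add q]
        rw [map_add, mul_comm, Polynomial.aeval_C]
        rfl
      rw [h1, map_mul, Polynomial.aeval_X] at hqy
      have h2 : ((q.coeff 0 : Algebra.adjoin k (Set.range x)) : A) =
          -(y * Polynomial.aeval y q.divX) := by
        linear_combination hqy
      rw [h2]
      exact P.neg_mem (P.mul_mem_right _ hy)
    -- and it is a polynomial in the independent elements
    have hin : ((q.coeff 0 : Algebra.adjoin k (Set.range x)) : A) ∈
        (MvPolynomial.aeval (R := k) x).range := by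
      rw [← Algebra.adjoin_range_eq_range_aeval]
      exact (q.coeff 0).2
    obtain ⟨F, hF⟩ := hin
    have hF' : MvPolynomial.aeval (R := k) x F =
        ((q.coeff 0 : Algebra.adjoin k (Set.range x)) : A) := hF
    have h3 : MvPolynomial.aeval (R := k) (fun i => Ideal.Quotient.mkₐ k P (x i)) F = 0 := by
      have h4 : MvPolynomial.aeval (R := k) (fun i => Ideal.Quotient.mkₐ k P (x i)) F =
          Ideal.Quotient.mkₐ k P (MvPolynomial.aeval (R := k) x F) := by
        rw [← MvPolynomial.comp_aeval_apply]
      rw [h4, hF']
      exact Ideal.Quotient.eq_zero_iff_mem.mpr hmem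
    have h5 : F = 0 := by
      have := (injective_iff_map_eq_zero _).mp (algebraicIndependent_iff_injective_aeval.mp hx)
      exact this F h3
    rw [h5, map_zero] at hF'
    exact hq0 (Subtype.ext hF'.symm)
  refine ⟨(fun o : Option (Fin d) => o.elim y x) ∘ (finSuccEquiv d), ?_⟩
  exact (algebraicIndependent_equiv (finSuccEquiv d)).mpr
    ((hxA.option_iff_transcendental y).mpr htr)

theorem gdim_indep {k A : Type} [Field k] [CommRing A] [IsDomain A] [Algebra k A] (d : ℕ)
    (h : (d : WithBot ℕ∞) ≤ ringKrullDim A) :
    ∃ x : Fin d → A, AlgebraicIndependent k x := by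
  induction d generalizing A with
  | zero => exact ⟨Fin.elim0, algebraicIndependent_empty_type⟩
  | succ d ih =>
    obtain ⟨l, hl⟩ := Order.le_krullDim_iff.mp h
    -- the second prime of the chain
    have h01 : (0 : ℕ) < l.length := by omega
    set P : PrimeSpectrum A := l ⟨1, by omega⟩ with hP
    have hlt : l ⟨0, by omega⟩ < P := l.strictMono (by
      rw [Fin.lt_def]; simp)
    obtain ⟨y, hyP, hy0⟩ : ∃ y ∈ P.asIdeal, y ≠ 0 := by
      by_contra hcon
      push Not at hcon
      have h1 : P.asIdeal ≤ (l ⟨0, by omega⟩).asIdeal := by
        intro y hy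
        rw [hcon y hy]
        exact Ideal.zero_mem _
      exact absurd h1 (not_le_of_gt hlt)
    have hdim : (d : WithBot ℕ∞) ≤ ringKrullDim (A ⧸ P.asIdeal) := by
      rw [ringKrullDim_quotient, Order.le_krullDim_iff]
      refine ⟨{ length := d, toFun := fun i => ⟨l ⟨i.1 + 1, by omega⟩, ?_⟩, step := ?_ }, rfl⟩
      · rw [PrimeSpectrum.mem_zeroLocus, SetLike.coe_subset_coe]
        have : P ≤ l ⟨i.1 + 1, by omega⟩ := l.strictMono.monotone (by
          rw [Fin.le_def]; simp)
        exact this
      · intro i
        change (_ : PrimeSpectrum A) < _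
        exact l.strictMono (by rw [Fin.lt_def]; simp)
    obtain ⟨xb, hxb⟩ := ih (A := A ⧸ P.asIdeal) hdim
    choose x hx using fun i => Ideal.Quotient.mk_surjective (xb i)
    refine gdim_step P.asIdeal y hyP hy0 x ?_
    have : (fun i => Ideal.Quotient.mkₐ k P.asIdeal (x i)) = xb := by
      funext i
      exact hx i
    rw [this]
    exact hxb

end Pool.Agent.Lib.MP5e
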