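import Pool.Agent.Lib.MP_5e64e7_nt.OWp

set_option autoImplicit false

/-!
# O.POW : lattice sums of weight 4 and 6 in terms of `℘` (about 100 lines)

The power series of `℘` at `x ∉ L` (`PeriodPair.hasFPowerSeriesOnBall_weierstrassP`,
`weierstrassPSeries`) has the coefficients `(i+1) · sumInvPow x (i+2)` for `i ≥ 1`. So
`3 · sumInvPow x 4 = ℘''(x)/2` and `5 · sumInvPow x 6 = ℘''''(x)/24`
(`HasFPowerSeriesOnBall.factorial_smul` / `hasFPowerSeriesAt ... iteratedDeriv`).
By `wp_first`, `wp_second`: `℘'' = 6℘² - g₂/2` near `x`, `℘''' = 12 ℘ ℘'`,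
`℘'''' = 12 ℘'² + 12 ℘ ℘'' = 12 (4℘³ - g₂℘ - g₃) + 12 ℘ (6℘² - g₂/2) = 120 ℘³ - 18 g₂ ℘ - 12 g₃`
(`PeriodPair.derivWeierstrassP_sq`).
-/

noncomputable section

namespace Pool.Agent.Lib.MP5e

open Polynomial Topology

private theorem opow_iter (L : PeriodPair) {x : ℂ} (hx : x ∉ L.lattice) {n : ℕ} (hn : n ≠ 0) :
    iteratedDeriv n L.weierstrassP x / (n.factorial : ℂ) = (n + 1) * L.sumInvPow x (n + 2) := by
  have hopen : IsOpen ((L.lattice : Set ℂ)ᶜ) := L.isClosed_lattice.isOpen_compl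
  obtain ⟨ε, hε, hball⟩ := Metric.isOpen_iff.1 hopen x hx
  have hr : Metric.closedBall x ((⟨ε / 2, by positivity⟩ : NNReal) : ℝ) ⊆ (L.lattice : Set ℂ)ᶜ :=
    (Metric.closedBall_subset_ball (by
      show ε / 2 < ε
      linarith)).trans hball
  have h1 := (L.hasFPowerSeriesOnBall_weierstrassP x ⟨ε / 2, by positivity⟩
    (by
      show (0 : ℝ) < ε / 2
      positivity) hr).hasFPowerSeriesAt
  have h2 := ((L.analyticOnNhd_weierstrassP x hx).hasFPowerSeriesAt).eq_formalMultilinearSeries h1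
  have h3 := congrArg (fun p : FormalMultilinearSeries ℂ ℂ ℂ => p.coeff n) h2
  simp only [PeriodPair.weierstrassPSeries, FormalMultilinearSeries.coeff_ofScalars, if_neg hn]
    at h3
  exact h3

private theorem opow_d1 (L : PeriodPair) {x : ℂ} (hx : x ∉ L.lattice) :
    iteratedDeriv 2 L.weierstrassP x = 6 * L.weierstrassP x ^ 2 - L.g₂ / 2 := by
  rw [iteratedDeriv_succ, iteratedDeriv_one, L.deriv_weierstrassP]
  exact (wp_second L hx).deriv

private theorem opow_ev (L : PeriodPair) {x : ℂ} (hx : x ∉ L.lattice) :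
    ∀ᶠ t in 𝓝 x, t ∉ L.lattice :=
  L.isClosed_lattice.isOpen_compl.mem_nhds hx

private theorem opow_d3 (L : PeriodPair) {x : ℂ} (hx : x ∉ L.lattice) :
    iteratedDeriv 3 L.weierstrassP x = 12 * L.weierstrassP x * L.derivWeierstrassP x := by
  rw [iteratedDeriv_succ]
  have h1 : iteratedDeriv 2 L.weierstrassP =ᶠ[𝓝 x]
      fun t => 6 * L.weierstrassP t ^ 2 - L.g₂ / 2 :=
    (opow_ev L hx).mono fun t ht => opow_d1 L ht
  rw [h1.deriv_eq]
  have h2 : HasDerivAt (fun t => 6 * L.weierstrassP t ^ 2 - L.g₂ / 2)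
      (6 * ((2 : ℕ) * L.weierstrassP x ^ (2 - 1) * L.derivWeierstrassP x)) x :=
    (((wp_first L hx).pow 2).const_mul 6).sub_const _
  rw [h2.deriv]
  push_cast
  ring

private theorem opow_d4 (L : PeriodPair) {x : ℂ} (hx : x ∉ L.lattice) :
    iteratedDeriv 4 L.weierstrassP x =
      120 * L.weierstrassP x ^ 3 - 18 * L.g₂ * L.weierstrassP x - 12 * L.g₃ := by
  rw [iteratedDeriv_succ]
  have h1 : iteratedDeriv 3 L.weierstrassP =ᶠ[𝓝 x]
      fun t => 12 * L.weierstrassP t * L.derivWeierstrassP t :=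
    (opow_ev L hx).mono fun t ht => opow_d3 L ht
  rw [h1.deriv_eq]
  have h2 : HasDerivAt (fun t => 12 * L.weierstrassP t * L.derivWeierstrassP t)
      (12 * L.derivWeierstrassP x * L.derivWeierstrassP x +
        12 * L.weierstrassP x * (6 * L.weierstrassP x ^ 2 - L.g₂ / 2)) x :=
    (((wp_first L hx).const_mul 12).mul (wp_second L hx))
  rw [h2.deriv]
  have h3 := L.derivWeierstrassP_sq x hx
  linear_combination 12 * h3

theorem sumInvPow_four (L : PeriodPair) {x : ℂ} (hx : x ∉ L.lattice) :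
    L.sumInvPow x 4 = L.weierstrassP x ^ 2 - L.g₂ / 12 := by
  have h := opow_iter L hx (n := 2) (by norm_num)
  rw [opow_d1 L hx] at h
  norm_num [Nat.factorial] at h
  linear_combination (-1 / 3) * h

theorem sumInvPow_six (L : PeriodPair) {x : ℂ} (hx : x ∉ L.lattice) :
    L.sumInvPow x 6 = L.weierstrassP x ^ 3 - 3 / 20 * L.g₂ * L.weierstrassP x - L.g₃ / 10 := by
  have h := opow_iter L hx (n := 4) (by norm_num)
  rw [opow_d4 L hx] at h
  norm_num [Nat.factorial] at h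
  linear_combination (-1 / 5) * h

end Pool.Agent.Lib.MP5e
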