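import Pool.Agent.Lib.MP_5e64e7_nt.QLat
import Pool.Agent.Lib.MP_5e64e7_nt.OPow
import Pool.Agent.Lib.MP_5e64e7_nt.Trans

set_option autoImplicit false

/-!
# Q.E46 : `E₄` and `E₆` at `(a τ + b)/d`
-/

noncomputable section

namespace Pool.Agent.Lib.MP5e

open Polynomial Topology

/-- the full lattice sum of weight 4 -/
private lemma qE46_four {σ : ℂ} (hσ : 0 < σ.im) :
    ∑' v : Fin 2 → ℤ, (((v 0 : ℂ) * σ + (v 1 : ℂ)) ^ 4)⁻¹ =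
      (Real.pi : ℂ) ^ 4 / 45 * E4f σ := by
  have h1 := tsum_eisSummand_eq_tsum_sigma_mul_cexp_pow (k := 4) (by norm_num)
    (by decide) ⟨σ, hσ⟩
  have h0 : ∑' v : Fin 2 → ℤ, (((v 0 : ℂ) * σ + (v 1 : ℂ)) ^ 4)⁻¹ =
      ∑' v : Fin 2 → ℤ, EisensteinSeries.eisSummand ((4 : ℕ) : ℤ) v ⟨σ, hσ⟩ := by
    refine tsum_congr fun v => ?_
    rw [EisensteinSeries.eisSummand, zpow_neg, zpow_natCast]
  have h2 : E4f σ = 1 + 240 * ∑' n : ℕ+, ((ArithmeticFunction.sigma 3 n : ℕ) : ℂ) *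
      Complex.exp (2 * (Real.pi : ℂ) * Complex.I * σ) ^ (n : ℕ) := by
    rw [E4f, tsum_pnat_eq_tsum_succ (f := fun n : ℕ => ((ArithmeticFunction.sigma 3 n : ℕ) : ℂ) *
      Complex.exp (2 * (Real.pi : ℂ) * Complex.I * σ) ^ n)]
  have e5 : riemannZeta ((4 : ℕ) : ℂ) = (Real.pi : ℂ) ^ 4 / 90 := by
    rw [← riemannZeta_four]
    norm_num
  have e6 : (((4 - 1).factorial : ℕ) : ℂ) = 6 := by
    norm_num [Nat.factorial]
  have e7 : (-2 * (Real.pi : ℂ) * Complex.I) ^ 4 = 16 * (Real.pi : ℂ) ^ 4 := by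
    rw [show (-2 * (Real.pi : ℂ) * Complex.I) ^ 4 =
      16 * (Real.pi : ℂ) ^ 4 * (Complex.I * Complex.I) ^ 2 by ring, Complex.I_mul_I]
    ring
  rw [h0, h1, e5, e6, e7, h2]
  change 2 * ((Real.pi : ℂ) ^ 4 / 90) + 2 * (16 * (Real.pi : ℂ) ^ 4 / 6) * (∑' n : ℕ+,
      ((ArithmeticFunction.sigma 3 n : ℕ) : ℂ) *
      Complex.exp (2 * (Real.pi : ℂ) * Complex.I * σ) ^ (n : ℕ)) = _
  ring

/-- the full lattice sum of weight 6 -/
private lemma qE46_six {σ : ℂ} (hσ : 0 < σ.im) :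
    ∑' v : Fin 2 → ℤ, (((v 0 : ℂ) * σ + (v 1 : ℂ)) ^ 6)⁻¹ =
      2 * (Real.pi : ℂ) ^ 6 / 945 * E6f σ := by
  have h1 := tsum_eisSummand_eq_tsum_sigma_mul_cexp_pow (k := 6) (by norm_num)
    (by decide) ⟨σ, hσ⟩
  have h0 : ∑' v : Fin 2 → ℤ, (((v 0 : ℂ) * σ + (v 1 : ℂ)) ^ 6)⁻¹ =
      ∑' v : Fin 2 → ℤ, EisensteinSeries.eisSummand ((6 : ℕ) : ℤ) v ⟨σ, hσ⟩ := by
    refine tsum_congr fun v => ?_
    rw [EisensteinSeries.eisSummand, zpow_neg, zpow_natCast]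
  have h2 : E6f σ = 1 - 504 * ∑' n : ℕ+, ((ArithmeticFunction.sigma 5 n : ℕ) : ℂ) *
      Complex.exp (2 * (Real.pi : ℂ) * Complex.I * σ) ^ (n : ℕ) := by
    rw [E6f, tsum_pnat_eq_tsum_succ (f := fun n : ℕ => ((ArithmeticFunction.sigma 5 n : ℕ) : ℂ) *
      Complex.exp (2 * (Real.pi : ℂ) * Complex.I * σ) ^ n)]
  have e5 : riemannZeta ((6 : ℕ) : ℂ) = (Real.pi : ℂ) ^ 6 / 945 := by
    have h3 := riemannZeta_two_mul_nat (k := 3) (by norm_num)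
    have h4 : (2 : ℂ) * ((3 : ℕ) : ℂ) = ((6 : ℕ) : ℂ) := by norm_num
    rw [h4] at h3
    rw [h3]
    norm_num [Nat.factorial]
    rw [show _root_.bernoulli 6 = 1 / 42 by decide +kernel]
    push_cast
    ring
  have e6 : (((6 - 1).factorial : ℕ) : ℂ) = 120 := by
    norm_num [Nat.factorial]
  have e7 : (-2 * (Real.pi : ℂ) * Complex.I) ^ 6 = -64 * (Real.pi : ℂ) ^ 6 := by
    rw [show (-2 * (Real.pi : ℂ) * Complex.I) ^ 6 =
      64 * (Real.pi : ℂ) ^ 6 * (Complex.I * Complex.I) ^ 3 by ring, Complex.I_mul_I]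
    ring
  rw [h0, h1, e5, e6, e7, h2]
  change 2 * ((Real.pi : ℂ) ^ 6 / 945) + 2 * (-64 * (Real.pi : ℂ) ^ 6 / 120) * (∑' n : ℕ+,
      ((ArithmeticFunction.sigma 5 n : ℕ) : ℂ) *
      Complex.exp (2 * (Real.pi : ℂ) * Complex.I * σ) ^ (n : ℕ)) = _
  ring

private lemma qE46_zero (L : PeriodPair) (τ : ℂ) (a d : ℕ) (b : ℤ) : qtor L τ a d b 0 = 0 := by
  simp [qtor]

private lemma qE46_im {τ : ℂ} (hτ : 0 < τ.im) {a d : ℕ} (ha : 1 ≤ a) (hd : 1 ≤ d) (b : ℤ) :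
    0 < (qsig τ a d b).im := by
  rw [qsig_im τ hd]
  have h1 : (0 : ℝ) < a := by exact_mod_cast ha
  have h2 : (0 : ℝ) < d := by exact_mod_cast hd
  positivity

private lemma qE46_range {a d : ℕ} (hN : 0 < a * d) (f : ℕ → ℂ) :
    ∑ k ∈ Finset.range (a * d), f k = f 0 + ∑ k ∈ Finset.Ico 1 (a * d), f k := by
  rw [Finset.range_eq_Ico, Finset.sum_eq_sum_Ico_succ_bot hN]

theorem qE4 (L : PeriodPair) {τ : ℂ} (hτ : 0 < τ.im) (hL : L.ω₂ = τ * L.ω₁) {a d : ℕ}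
    (ha : 1 ≤ a) (hd : 1 ≤ d) {b : ℤ} (hab : IsCoprime (a : ℤ) b) :
    (a : ℂ) ^ 4 * E4f (qsig τ a d b) = qell L ^ 2 *
      ((6 - 5 * ((a : ℂ) * (d : ℂ))) * (L.g₂ / 12) + 5 * qS L τ a d b 2) := by
  have hN : 0 < a * d := Nat.mul_pos ha hd
  have h1 := qlat_sum L hτ hL ha hd hab (r := 4) (by norm_num)
  rw [qE46_four (qE46_im hτ ha hd b), qE46_range hN, qE46_zero, neg_zero,
    PeriodPair.sumInvPow_zero] at h1
  have hG : L.G 4 = L.g₂ / 60 := by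
    rw [PeriodPair.g₂]
    ring
  have hS : ∑ k ∈ Finset.Ico 1 (a * d), L.sumInvPow (-(qtor L τ a d b k)) 4 =
      qS L τ a d b 2 - L.g₂ / 12 * ((a : ℂ) * (d : ℂ) - 1) := by
    have h3 : ∀ k ∈ Finset.Ico 1 (a * d), L.sumInvPow (-(qtor L τ a d b k)) 4 =
        L.weierstrassP (qtor L τ a d b k) ^ 2 - L.g₂ / 12 := by
      intro k hk
      rw [Finset.mem_Ico] at hk
      have h4 : qtor L τ a d b k ∉ L.lattice := qtor_notMem L hτ hL ha hd hab hk.1 hk.2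
      have h5 : -(qtor L τ a d b k) ∉ L.lattice := fun h => h4 (by simpa using L.lattice.neg_mem h)
      rw [sumInvPow_four L h5, PeriodPair.weierstrassP_neg]
    rw [Finset.sum_congr rfl h3, Finset.sum_sub_distrib, Finset.sum_const,
      Nat.card_Ico, nsmul_eq_mul, Nat.cast_sub (by omega : 1 ≤ a * d)]
    unfold qS
    push_cast
    ring
  rw [hG, hS] at h1
  have hpi : (Real.pi : ℂ) ≠ 0 := by exact_mod_cast Real.pi_ne_zero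
  have ha0 : (a : ℂ) ≠ 0 := by
    have : a ≠ 0 := by omega
    exact_mod_cast this
  have hp4 : (Real.pi : ℂ) ^ 4 ≠ 0 := pow_ne_zero _ hpi
  have ha4 : (a : ℂ) ^ 4 ≠ 0 := pow_ne_zero _ ha0
  have h6 : (Real.pi : ℂ) ^ 4 * ((a : ℂ) ^ 4 * E4f (qsig τ a d b)) = (Real.pi : ℂ) ^ 4 *
      (qell L ^ 2 * ((6 - 5 * ((a : ℂ) * (d : ℂ))) * (L.g₂ / 12) + 5 * qS L τ a d b 2)) := by
    have e1 : (Real.pi : ℂ) ^ 4 * qell L ^ 2 = 9 * L.ω₁ ^ 4 := by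
      unfold qell
      field_simp
      ring
    calc (Real.pi : ℂ) ^ 4 * ((a : ℂ) ^ 4 * E4f (qsig τ a d b))
        = 45 * (a : ℂ) ^ 4 * ((Real.pi : ℂ) ^ 4 / 45 * E4f (qsig τ a d b)) := by ring
      _ = 45 * (a : ℂ) ^ 4 * (L.ω₁ ^ 4 / (a : ℂ) ^ 4 * (L.g₂ / 60 +
          (qS L τ a d b 2 - L.g₂ / 12 * ((a : ℂ) * (d : ℂ) - 1)))) := by rw [h1]
      _ = ((a : ℂ) ^ 4 / (a : ℂ) ^ 4) * ((9 * L.ω₁ ^ 4) *
          ((6 - 5 * ((a : ℂ) * (d : ℂ))) * (L.g₂ / 12) + 5 * qS L τ a d b 2)) := by ring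
      _ = (Real.pi : ℂ) ^ 4 *
        (qell L ^ 2 * ((6 - 5 * ((a : ℂ) * (d : ℂ))) * (L.g₂ / 12) + 5 * qS L τ a d b 2)) := by
          rw [div_self ha4, ← e1]
          ring
  exact mul_left_cancel₀ hp4 h6

theorem qE6 (L : PeriodPair) {τ : ℂ} (hτ : 0 < τ.im) (hL : L.ω₂ = τ * L.ω₁) {a d : ℕ}
    (ha : 1 ≤ a) (hd : 1 ≤ d) {b : ℤ} (hab : IsCoprime (a : ℤ) b) :
    2 * (a : ℂ) ^ 6 * E6f (qsig τ a d b) = qell L ^ 3 *
      ((30 - 28 * ((a : ℂ) * (d : ℂ))) * (L.g₃ / 8) + 35 * qS L τ a d b 3 -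
        63 * (L.g₂ / 12) * qS L τ a d b 1) := by
  have hN : 0 < a * d := Nat.mul_pos ha hd
  have h1 := qlat_sum L hτ hL ha hd hab (r := 6) (by norm_num)
  rw [qE46_six (qE46_im hτ ha hd b), qE46_range hN, qE46_zero, neg_zero,
    PeriodPair.sumInvPow_zero] at h1
  have hG : L.G 6 = L.g₃ / 140 := by
    rw [PeriodPair.g₃]
    ring
  have hS : ∑ k ∈ Finset.Ico 1 (a * d), L.sumInvPow (-(qtor L τ a d b k)) 6 =
      qS L τ a d b 3 - 3 / 20 * L.g₂ * qS L τ a d b 1 -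
        L.g₃ / 10 * ((a : ℂ) * (d : ℂ) - 1) := by
    have h3 : ∀ k ∈ Finset.Ico 1 (a * d), L.sumInvPow (-(qtor L τ a d b k)) 6 =
        L.weierstrassP (qtor L τ a d b k) ^ 3 -
          3 / 20 * L.g₂ * L.weierstrassP (qtor L τ a d b k) ^ 1 - L.g₃ / 10 := by
      intro k hk
      rw [Finset.mem_Ico] at hk
      have h4 : qtor L τ a d b k ∉ L.lattice := qtor_notMem L hτ hL ha hd hab hk.1 hk.2
      have h5 : -(qtor L τ a d b k) ∉ L.lattice := fun h => h4 (by simpa using L.lattice.neg_mem h)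
      rw [sumInvPow_six L h5, PeriodPair.weierstrassP_neg, pow_one]
    rw [Finset.sum_congr rfl h3, Finset.sum_sub_distrib, Finset.sum_sub_distrib,
      ← Finset.mul_sum, Finset.sum_const,
      Nat.card_Ico, nsmul_eq_mul, Nat.cast_sub (by omega : 1 ≤ a * d)]
    unfold qS
    push_cast
    ring
  rw [hG, hS] at h1
  have hpi : (Real.pi : ℂ) ≠ 0 := by exact_mod_cast Real.pi_ne_zero
  have ha0 : (a : ℂ) ≠ 0 := by
    have : a ≠ 0 := by omega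
    exact_mod_cast this
  have hp6 : (Real.pi : ℂ) ^ 6 ≠ 0 := pow_ne_zero _ hpi
  have ha6 : (a : ℂ) ^ 6 ≠ 0 := pow_ne_zero _ ha0
  have h6 : (Real.pi : ℂ) ^ 6 * (2 * (a : ℂ) ^ 6 * E6f (qsig τ a d b)) = (Real.pi : ℂ) ^ 6 *
      (qell L ^ 3 * ((30 - 28 * ((a : ℂ) * (d : ℂ))) * (L.g₃ / 8) + 35 * qS L τ a d b 3 -
        63 * (L.g₂ / 12) * qS L τ a d b 1)) := by
    have e1 : (Real.pi : ℂ) ^ 6 * qell L ^ 3 = 27 * L.ω₁ ^ 6 := by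
      unfold qell
      field_simp
      ring
    calc (Real.pi : ℂ) ^ 6 * (2 * (a : ℂ) ^ 6 * E6f (qsig τ a d b))
        = 945 * (a : ℂ) ^ 6 * (2 * (Real.pi : ℂ) ^ 6 / 945 * E6f (qsig τ a d b)) := by ring
      _ = 945 * (a : ℂ) ^ 6 * (L.ω₁ ^ 6 / (a : ℂ) ^ 6 * (L.g₃ / 140 +
          (qS L τ a d b 3 - 3 / 20 * L.g₂ * qS L τ a d b 1 -
            L.g₃ / 10 * ((a : ℂ) * (d : ℂ) - 1)))) := by rw [h1]
      _ = ((a : ℂ) ^ 6 / (a : ℂ) ^ 6) * ((27 * L.ω₁ ^ 6) *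
          ((30 - 28 * ((a : ℂ) * (d : ℂ))) * (L.g₃ / 8) + 35 * qS L τ a d b 3 -
            63 * (L.g₂ / 12) * qS L τ a d b 1)) := by ring
      _ = _ := by
          rw [div_self ha6, ← e1]
          ring
  exact mul_left_cancel₀ hp6 h6

private lemma qE46_one (τ : ℂ) : qsig τ 1 1 0 = τ := by
  unfold qsig
  simp

private lemma qE46_S (L : PeriodPair) (τ : ℂ) (r : ℕ) : qS L τ 1 1 0 r = 0 := by
  unfold qS
  simp

theorem qE4_base (L : PeriodPair) {τ : ℂ} (hτ : 0 < τ.im) (hL : L.ω₂ = τ * L.ω₁) :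
    E4f τ = qell L ^ 2 * (L.g₂ / 12) := by
  have h := qE4 L hτ hL (a := 1) (d := 1) (b := 0) le_rfl le_rfl isCoprime_one_left
  rw [qE46_one, qE46_S] at h
  push_cast at h
  linear_combination h

theorem qE6_base (L : PeriodPair) {τ : ℂ} (hτ : 0 < τ.im) (hL : L.ω₂ = τ * L.ω₁) :
    E6f τ = qell L ^ 3 * (L.g₃ / 8) := by
  have h := qE6 L hτ hL (a := 1) (d := 1) (b := 0) le_rfl le_rfl isCoprime_one_left
  rw [qE46_one, qE46_S, qE46_S] at h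
  push_cast at h
  linear_combination (1 / 2) * h

end Pool.Agent.Lib.MP5e
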