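import Pool.Agent.Lib.MP_5e64e7_nt.QDefs

set_option autoImplicit false

/-!
# Q.TPT : the torsion points
-/

noncomputable section

namespace Pool.Agent.Lib.MP5e

open Polynomial Topology

theorem qom1_ne (L : PeriodPair) : L.ω₁ ≠ 0 := by
  have h := L.indep.ne_zero 0
  simpa using h

theorem qtor_mul (L : PeriodPair) (τ : ℂ) (a d : ℕ) (b : ℤ) (k : ℕ) :
    (k : ℂ) * qtor L τ a d b 1 = qtor L τ a d b k := by
  unfold qtor
  rw [Nat.cast_one, one_mul]
  ring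

private theorem qtor_eq (L : PeriodPair) (τ : ℂ) {a d : ℕ} (ha : 1 ≤ a) (hd : 1 ≤ d) (b : ℤ)
    (k : ℕ) : ((a : ℂ) * (d : ℂ)) * qtor L τ a d b k =
      L.ω₁ * ((k : ℂ) * ((a : ℂ) * τ + (b : ℂ))) := by
  have ha' : (a : ℂ) ≠ 0 := by exact_mod_cast (by omega : a ≠ 0)
  have hd' : (d : ℂ) ≠ 0 := by exact_mod_cast (by omega : d ≠ 0)
  unfold qtor qsig
  field_simp

theorem qtor_top (L : PeriodPair) {τ : ℂ} (hL : L.ω₂ = τ * L.ω₁) {a d : ℕ} (ha : 1 ≤ a)
    (hd : 1 ≤ d) (b : ℤ) : ((a * d : ℕ) : ℂ) * qtor L τ a d b 1 ∈ L.lattice := by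
  rw [PeriodPair.mem_lattice]
  refine ⟨b, (a : ℤ), ?_⟩
  rw [Nat.cast_mul, qtor_eq L τ ha hd, hL]
  push_cast
  ring

theorem qtor_notMem (L : PeriodPair) {τ : ℂ} (hτ : 0 < τ.im) (hL : L.ω₂ = τ * L.ω₁) {a d : ℕ}
    (ha : 1 ≤ a) (hd : 1 ≤ d) {b : ℤ} (hab : IsCoprime (a : ℤ) b) {k : ℕ} (hk : 1 ≤ k)
    (hk' : k < a * d) : qtor L τ a d b k ∉ L.lattice := by
  intro h
  rw [PeriodPair.mem_lattice] at h
  obtain ⟨m, n, h⟩ := h
  have h1 := qtor_eq L τ ha hd b k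
  rw [← h, hL] at h1
  have h2 : (a : ℂ) * (d : ℂ) * ((m : ℂ) + (n : ℂ) * τ) =
      (k : ℂ) * ((a : ℂ) * τ + (b : ℂ)) := by
    apply mul_left_cancel₀ (qom1_ne L)
    linear_combination h1
  have him := congrArg Complex.im h2
  have hre := congrArg Complex.re h2
  simp at hre him
  have him2 : ((a : ℝ) * d * n - k * a) * τ.im = 0 := by linear_combination him
  have him3 : (a : ℝ) * d * n = k * a := by
    have := (mul_eq_zero.mp him2).resolve_right hτ.ne'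
    linarith
  have hre3 : (a : ℝ) * d * m = k * b := by linear_combination hre - τ.re * him3
  have him' : (a : ℤ) * d * n = k * a := by exact_mod_cast him3
  have hre' : (a : ℤ) * d * m = k * b := by exact_mod_cast hre3
  have ha0 : (a : ℤ) ≠ 0 := by exact_mod_cast (by omega : a ≠ 0)
  have hd0 : (d : ℤ) ≠ 0 := by exact_mod_cast (by omega : d ≠ 0)
  have e1 : (k : ℤ) = d * n := by
    apply mul_left_cancel₀ ha0
    linear_combination -him'
  have e2 : n * b = a * m := by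
    apply mul_left_cancel₀ hd0
    rw [e1] at hre'
    linear_combination -hre'
  have e3 : (a : ℤ) ∣ n := hab.dvd_of_dvd_mul_right ⟨m, e2⟩
  obtain ⟨t, ht⟩ := e3
  rw [ht] at e1
  have e4 : ((a * d : ℕ) : ℤ) ∣ (k : ℤ) := ⟨t, by rw [e1]; push_cast; ring⟩
  have e5 : a * d ∣ k := by exact_mod_cast e4
  exact absurd (Nat.le_of_dvd (by omega) e5) (by omega)

theorem qsig_im (τ : ℂ) {a d : ℕ} (hd : 1 ≤ d) (b : ℤ) :
    (qsig τ a d b).im = (a : ℝ) * τ.im / (d : ℝ) := by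
  have _h := hd
  unfold qsig
  rw [Complex.div_natCast_im]
  simp

theorem qom_im (D : ℕ) : (qom D).im = Real.sqrt (D : ℝ) := by
  unfold qom
  simp

theorem qom_pos {D : ℕ} (hD : 1 ≤ D) : 0 < (qom D).im := by
  rw [qom_im]
  apply Real.sqrt_pos.mpr
  exact_mod_cast hD

theorem qom_sq (D : ℕ) : qom D ^ 2 = -(D : ℂ) := by
  unfold qom
  rw [mul_pow, Complex.I_sq, ← Complex.ofReal_pow, Real.sq_sqrt (Nat.cast_nonneg D)]
  push_cast
  ring

end Pool.Agent.Lib.MP5e
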