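import Pool.Agent.Lib.MP_5e64e7_nt.QVal
import Pool.Agent.Lib.MP_5e64e7_nt.QE46
import Pool.Agent.Lib.MP_5e64e7_nt.QTpt

set_option autoImplicit false

/-!
# Q.ALG : membership in relatively algebraically closed fields
-/

noncomputable section

namespace Pool.Agent.Lib.MP5e

open Polynomial Topology

theorem qcl_sq {K : IntermediateField ℚ ℂ} (hK : QCl K) {z : ℂ} (h : z ^ 2 ∈ K) : z ∈ K := by
  apply hK
  refine ⟨X ^ 2 - C (⟨z ^ 2, h⟩ : K), ?_, ?_⟩
  · exact (Polynomial.monic_X_pow_sub_C _ (by norm_num)).ne_zero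
  · rw [map_sub, map_pow, Polynomial.aeval_X, Polynomial.aeval_C]
    exact sub_self _

theorem qcl_om {K : IntermediateField ℚ ℂ} (hK : QCl K) (D : ℕ) : qom D ∈ K := by
  apply qcl_sq hK
  rw [qom_sq]
  exact neg_mem (natCast_mem K D)

theorem qcl_I {K : IntermediateField ℚ ℂ} (hK : QCl K) : Complex.I ∈ K := by
  apply qcl_sq hK
  rw [Complex.I_sq]
  exact neg_mem (one_mem K)

theorem qcl_AI {K : IntermediateField ℚ ℂ} (hK : QCl K) {F : IntermediateField ℚ ℂ} {R : ℝ}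
    {x : ℂ} (h : AI F R x) : x ∈ K := by
  obtain ⟨a, ha, hint, -⟩ := h
  have h1 : IsIntegral ℤ x := by
    rw [← ha]
    exact hint.map (algebraMap F ℂ).toIntAlgHom
  apply hK
  have h2 : IsIntegral K x := h1.tower_top
  exact h2.isAlgebraic

private lemma qalg_e4 (D : ℕ) : E4f (qom D) ≠ 0 := by
  obtain ⟨e, he⟩ : ∃ e : ℝ, e = 1 + 240 * ∑' m : ℕ,
      (((ArithmeticFunction.sigma 3) (m + 1) : ℕ) : ℝ) *
        Real.exp (-2 * Real.pi * Real.sqrt (D : ℝ)) ^ (m + 1) := ⟨_, rfl⟩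
  have h1 : E4f (qom D) = (e : ℂ) := by
    rw [E4f, he]
    have h2 : Complex.exp (2 * (Real.pi : ℂ) * Complex.I * qom D) =
        ((Real.exp (-2 * Real.pi * Real.sqrt (D : ℝ)) : ℝ) : ℂ) := by
      rw [Complex.ofReal_exp]
      congr 1
      unfold qom
      push_cast
      linear_combination (2 * (Real.pi : ℂ) * (Real.sqrt (D : ℝ) : ℂ)) * Complex.I_sq
    rw [h2]
    push_cast
    rfl
  have h3 : 1 ≤ e := by
    rw [he]
    have : 0 ≤ ∑' m : ℕ, (((ArithmeticFunction.sigma 3) (m + 1) : ℕ) : ℝ) *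
        Real.exp (-2 * Real.pi * Real.sqrt (D : ℝ)) ^ (m + 1) := tsum_nonneg fun m => by positivity
    linarith
  rw [h1]
  have h4 : e ≠ 0 := by
    intro h
    rw [h] at h3
    norm_num at h3
  exact_mod_cast h4

theorem qalg_ell (D : ℕ) (hD : 1 ≤ D) (L : PeriodPair) (F : IntermediateField ℚ ℂ) (R : ℝ)
    (hB : QB D L F R) (K : IntermediateField ℚ ℂ) (hK : QCl K) (_h1 : jf (qom D) ∈ K)
    (h2 : deriv jf (qom D) ∈ K) (h3 : deriv (deriv jf) (qom D) ∈ K) :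
    2 * (Real.pi : ℂ) * Complex.I * qell L ∈ K := by
  obtain ⟨hL, -, -, hg2, hg3, -⟩ := hB
  have hτ : 0 < (qom D).im := by
    rw [qom_im]
    apply Real.sqrt_pos.mpr
    exact_mod_cast (by omega : 0 < D)
  have hg2K := qcl_AI hK hg2
  have hg3K := qcl_AI hK hg3
  have hnum : ∀ n : ℕ, (n : ℂ) ∈ K := fun n => natCast_mem K n
  have he4K : L.g₂ / 12 ∈ K := by
    have h := div_mem hg2K (hnum 3)
    have e : L.g₂ / 4 / ((3 : ℕ) : ℂ) = L.g₂ / 12 := by push_cast; ring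
    rwa [e] at h
  have he6K : L.g₃ / 8 ∈ K := by
    have h := div_mem hg3K (hnum 2)
    have e : L.g₃ / 4 / ((2 : ℕ) : ℂ) = L.g₃ / 8 := by push_cast; ring
    rwa [e] at h
  have h4 := qE4_base L hτ hL
  have h6 := qE6_base L hτ hL
  have hdisc := disc_ne hτ
  have hell := qell_ne L
  have hE4 := qalg_e4 D
  have hd := djf hτ
  have hdd := ddjf hτ
  rw [h4] at hE4
  rw [h4, h6] at hdisc hd hdd
  generalize L.g₂ / 12 = e4 at *
  generalize L.g₃ / 8 = e6 at *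
  have he4 : e4 ≠ 0 := fun h => hE4 (by rw [h, mul_zero])
  have hδ : e4 ^ 3 - e6 ^ 2 ≠ 0 := by
    intro h
    apply hdisc
    linear_combination (qell L) ^ 6 * h
  by_cases h60 : e6 = 0
  · have hsq : (2 * (Real.pi : ℂ) * Complex.I * qell L) ^ 2 =
        deriv (deriv jf) (qom D) / (((864 : ℕ) : ℂ) * e4) := by
      rw [hdd, h60]
      push_cast
      field_simp
      linear_combination (qell L * e4 ^ 3 * 124416) * Complex.I_sq
    apply qcl_sq hK
    rw [hsq]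
    exact div_mem h3 (mul_mem (hnum 864) he4K)
  · have heq : 2 * (Real.pi : ℂ) * Complex.I * qell L =
        -(deriv jf (qom D) * (e4 ^ 3 - e6 ^ 2)) / (((1728 : ℕ) : ℂ) * (e4 ^ 2 * e6)) := by
      rw [hd]
      have e : (qell L ^ 2 * e4) ^ 3 - (qell L ^ 3 * e6) ^ 2 = qell L ^ 6 * (e4 ^ 3 - e6 ^ 2) := by
        ring
      rw [e]
      push_cast
      field_simp
    rw [heq]
    refine div_mem (neg_mem (mul_mem h2 (sub_mem (pow_mem he4K 3) (pow_mem he6K 2))))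
      (mul_mem (hnum 1728) (mul_mem (pow_mem he4K 2) he6K))

private lemma qmem_af {m : ℕ} {K : IntermediateField ℚ ℂ} (ω : ℂ) (hω : ω ∈ K)
    (p q : Option (Fin m) → ℚ) (w : Fin m → ℂ) (hw : ∀ l, w l ∈ K) : qaf ω p q w ∈ K := by
  have hrat : ∀ t : ℚ, (t : ℂ) ∈ K := fun t => SubfieldClass.ratCast_mem K t
  unfold qaf
  refine add_mem (sum_mem fun l _ => mul_mem ?_ (hw l)) ?_
  · exact add_mem (hrat _) (mul_mem (hrat _) hω)
  · exact add_mem (hrat _) (mul_mem (hrat _) hω)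

theorem qmem {m n : ℕ} (f : Fin n → QF m) (𝓛 : ℕ → PeriodPair) (w : Fin m → ℂ)
    (K : IntermediateField ℚ ℂ) (hK : QCl K) (hw : ∀ l, w l ∈ K)
    (hJ : ∀ k, jf (qz (f k) w) ∈ K ∧ deriv jf (qz (f k) w) ∈ K ∧
      deriv (deriv jf) (qz (f k) w) ∈ K)
    (hl : ∀ k, 2 * (Real.pi : ℂ) * Complex.I * qell (𝓛 (f k).D) ∈ K) :
    ∀ v, qfam f 𝓛 w v ∈ K := by
  intro v
  rcases v with l | ⟨k, j⟩
  · exact hw l
  have hom := qcl_om hK (f k).D
  have hI := qcl_I hK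
  have hz : qz (f k) w ∈ K := by
    unfold qz qN qE
    exact div_mem (qmem_af _ hom _ _ _ hw) (qmem_af _ hom _ _ _ hw)
  have hzc : qNc (f k) w / qEc (f k) w ∈ K := by
    unfold qNc qEc
    exact div_mem (qmem_af _ (neg_mem hom) _ _ _ hw) (qmem_af _ (neg_mem hom) _ _ _ hw)
  have h2 : (2 : ℂ) ∈ K := by
    have := natCast_mem K 2
    exact_mod_cast this
  have hy : qy (f k) w ∈ K := by
    unfold qy
    exact div_mem (sub_mem hz hzc) (mul_mem h2 hI)
  obtain ⟨hj0, hj1, hj2⟩ := hJ k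
  have hlk := hl k
  change qv (𝓛 (f k).D) (qz (f k) w) (qy (f k) w) j ∈ K
  unfold qv
  fin_cases j
  · exact hj0
  · exact div_mem hj1 hlk
  · exact div_mem (sub_mem hj2 (mul_mem (div_mem hI hy) hj1)) (pow_mem hlk 2)

end Pool.Agent.Lib.MP5e
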