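import Pool.Agent.Lib.MP_5e64e7_nt.QRowB

set_option autoImplicit false

/-!
# Q.E2 : `E₂` at `(a τ + b)/d` (about 150 lines; checked numerically)

`σ = (a τ + b)/d`, `N = a d`. Claim: `a² ∑_{m ∈ ℤ} qrow (m σ) = ∑_{k<N} ∑_{x ∈ ℤ} qrow (k σ/a + x τ)`.
Proof. Let `T = ∑_{(k,x) ∈ Fin N × ℤ} qrow (k σ/a - x τ)` (absolutely summable: `qrow_summable_tau` for each `k`, finitely
many `k`; `x ↦ -x`). The map `ℤ × Fin a → Fin N × ℤ`, `(m, t) ↦ (k, x)`, `k = (m mod d) + d t`, `x = t - (m div d)` is a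
bijection (inverse: `m = k - d x`, `t = k div d`; note `0 ≤ k < a d` iff `0 ≤ k div d < a`). With `m = m₀ + d m₁`,
`0 ≤ m₀ < d`: `d σ/a = τ + b/a`, so
`k σ/a - x τ = m₀ σ/a + t (τ + b/a) - (t - m₁) τ = m₀ σ/a + m₁ τ + t b/a = m σ/a + (t - m₁) b/a`.
For fixed `m`: as `gcd(a, b) = 1`, `t ↦ (t - m₁) b mod a` is a permutation of `ℤ/a` and `qrow` has period `1`, so
`∑_{t<a} qrow (m σ/a + (t - m₁) b/a) = ∑_{s<a} qrow (m σ/a + s/a) = a² qrow (m σ)` (`qrow_dist`). (For the permutation: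
`Finset.sum_nbij` on `range a` with `t ↦ ((t - m₁) b) emod a`, injective by coprimality; or through `ZMod a`.)
Hence `T = ∑_m a² qrow (m σ)`; `Summable.tsum_prod'`, `tsum_fintype`, `Equiv.tsum_eq`.
Now `∑_m qrow (m σ) = (π²/3) E2f σ` (`qrow_E2`, `Im σ = a Im τ/d > 0`), the term `k = 0` of the right hand side is
`(π²/3) E2f τ`, and for `1 ≤ k < N`, `z = k σ/a` : `ω₁ z = qtor k ∉ L` (`qtor_notMem`), `qrow_wp` :
`ω₁² ℘(qtor k) + (π²/3) E2f τ`. Multiply by `3/π²`: `3 ω₁²/π² = ℓ`.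
-/

noncomputable section

namespace Pool.Agent.Lib.MP5e

open Polynomial Topology

private theorem int_split {H : ℤ → ℂ} (hH : Summable H) {d : ℕ} (hd : 1 ≤ d) :
    (∀ m₀ : ℕ, Summable fun m₁ : ℤ => H (m₁ * (d : ℤ) + (m₀ : ℤ))) ∧
    ∑' m : ℤ, H m = ∑ m₀ ∈ Finset.range d, ∑' m₁ : ℤ, H (m₁ * (d : ℤ) + (m₀ : ℤ)) := by
  have : NeZero d := ⟨by omega⟩
  have hs2 : Summable fun p : ℤ × Fin d => H ((Int.divModEquiv d).symm p) :=
    ((Int.divModEquiv d).symm.summable_iff (f := H)).mpr hH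
  have h1 : ∑' m : ℤ, H m = ∑' p : ℤ × Fin d, H ((Int.divModEquiv d).symm p) :=
    ((Int.divModEquiv d).symm.tsum_eq H).symm
  have hs3 : Summable fun p : Fin d × ℤ => H ((Int.divModEquiv d).symm (p.2, p.1)) :=
    (Equiv.prodComm (Fin d) ℤ).summable_iff.mpr hs2
  have h3 : ∑' m : ℤ, H m = ∑' p : Fin d × ℤ, H ((Int.divModEquiv d).symm (p.2, p.1)) := by
    rw [h1]
    exact ((Equiv.prodComm (Fin d) ℤ).tsum_eq _).symm
  constructor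
  · intro m₀
    have hinj : Function.Injective fun m₁ : ℤ => m₁ * (d : ℤ) + (m₀ : ℤ) := by
      intro x y hxy
      have h4 : x * (d : ℤ) = y * (d : ℤ) := by
        have : x * (d : ℤ) + (m₀ : ℤ) = y * (d : ℤ) + (m₀ : ℤ) := hxy
        linarith
      exact mul_right_cancel₀ (by exact_mod_cast (by omega : d ≠ 0)) h4
    exact hH.comp_injective hinj
  · rw [h3, hs3.tsum_prod, tsum_fintype]
    rw [← Fin.sum_univ_eq_sum_range
      (fun m₀ : ℕ => ∑' m₁ : ℤ, H (m₁ * (d : ℤ) + (m₀ : ℤ)))]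
    refine Finset.sum_congr rfl fun t _ => tsum_congr fun n => ?_
    rw [Int.divModEquiv_symm_apply]

private theorem perm_sum {a : ℕ} (ha : 1 ≤ a) {b : ℤ} (hab : IsCoprime (a : ℤ) b) (c : ℤ)
    (z : ℂ) :
    ∑ t ∈ Finset.range a, qrow (z + ((((t : ℤ) - c) * b : ℤ) : ℂ) / (a : ℂ)) =
      (a : ℂ) ^ 2 * qrow ((a : ℂ) * z) := by
  rw [← qrow_dist ha z]
  have ha0 : (a : ℂ) ≠ 0 := Nat.cast_ne_zero.mpr (by omega)
  have haz : (0 : ℤ) < a := by exact_mod_cast ha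
  have hnn : ∀ t : ℕ, 0 ≤ (((t : ℤ) - c) * b) % (a : ℤ) := fun t => Int.emod_nonneg _ haz.ne'
  have hlt : ∀ t : ℕ, (((t : ℤ) - c) * b) % (a : ℤ) < a := fun t => Int.emod_lt_of_pos _ haz
  have hmaps : ∀ t ∈ Finset.range a, ((((t : ℤ) - c) * b) % (a : ℤ)).toNat ∈ Finset.range a := by
    intro t _
    rw [Finset.mem_range]
    have h1 := hnn t
    have h2 := hlt t
    omega
  have hinj : Set.InjOn (fun t : ℕ => ((((t : ℤ) - c) * b) % (a : ℤ)).toNat)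
      (Finset.range a : Set ℕ) := by
    intro t ht t' ht' h
    rw [Finset.coe_range, Set.mem_Iio] at ht ht'
    have h1 : (((t : ℤ) - c) * b) % (a : ℤ) = (((t' : ℤ) - c) * b) % (a : ℤ) := by
      have h2 := hnn t
      have h3 := hnn t'
      have h4 : ((((t : ℤ) - c) * b) % (a : ℤ)).toNat = ((((t' : ℤ) - c) * b) % (a : ℤ)).toNat := h
      omega
    have h5 : (a : ℤ) ∣ ((t : ℤ) - c) * b - ((t' : ℤ) - c) * b :=
      Int.ModEq.dvd (h1.symm : (((t' : ℤ) - c) * b) ≡ (((t : ℤ) - c) * b) [ZMOD (a : ℤ)])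
    have h6 : (a : ℤ) ∣ ((t : ℤ) - t') * b := by
      have : ((t : ℤ) - c) * b - ((t' : ℤ) - c) * b = ((t : ℤ) - t') * b := by ring
      rwa [this] at h5
    have h7 : (a : ℤ) ∣ (t : ℤ) - t' := hab.dvd_of_dvd_mul_right h6
    obtain ⟨q, hq⟩ := h7
    have hq0 : q = 0 := by
      by_contra hne
      rcases lt_or_gt_of_ne hne with hlt0 | hgt0
      · have : (a : ℤ) * q ≤ -(a : ℤ) := by nlinarith
        omega
      · have : (a : ℤ) ≤ (a : ℤ) * q := by nlinarith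
        omega
    rw [hq0] at hq
    omega
  refine Finset.sum_nbij (fun t : ℕ => ((((t : ℤ) - c) * b) % (a : ℤ)).toNat) hmaps hinj ?_ ?_
  · exact Finset.surjOn_of_injOn_of_card_le _ (fun t ht => hmaps t ht) hinj le_rfl
  · intro t _
    have h1 : (((((((t : ℤ) - c) * b) % (a : ℤ)).toNat : ℕ) : ℤ)) = (((t : ℤ) - c) * b) % (a : ℤ) :=
      Int.toNat_of_nonneg (hnn t)
    have h2 : ((((((((t : ℤ) - c) * b) % (a : ℤ)).toNat : ℕ)) : ℂ)) =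
        (((((t : ℤ) - c) * b) % (a : ℤ) : ℤ) : ℂ) := by
      have h := congrArg (Int.cast : ℤ → ℂ) h1
      rwa [Int.cast_natCast] at h
    rw [h2]
    have h3 := Int.emod_add_mul_ediv (((t : ℤ) - c) * b) (a : ℤ)
    have h4 : ((((t : ℤ) - c) * b : ℤ) : ℂ) = (((((t : ℤ) - c) * b) % (a : ℤ) : ℤ) : ℂ) +
        (a : ℂ) * (((((t : ℤ) - c) * b) / (a : ℤ) : ℤ) : ℂ) := by
      have := congrArg (fun n : ℤ => (n : ℂ)) h3
      push_cast at this ⊢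
      exact this.symm
    rw [h4, add_div, mul_comm (a : ℂ), mul_div_assoc, div_self ha0, mul_one, ← add_assoc,
      qrow_add_int]

theorem qE2 (L : PeriodPair) {τ : ℂ} (hτ : 0 < τ.im) (hL : L.ω₂ = τ * L.ω₁) {a d : ℕ}
    (ha : 1 ≤ a) (hd : 1 ≤ d) {b : ℤ} (hab : IsCoprime (a : ℤ) b) :
    (a : ℂ) ^ 2 * E2f (qsig τ a d b) =
      ((a : ℂ) * (d : ℂ)) * E2f τ + qell L * qS L τ a d b 1 := by
  have ha0 : (a : ℂ) ≠ 0 := Nat.cast_ne_zero.mpr (by omega)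
  have hd0 : (d : ℂ) ≠ 0 := Nat.cast_ne_zero.mpr (by omega)
  have hpi : (Real.pi : ℂ) ≠ 0 := by exact_mod_cast Real.pi_ne_zero
  set σ : ℂ := qsig τ a d b with hσ
  have hσim : 0 < σ.im := by
    rw [hσ, qsig_im τ hd b]
    have h1 : (0 : ℝ) < a := by exact_mod_cast ha
    have h2 : (0 : ℝ) < d := by exact_mod_cast hd
    positivity
  have hds : (d : ℂ) * (σ / (a : ℂ)) = τ + (b : ℂ) / (a : ℂ) := by
    rw [hσ]
    unfold qsig
    field_simp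
  -- the left side
  have hH : Summable fun m : ℤ => qrow ((m : ℂ) * σ) := by
    have := qrow_summable_tau hσim 0
    simpa using this
  obtain ⟨hHs, hHe⟩ := int_split hH hd
  rw [qrow_E2 hσim] at hHe
  -- the right side, term by term
  have hrow : ∀ k : ℕ, Summable fun x : ℤ => qrow ((k : ℂ) * (σ / (a : ℂ)) + (x : ℂ) * τ) :=
    fun k => qrow_summable_tau hτ _
  have hshift : ∀ (m₀ t : ℕ), ∑' x : ℤ, qrow (((m₀ + d * t : ℕ) : ℂ) * (σ / (a : ℂ)) + (x : ℂ) * τ)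
      = ∑' m₁ : ℤ, qrow (((m₁ * (d : ℤ) + (m₀ : ℤ) : ℤ) : ℂ) * σ / (a : ℂ) +
        ((((t : ℤ) - m₁) * b : ℤ) : ℂ) / (a : ℂ)) := by
    intro m₀ t
    rw [← (Equiv.subRight (t : ℤ)).tsum_eq
      (fun x : ℤ => qrow (((m₀ + d * t : ℕ) : ℂ) * (σ / (a : ℂ)) + (x : ℂ) * τ))]
    refine tsum_congr fun m₁ => ?_
    congr 1
    rw [Equiv.subRight_apply]
    push_cast
    have h1 : τ = (d : ℂ) * (σ / (a : ℂ)) - (b : ℂ) / (a : ℂ) := by rw [hds]; ring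
    rw [h1]
    ring
  have hsumm : ∀ (m₀ t : ℕ), Summable fun m₁ : ℤ =>
      qrow (((m₁ * (d : ℤ) + (m₀ : ℤ) : ℤ) : ℂ) * σ / (a : ℂ) +
        ((((t : ℤ) - m₁) * b : ℤ) : ℂ) / (a : ℂ)) := by
    intro m₀ t
    have h1 := ((Equiv.subRight (t : ℤ)).summable_iff).mpr (hrow (m₀ + d * t))
    refine h1.congr fun m₁ => ?_
    rw [Function.comp_apply, Equiv.subRight_apply]
    congr 1
    push_cast
    have h1 : τ = (d : ℂ) * (σ / (a : ℂ)) - (b : ℂ) / (a : ℂ) := by rw [hds]; ring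
    rw [h1]
    ring
  have hR : ∑ k ∈ Finset.range (a * d), ∑' x : ℤ, qrow ((k : ℂ) * (σ / (a : ℂ)) + (x : ℂ) * τ) =
      (a : ℂ) ^ 2 * ((Real.pi : ℂ) ^ 2 / 3 * E2f σ) := by
    rw [hHe, Finset.mul_sum,
      ← Fin.sum_univ_eq_sum_range
        (fun k : ℕ => ∑' x : ℤ, qrow ((k : ℂ) * (σ / (a : ℂ)) + (x : ℂ) * τ)),
      ← finProdFinEquiv.sum_comp, Fintype.sum_prod_type, Finset.sum_comm,
      ← Fin.sum_univ_eq_sum_range
        (fun m₀ : ℕ => (a : ℂ) ^ 2 * ∑' m₁ : ℤ, qrow (((m₁ * (d : ℤ) + (m₀ : ℤ) : ℤ) : ℂ) * σ))]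
    refine Finset.sum_congr rfl fun m₀ _ => ?_
    have h1 : ∀ t : Fin a, ∑' x : ℤ,
        qrow ((((finProdFinEquiv (t, m₀) : Fin (a * d)) : ℕ) : ℂ) * (σ / (a : ℂ)) + (x : ℂ) * τ) =
        ∑' m₁ : ℤ, qrow (((m₁ * (d : ℤ) + ((m₀ : ℕ) : ℤ) : ℤ) : ℂ) * σ / (a : ℂ) +
        (((((t : ℕ) : ℤ) - m₁) * b : ℤ) : ℂ) / (a : ℂ)) := by
      intro t
      rw [← hshift (m₀ : ℕ) (t : ℕ)]
      rfl
    rw [Finset.sum_congr rfl fun t _ => h1 t,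
      Fin.sum_univ_eq_sum_range (fun t : ℕ =>
        ∑' m₁ : ℤ, qrow (((m₁ * (d : ℤ) + ((m₀ : ℕ) : ℤ) : ℤ) : ℂ) * σ / (a : ℂ) +
        ((((t : ℤ) - m₁) * b : ℤ) : ℂ) / (a : ℂ))),
      ← Summable.tsum_finsetSum (fun t _ => hsumm (m₀ : ℕ) t), ← tsum_mul_left]
    refine tsum_congr fun m₁ => ?_
    rw [perm_sum ha hab m₁]
    congr 2
    field_simp
  -- splitting off `k = 0`
  have hN : 1 ≤ a * d := Nat.one_le_iff_ne_zero.mpr (Nat.mul_ne_zero (by omega) (by omega))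
  have h0 : ∑' x : ℤ, qrow (((0 : ℕ) : ℂ) * (σ / (a : ℂ)) + (x : ℂ) * τ) =
      (Real.pi : ℂ) ^ 2 / 3 * E2f τ := by
    rw [← qrow_E2 hτ]
    refine tsum_congr fun x => ?_
    rw [Nat.cast_zero, zero_mul, zero_add]
  have hk : ∀ k ∈ Finset.Ico 1 (a * d),
      ∑' x : ℤ, qrow ((k : ℂ) * (σ / (a : ℂ)) + (x : ℂ) * τ) =
      L.ω₁ ^ 2 * L.weierstrassP (qtor L τ a d b k) ^ 1 + (Real.pi : ℂ) ^ 2 / 3 * E2f τ := by
    intro k hk
    rw [Finset.mem_Ico] at hk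
    have h1 := qtor_notMem L hτ hL ha hd hab hk.1 hk.2
    rw [pow_one]
    exact qrow_wp L hτ hL ((k : ℂ) * (σ / (a : ℂ))) h1
  have hsplit : ∑ k ∈ Finset.range (a * d),
      ∑' x : ℤ, qrow ((k : ℂ) * (σ / (a : ℂ)) + (x : ℂ) * τ) =
      ((a : ℂ) * (d : ℂ)) * ((Real.pi : ℂ) ^ 2 / 3 * E2f τ) + L.ω₁ ^ 2 * qS L τ a d b 1 := by
    rw [Finset.range_eq_Ico, Finset.sum_eq_sum_Ico_succ_bot (by omega), h0]
    simp only [zero_add]
    rw [Finset.sum_congr rfl hk, Finset.sum_add_distrib, ← Finset.mul_sum]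
    rw [Finset.sum_const, Nat.card_Ico, nsmul_eq_mul, Nat.cast_sub hN]
    unfold qS
    push_cast
    ring
  rw [hR] at hsplit
  unfold qell
  have h3 : (Real.pi : ℂ) ^ 2 / 3 * ((a : ℂ) ^ 2 * E2f σ) = (Real.pi : ℂ) ^ 2 / 3 *
      (((a : ℂ) * (d : ℂ)) * E2f τ + 3 * L.ω₁ ^ 2 / (Real.pi : ℂ) ^ 2 * qS L τ a d b 1) := by
    have h4 : (Real.pi : ℂ) ^ 2 / 3 * (3 * L.ω₁ ^ 2 / (Real.pi : ℂ) ^ 2 * qS L τ a d b 1) =
        L.ω₁ ^ 2 * qS L τ a d b 1 := by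
      field_simp
    rw [mul_add, h4]
    linear_combination hsplit
  have h5 : (Real.pi : ℂ) ^ 2 / 3 ≠ 0 := by
    refine div_ne_zero (pow_ne_zero 2 hpi) (by norm_num)
  exact mul_left_cancel₀ h5 h3

end Pool.Agent.Lib.MP5e
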