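import Pool.Agent.Lib.MP_5e64e7_nt.QDefs
import Pool.Agent.Lib.MP_5e64e7_nt.OAdd

set_option autoImplicit false

/-!
# Q.MUL : universal multiplication polynomials (about 250 lines, adaptation of `OMul.lean`;
checked numerically for `k ≤ 7`)

Write `α = MvPolynomial.X 0`, `β = MvPolynomial.X 1` (as constants `C α`, `C β` of the polynomial ring). Induction:
* `k = 1` : `A = X`, `B = 1`.
* `k = 2m` : `A' = (A² + αB²)² + 8βAB³`, `B' = 4B(A³ - αAB² - βB³)`. From `wp_dup` (`OAdd.lean`) and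
  `derivWeierstrassP_sq` (`℘'² = 4℘³ - g₂℘ - g₃ = 4(℘³ - α℘ - β)`), `x = ℘ u`, `y = ℘ (2u)`:
  `16 (x³ - αx - β)(y + 2x) = (6x² - 2α)²`, i.e. `4 (x³ - αx - β) y = (x² + α)² + 8βx`. With `x b = a`
  (`a, b` the values of `A, B` at `℘ s`), multiplied by `b⁴`: `y · 4b(a³ - αab² - βb³) = (a² + αb²)² + 8βab³`.
* `k = 2m+1` : `B' = (A₁B - AB₁)²`, `A' = 2((AA₁ - αBB₁)(A₁B + AB₁) - 2βB²B₁²) - X·B'`. From `wp_sym` with
  `u = (m+1)s`, `v = ms`: `(℘(u+v) + ℘(u-v))(x - x')² = 2((x + x')(xx' - α) - 2β)`.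
Leading terms as in `OMul.lean` (`omulD`), now `A` is monic of degree `n+1`, `B` has degree `n` and leading
coefficient `m²` (and `n₁`, `(m+1)²` for `A₁`, `B₁`): `2m` : degrees `4n+4`, `4n+3`, leading coefficients `1`, `4m²`;
`2m+1` : degrees `2(n+n₁+1)+1`, `2(n+n₁+1)`, `2(m² + (m+1)²) - (2m+1)² = 1`, `(2m+1)²`. The ring
`MvPolynomial (Fin 2) ℤ` is a domain of characteristic zero, so `(k : MvPolynomial (Fin 2) ℤ)² ≠ 0`.
Sizes (`NormR_L` is subadditive and submultiplicative, `NormR_L_add`, `NormR_L_mul`; `qsp a b` is a ring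
homomorphism with `qsp a b (C α) = C a`, `qsp a b (C β) = C b`): with `H = R^(5m³)`, `H₁ = R^(5(m+1)³)`, `R ≥ 2`:
`L(A') ≤ H⁴((1+R)² + 8R) ≤ R⁵ H⁴`, `L(B') ≤ 4H⁴(1+2R) ≤ R⁵ H⁴` and `20m³ + 5 ≤ 5(2m)³`;
`L(B') ≤ 4(HH₁)²`, `L(A') ≤ 2((1+R)·2 + 2R)(HH₁)² + 4(HH₁)² = (8R+8)(HH₁)² ≤ R⁵(HH₁)²` and
`10(m³ + (m+1)³) + 5 ≤ 5(2m+1)³` for `m ≥ 1`. Degrees `≤ k³` as in `OMul.lean`.
-/

noncomputable section

namespace Pool.Agent.Lib.MP5e

open Polynomial Topology

/-! ### degrees and leading coefficients -/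

/-- degree at most `N` and coefficient `c` at `N` -/
private def qmulD (P : Polynomial (MvPolynomial (Fin 2) ℤ)) (N : ℕ)
    (c : MvPolynomial (Fin 2) ℤ) : Prop := P.natDegree ≤ N ∧ P.coeff N = c

private theorem qmulD.mul {P Q : Polynomial (MvPolynomial (Fin 2) ℤ)} {N M : ℕ}
    {c d : MvPolynomial (Fin 2) ℤ} (h : qmulD P N c) (h' : qmulD Q M d) :
    qmulD (P * Q) (N + M) (c * d) := by
  refine ⟨Polynomial.natDegree_mul_le_of_le h.1 h'.1, ?_⟩
  rw [Polynomial.coeff_mul_add_eq_of_natDegree_le h.1 h'.1, h.2, h'.2]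

private theorem qmulD.add {P Q : Polynomial (MvPolynomial (Fin 2) ℤ)} {N : ℕ}
    {c d : MvPolynomial (Fin 2) ℤ} (h : qmulD P N c) (h' : qmulD Q N d) :
    qmulD (P + Q) N (c + d) := by
  refine ⟨Polynomial.natDegree_add_le_of_degree_le h.1 h'.1, ?_⟩
  rw [Polynomial.coeff_add, h.2, h'.2]

private theorem qmulD.sub {P Q : Polynomial (MvPolynomial (Fin 2) ℤ)} {N : ℕ}
    {c d : MvPolynomial (Fin 2) ℤ} (h : qmulD P N c) (h' : qmulD Q N d) :
    qmulD (P - Q) N (c - d) := by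
  refine ⟨Polynomial.natDegree_sub_le_of_le h.1 h'.1 |>.trans (by simp), ?_⟩
  rw [Polynomial.coeff_sub, h.2, h'.2]

private theorem qmulD.lift {P : Polynomial (MvPolynomial (Fin 2) ℤ)} {N M : ℕ}
    {c : MvPolynomial (Fin 2) ℤ} (h : qmulD P N c) (hNM : N < M) : qmulD P M 0 :=
  ⟨h.1.trans hNM.le, Polynomial.coeff_eq_zero_of_natDegree_lt (h.1.trans_lt hNM)⟩

private theorem qmulD.smul {P : Polynomial (MvPolynomial (Fin 2) ℤ)} {N : ℕ}
    {c : MvPolynomial (Fin 2) ℤ} (a : MvPolynomial (Fin 2) ℤ) (h : qmulD P N c) :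
    qmulD (C a * P) N (a * c) := by
  refine ⟨(Polynomial.natDegree_C_mul_le _ _).trans h.1, ?_⟩
  rw [Polynomial.coeff_C_mul, h.2]

private theorem qmulD.cast {P : Polynomial (MvPolynomial (Fin 2) ℤ)} {N M : ℕ}
    {c d : MvPolynomial (Fin 2) ℤ} (h : qmulD P N c) (h1 : N = M) (h2 : c = d) :
    qmulD P M d := by
  subst h1 h2; exact h

private theorem qmulD.lead {P : Polynomial (MvPolynomial (Fin 2) ℤ)} {N : ℕ}
    {c : MvPolynomial (Fin 2) ℤ} (h : qmulD P N c) (hc : c ≠ 0) :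
    P.natDegree = N ∧ P.leadingCoeff = c := by
  have h1 : P.natDegree = N := by
    refine le_antisymm h.1 (Polynomial.le_natDegree_of_ne_zero ?_)
    rw [h.2]; exact hc
  refine ⟨h1, ?_⟩
  rw [Polynomial.leadingCoeff, h1, h.2]

private theorem qmulD_self (P : Polynomial (MvPolynomial (Fin 2) ℤ)) :
    qmulD P P.natDegree P.leadingCoeff := ⟨le_rfl, rfl⟩

/-! ### sizes -/

private def qmulN (P : ℂ[X]) (x : ℝ) : Prop := NormR_L P ≤ x

private theorem qmulN.nonneg {P : ℂ[X]} {x : ℝ} (h : qmulN P x) : 0 ≤ x :=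
  (NormR_L_nonneg P).trans h

private theorem qmulN.mul {P Q : ℂ[X]} {x y : ℝ} (h : qmulN P x) (h' : qmulN Q y) :
    qmulN (P * Q) (x * y) :=
  (NormR_L_mul P Q).trans (mul_le_mul h h' (NormR_L_nonneg Q) h.nonneg)

private theorem qmulN.add {P Q : ℂ[X]} {x y : ℝ} (h : qmulN P x) (h' : qmulN Q y) :
    qmulN (P + Q) (x + y) :=
  (NormR_L_add P Q).trans (add_le_add h h')

private theorem qmulN.smul {P : ℂ[X]} {x : ℝ} (h : qmulN P x) {c : ℂ} {r : ℝ} (hc : ‖c‖ ≤ r) :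
    qmulN (C c * P) (r * x) := by
  have h1 : qmulN (C c) r := by
    have := NormR_L_monomial 0 c
    unfold qmulN
    rw [← Polynomial.monomial_zero_left, this]
    exact hc
  exact h1.mul h

private theorem qmulN.sub {P Q : ℂ[X]} {x y : ℝ} (h : qmulN P x) (h' : qmulN Q y) :
    qmulN (P - Q) (x + y) := by
  have h1 : P - Q = P + C (-1) * Q := by
    rw [C_neg, C_1]; ring
  have h2 := h'.smul (c := -1) (r := 1) (by simp)
  rw [one_mul] at h2
  rw [h1]
  exact h.add h2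

private theorem qmulN.le {P : ℂ[X]} {x y : ℝ} (h : qmulN P x) (h' : x ≤ y) : qmulN P y :=
  le_trans h h'

private theorem qmulN_X : qmulN X 1 := by
  unfold qmulN
  rw [← Polynomial.monomial_one_one_eq_X, NormR_L_monomial]
  simp

/-! ### specialisation -/

private theorem qmul_ev0 {S : Type*} [CommRing S] (a b : S) :
    qev a b (MvPolynomial.X 0) = a := by
  simp [qev]

private theorem qmul_ev1 {S : Type*} [CommRing S] (a b : S) :
    qev a b (MvPolynomial.X 1) = b := by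
  simp [qev]

private theorem qmul_sp_mul {S : Type*} [CommRing S] (a b : S)
    (P Q : Polynomial (MvPolynomial (Fin 2) ℤ)) :
    qsp a b (P * Q) = qsp a b P * qsp a b Q := Polynomial.map_mul _

private theorem qmul_sp_add {S : Type*} [CommRing S] (a b : S)
    (P Q : Polynomial (MvPolynomial (Fin 2) ℤ)) :
    qsp a b (P + Q) = qsp a b P + qsp a b Q := Polynomial.map_add _

private theorem qmul_sp_sub {S : Type*} [CommRing S] (a b : S)
    (P Q : Polynomial (MvPolynomial (Fin 2) ℤ)) :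
    qsp a b (P - Q) = qsp a b P - qsp a b Q := Polynomial.map_sub _

private theorem qmul_sp_C {S : Type*} [CommRing S] (a b : S)
    (c : MvPolynomial (Fin 2) ℤ) :
    qsp a b (C c) = C (qev a b c) := Polynomial.map_C _

private theorem qmul_sp_X {S : Type*} [CommRing S] (a b : S) :
    qsp a b X = X := Polynomial.map_X _

private theorem qmul_sp_2 {S : Type*} [CommRing S] (a b : S) : qsp a b 2 = 2 := by
  simp [qsp]

private theorem qmul_sp_4 {S : Type*} [CommRing S] (a b : S) : qsp a b 4 = 4 := by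
  simp [qsp]

private theorem qmul_sp_8 {S : Type*} [CommRing S] (a b : S) : qsp a b 8 = 8 := by
  simp [qsp]

/-! ### the even case -/

private theorem qmul_even {m : ℕ} (hm : 1 ≤ m) {A B : Polynomial (MvPolynomial (Fin 2) ℤ)}
    (h : QMult m A B) :
    ∃ A' B' : Polynomial (MvPolynomial (Fin 2) ℤ), QMult (2 * m) A' B' := by
  obtain ⟨hA0, hdeg, hlead, hle, hLAB, hev⟩ := h
  set n := B.natDegree with hn
  set μ : MvPolynomial (Fin 2) ℤ := ((m : ℕ) : MvPolynomial (Fin 2) ℤ) with hμ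
  have hμ0 : μ ≠ 0 := by
    rw [hμ]; exact Nat.cast_ne_zero.2 (by omega)
  have h20 : (2 : MvPolynomial (Fin 2) ℤ) ≠ 0 := two_ne_zero
  set α : MvPolynomial (Fin 2) ℤ := MvPolynomial.X 0 with hα
  set β : MvPolynomial (Fin 2) ℤ := MvPolynomial.X 1 with hβ
  have dA : qmulD A (n + 1) 1 := (qmulD_self A).cast hdeg hA0
  have dB : qmulD B n (μ ^ 2) := (qmulD_self B).cast rfl hlead
  have dAA : qmulD (A * A) (2 * n + 2) 1 := (dA.mul dA).cast (by ring) (by ring)
  have dBB : qmulD (B * B) (2 * n) (μ ^ 4) := (dB.mul dB).cast (by ring) (by ring)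
  have dS : qmulD (A * A + C α * (B * B)) (2 * n + 2) 1 :=
    (dAA.add ((dBB.lift (M := 2 * n + 2) (by omega)).smul α)).cast rfl (by ring)
  have dW : qmulD (A * B * (B * B)) (4 * n + 1) (μ ^ 6) :=
    ((dA.mul dB).mul dBB).cast (by ring) (by ring)
  have dA' : qmulD ((A * A + C α * (B * B)) * (A * A + C α * (B * B)) +
      C (8 * β) * (A * B * (B * B))) (4 * n + 4) 1 :=
    (((dS.mul dS).cast (M := 4 * n + 4) (by ring) rfl).add
      ((dW.lift (M := 4 * n + 4) (by omega)).smul (8 * β))).cast rfl (by ring)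
  have dAAA : qmulD (A * A * A) (3 * n + 3) 1 := (dAA.mul dA).cast (by ring) (by ring)
  have dABB : qmulD (A * (B * B)) (3 * n + 1) (μ ^ 4) := (dA.mul dBB).cast (by ring) (by ring)
  have dBBB : qmulD (B * (B * B)) (3 * n) (μ ^ 6) := (dB.mul dBB).cast (by ring) (by ring)
  have dV : qmulD (A * A * A - C α * (A * (B * B)) - C β * (B * (B * B))) (3 * n + 3) 1 :=
    ((dAAA.sub ((dABB.lift (M := 3 * n + 3) (by omega)).smul α)).sub
      ((dBBB.lift (M := 3 * n + 3) (by omega)).smul β)).cast rfl (by ring)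
  have dB' : qmulD (C 4 * (B * (A * A * A - C α * (A * (B * B)) - C β * (B * (B * B)))))
      (4 * n + 3) ((2 * μ) ^ 2) := ((dB.mul dV).smul 4).cast (by ring) (by ring)
  have lA := dA'.lead one_ne_zero
  have lB := dB'.lead (pow_ne_zero _ (mul_ne_zero h20 hμ0))
  have hm3 : 1 ≤ m ^ 3 := Nat.one_le_pow _ _ (by omega)
  have hcube : (2 * m) ^ 3 = 8 * m ^ 3 := by ring
  refine ⟨(A * A + C α * (B * B)) * (A * A + C α * (B * B)) + C (8 * β) * (A * B * (B * B)),
    C 4 * (B * (A * A * A - C α * (A * (B * B)) - C β * (B * (B * B)))), ?_, ?_, ?_, ?_, ?_, ?_⟩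
  · exact lA.2
  · rw [lA.1, lB.1]
  · rw [lB.2, hμ]; push_cast; ring
  · rw [lA.1, hcube]
    have : n + 1 ≤ m ^ 3 := by rw [← hdeg]; exact hle
    omega
  · intro R hR a b ha hb
    obtain ⟨hLA, hLB⟩ := hLAB R hR a b ha hb
    set H := R ^ (5 * m ^ 3) with hH
    have hR0 : 0 ≤ R := by linarith
    have hR1 : 1 ≤ R := by linarith
    have nA : qmulN (qsp a b A) H := hLA
    have nB : qmulN (qsp a b B) H := hLB
    have hH0 : 0 ≤ H := nA.nonneg
    have hR3 : 8 ≤ R ^ 3 := by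
      have := pow_le_pow_left₀ (by norm_num : (0 : ℝ) ≤ 2) hR 3
      linarith
    have hR5 : 8 * R ^ 2 ≤ R ^ 5 := by
      have := mul_le_mul_of_nonneg_right hR3 (sq_nonneg R)
      calc 8 * R ^ 2 ≤ R ^ 3 * R ^ 2 := this
        _ = R ^ 5 := by ring
    have hR2 : 2 * R ≤ R ^ 2 := by nlinarith
    have hH4 : R ^ 5 * H ^ 4 ≤ R ^ (5 * (2 * m) ^ 3) := by
      rw [hH, ← pow_mul, ← pow_add]
      exact pow_le_pow_right₀ hR1 (by rw [hcube]; omega)
    have n8 : ‖8 * b‖ ≤ 8 * R := by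
      rw [norm_mul]
      have : ‖(8 : ℂ)‖ = 8 := by simp
      rw [this]
      exact mul_le_mul_of_nonneg_left hb (by norm_num)
    have n4 : ‖(4 : ℂ)‖ ≤ 4 := by simp
    constructor
    · have e1 : qsp a b ((A * A + C α * (B * B)) * (A * A + C α * (B * B)) +
          C (8 * β) * (A * B * (B * B))) =
          (qsp a b A * qsp a b A + C a * (qsp a b B * qsp a b B)) *
            (qsp a b A * qsp a b A + C a * (qsp a b B * qsp a b B)) +
          C (8 * b) * (qsp a b A * qsp a b B * (qsp a b B * qsp a b B)) := by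
        simp only [qmul_sp_mul, qmul_sp_add, qmul_sp_C, map_mul, hα, hβ, qmul_ev0, qmul_ev1,
          map_ofNat, qmul_sp_2, qmul_sp_4, qmul_sp_8]
      rw [e1]
      have n1 : qmulN (qsp a b A * qsp a b A + C a * (qsp a b B * qsp a b B))
          (H * H + R * (H * H)) := (nA.mul nA).add ((nB.mul nB).smul ha)
      refine ((n1.mul n1).add (((nA.mul nB).mul (nB.mul nB)).smul n8)).le (le_trans ?_ hH4)
      have e2 : (H * H + R * (H * H)) * (H * H + R * (H * H)) + 8 * R * (H * H * (H * H)) =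
          (R ^ 2 + 10 * R + 1) * H ^ 4 := by ring
      rw [e2]
      exact mul_le_mul_of_nonneg_right (by linarith) (by positivity)
    · have e1 : qsp a b (C 4 * (B * (A * A * A - C α * (A * (B * B)) - C β * (B * (B * B))))) =
          C 4 * (qsp a b B * (qsp a b A * qsp a b A * qsp a b A -
            C a * (qsp a b A * (qsp a b B * qsp a b B)) -
            C b * (qsp a b B * (qsp a b B * qsp a b B)))) := by
        simp only [qmul_sp_mul, qmul_sp_sub, qmul_sp_C, hα, hβ, qmul_ev0, qmul_ev1,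
          map_ofNat, qmul_sp_2, qmul_sp_4, qmul_sp_8]
      rw [e1]
      refine ((nB.mul ((((nA.mul nA).mul nA).sub ((nA.mul (nB.mul nB)).smul ha)).sub
        ((nB.mul (nB.mul nB)).smul hb))).smul n4).le (le_trans ?_ hH4)
      have e2 : 4 * (H * (H * H * H + R * (H * (H * H)) + R * (H * (H * H)))) =
          (8 * R + 4) * H ^ 4 := by ring
      rw [e2]
      exact mul_le_mul_of_nonneg_right (by linarith) (by positivity)
  · intro L s hs
    have hu : (m : ℂ) * s ∉ L.lattice := hs m hm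
    have hu2 : (m : ℂ) * s + (m : ℂ) * s = ((2 * m : ℕ) : ℂ) * s := by push_cast; ring
    have h2u : (m : ℂ) * s + (m : ℂ) * s ∉ L.lattice := by
      rw [hu2]; exact hs (2 * m) (by omega)
    have hd := wp_dup L hu h2u
    rw [L.derivWeierstrassP_sq _ hu, hu2] at hd
    have he := hev L s hs
    simp only [qmul_sp_mul, qmul_sp_add, qmul_sp_sub, qmul_sp_C, map_mul, hα, hβ, qmul_ev0,
      qmul_ev1, map_ofNat, qmul_sp_2, qmul_sp_4, qmul_sp_8, eval_ofNat, eval_mul, eval_add, eval_sub, eval_C]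
    rw [← he]
    linear_combination (1 / 4) * ((qsp (L.g₂ / 4) (L.g₃ / 4) B).eval (L.weierstrassP s)) ^ 4 * hd

/-! ### the odd case -/

private theorem qmul_odd {m : ℕ} (hm : 1 ≤ m)
    {A B A₁ B₁ : Polynomial (MvPolynomial (Fin 2) ℤ)} (h : QMult m A B)
    (h₁ : QMult (m + 1) A₁ B₁) :
    ∃ A' B' : Polynomial (MvPolynomial (Fin 2) ℤ), QMult (2 * m + 1) A' B' := by
  obtain ⟨hA0, hdeg, hlead, hle, hLAB, hev⟩ := h
  obtain ⟨hA0', hdeg', hlead', hle', hLAB', hev'⟩ := h₁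
  set n := B.natDegree with hn
  set n₁ := B₁.natDegree with hn₁
  set μ : MvPolynomial (Fin 2) ℤ := ((m : ℕ) : MvPolynomial (Fin 2) ℤ) with hμ
  have hk0 : 2 * μ + 1 ≠ 0 := by
    have h1 : 2 * μ + 1 = ((2 * m + 1 : ℕ) : MvPolynomial (Fin 2) ℤ) := by
      rw [hμ]; push_cast; ring
    rw [h1]
    exact Nat.cast_ne_zero.2 (by omega)
  set α : MvPolynomial (Fin 2) ℤ := MvPolynomial.X 0 with hα
  set β : MvPolynomial (Fin 2) ℤ := MvPolynomial.X 1 with hβ
  have dA : qmulD A (n + 1) 1 := (qmulD_self A).cast hdeg hA0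
  have dB : qmulD B n (μ ^ 2) := (qmulD_self B).cast rfl hlead
  have dA₁ : qmulD A₁ (n₁ + 1) 1 := (qmulD_self A₁).cast hdeg' hA0'
  have dB₁ : qmulD B₁ n₁ ((μ + 1) ^ 2) := (qmulD_self B₁).cast rfl (by
    rw [hlead']; push_cast; rfl)
  have d1 : qmulD (A₁ * B) (n + n₁ + 1) (μ ^ 2) := (dA₁.mul dB).cast (by ring) (by ring)
  have d2 : qmulD (A * B₁) (n + n₁ + 1) ((μ + 1) ^ 2) := (dA.mul dB₁).cast (by ring) (by ring)
  have d3 : qmulD (A * A₁) (n + n₁ + 2) 1 := (dA.mul dA₁).cast (by ring) (by ring)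
  have d4 : qmulD (B * B₁) (n + n₁ + 2) 0 := (dB.mul dB₁).lift (by omega)
  have dP : qmulD (A₁ * B - A * B₁) (n + n₁ + 1) (-(2 * μ + 1)) :=
    (d1.sub d2).cast rfl (by ring)
  have dB' : qmulD ((A₁ * B - A * B₁) * (A₁ * B - A * B₁)) (2 * (n + n₁ + 1))
      ((2 * μ + 1) ^ 2) := (dP.mul dP).cast (by ring) (by ring)
  have dR : qmulD (A * A₁ - C α * (B * B₁)) (n + n₁ + 2) 1 :=
    (d3.sub (d4.smul α)).cast rfl (by ring)
  have dT : qmulD (A₁ * B + A * B₁) (n + n₁ + 1) (μ ^ 2 + (μ + 1) ^ 2) := d1.add d2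
  have dY : qmulD (B * B * (B₁ * B₁)) (2 * (n + n₁ + 1) + 1) 0 :=
    ((dB.mul dB).mul (dB₁.mul dB₁)).lift (by omega)
  have dX : qmulD (X : Polynomial (MvPolynomial (Fin 2) ℤ)) 1 1 :=
    ⟨Polynomial.natDegree_X.le, Polynomial.coeff_X_one⟩
  have dA' : qmulD (C 2 * ((A * A₁ - C α * (B * B₁)) * (A₁ * B + A * B₁) -
      C (2 * β) * (B * B * (B₁ * B₁))) -
      X * ((A₁ * B - A * B₁) * (A₁ * B - A * B₁))) (2 * (n + n₁ + 1) + 1) 1 :=
    ((((dR.mul dT).cast (M := 2 * (n + n₁ + 1) + 1) (by ring) rfl).sub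
      (dY.smul (2 * β))).smul 2 |>.sub ((dX.mul dB').cast (by ring) rfl)).cast rfl (by ring)
  have lA := dA'.lead one_ne_zero
  have lB := dB'.lead (pow_ne_zero _ hk0)
  have hm3 : 1 ≤ m ^ 3 := Nat.one_le_pow _ _ (by omega)
  have hm2 : 1 ≤ m ^ 2 := Nat.one_le_pow _ _ (by omega)
  have hcube : (2 * m + 1) ^ 3 = 8 * m ^ 3 + 12 * m ^ 2 + 6 * m + 1 := by ring
  have hcube1 : (m + 1) ^ 3 = m ^ 3 + 3 * m ^ 2 + 3 * m + 1 := by ring
  refine ⟨C 2 * ((A * A₁ - C α * (B * B₁)) * (A₁ * B + A * B₁) -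
      C (2 * β) * (B * B * (B₁ * B₁))) - X * ((A₁ * B - A * B₁) * (A₁ * B - A * B₁)),
    (A₁ * B - A * B₁) * (A₁ * B - A * B₁), ?_, ?_, ?_, ?_, ?_, ?_⟩
  · exact lA.2
  · rw [lA.1, lB.1]
  · rw [lB.2, hμ]; push_cast; ring
  · rw [lA.1, hcube]
    have q1 : n + 1 ≤ m ^ 3 := by rw [← hdeg]; exact hle
    have q2 : n₁ + 1 ≤ (m + 1) ^ 3 := by rw [← hdeg']; exact hle'
    rw [hcube1] at q2
    omega
  · intro R hR a b ha hb
    obtain ⟨hLA, hLB⟩ := hLAB R hR a b ha hb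
    obtain ⟨hLA', hLB'⟩ := hLAB' R hR a b ha hb
    set H := R ^ (5 * m ^ 3) with hH
    set H₁ := R ^ (5 * (m + 1) ^ 3) with hH₁
    have hR0 : 0 ≤ R := by linarith
    have hR1 : 1 ≤ R := by linarith
    have nA : qmulN (qsp a b A) H := hLA
    have nB : qmulN (qsp a b B) H := hLB
    have nA₁ : qmulN (qsp a b A₁) H₁ := hLA'
    have nB₁ : qmulN (qsp a b B₁) H₁ := hLB'
    have hH0 : 0 ≤ H := nA.nonneg
    have hH0' : 0 ≤ H₁ := nA₁.nonneg
    have hR3 : 8 ≤ R ^ 3 := by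
      have := pow_le_pow_left₀ (by norm_num : (0 : ℝ) ≤ 2) hR 3
      linarith
    have hR5 : 8 * R ^ 2 ≤ R ^ 5 := by
      have := mul_le_mul_of_nonneg_right hR3 (sq_nonneg R)
      calc 8 * R ^ 2 ≤ R ^ 3 * R ^ 2 := this
        _ = R ^ 5 := by ring
    have hR2 : 2 * R ≤ R ^ 2 := by nlinarith
    have hH4 : R ^ 5 * (H * H₁) ^ 2 ≤ R ^ (5 * (2 * m + 1) ^ 3) := by
      have e0 : R ^ 5 * (H * H₁) ^ 2 = R ^ (5 + (5 * m ^ 3 + 5 * (m + 1) ^ 3) * 2) := by
        rw [hH, hH₁, pow_add R 5, pow_mul R (5 * m ^ 3 + 5 * (m + 1) ^ 3) 2, pow_add R (5 * m ^ 3)]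
      rw [e0]
      exact pow_le_pow_right₀ hR1 (by rw [hcube, hcube1]; omega)
    have n2 : ‖2 * b‖ ≤ 2 * R := by
      rw [norm_mul]
      have : ‖(2 : ℂ)‖ = 2 := by simp
      rw [this]
      exact mul_le_mul_of_nonneg_left hb (by norm_num)
    have n2' : ‖(2 : ℂ)‖ ≤ 2 := by simp
    have nP : qmulN (qsp a b A₁ * qsp a b B - qsp a b A * qsp a b B₁) (H₁ * H + H * H₁) :=
      (nA₁.mul nB).sub (nA.mul nB₁)
    constructor
    · have e1 : qsp a b (C 2 * ((A * A₁ - C α * (B * B₁)) * (A₁ * B + A * B₁) -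
          C (2 * β) * (B * B * (B₁ * B₁))) - X * ((A₁ * B - A * B₁) * (A₁ * B - A * B₁))) =
          C 2 * ((qsp a b A * qsp a b A₁ - C a * (qsp a b B * qsp a b B₁)) *
            (qsp a b A₁ * qsp a b B + qsp a b A * qsp a b B₁) -
            C (2 * b) * (qsp a b B * qsp a b B * (qsp a b B₁ * qsp a b B₁))) -
          X * ((qsp a b A₁ * qsp a b B - qsp a b A * qsp a b B₁) *
            (qsp a b A₁ * qsp a b B - qsp a b A * qsp a b B₁)) := by
        simp only [qmul_sp_mul, qmul_sp_add, qmul_sp_sub, qmul_sp_C, qmul_sp_X, map_mul, hα, hβ,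
          qmul_ev0, qmul_ev1, map_ofNat, qmul_sp_2, qmul_sp_4, qmul_sp_8]
      rw [e1]
      refine ((((((nA.mul nA₁).sub ((nB.mul nB₁).smul ha)).mul
        ((nA₁.mul nB).add (nA.mul nB₁))).sub (((nB.mul nB).mul (nB₁.mul nB₁)).smul n2)).smul
          n2').sub (qmulN_X.mul (nP.mul nP))).le (le_trans ?_ hH4)
      have e2 : 2 * ((H * H₁ + R * (H * H₁)) * (H₁ * H + H * H₁) +
          2 * R * (H * H * (H₁ * H₁))) +
          1 * ((H₁ * H + H * H₁) * (H₁ * H + H * H₁)) = (8 * R + 8) * (H * H₁) ^ 2 := by ring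
      rw [e2]
      exact mul_le_mul_of_nonneg_right (by linarith) (by positivity)
    · have e1 : qsp a b ((A₁ * B - A * B₁) * (A₁ * B - A * B₁)) =
          (qsp a b A₁ * qsp a b B - qsp a b A * qsp a b B₁) *
            (qsp a b A₁ * qsp a b B - qsp a b A * qsp a b B₁) := by
        simp only [qmul_sp_mul, qmul_sp_sub]
      rw [e1]
      refine (nP.mul nP).le (le_trans ?_ hH4)
      have e2 : (H₁ * H + H * H₁) * (H₁ * H + H * H₁) = 4 * (H * H₁) ^ 2 := by ring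
      rw [e2]
      exact mul_le_mul_of_nonneg_right (by linarith) (by positivity)
  · intro L s hs
    have hv : (m : ℂ) * s ∉ L.lattice := hs m hm
    have hu : ((m + 1 : ℕ) : ℂ) * s ∉ L.lattice := hs (m + 1) (by omega)
    have hs1 : s ∉ L.lattice := by
      have := hs 1 le_rfl
      rwa [Nat.cast_one, one_mul] at this
    have huv : ((m + 1 : ℕ) : ℂ) * s + (m : ℂ) * s = ((2 * m + 1 : ℕ) : ℂ) * s := by
      push_cast; ring
    have huv' : ((m + 1 : ℕ) : ℂ) * s - (m : ℂ) * s = s := by push_cast; ring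
    have h1 : ((m + 1 : ℕ) : ℂ) * s + (m : ℂ) * s ∉ L.lattice := by
      rw [huv]; exact hs (2 * m + 1) (by omega)
    have h2 : ((m + 1 : ℕ) : ℂ) * s - (m : ℂ) * s ∉ L.lattice := by rw [huv']; exact hs1
    have hsym := wp_sym L hu hv h1 h2
    rw [huv, huv'] at hsym
    have he := hev L s hs
    have he' := hev' L s hs
    simp only [qmul_sp_mul, qmul_sp_add, qmul_sp_sub, qmul_sp_C, qmul_sp_X, map_mul, hα, hβ,
      qmul_ev0, qmul_ev1, map_ofNat, qmul_sp_2, qmul_sp_4, qmul_sp_8, eval_ofNat, eval_mul, eval_add, eval_sub, eval_C, eval_X]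
    rw [← he, ← he']
    linear_combination ((qsp (L.g₂ / 4) (L.g₃ / 4) B).eval (L.weierstrassP s) *
      (qsp (L.g₂ / 4) (L.g₃ / 4) B₁).eval (L.weierstrassP s)) ^ 2 * hsym

theorem qexists_mult (k : ℕ) (hk : 1 ≤ k) :
    ∃ A B : Polynomial (MvPolynomial (Fin 2) ℤ), QMult k A B := by
  induction k using Nat.strong_induction_on with
  | _ k ih =>
    rcases Nat.even_or_odd' k with ⟨m, rfl | rfl⟩
    · obtain ⟨A, B, h⟩ := ih m (by omega) (by omega)
      exact qmul_even (by omega) h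
    · rcases Nat.eq_zero_or_pos m with rfl | hm
      · refine ⟨X, 1, Polynomial.monic_X, ?_, ?_, ?_, ?_, ?_⟩
        · simp
        · simp
        · simp
        · intro R hR a b _ _
          have h1 : (1 : ℝ) ≤ R ^ (5 * (2 * 0 + 1) ^ 3) := one_le_pow₀ (by linarith)
          have h2 : qsp a b (X : Polynomial (MvPolynomial (Fin 2) ℤ)) = X := Polynomial.map_X _
          have h3 : qsp a b (1 : Polynomial (MvPolynomial (Fin 2) ℤ)) = 1 := Polynomial.map_one _
          rw [h2, h3, NormR_L_one]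
          exact ⟨le_trans qmulN_X h1, h1⟩
        · intro L s _
          simp [qsp]
      · obtain ⟨A, B, h⟩ := ih m (by omega) hm
        obtain ⟨A₁, B₁, h₁⟩ := ih (m + 1) (by omega) (by omega)
        exact qmul_odd hm h h₁

end Pool.Agent.Lib.MP5e
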