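import Pool.Agent.Lib.MP_5e64e7_nt.QMul

set_option autoImplicit false

/-!
# Q.RAT : torsion values are roots; `℘(ks) ∈ K(℘(s))`
-/

noncomputable section

namespace Pool.Agent.Lib.MP5e

open Polynomial Topology

theorem qsp_map {S T : Type*} [CommRing S] [CommRing T] (φ : S →+* T) (a b : S)
    (P : Polynomial (MvPolynomial (Fin 2) ℤ)) : (qsp a b P).map φ = qsp (φ a) (φ b) P := by
  unfold qsp
  rw [Polynomial.map_map]
  congr 1
  apply MvPolynomial.ringHom_ext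
  · intro n
    simp [qev]
  · intro i
    fin_cases i
    · simp [qev]
    · simp [qev]

theorem QNT_dense (L : PeriodPair) : Dense (QNT L) := by
  have hc : ((QNT L)ᶜ : Set ℂ).Countable := by
    have h1 : ((QNT L)ᶜ : Set ℂ) ⊆ ⋃ j : ℕ, ⋃ (_ : 1 ≤ j), {s : ℂ | (j : ℂ) * s ∈ L.lattice} := by
      intro s hs
      have hs' : ¬ ∀ j : ℕ, 1 ≤ j → (j : ℂ) * s ∉ L.lattice := hs
      push Not at hs'
      obtain ⟨j, hj, hjs⟩ := hs'
      exact Set.mem_iUnion.2 ⟨j, Set.mem_iUnion.2 ⟨hj, hjs⟩⟩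
    refine Set.Countable.mono h1 (Set.countable_iUnion fun j => Set.countable_iUnion fun hj => ?_)
    have hj0 : (j : ℂ) ≠ 0 := by
      have : j ≠ 0 := by omega
      exact_mod_cast this
    have hL : (L.lattice : Set ℂ).Countable := by
      have : Countable L.lattice := L.latticeEquivProd.toEquiv.countable_iff.2 inferInstance
      exact Set.to_countable _
    refine Set.MapsTo.countable_of_injOn (f := fun s : ℂ => (j : ℂ) * s) (t := (L.lattice : Set ℂ))
      (fun s hs => hs) ?_ hL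
    intro a _ b _ hab
    exact mul_left_cancel₀ hj0 hab
  have h := Set.Countable.dense_compl ℝ hc
  rwa [compl_compl] at h

private lemma qrat_wpcont (L : PeriodPair) {s : ℂ} (hs : s ∉ L.lattice) :
    ContinuousAt L.weierstrassP s := (wp_first L hs).continuousAt

private lemma qrat_cont (L : PeriodPair) {s : ℂ} (hs : s ∉ L.lattice) (A : ℂ[X]) :
    ContinuousAt (fun t => A.eval (L.weierstrassP t)) s := by
  have h : (fun t => A.eval (L.weierstrassP t)) = (fun x : ℂ => A.eval x) ∘ L.weierstrassP := rfl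
  rw [h]
  exact (Polynomial.continuous A).continuousAt.comp (qrat_wpcont L hs)

theorem qtor_root {N : ℕ} (hN : 1 ≤ N) (L : PeriodPair) {s : ℂ} (hs : s ∉ L.lattice)
    (hNs : (N : ℂ) * s ∈ L.lattice) {A B : Polynomial (MvPolynomial (Fin 2) ℤ)}
    (h : QMult N A B) : (qsp (L.g₂ / 4) (L.g₃ / 4) B).eval (L.weierstrassP s) = 0 := by
  obtain ⟨-, -, -, -, -, hrel0⟩ := h
  have hrel := hrel0 L
  obtain ⟨A', hA'⟩ : ∃ A' : ℂ[X], A' = qsp (L.g₂ / 4) (L.g₃ / 4) A := ⟨_, rfl⟩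
  obtain ⟨B', hB'⟩ : ∃ B' : ℂ[X], B' = qsp (L.g₂ / 4) (L.g₃ / 4) B := ⟨_, rfl⟩
  rw [← hA', ← hB'] at hrel
  rw [← hB']
  have hne : (𝓝[QNT L] s).NeBot := mem_closure_iff_nhdsWithin_neBot.mp (QNT_dense L s)
  have hN0 : (N : ℂ) ≠ 0 := by exact_mod_cast (by omega : N ≠ 0)
  have hA : Filter.Tendsto (fun t => A'.eval (L.weierstrassP t)) (𝓝[QNT L] s)
      (𝓝 (A'.eval (L.weierstrassP s))) := (qrat_cont L hs A').tendsto.mono_left nhdsWithin_le_nhds
  have hB : Filter.Tendsto (fun t => B'.eval (L.weierstrassP t)) (𝓝[QNT L] s)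
      (𝓝 (B'.eval (L.weierstrassP s))) := (qrat_cont L hs B').tendsto.mono_left nhdsWithin_le_nhds
  have hmul : Filter.Tendsto (fun t : ℂ => (N : ℂ) * t) (𝓝[QNT L] s) (𝓝[≠] ((N : ℂ) * s)) := by
    rw [tendsto_nhdsWithin_iff]
    refine ⟨((continuous_const.mul continuous_id).tendsto s).mono_left nhdsWithin_le_nhds, ?_⟩
    filter_upwards [self_mem_nhdsWithin] with t ht hts
    have h1 : (N : ℂ) * t = (N : ℂ) * s := hts
    exact ht N hN (h1 ▸ hNs)
  have hinf := (wp_pole L hNs).comp hmul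
  have hinv : Filter.Tendsto (fun t : ℂ => (L.weierstrassP ((N : ℂ) * t))⁻¹) (𝓝[QNT L] s) (𝓝 0) := by
    rw [tendsto_zero_iff_norm_tendsto_zero]
    simp only [norm_inv]
    exact hinf.inv_tendsto_atTop
  have hev : (fun t => A'.eval (L.weierstrassP t) * (L.weierstrassP ((N : ℂ) * t))⁻¹)
      =ᶠ[𝓝[QNT L] s] fun t => B'.eval (L.weierstrassP t) := by
    filter_upwards [self_mem_nhdsWithin, hinf.eventually (Filter.eventually_gt_atTop 0)] with t ht hpos
    have h1 : L.weierstrassP ((N : ℂ) * t) ≠ 0 := norm_pos_iff.mp hpos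
    rw [← hrel t ht]
    field_simp
  have h2 := (hA.mul hinv).congr' hev
  rw [mul_zero] at h2
  exact tendsto_nhds_unique hB h2

/-- a nonzero polynomial in `℘` does not vanish identically near `s` -/
private lemma qrat_ne (L : PeriodPair) {s : ℂ} (hs : s ∉ L.lattice) (G : ℂ[X]) (hG : G ≠ 0) :
    ∀ᶠ t in 𝓝[≠] s, G.eval (L.weierstrassP t) ≠ 0 := by
  have han : ∀ t ∈ ((L.lattice : Set ℂ)ᶜ),
      AnalyticAt ℂ (fun t => G.eval (L.weierstrassP t)) t := by
    intro t ht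
    have h1 := (L.analyticOnNhd_weierstrassP t ht).aeval_polynomial G
    refine h1.congr ?_
    filter_upwards with u
    rw [Polynomial.coe_aeval_eq_eval]
  rcases (han s hs).eventually_eq_zero_or_eventually_ne_zero with h0 | h0
  · exfalso
    have hL : (L.lattice : Set ℂ).Countable := by
      have : Countable L.lattice := L.latticeEquivProd.toEquiv.countable_iff.2 inferInstance
      exact Set.to_countable _
    have hpre : IsPreconnected ((L.lattice : Set ℂ)ᶜ) :=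
      (hL.isConnected_compl_of_one_lt_rank (by simp)).isPreconnected
    have hall := AnalyticOnNhd.eqOn_zero_of_preconnected_of_eventuallyEq_zero
      (f := fun t => G.eval (L.weierstrassP t)) (fun t ht => han t ht) hpre hs h0
    obtain ⟨R, hR⟩ : ∃ R : ℝ, ∀ x : ℂ, G.eval x = 0 → ‖x‖ ≤ R := by
      have hfin : {x : ℂ | G.eval x = 0}.Finite := Polynomial.finite_setOfPred_isRoot hG
      obtain ⟨R, hR⟩ := hfin.isBounded.exists_norm_le
      exact ⟨R, fun x hx => hR x hx⟩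
    have hpole := (wp_pole L (zero_mem L.lattice)).eventually (Filter.eventually_gt_atTop R)
    have hoff : ∀ᶠ t in 𝓝[≠] (0 : ℂ), t ∉ L.lattice := by
      have h := L.compl_lattice_sdiff_singleton_mem_nhds 0
      filter_upwards [mem_nhdsWithin_of_mem_nhds h, self_mem_nhdsWithin] with t ht hne hmem
      exact ht ⟨hmem, hne⟩
    obtain ⟨t, ht1, ht2⟩ := (hpole.and hoff).exists
    exact absurd (hR _ (hall ht2)) (not_le.mpr ht1)
  · exact h0

theorem qmult_rat {k : ℕ} (hk : 1 ≤ k) (L : PeriodPair) (K : IntermediateField ℚ ℂ)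
    (h2 : L.g₂ / 4 ∈ K) (h3 : L.g₃ / 4 ∈ K) {s : ℂ} (hs : s ∉ L.lattice)
    (hks : (k : ℂ) * s ∉ L.lattice) (hsK : L.weierstrassP s ∈ K) :
    L.weierstrassP ((k : ℂ) * s) ∈ K := by
  obtain ⟨A, B, -, -, hlc, -, -, hrel0⟩ := qexists_mult k hk
  have hrel := hrel0 L
  obtain ⟨A', hA'⟩ : ∃ A' : K[X], A' = qsp (⟨L.g₂ / 4, h2⟩ : K) (⟨L.g₃ / 4, h3⟩ : K) A := ⟨_, rfl⟩
  obtain ⟨B', hB'⟩ : ∃ B' : K[X], B' = qsp (⟨L.g₂ / 4, h2⟩ : K) (⟨L.g₃ / 4, h3⟩ : K) B := ⟨_, rfl⟩
  have hAm : A'.map (algebraMap K ℂ) = qsp (L.g₂ / 4) (L.g₃ / 4) A := by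
    rw [hA', qsp_map]
    rfl
  have hBm : B'.map (algebraMap K ℂ) = qsp (L.g₂ / 4) (L.g₃ / 4) B := by
    rw [hB', qsp_map]
    rfl
  have hB'0 : B' ≠ 0 := by
    intro h
    have h1 : (qsp (⟨L.g₂ / 4, h2⟩ : K) (⟨L.g₃ / 4, h3⟩ : K) B).coeff B.natDegree = 0 := by
      rw [← hB', h, Polynomial.coeff_zero]
    unfold qsp at h1
    rw [Polynomial.coeff_map] at h1
    have h4 : B.coeff B.natDegree = ((k : ℕ) : MvPolynomial (Fin 2) ℤ) ^ 2 := hlc
    rw [h4, map_pow, map_natCast] at h1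
    have h5 : (k : K) ≠ 0 := by
      have : k ≠ 0 := by omega
      exact_mod_cast this
    exact pow_ne_zero 2 h5 h1
  -- coprime form
  obtain ⟨G, hG⟩ : ∃ G : K[X], G = EuclideanDomain.gcd A' B' := ⟨_, rfl⟩
  obtain ⟨A1, hA1⟩ : G ∣ A' := hG ▸ EuclideanDomain.gcd_dvd_left A' B'
  obtain ⟨B1, hB1⟩ : G ∣ B' := hG ▸ EuclideanDomain.gcd_dvd_right A' B'
  have hG0 : G ≠ 0 := by
    intro h
    rw [h, zero_mul] at hB1
    exact hB'0 hB1
  have hcop : IsCoprime A1 B1 := by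
    have h1 := EuclideanDomain.gcd_eq_gcd_ab A' B'
    rw [← hG] at h1
    refine ⟨EuclideanDomain.gcdA A' B', EuclideanDomain.gcdB A' B', ?_⟩
    generalize EuclideanDomain.gcdA A' B' = u at h1 ⊢
    generalize EuclideanDomain.gcdB A' B' = v at h1 ⊢
    apply mul_left_cancel₀ hG0
    linear_combination (-1 : K[X]) * h1 - u * hA1 - v * hB1
  obtain ⟨Gc, hGc⟩ : ∃ P : ℂ[X], P = G.map (algebraMap K ℂ) := ⟨_, rfl⟩
  obtain ⟨Ac, hAc⟩ : ∃ P : ℂ[X], P = A1.map (algebraMap K ℂ) := ⟨_, rfl⟩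
  obtain ⟨Bc, hBc⟩ : ∃ P : ℂ[X], P = B1.map (algebraMap K ℂ) := ⟨_, rfl⟩
  have hGc0 : Gc ≠ 0 := by
    rw [hGc]
    exact (Polynomial.map_ne_zero_iff (algebraMap K ℂ).injective).mpr hG0
  have eA : qsp (L.g₂ / 4) (L.g₃ / 4) A = Gc * Ac := by
    rw [← hAm, hA1, Polynomial.map_mul, hGc, hAc]
  have eB : qsp (L.g₂ / 4) (L.g₃ / 4) B = Gc * Bc := by
    rw [← hBm, hB1, Polynomial.map_mul, hGc, hBc]
  rw [eA, eB] at hrel
  have hcopc : IsCoprime Ac Bc := by
    rw [hAc, hBc]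
    exact hcop.map (Polynomial.mapRingHom (algebraMap K ℂ))
  have hdense : ∀ᶠ t in 𝓝[QNT L ∩ {s}ᶜ] s, Gc.eval (L.weierstrassP t) ≠ 0 := by
    have h1 := qrat_ne L hs Gc hGc0
    exact h1.filter_mono (nhdsWithin_mono s Set.inter_subset_right)
  have hne : (𝓝[QNT L ∩ {s}ᶜ] s).NeBot := by
    rw [← mem_closure_iff_nhdsWithin_neBot]
    have h1 : Dense (QNT L ∩ {s}ᶜ) := by
      refine (QNT_dense L).inter_of_isOpen_right ?_ isOpen_compl_singleton
      exact dense_compl_singleton s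
    exact h1 s
  have hkc : ContinuousAt (fun t : ℂ => L.weierstrassP ((k : ℂ) * t)) s := by
    have h1 : ContinuousAt (fun t : ℂ => (k : ℂ) * t) s :=
      (continuous_const.mul continuous_id).continuousAt
    exact ContinuousAt.comp (g := L.weierstrassP) (f := fun t : ℂ => (k : ℂ) * t)
      (qrat_wpcont L hks) h1
  have hlim1 : Filter.Tendsto (fun t => L.weierstrassP ((k : ℂ) * t) * Bc.eval (L.weierstrassP t))
      (𝓝[QNT L ∩ {s}ᶜ] s)
      (𝓝 (L.weierstrassP ((k : ℂ) * s) * Bc.eval (L.weierstrassP s))) :=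
    ((hkc.mul (qrat_cont L hs Bc)).tendsto).mono_left nhdsWithin_le_nhds
  have hlim2 : Filter.Tendsto (fun t => Ac.eval (L.weierstrassP t))
      (𝓝[QNT L ∩ {s}ᶜ] s) (𝓝 (Ac.eval (L.weierstrassP s))) :=
    ((qrat_cont L hs Ac).tendsto).mono_left nhdsWithin_le_nhds
  have hev : (fun t => L.weierstrassP ((k : ℂ) * t) * Bc.eval (L.weierstrassP t))
      =ᶠ[𝓝[QNT L ∩ {s}ᶜ] s] fun t => Ac.eval (L.weierstrassP t) := by
    filter_upwards [hdense, self_mem_nhdsWithin] with t ht1 ht2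
    have h1 := hrel t ht2.1
    rw [Polynomial.eval_mul, Polynomial.eval_mul] at h1
    apply mul_left_cancel₀ ht1
    linear_combination h1
  have heq := tendsto_nhds_unique (hlim1.congr' hev) hlim2
  have hB1ne : Bc.eval (L.weierstrassP s) ≠ 0 := by
    intro h0
    rw [h0, mul_zero] at heq
    obtain ⟨u, v, huv⟩ := hcopc
    have h1 := congrArg (Polynomial.eval (L.weierstrassP s)) huv
    rw [Polynomial.eval_add, Polynomial.eval_mul, Polynomial.eval_mul, h0, ← heq,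
      Polynomial.eval_one] at h1
    simp at h1
  have hfinal : L.weierstrassP ((k : ℂ) * s) =
      Ac.eval (L.weierstrassP s) / Bc.eval (L.weierstrassP s) := by
    rw [eq_div_iff hB1ne, heq]
  rw [hfinal]
  have hmem : ∀ P : K[X], (P.map (algebraMap K ℂ)).eval (L.weierstrassP s) ∈ K := by
    intro P
    have h1 : (P.map (algebraMap K ℂ)).eval (L.weierstrassP s) =
        algebraMap K ℂ (P.eval ⟨L.weierstrassP s, hsK⟩) := by
      rw [Polynomial.eval_map]
      exact Polynomial.eval₂_at_apply (algebraMap K ℂ) (⟨L.weierstrassP s, hsK⟩ : K)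
    rw [h1]
    exact (P.eval ⟨L.weierstrassP s, hsK⟩).2
  rw [hAc, hBc]
  exact div_mem (hmem A1) (hmem B1)

end Pool.Agent.Lib.MP5e
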