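import Pool.Agent.Lib.MP_5e64e7_nt.GRelA
import Pool.Agent.Lib.MP_5e64e7_nt.QE46
import Pool.Agent.Lib.MP_5e64e7_nt.QE2
import Pool.Agent.Lib.MP_5e64e7_nt.QMul
import Pool.Agent.Lib.MP_5e64e7_nt.QRat
import Pool.Agent.Lib.MP_5e64e7_nt.QAlg
import Pool.Agent.Lib.MP_5e64e7_nt.JDer
import Pool.Agent.Lib.MP_5e64e7_nt.JTr

set_option autoImplicit false

/-!
# G.RELJ : `J(g z)` is algebraic over `ℚ(z, J(z))` for `g ∈ GL₂⁺(ℚ)` (about 220 lines)

Let `K` be `QCl` and `ell ≠ 0` with `2πi ell ∈ K`. Let `W σ` (`GW K ell σ`) mean: `Im σ > 0`, `σ ∈ K`, `E2f σ / ell ∈ K`,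
`E4f σ / ell² ∈ K`, `E6f σ / ell³ ∈ K`.

(a) `W σ → W (-1/σ)`: `E4(-1/σ) = σ⁴ E4(σ)`, `E6(-1/σ) = σ⁶ E6(σ)`, `E2(-1/σ) = σ² E2(σ) + 12 σ/(2πi)` (see `JTr.lean`, `Trans*.lean`
for the transformation formulas of `E2f, E4f, E6f`), and `12 σ/(2πi ell) ∈ K`.

(b) `W σ → W ((σ + b)/d)`, `d ≥ 1`, `b` an integer: choose `λ` with `3 λ²/π² = ell` (`λ ≠ 0`) and `L = PL λ σ` (`QDefs.lean`;
`L.ω₁ = λ`, `L.ω₂ = σ λ`), `qell L = ell`. By `qE4_base`, `qE6_base`: `L.g₂, L.g₃ ∈ K`. The torsion values: for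
`1 ≤ k < d` the number `℘(qtor L σ 1 d b k)` is a root of the polynomial `qsp (g₂/4) (g₃/4) B` of `QMult d A B`
(`qtor_root`, `qtor_top`, `qtor_notMem`; `QMult` exists for every `k ≥ 1`: `QMul.lean`), which has coefficients in `K` and leading
coefficient `d² ≠ 0`, so the value is in `K`. So all `qS L σ 1 d b r ∈ K` and `E2, E4, E6` of
`qsig σ 1 d b = (σ + b)/d` are given by `qE2, qE4, qE6` (`a = 1`, `IsCoprime 1 b`).

(c) `W σ → W (σ + b/d)` and `W σ → W (a σ/d)` (`a, d ≥ 1`): `a σ = -1/((-1/σ)/a)` by (a), (b), (a);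
`σ + b/d = (d σ + b)/d`. So for rational `x > 0` and `y`: `W (x σ + y)`.
(d) For `z' = (p z + q)/(r z + s)`, `D = p s - q r > 0`: if `r = 0`, `z' = (p/s) z + q/s` with `p/s > 0`; if `r ≠ 0`,
`z' = p/r + (D/r²) (-1/(z + s/r))`. So `W z → W z'`.

(e) Start: `jf z ≠ 0`, `deriv jf z ≠ 0` give `E4f z ≠ 0`, `E6f z ≠ 0` (`djf`); `ell := E6f z/E4f z`.
`2πi ell = - j'(z)/j(z) ∈ K` (`djf`, definition of `jf`). With `t = E4³/E6²`, `j = 1728 t/(t - 1)`, so
`t = j/(j - 1728) ∈ K`; `E4/ell² = E4³/E6² = t`, `E6/ell³ = E4³/E6² = t`. From `ddjf`: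
`j'' = 4π² 1728 (E2 E4² E6/6 - 2/3 E4 E6² - 1/2 E4⁴)/(E4³ - E6²)`; divide by `(2πi ell)²`: this gives `E2/ell ∈ K`
(`E4² E6/(ell · ell² …)` etc.: everything in terms of `t` and `x = E2/ell`:
`j''/(2πi ell)² = -1728 (x t²·t/6·… )`, linear in `x` with the nonzero coefficient `-1728 t³/(6 (t³ - t²))`).
(f) End: `W σ → J4 σ i ∈ K`: `jf σ = 1728 b³/(b³ - c²)` with `b = E4/ell²`, `c = E6/ell³`; `j' = -(2πi ell) 1728 b² c/(b³ - c²)`;
`j'' = -(2πi ell)² 1728 (a b² c/6 - 2/3 b c² - 1/2 b⁴)/(b³ - c²)`, `a = E2/ell`.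
-/

noncomputable section

namespace Pool.Agent.Lib.MP5e

open Polynomial Topology

/-- `E₂, E₄, E₆` at `σ` in terms of `ell` -/
private structure GW (K : IntermediateField ℚ ℂ) (ell σ : ℂ) : Prop where
  im : 0 < σ.im
  mem : σ ∈ K
  e2 : E2f σ / ell ∈ K
  e4 : E4f σ / ell ^ 2 ∈ K
  e6 : E6f σ / ell ^ 3 ∈ K

private theorem gw_inv {K : IntermediateField ℚ ℂ} {ell σ : ℂ} (hell : ell ≠ 0)
    (hp : 2 * (Real.pi : ℂ) * Complex.I * ell ∈ K) (h : GW K ell σ) : GW K ell (-1 / σ) := by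
  have hσ0 : σ ≠ 0 := by
    intro h0
    have := h.im
    rw [h0] at this
    simp at this
  have hdet : (0 : ℤ) * 0 - (-1) * 1 = 1 := by norm_num
  have e : (((0 : ℤ) : ℂ) * σ + ((-1 : ℤ) : ℂ)) / (((1 : ℤ) : ℂ) * σ + ((0 : ℤ) : ℂ)) = -1 / σ := by
    push_cast
    ring
  have him := sl_im_pos 0 (-1) 1 0 hdet h.im
  have h2 := E2f_sl 0 (-1) 1 0 hdet h.im
  have h4 := E4f_sl 0 (-1) 1 0 hdet h.im
  have h6 := E6f_sl 0 (-1) 1 0 hdet h.im
  rw [e] at him h2 h4 h6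
  have e1 : ((1 : ℤ) : ℂ) * σ + ((0 : ℤ) : ℂ) = σ := by push_cast; ring
  rw [e1] at h2 h4 h6
  have hpi : (Real.pi : ℂ) ≠ 0 := Complex.ofReal_ne_zero.mpr Real.pi_ne_zero
  refine ⟨him, ?_, ?_, ?_, ?_⟩
  · exact div_mem (neg_mem (one_mem K)) h.mem
  · have h7 : E2f (-1 / σ) / ell = σ ^ 2 * (E2f σ / ell) +
        12 * σ / (2 * (Real.pi : ℂ) * Complex.I * ell) := by
      rw [h2]
      have hI := Complex.I_ne_zero
      push_cast
      field_simp
      ring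
    rw [h7]
    exact add_mem (mul_mem (pow_mem h.mem 2) h.e2)
      (div_mem (mul_mem (ofNat_mem K 12) h.mem) hp)
  · rw [h4, mul_div_assoc]
    exact mul_mem (pow_mem h.mem 4) h.e4
  · rw [h6, mul_div_assoc]
    exact mul_mem (pow_mem h.mem 6) h.e6

private theorem root_mem {K : IntermediateField ℚ ℂ} (hK : QCl K) (L : PeriodPair)
    (h2 : L.g₂ / 4 ∈ K) (h3 : L.g₃ / 4 ∈ K) {k : ℕ} (hk : 1 ≤ k) {s : ℂ} (hs : s ∉ L.lattice)
    (hks : (k : ℂ) * s ∈ L.lattice) : L.weierstrassP s ∈ K := by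
  obtain ⟨A, B, hM⟩ := qexists_mult k hk
  have hroot := qtor_root hk L hs hks hM
  obtain ⟨-, -, hlc, -, -, -⟩ := hM
  obtain ⟨B', hB'⟩ : ∃ B' : K[X], B' = qsp (⟨L.g₂ / 4, h2⟩ : K) (⟨L.g₃ / 4, h3⟩ : K) B := ⟨_, rfl⟩
  have hBm : B'.map (algebraMap K ℂ) = qsp (L.g₂ / 4) (L.g₃ / 4) B := by
    rw [hB', qsp_map]
    rfl
  have hB'0 : B' ≠ 0 := by
    intro h
    have h1 : (qsp (⟨L.g₂ / 4, h2⟩ : K) (⟨L.g₃ / 4, h3⟩ : K) B).coeff B.natDegree = 0 := by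
      rw [← hB', h, Polynomial.coeff_zero]
    unfold qsp at h1
    rw [Polynomial.coeff_map] at h1
    have h4 : B.coeff B.natDegree = ((k : ℕ) : MvPolynomial (Fin 2) ℤ) ^ 2 := hlc
    rw [h4, map_pow, map_natCast] at h1
    have h5 : (k : K) ≠ 0 := by
      have : k ≠ 0 := by omega
      exact_mod_cast this
    exact pow_ne_zero 2 h5 h1
  apply hK
  refine ⟨B', hB'0, ?_⟩
  rw [Polynomial.aeval_def, Polynomial.eval₂_eq_eval_map, hBm]
  exact hroot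

private theorem gw_div {K : IntermediateField ℚ ℂ} (hK : QCl K) {ell σ : ℂ} (hell : ell ≠ 0)
    (h : GW K ell σ) (d : ℕ) (hd : 1 ≤ d) (b : ℤ) : GW K ell ((σ + (b : ℂ)) / (d : ℂ)) := by
  have hpi : (Real.pi : ℂ) ≠ 0 := Complex.ofReal_ne_zero.mpr Real.pi_ne_zero
  obtain ⟨lam, hlam⟩ := IsAlgClosed.exists_pow_nat_eq ((Real.pi : ℂ) ^ 2 * ell / 3)
    (n := 2) (by norm_num)
  have hlam0 : lam ≠ 0 := by
    intro h0
    rw [h0, zero_pow two_ne_zero] at hlam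
    have h1 : (Real.pi : ℂ) ^ 2 * ell / 3 ≠ 0 :=
      div_ne_zero (mul_ne_zero (pow_ne_zero 2 hpi) hell) (by norm_num)
    exact h1 hlam.symm
  obtain ⟨L, hLd⟩ : ∃ L : PeriodPair, L = PL lam σ hlam0 h.im := ⟨_, rfl⟩
  have hL : L.ω₂ = σ * L.ω₁ := by rw [hLd]; rfl
  have hq : qell L = ell := by
    have h1 : L.ω₁ = lam := by rw [hLd]; rfl
    unfold qell
    rw [h1, hlam]
    field_simp
  have b4 := qE4_base L h.im hL
  have b6 := qE6_base L h.im hL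
  rw [hq] at b4 b6
  have g2 : L.g₂ / 12 ∈ K := by
    have : L.g₂ / 12 = E4f σ / ell ^ 2 := by
      rw [b4]; field_simp
    rw [this]
    exact h.e4
  have g3 : L.g₃ / 8 ∈ K := by
    have : L.g₃ / 8 = E6f σ / ell ^ 3 := by
      rw [b6]; field_simp
    rw [this]
    exact h.e6
  have g2' : L.g₂ / 4 ∈ K := by
    have : L.g₂ / 4 = 3 * (L.g₂ / 12) := by ring
    rw [this]
    exact mul_mem (ofNat_mem K 3) g2
  have g3' : L.g₃ / 4 ∈ K := by
    have : L.g₃ / 4 = 2 * (L.g₃ / 8) := by ring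
    rw [this]
    exact mul_mem (ofNat_mem K 2) g3
  have hS : ∀ r : ℕ, qS L σ 1 d b r ∈ K := by
    intro r
    unfold qS
    refine sum_mem fun k hk => pow_mem ?_ r
    rw [Finset.mem_Ico] at hk
    have hs : qtor L σ 1 d b k ∉ L.lattice :=
      qtor_notMem L h.im hL le_rfl hd isCoprime_one_left hk.1 hk.2
    have ht : (d : ℂ) * qtor L σ 1 d b k ∈ L.lattice := by
      have h1 := qtor_top L hL (a := 1) (d := d) le_rfl hd b
      have h2 : (d : ℂ) * qtor L σ 1 d b k = (k : ℕ) • (((1 * d : ℕ) : ℂ) * qtor L σ 1 d b 1) := by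
        rw [nsmul_eq_mul, ← qtor_mul L σ 1 d b k]
        push_cast
        ring
      rw [h2]
      exact L.lattice.smul_of_tower_mem k h1
    exact root_mem hK L g2' g3' hd hs ht
  have hsig : qsig σ 1 d b = (σ + (b : ℂ)) / (d : ℂ) := by
    unfold qsig
    push_cast
    ring
  have q2 := qE2 L h.im hL (a := 1) (d := d) (b := b) le_rfl hd isCoprime_one_left
  have q4 := qE4 L h.im hL (a := 1) (d := d) (b := b) le_rfl hd isCoprime_one_left
  have q6 := qE6 L h.im hL (a := 1) (d := d) (b := b) le_rfl hd isCoprime_one_left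
  rw [hsig, hq] at q2 q4 q6
  push_cast at q2 q4 q6
  have hdK : (d : ℂ) ∈ K := natCast_mem K d
  have hd0 : (0 : ℝ) < d := by exact_mod_cast hd
  refine ⟨?_, ?_, ?_, ?_, ?_⟩
  · have : ((σ + (b : ℂ)) / (d : ℂ)).im = σ.im / d := by
      rw [Complex.div_natCast_im]
      simp
    rw [this]
    exact div_pos h.im hd0
  · exact div_mem (add_mem h.mem (intCast_mem K b)) hdK
  · have h1 : E2f ((σ + (b : ℂ)) / (d : ℂ)) / ell = (d : ℂ) * (E2f σ / ell) + qS L σ 1 d b 1 := by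
      field_simp
      linear_combination q2
    rw [h1]
    exact add_mem (mul_mem hdK h.e2) (hS 1)
  · have h1 : E4f ((σ + (b : ℂ)) / (d : ℂ)) / ell ^ 2 =
        (6 - 5 * (d : ℂ)) * (L.g₂ / 12) + 5 * qS L σ 1 d b 2 := by
      rw [div_eq_iff (pow_ne_zero 2 hell)]
      linear_combination q4
    rw [h1]
    exact add_mem (mul_mem (sub_mem (ofNat_mem K 6) (mul_mem (ofNat_mem K 5) hdK)) g2)
      (mul_mem (ofNat_mem K 5) (hS 2))
  · have h1 : E6f ((σ + (b : ℂ)) / (d : ℂ)) / ell ^ 3 =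
        ((30 - 28 * (d : ℂ)) * (L.g₃ / 8) + 35 * qS L σ 1 d b 3 -
          63 * (L.g₂ / 12) * qS L σ 1 d b 1) / 2 := by
      rw [div_eq_iff (pow_ne_zero 3 hell)]
      linear_combination (1 / 2) * q6
    rw [h1]
    exact div_mem (sub_mem (add_mem (mul_mem (sub_mem (ofNat_mem K 30)
      (mul_mem (ofNat_mem K 28) hdK)) g3) (mul_mem (ofNat_mem K 35) (hS 3)))
      (mul_mem (mul_mem (ofNat_mem K 63) g2) (hS 1))) (ofNat_mem K 2)

private theorem gw_mul {K : IntermediateField ℚ ℂ} (hK : QCl K) {ell σ : ℂ} (hell : ell ≠ 0)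
    (hp : 2 * (Real.pi : ℂ) * Complex.I * ell ∈ K) (h : GW K ell σ) (a : ℕ) (ha : 1 ≤ a) :
    GW K ell ((a : ℂ) * σ) := by
  have hσ0 : σ ≠ 0 := by
    intro h0
    have := h.im
    rw [h0] at this
    simp at this
  have ha0 : (a : ℂ) ≠ 0 := by exact_mod_cast (by omega : a ≠ 0)
  have h1 := gw_inv hell hp (gw_div hK hell (gw_inv hell hp h) a ha 0)
  have e : -1 / ((-1 / σ + ((0 : ℤ) : ℂ)) / (a : ℂ)) = (a : ℂ) * σ := by
    push_cast
    field_simp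
    ring
  rwa [e] at h1

private theorem gw_aff {K : IntermediateField ℚ ℂ} (hK : QCl K) {ell σ : ℂ} (hell : ell ≠ 0)
    (hp : 2 * (Real.pi : ℂ) * Complex.I * ell ∈ K) (h : GW K ell σ) (x y : ℚ) (hx : 0 < x) :
    GW K ell ((x : ℂ) * σ + (y : ℂ)) := by
  -- `x = (x.num * y.den) / (x.den * y.den)`, `y = (y.num * x.den) / (x.den * y.den)`
  have hxn : 0 < x.num := Rat.num_pos.mpr hx
  obtain ⟨a, ha⟩ := Int.eq_ofNat_of_zero_le hxn.le
  have ha1 : 1 ≤ a * y.den := by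
    have h1 : 1 ≤ a := by
      rw [ha] at hxn
      exact_mod_cast hxn
    exact Nat.mul_pos h1 y.den_pos
  have hd1 : 1 ≤ x.den * y.den := Nat.mul_pos x.den_pos y.den_pos
  have h1 := gw_div hK hell (gw_mul hK hell hp h (a * y.den) ha1) (x.den * y.den) hd1
    (y.num * x.den)
  have hxd : (x.den : ℂ) ≠ 0 := by exact_mod_cast x.den_pos.ne'
  have hyd : (y.den : ℂ) ≠ 0 := by exact_mod_cast y.den_pos.ne'
  have ex : (x : ℂ) = (a : ℂ) / (x.den : ℂ) := by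
    rw [Rat.cast_def, ha]
    push_cast
    rfl
  have ey : (y : ℂ) = (y.num : ℂ) / (y.den : ℂ) := Rat.cast_def y
  have e : (((a * y.den : ℕ) : ℂ) * σ + ((y.num * x.den : ℤ) : ℂ)) / ((x.den * y.den : ℕ) : ℂ) =
      (x : ℂ) * σ + (y : ℂ) := by
    rw [ex, ey]
    push_cast
    field_simp
  rwa [e] at h1

private theorem gw_rel {K : IntermediateField ℚ ℂ} (hK : QCl K) {ell z z' : ℂ} (hell : ell ≠ 0)
    (hp : 2 * (Real.pi : ℂ) * Complex.I * ell ∈ K) (h : GW K ell z) (hr : GRel z z') :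
    GW K ell z' := by
  obtain ⟨p, q, r, s, hD, rfl⟩ := hr
  by_cases hr0 : r = 0
  · subst hr0
    have hps : 0 < p * s := by simpa using hD
    have hs0 : s ≠ 0 := by
      rintro rfl
      simp at hps
    have hx : 0 < p / s := by
      rcases lt_or_gt_of_ne hs0 with h1 | h1
      · exact div_pos_of_neg_of_neg (by nlinarith) h1
      · exact div_pos (by nlinarith) h1
    have h1 := gw_aff hK hell hp h (p / s) (q / s) hx
    have hs0' : (s : ℂ) ≠ 0 := by exact_mod_cast hs0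
    have e : ((p / s : ℚ) : ℂ) * z + ((q / s : ℚ) : ℂ) =
        ((p : ℂ) * z + (q : ℂ)) / (((0 : ℚ) : ℂ) * z + (s : ℂ)) := by
      push_cast
      rw [zero_mul, zero_add]
      field_simp
    rwa [e] at h1
  · have hr0' : (r : ℂ) ≠ 0 := by exact_mod_cast hr0
    have hden : (r : ℂ) * z + (s : ℂ) ≠ 0 := grel_den h.im hD
    have h1 := gw_aff hK hell hp h 1 (s / r) one_pos
    have h2 := gw_inv hell hp h1
    have h3 := gw_aff hK hell hp h2 ((p * s - q * r) / r ^ 2) (p / r)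
      (div_pos hD (by positivity))
    have hden' : z + (s : ℂ) / (r : ℂ) ≠ 0 := by
      intro h0
      apply hden
      have : (r : ℂ) * z + (s : ℂ) = (r : ℂ) * (z + (s : ℂ) / (r : ℂ)) := by field_simp
      rw [this, h0, mul_zero]
    have e : (((p * s - q * r) / r ^ 2 : ℚ) : ℂ) * (-1 / (((1 : ℚ) : ℂ) * z + ((s / r : ℚ) : ℂ))) +
        ((p / r : ℚ) : ℂ) = ((p : ℂ) * z + (q : ℂ)) / ((r : ℂ) * z + (s : ℂ)) := by
      have e1 : ((1 : ℚ) : ℂ) * z + ((s / r : ℚ) : ℂ) = ((r : ℂ) * z + (s : ℂ)) / (r : ℂ) := by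
        push_cast
        field_simp
      rw [e1]
      push_cast
      field_simp
      ring
    rwa [e] at h3

private theorem gw_end {K : IntermediateField ℚ ℂ} {ell σ : ℂ} (hell : ell ≠ 0)
    (hp : 2 * (Real.pi : ℂ) * Complex.I * ell ∈ K) (h : GW K ell σ) (i : Fin 4) :
    J4 σ i ∈ K := by
  have hd := disc_ne h.im
  obtain ⟨a, ha⟩ : ∃ a, a = E2f σ / ell := ⟨_, rfl⟩
  obtain ⟨b, hb⟩ : ∃ b, b = E4f σ / ell ^ 2 := ⟨_, rfl⟩
  obtain ⟨c, hc⟩ : ∃ c, c = E6f σ / ell ^ 3 := ⟨_, rfl⟩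
  have ea : E2f σ = a * ell := by rw [ha]; field_simp
  have eb : E4f σ = b * ell ^ 2 := by rw [hb]; field_simp
  have ec : E6f σ = c * ell ^ 3 := by rw [hc]; field_simp
  have haK : a ∈ K := by rw [ha]; exact h.e2
  have hbK : b ∈ K := by rw [hb]; exact h.e4
  have hcK : c ∈ K := by rw [hc]; exact h.e6
  have hD : b ^ 3 - c ^ 2 ≠ 0 := by
    intro h0
    apply hd
    rw [eb, ec]
    linear_combination ell ^ 6 * h0
  have hDK : b ^ 3 - c ^ 2 ∈ K := sub_mem (pow_mem hbK 3) (pow_mem hcK 2)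
  have e6 : (b * ell ^ 2) ^ 3 - (c * ell ^ 3) ^ 2 = ell ^ 6 * (b ^ 3 - c ^ 2) := by ring
  fin_cases i
  · exact h.mem
  · change jf σ ∈ K
    have : jf σ = 1728 * b ^ 3 / (b ^ 3 - c ^ 2) := by
      rw [jf, eb, ec, e6, div_eq_div_iff (mul_ne_zero (pow_ne_zero 6 hell) hD) hD]
      ring
    rw [this]
    exact div_mem (mul_mem (ofNat_mem K 1728) (pow_mem hbK 3)) hDK
  · change deriv jf σ ∈ K
    have : deriv jf σ = -(2 * (Real.pi : ℂ) * Complex.I * ell) *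
        (1728 * b ^ 2 * c / (b ^ 3 - c ^ 2)) := by
      rw [djf h.im, eb, ec, e6, ← mul_div_assoc,
        div_eq_div_iff (mul_ne_zero (pow_ne_zero 6 hell) hD) hD]
      ring
    rw [this]
    exact mul_mem (neg_mem hp) (div_mem (mul_mem (mul_mem (ofNat_mem K 1728) (pow_mem hbK 2))
      hcK) hDK)
  · change deriv (deriv jf) σ ∈ K
    have : deriv (deriv jf) σ = -(2 * (Real.pi : ℂ) * Complex.I * ell) ^ 2 *
        (1728 * (a * b ^ 2 * c / 6 - 2 / 3 * b * c ^ 2 - 1 / 2 * b ^ 4) / (b ^ 3 - c ^ 2)) := by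
      rw [ddjf h.im, ea, eb, ec, e6, ← mul_div_assoc,
        div_eq_div_iff (mul_ne_zero (pow_ne_zero 6 hell) hD) hD]
      have hI : Complex.I ^ 2 = -1 := Complex.I_sq
      linear_combination (4 * (Real.pi : ℂ) ^ 2 * ell ^ 8 *
        (1728 * (a * b ^ 2 * c / 6 - 2 / 3 * b * c ^ 2 - 1 / 2 * b ^ 4)) * (b ^ 3 - c ^ 2)) * hI
    rw [this]
    have h23 : (2 : ℂ) / 3 ∈ K := div_mem (ofNat_mem K 2) (ofNat_mem K 3)
    have h12 : (1 : ℂ) / 2 ∈ K := div_mem (one_mem K) (ofNat_mem K 2)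
    exact mul_mem (neg_mem (pow_mem hp 2)) (div_mem (mul_mem (ofNat_mem K 1728)
      (sub_mem (sub_mem (div_mem (mul_mem (mul_mem haK (pow_mem hbK 2)) hcK) (ofNat_mem K 6))
        (mul_mem (mul_mem h23 hbK) (pow_mem hcK 2))) (mul_mem h12 (pow_mem hbK 4)))) hDK)

theorem grelJ (K : IntermediateField ℚ ℂ) (hK : QCl K) (z z' : ℂ) (hz : 0 < z.im)
    (hJ : ∀ i, J4 z i ∈ K) (h1 : jf z ≠ 0) (h2 : deriv jf z ≠ 0) (hr : GRel z z') (i : Fin 4) :
    J4 z' i ∈ K := by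
  have hpi : (Real.pi : ℂ) ≠ 0 := Complex.ofReal_ne_zero.mpr Real.pi_ne_zero
  have hI := Complex.I_ne_zero
  have hI2 : Complex.I ^ 2 = -1 := Complex.I_sq
  have hd := disc_ne hz
  have hzK : z ∈ K := hJ 0
  have hj : jf z ∈ K := hJ 1
  have hj' : deriv jf z ∈ K := hJ 2
  have hj'' : deriv (deriv jf) z ∈ K := hJ 3
  have h4 : E4f z ≠ 0 := by
    intro h0
    apply h1
    rw [jf, h0]
    simp
  have h6 : E6f z ≠ 0 := by
    intro h0
    apply h2
    rw [djf hz, h0]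
    simp
  obtain ⟨ell, hell⟩ : ∃ ell, ell = E6f z / E4f z := ⟨_, rfl⟩
  have hell0 : ell ≠ 0 := by rw [hell]; exact div_ne_zero h6 h4
  obtain ⟨t, ht⟩ : ∃ t, t = E4f z ^ 3 / E6f z ^ 2 := ⟨_, rfl⟩
  obtain ⟨x, hx⟩ : ∃ x, x = E2f z / ell := ⟨_, rfl⟩
  have ht0 : t ≠ 0 := by rw [ht]; exact div_ne_zero (pow_ne_zero 3 h4) (pow_ne_zero 2 h6)
  have e2 : E2f z = x * ell := by rw [hx]; field_simp
  have e4 : E4f z = t * ell ^ 2 := by
    rw [ht, hell]
    field_simp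
  have e6 : E6f z = t * ell ^ 3 := by
    rw [ht, hell]
    field_simp
  have ht1 : t - 1 ≠ 0 := by
    intro h0
    apply hd
    rw [e4, e6]
    linear_combination (ell ^ 6 * t ^ 2) * h0
  have hjt : jf z = 1728 * t / (t - 1) := by
    have h7 : (t * ell ^ 2) ^ 3 - (t * ell ^ 3) ^ 2 = ell ^ 6 * t ^ 2 * (t - 1) := by ring
    rw [jf, e4, e6, h7, div_eq_div_iff (mul_ne_zero (mul_ne_zero (pow_ne_zero 6 hell0)
      (pow_ne_zero 2 ht0)) ht1) ht1]
    ring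
  have hj1728 : jf z - 1728 ≠ 0 := by
    rw [hjt]
    have : 1728 * t / (t - 1) - 1728 = 1728 / (t - 1) := by
      field_simp
      ring
    rw [this]
    exact div_ne_zero (by norm_num) ht1
  have htK : t ∈ K := by
    have : t = jf z / (jf z - 1728) := by
      rw [eq_div_iff hj1728, hjt]
      field_simp
      ring
    rw [this]
    exact div_mem hj (sub_mem hj (ofNat_mem K 1728))
  have hpe : 2 * (Real.pi : ℂ) * Complex.I * ell ∈ K := by
    have : 2 * (Real.pi : ℂ) * Complex.I * ell = -(deriv jf z / jf z) := by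
      have h7 : (t * ell ^ 2) ^ 3 - (t * ell ^ 3) ^ 2 = ell ^ 6 * t ^ 2 * (t - 1) := by ring
      rw [djf hz, hjt, e4, e6, h7]
      field_simp
    rw [this]
    exact neg_mem (div_mem hj' hj)
  have hpe0 : 2 * (Real.pi : ℂ) * Complex.I * ell ≠ 0 :=
    mul_ne_zero (mul_ne_zero (mul_ne_zero two_ne_zero hpi) hI) hell0
  have hxK : x ∈ K := by
    have h7 : (t * ell ^ 2) ^ 3 - (t * ell ^ 3) ^ 2 = ell ^ 6 * t ^ 2 * (t - 1) := by ring
    have h8 : deriv (deriv jf) z = -(2 * (Real.pi : ℂ) * Complex.I * ell) ^ 2 *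
        (1728 * (x * t / 6 - 2 / 3 * t - 1 / 2 * t ^ 2) / (t - 1)) := by
      rw [ddjf hz, e2, e4, e6, h7, ← mul_div_assoc, div_eq_div_iff (mul_ne_zero (mul_ne_zero
        (pow_ne_zero 6 hell0) (pow_ne_zero 2 ht0)) ht1) ht1]
      linear_combination (4 * (Real.pi : ℂ) ^ 2 * ell ^ 8 * t ^ 2 * (t - 1) *
        (1728 * (x * t / 6 - 2 / 3 * t - 1 / 2 * t ^ 2))) * hI2
    have h9 : x = 6 / t * (2 / 3 * t + 1 / 2 * t ^ 2 - deriv (deriv jf) z * (t - 1) /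
        (1728 * (2 * (Real.pi : ℂ) * Complex.I * ell) ^ 2)) := by
      rw [h8]
      generalize 2 * (Real.pi : ℂ) * Complex.I * ell = u at hpe0
      field_simp
      ring
    rw [h9]
    have h23 : (2 : ℂ) / 3 ∈ K := div_mem (ofNat_mem K 2) (ofNat_mem K 3)
    have h12 : (1 : ℂ) / 2 ∈ K := div_mem (one_mem K) (ofNat_mem K 2)
    exact mul_mem (div_mem (ofNat_mem K 6) htK) (sub_mem (add_mem (mul_mem h23 htK)
      (mul_mem h12 (pow_mem htK 2))) (div_mem (mul_mem hj'' (sub_mem htK (one_mem K)))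
      (mul_mem (ofNat_mem K 1728) (pow_mem hpe 2))))
  have hW : GW K ell z := by
    refine ⟨hz, hzK, ?_, ?_, ?_⟩
    · rw [← hx]; exact hxK
    · have : E4f z / ell ^ 2 = t := by rw [e4]; field_simp
      rw [this]; exact htK
    · have : E6f z / ell ^ 3 = t := by rw [e6]; field_simp
      rw [this]; exact htK
  exact gw_end hell0 hpe (gw_rel hK hell0 hpe hW hr) i

end Pool.Agent.Lib.MP5e
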