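import Pool.Agent.Lib.MP_5e64e7_nt.QDefs

set_option autoImplicit false

/-!
# Q.TRD : transcendence degree bookkeeping (about 130 lines)

Let `s : Finset κ` be of maximal cardinality with `AlgebraicIndependent ℚ (fun k : s => y k)` (the empty set is
independent: `algebraicIndependent_empty_type`). Let `E = IntermediateField.adjoin ℚ (y '' s)` and let `K` be the set of elements
of `ℂ` algebraic over `E` (`algebraicClosure E ℂ`, `IntermediateField.restrictScalars ℚ`): relatively algebraically
closed in `ℂ` (`QCl K`: transitivity), and every `y k` lies in `K` (for `k ∉ s` the family `insert k s` is not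
independent, so `y k` is algebraic over `ℚ(y '' s)`: `AlgebraicIndependent.option_iff_transcendental`, ...). So all `x i ∈ K`.
`y|s` is a transcendence basis of `K` over `ℚ` and `x` is an algebraically independent family in `K`
(`AlgebraicIndependent.of_comp`/`algebraicIndependent` through the injective map `K → ℂ`), so
`card ι ≤ trdeg = s.card` (`AlgebraicIndependent.cardinalMk_le_trdeg`, `IsTranscendenceBasis.cardinalMk_eq_trdeg`; finite
types).
-/

noncomputable section

namespace Pool.Agent.Lib.MP5e

theorem qtrd {ι κ : Type} [Fintype ι] [Fintype κ] (x : ι → ℂ) (y : κ → ℂ)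
    (hx : AlgebraicIndependent ℚ x)
    (h : ∀ K : IntermediateField ℚ ℂ, QCl K → (∀ k, y k ∈ K) → ∀ i, x i ∈ K) :
    ∃ s : Finset κ, Fintype.card ι ≤ s.card ∧
      AlgebraicIndependent ℚ (fun k : {k // k ∈ s} => y k) := by
  classical
  set M := AlgebraicIndependent.matroid ℚ ℂ with hM
  obtain ⟨B, hB⟩ := M.exists_isBasis (Set.range y)
  -- the relatively algebraically closed field
  set E : IntermediateField ℚ ℂ := IntermediateField.adjoin ℚ (Set.range y) with hE
  set K : IntermediateField ℚ ℂ := (algebraicClosure E ℂ).restrictScalars ℚ with hK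
  have hmemK : ∀ z : ℂ, z ∈ K ↔ IsAlgebraic E z := by
    intro z
    rw [hK, IntermediateField.mem_restrictScalars, mem_algebraicClosure_iff]
  have hcl : QCl K := by
    intro z hz
    rw [hmemK]
    have hz' : IsAlgebraic (algebraicClosure E ℂ) z := hz
    exact IsAlgebraic.restrictScalars E hz'
  have hy : ∀ k, y k ∈ K := by
    intro k
    rw [hmemK]
    exact isAlgebraic_algebraMap (⟨y k, IntermediateField.subset_adjoin ℚ _ ⟨k, rfl⟩⟩ : E)
  have hxK := h K hcl hy
  have hxcl : Set.range x ⊆ M.closure (Set.range y) := by
    rintro _ ⟨i, rfl⟩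
    have h1 := (hmemK _).mp (hxK i)
    rw [hE, IntermediateField.isAlgebraic_adjoin_iff] at h1
    rw [hM, AlgebraicIndependent.matroid_closure_eq, SetLike.mem_coe]
    rw [Subalgebra.mem_algebraicClosure]
    exact h1
  have hxind : M.Indep (Set.range x) := by
    rw [hM, AlgebraicIndependent.matroid_indep_iff]
    exact hx.coe_range
  have hcard : (Set.range x).encard ≤ B.encard := by
    rw [← hxind.eRk_eq_encard, hB.encard_eq_eRk, ← M.eRk_closure_eq (Set.range y)]
    exact M.eRk_mono hxcl
  have hinj : Function.Injective x := hx.injective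
  have hBy : ∀ b : B, ∃ k, y k = b := fun b => hB.subset b.2
  choose g hg using hBy
  have hBfin : B.Finite := (Set.finite_range y).subset hB.subset
  have : Fintype B := hBfin.fintype
  set s : Finset κ := Finset.univ.image g with hs
  have hginj : Function.Injective g := by
    intro a b hab
    apply Subtype.ext
    rw [← hg a, ← hg b, hab]
  have hscard : s.card = Fintype.card B := by
    rw [hs, Finset.card_image_of_injective _ hginj, Finset.card_univ]
  refine ⟨s, ?_, ?_⟩
  · rw [hscard]
    have e1 : (Set.range x).encard = (Fintype.card ι : ℕ∞) := by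
      rw [← Set.image_univ, hinj.encard_image, Set.encard_univ, ENat.card_eq_coe_fintype_card]
    have e2 : B.encard = (Fintype.card B : ℕ∞) := by
      rw [← Set.coe_fintypeCard]
    rw [e1, e2] at hcard
    exact_mod_cast hcard
  · have hBind : AlgebraicIndependent ℚ (fun b : B => (b : ℂ)) := hB.indep
    have hmem : ∀ k : {k // k ∈ s}, y k ∈ B := by
      rintro ⟨k, hk⟩
      obtain ⟨b, _, rfl⟩ := Finset.mem_image.mp hk
      simp only [hg]
      exact b.2
    have h2 := hBind.comp (fun k : {k // k ∈ s} => (⟨y k, hmem k⟩ : B)) (by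
      rintro ⟨k, hk⟩ ⟨l, hl⟩ hkl
      obtain ⟨b, _, rfl⟩ := Finset.mem_image.mp hk
      obtain ⟨c, _, rfl⟩ := Finset.mem_image.mp hl
      have h3 : y (g b) = y (g c) := congrArg Subtype.val hkl
      rw [hg, hg] at h3
      have h4 : b = c := Subtype.ext h3
      subst h4
      rfl)
    exact h2

end Pool.Agent.Lib.MP5e
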