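import Pool.Agent.Lib.MP_5e64e7_nt.GAv
import Pool.Agent.Lib.MP_5e64e7_nt.GRelJ
import Pool.Agent.Lib.MP_5e64e7_nt.GDimA
import Pool.Agent.Lib.MP_5e64e7_nt.QTrd
import Pool.Agent.Lib.MP_5e64e7_nt.FuncA

set_option autoImplicit false

/-!
# G.DIMG : upper bound for the dimension of the closure of the graph (about 170 lines)

Let `k = integralClosure ℚ ℂ` (countable: `Algebraic.countable` or cardinality of the algebraic elements), `R = MvPolynomial
(Fin 4 × Fin n) k` (countable), `I` the ideal. For `P ∈ R` the function `F_P u = aeval (ggr (φ u)) P` is analytic on `gH N`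
(`h3`, `jf_analyticAt`, `J4_analyticAt`, induction on `P`). By `h1`, `h2`, `P ∈ I` iff `F_P = 0` on `gH N`.
Generic point: by `gavoid` (`Ω = O = gH N`, `gH_open`, `gH_preconnected`) there is `u ∈ gH N` with `F_P u ≠ 0` for all `P ∉ I` and
`jf (u l) ≠ 0`, `deriv jf (u l) ≠ 0` for all `l` (these functions are not identically zero on the upper half plane: `J_indep`
in `FuncA.lean` for the polynomials `X 1`, `X 2`). So `I = ker (aeval (ggr (φ u)))`, a prime ideal, and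
`A = R ⧸ I` is a domain with an injective `ℚ`-algebra map to `ℂ` (`RingHom.kerLift`, `Ideal.Quotient.lift`).
`gdim_indep` over `ℚ`: `x : Fin d → A` algebraically independent over `ℚ`, so are the images `x' : Fin d → ℂ`
(`AlgebraicIndependent.map'`). Let `y : (Fin 4 × Fin N) ⊕ γ → ℂ` be the numbers `J4 (u l) i` and `c i`. Every `QCl K` containing
the `y` contains all `ggr (φ u) (i, k) = J4 (φ u k) i`: if `GQuad (z k)`, `φ u k = z k`, by `hc`; otherwise `GRel (u l) (φ u k)` and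
`grelJ`. `K` contains the algebraic numbers, so it contains all `x'` (they are values of polynomials over `k`). By `qtrd`:
`d ≤ 4 N + card γ`.
-/

noncomputable section

namespace Pool.Agent.Lib.MP5e

open Polynomial Topology

private lemma gdg_ggr {n : ℕ} (w : Fin n → ℂ) (p : Fin 4 × Fin n) :
    ggr w p = J4 (w p.2) p.1 := rfl

private lemma gdg_countable (n : ℕ) :
    Countable (MvPolynomial (Fin 4 × Fin n) (integralClosure ℚ ℂ)) := by
  have h1 : Set.Countable {x : ℂ | IsAlgebraic ℚ x} := Algebraic.countable ℚ ℂ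
  have h2 : Countable (integralClosure ℚ ℂ) := by
    have h3 : Set.Countable ((integralClosure ℚ ℂ : Subalgebra ℚ ℂ) : Set ℂ) :=
      h1.mono (fun x hx => IsIntegral.isAlgebraic hx)
    exact h3.to_subtype
  rw [← Cardinal.mk_le_aleph0_iff]
  refine (MvPolynomial.cardinalMk_le_max (σ := Fin 4 × Fin n)
    (R := integralClosure ℚ ℂ)).trans ?_
  have h4 : Cardinal.mk (integralClosure ℚ ℂ) ≤ Cardinal.aleph0 := Cardinal.mk_le_aleph0_iff.2 h2
  have h5 : Cardinal.mk (Fin 4 × Fin n) ≤ Cardinal.aleph0 := Cardinal.mk_le_aleph0_iff.2 inferInstance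
  exact sup_le (sup_le h4 h5) le_rfl

private lemma gdg_exists_jf : ∃ w : ℂ, 0 < w.im ∧ jf w ≠ 0 := by
  by_contra hcon
  push Not at hcon
  have h := J_indep (MvPolynomial.X 1) {w : ℂ | 0 < w.im} JDer_open
    ⟨Complex.I, by simp⟩ (fun w hw => hw) (fun w hw => by
      rw [MvPolynomial.eval_X]
      exact hcon w hw)
  exact MvPolynomial.X_ne_zero 1 h

private lemma gdg_exists_djf : ∃ w : ℂ, 0 < w.im ∧ deriv jf w ≠ 0 := by
  by_contra hcon
  push Not at hcon
  have h := J_indep (MvPolynomial.X 2) {w : ℂ | 0 < w.im} JDer_open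
    ⟨Complex.I, by simp⟩ (fun w hw => hw) (fun w hw => by
      rw [MvPolynomial.eval_X]
      exact hcon w hw)
  exact MvPolynomial.X_ne_zero 2 h

private lemma gdg_analytic {n N : ℕ} (φ : (Fin N → ℂ) → Fin n → ℂ)
    (h0 : ∀ u ∈ gH N, ∀ k, 0 < (φ u k).im)
    (h3 : ∀ k, AnalyticOnNhd ℂ (fun u => φ u k) (gH N))
    (P : MvPolynomial (Fin 4 × Fin n) (integralClosure ℚ ℂ)) :
    AnalyticOnNhd ℂ (fun u => MvPolynomial.aeval (R := integralClosure ℚ ℂ) (ggr (φ u)) P)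
      (gH N) := by
  intro u hu
  induction P using MvPolynomial.induction_on with
  | C a =>
    simp only [MvPolynomial.aeval_C]
    exact analyticAt_const
  | add p q hp hq =>
    simp only [map_add]
    exact hp.add hq
  | mul_X p i hp =>
    simp only [map_mul, MvPolynomial.aeval_X, gdg_ggr]
    refine hp.mul ?_
    have h4 : AnalyticAt ℂ (fun v : ℂ => J4 v i.1) ((fun u => φ u i.2) u) :=
      J4_analyticAt (h0 u hu i.2) i.1
    exact AnalyticAt.comp (f := fun u => φ u i.2) (x := u) h4 (h3 i.2 u hu)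

private lemma gdg_proj {N : ℕ} (l : Fin N) (u : Fin N → ℂ) :
    AnalyticAt ℂ (fun u : Fin N → ℂ => u l) u :=
  (ContinuousLinearMap.proj (R := ℂ) (φ := fun _ : Fin N => ℂ) l).analyticAt u

private lemma gdg_mem {n N : ℕ} {γ : Type} [Fintype γ] (z : Fin n → ℂ)
    (φ : (Fin N → ℂ) → Fin n → ℂ)
    (h1 : ∀ u ∈ gH N, φ u ∈ gU z ∧ ∀ k, (GQuad (z k) ∧ φ u k = z k) ∨ ∃ l, GRel (u l) (φ u k))
    (c : γ → ℂ)
    (hc : ∀ K : IntermediateField ℚ ℂ, QCl K → (∀ i, c i ∈ K) → ∀ k, GQuad (z k) →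
      ∀ i, J4 (z k) i ∈ K)
    (u : Fin N → ℂ) (hu : u ∈ gH N) (hj : ∀ l, jf (u l) ≠ 0) (hdj : ∀ l, deriv jf (u l) ≠ 0)
    (K : IntermediateField ℚ ℂ) (hK : QCl K)
    (hy1 : ∀ (l : Fin N) (i : Fin 4), J4 (u l) i ∈ K) (hy2 : ∀ i, c i ∈ K)
    (P : MvPolynomial (Fin 4 × Fin n) (integralClosure ℚ ℂ)) :
    MvPolynomial.aeval (R := integralClosure ℚ ℂ) (ggr (φ u)) P ∈ K := by
  induction P using MvPolynomial.induction_on with
  | C a =>
    rw [MvPolynomial.aeval_C]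
    apply hK
    have h4 : IsIntegral ℚ (a : ℂ) := a.2
    have h5 : IsAlgebraic ℚ (a : ℂ) := h4.isAlgebraic
    exact h5.tower_top K
  | add p q hp hq =>
    rw [map_add]
    exact K.add_mem hp hq
  | mul_X p i hp =>
    rw [map_mul, MvPolynomial.aeval_X, gdg_ggr]
    refine K.mul_mem hp ?_
    rcases (h1 u hu).2 i.2 with h | ⟨l, hl⟩
    · rw [h.2]
      exact hc K hK hy2 i.2 h.1 i.1
    · exact grelJ K hK (u l) (φ u i.2) (hu l) (fun i => hy1 l i) (hj l) (hdj l) hl i.1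

theorem gdimG {n N : ℕ} {γ : Type} [Fintype γ] (z : Fin n → ℂ) (κ : Fin N → Fin n)
    (φ : (Fin N → ℂ) → Fin n → ℂ)
    (h1 : ∀ u ∈ gH N, φ u ∈ gU z ∧ ∀ k, (GQuad (z k) ∧ φ u k = z k) ∨ ∃ l, GRel (u l) (φ u k))
    (h2 : ∀ v ∈ gU z, φ (fun l => v (κ l)) = v)
    (h3 : ∀ k, AnalyticOnNhd ℂ (fun u => φ u k) (gH N)) (c : γ → ℂ)
    (hc : ∀ K : IntermediateField ℚ ℂ, QCl K → (∀ i, c i ∈ K) → ∀ k, GQuad (z k) →
      ∀ i, J4 (z k) i ∈ K)
    (d : ℕ) (hd : (d : WithBot ℕ∞) ≤ ringKrullDim (MvPolynomial (Fin 4 × Fin n)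
      (integralClosure ℚ ℂ) ⧸
        (⨅ w ∈ gU z, RingHom.ker (MvPolynomial.aeval (R := integralClosure ℚ ℂ) (ggr w))))) :
    d ≤ 4 * N + Fintype.card γ := by
  classical
  set I : Ideal (MvPolynomial (Fin 4 × Fin n) (integralClosure ℚ ℂ)) :=
    (⨅ w ∈ gU z, RingHom.ker (MvPolynomial.aeval (R := integralClosure ℚ ℂ) (ggr w))) with hIdef
  have hmemI : ∀ P, P ∈ I ↔
      ∀ w ∈ gU z, MvPolynomial.aeval (R := integralClosure ℚ ℂ) (ggr w) P = 0 := by
    intro P
    rw [hIdef]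
    simp only [Submodule.mem_iInf, RingHom.mem_ker]
  have h0 : ∀ u ∈ gH N, ∀ k, 0 < (φ u k).im := fun u hu k => (h1 u hu).1.1 k
  -- the functions
  let ι : Type := {P : MvPolynomial (Fin 4 × Fin n) (integralClosure ℚ ℂ) // P ∉ I} ⊕
    (Fin N ⊕ Fin N)
  let F : ι → (Fin N → ℂ) → ℂ := Sum.elim
    (fun P u => MvPolynomial.aeval (R := integralClosure ℚ ℂ) (ggr (φ u)) P.1)
    (Sum.elim (fun l u => jf (u l)) (fun l u => deriv jf (u l)))
  have hcnt := gdg_countable n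
  have hcι : Countable ι := by
    dsimp only [ι]
    infer_instance
  have hF : ∀ i, AnalyticOnNhd ℂ (F i) (gH N) := by
    rintro (P | l | l)
    · exact gdg_analytic φ h0 h3 P.1
    · intro u hu
      have h4 : AnalyticAt ℂ jf ((fun u : Fin N → ℂ => u l) u) := jf_analyticAt (hu l)
      exact AnalyticAt.comp (f := fun u : Fin N → ℂ => u l) (x := u) h4 (gdg_proj l u)
    · intro u hu
      have h4 : AnalyticAt ℂ (deriv jf) ((fun u : Fin N → ℂ => u l) u) :=
        (jf_analyticAt (hu l)).deriv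
      exact AnalyticAt.comp (f := fun u : Fin N → ℂ => u l) (x := u) h4 (gdg_proj l u)
  have hne : ∀ i, ∃ x ∈ gH N, F i x ≠ 0 := by
    rintro (P | l | l)
    · by_contra hcon
      push Not at hcon
      apply P.2
      rw [hmemI]
      intro v hv
      have h4 := hcon (fun l => v (κ l)) (fun l => hv.1 (κ l))
      have h5 : MvPolynomial.aeval (R := integralClosure ℚ ℂ)
        (ggr (φ (fun l => v (κ l)))) P.1 = 0 := h4
      rwa [h2 v hv] at h5
    · obtain ⟨w, hw, hw'⟩ := gdg_exists_jf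
      exact ⟨fun _ => w, fun _ => hw, hw'⟩
    · obtain ⟨w, hw, hw'⟩ := gdg_exists_djf
      exact ⟨fun _ => w, fun _ => hw, hw'⟩
  obtain ⟨u, hu, hFu⟩ := gavoid (gH N) (gH_open N) (gH_preconnected N) F hF hne (gH N)
    (gH_open N) ⟨fun _ => Complex.I, fun _ => by simp⟩ (fun _ h => h)
  have hj : ∀ l, jf (u l) ≠ 0 := fun l => hFu (Sum.inr (Sum.inl l))
  have hdj : ∀ l, deriv jf (u l) ≠ 0 := fun l => hFu (Sum.inr (Sum.inr l))
  -- the point
  let ψ : MvPolynomial (Fin 4 × Fin n) (integralClosure ℚ ℂ) →ₐ[ℚ] ℂ :=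
    (MvPolynomial.aeval (R := integralClosure ℚ ℂ) (ggr (φ u))).restrictScalars ℚ
  have hψ : ∀ P, ψ P = MvPolynomial.aeval (R := integralClosure ℚ ℂ) (ggr (φ u)) P :=
    fun P => rfl
  have hIψ : I = RingHom.ker ψ := by
    ext P
    rw [RingHom.mem_ker, hψ]
    constructor
    · intro h
      exact (hmemI P).1 h _ (h1 u hu).1
    · intro h
      by_contra hP
      exact hFu (Sum.inl ⟨P, hP⟩) h
  rw [hIψ] at hd
  have hprime : (RingHom.ker ψ).IsPrime := RingHom.ker_isPrime ψ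
  obtain ⟨x, hx⟩ := gdim_indep (k := ℚ) (A := MvPolynomial (Fin 4 × Fin n)
    (integralClosure ℚ ℂ) ⧸ RingHom.ker ψ) d hd
  have hx' : AlgebraicIndependent ℚ ((Ideal.kerLiftAlg ψ) ∘ x) :=
    hx.map' (Ideal.kerLiftAlg_injective ψ)
  obtain ⟨s, hs, -⟩ := qtrd ((Ideal.kerLiftAlg ψ) ∘ x)
    (Sum.elim (fun p : Fin 4 × Fin N => J4 (u p.2) p.1) c) hx' (by
      intro K hK hy i
      obtain ⟨P, hP⟩ := Ideal.Quotient.mk_surjective (x i)
      rw [Function.comp_apply, ← hP, Ideal.kerLiftAlg_mk, hψ]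
      exact gdg_mem z φ h1 c hc u hu hj hdj K hK (fun l i => hy (Sum.inl (i, l)))
        (fun i => hy (Sum.inr i)) P)
  have hs2 : s.card ≤ Fintype.card ((Fin 4 × Fin N) ⊕ γ) := Finset.card_le_univ s
  rw [Fintype.card_fin] at hs
  rw [Fintype.card_sum, Fintype.card_prod, Fintype.card_fin, Fintype.card_fin] at hs2
  exact hs.trans hs2

end Pool.Agent.Lib.MP5e
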