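import Pool.Agent.Lib.MP_5e64e7_nt.GAv

set_option autoImplicit false

/-!
# G.DIMU : the dimension of the special closure is at least the number of blocks (about 120 lines)

For `i ≤ N` let `V_i = {v ∈ gU z | v (κ l) = i-th coordinate of the base point u₀ for l < i}`, where `u₀ ∈ gH N` is fixed
(`u₀ l = I`), and `P_i` the ideal of the polynomials vanishing on `V_i`. By `h1`, `h2`: `V_i = φ '' {u ∈ gH N | u l = I for l < i}`.
`P_i` is prime: if `F G ∈ P_i`, then with `ψ_i : (Fin N → ℂ) → Fin N → ℂ`, `ψ_i u l = I` if `l < i`, `u l` otherwise (this maps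
`gH N` onto `{u ∈ gH N | …}`) the product of the analytic functions `u ↦ F(φ(ψ_i u))`, `G(φ(ψ_i u))` vanishes on `gH N`; `gprod` with
`gH_open`, `gH_preconnected`. Not everything: `1 ∉ P_i` (`V_i` is not empty).
`P_i < P_{i+1}`: `V_{i+1} ⊆ V_i`, and `X (κ i) - C I` is in `P_{i+1}` and not in `P_i` (the point `φ u` with `u i = 2 I`,
`u l = I` otherwise, lies in `V_i`; `φ u (κ i) = u i`).
All `P_i` contain the ideal `⨅ w ∈ gU z, ker (eval w)`, so they give a chain of length `N` of primes in the quotient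
(`Order.le_krullDim_iff`, `Ideal.Quotient`: order embedding of the primes containing the ideal: `ringKrullDim_quotient`,
`PrimeSpectrum.zeroLocus`; `LTSeries` or `Order.krullDim`; e.g. build the `LTSeries` on
`{p : PrimeSpectrum R // I ≤ p.asIdeal}` and use `ringKrullDim_quotient`).
-/

noncomputable section

namespace Pool.Agent.Lib.MP5e

open Polynomial Topology

/-- the first `i` coordinates replaced by `I` -/
private def gpsi {N : ℕ} (i : ℕ) (u : Fin N → ℂ) : Fin N → ℂ :=
  fun l => if (l : ℕ) < i then Complex.I else u l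

private theorem gpsi_mem {N : ℕ} (i : ℕ) {u : Fin N → ℂ} (hu : u ∈ gH N) : gpsi i u ∈ gH N := by
  intro l
  unfold gpsi
  split_ifs
  · simp
  · exact hu l

private theorem gpsi_an {N : ℕ} (i : ℕ) (u : Fin N → ℂ) :
    AnalyticAt ℂ (gpsi i : (Fin N → ℂ) → Fin N → ℂ) u := by
  rw [analyticAt_pi_iff]
  intro l
  unfold gpsi
  split_ifs
  · exact analyticAt_const
  · exact (ContinuousLinearMap.proj (R := ℂ) (φ := fun _ : Fin N => ℂ) l).analyticAt u

private theorem gpsi_succ {N : ℕ} (i : ℕ) (u : Fin N → ℂ) :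
    gpsi i (gpsi (i + 1) u) = gpsi (i + 1) u := by
  funext l
  unfold gpsi
  split_ifs with h1 h2
  · rfl
  · omega
  · rfl
  · rfl

private theorem gdu_an {n N : ℕ} (φ : (Fin N → ℂ) → Fin n → ℂ)
    (h3 : ∀ k, AnalyticOnNhd ℂ (fun u => φ u k) (gH N)) (i : ℕ) (F : MvPolynomial (Fin n) ℂ) :
    AnalyticOnNhd ℂ (fun u => MvPolynomial.eval (φ (gpsi i u)) F) (gH N) := by
  intro u hu
  induction F using MvPolynomial.induction_on with
  | C a =>
    simp only [MvPolynomial.eval_C]
    exact analyticAt_const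
  | add p q hp hq =>
    simp only [map_add]
    exact hp.add hq
  | mul_X p k hp =>
    simp only [map_mul, MvPolynomial.eval_X]
    refine hp.mul ?_
    exact AnalyticAt.comp (g := fun u => φ u k) (h3 k _ (gpsi_mem i hu)) (gpsi_an i u)

theorem gdimU {n N : ℕ} (z : Fin n → ℂ) (κ : Fin N → Fin n) (φ : (Fin N → ℂ) → Fin n → ℂ)
    (h1 : ∀ u ∈ gH N, φ u ∈ gU z ∧ ∀ l, φ u (κ l) = u l)
    (h2 : ∀ v ∈ gU z, φ (fun l => v (κ l)) = v)
    (h3 : ∀ k, AnalyticOnNhd ℂ (fun u => φ u k) (gH N)) :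
    (N : WithBot ℕ∞) ≤ ringKrullDim (MvPolynomial (Fin n) ℂ ⧸
      (⨅ w ∈ gU z, RingHom.ker (MvPolynomial.eval w))) := by
  obtain ⟨P, hP⟩ : ∃ P : ℕ → Ideal (MvPolynomial (Fin n) ℂ), P = fun i =>
      ⨅ u ∈ gH N, RingHom.ker (MvPolynomial.eval (φ (gpsi i u))) := ⟨_, rfl⟩
  have hmem : ∀ i F, F ∈ P i ↔ ∀ u ∈ gH N, MvPolynomial.eval (φ (gpsi i u)) F = 0 := by
    intro i F
    rw [hP]
    simp only [Ideal.mem_iInf, RingHom.mem_ker]
  have hI : (fun _ : Fin N => Complex.I) ∈ gH N := fun l => by simp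
  have h2I : (fun _ : Fin N => 2 * Complex.I) ∈ gH N := fun l => by simp
  have hprime : ∀ i, (P i).IsPrime := by
    intro i
    refine ⟨?_, ?_⟩
    · intro htop
      have h4 : (1 : MvPolynomial (Fin n) ℂ) ∈ P i := by rw [htop]; exact Submodule.mem_top
      have h5 := (hmem i 1).1 h4 _ hI
      simp at h5
    · intro F G hFG
      rw [hmem] at hFG
      rcases gprod (gH N) (gH_open N) (gH_preconnected N) _ _ (gdu_an φ h3 i F)
        (gdu_an φ h3 i G) (fun u hu => by
          have h4 := hFG u hu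
          rwa [map_mul] at h4) with h | h
      · left
        rw [hmem]
        exact h
      · right
        rw [hmem]
        exact h
  have hIle : ∀ i, (⨅ w ∈ gU z, RingHom.ker (MvPolynomial.eval w)) ≤ P i := by
    intro i F hF
    rw [hmem]
    intro u hu
    simp only [Ideal.mem_iInf, RingHom.mem_ker] at hF
    exact hF _ (h1 _ (gpsi_mem i hu)).1
  have hlt : ∀ i, i < N → P i < P (i + 1) := by
    intro i hi
    refine lt_of_le_of_ne ?_ ?_
    · intro F hF
      rw [hmem] at hF ⊢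
      intro u hu
      have h4 := hF _ (gpsi_mem (i + 1) hu)
      rwa [gpsi_succ] at h4
    · intro heq
      have h4 : (MvPolynomial.X (κ ⟨i, hi⟩) - MvPolynomial.C Complex.I :
          MvPolynomial (Fin n) ℂ) ∈ P (i + 1) := by
        rw [hmem]
        intro u hu
        rw [map_sub, MvPolynomial.eval_X, MvPolynomial.eval_C,
          (h1 _ (gpsi_mem (i + 1) hu)).2 ⟨i, hi⟩]
        unfold gpsi
        rw [if_pos (by simp)]
        ring
      rw [← heq, hmem] at h4
      have h5 := h4 _ h2I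
      rw [map_sub, MvPolynomial.eval_X, MvPolynomial.eval_C,
        (h1 _ (gpsi_mem i h2I)).2 ⟨i, hi⟩] at h5
      unfold gpsi at h5
      rw [if_neg (by simp)] at h5
      have h6 : Complex.I = 0 := by linear_combination h5
      exact Complex.I_ne_zero h6
  rw [ringKrullDim_quotient]
  let s : LTSeries (PrimeSpectrum.zeroLocus (R := MvPolynomial (Fin n) ℂ)
      ((⨅ w ∈ gU z, RingHom.ker (MvPolynomial.eval w) : Ideal (MvPolynomial (Fin n) ℂ)) :
        Set (MvPolynomial (Fin n) ℂ))) :=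
    { length := N
      toFun := fun i => ⟨⟨P i, hprime i⟩, hIle i⟩
      step := fun i => by
        change (⟨⟨P _, _⟩, _⟩ : PrimeSpectrum.zeroLocus _) < ⟨⟨P _, _⟩, _⟩
        rw [Subtype.mk_lt_mk]
        exact hlt i i.2 }
  exact Order.LTSeries.length_le_krullDim s

end Pool.Agent.Lib.MP5e
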