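import Pool.Agent.Lib.MP_5e64e7_nt.GRelA

set_option autoImplicit false

/-!
# G.PAR : the special closure is parametrised by one coordinate of each block (about 170 lines)

Let `A = {k // ¬ GQuad (z k)}`. Choose a subset of representatives of the classes of `GRel` on `A`: e.g. for `k ∈ A` let `ρ k`
be the least `k' ∈ A` with `GRel (z k') (z k)`; the set `R = {k ∈ A | ρ k = k}` contains exactly one element of each class, `ρ k ∈ R`.
`κ : Fin N → Fin n` enumerates `R` (`R.equivFin`). For `k ∈ A` let `l(k)` be the index with `κ (l k) = ρ k`, and choose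
`p_k, q_k, r_k, s_k` with `z k = (p_k z_{ρ k} + q_k)/(r_k z_{ρ k} + s_k)`, `p s - q r > 0`; for `k ∈ R` take `1, 0, 0, 1`.
`φ u k = (p_k u_{l k} + q_k)/(r_k u_{l k} + s_k)` for `k ∈ A` and `φ u k = z k` otherwise.

`φ u ∈ gU z` for `u ∈ gH N`: imaginary parts by `grel_im`. Relations: let `z i = (a z k + b)/(c z k + e)`, `a e - b c > 0`.
If `GQuad (z i)` then `GQuad (z k)` (`grel_quad`) and the relation for `φ u` is the given one. Otherwise `k ∈ A`, `i ∈ A`, and
`GRel (z_{ρ k}) (z_i)`, so `ρ i = ρ k` (representatives of different classes are not related), and the matrix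
`(p_i …)⁻¹ (a b; c e) (p_k …)` fixes the non-quadratic point `z_{ρ k}`: by `grel_fix` it is a multiple `λ` of the identity,
`λ ≠ 0`. Hence `(a b; c e)(p_k q_k; r_k s_k) = λ (p_i q_i; r_i s_i)` (adjugates) and the relation holds for every `u`.
(Clean way: with `G = adj(M_i) * M * M_k`, `det > 0`, `G z_ρ = z_ρ` gives `G 0 1 = G 1 0 = 0`, `G 0 0 = G 1 1`; multiply by
`M_i`: `det(M_i) • (M * M_k) = G 0 0 • M_i`.)
`v ∈ gU z`, `u = v ∘ κ`: `v k = φ u k` is one of the relations defining `gU z` (for `k ∈ A`: `i := k`, `k := ρ k`), and for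
`GQuad (z k)` it is the last condition. In particular for `v = z ∈ gU z`.
Analytic: quotient of affine functions of `u (l k)`, denominator not zero (`grel_den`).
-/

noncomputable section

namespace Pool.Agent.Lib.MP5e

open Polynomial Topology

open Classical in
/-- representatives of the classes -/
private lemma exists_rep {n : ℕ} (z : Fin n → ℂ) (him : ∀ i, 0 < (z i).im) :
    ∃ rep : Fin n → Fin n, (∀ k, GRel (z (rep k)) (z k)) ∧
      (∀ k k', GRel (z k) (z k') → rep k = rep k') ∧ (∀ k, rep (rep k) = rep k) := by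
  let S : Setoid (Fin n) :=
    { r := fun k k' => GRel (z k) (z k')
      iseqv := ⟨fun k => grel_refl _, fun {k k'} h => grel_symm (him k) h,
        fun {k k' k''} h h' => grel_trans (him k) h h'⟩ }
  have h1 : ∀ k, GRel (z (Quotient.out (Quotient.mk S k))) (z k) := fun k =>
    Quotient.exact (Quotient.out_eq (Quotient.mk S k))
  have h2 : ∀ k k', GRel (z k) (z k') →
      Quotient.out (Quotient.mk S k) = Quotient.out (Quotient.mk S k') := by
    intro k k' h
    have : Quotient.mk S k = Quotient.mk S k' := Quotient.sound h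
    rw [this]
  exact ⟨fun k => Quotient.out (Quotient.mk S k), h1, h2, fun k => h2 _ _ (h1 k)⟩

/-- the matrix of a related pair is determined up to a scalar -/
private lemma mat_unique {ζ : ℂ} (hζ : 0 < ζ.im) (hq : ¬ GQuad ζ) {A B C E p q r s : ℚ}
    (hN : 0 < A * E - B * C) (hM : 0 < p * s - q * r)
    (h : ((A : ℂ) * ζ + (B : ℂ)) / ((C : ℂ) * ζ + (E : ℂ)) =
      ((p : ℂ) * ζ + (q : ℂ)) / ((r : ℂ) * ζ + (s : ℂ))) :
    ∃ l : ℚ, l ≠ 0 ∧ A = l * p ∧ B = l * q ∧ C = l * r ∧ E = l * s := by
  have hd1 := grel_den hζ hN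
  have hd2 := grel_den hζ hM
  have he : ((A : ℂ) * ζ + B) * (r * ζ + s) = (p * ζ + q) * (C * ζ + E) :=
    (div_eq_div_iff hd1 hd2).mp h
  have hdet : 0 < (s * A - q * C) * (-r * B + p * E) - (s * B - q * E) * (-r * A + p * C) := by
    have : (s * A - q * C) * (-r * B + p * E) - (s * B - q * E) * (-r * A + p * C) =
      (A * E - B * C) * (p * s - q * r) := by ring
    rw [this]
    exact mul_pos hN hM
  have hd3 := grel_den hζ hdet
  have hf : ζ = (((s * A - q * C : ℚ) : ℂ) * ζ + ((s * B - q * E : ℚ) : ℂ)) /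
      (((-r * A + p * C : ℚ) : ℂ) * ζ + ((-r * B + p * E : ℚ) : ℂ)) := by
    rw [eq_div_iff hd3]
    push_cast
    linear_combination -he
  obtain ⟨e1, e2, e3⟩ := grel_fix hζ hq hdet hf
  have hM' : p * s - q * r ≠ 0 := hM.ne'
  refine ⟨(s * A - q * C) / (p * s - q * r), ?_, ?_, ?_, ?_, ?_⟩
  · intro h0
    rw [div_eq_zero_iff] at h0
    rcases h0 with h0 | h0
    · rw [h0, e1] at hdet
      simp at hdet
    · exact hM' h0
  · rw [div_mul_eq_mul_div, eq_div_iff hM']
    linear_combination q * e2
  · rw [div_mul_eq_mul_div, eq_div_iff hM']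
    linear_combination p * e1 - q * e3
  · rw [div_mul_eq_mul_div, eq_div_iff hM']
    linear_combination s * e2
  · rw [div_mul_eq_mul_div, eq_div_iff hM']
    linear_combination r * e1 - s * e3

theorem gpar {n : ℕ} (z : Fin n → ℂ) (him : ∀ i, 0 < (z i).im) :
    ∃ (N : ℕ) (κ : Fin N → Fin n) (φ : (Fin N → ℂ) → Fin n → ℂ),
      (∀ l, ¬ GQuad (z (κ l))) ∧ (∀ l l', l ≠ l' → ¬ GRel (z (κ l)) (z (κ l'))) ∧
      (∀ u ∈ gH N, φ u ∈ gU z ∧ (∀ l, φ u (κ l) = u l) ∧
        ∀ k, (GQuad (z k) ∧ φ u k = z k) ∨ ∃ l, GRel (u l) (φ u k)) ∧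
      (∀ v ∈ gU z, φ (fun l => v (κ l)) = v) ∧
      (∀ k, AnalyticOnNhd ℂ (fun u => φ u k) (gH N)) := by
  classical
  obtain ⟨rep, hrep, hrep2, hrep3⟩ := exists_rep z him
  have hqrep : ∀ k, ¬ GQuad (z k) → ¬ GQuad (z (rep k)) := fun k hk h =>
    hk ((grel_quad (him _) (hrep k)).mp h)
  -- matrices
  have hmat : ∀ k, ∃ p q r s : ℚ, 0 < p * s - q * r ∧
      z k = ((p : ℂ) * z (rep k) + (q : ℂ)) / ((r : ℂ) * z (rep k) + (s : ℂ)) ∧
      (rep k = k → p = 1 ∧ q = 0 ∧ r = 0 ∧ s = 1) := by
    intro k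
    by_cases hk : rep k = k
    · refine ⟨1, 0, 0, 1, by norm_num, ?_, fun _ => ⟨rfl, rfl, rfl, rfl⟩⟩
      rw [hk]
      simp
    · obtain ⟨p, q, r, s, hd, he⟩ := hrep k
      exact ⟨p, q, r, s, hd, he, fun h => absurd h hk⟩
  choose p q r s hd he h1 using hmat
  -- the index set
  let R := {k : Fin n // ¬ GQuad (z k) ∧ rep k = k}
  let e : R ≃ Fin (Fintype.card R) := Fintype.equivFin R
  let ix : (k : Fin n) → ¬ GQuad (z k) → R := fun k hk => ⟨rep k, hqrep k hk, hrep3 k⟩
  let φ : (Fin (Fintype.card R) → ℂ) → Fin n → ℂ := fun u k =>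
    if hk : ¬ GQuad (z k) then
      ((p k : ℂ) * u (e (ix k hk)) + (q k : ℂ)) / ((r k : ℂ) * u (e (ix k hk)) + (s k : ℂ))
    else z k
  have φ1 : ∀ u k (hk : ¬ GQuad (z k)), φ u k =
      ((p k : ℂ) * u (e (ix k hk)) + (q k : ℂ)) / ((r k : ℂ) * u (e (ix k hk)) + (s k : ℂ)) :=
    fun u k hk => dif_pos hk
  have φ2 : ∀ u k, GQuad (z k) → φ u k = z k := fun u k hk => dif_neg (not_not.mpr hk)
  refine ⟨Fintype.card R, fun l => (e.symm l).1, φ, fun l => (e.symm l).2.1, ?_, ?_, ?_, ?_⟩
  · intro l l' hll h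
    have h2 := hrep2 _ _ h
    rw [(e.symm l).2.2, (e.symm l').2.2] at h2
    exact hll (e.symm.injective (Subtype.ext h2))
  · intro u hu
    refine ⟨⟨?_, ?_, ?_⟩, ?_, ?_⟩
    · intro k
      by_cases hk : GQuad (z k)
      · rw [φ2 u k hk]
        exact him k
      · rw [φ1 u k hk]
        exact grel_im (hu (e (ix k hk))) ⟨p k, q k, r k, s k, hd k, rfl⟩
    · intro i k a b c f hdet hzi
      have hrel : GRel (z k) (z i) := ⟨a, b, c, f, hdet, hzi⟩
      by_cases hk : GQuad (z k)
      · have hi : GQuad (z i) := (grel_quad (him k) hrel).mp hk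
        rw [φ2 u k hk, φ2 u i hi]
        exact hzi
      · have hi : ¬ GQuad (z i) := fun h => hk ((grel_quad (him k) hrel).mpr h)
        have hr : rep k = rep i := hrep2 _ _ hrel
        have hix : ix i hi = ix k hk := Subtype.ext hr.symm
        rw [φ1 u k hk, φ1 u i hi, hix]
        have hu0 := hu (e (ix k hk))
        generalize u (e (ix k hk)) = u0 at hu0
        have hζ := him (rep k)
        have hqζ := hqrep k hk
        have hei := he i
        rw [← hr] at hei
        have hek := he k
        generalize z (rep k) = ζ at hζ hqζ hei hek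
        have hdN : 0 < (a * p k + b * r k) * (c * q k + f * s k) -
            (a * q k + b * s k) * (c * p k + f * r k) := by
          have : (a * p k + b * r k) * (c * q k + f * s k) -
            (a * q k + b * s k) * (c * p k + f * r k) =
            (a * f - b * c) * (p k * s k - q k * r k) := by ring
          rw [this]
          exact mul_pos hdet (hd k)
        -- composition formula
        have hcomp : ∀ x : ℂ, 0 < x.im →
            ((a : ℂ) * ((p k * x + q k) / (r k * x + s k)) + b) /
              ((c : ℂ) * ((p k * x + q k) / (r k * x + s k)) + f) =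
            (((a * p k + b * r k : ℚ) : ℂ) * x + ((a * q k + b * s k : ℚ) : ℂ)) /
              (((c * p k + f * r k : ℚ) : ℂ) * x + ((c * q k + f * s k : ℚ) : ℂ)) := by
          intro x hx
          have hx1 := grel_den hx (hd k)
          have hx2 := grel_den hx hdN
          have hx3 := grel_den (grel_im hx ⟨p k, q k, r k, s k, hd k, rfl⟩) hdet
          rw [div_eq_div_iff hx3 hx2]
          have e1 : ∀ α β : ℂ, α * ((p k * x + q k) / (r k * x + s k)) + β =
              (α * (p k * x + q k) + β * (r k * x + s k)) / (r k * x + s k) := by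
            intro α β
            rw [eq_div_iff hx1, add_mul, mul_assoc, div_mul_cancel₀ _ hx1]
          rw [e1, e1, div_mul_eq_mul_div, mul_div_assoc']
          refine congrArg (fun t => t / ((r k : ℂ) * x + s k)) ?_
          push_cast
          ring
        rw [hcomp u0 hu0]
        have hh := hzi
        rw [hek, hcomp ζ hζ, hei] at hh
        obtain ⟨l, hl, e1, e2, e3, e4⟩ := mat_unique hζ hqζ hdN (hd i) hh.symm
        rw [e1, e2, e3, e4]
        have hl' : (l : ℂ) ≠ 0 := by exact_mod_cast hl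
        have hx1 := grel_den hu0 (hd i)
        push_cast
        have t1 : ((l : ℂ) * p i * u0 + l * q i) = l * (p i * u0 + q i) := by ring
        have t2 : ((l : ℂ) * r i * u0 + l * s i) = l * (r i * u0 + s i) := by ring
        rw [t1, t2, mul_div_mul_left _ _ hl']
    · intro i hi
      exact φ2 u i hi
    · intro l
      have hp := (e.symm l).2
      rw [φ1 u _ hp.1]
      obtain ⟨g1, g2, g3, g4⟩ := h1 _ hp.2
      have hix : e (ix _ hp.1) = l := by
        have : ix _ hp.1 = e.symm l := Subtype.ext hp.2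
        rw [this, Equiv.apply_symm_apply]
      rw [g1, g2, g3, g4, hix]
      simp
    · intro k
      by_cases hk : GQuad (z k)
      · exact Or.inl ⟨hk, φ2 u k hk⟩
      · exact Or.inr ⟨e (ix k hk), p k, q k, r k, s k, hd k, φ1 u k hk⟩
  · intro v hv
    funext k
    show φ (fun l => v (e.symm l).1) k = v k
    by_cases hk : GQuad (z k)
    · exact (φ2 (fun l => v (e.symm l).1) k hk).trans (hv.2.2 k hk).symm
    · refine (φ1 (fun l => v (e.symm l).1) k hk).trans ?_
      have hs : e.symm (e (ix k hk)) = ix k hk := Equiv.symm_apply_apply _ _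
      have := hv.2.1 k (rep k) (p k) (q k) (r k) (s k) (hd k) (he k)
      rw [this]
      show ((p k : ℂ) * v (e.symm (e (ix k hk))).1 + (q k : ℂ)) /
        ((r k : ℂ) * v (e.symm (e (ix k hk))).1 + (s k : ℂ)) = _
      rw [hs]
  · intro k u hu
    by_cases hk : GQuad (z k)
    · have : (fun u => φ u k) = fun _ => z k := funext fun u => φ2 u k hk
      rw [this]
      exact analyticAt_const
    · have : (fun u => φ u k) = fun u =>
          ((p k : ℂ) * u (e (ix k hk)) + (q k : ℂ)) / ((r k : ℂ) * u (e (ix k hk)) + (s k : ℂ)) :=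
        funext fun u => φ1 u k hk
      rw [this]
      have hl : AnalyticAt ℂ (fun u : Fin (Fintype.card R) → ℂ => u (e (ix k hk))) u :=
        (ContinuousLinearMap.proj (R := ℂ) (φ := fun _ : Fin (Fintype.card R) => ℂ)
          (e (ix k hk))).analyticAt u
      exact ((analyticAt_const.mul hl).add analyticAt_const).div
        ((analyticAt_const.mul hl).add analyticAt_const) (grel_den (hu _) (hd k))

end Pool.Agent.Lib.MP5e
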