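import Pool.Agent.Lib.MP_5e64e7_nt.GTd
import Pool.Agent.Lib.MP_5e64e7_nt.GCls
import Pool.Agent.Lib.MP_5e64e7_nt.GPar
import Pool.Agent.Lib.MP_5e64e7_nt.GDimU
import Pool.Agent.Lib.MP_5e64e7_nt.GDimG

set_option autoImplicit false

/-!
# G.FIN : the frozen inequality for tuples of points quadratic over `ℚ(w)`
-/

noncomputable section

namespace Pool.Agent.Lib.MP5e

open Polynomial Topology

theorem galg {z : ℂ} (h : GQuad z) : IsAlgebraic ℚ z := by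
  obtain ⟨a, b, c, ha, h⟩ := h
  refine ⟨Polynomial.C a * Polynomial.X ^ 2 + Polynomial.C b * Polynomial.X + Polynomial.C c,
    ?_, ?_⟩
  · intro h0
    have h1 := Polynomial.natDegree_quadratic (b := b) (c := c) ha
    rw [h0, Polynomial.natDegree_zero] at h1
    exact absurd h1 (by norm_num)
  · simp only [map_add, map_mul, map_pow, Polynomial.aeval_C, Polynomial.aeval_X]
    exact h

theorem gforms {m n F : ℕ} (w : Fin m → ℝ) (z : Fin n → ℂ) (him : ∀ i, 0 < (z i).im)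
    (s : Fin F → ℂ) (e : Fin n → Fin F) (hs : ∀ i, s i ^ 2 ∈ gQ w)
    (hz : ∀ k, z k ∈ gQs w (s (e k))) :
    ∃ f : Fin n → RF m, (∀ k, RGood (f k) (fun l => (w l : ℂ))) ∧
      (∀ k l, e k = e l → (f k).d = (f l).d) ∧ ∀ k, rz (f k) (fun l => (w l : ℂ)) = z k := by
  choose δ hδ using fun i => gcls w (s i) (hs i)
  choose P Q R h1 h2 using fun k => hδ (e k) (z k) (him k) (hz k)
  refine ⟨fun k => ⟨δ (e k), P k, Q k, R k⟩, h1, ?_, h2⟩
  intro k l hkl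
  change δ (e k) = δ (e l)
  rw [hkl]

private theorem gfin_card {F : ℕ} (P Q : Fin F → Prop) (h : ∀ i, P i → ¬ Q i) :
    Nat.card {i // P i} + Nat.card {i // Q i} ≤ F := by
  classical
  rw [Nat.card_eq_fintype_card, Nat.card_eq_fintype_card, ← Fintype.card_sum]
  have h1 : Function.Injective (Sum.elim (Subtype.val : {i // P i} → Fin F)
      (Subtype.val : {i // Q i} → Fin F)) := by
    refine Function.Injective.sumElim Subtype.val_injective Subtype.val_injective ?_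
    intro a b hab
    exact h a.1 a.2 (hab ▸ b.2)
  have h2 := Fintype.card_le_of_injective _ h1
  rwa [Fintype.card_fin] at h2

theorem gB {m n N ρ F : ℕ} (w : Fin m → ℝ) (hw : QHier w) (z : Fin n → ℂ)
    (him : ∀ i, 0 < (z i).im) (s : Fin F → ℂ) (e : Fin n → Fin F) (hs : ∀ i, s i ^ 2 ∈ gQ w)
    (hz : ∀ k, z k ∈ gQs w (s (e k)))
    (κ : Fin N → Fin n) (hq : ∀ l, ¬ GQuad (z (κ l)))
    (hrel : ∀ l l', l ≠ l' → ¬ GRel (z (κ l)) (z (κ l')))
    (μ : Fin ρ → Fin n) (hμ : AlgebraicIndependent ℚ (fun i => z (μ i))) (d : ℕ)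
    (hdd : d + Nat.card {i : Fin F // (∃ l, e (κ l) = i) ∧
      ∀ k, e k = i → GQuad (z k) → deriv jf (z k) = 0 ∧ deriv (deriv jf) (z k) = 0} ≤
        3 * N + ρ) :
    ∃ x : Fin d → ℂ, AlgebraicIndependent ℚ x ∧ ∀ t, ∃ p : Fin 4 × Fin n, x t = ggr z p := by
  obtain ⟨f, hf1, hf2, hf3⟩ := gforms w z him s e hs hz
  exact gtd w hw f hf1 e hf2 z hf3 κ hq hrel μ hμ d hdd

theorem gA {m n F : ℕ} (w : Fin m → ℝ) (hw : QHier w) (z : Fin n → ℂ)
    (him : ∀ i, 0 < (z i).im) (s : Fin F → ℂ) (e : Fin n → Fin F) (hs : ∀ i, s i ^ 2 ∈ gQ w)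
    (hz : ∀ k, z k ∈ gQs w (s (e k)))
    (μ : Fin F → Fin n) (hμ : AlgebraicIndependent ℚ (fun i => z (μ i))) (d : ℕ)
    (hd : ((d : WithBot ℕ∞) + ringKrullDim (MvPolynomial (Fin n) ℂ ⧸
        (⨅ w ∈ gU z, RingHom.ker (MvPolynomial.eval w))) ≤
      ringKrullDim (MvPolynomial (Fin 4 × Fin n) (integralClosure ℚ ℂ) ⧸
        (⨅ w ∈ gU z, RingHom.ker (MvPolynomial.aeval (R := integralClosure ℚ ℂ) (ggr w)))))) :
    ∃ x : Fin d → ℂ, AlgebraicIndependent ℚ x ∧ ∀ t, ∃ p : Fin 4 × Fin n, x t = ggr z p := by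
  classical
  obtain ⟨f, hf1, hf2, hf3⟩ := gforms w z him s e hs hz
  obtain ⟨N, κ, φ, hκ1, hκ2, h1, h2, h3⟩ := gpar z him
  have hwi := rw_indep w hw
  have hD : ∀ i, ∃ D : ℕ, 1 ≤ D ∧ ∀ k, e k = i → GQuad (z k) → ∃ u v : ℚ, 0 < v ∧
      z k = (u : ℂ) + (v : ℂ) * qom D := by
    intro i
    obtain ⟨D, hD1, hD2⟩ := gconD (ι := {k : Fin n // e k = i ∧ GQuad (z k)})
      (fun k => f k.1) w (fun k => hf1 k.1) (fun k l => hf2 _ _ (k.2.1.trans l.2.1.symm))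
      (fun k => gconst (f k.1) w hwi (hf1 k.1) (by rw [hf3]; exact galg k.2.2))
    refine ⟨D, hD1, fun k hk hq => ?_⟩
    have h4 := hD2 ⟨k, hk, hq⟩
    rwa [hf3] at h4
  choose D hD1 hD2 using hD
  choose c hc1 hc2 hc3 using fun i => gspl (D i) (hD1 i)
  obtain ⟨good, hgood⟩ : ∃ good : Fin F → Prop, good = fun i => ∃ k, e k = i ∧ GQuad (z k) ∧
      ¬ (deriv jf (z k) = 0 ∧ deriv (deriv jf) (z k) = 0) := ⟨_, rfl⟩
  have hc : ∀ K : IntermediateField ℚ ℂ, QCl K → (∀ i : {i // good i}, c i.1 ∈ K) →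
      ∀ k, GQuad (z k) → ∀ i, J4 (z k) i ∈ K := by
    intro K hK hcK k hk i
    obtain ⟨u, v, hv, huv⟩ := hD2 (e k) k rfl hk
    by_cases hg : good (e k)
    · rw [huv]
      exact hc1 (e k) K hK (hcK ⟨e k, hg⟩) u v hv i
    · have h0 : deriv jf (z k) = 0 ∧ deriv (deriv jf) (z k) = 0 := by
        by_contra h0
        apply hg
        rw [hgood]
        exact ⟨k, rfl, hk, h0⟩
      obtain ⟨h5, h6⟩ := hc2 (e k) K hK u v hv
      rw [← huv] at h5 h6
      fin_cases i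
      · exact h6
      · exact h5
      · change deriv jf (z k) ∈ K
        rw [h0.1]
        exact zero_mem K
      · change deriv (deriv jf) (z k) ∈ K
        rw [h0.2]
        exact zero_mem K
  have hU := gdimU z κ φ (fun u hu => ⟨(h1 u hu).1, (h1 u hu).2.1⟩) h2 h3
  have hG := gdimG (γ := {i // good i}) z κ φ (fun u hu => ⟨(h1 u hu).1, (h1 u hu).2.2⟩) h2 h3
    (fun i => c i.1) hc (d + N) (by
      refine le_trans ?_ hd
      push_cast
      exact add_le_add_right hU _)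
  refine gtd w hw f hf1 e hf2 z hf3 κ hκ1 hκ2 μ hμ d ?_
  have hcard := gfin_card (fun i : Fin F => (∃ l, e (κ l) = i) ∧
      ∀ k, e k = i → GQuad (z k) → deriv jf (z k) = 0 ∧ deriv (deriv jf) (z k) = 0) good (by
    intro i hi hgi
    rw [hgood] at hgi
    obtain ⟨k, hk1, hk2, hk3⟩ := hgi
    exact hk3 (hi.2 k hk1 hk2))
  rw [Nat.card_eq_fintype_card (α := {i // good i})] at hcard
  omega

/-- one field `E = ℚ(w)(s)` -/
theorem gE {m n : ℕ} (w : Fin m → ℝ) (hw : QHier w) (z : Fin n → ℂ)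
    (him : ∀ i, 0 < (z i).im) (s : ℂ) (hs : s ^ 2 ∈ gQ w) (hz : ∀ k, z k ∈ gQs w s)
    (k : Fin n) (hk : ¬ GQuad (z k)) (d : ℕ)
    (hd : ((d : WithBot ℕ∞) + ringKrullDim (MvPolynomial (Fin n) ℂ ⧸
        (⨅ w ∈ gU z, RingHom.ker (MvPolynomial.eval w))) ≤
      ringKrullDim (MvPolynomial (Fin 4 × Fin n) (integralClosure ℚ ℂ) ⧸
        (⨅ w ∈ gU z, RingHom.ker (MvPolynomial.aeval (R := integralClosure ℚ ℂ) (ggr w)))))) :
    ∃ x : Fin d → ℂ, AlgebraicIndependent ℚ x ∧ ∀ t, ∃ p : Fin 4 × Fin n, x t = ggr z p := by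
  obtain ⟨f, hf1, hf2, hf3⟩ := gforms (F := 1) w z him (fun _ => s) (fun _ => 0)
    (fun _ => hs) hz
  refine gA (F := 1) w hw z him (fun _ => s) (fun _ => 0) (fun _ => hs) hz (fun _ => k) ?_ d hd
  rw [algebraicIndependent_unique_type_iff]
  have h1 := gtrans (f k) w (rw_indep w hw) (hf1 k) (by rw [hf3]; exact hk)
  rwa [hf3] at h1

end Pool.Agent.Lib.MP5e
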