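import Pool.Agent.Lib.MP_5e64e7_nt.RAna
import Pool.Agent.Lib.MP_5e64e7_nt.QAlg
import Pool.Agent.Lib.MP_5e64e7_nt.QTrd

set_option autoImplicit false

/-!
# R.MEM : membership in relatively algebraically closed fields (about 100 lines)

`K` relatively algebraically closed (`QCl`): `rev P x ∈ K` if all `x_l ∈ K` (induction on `P`), `rs f x ∈ K`
(`rs_sq`, `qcl_sq`), `I ∈ K` (`qcl_I`), so `rz f x, ry f x ∈ K`.
`rmem_fwd`: `rfam f rep x i ∈ K` (field operations; `J4 z 1 = jf z` etc. by `rfl`).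
`rmem_bwd`: `jf` is a member of the family. `deriv jf (z_k) = ratio · deriv jf (z_{rep k})` for `rep k ≠ k`
(`deriv jf (z_{rep k}) ≠ 0`; `rep (rep k) = rep k`), and
`deriv (deriv jf) z = κ (deriv jf z)² + (I/y) deriv jf z` (`deriv jf z ≠ 0`).
`rsub`: is `sub_of_trd` of `Results/MP_5e64e7_nt/AllQuadraticFields.lean` (copy its proof; uses `qtrd`).
-/

noncomputable section

namespace Pool.Agent.Lib.MP5e

private theorem rmem_rev {m : ℕ} (P : MvPolynomial (Fin m) ℤ) (x : Fin m → ℂ)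
    (K : IntermediateField ℚ ℂ) (hx : ∀ l, x l ∈ K) : rev P x ∈ K := by
  induction P using MvPolynomial.induction_on with
  | C a =>
    have h : rev (MvPolynomial.C a : MvPolynomial (Fin m) ℤ) x = (a : ℂ) := by
      simp [rev]
    rw [h]
    exact intCast_mem K a
  | add p q hp hq =>
    have h : rev (p + q) x = rev p x + rev q x := by
      simp [rev]
    rw [h]
    exact add_mem hp hq
  | mul_X p l hp =>
    have h : rev (p * MvPolynomial.X l) x = rev p x * x l := by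
      simp [rev]
    rw [h]
    exact mul_mem hp (hx l)

theorem rz_mem {m : ℕ} (f : RF m) (x : Fin m → ℂ) (K : IntermediateField ℚ ℂ) (hK : QCl K)
    (hx : ∀ l, x l ∈ K) : rz f x ∈ K ∧ ry f x ∈ K := by
  have hs : rs f x ∈ K := by
    apply qcl_sq hK
    rw [rs_sq]
    exact rmem_rev f.d x K hx
  have hI := qcl_I hK
  have hP := rmem_rev f.P x K hx
  have hQ := rmem_rev f.Q x K hx
  have hR := rmem_rev f.R x K hx
  exact ⟨div_mem (add_mem hP (mul_mem hQ (mul_mem hI hs))) hR, div_mem (mul_mem hQ hs) hR⟩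

theorem rmem_fwd {m n : ℕ} (f : Fin n → RF m) (rep : Fin n → Fin n) (x : Fin m → ℂ)
    (K : IntermediateField ℚ ℂ) (hK : QCl K) (hx : ∀ l, x l ∈ K)
    (hJ : ∀ k, ∀ i : Fin 4, J4 (rz (f k) x) i ∈ K) (i) : rfam f rep x i ∈ K := by
  have hI := qcl_I hK
  have h1 : ∀ k, jf (rz (f k) x) ∈ K := fun k => hJ k 1
  have h2 : ∀ k, deriv jf (rz (f k) x) ∈ K := fun k => hJ k 2
  have h3 : ∀ k, deriv (deriv jf) (rz (f k) x) ∈ K := fun k => hJ k 3
  rcases i with l | ⟨⟨k, e⟩ | k⟩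
  · exact hx l
  · fin_cases e
    · exact h1 k
    · change rkap (rz (f k) x) (ry (f k) x) ∈ K
      unfold rkap
      exact div_mem (sub_mem (h3 k) (mul_mem (div_mem hI (rz_mem (f k) x K hK hx).2) (h2 k)))
        (pow_mem (h2 k) 2)
  · exact div_mem (h2 k.1) (h2 (rep k.1))

theorem rmem_bwd {m n : ℕ} (f : Fin n → RF m) (rep : Fin n → Fin n) (hrep : RRep f rep)
    (x : Fin m → ℂ) (hj : ∀ k, deriv jf (rz (f k) x) ≠ 0)
    (K : IntermediateField ℚ ℂ) (hK : QCl K) (hx : ∀ i, rfam f rep x i ∈ K)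
    (hd : ∀ k, rep k = k → deriv jf (rz (f k) x) ∈ K) :
    (∀ l, x l ∈ K) ∧ ∀ k, ∀ i : Fin 4, J4 (rz (f k) x) i ∈ K := by
  have hI := qcl_I hK
  have hxl : ∀ l, x l ∈ K := fun l => hx (Sum.inl l)
  have h1 : ∀ k, jf (rz (f k) x) ∈ K := fun k => hx (Sum.inr (Sum.inl (k, 0)))
  have hkap : ∀ k, rkap (rz (f k) x) (ry (f k) x) ∈ K := fun k => hx (Sum.inr (Sum.inl (k, 1)))
  have h2 : ∀ k, deriv jf (rz (f k) x) ∈ K := by
    intro k
    by_cases hk : rep k = k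
    · exact hd k hk
    · have hr := hd (rep k) (hrep k).1
      have hq : deriv jf (rz (f k) x) / deriv jf (rz (f (rep k)) x) ∈ K :=
        hx (Sum.inr (Sum.inr ⟨k, hk⟩))
      have h := mul_mem hq hr
      rwa [div_mul_cancel₀ _ (hj (rep k))] at h
  refine ⟨hxl, fun k i => ?_⟩
  have hz := rz_mem (f k) x K hK hxl
  fin_cases i
  · exact hz.1
  · exact h1 k
  · exact h2 k
  · change deriv (deriv jf) (rz (f k) x) ∈ K
    have hk := hkap k
    unfold rkap at hk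
    have h := add_mem (mul_mem hk (pow_mem (h2 k) 2)) (mul_mem (div_mem hI hz.2) (h2 k))
    rwa [div_mul_cancel₀ _ (pow_ne_zero 2 (hj k)), sub_add_cancel] at h

theorem rsub {ι κ₁ κ₂ : Type} [Fintype ι] [Fintype κ₁] [Fintype κ₂] (x : ι → ℂ)
    (y₁ : κ₁ → ℂ) (y₂ : κ₂ → ℂ) (hx : AlgebraicIndependent ℚ x)
    (h : ∀ K : IntermediateField ℚ ℂ, QCl K → (∀ k, y₁ k ∈ K) → (∀ k, y₂ k ∈ K) → ∀ i, x i ∈ K)
    (d : ℕ) (hd : d + Fintype.card κ₂ ≤ Fintype.card ι) :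
    ∃ f : Fin d → ℂ, AlgebraicIndependent ℚ f ∧ ∀ t, ∃ k, f t = y₁ k := by
  classical
  obtain ⟨s, hs1, hs2⟩ := qtrd x (Sum.elim y₁ y₂) hx (fun K hK hy i =>
    h K hK (fun k => hy (Sum.inl k)) (fun k => hy (Sum.inr k)) i)
  obtain ⟨s₁, hs₁⟩ : ∃ s₁ : Finset κ₁, s₁ = Finset.univ.filter (fun k : κ₁ => Sum.inl k ∈ s) :=
    ⟨_, rfl⟩
  have hsub : s ⊆ s₁.map ⟨Sum.inl, Sum.inl_injective⟩ ∪
      (Finset.univ : Finset κ₂).map ⟨Sum.inr, Sum.inr_injective⟩ := by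
    intro k hk
    rw [Finset.mem_union, Finset.mem_map, Finset.mem_map]
    rcases k with k | k
    · left
      exact ⟨k, by rw [hs₁]; exact Finset.mem_filter.2 ⟨Finset.mem_univ _, hk⟩, rfl⟩
    · right
      exact ⟨k, Finset.mem_univ _, rfl⟩
  have hcard : s.card ≤ s₁.card + Fintype.card κ₂ := by
    refine (Finset.card_le_card hsub).trans ((Finset.card_union_le _ _).trans ?_)
    rw [Finset.card_map, Finset.card_map, Finset.card_univ]
  have hd1 : d ≤ s₁.card := by omega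
  obtain ⟨e, he⟩ : ∃ e : Fin d → {k // k ∈ s₁}, Function.Injective e :=
    ⟨fun t => s₁.equivFin.symm (Fin.castLE hd1 t),
      s₁.equivFin.symm.injective.comp (Fin.castLE_injective hd1)⟩
  have hmem' : ∀ k : κ₁, k ∈ s₁ → (Sum.inl k : κ₁ ⊕ κ₂) ∈ s := by
    intro k hk
    rw [hs₁, Finset.mem_filter] at hk
    exact hk.2
  have hmem : ∀ k : {k // k ∈ s₁}, (Sum.inl k.1 : κ₁ ⊕ κ₂) ∈ s := fun k => hmem' k.1 k.2
  refine ⟨fun t => y₁ (e t).1, ?_, fun t => ⟨(e t).1, rfl⟩⟩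
  have h1 := hs2.comp (fun t : Fin d => (⟨Sum.inl (e t).1, hmem (e t)⟩ : {k // k ∈ s})) (by
    intro t t' htt
    have h2 := congrArg Subtype.val htt
    exact he (Subtype.ext (Sum.inl_injective h2)))
  exact h1

end Pool.Agent.Lib.MP5e
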