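import Pool.Agent.Lib.MP_5e64e7_nt.GFunC
import Pool.Agent.Lib.MP_5e64e7_nt.RMem
import Pool.Agent.Lib.MP_5e64e7_nt.QTrd

set_option autoImplicit false

/-!
# G.FUN : the functions `gfam f g S` are algebraically independent over `ℚ` (about 200 lines)

Let `c k = deriv jf (rz (g k) w)` (constants). There is a finite set `T` of indices such that the `c t`, `t ∈ T`, are
algebraically independent over `ℚ` and every `QCl K` containing them contains all `c k`: `exists_isTranscendenceBasis'`-like
lemmas, or take `T` of maximal cardinality among the finite sets with `c|T` algebraically independent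
(`AlgebraicIndependent.option_iff` or `algebraicIndependent_of...`; see the proof of `qtrd`/`qexch` for the method).

Let `B` be an open ball around `w` on which `RGood (f k)`, `RGood (g k)` hold, `aeval (gfam f g S x) P = 0`, and
`rz (g k) x = rz (g k) w` for those `k ∈ S` for which this holds near `w`.

Generic point: for every nonzero `Q : MvPolynomial ((Fin m ⊕ (Fin n × Fin 3)) ⊕ {t // t ∈ T}) ℤ` (countably many) let
`Q_c : MvPolynomial (Fin m ⊕ (Fin n × Fin 3)) ℂ` be `Q` with the variables of `T` replaced by the numbers `c t`. It is not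
zero, because the `c t` are algebraically independent (look at the coefficients: `MvPolynomial.sumAlgEquiv`, or: if
`Q_c = 0` then `Q` vanishes at `(e, c)` for all `e`; choose `e` algebraically independent together with `c`, or use
`AlgebraicIndependent` of `c` over `ℚ` in the form: the map `MvPolynomial (σ ⊕ T) ℤ → MvPolynomial σ (MvPolynomial T ℤ) →
MvPolynomial σ ℂ` is injective, `MvPolynomial.map_injective`). By `gfunC`, `x ↦ eval (gall f x) Q_c` is not zero near `w`; it is
analytic on `B` (`J4_analyticAt`, `rz_analytic`). By `gavoid` there is `x ∈ B` with `eval (gall f x) Q_c ≠ 0` for all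
`Q ≠ 0`, that is, the family `Sum.elim (gall f x) (c|T)` is algebraically independent over `ℤ`, so over `ℚ`
(`AlgebraicIndependent.extendScalars` as at the end of `qmain`).

Counting: let `y = Sum.elim (Sum.elim (gfam f g S x) (fun k : {k // k ∉ S} => deriv jf (rz (f k) x))) (c|T)`. Its number
of members is `m + 2n + |S| + (n - |S|) + |T| = (m + 3n) + |T|`. Every `QCl K` containing all `y` contains all members of
`Sum.elim (gall f x) (c|T)`: `x_l ∈ K`, so `rz (f k) x, ry (f k) x ∈ K` (`rz_mem`); all `c k ∈ K`;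
`j(z_k) ∈ K`; `j'(z_k) ∈ K` for `k ∉ S`; for `k ∈ S`, `j'(z_k) = ratio * j'(rz (g k) x)`, where
`j'(rz (g k) x)` is `j'(z_{k'})`, `k' ∉ S`, or `c k` (`GBase`), and it is not zero (a member of an algebraically independent
family is transcendental, `c k ≠ 0` by `GBase`); finally `j'' = κ j'² + (i/y) j'` (`j' ≠ 0`; `rkap`). By `qtrd` there is `s`
with `|s| ≥ m + 3n + |T|` and `y|s` independent, so `s = univ` (see `rfun` in `RFun.lean`, same argument) and
`gfam f g S x` is algebraically independent over `ℚ`. Since `aeval (gfam f g S x) P = 0`, `P = 0` (map to `ℚ`, injective).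
-/

noncomputable section

namespace Pool.Agent.Lib.MP5e

open Polynomial Topology

private theorem gf_basis {κ : Type} [Fintype κ] (c : κ → ℂ) :
    ∃ T : Finset κ, AlgebraicIndependent ℚ (fun k : {k // k ∈ T} => c k) ∧
      ∀ K : IntermediateField ℚ ℂ, QCl K → (∀ k ∈ T, c k ∈ K) → ∀ k, c k ∈ K := by
  classical
  set M := AlgebraicIndependent.matroid ℚ ℂ with hM
  obtain ⟨B, hB⟩ := M.exists_isBasis (Set.range c)
  have hBy : ∀ b : B, ∃ k, c k = b := fun b => hB.subset b.2
  choose g hg using hBy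
  have hBfin : B.Finite := (Set.finite_range c).subset hB.subset
  have : Fintype B := hBfin.fintype
  refine ⟨Finset.univ.image g, ?_, ?_⟩
  · have hBind : AlgebraicIndependent ℚ (fun b : B => (b : ℂ)) := hB.indep
    have hmem : ∀ k : {k // k ∈ Finset.univ.image g}, c k ∈ B := by
      rintro ⟨k, hk⟩
      obtain ⟨b, _, rfl⟩ := Finset.mem_image.mp hk
      simp only [hg]
      exact b.2
    have h2 := hBind.comp (fun k : {k // k ∈ Finset.univ.image g} => (⟨c k, hmem k⟩ : B)) (by
      rintro ⟨k, hk⟩ ⟨l, hl⟩ hkl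
      obtain ⟨b, _, rfl⟩ := Finset.mem_image.mp hk
      obtain ⟨b', _, rfl⟩ := Finset.mem_image.mp hl
      have h3 : c (g b) = c (g b') := congrArg Subtype.val hkl
      rw [hg, hg] at h3
      have h4 : b = b' := Subtype.ext h3
      subst h4
      rfl)
    exact h2
  · intro K hK hT k
    have h3 : c k ∈ M.closure B := by
      rw [hB.closure_eq_closure]
      refine M.subset_closure _ ?_ ⟨k, rfl⟩
      rw [hM, AlgebraicIndependent.matroid_e]
      exact Set.subset_univ _
    have hx0 : IsAlgebraic (IntermediateField.adjoin ℚ B) (c k) := by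
      rw [IntermediateField.isAlgebraic_adjoin_iff]
      rw [hM, AlgebraicIndependent.matroid_closure_eq, SetLike.mem_coe,
        Subalgebra.mem_algebraicClosure] at h3
      exact h3
    apply hK
    have hBK : B ⊆ K := by
      intro b hb
      have h4 := hT (g ⟨b, hb⟩) (Finset.mem_image_of_mem _ (Finset.mem_univ _))
      rw [hg] at h4
      exact h4
    have hle : IntermediateField.adjoin ℚ B ≤ K := IntermediateField.adjoin_le_iff.mpr hBK
    obtain ⟨P, hP0, hP⟩ := hx0
    refine ⟨P.map (IntermediateField.inclusion hle).toRingHom, ?_, ?_⟩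
    · exact (Polynomial.map_ne_zero_iff (IntermediateField.inclusion_injective hle)).mpr hP0
    · rw [Polynomial.aeval_def, Polynomial.eval₂_map]
      exact hP

private theorem gf_ne {σ τ : Type} (c : τ → ℂ) (hc : AlgebraicIndependent ℚ c)
    (Q : MvPolynomial (σ ⊕ τ) ℚ)
    (h : MvPolynomial.aeval (Sum.elim (fun i => MvPolynomial.X i)
      (fun t => MvPolynomial.C (c t)) : σ ⊕ τ → MvPolynomial σ ℂ) Q = 0) : Q = 0 := by
  have key : (MvPolynomial.aeval (Sum.elim (fun i => MvPolynomial.X i)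
      (fun t => MvPolynomial.C (c t)) : σ ⊕ τ → MvPolynomial σ ℂ) :
        MvPolynomial (σ ⊕ τ) ℚ →ₐ[ℚ] MvPolynomial σ ℂ) =
      (MvPolynomial.mapAlgHom (MvPolynomial.aeval c)).comp
        (MvPolynomial.sumAlgEquiv ℚ σ τ).toAlgHom := by
    apply MvPolynomial.algHom_ext
    rintro (i | t)
    · simp
    · simp
  rw [key] at h
  have hinj : Function.Injective (MvPolynomial.mapAlgHom (σ := σ)
      (MvPolynomial.aeval c : MvPolynomial τ ℚ →ₐ[ℚ] ℂ)) := by
    have h1 : Function.Injective (MvPolynomial.aeval c : MvPolynomial τ ℚ →ₐ[ℚ] ℂ) := hc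
    exact MvPolynomial.map_injective _ h1
  have h2 : (MvPolynomial.sumAlgEquiv ℚ σ τ) Q = 0 := by
    apply hinj
    rw [map_zero]
    exact h
  exact (EmbeddingLike.map_eq_zero_iff (f := MvPolynomial.sumAlgEquiv ℚ σ τ)).mp h2

private theorem gf_eval {σ τ : Type} (e : σ → ℂ) (c : τ → ℂ) (Q : MvPolynomial (σ ⊕ τ) ℚ) :
    MvPolynomial.eval e (MvPolynomial.aeval (Sum.elim (fun i => MvPolynomial.X i)
      (fun t => MvPolynomial.C (c t)) : σ ⊕ τ → MvPolynomial σ ℂ) Q) =
    MvPolynomial.aeval (Sum.elim e c) Q := by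
  induction Q using MvPolynomial.induction_on with
  | C a =>
    rw [MvPolynomial.algHom_C, MvPolynomial.algHom_C]
    rw [IsScalarTower.algebraMap_apply ℚ ℂ (MvPolynomial σ ℂ), MvPolynomial.algebraMap_eq,
      MvPolynomial.eval_C]
  | add p q hp hq => rw [map_add, map_add, map_add, hp, hq]
  | mul_X p i hp =>
    rw [map_mul, map_mul, map_mul, hp, MvPolynomial.aeval_X, MvPolynomial.aeval_X]
    rcases i with i | t
    · simp
    · simp

private theorem gf_analytic {m n : ℕ} (f : Fin n → RF m) (x : Fin m → ℂ)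
    (h : ∀ k, RGood (f k) x) (Q : MvPolynomial (Fin m ⊕ (Fin n × Fin 3)) ℂ) :
    AnalyticAt ℂ (fun x => MvPolynomial.eval (gall f x) Q) x := by
  induction Q using MvPolynomial.induction_on with
  | C a =>
    simp only [MvPolynomial.eval_C]
    exact analyticAt_const
  | add q r hq hr =>
    simp only [map_add]
    exact hq.add hr
  | mul_X q i hq =>
    simp only [map_mul, MvPolynomial.eval_X]
    refine hq.mul ?_
    rcases i with l | ⟨k, i⟩
    · exact (ContinuousLinearMap.proj (R := ℂ) (φ := fun _ : Fin m => ℂ) l).analyticAt x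
    · have h1 : AnalyticAt ℂ (fun u => J4 u i.succ) (rz (f k) x) := J4_analyticAt (h k).2 _
      exact h1.comp (rz_analytic (f k) x (h k))

theorem gfun {m n : ℕ} (f g : Fin n → RF m) (S : Finset (Fin n)) (w : Fin m → ℂ)
    (h : ∀ k, RGood (f k) w) (hb : GBase f g S w)
    (hnc : ∀ k, ¬ ∀ᶠ x in 𝓝 w, rz (f k) x = rz (f k) w)
    (hrel : ∀ k l, k ≠ l → ¬ GRel (rz (f k) w) (rz (f l) w))
    (P : MvPolynomial (Fin m ⊕ ((Fin n × Fin 2) ⊕ {k : Fin n // k ∈ S})) ℤ)
    (hP : ∀ᶠ x in 𝓝 w, MvPolynomial.aeval (gfam f g S x) P = 0) : P = 0 := by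
  classical
  obtain ⟨hgd, hgg, hgj, hgS⟩ := hb
  obtain ⟨c, hcdef⟩ : ∃ c : Fin n → ℂ, c = fun k => deriv jf (rz (g k) w) := ⟨_, rfl⟩
  obtain ⟨T, hTi, hTcl⟩ := gf_basis c
  -- the open ball
  have hev : ∀ᶠ x in 𝓝 w, (∀ k, RGood (f k) x) ∧ MvPolynomial.aeval (gfam f g S x) P = 0 ∧
      ∀ k ∈ S, (∃ k', k' ∉ S ∧ g k = f k') ∨ rz (g k) x = rz (g k) w := by
    have h1 : ∀ᶠ x in 𝓝 w, ∀ k, RGood (f k) x := by
      rw [Filter.eventually_all]
      exact fun k => rgood_nhds (f k) w (h k)
    have h2 : ∀ᶠ x in 𝓝 w, ∀ k ∈ S, (∃ k', k' ∉ S ∧ g k = f k') ∨ rz (g k) x = rz (g k) w := by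
      rw [Filter.eventually_all]
      intro k
      by_cases hk : k ∈ S
      · rcases hgS k hk with h3 | h3
        · exact Filter.Eventually.of_forall fun x _ => Or.inl h3
        · filter_upwards [h3] with x hx _
          exact Or.inr hx
      · exact Filter.Eventually.of_forall fun x hk' => absurd hk' hk
    filter_upwards [h1, hP, h2] with x a b d
    exact ⟨a, b, d⟩
  obtain ⟨ε, hε, hball⟩ := Metric.eventually_nhds_iff_ball.mp hev
  have hct0 : Countable (MvPolynomial ((Fin m ⊕ (Fin n × Fin 3)) ⊕ {t // t ∈ T}) ℚ) := by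
    have h := MvPolynomial.cardinalMk_le_max
      (σ := ((Fin m ⊕ (Fin n × Fin 3)) ⊕ {t // t ∈ T})) (R := ℚ)
    rw [← Cardinal.mk_le_aleph0_iff]
    exact h.trans (max_le (max_le Cardinal.mk_le_aleph0 Cardinal.mk_le_aleph0) le_rfl)
  obtain ⟨Qc, hQc⟩ : ∃ Qc : MvPolynomial ((Fin m ⊕ (Fin n × Fin 3)) ⊕ {t // t ∈ T}) ℚ →
      MvPolynomial (Fin m ⊕ (Fin n × Fin 3)) ℂ, Qc = fun Q =>
      MvPolynomial.aeval (Sum.elim (fun i => MvPolynomial.X i)
        (fun t : {t // t ∈ T} => MvPolynomial.C (c t)) :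
        (Fin m ⊕ (Fin n × Fin 3)) ⊕ {t // t ∈ T} → MvPolynomial (Fin m ⊕ (Fin n × Fin 3)) ℂ) Q :=
    ⟨_, rfl⟩
  obtain ⟨x, hxB, hxQ⟩ := gavoid
    (ι := {Q : MvPolynomial ((Fin m ⊕ (Fin n × Fin 3)) ⊕ {t // t ∈ T}) ℚ // Q ≠ 0})
    (Metric.ball w ε) Metric.isOpen_ball (convex_ball w ε).isPreconnected
    (fun Q x => MvPolynomial.eval (gall f x) (Qc Q.1))
    (fun Q x hx => gf_analytic f x (hball x hx).1 _)
    (by
      intro Q
      by_contra hcon
      push Not at hcon
      apply Q.2
      apply gf_ne (fun t : {t // t ∈ T} => c t) hTi Q.1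
      have h1 := gfunC f w h hnc hrel (Qc Q.1) (by
        filter_upwards [Metric.ball_mem_nhds w hε] with x hx
        exact hcon x hx)
      rw [hQc] at h1
      exact h1)
    (Metric.ball w ε) Metric.isOpen_ball ⟨w, Metric.mem_ball_self hε⟩ subset_rfl
  obtain ⟨hxg, hxP, hxS⟩ := hball x hxB
  have hpi : AlgebraicIndependent ℚ (Sum.elim (gall f x) (fun t : {t // t ∈ T} => c t)) := by
    rw [algebraicIndependent_iff]
    intro Q hQ
    by_contra hQ0
    apply hxQ ⟨Q, hQ0⟩
    simp only [hQc]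
    rw [gf_eval]
    exact hQ
  have hjx : ∀ k, deriv jf (rz (f k) x) ≠ 0 := by
    intro k h0
    have h1 := hpi.transcendental (Sum.inl (Sum.inr (k, 1)))
    apply h1
    change IsAlgebraic ℚ (deriv jf (rz (f k) x))
    rw [h0]
    exact isAlgebraic_zero
  obtain ⟨s, hs1, hs2⟩ := qtrd
    (κ := ((Fin m ⊕ ((Fin n × Fin 2) ⊕ {k : Fin n // k ∈ S})) ⊕ {k : Fin n // k ∉ S}) ⊕
      {t // t ∈ T})
    (Sum.elim (gall f x) (fun t : {t // t ∈ T} => c t))
    (Sum.elim (Sum.elim (gfam f g S x) (fun k => deriv jf (rz (f k.1) x)))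
      (fun t : {t // t ∈ T} => c t)) hpi (by
    intro K hK hy
    have hyf : ∀ i, gfam f g S x i ∈ K := fun i => hy (Sum.inl (Sum.inl i))
    have hyd : ∀ k, k ∉ S → deriv jf (rz (f k) x) ∈ K := fun k hk => hy (Sum.inl (Sum.inr ⟨k, hk⟩))
    have hyc : ∀ k, c k ∈ K := hTcl K hK (fun k hk => hy (Sum.inr ⟨k, hk⟩))
    have hxl : ∀ l, x l ∈ K := fun l => hyf (Sum.inl l)
    have h1 : ∀ k, jf (rz (f k) x) ∈ K := fun k => hyf (Sum.inr (Sum.inl (k, 0)))
    have hkap : ∀ k, rkap (rz (f k) x) (ry (f k) x) ∈ K :=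
      fun k => hyf (Sum.inr (Sum.inl (k, 1)))
    have hI := qcl_I hK
    have h2 : ∀ k, deriv jf (rz (f k) x) ∈ K := by
      intro k
      by_cases hk : k ∈ S
      · have hq : deriv jf (rz (f k) x) / deriv jf (rz (g k) x) ∈ K :=
          hyf (Sum.inr (Sum.inr ⟨k, hk⟩))
        have hgk : deriv jf (rz (g k) x) ∈ K ∧ deriv jf (rz (g k) x) ≠ 0 := by
          rcases hxS k hk with ⟨k', hk', he⟩ | he
          · rw [he]
            exact ⟨hyd k' hk', hjx k'⟩
          · rw [he]
            have h3 := hyc k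
            rw [hcdef] at h3
            exact ⟨h3, hgj k⟩
        have h4 := mul_mem hq hgk.1
        rwa [div_mul_cancel₀ _ hgk.2] at h4
      · exact hyd k hk
    have h3 : ∀ k, deriv (deriv jf) (rz (f k) x) ∈ K := by
      intro k
      have hz := rz_mem (f k) x K hK hxl
      have hk := hkap k
      unfold rkap at hk
      have h4 := add_mem (mul_mem hk (pow_mem (h2 k) 2)) (mul_mem (div_mem hI hz.2) (h2 k))
      rwa [div_mul_cancel₀ _ (pow_ne_zero 2 (hjx k)), sub_add_cancel] at h4
    rintro ((l | ⟨k, i⟩) | t)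
    · exact hxl l
    · fin_cases i
      · exact h1 k
      · exact h2 k
      · exact h3 k
    · exact hyc t.1)
  have hcard : Fintype.card (((Fin m ⊕ ((Fin n × Fin 2) ⊕ {k : Fin n // k ∈ S})) ⊕
      {k : Fin n // k ∉ S}) ⊕ {t // t ∈ T}) ≤ s.card := by
    refine le_trans (le_of_eq ?_) hs1
    have h1 : Fintype.card {k : Fin n // k ∈ S} + Fintype.card {k : Fin n // k ∉ S} = n := by
      have h2 := Fintype.card_subtype_compl (fun k : Fin n => k ∈ S)
      have h3 := Fintype.card_subtype_le (fun k : Fin n => k ∈ S)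
      rw [Fintype.card_fin] at h2 h3
      omega
    simp only [Fintype.card_sum, Fintype.card_prod, Fintype.card_fin]
    simp only [Fintype.card_coe] at h1 ⊢
    omega
  have hsu : s = Finset.univ := by
    apply Finset.eq_univ_of_card
    exact le_antisymm (Finset.card_le_univ s) hcard
  have hind : AlgebraicIndependent ℚ (gfam f g S x) := by
    have h1 := hs2.comp (fun i : Fin m ⊕ ((Fin n × Fin 2) ⊕ {k : Fin n // k ∈ S}) =>
      (⟨Sum.inl (Sum.inl i), by rw [hsu]; exact Finset.mem_univ _⟩ : {k // k ∈ s})) (by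
      intro i j hij
      exact Sum.inl_injective (Sum.inl_injective (congrArg Subtype.val hij)))
    exact h1
  have h0 : MvPolynomial.map (algebraMap ℤ ℚ) P = 0 := by
    rw [algebraicIndependent_iff] at hind
    apply hind
    rw [MvPolynomial.aeval_map_algebraMap]
    exact hxP
  exact MvPolynomial.map_injective _ (RingHom.injective_int (algebraMap ℤ ℚ)) (by rw [h0, map_zero])

end Pool.Agent.Lib.MP5e
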