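import Pool.Agent.Lib.MP_5e64e7_nt.FT
import Pool.Agent.Lib.MP_5e64e7_nt.GAv
import Pool.Agent.Lib.MP_5e64e7_nt.RAna

set_option autoImplicit false

/-!
# G.FUNC : the functions `x_l, J(z_k(x))` are algebraically independent over `ℂ` (about 220 lines)

Let `B` be an open ball around `w` on which all `RGood (f k) x` hold (`rgood_nhds`) and `eval (gall f x) P = 0`. `B` is
convex, so preconnected; `rz (f k)` is analytic on `B` (`rz_analytic`).

(1) Let `D` be the set of `x ∈ B` such that no `rz (f l) x` is `GRel`ated to `rz (f k) x`, `k ≠ l`. `D` is dense in `B`: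
for the countably many data `(k, l, p, q, r, s)`, `k ≠ l`, `p s - q r > 0`, the function
`G x = rz (f l) x (r rz (f k) x + s) - (p rz (f k) x + q)` is analytic on `B` and `G w ≠ 0` by `hrel` (the denominator
`r z + s` is not zero for `Im z > 0`, `(r, s) ≠ (0, 0)`); apply `gavoid` to an arbitrary open subset `O` of `B`: there is
`x ∈ O` with all `G x ≠ 0`, and this gives `x ∈ D`.

(2) Let `x₀ ∈ D`. There is `v` with `x₀ + v ∈ B` and `rz (f k) (x₀ + v) ≠ rz (f k) x₀` for all `k`: by `gavoid` for the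
functions `x ↦ rz (f k) x - rz (f k) x₀`, `k : Fin n`, on `B`. (None of them vanishes on `B`: otherwise `rz (f k)` is
constant near `w`, against `hnc`.) Let `ζ k t = rz (f k) (x₀ + t v)`, i.e. at `fun l => x₀ l + t * v l`.
The set `T = {t | x₀ + t v ∈ B}` is open, convex, contains `0` and `1`, and `ζ k` is analytic on it. Hypotheses of `ft` at
`t₀ = 0`: analytic; `0 < Im`; not constant near `0` (otherwise constant on `T` by the identity theorem and
`ζ k 1 = ζ k 0`); not related near `0`, since they are not related at `t = 0` (`x₀ ∈ D`); algebraic: `z = rz (f k) x`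
satisfies `R² z² - 2 P R z + (P² + Q² d) = 0` (`rs_sq`; all at `x`), and for `x = x₀ + t v` the coefficients are polynomials
in `t`: for an integer polynomial `A` in `m` variables put
`A_v = MvPolynomial.aeval (fun l => C (x₀ l) + C (v l) * X) A : ℂ[X]`, `A_v.eval t = rev A (x₀ + t v)` (induction on `A`),
and the polynomial of `ft` is `C (R_v²) X² - C (2 P_v R_v) X + C (P_v² + Q_v² d_v)`, not zero because `R_v.eval 0 ≠ 0`
(`rR_ne`).

(3) Let `Q : MvPolynomial (Option (Fin n × Fin 3)) ℂ` be `P` with `X (inl l)` replaced by `C (x₀ l) + C (v l) * X none` and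
`X (inr p)` by `X (some p)` (`MvPolynomial.aeval`). Its value at `(t, J4 (ζ k t))` is `eval (gall f (x₀ + t v)) P = 0` for
`t` near `0`. By `ft`, `Q = 0`. Evaluating `Q` at `none ↦ 0`, `some p ↦ e p` gives `eval (Sum.elim x₀ e) P = 0` for all
`e : Fin n × Fin 3 → ℂ`.

(4) `D` is dense in `B` and `x ↦ eval (Sum.elim x e) P` is continuous, so it vanishes for all `x ∈ B` and all `e`. So `P = 0`:
`MvPolynomial.funext_set` (`P` vanishes on a product of infinite sets: balls of `ℂ`, and `univ`), or the method of `P2` in the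
proof of `rgen_zero` in `RGen.lean`.
-/

noncomputable section

namespace Pool.Agent.Lib.MP5e

open Polynomial Topology

private theorem gf_line {m : ℕ} (x v : Fin m → ℂ) (A : MvPolynomial (Fin m) ℤ) (t : ℂ) :
    Polynomial.eval t (MvPolynomial.aeval (fun l => C (x l) + C (v l) * X : Fin m → ℂ[X]) A) =
      rev A (fun l => x l + t * v l) := by
  induction A using MvPolynomial.induction_on with
  | C a => simp [rev]
  | add p q hp hq =>
    rw [map_add, Polynomial.eval_add, hp, hq]
    simp [rev]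
  | mul_X p l hp =>
    rw [map_mul, Polynomial.eval_mul, hp]
    simp [rev, mul_comm t]

private theorem gf_eval {σ τ : Type} (Q : MvPolynomial σ ℂ) (g : σ → MvPolynomial τ ℂ)
    (v : τ → ℂ) : MvPolynomial.eval v (MvPolynomial.aeval g Q) =
      MvPolynomial.eval (fun x => MvPolynomial.eval v (g x)) Q := by
  induction Q using MvPolynomial.induction_on with
  | C a => simp
  | add p q hp hq => simp only [map_add, hp, hq]
  | mul_X p i hp => simp only [map_mul, MvPolynomial.aeval_X, hp, MvPolynomial.eval_X]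

private theorem gf_den {p q r s : ℚ} (h : 0 < p * s - q * r) {z : ℂ} (hz : 0 < z.im) :
    (r : ℂ) * z + (s : ℂ) ≠ 0 := by
  intro h0
  have h1 := congrArg Complex.im h0
  simp at h1
  rcases h1 with h1 | h1
  · have h2 := congrArg Complex.re h0
    have hr : r = 0 := by exact_mod_cast h1
    subst hr
    simp at h2
    subst h2
    simp at h
  · exact hz.ne' h1

private theorem gf_quad {m : ℕ} (f : RF m) (x : Fin m → ℂ) (h : RGood f x) :
    rev f.R x ^ 2 * rz f x ^ 2 - 2 * rev f.P x * rev f.R x * rz f x +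
      (rev f.P x ^ 2 + rev f.Q x ^ 2 * rev f.d x) = 0 := by
  have hR := rR_ne f x h
  have h1 : rev f.R x * rz f x = rev f.P x + rev f.Q x * (Complex.I * rs f x) := by
    unfold rz
    rw [mul_div_cancel₀ _ hR]
  have h2 := rs_sq f x
  have h3 : rev f.R x ^ 2 * rz f x ^ 2 - 2 * rev f.P x * rev f.R x * rz f x +
      (rev f.P x ^ 2 + rev f.Q x ^ 2 * rev f.d x) =
      (rev f.R x * rz f x) ^ 2 - 2 * rev f.P x * (rev f.R x * rz f x) +
      (rev f.P x ^ 2 + rev f.Q x ^ 2 * rev f.d x) := by ring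
  rw [h3, h1, ← h2]
  linear_combination (rev f.Q x ^ 2 * rs f x ^ 2) * Complex.I_sq

/-- the statement at a point without relations -/
private theorem gf_point {m n : ℕ} (f : Fin n → RF m) (w : Fin m → ℂ) (ε : ℝ) (hε : 0 < ε)
    (hgood : ∀ x ∈ Metric.ball w ε, ∀ k, RGood (f k) x)
    (hnc : ∀ k, ¬ ∀ᶠ x in 𝓝 w, rz (f k) x = rz (f k) w)
    (P : MvPolynomial (Fin m ⊕ (Fin n × Fin 3)) ℂ)
    (hP0 : ∀ x ∈ Metric.ball w ε, MvPolynomial.eval (gall f x) P = 0)
    (x0 : Fin m → ℂ) (hx0 : x0 ∈ Metric.ball w ε)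
    (hD : ∀ k l, k ≠ l → ¬ GRel (rz (f k) x0) (rz (f l) x0)) (e : Fin n × Fin 3 → ℂ) :
    MvPolynomial.eval (Sum.elim x0 e) P = 0 := by
  classical
  have hBo : IsOpen (Metric.ball w ε) := Metric.isOpen_ball
  have hBp : IsPreconnected (Metric.ball w ε) := (convex_ball w ε).isPreconnected
  obtain ⟨x1, hx1, hne⟩ := gavoid (Metric.ball w ε) hBo hBp
    (fun k x => rz (f k) x - rz (f k) x0)
    (fun k x hx => (rz_analytic (f k) x (hgood x hx k)).sub analyticAt_const)
    (by
      intro k
      by_contra hcon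
      push Not at hcon
      apply hnc k
      have h1 := hcon w (Metric.mem_ball_self hε)
      filter_upwards [hBo.mem_nhds (Metric.mem_ball_self hε)] with x hx
      have h2 := hcon x hx
      rw [sub_eq_zero] at h1 h2
      rw [h2, h1])
    (Metric.ball w ε) hBo ⟨w, Metric.mem_ball_self hε⟩ subset_rfl
  set v : Fin m → ℂ := fun l => x1 l - x0 l with hv
  set L : ℂ → Fin m → ℂ := fun t l => x0 l + t * v l with hL
  have hL0 : L 0 = x0 := by
    funext l
    simp [hL]
  have hL1 : L 1 = x1 := by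
    funext l
    simp [hL, hv]
  have hLa : ∀ t, AnalyticAt ℂ L t := fun t =>
    AnalyticAt.pi (fun l => analyticAt_const.add (analyticAt_id.mul analyticAt_const))
  have hLc : Continuous L := continuous_iff_continuousAt.2 (fun t => (hLa t).continuousAt)
  set T : Set ℂ := L ⁻¹' Metric.ball w ε with hT
  have hTo : IsOpen T := hBo.preimage hLc
  have hTc : Convex ℝ T := by
    intro t1 h1 t2 h2 a b ha hb hab
    have h3 := convex_ball w ε h1 h2 ha hb hab
    have h4 : L (a • t1 + b • t2) = a • L t1 + b • L t2 := by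
      funext l
      have hab' : (a : ℂ) + (b : ℂ) = 1 := by exact_mod_cast hab
      simp only [hL, Pi.add_apply, Pi.smul_apply, Complex.real_smul]
      linear_combination (-(x0 l)) * hab'
    show L (a • t1 + b • t2) ∈ Metric.ball w ε
    rw [h4]
    exact h3
  have hTp : IsPreconnected T := hTc.isPreconnected
  have h0T : (0 : ℂ) ∈ T := by
    show L 0 ∈ Metric.ball w ε
    rw [hL0]; exact hx0
  have h1T : (1 : ℂ) ∈ T := by
    show L 1 ∈ Metric.ball w ε
    rw [hL1]; exact hx1
  have hTn : ∀ᶠ t in 𝓝 (0 : ℂ), t ∈ T := hTo.mem_nhds h0T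
  have hza : ∀ k, AnalyticOnNhd ℂ (fun t => rz (f k) (L t)) T := fun k t ht =>
    AnalyticAt.comp (g := rz (f k)) (f := L) (rz_analytic (f k) (L t) (hgood _ ht k)) (hLa t)
  set g : Fin m ⊕ (Fin n × Fin 3) → MvPolynomial (Option (Fin n × Fin 3)) ℂ :=
    Sum.elim (fun l => MvPolynomial.C (x0 l) + MvPolynomial.C (v l) * MvPolynomial.X none)
      (fun p => MvPolynomial.X (some p)) with hg
  have hQ : MvPolynomial.aeval g P = 0 := by
    refine ft n (fun k t => rz (f k) (L t)) 0 (fun k => hza k 0 h0T)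
      (fun k => (hgood _ h0T k).2) ?_ ?_ ?_ _ ?_
    · intro k
      set cx : MvPolynomial (Fin m) ℤ → ℂ[X] :=
        fun A => MvPolynomial.aeval (fun l => C (x0 l) + C (v l) * X : Fin m → ℂ[X]) A with hcx
      have hcxe : ∀ A t, (cx A).eval t = rev A (L t) := fun A t => gf_line x0 v A t
      refine ⟨C (cx (f k).R ^ 2) * X ^ 2 + C (-(2 * cx (f k).P * cx (f k).R)) * X +
        C (cx (f k).P ^ 2 + cx (f k).Q ^ 2 * cx (f k).d), ?_, ?_⟩
      · intro hz
        have h2 := congrArg (fun p => Polynomial.coeff p 2) hz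
        simp only [Polynomial.coeff_add, Polynomial.coeff_C_mul, Polynomial.coeff_X_pow,
          Polynomial.coeff_X, Polynomial.coeff_C, Polynomial.coeff_zero] at h2
        norm_num at h2
        have h3 := hcxe (f k).R 0
        rw [h2, Polynomial.eval_zero] at h3
        exact rR_ne (f k) (L 0) (hgood _ h0T k) h3.symm
      · filter_upwards [hTn] with t ht
        have h4 := gf_quad (f k) (L t) (hgood _ ht k)
        simp only [Polynomial.map_add, Polynomial.map_mul, Polynomial.map_pow, Polynomial.map_C,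
          Polynomial.map_X, Polynomial.eval_add, Polynomial.eval_mul, Polynomial.eval_pow,
          Polynomial.eval_C, Polynomial.eval_X, Polynomial.coe_evalRingHom, Polynomial.eval_neg,
          Polynomial.eval_ofNat, hcxe]
        rw [← h4]
        ring
    · intro k hcon
      have h5 := (hza k).eqOn_of_preconnected_of_eventuallyEq
        (g := fun _ => rz (f k) (L 0)) (fun t _ => analyticAt_const) hTp h0T hcon h1T
      apply hne k
      have h6 : rz (f k) (L 1) = rz (f k) (L 0) := h5
      rw [hL1, hL0] at h6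
      rw [h6, sub_self]
    · intro k l hkl a b c d hdet hcon
      have h7 := hcon.self_of_nhds
      rw [hL0] at h7
      exact hD k l hkl ⟨a, b, c, d, hdet, h7⟩
    · filter_upwards [hTn] with t ht
      have h8 := hP0 (L t) ht
      rw [gf_eval]
      rw [← h8]
      congr 2
      funext i
      rcases i with l | p
      · simp [hg, gall, hL, mul_comm t]
      · simp [hg, gall]
  have h9 := gf_eval P g (fun o => o.elim 0 e)
  rw [hQ, map_zero] at h9
  rw [h9]
  congr 2
  funext i
  rcases i with l | p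
  · simp [hg]
  · simp [hg]

theorem gfunC {m n : ℕ} (f : Fin n → RF m) (w : Fin m → ℂ) (h : ∀ k, RGood (f k) w)
    (hnc : ∀ k, ¬ ∀ᶠ x in 𝓝 w, rz (f k) x = rz (f k) w)
    (hrel : ∀ k l, k ≠ l → ¬ GRel (rz (f k) w) (rz (f l) w))
    (P : MvPolynomial (Fin m ⊕ (Fin n × Fin 3)) ℂ)
    (hP : ∀ᶠ x in 𝓝 w, MvPolynomial.eval (gall f x) P = 0) : P = 0 := by
  classical
  have hev : ∀ᶠ x in 𝓝 w, (∀ k, RGood (f k) x) ∧ MvPolynomial.eval (gall f x) P = 0 :=
    (Filter.eventually_all.2 (fun k => rgood_nhds _ _ (h k))).and hP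
  obtain ⟨ε, hε, hB⟩ := Metric.eventually_nhds_iff_ball.1 hev
  have hBo : IsOpen (Metric.ball w ε) := Metric.isOpen_ball
  have hBp : IsPreconnected (Metric.ball w ε) := (convex_ball w ε).isPreconnected
  have hgood : ∀ x ∈ Metric.ball w ε, ∀ k, RGood (f k) x := fun x hx => (hB x hx).1
  have hP0 : ∀ x ∈ Metric.ball w ε, MvPolynomial.eval (gall f x) P = 0 := fun x hx => (hB x hx).2
  have hdense : ∀ O : Set (Fin m → ℂ), IsOpen O → O.Nonempty → O ⊆ Metric.ball w ε →
      ∃ x ∈ O, ∀ k l, k ≠ l → ¬ GRel (rz (f k) x) (rz (f l) x) := by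
    intro O hO hne hOB
    obtain ⟨x, hx, hxn⟩ := gavoid (ι := {q : Fin n × Fin n × ℚ × ℚ × ℚ × ℚ //
        q.1 ≠ q.2.1 ∧ 0 < q.2.2.1 * q.2.2.2.2.2 - q.2.2.2.1 * q.2.2.2.2.1})
      (Metric.ball w ε) hBo hBp
      (fun q x => rz (f q.1.2.1) x * ((q.1.2.2.2.2.1 : ℂ) * rz (f q.1.1) x + (q.1.2.2.2.2.2 : ℂ)) -
        ((q.1.2.2.1 : ℂ) * rz (f q.1.1) x + (q.1.2.2.2.1 : ℂ)))
      (fun q x hx => by
        have h1 := rz_analytic (f q.1.1) x (hgood x hx _)
        have h2 := rz_analytic (f q.1.2.1) x (hgood x hx _)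
        exact (h2.mul ((analyticAt_const.mul h1).add analyticAt_const)).sub
          ((analyticAt_const.mul h1).add analyticAt_const))
      (by
        rintro ⟨⟨k, l, p, q, r, s⟩, hkl, hdet⟩
        refine ⟨w, Metric.mem_ball_self hε, fun h0 => ?_⟩
        have hd := gf_den hdet (h k).2
        refine hrel k l hkl ⟨p, q, r, s, hdet, ?_⟩
        rw [eq_div_iff hd]
        exact sub_eq_zero.1 h0)
      O hO hne hOB
    refine ⟨x, hx, fun k l hkl hr => ?_⟩
    obtain ⟨p, q, r, s, hdet, he⟩ := hr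
    have hd := gf_den hdet (hgood x (hOB hx) k).2
    rw [eq_div_iff hd] at he
    exact hxn ⟨⟨k, l, p, q, r, s⟩, hkl, hdet⟩ (sub_eq_zero.2 he)
  have hall : ∀ x ∈ Metric.ball w ε, ∀ e : Fin n × Fin 3 → ℂ,
      MvPolynomial.eval (Sum.elim x e) P = 0 := by
    intro x hx e
    by_contra hne
    have hc : Continuous (fun y : Fin m → ℂ =>
        MvPolynomial.eval (Sum.elim y e : Fin m ⊕ (Fin n × Fin 3) → ℂ) P) := by
      refine (MvPolynomial.continuous_eval P).comp (continuous_pi fun i => ?_)
      rcases i with l | p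
      · exact continuous_apply l
      · exact continuous_const
    have hO : IsOpen ({y | MvPolynomial.eval (Sum.elim y e : Fin m ⊕ (Fin n × Fin 3) → ℂ) P ≠ 0} ∩
        Metric.ball w ε) := (isOpen_ne_fun hc continuous_const).inter hBo
    obtain ⟨y, ⟨hy1, hy2⟩, hy3⟩ := hdense _ hO ⟨x, hne, hx⟩ Set.inter_subset_right
    exact hy1 (gf_point f w ε hε hgood hnc P hP0 y hy2 hy3 e)
  refine MvPolynomial.funext_set (Sum.elim (fun l => Metric.ball (w l) ε) (fun _ => Set.univ))
    ?_ ?_
  · rintro (l | p)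
    · exact infinite_of_mem_nhds (w l) (Metric.ball_mem_nhds _ hε)
    · exact Set.infinite_univ
  · intro y hy
    rw [map_zero]
    have h1 : (Sum.elim (fun l => y (Sum.inl l)) (fun p => y (Sum.inr p)) :
        Fin m ⊕ (Fin n × Fin 3) → ℂ) = y := by
      funext i
      rcases i with l | p <;> rfl
    rw [← h1]
    apply hall
    rw [Metric.mem_ball, dist_pi_lt_iff hε]
    intro l
    exact hy (Sum.inl l) (Set.mem_univ _)

end Pool.Agent.Lib.MP5e
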