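import Pool.Agent.Lib.MP_5e64e7_nt.Defs

set_option autoImplicit false

noncomputable section

namespace Pool.Agent.Lib.MP5e

open Polynomial Topology

theorem E2f_coe (z : UpperHalfPlane) : E2f z = EisensteinSeries.E2 z := by
  rw [EisensteinSeries.E2_eq_tsum_cexp,
    tsum_pnat_eq_tsum_succ (f := fun n : ℕ => ((ArithmeticFunction.sigma 1 n : ℕ) : ℂ) *
      Complex.exp (2 * (Real.pi : ℂ) * Complex.I * z) ^ n)]
  rfl

theorem E4f_coe (z : UpperHalfPlane) : E4f z = ModularForm.E₄ z := by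
  have h := EisensteinSeries.q_expansion_bernoulli (k := 4) (by norm_num) ⟨2, rfl⟩ z
  rw [show _root_.bernoulli 4 = -1 / 30 by decide +kernel] at h
  simp_rw [zpow_natCast] at h
  rw [tsum_pnat_eq_tsum_succ (f := fun n : ℕ => ((ArithmeticFunction.sigma (4 - 1) n : ℕ) : ℂ) *
      Complex.exp (2 * (Real.pi : ℂ) * Complex.I * z) ^ n)] at h
  rw [h]
  unfold E4f
  push_cast
  norm_num

theorem E6f_coe (z : UpperHalfPlane) : E6f z = ModularForm.E₆ z := by
  have h := EisensteinSeries.q_expansion_bernoulli (k := 6) (by norm_num) ⟨3, rfl⟩ z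
  rw [show _root_.bernoulli 6 = 1 / 42 by decide +kernel] at h
  simp_rw [zpow_natCast] at h
  rw [tsum_pnat_eq_tsum_succ (f := fun n : ℕ => ((ArithmeticFunction.sigma (6 - 1) n : ℕ) : ℂ) *
      Complex.exp (2 * (Real.pi : ℂ) * Complex.I * z) ^ n)] at h
  rw [h]
  unfold E6f
  push_cast
  norm_num

/-- a function on `ℂ` which extends a holomorphic function on the upper half plane is
differentiable there -/
theorem Ser_diff {F : UpperHalfPlane → ℂ} {f : ℂ → ℂ}
    (hF : MDifferentiable (modelWithCornersSelf ℂ ℂ) (modelWithCornersSelf ℂ ℂ) F)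
    (h : ∀ z : UpperHalfPlane, f z = F z) {w : ℂ} (hw : 0 < w.im) : DifferentiableAt ℂ f w := by
  rw [UpperHalfPlane.mdifferentiable_iff] at hF
  have h1 : UpperHalfPlane.upperHalfPlaneSet ∈ 𝓝 w :=
    UpperHalfPlane.isOpen_upperHalfPlaneSet.mem_nhds hw
  refine (hF.differentiableAt h1).congr_of_eventuallyEq ?_
  filter_upwards [h1] with x hx
  have := h ⟨x, hx⟩
  rw [Function.comp_apply, UpperHalfPlane.ofComplex_apply_of_im_pos hx, ← this]

theorem E2f_diff {w : ℂ} (hw : 0 < w.im) : DifferentiableAt ℂ E2f w :=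
  Ser_diff E2_mdifferentiable E2f_coe hw

theorem E4f_diff {w : ℂ} (hw : 0 < w.im) : DifferentiableAt ℂ E4f w :=
  Ser_diff ModularForm.E₄.holo' E4f_coe hw

theorem E6f_diff {w : ℂ} (hw : 0 < w.im) : DifferentiableAt ℂ E6f w :=
  Ser_diff ModularForm.E₆.holo' E6f_coe hw

theorem Ser_exp (w : ℂ) (v : ℤ) : Complex.exp (2 * (Real.pi : ℂ) * Complex.I * (w + v)) =
    Complex.exp (2 * (Real.pi : ℂ) * Complex.I * w) := by
  rw [mul_add, Complex.exp_add, mul_comm (2 * (Real.pi : ℂ) * Complex.I) (v : ℂ),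
    Complex.exp_int_mul_two_pi_mul_I, mul_one]

theorem E2f_add_int (w : ℂ) (v : ℤ) : E2f (w + v) = E2f w := by
  unfold E2f
  rw [Ser_exp]

theorem E4f_add_int (w : ℂ) (v : ℤ) : E4f (w + v) = E4f w := by
  unfold E4f
  rw [Ser_exp]

theorem E6f_add_int (w : ℂ) (v : ℤ) : E6f (w + v) = E6f w := by
  unfold E6f
  rw [Ser_exp]

end Pool.Agent.Lib.MP5e
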