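import Pool.Agent.Lib.MP_5e64e7_nt.RClr

set_option autoImplicit false

/-!
# R.HT : the points at rational parameters (about 150 lines)

`q = ∏ c_l`, `D = rD f.d a c`, `x = rpt a c`. `rev f.d x = D/q^(2 e₀)` (`rD_spec`, `e₀ = deg d`), a positive real number, so
`rs f x = √D / q^e₀` (`Complex.ofReal_cpow`, `Real.sqrt_eq_rpow`), `I * rs f x = qom D / q^e₀`. With
`e = deg P + deg Q + deg R` and `rclr`: `P(x) = p/q^e`, `Q(x) = s/q^e`, `R(x) = r/q^e`, so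
`rz f x = (p q^e₀ + s ω)/(r q^e₀)`. `r ≠ 0` (otherwise `rz f x = 0`), and `Im (rz f x) > 0` gives `s/r > 0`. For `r > 0` take
`x' = p q^e₀`, `y' = s`, `c' = r q^e₀`, for `r < 0` the negatives. Sizes: `q ≤ B^m`. Finally
`ry f x = Q(x) rs f x/R(x)` is real and equal to `Im (rz f x)` (`P(x)/R(x)` is real).
-/

noncomputable section

namespace Pool.Agent.Lib.MP5e

open Polynomial Topology

private theorem RHt_sqrt (d : ℂ) (D q e : ℕ) (hq : 1 ≤ q)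
    (h : d * ((q : ℕ) : ℂ) ^ (2 * e) = (D : ℂ)) :
    d ^ ((1 : ℂ) / 2) = ((Real.sqrt (D : ℝ) / (q : ℝ) ^ e : ℝ) : ℂ) := by
  have hq0 : (0 : ℝ) < q := by exact_mod_cast hq
  have hqc : ((q : ℕ) : ℂ) ^ (2 * e) ≠ 0 := by
    apply pow_ne_zero
    exact_mod_cast (Nat.one_le_iff_ne_zero.1 hq)
  have h1 : d = (((D : ℝ) / (q : ℝ) ^ (2 * e) : ℝ) : ℂ) := by
    rw [eq_div_of_mul_eq hqc h]
    push_cast
    rfl
  have h2 : ((1 : ℂ) / 2) = (((1 / 2 : ℝ)) : ℂ) := by push_cast; rfl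
  have h3 : (0 : ℝ) ≤ (D : ℝ) / (q : ℝ) ^ (2 * e) := by positivity
  rw [h1, h2, ← Complex.ofReal_cpow h3, ← Real.sqrt_eq_rpow, Real.sqrt_div (by positivity)]
  have h4 : (q : ℝ) ^ (2 * e) = ((q : ℝ) ^ e) ^ 2 := by rw [← pow_mul, mul_comm]
  rw [h4, Real.sqrt_sq (by positivity)]

private theorem RHt_prod {m B : ℕ} (c : Fin m → ℕ) (hc : ∀ l, 1 ≤ c l ∧ c l ≤ B) :
    1 ≤ ∏ l, c l ∧ ∏ l, c l ≤ B ^ m := by
  constructor
  · have h : 0 < ∏ l, c l := Finset.prod_pos fun l _ => Nat.lt_of_lt_of_le Nat.zero_lt_one (hc l).1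
    omega
  · calc ∏ l, c l ≤ ∏ _l : Fin m, B := Finset.prod_le_prod' fun l _ => (hc l).2
      _ = B ^ m := by simp

theorem rht {m : ℕ} (f : RF m) :
    ∃ h : ℕ, ∀ (B : ℕ) (a : Fin m → ℤ) (c : Fin m → ℕ), RHgt B a c → RGood f (rpt a c) →
      1 ≤ rD f.d a c ∧ rD f.d a c ≤ B ^ h ∧
      ∃ (c' : ℕ) (x' y' : ℤ), 1 ≤ c' ∧ c' ≤ B ^ h ∧ |x'| ≤ (B : ℤ) ^ h ∧ 0 < y' ∧
        y' ≤ (B : ℤ) ^ h ∧ rz f (rpt a c) = qgr (rD f.d a c) x' y' c' ∧
        ry f (rpt a c) = ((rz f (rpt a c)).im : ℂ) := by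
  obtain ⟨hd, Hd⟩ := rD_spec f.d
  obtain ⟨hP, HP⟩ := rclr f.P (f.P.totalDegree + f.Q.totalDegree + f.R.totalDegree) (by omega)
  obtain ⟨hQ, HQ⟩ := rclr f.Q (f.P.totalDegree + f.Q.totalDegree + f.R.totalDegree) (by omega)
  obtain ⟨hR, HR⟩ := rclr f.R (f.P.totalDegree + f.Q.totalDegree + f.R.totalDegree) (by omega)
  refine ⟨hd + hP + hQ + hR + m * f.d.totalDegree, ?_⟩
  intro B a c hh hg
  obtain ⟨d1, d2, d3⟩ := Hd B a c hh hg.1
  obtain ⟨p, p1, -, p3⟩ := HP B a c hh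
  obtain ⟨s, s1, -, s3⟩ := HQ B a c hh
  obtain ⟨r, r1, -, r3⟩ := HR B a c hh
  obtain ⟨hB2, hc⟩ := hh
  obtain ⟨q1, qB⟩ := RHt_prod c (fun l => ⟨(hc l).1, (hc l).2.1⟩)
  have hB1 : 1 ≤ B := by omega
  have hgim := hg.2
  generalize (∏ l, c l : ℕ) = q at q1 qB d3 p3 s3 r3
  generalize f.P.totalDegree + f.Q.totalDegree + f.R.totalDegree = e at p3 s3 r3
  generalize f.d.totalDegree = e0 at d3 ⊢
  generalize rD f.d a c = D at d1 d2 d3 ⊢
  have hrs : rs f (rpt a c) = ((Real.sqrt (D : ℝ) / (q : ℝ) ^ e0 : ℝ) : ℂ) :=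
    RHt_sqrt _ D q e0 q1 d3
  have hq0 : (0 : ℝ) < q := by exact_mod_cast q1
  have hqc : ((q : ℕ) : ℂ) ≠ 0 := by exact_mod_cast (Nat.one_le_iff_ne_zero.1 q1)
  have hqe : ((q : ℕ) : ℂ) ^ e ≠ 0 := pow_ne_zero _ hqc
  have hPv := eq_div_of_mul_eq hqe p3
  have hQv := eq_div_of_mul_eq hqe s3
  have hRv := eq_div_of_mul_eq hqe r3
  have hD0 : (0 : ℝ) < Real.sqrt (D : ℝ) := Real.sqrt_pos.2 (by exact_mod_cast d1)
  have hr0 : r ≠ 0 := by
    rintro rfl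
    unfold rz at hgim
    rw [hRv] at hgim
    simp at hgim
  have hrc : (r : ℂ) ≠ 0 := by exact_mod_cast hr0
  have hz : rz f (rpt a c) = (((p : ℝ) / r : ℝ) : ℂ) +
      (((s : ℝ) / r * (Real.sqrt (D : ℝ) / (q : ℝ) ^ e0) : ℝ) : ℂ) * Complex.I := by
    unfold rz
    rw [hPv, hQv, hRv, hrs]
    push_cast
    field_simp
  have hy : ry f (rpt a c) =
      (((s : ℝ) / r * (Real.sqrt (D : ℝ) / (q : ℝ) ^ e0) : ℝ) : ℂ) := by
    unfold ry
    rw [hQv, hRv, hrs]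
    push_cast
    field_simp
  have him : (rz f (rpt a c)).im = (s : ℝ) / r * (Real.sqrt (D : ℝ) / (q : ℝ) ^ e0) := by
    rw [hz, Complex.add_im, Complex.ofReal_im, Complex.mul_im, Complex.ofReal_re,
      Complex.ofReal_im, Complex.I_re, Complex.I_im]
    ring
  have hsr : 0 < (s : ℝ) / r := by
    rw [him] at hgim
    exact pos_of_mul_pos_left hgim (by positivity)
  have hyim : ry f (rpt a c) = ((rz f (rpt a c)).im : ℂ) := by rw [him, hy]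
  have hqe0 : q ^ e0 ≤ B ^ (m * e0) := by
    rw [pow_mul]
    exact Nat.pow_le_pow_left qB e0
  have hqe0' : (q : ℤ) ^ e0 ≤ (B : ℤ) ^ (m * e0) := by exact_mod_cast hqe0
  have hB1' : (1 : ℤ) ≤ B := by exact_mod_cast hB1
  have hbig : ∀ k, k ≤ hd + hP + hQ + hR + m * e0 →
      (B : ℤ) ^ k ≤ (B : ℤ) ^ (hd + hP + hQ + hR + m * e0) :=
    fun k hk => pow_le_pow_right₀ hB1' hk
  have hpow : ∀ (x : ℤ) (k : ℕ), |x| ≤ (B : ℤ) ^ k →
      |x| * (q : ℤ) ^ e0 ≤ (B : ℤ) ^ (k + m * e0) := by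
    intro x k hx
    rw [pow_add]
    exact mul_le_mul hx hqe0' (by positivity) (by positivity)
  have hxb : |p| * (q : ℤ) ^ e0 ≤ (B : ℤ) ^ (hd + hP + hQ + hR + m * e0) :=
    (hpow p hP p1).trans (hbig _ (by omega))
  have hrb : |r| * (q : ℤ) ^ e0 ≤ (B : ℤ) ^ (hd + hP + hQ + hR + m * e0) :=
    (hpow r hR r1).trans (hbig _ (by omega))
  have hsb : |s| ≤ (B : ℤ) ^ (hd + hP + hQ + hR + m * e0) := s1.trans (hbig _ (by omega))
  refine ⟨d1, d2.trans (Nat.pow_le_pow_right hB1 (by omega)), ?_⟩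
  have hqne : ((q : ℕ) : ℂ) ^ e0 ≠ 0 := pow_ne_zero _ hqc
  rcases lt_or_gt_of_ne hr0 with hneg | hpos
  · have hs : s < 0 := by
      by_contra hcon
      have h1 : (0 : ℝ) ≤ s := by exact_mod_cast (not_lt.1 hcon)
      have h2 : (r : ℝ) < 0 := by exact_mod_cast hneg
      exact absurd hsr (not_lt.2 (div_nonpos_of_nonneg_of_nonpos h1 h2.le))
    obtain ⟨t, ht⟩ := Int.eq_ofNat_of_zero_le (show 0 ≤ -r by omega)
    have ht1 : 1 ≤ t := by omega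
    refine ⟨t * q ^ e0, -(p * (q : ℤ) ^ e0), -s, ?_, ?_, ?_, ?_, ?_, ?_, hyim⟩
    · exact Nat.mul_pos ht1 (pow_pos q1 _)
    · rw [abs_of_neg hneg, ht] at hrb
      exact_mod_cast hrb
    · rw [abs_neg, abs_mul, abs_of_nonneg (by positivity : (0 : ℤ) ≤ (q : ℤ) ^ e0)]
      exact hxb
    · omega
    · rw [abs_of_neg hs] at hsb
      exact hsb
    · have htc : (t : ℂ) = -(r : ℂ) := by
        have : ((t : ℤ) : ℂ) = ((-r : ℤ) : ℂ) := by rw [ht]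
        push_cast at this
        exact this
      rw [hz]
      unfold qgr qom
      push_cast
      rw [htc]
      field_simp
      ring
  · have hs : 0 < s := by
      by_contra hcon
      have h1 : (s : ℝ) ≤ 0 := by exact_mod_cast (not_lt.1 hcon)
      have h2 : (0 : ℝ) < r := by exact_mod_cast hpos
      exact absurd hsr (not_lt.2 (div_nonpos_of_nonpos_of_nonneg h1 h2.le))
    obtain ⟨t, ht⟩ := Int.eq_ofNat_of_zero_le (show 0 ≤ r by omega)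
    have ht1 : 1 ≤ t := by omega
    refine ⟨t * q ^ e0, p * (q : ℤ) ^ e0, s, ?_, ?_, ?_, ?_, ?_, ?_, hyim⟩
    · exact Nat.mul_pos ht1 (pow_pos q1 _)
    · rw [abs_of_pos hpos, ht] at hrb
      exact_mod_cast hrb
    · rw [abs_mul, abs_of_nonneg (by positivity : (0 : ℤ) ≤ (q : ℤ) ^ e0)]
      exact hxb
    · exact hs
    · rw [abs_of_pos hs] at hsb
      exact hsb
    · have htc : (t : ℂ) = (r : ℂ) := by
        have : ((t : ℤ) : ℂ) = ((r : ℤ) : ℂ) := by rw [ht]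
        push_cast at this
        exact this
      rw [hz]
      unfold qgr qom
      push_cast
      rw [htc]
      field_simp

end Pool.Agent.Lib.MP5e
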