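import Pool.Agent.Lib.MP_5e64e7_nt.Defs

set_option autoImplicit false

noncomputable section

namespace Pool.Agent.Lib.MP5e

open Polynomial Topology

theorem AI.mono {K K' : IntermediateField ℚ ℂ} (hK : K ≤ K') {M M' : ℝ} (hM : M ≤ M') {x : ℂ}
    (h : AI K M x) : AI K' M' x := by
  obtain ⟨a, ha, hint, hb⟩ := h
  refine ⟨IntermediateField.inclusion hK a, ?_, ?_, ?_⟩
  · rw [IntermediateField.coe_inclusion]; exact ha
  · exact hint.map ((IntermediateField.inclusion hK).restrictScalars ℤ)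
  · intro φ
    exact (hb (φ.comp (IntermediateField.inclusion hK))).trans hM

theorem AI.nonneg {K : IntermediateField ℚ ℂ} {M : ℝ} {x : ℂ} (h : AI K M x) : 0 ≤ M := by
  obtain ⟨a, _, _, hb⟩ := h
  exact (norm_nonneg _).trans (hb K.val)

theorem AI.mem {K : IntermediateField ℚ ℂ} {M : ℝ} {x : ℂ} (h : AI K M x) : x ∈ K := by
  obtain ⟨a, ha, _, _⟩ := h
  rw [← ha]; exact a.2

theorem AI.add {K : IntermediateField ℚ ℂ} {M M' : ℝ} {x y : ℂ} (h : AI K M x)
    (h' : AI K M' y) : AI K (M + M') (x + y) := by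
  obtain ⟨a, ha, hint, hb⟩ := h
  obtain ⟨a', ha', hint', hb'⟩ := h'
  refine ⟨a + a', by simp [ha, ha'], hint.add hint', fun φ => ?_⟩
  rw [map_add]
  exact (norm_add_le _ _).trans (add_le_add (hb φ) (hb' φ))

theorem AI.mul {K : IntermediateField ℚ ℂ} {M M' : ℝ} {x y : ℂ} (h : AI K M x)
    (h' : AI K M' y) : AI K (M * M') (x * y) := by
  have hM := h.nonneg
  obtain ⟨a, ha, hint, hb⟩ := h
  obtain ⟨a', ha', hint', hb'⟩ := h'
  refine ⟨a * a', by simp [ha, ha'], hint.mul hint', fun φ => ?_⟩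
  rw [map_mul, norm_mul]
  exact mul_le_mul (hb φ) (hb' φ) (norm_nonneg _) hM

theorem AI.neg {K : IntermediateField ℚ ℂ} {M : ℝ} {x : ℂ} (h : AI K M x) : AI K M (-x) := by
  obtain ⟨a, ha, hint, hb⟩ := h
  refine ⟨-a, by simp [ha], hint.neg, fun φ => ?_⟩
  rw [map_neg, norm_neg]
  exact hb φ

theorem AI.sub {K : IntermediateField ℚ ℂ} {M M' : ℝ} {x y : ℂ} (h : AI K M x)
    (h' : AI K M' y) : AI K (M + M') (x - y) := by
  rw [sub_eq_add_neg]
  exact h.add h'.neg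

theorem AI.int (K : IntermediateField ℚ ℂ) (v : ℤ) : AI K |(v : ℝ)| (v : ℂ) := by
  have hi : IsIntegral ℤ (v : K) := by
    have h := isIntegral_algebraMap (R := ℤ) (A := K) (x := v)
    simpa using h
  refine ⟨(v : K), by simp, hi, fun φ => ?_⟩
  rw [map_intCast]
  simp

theorem AI.nat (K : IntermediateField ℚ ℂ) (v : ℕ) : AI K (v : ℝ) (v : ℂ) := by
  have h := AI.int K (v : ℤ)
  simpa using h

theorem AI.pow {K : IntermediateField ℚ ℂ} {M : ℝ} {x : ℂ} (h : AI K M x) (k : ℕ) :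
    AI K (M ^ k) (x ^ k) := by
  induction k with
  | zero => simpa using AI.nat K 1
  | succ k ih =>
    rw [pow_succ, pow_succ]
    exact ih.mul h

theorem AI.I {K : IntermediateField ℚ ℂ} (h : Complex.I ∈ K) : AI K 1 Complex.I := by
  have h2 : (⟨Complex.I, h⟩ : K) ^ 2 = -1 := by
    apply Subtype.ext
    simp
  refine ⟨⟨Complex.I, h⟩, rfl, ?_, fun φ => ?_⟩
  · refine IsIntegral.of_pow (n := 2) (by norm_num) ?_
    rw [h2]
    exact isIntegral_one.neg
  · have h3 : (φ ⟨Complex.I, h⟩) ^ 2 = -1 := by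
      rw [← map_pow, h2]; simp
    have h4 : ‖φ ⟨Complex.I, h⟩‖ ^ 2 = 1 := by
      rw [← norm_pow, h3]; simp
    nlinarith [norm_nonneg (φ ⟨Complex.I, h⟩)]

end Pool.Agent.Lib.MP5e
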