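import Pool.Agent.Lib.MP_5e64e7_nt.QTpt
import Pool.Agent.Lib.MP_5e64e7_nt.RepA
import Pool.Agent.Lib.MP_5e64e7_nt.JDer

set_option autoImplicit false

/-!
# Q.VAL : `j, j'/(2πiℓ), (j'' - (i/y) j')/(2πiℓ)²` from `E₂, E₄, E₆` (about 150 lines, adaptation of `OVal.lean`;
checked numerically)

`T = lam²`, `T E₂(σ) = ℓ a + T · 3/(π y)`, `T² E₄(σ) = ℓ² b`, `T³ E₆(σ) = ℓ³ c`, `y = Im σ`, `δ = b³ - c²`
(`≠ 0` by `disc_ne`; `ℓ ≠ 0` by `qom1_ne`). By `djf`, `ddjf` (see the private lemma `ov_formulas` of `OVal.lean`; replace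
`s₀` by `ℓ` and `ϑ` by `π ℓ`):
`j δ = 1728 b³`, `j' (δ T) = -3456 i π ℓ b² c`,
`j'' (δ T²) = π² ℓ² (1152 a b² c - 4608 b c² - 3456 b⁴) + 3456 π ℓ b² c T/y`, so
`v₁ = 1728 b³/δ`, `v₂ = -1728 b² c/(δ T)`, `v₃ = (-288 a b² c + 1152 b c² + 864 b⁴)/(δ T²)`.
`dl = δ T²`. Sizes: `a, b, c` are `AI K (2^E)`, `T` is `AI K (2^(2E))`; everything is at most `2^(100E + 100)` (use the
arithmetic lemmas `cmd_mul`, `cmd_add`, `cmd_sub`, `cmd_pow`, `cmd_const`, `cmd_mono` of `OCmd.lean`, private, copy).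
-/

noncomputable section

namespace Pool.Agent.Lib.MP5e

open Polynomial Topology

section arith

variable {K : IntermediateField ℚ ℂ} {B : ℕ}

private lemma qv_mul {n m : ℕ} {x y : ℂ} (h : AI K ((B : ℝ) ^ n) x) (h' : AI K ((B : ℝ) ^ m) y) :
    AI K ((B : ℝ) ^ (n + m)) (x * y) := by
  rw [pow_add]
  exact h.mul h'

private lemma qv_sum_le (hB : 2 ≤ B) (n m : ℕ) :
    (B : ℝ) ^ n + (B : ℝ) ^ m ≤ (B : ℝ) ^ (n + m + 1) := by
  have hB' : (2 : ℝ) ≤ B := by exact_mod_cast hB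
  have h1 : (1 : ℝ) ≤ (B : ℝ) ^ n := one_le_pow₀ (by linarith)
  have h2 : (1 : ℝ) ≤ (B : ℝ) ^ m := one_le_pow₀ (by linarith)
  have h3 : (B : ℝ) ^ n + (B : ℝ) ^ m ≤ 2 * ((B : ℝ) ^ n * (B : ℝ) ^ m) := by nlinarith
  calc (B : ℝ) ^ n + (B : ℝ) ^ m ≤ 2 * ((B : ℝ) ^ n * (B : ℝ) ^ m) := h3
    _ ≤ B * ((B : ℝ) ^ n * (B : ℝ) ^ m) := mul_le_mul_of_nonneg_right hB' (by positivity)
    _ = (B : ℝ) ^ (n + m + 1) := by ring

private lemma qv_add (hB : 2 ≤ B) {n m : ℕ} {x y : ℂ} (h : AI K ((B : ℝ) ^ n) x)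
    (h' : AI K ((B : ℝ) ^ m) y) : AI K ((B : ℝ) ^ (n + m + 1)) (x + y) :=
  (h.add h').mono le_rfl (qv_sum_le hB n m)

private lemma qv_sub (hB : 2 ≤ B) {n m : ℕ} {x y : ℂ} (h : AI K ((B : ℝ) ^ n) x)
    (h' : AI K ((B : ℝ) ^ m) y) : AI K ((B : ℝ) ^ (n + m + 1)) (x - y) :=
  (h.sub h').mono le_rfl (qv_sum_le hB n m)

private lemma qv_pow {n : ℕ} (k : ℕ) {x : ℂ} (h : AI K ((B : ℝ) ^ n) x) :
    AI K ((B : ℝ) ^ (n * k)) (x ^ k) := by
  rw [pow_mul]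
  exact h.pow k

private lemma qv_const (hB : 2 ≤ B) (c n : ℕ) (h : c ≤ 2 ^ n) : AI K ((B : ℝ) ^ n) (c : ℂ) := by
  refine (AI.nat K c).mono le_rfl ?_
  have h1 : (c : ℝ) ≤ 2 ^ n := by exact_mod_cast h
  refine h1.trans ?_
  apply pow_le_pow_left₀ (by norm_num)
  exact_mod_cast hB

private lemma qv_mono (hB : 2 ≤ B) {n m : ℕ} {x : ℂ} (h : AI K ((B : ℝ) ^ n) x) (hnm : n ≤ m) :
    AI K ((B : ℝ) ^ m) x := by
  refine h.mono le_rfl ?_
  apply pow_le_pow_right₀ _ hnm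
  have hB' : (2 : ℝ) ≤ B := by exact_mod_cast hB
  linarith

end arith

/-- the values at `σ` in terms of `a, b, c` -/
private lemma qv_formulas {σ ell a b c T Y : ℂ} (hσ : 0 < σ.im) (hT : T ≠ 0) (hs : ell ≠ 0)
    (hYσ : (σ.im : ℂ) = Y)
    (h2 : T * E2f σ = ell * a + T * (3 / ((Real.pi : ℂ) * (σ.im : ℂ))))
    (h4 : T ^ 2 * E4f σ = ell ^ 2 * b) (h6 : T ^ 3 * E6f σ = ell ^ 3 * c) :
    b ^ 3 - c ^ 2 ≠ 0 ∧ jf σ * (b ^ 3 - c ^ 2) = 1728 * b ^ 3 ∧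
    deriv jf σ * ((b ^ 3 - c ^ 2) * T) =
      -3456 * Complex.I * ((Real.pi : ℂ) * ell) * (b ^ 2 * c) ∧
    deriv (deriv jf) σ * ((b ^ 3 - c ^ 2) * T ^ 2 * Y) =
      ((Real.pi : ℂ) * ell) ^ 2 *
        (1152 * (a * (b ^ 2 * c)) - 4608 * (b * c ^ 2) - 3456 * b ^ 4) * Y +
        3456 * ((Real.pi : ℂ) * ell) * (b ^ 2 * c) * T := by
  have hY0 : Y ≠ 0 := by
    rw [← hYσ]
    exact_mod_cast hσ.ne'
  rw [hYσ] at h2
  have hπ : (Real.pi : ℂ) ≠ 0 := by exact_mod_cast Real.pi_ne_zero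
  have hD := disc_ne hσ
  have e4 : E4f σ = ell ^ 2 * b / T ^ 2 := by
    rw [eq_div_iff (pow_ne_zero _ hT), ← h4]; ring
  have e6 : E6f σ = ell ^ 3 * c / T ^ 3 := by
    rw [eq_div_iff (pow_ne_zero _ hT), ← h6]; ring
  have e2 : E2f σ = ell * a / T + 3 / ((Real.pi : ℂ) * Y) := by
    have : T * E2f σ = T * (ell * a / T + 3 / ((Real.pi : ℂ) * Y)) := by
      rw [h2]
      field_simp
    exact mul_left_cancel₀ hT this
  have hDe : E4f σ ^ 3 - E6f σ ^ 2 = ell ^ 6 * (b ^ 3 - c ^ 2) / T ^ 6 := by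
    rw [e4, e6]
    field_simp
  have hδ : b ^ 3 - c ^ 2 ≠ 0 := by
    intro h
    apply hD
    rw [hDe, h]
    simp
  refine ⟨hδ, ?_, ?_, ?_⟩
  · unfold jf
    rw [hDe, e4]
    field_simp
  · rw [djf hσ, hDe, e4, e6]
    field_simp
    ring
  · rw [ddjf hσ, hDe, e4, e6, e2]
    field_simp
    ring

theorem qell_ne (L : PeriodPair) : qell L ≠ 0 := by
  unfold qell
  have hπ : (Real.pi : ℂ) ≠ 0 := by exact_mod_cast Real.pi_ne_zero
  have h1 : L.ω₁ ≠ 0 := qom1_ne L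
  exact div_ne_zero (mul_ne_zero (by norm_num) (pow_ne_zero _ h1)) (pow_ne_zero _ hπ)

theorem qval (L : PeriodPair) {K : IntermediateField ℚ ℂ} {E lam : ℕ} {σ : ℂ} (hσ : 0 < σ.im)
    (h : QCMD L K E lam σ) : ∃ dl : ℂ, dl ≠ 0 ∧ AI K ((2 : ℝ) ^ (100 * E + 100)) dl ∧
      ∀ k : Fin 3, AI K ((2 : ℝ) ^ (100 * E + 100)) (dl * qv L σ (σ.im : ℂ) k) := by
  obtain ⟨hlam1, hlam2, a, b, c, ha, hb, hc, h2, h4, h6⟩ := h
  have hell := qell_ne L
  have hπ : (Real.pi : ℂ) ≠ 0 := by exact_mod_cast Real.pi_ne_zero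
  have hlC : (lam : ℂ) ≠ 0 := by
    have : lam ≠ 0 := by omega
    exact_mod_cast this
  have hT0 : (lam : ℂ) ^ 2 ≠ 0 := pow_ne_zero _ hlC
  have hYC : (σ.im : ℂ) ≠ 0 := by exact_mod_cast hσ.ne'
  obtain ⟨hδ, hj, hdj, hddj⟩ := qv_formulas (T := (lam : ℂ) ^ 2) hσ hT0 hell rfl h2
    (by rw [← h4]; ring) (by rw [← h6]; ring)
  set D : ℕ := 2 ^ (E + 1) with hD
  have hD2 : 2 ≤ D := by
    calc 2 = 2 ^ 1 := rfl
      _ ≤ D := Nat.pow_le_pow_right (by norm_num) (by omega)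
  have hED : (2 : ℝ) ^ E ≤ (D : ℝ) ^ 1 := by
    rw [pow_one, hD]
    push_cast
    exact pow_le_pow_right₀ (by norm_num) (by omega)
  have hfin : (D : ℝ) ^ 100 = (2 : ℝ) ^ (100 * E + 100) := by
    rw [hD]
    push_cast
    rw [← pow_mul]
    ring_nf
  rw [← hfin]
  set T : ℂ := (lam : ℂ) ^ 2 with hT
  set y : ℂ := (σ.im : ℂ) with hy
  have ha' : AI K ((D : ℝ) ^ 1) a := ha.mono le_rfl hED
  have hb' : AI K ((D : ℝ) ^ 1) b := hb.mono le_rfl hED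
  have hc' : AI K ((D : ℝ) ^ 1) c := hc.mono le_rfl hED
  have hlA : AI K ((D : ℝ) ^ 1) (lam : ℂ) := by
    refine (AI.nat K lam).mono le_rfl (le_trans ?_ hED)
    exact_mod_cast hlam2
  have hTA : AI K ((D : ℝ) ^ 2) T := qv_pow 2 hlA
  have hδA : AI K ((D : ℝ) ^ 6) (b ^ 3 - c ^ 2) := qv_sub hD2 (qv_pow 3 hb') (qv_pow 2 hc')
  have hb2c : AI K ((D : ℝ) ^ 3) (b ^ 2 * c) := qv_mul (qv_pow 2 hb') hc'
  have c1728 : AI K ((D : ℝ) ^ 11) (1728 : ℂ) := by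
    exact_mod_cast qv_const (K := K) hD2 1728 11 (by norm_num)
  have c1152 : AI K ((D : ℝ) ^ 11) (1152 : ℂ) := by
    exact_mod_cast qv_const (K := K) hD2 1152 11 (by norm_num)
  have c288 : AI K ((D : ℝ) ^ 9) (288 : ℂ) := by
    exact_mod_cast qv_const (K := K) hD2 288 9 (by norm_num)
  have c864 : AI K ((D : ℝ) ^ 10) (864 : ℂ) := by
    exact_mod_cast qv_const (K := K) hD2 864 10 (by norm_num)
  have hden : (2 * (Real.pi : ℂ) * Complex.I * qell L) ≠ 0 :=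
    mul_ne_zero (mul_ne_zero (mul_ne_zero (by norm_num) hπ) Complex.I_ne_zero) hell
  refine ⟨(b ^ 3 - c ^ 2) * T ^ 2, ?_, ?_, ?_⟩
  · exact mul_ne_zero hδ (pow_ne_zero _ hT0)
  · exact qv_mono hD2 (qv_mul hδA (qv_pow 2 hTA)) (m := 100) (by norm_num)
  · intro k
    fin_cases k
    · have e1 : (b ^ 3 - c ^ 2) * T ^ 2 * jf σ = T ^ 2 * (1728 * b ^ 3) := by
        rw [← hj]
        ring
      change AI K _ ((b ^ 3 - c ^ 2) * T ^ 2 * jf σ)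
      rw [e1]
      exact qv_mono hD2 (qv_mul (qv_pow 2 hTA) (qv_mul c1728 (qv_pow 3 hb'))) (m := 100)
        (by norm_num)
    · have e1 : (b ^ 3 - c ^ 2) * T ^ 2 *
          (deriv jf σ / (2 * (Real.pi : ℂ) * Complex.I * qell L)) =
          -(T * (1728 * (b ^ 2 * c))) := by
        calc _ = T * (deriv jf σ * ((b ^ 3 - c ^ 2) * T)) /
              (2 * (Real.pi : ℂ) * Complex.I * qell L) := by ring
          _ = _ := by
            rw [hdj, div_eq_iff hden]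
            ring
      change AI K _ ((b ^ 3 - c ^ 2) * T ^ 2 *
          (deriv jf σ / (2 * (Real.pi : ℂ) * Complex.I * qell L)))
      rw [e1]
      exact qv_mono hD2 (AI.neg (qv_mul hTA (qv_mul c1728 hb2c))) (m := 100) (by norm_num)
    · have e1 : (b ^ 3 - c ^ 2) * T ^ 2 *
          ((deriv (deriv jf) σ - Complex.I / y * deriv jf σ) /
            (2 * (Real.pi : ℂ) * Complex.I * qell L) ^ 2) =
          1152 * (b * c ^ 2) - 288 * (a * (b ^ 2 * c)) + 864 * b ^ 4 := by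
        have e2 : (b ^ 3 - c ^ 2) * T ^ 2 *
            (deriv (deriv jf) σ - Complex.I / y * deriv jf σ) * y =
            (1152 * (b * c ^ 2) - 288 * (a * (b ^ 2 * c)) + 864 * b ^ 4) *
              (2 * (Real.pi : ℂ) * Complex.I * qell L) ^ 2 * y := by
          calc _ = deriv (deriv jf) σ * ((b ^ 3 - c ^ 2) * T ^ 2 * y) -
                Complex.I * T * (deriv jf σ * ((b ^ 3 - c ^ 2) * T)) * (y / y) := by ring
            _ = _ := by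
              rw [hdj, hddj, div_self hYC]
              linear_combination (3456 * T * ((Real.pi : ℂ) * qell L) * (b ^ 2 * c) -
                (1152 * (b * c ^ 2) - 288 * (a * (b ^ 2 * c)) + 864 * b ^ 4) * 4 *
                  (Real.pi : ℂ) ^ 2 * qell L ^ 2 * y) * Complex.I_sq
        have e3 := mul_right_cancel₀ hYC e2
        rw [mul_div_assoc', e3, mul_div_assoc, div_self (pow_ne_zero _ hden), mul_one]
      change AI K _ ((b ^ 3 - c ^ 2) * T ^ 2 *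
          ((deriv (deriv jf) σ - Complex.I / y * deriv jf σ) /
            (2 * (Real.pi : ℂ) * Complex.I * qell L) ^ 2))
      rw [e1]
      exact qv_mono hD2 (qv_add hD2 (qv_sub hD2 (qv_mul c1152 (qv_mul hb' (qv_pow 2 hc')))
        (qv_mul c288 (qv_mul ha' hb2c))) (qv_mul c864 (qv_pow 4 hb'))) (m := 100)
        (by norm_num)

end Pool.Agent.Lib.MP5e
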