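import Pool.Agent.Lib.MP_5e64e7_nt.RDefs
import Pool.Agent.Lib.MP_5e64e7_nt.QVal

set_option autoImplicit false

/-!
# R.VAL : `j`, `κ` and the ratios `j'(σ)/j'(σ')` from the CM data (about 200 lines, adaptation of `QVal.lean`; the
identities were checked numerically)

`T = lam²`, `T E₂(σ) = ℓ a + T · 3/(π y)`, `T² E₄(σ) = ℓ² b`, `T³ E₆(σ) = ℓ³ c`, `δ = b³ - c² ≠ 0`. Copy the private
lemmas of `QVal.lean` (`qv_formulas`, `qv_mul`, ...): `j δ = 1728 b³`, `j' (δ T) = -3456 i π ℓ b² c`, and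
`j'' (δ T² Y) = (πℓ)² (1152 a b² c - 4608 b c² - 3456 b⁴) Y + 3456 π ℓ b² c T`, `Y = Im σ`.

`ralg_j`: `dl = δ`, `dl j = 1728 b³`.

`ralg_kap`: if `j'(σ) = 0` then `κ = 0` (division by zero) and `dl = 1` works. Otherwise `b, c ≠ 0` and
`κ (10368 b³ c²) = δ (4 c² - a b c + 3 b³)`, `dl = 10368 b³ c²`. (With `v₂ = -1728 b² c/(δT)`,
`v₃ = (1152 b c² - 288 a b² c + 864 b⁴)/(δT²)` from the proof of `qval`, `κ = v₃/v₂²`; or directly from `qval`-like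
identities: `(j'' - (i/Y) j') δ T² = (πℓ)² (1152 a b² c - 4608 b c² - 3456 b⁴)`.)

`ralg_ratio`: if `j'(σ) = 0` or `j'(σ') = 0` the quotient is `0` and `dl = 1` works. Otherwise, with `b', c', T', δ'` the data of
`σ'` (same lattice, same `ℓ`), `j'(σ)/j'(σ') = (b² c δ' T')/(δ T b'² c')`, `dl = δ T b'² c'`, `dl * ratio = b² c δ' T'`.

Sizes: everything in powers of `2^(E+1)` as in `QVal.lean`, exponents at most `100`.
-/

noncomputable section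

namespace Pool.Agent.Lib.MP5e

open Polynomial Topology

section arith

variable {K : IntermediateField ℚ ℂ} {B : ℕ}

private lemma rval_mul {n m : ℕ} {x y : ℂ} (h : AI K ((B : ℝ) ^ n) x) (h' : AI K ((B : ℝ) ^ m) y) :
    AI K ((B : ℝ) ^ (n + m)) (x * y) := by
  rw [pow_add]
  exact h.mul h'

private lemma rval_sum_le (hB : 2 ≤ B) (n m : ℕ) :
    (B : ℝ) ^ n + (B : ℝ) ^ m ≤ (B : ℝ) ^ (n + m + 1) := by
  have hB' : (2 : ℝ) ≤ B := by exact_mod_cast hB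
  have h1 : (1 : ℝ) ≤ (B : ℝ) ^ n := one_le_pow₀ (by linarith)
  have h2 : (1 : ℝ) ≤ (B : ℝ) ^ m := one_le_pow₀ (by linarith)
  have h3 : (B : ℝ) ^ n + (B : ℝ) ^ m ≤ 2 * ((B : ℝ) ^ n * (B : ℝ) ^ m) := by nlinarith
  calc (B : ℝ) ^ n + (B : ℝ) ^ m ≤ 2 * ((B : ℝ) ^ n * (B : ℝ) ^ m) := h3
    _ ≤ B * ((B : ℝ) ^ n * (B : ℝ) ^ m) := mul_le_mul_of_nonneg_right hB' (by positivity)
    _ = (B : ℝ) ^ (n + m + 1) := by ring

private lemma rval_add (hB : 2 ≤ B) {n m : ℕ} {x y : ℂ} (h : AI K ((B : ℝ) ^ n) x)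
    (h' : AI K ((B : ℝ) ^ m) y) : AI K ((B : ℝ) ^ (n + m + 1)) (x + y) :=
  (h.add h').mono le_rfl (rval_sum_le hB n m)

private lemma rval_sub (hB : 2 ≤ B) {n m : ℕ} {x y : ℂ} (h : AI K ((B : ℝ) ^ n) x)
    (h' : AI K ((B : ℝ) ^ m) y) : AI K ((B : ℝ) ^ (n + m + 1)) (x - y) :=
  (h.sub h').mono le_rfl (rval_sum_le hB n m)

private lemma rval_pow {n : ℕ} (k : ℕ) {x : ℂ} (h : AI K ((B : ℝ) ^ n) x) :
    AI K ((B : ℝ) ^ (n * k)) (x ^ k) := by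
  rw [pow_mul]
  exact h.pow k

private lemma rval_const (hB : 2 ≤ B) (c n : ℕ) (h : c ≤ 2 ^ n) : AI K ((B : ℝ) ^ n) (c : ℂ) := by
  refine (AI.nat K c).mono le_rfl ?_
  have h1 : (c : ℝ) ≤ 2 ^ n := by exact_mod_cast h
  refine h1.trans ?_
  apply pow_le_pow_left₀ (by norm_num)
  exact_mod_cast hB

private lemma rval_mono (hB : 2 ≤ B) {n m : ℕ} {x : ℂ} (h : AI K ((B : ℝ) ^ n) x) (hnm : n ≤ m) :
    AI K ((B : ℝ) ^ m) x := by
  refine h.mono le_rfl ?_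
  apply pow_le_pow_right₀ _ hnm
  have hB' : (2 : ℝ) ≤ B := by exact_mod_cast hB
  linarith

end arith

/-- the values at `σ` in terms of `a, b, c` -/
private lemma rval_formulas {σ ell a b c T Y : ℂ} (hσ : 0 < σ.im) (hT : T ≠ 0) (hs : ell ≠ 0)
    (hYσ : (σ.im : ℂ) = Y)
    (h2 : T * E2f σ = ell * a + T * (3 / ((Real.pi : ℂ) * (σ.im : ℂ))))
    (h4 : T ^ 2 * E4f σ = ell ^ 2 * b) (h6 : T ^ 3 * E6f σ = ell ^ 3 * c) :
    b ^ 3 - c ^ 2 ≠ 0 ∧ jf σ * (b ^ 3 - c ^ 2) = 1728 * b ^ 3 ∧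
    deriv jf σ * ((b ^ 3 - c ^ 2) * T) =
      -3456 * Complex.I * ((Real.pi : ℂ) * ell) * (b ^ 2 * c) ∧
    deriv (deriv jf) σ * ((b ^ 3 - c ^ 2) * T ^ 2 * Y) =
      ((Real.pi : ℂ) * ell) ^ 2 *
        (1152 * (a * (b ^ 2 * c)) - 4608 * (b * c ^ 2) - 3456 * b ^ 4) * Y +
        3456 * ((Real.pi : ℂ) * ell) * (b ^ 2 * c) * T := by
  have hY0 : Y ≠ 0 := by
    rw [← hYσ]
    exact_mod_cast hσ.ne'
  rw [hYσ] at h2
  have hπ : (Real.pi : ℂ) ≠ 0 := by exact_mod_cast Real.pi_ne_zero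
  have hD := disc_ne hσ
  have e4 : E4f σ = ell ^ 2 * b / T ^ 2 := by
    rw [eq_div_iff (pow_ne_zero _ hT), ← h4]; ring
  have e6 : E6f σ = ell ^ 3 * c / T ^ 3 := by
    rw [eq_div_iff (pow_ne_zero _ hT), ← h6]; ring
  have e2 : E2f σ = ell * a / T + 3 / ((Real.pi : ℂ) * Y) := by
    have : T * E2f σ = T * (ell * a / T + 3 / ((Real.pi : ℂ) * Y)) := by
      rw [h2]
      field_simp
    exact mul_left_cancel₀ hT this
  have hDe : E4f σ ^ 3 - E6f σ ^ 2 = ell ^ 6 * (b ^ 3 - c ^ 2) / T ^ 6 := by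
    rw [e4, e6]
    field_simp
  have hδ : b ^ 3 - c ^ 2 ≠ 0 := by
    intro h
    apply hD
    rw [hDe, h]
    simp
  refine ⟨hδ, ?_, ?_, ?_⟩
  · unfold jf
    rw [hDe, e4]
    field_simp
  · rw [djf hσ, hDe, e4, e6]
    field_simp
    ring
  · rw [ddjf hσ, hDe, e4, e6, e2]
    field_simp
    ring

/-- packaged form of the data -/
private lemma rval_data (L : PeriodPair) {K : IntermediateField ℚ ℂ} {E lam : ℕ} {σ : ℂ}
    (hσ : 0 < σ.im) (h : QCMD L K E lam σ) :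
    ∃ a b c T : ℂ, T ≠ 0 ∧ AI K (((2 ^ (E + 1) : ℕ) : ℝ) ^ 1) a ∧
      AI K (((2 ^ (E + 1) : ℕ) : ℝ) ^ 1) b ∧ AI K (((2 ^ (E + 1) : ℕ) : ℝ) ^ 1) c ∧
      AI K (((2 ^ (E + 1) : ℕ) : ℝ) ^ 2) T ∧
      b ^ 3 - c ^ 2 ≠ 0 ∧ jf σ * (b ^ 3 - c ^ 2) = 1728 * b ^ 3 ∧
      deriv jf σ * ((b ^ 3 - c ^ 2) * T) =
        -3456 * Complex.I * ((Real.pi : ℂ) * qell L) * (b ^ 2 * c) ∧
      deriv (deriv jf) σ * ((b ^ 3 - c ^ 2) * T ^ 2 * (σ.im : ℂ)) =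
        ((Real.pi : ℂ) * qell L) ^ 2 *
          (1152 * (a * (b ^ 2 * c)) - 4608 * (b * c ^ 2) - 3456 * b ^ 4) * (σ.im : ℂ) +
          3456 * ((Real.pi : ℂ) * qell L) * (b ^ 2 * c) * T := by
  obtain ⟨hlam1, hlam2, a, b, c, ha, hb, hc, h2, h4, h6⟩ := h
  have hell := qell_ne L
  have hlC : (lam : ℂ) ≠ 0 := by
    have : lam ≠ 0 := by omega
    exact_mod_cast this
  have hT0 : (lam : ℂ) ^ 2 ≠ 0 := pow_ne_zero _ hlC
  obtain ⟨hδ, hj, hdj, hddj⟩ := rval_formulas (T := (lam : ℂ) ^ 2) hσ hT0 hell rfl h2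
    (by rw [← h4]; ring) (by rw [← h6]; ring)
  have hED : (2 : ℝ) ^ E ≤ ((2 ^ (E + 1) : ℕ) : ℝ) ^ 1 := by
    rw [pow_one]
    push_cast
    exact pow_le_pow_right₀ (by norm_num) (by omega)
  have hlA : AI K (((2 ^ (E + 1) : ℕ) : ℝ) ^ 1) (lam : ℂ) := by
    refine (AI.nat K lam).mono le_rfl (le_trans ?_ hED)
    exact_mod_cast hlam2
  exact ⟨a, b, c, (lam : ℂ) ^ 2, hT0, ha.mono le_rfl hED, hb.mono le_rfl hED,
    hc.mono le_rfl hED, rval_pow 2 hlA, hδ, hj, hdj, hddj⟩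

private lemma rval_fin (E : ℕ) : ((2 ^ (E + 1) : ℕ) : ℝ) ^ 100 = (2 : ℝ) ^ (100 * E + 100) := by
  push_cast
  rw [← pow_mul]
  ring_nf

private lemma rval_two (E : ℕ) : 2 ≤ 2 ^ (E + 1) := by
  calc 2 = 2 ^ 1 := rfl
    _ ≤ 2 ^ (E + 1) := Nat.pow_le_pow_right (by norm_num) (by omega)

private lemma rval_zero {K : IntermediateField ℚ ℂ} (E : ℕ) {v : ℂ} (hv : v = 0) :
    RAlg K (100 * E + 100) v := by
  refine ⟨1, one_ne_zero, ?_, ?_⟩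
  · rw [← rval_fin]
    have h := rval_mono (rval_two E) (rval_const (K := K) (rval_two E) 1 0 (by norm_num))
      (m := 100) (by norm_num)
    exact_mod_cast h
  · rw [← rval_fin, hv, mul_zero]
    have h := rval_mono (rval_two E) (rval_const (K := K) (rval_two E) 0 0 (by norm_num))
      (m := 100) (by norm_num)
    exact_mod_cast h

theorem ralg_j (L : PeriodPair) {K : IntermediateField ℚ ℂ} {E lam : ℕ} {σ : ℂ} (hσ : 0 < σ.im)
    (h : QCMD L K E lam σ) : RAlg K (100 * E + 100) (jf σ) := by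
  obtain ⟨a, b, c, T, hT, ha, hb, hc, hTA, hδ, hj, hdj, hddj⟩ := rval_data L hσ h
  have hD2 := rval_two E
  have c1728 : AI K (((2 ^ (E + 1) : ℕ) : ℝ) ^ 11) (1728 : ℂ) := by
    exact_mod_cast rval_const (K := K) hD2 1728 11 (by norm_num)
  refine ⟨b ^ 3 - c ^ 2, hδ, ?_, ?_⟩
  · rw [← rval_fin]
    exact rval_mono hD2 (rval_sub hD2 (rval_pow 3 hb) (rval_pow 2 hc)) (m := 100) (by norm_num)
  · rw [← rval_fin, mul_comm, hj]
    exact rval_mono hD2 (rval_mul c1728 (rval_pow 3 hb)) (m := 100) (by norm_num)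

theorem ralg_kap (L : PeriodPair) {K : IntermediateField ℚ ℂ} {E lam : ℕ} {σ : ℂ} (hσ : 0 < σ.im)
    (h : QCMD L K E lam σ) : RAlg K (100 * E + 100) (rkap σ (σ.im : ℂ)) := by
  obtain ⟨a, b, c, T, hT, ha, hb, hc, hTA, hδ, hj, hdj, hddj⟩ := rval_data L hσ h
  have hD2 := rval_two E
  by_cases hj0 : deriv jf σ = 0
  · exact rval_zero E (by unfold rkap; rw [hj0]; simp)
  have hell := qell_ne L
  have hπ : (Real.pi : ℂ) ≠ 0 := by exact_mod_cast Real.pi_ne_zero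
  have hYC : (σ.im : ℂ) ≠ 0 := by exact_mod_cast hσ.ne'
  have hbc : b ^ 2 * c ≠ 0 := by
    intro h0
    rw [h0, mul_zero] at hdj
    exact (mul_ne_zero hj0 (mul_ne_zero hδ hT)) hdj
  have hb0 : b ≠ 0 := by
    rintro rfl
    exact hbc (by simp)
  have hc0 : c ≠ 0 := by
    rintro rfl
    exact hbc (by simp)
  set Y : ℂ := (σ.im : ℂ) with hY
  set u : ℂ := (Real.pi : ℂ) * qell L with hu
  have hu0 : u ≠ 0 := mul_ne_zero hπ hell
  set δ : ℂ := b ^ 3 - c ^ 2 with hδd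
  have hd1 : deriv jf σ = -3456 * Complex.I * u * (b ^ 2 * c) / (δ * T) := by
    rw [eq_div_iff (mul_ne_zero hδ hT), hdj]
  have hd2 : deriv (deriv jf) σ = (u ^ 2 *
        (1152 * (a * (b ^ 2 * c)) - 4608 * (b * c ^ 2) - 3456 * b ^ 4) * Y +
          3456 * u * (b ^ 2 * c) * T) / (δ * T ^ 2 * Y) := by
    rw [eq_div_iff (mul_ne_zero (mul_ne_zero hδ (pow_ne_zero _ hT)) hYC), hddj]
  have hnum : deriv (deriv jf) σ - Complex.I / Y * deriv jf σ =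
      u ^ 2 * (1152 * (a * (b ^ 2 * c)) - 4608 * (b * c ^ 2) - 3456 * b ^ 4) / (δ * T ^ 2) := by
    rw [hd1, hd2]
    field_simp
    linear_combination (3456 * b * c * T) * Complex.I_sq
  have hsq : deriv jf σ ^ 2 = -(3456 ^ 2 * u ^ 2 * (b ^ 4 * c ^ 2)) / (δ ^ 2 * T ^ 2) := by
    rw [hd1, div_pow]
    congr 1
    · linear_combination (3456 ^ 2 * u ^ 2 * (b ^ 4 * c ^ 2)) * Complex.I_sq
    · ring
  have hk : (10368 * (b ^ 3 * c ^ 2)) * rkap σ Y =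
      δ * ((4 * c ^ 2 - a * (b * c)) + 3 * b ^ 3) := by
    unfold rkap
    rw [hnum, hsq]
    field_simp
    ring
  have c10368 : AI K (((2 ^ (E + 1) : ℕ) : ℝ) ^ 14) (10368 : ℂ) := by
    exact_mod_cast rval_const (K := K) hD2 10368 14 (by norm_num)
  have c4 : AI K (((2 ^ (E + 1) : ℕ) : ℝ) ^ 2) (4 : ℂ) := by
    exact_mod_cast rval_const (K := K) hD2 4 2 (by norm_num)
  have c3 : AI K (((2 ^ (E + 1) : ℕ) : ℝ) ^ 2) (3 : ℂ) := by
    exact_mod_cast rval_const (K := K) hD2 3 2 (by norm_num)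
  refine ⟨10368 * (b ^ 3 * c ^ 2), ?_, ?_, ?_⟩
  · exact mul_ne_zero (by norm_num) (mul_ne_zero (pow_ne_zero _ hb0) (pow_ne_zero _ hc0))
  · rw [← rval_fin]
    exact rval_mono hD2 (rval_mul c10368 (rval_mul (rval_pow 3 hb) (rval_pow 2 hc))) (m := 100)
      (by norm_num)
  · rw [← rval_fin, hk]
    exact rval_mono hD2 (rval_mul (rval_sub hD2 (rval_pow 3 hb) (rval_pow 2 hc))
      (rval_add hD2 (rval_sub hD2 (rval_mul c4 (rval_pow 2 hc)) (rval_mul ha (rval_mul hb hc)))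
        (rval_mul c3 (rval_pow 3 hb)))) (m := 100) (by norm_num)

theorem ralg_ratio (L : PeriodPair) {K : IntermediateField ℚ ℂ} {E lam lam' : ℕ} {σ σ' : ℂ}
    (hσ : 0 < σ.im) (hσ' : 0 < σ'.im) (h : QCMD L K E lam σ) (h' : QCMD L K E lam' σ') :
    RAlg K (100 * E + 100) (deriv jf σ / deriv jf σ') := by
  obtain ⟨a, b, c, T, hT, ha, hb, hc, hTA, hδ, -, hdj, -⟩ := rval_data L hσ h
  obtain ⟨a', b', c', T', hT', ha', hb', hc', hTA', hδ', -, hdj', -⟩ := rval_data L hσ' h'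
  have hD2 := rval_two E
  by_cases hj0 : deriv jf σ' = 0
  · exact rval_zero E (by rw [hj0, div_zero])
  have hell := qell_ne L
  have hπ : (Real.pi : ℂ) ≠ 0 := by exact_mod_cast Real.pi_ne_zero
  have hbc : b' ^ 2 * c' ≠ 0 := by
    intro h0
    rw [h0, mul_zero] at hdj'
    exact (mul_ne_zero hj0 (mul_ne_zero hδ' hT')) hdj'
  set u : ℂ := (Real.pi : ℂ) * qell L with hu
  have hu0 : u ≠ 0 := mul_ne_zero hπ hell
  have hk : ((b ^ 3 - c ^ 2) * T * (b' ^ 2 * c')) * (deriv jf σ / deriv jf σ') =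
      (b ^ 2 * c) * ((b' ^ 3 - c' ^ 2) * T') := by
    rw [mul_div_assoc', div_eq_iff hj0]
    have e0 : (-3456 * Complex.I * u) ≠ 0 :=
      mul_ne_zero (mul_ne_zero (by norm_num) Complex.I_ne_zero) hu0
    apply mul_left_cancel₀ e0
    linear_combination (-3456 * Complex.I * u * (b' ^ 2 * c')) * hdj -
      (-3456 * Complex.I * u * (b ^ 2 * c)) * hdj'
  refine ⟨(b ^ 3 - c ^ 2) * T * (b' ^ 2 * c'), mul_ne_zero (mul_ne_zero hδ hT) hbc, ?_, ?_⟩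
  · rw [← rval_fin]
    exact rval_mono hD2 (rval_mul (rval_mul (rval_sub hD2 (rval_pow 3 hb) (rval_pow 2 hc)) hTA)
      (rval_mul (rval_pow 2 hb') hc')) (m := 100) (by norm_num)
  · rw [← rval_fin, hk]
    exact rval_mono hD2 (rval_mul (rval_mul (rval_pow 2 hb) hc)
      (rval_mul (rval_sub hD2 (rval_pow 3 hb') (rval_pow 2 hc')) hTA')) (m := 100) (by norm_num)

end Pool.Agent.Lib.MP5e
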