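import Pool.Agent.Lib.MP_5e64e7_nt.RBas
import Pool.Agent.Lib.MP_5e64e7_nt.RCmd
import Pool.Agent.Lib.MP_5e64e7_nt.RVal
import Pool.Agent.Lib.MP_5e64e7_nt.RHt

set_option autoImplicit false

/-!
# R.FLD : one number field for all the values at a rational point (about 250 lines, adaptation of `qapp_one`,
`qapp_field` in `QApp.lean`)

Constants: `C` from `rbas` (choose `L_D, F_D, r0_D` for `D ≥ 1`; for `D = 0` anything), `h` = a common `h` for `rht (f k)`,
all `k` (the sum; everything is monotone in `h` since `B ≥ 1`). At the point `x = rpt a c`: `D_k = rD (f k).d a c ≤ B^h`,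
`D_k + 1 ≤ B^(h+1)`. By induction on a finite set `s` of indices: there is a field `K` of degree at most
`(B^(6 (h+1)) · B^((h+1) C))^(card s)` such that for all `k ∈ s` there is `lam` with
`QCMD L_{D_k} K E lam (rz (f k) x)`, `E = B^(C₁)` large enough for
`250 (D_k + r0 + 1) (B^(h+1))^6` (e.g. `C₁ = 6 (h+1) + (h+1) + (h+1) C + 10`; `D + r0 + 1 ≤ 2 (D+1) (D+1)^C`). Step: `K0 = K ⊔ F_{D_k}`
(`IntermediateField.finrank_sup_le`, `IntermediateField.finiteDimensional_sup`), then `rcmd` with `B^(h+1)` for `B`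
(`rz (f k) x = qgr D_k x' y' c'`). `QCMD` is monotone in the field and in `E` (`AI.mono`). For `s = ∅` take `⊥`.
Values, with `K` for `s = univ` (`ry = Im rz` by `rht`): the index `x_l = a_l/c_l` has the denominator `c_l`
(`AI.nat`, `AI.int`, `B ≤ 2^(B^..)`), `j` and `κ` by `ralg_j`, `ralg_kap`, the ratio by `ralg_ratio`
(`D_{rep k} = D_k` because `(f (rep k)).d = (f k).d`, so the lattice is the same). `RAlg` is monotone in `N`.
-/

noncomputable section

namespace Pool.Agent.Lib.MP5e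

open Polynomial Topology

private theorem qcmd_mono {L : PeriodPair} {K K' : IntermediateField ℚ ℂ} {E E' lam : ℕ} {σ : ℂ}
    (hK : K ≤ K') (hE : E ≤ E') (h : QCMD L K E lam σ) : QCMD L K' E' lam σ := by
  obtain ⟨h1, h2, a, b, c, ha, hb, hc, h3, h4, h5⟩ := h
  have hER : (2 : ℝ) ^ E ≤ (2 : ℝ) ^ E' := pow_le_pow_right₀ (by norm_num) hE
  exact ⟨h1, h2.trans (Nat.pow_le_pow_right (by norm_num) hE), a, b, c, ha.mono hK hER,
    hb.mono hK hER, hc.mono hK hER, h3, h4, h5⟩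

private theorem ralg_mono {K : IntermediateField ℚ ℂ} {N N' : ℕ} (hN : N ≤ N') {v : ℂ}
    (h : RAlg K N v) : RAlg K N' v := by
  obtain ⟨dl, h0, h1, h2⟩ := h
  have hNR : (2 : ℝ) ^ N ≤ (2 : ℝ) ^ N' := pow_le_pow_right₀ (by norm_num) hN
  exact ⟨dl, h0, h1.mono le_rfl hNR, h2.mono le_rfl hNR⟩

theorem rfld {m n : ℕ} (f : Fin n → RF m) (rep : Fin n → Fin n) (hrep : RRep f rep) :
    ∃ C : ℕ, ∀ (B : ℕ) (a : Fin m → ℤ) (c : Fin m → ℕ), RHgt B a c →
      (∀ k, RGood (f k) (rpt a c)) →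
      ∃ K : IntermediateField ℚ ℂ, FiniteDimensional ℚ K ∧ Module.finrank ℚ K ≤ B ^ C ∧
        ∀ i, RAlg K (B ^ C) (rfam f rep (rpt a c) i) := by
  classical
  obtain ⟨Cb, hCb⟩ := rbas
  have hCb' : ∀ D : ℕ, ∃ (L : PeriodPair) (F : IntermediateField ℚ ℂ) (r0 : ℕ), 1 ≤ D →
      (QB D L F ((2 : ℝ) ^ r0) ∧ Module.finrank ℚ F ≤ (D + 1) ^ Cb ∧ r0 ≤ (D + 1) ^ Cb) := by
    intro D
    by_cases hD : 1 ≤ D
    · obtain ⟨L, F, r0, h⟩ := hCb D hD
      exact ⟨L, F, r0, fun _ => h⟩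
    · obtain ⟨L, F, r0, -⟩ := hCb 1 le_rfl
      exact ⟨L, F, r0, fun h => absurd h hD⟩
  choose 𝓛 F r0 hb using hCb'
  choose hh hht using fun k => rht (f k)
  set h : ℕ := ∑ k, hh k with hh_def
  have hhle : ∀ k, hh k ≤ h := fun k =>
    Finset.single_le_sum (f := hh) (fun _ _ => Nat.zero_le _) (Finset.mem_univ k)
  set C1 : ℕ := 9 + (h + 1) * (Cb + 7) with hC1
  refine ⟨C1 + 8 + n * ((h + 1) * (Cb + 6)), fun B a c hB hgood => ?_⟩
  have hB2 : 2 ≤ B := hB.1
  have hBpos : 0 < B := by omega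
  set x := rpt a c with hx
  have hDk : ∀ k, 1 ≤ rD (f k).d a c ∧ rD (f k).d a c + 1 ≤ B ^ (h + 1) := by
    intro k
    obtain ⟨e1, e2, -⟩ := hht k B a c hB (hgood k)
    refine ⟨e1, ?_⟩
    have e3 : B ^ hh k ≤ B ^ h := Nat.pow_le_pow_right hBpos (hhle k)
    have e4 : 1 ≤ B ^ h := Nat.one_le_pow _ _ hBpos
    have e5 : B ^ h * 2 ≤ B ^ (h + 1) := by
      rw [pow_succ]
      exact Nat.mul_le_mul_left _ hB2
    omega
  -- the field
  have key : ∀ s : Finset (Fin n), ∃ K : IntermediateField ℚ ℂ, FiniteDimensional ℚ K ∧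
      Module.finrank ℚ K ≤ (B ^ ((h + 1) * (Cb + 6))) ^ s.card ∧
      ∀ k ∈ s, ∃ lam, QCMD (𝓛 (rD (f k).d a c)) K (B ^ C1) lam (rz (f k) x) := by
    intro s
    induction s using Finset.induction_on with
    | empty =>
      refine ⟨⊥, inferInstance, ?_, by simp⟩
      rw [IntermediateField.finrank_bot]
      simp
    | insert k s hk ih =>
      obtain ⟨K, h1, h2, h3⟩ := ih
      obtain ⟨hD1, hD2⟩ := hDk k
      obtain ⟨e1, e2, c', x', y', e3, e4, e5, e6, e7, e8, e9⟩ := hht k B a c hB (hgood k)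
      obtain ⟨hQ, hF, hr⟩ := hb (rD (f k).d a c) hD1
      set D := rD (f k).d a c with hD
      have hFfd : FiniteDimensional ℚ (F D) := hQ.2.1
      have hDC : (D + 1) ^ Cb ≤ B ^ ((h + 1) * Cb) := by
        rw [pow_mul]
        exact Nat.pow_le_pow_left hD2 Cb
      have h2B : 2 ≤ B ^ (h + 1) := by
        calc 2 ≤ B ^ 1 := by rwa [pow_one]
          _ ≤ B ^ (h + 1) := Nat.pow_le_pow_right hBpos (by omega)
      have hle : B ^ hh k ≤ B ^ (h + 1) :=
        Nat.pow_le_pow_right hBpos ((hhle k).trans (Nat.le_succ h))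
      have hle' : (B : ℤ) ^ hh k ≤ ((B ^ (h + 1) : ℕ) : ℤ) := by exact_mod_cast hle
      obtain ⟨K', k1, k2, k3, lam, k4⟩ := rcmd D hD1 (𝓛 D) (F D) (r0 D) hQ (K ⊔ F D)
        inferInstance le_sup_right (B ^ (h + 1)) c' x' y' h2B e3 (e4.trans hle)
        (e5.trans hle') e6 (e7.trans hle')
      have hsup : Module.finrank ℚ (K ⊔ F D : IntermediateField ℚ ℂ) ≤
          Module.finrank ℚ K * Module.finrank ℚ (F D) :=
        IntermediateField.finrank_sup_le K (F D)
      have hE : 250 * (D + r0 D + 1) * (B ^ (h + 1)) ^ 6 ≤ B ^ C1 := by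
        have g1 : 250 ≤ B ^ 8 := by
          calc 250 ≤ 2 ^ 8 := by norm_num
            _ ≤ B ^ 8 := Nat.pow_le_pow_left hB2 8
        have g2 : D + r0 D + 1 ≤ B * B ^ ((h + 1) * (Cb + 1)) := by
          have g3 : B ^ (h + 1) ≤ B ^ ((h + 1) * (Cb + 1)) :=
            Nat.pow_le_pow_right hBpos (by nlinarith)
          have g4 : B ^ ((h + 1) * Cb) ≤ B ^ ((h + 1) * (Cb + 1)) :=
            Nat.pow_le_pow_right hBpos (by nlinarith)
          have g5 : r0 D ≤ B ^ ((h + 1) * Cb) := hr.trans hDC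
          nlinarith
        calc 250 * (D + r0 D + 1) * (B ^ (h + 1)) ^ 6
            ≤ B ^ 8 * (B * B ^ ((h + 1) * (Cb + 1))) * (B ^ (h + 1)) ^ 6 :=
              Nat.mul_le_mul_right _ (Nat.mul_le_mul g1 g2)
          _ = B ^ C1 := by
              rw [hC1, ← pow_succ', ← pow_mul, ← pow_add, ← pow_add]
              congr 1
              ring
      refine ⟨K', k2, ?_, ?_⟩
      · rw [Finset.card_insert_of_notMem hk]
        calc Module.finrank ℚ K' ≤ (B ^ (h + 1)) ^ 6 *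
              Module.finrank ℚ (K ⊔ F D : IntermediateField ℚ ℂ) := k3
          _ ≤ (B ^ (h + 1)) ^ 6 * (Module.finrank ℚ K * Module.finrank ℚ (F D)) :=
              Nat.mul_le_mul_left _ hsup
          _ ≤ (B ^ (h + 1)) ^ 6 * ((B ^ ((h + 1) * (Cb + 6))) ^ s.card * B ^ ((h + 1) * Cb)) :=
              Nat.mul_le_mul_left _ (Nat.mul_le_mul h2 (hF.trans hDC))
          _ = (B ^ ((h + 1) * (Cb + 6))) ^ (s.card + 1) := by
              rw [pow_succ (B ^ ((h + 1) * (Cb + 6)))]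
              have g6 : B ^ ((h + 1) * (Cb + 6)) = (B ^ (h + 1)) ^ 6 * B ^ ((h + 1) * Cb) := by
                rw [← pow_mul, ← pow_add]
                congr 1
                ring
              rw [g6]
              ring
      · intro k' hk'
        rcases Finset.mem_insert.mp hk' with hkk | hkk
        · subst hkk
          rw [← e8] at k4
          exact ⟨lam, qcmd_mono le_rfl hE k4⟩
        · obtain ⟨lam', hl⟩ := h3 k' hkk
          exact ⟨lam', qcmd_mono (le_sup_left.trans k1) le_rfl hl⟩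
  obtain ⟨K, h1, h2, h3⟩ := key Finset.univ
  rw [Finset.card_univ, Fintype.card_fin] at h2
  have hN : 100 * B ^ C1 + 100 ≤ B ^ (C1 + 8 + n * ((h + 1) * (Cb + 6))) := by
    have g1 : 1 ≤ B ^ C1 := Nat.one_le_pow _ _ hBpos
    have g2 : 256 ≤ B ^ 8 := by
      calc 256 = 2 ^ 8 := by norm_num
        _ ≤ B ^ 8 := Nat.pow_le_pow_left hB2 8
    calc 100 * B ^ C1 + 100 ≤ B ^ C1 * 256 := by omega
      _ ≤ B ^ C1 * B ^ 8 := Nat.mul_le_mul_left _ g2
      _ = B ^ (C1 + 8) := (pow_add _ _ _).symm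
      _ ≤ _ := Nat.pow_le_pow_right hBpos (by omega)
  have him : ∀ k, 0 < (rz (f k) x).im := fun k => (hgood k).2
  have hry : ∀ k, ry (f k) x = ((rz (f k) x).im : ℂ) := by
    intro k
    obtain ⟨e1, e2, c', x', y', e3, e4, e5, e6, e7, e8, e9⟩ := hht k B a c hB (hgood k)
    exact e9
  refine ⟨K, h1, h2.trans ?_, fun i => ?_⟩
  · rw [← pow_mul]
    exact Nat.pow_le_pow_right hBpos (by nlinarith)
  · rcases i with l | ⟨k, j⟩ | ⟨k, hk⟩
    · -- the variables
      obtain ⟨g1, g2, g3⟩ := hB.2 l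
      have hcC : (c l : ℂ) ≠ 0 := by
        have : c l ≠ 0 := by omega
        exact_mod_cast this
      have hBM : (B : ℝ) ≤ (2 : ℝ) ^ B ^ (C1 + 8 + n * ((h + 1) * (Cb + 6))) := by
        have g4 : B ≤ B ^ (C1 + 8 + n * ((h + 1) * (Cb + 6))) := by
          calc B = B ^ 1 := (pow_one B).symm
            _ ≤ _ := Nat.pow_le_pow_right hBpos (by omega)
        have g5 : B ≤ 2 ^ B ^ (C1 + 8 + n * ((h + 1) * (Cb + 6))) :=
          Nat.lt_two_pow_self.le.trans (Nat.pow_le_pow_right (by norm_num) g4)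
        exact_mod_cast g5
      refine ⟨(c l : ℂ), hcC, (AI.nat K (c l)).mono le_rfl ?_, ?_⟩
      · have g6 : (c l : ℝ) ≤ B := by exact_mod_cast g2
        linarith
      · have g7 : (c l : ℂ) * rfam f rep x (Sum.inl l) = ((a l : ℤ) : ℂ) := by
          have g8 : rfam f rep x (Sum.inl l) = (a l : ℂ) / (c l : ℂ) := rfl
          rw [g8, mul_div_cancel₀ _ hcC]
        rw [g7]
        refine (AI.int K (a l)).mono le_rfl ?_
        have g9 : |((a l : ℤ) : ℝ)| ≤ B := by exact_mod_cast g3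
        linarith
    · obtain ⟨lam, hq⟩ := h3 k (Finset.mem_univ k)
      fin_cases j
      · exact ralg_mono hN (ralg_j _ (him k) hq)
      · have g1 : RAlg K (100 * B ^ C1 + 100) (rkap (rz (f k) x) (ry (f k) x)) := by
          rw [hry k]
          exact ralg_kap _ (him k) hq
        exact ralg_mono hN g1
    · obtain ⟨lam, hq⟩ := h3 k (Finset.mem_univ k)
      obtain ⟨lam', hq'⟩ := h3 (rep k) (Finset.mem_univ _)
      rw [(hrep k).2] at hq'
      exact ralg_mono hN (ralg_ratio _ (him k) (him (rep k)) hq hq')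

end Pool.Agent.Lib.MP5e
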