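import Pool.Agent.Lib.MP_5e64e7_nt.QHidA

set_option autoImplicit false

/-!
# Q.HID : hierarchical identity theorem

`qhid_low`, by induction on `m`: if `F` is analytic at `w` and not identically zero near `w`, there are `κ, c, ε > 0` with
`c (∏ ‖h_l‖)^κ ≤ ‖F (w + h)‖` for all `h` with `0 < ‖h_l‖ < ε`, `‖h_{l+1}‖ ≤ ‖h_l‖^κ`.
* `m = 0` : `F w ≠ 0` (the space has one point), `c = ‖F w‖`, `κ = 1`.
* `m + 1` : `w = Fin.snoc w' t₀` (`Fin.snoc_init_self`). `a, G, M, ε₁` from `qhid_step`; `κ', c', ε'` for `G`. Let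
  `κ = max (κ' + a + 1) (m κ' + 1)`, `ε ≤ min ε₁ ε' 1` with `M ε ≤ c'/2`, `c = c'/2`. Let `h = (h', s)`, `Π' = ∏ ‖h'_l‖`.
  Then `M ‖s‖ ≤ (c'/2) Π'^κ'`: if `m = 0`, `Π' = 1` and `‖s‖ < ε`. If `m ≥ 1`: `‖h_l‖ ≥ ‖h_{m-1}‖ =: η` for `l ≤ m - 1` (the
  chain with `κ ≥ 1` and `‖h‖ < 1`), so `Π' ≥ η^m`, and `‖s‖ ≤ η^κ ≤ η^(mκ'+1) ≤ ε η^(mκ') ≤ ε Π'^κ'`. Hence
  `‖F (w + h)‖ ≥ ‖s‖^a (c' Π'^κ' - M ‖s‖) ≥ (c'/2) ‖s‖^a Π'^κ' ≥ (c'/2) (‖s‖ Π')^κ`. (`Fin.prod_univ_castSucc`.) The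
  hypothesis for `h'` with exponent `κ'`: `‖h_{l+1}‖ ≤ ‖h_l‖^κ ≤ ‖h_l‖^κ'`.
`qhid` : otherwise take the point `r` for `C = κ` and `ε`, `h = r - w`: `0 < c (∏ ‖h_l‖)^κ ≤ ‖F r‖ = 0`.
-/

noncomputable section

namespace Pool.Agent.Lib.MP5e

open Topology

/-- the last coordinate is small compared with the product of the others -/
private lemma hid_prod (m κ κ' : ℕ) (hκ : m * κ' + 1 ≤ κ) (ε : ℝ) (hε : ε ≤ 1)
    (h : Fin (m + 1) → ℂ) (h0 : ∀ l, h l ≠ 0 ∧ ‖h l‖ < ε)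
    (hch : ∀ l l' : Fin (m + 1), (l' : ℕ) = (l : ℕ) + 1 → ‖h l'‖ ≤ ‖h l‖ ^ κ) :
    ‖h (Fin.last m)‖ ≤ ε * (∏ l : Fin m, ‖h l.castSucc‖) ^ κ' := by
  have hpos : ∀ l, 0 < ‖h l‖ := fun l => norm_pos_iff.mpr (h0 l).1
  have hle1 : ∀ l, ‖h l‖ ≤ 1 := fun l => (h0 l).2.le.trans hε
  have hanti : Antitone fun l : Fin (m + 1) => ‖h l‖ := by
    rw [Fin.antitone_iff_succ_le]
    intro i
    refine (hch i.castSucc i.succ (by simp)).trans ?_
    exact pow_le_of_le_one (hpos _).le (hle1 _) (by omega)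
  rcases m with _ | k
  · rw [Fin.prod_univ_zero, one_pow, mul_one]
    exact (h0 _).2.le
  · set η : ℝ := ‖h (Fin.last k).castSucc‖ with hη
    have hη0 : 0 < η := hpos _
    have hη1 : η ≤ 1 := hle1 _
    have h1 : η ^ (k + 1) ≤ ∏ l : Fin (k + 1), ‖h l.castSucc‖ := by
      calc η ^ (k + 1) = ∏ _l : Fin (k + 1), η := by simp
        _ ≤ ∏ l : Fin (k + 1), ‖h l.castSucc‖ := by
          refine Finset.prod_le_prod (fun _ _ => hη0.le) fun l _ => ?_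
          exact hanti (Fin.castSucc_le_castSucc_iff.mpr (Fin.le_last l))
    have h2 : ‖h (Fin.last (k + 1))‖ ≤ η ^ κ := hch (Fin.last k).castSucc (Fin.last (k + 1)) (by simp)
    calc ‖h (Fin.last (k + 1))‖ ≤ η ^ κ := h2
      _ ≤ η ^ ((k + 1) * κ' + 1) := pow_le_pow_of_le_one hη0.le hη1 hκ
      _ = η * (η ^ (k + 1)) ^ κ' := by rw [pow_succ, pow_mul]; ring
      _ ≤ ε * (∏ l : Fin (k + 1), ‖h l.castSucc‖) ^ κ' := by
        refine mul_le_mul (h0 _).2.le (pow_le_pow_left₀ (by positivity) h1 κ') (by positivity) ?_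
        exact (hη0.trans (h0 _).2).le

theorem qhid_low (m : ℕ) (F : (Fin m → ℂ) → ℂ) (w : Fin m → ℂ) (hF : AnalyticAt ℂ F w)
    (hne : ¬ ∀ᶠ x in 𝓝 w, F x = 0) : ∃ (κ : ℕ) (c ε : ℝ), 0 < c ∧ 0 < ε ∧
      ∀ h : Fin m → ℂ, (∀ l, h l ≠ 0 ∧ ‖h l‖ < ε) →
        (∀ l l' : Fin m, (l' : ℕ) = (l : ℕ) + 1 → ‖h l'‖ ≤ ‖h l‖ ^ κ) →
        c * (∏ l, ‖h l‖) ^ κ ≤ ‖F (fun l => w l + h l)‖ := by
  induction m with
  | zero =>
    have h1 : F w ≠ 0 := by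
      intro h
      apply hne
      refine Filter.Eventually.of_forall fun x => ?_
      rw [Subsingleton.elim x w, h]
    refine ⟨1, ‖F w‖, 1, norm_pos_iff.mpr h1, one_pos, fun h _ _ => ?_⟩
    rw [Fin.prod_univ_zero, one_pow, mul_one, Subsingleton.elim (fun l => w l + h l) w]
  | succ m ih =>
    set w' : Fin m → ℂ := Fin.init w with hw'
    set t0 : ℂ := w (Fin.last m) with ht0
    have hw : (Fin.snoc w' t0 : Fin (m + 1) → ℂ) = w := Fin.snoc_init_self w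
    obtain ⟨a, G, M, ε1, hε1, hM, hG, hGne, hest⟩ := qhid_step F w' t0
      (by rw [hw]; exact hF) (by rw [hw]; exact hne)
    obtain ⟨κ', c', ε', hc', hε', hlow⟩ := ih G w' hG hGne
    set κ : ℕ := max (κ' + a + 1) (m * κ' + 1) with hκ
    have hκ1 : κ' + a + 1 ≤ κ := le_max_left _ _
    have hκ2 : m * κ' + 1 ≤ κ := le_max_right _ _
    set ε : ℝ := min (min ε1 ε') (min 1 (c' / (2 * (M + 1)))) with hε
    have hM1 : 0 < M + 1 := by linarith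
    have hεpos : 0 < ε := by
      rw [hε]
      refine lt_min (lt_min hε1 hε') (lt_min one_pos (by positivity))
    have hεε1 : ε ≤ ε1 := (min_le_left _ _).trans (min_le_left _ _)
    have hεε' : ε ≤ ε' := (min_le_left _ _).trans (min_le_right _ _)
    have hε1' : ε ≤ 1 := (min_le_right _ _).trans (min_le_left _ _)
    have hεM : ε ≤ c' / (2 * (M + 1)) := (min_le_right _ _).trans (min_le_right _ _)
    have hMε : M * ε ≤ c' / 2 := by
      calc M * ε ≤ (M + 1) * (c' / (2 * (M + 1))) :=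
            mul_le_mul (by linarith) hεM hεpos.le hM1.le
        _ = c' / 2 := by field_simp
    refine ⟨κ, c' / 2, ε, by positivity, hεpos, fun h h0 hch => ?_⟩
    have hpos : ∀ l, 0 < ‖h l‖ := fun l => norm_pos_iff.mpr (h0 l).1
    have hle1 : ∀ l, ‖h l‖ ≤ 1 := fun l => (h0 l).2.le.trans hε1'
    set h' : Fin m → ℂ := fun l => h l.castSucc with hh'
    set s : ℂ := h (Fin.last m) with hs
    set Pr : ℝ := ∏ l : Fin m, ‖h l.castSucc‖ with hPr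
    have hPr0 : 0 < Pr := Finset.prod_pos fun l _ => hpos _
    have hPr1 : Pr ≤ 1 := Finset.prod_le_one (fun l _ => (hpos _).le) fun l _ => hle1 _
    have hs0 : 0 < ‖s‖ := hpos _
    have hs1 : ‖s‖ ≤ 1 := hle1 _
    have e1 : c' * Pr ^ κ' ≤ ‖G (fun l => w' l + h' l)‖ := by
      refine hlow h' (fun l => ⟨(h0 _).1, (h0 _).2.trans_le hεε'⟩) fun l l' hl => ?_
      refine (hch l.castSucc l'.castSucc (by simpa using hl)).trans ?_
      exact pow_le_pow_of_le_one (hpos _).le (hle1 _) (by omega)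
    have e2 := hest (fun l => w' l + h' l) s (fun l => by
      rw [add_sub_cancel_left]
      exact (h0 _).2.trans_le hεε1) ((h0 _).2.trans_le hεε1)
    have e3 : (Fin.snoc (fun l => w' l + h' l) (t0 + s) : Fin (m + 1) → ℂ) =
        fun l => w l + h l := by
      funext l
      refine Fin.lastCases ?_ (fun i => ?_) l
      · rw [Fin.snoc_last]
      · rw [Fin.snoc_castSucc]
        rfl
    rw [e3] at e2
    have e4 : ‖s‖ ≤ ε * Pr ^ κ' := hid_prod m κ κ' hκ2 ε hε1' h h0 hch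
    have e5 : M * ‖s‖ ≤ c' / 2 * Pr ^ κ' := by
      calc M * ‖s‖ ≤ M * (ε * Pr ^ κ') := mul_le_mul_of_nonneg_left e4 hM
        _ = M * ε * Pr ^ κ' := by ring
        _ ≤ c' / 2 * Pr ^ κ' := mul_le_mul_of_nonneg_right hMε (by positivity)
    have e6 : ‖G (fun l => w' l + h' l) * s ^ a‖ - M * ‖s‖ ^ (a + 1) ≤
        ‖F (fun l => w l + h l)‖ := by
      have h7 := norm_sub_norm_le (G (fun l => w' l + h' l) * s ^ a) (F (fun l => w l + h l))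
      rw [norm_sub_rev] at h7
      linarith
    rw [norm_mul, norm_pow] at e6
    rw [Fin.prod_univ_castSucc]
    have e7 : Pr ^ κ ≤ Pr ^ κ' := pow_le_pow_of_le_one hPr0.le hPr1 (by omega)
    have e8 : ‖s‖ ^ κ ≤ ‖s‖ ^ a := pow_le_pow_of_le_one hs0.le hs1 (by omega)
    calc c' / 2 * (Pr * ‖s‖) ^ κ = c' / 2 * (Pr ^ κ * ‖s‖ ^ κ) := by rw [mul_pow]
      _ ≤ c' / 2 * (Pr ^ κ' * ‖s‖ ^ a) := by
        refine mul_le_mul_of_nonneg_left ?_ (by positivity)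
        exact mul_le_mul e7 e8 (by positivity) (by positivity)
      _ = ‖s‖ ^ a * (c' * Pr ^ κ' - c' / 2 * Pr ^ κ') := by ring
      _ ≤ ‖s‖ ^ a * (‖G (fun l => w' l + h' l)‖ - M * ‖s‖) := by
        refine mul_le_mul_of_nonneg_left ?_ (by positivity)
        linarith
      _ = ‖G (fun l => w' l + h' l)‖ * ‖s‖ ^ a - M * ‖s‖ ^ (a + 1) := by ring
      _ ≤ _ := e6

theorem qhid (m : ℕ) (F : (Fin m → ℂ) → ℂ) (w : Fin m → ℂ) (hF : AnalyticAt ℂ F w)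
    (h : ∀ (C : ℕ) (ε : ℝ), 0 < ε → ∃ r : Fin m → ℂ, (∀ l, r l ≠ w l) ∧
      (∀ l, ‖r l - w l‖ < ε) ∧
      (∀ l l' : Fin m, (l' : ℕ) = (l : ℕ) + 1 → ‖r l' - w l'‖ ≤ ‖r l - w l‖ ^ C) ∧ F r = 0) :
    ∀ᶠ x in 𝓝 w, F x = 0 := by
  by_contra hne
  obtain ⟨κ, c, ε, hc, hε, hlow⟩ := qhid_low m F w hF hne
  obtain ⟨r, h1, h2, h3, h4⟩ := h κ ε hε
  have h5 := hlow (fun l => r l - w l) (fun l => ⟨sub_ne_zero.mpr (h1 l), h2 l⟩) h3
  have h6 : (fun l => w l + (r l - w l)) = r := by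
    funext l
    ring
  rw [h6, h4, norm_zero] at h5
  have h7 : 0 < ∏ l, ‖r l - w l‖ :=
    Finset.prod_pos fun l _ => norm_pos_iff.mpr (sub_ne_zero.mpr (h1 l))
  have h8 : 0 < c * (∏ l, ‖r l - w l‖) ^ κ := by positivity
  exact absurd h8 (not_lt.mpr h5)

end Pool.Agent.Lib.MP5e
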