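import Pool.Agent.Lib.MP_5e64e7_nt.OStep

set_option autoImplicit false

/-!
# O.ONE : functional independence (about 200 lines)

Claim, by induction on the cardinality of `S : Finset (Fin n)`: if `P` involves only the variables `none` and
`some (l, i)` with `l ∈ S` (`∀ v ∈ P.vars, v = none ∨ ∃ l ∈ S, ∃ i, v = some (l, i)`) and
`P (u, J(φ_l u)) = 0` for `u` near `w`, then `P = 0`.
* `S = ∅` : `P` is a polynomial in the single variable `none` with infinitely many zeros
(`P = rename (fun _ : Unit => none) Q`, `MvPolynomial.exists_rename_eq_of_vars_subset_range`).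
* `S` nonempty: `k, t0` from `ohit`. Write `P = ∑_{α ∈ T} c_α ∏_i X_{(k,i)}^(α_i)` with polynomials `c_α` in the
remaining variables (for example through `MvPolynomial.sumAlgEquiv` for the partition of the variables into
`{some (k, i)} ≃ Fin 3` and the rest, cf. `MainE`, `MainG` in `Main.lean`; or: for each monomial `s` of `P` let
`α_i = s (some (k,i))`, `T` = the set of all these `α`, `c_α` = the sum of the monomials of `P` with this `α`, with the
exponents of the variables `some (k, i)` erased). The functions `u ↦ c_α (u, J(φ_l u))` are analytic where `him (g l) u > 0`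
for all `l ∈ S`, `l ≠ k` (`him_ne`, `him_eq`, `J4_analyticAt`; the polynomials involve no other `l`). By `ostep` they
vanish near `w`, by the induction hypothesis for `S.erase k` all `c_α` are zero, so `P = 0`.
-/

noncomputable section

namespace Pool.Agent.Lib.MP5e

open Polynomial Topology

/-- the point of evaluation -/
private def oneE {n : ℕ} (g : Fin n → Matrix (Fin 2) (Fin 2) ℂ) (S : Finset (Fin n)) (u : ℂ) :
    Option ({l // l ∈ S} × Fin 3) → ℂ :=
  fun v => v.elim u fun p => J4 (mob (g p.1.1) u) p.2.succ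

/-- separation of the variables of index `k` -/
private def oneI {n : ℕ} (S : Finset (Fin n)) (k : Fin n) :
    Option ({l // l ∈ S} × Fin 3) → Fin 3 ⊕ Option ({l // l ∈ S.erase k} × Fin 3)
  | none => Sum.inr none
  | some p => if h : p.1.1 = k then Sum.inl p.2 else
      Sum.inr (some (⟨p.1.1, Finset.mem_erase.mpr ⟨h, p.1.2⟩⟩, p.2))

private lemma oneI_inj {n : ℕ} (S : Finset (Fin n)) (k : Fin n) :
    Function.Injective (oneI S k) := by
  rintro (_ | ⟨⟨l, hl⟩, i⟩) (_ | ⟨⟨l', hl'⟩, i'⟩) h
  · rfl
  · exfalso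
    simp only [oneI] at h
    split_ifs at h
    exact absurd h (by simp)
  · exfalso
    simp only [oneI] at h
    split_ifs at h
    exact absurd h (by simp)
  · simp only [oneI] at h
    split_ifs at h with h1 h2 h2
    · have h3 := Sum.inl.inj h
      have h4 : l = l' := h1.trans h2.symm
      subst h4
      rw [h3]
    · have h3 := Option.some.inj (Sum.inr.inj h)
      have h4 := congrArg Prod.fst h3
      have h5 := congrArg Prod.snd h3
      have h6 : l = l' := congrArg Subtype.val h4
      subst h6
      have h7 : i = i' := h5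
      rw [h7]

private def oneG {n : ℕ} (S : Finset (Fin n)) (k : Fin n)
    (P : MvPolynomial (Option ({l // l ∈ S} × Fin 3)) ℂ) :
    MvPolynomial (Fin 3) (MvPolynomial (Option ({l // l ∈ S.erase k} × Fin 3)) ℂ) :=
  MvPolynomial.sumRingEquiv ℂ (Fin 3) (Option ({l // l ∈ S.erase k} × Fin 3))
      (MvPolynomial.rename (oneI S k) P)

private lemma oneG_ne {n : ℕ} (S : Finset (Fin n)) (k : Fin n)
    (P : MvPolynomial (Option ({l // l ∈ S} × Fin 3)) ℂ) (h : oneG S k P = 0) : P = 0 := by
  unfold oneG at h
  rw [map_eq_zero_iff _ (RingEquiv.injective _),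
    map_eq_zero_iff _ (MvPolynomial.rename_injective _ (oneI_inj S k))] at h
  exact h

private lemma oneG_eval {n : ℕ} (g : Fin n → Matrix (Fin 2) (Fin 2) ℂ) (S : Finset (Fin n))
    (k : Fin n) (P : MvPolynomial (Option ({l // l ∈ S} × Fin 3)) ℂ) (u : ℂ) :
    MvPolynomial.eval₂ (MvPolynomial.eval (oneE g (S.erase k) u))
      (fun i : Fin 3 => J4 (mob (g k) u) i.succ) (oneG S k P) =
      MvPolynomial.eval (oneE g S u) P := by
  unfold oneG
  induction P using MvPolynomial.induction_on with
  | C a => simp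
  | add p q hp hq =>
    simp only [map_add, MvPolynomial.eval₂_add] at hp hq ⊢
    rw [hp, hq]
  | mul_X p i hp =>
    simp only [map_mul, MvPolynomial.rename_X, MvPolynomial.eval₂_mul] at hp ⊢
    rw [hp, MvPolynomial.eval_X]
    congr 1
    rcases i with _ | ⟨⟨l, hl⟩, i⟩
    · simp only [oneI]
      rw [MvPolynomial.sumRingEquiv_X_inr, MvPolynomial.eval₂_C, MvPolynomial.eval_X]
      rfl
    · simp only [oneI]
      split_ifs with h1
      · rw [MvPolynomial.sumRingEquiv_X_inl, MvPolynomial.eval₂_X]
        subst h1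
        rfl
      · rw [MvPolynomial.sumRingEquiv_X_inr, MvPolynomial.eval₂_C, MvPolynomial.eval_X]
        rfl

private lemma one_mob (g : Matrix (Fin 2) (Fin 2) ℂ) {u : ℂ} (h : 0 < him g u) :
    0 < (mob g u).im ∧ AnalyticAt ℂ (mob g) u := by
  have h1 := him_ne g h.ne'
  refine ⟨?_, ?_⟩
  · rw [him_eq g h1] at h
    exact pos_of_mul_pos_right h (by positivity)
  · unfold mob
    exact ((analyticAt_const.mul analyticAt_id).add analyticAt_const).div
      ((analyticAt_const.mul analyticAt_id).add analyticAt_const) h1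

private lemma one_an {n : ℕ} (g : Fin n → Matrix (Fin 2) (Fin 2) ℂ) (S : Finset (Fin n))
    (P : MvPolynomial (Option ({l // l ∈ S} × Fin 3)) ℂ) {u : ℂ}
    (hu : ∀ l ∈ S, 0 < him (g l) u) :
    AnalyticAt ℂ (fun z => MvPolynomial.eval (oneE g S z) P) u := by
  induction P using MvPolynomial.induction_on with
  | C a =>
    simp only [MvPolynomial.eval_C]
    exact analyticAt_const
  | add p q hp hq =>
    simp only [map_add]
    exact hp.add hq
  | mul_X p v hp =>
    simp only [map_mul, MvPolynomial.eval_X]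
    refine hp.mul ?_
    rcases v with _ | ⟨⟨l, hl⟩, i⟩
    · exact analyticAt_id
    · obtain ⟨h1, h2⟩ := one_mob (g l) (hu l hl)
      exact (J4_analyticAt h1 i.succ).comp h2

private lemma one_base {n : ℕ} (g : Fin n → Matrix (Fin 2) (Fin 2) ℂ)
    (w : ℂ) (P : MvPolynomial (Option ({l // l ∈ (∅ : Finset (Fin n))} × Fin 3)) ℂ)
    (hP : ∀ᶠ u in 𝓝 w, MvPolynomial.eval (oneE g ∅ u) P = 0) : P = 0 := by
  set e : Option ({l // l ∈ (∅ : Finset (Fin n))} × Fin 3) → ℂ[X] := fun _ => Polynomial.X with he
  have h1 : ∀ v : Option ({l // l ∈ (∅ : Finset (Fin n))} × Fin 3), v = none := by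
    rintro (_ | ⟨⟨l, hl⟩, i⟩)
    · rfl
    · exact absurd hl (Finset.notMem_empty l)
  have h2 : ∀ (Q : MvPolynomial (Option ({l // l ∈ (∅ : Finset (Fin n))} × Fin 3)) ℂ) (u : ℂ),
      (MvPolynomial.aeval e Q).eval u = MvPolynomial.eval (oneE g ∅ u) Q := by
    intro Q u
    induction Q using MvPolynomial.induction_on with
    | C a => simp
    | add p q hp hq =>
      rw [map_add, map_add, Polynomial.eval_add, hp, hq]
    | mul_X p i hp =>
      rw [map_mul, map_mul, Polynomial.eval_mul, hp, MvPolynomial.aeval_X, MvPolynomial.eval_X]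
      rw [he, Polynomial.eval_X, h1 i]
      rfl
  have h3 : ∀ (Q : MvPolynomial (Option ({l // l ∈ (∅ : Finset (Fin n))} × Fin 3)) ℂ),
      Polynomial.aeval (MvPolynomial.X none) (MvPolynomial.aeval e Q) = Q := by
    intro Q
    induction Q using MvPolynomial.induction_on with
    | C a => simp
    | add p q hp hq => rw [map_add, map_add, hp, hq]
    | mul_X p i hp =>
      rw [map_mul, map_mul, hp, MvPolynomial.aeval_X, he, Polynomial.aeval_X, h1 i]
  have h4 : MvPolynomial.aeval e P = 0 := by
    apply Polynomial.eq_zero_of_infinite_isRoot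
    have h5 : {u : ℂ | MvPolynomial.eval (oneE g ∅ u) P = 0} ∈ 𝓝 w := hP
    refine (infinite_of_mem_nhds w h5).mono fun u hu => ?_
    change Polynomial.eval u _ = 0
    rw [h2]
    exact hu
  rw [← h3 P, h4, map_zero]

private lemma one_ind (n : ℕ) (g : Fin n → Matrix (Fin 2) (Fin 2) ℂ) (hdet : ∀ k, (g k).det ≠ 0)
    (w : ℂ) (hw : ∀ k, 0 < him (g k) w)
    (hfin : ∀ k l, k ≠ l → {u : ℂ | him (g k) u = 0 ∧ him (g l) u = 0}.Finite) (m : ℕ) :
    ∀ S : Finset (Fin n), S.card = m →
    ∀ P : MvPolynomial (Option ({l // l ∈ S} × Fin 3)) ℂ,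
    (∀ᶠ u in 𝓝 w, MvPolynomial.eval (oneE g S u) P = 0) → P = 0 := by
  induction m with
  | zero =>
    intro S hS P hP
    obtain rfl := Finset.card_eq_zero.mp hS
    exact one_base g w P hP
  | succ m ih =>
    intro S hS P hP
    have hne : S.Nonempty := by
      rw [← Finset.card_pos]
      omega
    obtain ⟨k, hk, t0, h1, h2, h3, h4⟩ := ohit n g hdet S hne w (fun k _ => hw k)
      (fun k _ l _ hkl => hfin k l hkl)
    have hcard : (S.erase k).card = m := by
      rw [Finset.card_erase_of_mem hk, hS]
      rfl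
    set G := oneG S k P with hG
    have hst := ostep n g hdet S k hk w t0 h1 h2 h3 h4 G.support
      (fun α u => MvPolynomial.eval (oneE g (S.erase k) u) (G.coeff α))
      (fun α _ u hu => one_an g (S.erase k) (G.coeff α) (fun l hl =>
        hu l (Finset.mem_of_mem_erase hl) (Finset.ne_of_mem_erase hl)))
      (by
        filter_upwards [hP] with u hu
        rw [← oneG_eval g S k P u, MvPolynomial.eval₂_eq'] at hu
        exact hu)
    apply oneG_ne S k P
    rw [← hG]
    rw [MvPolynomial.eq_zero_iff]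
    intro α
    by_cases hα : α ∈ G.support
    · exact ih (S.erase k) hcard (G.coeff α) (hst α hα)
    · exact MvPolynomial.notMem_support_iff.mp hα

theorem oone (n : ℕ) (g : Fin n → Matrix (Fin 2) (Fin 2) ℂ) (hdet : ∀ k, (g k).det ≠ 0)
    (w : ℂ) (hw : ∀ k, 0 < him (g k) w)
    (hfin : ∀ k l, k ≠ l → {u : ℂ | him (g k) u = 0 ∧ him (g l) u = 0}.Finite)
    (P : MvPolynomial (Option (Fin n × Fin 3)) ℂ)
    (hP : ∀ᶠ u in 𝓝 w, MvPolynomial.eval (fun v : Option (Fin n × Fin 3) =>
      v.elim u fun p => J4 (mob (g p.1) u) p.2.succ) P = 0) : P = 0 := by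
  set e : Option (Fin n × Fin 3) → Option ({l // l ∈ (Finset.univ : Finset (Fin n))} × Fin 3) :=
    fun v => v.map fun p => (⟨p.1, Finset.mem_univ _⟩, p.2) with he
  have hinj : Function.Injective e := by
    rintro (_ | ⟨l, i⟩) (_ | ⟨l', i'⟩) h
    · rfl
    · exact absurd h (by simp [he])
    · exact absurd h (by simp [he])
    · have h3 := Option.some.inj h
      have h4 := congrArg (fun p => (p.1.1, p.2)) h3
      exact congrArg some h4
  have h1 := one_ind n g hdet w hw hfin _ Finset.univ rfl (MvPolynomial.rename e P) (by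
    filter_upwards [hP] with u hu
    rw [MvPolynomial.eval_rename]
    have h5 : oneE g Finset.univ u ∘ e = fun v : Option (Fin n × Fin 3) =>
        v.elim u fun p => J4 (mob (g p.1) u) p.2.succ := by
      funext v
      rcases v with _ | p
      · rfl
      · rfl
    rw [h5]
    exact hu)
  rw [map_eq_zero_iff _ (MvPolynomial.rename_injective _ hinj)] at h1
  exact h1

end Pool.Agent.Lib.MP5e
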