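import Pool.Agent.Lib.MP_5e64e7_nt.QTpt

set_option autoImplicit false

/-!
# Q.HT : the points at rational arguments
-/

noncomputable section

namespace Pool.Agent.Lib.MP5e

open Polynomial Topology

private theorem qht_conj_om (D : ℕ) : (starRingEnd ℂ) (qom D) = -qom D := by
  unfold qom
  rw [map_mul, Complex.conj_ofReal, Complex.conj_I]
  ring

private theorem qht_conj {m : ℕ} (D : ℕ) (p q : Option (Fin m) → ℚ) (x : Fin m → ℝ) :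
    qaf (-qom D) p q (fun l => (x l : ℂ)) =
      (starRingEnd ℂ) (qaf (qom D) p q (fun l => (x l : ℂ))) := by
  unfold qaf
  rw [map_add, map_add, map_mul, map_sum, qht_conj_om]
  have hr : ∀ r : ℚ, (starRingEnd ℂ) (r : ℂ) = (r : ℂ) := by
    intro r
    have : (r : ℂ) = ((r : ℝ) : ℂ) := by push_cast; rfl
    rw [this, Complex.conj_ofReal]
  rw [hr, hr]
  congr 1
  refine Finset.sum_congr rfl fun l _ => ?_
  rw [map_mul, map_add, map_mul, qht_conj_om, hr, hr, Complex.conj_ofReal]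

theorem qy_real {m : ℕ} (f : QF m) (x : Fin m → ℝ) :
    qy f (fun l => (x l : ℂ)) = ((qz f (fun l => (x l : ℂ))).im : ℂ) := by
  unfold qy
  have h1 : qNc f (fun l => (x l : ℂ)) / qEc f (fun l => (x l : ℂ)) =
      (starRingEnd ℂ) (qz f (fun l => (x l : ℂ))) := by
    unfold qNc qEc qz qN qE
    rw [qht_conj, qht_conj, map_div₀]
  rw [h1, Complex.sub_conj]
  have hI : (2 : ℂ) * Complex.I ≠ 0 := mul_ne_zero two_ne_zero Complex.I_ne_zero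
  rw [div_eq_iff hI]
  push_cast
  ring

private theorem qht_den {ι : Type*} [Fintype ι] (r : ι → ℚ) :
    ∃ D : ℕ, 1 ≤ D ∧ ∀ i, ∃ z : ℤ, (D : ℚ) * r i = z := by
  refine ⟨∏ i, (r i).den, ?_, fun i => ?_⟩
  · exact Nat.one_le_iff_ne_zero.mpr (Finset.prod_ne_zero_iff.mpr fun i _ => (r i).den_ne_zero)
  · obtain ⟨k, hk⟩ := Finset.dvd_prod_of_mem (fun i => (r i).den) (Finset.mem_univ i)
    refine ⟨k * (r i).num, ?_⟩
    have h := Rat.mul_den_eq_num (r i)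
    rw [hk]
    push_cast
    rw [← h]
    ring

/-- the sum `∑ z_l a_l ∏_{l' ≠ l} c_l' + z_∅ ∏ c` -/
private def qhtS {m : ℕ} (z : Option (Fin m) → ℤ) (a : Fin m → ℤ) (c : Fin m → ℕ) : ℤ :=
  (∑ l, z (some l) * (a l * ∏ l' ∈ Finset.univ.erase l, (c l' : ℤ))) + z none * ∏ l, (c l : ℤ)

private theorem qhtS_bd {m : ℕ} {H : ℤ} (z : Option (Fin m) → ℤ) (hz : ∀ i, |z i| ≤ H)
    {a : Fin m → ℤ} {c : Fin m → ℕ} {B : ℕ} (hB : 1 ≤ B)
    (h : ∀ l, 1 ≤ c l ∧ c l ≤ B ∧ |a l| ≤ (B : ℤ)) :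
    |qhtS z a c| ≤ ((m : ℤ) + 1) * H * (B : ℤ) ^ m := by
  have hH : 0 ≤ H := le_trans (abs_nonneg _) (hz none)
  have hB' : (1 : ℤ) ≤ (B : ℤ) := by exact_mod_cast hB
  have hc : ∀ l, |((c l : ℕ) : ℤ)| ≤ (B : ℤ) := fun l => by
    rw [abs_of_nonneg (Int.natCast_nonneg _)]
    exact_mod_cast (h l).2.1
  have h1 : |∏ l, (c l : ℤ)| ≤ (B : ℤ) ^ m := by
    rw [Finset.abs_prod]
    calc ∏ l, |(c l : ℤ)| ≤ ∏ _l : Fin m, (B : ℤ) :=
          Finset.prod_le_prod (fun _ _ => abs_nonneg _) fun l _ => hc l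
      _ = (B : ℤ) ^ m := by rw [Finset.prod_const, Finset.card_univ, Fintype.card_fin]
  have h2 : ∀ l, |a l * ∏ l' ∈ Finset.univ.erase l, (c l' : ℤ)| ≤ (B : ℤ) ^ m := by
    intro l
    rw [abs_mul, Finset.abs_prod]
    calc |a l| * ∏ l' ∈ Finset.univ.erase l, |(c l' : ℤ)|
        ≤ (B : ℤ) * ∏ _l' ∈ Finset.univ.erase l, (B : ℤ) :=
          mul_le_mul (h l).2.2 (Finset.prod_le_prod (fun _ _ => abs_nonneg _) fun l' _ => hc l')
            (Finset.prod_nonneg fun _ _ => abs_nonneg _) (by linarith)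
      _ = (B : ℤ) ^ m := by
          rw [Finset.mul_prod_erase Finset.univ (fun _ => (B : ℤ)) (Finset.mem_univ l),
            Finset.prod_const, Finset.card_univ, Fintype.card_fin]
  unfold qhtS
  have h3 : |∑ l, z (some l) * (a l * ∏ l' ∈ Finset.univ.erase l, (c l' : ℤ))| ≤
      (m : ℤ) * (H * (B : ℤ) ^ m) := by
    refine le_trans (Finset.abs_sum_le_sum_abs _ _) ?_
    calc ∑ l, |z (some l) * (a l * ∏ l' ∈ Finset.univ.erase l, (c l' : ℤ))|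
        ≤ ∑ _l : Fin m, H * (B : ℤ) ^ m := by
          refine Finset.sum_le_sum fun l _ => ?_
          rw [abs_mul]
          exact mul_le_mul (hz _) (h2 l) (abs_nonneg _) hH
      _ = (m : ℤ) * (H * (B : ℤ) ^ m) := by
          rw [Finset.sum_const, Finset.card_univ, Fintype.card_fin, nsmul_eq_mul]
  have h4 : |z none * ∏ l, (c l : ℤ)| ≤ H * (B : ℤ) ^ m := by
    rw [abs_mul]
    exact mul_le_mul (hz _) h1 (abs_nonneg _) hH
  calc _ ≤ |∑ l, z (some l) * (a l * ∏ l' ∈ Finset.univ.erase l, (c l' : ℤ))| +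
        |z none * ∏ l, (c l : ℤ)| := abs_add_le _ _
    _ ≤ (m : ℤ) * (H * (B : ℤ) ^ m) + H * (B : ℤ) ^ m := add_le_add h3 h4
    _ = _ := by ring

private theorem qhtS_eq {m : ℕ} {H : ℕ} {ω : ℂ} {p q : Option (Fin m) → ℚ}
    {u v : Option (Fin m) → ℤ} (hu : ∀ i, (H : ℚ) * p i = u i) (hv : ∀ i, (H : ℚ) * q i = v i)
    {a : Fin m → ℤ} {c : Fin m → ℕ} (hc : ∀ l, 1 ≤ c l) :
    ((H : ℂ) * ((∏ l, (c l : ℤ) : ℤ) : ℂ)) * qaf ω p q (fun l => ((a l : ℂ) / (c l : ℂ))) =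
      (qhtS u a c : ℂ) + (qhtS v a c : ℂ) * ω := by
  have hu' : ∀ i, (H : ℂ) * (p i : ℂ) = (u i : ℂ) := fun i => by exact_mod_cast hu i
  have hv' : ∀ i, (H : ℂ) * (q i : ℂ) = (v i : ℂ) := fun i => by exact_mod_cast hv i
  have hcl : ∀ l, ((c l : ℕ) : ℂ) ≠ 0 := fun l => by
    have : c l ≠ 0 := by have := hc l; omega
    exact_mod_cast this
  have key : ∀ l, ((∏ l, (c l : ℤ) : ℤ) : ℂ) * ((a l : ℂ) / (c l : ℂ)) =
      ((a l * ∏ l' ∈ Finset.univ.erase l, (c l' : ℤ) : ℤ) : ℂ) := by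
    intro l
    rw [← Finset.mul_prod_erase Finset.univ (fun l => (c l : ℤ)) (Finset.mem_univ l)]
    have := hcl l
    push_cast
    field_simp
  unfold qaf qhtS
  rw [mul_add, Finset.mul_sum]
  have e1 : ∀ l, (H : ℂ) * ((∏ l, (c l : ℤ) : ℤ) : ℂ) *
      (((p (some l) : ℂ) + (q (some l) : ℂ) * ω) * ((a l : ℂ) / (c l : ℂ))) =
      (u (some l) : ℂ) * ((a l * ∏ l' ∈ Finset.univ.erase l, (c l' : ℤ) : ℤ) : ℂ) +
        (v (some l) : ℂ) * ((a l * ∏ l' ∈ Finset.univ.erase l, (c l' : ℤ) : ℤ) : ℂ) * ω := by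
    intro l
    rw [← key l, ← hu', ← hv']
    ring
  rw [Finset.sum_congr rfl fun l _ => e1 l, Finset.sum_add_distrib, ← Finset.sum_mul]
  have e2 : (H : ℂ) * ((∏ l, (c l : ℤ) : ℤ) : ℂ) * ((p none : ℂ) + (q none : ℂ) * ω) =
      (u none : ℂ) * ((∏ l, (c l : ℤ) : ℤ) : ℂ) + (v none : ℂ) * ((∏ l, (c l : ℤ) : ℤ) : ℂ) * ω := by
    rw [← hu', ← hv']
    ring
  rw [e2]
  push_cast
  ring

private theorem qht_int {m : ℕ} (p q : Option (Fin m) → ℚ) (r s : Option (Fin m) → ℚ) :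
    ∃ (H H' : ℕ) (u v u' v' : Option (Fin m) → ℤ), 1 ≤ H ∧
      (∀ i, (H : ℚ) * p i = u i) ∧ (∀ i, (H : ℚ) * q i = v i) ∧
      (∀ i, (H : ℚ) * r i = u' i) ∧ (∀ i, (H : ℚ) * s i = v' i) ∧
      (∀ i, |u i| ≤ (H' : ℤ)) ∧ (∀ i, |v i| ≤ (H' : ℤ)) ∧
      (∀ i, |u' i| ≤ (H' : ℤ)) ∧ (∀ i, |v' i| ≤ (H' : ℤ)) := by
  obtain ⟨H, hH, h⟩ := qht_den (fun k : Option (Fin m) × Fin 4 => ![p k.1, q k.1, r k.1, s k.1] k.2)
  choose z hz using h
  have hle : ∀ k, |z k| ≤ ((∑ k, (z k).natAbs : ℕ) : ℤ) := by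
    intro k
    have h1 : (z k).natAbs ≤ ∑ k, (z k).natAbs :=
      Finset.single_le_sum (f := fun k => (z k).natAbs) (fun _ _ => Nat.zero_le _)
        (Finset.mem_univ k)
    rw [Int.abs_eq_natAbs]
    exact_mod_cast h1
  refine ⟨H, ∑ k, (z k).natAbs, fun i => z (i, 0), fun i => z (i, 1), fun i => z (i, 2),
    fun i => z (i, 3), hH, fun i => hz (i, 0), fun i => hz (i, 1), fun i => hz (i, 2),
    fun i => hz (i, 3), fun i => hle _, fun i => hle _, fun i => hle _, fun i => hle _⟩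

private theorem qht_bd2 {a b c d M : ℤ} (ha : |a| ≤ M) (hb : |b| ≤ M)
    (hc : |c| ≤ M) (hd : |d| ≤ M) : |a * b + c * d| ≤ 2 * (M * M) := by
  have hM : 0 ≤ M := le_trans (abs_nonneg _) ha
  have h1 : |a * b| ≤ M * M := by
    rw [abs_mul]; exact mul_le_mul ha hb (abs_nonneg _) hM
  have h2 : |c * d| ≤ M * M := by
    rw [abs_mul]; exact mul_le_mul hc hd (abs_nonneg _) hM
  have h3 := abs_add_le (a * b) (c * d)
  linarith

private theorem qht_bd3 {D a b c d M : ℤ} (hD : 1 ≤ D) (ha : |a| ≤ M) (hb : |b| ≤ M)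
    (hc : |c| ≤ M) (hd : |d| ≤ M) : |a * b + D * (c * d)| ≤ 2 * D * (M * M) := by
  have hM : 0 ≤ M := le_trans (abs_nonneg _) ha
  have h1 : |a * b| ≤ M * M := by
    rw [abs_mul]; exact mul_le_mul ha hb (abs_nonneg _) hM
  have h2 : |c * d| ≤ M * M := by
    rw [abs_mul]; exact mul_le_mul hc hd (abs_nonneg _) hM
  have h3 := abs_add_le (a * b) (D * (c * d))
  have h4 : |D * (c * d)| ≤ D * (M * M) := by
    rw [abs_mul, abs_of_nonneg (by linarith : (0 : ℤ) ≤ D)]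
    exact mul_le_mul_of_nonneg_left h2 (by linarith)
  have h5 : M * M ≤ D * (M * M) := by nlinarith [mul_nonneg hM hM]
  linarith

theorem qht {m : ℕ} (f : QF m) (hD : 1 ≤ f.D) : ∃ h : ℕ, ∀ (B : ℕ) (a : Fin m → ℤ)
    (c : Fin m → ℕ), 2 ≤ B → (∀ l, 1 ≤ c l ∧ c l ≤ B ∧ |a l| ≤ (B : ℤ)) →
    0 < (qz f (fun l => ((a l : ℂ) / (c l : ℂ)))).im →
    ∃ (c' : ℕ) (x' y' : ℤ), 1 ≤ c' ∧ c' ≤ B ^ h ∧ |x'| ≤ ((B ^ h : ℕ) : ℤ) ∧ 0 < y' ∧
      y' ≤ ((B ^ h : ℕ) : ℤ) ∧ qz f (fun l => ((a l : ℂ) / (c l : ℂ))) = qgr f.D x' y' c' := by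
  obtain ⟨H, H', u, v, u', v', hH, hu, hv, hu', hv', bu, bv, bu', bv'⟩ :=
    qht_int f.p f.q f.r f.s
  refine ⟨2 * f.D * ((m + 1) * H') ^ 2 + 2 * m, fun B a c hB hac him => ?_⟩
  have hB1 : 1 ≤ B := by omega
  have hc : ∀ l, 1 ≤ c l := fun l => (hac l).1
  set M : ℤ := ((m : ℤ) + 1) * (H' : ℤ) * (B : ℤ) ^ m with hM
  obtain ⟨U1, hU1⟩ : ∃ z : ℤ, z = qhtS u a c := ⟨_, rfl⟩
  obtain ⟨U2, hU2⟩ : ∃ z : ℤ, z = qhtS v a c := ⟨_, rfl⟩
  obtain ⟨V1, hV1⟩ : ∃ z : ℤ, z = qhtS u' a c := ⟨_, rfl⟩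
  obtain ⟨V2, hV2⟩ : ∃ z : ℤ, z = qhtS v' a c := ⟨_, rfl⟩
  have bU1 : |U1| ≤ M := hU1 ▸ qhtS_bd u bu hB1 hac
  have bU2 : |U2| ≤ M := hU2 ▸ qhtS_bd v bv hB1 hac
  have bV1 : |V1| ≤ M := hV1 ▸ qhtS_bd u' bu' hB1 hac
  have bV2 : |V2| ≤ M := hV2 ▸ qhtS_bd v' bv' hB1 hac
  have bU1n : |(-U1)| ≤ M := by rw [abs_neg]; exact bU1
  have rU : ((H : ℂ) * ((∏ l, (c l : ℤ) : ℤ) : ℂ)) * qN f (fun l => ((a l : ℂ) / (c l : ℂ))) =
      (U1 : ℂ) + (U2 : ℂ) * qom f.D := by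
    rw [hU1, hU2]
    exact qhtS_eq hu hv hc
  have rV : ((H : ℂ) * ((∏ l, (c l : ℤ) : ℤ) : ℂ)) * qE f (fun l => ((a l : ℂ) / (c l : ℂ))) =
      (V1 : ℂ) + (V2 : ℂ) * qom f.D := by
    rw [hV1, hV2]
    exact qhtS_eq hu' hv' hc
  have hHc : (H : ℂ) * ((∏ l, (c l : ℤ) : ℤ) : ℂ) ≠ 0 := by
    have h1 : (H : ℂ) ≠ 0 := by exact_mod_cast (by omega : H ≠ 0)
    have h2 : (∏ l, (c l : ℤ) : ℤ) ≠ 0 := Finset.prod_ne_zero_iff.mpr fun l _ => by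
      have := hc l
      exact_mod_cast (by omega : c l ≠ 0)
    exact mul_ne_zero h1 (by exact_mod_cast h2)
  have hm : qz f (fun l => ((a l : ℂ) / (c l : ℂ))) =
      ((U1 : ℂ) + (U2 : ℂ) * qom f.D) / ((V1 : ℂ) + (V2 : ℂ) * qom f.D) := by
    unfold qz
    rw [← rU, ← rV, mul_div_mul_left _ _ hHc]
  have hDz : (1 : ℤ) ≤ (f.D : ℤ) := by exact_mod_cast hD
  have hom := qom_sq f.D
  have hV : V1 * V1 + (f.D : ℤ) * (V2 * V2) ≠ 0 := by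
    intro h0
    have h1 : V1 = 0 := by
      have h5 := mul_self_nonneg V1
      have h6 := mul_nonneg (by linarith : (0 : ℤ) ≤ (f.D : ℤ)) (mul_self_nonneg V2)
      exact mul_self_eq_zero.mp (by linarith)
    have h2 : V2 = 0 := by
      rw [h1] at h0
      have h3 : (f.D : ℤ) * (V2 * V2) = 0 := by linarith
      rcases mul_eq_zero.mp h3 with h4 | h4
      · omega
      · exact mul_self_eq_zero.mp h4
    rw [hm, h1, h2] at him
    simp at him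
  have hVpos : 0 < V1 * V1 + (f.D : ℤ) * (V2 * V2) := by
    refine lt_of_le_of_ne ?_ (Ne.symm hV)
    have h1 := mul_self_nonneg V1
    have h2 := mul_nonneg (by linarith : (0 : ℤ) ≤ (f.D : ℤ)) (mul_self_nonneg V2)
    linarith
  obtain ⟨c', hc'e⟩ := Int.eq_ofNat_of_zero_le hVpos.le
  have hc'1 : 1 ≤ c' := by omega
  have hbig : ∀ z : ℤ, z ≤ 2 * (f.D : ℤ) * (M * M) →
      z ≤ ((B ^ (2 * f.D * ((m + 1) * H') ^ 2 + 2 * m) : ℕ) : ℤ) := by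
    intro z hz
    have h1 : 2 * f.D * ((m + 1) * H') ^ 2 * B ^ (2 * m) ≤
        B ^ (2 * f.D * ((m + 1) * H') ^ 2 + 2 * m) := by
      rw [pow_add]
      refine Nat.mul_le_mul_right _ ?_
      exact le_trans (Nat.lt_two_pow_self).le (Nat.pow_le_pow_left hB _)
    have h2 : ((2 * f.D * ((m + 1) * H') ^ 2 * B ^ (2 * m) : ℕ) : ℤ) ≤
        ((B ^ (2 * f.D * ((m + 1) * H') ^ 2 + 2 * m) : ℕ) : ℤ) := by
      exact_mod_cast h1
    refine le_trans (le_trans hz (le_of_eq ?_)) h2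
    rw [hM]
    push_cast
    ring
  have hMM : 0 ≤ M * M := mul_self_nonneg M
  have hbig2 : ∀ z : ℤ, z ≤ 2 * (M * M) →
      z ≤ ((B ^ (2 * f.D * ((m + 1) * H') ^ 2 + 2 * m) : ℕ) : ℤ) := by
    intro z hz
    refine hbig z (le_trans hz ?_)
    nlinarith
  have hgr : qz f (fun l => ((a l : ℂ) / (c l : ℂ))) =
      qgr f.D (U1 * V1 + (f.D : ℤ) * (U2 * V2)) (U2 * V1 + (-U1) * V2) c' := by
    rw [hm]
    unfold qgr
    have h1 : (c' : ℂ) = (V1 : ℂ) * V1 + (f.D : ℂ) * ((V2 : ℂ) * V2) := by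
      have : ((c' : ℤ) : ℂ) = ((V1 * V1 + (f.D : ℤ) * (V2 * V2) : ℤ) : ℂ) := by rw [hc'e]
      push_cast at this
      exact this
    have h2 : (c' : ℂ) ≠ 0 := by exact_mod_cast (by omega : c' ≠ 0)
    have h3 : ((V1 : ℂ) + (V2 : ℂ) * qom f.D) * ((V1 : ℂ) - (V2 : ℂ) * qom f.D) = (c' : ℂ) := by
      rw [h1]
      linear_combination (-(V2 : ℂ) ^ 2) * hom
    have h4 : (V1 : ℂ) + (V2 : ℂ) * qom f.D ≠ 0 := by
      intro h5
      rw [h5, zero_mul] at h3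
      exact h2 h3.symm
    rw [div_eq_div_iff h4 h2]
    rw [← h3]
    push_cast
    linear_combination (-(U2 : ℂ) * V2 * ((V1 : ℂ) + (V2 : ℂ) * qom f.D)) * hom
  have him' : (0 : ℝ) < ((U2 * V1 + (-U1) * V2 : ℤ) : ℝ) * Real.sqrt (f.D : ℝ) / (c' : ℝ) := by
    have h1 : (qgr f.D (U1 * V1 + (f.D : ℤ) * (U2 * V2)) (U2 * V1 + (-U1) * V2) c').im =
        ((U2 * V1 + (-U1) * V2 : ℤ) : ℝ) * Real.sqrt (f.D : ℝ) / (c' : ℝ) := by
      unfold qgr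
      rw [Complex.div_natCast_im]
      congr 1
      rw [Complex.add_im, Complex.intCast_im, zero_add, Complex.mul_im, Complex.intCast_im,
        zero_mul, add_zero, Complex.intCast_re, qom_im]
    rw [← h1, ← hgr]
    exact him
  have hcp : (0 : ℝ) < (c' : ℝ) := by exact_mod_cast hc'1
  have hDs : (0 : ℝ) < Real.sqrt (f.D : ℝ) := Real.sqrt_pos.mpr (by exact_mod_cast hD)
  have hy' : 0 < U2 * V1 + (-U1) * V2 := by
    have h1 := (div_pos_iff_of_pos_right hcp).mp him'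
    have h2 := (mul_pos_iff_of_pos_right hDs).mp h1
    exact_mod_cast h2
  refine ⟨c', U1 * V1 + (f.D : ℤ) * (U2 * V2), U2 * V1 + (-U1) * V2, hc'1, ?_, ?_, hy', ?_, hgr⟩
  · have h1 : ((c' : ℕ) : ℤ) ≤ ((B ^ (2 * f.D * ((m + 1) * H') ^ 2 + 2 * m) : ℕ) : ℤ) := by
      refine hbig _ ?_
      have h2 : (c' : ℤ) = V1 * V1 + (f.D : ℤ) * (V2 * V2) := hc'e.symm
      rw [h2]
      exact le_trans (le_abs_self _) (qht_bd3 hDz bV1 bV1 bV2 bV2)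
    exact_mod_cast h1
  · exact hbig _ (qht_bd3 hDz bU1 bV1 bU2 bV2)
  · exact hbig2 _ (le_trans (le_abs_self _) (qht_bd2 bU2 bV1 bU1n bV2))

end Pool.Agent.Lib.MP5e
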