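import Pool.Agent.Lib.MP_5e64e7_nt.QClr
import Pool.Agent.Lib.MP_5e64e7_nt.QHt
import Pool.Agent.Lib.MP_5e64e7_nt.QVal
import Pool.Agent.Lib.MP_5e64e7_nt.OOne

set_option autoImplicit false

/-!
# Q.FUN : the functions `qfam f 𝓛` are algebraically independent over `ℂ` 

`qN, qE, qNc, qEc` are affine functions of `x` (continuous, analytic). At the real point `w`: `qE f w ≠ 0` (otherwise
`qz = 0`), `qEc f w = conj (qE f w) ≠ 0`, `qy f w = Im z > 0` (`qy_real`). So on a neighbourhood `V` of `w` : `qE ≠ 0`,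
`qEc ≠ 0`, `Im (qz f x) > 0`, `qy f x ≠ 0`, and `qfam f 𝓛` is analytic (`qfam_analytic`; `J4_analyticAt` for the `j`'s).

`qfun` : let `v` be the direction from `QDir`, and let `x ∈ V` be in the neighbourhood of `QDir` and such that
`P (qfam f 𝓛 y) = 0` for `y` near `x`. Claim: `MvPolynomial.eval (Sum.elim x e) P = 0` for all `e : Fin n × Fin 3 → ℂ`.
Let `g_k = qG (f k) x v`, `mob (g_k) t = qz (f k) (x + t v)` (`qN f (x + t v) = qli v · t + qN f x`, also for `qE`),
`him (g_k) 0 = ‖qE‖² Im (qz f x) > 0` (`him_eq`). With `Δ_k(t) = (qN qEc - qNc qE)(x + t v)`, a polynomial in `t`,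
`qy = Δ_k/(2i qE qEc)`, so `i/qy = -2 qE qEc/Δ_k` and `Δ_k(0) ≠ 0`. The variables of `P` at `x + t v` are
`x_l + t v_l`, `J_{k,0}`, `J_{k,1}/c_k`, `(J_{k,2} + 2 (qE qEc)(t) J_{k,1}/Δ_k(t))/c_k²`, `c_k = 2πi ℓ_k ≠ 0`
(`J_{k,i} = J4 (mob g_k t) i.succ`). All are polynomials in the variables `t` (`none`) and `J_{k,i}` (`some (k,i)`),
divided by the common denominator `D = ∏_k Δ_k(t)` (`N v` = the numerator, e.g. `(x_l + t v_l) D` and, for `(k, 2)`,
`(J_{k,2} Δ_k + 2 qE qEc J_{k,1}) ∏_{k'≠k} Δ_{k'} / c_k²`). By `qclr` there is a polynomial `Q` in these variables with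
`Q (t, J) = D(t)^M P(...)`. It vanishes for `t` near `0` at `J = J4 (mob g_k t)`, so `Q = 0` by `oone` (`w = 0`; the
hypotheses from `QDir`). Now put `t = 0` and let `J` be arbitrary: `D(0) ≠ 0`, so `P (x, J_{k,0}, J_{k,1}/c_k,
(J_{k,2} + 2 qE qEc J_{k,1}/Δ_k)/c_k²) = 0`, and this triangular substitution is onto: this is the claim.
Finally `P = 0`: the points `(x, e)` contain a product of infinite sets (`x` in a ball of the sup norm around `w`), use
`MvPolynomial.funext_set` (or `MvPolynomial.zero_of_eval_zero_at_prod...`), or an own induction.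
-/

noncomputable section

namespace Pool.Agent.Lib.MP5e

open Polynomial Topology

private lemma fun_af_an {m : ℕ} (ω : ℂ) (p q : Option (Fin m) → ℚ) (x : Fin m → ℂ) :
    AnalyticAt ℂ (qaf ω p q) x := by
  unfold qaf
  refine AnalyticAt.add ?_ analyticAt_const
  refine Finset.analyticAt_fun_sum _ fun l _ => ?_
  exact analyticAt_const.mul
    ((ContinuousLinearMap.proj (R := ℂ) (φ := fun _ : Fin m => ℂ) l).analyticAt x)

private lemma fun_af_line {m : ℕ} (ω : ℂ) (p q : Option (Fin m) → ℚ) (x v : Fin m → ℂ) (t : ℂ) :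
    qaf ω p q (fun l => x l + t * v l) = qli ω p q v * t + qaf ω p q x := by
  unfold qaf qli
  have h : ∑ l, ((p (some l) : ℂ) + (q (some l) : ℂ) * ω) * (x l + t * v l) =
      (∑ l, ((p (some l) : ℂ) + (q (some l) : ℂ) * ω) * v l) * t +
        ∑ l, ((p (some l) : ℂ) + (q (some l) : ℂ) * ω) * x l := by
    rw [Finset.sum_mul, ← Finset.sum_add_distrib]
    refine Finset.sum_congr rfl fun l _ => ?_
    ring
  change (∑ l, ((p (some l) : ℂ) + (q (some l) : ℂ) * ω) * (x l + t * v l)) + _ = _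
  rw [h]
  ring

private lemma fun_conj {m : ℕ} (D : ℕ) (p q : Option (Fin m) → ℚ) (w : Fin m → ℝ) :
    (starRingEnd ℂ) (qaf (qom D) p q (fun l => (w l : ℂ))) =
      qaf (-qom D) p q (fun l => (w l : ℂ)) := by
  have h : (starRingEnd ℂ) (qom D) = -qom D := by
    unfold qom
    rw [map_mul, Complex.conj_ofReal, Complex.conj_I]
    ring
  unfold qaf
  rw [map_add, map_sum]
  simp only [map_add, map_mul, h, Complex.conj_ofReal, map_ratCast]

private lemma fun_good {m : ℕ} (f : QF m) (w : Fin m → ℝ)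
    (hpos : 0 < (qz f (fun l => (w l : ℂ))).im) :
    qE f (fun l => (w l : ℂ)) ≠ 0 ∧ qEc f (fun l => (w l : ℂ)) ≠ 0 ∧
      qy f (fun l => (w l : ℂ)) ≠ 0 := by
  have h1 : qE f (fun l => (w l : ℂ)) ≠ 0 := by
    intro h
    unfold qz at hpos
    rw [h, div_zero, Complex.zero_im] at hpos
    exact lt_irrefl _ hpos
  refine ⟨h1, ?_, ?_⟩
  · intro h
    unfold qEc at h
    rw [← fun_conj] at h
    exact h1 ((map_eq_zero _).mp h)
  · rw [qy_real]
    exact_mod_cast hpos.ne'

/-- the conditions at a point -/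
private def fG {m n : ℕ} (f : Fin n → QF m) (x : Fin m → ℂ) : Prop :=
  ∀ k, qE (f k) x ≠ 0 ∧ qEc (f k) x ≠ 0 ∧ qy (f k) x ≠ 0 ∧ 0 < (qz (f k) x).im

private lemma fun_z_an {m : ℕ} (f : QF m) (x : Fin m → ℂ) (h : qE f x ≠ 0) :
    AnalyticAt ℂ (qz f) x :=
  (fun_af_an _ _ _ x).fun_div (fun_af_an _ _ _ x) h

private lemma fun_y_an {m : ℕ} (f : QF m) (x : Fin m → ℂ) (h : qE f x ≠ 0) (h' : qEc f x ≠ 0) :
    AnalyticAt ℂ (qy f) x := by
  unfold qy
  refine AnalyticAt.fun_div (AnalyticAt.fun_sub (fun_z_an f x h) ?_) analyticAt_const ?_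
  · exact (fun_af_an _ _ _ x).fun_div (fun_af_an _ _ _ x) h'
  · exact mul_ne_zero two_ne_zero Complex.I_ne_zero

private lemma fun_fG {m n : ℕ} (f : Fin n → QF m) (w : Fin m → ℝ)
    (hpos : ∀ k, 0 < (qz (f k) (fun l => (w l : ℂ))).im) :
    fG f (fun l => (w l : ℂ)) := by
  intro k
  obtain ⟨h1, h2, h3⟩ := fun_good (f k) w (hpos k)
  exact ⟨h1, h2, h3, hpos k⟩

private lemma fun_fG_ev {m n : ℕ} (f : Fin n → QF m) (x : Fin m → ℂ) (h : fG f x) :
    ∀ᶠ y in 𝓝 x, fG f y := by
  unfold fG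
  rw [Filter.eventually_all]
  intro k
  obtain ⟨h1, h2, h3, h4⟩ := h k
  have e1 : ContinuousAt (qE (f k)) x := (fun_af_an _ _ _ x).continuousAt
  have e2 : ContinuousAt (qEc (f k)) x := (fun_af_an _ _ _ x).continuousAt
  have e3 : ContinuousAt (qy (f k)) x := (fun_y_an (f k) x h1 h2).continuousAt
  have e4 : ContinuousAt (fun y => (qz (f k) y).im) x :=
    Complex.continuous_im.continuousAt.comp (fun_z_an (f k) x h1).continuousAt
  filter_upwards [e1.eventually_ne h1, e2.eventually_ne h2, e3.eventually_ne h3,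
    e4.eventually (lt_mem_nhds h4)] with y y1 y2 y3 y4
  exact ⟨y1, y2, y3, y4⟩

private lemma fun_an {m n : ℕ} (f : Fin n → QF m) (𝓛 : ℕ → PeriodPair) (x : Fin m → ℂ)
    (h : fG f x) (v : Fin m ⊕ (Fin n × Fin 3)) :
    AnalyticAt ℂ (fun x => qfam f 𝓛 x v) x := by
  rcases v with l | ⟨k, i⟩
  · exact (ContinuousLinearMap.proj (R := ℂ) (φ := fun _ : Fin m => ℂ) l).analyticAt x
  · obtain ⟨h1, h2, h3, h4⟩ := h k
    have hz := fun_z_an (f k) x h1
    have hy := fun_y_an (f k) x h1 h2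
    have j0 : AnalyticAt ℂ (fun y => jf (qz (f k) y)) x := (J4_analyticAt h4 1).comp hz
    have j1 : AnalyticAt ℂ (fun y => deriv jf (qz (f k) y)) x := (J4_analyticAt h4 2).comp hz
    have j2 : AnalyticAt ℂ (fun y => deriv (deriv jf) (qz (f k) y)) x :=
      (J4_analyticAt h4 3).comp hz
    have hc : (2 * (Real.pi : ℂ) * Complex.I * qell (𝓛 (f k).D)) ≠ 0 :=
      mul_ne_zero Complex.two_pi_I_ne_zero (qell_ne _)
    fin_cases i
    · exact j0
    · exact j1.fun_div analyticAt_const hc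
    · exact (j2.fun_sub ((analyticAt_const.fun_div hy h3).fun_mul j1)).fun_div analyticAt_const
        (pow_ne_zero 2 hc)

theorem qfam_analytic {m n : ℕ} (f : Fin n → QF m) (𝓛 : ℕ → PeriodPair) (w : Fin m → ℝ)
    (hpos : ∀ k, 0 < (qz (f k) (fun l => (w l : ℂ))).im) (v : Fin m ⊕ (Fin n × Fin 3)) :
    AnalyticAt ℂ (fun x => qfam f 𝓛 x v) (fun l => (w l : ℂ)) :=
  fun_an f 𝓛 _ (fun_fG f w hpos) v

/-! ### the substitution -/

section subst

variable {m n : ℕ} (f : Fin n → QF m) (x v : Fin m → ℂ)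

/-- the line -/
private def fy (t : ℂ) : Fin m → ℂ := fun l => x l + t * v l

/-- linear polynomial in `t` -/
private def fT (n : ℕ) (A B : ℂ) : MvPolynomial (Option (Fin n × Fin 3)) ℂ :=
  MvPolynomial.C A * MvPolynomial.X none + MvPolynomial.C B

private lemma fT_eval (A B : ℂ) (ξ : Option (Fin n × Fin 3) → ℂ) :
    MvPolynomial.eval ξ (fT n A B) = A * ξ none + B := by
  unfold fT
  rw [map_add, map_mul, MvPolynomial.eval_C, MvPolynomial.eval_C, MvPolynomial.eval_X]

private def fN (k : Fin n) : MvPolynomial (Option (Fin n × Fin 3)) ℂ :=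
  fT n (qli (qom (f k).D) (f k).p (f k).q v) (qN (f k) x)
private def fE (k : Fin n) : MvPolynomial (Option (Fin n × Fin 3)) ℂ :=
  fT n (qli (qom (f k).D) (f k).r (f k).s v) (qE (f k) x)
private def fNc (k : Fin n) : MvPolynomial (Option (Fin n × Fin 3)) ℂ :=
  fT n (qli (-qom (f k).D) (f k).p (f k).q v) (qNc (f k) x)
private def fEc (k : Fin n) : MvPolynomial (Option (Fin n × Fin 3)) ℂ :=
  fT n (qli (-qom (f k).D) (f k).r (f k).s v) (qEc (f k) x)

/-- the value of `Δ_k` -/
private def fdl (k : Fin n) (y : Fin m → ℂ) : ℂ :=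
  qN (f k) y * qEc (f k) y - qNc (f k) y * qE (f k) y

private def fD (k : Fin n) : MvPolynomial (Option (Fin n × Fin 3)) ℂ :=
  fN f x v k * fEc f x v k - fNc f x v k * fE f x v k

private lemma fN_eval (k : Fin n) (ξ : Option (Fin n × Fin 3) → ℂ) :
    MvPolynomial.eval ξ (fN f x v k) = qN (f k) (fy x v (ξ none)) := by
  unfold fN fy qN
  rw [fT_eval, fun_af_line]

private lemma fE_eval (k : Fin n) (ξ : Option (Fin n × Fin 3) → ℂ) :
    MvPolynomial.eval ξ (fE f x v k) = qE (f k) (fy x v (ξ none)) := by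
  unfold fE fy qE
  rw [fT_eval, fun_af_line]

private lemma fNc_eval (k : Fin n) (ξ : Option (Fin n × Fin 3) → ℂ) :
    MvPolynomial.eval ξ (fNc f x v k) = qNc (f k) (fy x v (ξ none)) := by
  unfold fNc fy qNc
  rw [fT_eval, fun_af_line]

private lemma fEc_eval (k : Fin n) (ξ : Option (Fin n × Fin 3) → ℂ) :
    MvPolynomial.eval ξ (fEc f x v k) = qEc (f k) (fy x v (ξ none)) := by
  unfold fEc fy qEc
  rw [fT_eval, fun_af_line]

private lemma fD_eval (k : Fin n) (ξ : Option (Fin n × Fin 3) → ℂ) :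
    MvPolynomial.eval ξ (fD f x v k) = fdl f k (fy x v (ξ none)) := by
  unfold fD fdl
  rw [map_sub, map_mul, map_mul, fN_eval, fE_eval, fNc_eval, fEc_eval]

/-- the common denominator -/
private def fDD : MvPolynomial (Option (Fin n × Fin 3)) ℂ := ∏ k, fD f x v k

private lemma fDD_eval (ξ : Option (Fin n × Fin 3) → ℂ) :
    MvPolynomial.eval ξ (fDD f x v) = ∏ k, fdl f k (fy x v (ξ none)) := by
  unfold fDD
  rw [map_prod]
  exact Finset.prod_congr rfl fun k _ => fD_eval f x v k ξ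

/-- the numerators -/
private def fNum (c : Fin n → ℂ) : Fin m ⊕ (Fin n × Fin 3) →
    MvPolynomial (Option (Fin n × Fin 3)) ℂ :=
  Sum.elim (fun l => fT n (v l) (x l) * fDD f x v) fun p =>
    ![MvPolynomial.X (some (p.1, 0)) * fDD f x v,
      MvPolynomial.C (c p.1)⁻¹ * MvPolynomial.X (some (p.1, 1)) * fDD f x v,
      MvPolynomial.C ((c p.1) ^ 2)⁻¹ * (MvPolynomial.X (some (p.1, 2)) * fD f x v p.1 +
        2 * (fE f x v p.1 * fEc f x v p.1) * MvPolynomial.X (some (p.1, 1))) *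
          ∏ k ∈ Finset.univ.erase p.1, fD f x v k] p.2

/-- the values -/
private def fVal (c : Fin n → ℂ) (ξ : Option (Fin n × Fin 3) → ℂ) :
    Fin m ⊕ (Fin n × Fin 3) → ℂ :=
  Sum.elim (fy x v (ξ none)) fun p =>
    ![ξ (some (p.1, 0)), ξ (some (p.1, 1)) / c p.1,
      (ξ (some (p.1, 2)) + 2 * (qE (f p.1) (fy x v (ξ none)) * qEc (f p.1) (fy x v (ξ none))) /
        fdl f p.1 (fy x v (ξ none)) * ξ (some (p.1, 1))) / (c p.1) ^ 2] p.2

private lemma fNum_eval (c : Fin n → ℂ) (ξ : Option (Fin n × Fin 3) → ℂ)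
    (h : MvPolynomial.eval ξ (fDD f x v) ≠ 0) :
    (fun u => MvPolynomial.eval ξ (fNum f x v c u) / MvPolynomial.eval ξ (fDD f x v)) =
      fVal f x v c ξ := by
  funext u
  rcases u with l | ⟨k, i⟩
  · change MvPolynomial.eval ξ (fT n (v l) (x l) * fDD f x v) / _ = x l + ξ none * v l
    rw [map_mul, mul_div_cancel_right₀ _ h, fT_eval]
    ring
  · have hk : fdl f k (fy x v (ξ none)) ≠ 0 := by
      rw [fDD_eval] at h
      exact Finset.prod_ne_zero_iff.mp h k (Finset.mem_univ k)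
    have hR : ∏ j ∈ Finset.univ.erase k, fdl f j (fy x v (ξ none)) ≠ 0 := by
      rw [fDD_eval] at h
      exact Finset.prod_ne_zero_iff.mpr fun j _ =>
        Finset.prod_ne_zero_iff.mp h j (Finset.mem_univ j)
    fin_cases i
    · change MvPolynomial.eval ξ (MvPolynomial.X (some (k, 0)) * fDD f x v) / _ = ξ (some (k, 0))
      rw [map_mul, mul_div_cancel_right₀ _ h, MvPolynomial.eval_X]
    · change MvPolynomial.eval ξ (MvPolynomial.C (c k)⁻¹ * MvPolynomial.X (some (k, 1)) *
        fDD f x v) / _ = ξ (some (k, 1)) / c k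
      rw [map_mul, mul_div_cancel_right₀ _ h, map_mul, MvPolynomial.eval_X, MvPolynomial.eval_C]
      ring
    · change MvPolynomial.eval ξ (MvPolynomial.C ((c k) ^ 2)⁻¹ *
        (MvPolynomial.X (some (k, 2)) * fD f x v k +
        2 * (fE f x v k * fEc f x v k) * MvPolynomial.X (some (k, 1))) *
          ∏ j ∈ Finset.univ.erase k, fD f x v j) / _ =
        (ξ (some (k, 2)) + 2 * (qE (f k) (fy x v (ξ none)) * qEc (f k) (fy x v (ξ none))) /
        fdl f k (fy x v (ξ none)) * ξ (some (k, 1))) / (c k) ^ 2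
      have h2 : MvPolynomial.eval ξ (2 : MvPolynomial (Option (Fin n × Fin 3)) ℂ) = 2 :=
        map_ofNat _ 2
      rw [map_mul, map_mul, map_add, map_mul, map_mul, map_mul, map_mul, map_prod,
        MvPolynomial.eval_X, MvPolynomial.eval_X, MvPolynomial.eval_C, fE_eval, fEc_eval, fD_eval,
        fDD_eval, h2, ← Finset.mul_prod_erase Finset.univ _ (Finset.mem_univ k),
        Finset.prod_congr rfl fun j _ => fD_eval f x v j ξ]
      field_simp

/-- the claim at a good point -/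
private lemma fun_point (𝓛 : ℕ → PeriodPair) (hx : fG f x)
    (hdet : ∀ k, (qG (f k) x v).det ≠ 0)
    (hfin : ∀ k l, k ≠ l →
      {t : ℂ | him (qG (f k) x v) t = 0 ∧ him (qG (f l) x v) t = 0}.Finite)
    (P : MvPolynomial (Fin m ⊕ (Fin n × Fin 3)) ℂ)
    (hP : ∀ᶠ y in 𝓝 x, MvPolynomial.eval (qfam f 𝓛 y) P = 0) (e : Fin n × Fin 3 → ℂ) :
    MvPolynomial.eval (Sum.elim x e) P = 0 := by
  set c : Fin n → ℂ := fun k => 2 * (Real.pi : ℂ) * Complex.I * qell (𝓛 (f k).D) with hc
  have hc0 : ∀ k, c k ≠ 0 := fun k => mul_ne_zero Complex.two_pi_I_ne_zero (qell_ne _)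
  have hdl : ∀ y, fG f y → ∀ k, fdl f k y ≠ 0 := by
    intro y hy k
    obtain ⟨h1, h2, h3, h4⟩ := hy k
    intro h0
    apply h3
    unfold qy qz
    rw [div_sub_div _ _ h1 h2]
    unfold fdl at h0
    have : qN (f k) y * qEc (f k) y - qE (f k) y * qNc (f k) y = 0 := by
      rw [← h0]; ring
    rw [this, zero_div, zero_div]
  obtain ⟨M, Q, hQ⟩ := qclr P (fNum f x v c) (fDD f x v)
  have hy0 : fy x v 0 = x := by
    funext l
    unfold fy
    rw [zero_mul, add_zero]
  have hcont : Filter.Tendsto (fy x v) (𝓝 0) (𝓝 x) := by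
    have h1 : Continuous (fy x v) := by
      unfold fy
      exact continuous_pi fun l => by fun_prop
    have h2 := h1.tendsto 0
    rw [hy0] at h2
    exact h2
  have hmob : ∀ k t, mob (qG (f k) x v) t = qz (f k) (fy x v t) := by
    intro k t
    unfold mob qz qN qE fy
    rw [fun_af_line, fun_af_line]
    rfl
  -- `Q` vanishes along the curve
  have hQ0 : Q = 0 := by
    refine oone n (fun k => qG (f k) x v) hdet 0 ?_ hfin Q ?_
    · intro k
      obtain ⟨h1, h2, h3, h4⟩ := hx k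
      have h5 : (qG (f k) x v) 1 0 * 0 + (qG (f k) x v) 1 1 ≠ 0 := by
        rw [mul_zero, zero_add]
        exact h1
      rw [him_eq _ h5, hmob, hy0]
      have h6 : 0 < ‖(qG (f k) x v) 1 0 * 0 + (qG (f k) x v) 1 1‖ := norm_pos_iff.mpr h5
      positivity
    · filter_upwards [hcont.eventually (fun_fG_ev f x hx), hcont.eventually hP] with t ht hPt
      set ξ : Option (Fin n × Fin 3) → ℂ := fun u : Option (Fin n × Fin 3) =>
        u.elim t fun p => J4 (mob (qG (f p.1) x v) t) p.2.succ with hξ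
      have hD0 : MvPolynomial.eval ξ (fDD f x v) ≠ 0 := by
        rw [fDD_eval]
        exact Finset.prod_ne_zero_iff.mpr fun k _ => hdl _ ht k
      have hval : fVal f x v c ξ = qfam f 𝓛 (fy x v t) := by
        funext u
        rcases u with l | ⟨k, i⟩
        · rfl
        · obtain ⟨h1, h2, h3, h4⟩ := ht k
          have hk := hdl _ ht k
          fin_cases i
          · change jf (mob (qG (f k) x v) t) = jf (qz (f k) (fy x v t))
            rw [hmob]
          · change deriv jf (mob (qG (f k) x v) t) / _ = deriv jf (qz (f k) (fy x v t)) / _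
            rw [hmob]
          · change (deriv (deriv jf) (mob (qG (f k) x v) t) +
              2 * (qE (f k) (fy x v t) * qEc (f k) (fy x v t)) / fdl f k (fy x v t) *
                deriv jf (mob (qG (f k) x v) t)) / _ =
              (deriv (deriv jf) (qz (f k) (fy x v t)) -
                Complex.I / qy (f k) (fy x v t) * deriv jf (qz (f k) (fy x v t))) / _
            rw [hmob]
            congr 1
            have h5 : Complex.I / qy (f k) (fy x v t) =
                -(2 * (qE (f k) (fy x v t) * qEc (f k) (fy x v t)) / fdl f k (fy x v t)) := by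
              unfold qy qz
              rw [div_sub_div _ _ h1 h2]
              have h6 : qN (f k) (fy x v t) * qEc (f k) (fy x v t) -
                  qE (f k) (fy x v t) * qNc (f k) (fy x v t) = fdl f k (fy x v t) := by
                unfold fdl
                ring
              rw [h6]
              field_simp
              rw [Complex.I_sq]
            rw [h5]
            ring
      rw [hQ ξ hD0, fNum_eval f x v c ξ hD0, hval, hPt, mul_zero]
  -- the point `t = 0`
  set ξ : Option (Fin n × Fin 3) → ℂ := fun u : Option (Fin n × Fin 3) =>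
    u.elim 0 fun p => (![e (p.1, 0), c p.1 * e (p.1, 1), (c p.1) ^ 2 * e (p.1, 2) -
      2 * (qE (f p.1) x * qEc (f p.1) x) / fdl f p.1 x * (c p.1 * e (p.1, 1))] : Fin 3 → ℂ) p.2
    with hξ
  have hD0 : MvPolynomial.eval ξ (fDD f x v) ≠ 0 := by
    rw [fDD_eval]
    refine Finset.prod_ne_zero_iff.mpr fun k _ => ?_
    change fdl f k (fy x v 0) ≠ 0
    rw [hy0]
    exact hdl _ hx k
  have hval : fVal f x v c ξ = Sum.elim x e := by
    funext u
    rcases u with l | ⟨k, i⟩
    · change fy x v 0 l = x l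
      rw [hy0]
    · have hk := hc0 k
      fin_cases i
      · rfl
      · change c k * e (k, 1) / c k = e (k, 1)
        field_simp
      · change ((c k) ^ 2 * e (k, 2) -
          2 * (qE (f k) x * qEc (f k) x) / fdl f k x * (c k * e (k, 1)) +
          2 * (qE (f k) (fy x v 0) * qEc (f k) (fy x v 0)) / fdl f k (fy x v 0) *
            (c k * e (k, 1))) / (c k) ^ 2 = e (k, 2)
        rw [hy0, sub_add_cancel]
        field_simp
  have h1 := hQ ξ hD0
  rw [hQ0, map_zero, fNum_eval f x v c ξ hD0, hval] at h1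
  exact (mul_eq_zero.mp h1.symm).resolve_left (pow_ne_zero _ hD0)

end subst

theorem qfun {m n : ℕ} (f : Fin n → QF m) (𝓛 : ℕ → PeriodPair) (w : Fin m → ℝ)
    (hpos : ∀ k, 0 < (qz (f k) (fun l => (w l : ℂ))).im) (hdir : QDir f (fun l => (w l : ℂ)))
    (P : MvPolynomial (Fin m ⊕ (Fin n × Fin 3)) ℂ)
    (hP : ∀ᶠ x in 𝓝 (fun l => (w l : ℂ) : Fin m → ℂ), MvPolynomial.eval (qfam f 𝓛 x) P = 0) :
    P = 0 := by
  obtain ⟨v, hv⟩ := hdir
  have h1 : ∀ᶠ x in 𝓝 (fun l => (w l : ℂ) : Fin m → ℂ), ∀ e : Fin n × Fin 3 → ℂ,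
      MvPolynomial.eval (Sum.elim x e) P = 0 := by
    filter_upwards [hv, fun_fG_ev f _ (fun_fG f w hpos), eventually_eventually_nhds.mpr hP]
      with x hx1 hx2 hx3 e
    exact fun_point f x v 𝓛 hx2 hx1.1 hx1.2 P hx3 e
  obtain ⟨ε, hε, hball⟩ := Metric.eventually_nhds_iff_ball.mp h1
  set s : Fin m ⊕ (Fin n × Fin 3) → Set ℂ :=
    Sum.elim (fun l => Metric.ball (w l : ℂ) ε) (fun _ => Set.univ) with hs
  refine MvPolynomial.funext_set s ?_ ?_
  · intro u
    rcases u with l | p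
    · exact infinite_of_mem_nhds (w l : ℂ) (Metric.ball_mem_nhds _ hε)
    · exact Set.infinite_univ
  · intro y hy
    rw [map_zero]
    have h2 : y = Sum.elim (fun l => y (Sum.inl l)) (fun p => y (Sum.inr p)) := by
      funext u
      rcases u with l | p
      · rfl
      · rfl
    rw [h2]
    refine hball _ ?_ _
    rw [Metric.mem_ball, dist_pi_lt_iff hε]
    intro l
    exact hy (Sum.inl l) (Set.mem_univ _)

end Pool.Agent.Lib.MP5e
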