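import Pool.Agent.Lib.MP_5e64e7_nt.QApp
import Pool.Agent.Lib.MP_5e64e7_nt.QFun
import Pool.Agent.Lib.MP_5e64e7_nt.QHid

set_option autoImplicit false

/-!
# Q.MAIN : the `m + 3n` numbers `qfam f 𝓛 w` are algebraically independent
-/

noncomputable section

namespace Pool.Agent.Lib.MP5e

open Polynomial Topology

private theorem qmn_small (ε : ℝ) (hε : 0 < ε) :
    ∃ m : ℕ, Real.exp (-((2 : ℝ) ^ m)) < ε := by
  have h1 : Filter.Tendsto (fun m : ℕ => Real.exp (-((2 : ℝ) ^ m))) Filter.atTop (𝓝 0) := by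
    have h2 : Filter.Tendsto (fun m : ℕ => (2 : ℝ) ^ m) Filter.atTop Filter.atTop :=
      tendsto_pow_atTop_atTop_of_one_lt (by norm_num)
    exact Real.tendsto_exp_neg_atTop_nhds_zero.comp h2
  exact (h1.eventually (gt_mem_nhds hε)).exists

/-- the growth inequality -/
private theorem qmn_pow {B D m : ℕ} (hB : 2 ≤ B) :
    (B : ℝ) ^ D + 2 ^ m ≤ (B : ℝ) ^ (D + 1 + m) := by
  have hB2 : (2 : ℝ) ≤ B := by exact_mod_cast hB
  have h1 : (1 : ℝ) ≤ (B : ℝ) ^ D := one_le_pow₀ (by linarith)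
  have h2 : (1 : ℝ) ≤ 2 ^ m := one_le_pow₀ (by norm_num)
  have h3 : (2 : ℝ) ^ m ≤ (B : ℝ) ^ m := pow_le_pow_left₀ (by norm_num) hB2 m
  have h4 : (B : ℝ) ^ (D + 1 + m) = (B : ℝ) ^ D * B * (B : ℝ) ^ m := by
    rw [pow_add, pow_add, pow_one]
  have h5 : (B : ℝ) ^ D * 2 * 2 ^ m ≤ (B : ℝ) ^ D * B * (B : ℝ) ^ m := by
    gcongr
  rw [h4]
  refine le_trans ?_ h5
  nlinarith [mul_le_mul_of_nonneg_left h2 (by linarith : (0 : ℝ) ≤ (B : ℝ) ^ D),
    mul_le_mul_of_nonneg_right h1 (by linarith : (0 : ℝ) ≤ (2 : ℝ) ^ m)]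

private theorem qmn_ana {m n : ℕ} (f : Fin n → QF m) (𝓛 : ℕ → PeriodPair) (w : Fin m → ℝ)
    (hpos : ∀ k, 0 < (qz (f k) (fun l => (w l : ℂ))).im)
    (P : MvPolynomial (Fin m ⊕ (Fin n × Fin 3)) ℤ) :
    AnalyticAt ℂ (fun x => MvPolynomial.aeval (qfam f 𝓛 x) P) (fun l => (w l : ℂ)) := by
  induction P using MvPolynomial.induction_on with
  | C a =>
    simp only [MvPolynomial.aeval_C]
    exact analyticAt_const
  | add p q hp hq =>
    simp only [map_add]
    exact hp.add hq
  | mul_X p i hp =>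
    simp only [map_mul, MvPolynomial.aeval_X]
    exact hp.mul (qfam_analytic f 𝓛 w hpos i)

private theorem qmn_cont {m : ℕ} (ω : ℂ) (p q : Option (Fin m) → ℚ) : Continuous (qaf ω p q) := by
  unfold qaf
  fun_prop

private theorem qmn_pos {m n : ℕ} (f : Fin n → QF m) (x : Fin m → ℂ)
    (hpos : ∀ k, 0 < (qz (f k) x).im) : ∀ᶠ u in 𝓝 x, ∀ k, 0 < (qz (f k) u).im := by
  rw [Filter.eventually_all]
  intro k
  have hE : qE (f k) x ≠ 0 := by
    intro h0
    have h1 := hpos k
    unfold qz at h1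
    rw [h0, div_zero, Complex.zero_im] at h1
    exact lt_irrefl _ h1
  have h1 : ContinuousAt (fun u => (qz (f k) u).im) x := by
    apply Complex.continuous_im.continuousAt.comp
    unfold qz
    exact ContinuousAt.div (qmn_cont _ _ _).continuousAt (qmn_cont _ _ _).continuousAt hE
  exact h1.eventually (lt_mem_nhds (hpos k))

theorem qmain {m n : ℕ} (f : Fin n → QF m) (hf : ∀ k, 1 ≤ (f k).D) (𝓛 : ℕ → PeriodPair)
    (hB : ∀ k, ∃ (F : IntermediateField ℚ ℂ) (R : ℝ), QB (f k).D (𝓛 (f k).D) F R)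
    (w : Fin m → ℝ) (hw : QHier w)
    (hpos : ∀ k, 0 < (qz (f k) (fun l => (w l : ℂ))).im)
    (hdir : QDir f (fun l => (w l : ℂ))) :
    AlgebraicIndependent ℚ (qfam f 𝓛 (fun l => (w l : ℂ))) := by
  obtain ⟨wc, hwc⟩ : ∃ wc : Fin m → ℂ, wc = fun l => (w l : ℂ) := ⟨_, rfl⟩
  have hint : AlgebraicIndependent ℤ (qfam f 𝓛 (fun l => (w l : ℂ))) := by
    rw [algebraicIndependent_iff]
    intro P hP0
    set F : (Fin m → ℂ) → ℂ := fun x => MvPolynomial.aeval (qfam f 𝓛 x) P with hF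
    have hFa : AnalyticAt ℂ F wc := by
      rw [hwc]
      exact qmn_ana f 𝓛 w hpos P
    have hFw : F wc = 0 := by
      rw [hwc]
      exact hP0
    obtain ⟨c₁, hc₁, hlip⟩ : ∃ c₁ : ℝ, 0 < c₁ ∧ ∀ᶠ u in 𝓝 wc, ‖F u‖ ≤ c₁ * ‖u - wc‖ := by
      have h1 := hFa.differentiableAt.isBigO_sub
      obtain ⟨c, hc, h2⟩ := h1.exists_pos
      refine ⟨c, hc, ?_⟩
      filter_upwards [h2.bound] with u hu
      rw [hFw, sub_zero] at hu
      exact hu
    have hposn : ∀ᶠ u in 𝓝 wc, ∀ k, 0 < (qz (f k) u).im := by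
      apply qmn_pos
      rw [hwc]
      exact hpos
    obtain ⟨C₁, hC₁⟩ := qapprox f hf 𝓛 hB P
    have hzero : ∀ᶠ x in 𝓝 wc, F x = 0 := by
      apply qhid m F wc hFa
      intro C ε hε
      obtain ⟨δ, hδ, hball⟩ := Metric.mem_nhds_iff.1 (Filter.inter_mem hlip hposn)
      obtain ⟨m0, hm0⟩ := qmn_small (min (min ε δ) (1 / c₁)) (lt_min (lt_min hε hδ) (by positivity))
      obtain ⟨B, a, c, hB2, hac, hfirst, hchain⟩ := hw (C₁ + 1 + (m0 + C))
      obtain ⟨N, hN⟩ : ∃ N : ℕ, N = C₁ + 1 + (m0 + C) := ⟨_, rfl⟩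
      rw [← hN] at hfirst hchain
      have hexp : Real.exp (-((B : ℝ) ^ N)) ≤
          Real.exp (-((B : ℝ) ^ C₁)) * Real.exp (-((2 : ℝ) ^ m0)) := by
        rw [← Real.exp_add]
        apply Real.exp_le_exp.mpr
        have h1 := qmn_pow (D := C₁) (m := m0 + C) hB2
        rw [← hN] at h1
        have h2 : (2 : ℝ) ^ m0 ≤ 2 ^ (m0 + C) := pow_le_pow_right₀ (by norm_num) (by omega)
        linarith
      have hexp1 : Real.exp (-((B : ℝ) ^ C₁)) ≤ 1 := by
        rw [Real.exp_le_one_iff]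
        have : (0 : ℝ) ≤ (B : ℝ) ^ C₁ := by positivity
        linarith
      have hexp2 : Real.exp (-((B : ℝ) ^ N)) ≤ 1 := by
        rw [Real.exp_le_one_iff]
        have : (0 : ℝ) ≤ (B : ℝ) ^ N := by positivity
        linarith
      have hexp3 : Real.exp (-((B : ℝ) ^ N)) < min ε δ := by
        calc Real.exp (-((B : ℝ) ^ N))
            ≤ Real.exp (-((B : ℝ) ^ C₁)) * Real.exp (-((2 : ℝ) ^ m0)) := hexp
          _ ≤ 1 * Real.exp (-((2 : ℝ) ^ m0)) :=
              mul_le_mul_of_nonneg_right hexp1 (Real.exp_pos _).le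
          _ < min ε δ := by
              rw [one_mul]
              exact hm0.trans_le (min_le_left _ _)
      -- all distances are small
      have hall : ∀ (j : ℕ) (hj : j < m), |w ⟨j, hj⟩ - (a ⟨j, hj⟩ : ℝ) / (c ⟨j, hj⟩ : ℝ)| ≤
          Real.exp (-((B : ℝ) ^ N)) := by
        intro j
        induction j with
        | zero =>
          intro hj
          exact hfirst ⟨0, hj⟩ rfl
        | succ j ih =>
          intro hj
          have h1 := ih (by omega)
          have h2 := hchain ⟨j, by omega⟩ ⟨j + 1, hj⟩ rfl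
          refine h2.trans (le_trans ?_ h1)
          have hN1 : N ≠ 0 := by omega
          exact pow_le_of_le_one (abs_nonneg _) (h1.trans hexp2) hN1
      have hall' : ∀ l, |w l - (a l : ℝ) / (c l : ℝ)| ≤ Real.exp (-((B : ℝ) ^ N)) :=
        fun l => hall l l.2
      obtain ⟨r, hr⟩ : ∃ r : Fin m → ℂ, r = fun l => ((a l : ℂ) / (c l : ℂ)) := ⟨_, rfl⟩
      have hnorm : ∀ l, ‖r l - wc l‖ = |w l - (a l : ℝ) / (c l : ℝ)| := by
        intro l
        have h1 : r l - wc l = (((a l : ℝ) / (c l : ℝ) - w l : ℝ) : ℂ) := by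
          rw [hr, hwc]
          push_cast
          rfl
        rw [h1, Complex.norm_real, Real.norm_eq_abs, abs_sub_comm]
      have hrw : ‖r - wc‖ ≤ Real.exp (-((B : ℝ) ^ N)) := by
        rw [pi_norm_le_iff_of_nonneg (Real.exp_pos _).le]
        intro l
        rw [Pi.sub_apply, hnorm l]
        exact hall' l
      have hrball : r ∈ Metric.ball wc δ := by
        rw [Metric.mem_ball, dist_eq_norm]
        exact lt_of_le_of_lt hrw (hexp3.trans_le (min_le_right _ _))
      obtain ⟨hrlip, hrpos⟩ := hball hrball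
      have hrlip' : ‖F r‖ ≤ c₁ * ‖r - wc‖ := hrlip
      have hrpos' : ∀ k, 0 < (qz (f k) r).im := hrpos
      refine ⟨r, ?_, ?_, ?_, ?_⟩
      · intro l h
        have h1 := hnorm l
        rw [h, sub_self, norm_zero] at h1
        have h2 := abs_eq_zero.mp h1.symm
        exact (hac l).2.2.2 (by linarith)
      · intro l
        rw [hnorm l]
        exact lt_of_le_of_lt (hall' l) (hexp3.trans_le (min_le_left _ _))
      · intro l l' hll
        rw [hnorm l, hnorm l']
        refine (hchain l l' hll).trans ?_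
        exact pow_le_pow_of_le_one (abs_nonneg _) ((hall' l).trans hexp2) (by omega)
      · have key := hC₁ B a c hB2 (fun l => ⟨(hac l).1, (hac l).2.1, (hac l).2.2.1⟩)
          (by
            intro k
            have := hrpos' k
            rw [hr] at this
            exact this)
        rw [← hr] at key
        rcases key with key | key
        · exact key
        · exfalso
          have h7 : Real.exp (-((B : ℝ) ^ C₁)) ≤ ‖F r‖ := key
          have h8 : ‖F r‖ < Real.exp (-((B : ℝ) ^ C₁)) := by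
            calc ‖F r‖ ≤ c₁ * ‖r - wc‖ := hrlip'
              _ ≤ c₁ * (Real.exp (-((B : ℝ) ^ C₁)) * Real.exp (-((2 : ℝ) ^ m0))) :=
                  mul_le_mul_of_nonneg_left (hrw.trans hexp) hc₁.le
              _ = Real.exp (-((B : ℝ) ^ C₁)) * (c₁ * Real.exp (-((2 : ℝ) ^ m0))) := by ring
              _ < Real.exp (-((B : ℝ) ^ C₁)) * 1 := by
                  apply mul_lt_mul_of_pos_left _ (Real.exp_pos _)
                  have h9 := hm0.trans_le (min_le_right _ _)
                  rw [lt_div_iff₀ hc₁] at h9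
                  linarith
              _ = _ := mul_one _
          exact absurd h7 (not_le.2 h8)
    have hP' : P.map (Int.castRingHom ℂ) = 0 := by
      apply qfun f 𝓛 w hpos hdir
      rw [← hwc]
      filter_upwards [hzero] with x hx
      rw [MvPolynomial.eval_map]
      have h1 : F x = MvPolynomial.eval₂ (algebraMap ℤ ℂ) (qfam f 𝓛 x) P :=
        MvPolynomial.aeval_def _ _
      rw [hx] at h1
      exact h1.symm
    exact MvPolynomial.map_injective _ (Int.castRingHom ℂ).injective_int (by rw [hP', map_zero])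
  have : Algebra.IsAlgebraic ℤ ℚ :=
    ⟨fun x => (IsFractionRing.isAlgebraic_iff ℤ ℚ ℚ).mpr (isAlgebraic_algebraMap x)⟩
  exact hint.extendScalars ℚ

end Pool.Agent.Lib.MP5e
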