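import Pool.Agent.Lib.MP_5e64e7_nt.RLow
import Pool.Agent.Lib.MP_5e64e7_nt.QHid
import Pool.Agent.Lib.MP_5e64e7_nt.QMain

set_option autoImplicit false

/-!
# R.TRA : transfer principle (about 180 lines, adaptation of the first part of the proof of `qmain` in `QMain.lean`)

If the values `v(r)` at the rational points `r` near `w` are algebraic of polynomially bounded degree and log height, then
a polynomial relation with integer coefficients between the numbers `v(w)` holds identically near `w`.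

Proof: `F x = aeval (v x) P` is analytic at `w` (induction on `P` as in `qmn_ana`), `F w = 0`. Exactly as in `qmain`:
Lipschitz bound `‖F u‖ ≤ c₁ ‖u - w‖`, `rlow` for the lower bound, `qhid` for the conclusion; the neighbourhood `hU` of `w`
replaces `hposn` (in `qmain` the condition at `r` was the positivity of the imaginary parts, here it is `rpt a c ∈ U`).
-/

noncomputable section

namespace Pool.Agent.Lib.MP5e

open Polynomial Topology

private theorem rtra_small (ε : ℝ) (hε : 0 < ε) :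
    ∃ m : ℕ, Real.exp (-((2 : ℝ) ^ m)) < ε := by
  have h1 : Filter.Tendsto (fun m : ℕ => Real.exp (-((2 : ℝ) ^ m))) Filter.atTop (𝓝 0) := by
    have h2 : Filter.Tendsto (fun m : ℕ => (2 : ℝ) ^ m) Filter.atTop Filter.atTop :=
      tendsto_pow_atTop_atTop_of_one_lt (by norm_num)
    exact Real.tendsto_exp_neg_atTop_nhds_zero.comp h2
  exact (h1.eventually (gt_mem_nhds hε)).exists

/-- the growth inequality -/
private theorem rtra_pow {B D m : ℕ} (hB : 2 ≤ B) :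
    (B : ℝ) ^ D + 2 ^ m ≤ (B : ℝ) ^ (D + 1 + m) := by
  have hB2 : (2 : ℝ) ≤ B := by exact_mod_cast hB
  have h1 : (1 : ℝ) ≤ (B : ℝ) ^ D := one_le_pow₀ (by linarith)
  have h2 : (1 : ℝ) ≤ 2 ^ m := one_le_pow₀ (by norm_num)
  have h3 : (2 : ℝ) ^ m ≤ (B : ℝ) ^ m := pow_le_pow_left₀ (by norm_num) hB2 m
  have h4 : (B : ℝ) ^ (D + 1 + m) = (B : ℝ) ^ D * B * (B : ℝ) ^ m := by
    rw [pow_add, pow_add, pow_one]
  have h5 : (B : ℝ) ^ D * 2 * 2 ^ m ≤ (B : ℝ) ^ D * B * (B : ℝ) ^ m := by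
    gcongr
  rw [h4]
  refine le_trans ?_ h5
  nlinarith [mul_le_mul_of_nonneg_left h2 (by linarith : (0 : ℝ) ≤ (B : ℝ) ^ D),
    mul_le_mul_of_nonneg_right h1 (by linarith : (0 : ℝ) ≤ (2 : ℝ) ^ m)]

private theorem rtra_ana {m : ℕ} {ι : Type} (wc : Fin m → ℂ) (v : (Fin m → ℂ) → ι → ℂ)
    (hv : ∀ i, AnalyticAt ℂ (fun x => v x i) wc) (P : MvPolynomial ι ℤ) :
    AnalyticAt ℂ (fun x => MvPolynomial.aeval (v x) P) wc := by
  induction P using MvPolynomial.induction_on with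
  | C a =>
    simp only [MvPolynomial.aeval_C]
    exact analyticAt_const
  | add p q hp hq =>
    simp only [map_add]
    exact hp.add hq
  | mul_X p i hp =>
    simp only [map_mul, MvPolynomial.aeval_X]
    exact hp.mul (hv i)

theorem rtransfer {m : ℕ} {ι : Type} [Fintype ι] (w : Fin m → ℝ) (hw : QHier w)
    (v : (Fin m → ℂ) → ι → ℂ)
    (hv : ∀ i, AnalyticAt ℂ (fun x => v x i) (fun l => (w l : ℂ)))
    (U : Set (Fin m → ℂ)) (hU : U ∈ 𝓝 (fun l => (w l : ℂ))) (C0 : ℕ)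
    (hdata : ∀ (B : ℕ) (a : Fin m → ℤ) (c : Fin m → ℕ), RHgt B a c → rpt a c ∈ U →
      ∃ K : IntermediateField ℚ ℂ, FiniteDimensional ℚ K ∧ Module.finrank ℚ K ≤ B ^ C0 ∧
        ∀ i, RAlg K (B ^ C0) (v (rpt a c) i))
    (P : MvPolynomial ι ℤ) (hP : MvPolynomial.aeval (v (fun l => (w l : ℂ))) P = 0) :
    ∀ᶠ x in 𝓝 (fun l => (w l : ℂ)), MvPolynomial.aeval (v x) P = 0 := by
  obtain ⟨wc, hwc⟩ : ∃ wc : Fin m → ℂ, wc = fun l => (w l : ℂ) := ⟨_, rfl⟩
  rw [← hwc] at hP hv hU ⊢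
  set F : (Fin m → ℂ) → ℂ := fun x => MvPolynomial.aeval (v x) P with hF
  have hFa : AnalyticAt ℂ F wc := rtra_ana wc v hv P
  have hFw : F wc = 0 := hP
  obtain ⟨c₁, hc₁, hlip⟩ : ∃ c₁ : ℝ, 0 < c₁ ∧ ∀ᶠ u in 𝓝 wc, ‖F u‖ ≤ c₁ * ‖u - wc‖ := by
    have h1 := hFa.differentiableAt.isBigO_sub
    obtain ⟨c, hc, h2⟩ := h1.exists_pos
    refine ⟨c, hc, ?_⟩
    filter_upwards [h2.bound] with u hu
    rw [hFw, sub_zero] at hu
    exact hu
  obtain ⟨C₁, hC₁⟩ := rlow P C0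
  change ∀ᶠ x in 𝓝 wc, F x = 0
  apply qhid m F wc hFa
  intro C ε hε
  obtain ⟨δ, hδ, hball⟩ := Metric.mem_nhds_iff.1 (Filter.inter_mem hlip hU)
  obtain ⟨m0, hm0⟩ := rtra_small (min (min ε δ) (1 / c₁)) (lt_min (lt_min hε hδ) (by positivity))
  obtain ⟨B, a, c, hB2, hac, hfirst, hchain⟩ := hw (C₁ + 1 + (m0 + C))
  obtain ⟨N, hN⟩ : ∃ N : ℕ, N = C₁ + 1 + (m0 + C) := ⟨_, rfl⟩
  rw [← hN] at hfirst hchain
  have hexp : Real.exp (-((B : ℝ) ^ N)) ≤
      Real.exp (-((B : ℝ) ^ C₁)) * Real.exp (-((2 : ℝ) ^ m0)) := by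
    rw [← Real.exp_add]
    apply Real.exp_le_exp.mpr
    have h1 := rtra_pow (D := C₁) (m := m0 + C) hB2
    rw [← hN] at h1
    have h2 : (2 : ℝ) ^ m0 ≤ 2 ^ (m0 + C) := pow_le_pow_right₀ (by norm_num) (by omega)
    linarith
  have hexp1 : Real.exp (-((B : ℝ) ^ C₁)) ≤ 1 := by
    rw [Real.exp_le_one_iff]
    have : (0 : ℝ) ≤ (B : ℝ) ^ C₁ := by positivity
    linarith
  have hexp2 : Real.exp (-((B : ℝ) ^ N)) ≤ 1 := by
    rw [Real.exp_le_one_iff]
    have : (0 : ℝ) ≤ (B : ℝ) ^ N := by positivity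
    linarith
  have hexp3 : Real.exp (-((B : ℝ) ^ N)) < min ε δ := by
    calc Real.exp (-((B : ℝ) ^ N))
        ≤ Real.exp (-((B : ℝ) ^ C₁)) * Real.exp (-((2 : ℝ) ^ m0)) := hexp
      _ ≤ 1 * Real.exp (-((2 : ℝ) ^ m0)) :=
          mul_le_mul_of_nonneg_right hexp1 (Real.exp_pos _).le
      _ < min ε δ := by
          rw [one_mul]
          exact hm0.trans_le (min_le_left _ _)
  -- all distances are small
  have hall : ∀ (j : ℕ) (hj : j < m), |w ⟨j, hj⟩ - (a ⟨j, hj⟩ : ℝ) / (c ⟨j, hj⟩ : ℝ)| ≤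
      Real.exp (-((B : ℝ) ^ N)) := by
    intro j
    induction j with
    | zero =>
      intro hj
      exact hfirst ⟨0, hj⟩ rfl
    | succ j ih =>
      intro hj
      have h1 := ih (by omega)
      have h2 := hchain ⟨j, by omega⟩ ⟨j + 1, hj⟩ rfl
      refine h2.trans (le_trans ?_ h1)
      have hN1 : N ≠ 0 := by omega
      exact pow_le_of_le_one (abs_nonneg _) (h1.trans hexp2) hN1
  have hall' : ∀ l, |w l - (a l : ℝ) / (c l : ℝ)| ≤ Real.exp (-((B : ℝ) ^ N)) :=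
    fun l => hall l l.2
  obtain ⟨r, hr⟩ : ∃ r : Fin m → ℂ, r = rpt a c := ⟨_, rfl⟩
  have hnorm : ∀ l, ‖r l - wc l‖ = |w l - (a l : ℝ) / (c l : ℝ)| := by
    intro l
    have h1 : r l - wc l = (((a l : ℝ) / (c l : ℝ) - w l : ℝ) : ℂ) := by
      rw [hr, hwc]
      simp only [rpt]
      push_cast
      rfl
    rw [h1, Complex.norm_real, Real.norm_eq_abs, abs_sub_comm]
  have hrw : ‖r - wc‖ ≤ Real.exp (-((B : ℝ) ^ N)) := by
    rw [pi_norm_le_iff_of_nonneg (Real.exp_pos _).le]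
    intro l
    rw [Pi.sub_apply, hnorm l]
    exact hall' l
  have hrball : r ∈ Metric.ball wc δ := by
    rw [Metric.mem_ball, dist_eq_norm]
    exact lt_of_le_of_lt hrw (hexp3.trans_le (min_le_right _ _))
  obtain ⟨hrlip, hrU⟩ := hball hrball
  have hrlip' : ‖F r‖ ≤ c₁ * ‖r - wc‖ := hrlip
  refine ⟨r, ?_, ?_, ?_, ?_⟩
  · intro l h
    have h1 := hnorm l
    rw [h, sub_self, norm_zero] at h1
    have h2 := abs_eq_zero.mp h1.symm
    exact (hac l).2.2.2 (by linarith)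
  · intro l
    rw [hnorm l]
    exact lt_of_le_of_lt (hall' l) (hexp3.trans_le (min_le_left _ _))
  · intro l l' hll
    rw [hnorm l, hnorm l']
    refine (hchain l l' hll).trans ?_
    exact pow_le_pow_of_le_one (abs_nonneg _) ((hall' l).trans hexp2) (by omega)
  · rw [hr] at hrU
    obtain ⟨K, hKf, hKr, hKv⟩ := hdata B a c
      ⟨hB2, fun l => ⟨(hac l).1, (hac l).2.1, (hac l).2.2.1⟩⟩ hrU
    have key := hC₁ B K (v (rpt a c)) hB2 hKf hKr hKv
    rw [← hr] at key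
    rcases key with key | key
    · exact key
    · exfalso
      have h7 : Real.exp (-((B : ℝ) ^ C₁)) ≤ ‖F r‖ := key
      have h8 : ‖F r‖ < Real.exp (-((B : ℝ) ^ C₁)) := by
        calc ‖F r‖ ≤ c₁ * ‖r - wc‖ := hrlip'
          _ ≤ c₁ * (Real.exp (-((B : ℝ) ^ C₁)) * Real.exp (-((2 : ℝ) ^ m0))) :=
              mul_le_mul_of_nonneg_left (hrw.trans hexp) hc₁.le
          _ = Real.exp (-((B : ℝ) ^ C₁)) * (c₁ * Real.exp (-((2 : ℝ) ^ m0))) := by ring
          _ < Real.exp (-((B : ℝ) ^ C₁)) * 1 := by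
              apply mul_lt_mul_of_pos_left _ (Real.exp_pos _)
              have h9 := hm0.trans_le (min_le_right _ _)
              rw [lt_div_iff₀ hc₁] at h9
              linarith
          _ = _ := mul_one _
      exact absurd h7 (not_le.2 h8)

/-- hierarchically super-approximable numbers are algebraically independent: `qmain` with `n = 0` -/
theorem rw_indep {m : ℕ} (w : Fin m → ℝ) (hw : QHier w) :
    AlgebraicIndependent ℚ (fun l => (w l : ℂ)) := by
  have h := qmain (n := 0) (fun k => Fin.elim0 k) (fun k => Fin.elim0 k)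
    (fun _ => PL 1 Complex.I one_ne_zero (by simp)) (fun k => Fin.elim0 k) w hw
    (fun k => Fin.elim0 k)
    ⟨0, Filter.Eventually.of_forall fun _ => ⟨fun k => Fin.elim0 k, fun k => Fin.elim0 k⟩⟩
  exact h.comp (Sum.inl : Fin m → Fin m ⊕ (Fin 0 × Fin 3)) Sum.inl_injective

end Pool.Agent.Lib.MP5e
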