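import Pool.Agent.Lib.MP_5e64e7_nt.GFun
import Pool.Agent.Lib.MP_5e64e7_nt.RFld
import Pool.Agent.Lib.MP_5e64e7_nt.RTra

set_option autoImplicit false

/-!
# G.MAIN : the numbers `gfam f g S w` are algebraically independent (model: `rmain` in `RMai.lean`)
-/

noncomputable section

namespace Pool.Agent.Lib.MP5e

open Polynomial Topology

private def gapp {m n : ℕ} (f g : Fin n → RF m) : Fin (n + n) → RF m := Fin.append f g

private def grep {n : ℕ} : Fin (n + n) → Fin (n + n) :=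
  Fin.addCases (fun k => Fin.natAdd n k) (fun k => Fin.natAdd n k)

private theorem grep_left {n : ℕ} (k : Fin n) : grep (Fin.castAdd n k) = Fin.natAdd n k :=
  Fin.addCases_left _

private theorem grep_right {n : ℕ} (k : Fin n) :
    grep (Fin.natAdd n k) = (Fin.natAdd n k : Fin (n + n)) :=
  Fin.addCases_right _

private theorem gapp_left {m n : ℕ} (f g : Fin n → RF m) (k : Fin n) :
    gapp f g (Fin.castAdd n k) = f k := Fin.append_left _ _ _

private theorem gapp_right {m n : ℕ} (f g : Fin n → RF m) (k : Fin n) :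
    gapp f g (Fin.natAdd n k) = g k := Fin.append_right _ _ _

private theorem grep_ne {n : ℕ} (k : Fin n) : grep (Fin.castAdd n k) ≠ Fin.castAdd n k := by
  rw [grep_left]
  intro h
  have h1 := congrArg Fin.val h
  simp only [Fin.val_natAdd, Fin.val_castAdd] at h1
  have := k.2
  omega

private def gidx {m n : ℕ} (S : Finset (Fin n)) :
    Fin m ⊕ ((Fin n × Fin 2) ⊕ {k : Fin n // k ∈ S}) →
      Fin m ⊕ ((Fin (n + n) × Fin 2) ⊕ {k : Fin (n + n) // grep k ≠ k})
  | Sum.inl l => Sum.inl l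
  | Sum.inr (Sum.inl (k, a)) => Sum.inr (Sum.inl (Fin.castAdd n k, a))
  | Sum.inr (Sum.inr k) => Sum.inr (Sum.inr ⟨Fin.castAdd n k.1, grep_ne k.1⟩)

private theorem gfam_eq {m n : ℕ} (f g : Fin n → RF m) (S : Finset (Fin n)) (x : Fin m → ℂ)
    (i : Fin m ⊕ ((Fin n × Fin 2) ⊕ {k : Fin n // k ∈ S})) :
    gfam f g S x i = rfam (gapp f g) grep x (gidx S i) := by
  rcases i with l | ⟨k, a⟩ | k
  · rfl
  · change _ = ![jf (rz (gapp f g (Fin.castAdd n k)) x),
      rkap (rz (gapp f g (Fin.castAdd n k)) x) (ry (gapp f g (Fin.castAdd n k)) x)] a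
    rw [gapp_left]
    rfl
  · change _ = deriv jf (rz (gapp f g (Fin.castAdd n k.1)) x) /
      deriv jf (rz (gapp f g (grep (Fin.castAdd n k.1))) x)
    rw [grep_left, gapp_left, gapp_right]
    rfl

theorem gmain {m n : ℕ} (f g : Fin n → RF m) (S : Finset (Fin n)) (w : Fin m → ℝ) (hw : QHier w)
    (h : ∀ k, RGood (f k) (fun l => (w l : ℂ))) (hb : GBase f g S (fun l => (w l : ℂ)))
    (hj : ∀ k, deriv jf (rz (f k) (fun l => (w l : ℂ))) ≠ 0)
    (hnc : ∀ k, ¬ ∀ᶠ x in 𝓝 (fun l => (w l : ℂ)), rz (f k) x = rz (f k) (fun l => (w l : ℂ)))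
    (hrel : ∀ k l, k ≠ l →
      ¬ GRel (rz (f k) (fun l => (w l : ℂ))) (rz (f l) (fun l => (w l : ℂ)))) :
    AlgebraicIndependent ℚ (gfam f g S (fun l => (w l : ℂ))) := by
  classical
  obtain ⟨hgd, hgg, hgj, hgS⟩ := hb
  have hrep : RRep (gapp f g) grep := by
    intro k
    refine Fin.addCases (fun k => ?_) (fun k => ?_) k
    · rw [grep_left, grep_right, gapp_left, gapp_right]
      exact ⟨rfl, hgd k⟩
    · rw [grep_right, grep_right]
      exact ⟨rfl, rfl⟩
  have hF : ∀ k, RGood (gapp f g k) (fun l => (w l : ℂ)) := by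
    intro k
    refine Fin.addCases (fun k => ?_) (fun k => ?_) k
    · rw [gapp_left]; exact h k
    · rw [gapp_right]; exact hgg k
  have hFj : ∀ k, deriv jf (rz (gapp f g k) (fun l => (w l : ℂ))) ≠ 0 := by
    intro k
    refine Fin.addCases (fun k => ?_) (fun k => ?_) k
    · rw [gapp_left]; exact hj k
    · rw [gapp_right]; exact hgj k
  obtain ⟨C, hC⟩ := rfld (gapp f g) grep hrep
  have hU : {x : Fin m → ℂ | ∀ k, RGood (gapp f g k) x} ∈ 𝓝 (fun l => (w l : ℂ)) := by
    have h1 : ∀ᶠ x in 𝓝 (fun l => (w l : ℂ)), ∀ k, RGood (gapp f g k) x :=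
      Filter.eventually_all.2 (fun k => rgood_nhds (gapp f g k) _ (hF k))
    exact h1
  have hint : AlgebraicIndependent ℤ (gfam f g S (fun l => (w l : ℂ))) := by
    rw [algebraicIndependent_iff]
    intro P hP
    refine gfun f g S _ h ⟨hgd, hgg, hgj, hgS⟩ hnc hrel P ?_
    refine rtransfer w hw (fun x => gfam f g S x) (fun i => ?_)
      {x : Fin m → ℂ | ∀ k, RGood (gapp f g k) x} hU C (fun B a c hB hx => ?_) P hP
    · have h1 := rfam_analytic (gapp f g) grep w hF hFj (gidx S i)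
      simpa only [gfam_eq] using h1
    · obtain ⟨K, hK1, hK2, hK3⟩ := hC B a c hB hx
      refine ⟨K, hK1, hK2, fun i => ?_⟩
      rw [gfam_eq]
      exact hK3 _
  have : Algebra.IsAlgebraic ℤ ℚ :=
    ⟨fun x => (IsFractionRing.isAlgebraic_iff ℤ ℚ ℚ).mpr (isAlgebraic_algebraMap x)⟩
  exact hint.extendScalars ℚ

end Pool.Agent.Lib.MP5e
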