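import Pool.Agent.Lib.MP_5e64e7_nt.GDefs
import Pool.Agent.Lib.MP_5e64e7_nt.JDer
import Pool.Agent.Lib.MP_5e64e7_nt.Ser
import Pool.Agent.Lib.MP_5e64e7_nt.RAna

set_option autoImplicit false

/-!
# G.MUL : multiples of a point (about 100 lines)

`gmul_rz`: `rev` is a ring homomorphism, `rs` depends on `d` only. `gmul_good`: `Im (M z) = M Im z > 0`.

`gmul_nz`: by `djf`, `deriv jf u = -(2πi) 1728 E4(u)² E6(u)/(E4(u)³ - E6(u)²)` for `Im u > 0`; the denominator is not zero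
(`disc_ne`, used in `djf`), so it is enough that `E4f (M z), E6f (M z) ≠ 0` for large `M`. `E4f (M z) = 1 + 240 ∑' σ₃(k+1)
q^(k+1)`, `q = exp(2πi M z)`, `|q| = exp(-2π M Im z) → 0` as `M → ∞`; `‖∑' σ₃(k+1) q^(k+1)‖ ≤ |q| ∑' (k+1)^4 |q|^k`, and this tends
to `0` (bounded by `|q| · ∑' (k+1)^4 2^(-k)` for `|q| ≤ 1/2`; `σ₃(n) ≤ n^4`, `σ₅(n) ≤ n^6`; summability:
`summable_pow_mul_geometric_of_norm_lt_one`). Or use `E4f_coe` and the limit at `i∞` of the Eisenstein series from Mathlib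
(value of the `q`-expansion at `0`).
-/

noncomputable section

namespace Pool.Agent.Lib.MP5e

open Polynomial Topology

theorem gmul_rz {m : ℕ} (M : ℕ) (f : RF m) (x : Fin m → ℂ) :
    rz (gmul M f) x = (M : ℂ) * rz f x := by
  have h1 : rs (gmul M f) x = rs f x := rfl
  unfold rz
  rw [h1]
  simp only [gmul, rev, map_mul, map_natCast]
  ring

theorem gmul_good {m : ℕ} {M : ℕ} (hM : 1 ≤ M) (f : RF m) (x : Fin m → ℂ) (h : RGood f x) :
    RGood (gmul M f) x := by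
  refine ⟨h.1, ?_⟩
  rw [gmul_rz]
  have h1 : (((M : ℕ) : ℂ) * rz f x).im = (M : ℝ) * (rz f x).im := by
    rw [← Complex.ofReal_natCast, Complex.im_ofReal_mul]
  rw [h1]
  exact mul_pos (by exact_mod_cast hM) h.2

private theorem ser_tendsto (c : ℕ → ℂ) (r : ℕ) (hc : ∀ m : ℕ, ‖c m‖ ≤ ((m : ℝ) + 1) ^ r) {t : ℂ}
    (ht : ‖t‖ < 1) :
    Filter.Tendsto (fun M : ℕ => ∑' m : ℕ, c m * (t ^ M) ^ (m + 1)) Filter.atTop (𝓝 0) := by
  have h0 : Filter.Tendsto (fun M : ℕ => t ^ M) Filter.atTop (𝓝 0) :=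
    tendsto_pow_atTop_nhds_zero_of_norm_lt_one ht
  have hsum : Summable (fun m : ℕ => ((m : ℝ) + 1) ^ r * (1 / 2) ^ (m + 1)) := by
    have h1 := summable_pow_mul_geometric_of_norm_lt_one (R := ℝ) r (r := 1 / 2)
      (by rw [Real.norm_of_nonneg (by norm_num)]; norm_num)
    have h2 := (summable_nat_add_iff 1).mpr h1
    refine h2.congr fun m => ?_
    push_cast
    rfl
  have hev : ∀ᶠ M : ℕ in Filter.atTop, ∀ m : ℕ,
      ‖c m * (t ^ M) ^ (m + 1)‖ ≤ ((m : ℝ) + 1) ^ r * (1 / 2) ^ (m + 1) := by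
    have h3 : ∀ᶠ M : ℕ in Filter.atTop, ‖t ^ M‖ < 1 / 2 := by
      have h4 := h0.norm
      rw [norm_zero] at h4
      exact h4.eventually_lt_const (by norm_num)
    filter_upwards [h3] with M hM m
    rw [norm_mul, norm_pow (t ^ M)]
    exact mul_le_mul (hc m) (pow_le_pow_left₀ (norm_nonneg _) hM.le _) (by positivity)
      (by positivity)
  have hlim : ∀ m : ℕ, Filter.Tendsto (fun M : ℕ => c m * (t ^ M) ^ (m + 1)) Filter.atTop
      (𝓝 ((fun _ : ℕ => (0 : ℂ)) m)) := by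
    intro m
    have h5 := (h0.pow (m + 1)).const_mul (c m)
    simpa using h5
  have h6 := tendsto_tsum_of_dominated_convergence hsum hlim hev
  simpa using h6

private theorem sig_le (k m : ℕ) :
    ‖((((ArithmeticFunction.sigma k) (m + 1) : ℕ) : ℂ))‖ ≤ ((m : ℝ) + 1) ^ (k + 1) := by
  rw [Complex.norm_natCast]
  have h := ArithmeticFunction.sigma_le_pow_succ k (m + 1)
  calc ((((ArithmeticFunction.sigma k) (m + 1) : ℕ) : ℝ)) ≤ (((m + 1) ^ (k + 1) : ℕ) : ℝ) := by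
        exact_mod_cast h
    _ = ((m : ℝ) + 1) ^ (k + 1) := by push_cast; ring

theorem gmul_nz (z : ℂ) (hz : 0 < z.im) : ∃ M : ℕ, 1 ≤ M ∧ deriv jf ((M : ℂ) * z) ≠ 0 := by
  set t : ℂ := Complex.exp (2 * (Real.pi : ℂ) * Complex.I * z) with htdef
  have ht : ‖t‖ < 1 := by
    rw [htdef, Complex.norm_exp]
    have h1 : (2 * (Real.pi : ℂ) * Complex.I * z).re = -(2 * Real.pi * z.im) := by
      simp [Complex.mul_re, Complex.mul_im]
    rw [h1, Real.exp_lt_one_iff]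
    have := Real.pi_pos
    nlinarith [mul_pos this hz]
  have hq : ∀ M : ℕ, Complex.exp (2 * (Real.pi : ℂ) * Complex.I * ((M : ℂ) * z)) = t ^ M := by
    intro M
    rw [htdef, ← Complex.exp_nat_mul]
    congr 1
    ring
  have h4 : Filter.Tendsto (fun M : ℕ => E4f ((M : ℂ) * z)) Filter.atTop (𝓝 1) := by
    have h := ((ser_tendsto (fun m => (((ArithmeticFunction.sigma 3) (m + 1) : ℕ) : ℂ)) 4
      (sig_le 3) ht).const_mul 240).const_add 1
    rw [mul_zero, add_zero] at h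
    refine h.congr fun M => ?_
    unfold E4f
    rw [hq M]
  have h6 : Filter.Tendsto (fun M : ℕ => E6f ((M : ℂ) * z)) Filter.atTop (𝓝 1) := by
    have h := ((ser_tendsto (fun m => (((ArithmeticFunction.sigma 5) (m + 1) : ℕ) : ℂ)) 6
      (sig_le 5) ht).const_mul 504).const_sub 1
    rw [mul_zero, sub_zero] at h
    refine h.congr fun M => ?_
    unfold E6f
    rw [hq M]
  have e4 := h4.eventually_ne one_ne_zero
  have e6 := h6.eventually_ne one_ne_zero
  obtain ⟨M, ⟨hM4, hM6⟩, hM1⟩ := ((e4.and e6).and (Filter.eventually_ge_atTop 1)).exists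
  refine ⟨M, hM1, ?_⟩
  have him : 0 < ((M : ℂ) * z).im := by
    have h1 : (((M : ℕ) : ℂ) * z).im = (M : ℝ) * z.im := by
      rw [← Complex.ofReal_natCast, Complex.im_ofReal_mul]
    rw [h1]
    exact mul_pos (by exact_mod_cast hM1) hz
  rw [djf him]
  refine div_ne_zero (mul_ne_zero (mul_ne_zero (neg_ne_zero.mpr ?_) (by norm_num)) ?_)
    (disc_ne him)
  · exact mul_ne_zero (mul_ne_zero two_ne_zero (by exact_mod_cast Real.pi_ne_zero))
      Complex.I_ne_zero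
  · exact mul_ne_zero (pow_ne_zero 2 hM4) hM6

end Pool.Agent.Lib.MP5e
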