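import Pool.Agent.Lib.MP_5e64e7_nt.GDefs

set_option autoImplicit false

/-!
# G.RELA : `GRel` is an equivalence relation on the upper half plane (about 120 lines)

For `Im z > 0` and rational `r, s`, `r z + s = 0` only if `r = s = 0` (imaginary part), which is excluded by
`p s - q r > 0`. `Im ((p z + q)/(r z + s)) = (p s - q r) Im z/|r z + s|² > 0`. Inverse: `z = (s z' - q)/(-r z' + p)`.
Composition: matrix product. `grel_quad`: if `a z'² + b z' + c = 0`, `z' = (p z + q)/(r z + s)`, then
`a (p z + q)² + b (p z + q)(r z + s) + c (r z + s)² = 0`, a rational polynomial of degree `≤ 2` in `z`; its leading coefficient is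
not `0`: otherwise `z` (not real) is a root of a rational polynomial of degree `≤ 1`, which has to be zero; the
discriminant of the transformed form is `(ps - qr)² (b² - 4ac)`, and `b² - 4ac ≠ 0` since `z'` is not real. (Or: a nonzero
rational polynomial of degree `≤ 2` with a root that is not real has degree `2`; the transformed polynomial is not zero
because the transformation `(a, b, c) ↦ …` is invertible.)
`grel_fix`: `r z² + (s - p) z - q = 0`; if `r ≠ 0` then `GQuad z`; so `r = 0`, and then `s = p`, `q = 0` as `z` is not real.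
-/

noncomputable section

namespace Pool.Agent.Lib.MP5e

open Polynomial Topology

/-- a rational polynomial of degree at most one with a root which is not real is zero -/
private lemma lin_zero {z : ℂ} (hz : 0 < z.im) {r s : ℚ} (h : (r : ℂ) * z + (s : ℂ) = 0) :
    r = 0 ∧ s = 0 := by
  have h1 := congrArg Complex.im h
  simp only [Complex.add_im, Complex.mul_im, Complex.ratCast_re, Complex.ratCast_im, zero_mul,
    add_zero, Complex.zero_im] at h1
  have hr : (r : ℝ) = 0 := by
    rcases mul_eq_zero.mp h1 with h2 | h2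
    · exact h2
    · exact absurd h2 hz.ne'
  have hr' : r = 0 := by exact_mod_cast hr
  subst hr'
  refine ⟨rfl, ?_⟩
  rw [Rat.cast_zero, zero_mul, zero_add] at h
  exact_mod_cast h

theorem grel_den {z : ℂ} (hz : 0 < z.im) {p q r s : ℚ} (h : 0 < p * s - q * r) :
    (r : ℂ) * z + (s : ℂ) ≠ 0 := by
  intro h0
  obtain ⟨h1, h2⟩ := lin_zero hz h0
  rw [h1, h2] at h
  simp at h

theorem grel_im {z z' : ℂ} (hz : 0 < z.im) (h : GRel z z') : 0 < z'.im := by
  obtain ⟨p, q, r, s, hd, rfl⟩ := h
  have hne := grel_den hz hd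
  have hN : 0 < Complex.normSq ((r : ℂ) * z + (s : ℂ)) := Complex.normSq_pos.mpr hne
  have hd' : (0 : ℝ) < (p : ℝ) * s - q * r := by exact_mod_cast hd
  rw [Complex.div_im, ← sub_div]
  refine div_pos ?_ hN
  simp only [Complex.add_im, Complex.mul_im, Complex.ratCast_re, Complex.ratCast_im, zero_mul,
    add_zero, Complex.add_re, Complex.mul_re, sub_zero]
  have : (p : ℝ) * z.im * (r * z.re + s) - (p * z.re + q) * (r * z.im) =
      ((p : ℝ) * s - q * r) * z.im := by ring
  rw [this]
  exact mul_pos hd' hz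

theorem grel_refl (z : ℂ) : GRel z z := by
  refine ⟨1, 0, 0, 1, by norm_num, ?_⟩
  simp

theorem grel_symm {z z' : ℂ} (hz : 0 < z.im) (h : GRel z z') : GRel z' z := by
  have hz' := grel_im hz h
  obtain ⟨p, q, r, s, hd, he⟩ := h
  have hne := grel_den hz hd
  have hd2 : 0 < s * p - (-q) * (-r) := by
    have : s * p - (-q) * (-r) = p * s - q * r := by ring
    rw [this]
    exact hd
  have hne2 := grel_den hz' hd2
  refine ⟨s, -q, -r, p, hd2, ?_⟩
  rw [eq_div_iff hne2]
  have he' : z' * ((r : ℂ) * z + (s : ℂ)) = (p : ℂ) * z + (q : ℂ) := by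
    rw [he, div_mul_cancel₀ _ hne]
  push_cast
  linear_combination -he'

theorem grel_trans {z z' z'' : ℂ} (hz : 0 < z.im) (h : GRel z z') (h' : GRel z' z'') :
    GRel z z'' := by
  have hz' := grel_im hz h
  obtain ⟨p, q, r, s, hd, he⟩ := h
  obtain ⟨p', q', r', s', hd', he''⟩ := h'
  have hne := grel_den hz hd
  have hne' := grel_den hz' hd'
  have hd2 : 0 < (p' * p + q' * r) * (r' * q + s' * s) - (p' * q + q' * s) * (r' * p + s' * r) := by
    have : (p' * p + q' * r) * (r' * q + s' * s) - (p' * q + q' * s) * (r' * p + s' * r) =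
      (p * s - q * r) * (p' * s' - q' * r') := by ring
    rw [this]
    exact mul_pos hd hd'
  refine ⟨p' * p + q' * r, p' * q + q' * s, r' * p + s' * r, r' * q + s' * s, hd2, ?_⟩
  have hne2 := grel_den hz hd2
  rw [eq_div_iff hne2, he'', div_mul_eq_mul_div, div_eq_iff hne']
  have he' : z' * ((r : ℂ) * z + (s : ℂ)) = (p : ℂ) * z + (q : ℂ) := by
    rw [he, div_mul_cancel₀ _ hne]
  push_cast
  have e1 : (((r' : ℂ) * p + s' * r) * z + (r' * q + s' * s)) =
      ((r' : ℂ) * z' + s') * (r * z + s) := by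
    linear_combination (-(r' : ℂ)) * he'
  have e2 : (((p' : ℂ) * p + q' * r) * z + (p' * q + q' * s)) =
      ((p' : ℂ) * z' + q') * (r * z + s) := by
    linear_combination (-(p' : ℂ)) * he'
  rw [e1, e2]
  ring

private lemma grel_quad_aux {z z' : ℂ} (hz : 0 < z.im) (h : GRel z z') (hq : GQuad z') :
    GQuad z := by
  obtain ⟨p, q, r, s, hd, he⟩ := h
  obtain ⟨a, b, c, ha, hroot⟩ := hq
  have hne := grel_den hz hd
  have he' : z' * ((r : ℂ) * z + (s : ℂ)) = (p : ℂ) * z + (q : ℂ) := by
    rw [he, div_mul_cancel₀ _ hne]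
  have h1 : ((a * p ^ 2 + b * p * r + c * r ^ 2 : ℚ) : ℂ) * z ^ 2 +
      ((2 * a * p * q + b * (p * s + q * r) + 2 * c * r * s : ℚ) : ℂ) * z +
      ((a * q ^ 2 + b * q * s + c * s ^ 2 : ℚ) : ℂ) = 0 := by
    push_cast
    have e1 : (a : ℂ) * (p * z + q) ^ 2 + b * (p * z + q) * (r * z + s) + c * (r * z + s) ^ 2 =
        0 := by
      rw [← he']
      have : (a : ℂ) * (z' * (r * z + s)) ^ 2 + b * (z' * (r * z + s)) * (r * z + s) +
          c * (r * z + s) ^ 2 = (a * z' ^ 2 + b * z' + c) * (r * z + s) ^ 2 := by ring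
      rw [this, hroot, zero_mul]
    linear_combination e1
  refine ⟨_, _, _, ?_, h1⟩
  intro hA
  rw [hA, Rat.cast_zero, zero_mul, zero_add] at h1
  obtain ⟨hB, hC⟩ := lin_zero hz h1
  have e : a * (p * s - q * r) ^ 2 = 0 := by
    linear_combination s ^ 2 * hA - s * r * hB + r ^ 2 * hC
  rcases mul_eq_zero.mp e with h2 | h2
  · exact ha h2
  · exact hd.ne' (pow_eq_zero_iff (two_ne_zero)|>.mp h2)

theorem grel_quad {z z' : ℂ} (hz : 0 < z.im) (h : GRel z z') : GQuad z ↔ GQuad z' :=
  ⟨grel_quad_aux (grel_im hz h) (grel_symm hz h), grel_quad_aux hz h⟩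

theorem grel_fix {z : ℂ} (hz : 0 < z.im) (hq : ¬ GQuad z) {p q r s : ℚ} (h : 0 < p * s - q * r)
    (hf : z = ((p : ℂ) * z + (q : ℂ)) / ((r : ℂ) * z + (s : ℂ))) : q = 0 ∧ r = 0 ∧ p = s := by
  have hne := grel_den hz h
  have he : z * ((r : ℂ) * z + (s : ℂ)) = (p : ℂ) * z + (q : ℂ) := by
    exact (eq_div_iff hne).mp hf
  have hr : r = 0 := by
    by_contra hr
    refine hq ⟨r, s - p, -q, hr, ?_⟩
    push_cast
    linear_combination he
  subst hr
  have h1 : ((s - p : ℚ) : ℂ) * z + ((-q : ℚ) : ℂ) = 0 := by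
    push_cast
    push_cast at he
    linear_combination he
  obtain ⟨h2, h3⟩ := lin_zero hz h1
  refine ⟨by linarith, rfl, by linarith⟩

end Pool.Agent.Lib.MP5e
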