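import Pool.Agent.Lib.MP_5e64e7_nt.QRat
import Pool.Agent.Lib.MP_5e64e7_nt.RepA

set_option autoImplicit false

/-!
# Q.TOR : a field of small degree containing the values of `℘` on a cyclic group
-/

noncomputable section

namespace Pool.Agent.Lib.MP5e

open Polynomial Topology

/-- the roots of a polynomial with leading coefficient of absolute value `≥ 1` are bounded by the
sum of the absolute values of its coefficients -/
private lemma qtor_root_le (b : ℂ[X]) (hb : 1 ≤ ‖b.leadingCoeff‖) (M : ℝ) (hM : NormR_L b ≤ M)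
    (hM1 : 1 ≤ M) (y : ℂ) (hy : b.eval y = 0) : ‖y‖ ≤ M := by
  rcases le_or_gt ‖y‖ 1 with hy1 | hy1
  · exact hy1.trans hM1
  have hb0 : b ≠ 0 := by
    intro h
    rw [h, Polynomial.leadingCoeff_zero, norm_zero] at hb
    linarith
  have hn : b.natDegree ≠ 0 := by
    intro h0
    have h1 : b = C (b.coeff 0) := Polynomial.eq_C_of_natDegree_eq_zero h0
    rw [h1, Polynomial.eval_C] at hy
    rw [hy, Polynomial.C_0] at h1
    exact hb0 h1
  obtain ⟨n, hn'⟩ := Nat.exists_eq_succ_of_ne_zero hn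
  have hsplit : NormR_L b = ∑ k ∈ Finset.range (n + 1), ‖b.coeff k‖ + ‖b.leadingCoeff‖ := by
    rw [NormR_L_eq b (n + 2) (by omega), Finset.sum_range_succ]
    have : b.leadingCoeff = b.coeff (n + 1) := by
      rw [← Polynomial.coeff_natDegree, hn']
    rw [this]
  have hev : b.eval y = ∑ k ∈ Finset.range (n + 1), b.coeff k * y ^ k +
      b.leadingCoeff * y ^ (n + 1) := by
    rw [Polynomial.eval_eq_sum_range, hn', Finset.sum_range_succ]
    have : b.leadingCoeff = b.coeff (n + 1) := by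
      rw [← Polynomial.coeff_natDegree, hn']
    rw [this]
  have h2 : ‖b.leadingCoeff * y ^ (n + 1)‖ = ‖∑ k ∈ Finset.range (n + 1), b.coeff k * y ^ k‖ := by
    have : b.leadingCoeff * y ^ (n + 1) = -∑ k ∈ Finset.range (n + 1), b.coeff k * y ^ k := by
      linear_combination hy - hev
    rw [this, norm_neg]
  have h3 : ‖∑ k ∈ Finset.range (n + 1), b.coeff k * y ^ k‖ ≤ M * ‖y‖ ^ n := by
    refine (norm_sum_le _ _).trans ?_
    have h4 : ∀ k ∈ Finset.range (n + 1), ‖b.coeff k * y ^ k‖ ≤ ‖b.coeff k‖ * ‖y‖ ^ n := by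
      intro k hk
      rw [norm_mul, norm_pow]
      apply mul_le_mul_of_nonneg_left _ (norm_nonneg _)
      apply pow_le_pow_right₀ hy1.le
      have := Finset.mem_range.mp hk
      omega
    refine (Finset.sum_le_sum h4).trans ?_
    rw [← Finset.sum_mul]
    apply mul_le_mul_of_nonneg_right _ (by positivity)
    have := norm_nonneg b.leadingCoeff
    linarith
  have h5 : ‖y‖ ^ (n + 1) ≤ ‖b.leadingCoeff * y ^ (n + 1)‖ := by
    rw [norm_mul, norm_pow]
    calc ‖y‖ ^ (n + 1) = 1 * ‖y‖ ^ (n + 1) := (one_mul _).symm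
      _ ≤ _ := mul_le_mul_of_nonneg_right hb (by positivity)
  have h8 : ‖y‖ ^ n * ‖y‖ ≤ ‖y‖ ^ n * M := by
    calc ‖y‖ ^ n * ‖y‖ = ‖y‖ ^ (n + 1) := (pow_succ _ _).symm
      _ ≤ M * ‖y‖ ^ n := (h5.trans h2.le).trans h3
      _ = _ := mul_comm _ _
  exact le_of_mul_le_mul_left h8 (by positivity)

/-- adjoining a root of a polynomial over `K` -/
private lemma qtor_field (K : IntermediateField ℚ ℂ) (hfd : FiniteDimensional ℚ K) (P : K[X])
    (hP0 : P ≠ 0) (n : ℕ) (hn : P.natDegree ≤ n) (x : ℂ) (hPx : Polynomial.aeval x P = 0) :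
    ∃ K' : IntermediateField ℚ ℂ, K ≤ K' ∧ FiniteDimensional ℚ K' ∧
      Module.finrank ℚ K' ≤ n * Module.finrank ℚ K ∧ x ∈ K' := by
  have hxint : IsIntegral K x := by
    rw [← isAlgebraic_iff_isIntegral]
    exact ⟨P, hP0, hPx⟩
  have hKint : FiniteDimensional K (IntermediateField.adjoin K {x}) :=
    IntermediateField.adjoin.finiteDimensional hxint
  have hfin2 : FiniteDimensional ℚ (IntermediateField.adjoin K {x}) :=
    FiniteDimensional.trans ℚ K _
  set K' : IntermediateField ℚ ℂ :=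
    IntermediateField.restrictScalars ℚ (IntermediateField.adjoin K {x}) with hK'
  have hle : K ≤ K' := by
    intro y hy
    have h1 : algebraMap K ℂ ⟨y, hy⟩ ∈ IntermediateField.adjoin K {x} :=
      IntermediateField.algebraMap_mem _ _
    exact h1
  have hxmem : x ∈ K' := IntermediateField.mem_adjoin_simple_self K x
  refine ⟨K', hle, hfin2, ?_, hxmem⟩
  have h1 : Module.finrank ℚ K * Module.finrank K (IntermediateField.adjoin K {x}) =
      Module.finrank ℚ (IntermediateField.adjoin K {x}) :=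
    Module.finrank_mul_finrank ℚ K _
  have h2 : Module.finrank K (IntermediateField.adjoin K {x}) ≤ n := by
    rw [IntermediateField.adjoin.finrank hxint]
    have h3 := Polynomial.natDegree_le_of_dvd (minpoly.dvd K x hPx) hP0
    exact h3.trans hn
  have h3 : Module.finrank ℚ K' = Module.finrank ℚ (IntermediateField.adjoin K {x}) := rfl
  rw [h3, ← h1, mul_comm]
  exact Nat.mul_le_mul_right _ h2

private lemma qtor_lc {S : Type*} [CommRing S] (N : ℕ) (a b : S)
    (B : Polynomial (MvPolynomial (Fin 2) ℤ))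
    (hlc : B.leadingCoeff = ((N : ℕ) : MvPolynomial (Fin 2) ℤ) ^ 2) :
    (qsp a b B).coeff B.natDegree = (N : S) ^ 2 := by
  unfold qsp
  rw [Polynomial.coeff_map, Polynomial.coeff_natDegree, hlc, map_pow, map_natCast]

private lemma qtor_deg {S : Type*} [CommRing S] (N : ℕ) (a b : S)
    (B : Polynomial (MvPolynomial (Fin 2) ℤ))
    (hlc : B.leadingCoeff = ((N : ℕ) : MvPolynomial (Fin 2) ℤ) ^ 2) (hS : (N : S) ^ 2 ≠ 0) :
    (qsp a b B).natDegree = B.natDegree ∧ (qsp a b B).leadingCoeff = (N : S) ^ 2 := by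
  have h1 := qtor_lc N a b B hlc
  have h2 : (qsp a b B).natDegree = B.natDegree := by
    apply le_antisymm
    · exact Polynomial.natDegree_map_le
    · apply Polynomial.le_natDegree_of_ne_zero
      rw [h1]
      exact hS
  refine ⟨h2, ?_⟩
  rw [← Polynomial.coeff_natDegree, h2, h1]

/-- `N² x` for a root `x` of `qsp α β B` -/
private lemma qtor_AI (K : IntermediateField ℚ ℂ) (R : ℝ) (hR : 2 ≤ R) (α β : ℂ)
    (h2 : AI K R α) (h3 : AI K R β) (N : ℕ) (hN : 1 ≤ N)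
    (A B : Polynomial (MvPolynomial (Fin 2) ℤ)) (hM : QMult N A B)
    (x : ℂ) (hx : (qsp α β B).eval x = 0) (hxK : x ∈ K) :
    AI K (R ^ (6 * N ^ 3)) ((N : ℂ) ^ 2 * x) := by
  obtain ⟨a, ha, haint, hab⟩ := h2
  obtain ⟨b, hb, hbint, hbb⟩ := h3
  obtain ⟨-, -, hlc, -, hbd, -⟩ := hM
  have hN0 : (N : ℂ) ^ 2 ≠ 0 := pow_ne_zero _ (by exact_mod_cast (by omega : N ≠ 0))
  have hinj : Function.Injective (algebraMap K ℂ).toIntAlgHom := by
    intro u v huv
    exact (algebraMap K ℂ).injective huv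
  have hinja : Function.Injective (algebraMap K ℂ) := (algebraMap K ℂ).injective
  have hαint : IsIntegral ℤ α := by
    rw [← ha]
    exact haint.map (algebraMap K ℂ).toIntAlgHom
  have hβint : IsIntegral ℤ β := by
    rw [← hb]
    exact hbint.map (algebraMap K ℂ).toIntAlgHom
  have hint : IsIntegral ℤ ((N : ℂ) ^ 2 * x) := by
    set R0 := integralClosure ℤ ℂ with hR0
    obtain ⟨a1, ha1⟩ : ∃ a1 : R0, a1 = ⟨α, hαint⟩ := ⟨_, rfl⟩
    obtain ⟨b1, hb1⟩ : ∃ b1 : R0, b1 = ⟨β, hβint⟩ := ⟨_, rfl⟩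
    have hNR : (N : R0) ^ 2 ≠ 0 := by
      intro h
      apply hN0
      have h4 := congrArg (algebraMap R0 ℂ) h
      rw [map_pow, map_natCast, map_zero] at h4
      exact h4
    obtain ⟨-, hlc1⟩ := qtor_deg N a1 b1 B hlc hNR
    have hroot : Polynomial.aeval x (qsp a1 b1 B) = 0 := by
      rw [Polynomial.aeval_def, ← Polynomial.eval_map, qsp_map]
      have e1 : algebraMap R0 ℂ a1 = α := by rw [ha1]; rfl
      have e2 : algebraMap R0 ℂ b1 = β := by rw [hb1]; rfl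
      rw [e1, e2]
      exact hx
    have h4 : IsIntegral R0 ((qsp a1 b1 B).leadingCoeff • x) :=
      isIntegral_leadingCoeff_smul _ x hroot
    rw [hlc1] at h4
    have h5 : ((N : R0) ^ 2) • x = (N : ℂ) ^ 2 * x := by
      rw [Algebra.smul_def, map_pow, map_natCast]
    rw [h5] at h4
    have h6 : Algebra.IsIntegral ℤ R0 := integralClosure.AlgebraIsIntegral
    exact isIntegral_trans _ h4
  have hmem : (N : ℂ) ^ 2 * x ∈ K := K.mul_mem (pow_mem (natCast_mem K N) 2) hxK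
  refine ⟨⟨(N : ℂ) ^ 2 * x, hmem⟩, rfl, ?_, ?_⟩
  · exact (isIntegral_algHom_iff (algebraMap K ℂ).toIntAlgHom hinj).1 hint
  · intro φ
    have h1 : (⟨(N : ℂ) ^ 2 * x, hmem⟩ : K) = (N : K) ^ 2 * ⟨x, hxK⟩ := by
      apply Subtype.ext
      push_cast
      rfl
    rw [h1, map_mul, map_pow, map_natCast, norm_mul, norm_pow, Complex.norm_natCast]
    have hrootK : (qsp a b B).eval (⟨x, hxK⟩ : K) = 0 := by
      apply hinja
      rw [map_zero, ← Polynomial.eval_map_apply, qsp_map]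
      have e1 : algebraMap K ℂ a = α := ha
      have e2 : algebraMap K ℂ b = β := hb
      rw [e1, e2]
      exact hx
    have hrootφ : (qsp (φ a) (φ b) B).eval (φ ⟨x, hxK⟩) = 0 := by
      have h4 := congrArg (φ : K →+* ℂ) hrootK
      rw [map_zero, ← Polynomial.eval_map_apply, qsp_map] at h4
      exact h4
    obtain ⟨-, hlcφ⟩ := qtor_deg N (φ a) (φ b) B hlc hN0
    have hR1 : (1 : ℝ) ≤ R := by linarith
    have h4 : ‖φ ⟨x, hxK⟩‖ ≤ R ^ (5 * N ^ 3) := by
      refine qtor_root_le _ ?_ _ (hbd R hR (φ a) (φ b) (hab φ) (hbb φ)).2 (one_le_pow₀ hR1) _ hrootφ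
      rw [hlcφ, norm_pow, Complex.norm_natCast]
      have : (1 : ℝ) ≤ (N : ℝ) := by exact_mod_cast hN
      exact one_le_pow₀ this
    have h5 : (N : ℝ) ^ 2 ≤ R ^ N ^ 3 := by
      have h6 : (N : ℝ) ^ 2 ≤ (2 : ℝ) ^ N ^ 3 := by
        have h7 : N ^ 2 ≤ N ^ 3 := Nat.pow_le_pow_right hN (by norm_num)
        have h8 : N ^ 3 < 2 ^ N ^ 3 := Nat.lt_two_pow_self
        exact_mod_cast (h7.trans h8.le)
      exact h6.trans (pow_le_pow_left₀ (by norm_num) hR _)
    calc (N : ℝ) ^ 2 * ‖φ ⟨x, hxK⟩‖ ≤ R ^ N ^ 3 * R ^ (5 * N ^ 3) :=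
          mul_le_mul h5 h4 (norm_nonneg _) (by positivity)
      _ = R ^ (6 * N ^ 3) := by
          rw [← pow_add]
          congr 1
          ring

theorem qexists_tor (L : PeriodPair) (K0 : IntermediateField ℚ ℂ) (hK0 : FiniteDimensional ℚ K0)
    (R : ℝ) (hR : 2 ≤ R) (h2 : AI K0 R (L.g₂ / 4)) (h3 : AI K0 R (L.g₃ / 4)) (N : ℕ) (hN : 1 ≤ N)
    (s : ℂ) (hNs : (N : ℂ) * s ∈ L.lattice)
    (hs : ∀ k : ℕ, 1 ≤ k → k < N → (k : ℂ) * s ∉ L.lattice) :
    ∃ K : IntermediateField ℚ ℂ, K0 ≤ K ∧ FiniteDimensional ℚ K ∧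
      Module.finrank ℚ K ≤ N ^ 3 * Module.finrank ℚ K0 ∧
      ∀ k : ℕ, 1 ≤ k → k < N →
        AI K (R ^ (6 * N ^ 3)) ((N : ℂ) ^ 2 * L.weierstrassP ((k : ℂ) * s)) := by
  rcases eq_or_lt_of_le hN with h1 | h1
  · subst h1
    refine ⟨K0, le_rfl, hK0, by simp, ?_⟩
    intro k hk1 hk2
    omega
  · have hs1 : s ∉ L.lattice := by
      have := hs 1 le_rfl h1
      rwa [Nat.cast_one, one_mul] at this
    obtain ⟨A, B, hM⟩ := qexists_mult N hN
    have hroot := qtor_root hN L hs1 hNs hM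
    have hM2 := hM
    obtain ⟨-, hdeg, hlc, hdA, -, -⟩ := hM2
    have ha0 := h2.mem
    have hb0 := h3.mem
    have hNK : (N : K0) ^ 2 ≠ 0 := pow_ne_zero _ (by exact_mod_cast (by omega : N ≠ 0))
    obtain ⟨hPdeg, hPlc⟩ := qtor_deg N (⟨L.g₂ / 4, ha0⟩ : K0) (⟨L.g₃ / 4, hb0⟩ : K0) B hlc hNK
    have hP0 : qsp (⟨L.g₂ / 4, ha0⟩ : K0) (⟨L.g₃ / 4, hb0⟩ : K0) B ≠ 0 := by
      intro h
      rw [h, Polynomial.leadingCoeff_zero] at hPlc
      exact hNK hPlc.symm
    have hPx : Polynomial.aeval (L.weierstrassP s)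
        (qsp (⟨L.g₂ / 4, ha0⟩ : K0) (⟨L.g₃ / 4, hb0⟩ : K0) B) = 0 := by
      rw [Polynomial.aeval_def, ← Polynomial.eval_map, qsp_map]
      exact hroot
    obtain ⟨K, hK1, hK2, hK3, hK4⟩ := qtor_field K0 hK0 _ hP0 (N ^ 3) (by omega) _ hPx
    refine ⟨K, hK1, hK2, hK3, ?_⟩
    intro k hk1 hk2
    have hks := hs k hk1 hk2
    have hkN : (N : ℂ) * ((k : ℂ) * s) ∈ L.lattice := by
      have h2 : (N : ℂ) * ((k : ℂ) * s) = (k : ℤ) • ((N : ℂ) * s) := by
        rw [zsmul_eq_mul]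
        push_cast
        ring
      rw [h2]
      exact L.lattice.smul_mem _ hNs
    have hroot2 := qtor_root hN L hks hkN hM
    exact qtor_AI K R hR _ _ (h2.mono hK1 le_rfl) (h3.mono hK1 le_rfl) N hN A B hM _ hroot2
      (qmult_rat hk1 L K (hK1 ha0) (hK1 hb0) hs1 hks hK4)

end Pool.Agent.Lib.MP5e
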