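import Pool.Agent.Lib.MP_5e64e7_nt.QBasB
import Pool.Agent.Lib.MP_5e64e7_nt.QTor
import Pool.Agent.Lib.MP_5e64e7_nt.QE2
import Pool.Agent.Lib.MP_5e64e7_nt.TransB

set_option autoImplicit false

/-!
# Q.BAS : the base data

`ω = qom D`. Step 1: a complex number `l₀ ≠ 0` such that `E₄(ω)/l₀²` and `E₆(ω)/l₀³` are algebraic:
* `E₄(ω) = 0` : then `E₆(ω) ≠ 0` (`disc_ne`), `l₀³ = E₆(ω)` (values `0, 1`);
* `E₆(ω) = 0` : `l₀² = E₄(ω)` (values `1, 0`); for `D = 1` we are in this case (`E6f_I`, `qom 1 = I`);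
* otherwise `D ≥ 2` and `l₀ = E₆/E₄` : both values are `E₄³/E₆²` (`qbasB`).
Step 2: a natural number `M ≥ 1` such that `M · E₄/l₀²` and `M · E₆/l₀³` are algebraic integers
(`exists_integral_multiple`, then a common multiple). Let `l = l₀/M` : `3E₄/l² = 3M² E₄/l₀²` and
`2E₆/l³ = 2M³ E₆/l₀³` are algebraic integers. Choose `lam` with `lam² = π² l/3`, `L = PL lam ω`. `qell L = l`,
`g₂/4 = 3E₄/l²`, `g₃/4 = 2E₆/l³` (`qE4_base`, `qE6_base`).
Step 3: `F₀ = ℚ(g₂/4, g₃/4)` is finite over `ℚ`; it has finitely many embeddings, so there is `R₀ ≥ 2` with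
`AI F₀ R₀ (g₂/4)`, `AI F₀ R₀ (g₃/4)` (integrality in `F₀`: `isIntegral_algHom_iff`).
Step 4: `qexists_tor L F₀ R₀ D (qtor L ω 1 D 0 1)` (`qtor_top`, `qtor_notMem`, `qtor_mul`, `IsCoprime 1 0`): a field
`F ⊇ F₀` with `AI F R₁ (D² ℘(qtor k))`, `1 ≤ k < D`, `R₁ = R₀^(6D³)`. Put `u = -∑_{k ∈ Ico 1 D} D² ℘(qtor k)`, an
`AI F (D R₁)` (`AI.neg`, finite sum). Then `qE2` with `a = 1`, `b = 0`, `d = D` : `E₂(ω/D) = D E₂(ω) + ℓ S₁`, and
`ω/D = -1/ω`, `E2f_sl 0 (-1) 1 0` : `E₂(-1/ω) = ω² E₂(ω) + 6ω/(πi) = -D E₂(ω) + 6√D/π` (see `TransB.lean` for the exact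
form of `E2f_sl`). So `2D (E₂(ω) - 3/(π√D)) = -ℓ S₁`, multiply by `D²`. (Checked numerically.)
`R = max R₀ (D R₁)`, and `2 ≤ R`.
-/

noncomputable section

namespace Pool.Agent.Lib.MP5e

open Polynomial Topology

/-- step 1 -/
private lemma bas_one (D : ℕ) (hD : 1 ≤ D) : ∃ l : ℂ, l ≠ 0 ∧
    IsAlgebraic ℚ (E4f (qom D) / l ^ 2) ∧ IsAlgebraic ℚ (E6f (qom D) / l ^ 3) := by
  have hω := qom_pos hD
  have hdisc := disc_ne hω
  by_cases h4 : E4f (qom D) = 0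
  · have h6 : E6f (qom D) ≠ 0 := by
      intro h
      apply hdisc
      rw [h4, h]
      ring
    obtain ⟨l, hl⟩ := IsAlgClosed.exists_pow_nat_eq (E6f (qom D)) (n := 3) (by norm_num)
    refine ⟨l, ?_, ?_, ?_⟩
    · intro h
      apply h6
      rw [← hl, h]
      ring
    · rw [h4, zero_div]
      exact isAlgebraic_zero
    · rw [hl, div_self h6]
      exact isAlgebraic_one
  · by_cases h6 : E6f (qom D) = 0
    · obtain ⟨l, hl⟩ := IsAlgClosed.exists_pow_nat_eq (E4f (qom D)) (n := 2) (by norm_num)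
      refine ⟨l, ?_, ?_, ?_⟩
      · intro h
        apply h4
        rw [← hl, h]
        ring
      · rw [hl, div_self h4]
        exact isAlgebraic_one
      · rw [h6, zero_div]
        exact isAlgebraic_zero
    · have hD2 : 2 ≤ D := by
        by_contra hlt
        have hD1 : D = 1 := by omega
        apply h6
        rw [hD1]
        have : qom 1 = Complex.I := by
          unfold qom
          simp
        rw [this]
        exact E6f_I
      have hb := qbasB D hD2 h4 h6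
      refine ⟨E6f (qom D) / E4f (qom D), div_ne_zero h6 h4, ?_, ?_⟩
      · have : E4f (qom D) / (E6f (qom D) / E4f (qom D)) ^ 2 =
            E4f (qom D) ^ 3 / E6f (qom D) ^ 2 := by
          field_simp
        rw [this]
        exact hb
      · have : E6f (qom D) / (E6f (qom D) / E4f (qom D)) ^ 3 =
            E4f (qom D) ^ 3 / E6f (qom D) ^ 2 := by
          field_simp
        rw [this]
        exact hb

/-- integral multiples -/
private lemma bas_int {x : ℂ} (hx : IsAlgebraic ℚ x) :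
    ∃ M : ℕ, 1 ≤ M ∧ IsIntegral ℤ ((M : ℂ) * x) := by
  have h1 : IsAlgebraic ℤ x := (IsFractionRing.isAlgebraic_iff ℤ ℚ ℂ).mpr hx
  obtain ⟨y, hy, hi⟩ := h1.exists_integral_multiple
  refine ⟨y.natAbs, by omega, ?_⟩
  rw [zsmul_eq_mul] at hi
  rcases Int.natAbs_eq y with h | h
  · have e : ((y.natAbs : ℕ) : ℂ) = (y : ℂ) := by
      have h2 : ((y.natAbs : ℕ) : ℤ) = y := h.symm
      calc ((y.natAbs : ℕ) : ℂ) = (((y.natAbs : ℕ) : ℤ) : ℂ) := (Int.cast_natCast _).symm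
        _ = (y : ℂ) := by rw [h2]
    rw [e]
    exact hi
  · have e : ((y.natAbs : ℕ) : ℂ) = -(y : ℂ) := by
      have h2 : ((y.natAbs : ℕ) : ℤ) = -y := by omega
      calc ((y.natAbs : ℕ) : ℂ) = (((y.natAbs : ℕ) : ℤ) : ℂ) := (Int.cast_natCast _).symm
        _ = -(y : ℂ) := by rw [h2, Int.cast_neg]
    rw [e, neg_mul]
    exact hi.neg

private lemma bas_nat (v : ℕ) : IsIntegral ℤ ((v : ℕ) : ℂ) := by
  have h := isIntegral_algebraMap (R := ℤ) (A := ℂ) (x := (v : ℤ))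
  simpa using h

/-- step 3 -/
private lemma bas_field {x y : ℂ} (hx : IsIntegral ℤ x) (hy : IsIntegral ℤ y) :
    ∃ (F : IntermediateField ℚ ℂ) (R : ℝ), FiniteDimensional ℚ F ∧ 2 ≤ R ∧ AI F R x ∧
      AI F R y := by
  set F : IntermediateField ℚ ℂ := IntermediateField.adjoin ℚ {x, y} with hF
  have hfd : FiniteDimensional ℚ F := by
    apply IntermediateField.finiteDimensional_adjoin
    intro z hz
    rcases hz with h | h
    · rw [h]
      exact hx.tower_top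
    · rw [Set.mem_singleton_iff.mp h]
      exact hy.tower_top
  have hxF : x ∈ F := IntermediateField.subset_adjoin ℚ _ (Set.mem_insert _ _)
  have hyF : y ∈ F := IntermediateField.subset_adjoin ℚ _ (Set.mem_insert_of_mem _ rfl)
  have hinj : Function.Injective (IsScalarTower.toAlgHom ℤ F ℂ) :=
    fun a b h => Subtype.ext h
  have hxi : IsIntegral ℤ (⟨x, hxF⟩ : F) :=
    (isIntegral_algHom_iff (IsScalarTower.toAlgHom ℤ F ℂ) hinj).mp hx
  have hyi : IsIntegral ℤ (⟨y, hyF⟩ : F) :=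
    (isIntegral_algHom_iff (IsScalarTower.toAlgHom ℤ F ℂ) hinj).mp hy
  have s1 : 0 ≤ ∑ φ : F →ₐ[ℚ] ℂ, ‖φ ⟨x, hxF⟩‖ := Finset.sum_nonneg fun _ _ => norm_nonneg _
  have s2 : 0 ≤ ∑ φ : F →ₐ[ℚ] ℂ, ‖φ ⟨y, hyF⟩‖ := Finset.sum_nonneg fun _ _ => norm_nonneg _
  refine ⟨F, 2 + ∑ φ : F →ₐ[ℚ] ℂ, ‖φ ⟨x, hxF⟩‖ + ∑ φ : F →ₐ[ℚ] ℂ, ‖φ ⟨y, hyF⟩‖, hfd, by linarith,
    ⟨⟨x, hxF⟩, rfl, hxi, fun φ => ?_⟩, ⟨⟨y, hyF⟩, rfl, hyi, fun φ => ?_⟩⟩
  · have := Finset.single_le_sum (f := fun φ : F →ₐ[ℚ] ℂ => ‖φ ⟨x, hxF⟩‖)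
      (fun _ _ => norm_nonneg _) (Finset.mem_univ φ)
    linarith
  · have := Finset.single_le_sum (f := fun φ : F →ₐ[ℚ] ℂ => ‖φ ⟨y, hyF⟩‖)
      (fun _ _ => norm_nonneg _) (Finset.mem_univ φ)
    linarith

private lemma bas_sum {K : IntermediateField ℚ ℂ} {M : ℝ} (s : Finset ℕ) (f : ℕ → ℂ)
    (h : ∀ k ∈ s, AI K M (f k)) : AI K ((s.card : ℝ) * M) (∑ k ∈ s, f k) := by
  classical
  induction s using Finset.induction_on with
  | empty =>
    rw [Finset.sum_empty, Finset.card_empty]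
    have h0 := AI.nat K 0
    simpa using h0
  | insert a s ha ih =>
    rw [Finset.sum_insert ha, Finset.card_insert_of_notMem ha]
    have h1 := (h a (Finset.mem_insert_self _ _)).add
      (ih fun k hk => h k (Finset.mem_insert_of_mem hk))
    refine h1.mono le_rfl (le_of_eq ?_)
    push_cast
    ring

/-- `E₂` at `ω` -/
private lemma bas_E2 {D : ℕ} (hD : 1 ≤ D) :
    E2f (qom D / (D : ℂ)) = -(D : ℂ) * E2f (qom D) +
      6 * ((qom D).im : ℂ) / (Real.pi : ℂ) := by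
  have hw := qom_pos hD
  have h2 := qom_sq D
  have hpi : (Real.pi : ℂ) ≠ 0 := Complex.ofReal_ne_zero.mpr Real.pi_ne_zero
  have hw0 : qom D ≠ 0 := by
    intro h
    rw [h, Complex.zero_im] at hw
    exact lt_irrefl _ hw
  have hD0 : (D : ℂ) ≠ 0 := by
    have : D ≠ 0 := by omega
    exact_mod_cast this
  have h := E2f_sl 0 (-1) 1 0 (by norm_num) hw
  have e1 : (((0 : ℤ) : ℂ) * qom D + ((-1 : ℤ) : ℂ)) / (((1 : ℤ) : ℂ) * qom D + ((0 : ℤ) : ℂ)) =
      qom D / (D : ℂ) := by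
    push_cast
    rw [zero_mul, zero_add, one_mul, add_zero, div_eq_div_iff hw0 hD0]
    linear_combination -h2
  rw [e1] at h
  rw [h]
  have e3 : qom D = ((qom D).im : ℂ) * Complex.I := by
    rw [qom_im]
    rfl
  push_cast
  rw [one_mul, add_zero, h2, mul_one]
  congr 1
  rw [div_eq_div_iff (mul_ne_zero hpi Complex.I_ne_zero) hpi]
  linear_combination (6 * (Real.pi : ℂ)) * e3

theorem qbas (D : ℕ) (hD : 1 ≤ D) :
    ∃ (L : PeriodPair) (F : IntermediateField ℚ ℂ) (R : ℝ), QB D L F R := by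
  have hω := qom_pos hD
  have hpi : (Real.pi : ℂ) ≠ 0 := Complex.ofReal_ne_zero.mpr Real.pi_ne_zero
  obtain ⟨l0, hl0, ha4, ha6⟩ := bas_one D hD
  obtain ⟨M1, hM1, hi1⟩ := bas_int ha4
  obtain ⟨M2, hM2, hi2⟩ := bas_int ha6
  have hM1c : (M1 : ℂ) ≠ 0 := by
    have : M1 ≠ 0 := by omega
    exact_mod_cast this
  have hM2c : (M2 : ℂ) ≠ 0 := by
    have : M2 ≠ 0 := by omega
    exact_mod_cast this
  set l : ℂ := l0 / ((M1 : ℂ) * (M2 : ℂ)) with hl
  have hl_ne : l ≠ 0 := div_ne_zero hl0 (mul_ne_zero hM1c hM2c)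
  have i4 : IsIntegral ℤ (3 * E4f (qom D) / l ^ 2) := by
    have e : 3 * E4f (qom D) / l ^ 2 =
        ((3 * M1 * M2 ^ 2 : ℕ) : ℂ) * ((M1 : ℂ) * (E4f (qom D) / l0 ^ 2)) := by
      rw [hl]
      push_cast
      field_simp
    rw [e]
    exact (bas_nat _).mul hi1
  have i6 : IsIntegral ℤ (2 * E6f (qom D) / l ^ 3) := by
    have e : 2 * E6f (qom D) / l ^ 3 =
        ((2 * M1 ^ 3 * M2 ^ 2 : ℕ) : ℂ) * ((M2 : ℂ) * (E6f (qom D) / l0 ^ 3)) := by
      rw [hl]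
      push_cast
      field_simp
    rw [e]
    exact (bas_nat _).mul hi2
  obtain ⟨lam, hlam⟩ := IsAlgClosed.exists_pow_nat_eq ((Real.pi : ℂ) ^ 2 * l / 3) (n := 2)
    (by norm_num)
  have hlam0 : lam ≠ 0 := by
    intro h
    rw [h, zero_pow two_ne_zero] at hlam
    have : (Real.pi : ℂ) ^ 2 * l / 3 ≠ 0 :=
      div_ne_zero (mul_ne_zero (pow_ne_zero 2 hpi) hl_ne) (by norm_num)
    exact this hlam.symm
  set L : PeriodPair := PL lam (qom D) hlam0 hω with hL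
  have hL1 : L.ω₁ = lam := rfl
  have hL2 : L.ω₂ = qom D * L.ω₁ := rfl
  have hell : qell L = l := by
    unfold qell
    rw [hL1, hlam]
    field_simp
  have g2 : L.g₂ / 4 = 3 * E4f (qom D) / l ^ 2 := by
    rw [qE4_base L hω hL2, hell]
    field_simp
    ring
  have g3 : L.g₃ / 4 = 2 * E6f (qom D) / l ^ 3 := by
    rw [qE6_base L hω hL2, hell]
    field_simp
    ring
  obtain ⟨F0, R0, hF0, hR0, hA2, hA3⟩ := bas_field i4 i6
  rw [← g2] at hA2
  rw [← g3] at hA3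
  obtain ⟨F, hle, hFd, _, hF⟩ := qexists_tor L F0 hF0 R0 hR0 hA2 hA3 D hD (qtor L (qom D) 1 D 0 1)
    (by
      have h := qtor_top L hL2 (a := 1) (d := D) le_rfl hD 0
      rwa [one_mul] at h)
    (fun k hk1 hk2 => by
      rw [qtor_mul]
      exact qtor_notMem L hω hL2 le_rfl hD isCoprime_one_left hk1 (by omega))
  set R1 : ℝ := R0 ^ (6 * D ^ 3) with hR1
  have hR1pos : 0 ≤ R1 := by positivity
  have hu := (bas_sum (K := F) (M := R1) (Finset.Ico 1 D)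
    (fun k => (D : ℂ) ^ 2 * L.weierstrassP ((k : ℂ) * qtor L (qom D) 1 D 0 1)) (fun k hk => by
      rw [Finset.mem_Ico] at hk
      exact hF k hk.1 hk.2)).neg
  have hcard : ((Finset.Ico 1 D).card : ℝ) * R1 ≤ (D : ℝ) * R1 := by
    refine mul_le_mul_of_nonneg_right ?_ hR1pos
    rw [Nat.card_Ico]
    exact_mod_cast Nat.sub_le D 1
  refine ⟨L, F, max R0 ((D : ℝ) * R1), hL2, hFd, hR0.trans (le_max_left _ _),
    hA2.mono hle (le_max_left _ _), hA3.mono hle (le_max_left _ _), _,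
    hu.mono le_rfl (hcard.trans (le_max_right _ _)), ?_⟩
  -- the identity
  have h1 := qE2 L hω hL2 (a := 1) (d := D) (b := 0) le_rfl hD isCoprime_one_left
  have h2 : qsig (qom D) 1 D 0 = qom D / (D : ℂ) := by
    unfold qsig
    push_cast
    rw [one_mul, add_zero]
  rw [h2, bas_E2 hD] at h1
  have h3 : qS L (qom D) 1 D 0 1 =
      ∑ k ∈ Finset.Ico 1 D, L.weierstrassP ((k : ℂ) * qtor L (qom D) 1 D 0 1) := by
    unfold qS
    rw [one_mul]
    refine Finset.sum_congr rfl fun k _ => ?_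
    rw [pow_one, qtor_mul]
  rw [h3] at h1
  push_cast at h1
  rw [← Finset.mul_sum]
  have him : ((qom D).im : ℂ) ≠ 0 := by exact_mod_cast hω.ne'
  have hsq : ((qom D).im : ℂ) ^ 2 = (D : ℂ) := by
    rw [qom_im, ← Complex.ofReal_pow, Real.sq_sqrt (Nat.cast_nonneg D)]
    push_cast
    rfl
  have h4 : (3 : ℂ) / ((Real.pi : ℂ) * ((qom D).im : ℂ)) * (D : ℂ) =
      3 * ((qom D).im : ℂ) / (Real.pi : ℂ) := by
    rw [← hsq]
    field_simp
  set S := ∑ k ∈ Finset.Ico 1 D, L.weierstrassP ((k : ℂ) * qtor L (qom D) 1 D 0 1)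
  linear_combination (-(D : ℂ) ^ 2) * h1 - 2 * (D : ℂ) ^ 2 * h4

end Pool.Agent.Lib.MP5e
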