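import Pool.Agent.Lib.MP_5e64e7_nt.QCmd
import Pool.Agent.Lib.MP_5e64e7_nt.QAlg
import Pool.Agent.Lib.MP_5e64e7_nt.QTrd

set_option autoImplicit false

/-!
# Q.SPL : the period from a special point; transcendence of `z_k`
-/

noncomputable section

namespace Pool.Agent.Lib.MP5e

open Topology

theorem qgr_of_rat (D : ℕ) (u v : ℚ) (hv : 0 < v) :
    ∃ (c : ℕ) (x y : ℤ), 1 ≤ c ∧ 0 < y ∧ (u : ℂ) + (v : ℂ) * qom D = qgr D x y c := by
  refine ⟨u.den * v.den, u.num * v.den, v.num * u.den, ?_, ?_, ?_⟩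
  · exact Nat.mul_pos u.den_pos v.den_pos
  · exact mul_pos (Rat.num_pos.mpr hv) (by exact_mod_cast u.den_pos)
  · unfold qgr
    have h1 : (u.den : ℂ) ≠ 0 := by exact_mod_cast u.den_nz
    have h2 : (v.den : ℂ) ≠ 0 := by exact_mod_cast v.den_nz
    have hu : (u : ℂ) = (u.num : ℂ) / (u.den : ℂ) := by
      conv_lhs => rw [← Rat.num_div_den u]
      push_cast
      rfl
    have hv' : (v : ℂ) = (v.num : ℂ) / (v.den : ℂ) := by
      conv_lhs => rw [← Rat.num_div_den v]
      push_cast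
      rfl
    rw [hu, hv']
    push_cast
    field_simp

/-- the normalised values at a special point are algebraic -/
theorem qspl_alg (D : ℕ) (hD : 1 ≤ D) (L : PeriodPair) (F : IntermediateField ℚ ℂ) (R : ℝ)
    (hB : QB D L F R) (K : IntermediateField ℚ ℂ) (hK : QCl K) (τ : ℂ)
    (hτ : ∃ u v : ℚ, 0 < v ∧ τ = (u : ℂ) + (v : ℂ) * qom D) (i : Fin 3) :
    qv L τ (τ.im : ℂ) i ∈ K := by
  obtain ⟨u, v, hv, rfl⟩ := hτ
  have him : 0 < ((u : ℂ) + (v : ℂ) * qom D).im := by
    have e : ((u : ℂ) + (v : ℂ) * qom D).im = (v : ℝ) * (qom D).im := by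
      rw [show (u : ℂ) = ((u : ℝ) : ℂ) by push_cast; rfl,
        show (v : ℂ) = ((v : ℝ) : ℂ) by push_cast; rfl]
      simp
    rw [e]
    exact mul_pos (by exact_mod_cast hv) (qom_pos hD)
  obtain ⟨c, x, y, hc, hy, he⟩ := qgr_of_rat D u v hv
  rw [he] at him ⊢
  obtain ⟨C, hC⟩ := qcmd D hD L F R hB
  obtain ⟨B, hBdef⟩ : ∃ B : ℕ, B = 2 + c + x.natAbs + y.natAbs := ⟨_, rfl⟩
  obtain ⟨K', -, -, -, lam, hcm⟩ := hC F hB.2.1 le_rfl B c x y (by omega) hc (by omega)
    (by rw [Int.abs_eq_natAbs]; omega) hy (by omega)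
  obtain ⟨dl, hdl0, hdl, hv⟩ := qval L him hcm
  have h1 := qcl_AI hK hdl
  have h2 := qcl_AI hK (hv i)
  have h3 := div_mem h2 h1
  rwa [mul_div_cancel_left₀ _ hdl0] at h3

theorem qspl_ell (D : ℕ) (hD : 1 ≤ D) (L : PeriodPair) (F : IntermediateField ℚ ℂ) (R : ℝ)
    (hB : QB D L F R) (K : IntermediateField ℚ ℂ) (hK : QCl K) (τ : ℂ)
    (hτ : ∃ u v : ℚ, 0 < v ∧ τ = (u : ℂ) + (v : ℂ) * qom D)
    (h0 : ¬ (deriv jf τ = 0 ∧ deriv (deriv jf) τ = 0)) (h2 : deriv jf τ ∈ K)
    (h3 : deriv (deriv jf) τ ∈ K) : 2 * (Real.pi : ℂ) * Complex.I * qell L ∈ K := by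
  have hP : 2 * (Real.pi : ℂ) * Complex.I * qell L ≠ 0 :=
    mul_ne_zero (mul_ne_zero (mul_ne_zero two_ne_zero
      (Complex.ofReal_ne_zero.mpr Real.pi_ne_zero)) Complex.I_ne_zero) (qell_ne L)
  have q1 : deriv jf τ / (2 * (Real.pi : ℂ) * Complex.I * qell L) ∈ K :=
    qspl_alg D hD L F R hB K hK τ hτ 1
  have q2 : (deriv (deriv jf) τ - Complex.I / (τ.im : ℂ) * deriv jf τ) /
      (2 * (Real.pi : ℂ) * Complex.I * qell L) ^ 2 ∈ K :=
    qspl_alg D hD L F R hB K hK τ hτ 2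
  generalize 2 * (Real.pi : ℂ) * Complex.I * qell L = P at *
  by_cases hj : deriv jf τ = 0
  · have hjj : deriv (deriv jf) τ ≠ 0 := fun h => h0 ⟨hj, h⟩
    rw [hj, mul_zero, sub_zero] at q2
    apply qcl_sq hK
    have h4 := div_mem h3 q2
    have e : deriv (deriv jf) τ / (deriv (deriv jf) τ / P ^ 2) = P ^ 2 := by
      field_simp
    rwa [e] at h4
  · have h4 := div_mem h2 q1
    have e : deriv jf τ / (deriv jf τ / P) = P := by
      field_simp
    rwa [e] at h4

/-- `z = α(w)/β(w)` is transcendental if `w` is algebraically independent and `α/β` not constant -/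
theorem qtransc {m : ℕ} (f : QF m) (w : Fin m → ℂ) (hw : AlgebraicIndependent ℚ w)
    (him : 0 < (qz f w).im) (hnc : ¬ ∃ c : ℂ, ∀ x, qN f x = c * qE f x) :
    Transcendental ℚ (qz f w) := by
  classical
  intro halg
  obtain ⟨z, hz⟩ : ∃ z, z = qz f w := ⟨_, rfl⟩
  rw [← hz] at halg him
  have hE : qE f w ≠ 0 := by
    intro h0
    rw [hz] at him
    unfold qz at him
    rw [h0, div_zero, Complex.zero_im] at him
    exact lt_irrefl _ him
  have hN : qN f w = z * qE f w := by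
    rw [hz]
    unfold qz
    rw [div_mul_cancel₀ _ hE]
  -- the coefficients of `α - z β`
  obtain ⟨A, hA⟩ : ∃ A : Option (Fin m) → ℂ, A = fun o => ((f.p o : ℂ) + (f.q o : ℂ) * qom f.D) -
    z * ((f.r o : ℂ) + (f.s o : ℂ) * qom f.D) := ⟨_, rfl⟩
  have hform : ∀ x : Fin m → ℂ, qN f x - z * qE f x = (∑ l, A (some l) * x l) + A none := by
    intro x
    rw [hA]
    unfold qN qE qaf
    rw [mul_add, Finset.mul_sum, add_sub_add_comm, ← Finset.sum_sub_distrib]
    congr 1
    exact Finset.sum_congr rfl fun l _ => by ring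
  have hw0 : (∑ l, A (some l) * w l) + A none = 0 := by
    rw [← hform, hN, sub_self]
  obtain ⟨l, hl⟩ : ∃ l, A (some l) ≠ 0 := by
    by_contra hcon
    push Not at hcon
    have hs : ∀ x : Fin m → ℂ, ∑ l, A (some l) * x l = 0 := fun x =>
      Finset.sum_eq_zero fun l _ => by rw [hcon l, zero_mul]
    rw [hs, zero_add] at hw0
    apply hnc
    refine ⟨z, fun x => ?_⟩
    have h1 := hform x
    rw [hs, hw0, add_zero] at h1
    linear_combination h1
  -- exchange
  obtain ⟨s, hs1, hs2⟩ := qtrd w (fun i : {i : Fin m // i ≠ l} => w i.1) hw (by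
    intro K hK h1
    have hzK : z ∈ K := hK z (halg.extendScalars (algebraMap ℚ K).injective)
    have hrat : ∀ t : ℚ, (t : ℂ) ∈ K := fun t => SubfieldClass.ratCast_mem K t
    have hom := qcl_om hK f.D
    have hAK : ∀ o, A o ∈ K := by
      intro o
      rw [hA]
      exact sub_mem (add_mem (hrat _) (mul_mem (hrat _) hom))
        (mul_mem hzK (add_mem (hrat _) (mul_mem (hrat _) hom)))
    have h2 : ∀ i, i ≠ l → w i ∈ K := fun i hi => h1 ⟨i, hi⟩
    intro i
    by_cases hi : i = l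
    · rw [hi]
      have h3 : A (some l) * w l = -(∑ i ∈ Finset.univ.erase l, A (some i) * w i + A none) := by
        rw [← Finset.add_sum_erase _ _ (Finset.mem_univ l)] at hw0
        linear_combination hw0
      have h4 : w l = -(∑ i ∈ Finset.univ.erase l, A (some i) * w i + A none) / A (some l) := by
        rw [← h3, mul_div_cancel_left₀ _ hl]
      rw [h4]
      refine div_mem (neg_mem (add_mem (sum_mem fun i hi => ?_) (hAK _))) (hAK _)
      exact mul_mem (hAK _) (h2 i (Finset.ne_of_mem_erase hi))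
    · exact h2 i hi)
  have h3 : s.card ≤ Fintype.card {i : Fin m // i ≠ l} := Finset.card_le_univ s
  have h4 : Fintype.card {i : Fin m // i ≠ l} < Fintype.card (Fin m) :=
    Fintype.card_subtype_lt (x := l) (by simp)
  omega

end Pool.Agent.Lib.MP5e
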