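import Pool.Agent.Lib.MP_5e64e7_nt.GDefs
import Pool.Agent.Lib.MP_5e64e7_nt.QSpl
import Pool.Agent.Lib.MP_5e64e7_nt.QBas
import Pool.Agent.Lib.MP_5e64e7_nt.QAlg

set_option autoImplicit false

/-!
# G.SPL : the values of `J` at the special points of one field (about 70 lines)

`qbas D hD` gives `L, F, R` with `QB D L F R`; `c = 2πi ℓ`, `ℓ = qell L`, `c ≠ 0` (`qell_ne`). Let
`τ = u + v qom D`, `v > 0`, `Im τ > 0` (`qom_pos`).
By `qspl_alg`, the three numbers `qv L τ (Im τ) i` (`i = 0, 1, 2`: `j(τ)`, `j'(τ)/c`, `(j''(τ) - (i/Im τ) j'(τ))/c²`) are in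
every `QCl K`. So `j(τ) ∈ K`; if `c ∈ K`, `j'(τ) = c * (…) ∈ K`, `j''(τ) = c² * (…) + (i/Im τ) j'(τ) ∈ K`
(`I ∈ K`: `qcl_I`; `Im τ = v √D`, `qcl_om`: `qom D ∈ K`, `(Im τ : ℂ) = v qom D/I`), `J4 τ 0 = τ ∈ K`.
The last statement is `qspl_ell`.
-/

noncomputable section

namespace Pool.Agent.Lib.MP5e

open Polynomial Topology

private theorem gspl_im (D : ℕ) (u v : ℚ) :
    ((((u : ℂ) + (v : ℂ) * qom D).im : ℝ) : ℂ) = (v : ℂ) * (qom D / Complex.I) := by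
  have e : ((u : ℂ) + (v : ℂ) * qom D).im = (v : ℝ) * (qom D).im := by
    rw [show (u : ℂ) = ((u : ℝ) : ℂ) by push_cast; rfl,
      show (v : ℂ) = ((v : ℝ) : ℂ) by push_cast; rfl]
    simp
  have e2 : qom D / Complex.I = ((qom D).im : ℂ) := by
    rw [qom_im]
    unfold qom
    rw [mul_div_cancel_right₀ _ Complex.I_ne_zero]
  rw [e, e2]
  push_cast
  rfl

private theorem gspl_mem {K : IntermediateField ℚ ℂ} (hK : QCl K) (D : ℕ) (u v : ℚ) :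
    (u : ℂ) + (v : ℂ) * qom D ∈ K := by
  have hu : (u : ℂ) ∈ K := by
    have := K.algebraMap_mem u
    simpa using this
  have hv : (v : ℂ) ∈ K := by
    have := K.algebraMap_mem v
    simpa using this
  exact add_mem hu (mul_mem hv (qcl_om hK D))

theorem gspl (D : ℕ) (hD : 1 ≤ D) : ∃ c : ℂ,
    (∀ K : IntermediateField ℚ ℂ, QCl K → c ∈ K → ∀ u v : ℚ, 0 < v → ∀ i : Fin 4,
      J4 ((u : ℂ) + (v : ℂ) * qom D) i ∈ K) ∧
    (∀ K : IntermediateField ℚ ℂ, QCl K → ∀ u v : ℚ, 0 < v →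
      jf ((u : ℂ) + (v : ℂ) * qom D) ∈ K ∧ (u : ℂ) + (v : ℂ) * qom D ∈ K) ∧
    (∀ K : IntermediateField ℚ ℂ, QCl K → ∀ u v : ℚ, 0 < v →
      ¬ (deriv jf ((u : ℂ) + (v : ℂ) * qom D) = 0 ∧
        deriv (deriv jf) ((u : ℂ) + (v : ℂ) * qom D) = 0) →
      deriv jf ((u : ℂ) + (v : ℂ) * qom D) ∈ K →
      deriv (deriv jf) ((u : ℂ) + (v : ℂ) * qom D) ∈ K → c ∈ K) := by
  obtain ⟨L, F, R, hB⟩ := qbas D hD
  have hP : 2 * (Real.pi : ℂ) * Complex.I * qell L ≠ 0 :=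
    mul_ne_zero (mul_ne_zero (mul_ne_zero two_ne_zero
      (Complex.ofReal_ne_zero.mpr Real.pi_ne_zero)) Complex.I_ne_zero) (qell_ne L)
  refine ⟨2 * (Real.pi : ℂ) * Complex.I * qell L, ?_, ?_, ?_⟩
  · intro K hK hc u v hv i
    have q0 : jf ((u : ℂ) + (v : ℂ) * qom D) ∈ K :=
      qspl_alg D hD L F R hB K hK _ ⟨u, v, hv, rfl⟩ 0
    have q1 : deriv jf ((u : ℂ) + (v : ℂ) * qom D) /
        (2 * (Real.pi : ℂ) * Complex.I * qell L) ∈ K :=
      qspl_alg D hD L F R hB K hK _ ⟨u, v, hv, rfl⟩ 1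
    have q2 : (deriv (deriv jf) ((u : ℂ) + (v : ℂ) * qom D) -
        Complex.I / ((((u : ℂ) + (v : ℂ) * qom D).im : ℝ) : ℂ) *
          deriv jf ((u : ℂ) + (v : ℂ) * qom D)) /
        (2 * (Real.pi : ℂ) * Complex.I * qell L) ^ 2 ∈ K :=
      qspl_alg D hD L F R hB K hK _ ⟨u, v, hv, rfl⟩ 2
    have hvK : (v : ℂ) ∈ K := by
      have := K.algebraMap_mem v
      simpa using this
    have him : ((((u : ℂ) + (v : ℂ) * qom D).im : ℝ) : ℂ) ∈ K := by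
      rw [gspl_im]
      exact mul_mem hvK (div_mem (qcl_om hK D) (qcl_I hK))
    have d1 : deriv jf ((u : ℂ) + (v : ℂ) * qom D) ∈ K := by
      have h := mul_mem q1 hc
      rwa [div_mul_cancel₀ _ hP] at h
    have d2 : deriv (deriv jf) ((u : ℂ) + (v : ℂ) * qom D) ∈ K := by
      have h := add_mem (mul_mem q2 (pow_mem hc 2)) (mul_mem (div_mem (qcl_I hK) him) d1)
      rwa [div_mul_cancel₀ _ (pow_ne_zero 2 hP), sub_add_cancel] at h
    fin_cases i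
    · exact gspl_mem hK D u v
    · exact q0
    · exact d1
    · exact d2
  · intro K hK u v hv
    exact ⟨qspl_alg D hD L F R hB K hK _ ⟨u, v, hv, rfl⟩ 0, gspl_mem hK D u v⟩
  · intro K hK u v hv h0 h2 h3
    exact qspl_ell D hD L F R hB K hK _ ⟨u, v, hv, rfl⟩ h0 h2 h3

end Pool.Agent.Lib.MP5e
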