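import Pool.Agent.Lib.MP_5e64e7_nt.QDefs

set_option autoImplicit false

/-!
# Q.EXCH : exchange of transcendence bases
-/

noncomputable section

namespace Pool.Agent.Lib.MP5e

/-- `w` algebraically independent, `z` an algebraically independent family of `r` numbers algebraic over `ℚ(w)`: then
`m - r` of the numbers `w` and `z` generate `w` algebraically -/
theorem qexch {m r : ℕ} (w : Fin m → ℂ) (hw : AlgebraicIndependent ℚ w) (z : Fin r → ℂ)
    (hz : AlgebraicIndependent ℚ z)
    (hzw : ∀ K : IntermediateField ℚ ℂ, QCl K → (∀ l, w l ∈ K) → ∀ i, z i ∈ K) :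
    ∃ T : Finset (Fin m), T.card + r = m ∧ ∀ K : IntermediateField ℚ ℂ, QCl K →
      (∀ i, z i ∈ K) → (∀ l ∈ T, w l ∈ K) → ∀ l, w l ∈ K := by
  classical
  set M := AlgebraicIndependent.matroid ℚ ℂ with hM
  have hclmem : ∀ (S : Set ℂ) (x : ℂ), x ∈ M.closure S ↔
      ∀ K : IntermediateField ℚ ℂ, QCl K → S ⊆ K → x ∈ K := by
    intro S x
    have hx0 : x ∈ M.closure S ↔ IsAlgebraic (IntermediateField.adjoin ℚ S) x := by
      rw [IntermediateField.isAlgebraic_adjoin_iff, hM,
        AlgebraicIndependent.matroid_closure_eq, SetLike.mem_coe, Subalgebra.mem_algebraicClosure]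
    rw [hx0]
    constructor
    · intro hx K hK hS
      apply hK
      have hle : IntermediateField.adjoin ℚ S ≤ K := IntermediateField.adjoin_le_iff.mpr hS
      obtain ⟨P, hP0, hP⟩ := hx
      refine ⟨P.map (IntermediateField.inclusion hle).toRingHom, ?_, ?_⟩
      · exact (Polynomial.map_ne_zero_iff (IntermediateField.inclusion_injective hle)).mpr hP0
      · rw [Polynomial.aeval_def, Polynomial.eval₂_map]
        exact hP
    · intro h
      set E : IntermediateField ℚ ℂ := IntermediateField.adjoin ℚ S with hE
      set K : IntermediateField ℚ ℂ := (algebraicClosure E ℂ).restrictScalars ℚ with hK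
      have hmemK : ∀ z : ℂ, z ∈ K ↔ IsAlgebraic E z := by
        intro z
        rw [hK, IntermediateField.mem_restrictScalars, mem_algebraicClosure_iff]
      have hcl : QCl K := by
        intro z hz
        rw [hmemK]
        have hz' : IsAlgebraic (algebraicClosure E ℂ) z := hz
        exact IsAlgebraic.restrictScalars E hz'
      have hy : S ⊆ K := by
        intro y hy
        change y ∈ K
        rw [hmemK]
        exact isAlgebraic_algebraMap (⟨y, IntermediateField.subset_adjoin ℚ _ hy⟩ : E)
      rw [← hmemK]
      exact h K hcl hy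
  have hwind : M.Indep (Set.range w) := by
    rw [hM, AlgebraicIndependent.matroid_indep_iff]
    exact hw.coe_range
  have hzind : M.Indep (Set.range z) := by
    rw [hM, AlgebraicIndependent.matroid_indep_iff]
    exact hz.coe_range
  have hzcl : Set.range z ⊆ M.closure (Set.range w) := by
    rintro _ ⟨i, rfl⟩
    rw [hclmem]
    intro K hK hS
    exact hzw K hK (fun l => hS ⟨l, rfl⟩) i
  have hground : ∀ S : Set ℂ, S ⊆ M.E := fun S => by
    rw [hM, AlgebraicIndependent.matroid_e]
    exact Set.subset_univ S
  obtain ⟨J, hJ, hzJ⟩ := hzind.subset_isBasis_of_subset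
    (Set.subset_union_left : Set.range z ⊆ Set.range z ∪ Set.range w) (hground _)
  have hclJ : M.closure J = M.closure (Set.range w) := by
    rw [hJ.closure_eq_closure]
    apply subset_antisymm
    · rw [← M.closure_closure (Set.range w)]
      apply M.closure_subset_closure
      exact Set.union_subset hzcl (M.subset_closure _ (hground _))
    · exact M.closure_subset_closure Set.subset_union_right
  have hJcard : J.encard = (m : ℕ∞) := by
    rw [← hJ.indep.eRk_eq_encard, ← M.eRk_closure_eq J, hclJ, M.eRk_closure_eq,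
      hwind.eRk_eq_encard, ← Set.image_univ, hw.injective.encard_image, Set.encard_univ,
      ENat.card_eq_coe_fintype_card, Fintype.card_fin]
  have hzcard : (Set.range z).encard = (r : ℕ∞) := by
    rw [← Set.image_univ, hz.injective.encard_image, Set.encard_univ,
      ENat.card_eq_coe_fintype_card, Fintype.card_fin]
  obtain ⟨T, hT⟩ : ∃ T : Finset (Fin m), T =
    Finset.univ.filter (fun l => w l ∈ J \ Set.range z) := ⟨_, rfl⟩
  have hTimg : w '' (T : Set (Fin m)) = J \ Set.range z := by
    ext x
    constructor
    · rintro ⟨l, hl, rfl⟩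
      rw [hT] at hl
      exact (Finset.mem_filter.mp hl).2
    · intro hx
      rcases hJ.subset hx.1 with h1 | ⟨l, rfl⟩
      · exact absurd h1 hx.2
      · refine ⟨l, ?_, rfl⟩
        rw [hT]
        exact Finset.mem_coe.mpr (Finset.mem_filter.mpr ⟨Finset.mem_univ _, hx⟩)
  refine ⟨T, ?_, ?_⟩
  · have h1 : (J \ Set.range z).encard = (T.card : ℕ∞) := by
      rw [← hTimg, hw.injective.encard_image, Set.encard_coe_eq_coe_finsetCard]
    have h2 := Set.encard_sdiff_add_encard_of_subset hzJ
    rw [h1, hJcard, hzcard] at h2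
    exact_mod_cast h2
  · intro K hK h1 h2 l
    have h3 : w l ∈ M.closure J := by
      rw [hclJ]
      exact M.subset_closure _ (hground _) ⟨l, rfl⟩
    rw [hclmem] at h3
    apply h3 K hK
    intro x hx
    by_cases hxz : x ∈ Set.range z
    · obtain ⟨i, rfl⟩ := hxz
      exact h1 i
    · have h4 : x ∈ w '' (T : Set (Fin m)) := by
        rw [hTimg]
        exact ⟨hx, hxz⟩
      obtain ⟨l', hl', rfl⟩ := h4
      exact h2 l' (Finset.mem_coe.mp hl')

end Pool.Agent.Lib.MP5e
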