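import Pool.Agent.Lib.MP_5e64e7_nt.RFun
import Pool.Agent.Lib.MP_5e64e7_nt.RFld
import Pool.Agent.Lib.MP_5e64e7_nt.RTra

set_option autoImplicit false

/-!
# R.NZ : `j'(z) ≠ 0` (about 100 lines)

Suppose `deriv jf z = 0`, `z = rz f w`. By `djf` (`deriv jf z` in terms of `E4f, E6f`, see `QVal.lean`, `Ram*.lean`) and `disc_ne`,
`E4f z = 0` or `E6f z = 0`, so `jf z = 0` or `jf z = 1728`: `jf z = N` with an integer `N`. Apply `rtransfer` with
`ι = Unit`, `v x = fun _ => jf (rz f x)` (`rj_analytic`), `U` the set of good points (`rgood_nhds`), `hdata` from `rfld` for the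
family `fun _ : Fin 1 => f`, `rep = id` (index `Sum.inr (Sum.inl (0, 0))`), `P = X () - N`. So `jf (rz f x) = N` near `w`, and
`rfun` for the same family with the polynomial `X (Sum.inr (Sum.inl (0, 0))) - N` gives the contradiction (this polynomial
is not `0`). `z` transcendental means that the family `fun _ : Fin 1 => z` is algebraically independent
(`algebraicIndependent_unique_type_iff`).
-/

noncomputable section

namespace Pool.Agent.Lib.MP5e

open Polynomial Topology

private theorem rnz_int {z : ℂ} (hz : 0 < z.im) (h0 : deriv jf z = 0) :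
    ∃ N : ℤ, jf z = (N : ℂ) := by
  have hd := disc_ne hz
  rw [djf hz] at h0
  have hpi : (2 * (Real.pi : ℂ) * Complex.I) ≠ 0 := Complex.two_pi_I_ne_zero
  have h1 : E4f z ^ 2 * E6f z = 0 := by
    rcases div_eq_zero_iff.mp h0 with h2 | h2
    · rcases mul_eq_zero.mp h2 with h3 | h3
      · exfalso
        rcases mul_eq_zero.mp h3 with h4 | h4
        · exact hpi (neg_eq_zero.mp h4)
        · norm_num at h4
      · exact h3
    · exact absurd h2 hd
  rcases mul_eq_zero.mp h1 with h2 | h2
  · refine ⟨0, ?_⟩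
    have h3 : E4f z = 0 := pow_eq_zero_iff (two_ne_zero) |>.mp h2
    unfold jf
    rw [h3]
    simp
  · refine ⟨1728, ?_⟩
    unfold jf
    rw [h2] at hd ⊢
    have h4 : E4f z ^ 3 ≠ 0 := by
      intro h5
      apply hd
      rw [h5]
      simp
    have h5 : E4f z ^ 3 - 0 ^ 2 = E4f z ^ 3 := by ring
    rw [h5, mul_div_assoc, div_self h4]
    push_cast
    ring

theorem rnz {m : ℕ} (f : RF m) (w : Fin m → ℝ) (hw : QHier w)
    (h : RGood f (fun l => (w l : ℂ))) (hz : Transcendental ℚ (rz f (fun l => (w l : ℂ)))) :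
    deriv jf (rz f (fun l => (w l : ℂ))) ≠ 0 := by
  intro h0
  obtain ⟨N, hN⟩ := rnz_int h.2 h0
  have hrep : RRep (fun _ : Fin 1 => f) id := fun k => ⟨rfl, rfl⟩
  obtain ⟨C, hC⟩ := rfld (fun _ : Fin 1 => f) id hrep
  have htr := rtransfer (ι := Unit) w hw (fun x => fun _ => jf (rz f x))
    (fun _ => rj_analytic f _ h) {x | RGood f x} (rgood_nhds f _ h) C
    (by
      intro B a c hB hU
      obtain ⟨K, hK1, hK2, hK3⟩ := hC B a c hB (fun _ => hU)
      exact ⟨K, hK1, hK2, fun _ => hK3 (Sum.inr (Sum.inl (0, 0)))⟩)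
    (MvPolynomial.X () - MvPolynomial.C N) (by simp [hN])
  have hfun := rfun (fun _ : Fin 1 => f) id hrep (fun l => (w l : ℂ)) (rw_indep w hw)
    (fun _ => h) ((algebraicIndependent_unique_type_iff).mpr hz)
    (MvPolynomial.X (Sum.inr (Sum.inl (0, 0))) - MvPolynomial.C N)
    (by
      filter_upwards [htr] with x hx
      have h1 : jf (rz f x) - (N : ℂ) = 0 := by simpa using hx
      simpa [rfam] using h1)
  have h2 := congrArg (MvPolynomial.eval (fun _ => N + 1)) hfun
  simp at h2

end Pool.Agent.Lib.MP5e
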