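import Pool.Agent.Lib.MP_5e64e7_nt.GMain
import Pool.Agent.Lib.MP_5e64e7_nt.GCon
import Pool.Agent.Lib.MP_5e64e7_nt.GMul
import Pool.Agent.Lib.MP_5e64e7_nt.GSpl
import Pool.Agent.Lib.MP_5e64e7_nt.QExch
import Pool.Agent.Lib.MP_5e64e7_nt.RNz

set_option autoImplicit false

/-!
# G.TD : lower bound for the transcendence degree (about 230 lines; model: `rtd` in `RMai.lean`)

`wc = fun l => (w l : ℂ)` is algebraically independent over `ℚ` (`rw_indep w hw`, `RTra.lean`).

Constant points: if `GQuad (z k)`, then `rz (f k)` is constant near `wc` (`gconst`; a `GQuad` number is algebraic). All the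
`GQuad` coordinates of one class `i` (`e k = i`) lie in one field: `gconD` for the family
`{k // e k = i ∧ GQuad (z k)}`, `z k = u + v qom D`. If the class contains `k` with `GQuad (z k)` and `j'(z_k), j''(z_k)` not
both `0` (call the class good, choose such a `k =: k_i`, and `M_i` from `gmul_nz (z k_i)`), then every `QCl K` containing
`j'(z_{k_i})` and `j''(z_{k_i})` contains `deriv jf (M_i z_{k_i})`: `gspl D`, third and first part (`M_i z = M_i u + M_i v qom D`).

Bases: let `f' l = f (κ l)`, `l : Fin N`. For `l` with `i = e (κ l)` good: `l ∈ S`, `g l = gmul M_i (f k_i)` (`d` agrees by `hd`,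
`RGood` by `gmul_good`, constant near `wc` by `gmul_rz`, `j' ≠ 0`). For the classes `i` which are not good and contain some
`κ l` (these are counted in `hdd`) choose a representative `l_i` with `e (κ l_i) = i` (a function of `i`); if `l ≠ l_i`, then
`l ∈ S` and `g l = f (κ l_i)`; if `l = l_i`, then `l ∉ S` and `g l = f (κ l)`. So `GBase f' g S wc`
(`j'(z (κ l)) ≠ 0` by `rnz` and `gtrans`), and `|S| + (number of classes counted in hdd) = N` (the map `l ↦ e (κ l)` is a
bijection from the complement of `S` to the set counted in `hdd`; only `≥` is needed: `N ≤ |S| + card`).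

`gmain f' g S w` (`gnonc`, `hrel`): the `m + 2 N + |S|` numbers `gfam f' g S wc` are algebraically independent.
`qexch wc _ (fun i => z (μ i)) hμ`: a set `T` of `m - ρ` of the `w_l` such that every `QCl K` containing the `z (μ i)` and
`w_l, l ∈ T` contains all `w_l`. `rsub` (`RMem.lean`) with `x = gfam f' g S wc`, `y₁ = ggr z` on `Fin 4 × Fin n`,
`y₂ = w|T`: let `K` be `QCl`, contain all `z_k, j(z_k), j'(z_k), j''(z_k)` and `w|T`: then all `w_l ∈ K`, `ry (f' l) wc ∈ K`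
(`rz_mem`), `j, κ ∈ K` (`κ = (j'' - (i/y) j')/j'²`, `qcl_I`), and the ratios are in `K` by the above.
Count: `d + (m - ρ) ≤ m + 2N + |S|` by `hdd`.
-/

noncomputable section

namespace Pool.Agent.Lib.MP5e

open Polynomial Topology

private theorem gtd_alg {z : ℂ} (h : GQuad z) : IsAlgebraic ℚ z := by
  obtain ⟨a, b, c, ha, h⟩ := h
  refine ⟨C a * X ^ 2 + C b * X + C c, ?_, ?_⟩
  · intro h0
    have h1 := congrArg (fun p => Polynomial.coeff p 2) h0
    simp at h1
    exact ha h1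
  · simpa using h

/-- the base of a class which contains a good constant point -/
private theorem gtd_base {m n : ℕ} (w : Fin m → ℝ) (hw : QHier w) (f : RF m)
    (h : RGood f (fun l => (w l : ℂ))) (z : Fin n → ℂ) (k : Fin n)
    (hz : rz f (fun l => (w l : ℂ)) = z k) (hq : GQuad (z k))
    (hne : ¬ (deriv jf (z k) = 0 ∧ deriv (deriv jf) (z k) = 0)) :
    ∃ g : RF m, g.d = f.d ∧ RGood g (fun l => (w l : ℂ)) ∧
      deriv jf (rz g (fun l => (w l : ℂ))) ≠ 0 ∧
      (∀ᶠ x in 𝓝 (fun l => (w l : ℂ)), rz g x = rz g (fun l => (w l : ℂ))) ∧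
      ∀ K : IntermediateField ℚ ℂ, QCl K → (∀ p, ggr z p ∈ K) →
        deriv jf (rz g (fun l => (w l : ℂ))) ∈ K := by
  have hwi := rw_indep w hw
  have hc : ∀ᶠ x in 𝓝 (fun l => (w l : ℂ)), rz f x = rz f (fun l => (w l : ℂ)) := by
    apply gconst f w hwi h
    rw [hz]
    exact gtd_alg hq
  obtain ⟨D, hD, huv⟩ := gconD (ι := Unit) (fun _ => f) w (fun _ => h) (fun _ _ => rfl)
    (fun _ => hc)
  obtain ⟨u, v, hv, hzk⟩ := huv ()
  have hzk' : z k = (u : ℂ) + (v : ℂ) * qom D := hz.symm.trans hzk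
  obtain ⟨c, hA, -, hC⟩ := gspl D hD
  have him : 0 < (z k).im := by
    rw [← hz]
    exact h.2
  obtain ⟨M, hM, hMz⟩ := gmul_nz (z k) him
  have hgz : rz (gmul M f) (fun l => (w l : ℂ)) = (M : ℂ) * z k := by
    rw [gmul_rz, hz]
  refine ⟨gmul M f, rfl, gmul_good hM f _ h, ?_, ?_, ?_⟩
  · rw [hgz]
    exact hMz
  · filter_upwards [hc] with x hx
    rw [gmul_rz, gmul_rz, hx]
  · intro K hK hp
    have h2 : deriv jf (z k) ∈ K := hp (2, k)
    have h3 : deriv (deriv jf) (z k) ∈ K := hp (3, k)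
    rw [hzk'] at h2 h3 hne
    have hcK : c ∈ K := hC K hK u v hv hne h2 h3
    have hMv : (0 : ℚ) < (M : ℚ) * v := by
      have hM0 : (0 : ℚ) < (M : ℚ) := by exact_mod_cast hM
      exact mul_pos hM0 hv
    have h4 := hA K hK hcK ((M : ℚ) * u) ((M : ℚ) * v) hMv 2
    have h5 : (((M : ℚ) * u : ℚ) : ℂ) + (((M : ℚ) * v : ℚ) : ℂ) * qom D = (M : ℂ) * z k := by
      rw [hzk']
      push_cast
      ring
    rw [h5] at h4
    rw [hgz]
    exact h4

theorem gtd {m n N ρ F : ℕ} (w : Fin m → ℝ) (hw : QHier w) (f : Fin n → RF m)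
    (h : ∀ k, RGood (f k) (fun l => (w l : ℂ))) (e : Fin n → Fin F)
    (hd : ∀ k l, e k = e l → (f k).d = (f l).d) (z : Fin n → ℂ)
    (hz : ∀ k, rz (f k) (fun l => (w l : ℂ)) = z k)
    (κ : Fin N → Fin n) (hq : ∀ l, ¬ GQuad (z (κ l)))
    (hrel : ∀ l l', l ≠ l' → ¬ GRel (z (κ l)) (z (κ l')))
    (μ : Fin ρ → Fin n) (hμ : AlgebraicIndependent ℚ (fun i => z (μ i))) (d : ℕ)
    (hdd : d + Nat.card {i : Fin F // (∃ l, e (κ l) = i) ∧
      ∀ k, e k = i → GQuad (z k) → deriv jf (z k) = 0 ∧ deriv (deriv jf) (z k) = 0} ≤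
        3 * N + ρ) :
    ∃ x : Fin d → ℂ, AlgebraicIndependent ℚ x ∧ ∀ t, ∃ p : Fin 4 × Fin n, x t = ggr z p := by
  classical
  have hwi := rw_indep w hw
  -- good and bad classes
  obtain ⟨bad, hbad⟩ : ∃ bad : Fin F → Prop, bad = fun i => ∀ k, e k = i → GQuad (z k) →
    deriv jf (z k) = 0 ∧ deriv (deriv jf) (z k) = 0 := ⟨_, rfl⟩
  have hgood : ∀ i, ¬ bad i → ∃ g : RF m, (∀ k, e k = i → g.d = (f k).d) ∧
      RGood g (fun l => (w l : ℂ)) ∧ deriv jf (rz g (fun l => (w l : ℂ))) ≠ 0 ∧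
      (∀ᶠ x in 𝓝 (fun l => (w l : ℂ)), rz g x = rz g (fun l => (w l : ℂ))) ∧
      ∀ K : IntermediateField ℚ ℂ, QCl K → (∀ p, ggr z p ∈ K) →
        deriv jf (rz g (fun l => (w l : ℂ))) ∈ K := by
    intro i hi
    rw [hbad] at hi
    push Not at hi
    obtain ⟨k, hk1, hk2, hk3⟩ := hi
    obtain ⟨g, hg1, hg2⟩ := gtd_base w hw (f k) (h k) z k (hz k) hk2
      (fun h0 => hk3 h0.1 h0.2)
    exact ⟨g, fun k' hk' => hg1.trans (hd k k' (hk1.trans hk'.symm)), hg2⟩
  -- representatives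
  obtain ⟨rep, hrep⟩ : ∃ rep : {i : Fin F // ∃ l, e (κ l) = i} → Fin N,
      ∀ i, e (κ (rep i)) = i.1 := ⟨fun i => i.2.choose, fun i => i.2.choose_spec⟩
  obtain ⟨rp, hrp⟩ : ∃ rp : Fin N → Fin N, rp = fun l => rep ⟨e (κ l), l, rfl⟩ := ⟨_, rfl⟩
  have hrp1 : ∀ l, e (κ (rp l)) = e (κ l) := by
    intro l
    rw [hrp]
    exact hrep ⟨e (κ l), l, rfl⟩
  have hrp2 : ∀ l l', e (κ l) = e (κ l') → rp l = rp l' := by
    intro l l' hll
    rw [hrp]
    exact congrArg rep (Subtype.ext hll)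
  -- the bases
  have hbase : ∀ l, ∃ g : RF m, g.d = (f (κ l)).d ∧ RGood g (fun l => (w l : ℂ)) ∧
      deriv jf (rz g (fun l => (w l : ℂ))) ≠ 0 ∧
      (bad (e (κ l)) → g = f (κ (rp l))) ∧
      (¬ bad (e (κ l)) →
        ∀ᶠ x in 𝓝 (fun l => (w l : ℂ)), rz g x = rz g (fun l => (w l : ℂ))) ∧
      ∀ K : IntermediateField ℚ ℂ, QCl K → (∀ p, ggr z p ∈ K) →
        deriv jf (rz g (fun l => (w l : ℂ))) ∈ K := by
    intro l
    by_cases hb : bad (e (κ l))
    · refine ⟨f (κ (rp l)), hd _ _ (hrp1 l), h _, ?_, fun _ => rfl, fun hn => absurd hb hn, ?_⟩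
      · apply rnz (f (κ (rp l))) w hw (h _)
        apply gtrans (f (κ (rp l))) w hwi (h _)
        rw [hz]
        exact hq _
      · intro K hK hp
        rw [hz]
        exact hp (2, κ (rp l))
    · obtain ⟨g, hg1, hg2, hg3, hg4, hg5⟩ := hgood _ hb
      exact ⟨g, hg1 _ rfl, hg2, hg3, fun hb' => absurd hb' hb, fun _ => hg4, hg5⟩
  choose g hg1 hg2 hg3 hg4 hg5 hg6 using hbase
  obtain ⟨S, hS⟩ : ∃ S : Finset (Fin N),
      S = Finset.univ.filter (fun l => ¬ (bad (e (κ l)) ∧ rp l = l)) := ⟨_, rfl⟩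
  have hSm : ∀ l, l ∉ S ↔ bad (e (κ l)) ∧ rp l = l := by
    intro l
    rw [hS, Finset.mem_filter]
    constructor
    · intro hl
      by_contra hn
      exact hl ⟨Finset.mem_univ _, hn⟩
    · rintro hl ⟨-, hn⟩
      exact hn hl
  have hb : GBase (fun l => f (κ l)) g S (fun l => (w l : ℂ)) := by
    refine ⟨hg1, hg2, hg3, ?_⟩
    intro l _
    by_cases hb : bad (e (κ l))
    · left
      refine ⟨rp l, ?_, hg4 l hb⟩
      rw [hSm, hrp1]
      exact ⟨hb, hrp2 _ _ (hrp1 l)⟩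
    · right
      exact hg5 l hb
  have hmain := gmain (fun l => f (κ l)) g S w hw (fun l => h (κ l)) hb
    (fun l => by
      apply rnz (f (κ l)) w hw (h _)
      apply gtrans (f (κ l)) w hwi (h _)
      rw [hz]
      exact hq _)
    (fun l => by
      apply gnonc (f (κ l)) w (h _)
      rw [hz]
      exact hq _)
    (fun l l' hll => by
      show ¬ GRel (rz (f (κ l)) (fun l => (w l : ℂ))) (rz (f (κ l')) (fun l => (w l : ℂ)))
      rw [hz, hz]
      exact hrel l l' hll)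
  obtain ⟨T, hT, hcl⟩ := qexch (fun l => (w l : ℂ)) hwi (fun i => z (μ i)) hμ
    (fun K hK hx i => by
      have h1 := (rz_mem (f (μ i)) _ K hK hx).1
      rw [hz] at h1
      exact h1)
  refine rsub (gfam (fun l => f (κ l)) g S (fun l => (w l : ℂ))) (ggr z)
    (fun t : {l // l ∈ T} => (w t.1 : ℂ)) hmain ?_ d ?_
  · intro K hK h1 h2 i
    have hwK : ∀ l, (w l : ℂ) ∈ K :=
      hcl K hK (fun i => h1 (0, μ i)) (fun l hl => h2 ⟨l, hl⟩)
    rcases i with l | ⟨⟨k, a⟩ | k⟩
    · exact hwK l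
    · fin_cases a
      · show jf (rz (f (κ k)) (fun l => (w l : ℂ))) ∈ K
        rw [hz]
        exact h1 (1, κ k)
      · change rkap (rz (f (κ k)) (fun l => (w l : ℂ))) (ry (f (κ k)) (fun l => (w l : ℂ))) ∈ K
        rw [hz]
        unfold rkap
        exact div_mem (sub_mem (h1 (3, κ k)) (mul_mem (div_mem (qcl_I hK)
          (rz_mem (f (κ k)) _ K hK hwK).2) (h1 (2, κ k)))) (pow_mem (h1 (2, κ k)) 2)
    · show deriv jf (rz (f (κ k.1)) (fun l => (w l : ℂ))) /
        deriv jf (rz (g k.1) (fun l => (w l : ℂ))) ∈ K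
      refine div_mem ?_ (hg6 k.1 K hK h1)
      rw [hz]
      exact h1 (2, κ k.1)
  · have hcount : Nat.card {l : Fin N // l ∉ S} ≤
        Nat.card {i : Fin F // (∃ l, e (κ l) = i) ∧
          ∀ k, e k = i → GQuad (z k) → deriv jf (z k) = 0 ∧ deriv (deriv jf) (z k) = 0} := by
      have hbi : ∀ i, bad i → ∀ k, e k = i → GQuad (z k) →
          deriv jf (z k) = 0 ∧ deriv (deriv jf) (z k) = 0 := by
        intro i hi
        rw [hbad] at hi
        exact hi
      refine Nat.card_le_card_of_injective (fun l : {l : Fin N // l ∉ S} =>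
        (⟨e (κ l.1), ⟨l.1, rfl⟩, hbi _ ((hSm l.1).1 l.2).1⟩ : {i : Fin F // (∃ l, e (κ l) = i) ∧
          ∀ k, e k = i → GQuad (z k) →
            deriv jf (z k) = 0 ∧ deriv (deriv jf) (z k) = 0})) ?_
      intro l l' hll
      have h3 : e (κ l.1) = e (κ l'.1) := congrArg Subtype.val hll
      apply Subtype.ext
      rw [← ((hSm l.1).1 l.2).2, ← ((hSm l'.1).1 l'.2).2]
      exact hrp2 _ _ h3
    have hcS : Nat.card {l : Fin N // l ∉ S} + S.card = N := by
      rw [Nat.card_eq_fintype_card, Fintype.card_subtype_compl (fun l => l ∈ S), Fintype.card_fin,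
        Fintype.card_coe]
      have h4 : S.card ≤ N := by
        have h5 := Finset.card_le_univ S
        rwa [Fintype.card_fin] at h5
      omega
    simp only [Fintype.card_sum, Fintype.card_fin, Fintype.card_prod, Fintype.card_coe]
    omega

end Pool.Agent.Lib.MP5e
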