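import Pool.Agent.Lib.MP_5e64e7_nt.Defs

set_option autoImplicit false

/-!
# MP_5e64e7_nt, second theorem (orbits of one number under `GL₂(ℚ(i))`) : definitions (helper16)

`w` is a complex number extremely well approximable by Gaussian rationals. For all
`z₁, …, zₙ ∈ ℍ` in the orbit of `w` under `GL₂(ℚ(i))`, no two of which are related by
`GL₂⁺(ℚ)`, the `3n+2` numbers `j''(i), w, j(z_k), j'(z_k), j''(z_k)` are algebraically
independent over `ℚ`.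
-/

noncomputable section

namespace Pool.Agent.Lib.MP5e

open Polynomial Topology

/-- the Gaussian rational `(a + b i) / c` -/
def gr (a b : ℤ) (c : ℕ) : ℂ := ((a : ℂ) + (b : ℂ) * Complex.I) / (c : ℂ)

/-- the family `ϑ, w, j(z_k), j'(z_k), j''(z_k)` -/
def ofam {n : ℕ} (w : ℂ) (z : Fin n → ℂ) : Option (Option (Fin n × Fin 3)) → ℂ
  | none => (th : ℂ)
  | some none => w
  | some (some p) => J4 (z p.1) p.2.succ

/-- `w` is extremely well approximable by Gaussian rationals -/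
def SG (w : ℂ) : Prop := ∀ C : ℕ, ∃ (B c : ℕ) (a b : ℤ), 2 ≤ B ∧ 1 ≤ c ∧ c ≤ B ∧
  |a| ≤ (B : ℤ) ∧ |b| ≤ (B : ℤ) ∧ w ≠ gr a b c ∧ ‖w - gr a b c‖ ≤ Real.exp (-((B : ℝ) ^ C))

/-- the `℘`-function of the lattice `2πℤ[i]`, normalised so that `X'² = (s₀/4) (4X³ - 4X)` -/
def Xn (s : ℂ) : ℂ := 4 / (s0 : ℂ) * LP.weierstrassP s

/-- points of infinite order of `ℂ / 2πℤ[i]` -/
def NT : Set ℂ := {s | ∀ j : ℕ, 1 ≤ j → (j : ℂ) * s ∉ LP.lattice}

/-- `A, B` are integer polynomials of controlled size with `X(ks) B(X(s)) = A(X(s))` -/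
def Mult (k : ℕ) (A B : ℤ[X]) : Prop :=
  A ≠ 0 ∧ A.natDegree = B.natDegree + 1 ∧ B.leadingCoeff = (k : ℤ) ^ 2 * A.leadingCoeff ∧
    A.natDegree ≤ k ^ 3 ∧ L1 A ≤ 2 ^ k ^ 3 ∧ L1 B ≤ 2 ^ k ^ 3 ∧
    ∀ s ∈ NT, Xn ((k : ℂ) * s) * Polynomial.aeval (Xn s) B = Polynomial.aeval (Xn s) A

/-- the point `σ = (a i + b) / d` -/
def osig (a d : ℕ) (b : ℤ) : ℂ := ((a : ℂ) * Complex.I + (b : ℂ)) / (d : ℂ)

/-- the torsion point `2π i k σ / a` of `ℂ / 2πℤ[i]`, `σ = (a i + b) / d` -/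
def otor (a d : ℕ) (b : ℤ) (k : ℕ) : ℂ :=
  2 * (Real.pi : ℂ) * Complex.I * ((k : ℂ) * (osig a d b / (a : ℂ)))

/-- the sum of the `r`-th powers of the `X`-coordinates of the multiples of `σ/a` -/
def oS (a d : ℕ) (b : ℤ) (r : ℕ) : ℂ := ∑ k ∈ Finset.Ico 1 (a * d), Xn (otor a d b k) ^ r

/-- real locus function: `Im ((A u + B) / (C u + D)) · |C u + D|²` -/
def him (g : Matrix (Fin 2) (Fin 2) ℂ) (u : ℂ) : ℝ :=
  ((g 0 0 * u + g 0 1) * (starRingEnd ℂ) (g 1 0 * u + g 1 1)).im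

/-- the Moebius transformation of `g` -/
def mob (g : Matrix (Fin 2) (Fin 2) ℂ) (u : ℂ) : ℂ := (g 0 0 * u + g 0 1) / (g 1 0 * u + g 1 1)

end Pool.Agent.Lib.MP5e
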