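import Pool.Agent.Lib.MP_5e64e7_nt.GDefs
import Pool.Agent.Lib.MP_5e64e7_nt.ODefs
import Pool.Agent.Lib.MP_5e64e7_nt.RAna

set_option autoImplicit false

/-!
# H.CLS : the elements of `ℚ(i)(w)`, `w` transcendental (about 200 lines)

In all of this module `f.d = 1`, so `rs f x = 1` and `rz f x = (rev f.P x + I * rev f.Q x)/rev f.R x`.
Key fact (K): if `A, B : MvPolynomial (Fin 1) ℤ` and `rev A w + I * rev B w = 0` at the transcendental number `w`
(`fun _ => w`), then `A = B = 0`: multiply by `rev A w - I * rev B w`: `rev (A² + B²) w = 0`, so `A² + B² = 0`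
(`w` transcendental: `AlgebraicIndependent` for `Fin 1`, `algebraicIndependent_unique_type_iff`, over `ℤ`), so `A = B = 0`
(evaluate at integers/real points: `a² + b² = 0` for real numbers; `MvPolynomial.funext`).

`hcls`: every element of `adjoin ℚ {I, w}` is `(rev P w + I * rev Q w)/rev R w` with `rev R w ≠ 0`
(`IntermediateField.adjoin_induction`): rational numbers, `I`, `w`, sums, products (`I² = -1`), inverses:
`((P + I Q)/R)⁻¹ = (R P - I R Q)/(P² + Q²)` if the number is not zero, and `P² + Q² ≠ 0` at `w` by (K). Then `f = ⟨1, P, Q, R⟩`.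

`hconst`: let `p ≠ 0` be an integer polynomial with `p(rz f w) = 0`; `p(rz f x) * (rev f.R x)^N = rev A x + I * rev B x` for all `x`
with `rev f.R x ≠ 0`, `A, B` integer polynomials (`X^i`, `i ≤ N`, by induction; linear combinations). At `w`: `A = B = 0` by (K). So
`rz f x` is a root of `p` for all `x` near `w` (`rgood_nhds`, `rR_ne`), and `rz f` is continuous, so constant near `w` (compare
`GCon.lean`).

`hQi`: the numbers `x + y I`, `x, y` rational, are dense in `ℂ`; take one (`=: r`) with `RGood f (fun _ => r)` and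
`rz f (fun _ => r) = rz f (fun _ => w)`. `rev P (fun _ => r)` is in `ℚ(i)`, i.e. of the form `u + v I` with `u, v` rational
(closed under `+, *, /`). `v > 0` by `Im > 0`; `qom 1 = I` (`Real.sqrt_one`).
-/

noncomputable section

namespace Pool.Agent.Lib.MP5e

open Polynomial Topology

/-- transcendence of `w` for integer polynomials -/
private theorem hc_ind {w : ℂ} (hw : Transcendental ℚ w) (P : MvPolynomial (Fin 1) ℤ)
    (h : rev P (fun _ => w) = 0) : P = 0 := by
  have h1 : AlgebraicIndependent ℚ (fun _ : Fin 1 => w) :=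
    algebraicIndependent_unique_type_iff.2 hw
  have h2 : AlgebraicIndependent ℤ (fun _ : Fin 1 => w) :=
    h1.restrictScalars (RingHom.injective_int (algebraMap ℤ ℚ))
  exact (algebraicIndependent_iff.1 h2) P h

private theorem hc_sq {A B : MvPolynomial (Fin 1) ℤ} (h : A ^ 2 + B ^ 2 = 0) :
    A = 0 ∧ B = 0 := by
  have h1 : ∀ v : Fin 1 → ℤ, MvPolynomial.eval v A = 0 ∧ MvPolynomial.eval v B = 0 := by
    intro v
    have h2 := congrArg (MvPolynomial.eval v) h
    rw [map_add, map_pow, map_pow, map_zero] at h2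
    constructor
    · have h3 : MvPolynomial.eval v A ^ 2 = 0 := by
        nlinarith [sq_nonneg (MvPolynomial.eval v A), sq_nonneg (MvPolynomial.eval v B)]
      exact pow_eq_zero_iff (two_ne_zero) |>.1 h3
    · have h3 : MvPolynomial.eval v B ^ 2 = 0 := by
        nlinarith [sq_nonneg (MvPolynomial.eval v A), sq_nonneg (MvPolynomial.eval v B)]
      exact pow_eq_zero_iff (two_ne_zero) |>.1 h3
  constructor
  · refine MvPolynomial.funext fun v => ?_
    rw [(h1 v).1, map_zero]
  · refine MvPolynomial.funext fun v => ?_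
    rw [(h1 v).2, map_zero]

private theorem hc_sqv {w : ℂ} (hw : Transcendental ℚ w) {A B : MvPolynomial (Fin 1) ℤ}
    (h : rev A (fun _ => w) ^ 2 + rev B (fun _ => w) ^ 2 = 0) : A = 0 ∧ B = 0 := by
  refine hc_sq (hc_ind hw _ ?_)
  have : rev (A ^ 2 + B ^ 2) (fun _ => w) = rev A (fun _ => w) ^ 2 + rev B (fun _ => w) ^ 2 := by
    simp only [rev, map_add, map_pow]
  rw [this, h]

private theorem hc_key {w : ℂ} (hw : Transcendental ℚ w) {A B : MvPolynomial (Fin 1) ℤ}
    (h : rev A (fun _ => w) + rev B (fun _ => w) * Complex.I = 0) : A = 0 ∧ B = 0 := by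
  refine hc_sqv hw ?_
  have h1 : (rev A (fun _ => w) + rev B (fun _ => w) * Complex.I) *
      (rev A (fun _ => w) - rev B (fun _ => w) * Complex.I) = 0 := by rw [h, zero_mul]
  linear_combination h1 + rev B (fun _ => w) ^ 2 * Complex.I_sq

private theorem hc_form {w : ℂ} (hw : Transcendental ℚ w) (z : ℂ)
    (hz : z ∈ IntermediateField.adjoin ℚ ({Complex.I, w} : Set ℂ)) :
    ∃ P Q R : MvPolynomial (Fin 1) ℤ, rev R (fun _ => w) ≠ 0 ∧
      z = (rev P (fun _ => w) + rev Q (fun _ => w) * Complex.I) / rev R (fun _ => w) := by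
  induction hz using IntermediateField.adjoin_induction with
  | mem x hx =>
    rcases hx with hx | hx
    · refine ⟨0, 1, 1, ?_, ?_⟩
      · simp [rev]
      · rw [hx]
        simp [rev]
    · refine ⟨MvPolynomial.X 0, 0, 1, ?_, ?_⟩
      · simp [rev]
      · rw [Set.mem_singleton_iff.mp hx]
        simp [rev]
  | algebraMap q =>
    refine ⟨MvPolynomial.C q.num, 0, MvPolynomial.C (q.den : ℤ), ?_, ?_⟩
    · simp [rev]
    · have h1 : rev (MvPolynomial.C q.num : MvPolynomial (Fin 1) ℤ) (fun _ => w) = (q.num : ℂ) := by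
        simp [rev]
      have h2 : rev (MvPolynomial.C (q.den : ℤ) : MvPolynomial (Fin 1) ℤ) (fun _ => w) =
          (q.den : ℂ) := by
        simp [rev]
      have h3 : rev (0 : MvPolynomial (Fin 1) ℤ) (fun _ => w) = 0 := by
        simp [rev]
      rw [h1, h2, h3, zero_mul, add_zero, eq_ratCast]
      exact Rat.cast_def q
  | add x y _ _ hx hy =>
    obtain ⟨P, Q, R, hR, e⟩ := hx
    obtain ⟨P', Q', R', hR', e'⟩ := hy
    refine ⟨P * R' + P' * R, Q * R' + Q' * R, R * R', ?_, ?_⟩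
    · simp only [rev, map_mul] at hR hR' ⊢
      exact mul_ne_zero hR hR'
    · rw [e, e']
      simp only [rev, map_mul, map_add] at hR hR' ⊢
      field_simp
      ring
  | inv x _ hx =>
    obtain ⟨P, Q, R, hR, e⟩ := hx
    by_cases h0 : rev P (fun _ => w) ^ 2 + rev Q (fun _ => w) ^ 2 = 0
    · obtain ⟨h1, h2⟩ := hc_sqv hw h0
      refine ⟨0, 0, 1, ?_, ?_⟩
      · simp [rev]
      · rw [e, h1, h2]
        simp [rev]
    · refine ⟨R * P, -(R * Q), P ^ 2 + Q ^ 2, ?_, ?_⟩
      · simp only [rev, map_add, map_pow] at h0 ⊢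
        exact h0
      · have h3 : (rev P (fun _ => w) + rev Q (fun _ => w) * Complex.I) *
            (rev P (fun _ => w) - rev Q (fun _ => w) * Complex.I) =
            rev P (fun _ => w) ^ 2 + rev Q (fun _ => w) ^ 2 := by
          linear_combination (-(rev Q (fun _ => w)) ^ 2) * Complex.I_sq
        have h4 : rev P (fun _ => w) + rev Q (fun _ => w) * Complex.I ≠ 0 := by
          intro h5
          rw [h5, zero_mul] at h3
          exact h0 h3.symm
        rw [e, inv_div]
        have e1 : rev (R * P) (fun _ => w) = rev R (fun _ => w) * rev P (fun _ => w) := by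
          simp only [rev, map_mul]
        have e2 : rev (-(R * Q)) (fun _ => w) = -(rev R (fun _ => w) * rev Q (fun _ => w)) := by
          simp only [rev, map_mul, map_neg]
        have e3 : rev (P ^ 2 + Q ^ 2) (fun _ => w) =
            rev P (fun _ => w) ^ 2 + rev Q (fun _ => w) ^ 2 := by
          simp only [rev, map_add, map_pow]
        rw [e1, e2, e3, div_eq_div_iff h4 h0]
        linear_combination (-rev R (fun _ => w)) * h3
  | mul x y _ _ hx hy =>
    obtain ⟨P, Q, R, hR, e⟩ := hx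
    obtain ⟨P', Q', R', hR', e'⟩ := hy
    refine ⟨P * P' - Q * Q', P * Q' + Q * P', R * R', ?_, ?_⟩
    · simp only [rev, map_mul] at hR hR' ⊢
      exact mul_ne_zero hR hR'
    · rw [e, e', div_mul_div_comm]
      simp only [rev, map_mul, map_add, map_sub]
      congr 1
      linear_combination ((MvPolynomial.aeval (fun _ => w)) Q *
        (MvPolynomial.aeval (fun _ => w)) Q') * Complex.I_sq

private theorem hc_rs {f : RF 1} (hd : f.d = 1) (x : Fin 1 → ℂ) : rs f x = 1 := by
  unfold rs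
  rw [hd]
  simp [rev]

private theorem hc_rz {f : RF 1} (hd : f.d = 1) (x : Fin 1 → ℂ) :
    rz f x = (rev f.P x + rev f.Q x * Complex.I) / rev f.R x := by
  unfold rz
  rw [hc_rs hd, mul_one]

theorem hcls {w : ℂ} (hw : Transcendental ℚ w) (z : ℂ) (hz : 0 < z.im)
    (hzw : z ∈ IntermediateField.adjoin ℚ ({Complex.I, w} : Set ℂ)) :
    ∃ f : RF 1, f.d = 1 ∧ RGood f (fun _ => w) ∧ rz f (fun _ => w) = z := by
  obtain ⟨P, Q, R, hR, e⟩ := hc_form hw z hzw
  have h1 : rz (⟨1, P, Q, R⟩ : RF 1) (fun _ => w) = z := by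
    rw [hc_rz rfl, e]
  refine ⟨⟨1, P, Q, R⟩, rfl, ⟨?_, ?_⟩, h1⟩
  · simp [rev]
  · rw [h1]
    exact hz

/-- functions of the form `A + B i` -/
private def HForm (g : (Fin 1 → ℂ) → ℂ) : Prop :=
  ∃ A B : MvPolynomial (Fin 1) ℤ, ∀ x, g x = rev A x + rev B x * Complex.I

private theorem hform_rev (P : MvPolynomial (Fin 1) ℤ) : HForm (rev P) :=
  ⟨P, 0, fun x => by simp [rev]⟩

private theorem hform_add {g h : (Fin 1 → ℂ) → ℂ} (hg : HForm g) (hh : HForm h) :
    HForm (fun x => g x + h x) := by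
  obtain ⟨A, B, h1⟩ := hg
  obtain ⟨A', B', h2⟩ := hh
  refine ⟨A + A', B + B', fun x => ?_⟩
  beta_reduce
  rw [h1, h2]
  simp only [rev, map_add]
  ring

private theorem hform_mul {g h : (Fin 1 → ℂ) → ℂ} (hg : HForm g) (hh : HForm h) :
    HForm (fun x => g x * h x) := by
  obtain ⟨A, B, h1⟩ := hg
  obtain ⟨A', B', h2⟩ := hh
  refine ⟨A * A' - B * B', A * B' + A' * B, fun x => ?_⟩
  beta_reduce
  rw [h1, h2]
  have h4 : rev (A * A' - B * B') x = rev A x * rev A' x - rev B x * rev B' x := by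
    simp only [rev, map_sub, map_mul]
  have h5 : rev (A * B' + A' * B) x = rev A x * rev B' x + rev A' x * rev B x := by
    simp only [rev, map_add, map_mul]
  rw [h4, h5]
  linear_combination (rev B x * rev B' x) * Complex.I_sq

private theorem hform_pow {g : (Fin 1 → ℂ) → ℂ} (hg : HForm g) (k : ℕ) :
    HForm (fun x => g x ^ k) := by
  induction k with
  | zero =>
    refine ⟨1, 0, fun x => ?_⟩
    simp [rev]
  | succ k ih =>
    have h := hform_mul ih hg
    simpa only [pow_succ] using h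

private theorem hform_sum (s : Finset ℕ) (g : ℕ → (Fin 1 → ℂ) → ℂ)
    (hg : ∀ i ∈ s, HForm (g i)) : HForm (fun x => ∑ i ∈ s, g i x) := by
  classical
  induction s using Finset.induction_on with
  | empty => exact ⟨0, 0, fun x => by simp [rev]⟩
  | insert a s ha ih =>
    have h := hform_add (hg a (Finset.mem_insert_self _ _))
      (ih fun i hi => hg i (Finset.mem_insert_of_mem hi))
    simpa only [Finset.sum_insert ha] using h

private theorem hform_poly (f : RF 1) (p : ℤ[X]) : HForm (fun x =>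
    ∑ i ∈ Finset.range (p.natDegree + 1), rev (MvPolynomial.C (p.coeff i)) x *
      ((rev f.P x + rev f.Q x * Complex.I) ^ i * rev f.R x ^ (p.natDegree - i))) := by
  refine hform_sum _ _ fun i _ => ?_
  exact hform_mul (hform_rev _) (hform_mul (hform_pow ⟨f.P, f.Q, fun _ => rfl⟩ i)
    (hform_pow (hform_rev f.R) _))

private theorem hform_eval {f : RF 1} (hd : f.d = 1) (p : ℤ[X]) (x : Fin 1 → ℂ)
    (hx : rev f.R x ≠ 0) :
    ∑ i ∈ Finset.range (p.natDegree + 1), rev (MvPolynomial.C (p.coeff i)) x *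
      ((rev f.P x + rev f.Q x * Complex.I) ^ i * rev f.R x ^ (p.natDegree - i))
    = aeval (rz f x) p * rev f.R x ^ p.natDegree := by
  rw [aeval_eq_sum_range, Finset.sum_mul]
  refine Finset.sum_congr rfl fun i hi => ?_
  have h1 : i ≤ p.natDegree := by
    have := Finset.mem_range.1 hi
    omega
  have h2 : rev (MvPolynomial.C (p.coeff i)) x = ((p.coeff i : ℤ) : ℂ) := by
    simp [rev]
  have h3 : rev f.P x + rev f.Q x * Complex.I = rz f x * rev f.R x := by
    rw [hc_rz hd, div_mul_cancel₀ _ hx]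
  rw [h2, h3, mul_pow, mul_assoc, ← pow_add, Nat.add_sub_cancel' h1, zsmul_eq_mul, mul_assoc]

theorem hconst {w : ℂ} (hw : Transcendental ℚ w) (f : RF 1) (hd : f.d = 1)
    (h : RGood f (fun _ => w)) (ha : IsAlgebraic ℚ (rz f (fun _ => w))) :
    ∀ᶠ x in 𝓝 (fun _ : Fin 1 => w), rz f x = rz f (fun _ => w) := by
  obtain ⟨p, hp0, hp⟩ := (IsFractionRing.isAlgebraic_iff ℤ ℚ ℂ).2 ha
  obtain ⟨A, B, hAB⟩ := hform_poly f p
  beta_reduce at hAB
  set W : Fin 1 → ℂ := fun _ => w with hW
  have hR : rev f.R W ≠ 0 := rR_ne f W h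
  have h1 : rev A W + rev B W * Complex.I = 0 := by
    rw [← hAB W, hform_eval hd p W hR, hp, zero_mul]
  obtain ⟨hA, hB⟩ := hc_key hw h1
  have hroot : ∀ x, rev f.R x ≠ 0 → aeval (rz f x) p = 0 := by
    intro x hx
    have h2 := hform_eval hd p x hx
    rw [hAB x, hA, hB] at h2
    have h3 : aeval (rz f x) p * rev f.R x ^ p.natDegree = 0 := by
      rw [← h2]
      simp [rev]
    exact (mul_eq_zero.1 h3).resolve_right (pow_ne_zero _ hx)
  have hfin : {z : ℂ | aeval z p = 0}.Finite := by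
    have h2 := (p.map (algebraMap ℤ ℂ)).roots.toFinset.finite_toSet
    refine h2.subset fun z hz => ?_
    have hne : p.map (algebraMap ℤ ℂ) ≠ 0 := by
      rw [Ne, Polynomial.map_eq_zero_iff (RingHom.injective_int (algebraMap ℤ ℂ))]
      exact hp0
    simp only [Finset.mem_coe, Multiset.mem_toFinset]
    rw [mem_roots hne, IsRoot.def, eval_map_algebraMap]
    exact hz
  have hopen : ∀ᶠ z in 𝓝 (rz f W), z ∉ ({z : ℂ | aeval z p = 0} \ {rz f W}) := by
    have h2 : IsClosed ({z : ℂ | aeval z p = 0} \ {rz f W}) :=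
      (hfin.subset Set.sdiff_subset).isClosed
    exact h2.isOpen_compl.mem_nhds (by simp)
  have hcont : ContinuousAt (rz f) W := (rz_analytic f W h).continuousAt
  filter_upwards [hcont.eventually hopen, rgood_nhds f W h] with x h3 h4
  by_contra h5
  exact h3 ⟨hroot x (rR_ne f x h4), h5⟩

/-- integer polynomials at a point of `ℚ(i)` -/
private theorem hc_gauss (P : MvPolynomial (Fin 1) ℤ) (a b : ℚ) :
    ∃ u v : ℚ, rev P (fun _ => (a : ℂ) + (b : ℂ) * Complex.I) = (u : ℂ) + (v : ℂ) * Complex.I := by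
  induction P using MvPolynomial.induction_on with
  | C n => exact ⟨n, 0, by simp [rev]⟩
  | add p q hp hq =>
    obtain ⟨u, v, e⟩ := hp
    obtain ⟨u', v', e'⟩ := hq
    refine ⟨u + u', v + v', ?_⟩
    have : rev (p + q) (fun _ => (a : ℂ) + (b : ℂ) * Complex.I) =
      rev p (fun _ => (a : ℂ) + (b : ℂ) * Complex.I) +
        rev q (fun _ => (a : ℂ) + (b : ℂ) * Complex.I) := by simp only [rev, map_add]
    rw [this, e, e']
    push_cast
    ring
  | mul_X p l hp =>
    obtain ⟨u, v, e⟩ := hp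
    refine ⟨u * a - v * b, u * b + v * a, ?_⟩
    have : rev (p * MvPolynomial.X l) (fun _ => (a : ℂ) + (b : ℂ) * Complex.I) =
      rev p (fun _ => (a : ℂ) + (b : ℂ) * Complex.I) * ((a : ℂ) + (b : ℂ) * Complex.I) := by
      simp only [rev, map_mul, MvPolynomial.aeval_X]
    rw [this, e]
    push_cast
    linear_combination ((v : ℂ) * b) * Complex.I_sq

private theorem hc_dense (w : ℂ) (U : Set (Fin 1 → ℂ)) (hU : U ∈ 𝓝 (fun _ : Fin 1 => w)) :
    ∃ a b : ℚ, (fun _ : Fin 1 => (a : ℂ) + (b : ℂ) * Complex.I) ∈ U := by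
  have hc : Continuous (fun (u : ℝ × ℝ) (_ : Fin 1) => (u.1 : ℂ) + (u.2 : ℂ) * Complex.I) := by
    fun_prop
  have hw : (fun _ : Fin 1 => w) = (fun (u : ℝ × ℝ) (_ : Fin 1) =>
      (u.1 : ℂ) + (u.2 : ℂ) * Complex.I) (w.re, w.im) := by
    funext _
    exact (Complex.re_add_im w).symm
  rw [hw] at hU
  have h1 := hc.continuousAt.preimage_mem_nhds hU
  have h2 : DenseRange (Prod.map (fun q : ℚ => (q : ℝ)) (fun q : ℚ => (q : ℝ))) :=
    Rat.denseRange_cast.prodMap Rat.denseRange_cast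
  obtain ⟨y, hy, ⟨q, hq⟩⟩ := mem_closure_iff_nhds.1 (h2 (w.re, w.im)) _ h1
  refine ⟨q.1, q.2, ?_⟩
  rw [← hq] at hy
  have hy' : (fun _ : Fin 1 => (((q.1 : ℝ)) : ℂ) + (((q.2 : ℝ)) : ℂ) * Complex.I) ∈ U := hy
  simpa using hy'

theorem hQi (w : ℂ) (f : RF 1) (hd : f.d = 1) (h : RGood f (fun _ => w))
    (hc : ∀ᶠ x in 𝓝 (fun _ : Fin 1 => w), rz f x = rz f (fun _ => w)) :
    ∃ u v : ℚ, 0 < v ∧ rz f (fun _ => w) = (u : ℂ) + (v : ℂ) * qom 1 := by
  obtain ⟨a, b, hab⟩ := hc_dense w _ ((rgood_nhds f _ h).and hc)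
  obtain ⟨hg, he⟩ := hab
  obtain ⟨p1, p2, hP⟩ := hc_gauss f.P a b
  obtain ⟨q1, q2, hQ⟩ := hc_gauss f.Q a b
  obtain ⟨r1, r2, hR⟩ := hc_gauss f.R a b
  have hR0 := rR_ne f _ hg
  have hom : qom 1 = Complex.I := by
    unfold qom
    simp
  -- the norm of the denominator
  have hN : (r1 : ℂ) ^ 2 + (r2 : ℂ) ^ 2 ≠ 0 := by
    intro h0
    have h1 : r1 ^ 2 + r2 ^ 2 = 0 := by exact_mod_cast h0
    have h2 : r1 = 0 := by nlinarith [sq_nonneg r1, sq_nonneg r2]
    have h3 : r2 = 0 := by nlinarith [sq_nonneg r1, sq_nonneg r2]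
    apply hR0
    rw [hR, h2, h3]
    simp
  have hform : rz f (fun _ => (a : ℂ) + (b : ℂ) * Complex.I) =
      ((((p1 - q2) * r1 + (p2 + q1) * r2) / (r1 ^ 2 + r2 ^ 2) : ℚ) : ℂ) +
      ((((p2 + q1) * r1 - (p1 - q2) * r2) / (r1 ^ 2 + r2 ^ 2) : ℚ) : ℂ) * Complex.I := by
    rw [hc_rz hd, div_eq_iff hR0, hP, hQ, hR]
    push_cast
    field_simp
    linear_combination ((q2 : ℂ) * (r1 ^ 2 + r2 ^ 2) -
      ((p2 + q1) * r1 - (p1 - q2) * r2) * r2) * Complex.I_sq
  rw [hom, ← he, hform]
  refine ⟨_, _, ?_, rfl⟩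
  have him := hg.2
  rw [hform] at him
  simp only [Complex.add_im, Complex.ratCast_im, Complex.mul_im, zero_add, Complex.ratCast_re,
    zero_mul, add_zero, Complex.I_im, mul_one] at him
  exact_mod_cast him

end Pool.Agent.Lib.MP5e
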