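import Pool.Agent.Lib.MP_5e64e7_nt.HMain
import Pool.Agent.Lib.MP_5e64e7_nt.HCls
import Pool.Agent.Lib.MP_5e64e7_nt.GSpl
import Pool.Agent.Lib.MP_5e64e7_nt.GCon
import Pool.Agent.Lib.MP_5e64e7_nt.GPar
import Pool.Agent.Lib.MP_5e64e7_nt.GDimU
import Pool.Agent.Lib.MP_5e64e7_nt.GDimG
import Pool.Agent.Lib.MP_5e64e7_nt.G2
import Pool.Agent.Lib.MP_5e64e7_nt.RMem
import Pool.Agent.Lib.MP_5e64e7_nt.Val

set_option autoImplicit false

/-!
# H.FIN : the frozen inequality for all tuples of `ℚ(i)(w) ∩ ℍ`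
-/

noncomputable section

namespace Pool.Agent.Lib.MP5e

open Polynomial Topology

/-- the numbers `j''(i), w, j(z_k), j'(z_k), j''(z_k)` -/
def hfam {n : ℕ} (w : ℂ) (z : Fin n → ℂ) : Option (Option (Fin n × Fin 3)) → ℂ :=
  fun p => p.elim (deriv (deriv jf) Complex.I) fun q => q.elim w fun r =>
    ![jf (z r.1), deriv jf (z r.1), deriv (deriv jf) (z r.1)] r.2

theorem hddj_I : deriv (deriv jf) Complex.I = -10368 * (th : ℂ) ^ 2 := by
  have hI : 0 < Complex.I.im := by simp
  rw [ddjf hI, E6f_I, E4f_I]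
  have hs : (s0 : ℂ) ≠ 0 := by exact_mod_cast s0_pos.ne'
  have hth : (th : ℂ) = (Real.pi : ℂ) * (s0 : ℂ) := by
    unfold th; push_cast; rfl
  rw [hth]
  field_simp
  ring

theorem hfam_of {n : ℕ} {w : ℂ} {z : Fin n → ℂ} (h : AlgebraicIndependent ℚ (ofam w z)) :
    AlgebraicIndependent ℚ (hfam w z) := by
  have h2 := h.polynomial_aeval_of_transcendental
    (f := fun p : Option (Option (Fin n × Fin 3)) =>
      p.elim (Polynomial.C (-10368 : ℚ) * Polynomial.X ^ 2) fun _ => Polynomial.X) ?_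
  · convert h2 using 1
    funext p
    rcases p with _ | _ | q
    · simp [hfam, ofam, hddj_I]
    · simp [hfam, ofam]
    · obtain ⟨l, i⟩ := q
      fin_cases i <;> simp [hfam, ofam, J4]
  · intro p
    rcases p with _ | q
    · have h3 : (Polynomial.C (-10368 : ℚ) * Polynomial.X ^ 2 : Polynomial ℚ).natDegree = 2 := by
        rw [Polynomial.natDegree_C_mul_X_pow 2 _ (by norm_num)]
      refine Polynomial.transcendental _ (by simp only [Option.elim]; rw [h3]; norm_num) ?_
      simp only [Option.elim]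
      rw [Polynomial.leadingCoeff_C_mul_X_pow]
      exact mem_nonZeroDivisors_of_ne_zero (by norm_num)
    · exact Polynomial.transcendental_X ℚ

theorem htrans {w : ℂ} (hw : SG w) : Transcendental ℚ w := by
  have h := hmain hw (n := 0) (fun k => Fin.elim0 k) (fun k => Fin.elim0 k)
    (fun k => Fin.elim0 k) (fun k => Fin.elim0 k) (fun k => Fin.elim0 k)
  exact h.transcendental (some none)

theorem hforms {n : ℕ} {w : ℂ} (hw : Transcendental ℚ w) (z : Fin n → ℂ)
    (him : ∀ i, 0 < (z i).im)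
    (hz : ∀ k, z k ∈ IntermediateField.adjoin ℚ ({Complex.I, w} : Set ℂ)) :
    ∃ f : Fin n → RF 1, (∀ k, (f k).d = 1) ∧ (∀ k, RGood (f k) (fun _ => w)) ∧
      ∀ k, rz (f k) (fun _ => w) = z k := by
  choose f h1 h2 h3 using fun k => hcls hw (z k) (him k) (hz k)
  exact ⟨f, h1, h2, h3⟩

theorem hB {n : ℕ} {w : ℂ} (hw : SG w) (z : Fin n → ℂ) (him : ∀ i, 0 < (z i).im)
    (hz : ∀ k, z k ∈ IntermediateField.adjoin ℚ ({Complex.I, w} : Set ℂ))
    (hq : ∀ k, ¬ GQuad (z k)) (hrel : ∀ k l, k ≠ l → ¬ GRel (z k) (z l)) :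
    AlgebraicIndependent ℚ (hfam w z) := by
  obtain ⟨f, hf1, hf2, hf3⟩ := hforms (htrans hw) z him hz
  apply hfam_of
  have h := hmain hw f hf1 hf2 (fun k hc => by
    obtain ⟨u, v, -, huv⟩ := hQi w (f k) (hf1 k) (hf2 k) hc
    apply hq k
    rw [← hf3, huv]
    exact gquad_om 1 u v) (fun k l hkl => by
    rw [hf3, hf3]
    exact hrel k l hkl)
  have e : (fun k => rz (f k) (fun _ => w)) = z := funext hf3
  rwa [e] at h

private theorem hfin_J4 {n : ℕ} (z : Fin n → ℂ) (K : IntermediateField ℚ ℂ)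
    (h : ∀ p, ggr z p ∈ K) (k : Fin n) (i : Fin 4) : J4 (z k) i ∈ K := h (i, k)

theorem hA {n : ℕ} {w : ℂ} (hw : SG w) (z : Fin n → ℂ) (him : ∀ i, 0 < (z i).im)
    (hz : ∀ k, z k ∈ IntermediateField.adjoin ℚ ({Complex.I, w} : Set ℂ)) (d : ℕ)
    (hd : ((d : WithBot ℕ∞) + ringKrullDim (MvPolynomial (Fin n) ℂ ⧸
        (⨅ w ∈ gU z, RingHom.ker (MvPolynomial.eval w))) ≤
      ringKrullDim (MvPolynomial (Fin 4 × Fin n) (integralClosure ℚ ℂ) ⧸
        (⨅ w ∈ gU z, RingHom.ker (MvPolynomial.aeval (R := integralClosure ℚ ℂ) (ggr w)))))) :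
    ∃ x : Fin d → ℂ, AlgebraicIndependent ℚ x ∧ ∀ t, ∃ p : Fin 4 × Fin n, x t = ggr z p := by
  classical
  have hwt := htrans hw
  obtain ⟨f, hf1, hf2, hf3⟩ := hforms hwt z him hz
  obtain ⟨N, κ, φ, hκ1, hκ2, h1, h2, h3⟩ := gpar z him
  have hQ : ∀ k, GQuad (z k) → ∃ u v : ℚ, 0 < v ∧ z k = (u : ℂ) + (v : ℂ) * qom 1 := by
    intro k hk
    have h4 := hQi w (f k) (hf1 k) (hf2 k) (hconst hwt (f k) (hf1 k) (hf2 k) (by
      rw [hf3]
      obtain ⟨a, b, c, ha, h⟩ := hk
      refine ⟨Polynomial.C a * Polynomial.X ^ 2 + Polynomial.C b * Polynomial.X +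
        Polynomial.C c, ?_, ?_⟩
      · intro h0
        have h1 := Polynomial.natDegree_quadratic (b := b) (c := c) ha
        rw [h0, Polynomial.natDegree_zero] at h1
        exact absurd h1 (by norm_num)
      · simp only [map_add, map_mul, map_pow, Polynomial.aeval_C, Polynomial.aeval_X]
        exact h))
    rwa [hf3] at h4
  obtain ⟨c, hc1, hc2, hc3⟩ := gspl 1 le_rfl
  have hind := hB hw (fun l => z (κ l)) (fun l => him _) (fun l => hz _) hκ1 hκ2
  have hU := gdimU z κ φ (fun u hu => ⟨(h1 u hu).1, (h1 u hu).2.1⟩) h2 h3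
  have hdd : ((d + N : ℕ) : WithBot ℕ∞) ≤ ringKrullDim (MvPolynomial (Fin 4 × Fin n)
      (integralClosure ℚ ℂ) ⧸
        (⨅ w ∈ gU z, RingHom.ker (MvPolynomial.aeval (R := integralClosure ℚ ℂ) (ggr w)))) := by
    refine le_trans ?_ hd
    push_cast
    exact add_le_add_right hU _
  by_cases hgood : ∃ k, GQuad (z k) ∧ ¬ (deriv jf (z k) = 0 ∧ deriv (deriv jf) (z k) = 0)
  · have hG := gdimG (γ := Fin 1) z κ φ (fun u hu => ⟨(h1 u hu).1, (h1 u hu).2.2⟩) h2 h3
      (fun _ => c) (by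
        intro K hK hcK k hk i
        obtain ⟨u, v, hv, huv⟩ := hQ k hk
        rw [huv]
        exact hc1 K hK (hcK 0) u v hv i) (d + N) hdd
    rw [Fintype.card_fin] at hG
    refine rsub (κ₂ := Fin 0) (fun p : Option (Fin N × Fin 3) => hfam w (fun l => z (κ l))
      (p.map some)) (ggr z) (fun i => Fin.elim0 i) ?_ ?_ d ?_ |>.imp fun x hx => ⟨hx.1, hx.2⟩
    · exact hind.comp (fun p : Option (Fin N × Fin 3) => p.map some)
        (Option.map_injective (Option.some_injective _))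
    · intro K hK hy _ p
      rcases p with _ | ⟨l, i⟩
      · obtain ⟨k, hk1, hk2⟩ := hgood
        obtain ⟨u, v, hv, huv⟩ := hQ k hk1
        have hcK : c ∈ K := by
          have e2 := hfin_J4 z K hy k 2
          have e3 := hfin_J4 z K hy k 3
          rw [huv] at e2 e3 hk2
          exact hc3 K hK u v hv hk2 e2 e3
        have h5 := hc1 K hK hcK 0 1 one_pos 3
        have e4 : ((0 : ℚ) : ℂ) + ((1 : ℚ) : ℂ) * qom 1 = Complex.I := by
          simp [qom]
        rw [e4] at h5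
        exact h5
      · have h5 := hfin_J4 z K hy (κ l)
        fin_cases i
        · exact h5 1
        · exact h5 2
        · exact h5 3
    · rw [Fintype.card_option, Fintype.card_prod, Fintype.card_fin, Fintype.card_fin,
        Fintype.card_fin]
      omega
  · have hG := gdimG (γ := Fin 0) z κ φ (fun u hu => ⟨(h1 u hu).1, (h1 u hu).2.2⟩) h2 h3
      (fun i => Fin.elim0 i) (by
        intro K hK _ k hk i
        obtain ⟨u, v, hv, huv⟩ := hQ k hk
        have h0 : deriv jf (z k) = 0 ∧ deriv (deriv jf) (z k) = 0 := by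
          by_contra h0
          exact hgood ⟨k, hk, h0⟩
        obtain ⟨h5, h6⟩ := hc2 K hK u v hv
        rw [← huv] at h5 h6
        fin_cases i
        · exact h6
        · exact h5
        · change deriv jf (z k) ∈ K
          rw [h0.1]
          exact zero_mem K
        · change deriv (deriv jf) (z k) ∈ K
          rw [h0.2]
          exact zero_mem K) (d + N) hdd
    rw [Fintype.card_fin] at hG
    refine rsub (κ₂ := Fin 0) (fun p : Fin N × Fin 3 => hfam w (fun l => z (κ l))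
      (some (some p))) (ggr z) (fun i => Fin.elim0 i) ?_ ?_ d ?_ |>.imp fun x hx => ⟨hx.1, hx.2⟩
    · exact hind.comp (fun p : Fin N × Fin 3 => some (some p))
        (fun a b hab => Option.some_injective _ (Option.some_injective _ hab))
    · rintro K hK hy _ ⟨l, i⟩
      have h5 := hfin_J4 z K hy (κ l)
      fin_cases i
      · exact h5 1
      · exact h5 2
      · exact h5 3
    · rw [Fintype.card_prod, Fintype.card_fin, Fintype.card_fin, Fintype.card_fin]
      omega

end Pool.Agent.Lib.MP5e
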