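import Pool.Agent.Lib.MP_5e64e7_nt.GDefs
import Pool.Agent.Lib.MP_5e64e7_nt.ODefs
import Pool.Agent.Lib.MP_5e64e7_nt.RAna

set_option autoImplicit false

/-!
# H.HT : heights of the values of a rational function over `ℚ(i)` at Gaussian rationals (about 130 lines)

`f.d = 1`, so `rs f x = 1` (`Complex.one_cpow`) and `rz f x = (rev f.P x + I * rev f.Q x)/rev f.R x`. Model: `OHt.lean`.

Claim: for `P : MvPolynomial (Fin 1) ℤ` there are `h, e` such that for all `B, c, x, y` as below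
`rev P (fun _ => gr x y c) * c^e = p + q I` with integers `|p|, |q| ≤ B^h`. Induction on `P`: constants `a`: `e = 0`,
`h = |a|` (`|a| ≤ 2^|a| ≤ B^|a|`); sums: multiply by `c^{e'}` and `c^e`, exponent `h + h' + e + e' + 1`; `P * X 0`:
`gr x y c * c = x + y I`, `(p + q I)(x + y I)`, exponent `h + 2`.
Take the common exponent `e = e₁ + e₂ + e₃` for `f.P, f.Q, f.R`: `rz f r = N/D`, `N = p + q I`, `D = s + t I` Gaussian integers,
`D ≠ 0` (`Im > 0`), so `rz f r = N * conj D/(s² + t²)`: `x' = p s + q t`, `y' = q s - p t`, `c' = s² + t² ≥ 1`,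
`Im (rz f r) = y'/c' > 0`.
-/

noncomputable section

namespace Pool.Agent.Lib.MP5e

open Polynomial Topology

private theorem hb_add {B M : ℕ} (hB : 2 ≤ B) {a b : ℤ} (ha : |a| ≤ ((B ^ M : ℕ) : ℤ))
    (hb : |b| ≤ ((B ^ M : ℕ) : ℤ)) : |a + b| ≤ ((B ^ (M + 1) : ℕ) : ℤ) := by
  have h1 := abs_add_le a b
  have h2 : B ^ M * 2 ≤ B ^ (M + 1) := by
    rw [pow_succ]
    exact Nat.mul_le_mul_left _ hB
  have h3 : ((B ^ M * 2 : ℕ) : ℤ) ≤ ((B ^ (M + 1) : ℕ) : ℤ) := by exact_mod_cast h2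
  push_cast at h3 ha hb ⊢
  linarith

private theorem hb_mul {B M N : ℕ} {a b : ℤ} (ha : |a| ≤ ((B ^ M : ℕ) : ℤ))
    (hb : |b| ≤ ((B ^ N : ℕ) : ℤ)) : |a * b| ≤ ((B ^ (M + N) : ℕ) : ℤ) := by
  rw [abs_mul, pow_add]
  push_cast at ha hb ⊢
  exact mul_le_mul ha hb (abs_nonneg _) (by positivity)

private theorem hb_mono {B M N : ℕ} (hB : 2 ≤ B) (h : M ≤ N) {a : ℤ}
    (ha : |a| ≤ ((B ^ M : ℕ) : ℤ)) : |a| ≤ ((B ^ N : ℕ) : ℤ) := by
  refine le_trans ha ?_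
  exact_mod_cast Nat.pow_le_pow_right (by omega) h

private theorem hpoly (P : MvPolynomial (Fin 1) ℤ) : ∃ h e : ℕ, ∀ (B c : ℕ) (x y : ℤ), 2 ≤ B →
    1 ≤ c → c ≤ B → |x| ≤ (B : ℤ) → |y| ≤ (B : ℤ) → ∃ p q : ℤ,
      rev P (fun _ => gr x y c) * (c : ℂ) ^ e = (p : ℂ) + (q : ℂ) * Complex.I ∧
      |p| ≤ ((B ^ h : ℕ) : ℤ) ∧ |q| ≤ ((B ^ h : ℕ) : ℤ) := by
  induction P using MvPolynomial.induction_on with
  | C a =>
    refine ⟨a.natAbs, 0, fun B c x y hB _ _ _ _ => ⟨a, 0, ?_, ?_, ?_⟩⟩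
    · simp [rev]
    · have h1 : a.natAbs ≤ B ^ a.natAbs :=
        le_trans (Nat.lt_two_pow_self).le (Nat.pow_le_pow_left hB _)
      have h2 : |a| = ((a.natAbs : ℕ) : ℤ) := by simp
      rw [h2]
      exact_mod_cast h1
    · rw [abs_zero]
      positivity
  | add P Q ihP ihQ =>
    obtain ⟨h1, e1, H1⟩ := ihP
    obtain ⟨h2, e2, H2⟩ := ihQ
    refine ⟨h1 + h2 + e1 + e2 + 1, e1 + e2, fun B c x y hB hc hcB hx hy => ?_⟩
    obtain ⟨p1, q1, E1, bp1, bq1⟩ := H1 B c x y hB hc hcB hx hy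
    obtain ⟨p2, q2, E2, bp2, bq2⟩ := H2 B c x y hB hc hcB hx hy
    have hcc : ∀ e : ℕ, |((c : ℤ) ^ e)| ≤ ((B ^ e : ℕ) : ℤ) := by
      intro e
      rw [abs_of_nonneg (by positivity)]
      exact_mod_cast Nat.pow_le_pow_left hcB e
    refine ⟨p1 * (c : ℤ) ^ e2 + p2 * (c : ℤ) ^ e1, q1 * (c : ℤ) ^ e2 + q2 * (c : ℤ) ^ e1, ?_,
      hb_add hB ?_ ?_, hb_add hB ?_ ?_⟩
    · have h3 : rev (P + Q) (fun _ => gr x y c) =
          rev P (fun _ => gr x y c) + rev Q (fun _ => gr x y c) := by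
        unfold rev
        rw [map_add]
      rw [h3, pow_add]
      push_cast
      linear_combination (c : ℂ) ^ e2 * E1 + (c : ℂ) ^ e1 * E2
    · exact hb_mono hB (by omega) (hb_mul bp1 (hcc e2))
    · exact hb_mono hB (by omega) (hb_mul bp2 (hcc e1))
    · exact hb_mono hB (by omega) (hb_mul bq1 (hcc e2))
    · exact hb_mono hB (by omega) (hb_mul bq2 (hcc e1))
  | mul_X P i ih =>
    obtain ⟨h1, e1, H1⟩ := ih
    refine ⟨h1 + 2, e1 + 1, fun B c x y hB hc hcB hx hy => ?_⟩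
    obtain ⟨p1, q1, E1, bp1, bq1⟩ := H1 B c x y hB hc hcB hx hy
    have hx' : |x| ≤ ((B ^ 1 : ℕ) : ℤ) := by rw [pow_one]; exact hx
    have hy' : |y| ≤ ((B ^ 1 : ℕ) : ℤ) := by rw [pow_one]; exact hy
    have hyn : |-y| ≤ ((B ^ 1 : ℕ) : ℤ) := by rw [abs_neg]; exact hy'
    have hc0 : (c : ℂ) ≠ 0 := by exact_mod_cast (by omega : c ≠ 0)
    have hgr : gr x y c * (c : ℂ) = (x : ℂ) + (y : ℂ) * Complex.I := by
      unfold gr
      rw [div_mul_cancel₀ _ hc0]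
    refine ⟨p1 * x + q1 * (-y), p1 * y + q1 * x, ?_, hb_add (M := h1 + 1) hB ?_ ?_,
      hb_add (M := h1 + 1) hB ?_ ?_⟩
    · have h3 : rev (P * MvPolynomial.X i) (fun _ => gr x y c) =
          rev P (fun _ => gr x y c) * gr x y c := by
        unfold rev
        rw [map_mul, MvPolynomial.aeval_X]
      have h4 : rev P (fun _ => gr x y c) * gr x y c * (c : ℂ) ^ (e1 + 1) =
          (rev P (fun _ => gr x y c) * (c : ℂ) ^ e1) * (gr x y c * (c : ℂ)) := by ring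
      rw [h3, h4, E1, hgr]
      push_cast
      linear_combination (q1 : ℂ) * y * Complex.I_mul_I
    · exact hb_mul bp1 hx'
    · exact hb_mul bq1 hyn
    · exact hb_mul bp1 hy'
    · exact hb_mul bq1 hx'

private theorem hpoly' (P : MvPolynomial (Fin 1) ℤ) : ∃ h e : ℕ, ∀ d : ℕ, ∀ (B c : ℕ) (x y : ℤ),
    2 ≤ B → 1 ≤ c → c ≤ B → |x| ≤ (B : ℤ) → |y| ≤ (B : ℤ) → ∃ p q : ℤ,
      rev P (fun _ => gr x y c) * (c : ℂ) ^ (e + d) = (p : ℂ) + (q : ℂ) * Complex.I ∧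
      |p| ≤ ((B ^ (h + d) : ℕ) : ℤ) ∧ |q| ≤ ((B ^ (h + d) : ℕ) : ℤ) := by
  obtain ⟨h, e, H⟩ := hpoly P
  refine ⟨h, e, fun d B c x y hB hc hcB hx hy => ?_⟩
  obtain ⟨p, q, E, bp, bq⟩ := H B c x y hB hc hcB hx hy
  have hcc : |((c : ℤ) ^ d)| ≤ ((B ^ d : ℕ) : ℤ) := by
    rw [abs_of_nonneg (by positivity)]
    exact_mod_cast Nat.pow_le_pow_left hcB d
  refine ⟨p * (c : ℤ) ^ d, q * (c : ℤ) ^ d, ?_, hb_mul bp hcc, hb_mul bq hcc⟩
  rw [pow_add, ← mul_assoc, E]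
  push_cast
  ring

private theorem hgr_im (a b : ℤ) {c : ℕ} : (gr a b c).im = (b : ℝ) / (c : ℝ) := by
  unfold gr
  have h1 : ((a : ℂ) + (b : ℂ) * Complex.I) / (c : ℂ) =
      ((a : ℂ) + (b : ℂ) * Complex.I) / ((c : ℝ) : ℂ) := by push_cast; rfl
  rw [h1, Complex.div_ofReal_im]
  simp

theorem hht (f : RF 1) (hd : f.d = 1) : ∃ h : ℕ, ∀ (B c : ℕ) (x y : ℤ), 2 ≤ B → 1 ≤ c → c ≤ B →
    |x| ≤ (B : ℤ) → |y| ≤ (B : ℤ) → 0 < (rz f (fun _ => gr x y c)).im →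
    ∃ (c' : ℕ) (x' y' : ℤ), 1 ≤ c' ∧ c' ≤ B ^ h ∧ |x'| ≤ ((B ^ h : ℕ) : ℤ) ∧ 0 < y' ∧
      y' ≤ ((B ^ h : ℕ) : ℤ) ∧ rz f (fun _ => gr x y c) = gr x' y' c' := by
  obtain ⟨hP, eP, HP⟩ := hpoly' f.P
  obtain ⟨hQ, eQ, HQ⟩ := hpoly' f.Q
  obtain ⟨hR, eR, HR⟩ := hpoly' f.R
  set M := hP + hQ + hR + eP + eQ + eR with hM
  refine ⟨2 * M + 2, fun B c x y hB hc hcB hx hy him => ?_⟩
  obtain ⟨p1, q1, E1, bp1, bq1⟩ := HP (eQ + eR) B c x y hB hc hcB hx hy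
  obtain ⟨p2, q2, E2, bp2, bq2⟩ := HQ (eP + eR) B c x y hB hc hcB hx hy
  obtain ⟨s, t, E3, bs, bt⟩ := HR (eP + eQ) B c x y hB hc hcB hx hy
  have bp1' : |p1| ≤ ((B ^ M : ℕ) : ℤ) := hb_mono hB (by omega) bp1
  have bq1' : |q1| ≤ ((B ^ M : ℕ) : ℤ) := hb_mono hB (by omega) bq1
  have bp2' : |p2| ≤ ((B ^ M : ℕ) : ℤ) := hb_mono hB (by omega) bp2
  have bq2' : |q2| ≤ ((B ^ M : ℕ) : ℤ) := hb_mono hB (by omega) bq2
  have bs' : |s| ≤ ((B ^ M : ℕ) : ℤ) := hb_mono hB (by omega) bs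
  have bt' : |t| ≤ ((B ^ M : ℕ) : ℤ) := hb_mono hB (by omega) bt
  have btn : |-t| ≤ ((B ^ M : ℕ) : ℤ) := by rw [abs_neg]; exact bt'
  have bq2n : |-q2| ≤ ((B ^ M : ℕ) : ℤ) := by rw [abs_neg]; exact bq2'
  obtain ⟨U1, hU1⟩ : ∃ z : ℤ, z = p1 + -q2 := ⟨_, rfl⟩
  obtain ⟨U2, hU2⟩ : ∃ z : ℤ, z = q1 + p2 := ⟨_, rfl⟩
  have bU1 : |U1| ≤ ((B ^ (M + 1) : ℕ) : ℤ) := hU1 ▸ hb_add hB bp1' bq2n
  have bU2 : |U2| ≤ ((B ^ (M + 1) : ℕ) : ℤ) := hU2 ▸ hb_add hB bq1' bp2'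
  set X : Fin 1 → ℂ := fun _ => gr x y c with hX
  have hrs : rs f X = 1 := by
    unfold rs rev
    rw [hd, map_one, Complex.one_cpow]
  have hc0 : (c : ℂ) ≠ 0 := by exact_mod_cast (by omega : c ≠ 0)
  have hce : (c : ℂ) ^ (eP + eQ + eR) ≠ 0 := pow_ne_zero _ hc0
  have F1 : rev f.P X * (c : ℂ) ^ (eP + eQ + eR) = (p1 : ℂ) + (q1 : ℂ) * Complex.I := by
    rw [← E1]; congr 2; omega
  have F2 : rev f.Q X * (c : ℂ) ^ (eP + eQ + eR) = (p2 : ℂ) + (q2 : ℂ) * Complex.I := by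
    rw [← E2]; congr 2; omega
  have F3 : rev f.R X * (c : ℂ) ^ (eP + eQ + eR) = (s : ℂ) + (t : ℂ) * Complex.I := by
    rw [← E3]; congr 2; omega
  have hm : rz f X = ((U1 : ℂ) + (U2 : ℂ) * Complex.I) / ((s : ℂ) + (t : ℂ) * Complex.I) := by
    have e1 : (rev f.P X + rev f.Q X * (Complex.I * 1)) * (c : ℂ) ^ (eP + eQ + eR) =
        (U1 : ℂ) + (U2 : ℂ) * Complex.I := by
      rw [hU1, hU2]
      push_cast
      linear_combination F1 + Complex.I * F2 + (q2 : ℂ) * Complex.I_mul_I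
    unfold rz
    rw [hrs, ← e1, ← F3, mul_div_mul_right _ _ hce]
  have hV : s ^ 2 + t ^ 2 ≠ 0 := by
    intro h0
    have h1 : s = 0 := (pow_eq_zero_iff two_ne_zero).1
      (le_antisymm (by linarith [sq_nonneg t]) (sq_nonneg s))
    have h2 : t = 0 := (pow_eq_zero_iff two_ne_zero).1
      (le_antisymm (by linarith [sq_nonneg s]) (sq_nonneg t))
    rw [hm, h1, h2] at him
    simp at him
  have hVpos : 0 < s ^ 2 + t ^ 2 := lt_of_le_of_ne (by positivity) (Ne.symm hV)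
  obtain ⟨c', hc'e⟩ := Int.eq_ofNat_of_zero_le hVpos.le
  have hc'1 : 1 ≤ c' := by omega
  have hgr : rz f X = gr (U1 * s + U2 * t) (U2 * s + U1 * -t) c' := by
    rw [hm]
    unfold gr
    have h1 : (c' : ℂ) = (s : ℂ) ^ 2 + (t : ℂ) ^ 2 := by
      have : ((c' : ℤ) : ℂ) = ((s ^ 2 + t ^ 2 : ℤ) : ℂ) := by rw [hc'e]
      push_cast at this
      exact this
    have h2 : (c' : ℂ) ≠ 0 := by exact_mod_cast (by omega : c' ≠ 0)
    have h3 : ((s : ℂ) + (t : ℂ) * Complex.I) * ((s : ℂ) - (t : ℂ) * Complex.I) = (c' : ℂ) := by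
      rw [h1]
      linear_combination (-(t : ℂ) ^ 2) * Complex.I_mul_I
    have h4 : (s : ℂ) + (t : ℂ) * Complex.I ≠ 0 := by
      intro h5
      rw [h5, zero_mul] at h3
      exact h2 h3.symm
    rw [div_eq_div_iff h4 h2]
    rw [← h3]
    push_cast
    linear_combination (-(U2 : ℂ) * t * ((s : ℂ) + (t : ℂ) * Complex.I)) * Complex.I_mul_I
  have him' : (0 : ℝ) < ((U2 * s + U1 * -t : ℤ) : ℝ) / (c' : ℝ) := by
    rw [← hgr_im (U1 * s + U2 * t) _, ← hgr]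
    exact him
  have hcp : (0 : ℝ) < (c' : ℝ) := by exact_mod_cast hc'1
  have hy' : 0 < U2 * s + U1 * -t := by
    have h1 := (div_pos_iff_of_pos_right hcp).mp him'
    exact_mod_cast h1
  refine ⟨c', U1 * s + U2 * t, U2 * s + U1 * -t, hc'1, ?_, ?_, hy', ?_, hgr⟩
  · have h2 : |s * s + t * t| ≤ ((B ^ (M + M + 1) : ℕ) : ℤ) := hb_add hB (hb_mul bs' bs')
      (hb_mul bt' bt')
    have h3 : (c' : ℤ) = s * s + t * t := by
      have : (c' : ℤ) = s ^ 2 + t ^ 2 := hc'e.symm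
      rw [this]; ring
    have h4 : ((c' : ℕ) : ℤ) ≤ ((B ^ (2 * M + 2) : ℕ) : ℤ) := by
      rw [h3]
      exact le_trans (le_abs_self _) (hb_mono hB (by omega) h2)
    exact_mod_cast h4
  · exact hb_mono hB (by omega) (hb_add (M := M + 1 + M) hB (hb_mul bU1 bs') (hb_mul bU2 bt'))
  · exact le_trans (le_abs_self _)
      (hb_mono hB (by omega) (hb_add (M := M + 1 + M) hB (hb_mul bU2 bs') (hb_mul bU1 btn)))

end Pool.Agent.Lib.MP5e
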