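import Pool.Agent.Lib.MP_5e64e7_nt.L1l

set_option autoImplicit false

noncomputable section

namespace Pool.Agent.Lib.MP5e

open Polynomial Topology

private lemma root_bound (N : ℤ[X]) (hN : N ≠ 0) (H : ℕ) (hH : ∀ k, |N.coeff k| ≤ (H : ℤ)) (α : ℂ)
    (hα : aeval α N = 0) : ‖α‖ ≤ (H : ℝ) + 1 := by
  set p : ℂ[X] := N.map (Int.castRingHom ℂ) with hp
  have hinj : Function.Injective (Int.castRingHom ℂ) := RingHom.injective_int _
  have hp0 : p ≠ 0 := (Polynomial.map_ne_zero_iff hinj).2 hN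
  have hroot : p.IsRoot α := by
    rw [IsRoot.def, hp, eval_map]
    exact hα
  have h1 := hroot.norm_lt_cauchyBound hp0
  have hlc : (1 : ℝ) ≤ ‖p.leadingCoeff‖ := by
    rw [hp, leadingCoeff_map_of_injective hinj]
    have h2 : N.leadingCoeff ≠ 0 := leadingCoeff_ne_zero.2 hN
    have h3 : (1 : ℤ) ≤ |N.leadingCoeff| := Int.one_le_abs h2
    have h4 : ‖(Int.castRingHom ℂ) N.leadingCoeff‖ = ((|N.leadingCoeff| : ℤ) : ℝ) := by
      rw [eq_intCast, Complex.norm_intCast]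
      push_cast
      rfl
    rw [h4]
    exact_mod_cast h3
  have h5 : (p.cauchyBound : ℝ) ≤ (H : ℝ) + 1 := by
    unfold cauchyBound
    push_cast
    gcongr
    have h6 : ((((Finset.range p.natDegree).sup fun x => ‖p.coeff x‖₊) : NNReal) : ℝ) ≤ H := by
      have h7 : ((Finset.range p.natDegree).sup fun x => ‖p.coeff x‖₊) ≤ (H : NNReal) := by
        apply Finset.sup_le
        intro x _
        rw [← NNReal.coe_le_coe, coe_nnnorm, hp, coeff_map, eq_intCast, Complex.norm_intCast]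
        have := hH x
        have h8 : ((|N.coeff x| : ℤ) : ℝ) ≤ (H : ℝ) := by exact_mod_cast this
        push_cast at h8 ⊢
        exact h8
      exact_mod_cast h7
    have h9 : (0 : ℝ) ≤ H := Nat.cast_nonneg H
    rw [div_le_iff₀ (by linarith)]
    nlinarith
  have h10 : ‖α‖ < (p.cauchyBound : ℝ) := by exact_mod_cast h1
  linarith

theorem liou (N : ℤ[X]) (hN : N ≠ 0) (n H : ℕ) (hdeg : N.natDegree ≤ n)
    (hH : ∀ k, |N.coeff k| ≤ (H : ℤ)) (κ' : ℂ) (hroot : aeval κ' N = 0) (P : ℤ[X]) (m Λ : ℕ)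
    (hP : P.natDegree ≤ m) (hL : L1 P ≤ Λ) (hne : aeval κ' P ≠ 0) :
    1 ≤ ‖aeval κ' P‖ * ((Λ : ℝ) * ((H : ℝ) + 1) ^ (2 * m)) ^ n := by
  -- the field
  have hinjQ : Function.Injective (Int.castRingHom ℚ) := RingHom.injective_int _
  have hNQ0 : N.map (Int.castRingHom ℚ) ≠ 0 := (Polynomial.map_ne_zero_iff hinjQ).2 hN
  have hNQ : aeval κ' (N.map (Int.castRingHom ℚ)) = 0 := by
    have h1 : aeval κ' (N.map (algebraMap ℤ ℚ)) = aeval κ' N := aeval_map_algebraMap ℚ κ' N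
    rw [← hroot, ← h1]
    rfl
  have halg : IsAlgebraic ℚ κ' := ⟨_, hNQ0, hNQ⟩
  have hint : IsIntegral ℚ κ' := halg.isIntegral
  have hfd : FiniteDimensional ℚ (IntermediateField.adjoin ℚ {κ'}) :=
    IntermediateField.adjoin.finiteDimensional hint
  let K := IntermediateField.adjoin ℚ {κ'}
  let θ : K := IntermediateField.AdjoinSimple.gen ℚ κ'
  have hθ : ((θ : K) : ℂ) = κ' := IntermediateField.AdjoinSimple.algebraMap_gen ℚ κ'
  have hNθ : aeval θ N = 0 := by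
    have h1 : ((aeval θ N : K) : ℂ) = aeval κ' N := by
      have := aeval_algebraMap_apply ℂ θ N
      rw [← hθ]
      exact this.symm
    have h2 : ((aeval θ N : K) : ℂ) = ((0 : K) : ℂ) := by
      rw [h1, hroot]
      rfl
    exact_mod_cast h2
  set c : ℤ := N.leadingCoeff with hc
  have hc0 : c ≠ 0 := leadingCoeff_ne_zero.2 hN
  have hcH : |c| ≤ (H : ℤ) := hH _
  have hcθ : IsIntegral ℤ (c • θ) := isIntegral_leadingCoeff_smul N θ hNθ
  -- the integer
  set ω : K := (c : K) ^ m * aeval θ P with hω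
  have hωint : IsIntegral ℤ ω := by
    have h1 : ω = ∑ i ∈ Finset.range (m + 1),
        ((P.coeff i : ℤ) : K) * ((c : K) ^ (m - i) * (c • θ) ^ i) := by
      rw [hω, aeval_eq_sum_range' (Nat.lt_succ_of_le hP) θ, Finset.mul_sum]
      refine Finset.sum_congr rfl fun i hi => ?_
      have hi' : i ≤ m := Nat.lt_succ_iff.1 (Finset.mem_range.1 hi)
      have h2 : (c : K) ^ m = (c : K) ^ (m - i) * (c : K) ^ i := by
        rw [← pow_add, Nat.sub_add_cancel hi']
      rw [h2, zsmul_eq_mul, zsmul_eq_mul, mul_pow]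
      ring
    rw [h1]
    refine IsIntegral.sum _ fun i _ => ?_
    have h3 : IsIntegral ℤ (c : K) := by
      have := isIntegral_algebraMap (R := ℤ) (A := K) (x := c)
      simpa using this
    have h4 : IsIntegral ℤ ((P.coeff i : ℤ) : K) := by
      have := isIntegral_algebraMap (R := ℤ) (A := K) (x := P.coeff i)
      simpa using this
    exact h4.mul ((h3.pow _).mul (hcθ.pow _))
  have hPθ : ((aeval θ P : K) : ℂ) = aeval κ' P := by
    have := aeval_algebraMap_apply ℂ θ P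
    rw [← hθ]
    exact this.symm
  have hω0 : ω ≠ 0 := by
    rw [hω]
    refine mul_ne_zero (pow_ne_zero _ (Int.cast_ne_zero.2 hc0)) ?_
    intro h0
    apply hne
    rw [← hPθ, h0]
    rfl
  obtain ⟨z, hz⟩ := IsIntegrallyClosed.isIntegral_iff.1 (Algebra.isIntegral_norm ℚ hωint)
  have hz0 : z ≠ 0 := by
    intro h0
    rw [h0, map_zero] at hz
    exact hω0 (Algebra.norm_eq_zero_iff.1 hz.symm)
  have hnorm := Algebra.norm_eq_prod_embeddings ℚ ℂ ω
  have hz1 : (1 : ℝ) ≤ ‖∏ σ : K →ₐ[ℚ] ℂ, σ ω‖ := by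
    rw [← hnorm, ← hz]
    have h1 : (algebraMap ℚ ℂ) ((algebraMap ℤ ℚ) z) = (z : ℂ) := by simp
    rw [h1, Complex.norm_intCast]
    have h2 : (1 : ℤ) ≤ |z| := Int.one_le_abs hz0
    exact_mod_cast h2
  -- the bounds
  have hP0 : P ≠ 0 := by
    rintro rfl
    exact hne (map_zero _)
  have hH1 : (1 : ℝ) ≤ (H : ℝ) + 1 := by
    have : (0 : ℝ) ≤ H := Nat.cast_nonneg H
    linarith
  have hL1 : 1 ≤ L1 P := by
    unfold L1
    have h1 : P.natDegree ∈ P.support := natDegree_mem_support_of_nonzero hP0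
    have h2 : (P.coeff P.natDegree).natAbs ≤ ∑ k ∈ P.support, (P.coeff k).natAbs :=
      Finset.single_le_sum (f := fun k => (P.coeff k).natAbs) (fun _ _ => Nat.zero_le _) h1
    have h3 : 1 ≤ (P.coeff P.natDegree).natAbs := by
      have : P.coeff P.natDegree ≠ 0 := leadingCoeff_ne_zero.2 hP0
      omega
    exact h3.trans h2
  have hΛ : (1 : ℝ) ≤ Λ := by exact_mod_cast hL1.trans hL
  set B : ℝ := (Λ : ℝ) * ((H : ℝ) + 1) ^ (2 * m) with hB
  have hB1 : 1 ≤ B := by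
    have := one_le_pow₀ hH1 (n := 2 * m)
    nlinarith
  have hcC : ‖(c : ℂ)‖ ≤ (H : ℝ) + 1 := by
    rw [Complex.norm_intCast]
    have : ((|c| : ℤ) : ℝ) ≤ (H : ℝ) := by exact_mod_cast hcH
    push_cast at this
    linarith
  have hcm : ‖(c : ℂ)‖ ^ m ≤ ((H : ℝ) + 1) ^ m := pow_le_pow_left₀ (norm_nonneg _) hcC m
  have hσω : ∀ σ : K →ₐ[ℚ] ℂ, σ ω = (c : ℂ) ^ m * aeval (σ θ) P := by
    intro σ
    have h1 : σ (aeval θ P) = aeval (σ θ) P := by
      have := aeval_algHom_apply (σ.restrictScalars ℤ) θ P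
      exact this.symm
    rw [hω, map_mul, map_pow, h1, map_intCast]
  have hσB : ∀ σ : K →ₐ[ℚ] ℂ, ‖σ ω‖ ≤ B := by
    intro σ
    have h1 : aeval (σ θ) N = 0 := by
      have := aeval_algHom_apply (σ.restrictScalars ℤ) θ N
      have h2 : aeval (σ θ) N = σ (aeval θ N) := this
      rw [h2, hNθ, map_zero]
    have h2 := root_bound N hN H hH (σ θ) h1
    have h3 := norm_aeval_le P (σ θ) m hP ((H : ℝ) + 1) hH1 h2
    rw [hσω, norm_mul, norm_pow]
    have h4 : (L1 P : ℝ) ≤ Λ := by exact_mod_cast hL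
    have h5 : 0 ≤ ((H : ℝ) + 1) ^ m := by positivity
    calc ‖(c : ℂ)‖ ^ m * ‖aeval (σ θ) P‖ ≤
        ((H : ℝ) + 1) ^ m * ((L1 P : ℝ) * ((H : ℝ) + 1) ^ m) :=
          mul_le_mul hcm h3 (norm_nonneg _) h5
      _ ≤ ((H : ℝ) + 1) ^ m * ((Λ : ℝ) * ((H : ℝ) + 1) ^ m) := by gcongr
      _ = B := by
        rw [hB, two_mul, pow_add]
        ring
  set σ0 : K →ₐ[ℚ] ℂ := K.val with hσ0
  have hσ0ω : ‖σ0 ω‖ ≤ ‖aeval κ' P‖ * B := by
    rw [hσω, norm_mul, norm_pow]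
    have h1 : σ0 θ = κ' := hθ
    rw [h1]
    have h2 : ‖(c : ℂ)‖ ^ m ≤ B := by
      refine hcm.trans ?_
      have h3 : ((H : ℝ) + 1) ^ m ≤ ((H : ℝ) + 1) ^ (2 * m) :=
        pow_le_pow_right₀ hH1 (by omega)
      have h4 : 0 ≤ ((H : ℝ) + 1) ^ (2 * m) := by positivity
      nlinarith
    rw [mul_comm]
    exact mul_le_mul_of_nonneg_left h2 (norm_nonneg _)
  have hcard : Fintype.card (K →ₐ[ℚ] ℂ) ≤ n := by
    rw [AlgHom.card ℚ K ℂ, IntermediateField.adjoin.finrank hint]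
    have h1 : (minpoly ℚ κ').natDegree ≤ (N.map (Int.castRingHom ℚ)).natDegree :=
      natDegree_le_of_dvd (minpoly.dvd ℚ κ' hNQ) hNQ0
    have h2 : (N.map (Int.castRingHom ℚ)).natDegree ≤ N.natDegree := natDegree_map_le
    omega
  have hprod : ‖∏ σ : K →ₐ[ℚ] ℂ, σ ω‖ ≤ ‖aeval κ' P‖ * B ^ Fintype.card (K →ₐ[ℚ] ℂ) := by
    classical
    rw [norm_prod, ← Finset.mul_prod_erase Finset.univ _ (Finset.mem_univ σ0)]
    have h1 : ∏ σ ∈ Finset.univ.erase σ0, ‖σ ω‖ ≤ B ^ (Finset.univ.erase σ0).card := by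
      rw [← Finset.prod_const]
      exact Finset.prod_le_prod (fun _ _ => norm_nonneg _) (fun σ _ => hσB σ)
    have h2 : (Finset.univ.erase σ0).card + 1 = Fintype.card (K →ₐ[ℚ] ℂ) := by
      rw [Finset.card_erase_add_one (Finset.mem_univ σ0), Finset.card_univ]
    rw [← h2, pow_succ]
    calc ‖σ0 ω‖ * ∏ σ ∈ Finset.univ.erase σ0, ‖σ ω‖ ≤
        (‖aeval κ' P‖ * B) * B ^ (Finset.univ.erase σ0).card :=
          mul_le_mul hσ0ω h1 (Finset.prod_nonneg fun _ _ => norm_nonneg _)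
            (mul_nonneg (norm_nonneg _) (by linarith))
      _ = _ := by ring
  calc (1 : ℝ) ≤ _ := hz1
    _ ≤ _ := hprod
    _ ≤ _ := by
      apply mul_le_mul_of_nonneg_left _ (norm_nonneg _)
      exact pow_le_pow_right₀ hB1 hcard

end Pool.Agent.Lib.MP5e
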