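import Pool.Agent.Lib.MP_5e64e7_nt.Defs

set_option autoImplicit false

noncomputable section

namespace Pool.Agent.Lib.MP5e

open Polynomial Topology

/-- choice of the first constant -/
private theorem num_choice (c : ℝ) : ∃ A1 : ℕ, 1000 ≤ A1 ∧
    100 + 16 * Real.log A1 + c ≤ (A1 : ℝ) / 192 := by
  have h := Real.isLittleO_log_id_atTop.def (by norm_num : (0 : ℝ) < 1 / 6144)
  have h2 : ∀ᶠ x : ℝ in Filter.atTop, 1000 ≤ x ∧ 384 * (100 + c) ≤ x :=
    (Filter.eventually_ge_atTop _).and (Filter.eventually_ge_atTop _)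
  have h3 := tendsto_natCast_atTop_atTop (R := ℝ) |>.eventually (h.and h2)
  obtain ⟨A, hA, hA1, hA2⟩ := h3.exists
  refine ⟨A, by exact_mod_cast hA1, ?_⟩
  have hpos : (0 : ℝ) ≤ A := Nat.cast_nonneg A
  have hlog : 0 ≤ Real.log A := Real.log_natCast_nonneg A
  rw [Real.norm_of_nonneg hlog, id, Real.norm_of_nonneg hpos] at hA
  linarith

private theorem two_pow_le (m : ℕ) : (2 : ℝ) ^ m ≤ Real.exp m := by
  have h : (2 : ℝ) ≤ Real.exp 1 := by
    have := Real.exp_one_gt_d9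
    linarith
  calc (2 : ℝ) ^ m ≤ Real.exp 1 ^ m := pow_le_pow_left₀ (by norm_num) h m
    _ = Real.exp m := by rw [← Real.exp_nat_mul, mul_one]

/-- the exponent of the error term -/
private theorem num_exp {c lc q n l D T T0 K Z s b A2 : ℝ} (hlc0 : 0 ≤ lc) (hlc : lc ≤ c)
    (hq0 : 0 ≤ q) (rn : 1 ≤ n) (rl : 1 ≤ l) (rD : 1 ≤ D) (rDn : 1000 * n ≤ D) (rDl : l ≤ D)
    (hT : 0 ≤ T) (hT0 : 0 ≤ T0) (hK : 0 ≤ K) (hZ : 0 ≤ Z)
    (hTub : T ≤ 40 * D ^ 2) (hT0ub : T0 ≤ 40 * D ^ 2) (hKub : K ≤ 4 * D)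
    (hZub : Z ≤ 40 * D ^ 2) (hqub : q ≤ 8 * D)
    (hs : s = (T0 + 2) * q + 3 * l * D) (hb : b = s + T * q + 2 * l * D)
    (hA2 : 2000 + 200 * c ≤ A2) :
    1 + (T * q + T * lc + K * T * lc) + (-(A2 * D ^ 5) + (D + D) + (s + Z * q)) + n * b ≤ -1 := by
  have hc0 : 0 ≤ c := hlc0.trans hlc
  have hD0 : 0 ≤ D := by linarith
  have p3 : D ^ 3 ≤ D ^ 5 := pow_le_pow_right₀ rD (by norm_num)
  have p4 : D ^ 4 ≤ D ^ 5 := pow_le_pow_right₀ rD (by norm_num)
  have p2 : D ^ 2 ≤ D ^ 5 := pow_le_pow_right₀ rD (by norm_num)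
  have p23 : D ^ 2 ≤ D ^ 3 := pow_le_pow_right₀ rD (by norm_num)
  have p1 : D ≤ D ^ 5 := by
    calc D = D ^ 1 := (pow_one _).symm
      _ ≤ D ^ 5 := pow_le_pow_right₀ rD (by norm_num)
  have p13 : D ≤ D ^ 3 := by
    calc D = D ^ 1 := (pow_one _).symm
      _ ≤ D ^ 3 := pow_le_pow_right₀ rD (by norm_num)
  have p0 : 1 ≤ D ^ 5 := one_le_pow₀ rD
  have a1 : T * q ≤ 320 * D ^ 3 := by
    calc T * q ≤ 40 * D ^ 2 * (8 * D) := mul_le_mul hTub hqub hq0 (by positivity)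
      _ = 320 * D ^ 3 := by ring
  have a2 : Z * q ≤ 320 * D ^ 3 := by
    calc Z * q ≤ 40 * D ^ 2 * (8 * D) := mul_le_mul hZub hqub hq0 (by positivity)
      _ = 320 * D ^ 3 := by ring
  have a3 : T0 * q ≤ 320 * D ^ 3 := by
    calc T0 * q ≤ 40 * D ^ 2 * (8 * D) := mul_le_mul hT0ub hqub hq0 (by positivity)
      _ = 320 * D ^ 3 := by ring
  have a4 : l * D ≤ D ^ 3 := by
    calc l * D ≤ D * D := mul_le_mul_of_nonneg_right rDl hD0
      _ = D ^ 2 := by ring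
      _ ≤ D ^ 3 := p23
  have a5 : s ≤ 339 * D ^ 3 := by
    have : s = T0 * q + 2 * q + 3 * (l * D) := by rw [hs]; ring
    linarith
  have hs0 : 0 ≤ s := by rw [hs]; positivity
  have a6 : b ≤ 661 * D ^ 3 := by
    have : b = s + T * q + 2 * (l * D) := by rw [hb]; ring
    linarith
  have hb0 : 0 ≤ b := by rw [hb]; positivity
  have a7 : n * b ≤ 661 * D ^ 4 := by
    calc n * b ≤ D * (661 * D ^ 3) := mul_le_mul (by linarith) a6 hb0 hD0
      _ = 661 * D ^ 4 := by ring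
  have a8 : T * lc ≤ 40 * (c * D ^ 2) := by
    calc T * lc ≤ 40 * D ^ 2 * c := mul_le_mul hTub hlc hlc0 (by positivity)
      _ = 40 * (c * D ^ 2) := by ring
  have a9 : K * T * lc ≤ 160 * (c * D ^ 3) := by
    calc K * T * lc ≤ 4 * D * (40 * D ^ 2) * c :=
          mul_le_mul (mul_le_mul hKub hTub hT (by positivity)) hlc hlc0 (by positivity)
      _ = 160 * (c * D ^ 3) := by ring
  have b2 : c * D ^ 2 ≤ c * D ^ 5 := mul_le_mul_of_nonneg_left p2 hc0
  have b3 : c * D ^ 3 ≤ c * D ^ 5 := mul_le_mul_of_nonneg_left p3 hc0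
  have b5 : (2000 + 200 * c) * D ^ 5 ≤ A2 * D ^ 5 := mul_le_mul_of_nonneg_right hA2 (by positivity)
  have b6 : (2000 + 200 * c) * D ^ 5 = 2000 * D ^ 5 + 200 * (c * D ^ 5) := by ring
  linarith

set_option maxHeartbeats 4000000 in
/-- the numerical heart -/
private theorem num_core {c : ℝ} (hc : 1 ≤ c) {A1 A2 : ℕ} (hA1 : 1000 ≤ A1)
    (hA : 100 + 16 * Real.log A1 + c ≤ (A1 : ℝ) / 192) (hA2 : 2000 + 200 * c ≤ (A2 : ℝ))
    {n l : ℕ} (hn : 1 ≤ n) (hl : 1 ≤ l)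
    {D M2 T0 K Z Q : ℕ} (hD : D = A1 * (n * l) ^ 3) (hM2 : M2 = (D + 1) ^ 2)
    (hT0 : T0 = M2 / (8 * (n + 1))) (hK : K = T0 / (12 * D)) (hZ : Z = 10 * (D + 1) ^ 2)
    (hQ : Q = 8 * (2 * D + Z)) {Γ S η : ℝ}
    (hΓ : Γ = ((8 * (2 * D + T0)) ^ T0 * 2 ^ (3 * l * D) : ℕ)) (hS : S = (M2 : ℝ) ^ 2 * Γ)
    (hη : η = Real.exp (-((A2 : ℝ) * (D : ℝ) ^ 5)) * (D * 2 ^ D) * (S * (Q : ℝ) ^ Z)) :
    1 ≤ K ∧ ∀ T : ℕ, T0 ≤ T → T ≤ Z →
      (T.factorial * c ^ T * (S * Real.exp (-((K : ℝ) * T)) + η * c ^ (K * T)) + η) *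
        (S * (Q : ℝ) ^ T * 2 ^ (2 * l * D)) ^ n < 1 := by
  have hc0 : 0 < c := by linarith
  have hlc0 : 0 ≤ Real.log c := Real.log_nonneg hc
  have hlc : Real.log c ≤ c := (Real.log_le_sub_one_of_pos hc0).trans (by linarith)
  -- natural number facts
  have hnl : 1 ≤ n * l := Nat.mul_pos hn hl
  have hnl3 : n * l ≤ (n * l) ^ 3 := by
    calc n * l = (n * l) ^ 1 := (pow_one _).symm
      _ ≤ (n * l) ^ 3 := Nat.pow_le_pow_right hnl (by norm_num)
  have hDnl : 1000 * (n * l) ≤ D := by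
    rw [hD]
    exact Nat.mul_le_mul hA1 hnl3
  have hDn : 1000 * n ≤ D := le_trans (Nat.mul_le_mul_left 1000 (Nat.le_mul_of_pos_right n hl)) hDnl
  have hDl : l ≤ D := by
    have : l ≤ n * l := Nat.le_mul_of_pos_left l hn
    omega
  have hD1 : 1 ≤ D := by omega
  -- real versions
  have rn : (1 : ℝ) ≤ n := by exact_mod_cast hn
  have rl : (1 : ℝ) ≤ l := by exact_mod_cast hl
  have rD : (1 : ℝ) ≤ D := by exact_mod_cast hD1
  have rDn : 1000 * (n : ℝ) ≤ D := by exact_mod_cast hDn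
  have rDl : (l : ℝ) ≤ D := by exact_mod_cast hDl
  have rnl : (1 : ℝ) ≤ n * l := by exact_mod_cast hnl
  have rA1 : (1000 : ℝ) ≤ A1 := by exact_mod_cast hA1
  have eD : (D : ℝ) = A1 * ((n : ℝ) * l) ^ 3 := by rw [hD]; push_cast; ring
  have eM : (M2 : ℝ) = ((D : ℝ) + 1) ^ 2 := by rw [hM2]; push_cast; ring
  have eZ : (Z : ℝ) = 10 * ((D : ℝ) + 1) ^ 2 := by rw [hZ]; push_cast; ring
  have eQ : (Q : ℝ) = 8 * (2 * (D : ℝ) + Z) := by rw [hQ]; push_cast; ring
  -- lower bound for `K`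
  have hT0' : (M2 : ℝ) < ((T0 : ℝ) + 1) * (8 * ((n : ℝ) + 1)) := by
    have h1 : M2 < (T0 + 1) * (8 * (n + 1)) := by
      rw [hT0]
      have := Nat.lt_div_mul_add (a := M2) (b := 8 * (n + 1)) (by omega)
      calc M2 < M2 / (8 * (n + 1)) * (8 * (n + 1)) + 8 * (n + 1) := this
        _ = (M2 / (8 * (n + 1)) + 1) * (8 * (n + 1)) := by ring
    exact_mod_cast h1
  have hK' : (T0 : ℝ) < ((K : ℝ) + 1) * (12 * (D : ℝ)) := by
    have h1 : T0 < (K + 1) * (12 * D) := by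
      rw [hK]
      have := Nat.lt_div_mul_add (a := T0) (b := 12 * D) (by omega)
      calc T0 < T0 / (12 * D) * (12 * D) + 12 * D := this
        _ = (T0 / (12 * D) + 1) * (12 * D) := by ring
    exact_mod_cast h1
  have hKlow : (A1 : ℝ) * n ^ 2 * l ^ 3 / 192 ≤ (K : ℝ) + 1 := by
    -- `D ^ 2 / (8 (n + 1)) ≤ T0`
    have hT0l : (0 : ℝ) ≤ T0 := Nat.cast_nonneg T0
    have h1 : (D : ℝ) ^ 2 ≤ T0 * (8 * ((n : ℝ) + 1)) := by
      rw [eM] at hT0'
      nlinarith only [hT0', hT0l, rn, rD, rDn]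
    have h2 : (D : ℝ) ^ 2 ≤ ((K : ℝ) + 1) * (12 * (D : ℝ)) * (8 * ((n : ℝ) + 1)) := by
      have h3 : (0 : ℝ) ≤ 8 * ((n : ℝ) + 1) := by positivity
      have := mul_le_mul_of_nonneg_right hK'.le h3
      linarith
    have hD0 : (0 : ℝ) < D := by linarith
    have h3 : (D : ℝ) ≤ ((K : ℝ) + 1) * (96 * ((n : ℝ) + 1)) := by
      have h4 : (D : ℝ) * D ≤ D * (((K : ℝ) + 1) * (96 * ((n : ℝ) + 1))) := by
        linarith only [h2]
      exact le_of_mul_le_mul_left h4 hD0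
    have h5 : (D : ℝ) ≤ ((K : ℝ) + 1) * (192 * (n : ℝ)) := by
      have h6 : (0 : ℝ) ≤ (K : ℝ) + 1 := by positivity
      have h7 := mul_le_mul_of_nonneg_left (show 96 * ((n : ℝ) + 1) ≤ 192 * n by linarith only [rn]) h6
      linarith only [h3, h7]
    have h7 : (D : ℝ) = (n : ℝ) * (A1 * n ^ 2 * l ^ 3) := by rw [eD]; ring
    rw [h7] at h5
    have hn0 : (0 : ℝ) < n := by linarith
    have h8 : (A1 : ℝ) * n ^ 2 * l ^ 3 ≤ ((K : ℝ) + 1) * 192 := by
      have h9 : (n : ℝ) * (A1 * n ^ 2 * l ^ 3) ≤ n * (((K : ℝ) + 1) * 192) := by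
        linarith
      exact le_of_mul_le_mul_left h9 hn0
    linarith
  -- the logarithm of `Q`
  obtain ⟨q, hq⟩ : ∃ q, q = Real.log (Q : ℝ) := ⟨_, rfl⟩
  have hDD : (D : ℝ) ≤ (D : ℝ) ^ 2 := by nlinarith only [rD]
  have hD2 : ((D : ℝ) + 1) ^ 2 ≤ 4 * (D : ℝ) ^ 2 := by nlinarith only [rD]
  have hQpos : (1 : ℝ) ≤ Q := by
    rw [eQ, eZ]
    have := sq_nonneg ((D : ℝ) + 1)
    linarith only [this, rD]
  have hQle : (Q : ℝ) ≤ 336 * (D : ℝ) ^ 2 := by
    rw [eQ, eZ]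
    linarith only [hD2, hDD]
  have hq0 : 0 ≤ q := by rw [hq]; exact Real.log_nonneg hQpos
  have hexpq : Real.exp q = Q := by rw [hq, Real.exp_log (by linarith)]
  have hlogD0 : 0 ≤ Real.log D := Real.log_nonneg rD
  have hq1 : q ≤ 6 + 2 * Real.log D := by
    have h1 : Real.log (Q : ℝ) ≤ Real.log (336 * (D : ℝ) ^ 2) :=
      Real.log_le_log (by linarith) hQle
    rw [Real.log_mul (by norm_num) (by positivity), Real.log_pow] at h1
    have h2 : Real.log 336 ≤ 6 := by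
      rw [Real.log_le_iff_le_exp (by norm_num)]
      have h3 : (2.7 : ℝ) ≤ Real.exp 1 := by
        have := Real.exp_one_gt_d9
        linarith
      have h4 : (2.7 : ℝ) ^ 6 ≤ Real.exp 1 ^ 6 := pow_le_pow_left₀ (by norm_num) h3 6
      rw [← Real.exp_nat_mul] at h4
      norm_num at h4
      linarith
    rw [hq]
    push_cast at h1
    linarith
  have hlogD : Real.log D ≤ Real.log A1 + 3 * (n * l) := by
    rw [eD, Real.log_mul (by positivity) (by positivity), Real.log_pow]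
    have h1 : Real.log ((n : ℝ) * l) ≤ n * l :=
      (Real.log_le_sub_one_of_pos (by positivity)).trans (by linarith)
    push_cast
    linarith
  have hlogA0 : 0 ≤ Real.log A1 := Real.log_nonneg (by linarith)
  have hKbig : (4 * (n : ℝ) + 4) * q + Real.log c + ((n : ℝ) + 1) * l + 1 ≤ K := by
    have hx1 : (n : ℝ) ≤ (n : ℝ) ^ 2 * l := by
      have := mul_le_mul_of_nonneg_left rnl (by positivity : (0 : ℝ) ≤ n)
      linarith only [this]
    have hx2 : (1 : ℝ) ≤ (n : ℝ) ^ 2 * l := rn.trans hx1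
    have hx3 : (n : ℝ) * l ≤ (n : ℝ) ^ 2 * l := by
      have := mul_le_mul_of_nonneg_right rn (by positivity : (0 : ℝ) ≤ (n : ℝ) * l)
      linarith only [this]
    have hx4 : (n : ℝ) ^ 2 * l ≤ (n : ℝ) ^ 2 * l ^ 3 := by
      have : (l : ℝ) ≤ (l : ℝ) ^ 3 := by
        calc (l : ℝ) = (l : ℝ) ^ 1 := (pow_one _).symm
          _ ≤ (l : ℝ) ^ 3 := pow_le_pow_right₀ rl (by norm_num)
      exact mul_le_mul_of_nonneg_left this (by positivity)
    have h1 : (4 * (n : ℝ) + 4) * q ≤ 8 * n * (6 + 2 * (Real.log A1 + 3 * (n * l))) := by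
      have h2 : q ≤ 6 + 2 * (Real.log A1 + 3 * (n * l)) := by linarith
      have h3 : (4 * (n : ℝ) + 4) ≤ 8 * n := by linarith
      exact mul_le_mul h3 h2 hq0 (by positivity)
    have h2 : 8 * (n : ℝ) * (6 + 2 * (Real.log A1 + 3 * (n * l))) ≤
        (n : ℝ) ^ 2 * l * (96 + 16 * Real.log A1) := by
      have e1 : 8 * (n : ℝ) * (6 + 2 * (Real.log A1 + 3 * (n * l))) =
          (48 + 16 * Real.log A1) * n + 48 * ((n : ℝ) ^ 2 * l) := by ring
      rw [e1]
      have := mul_le_mul_of_nonneg_left hx1 (by positivity : (0 : ℝ) ≤ 48 + 16 * Real.log A1)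
      linarith
    have h3 : Real.log c ≤ (n : ℝ) ^ 2 * l * c := by
      calc Real.log c ≤ 1 * c := by linarith
        _ ≤ (n : ℝ) ^ 2 * l * c := mul_le_mul_of_nonneg_right hx2 hc0.le
    have h4 : ((n : ℝ) + 1) * l ≤ 2 * ((n : ℝ) ^ 2 * l) := by
      have := mul_le_mul_of_nonneg_right rn (by positivity : (0 : ℝ) ≤ (l : ℝ))
      linarith only [this, hx3]
    have h5 : (n : ℝ) ^ 2 * l * (100 + 16 * Real.log A1 + c) ≤ (n : ℝ) ^ 2 * l ^ 3 * (A1 / 192) :=
      mul_le_mul hx4 hA (by positivity) (by positivity)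
    have h6 : (n : ℝ) ^ 2 * l ^ 3 * (A1 / 192) = (A1 : ℝ) * n ^ 2 * l ^ 3 / 192 := by ring
    rw [h6] at h5
    have h7 : (n : ℝ) ^ 2 * l * (100 + 16 * Real.log A1 + c) =
        (n : ℝ) ^ 2 * l * (96 + 16 * Real.log A1) + (n : ℝ) ^ 2 * l * c +
          4 * ((n : ℝ) ^ 2 * l) := by ring
    linarith
  have hK1r : (1 : ℝ) ≤ K := by
    have h1 : 0 ≤ (4 * (n : ℝ) + 4) * q := by positivity
    have h2 : 0 ≤ ((n : ℝ) + 1) * l := by positivity
    linarith
  have hK1 : 1 ≤ K := by exact_mod_cast hK1r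
  refine ⟨hK1, fun T hTT hTZ => ?_⟩
  -- sizes
  have hT012 : 12 * D ≤ T0 := by
    have h1 : K * (12 * D) ≤ T0 := by rw [hK]; exact Nat.div_mul_le_self _ _
    calc 12 * D = 1 * (12 * D) := (one_mul _).symm
      _ ≤ K * (12 * D) := Nat.mul_le_mul_right _ hK1
      _ ≤ T0 := h1
  have rT12 : 12 * (D : ℝ) ≤ T := by
    have : 12 * D ≤ T := hT012.trans hTT
    exact_mod_cast this
  have rTT : (T0 : ℝ) ≤ T := by exact_mod_cast hTT
  have rTZ : (T : ℝ) ≤ Z := by exact_mod_cast hTZ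
  have hT1 : (1 : ℝ) ≤ T := by linarith
  have hT0Q : 8 * (2 * D + T0) ≤ Q := by
    rw [hQ]
    have := hTT.trans hTZ
    omega
  have hTQ : T ≤ Q := by
    rw [hQ]; omega
  have hM2Q : M2 ≤ Q := by
    rw [hQ, hZ, hM2]; omega
  have hM2pos : (1 : ℝ) ≤ M2 := by
    rw [eM]; nlinarith only [rD]
  -- `S`
  have hΓ0 : 1 ≤ Γ := by
    rw [hΓ]
    have h1 : 1 ≤ (8 * (2 * D + T0)) ^ T0 * 2 ^ (3 * l * D) :=
      Nat.mul_pos (Nat.pow_pos (by omega)) (by positivity)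
    exact_mod_cast h1
  have hS0 : 0 < S := by rw [hS]; positivity
  obtain ⟨s, hs⟩ : ∃ s : ℝ, s = ((T0 : ℝ) + 2) * q + 3 * l * D := ⟨_, rfl⟩
  have hSle : S ≤ Real.exp s := by
    have h1 : (M2 : ℝ) ^ 2 ≤ Real.exp (2 * q) := by
      have : Real.exp (2 * q) = (Q : ℝ) ^ 2 := by
        rw [← hexpq, ← Real.exp_nat_mul]; norm_num
      rw [this]
      exact pow_le_pow_left₀ (Nat.cast_nonneg _) (by exact_mod_cast hM2Q) 2
    have h2 : Γ ≤ Real.exp (T0 * q) * Real.exp (3 * l * D) := by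
      rw [hΓ]
      push_cast
      refine mul_le_mul ?_ ?_ (by positivity) (by positivity)
      · rw [Real.exp_nat_mul, hexpq]
        refine pow_le_pow_left₀ (by positivity) ?_ T0
        exact_mod_cast hT0Q
      · have := two_pow_le (3 * l * D)
        push_cast at this
        exact this
    calc S = (M2 : ℝ) ^ 2 * Γ := hS
      _ ≤ Real.exp (2 * q) * (Real.exp (T0 * q) * Real.exp (3 * l * D)) :=
          mul_le_mul h1 h2 (by linarith) (by positivity)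
      _ = Real.exp s := by
          rw [← Real.exp_add, ← Real.exp_add, hs]
          congr 1
          ring
  -- `T!`
  have hfac : (T.factorial : ℝ) ≤ Real.exp (T * q) := by
    rw [Real.exp_nat_mul, hexpq]
    calc (T.factorial : ℝ) ≤ (T : ℝ) ^ T := by exact_mod_cast Nat.factorial_le_pow T
      _ ≤ (Q : ℝ) ^ T := pow_le_pow_left₀ (Nat.cast_nonneg _) (by exact_mod_cast hTQ) T
  have hcT : c ^ T = Real.exp (T * Real.log c) := by
    rw [Real.exp_nat_mul, Real.exp_log hc0]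
  have hcKT : c ^ (K * T) = Real.exp (((K : ℝ) * T) * Real.log c) := by
    have : ((K : ℝ) * T) = ((K * T : ℕ) : ℝ) := by push_cast; ring
    rw [this, Real.exp_nat_mul, Real.exp_log hc0]
  obtain ⟨B, hB⟩ : ∃ B : ℝ, B = S * (Q : ℝ) ^ T * 2 ^ (2 * l * D) := ⟨_, rfl⟩
  have hB0 : 0 < B := by rw [hB]; have : (0 : ℝ) < Q := by linarith
                         positivity
  obtain ⟨b, hb⟩ : ∃ b : ℝ, b = s + T * q + 2 * l * D := ⟨_, rfl⟩
  have hBle : B ≤ Real.exp b := by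
    have h1 : (2 : ℝ) ^ (2 * l * D) ≤ Real.exp (2 * l * D) := by
      have := two_pow_le (2 * l * D)
      push_cast at this
      exact this
    have h2 : (Q : ℝ) ^ T = Real.exp (T * q) := by rw [Real.exp_nat_mul, hexpq]
    calc B = S * (Q : ℝ) ^ T * 2 ^ (2 * l * D) := hB
      _ ≤ Real.exp s * Real.exp (T * q) * Real.exp (2 * l * D) := by
          rw [h2]
          refine mul_le_mul (mul_le_mul_of_nonneg_right hSle (Real.exp_pos _).le) h1
            (by positivity) (by positivity)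
      _ = Real.exp b := by rw [← Real.exp_add, ← Real.exp_add, hb]
  have hBn : B ^ n ≤ Real.exp (n * b) := by
    rw [Real.exp_nat_mul]
    exact pow_le_pow_left₀ hB0.le hBle n
  rw [← hB]
  have hexp1 : Real.exp (-1) < 1 / 2 := by
    rw [Real.exp_neg, inv_eq_one_div]
    have := Real.exp_one_gt_d9
    exact one_div_lt_one_div_of_lt (by norm_num) (by linarith)
  -- main term
  have hmain : (T.factorial : ℝ) * c ^ T * (S * Real.exp (-((K : ℝ) * T))) * B ^ n ≤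
      Real.exp (-1) := by
    have h1 : (T.factorial : ℝ) * c ^ T * (S * Real.exp (-((K : ℝ) * T))) * B ^ n ≤
        Real.exp (T * q) * Real.exp (T * Real.log c) *
          (Real.exp s * Real.exp (-((K : ℝ) * T))) * Real.exp (n * b) := by
      rw [hcT]
      have e1 : (T.factorial : ℝ) * Real.exp (T * Real.log c) ≤
          Real.exp (T * q) * Real.exp (T * Real.log c) :=
        mul_le_mul_of_nonneg_right hfac (Real.exp_pos _).le
      have e2 : S * Real.exp (-((K : ℝ) * T)) ≤ Real.exp s * Real.exp (-((K : ℝ) * T)) :=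
        mul_le_mul_of_nonneg_right hSle (Real.exp_pos _).le
      exact mul_le_mul (mul_le_mul e1 e2 (by positivity) (by positivity)) hBn (by positivity)
        (by positivity)
    refine h1.trans ?_
    rw [← Real.exp_add, ← Real.exp_add, ← Real.exp_add, ← Real.exp_add]
    apply Real.exp_le_exp.mpr
    -- the exponent
    have hs' : s ≤ 3 * T * q + 3 * l * D := by
      rw [hs]
      have : ((T0 : ℝ) + 2) * q ≤ (3 * T) * q :=
        mul_le_mul_of_nonneg_right (by linarith) hq0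
      linarith
    have hlD : 0 ≤ (l : ℝ) * D := by positivity
    have hlDT : 12 * ((l : ℝ) * D) ≤ l * T := by
      have := mul_le_mul_of_nonneg_left rT12 (by positivity : (0 : ℝ) ≤ (l : ℝ))
      linarith
    have e1 : (T : ℝ) * q + T * Real.log c + (s + -((K : ℝ) * T)) + n * b =
        T * q + T * Real.log c - K * T + ((n : ℝ) + 1) * s + n * (T * q) + 2 * n * (l * D) := by
      rw [hb]; ring
    rw [e1]
    have e2 : ((n : ℝ) + 1) * s ≤ ((n : ℝ) + 1) * (3 * T * q + 3 * l * D) :=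
      mul_le_mul_of_nonneg_left hs' (by positivity)
    have e3 : (T : ℝ) * ((4 * (n : ℝ) + 4) * q + Real.log c + ((n : ℝ) + 1) * l + 1) ≤ T * K :=
      mul_le_mul_of_nonneg_left hKbig (by positivity)
    have e4 : ((n : ℝ) + 1) * (3 * l * D) + 2 * n * (l * D) ≤ ((n : ℝ) + 1) * (l * T) := by
      have h5 : ((n : ℝ) + 1) * (3 * l * D) + 2 * n * (l * D) ≤
          ((n : ℝ) + 1) * (12 * ((l : ℝ) * D)) := by
        have := mul_nonneg (Nat.cast_nonneg n : (0 : ℝ) ≤ n) hlD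
        linarith only [this, hlD]
      exact h5.trans (mul_le_mul_of_nonneg_left hlDT (by positivity))
    linarith only [e2, e3, e4, hT1]
  -- the error terms
  have hη0 : 0 < η := by
    rw [hη]
    have : (0 : ℝ) < Q := by linarith
    positivity
  have hTub : (T : ℝ) ≤ 40 * (D : ℝ) ^ 2 := by rw [eZ] at rTZ; linarith
  have hT0ub : (T0 : ℝ) ≤ 40 * (D : ℝ) ^ 2 := rTT.trans hTub
  have hKub : (K : ℝ) ≤ 4 * D := by
    have h1 : (K : ℝ) * (12 * D) ≤ T0 := by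
      have : K * (12 * D) ≤ T0 := by rw [hK]; exact Nat.div_mul_le_self _ _
      exact_mod_cast this
    have h2 : (K : ℝ) * (12 * D) ≤ 4 * D * (12 * D) := by
      have := sq_nonneg (D : ℝ)
      linarith only [h1, hT0ub, this]
    exact le_of_mul_le_mul_right h2 (by linarith)
  have hlogDle : Real.log D ≤ D := (Real.log_le_sub_one_of_pos (by linarith)).trans (by linarith)
  have hqub : q ≤ 8 * D := by linarith
  have p3 : (D : ℝ) ^ 3 ≤ (D : ℝ) ^ 5 := pow_le_pow_right₀ rD (by norm_num)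
  have p4 : (D : ℝ) ^ 4 ≤ (D : ℝ) ^ 5 := pow_le_pow_right₀ rD (by norm_num)
  have p2 : (D : ℝ) ^ 2 ≤ (D : ℝ) ^ 5 := pow_le_pow_right₀ rD (by norm_num)
  have p1 : (D : ℝ) ≤ (D : ℝ) ^ 5 := by
    calc (D : ℝ) = (D : ℝ) ^ 1 := (pow_one _).symm
      _ ≤ (D : ℝ) ^ 5 := pow_le_pow_right₀ rD (by norm_num)
  have p23 : (D : ℝ) ^ 2 ≤ (D : ℝ) ^ 3 := pow_le_pow_right₀ rD (by norm_num)
  have p0 : (1 : ℝ) ≤ (D : ℝ) ^ 5 := one_le_pow₀ rD
  have hcK1 : (1 : ℝ) ≤ c ^ (K * T) := one_le_pow₀ hc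
  have hcT1 : (1 : ℝ) ≤ c ^ T := one_le_pow₀ hc
  have hf1 : (1 : ℝ) ≤ T.factorial := by exact_mod_cast Nat.one_le_iff_ne_zero.mpr T.factorial_ne_zero
  have hfc1 : (1 : ℝ) ≤ T.factorial * c ^ T := one_le_mul_of_one_le_of_one_le hf1 hcT1
  have hfck1 : (1 : ℝ) ≤ T.factorial * c ^ T * c ^ (K * T) :=
    one_le_mul_of_one_le_of_one_le hfc1 hcK1
  have herr : (T.factorial * c ^ T * (η * c ^ (K * T)) + η) * B ^ n ≤ Real.exp (-1) := by
    have h1 : (T.factorial * c ^ T * (η * c ^ (K * T)) + η) ≤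
        2 * (T.factorial * c ^ T * c ^ (K * T)) * η := by
      have h2 : η ≤ (T.factorial * c ^ T * c ^ (K * T)) * η := by
        calc η = 1 * η := (one_mul _).symm
          _ ≤ (T.factorial * c ^ T * c ^ (K * T)) * η := mul_le_mul_of_nonneg_right hfck1 hη0.le
      have h3 : T.factorial * c ^ T * (η * c ^ (K * T)) = (T.factorial * c ^ T * c ^ (K * T)) * η := by
        ring
      rw [h3]
      linarith
    have h2 : (2 : ℝ) ≤ Real.exp 1 := by
      have := Real.exp_one_gt_d9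
      linarith
    have h3 : η ≤ Real.exp (-((A2 : ℝ) * (D : ℝ) ^ 5)) * (Real.exp D * Real.exp D) *
        (Real.exp s * Real.exp (Z * q)) := by
      rw [hη]
      have e1 : (D : ℝ) ≤ Real.exp D := by
        have := Real.add_one_le_exp (D : ℝ)
        linarith
      have e2 : (Q : ℝ) ^ Z = Real.exp (Z * q) := by rw [Real.exp_nat_mul, hexpq]
      rw [e2]
      refine mul_le_mul (mul_le_mul_of_nonneg_left (mul_le_mul e1 (two_pow_le D) (by positivity)
        (by positivity)) (Real.exp_pos _).le) (mul_le_mul_of_nonneg_right hSle (Real.exp_pos _).le)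
        (by positivity) (by positivity)
    have h4 : 2 * (T.factorial * c ^ T * c ^ (K * T)) * η ≤
        Real.exp 1 * (Real.exp (T * q) * Real.exp (T * Real.log c) *
          Real.exp (((K : ℝ) * T) * Real.log c)) *
          (Real.exp (-((A2 : ℝ) * (D : ℝ) ^ 5)) * (Real.exp D * Real.exp D) *
            (Real.exp s * Real.exp (Z * q))) := by
      rw [hcT, hcKT]
      refine mul_le_mul (mul_le_mul h2 ?_ (by positivity) (by positivity)) h3 hη0.le
        (by positivity)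
      exact mul_le_mul_of_nonneg_right (mul_le_mul_of_nonneg_right hfac (Real.exp_pos _).le)
        (Real.exp_pos _).le
    have h5 : (T.factorial * c ^ T * (η * c ^ (K * T)) + η) * B ^ n ≤
        Real.exp 1 * (Real.exp (T * q) * Real.exp (T * Real.log c) *
          Real.exp (((K : ℝ) * T) * Real.log c)) *
          (Real.exp (-((A2 : ℝ) * (D : ℝ) ^ 5)) * (Real.exp D * Real.exp D) *
            (Real.exp s * Real.exp (Z * q))) * Real.exp (n * b) :=
      mul_le_mul (h1.trans h4) hBn (by positivity) (by positivity)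
    refine h5.trans ?_
    simp only [← Real.exp_add]
    apply Real.exp_le_exp.mpr
    exact num_exp hlc0 hlc hq0 rn rl rD rDn rDl (Nat.cast_nonneg T) (Nat.cast_nonneg T0)
      (Nat.cast_nonneg K) (Nat.cast_nonneg Z) hTub hT0ub hKub (by rw [eZ]; linarith) hqub hs hb hA2
  calc (T.factorial * c ^ T * (S * Real.exp (-((K : ℝ) * T)) + η * c ^ (K * T)) + η) * B ^ n
      = (T.factorial : ℝ) * c ^ T * (S * Real.exp (-((K : ℝ) * T))) * B ^ n +
        (T.factorial * c ^ T * (η * c ^ (K * T)) + η) * B ^ n := by ring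
    _ ≤ Real.exp (-1) + Real.exp (-1) := add_le_add hmain herr
    _ < 1 := by linarith

theorem num (c : ℝ) (hc : 1 ≤ c) : ∃ A1 A2 : ℕ, 1 ≤ A1 ∧ 1 ≤ A2 ∧ ∀ n l : ℕ, 1 ≤ n → 1 ≤ l →
    ∀ D M2 T0 K Z Q : ℕ, D = A1 * (n * l) ^ 3 → M2 = (D + 1) ^ 2 → T0 = M2 / (8 * (n + 1)) →
      K = T0 / (12 * D) → Z = 10 * (D + 1) ^ 2 → Q = 8 * (2 * D + Z) →
    ∀ Γ S η : ℝ, Γ = ((8 * (2 * D + T0)) ^ T0 * 2 ^ (3 * l * D) : ℕ) → S = (M2 : ℝ) ^ 2 * Γ →
      η = Real.exp (-((A2 : ℝ) * (D : ℝ) ^ 5)) * (D * 2 ^ D) * (S * (Q : ℝ) ^ Z) →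
    1 ≤ K ∧ ∀ T : ℕ, T0 ≤ T → T ≤ Z →
      (T.factorial * c ^ T * (S * Real.exp (-((K : ℝ) * T)) + η * c ^ (K * T)) + η) *
        (S * (Q : ℝ) ^ T * 2 ^ (2 * l * D)) ^ n < 1 := by
  obtain ⟨A1, hA1, hA⟩ := num_choice c
  obtain ⟨A2, hA2⟩ := exists_nat_ge (2000 + 200 * c)
  refine ⟨A1, A2 + 1, by omega, by omega, ?_⟩
  intro n l hn hl D M2 T0 K Z Q hD hM2 hT0 hK hZ hQ Γ S η hΓ hS hη
  refine num_core hc hA1 hA ?_ hn hl hD hM2 hT0 hK hZ hQ hΓ hS hη
  push_cast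
  linarith

end Pool.Agent.Lib.MP5e
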