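import Pool.Agent.Lib.MP_5e64e7_nt.Defs

set_option autoImplicit false

noncomputable section

namespace Pool.Agent.Lib.MP5e

open Polynomial Topology

theorem Root_prod_ge (x : ℂ) (δ : ℝ) (hδ : 0 < δ) (s : Multiset ℂ)
    (h : ∀ a ∈ s, δ ≤ ‖x - a‖) : δ ^ Multiset.card s ≤ ‖(s.map (fun a => x - a)).prod‖ := by
  induction s using Multiset.induction_on with
  | empty => simp
  | cons a s ih =>
    have h1 := ih (fun b hb => h b (Multiset.mem_cons_of_mem hb))
    have h2 := h a (Multiset.mem_cons_self a s)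
    rw [Multiset.card_cons, Multiset.map_cons, Multiset.prod_cons, norm_mul, pow_succ, mul_comm]
    exact mul_le_mul h2 h1 (by positivity) (norm_nonneg _)

theorem root_close (N : ℤ[X]) (hN : N ≠ 0) (n : ℕ) (hdeg : N.natDegree ≤ n) (x : ℂ) (δ : ℝ)
    (hδ : 0 < δ) (hδ1 : δ ≤ 1) (h : ‖aeval x N‖ < δ ^ n) :
    ∃ κ' : ℂ, aeval κ' N = 0 ∧ ‖x - κ'‖ < δ := by
  by_contra hcon
  push Not at hcon
  set p : ℂ[X] := N.map (algebraMap ℤ ℂ) with hp
  have hinj : Function.Injective (algebraMap ℤ ℂ) := by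
    simpa using Int.cast_injective (α := ℂ)
  have hp0 : p ≠ 0 := (Polynomial.map_ne_zero_iff hinj).2 hN
  have hev : aeval x N = p.eval x := by rw [hp, eval_map_algebraMap]
  have hsp := (IsAlgClosed.splits p)
  have hlc : (1 : ℝ) ≤ ‖p.leadingCoeff‖ := by
    rw [hp, leadingCoeff_map_of_injective hinj]
    have h1 : N.leadingCoeff ≠ 0 := leadingCoeff_ne_zero.2 hN
    have h2 : (1 : ℤ) ≤ |N.leadingCoeff| := Int.one_le_abs h1
    have h3 : ‖(algebraMap ℤ ℂ) N.leadingCoeff‖ = ((|N.leadingCoeff| : ℤ) : ℝ) := by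
      simp
    rw [h3]
    exact_mod_cast h2
  have hroots : ∀ a ∈ p.roots, δ ≤ ‖x - a‖ := by
    intro a ha
    apply hcon
    have h1 : p.eval a = 0 := (mem_roots hp0).1 ha
    rw [← eval_map_algebraMap]
    exact h1
  have hprod := Root_prod_ge x δ hδ p.roots hroots
  have hcard : Multiset.card p.roots ≤ n :=
    (card_roots' p).trans ((natDegree_map_le).trans hdeg)
  have h4 : δ ^ n ≤ δ ^ Multiset.card p.roots :=
    pow_le_pow_of_le_one hδ.le hδ1 hcard
  rw [hev, hsp.eval_eq_prod_roots, norm_mul] at h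
  have h5 : 1 * δ ^ n ≤ ‖p.leadingCoeff‖ * ‖(p.roots.map (fun a => x - a)).prod‖ :=
    mul_le_mul hlc (h4.trans hprod) (by positivity) (norm_nonneg _)
  linarith

/-- reversing the coefficients -/
theorem rev_bound (N : ℤ[X]) (hN : N ≠ 0) (x : ℝ) (hx : 1 ≤ x) :
    N.reverse ≠ 0 ∧ N.reverse.natDegree ≤ N.natDegree ∧
      (∀ (H : ℤ), (∀ k, |N.coeff k| ≤ H) → ∀ k, |N.reverse.coeff k| ≤ H) ∧
      ‖aeval ((1 / x : ℝ) : ℂ) N.reverse‖ ≤ ‖aeval (x : ℂ) N‖ := by
  refine ⟨fun h => hN (reverse_eq_zero.1 h), reverse_natDegree_le N, ?_, ?_⟩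
  · intro H hH k
    rw [coeff_reverse]
    exact hH _
  · have hx0 : (x : ℂ) ≠ 0 := by
      simp only [ne_eq, Complex.ofReal_eq_zero]
      linarith
    haveI : Invertible (x : ℂ) := invertibleOfNonzero hx0
    have h1 := eval₂_reverse_mul_pow (algebraMap ℤ ℂ) (x : ℂ) N
    have h2 : (⅟(x : ℂ)) = ((1 / x : ℝ) : ℂ) := by
      rw [invOf_eq_inv]; simp
    rw [h2] at h1
    rw [aeval_def, aeval_def, ← h1, norm_mul]
    have h3 : (1 : ℝ) ≤ ‖(x : ℂ) ^ N.natDegree‖ := by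
      rw [norm_pow]
      apply one_le_pow₀
      rw [Complex.norm_real, Real.norm_eq_abs]
      exact hx.trans (le_abs_self x)
    exact le_mul_of_one_le_right (norm_nonneg _) h3

end Pool.Agent.Lib.MP5e
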