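import Pool.Agent.Lib.MP_5e64e7_nt.Zlin

set_option autoImplicit false

noncomputable section

namespace Pool.Agent.Lib.MP5e

open Polynomial Topology

private theorem dS_zero_of {κ : ℂ} {e : ℕ} {q : ℕ → PowerSeries ℂ}
    (hq : ∀ m, e < m → q m = 0) : ∀ m, e < m → dS κ q m = 0 := by
  intro m hm
  unfold dS
  rw [hq m hm, hq (m + 1) (by omega)]
  simp

private theorem dS_comb {κ : ℂ} {e : ℕ} {q : ℕ → PowerSeries ℂ}
    (hq : ∀ m, e < m → q m = 0) :
    PowerSeries.derivative ℂ (∑ m ∈ Finset.range (e + 1), q m * Phi κ 0 0 1 ^ m) =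
      ∑ m ∈ Finset.range (e + 1), dS κ q m * Phi κ 0 0 1 ^ m := by
  rw [map_sum]
  have h1 : ∀ m ∈ Finset.range (e + 1), PowerSeries.derivative ℂ (q m * Phi κ 0 0 1 ^ m) =
      PowerSeries.derivative ℂ (q m) * Phi κ 0 0 1 ^ m +
        (m : PowerSeries ℂ) * q m * Phi κ 0 0 1 ^ (m - 1) *
          (PowerSeries.C κ - Phi κ 1 0 0) := by
    intro m _
    rw [Derivation.leibniz, Derivation.leibniz_pow, dG]
    simp only [smul_eq_mul, nsmul_eq_mul]
    ring
  rw [Finset.sum_congr rfl h1, Finset.sum_add_distrib]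
  have h2 : ∑ m ∈ Finset.range (e + 1), (m : PowerSeries ℂ) * q m * Phi κ 0 0 1 ^ (m - 1) *
          (PowerSeries.C κ - Phi κ 1 0 0) =
      ∑ m ∈ Finset.range (e + 1), ((m + 1 : ℕ) : PowerSeries ℂ) *
        (PowerSeries.C κ - Phi κ 1 0 0) * q (m + 1) * Phi κ 0 0 1 ^ m := by
    rw [Finset.sum_range_succ' (fun m => (m : PowerSeries ℂ) * q m * Phi κ 0 0 1 ^ (m - 1) *
          (PowerSeries.C κ - Phi κ 1 0 0)),
      Finset.sum_range_succ (fun m => ((m + 1 : ℕ) : PowerSeries ℂ) *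
        (PowerSeries.C κ - Phi κ 1 0 0) * q (m + 1) * Phi κ 0 0 1 ^ m), hq (e + 1) (by omega)]
    simp only [Nat.cast_zero, zero_mul, add_zero, mul_zero, Nat.add_sub_cancel]
    exact Finset.sum_congr rfl fun m _ => by ring
  rw [h2, ← Finset.sum_add_distrib]
  refine Finset.sum_congr rfl fun m _ => ?_
  unfold dS
  ring

private theorem dvd_deriv {n : ℕ} {f : PowerSeries ℂ}
    (h : (PowerSeries.X : PowerSeries ℂ) ^ (n + 1) ∣ f) :
    (PowerSeries.X : PowerSeries ℂ) ^ n ∣ PowerSeries.derivative ℂ f := by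
  rw [PowerSeries.X_pow_dvd_iff] at h ⊢
  intro m hm
  rw [PowerSeries.coeff_derivative, h (m + 1) (by omega), zero_mul]

private theorem Wt_dS {κ : ℂ} {w : ℕ} {q : ℕ → PowerSeries ℂ} (hq : ∀ m, Wt κ w (q m)) (m : ℕ) :
    Wt κ (w + 2) (dS κ q m) := by
  unfold dS
  have h1 : Wt κ (w + 2) (PowerSeries.derivative ℂ (q m)) := ((hq m).deriv).mono (by omega)
  have h2 : Wt κ 2 (PowerSeries.C κ - Phi κ 1 0 0) := by
    rw [sub_eq_add_neg]
    exact ((Wt_C κ κ).mono (by omega)).add (Wt_X κ).neg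
  have h3 : Wt κ 0 ((m + 1 : ℕ) : PowerSeries ℂ) := by
    have : ((m + 1 : ℕ) : PowerSeries ℂ) = PowerSeries.C ((m + 1 : ℕ) : ℂ) := by simp
    rw [this]
    exact Wt_C κ _
  exact h1.add (((h3.mul h2).mul (hq (m + 1))).mono (by omega))

theorem zero_estimate (κ : ℂ) (D : ℕ) (a : ℕ → ℕ → ℂ) (hne : ∃ i ≤ D, ∃ j ≤ D, a i j ≠ 0) :
    ∃ t ≤ 10 * (D + 1) ^ 2, (∑ i ∈ Finset.range (D + 1), ∑ j ∈ Finset.range (D + 1),
      a i j * aeval κ (cc t i 0 j)) ≠ 0 := by
  classical
  by_contra hcon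
  push Not at hcon
  set c : ℕ → PowerSeries ℂ := fun m => if m ≤ D then
    ∑ i ∈ Finset.range (D + 1), PowerSeries.C (a i m) * Phi κ 1 0 0 ^ i else 0 with hc
  -- as polynomials in `X̂`
  have hcA : ∀ m ≤ D, c m = aeval (Phi κ 1 0 0)
      (∑ i ∈ Finset.range (D + 1), Polynomial.C (a i m) * Polynomial.X ^ i) := by
    intro m hm
    simp only [hc, if_pos hm, map_sum, map_mul, map_pow, aeval_X, aeval_C]
    refine Finset.sum_congr rfl fun i _ => ?_
    congr 1
  have hdeg : ∀ m, (∑ i ∈ Finset.range (D + 1),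
      Polynomial.C (a i m) * Polynomial.X ^ i : ℂ[X]).natDegree ≤ D := by
    intro m
    refine Polynomial.natDegree_sum_le_of_forall_le _ _ fun i hi => ?_
    refine (Polynomial.natDegree_C_mul_X_pow_le _ _).trans ?_
    have := Finset.mem_range.mp hi
    omega
  have hcW : ∀ m, Wt κ (2 * D) (c m) := by
    intro m
    by_cases hm : m ≤ D
    · refine ⟨_, 0, Nat.mul_le_mul_left 2 (hdeg m), Or.inl rfl, ?_⟩
      rw [hcA m hm]
      simp
    · refine ⟨0, 0, by simp, Or.inl rfl, ?_⟩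
      simp [hc, hm]
  -- the top coefficient
  obtain ⟨i0, hi0, j0, hj0, hij⟩ := hne
  have hcj : c j0 ≠ 0 := by
    intro h0
    rw [hcA j0 hj0] at h0
    have h1 := aeval_X_injective κ _ h0
    have h2 := congrArg (fun p => Polynomial.coeff p i0) h1
    simp only [Polynomial.finsetSum_coeff, Polynomial.coeff_C_mul, Polynomial.coeff_X_pow,
      mul_ite, mul_one, mul_zero, Polynomial.coeff_zero] at h2
    rw [Finset.sum_ite_eq, if_pos (Finset.mem_range.mpr (by omega))] at h2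
    exact hij h2
  obtain ⟨e, heD, he, hz⟩ : ∃ e ≤ D, c e ≠ 0 ∧ ∀ m, e < m → c m = 0 := by
    refine ⟨Nat.findGreatest (fun m => c m ≠ 0) D, Nat.findGreatest_le _, ?_, ?_⟩
    · exact Nat.findGreatest_spec (P := fun m => c m ≠ 0) hj0 hcj
    · intro m hm
      by_cases hmD : m ≤ D
      · have := Nat.findGreatest_is_greatest (P := fun m => c m ≠ 0) hm hmD
        simpa using this
      · simp [hc, hmD]
  set Z : ℕ := 10 * (D + 1) ^ 2 with hZ
  -- the functions `P_k`
  set P : ℕ → PowerSeries ℂ := fun k =>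
    ∑ m ∈ Finset.range (e + 1), ((dS κ)^[k] c) m * Phi κ 0 0 1 ^ m with hP
  have hzk : ∀ k, ∀ m, e < m → ((dS κ)^[k] c) m = 0 := by
    intro k
    induction k with
    | zero => exact hz
    | succ k ih =>
      rw [Function.iterate_succ_apply']
      exact dS_zero_of ih
  have hPs : ∀ k, PowerSeries.derivative ℂ (P k) = P (k + 1) := by
    intro k
    simp only [hP]
    rw [dS_comb (hzk k), Function.iterate_succ_apply']
  have hP0 : (PowerSeries.X : PowerSeries ℂ) ^ (Z + 1) ∣ P 0 := by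
    rw [PowerSeries.X_pow_dvd_iff]
    intro t ht
    have h1 : P 0 = ∑ i ∈ Finset.range (D + 1), ∑ j ∈ Finset.range (D + 1),
        PowerSeries.C (a i j) * Phi κ 1 0 0 ^ i * Phi κ 0 0 1 ^ j := by
      rw [Finset.sum_comm]
      simp only [hP, Function.iterate_zero, id_eq]
      rw [Finset.sum_subset (Finset.range_mono (show e + 1 ≤ D + 1 by omega))]
      · refine Finset.sum_congr rfl fun j hj => ?_
        have hjD : j ≤ D := by have := Finset.mem_range.mp hj; omega
        simp only [hc, if_pos hjD]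
        rw [Finset.sum_mul]
      · intro j _ hj
        rw [hz j (by have : ¬ j < e + 1 := fun h => hj (Finset.mem_range.mpr h); omega), zero_mul]
    rw [h1, coeff_comb, hcon t (by omega), zero_div]
  have hPk : ∀ k ≤ Z + 1, (PowerSeries.X : PowerSeries ℂ) ^ (Z + 1 - k) ∣ P k := by
    intro k
    induction k with
    | zero => intro _; simpa using hP0
    | succ k ih =>
      intro hk
      rw [← hPs k]
      apply dvd_deriv
      have h := ih (by omega)
      rwa [show Z + 1 - (k + 1) + 1 = Z + 1 - k by omega]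
  set M : Matrix (Fin (e + 1)) (Fin (e + 1)) (PowerSeries ℂ) :=
    Matrix.of fun (k m : Fin (e + 1)) => ((dS κ)^[(k : ℕ)] c) (m : ℕ) with hM
  have hdet : M.det ≠ 0 := zlin κ e c (fun m => ⟨_, hcW m⟩) he hz
  have hWk : ∀ k m, Wt κ (2 * D + 2 * k) (((dS κ)^[k] c) m) := by
    intro k
    induction k with
    | zero => intro m; simpa using hcW m
    | succ k ih =>
      intro m
      rw [Function.iterate_succ_apply']
      exact Wt_dS ih m
  have hWdet := Wt.det M (fun k => 2 * D + 2 * (k : ℕ)) (fun k m => hWk k m)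
  have hord := hWdet.order_le hdet
  have hvec : M.det = ∑ k, M.adjugate 0 k * P k := by
    have h1 : M.adjugate.mulVec (M.mulVec (fun m : Fin (e + 1) => Phi κ 0 0 1 ^ (m : ℕ))) =
        M.det • (fun m : Fin (e + 1) => Phi κ 0 0 1 ^ (m : ℕ)) := by
      rw [Matrix.mulVec_mulVec, Matrix.adjugate_mul, Matrix.smul_mulVec, Matrix.one_mulVec]
    have h2 := congrFun h1 0
    simp only [Pi.smul_apply, smul_eq_mul, Fin.val_zero, pow_zero, mul_one] at h2
    rw [← h2]
    simp only [Matrix.mulVec, dotProduct]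
    refine Finset.sum_congr rfl fun k _ => ?_
    congr 1
    simp only [hP, hM, Matrix.of_apply]
    rw [Fin.sum_univ_eq_sum_range (fun m => ((dS κ)^[(k : ℕ)] c) m * Phi κ 0 0 1 ^ m) (e + 1)]
  have hdvd : (PowerSeries.X : PowerSeries ℂ) ^ (Z + 1 - e) ∣ M.det := by
    rw [hvec]
    refine Finset.dvd_sum fun k _ => ?_
    refine Dvd.dvd.mul_left ?_ _
    have hk : (k : ℕ) ≤ e := by omega
    have hZe : D + 1 ≤ Z := by rw [hZ]; nlinarith
    exact (pow_dvd_pow _ (by omega)).trans (hPk k (by omega))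
  have hle : ((Z + 1 - e : ℕ) : ℕ∞) ≤ M.det.order := by
    rw [PowerSeries.X_pow_dvd_iff] at hdvd
    exact PowerSeries.nat_le_order _ _ hdvd
  have hfin := hle.trans hord
  have hfin' : Z + 1 - e ≤ 2 * ∑ k : Fin (e + 1), (2 * D + 2 * (k : ℕ)) := by
    exact_mod_cast hfin
  have hsum : ∑ k : Fin (e + 1), (2 * D + 2 * (k : ℕ)) ≤ (D + 1) * (2 * D + 2 * D) := by
    calc ∑ k : Fin (e + 1), (2 * D + 2 * (k : ℕ)) ≤ ∑ _k : Fin (e + 1), (2 * D + 2 * D) :=
          Finset.sum_le_sum fun k _ => by have := k.2; omega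
      _ = (e + 1) * (2 * D + 2 * D) := by simp
      _ ≤ (D + 1) * (2 * D + 2 * D) := Nat.mul_le_mul_right _ (by omega)
  have hlast : Z + 1 ≤ e + 2 * ((D + 1) * (2 * D + 2 * D)) := by omega
  rw [hZ] at hlast
  nlinarith

end Pool.Agent.Lib.MP5e
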