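import Pool.Agent.Lib.MP_5e64e7_nt.Ext
import Pool.Agent.Lib.MP_5e64e7_nt.Box
import Pool.Agent.Lib.MP_5e64e7_nt.Liou
import Pool.Agent.Lib.MP_5e64e7_nt.Zero
import Pool.Agent.Lib.MP_5e64e7_nt.Root
import Pool.Agent.Lib.MP_5e64e7_nt.DerA
import Pool.Agent.Lib.MP_5e64e7_nt.DerB
import Pool.Agent.Lib.MP_5e64e7_nt.Num

set_option autoImplicit false

noncomputable section

namespace Pool.Agent.Lib.MP5e

open Polynomial Topology

namespace Meas

/-- the pigeonhole lemma with double indices -/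
theorem box2 (D T Bd m : ℕ) (V : ℝ) (hV : 0 ≤ V) (v : ℕ → ℕ → ℕ → ℂ)
    (hv : ∀ i ≤ D, ∀ j ≤ D, ∀ t < T, ‖v t i j‖ ≤ V) (hm : 1 ≤ m)
    (h : m ^ (2 * T) < (Bd + 1) ^ ((D + 1) ^ 2)) :
    ∃ b : ℕ → ℕ → ℤ, (∃ i ≤ D, ∃ j ≤ D, b i j ≠ 0) ∧ (∀ i j, |b i j| ≤ (Bd : ℤ)) ∧
      ∀ t < T, ‖∑ i ∈ Finset.range (D + 1), ∑ j ∈ Finset.range (D + 1), (b i j : ℂ) * v t i j‖ ≤
        4 * ((D + 1) ^ 2 : ℕ) * Bd * V / m := by
  classical
  rw [pow_two] at h
  let E := (finProdFinEquiv : Fin (D + 1) × Fin (D + 1) ≃ Fin ((D + 1) * (D + 1)))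
  obtain ⟨a, ha0, haB, hat⟩ := box ((D + 1) * (D + 1)) T Bd m V hV
    (fun q t => v t ((E.symm q).1 : ℕ) ((E.symm q).2 : ℕ))
    (fun q t => hv _ (Nat.lt_succ_iff.mp (E.symm q).1.2) _ (Nat.lt_succ_iff.mp (E.symm q).2.2) _
      t.2) hm h
  refine ⟨fun i j => if h : i < D + 1 ∧ j < D + 1 then a (E (⟨i, h.1⟩, ⟨j, h.2⟩)) else 0, ?_, ?_,
    ?_⟩
  · obtain ⟨q, hq⟩ := Function.ne_iff.mp ha0
    refine ⟨(E.symm q).1, Nat.lt_succ_iff.mp (E.symm q).1.2, (E.symm q).2,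
      Nat.lt_succ_iff.mp (E.symm q).2.2, ?_⟩
    have h1 : ((E.symm q).1 : ℕ) < D + 1 ∧ ((E.symm q).2 : ℕ) < D + 1 :=
      ⟨(E.symm q).1.2, (E.symm q).2.2⟩
    simp only [h1, and_self, dite_true, Fin.eta, Prod.mk.eta, Equiv.apply_symm_apply]
    simpa using hq
  · intro i j
    dsimp only
    split_ifs
    · exact haB _
    · simp
  · intro t ht
    have h1 := hat ⟨t, ht⟩
    have h2 : ∑ q, (a q : ℂ) * v t ((E.symm q).1 : ℕ) ((E.symm q).2 : ℕ) =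
        ∑ i ∈ Finset.range (D + 1), ∑ j ∈ Finset.range (D + 1),
          (((if h : i < D + 1 ∧ j < D + 1 then a (E (⟨i, h.1⟩, ⟨j, h.2⟩)) else 0 : ℤ)) : ℂ) *
            v t i j := by
      rw [← Equiv.sum_comp E, Fintype.sum_prod_type, Finset.sum_range]
      refine Finset.sum_congr rfl fun i _ => ?_
      rw [Finset.sum_range]
      refine Finset.sum_congr rfl fun j _ => ?_
      have h1 : (i : ℕ) < D + 1 ∧ (j : ℕ) < D + 1 := ⟨i.2, j.2⟩
      rw [dif_pos h1]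
      simp
    simp only at h1
    rw [h2] at h1
    have h3 : (((D + 1) ^ 2 : ℕ) : ℝ) = (((D + 1) * (D + 1) : ℕ) : ℝ) := by rw [pow_two]
    rw [h3]
    exact h1

/-- the integer polynomial `∑ b_ij cc t i 0 j` -/
def PP (D : ℕ) (b : ℕ → ℕ → ℤ) (t : ℕ) : ℤ[X] :=
  ∑ i ∈ Finset.range (D + 1), ∑ j ∈ Finset.range (D + 1), C (b i j) * cc t i 0 j

theorem aeval_PP (D : ℕ) (b : ℕ → ℕ → ℤ) (t : ℕ) (x : ℂ) :
    aeval x (PP D b t) = ∑ i ∈ Finset.range (D + 1), ∑ j ∈ Finset.range (D + 1),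
      (b i j : ℂ) * aeval x (cc t i 0 j) := by
  simp [PP, map_sum]

theorem natDegree_PP (D : ℕ) (b : ℕ → ℕ → ℤ) (t : ℕ) : (PP D b t).natDegree ≤ D := by
  refine natDegree_sum_le_of_forall_le _ _ fun i _ => ?_
  refine natDegree_sum_le_of_forall_le _ _ fun j hj => ?_
  refine (natDegree_C_mul_le _ _).trans ((cc_natDegree _ _ _ _).trans ?_)
  exact Nat.lt_succ_iff.mp (Finset.mem_range.mp hj)

theorem L1_PP (D : ℕ) (b : ℕ → ℕ → ℤ) (t Bd : ℕ) (hb : ∀ i j, |b i j| ≤ (Bd : ℤ)) :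
    L1 (PP D b t) ≤ (D + 1) ^ 2 * Bd * (8 * (2 * D + t)) ^ t := by
  refine (L1_sum _ _).trans ?_
  have h1 : ∀ i ∈ Finset.range (D + 1), L1 (∑ j ∈ Finset.range (D + 1), C (b i j) * cc t i 0 j) ≤
      (D + 1) * (Bd * (8 * (2 * D + t)) ^ t) := by
    intro i hi
    refine (L1_sum _ _).trans ?_
    have h2 : ∀ j ∈ Finset.range (D + 1), L1 (C (b i j) * cc t i 0 j) ≤
        Bd * (8 * (2 * D + t)) ^ t := by
      intro j hj
      refine (L1_C_mul _ _).trans (Nat.mul_le_mul ?_ ?_)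
      · have := hb i j
        rw [Int.abs_eq_natAbs] at this
        exact_mod_cast this
      · refine (cc_L1 _ _ _ _).trans (Nat.pow_le_pow_left ?_ _)
        have h3 := Finset.mem_range.mp hi
        have h4 := Finset.mem_range.mp hj
        omega
    refine (Finset.sum_le_sum h2).trans ?_
    simp
  refine (Finset.sum_le_sum h1).trans ?_
  simp only [Finset.sum_const, Finset.card_range, smul_eq_mul]
  apply le_of_eq
  ring

theorem kap_le_one : ‖(kap : ℂ)‖ ≤ 1 := by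
  have h := one_le_th
  have h1 : kap = 1 / th := rfl
  rw [Complex.norm_real, h1, Real.norm_of_nonneg (by positivity)]
  exact (div_le_one (by linarith)).mpr h

theorem contra (c : ℝ) (hc : 1 ≤ c)
    (hext : ∀ (D K T : ℕ), 1 ≤ D → 1 ≤ K → 12 * D * K ≤ T →
      ∀ (a : ℕ → ℕ → ℂ) (S η : ℝ),
      (∑ i ∈ Finset.range (D + 1), ∑ j ∈ Finset.range (D + 1), ‖a i j‖) ≤ S → 0 ≤ η →
      (∀ t < T, ‖iteratedDeriv t (FF D a) 0‖ ≤ η) →
      ‖iteratedDeriv T (FF D a) 0‖ ≤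
        T.factorial * c ^ T * (S * Real.exp (-((K : ℝ) * T)) + η * c ^ (K * T)))
    (n H l : ℕ) (hn : 1 ≤ n) (hH : H < 2 ^ l) (N : ℤ[X]) (hN : N ≠ 0)
    (hdeg : N.natDegree ≤ n) (hcoef : ∀ k, |N.coeff k| ≤ (H : ℤ)) (κ' : ℂ) (hroot : aeval κ' N = 0)
    (D M2 T0 K Z Q : ℕ) (hD : 1 ≤ D) (hM2 : M2 = (D + 1) ^ 2) (hT0 : T0 = M2 / (8 * (n + 1)))
    (hK : K = T0 / (12 * D)) (hZ : Z = 10 * (D + 1) ^ 2) (hQ : Q = 8 * (2 * D + Z))
    (Γ S η : ℝ) (hΓ : Γ = ((8 * (2 * D + T0)) ^ T0 * 2 ^ (3 * l * D) : ℕ))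
    (hS : S = (M2 : ℝ) ^ 2 * Γ) (δ : ℝ) (hδ0 : 0 < δ) (hδ1 : δ ≤ 1)
    (hη : η = δ * (D * 2 ^ D) * (S * (Q : ℝ) ^ Z)) (hclose : ‖(kap : ℂ) - κ'‖ < δ)
    (hK1 : 1 ≤ K)
    (hnum : ∀ T : ℕ, T0 ≤ T → T ≤ Z →
      (T.factorial * c ^ T * (S * Real.exp (-((K : ℝ) * T)) + η * c ^ (K * T)) + η) *
        (S * (Q : ℝ) ^ T * 2 ^ (2 * l * D)) ^ n < 1) : False := by
  classical
  have hT0' : 12 * D * K ≤ T0 := by
    rw [hK]; exact Nat.mul_div_le _ _
  have hT01 : 1 ≤ T0 := by nlinarith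
  have hT0M : 8 * (n + 1) * T0 ≤ M2 := by
    rw [hT0]; exact Nat.mul_div_le _ _
  set G : ℕ := (8 * (2 * D + T0)) ^ T0 * 2 ^ (3 * l * D) with hG
  have hG1 : 1 ≤ G := Nat.one_le_iff_ne_zero.mpr (by positivity)
  have hG8 : 8 ≤ G := by
    have h1 : 8 ≤ (8 * (2 * D + T0)) ^ T0 := by
      calc 8 ≤ 8 * (2 * D + T0) := by omega
        _ = (8 * (2 * D + T0)) ^ 1 := (pow_one _).symm
        _ ≤ _ := Nat.pow_le_pow_right (by omega) hT01
    calc 8 = 8 * 1 := rfl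
      _ ≤ _ := Nat.mul_le_mul h1 Nat.one_le_two_pow
  set Bd : ℕ := M2 * G with hBd
  have hM24 : 4 ≤ M2 := by rw [hM2]; nlinarith
  have hBd5 : 5 ≤ Bd := by nlinarith
  set m : ℕ := 5 * Bd ^ (2 * (n + 1)) with hm
  have hm1 : 1 ≤ m := Nat.one_le_iff_ne_zero.mpr (by positivity)
  have hpig : m ^ (2 * T0) < (Bd + 1) ^ ((D + 1) ^ 2) := by
    rw [← hM2]
    calc m ^ (2 * T0) = 5 ^ (2 * T0) * Bd ^ (2 * (n + 1) * (2 * T0)) := by
          rw [hm, mul_pow, ← pow_mul]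
      _ ≤ Bd ^ (2 * T0) * Bd ^ (2 * (n + 1) * (2 * T0)) :=
          Nat.mul_le_mul_right _ (Nat.pow_le_pow_left hBd5 _)
      _ = Bd ^ (2 * T0 + 2 * (n + 1) * (2 * T0)) := by rw [← pow_add]
      _ ≤ Bd ^ M2 := Nat.pow_le_pow_right (by omega) (by nlinarith)
      _ < (Bd + 1) ^ M2 := Nat.pow_lt_pow_left (by omega) (by omega)
  have hκ2 : ‖κ'‖ ≤ 2 := by
    have h1 := kap_le_one
    have h2 : ‖κ'‖ ≤ ‖(kap : ℂ)‖ + ‖(kap : ℂ) - κ'‖ := by
      have := norm_sub_le (kap : ℂ) ((kap : ℂ) - κ')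
      simpa using this
    linarith
  have hk2 : ‖(kap : ℂ)‖ ≤ 2 := kap_le_one.trans (by norm_num)
  set V : ℝ := ((8 * (2 * D + T0)) ^ T0 : ℕ) * 2 ^ D with hV
  obtain ⟨b, hbne, hbB, hbt⟩ := box2 D T0 Bd m V (by positivity)
    (fun t i j => aeval κ' (cc t i 0 j)) (by
      intro i hi j hj t ht
      have h1 := norm_aeval_le (cc t i 0 j) κ' D ((cc_natDegree t i 0 j).trans hj) 2 (by norm_num) hκ2
      refine h1.trans ?_
      rw [hV]
      gcongr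
      refine (cc_L1 t i 0 j).trans ?_
      calc (8 * (i + 0 + j + t)) ^ t ≤ (8 * (2 * D + T0)) ^ t :=
            Nat.pow_le_pow_left (by omega) _
        _ ≤ (8 * (2 * D + T0)) ^ T0 := Nat.pow_le_pow_right (by omega) ht.le) hm1 hpig
  -- the Liouville bound
  have hHl : ((H : ℝ) + 1) ^ (2 * D) ≤ 2 ^ (2 * l * D) := by
    have h1 : (H : ℝ) + 1 ≤ 2 ^ l := by exact_mod_cast hH
    calc ((H : ℝ) + 1) ^ (2 * D) ≤ ((2 : ℝ) ^ l) ^ (2 * D) := by gcongr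
      _ = 2 ^ (2 * l * D) := by rw [← pow_mul]; congr 1; ring
  have hS' : S = ((M2 * Bd : ℕ) : ℝ) := by
    rw [hS, hΓ, hBd]; push_cast; ring
  have hS1 : 1 ≤ S := by
    rw [hS']; exact_mod_cast (Nat.one_le_iff_ne_zero.mpr (by positivity))
  have hQ1 : 1 ≤ (Q : ℝ) := by
    rw [hQ]; exact_mod_cast (show 1 ≤ 8 * (2 * D + Z) by omega)
  have hliou : ∀ (t : ℕ) (R : ℕ), (8 * (2 * D + t)) ^ t ≤ R → aeval κ' (PP D b t) ≠ 0 →
      1 ≤ ‖aeval κ' (PP D b t)‖ * (S * R * 2 ^ (2 * l * D)) ^ n := by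
    intro t R hR hne
    have h1 := liou N hN n H hdeg hcoef κ' hroot (PP D b t) D
      ((D + 1) ^ 2 * Bd * (8 * (2 * D + t)) ^ t) (natDegree_PP D b t) (L1_PP D b t Bd hbB) hne
    refine h1.trans ?_
    rw [hS', hM2]
    gcongr
    · have : ((((D + 1) ^ 2 * Bd * (8 * (2 * D + t)) ^ t : ℕ)) : ℝ) ≤
          ((((D + 1) ^ 2 * Bd) * R : ℕ) : ℝ) := by
        exact_mod_cast Nat.mul_le_mul_left _ hR
      simpa using this
  -- initial vanishing
  have hinit : ∀ t < T0, aeval κ' (PP D b t) = 0 := by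
    intro t ht
    by_contra hne
    have h1 := hliou t ((8 * (2 * D + T0)) ^ T0) (by
      calc (8 * (2 * D + t)) ^ t ≤ (8 * (2 * D + T0)) ^ t := Nat.pow_le_pow_left (by omega) _
        _ ≤ _ := Nat.pow_le_pow_right (by omega) ht.le) hne
    have h2 := hbt t ht
    rw [← aeval_PP] at h2
    have h3 : S * (((8 * (2 * D + T0)) ^ T0 : ℕ) : ℝ) * 2 ^ (2 * l * D) ≤ (Bd : ℝ) ^ 2 := by
      rw [hS']
      have : M2 * Bd * (8 * (2 * D + T0)) ^ T0 * 2 ^ (2 * l * D) ≤ Bd ^ 2 := by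
        calc M2 * Bd * (8 * (2 * D + T0)) ^ T0 * 2 ^ (2 * l * D)
            ≤ M2 * Bd * (8 * (2 * D + T0)) ^ T0 * 2 ^ (3 * l * D) := by
              apply Nat.mul_le_mul_left
              exact Nat.pow_le_pow_right (by norm_num) (by nlinarith)
          _ = Bd ^ 2 := by rw [hBd, hG]; ring
      exact_mod_cast this
    have h4 : 4 * (((D + 1) ^ 2 : ℕ) : ℝ) * Bd * V / m ≤ 4 * (Bd : ℝ) ^ 2 / m := by
      apply div_le_div_of_nonneg_right _ (by positivity)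
      have hl1 : 1 ≤ l := by
        rcases Nat.eq_zero_or_pos l with h | h
        · exfalso
          rw [h] at hH
          have hH0 : H = 0 := by simpa using hH
          apply hN
          ext k
          have := hcoef k
          rw [hH0] at this
          simpa using this
        · exact h
      have : 4 * ((D + 1) ^ 2) * Bd * ((8 * (2 * D + T0)) ^ T0 * 2 ^ D) ≤ 4 * Bd ^ 2 := by
        calc 4 * ((D + 1) ^ 2) * Bd * ((8 * (2 * D + T0)) ^ T0 * 2 ^ D)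
            ≤ 4 * ((D + 1) ^ 2) * Bd * ((8 * (2 * D + T0)) ^ T0 * 2 ^ (3 * l * D)) := by
              apply Nat.mul_le_mul_left
              apply Nat.mul_le_mul_left
              exact Nat.pow_le_pow_right (by norm_num) (by nlinarith)
          _ = 4 * Bd ^ 2 := by rw [hBd, hM2, hG]; ring
      have h5 : ((4 * ((D + 1) ^ 2) * Bd * ((8 * (2 * D + T0)) ^ T0 * 2 ^ D) : ℕ) : ℝ) ≤
          ((4 * Bd ^ 2 : ℕ) : ℝ) := by exact_mod_cast this
      rw [hV]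
      push_cast at h5 ⊢
      linarith
    have h6 : (1 : ℝ) ≤ (4 * (Bd : ℝ) ^ 2 / m) * ((Bd : ℝ) ^ 2) ^ n := by
      refine h1.trans ?_
      gcongr
      exact h2.trans h4
    have h7 : (4 * (Bd : ℝ) ^ 2 / m) * ((Bd : ℝ) ^ 2) ^ n = 4 / 5 := by
      have hBd0 : (Bd : ℝ) ≠ 0 := by
        have : (5 : ℝ) ≤ Bd := by exact_mod_cast hBd5
        positivity
      rw [hm]
      push_cast
      rw [div_mul_eq_mul_div, div_eq_div_iff (by positivity) (by norm_num)]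
      ring
    rw [h7] at h6
    norm_num at h6
  -- extrapolation
  let a : ℕ → ℕ → ℂ := fun i j => (b i j : ℂ)
  have haS : (∑ i ∈ Finset.range (D + 1), ∑ j ∈ Finset.range (D + 1), ‖a i j‖) ≤ S := by
    have h1 : ∀ i ∈ Finset.range (D + 1), (∑ j ∈ Finset.range (D + 1), ‖a i j‖) ≤
        (D + 1) * (Bd : ℝ) := by
      intro i _
      have h2 : ∀ j ∈ Finset.range (D + 1), ‖a i j‖ ≤ (Bd : ℝ) := by
        intro j _
        have h3 : ‖a i j‖ = |(b i j : ℝ)| := by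
          simp only [a]
          rw [← Complex.ofReal_intCast, Complex.norm_real, Real.norm_eq_abs]
        rw [h3]
        exact_mod_cast hbB i j
      refine (Finset.sum_le_sum h2).trans ?_
      simp
    refine (Finset.sum_le_sum h1).trans ?_
    rw [hS', hM2]
    simp only [Finset.sum_const, Finset.card_range, nsmul_eq_mul]
    push_cast
    apply le_of_eq
    ring
  have hNt : ∀ t, iteratedDeriv t (FF D a) 0 = aeval (kap : ℂ) (PP D b t) := by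
    intro t
    have h1 := iteratedDeriv_comb (kap : ℂ) Xf Yf Gf ode_X ode_Y ode_G Xf_zero Yf_zero Gf_zero D a t
    have h2 : (fun s => ∑ i ∈ Finset.range (D + 1), ∑ j ∈ Finset.range (D + 1),
      a i j * Xf s ^ i * Gf s ^ j) = FF D a := rfl
    rw [h2] at h1
    rw [h1, aeval_PP]
  have hη0 : 0 ≤ η := by
    rw [hη]; positivity
  have hdiff : ∀ t ≤ Z, ‖aeval (kap : ℂ) (PP D b t) - aeval κ' (PP D b t)‖ ≤ η := by
    intro t ht
    have h1 := norm_aeval_sub_le (PP D b t) (kap : ℂ) κ' D (natDegree_PP D b t) 2 (by norm_num)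
      hk2 hκ2
    refine h1.trans ?_
    have h2 : (L1 (PP D b t) : ℝ) ≤ S * (Q : ℝ) ^ Z := by
      have h3 : L1 (PP D b t) ≤ M2 * Bd * Q ^ Z := by
        refine (L1_PP D b t Bd hbB).trans ?_
        rw [← hM2]
        apply Nat.mul_le_mul_left
        calc (8 * (2 * D + t)) ^ t ≤ Q ^ t := Nat.pow_le_pow_left (by omega) _
          _ ≤ Q ^ Z := Nat.pow_le_pow_right (by omega) ht
      rw [hS']
      exact_mod_cast h3
    rw [hη]
    calc (L1 (PP D b t) : ℝ) * (D * 2 ^ D) * ‖(kap : ℂ) - κ'‖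
        ≤ (S * (Q : ℝ) ^ Z) * (D * 2 ^ D) * δ := by
          gcongr
      _ = δ * (D * 2 ^ D) * (S * (Q : ℝ) ^ Z) := by ring
  have hall : ∀ T, T ≤ Z → aeval κ' (PP D b T) = 0 := by
    intro T
    induction T using Nat.strong_induction_on with
    | _ T ih =>
      intro hTZ
      rcases lt_or_ge T T0 with hT | hT
      · exact hinit T hT
      · by_contra hne
        have h1 : ∀ t < T, ‖iteratedDeriv t (FF D a) 0‖ ≤ η := by
          intro t ht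
          rw [hNt]
          have h2 := hdiff t (by omega)
          rwa [ih t ht (by omega), sub_zero] at h2
        have h2 := hext D K T hD hK1 (hT0'.trans hT) a S η haS hη0 h1
        rw [hNt] at h2
        have h3 : ‖aeval κ' (PP D b T)‖ ≤
            T.factorial * c ^ T * (S * Real.exp (-((K : ℝ) * T)) + η * c ^ (K * T)) + η := by
          have h4 := hdiff T hTZ
          have h5 : ‖aeval κ' (PP D b T)‖ ≤ ‖aeval (kap : ℂ) (PP D b T)‖ +
              ‖aeval (kap : ℂ) (PP D b T) - aeval κ' (PP D b T)‖ := by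
            have := norm_sub_le (aeval (kap : ℂ) (PP D b T))
              (aeval (kap : ℂ) (PP D b T) - aeval κ' (PP D b T))
            simpa using this
          linarith
        have h4 := hliou T (Q ^ T) (Nat.pow_le_pow_left (by omega) _) hne
        have h5 := hnum T hT hTZ
        have h6 : (1 : ℝ) ≤ (T.factorial * c ^ T * (S * Real.exp (-((K : ℝ) * T)) +
            η * c ^ (K * T)) + η) * (S * (Q : ℝ) ^ T * 2 ^ (2 * l * D)) ^ n := by
          refine h4.trans ?_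
          push_cast
          gcongr
        linarith
  -- contradiction with the zero estimate
  obtain ⟨i, hi, j, hj, hij⟩ := hbne
  obtain ⟨t, ht, hne⟩ := zero_estimate κ' D a ⟨i, hi, j, hj, by simpa [a] using hij⟩
  apply hne
  have := hall t (by rw [hZ]; exact ht)
  rw [aeval_PP] at this
  exact this

end Meas

open Meas in
theorem kap_measure : ∃ A : ℕ, ∀ n H : ℕ, 1 ≤ n → 2 ≤ H → ∀ N : ℤ[X], N ≠ 0 →
    N.natDegree ≤ n → (∀ k, |N.coeff k| ≤ (H : ℤ)) →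
    Real.exp (-(((A * (n * (Nat.log 2 H + 1)) : ℕ) : ℝ) ^ A)) ≤ ‖aeval (kap : ℂ) N‖ := by
  obtain ⟨c, hc, hext⟩ := ext
  obtain ⟨A1, A2, hA1, hA2, hnum⟩ := num c hc
  refine ⟨A2 * A1 ^ 5 + 16, fun n H hn hH N hN hdeg hcoef => ?_⟩
  set l := Nat.log 2 H + 1 with hl
  set L := n * l with hL
  have hl1 : 1 ≤ l := by omega
  have hL1 : 1 ≤ L := Nat.one_le_iff_ne_zero.mpr (by positivity)
  set D := A1 * (n * l) ^ 3 with hD
  have hD1 : 1 ≤ D := Nat.one_le_iff_ne_zero.mpr (by positivity)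
  set δ : ℝ := Real.exp (-((A2 : ℝ) * (D : ℝ) ^ 5)) with hδ
  have hδ0 : 0 < δ := Real.exp_pos _
  have hδ1 : δ ≤ 1 := by
    rw [hδ]; apply Real.exp_le_one_iff.mpr
    have : 0 ≤ (A2 : ℝ) * (D : ℝ) ^ 5 := by positivity
    linarith
  by_contra hlt
  push Not at hlt
  have h1 : ‖aeval (kap : ℂ) N‖ < δ ^ n := by
    refine hlt.trans_le ?_
    rw [hδ, ← Real.exp_nat_mul]
    apply Real.exp_le_exp.mpr
    have h2 : n * (A2 * D ^ 5) ≤ ((A2 * A1 ^ 5 + 16) * L) ^ (A2 * A1 ^ 5 + 16) := by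
      have h3 : D ^ 5 = A1 ^ 5 * L ^ 15 := by rw [hD, ← hL]; ring
      rw [h3]
      have hnL : n ≤ L := by rw [hL]; nlinarith
      calc n * (A2 * (A1 ^ 5 * L ^ 15)) ≤ L * (A2 * (A1 ^ 5 * L ^ 15)) :=
            Nat.mul_le_mul_right _ hnL
        _ = (A2 * A1 ^ 5) * L ^ 16 := by ring
        _ ≤ (A2 * A1 ^ 5 + 16) ^ 16 * L ^ 16 := by
            apply Nat.mul_le_mul_right
            calc A2 * A1 ^ 5 ≤ (A2 * A1 ^ 5 + 16) ^ 1 := by rw [pow_one]; omega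
              _ ≤ _ := Nat.pow_le_pow_right (by omega) (by omega)
        _ = ((A2 * A1 ^ 5 + 16) * L) ^ 16 := (mul_pow _ _ _).symm
        _ ≤ _ := Nat.pow_le_pow_right (by positivity) (by omega)
    have h3 : ((n * (A2 * D ^ 5) : ℕ) : ℝ) ≤
        ((((A2 * A1 ^ 5 + 16) * L) ^ (A2 * A1 ^ 5 + 16) : ℕ) : ℝ) := by exact_mod_cast h2
    push_cast at h3 ⊢
    linarith
  obtain ⟨κ', hroot, hclose⟩ := root_close N hN n hdeg (kap : ℂ) δ hδ0 hδ1 h1
  obtain ⟨hK1, hnum'⟩ := hnum n l hn hl1 D _ _ _ _ _ rfl rfl rfl rfl rfl rfl _ _ _ rfl rfl rfl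
  exact contra c hc hext n H l hn (Nat.lt_pow_succ_log_self (by norm_num) H) N hN hdeg hcoef κ'
    hroot D _ _ _ _ _ hD1 rfl rfl rfl rfl rfl _ _ _ rfl rfl δ hδ0 hδ1 rfl hclose hK1 hnum'

theorem th_measure : ∃ A : ℕ, ∀ n H : ℕ, 1 ≤ n → 2 ≤ H → ∀ N : ℤ[X], N ≠ 0 →
    N.natDegree ≤ n → (∀ k, |N.coeff k| ≤ (H : ℤ)) →
    Real.exp (-(((A * (n * (Nat.log 2 H + 1)) : ℕ) : ℝ) ^ A)) ≤ ‖aeval (th : ℂ) N‖ := by
  obtain ⟨A, hA⟩ := kap_measure
  refine ⟨A, fun n H hn hH N hN hdeg hcoef => ?_⟩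
  obtain ⟨h1, h2, h3, h4⟩ := rev_bound N hN th one_le_th
  have h5 := hA n H hn hH N.reverse h1 (h2.trans hdeg) (h3 H hcoef)
  exact h5.trans h4

end Pool.Agent.Lib.MP5e
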