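import Pool.Agent.Lib.MP_5e64e7_nt.OVal
import Pool.Agent.Lib.MP_5e64e7_nt.OLow
import Pool.Agent.Lib.MP_5e64e7_nt.Approx

set_option autoImplicit false

/-!
# O.APP : values of integer polynomials at Gaussian rational points (about 250 lines,
adaptation of `Approx.lean`)

Same proof as `approx` in `Approx.lean` (`Approx.AI_prod`, `Approx.homog`, `Approx.rep_homog` are public and
for a general index type `ι`; the field for all the points: as `Approx.field`, with `oval` instead of `val`,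
bounds `2^(B^C0)` instead of `B^C0`), with one more variable `w = gr x0 y0 c0`, for which the
denominator is `c0`: `c0 w = x0 + y0 i` (`Rep K 0`, size at most `2B`), so the common denominator is
`DL = c0 · ∏ dl_l`, of size at most `M1 = B · 2^(n B^C0)`, and `Rep K 2 M1' (DL * ofam .. v)` for all `v`.
Lower bound: `orep_lower` with `d = B^(n C0) · finrank K0`, `m = 2T + 1`, `M ≤ 2^(B^C2)`, so
`Nat.log 2 M + 1 ≤ B^C3`, and the bound is `exp (-(B^C))`.
-/

noncomputable section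

namespace Pool.Agent.Lib.MP5e

open Polynomial Topology

/-- one field for all the points -/
private theorem oapp_field (n : ℕ) (C0 : ℕ) (hval : ∀ (K0 : IntermediateField ℚ ℂ),
    FiniteDimensional ℚ K0 → Complex.I ∈ K0 → ∀ (B c : ℕ) (x y : ℤ), 2 ≤ B → 1 ≤ c → c ≤ B →
    |x| ≤ (B : ℤ) → 0 < y → y ≤ (B : ℤ) →
    ∃ K : IntermediateField ℚ ℂ, K0 ≤ K ∧ FiniteDimensional ℚ K ∧
      Module.finrank ℚ K ≤ B ^ C0 * Module.finrank ℚ K0 ∧
      ∃ dl : ℂ, dl ≠ 0 ∧ AI K ((2 : ℝ) ^ B ^ C0) dl ∧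
        ∀ k : Fin 4, Rep K 2 ((2 : ℝ) ^ B ^ C0) (dl * J4 (gr x y c) k))
    (K0 : IntermediateField ℚ ℂ) (hK0 : FiniteDimensional ℚ K0) (hI : Complex.I ∈ K0)
    (B : ℕ) (c : Fin n → ℕ) (x y : Fin n → ℤ) (hB : 2 ≤ B)
    (hc : ∀ k, 1 ≤ c k ∧ c k ≤ B ∧ |x k| ≤ (B : ℤ) ∧ 0 < y k ∧ y k ≤ (B : ℤ))
    (s : Finset (Fin n)) :
    ∃ K : IntermediateField ℚ ℂ, K0 ≤ K ∧ FiniteDimensional ℚ K ∧
      Module.finrank ℚ K ≤ (B ^ C0) ^ s.card * Module.finrank ℚ K0 ∧
      ∀ l ∈ s, ∃ dl : ℂ, dl ≠ 0 ∧ AI K ((2 : ℝ) ^ B ^ C0) dl ∧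
        ∀ k : Fin 4, Rep K 2 ((2 : ℝ) ^ B ^ C0) (dl * J4 (gr (x l) (y l) (c l)) k) := by
  classical
  induction s using Finset.induction_on with
  | empty => exact ⟨K0, le_rfl, hK0, by simp, by simp⟩
  | insert l s hl ih =>
    obtain ⟨K, h1, h2, h3, h4⟩ := ih
    obtain ⟨e1, e2, e3, e4, e5⟩ := hc l
    obtain ⟨K', h1', h2', h3', dl, h4', h5', h6'⟩ := hval K h2 (h1 hI) B (c l) (x l) (y l) hB
      e1 e2 e3 e4 e5
    refine ⟨K', h1.trans h1', h2', ?_, ?_⟩
    · rw [Finset.card_insert_of_notMem hl]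
      calc Module.finrank ℚ K' ≤ B ^ C0 * Module.finrank ℚ K := h3'
        _ ≤ B ^ C0 * ((B ^ C0) ^ s.card * Module.finrank ℚ K0) := Nat.mul_le_mul_left _ h3
        _ = (B ^ C0) ^ (s.card + 1) * Module.finrank ℚ K0 := by ring
    · intro l' hl'
      rcases Finset.mem_insert.mp hl' with h | h
      · subst h
        exact ⟨dl, h4', h5', h6'⟩
      · obtain ⟨dl', e1, e2, e3⟩ := h4 l' h
        exact ⟨dl', e1, e2.mono h1' le_rfl, fun k => (e3 k).mono h1' le_rfl le_rfl⟩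

open Approx in
theorem oapprox (n : ℕ) (P : MvPolynomial (Option (Option (Fin n × Fin 3))) ℤ) :
    ∃ C : ℕ, ∀ (B c0 : ℕ) (x0 y0 : ℤ) (c : Fin n → ℕ) (x y : Fin n → ℤ), 2 ≤ B →
      1 ≤ c0 → c0 ≤ B → |x0| ≤ (B : ℤ) → |y0| ≤ (B : ℤ) →
      (∀ k, 1 ≤ c k ∧ c k ≤ B ∧ |x k| ≤ (B : ℤ) ∧ 0 < y k ∧ y k ≤ (B : ℤ)) →
      MvPolynomial.aeval (ofam (gr x0 y0 c0) fun k => gr (x k) (y k) (c k)) P = 0 ∨
        Real.exp (-((B : ℝ) ^ C)) ≤
          ‖MvPolynomial.aeval (ofam (gr x0 y0 c0) fun k => gr (x k) (y k) (c k)) P‖ := by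
  classical
  obtain ⟨C0, hval⟩ := oval
  obtain ⟨A, hA⟩ := orep_lower
  -- the base field
  set K0 : IntermediateField ℚ ℂ := IntermediateField.adjoin ℚ {Complex.I} with hK0
  have hK0fd : FiniteDimensional ℚ K0 := by
    apply IntermediateField.adjoin.finiteDimensional
    have : IsIntegral ℤ Complex.I := Complex.isIntegral_int_I
    exact this.tower_top
  have hI : Complex.I ∈ K0 := IntermediateField.mem_adjoin_simple_self ℚ _
  set f0 := Module.finrank ℚ K0 with hf0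
  set T := P.totalDegree with hT
  set H1 : ℕ := ∑ s ∈ P.support, (P.coeff s).natAbs with hH1
  set C1 : ℕ := n * C0 + f0 + (2 * T + 1) + ((C0 + 1) + (H1 + 3 + (n + 1) * T)) with hC1
  set C2 : ℕ := C0 + 1 + (n + 1) * T with hC2
  refine ⟨(A + C1) * A + C2 + 1, fun B c0 x0 y0 c x y hB hc01 hc0B hx0 hy0 hent => ?_⟩
  by_cases h0 : MvPolynomial.aeval (ofam (gr x0 y0 c0) fun k => gr (x k) (y k) (c k)) P = 0
  · exact Or.inl h0
  right
  obtain ⟨K, hK1, hK2, hK3, hK4⟩ := oapp_field n C0 hval K0 hK0fd hI B c x y hB hent Finset.univ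
  rw [Finset.card_univ, Fintype.card_fin] at hK3
  choose! dl hdl0 hdlA0 hdlR0 using hK4
  have hBpos : 0 < B := by omega
  have hB1 : (1 : ℝ) ≤ B := by exact_mod_cast (by omega : 1 ≤ B)
  have hpow : ∀ k : ℕ, k ≤ B ^ k := fun k =>
    (Nat.lt_two_pow_self).le.trans (Nat.pow_le_pow_left hB k)
  set F : ℕ := B ^ (C0 + 1) with hF
  have hEF : B ^ C0 ≤ F := Nat.pow_le_pow_right hBpos (by omega)
  have hBF : B ≤ F := by
    calc B = B ^ 1 := (pow_one B).symm
      _ ≤ F := Nat.pow_le_pow_right hBpos (by omega)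
  have hF1 : 1 ≤ F := by omega
  set M0 : ℝ := (2 : ℝ) ^ F with hM0
  have hM01 : 1 ≤ M0 := one_le_pow₀ (by norm_num)
  have hEM : (2 : ℝ) ^ B ^ C0 ≤ M0 := pow_le_pow_right₀ (by norm_num) hEF
  have h2BM : 2 * (B : ℝ) ≤ M0 := by
    have h1 : 2 * B ≤ 2 ^ F := by
      calc 2 * B ≤ 2 ^ B := by
            obtain ⟨t, rfl⟩ : ∃ t, B = t + 1 := ⟨B - 1, by omega⟩
            rw [pow_succ]
            have : t + 1 ≤ 2 ^ t := Nat.lt_two_pow_self
            omega
        _ ≤ 2 ^ F := Nat.pow_le_pow_right (by norm_num) hBF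
    rw [hM0]
    exact_mod_cast h1
  have hdlA : ∀ l, AI K M0 (dl l) := fun l => (hdlA0 l (Finset.mem_univ _)).mono le_rfl hEM
  have hdlR : ∀ l, ∀ k : Fin 4, Rep K 2 M0 (dl l * J4 (gr (x l) (y l) (c l)) k) := fun l k =>
    (hdlR0 l (Finset.mem_univ _) k).mono le_rfl le_rfl hEM
  have hc0C : (c0 : ℂ) ≠ 0 := by
    have : c0 ≠ 0 := by omega
    exact_mod_cast this
  have hc0A : AI K M0 (c0 : ℂ) := by
    refine (AI.nat K c0).mono le_rfl ?_
    have h1 : (c0 : ℝ) ≤ B := by exact_mod_cast hc0B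
    linarith
  have hw0A : AI K M0 ((x0 : ℂ) + (y0 : ℂ) * Complex.I) := by
    have h1 := (AI.int K x0).add ((AI.int K y0).mul (AI.I (hK1 hI)))
    refine h1.mono le_rfl ?_
    have h2 : |((x0 : ℤ) : ℝ)| ≤ B := by exact_mod_cast hx0
    have h3 : |((y0 : ℤ) : ℝ)| ≤ B := by exact_mod_cast hy0
    linarith
  have hw0 : (c0 : ℂ) * gr x0 y0 c0 = (x0 : ℂ) + (y0 : ℂ) * Complex.I := by
    unfold gr
    field_simp
  set M1 : ℝ := M0 ^ (n + 1) with hM1
  have hM11 : 1 ≤ M1 := one_le_pow₀ hM01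
  set DP : ℂ := ∏ l, dl l with hDP
  set DL : ℂ := (c0 : ℂ) * DP with hDL
  have hDP0 : DP ≠ 0 := Finset.prod_ne_zero_iff.mpr fun l _ => hdl0 l (Finset.mem_univ _)
  have hDL0 : DL ≠ 0 := mul_ne_zero hc0C hDP0
  have hDPA : AI K (M0 ^ n) DP := by
    have := AI_prod (K := K) Finset.univ M0 dl (fun l _ => hdlA l)
    rwa [Finset.card_univ, Fintype.card_fin] at this
  have hDLA : AI K M1 DL := by
    have := hc0A.mul hDPA
    rwa [← pow_succ'] at this
  have hvar : ∀ v, Rep K 2 M1 (DL * ofam (gr x0 y0 c0) (fun k => gr (x k) (y k) (c k)) v) := by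
    intro v
    rcases v with _ | (_ | ⟨l, k⟩)
    · have h1 := (hDLA.rep 0).mul (Rep.th K)
      refine h1.mono le_rfl (by norm_num) (by simp)
    · have h1 : DL * ofam (gr x0 y0 c0) (fun k => gr (x k) (y k) (c k)) (some none) =
          ((x0 : ℂ) + (y0 : ℂ) * Complex.I) * DP := by
        rw [← hw0, hDL]
        simp only [ofam]
        ring
      rw [h1]
      have h2 := hw0A.mul hDPA
      rw [← pow_succ'] at h2
      exact h2.rep 2
    · have h1 : DL * ofam (gr x0 y0 c0) (fun k => gr (x k) (y k) (c k)) (some (some (l, k))) =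
          ((c0 : ℂ) * ∏ l' ∈ Finset.univ.erase l, dl l') *
            (dl l * J4 (gr (x l) (y l) (c l)) k.succ) := by
        rw [hDL, hDP, ← Finset.mul_prod_erase Finset.univ dl (Finset.mem_univ l)]
        simp only [ofam]
        ring
      rw [h1]
      have h2 : AI K (M0 ^ (n - 1)) (∏ l' ∈ Finset.univ.erase l, dl l') := by
        have := AI_prod (K := K) (Finset.univ.erase l) M0 dl
          (fun l _ => hdlA l)
        rwa [Finset.card_erase_of_mem (Finset.mem_univ _), Finset.card_univ, Fintype.card_fin]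
          at this
      refine (((hc0A.mul h2).rep 0).mul (hdlR l k.succ)).mono le_rfl (by norm_num) ?_
      have hn : n - 1 + 1 + 1 = n + 1 := by
        have := l.2
        omega
      rw [hM1, ← hn, pow_succ, pow_succ, mul_comm M0]
  have hrep := rep_homog K P (ofam (gr x0 y0 c0) fun k => gr (x k) (y k) (c k)) DL M1 hM11
    (hDLA.rep 0) hvar
  set X : ℂ := DL ^ P.totalDegree *
    MvPolynomial.aeval (ofam (gr x0 y0 c0) fun k => gr (x k) (y k) (c k)) P with hX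
  have hX0 : X ≠ 0 := mul_ne_zero (pow_ne_zero _ hDL0) h0
  have hM1T : M1 ^ P.totalDegree = (2 : ℝ) ^ (F * ((n + 1) * T)) := by
    rw [hM1, hM0, ← pow_mul, ← pow_mul]
  set M : ℕ := H1 * 2 ^ (F * ((n + 1) * T)) + 2 with hM
  have hMle : (∑ s ∈ P.support, |((P.coeff s : ℤ) : ℝ)|) * M1 ^ P.totalDegree ≤ (M : ℝ) := by
    have h1 : (∑ s ∈ P.support, |((P.coeff s : ℤ) : ℝ)|) = (H1 : ℝ) := by
      rw [hH1]
      push_cast
      refine Finset.sum_congr rfl fun s _ => ?_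
      rw [Nat.cast_natAbs, Int.cast_abs]
    rw [h1, hM1T, hM]
    push_cast
    linarith
  have h1 := hA K hK2 ((B ^ C0) ^ n * f0) (2 * T + 1) M hK3 (by omega) (by omega) X
    (hrep.mono le_rfl (by omega) hMle) hX0
  have hlogM : Nat.log 2 M + 1 ≤ B ^ ((C0 + 1) + (H1 + 3 + (n + 1) * T)) := by
    have e1 : M < 2 ^ (H1 + 3 + F * ((n + 1) * T)) := by
      calc M ≤ (H1 + 2) * 2 ^ (F * ((n + 1) * T)) := by
            rw [hM, Nat.add_mul H1 2]
            have : 1 ≤ 2 ^ (F * ((n + 1) * T)) := Nat.one_le_pow _ _ (by omega)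
            omega
        _ < 2 ^ (H1 + 3) * 2 ^ (F * ((n + 1) * T)) := by
            apply Nat.mul_lt_mul_of_pos_right _ (by positivity)
            exact lt_of_lt_of_le Nat.lt_two_pow_self (Nat.pow_le_pow_right (by norm_num) (by omega))
        _ = _ := by rw [← pow_add]
    have e2 : Nat.log 2 M < H1 + 3 + F * ((n + 1) * T) := Nat.log_lt_of_lt_pow (by omega) e1
    calc Nat.log 2 M + 1 ≤ H1 + 3 + F * ((n + 1) * T) := e2
      _ ≤ F * (H1 + 3) + F * ((n + 1) * T) := by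
          apply Nat.add_le_add_right
          exact Nat.le_mul_of_pos_left _ (by omega)
      _ = F * (H1 + 3 + (n + 1) * T) := by ring
      _ ≤ F * B ^ (H1 + 3 + (n + 1) * T) := Nat.mul_le_mul_left _ (hpow _)
      _ = _ := by rw [hF, ← pow_add]
  have hsize : (B ^ C0) ^ n * f0 * (2 * T + 1) * (Nat.log 2 M + 1) ≤ B ^ C1 := by
    have e1 : (B ^ C0) ^ n = B ^ (n * C0) := by rw [← pow_mul, mul_comm]
    calc (B ^ C0) ^ n * f0 * (2 * T + 1) * (Nat.log 2 M + 1)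
        ≤ B ^ (n * C0) * B ^ f0 * B ^ (2 * T + 1) * B ^ ((C0 + 1) + (H1 + 3 + (n + 1) * T)) := by
          rw [e1]
          exact Nat.mul_le_mul (Nat.mul_le_mul (Nat.mul_le_mul_left _ (hpow _)) (hpow _)) hlogM
      _ = B ^ C1 := by rw [hC1, ← pow_add, ← pow_add, ← pow_add]
  have hexp : (A * ((B ^ C0) ^ n * f0 * (2 * T + 1) * (Nat.log 2 M + 1))) ^ A ≤
      B ^ ((A + C1) * A) := by
    rw [pow_mul]
    apply Nat.pow_le_pow_left
    rw [pow_add]
    exact Nat.mul_le_mul (hpow A) hsize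
  have h2 : Real.exp (-((B : ℝ) ^ ((A + C1) * A))) ≤ ‖X‖ := by
    refine le_trans (Real.exp_le_exp.mpr ?_) h1
    have : (((A * ((B ^ C0) ^ n * f0 * (2 * T + 1) * (Nat.log 2 M + 1))) ^ A : ℕ) : ℝ) ≤
        ((B ^ ((A + C1) * A) : ℕ) : ℝ) := by exact_mod_cast hexp
    push_cast at this ⊢
    linarith
  -- divide by the denominator
  have h3 : ‖X‖ ≤ Real.exp ((B : ℝ) ^ C2) *
      ‖MvPolynomial.aeval (ofam (gr x0 y0 c0) fun k => gr (x k) (y k) (c k)) P‖ := by
    rw [hX, norm_mul, norm_pow]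
    gcongr
    calc ‖DL‖ ^ P.totalDegree ≤ M1 ^ P.totalDegree := by
          gcongr
          exact AI_norm_le hDLA
      _ = (2 : ℝ) ^ (F * ((n + 1) * T)) := hM1T
      _ ≤ (Real.exp 1) ^ (F * ((n + 1) * T)) := by
          gcongr
          have := Real.add_one_le_exp (1 : ℝ)
          linarith
      _ = Real.exp ((F * ((n + 1) * T) : ℕ) : ℝ) := by rw [← Real.exp_nat_mul, mul_one]
      _ ≤ Real.exp ((B : ℝ) ^ C2) := by
          apply Real.exp_le_exp.mpr
          have h1 : F * ((n + 1) * T) ≤ B ^ C2 := by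
            calc F * ((n + 1) * T) ≤ F * B ^ ((n + 1) * T) := Nat.mul_le_mul_left _ (hpow _)
              _ = B ^ C2 := by rw [hF, hC2, ← pow_add]
          exact_mod_cast h1
  have h4 : Real.exp (-((B : ℝ) ^ ((A + C1) * A + C2 + 1))) *
      Real.exp ((B : ℝ) ^ C2) ≤ Real.exp (-((B : ℝ) ^ ((A + C1) * A))) := by
    rw [← Real.exp_add]
    apply Real.exp_le_exp.mpr
    have e1 : (B : ℝ) ^ ((A + C1) * A) ≤ (B : ℝ) ^ ((A + C1) * A + C2) :=
      pow_le_pow_right₀ hB1 (by omega)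
    have e2 : (B : ℝ) ^ C2 ≤ (B : ℝ) ^ ((A + C1) * A + C2) :=
      pow_le_pow_right₀ hB1 (by omega)
    have e3 : 2 * (B : ℝ) ^ ((A + C1) * A + C2) ≤
        (B : ℝ) ^ ((A + C1) * A + C2 + 1) := by
      rw [pow_succ, mul_comm]
      have : (2 : ℝ) ≤ B := by exact_mod_cast hB
      gcongr
    linarith
  have h5 := (h4.trans h2).trans h3
  have h6 : 0 < Real.exp ((B : ℝ) ^ C2) := Real.exp_pos _
  rw [mul_comm] at h5
  exact le_of_mul_le_mul_left h5 h6

end Pool.Agent.Lib.MP5e
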