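import Pool.Agent.Lib.MP_5e64e7_nt.HHt
import Pool.Agent.Lib.MP_5e64e7_nt.GFunC
import Pool.Agent.Lib.MP_5e64e7_nt.OApp

set_option autoImplicit false

/-!
# H.MAIN : the numbers `ϑ, w, J(z_k)`, `z_k` rational functions of `w` over `ℚ(i)` (about 200 lines)

Copy of the proof of `omain` in `OMain.lean` (its private lemmas `omn_th, omn_small, omnP, omnP_ne, omnP_eval, omn_ana,
omn_pow, omn_freq` have to be copied), with `mob (g k) u` replaced by `rz (f k) (fun _ => u)`:
analyticity of `u ↦ rz (f k) (fun _ => u)` at `w`: `rz_analytic` composed with the linear map `u ↦ (fun _ => u)`;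
`hmob`: `rgood_nhds` (composed with the continuous map); `oht` replaced by `hht`.
Functional part: instead of `oone` use `gfunC` with `m = 1`: the relation
`eval (v.elim u fun p => J4 (rz (f p.1) (fun _ => u)) p.2.succ) (omnP P) = 0` for `u` near `w` gives the relation for
`x : Fin 1 → ℂ` near `fun _ => w` (`x = fun _ => x 0`, `Fin 1` is a subsingleton, `x ↦ x 0` is continuous) for the polynomial
`omnP P` renamed by `none ↦ inl 0`, `some p ↦ inr p` (`MvPolynomial.rename`, injective: `MvPolynomial.rename_injective`).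
-/

noncomputable section

namespace Pool.Agent.Lib.MP5e

open Polynomial Topology

/-- `ϑ` is transcendental -/
private theorem hmn_th : Transcendental ℤ (th : ℂ) := by
  obtain ⟨A, hA⟩ := th_measure
  rintro ⟨N, hN0, hN1⟩
  have h1 := hA (max 1 N.natDegree) (2 + N.support.sup (fun k => (N.coeff k).natAbs))
    (le_max_left _ _) (by omega) N hN0 (le_max_right _ _) ?_
  · rw [hN1, norm_zero] at h1
    exact absurd h1 (not_le.mpr (Real.exp_pos _))
  · intro k
    by_cases hk : k ∈ N.support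
    · have h2 : (N.coeff k).natAbs ≤ N.support.sup (fun k => (N.coeff k).natAbs) :=
        Finset.le_sup (f := fun k => (N.coeff k).natAbs) hk
      rw [Int.abs_eq_natAbs]
      exact_mod_cast (by omega : (N.coeff k).natAbs ≤
        2 + N.support.sup (fun k => (N.coeff k).natAbs))
    · rw [Polynomial.mem_support_iff, not_not] at hk
      rw [hk, abs_zero]
      positivity

private theorem hmn_small (ε : ℝ) (hε : 0 < ε) :
    ∃ m : ℕ, Real.exp (-((2 : ℝ) ^ m)) < ε := by
  have h1 : Filter.Tendsto (fun m : ℕ => Real.exp (-((2 : ℝ) ^ m))) Filter.atTop (𝓝 0) := by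
    have h2 : Filter.Tendsto (fun m : ℕ => (2 : ℝ) ^ m) Filter.atTop Filter.atTop :=
      tendsto_pow_atTop_atTop_of_one_lt (by norm_num)
    exact Real.tendsto_exp_neg_atTop_nhds_zero.comp h2
  exact (h1.eventually (gt_mem_nhds hε)).exists

/-- specialisation of the variable `none` to `ϑ` -/
private def hmnP {n : ℕ} (P : MvPolynomial (Option (Option (Fin n × Fin 3))) ℤ) :
    MvPolynomial (Option (Fin n × Fin 3)) ℂ :=
  MvPolynomial.map (Polynomial.aeval (R := ℤ) (th : ℂ)).toRingHom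
    (MvPolynomial.optionEquivRight ℤ (Option (Fin n × Fin 3)) P)

private theorem hmnP_ne {n : ℕ} (P : MvPolynomial (Option (Option (Fin n × Fin 3))) ℤ)
    (hP : P ≠ 0) : hmnP P ≠ 0 := by
  intro h
  apply hP
  have h1 : Function.Injective (MvPolynomial.map (σ := Option (Fin n × Fin 3))
      (Polynomial.aeval (R := ℤ) (th : ℂ)).toRingHom) :=
    MvPolynomial.map_injective _ (transcendental_iff_injective.1 hmn_th)
  unfold hmnP at h
  rw [map_eq_zero_iff _ h1, map_eq_zero_iff _ (AlgEquiv.injective _)] at h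
  exact h

private theorem hmnP_eval {n : ℕ} (u : ℂ) (y : Fin n → ℂ)
    (P : MvPolynomial (Option (Option (Fin n × Fin 3))) ℤ) :
    MvPolynomial.eval (fun v : Option (Fin n × Fin 3) =>
      v.elim u fun p => J4 (y p.1) p.2.succ) (hmnP P) =
      MvPolynomial.aeval (ofam u y) P := by
  unfold hmnP
  induction P using MvPolynomial.induction_on with
  | C a => simp
  | add p q hp hq =>
    simp only [map_add] at hp hq ⊢
    rw [hp, hq]
  | mul_X p i hp =>
    simp only [map_mul] at hp ⊢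
    rw [hp, MvPolynomial.aeval_X]
    congr 1
    rcases i with _ | i
    · rw [MvPolynomial.optionEquivRight_X_none, MvPolynomial.map_C, MvPolynomial.eval_C]
      change Polynomial.aeval (th : ℂ) Polynomial.X = _
      rw [Polynomial.aeval_X]
      rfl
    · rw [MvPolynomial.optionEquivRight_X_some, MvPolynomial.map_X, MvPolynomial.eval_X]
      rcases i with _ | i
      · rfl
      · rfl

/-- the point as a function of one variable -/
private def hz1 (f : RF 1) (u : ℂ) : ℂ := rz f (fun _ => u)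

private theorem hmn_an {f : RF 1} {w : ℂ} (h : RGood f (fun _ => w)) :
    AnalyticAt ℂ (hz1 f) w := by
  have h1 : AnalyticAt ℂ (fun u : ℂ => (fun _ : Fin 1 => u)) w := by
    rw [analyticAt_pi_iff]
    intro _
    exact analyticAt_id
  exact AnalyticAt.comp (g := rz f) (rz_analytic f _ h) h1

private theorem hmn_ana {n : ℕ} (g : Fin n → RF 1) {w : ℂ}
    (h : ∀ k, RGood (g k) (fun _ => w)) (P : MvPolynomial (Option (Option (Fin n × Fin 3))) ℤ) :
    AnalyticAt ℂ (fun u => MvPolynomial.aeval (ofam u fun k => hz1 (g k) u) P) w := by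
  induction P using MvPolynomial.induction_on with
  | C a =>
    simp only [MvPolynomial.aeval_C]
    exact analyticAt_const
  | add p q hp hq =>
    simp only [map_add]
    exact hp.add hq
  | mul_X p i hp =>
    simp only [map_mul, MvPolynomial.aeval_X]
    refine hp.mul ?_
    rcases i with _ | _ | ⟨k, j⟩
    · exact analyticAt_const
    · exact analyticAt_id
    · have h1 := AnalyticAt.comp (g := fun u => J4 u j.succ) (f := hz1 (g k)) (x := w)
          (J4_analyticAt (h k).2 j.succ) (hmn_an (h k))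
      exact h1

/-- the growth inequality -/
private theorem hmn_pow {B D m : ℕ} (hB : 2 ≤ B) :
    (B : ℝ) ^ D + 2 ^ m ≤ (B : ℝ) ^ (D + 1 + m) := by
  have hB2 : (2 : ℝ) ≤ B := by exact_mod_cast hB
  have h1 : (1 : ℝ) ≤ (B : ℝ) ^ D := one_le_pow₀ (by linarith)
  have h2 : (1 : ℝ) ≤ 2 ^ m := one_le_pow₀ (by norm_num)
  have h3 : (2 : ℝ) ^ m ≤ (B : ℝ) ^ m := pow_le_pow_left₀ (by norm_num) hB2 m
  have h4 : (B : ℝ) ^ (D + 1 + m) = (B : ℝ) ^ D * B * (B : ℝ) ^ m := by
    rw [pow_add, pow_add, pow_one]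
  have h5 : (B : ℝ) ^ D * 2 * 2 ^ m ≤ (B : ℝ) ^ D * B * (B : ℝ) ^ m := by
    gcongr
  rw [h4]
  refine le_trans ?_ h5
  nlinarith [mul_le_mul_of_nonneg_left h2 (by linarith : (0 : ℝ) ≤ (B : ℝ) ^ D),
    mul_le_mul_of_nonneg_right h1 (by linarith : (0 : ℝ) ≤ (2 : ℝ) ^ m)]

/-- the zeros of `F` accumulate at `w` -/
private theorem hmn_freq {w : ℂ} (hw : SG w) {n : ℕ} (g : Fin n → RF 1)
    (hg : ∀ k, (g k).d = 1)
    (him : ∀ k, RGood (g k) (fun _ => w)) (P : MvPolynomial (Option (Option (Fin n × Fin 3))) ℤ)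
    (hP0 : MvPolynomial.aeval (ofam w fun k => hz1 (g k) w) P = 0) :
    ∃ᶠ u in 𝓝[≠] w, MvPolynomial.aeval (ofam u fun k => hz1 (g k) u) P = 0 := by
  set F : ℂ → ℂ := fun u => MvPolynomial.aeval (ofam u fun k => hz1 (g k) u) P with hF
  have hFa : AnalyticAt ℂ F w := hmn_ana g him P
  have hFw : F w = 0 := hP0
  -- local bound
  obtain ⟨c₁, hc₁, hlip⟩ : ∃ c₁ : ℝ, 0 < c₁ ∧ ∀ᶠ u in 𝓝 w, ‖F u‖ ≤ c₁ * ‖u - w‖ := by
    have h1 := hFa.differentiableAt.isBigO_sub
    obtain ⟨c, hc, h2⟩ := h1.exists_pos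
    refine ⟨c, hc, ?_⟩
    filter_upwards [h2.bound] with u hu
    rw [hFw, sub_zero] at hu
    exact hu
  have hmob : ∀ᶠ u in 𝓝 w, ∀ k, 0 < (hz1 (g k) u).im := by
    rw [Filter.eventually_all]
    intro k
    have h1 : ContinuousAt (fun u => (hz1 (g k) u).im) w :=
      Complex.continuous_im.continuousAt.comp (hmn_an (him k)).continuousAt
    exact h1.eventually (lt_mem_nhds (him k).2)
  choose h hh using fun k => hht (g k) (hg k)
  obtain ⟨C, hC⟩ := oapprox n P
  set H : ℕ := Finset.univ.sup h + 1 with hH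
  have hhH : ∀ k, h k ≤ H := fun k =>
    (Finset.le_sup (f := h) (Finset.mem_univ k)).trans (Nat.le_succ _)
  rw [Filter.frequently_iff]
  intro U hU
  rw [mem_nhdsWithin_iff_exists_mem_nhds_inter] at hU
  obtain ⟨U', hU', hUU⟩ := hU
  obtain ⟨ε, hε, hball⟩ := Metric.mem_nhds_iff.1 (Filter.inter_mem hU'
    (Filter.inter_mem hlip hmob))
  obtain ⟨m, hm⟩ := hmn_small (min ε (1 / c₁)) (lt_min hε (by positivity))
  obtain ⟨B, c, a, b, hB, hc1, hcB, ha, hb, hne, hdist⟩ := hw (H * C + 1 + m)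
  have hB2 : (2 : ℝ) ≤ B := by exact_mod_cast hB
  set r : ℂ := gr a b c with hr
  have hexp : Real.exp (-((B : ℝ) ^ (H * C + 1 + m))) ≤
      Real.exp (-((B : ℝ) ^ (H * C))) * Real.exp (-((2 : ℝ) ^ m)) := by
    rw [← Real.exp_add]
    apply Real.exp_le_exp.mpr
    have := hmn_pow (D := H * C) (m := m) hB
    linarith
  have hexp1 : Real.exp (-((B : ℝ) ^ (H * C))) ≤ 1 := by
    rw [Real.exp_le_one_iff]
    have : (0 : ℝ) ≤ (B : ℝ) ^ (H * C) := by positivity
    linarith
  have hrε : ‖w - r‖ < ε := by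
    calc ‖w - r‖ ≤ Real.exp (-((B : ℝ) ^ (H * C + 1 + m))) := hdist
      _ ≤ Real.exp (-((B : ℝ) ^ (H * C))) * Real.exp (-((2 : ℝ) ^ m)) := hexp
      _ ≤ 1 * Real.exp (-((2 : ℝ) ^ m)) :=
          mul_le_mul_of_nonneg_right hexp1 (Real.exp_pos _).le
      _ < ε := by
          rw [one_mul]
          exact hm.trans_le (min_le_left _ _)
  have hrball : r ∈ Metric.ball w ε := by
    rw [Metric.mem_ball, dist_comm, dist_eq_norm]
    exact hrε
  obtain ⟨hrU, hrlip, hrmob⟩ := hball hrball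
  have hrlip' : ‖F r‖ ≤ c₁ * ‖r - w‖ := hrlip
  have hrmob' : ∀ k, 0 < (hz1 (g k) r).im := hrmob
  refine ⟨r, hUU ⟨hrU, fun h => hne h.symm⟩, ?_⟩
  have hex := fun k => hh k B c a b hB hc1 hcB ha hb (hrmob' k)
  choose c' x' y' h1 h2 h3 h4 h5 h6 using hex
  have hpowle : ∀ k, B ^ h k ≤ B ^ H := fun k => Nat.pow_le_pow_right (by omega) (hhH k)
  have hBH : B ≤ B ^ H := by
    calc B = B ^ 1 := (pow_one B).symm
      _ ≤ B ^ H := Nat.pow_le_pow_right (by omega) (by omega)
  have hBHi : (B : ℤ) ≤ ((B ^ H : ℕ) : ℤ) := by exact_mod_cast hBH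
  have hpowlei : ∀ k, ((B ^ h k : ℕ) : ℤ) ≤ ((B ^ H : ℕ) : ℤ) := fun k => by
    exact_mod_cast hpowle k
  have key := hC (B ^ H) c a b c' x' y' (hB.trans hBH) hc1 (hcB.trans hBH) (ha.trans hBHi)
    (hb.trans hBHi) (fun k => ⟨h1 k, (h2 k).trans (hpowle k), (h3 k).trans (hpowlei k), h4 k,
      (h5 k).trans (hpowlei k)⟩)
  have hfun : (fun k => gr (x' k) (y' k) (c' k)) = fun k => hz1 (g k) r := by
    funext k
    exact (h6 k).symm
  rw [hfun] at key
  rcases key with key | key
  · exact key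
  · exfalso
    have h7 : Real.exp (-((B : ℝ) ^ (H * C))) ≤ ‖F r‖ := by
      have h8 : ((B ^ H : ℕ) : ℝ) ^ C = (B : ℝ) ^ (H * C) := by
        push_cast
        rw [← pow_mul]
      rw [h8] at key
      exact key
    have h8 : ‖F r‖ < Real.exp (-((B : ℝ) ^ (H * C))) := by
      calc ‖F r‖ ≤ c₁ * ‖r - w‖ := hrlip'
        _ ≤ c₁ * (Real.exp (-((B : ℝ) ^ (H * C))) * Real.exp (-((2 : ℝ) ^ m))) := by
            refine mul_le_mul_of_nonneg_left ?_ hc₁.le
            rw [norm_sub_rev]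
            exact hdist.trans hexp
        _ = Real.exp (-((B : ℝ) ^ (H * C))) * (c₁ * Real.exp (-((2 : ℝ) ^ m))) := by ring
        _ < Real.exp (-((B : ℝ) ^ (H * C))) * 1 := by
            apply mul_lt_mul_of_pos_left _ (Real.exp_pos _)
            have h9 := hm.trans_le (min_le_right _ _)
            rw [lt_div_iff₀ hc₁] at h9
            linarith
        _ = _ := mul_one _
    exact absurd h7 (not_le.2 h8)

private theorem hmn_nhds {w : ℂ} {p : ℂ → Prop} (h : ∀ᶠ u in 𝓝 w, p u) :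
    ∀ᶠ x : Fin 1 → ℂ in 𝓝 (fun _ => w), p (x 0) := by
  have h1 : ContinuousAt (fun x : Fin 1 → ℂ => x 0) (fun _ => w) :=
    (continuous_apply 0).continuousAt
  exact h1.eventually h

private theorem hmn_fun {w : ℂ} {n : ℕ} (f : Fin n → RF 1)
    (h : ∀ k, RGood (f k) (fun _ => w))
    (hnc : ∀ k, ¬ ∀ᶠ x in 𝓝 (fun _ : Fin 1 => w), rz (f k) x = rz (f k) (fun _ => w))
    (hrel : ∀ k l, k ≠ l → ¬ GRel (rz (f k) (fun _ => w)) (rz (f l) (fun _ => w)))
    (Q : MvPolynomial (Option (Fin n × Fin 3)) ℂ)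
    (hQ : ∀ᶠ u in 𝓝 w, MvPolynomial.eval (fun v : Option (Fin n × Fin 3) =>
      v.elim u fun p => J4 (hz1 (f p.1) u) p.2.succ) Q = 0) : Q = 0 := by
  obtain ⟨e, he⟩ : ∃ e : Option (Fin n × Fin 3) → Fin 1 ⊕ (Fin n × Fin 3),
      e = fun v => v.elim (Sum.inl 0) Sum.inr := ⟨_, rfl⟩
  have hinj : Function.Injective e := by
    rw [he]
    rintro (_ | p) (_ | q) h
    · rfl
    · exact absurd h (by simp)
    · exact absurd h (by simp)
    · simpa using h
  have h1 : MvPolynomial.rename e Q = 0 := by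
    apply gfunC f (fun _ => w) h hnc hrel
    filter_upwards [hmn_nhds hQ] with x hx
    rw [MvPolynomial.eval_rename]
    have h2 : (gall f x) ∘ e = fun v : Option (Fin n × Fin 3) =>
        v.elim (x 0) fun p => J4 (hz1 (f p.1) (x 0)) p.2.succ := by
      have hx0 : x = fun _ => x 0 := by
        funext i
        rw [Subsingleton.elim i 0]
      funext v
      rw [he]
      rcases v with _ | p
      · rfl
      · change J4 (rz (f p.1) x) p.2.succ = J4 (rz (f p.1) (fun _ => x 0)) p.2.succ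
        rw [← hx0]
    rw [h2]
    exact hx
  exact MvPolynomial.rename_injective _ hinj (by rw [h1, map_zero])

theorem hmain {w : ℂ} (hw : SG w) {n : ℕ} (f : Fin n → RF 1) (hd : ∀ k, (f k).d = 1)
    (h : ∀ k, RGood (f k) (fun _ => w))
    (hnc : ∀ k, ¬ ∀ᶠ x in 𝓝 (fun _ : Fin 1 => w), rz (f k) x = rz (f k) (fun _ => w))
    (hrel : ∀ k l, k ≠ l → ¬ GRel (rz (f k) (fun _ => w)) (rz (f l) (fun _ => w))) :
    AlgebraicIndependent ℚ (ofam w (fun k => rz (f k) (fun _ => w))) := by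
  have hint : AlgebraicIndependent ℤ (ofam w fun k => hz1 (f k) w) := by
    rw [algebraicIndependent_iff]
    intro P hP0
    by_contra hP
    have hfreq := hmn_freq hw f hd h P hP0
    have hana := hmn_ana f h P
    have hev := hana.frequently_zero_iff_eventually_zero.1 hfreq
    have h1 : ∀ᶠ u in 𝓝 w, MvPolynomial.eval (fun v : Option (Fin n × Fin 3) =>
        v.elim u fun p => J4 (hz1 (f p.1) u) p.2.succ) (hmnP P) = 0 := by
      filter_upwards [hev] with u hu
      rw [hmnP_eval u (fun k => hz1 (f k) u) P]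
      exact hu
    exact hmnP_ne P hP (hmn_fun f h hnc hrel (hmnP P) h1)
  have : Algebra.IsAlgebraic ℤ ℚ :=
    ⟨fun x => (IsFractionRing.isAlgebraic_iff ℤ ℚ ℚ).mpr (isAlgebraic_algebraMap x)⟩
  exact hint.extendScalars ℚ

end Pool.Agent.Lib.MP5e
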