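import Pool.Agent.Lib.MP_5e64e7_nt.Fgood

set_option autoImplicit false

noncomputable section

namespace Pool.Agent.Lib.MP5e

open Polynomial Topology

private def hfT (k : ℕ) (w : ℂ) : ℂ :=
  w * (rr : ℂ) ^ (k + 1) / (1 - w * (rr : ℂ) ^ (k + 1)) ^ 2 +
    w⁻¹ * (rr : ℂ) ^ (k + 1) / (1 - w⁻¹ * (rr : ℂ) ^ (k + 1)) ^ 2

private def hgT (k : ℕ) (w : ℂ) : ℂ :=
  w⁻¹ * (rr : ℂ) ^ (k + 1) / (1 - w⁻¹ * (rr : ℂ) ^ (k + 1)) -
    w * (rr : ℂ) ^ (k + 1) / (1 - w * (rr : ℂ) ^ (k + 1))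

private lemma hf_ne {w : ℂ} {K : ℕ} (hw : w ∈ ann K) : w ≠ 0 := by
  intro h
  have h1 := hw.1
  rw [h, norm_zero] at h1
  have := pow_pos rr_pos (K + 1)
  linarith

private lemma hf_good {w : ℂ} (hw : w ∈ good) (k : ℕ) :
    1 - w * (rr : ℂ) ^ (k + 1) ≠ 0 ∧ 1 - w⁻¹ * (rr : ℂ) ^ (k + 1) ≠ 0 ∧ 1 - w ≠ 0 := by
  have hr : (rr : ℂ) ≠ 0 := by exact_mod_cast rr_pos.ne'
  refine ⟨fun h => ?_, fun h => ?_, fun h => ?_⟩
  · apply hw.2 (-((k + 1 : ℕ) : ℤ))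
    rw [zpow_neg, zpow_natCast]
    exact eq_inv_of_mul_eq_one_left (sub_eq_zero.1 h).symm
  · apply hw.2 ((k + 1 : ℕ) : ℤ)
    rw [zpow_natCast]
    have h1 : w⁻¹ * (rr : ℂ) ^ (k + 1) = 1 := (sub_eq_zero.1 h).symm
    have h2 := eq_inv_of_mul_eq_one_right h1
    rw [inv_inv] at h2
    exact h2.symm
  · apply hw.2 0
    rw [zpow_zero]
    exact (sub_eq_zero.1 h).symm

private lemma hf_small {w : ℂ} {K : ℕ} (hw : w ∈ ann K) (k : ℕ) :
    ‖w * (rr : ℂ) ^ (k + (K + 1) + 1)‖ ≤ rr ^ (k + 1) ∧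
      ‖w⁻¹ * (rr : ℂ) ^ (k + (K + 1) + 1)‖ ≤ rr ^ (k + 1) := by
  have hp := pow_pos rr_pos (K + 1)
  have hp2 := pow_pos rr_pos (k + 1)
  have hnr : ‖(rr : ℂ)‖ = rr := by
    rw [Complex.norm_real, Real.norm_eq_abs, abs_of_pos rr_pos]
  have he : k + (K + 1) + 1 = (K + 1) + (k + 1) := by omega
  have hw0 : 0 < ‖w‖ := norm_pos_iff.2 (hf_ne hw)
  rw [norm_mul, norm_mul, norm_pow, norm_inv, hnr, he, pow_add]
  constructor
  · have h1 : ‖w‖ * rr ^ (K + 1) ≤ 1 := by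
      have := hw.2.le
      rw [← one_div, le_div_iff₀ hp] at this
      exact this
    rw [← mul_assoc]
    nlinarith
  · have h1 : ‖w‖⁻¹ * rr ^ (K + 1) ≤ 1 := by
      rw [inv_mul_le_iff₀ hw0, mul_one]
      exact hw.1.le
    rw [← mul_assoc]
    nlinarith

private lemma hf_rrpow (k : ℕ) : rr ^ (k + 1) ≤ 1 / 500 := by
  calc rr ^ (k + 1) ≤ rr ^ 1 := pow_le_pow_of_le_one rr_pos.le (by linarith [rr_lt]) (by omega)
    _ ≤ 1 / 500 := by
      rw [pow_one]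
      exact rr_lt.le

private lemma hf_one {a : ℂ} {x : ℝ} (ha : ‖a‖ ≤ x) (hx : x ≤ 1 / 500) :
    1 - a ≠ 0 ∧ ‖a / (1 - a) ^ 2‖ ≤ 2 * x ∧ ‖a / (1 - a)‖ ≤ 2 * x := by
  have h1 : 1 - x ≤ ‖1 - a‖ := by
    have := norm_sub_norm_le (1 : ℂ) a
    rw [norm_one] at this
    linarith
  have h2 : (499 : ℝ) / 500 ≤ ‖1 - a‖ := by linarith
  have hx0 : 0 ≤ x := (norm_nonneg _).trans ha
  refine ⟨fun h => ?_, ?_, ?_⟩
  · rw [h, norm_zero] at h2
    norm_num at h2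
  · have h3 : (1 : ℝ) / 2 ≤ ‖1 - a‖ ^ 2 := by nlinarith
    rw [norm_div, norm_pow, div_le_iff₀ (by positivity)]
    nlinarith
  · rw [norm_div, div_le_iff₀ (by positivity)]
    nlinarith

private lemma hf_bd {w : ℂ} {K : ℕ} (hw : w ∈ ann K) (k : ℕ) :
    ‖hfT (k + (K + 1)) w‖ ≤ 4 * rr ^ (k + 1) ∧ ‖hgT (k + (K + 1)) w‖ ≤ 4 * rr ^ (k + 1) := by
  obtain ⟨h1, h2⟩ := hf_small hw k
  have hx := hf_rrpow k
  obtain ⟨-, a1, a2⟩ := hf_one h1 hx
  obtain ⟨-, b1, b2⟩ := hf_one h2 hx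
  constructor
  · unfold hfT
    refine (norm_add_le _ _).trans ?_
    linarith
  · unfold hgT
    refine (norm_sub_le _ _).trans ?_
    linarith

private lemma hf_sum : Summable (fun k : ℕ => 4 * rr ^ (k + 1)) := by
  have h : Summable (fun k : ℕ => rr ^ k) :=
    summable_geometric_of_lt_one rr_pos.le (by linarith [rr_lt])
  exact ((summable_nat_add_iff 1).2 h).mul_left 4

private lemma hf_diffw (K : ℕ) : DifferentiableOn ℂ (fun w : ℂ => w⁻¹) (ann K) :=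
  fun _ hw => (differentiableAt_inv (hf_ne hw)).differentiableWithinAt

private lemma hf_diff (K k : ℕ)
    (h : ∀ w ∈ ann K, 1 - w * (rr : ℂ) ^ (k + 1) ≠ 0 ∧ 1 - w⁻¹ * (rr : ℂ) ^ (k + 1) ≠ 0) :
    DifferentiableOn ℂ (hfT k) (ann K) ∧ DifferentiableOn ℂ (hgT k) (ann K) := by
  have e1 : DifferentiableOn ℂ (fun w : ℂ => w * (rr : ℂ) ^ (k + 1)) (ann K) :=
    differentiableOn_id.mul_const _
  have e2 : DifferentiableOn ℂ (fun w : ℂ => w⁻¹ * (rr : ℂ) ^ (k + 1)) (ann K) :=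
    (hf_diffw K).mul_const _
  have d1 : DifferentiableOn ℂ (fun w : ℂ => 1 - w * (rr : ℂ) ^ (k + 1)) (ann K) :=
    (differentiableOn_const 1).sub e1
  have d2 : DifferentiableOn ℂ (fun w : ℂ => 1 - w⁻¹ * (rr : ℂ) ^ (k + 1)) (ann K) :=
    (differentiableOn_const 1).sub e2
  constructor
  · exact (e1.div (d1.pow 2) (fun w hw => pow_ne_zero 2 (h w hw).1)).add
      (e2.div (d2.pow 2) (fun w hw => pow_ne_zero 2 (h w hw).2))
  · exact (e2.div d2 (fun w hw => (h w hw).2)).sub (e1.div d1 (fun w hw => (h w hw).1))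

private lemma hf_tail (K : ℕ) :
    DifferentiableOn ℂ (fun w => ∑' k, hfT (k + (K + 1)) w) (ann K) ∧
      DifferentiableOn ℂ (fun w => ∑' k, hgT (k + (K + 1)) w) (ann K) := by
  have hne : ∀ k : ℕ, ∀ w ∈ ann K, 1 - w * (rr : ℂ) ^ (k + (K + 1) + 1) ≠ 0 ∧
      1 - w⁻¹ * (rr : ℂ) ^ (k + (K + 1) + 1) ≠ 0 := fun k w hw =>
    ⟨(hf_one (hf_small hw k).1 (hf_rrpow k)).1, (hf_one (hf_small hw k).2 (hf_rrpow k)).1⟩
  constructor
  · exact Complex.differentiableOn_tsum_of_summable_norm hf_sum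
      (fun k => (hf_diff K (k + (K + 1)) (hne k)).1) (isOpen_ann K)
      (fun k w hw => (hf_bd hw k).1)
  · exact Complex.differentiableOn_tsum_of_summable_norm hf_sum
      (fun k => (hf_diff K (k + (K + 1)) (hne k)).2) (isOpen_ann K)
      (fun k w hw => (hf_bd hw k).2)

private lemma hf_hh (K j : ℕ) : DifferentiableOn ℂ (hh j) (ann K) := by
  unfold hh
  apply DifferentiableOn.mul ((differentiableOn_const 1).sub differentiableOn_id)
  apply DifferentiableOn.fun_finsetProd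
  intro k _
  exact ((differentiableOn_const 1).sub ((hf_diffw K).mul_const _)).mul
    ((differentiableOn_const 1).sub (differentiableOn_id.mul_const _))

private lemma hf_hh_succ (j : ℕ) (w : ℂ) : hh (j + 1) w =
    hh j w * ((1 - w⁻¹ * (rr : ℂ) ^ (j + 1)) * (1 - w * (rr : ℂ) ^ (j + 1))) := by
  unfold hh
  rw [Finset.prod_range_succ]
  ring

/-- the finite parts -/
private lemma hf_fin (K j : ℕ) : ∃ F G : ℂ → ℂ, DifferentiableOn ℂ F (ann K) ∧
    DifferentiableOn ℂ G (ann K) ∧ ∀ w ∈ good,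
      F w = hh j w ^ 2 * (w / (1 - w) ^ 2 + ∑ k ∈ Finset.range j, hfT k w) ∧
      G w = hh j w * ((w + 1) / (2 * (w - 1)) + ∑ k ∈ Finset.range j, hgT k w) := by
  induction j with
  | zero =>
    refine ⟨fun w => w, fun w => -(w + 1) / 2, differentiableOn_id,
      ((differentiableOn_id.add (differentiableOn_const 1)).neg).div_const 2, fun w hw => ?_⟩
    have h1 := (hf_good hw 0).2.2
    have h2 : w - 1 ≠ 0 := by
      intro h
      apply h1
      linear_combination -h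
    unfold hh
    simp only [Finset.range_zero, Finset.prod_empty, Finset.sum_empty, add_zero, mul_one]
    constructor
    · field_simp
    · field_simp
      ring
  | succ j ih =>
    obtain ⟨F, G, hF, hG, hFG⟩ := ih
    have e1 : DifferentiableOn ℂ (fun w : ℂ => w * (rr : ℂ) ^ (j + 1)) (ann K) :=
      differentiableOn_id.mul_const _
    have e2 : DifferentiableOn ℂ (fun w : ℂ => w⁻¹ * (rr : ℂ) ^ (j + 1)) (ann K) :=
      (hf_diffw K).mul_const _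
    have d1 : DifferentiableOn ℂ (fun w : ℂ => 1 - w * (rr : ℂ) ^ (j + 1)) (ann K) :=
      (differentiableOn_const 1).sub e1
    have d2 : DifferentiableOn ℂ (fun w : ℂ => 1 - w⁻¹ * (rr : ℂ) ^ (j + 1)) (ann K) :=
      (differentiableOn_const 1).sub e2
    refine ⟨fun w => ((1 - w⁻¹ * (rr : ℂ) ^ (j + 1)) * (1 - w * (rr : ℂ) ^ (j + 1))) ^ 2 * F w +
        hh j w ^ 2 * ((1 - w⁻¹ * (rr : ℂ) ^ (j + 1)) ^ 2 * (w * (rr : ℂ) ^ (j + 1)) +
          (1 - w * (rr : ℂ) ^ (j + 1)) ^ 2 * (w⁻¹ * (rr : ℂ) ^ (j + 1))),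
      fun w => ((1 - w⁻¹ * (rr : ℂ) ^ (j + 1)) * (1 - w * (rr : ℂ) ^ (j + 1))) * G w +
        hh j w * ((1 - w * (rr : ℂ) ^ (j + 1)) * (w⁻¹ * (rr : ℂ) ^ (j + 1)) -
          (1 - w⁻¹ * (rr : ℂ) ^ (j + 1)) * (w * (rr : ℂ) ^ (j + 1))), ?_, ?_, ?_⟩
    · exact (((d2.mul d1).pow 2).mul hF).add
        (((hf_hh K j).pow 2).mul (((d2.pow 2).mul e1).add ((d1.pow 2).mul e2)))
    · exact ((d2.mul d1).mul hG).add ((hf_hh K j).mul ((d1.mul e2).sub (d2.mul e1)))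
    · intro w hw
      obtain ⟨n1, n2, -⟩ := hf_good hw j
      obtain ⟨i1, i2⟩ := hFG w hw
      beta_reduce
      rw [i1, i2, hf_hh_succ, Finset.sum_range_succ, Finset.sum_range_succ]
      set S := ∑ k ∈ Finset.range j, hfT k w
      set S' := ∑ k ∈ Finset.range j, hgT k w
      unfold hfT hgT
      set a := w * (rr : ℂ) ^ (j + 1)
      set b := w⁻¹ * (rr : ℂ) ^ (j + 1)
      set P := w / (1 - w) ^ 2
      set Q := (w + 1) / (2 * (w - 1))
      constructor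
      · field_simp
        ring
      · field_simp
        ring

theorem exists_HF (K : ℕ) : ∃ HF HG : ℂ → ℂ, DifferentiableOn ℂ HF (ann K) ∧
    DifferentiableOn ℂ HG (ann K) ∧
    ∀ w ∈ ann K, w ∈ good → HF w = hh K w ^ 2 * ff w ∧ HG w = hh K w * gg w := by
  obtain ⟨F, G, hF, hG, hFG⟩ := hf_fin K K
  have hK : DifferentiableOn ℂ (hfT K) (ann K) ∧ DifferentiableOn ℂ (hgT K) (ann K) := by
    apply hf_diff
    intro w hw
    obtain ⟨h1, h2⟩ := term_bound K hw K (by omega)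
    refine ⟨fun h => ?_, fun h => ?_⟩
    · rw [← sub_eq_zero.1 h, norm_one] at h1
      exact lt_irrefl _ h1
    · rw [← sub_eq_zero.1 h, norm_one] at h2
      exact lt_irrefl _ h2
  obtain ⟨t1, t2⟩ := hf_tail K
  refine ⟨fun w => F w + hh K w ^ 2 * (hfT K w + ∑' k, hfT (k + (K + 1)) w),
    fun w => G w + hh K w * (hgT K w + ∑' k, hgT (k + (K + 1)) w),
    hF.add (((hf_hh K K).pow 2).mul (hK.1.add t1)),
    hG.add ((hf_hh K K).mul (hK.2.add t2)), fun w hw hg => ?_⟩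
  obtain ⟨i1, i2⟩ := hFG w hg
  have s1 : Summable (fun k => hfT k w) :=
    (summable_nat_add_iff (K + 1)).1 (Summable.of_norm_bounded hf_sum fun k => (hf_bd hw k).1)
  have s2 : Summable (fun k => hgT k w) :=
    (summable_nat_add_iff (K + 1)).1 (Summable.of_norm_bounded hf_sum fun k => (hf_bd hw k).2)
  have f1 : ff w = w / (1 - w) ^ 2 + (∑ k ∈ Finset.range K, hfT k w + hfT K w +
      ∑' k, hfT (k + (K + 1)) w) := by
    rw [← Finset.sum_range_succ, s1.sum_add_tsum_nat_add (K + 1)]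
    rfl
  have f2 : gg w = (w + 1) / (2 * (w - 1)) + (∑ k ∈ Finset.range K, hgT k w + hgT K w +
      ∑' k, hgT (k + (K + 1)) w) := by
    rw [← Finset.sum_range_succ, s2.sum_add_tsum_nat_add (K + 1)]
    rfl
  beta_reduce
  constructor
  · rw [i1, f1]
    ring
  · rw [i2, f2]
    ring

end Pool.Agent.Lib.MP5e
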