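import Pool.Agent.Lib.MP_5e64e7_nt.Defs

set_option autoImplicit false

noncomputable section

namespace Pool.Agent.Lib.MP5e

open Polynomial Topology

theorem L1l_eq_of_subset (p : ℤ[X]) (s : Finset ℕ) (h : p.support ⊆ s) :
    L1 p = ∑ k ∈ s, (p.coeff k).natAbs := by
  unfold L1
  refine Finset.sum_subset h fun k _ hk => ?_
  rw [Polynomial.notMem_support_iff.1 hk]
  rfl

theorem L1l_eq_range (p : ℤ[X]) (m : ℕ) (h : p.natDegree ≤ m) :
    L1 p = ∑ k ∈ Finset.range (m + 1), (p.coeff k).natAbs := by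
  refine L1l_eq_of_subset p _ fun k hk => ?_
  rw [Finset.mem_range]
  have := Polynomial.le_natDegree_of_mem_supp k hk
  omega

theorem L1_zero : L1 0 = 0 := by simp [L1]

theorem L1_add (p q : ℤ[X]) : L1 (p + q) ≤ L1 p + L1 q := by
  rw [L1l_eq_of_subset (p + q) (p.support ∪ q.support) Polynomial.support_add,
    L1l_eq_of_subset p (p.support ∪ q.support) Finset.subset_union_left,
    L1l_eq_of_subset q (p.support ∪ q.support) Finset.subset_union_right,
    ← Finset.sum_add_distrib]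
  refine Finset.sum_le_sum fun k _ => ?_
  rw [Polynomial.coeff_add]
  exact Int.natAbs_add_le _ _

theorem L1_neg (p : ℤ[X]) : L1 (-p) = L1 p := by
  unfold L1
  rw [Polynomial.support_neg]
  refine Finset.sum_congr rfl fun k _ => ?_
  rw [Polynomial.coeff_neg, Int.natAbs_neg]

theorem L1_sub (p q : ℤ[X]) : L1 (p - q) ≤ L1 p + L1 q := by
  rw [sub_eq_add_neg]
  refine (L1_add _ _).trans ?_
  rw [L1_neg]

theorem L1_X_mul (p : ℤ[X]) : L1 (X * p) ≤ L1 p := by
  have h1 : (X * p).natDegree ≤ p.natDegree + 1 := by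
    refine Polynomial.natDegree_mul_le.trans ?_
    rw [Polynomial.natDegree_X]; omega
  rw [L1l_eq_range (X * p) (p.natDegree + 1) h1, L1l_eq_range p p.natDegree le_rfl,
    Finset.sum_range_succ']
  simp [Polynomial.coeff_X_mul]

theorem L1_C_mul (a : ℤ) (p : ℤ[X]) : L1 (C a * p) ≤ a.natAbs * L1 p := by
  have h1 : (C a * p).support ⊆ p.support := by
    intro k hk
    rw [Polynomial.mem_support_iff, Polynomial.coeff_C_mul] at hk
    rw [Polynomial.mem_support_iff]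
    exact right_ne_zero_of_mul hk
  rw [L1l_eq_of_subset _ _ h1]
  unfold L1
  rw [Finset.mul_sum]
  refine Finset.sum_le_sum fun k _ => ?_
  rw [Polynomial.coeff_C_mul, Int.natAbs_mul]

theorem L1_sum {ι : Type*} (s : Finset ι) (f : ι → ℤ[X]) :
    L1 (∑ i ∈ s, f i) ≤ ∑ i ∈ s, L1 (f i) := by
  classical
  induction s using Finset.induction_on with
  | empty => simp [L1_zero]
  | insert i s hi ih =>
    rw [Finset.sum_insert hi, Finset.sum_insert hi]
    exact (L1_add _ _).trans (Nat.add_le_add_left ih _)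

theorem norm_aeval_le (p : ℤ[X]) (z : ℂ) (m : ℕ) (hm : p.natDegree ≤ m) (ρ : ℝ) (h1 : 1 ≤ ρ)
    (hz : ‖z‖ ≤ ρ) : ‖aeval z p‖ ≤ L1 p * ρ ^ m := by
  rw [Polynomial.aeval_eq_sum_range' (Nat.lt_succ_of_le hm) z, L1l_eq_range p m hm]
  push_cast
  rw [Finset.sum_mul]
  refine (norm_sum_le _ _).trans (Finset.sum_le_sum fun k hk => ?_)
  have hk' : k ≤ m := by have := Finset.mem_range.1 hk; omega
  rw [zsmul_eq_mul, norm_mul, norm_pow, Complex.norm_intCast]
  have h2 : ‖z‖ ^ k ≤ ρ ^ m :=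
    (pow_le_pow_left₀ (norm_nonneg _) hz k).trans (pow_le_pow_right₀ h1 hk')
  have h3 : (((p.coeff k).natAbs : ℕ) : ℝ) = |((p.coeff k : ℤ) : ℝ)| := by
    rw [Nat.cast_natAbs]; push_cast; rfl
  rw [h3]
  exact mul_le_mul_of_nonneg_left h2 (abs_nonneg _)

theorem norm_aeval_sub_le (p : ℤ[X]) (z z' : ℂ) (m : ℕ) (hm : p.natDegree ≤ m) (ρ : ℝ)
    (h1 : 1 ≤ ρ) (hz : ‖z‖ ≤ ρ) (hz' : ‖z'‖ ≤ ρ) :
    ‖aeval z p - aeval z' p‖ ≤ L1 p * (m * ρ ^ m) * ‖z - z'‖ := by
  rw [Polynomial.aeval_eq_sum_range' (Nat.lt_succ_of_le hm) z,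
    Polynomial.aeval_eq_sum_range' (Nat.lt_succ_of_le hm) z', L1l_eq_range p m hm,
    ← Finset.sum_sub_distrib]
  push_cast
  rw [Finset.sum_mul, Finset.sum_mul]
  refine (norm_sum_le _ _).trans (Finset.sum_le_sum fun k hk => ?_)
  have hk' : k ≤ m := by have := Finset.mem_range.1 hk; omega
  rw [← smul_sub, zsmul_eq_mul, norm_mul, Complex.norm_intCast]
  have h2 : ‖z ^ k - z' ^ k‖ ≤ (m * ρ ^ m) * ‖z - z'‖ := by
    rw [← geom_sum₂_mul, norm_mul]
    refine mul_le_mul_of_nonneg_right ?_ (norm_nonneg _)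
    calc ‖∑ i ∈ Finset.range k, z ^ i * z' ^ (k - 1 - i)‖
        ≤ ∑ i ∈ Finset.range k, ρ ^ m := by
          refine (norm_sum_le _ _).trans (Finset.sum_le_sum fun i hi => ?_)
          have hi' := Finset.mem_range.1 hi
          rw [norm_mul, norm_pow, norm_pow]
          calc ‖z‖ ^ i * ‖z'‖ ^ (k - 1 - i) ≤ ρ ^ i * ρ ^ (k - 1 - i) :=
                mul_le_mul (pow_le_pow_left₀ (norm_nonneg _) hz _)
                  (pow_le_pow_left₀ (norm_nonneg _) hz' _) (by positivity) (by positivity)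
            _ = ρ ^ (i + (k - 1 - i)) := (pow_add _ _ _).symm
            _ ≤ ρ ^ m := pow_le_pow_right₀ h1 (by omega)
      _ = k * ρ ^ m := by rw [Finset.sum_const, Finset.card_range, nsmul_eq_mul]
      _ ≤ m * ρ ^ m := by
          refine mul_le_mul_of_nonneg_right ?_ (by positivity)
          exact_mod_cast hk'
  have h3 : (((p.coeff k).natAbs : ℕ) : ℝ) = |((p.coeff k : ℤ) : ℝ)| := by
    rw [Nat.cast_natAbs]; push_cast; rfl
  rw [mul_assoc]
  rw [h3]
  exact mul_le_mul_of_nonneg_left h2 (abs_nonneg _)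

end Pool.Agent.Lib.MP5e
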