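import Pool.Agent.Lib.MP_5e64e7_nt.Fser

set_option autoImplicit false

noncomputable section

namespace Pool.Agent.Lib.MP5e

open Polynomial Topology Filter

private lemma Liouv_rr_ofReal : ((rr : ℝ) : ℂ) = Complex.exp (-2 * (Real.pi : ℂ)) := by
  simp [rr, Complex.ofReal_exp]

private lemma Liouv_rr_zpow (k : ℤ) :
    (rr : ℂ) ^ k = Complex.exp (-2 * (Real.pi : ℂ) * k) := by
  rw [Liouv_rr_ofReal, ← Complex.exp_int_mul]
  ring_nf

theorem exp_mem_good (s : ℂ) : Complex.exp s ∈ good ↔ s ∉ LP.lattice := by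
  rw [good, Set.mem_ofPred_eq, PeriodPair.mem_lattice]
  constructor
  · rintro ⟨-, h⟩ ⟨m, n, e⟩
    apply h (-m)
    rw [Liouv_rr_zpow, ← e, Complex.exp_eq_exp_iff_exists_int]
    refine ⟨n, ?_⟩
    simp [LP]
    ring
  · intro h
    refine ⟨Complex.exp_ne_zero _, fun k hk => h ?_⟩
    rw [Liouv_rr_zpow, Complex.exp_eq_exp_iff_exists_int] at hk
    obtain ⟨n, hn⟩ := hk
    refine ⟨-k, n, ?_⟩
    rw [hn]
    simp [LP]
    ring

private def LvA (s : ℂ) : ℂ := (Complex.exp s - (1 + s + s ^ 2 / 2 + s ^ 3 / 6)) / s ^ 3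

private lemma LvA_lim : Tendsto LvA (𝓝[≠] 0) (𝓝 0) := by
  have h : ∀ᶠ s in 𝓝[≠] (0 : ℂ), ‖LvA s‖ ≤ ‖s‖ := by
    filter_upwards [nhdsWithin_le_nhds (Metric.ball_mem_nhds (0 : ℂ) one_pos),
      self_mem_nhdsWithin] with s hs hs0
    have hs0' : s ≠ 0 := hs0
    have h1 : ‖s‖ ≤ 1 := (mem_ball_zero_iff.mp hs).le
    have h2 := Complex.exp_bound h1 (n := 4) (by norm_num)
    have h3 : ∑ m ∈ Finset.range 4, s ^ m / (m.factorial : ℂ) = 1 + s + s ^ 2 / 2 + s ^ 3 / 6 := by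
      simp [Finset.sum_range_succ, Nat.factorial]
    rw [h3] at h2
    have h4 : ‖s‖ ^ 4 * (((4 : ℕ).succ : ℝ) * (((4 : ℕ).factorial : ℝ) * ((4 : ℕ) : ℝ))⁻¹)
        ≤ ‖s‖ ^ 4 := by
      have : (((4 : ℕ).succ : ℝ) * (((4 : ℕ).factorial : ℝ) * ((4 : ℕ) : ℝ))⁻¹) ≤ 1 := by
        norm_num [Nat.factorial]
      nlinarith [pow_nonneg (norm_nonneg s) 4]
    rw [LvA, norm_div, norm_pow, div_le_iff₀ (by positivity)]
    calc _ ≤ ‖s‖ ^ 4 := h2.trans h4
      _ = ‖s‖ * ‖s‖ ^ 3 := by ring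
  refine squeeze_zero_norm' h ?_
  have : Tendsto (fun s : ℂ => ‖s‖) (𝓝 0) (𝓝 0) := by
    simpa using (continuous_norm (E := ℂ)).tendsto 0
  exact this.mono_left nhdsWithin_le_nhds

private lemma Lv_lim : Tendsto (fun s : ℂ => Complex.exp s / (1 - Complex.exp s) ^ 2 - 1 / s ^ 2)
    (𝓝[≠] 0) (𝓝 (-1 / 12)) := by
  have hid : Tendsto (fun s : ℂ => s) (𝓝[≠] 0) (𝓝 0) := tendsto_id.mono_left nhdsWithin_le_nhds
  have hA := LvA_lim
  have hE : Tendsto (fun s : ℂ => 1 + s / 2 + s ^ 2 / 6 + s ^ 2 * LvA s) (𝓝[≠] 0) (𝓝 1) := by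
    have := (((tendsto_const_nhds (x := (1 : ℂ))).add (hid.div_const 2)).add
      ((hid.pow 2).div_const 6)).add ((hid.pow 2).mul hA)
    simpa using this
  have hR : Tendsto (fun s : ℂ => -1 / 12 + s / 6 + s * LvA s - 2 * LvA s
      - s * (1 / 6 + LvA s) - s ^ 2 * (1 / 6 + LvA s) ^ 2) (𝓝[≠] 0) (𝓝 (-1 / 12)) := by
    have h1 := ((((tendsto_const_nhds (x := (-1 / 12 : ℂ))).add (hid.div_const 6)).add
      (hid.mul hA)).sub (hA.const_mul 2)).sub (hid.mul (hA.const_add (1 / 6)))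
    have h2 := h1.sub ((hid.pow 2).mul ((hA.const_add (1 / 6)).pow 2))
    simpa using h2
  have hQ := hR.div (hE.pow 2) (by norm_num)
  have e1 : (-1 / 12 : ℂ) / 1 ^ 2 = -1 / 12 := by norm_num
  rw [e1] at hQ
  refine hQ.congr' ?_
  filter_upwards [hE.eventually_ne one_ne_zero, self_mem_nhdsWithin] with s hs hs0
  have hs0' : s ≠ 0 := hs0
  have he : Complex.exp s = 1 + s + s ^ 2 / 2 + s ^ 3 / 6 + s ^ 3 * LvA s := by
    rw [LvA]
    field_simp
    ring
  simp only [Pi.div_apply]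
  rw [he]
  have h1 : (1 - (1 + s + s ^ 2 / 2 + s ^ 3 / 6 + s ^ 3 * LvA s)) ^ 2
      = s ^ 2 * (1 + s / 2 + s ^ 2 / 6 + s ^ 2 * LvA s) ^ 2 := by ring
  have h4 : 1 + s + s ^ 2 / 2 + s ^ 3 / 6 + s ^ 3 * LvA s =
      (1 + s / 2 + s ^ 2 / 6 + s ^ 2 * LvA s) ^ 2 + s ^ 2 * (-1 / 12 + s / 6 + s * LvA s
      - 2 * LvA s - s * (1 / 6 + LvA s) - s ^ 2 * (1 / 6 + LvA s) ^ 2) := by ring
  rw [h1, h4]
  have h2 : (1 + s / 2 + s ^ 2 / 6 + s ^ 2 * LvA s) ≠ 0 := hs
  generalize (1 + s / 2 + s ^ 2 / 6 + s ^ 2 * LvA s) = E at h2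
  generalize (-1 / 12 + s / 6 + s * LvA s
      - 2 * LvA s - s * (1 / 6 + LvA s) - s ^ 2 * (1 / 6 + LvA s) ^ 2) = R
  field_simp
  ring

private def LvT (w : ℂ) : ℂ := ∑' k : ℕ,
  (w * (rr : ℂ) ^ (k + 1) / (1 - w * (rr : ℂ) ^ (k + 1)) ^ 2 +
    w⁻¹ * (rr : ℂ) ^ (k + 1) / (1 - w⁻¹ * (rr : ℂ) ^ (k + 1)) ^ 2)

private lemma Lv_norm_rr : ‖(rr : ℂ)‖ = rr := by
  rw [Complex.norm_real, Real.norm_eq_abs, abs_of_pos rr_pos]

private lemma Lv_rr_pow_le (k : ℕ) : rr ^ (k + 1) ≤ 1 / 500 := by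
  have h1 := rr_pos
  have h2 := rr_lt
  calc rr ^ (k + 1) = rr ^ k * rr := by ring
    _ ≤ 1 * rr := by
      apply mul_le_mul_of_nonneg_right _ h1.le
      exact pow_le_one₀ h1.le (by linarith)
    _ ≤ 1 / 500 := by linarith

private lemma Lv_term (x : ℂ) (hx : ‖x‖ ≤ 2) (k : ℕ) :
    1 - x * (rr : ℂ) ^ (k + 1) ≠ 0 ∧
    ‖x * (rr : ℂ) ^ (k + 1) / (1 - x * (rr : ℂ) ^ (k + 1)) ^ 2‖ ≤ 8 * rr ^ (k + 1) := by
  have h1 : ‖x * (rr : ℂ) ^ (k + 1)‖ ≤ 2 * rr ^ (k + 1) := by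
    rw [norm_mul, norm_pow, Lv_norm_rr]
    exact mul_le_mul_of_nonneg_right hx (pow_nonneg rr_pos.le _)
  have h2 := Lv_rr_pow_le k
  have h3 : (1 / 2 : ℝ) ≤ ‖1 - x * (rr : ℂ) ^ (k + 1)‖ := by
    have := norm_sub_norm_le (1 : ℂ) (x * (rr : ℂ) ^ (k + 1))
    rw [norm_one] at this
    linarith
  refine ⟨fun h => ?_, ?_⟩
  · rw [h, norm_zero] at h3
    linarith
  · rw [norm_div, norm_pow, div_le_iff₀ (by positivity)]
    have h4 : (1 / 4 : ℝ) ≤ ‖1 - x * (rr : ℂ) ^ (k + 1)‖ ^ 2 := by nlinarith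
    have h5 : 0 ≤ rr ^ (k + 1) := pow_nonneg rr_pos.le _
    nlinarith

private lemma LvT_cont : ContinuousAt LvT 1 := by
  have hball : Metric.closedBall (1 : ℂ) (1 / 2) ∈ 𝓝 (1 : ℂ) :=
    Metric.closedBall_mem_nhds _ (by norm_num)
  have hnorm : ∀ w ∈ Metric.closedBall (1 : ℂ) (1 / 2), ‖w‖ ≤ 2 ∧ ‖w⁻¹‖ ≤ 2 ∧ w ≠ 0 := by
    intro w hw
    rw [mem_closedBall_iff_norm] at hw
    have h1 : ‖w‖ ≤ ‖w - 1‖ + ‖(1 : ℂ)‖ := by
      simpa using norm_add_le (w - 1) 1
    have h2 : ‖(1 : ℂ)‖ ≤ ‖w‖ + ‖w - 1‖ := by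
      have := norm_sub_le w (w - 1)
      simpa using this
    rw [norm_one] at h1 h2
    have h3 : (1 / 2 : ℝ) ≤ ‖w‖ := by linarith
    refine ⟨by linarith, ?_, ?_⟩
    · rw [norm_inv]
      rw [inv_le_comm₀ (by linarith) (by norm_num)]
      linarith
    · intro h
      rw [h, norm_zero] at h3
      linarith
  have : ContinuousOn LvT (Metric.closedBall (1 : ℂ) (1 / 2)) := by
    refine continuousOn_tsum (u := fun k => 16 * rr ^ (k + 1)) ?_ ?_ ?_
    · intro k w hw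
      obtain ⟨h1, h2, h3⟩ := hnorm w hw
      have t1 := (Lv_term w h1 k).1
      have t2 := (Lv_term w⁻¹ h2 k).1
      apply ContinuousAt.continuousWithinAt
      apply ContinuousAt.add
      · exact ContinuousAt.div (by fun_prop) (by fun_prop) (pow_ne_zero _ t1)
      · exact ContinuousAt.div ((continuousAt_inv₀ h3).mul continuousAt_const)
          ((continuousAt_const.sub ((continuousAt_inv₀ h3).mul continuousAt_const)).pow 2)
          (pow_ne_zero _ t2)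
    · have : Summable (fun k : ℕ => rr ^ (k + 1)) := by
        simp_rw [pow_succ]
        exact (summable_geometric_of_lt_one rr_pos.le (by linarith [rr_lt])).mul_right _
      exact this.mul_left 16
    · intro k w hw
      obtain ⟨h1, h2, h3⟩ := hnorm w hw
      have t1 := (Lv_term w h1 k).2
      have t2 := (Lv_term w⁻¹ h2 k).2
      calc _ ≤ _ := norm_add_le _ _
        _ ≤ 8 * rr ^ (k + 1) + 8 * rr ^ (k + 1) := add_le_add t1 t2
        _ = 16 * rr ^ (k + 1) := by ring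
  exact this.continuousAt hball

private lemma LvT_one : LvT 1 = 2 * ∑' m : ℕ,
    (((ArithmeticFunction.sigma 1) (m + 1) : ℕ) : ℂ) * (rr : ℂ) ^ (m + 1) := by
  have hr : ‖(rr : ℂ)‖ < 1 := by
    rw [Lv_norm_rr]
    linarith [rr_lt]
  have h1 := tsum_prod_pow_eq_tsum_sigma 1 hr
  have h2 : ∀ d : ℕ+, ∑' c : ℕ+, ((c : ℕ) : ℂ) ^ 1 * (rr : ℂ) ^ ((d : ℕ) * (c : ℕ)) =
      (rr : ℂ) ^ (d : ℕ) / (1 - (rr : ℂ) ^ (d : ℕ)) ^ 2 := by
    intro d
    have hd : ‖(rr : ℂ) ^ (d : ℕ)‖ < 1 := by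
      rw [norm_pow]
      exact pow_lt_one₀ (norm_nonneg _) hr d.ne_zero
    rw [← tsum_coe_mul_geometric_of_norm_lt_one hd]
    have hs : Summable (fun n : ℕ => ((n : ℕ) : ℂ) * ((rr : ℂ) ^ (d : ℕ)) ^ n) :=
      (hasSum_coe_mul_geometric_of_norm_lt_one hd).summable
    rw [tsum_pnat_eq_tsum_succ (f := fun n : ℕ => ((n : ℕ) : ℂ) ^ 1 * (rr : ℂ) ^ ((d : ℕ) * n)),
      hs.tsum_eq_zero_add]
    simp [pow_mul]
  rw [tsum_congr h2] at h1
  rw [tsum_pnat_eq_tsum_succ (f := fun n : ℕ => (rr : ℂ) ^ n / (1 - (rr : ℂ) ^ n) ^ 2),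
    tsum_pnat_eq_tsum_succ (f := fun n : ℕ =>
      (((ArithmeticFunction.sigma 1) n : ℕ) : ℂ) * (rr : ℂ) ^ n)] at h1
  rw [← h1, LvT, ← tsum_mul_left]
  refine tsum_congr fun k => ?_
  simp only [inv_one, one_mul]
  ring

private lemma Lv_q : Complex.exp (2 * (Real.pi : ℂ) * Complex.I * Complex.I) = (rr : ℂ) := by
  rw [Liouv_rr_ofReal, mul_assoc, Complex.I_mul_I]
  congr 1
  ring

private lemma Lv_val : (-1 / 12 : ℂ) + LvT 1 = -(E2f Complex.I) / 12 := by
  rw [LvT_one, E2f, Lv_q]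
  ring

open Classical in
private def LvR (s : ℂ) : ℂ :=
  if s ∈ LP.lattice then -(E2f Complex.I) / 12 else ff (Complex.exp s) - LP.weierstrassP s

private lemma LvR_diff {s : ℂ} (hs : s ∉ LP.lattice) : DifferentiableAt ℂ LvR s := by
  have h1 : DifferentiableAt ℂ (fun z => ff (Complex.exp z) - LP.weierstrassP z) s := by
    have hg : Complex.exp s ∈ good := (exp_mem_good s).2 hs
    have h2 := (ff_differentiableAt hg).comp s Complex.differentiable_exp.differentiableAt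
    exact h2.sub (LP.analyticOnNhd_weierstrassP s hs).differentiableAt
  refine h1.congr_of_eventuallyEq ?_
  filter_upwards [LP.isClosed_lattice.isOpen_compl.mem_nhds hs] with z hz
  have hz' : z ∉ LP.lattice := hz
  rw [LvR, if_neg hz']

private lemma LvR_cont : ContinuousAt LvR 0 := by
  rw [continuousAt_iff_punctured_nhds]
  have h0 : LvR 0 = -(E2f Complex.I) / 12 := by
    rw [LvR, if_pos (zero_mem _)]
  rw [h0, ← Lv_val]
  have hT : Tendsto (fun s : ℂ => LvT (Complex.exp s)) (𝓝[≠] 0) (𝓝 (LvT 1)) := by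
    have h1 : ContinuousAt (fun s : ℂ => LvT (Complex.exp s)) 0 := by
      apply ContinuousAt.comp (g := LvT) (f := Complex.exp)
      · rw [Complex.exp_zero]
        exact LvT_cont
      · exact Complex.continuous_exp.continuousAt
    have h2 : Tendsto (fun s : ℂ => LvT (Complex.exp s)) (𝓝 0) (𝓝 (LvT (Complex.exp 0))) := h1
    rw [Complex.exp_zero] at h2
    exact h2.mono_left nhdsWithin_le_nhds
  have hP : Tendsto (fun s : ℂ => LP.weierstrassPExcept 0 s) (𝓝[≠] 0) (𝓝 0) := by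
    have h1 := (LP.analyticAt_weierstrassPExcept 0).continuousAt
    have h2 : Tendsto (fun s : ℂ => LP.weierstrassPExcept 0 s) (𝓝 0)
      (𝓝 (LP.weierstrassPExcept 0 0)) := h1
    rw [LP.weierstrassPExcept_zero] at h2
    exact h2.mono_left nhdsWithin_le_nhds
  have hA := (Lv_lim.add hT).sub hP
  rw [sub_zero] at hA
  refine hA.congr' ?_
  filter_upwards [nhdsWithin_le_nhds (LP.compl_lattice_sdiff_singleton_mem_nhds 0),
    self_mem_nhdsWithin] with s hs hs0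
  have hs0' : s ≠ 0 := hs0
  have hs1 : s ∉ LP.lattice := fun h => hs ⟨h, hs0'⟩
  rw [LvR, if_neg hs1]
  have h1 := LP.weierstrassPExcept_def (0 : LP.lattice) s
  simp only [ZeroMemClass.coe_zero, sub_zero] at h1
  rw [h1]
  have h2 : ff (Complex.exp s) = Complex.exp s / (1 - Complex.exp s) ^ 2 + LvT (Complex.exp s) :=
    rfl
  rw [h2]
  simp
  ring

private lemma LvR_analytic_zero : AnalyticAt ℂ LvR 0 := by
  refine Complex.analyticAt_of_differentiable_on_punctured_nhds_of_continuousAt ?_ LvR_cont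
  filter_upwards [nhdsWithin_le_nhds (LP.compl_lattice_sdiff_singleton_mem_nhds 0),
    self_mem_nhdsWithin] with s hs hs0
  have hs0' : s ≠ 0 := hs0
  exact LvR_diff fun h => hs ⟨h, hs0'⟩

private lemma LvR_add (s l : ℂ) (hl : l ∈ LP.lattice) : LvR (s + l) = LvR s := by
  let G : AddSubgroup ℂ :=
    { carrier := { z | ∀ s, LvR (s + z) = LvR s }
      add_mem' := by
        intro a b ha hb s
        rw [← add_assoc, hb, ha]
      zero_mem' := by simp
      neg_mem' := by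
        intro z hz s
        rw [← hz (s + -z)]
        simp }
  have key : ∀ z ∈ LP.lattice, (∀ s, s ∉ LP.lattice → ff (Complex.exp (s + z)) =
      ff (Complex.exp s)) → z ∈ G := by
    intro z hz h s
    by_cases hs : s ∈ LP.lattice
    · have : s + z ∈ LP.lattice := add_mem hs hz
      rw [LvR, LvR, if_pos hs, if_pos this]
    · have : s + z ∉ LP.lattice := fun h' => hs (by simpa using sub_mem h' hz)
      rw [LvR, LvR, if_neg hs, if_neg this, h s hs]
      have := LP.weierstrassP_add_coe s ⟨z, hz⟩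
      simp only at this
      rw [this]
  have : LP.lattice ≤ AddSubgroup.toIntSubmodule G := by
    rw [PeriodPair.lattice, Submodule.span_le]
    rintro _ (rfl | rfl)
    · apply key _ LP.ω₁_mem_lattice
      intro s hs
      have h1 : s + LP.ω₁ ∉ LP.lattice :=
        fun h' => hs (by simpa using sub_mem h' LP.ω₁_mem_lattice)
      rw [← ff_rr ((exp_mem_good _).2 h1), Liouv_rr_ofReal, ← Complex.exp_add]
      congr 2
      simp [LP]
    · apply key _ LP.ω₂_mem_lattice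
      intro s hs
      congr 1
      rw [Complex.exp_eq_exp_iff_exists_int]
      exact ⟨1, by simp [LP]⟩
  exact this hl s

private lemma LvR_differentiable : Differentiable ℂ LvR := by
  intro s
  by_cases hs : s ∈ LP.lattice
  · have h0 : DifferentiableAt ℂ LvR (s - s) := by
      rw [sub_self]
      exact LvR_analytic_zero.differentiableAt
    have h1 : DifferentiableAt ℂ (fun z => LvR (z - s)) s :=
      DifferentiableAt.comp (g := LvR) (f := fun z => z - s) s h0 (by fun_prop)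
    have h2 : (fun z => LvR (z - s)) = LvR := by
      funext z
      have := LvR_add (z - s) s hs
      rw [← this]
      simp
    rwa [h2] at h1
  · exact LvR_diff hs

private lemma LvR_const (s : ℂ) : LvR s = LvR 0 := by
  have hd := LvR_differentiable
  exact hd.apply_eq_apply_of_bounded (IsZLattice.isCompact_range_of_periodic LP.lattice _
    hd.continuous fun z w hw => LvR_add z w hw).isBounded s 0

theorem ff_eq_wp (s : ℂ) (hs : s ∉ LP.lattice) :
    ff (Complex.exp s) = LP.weierstrassP s - E2f Complex.I / 12 := by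
  have h1 := LvR_const s
  rw [LvR, LvR, if_neg hs, if_pos (zero_mem _)] at h1
  linear_combination h1

end Pool.Agent.Lib.MP5e
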