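import Pool.Agent.Lib.MP_5e64e7_nt.Approx
import Pool.Agent.Lib.MP_5e64e7_nt.FuncB

set_option autoImplicit false

noncomputable section

namespace Pool.Agent.Lib.MP5e

open Polynomial Topology

/-- `ϑ` is transcendental -/
private theorem Main_th : Transcendental ℤ (th : ℂ) := by
  obtain ⟨A, hA⟩ := th_measure
  rintro ⟨N, hN0, hN1⟩
  have h1 := hA (max 1 N.natDegree) (2 + N.support.sup (fun k => (N.coeff k).natAbs))
    (le_max_left _ _) (by omega) N hN0 (le_max_right _ _) ?_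
  · rw [hN1, norm_zero] at h1
    exact absurd h1 (not_le.mpr (Real.exp_pos _))
  · intro k
    by_cases hk : k ∈ N.support
    · have h2 : (N.coeff k).natAbs ≤ N.support.sup (fun k => (N.coeff k).natAbs) :=
        Finset.le_sup (f := fun k => (N.coeff k).natAbs) hk
      rw [Int.abs_eq_natAbs]
      exact_mod_cast (by omega : (N.coeff k).natAbs ≤
        2 + N.support.sup (fun k => (N.coeff k).natAbs))
    · rw [Polynomial.mem_support_iff, not_not] at hk
      rw [hk, abs_zero]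
      positivity

/-- consequences of the chain of approximations -/
private theorem Main_chain {n : ℕ} {C : ℕ} (hC : 1 ≤ C) {z τ : Fin (n + 1) → ℂ}
    (h0 : ‖z 0 - τ 0‖ ≤ 1)
    (h : ∀ l m : Fin (n + 1), (m : ℕ) = (l : ℕ) + 1 → ‖z m - τ m‖ ≤ ‖z l - τ l‖ ^ C) :
    (∀ l, ‖z l - τ l‖ ≤ ‖z 0 - τ 0‖) ∧
      ∀ l : Fin n, ‖z l.succ - τ l.succ‖ ≤ ‖z 0 - τ 0‖ ^ C := by
  have h1 : ∀ l, ‖z l - τ l‖ ≤ ‖z 0 - τ 0‖ := by
    intro l
    induction l using Fin.induction with
    | zero => exact le_rfl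
    | succ l ih =>
      refine (h l.castSucc l.succ (by simp)).trans ?_
      refine (pow_le_of_le_one (norm_nonneg _) (ih.trans h0) (by omega)).trans ih
  refine ⟨h1, fun l => ?_⟩
  refine (h l.castSucc l.succ (by simp)).trans ?_
  exact pow_le_pow_left₀ (norm_nonneg _) (h1 _) C

private theorem Main_exp {B C D : ℕ} (hB : 2 ≤ B) (h : D ≤ C) :
    Real.exp (-((B : ℝ) ^ C)) ≤ Real.exp (-((B : ℝ) ^ D)) := by
  apply Real.exp_le_exp.mpr
  apply neg_le_neg
  have : (1 : ℝ) ≤ B := by exact_mod_cast (by omega : 1 ≤ B)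
  exact pow_le_pow_right₀ this h

private theorem Main_exp_one {B C : ℕ} : Real.exp (-((B : ℝ) ^ C)) ≤ 1 := by
  rw [Real.exp_le_one_iff]
  have : (0 : ℝ) ≤ (B : ℝ) ^ C := by positivity
  linarith

/-- the tail of a good tuple is good -/
private theorem Main_tail {n : ℕ} {z : Fin (n + 1) → ℂ} (hN : ∀ C : ℕ, Near C z) (C : ℕ) :
    Near C (fun l : Fin n => z l.succ) := by
  obtain ⟨B, e, g, hB, hdet, hbd, hne, hfirst, hch⟩ := hN (C + 1)
  have h0 : ‖z 0 - tau (g 0)‖ ≤ Real.exp (-((B : ℝ) ^ (C + 1))) := hfirst 0 rfl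
  have h01 : ‖z 0 - tau (g 0)‖ ≤ 1 := h0.trans Main_exp_one
  obtain ⟨hle, hle2⟩ := Main_chain (τ := fun l => tau (g l)) (by omega) h01 hch
  refine ⟨B, fun l => e l.succ, fun l => g l.succ, hB, fun l => hdet _, fun l => hbd _,
    fun l => hne _, ?_, ?_⟩
  · intro l _
    exact ((hle l.succ).trans h0).trans (Main_exp hB (by omega))
  · intro l m hlm
    refine (hch l.succ m.succ (by simp [hlm])).trans ?_
    refine pow_le_pow_of_le_one (norm_nonneg _) ((hle _).trans h01) (by omega)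

/-- separation of the variables belonging to `z 0` -/
private def MainE (n : ℕ) : Option (Fin (n + 1) × Fin 4) → Fin 4 ⊕ Option (Fin n × Fin 4)
  | none => Sum.inr none
  | some (l, k) => Fin.cases (Sum.inl k) (fun i => Sum.inr (some (i, k))) l

private theorem MainE_inj (n : ℕ) : Function.Injective (MainE n) := by
  rintro (_ | ⟨l, k⟩) (_ | ⟨l', k'⟩) h
  · rfl
  · exfalso
    refine Fin.cases ?_ (fun i => ?_) l' h
    · intro h; exact absurd h (by simp [MainE])
    · intro h; exact absurd h (by simp [MainE])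
  · exfalso
    refine Fin.cases ?_ (fun i => ?_) l h
    · intro h; exact absurd h (by simp [MainE])
    · intro h; exact absurd h (by simp [MainE])
  · revert h
    refine Fin.cases ?_ (fun i => ?_) l <;> refine Fin.cases ?_ (fun j => ?_) l' <;> intro h
    · have h1 : (Sum.inl k : Fin 4 ⊕ Option (Fin n × Fin 4)) = Sum.inl k' := h
      rw [Sum.inl.injEq] at h1
      rw [h1]
    · have h1 : (Sum.inl k : Fin 4 ⊕ Option (Fin n × Fin 4)) = Sum.inr (some (j, k')) := h
      exact absurd h1 (by simp)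
    · have h1 : (Sum.inr (some (i, k)) : Fin 4 ⊕ Option (Fin n × Fin 4)) = Sum.inl k' := h
      exact absurd h1 (by simp)
    · have h1 : (Sum.inr (some (i, k)) : Fin 4 ⊕ Option (Fin n × Fin 4)) =
        Sum.inr (some (j, k')) := h
      rw [Sum.inr.injEq, Option.some.injEq, Prod.mk.injEq] at h1
      rw [h1.1, h1.2]

/-- the polynomial in the four variables of `z 0`, the other variables being specialised -/
private def MainG {n : ℕ} (z' : Fin n → ℂ) (P : MvPolynomial (Option (Fin (n + 1) × Fin 4)) ℤ) :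
    MvPolynomial (Fin 4) ℂ :=
  MvPolynomial.map (MvPolynomial.aeval (R := ℤ) (fam z')).toRingHom
    (MvPolynomial.sumRingEquiv ℤ (Fin 4) (Option (Fin n × Fin 4))
      (MvPolynomial.rename (MainE n) P))

private theorem MainG_ne {n : ℕ} (z' : Fin n → ℂ) (hz' : AlgebraicIndependent ℤ (fam z'))
    (P : MvPolynomial (Option (Fin (n + 1) × Fin 4)) ℤ) (hP : P ≠ 0) : MainG z' P ≠ 0 := by
  intro h
  apply hP
  have h1 : Function.Injective (MvPolynomial.map (σ := Fin 4)
      (MvPolynomial.aeval (R := ℤ) (fam z')).toRingHom) :=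
    MvPolynomial.map_injective _ (algebraicIndependent_iff_injective_aeval.mp hz')
  unfold MainG at h
  rw [map_eq_zero_iff _ h1, map_eq_zero_iff _ (RingEquiv.injective _),
    map_eq_zero_iff _ (MvPolynomial.rename_injective _ (MainE_inj n))] at h
  exact h

private theorem MainG_eval {n : ℕ} (z' : Fin n → ℂ) (w : ℂ)
    (P : MvPolynomial (Option (Fin (n + 1) × Fin 4)) ℤ) :
    MvPolynomial.eval (J4 w) (MainG z' P) =
      MvPolynomial.aeval (fam (Fin.cons w z' : Fin (n + 1) → ℂ)) P := by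
  unfold MainG
  induction P using MvPolynomial.induction_on with
  | C a =>
    simp
  | add p q hp hq =>
    simp only [map_add] at hp hq ⊢
    rw [hp, hq]
  | mul_X p i hp =>
    simp only [map_mul, MvPolynomial.rename_X] at hp ⊢
    rw [hp, MvPolynomial.aeval_X]
    congr 1
    rcases i with _ | ⟨l, k⟩
    · change MvPolynomial.eval (J4 w) (MvPolynomial.map _ (MvPolynomial.sumRingEquiv ℤ (Fin 4)
        (Option (Fin n × Fin 4)) (MvPolynomial.X (Sum.inr none)))) = _
      rw [MvPolynomial.sumRingEquiv_X_inr, MvPolynomial.map_C, MvPolynomial.eval_C]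
      change MvPolynomial.aeval (fam z') (MvPolynomial.X none) = _
      rw [MvPolynomial.aeval_X]
      rfl
    · refine Fin.cases ?_ (fun j => ?_) l
      · change MvPolynomial.eval (J4 w) (MvPolynomial.map _ (MvPolynomial.sumRingEquiv ℤ (Fin 4)
          (Option (Fin n × Fin 4)) (MvPolynomial.X (Sum.inl k)))) = _
        rw [MvPolynomial.sumRingEquiv_X_inl, MvPolynomial.map_X, MvPolynomial.eval_X]
        rfl
      · change MvPolynomial.eval (J4 w) (MvPolynomial.map _ (MvPolynomial.sumRingEquiv ℤ (Fin 4)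
          (Option (Fin n × Fin 4)) (MvPolynomial.X (Sum.inr (some (j, k)))))) = _
        rw [MvPolynomial.sumRingEquiv_X_inr, MvPolynomial.map_C, MvPolynomial.eval_C]
        change MvPolynomial.aeval (fam z') (MvPolynomial.X (some (j, k))) = _
        rw [MvPolynomial.aeval_X]
        rfl

private theorem Main_small (ε : ℝ) (hε : 0 < ε) (k : ℕ) :
    ∃ m : ℕ, k ≤ m ∧ Real.exp (-((2 : ℝ) ^ m)) < ε := by
  have h1 : Filter.Tendsto (fun m : ℕ => Real.exp (-((2 : ℝ) ^ m))) Filter.atTop (𝓝 0) := by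
    have h2 : Filter.Tendsto (fun m : ℕ => (2 : ℝ) ^ m) Filter.atTop Filter.atTop :=
      tendsto_pow_atTop_atTop_of_one_lt (by norm_num)
    exact Real.tendsto_exp_neg_atTop_nhds_zero.comp h2
  have h3 := (h1.eventually (gt_mem_nhds hε)).and (Filter.eventually_ge_atTop k)
  obtain ⟨m, hm1, hm2⟩ := h3.exists
  exact ⟨m, hm2, hm1⟩

private theorem Main_step (n : ℕ) (z : Fin (n + 1) → ℂ) (hz : ∀ l, 0 < (z l).im)
    (hN : ∀ C : ℕ, Near C z) (ih : AlgebraicIndependent ℤ (fam fun l : Fin n => z l.succ)) :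
    AlgebraicIndependent ℤ (fam z) := by
  rw [algebraicIndependent_iff]
  intro P hP0
  by_contra hP
  have hG := MainG_ne (fun l : Fin n => z l.succ) ih P hP
  obtain ⟨c0, k, δ0, hc0, hδ0, hlow⟩ := J_lower _ hG (z 0) (hz 0)
  obtain ⟨c1, δ1, hc1, hδ1, hlip⟩ := fam_lip (n + 1) P z hz
  obtain ⟨CP, hCP⟩ := approx (n + 1) P
  obtain ⟨m, hkm, hm⟩ := Main_small (min (min δ0 δ1) (min (c0 / c1) (1 / c1)))
    (by positivity) k
  have hmδ0 : Real.exp (-((2 : ℝ) ^ m)) < δ0 :=
    hm.trans_le ((min_le_left _ _).trans (min_le_left _ _))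
  have hmδ1 : Real.exp (-((2 : ℝ) ^ m)) < δ1 :=
    hm.trans_le ((min_le_left _ _).trans (min_le_right _ _))
  have hmc0 : Real.exp (-((2 : ℝ) ^ m)) < c0 / c1 :=
    hm.trans_le ((min_le_right _ _).trans (min_le_left _ _))
  have hmc1 : Real.exp (-((2 : ℝ) ^ m)) < 1 / c1 :=
    hm.trans_le ((min_le_right _ _).trans (min_le_right _ _))
  obtain ⟨B, e, g, hB, hdet, hbd, hne, hfirst, hch⟩ := hN (CP + 1 + m)
  set x : ℝ := ‖z 0 - tau (g 0)‖ with hx
  have hx0 : 0 < x := norm_pos_iff.mpr (sub_ne_zero.mpr (hne 0))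
  have hxB : x ≤ Real.exp (-((B : ℝ) ^ (CP + 1 + m))) := hfirst 0 rfl
  have hx1 : x ≤ 1 := hxB.trans Main_exp_one
  obtain ⟨hle, hle2⟩ := Main_chain (τ := fun l => tau (g l)) (by omega) hx1 hch
  -- the size of `x`
  have hB2 : (2 : ℝ) ≤ B := by exact_mod_cast hB
  have hpow : (B : ℝ) ^ CP + 2 ^ m ≤ (B : ℝ) ^ (CP + 1 + m) := by
    have h1 : (1 : ℝ) ≤ (B : ℝ) ^ CP := one_le_pow₀ (by linarith)
    have h2 : (1 : ℝ) ≤ 2 ^ m := one_le_pow₀ (by norm_num)
    have h3 : (2 : ℝ) ^ m ≤ (B : ℝ) ^ m := pow_le_pow_left₀ (by norm_num) hB2 m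
    have h4 : (B : ℝ) ^ (CP + 1 + m) = (B : ℝ) ^ CP * B * (B : ℝ) ^ m := by
      rw [pow_add, pow_add, pow_one]
    have h5 : (B : ℝ) ^ CP * 2 * 2 ^ m ≤ (B : ℝ) ^ CP * B * (B : ℝ) ^ m := by
      gcongr
    rw [h4]
    refine le_trans ?_ h5
    nlinarith [mul_le_mul_of_nonneg_left h2 (by linarith : (0 : ℝ) ≤ (B : ℝ) ^ CP),
      mul_le_mul_of_nonneg_right h1 (by linarith : (0 : ℝ) ≤ (2 : ℝ) ^ m)]
  have hx2 : x ≤ Real.exp (-((B : ℝ) ^ CP)) * Real.exp (-((2 : ℝ) ^ m)) := by
    rw [← Real.exp_add]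
    refine hxB.trans (Real.exp_le_exp.mpr ?_)
    linarith
  have hx3 : x ≤ Real.exp (-((2 : ℝ) ^ m)) := by
    refine hx2.trans ?_
    exact mul_le_of_le_one_left (Real.exp_pos _).le Main_exp_one
  -- step 1: `F(τ) = 0`
  have hτ : ∀ l, ‖tau (g l) - z l‖ < δ1 := by
    intro l
    rw [norm_sub_rev]
    exact ((hle l).trans hx3).trans_lt hmδ1
  have hzz : ∀ l, ‖z l - z l‖ < δ1 := by
    intro l
    rw [sub_self, norm_zero]
    exact hδ1
  have hF : MvPolynomial.aeval (fam fun l => tau (g l)) P = 0 := by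
    rcases hCP B e g hB hdet hbd with h | h
    · exact h
    · exfalso
      have h1 := hlip (fun l => tau (g l)) z hτ hzz x hx0.le (fun l => by
        rw [norm_sub_rev]
        exact hle l)
      rw [hP0, sub_zero] at h1
      have h2 : c1 * x < Real.exp (-((B : ℝ) ^ CP)) := by
        calc c1 * x ≤ c1 * (Real.exp (-((B : ℝ) ^ CP)) * Real.exp (-((2 : ℝ) ^ m))) :=
              mul_le_mul_of_nonneg_left hx2 hc1.le
          _ = Real.exp (-((B : ℝ) ^ CP)) * (c1 * Real.exp (-((2 : ℝ) ^ m))) := by ring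
          _ < Real.exp (-((B : ℝ) ^ CP)) * 1 := by
              apply mul_lt_mul_of_pos_left _ (Real.exp_pos _)
              rw [lt_div_iff₀ hc1] at hmc1
              linarith
          _ = _ := mul_one _
      exact absurd ((h.trans h1).trans_lt h2) (lt_irrefl _)
  -- step 2: the value at `(τ 0, z 1, ..)`
  have hu : ∀ l, ‖(Fin.cons (tau (g 0)) (fun l : Fin n => z l.succ) : Fin (n + 1) → ℂ) l - z l‖ <
      δ1 := by
    intro l
    refine Fin.cases ?_ (fun j => ?_) l
    · exact hτ 0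
    · rw [Fin.cons_succ]
      exact hzz _
  have h3 := hlip _ (fun l => tau (g l)) hu hτ (x ^ (CP + 1 + m)) (pow_nonneg hx0.le _) (by
    intro l
    refine Fin.cases ?_ (fun j => ?_) l
    · rw [Fin.cons_zero, sub_self, norm_zero]
      exact pow_nonneg hx0.le _
    · rw [Fin.cons_succ]
      exact hle2 j)
  rw [hF, sub_zero, ← MainG_eval] at h3
  have h4 := hlow (tau (g 0)) (by
    rw [norm_sub_rev]
    exact hx3.trans_lt hmδ0)
  rw [norm_sub_rev] at h4
  have h5 : c0 * x ^ k ≤ c1 * x ^ (CP + 1 + m) := h4.trans h3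
  have h6 : x ^ (CP + 1 + m) ≤ x ^ k * x := by
    rw [← pow_succ]
    exact pow_le_pow_of_le_one hx0.le hx1 (by omega)
  have h7 : c0 * x ^ k ≤ (c1 * x) * x ^ k := by
    refine h5.trans ((mul_le_mul_of_nonneg_left h6 hc1.le).trans (le_of_eq ?_))
    ring
  have h8 : c0 ≤ c1 * x := le_of_mul_le_mul_right h7 (pow_pos hx0 k)
  have h9 : c1 * x < c0 := by
    have := (lt_div_iff₀ hc1).mp (hx3.trans_lt hmc0)
    linarith
  linarith

private theorem Main_int (n : ℕ) : ∀ (z : Fin n → ℂ), (∀ l, 0 < (z l).im) →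
    (∀ C : ℕ, Near C z) → AlgebraicIndependent ℤ (fam z) := by
  induction n with
  | zero =>
    intro z _ _
    rw [algebraicIndependent_unique_type_iff]
    exact Main_th
  | succ n ih =>
    intro z hz hN
    exact Main_step n z hz hN (ih _ (fun l => hz l.succ) (Main_tail hN))

theorem main_indep (n : ℕ) (z : Fin n → ℂ) (hz : ∀ l, 0 < (z l).im) (hN : ∀ C : ℕ, Near C z) :
    AlgebraicIndependent ℚ (fam z) := by
  have : Algebra.IsAlgebraic ℤ ℚ :=
    ⟨fun x => (IsFractionRing.isAlgebraic_iff ℤ ℚ ℚ).mpr (isAlgebraic_algebraMap x)⟩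
  exact (Main_int n z hz hN).extendScalars ℚ

end Pool.Agent.Lib.MP5e
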