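import Pool.Agent.Lib.MP_5e64e7_nt.RepL
import Pool.Agent.Lib.MP_5e64e7_nt.Trans

set_option autoImplicit false

noncomputable section

namespace Pool.Agent.Lib.MP5e

open Polynomial Topology

/-- `L¹`-norm of a complex polynomial -/
def NormR_L (f : ℂ[X]) : ℝ := f.sum (fun _ a => ‖a‖)

theorem NormR_L_eq (f : ℂ[X]) (n : ℕ) (h : f.natDegree < n) :
    NormR_L f = ∑ k ∈ Finset.range n, ‖f.coeff k‖ :=
  sum_over_range' f (fun _ => norm_zero) n h

theorem NormR_L_nonneg (f : ℂ[X]) : 0 ≤ NormR_L f := by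
  rw [NormR_L_eq f _ (Nat.lt_succ_self _)]
  exact Finset.sum_nonneg (fun _ _ => norm_nonneg _)

theorem NormR_L_add (f g : ℂ[X]) : NormR_L (f + g) ≤ NormR_L f + NormR_L g := by
  set n := f.natDegree + g.natDegree + 1 with hn
  rw [NormR_L_eq f n (by omega), NormR_L_eq g n (by omega), NormR_L_eq (f + g) n (by
    have := natDegree_add_le f g
    rcases le_total f.natDegree g.natDegree with h | h
    · rw [max_eq_right h] at this; omega
    · rw [max_eq_left h] at this; omega), ← Finset.sum_add_distrib]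
  apply Finset.sum_le_sum
  intro k _
  rw [coeff_add]
  exact norm_add_le _ _

theorem NormR_L_zero : NormR_L 0 = 0 := by
  simp [NormR_L]

theorem NormR_L_sum {ι : Type*} (s : Finset ι) (f : ι → ℂ[X]) :
    NormR_L (∑ i ∈ s, f i) ≤ ∑ i ∈ s, NormR_L (f i) := by
  classical
  induction s using Finset.induction_on with
  | empty => simp [NormR_L_zero]
  | insert a s ha ih =>
    rw [Finset.sum_insert ha, Finset.sum_insert ha]
    exact (NormR_L_add _ _).trans (by linarith)

theorem NormR_L_monomial (n : ℕ) (a : ℂ) : NormR_L (monomial n a) = ‖a‖ := by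
  rw [NormR_L, sum_monomial_index _ _ norm_zero]

theorem NormR_L_mul (f g : ℂ[X]) : NormR_L (f * g) ≤ NormR_L f * NormR_L g := by
  rw [mul_eq_sum_sum]
  calc NormR_L (∑ i ∈ f.support, g.sum fun j a => (monomial (i + j)) (f.coeff i * a))
      ≤ ∑ i ∈ f.support, NormR_L (g.sum fun j a => (monomial (i + j)) (f.coeff i * a)) :=
        NormR_L_sum _ _
    _ ≤ ∑ i ∈ f.support, ‖f.coeff i‖ * NormR_L g := by
        apply Finset.sum_le_sum
        intro i _
        rw [Polynomial.sum_def]
        refine (NormR_L_sum _ _).trans ?_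
        unfold NormR_L
        rw [Polynomial.sum_def g, Finset.mul_sum]
        apply Finset.sum_le_sum
        intro j _
        have := NormR_L_monomial (i + j) (f.coeff i * g.coeff j)
        unfold NormR_L at this
        rw [this, norm_mul]
    _ = NormR_L f * NormR_L g := by
        rw [← Finset.sum_mul]
        unfold NormR_L
        rw [Polynomial.sum_def f]

theorem NormR_coeff_le (f : ℂ[X]) (k : ℕ) : ‖f.coeff k‖ ≤ NormR_L f := by
  rw [NormR_L_eq f (f.natDegree + k + 1) (by omega)]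
  exact Finset.single_le_sum (f := fun k => ‖f.coeff k‖) (fun _ _ => norm_nonneg _)
    (Finset.mem_range.2 (by omega))

theorem NormR_L_one : NormR_L 1 = 1 := by
  have := NormR_L_monomial 0 1
  rw [monomial_zero_one] at this
  rw [this]; simp

theorem NormR_L_prod {ι : Type*} (s : Finset ι) (f : ι → ℂ[X]) (M : ℝ)
    (h : ∀ i ∈ s, NormR_L (f i) ≤ M) (hM : 0 ≤ M) : NormR_L (∏ i ∈ s, f i) ≤ M ^ s.card := by
  classical
  induction s using Finset.induction_on with
  | empty => simp [NormR_L_one]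
  | insert a s ha ih =>
    rw [Finset.prod_insert ha, Finset.card_insert_of_notMem ha, pow_succ, mul_comm (M ^ _)]
    refine (NormR_L_mul _ _).trans ?_
    exact mul_le_mul (h a (Finset.mem_insert_self a s))
      (ih (fun i hi => h i (Finset.mem_insert_of_mem hi))) (NormR_L_nonneg _) hM

theorem NormR_eval_le (f : ℂ[X]) (m : ℕ) (hf : f.natDegree ≤ m) (z : ℂ) (B : ℝ) (hB : 1 ≤ B)
    (hz : ‖z‖ ≤ B) : ‖f.eval z‖ ≤ NormR_L f * B ^ m := by
  rw [eval_eq_sum_range' (Nat.lt_succ_of_le hf), NormR_L_eq f _ (Nat.lt_succ_of_le hf),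
    Finset.sum_mul]
  refine (norm_sum_le _ _).trans (Finset.sum_le_sum ?_)
  intro k hk
  rw [norm_mul, norm_pow]
  have hk' : k ≤ m := Nat.lt_succ_iff.1 (Finset.mem_range.1 hk)
  apply mul_le_mul_of_nonneg_left _ (norm_nonneg _)
  exact (pow_le_pow_left₀ (norm_nonneg _) hz k).trans (pow_le_pow_right₀ hB hk')

/-- a complex polynomial with rational values at the natural numbers has rational coefficients -/
theorem NormR_lift_rat (F : ℂ[X]) (r : ℕ → ℚ) (h : ∀ n : ℕ, F.eval (n : ℂ) = ((r n : ℚ) : ℂ)) :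
    ∃ G : ℚ[X], G.map (algebraMap ℚ ℂ) = F := by
  set s := Finset.range (F.natDegree + 1) with hs
  have hv : Set.InjOn (fun i : ℕ => (i : ℚ)) s := by
    intro a _ b _ hab
    simpa using hab
  have hv' : Set.InjOn (fun i : ℕ => (i : ℂ)) s := by
    intro a _ b _ hab
    simpa using hab
  refine ⟨Lagrange.interpolate s (fun i : ℕ => (i : ℚ)) r, ?_⟩
  apply Polynomial.eq_of_degrees_lt_of_eval_index_eq s hv'
  · exact lt_of_le_of_lt degree_map_le (Lagrange.degree_interpolate_lt _ hv)
  · rw [hs, Finset.card_range]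
    exact lt_of_le_of_lt degree_le_natDegree (by exact_mod_cast Nat.lt_succ_self _)
  · intro i hi
    have h1 : ((i : ℕ) : ℂ) = algebraMap ℚ ℂ ((i : ℕ) : ℚ) := by simp
    have h2 := Lagrange.eval_interpolate_at_node (v := fun i : ℕ => (i : ℚ)) r hv hi
    rw [h i, h1, eval_map_apply, h2]
    rfl

theorem norm_poly (K : IntermediateField ℚ ℂ) (hfd : FiniteDimensional ℚ K) (m : ℕ) (M : ℝ)
    (x : ℂ) (hx : Rep K m M x) (h0 : x ≠ 0) :
    ∃ N : ℤ[X], N ≠ 0 ∧ N.natDegree ≤ m * Module.finrank ℚ K ∧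
      (∀ k, |(N.coeff k : ℝ)| ≤ M ^ Module.finrank ℚ K) ∧
      ‖aeval (th : ℂ) N‖ ≤ ‖x‖ * (M * th ^ m) ^ (Module.finrank ℚ K - 1) := by
  classical
  have hM0 : 0 ≤ M := hx.nonneg
  obtain ⟨R, hdeg, hint, hbd, hRx⟩ := hx
  have hth := one_le_th
  have hcard : Fintype.card (K →ₐ[ℚ] ℂ) = Module.finrank ℚ K := AlgHom.card ℚ K ℂ
  set f : (K →ₐ[ℚ] ℂ) → ℂ[X] := fun φ => R.map (φ : K →+* ℂ) with hf
  have hfL : ∀ φ, NormR_L (f φ) ≤ M := by
    intro φ
    rw [NormR_L_eq (f φ) (m + 1) (Nat.lt_succ_of_le (natDegree_map_le.trans hdeg))]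
    simpa [hf, coeff_map] using hbd φ
  set F : ℂ[X] := ∏ φ, f φ with hF
  have hR0 : R ≠ 0 := by
    rintro rfl
    apply h0
    rw [← hRx]; simp
  have hF0 : F ≠ 0 := by
    rw [hF, Finset.prod_ne_zero_iff]
    intro φ _
    exact (Polynomial.map_ne_zero_iff φ.toRingHom.injective).2 hR0
  have hFL : NormR_L F ≤ M ^ Module.finrank ℚ K := by
    have := NormR_L_prod Finset.univ f M (fun i _ => hfL i) hM0
    rwa [Finset.card_univ, hcard] at this
  have hFdeg : F.natDegree ≤ m * Module.finrank ℚ K := by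
    refine (natDegree_prod_le _ _).trans ?_
    refine (Finset.sum_le_card_nsmul _ _ m ?_).trans ?_
    · intro φ _
      exact natDegree_map_le.trans hdeg
    · rw [Finset.card_univ, hcard, smul_eq_mul, mul_comm]
  -- rational coefficients
  obtain ⟨G, hG⟩ := NormR_lift_rat F (fun n => Algebra.norm ℚ (R.eval (n : K))) (by
    intro n
    have h1 := Algebra.norm_eq_prod_embeddings ℚ (L := K) ℂ (R.eval (n : K))
    have h2 : (((Algebra.norm ℚ (R.eval (n : K)) : ℚ)) : ℂ) =
        algebraMap ℚ ℂ (Algebra.norm ℚ (R.eval (n : K))) := rfl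
    rw [h2, h1, hF, eval_prod]
    apply Finset.prod_congr rfl
    intro φ _
    have h3 : ((n : ℕ) : ℂ) = (φ : K →+* ℂ) ((n : ℕ) : K) := by simp
    rw [hf]
    simp only
    rw [h3, eval_map_apply]
    rfl)
  -- integral coefficients
  have hFint : ∀ k, IsIntegral ℤ (F.coeff k) := by
    have h1 : F ∈ lifts (algebraMap (integralClosure ℤ ℂ) ℂ) := by
      rw [hF]
      apply Subsemiring.prod_mem
      intro φ _
      rw [lifts_iff_coeff_lifts]
      intro k
      have h2 : IsIntegral ℤ ((f φ).coeff k) := by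
        rw [hf]
        simp only [coeff_map]
        exact (hint k).map (φ : K →+* ℂ).toIntAlgHom
      exact ⟨⟨_, h2⟩, rfl⟩
    intro k
    rw [lifts_iff_coeff_lifts] at h1
    obtain ⟨y, hy⟩ := h1 k
    rw [← hy]
    exact y.2
  have hlift : ∃ N : ℤ[X], N.map (algebraMap ℤ ℂ) = F := by
    have h1 : F ∈ lifts (algebraMap ℤ ℂ) := by
      rw [lifts_iff_coeff_lifts]
      intro k
      have h2 := hFint k
      rw [← hG, coeff_map] at h2
      have h3 : IsIntegral ℤ (G.coeff k) := by
        have hinj : Function.Injective (algebraMap ℚ ℂ).toIntAlgHom := by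
          intro u v huv
          exact (algebraMap ℚ ℂ).injective huv
        exact (isIntegral_algHom_iff (algebraMap ℚ ℂ).toIntAlgHom hinj).1 h2
      obtain ⟨z, hz⟩ := IsIntegrallyClosed.isIntegral_iff.1 h3
      refine ⟨z, ?_⟩
      rw [← hG, coeff_map, ← hz]
      simp
    exact (mem_lifts F).1 h1
  obtain ⟨N, hN⟩ := hlift
  have hinj : Function.Injective (algebraMap ℤ ℂ) := by
    simpa using Int.cast_injective (α := ℂ)
  refine ⟨N, ?_, ?_, ?_, ?_⟩
  · rintro rfl
    apply hF0
    rw [← hN]; simp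
  · have h1 : N.natDegree = F.natDegree := by
      rw [← hN]
      exact (natDegree_map_eq_of_injective hinj N).symm
    rw [h1]
    exact hFdeg
  · intro k
    have h1 := (NormR_coeff_le F k).trans hFL
    rw [← hN, coeff_map] at h1
    simpa using h1
  · have h1 : aeval (th : ℂ) N = F.eval (th : ℂ) := by
      rw [← hN, eval_map_algebraMap]
    rw [h1, hF, eval_prod, norm_prod]
    set φ0 : K →ₐ[ℚ] ℂ := K.val with hφ0
    have h2 : (f φ0).eval (th : ℂ) = x := by
      rw [hf, ← hRx]
      simp only [aeval_def, eval_map]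
      rfl
    rw [← Finset.mul_prod_erase Finset.univ _ (Finset.mem_univ φ0), h2]
    apply mul_le_mul_of_nonneg_left _ (norm_nonneg _)
    have h3 : (Finset.univ.erase φ0).card = Module.finrank ℚ K - 1 := by
      rw [Finset.card_erase_of_mem (Finset.mem_univ _), Finset.card_univ, hcard]
    rw [← h3]
    refine (Finset.prod_le_prod (g := fun _ => M * th ^ m) (fun _ _ => norm_nonneg _) ?_).trans ?_
    · intro φ _
      have h4 := NormR_eval_le (f φ) m (natDegree_map_le.trans hdeg) (th : ℂ) th hth (by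
        rw [Complex.norm_real, Real.norm_eq_abs, abs_of_nonneg (by linarith)])
      exact h4.trans (mul_le_mul_of_nonneg_right (hfL φ) (by positivity))
    · rw [Finset.prod_const]

end Pool.Agent.Lib.MP5e
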