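import Pool.Agent.Lib.MP_5e64e7_nt.ODefs

set_option autoImplicit false

/-!
# O.LAM : Lambert series for `E₂` (about 60 lines)

`∑_{n≥1} q^n/(1-q^n)² = ∑_{n≥1} σ₁(n) q^n = (1 - E₂)/24`. Both sides are the double sum
`∑_{n,m ≥ 1} m q^(nm)`. Mathlib: `tsum_sigma_eqn`-type lemmas in
`Mathlib/NumberTheory/ModularForms/EisensteinSeries/QExpansion.lean` and
`Mathlib/NumberTheory/TsumDivsorsAntidiagonal.lean` (`tsum_prod_pow_eq_tsum_sigma`,
`tsum_pow_div_one_sub_eq_tsum_sigma`); `hasSum_coe_mul_geometric_of_norm_lt_one`. The summability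
statement: `‖q^n/(1-q^n)²‖ ≤ ‖q‖^n/(1-‖q‖)²`.
-/

noncomputable section

namespace Pool.Agent.Lib.MP5e

open Polynomial Topology

theorem summable_lam {q : ℂ} (hq : ‖q‖ < 1) :
    Summable fun n : ℕ => q ^ (n + 1) / (1 - q ^ (n + 1)) ^ 2 := by
  have hs : Summable fun n : ℕ => ‖q‖ ^ (n + 1) / (1 - ‖q‖) ^ 2 := by
    have h1 := (summable_geometric_of_lt_one (norm_nonneg q) hq)
    exact ((summable_nat_add_iff 1).mpr h1).div_const _
  refine Summable.of_norm_bounded hs ?_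
  intro n
  rw [norm_div, norm_pow, norm_pow]
  have h0 : 0 < 1 - ‖q‖ := by linarith
  have h1 : 1 - ‖q‖ ≤ ‖1 - q ^ (n + 1)‖ := by
    have h2 := norm_sub_norm_le (1 : ℂ) (q ^ (n + 1))
    rw [norm_one, norm_pow] at h2
    have h3 : ‖q‖ ^ (n + 1) ≤ ‖q‖ := by
      calc ‖q‖ ^ (n + 1) ≤ ‖q‖ ^ 1 :=
            pow_le_pow_of_le_one (norm_nonneg q) hq.le (by omega)
        _ = ‖q‖ := pow_one _
    linarith
  gcongr

theorem lam_E2 {σ : ℂ} (hσ : 0 < σ.im) :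
    ∑' n : ℕ, Complex.exp (2 * (Real.pi : ℂ) * Complex.I * σ) ^ (n + 1) /
      (1 - Complex.exp (2 * (Real.pi : ℂ) * Complex.I * σ) ^ (n + 1)) ^ 2 = (1 - E2f σ) / 24 := by
  unfold E2f
  have hq : ‖Complex.exp (2 * (Real.pi : ℂ) * Complex.I * σ)‖ < 1 := by
    rw [Complex.norm_exp]
    have hre : (2 * (Real.pi : ℂ) * Complex.I * σ).re = -(2 * Real.pi * σ.im) := by
      simp [Complex.mul_re, Complex.mul_im]
    rw [hre, Real.exp_lt_one_iff]
    have := Real.pi_pos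
    have : 0 < 2 * Real.pi * σ.im := by positivity
    linarith
  set q : ℂ := Complex.exp (2 * (Real.pi : ℂ) * Complex.I * σ) with hqdef
  have h1 := tsum_prod_pow_eq_tsum_sigma (𝕜 := ℂ) 1 hq
  have h2 : ∀ d : ℕ+, ∑' c : ℕ+, ((c : ℕ) : ℂ) ^ 1 * q ^ ((d : ℕ) * (c : ℕ)) =
      q ^ (d : ℕ) / (1 - q ^ (d : ℕ)) ^ 2 := by
    intro d
    have hd : ‖q ^ (d : ℕ)‖ < 1 := by
      rw [norm_pow]
      exact pow_lt_one₀ (norm_nonneg q) hq d.ne_zero
    have h3 := hasSum_coe_mul_geometric_of_norm_lt_one hd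
    have h4 := tsum_zero_pnat_eq_tsum_nat (f := fun n : ℕ => (n : ℂ) * (q ^ (d : ℕ)) ^ n)
      h3.summable
    rw [h3.tsum_eq] at h4
    rw [← h4]
    simp only [Nat.cast_zero, zero_mul, zero_add, pow_one, pow_mul]
  rw [tsum_congr h2] at h1
  have h5 := tsum_pnat_eq_tsum_succ (f := fun n : ℕ => q ^ n / (1 - q ^ n) ^ 2)
  have h6 := tsum_pnat_eq_tsum_succ
    (f := fun n : ℕ => (((ArithmeticFunction.sigma 1) n : ℕ) : ℂ) * q ^ n)
  rw [← h5, h1, h6]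
  ring

end Pool.Agent.Lib.MP5e
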