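import Pool.Agent.Lib.MP_5e64e7_nt.ODefs

set_option autoImplicit false

/-!
# O.TPT : the torsion points (about 70 lines)

`LP.lattice = {m · 2π + n · 2πi}` (`PeriodPair.mem_lattice`). With `σ = (a i + b)/d`,
`otor k = 2πi k (a i + b)/(a d) = -2π k/d + 2πi k b/(a d)`.

* `otor_mul` : `k · otor 1 = otor k`.
* `otor_top` : `(a d) · otor 1 = 2πi (a i + b) = -2π a + 2πi b` is in the lattice.
* `otor_notMem` : if `otor k` is in the lattice then `k/d = -m` is an integer, `k = d y`, and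
  `k b/(a d) = y b/a` is an integer, so `a ∣ y b`, `a ∣ y`, `a d ∣ k`.
* `mem_LP` : description of the lattice.
-/

noncomputable section

namespace Pool.Agent.Lib.MP5e

open Polynomial Topology

theorem mem_LP {x : ℂ} : x ∈ LP.lattice ↔ ∃ m n : ℤ,
    x = (m : ℂ) * (2 * (Real.pi : ℂ)) + (n : ℂ) * (2 * (Real.pi : ℂ) * Complex.I) := by
  rw [PeriodPair.mem_lattice]
  constructor
  · rintro ⟨m, n, h⟩
    exact ⟨m, n, h.symm⟩
  · rintro ⟨m, n, h⟩
    exact ⟨m, n, h.symm⟩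

theorem otor_mul (a d : ℕ) (b : ℤ) (k : ℕ) : (k : ℂ) * otor a d b 1 = otor a d b k := by
  unfold otor
  rw [Nat.cast_one, one_mul]
  ring

private theorem otor_eq {a d : ℕ} (ha : 1 ≤ a) (hd : 1 ≤ d) (b : ℤ) (k : ℕ) :
    ((a : ℂ) * (d : ℂ)) * otor a d b k =
      2 * (Real.pi : ℂ) * (-((k : ℂ) * (a : ℂ)) + (k : ℂ) * (b : ℂ) * Complex.I) := by
  have ha' : (a : ℂ) ≠ 0 := by exact_mod_cast (by omega : a ≠ 0)
  have hd' : (d : ℂ) ≠ 0 := by exact_mod_cast (by omega : d ≠ 0)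
  have h : ((a : ℂ) * (d : ℂ)) * otor a d b k =
      2 * (Real.pi : ℂ) * Complex.I * ((k : ℂ) * ((a : ℂ) * Complex.I + (b : ℂ))) := by
    unfold otor osig
    field_simp
  rw [h]
  linear_combination (2 * (Real.pi : ℂ) * (k : ℂ) * (a : ℂ)) * Complex.I_mul_I

theorem otor_top {a d : ℕ} (ha : 1 ≤ a) (hd : 1 ≤ d) (b : ℤ) :
    ((a * d : ℕ) : ℂ) * otor a d b 1 ∈ LP.lattice := by
  rw [mem_LP]
  refine ⟨-(a : ℤ), b, ?_⟩
  rw [Nat.cast_mul, otor_eq ha hd]
  push_cast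
  ring

theorem otor_notMem {a d : ℕ} (ha : 1 ≤ a) (hd : 1 ≤ d) {b : ℤ} (hab : IsCoprime (a : ℤ) b)
    {k : ℕ} (hk : 1 ≤ k) (hk' : k < a * d) : otor a d b k ∉ LP.lattice := by
  intro h
  rw [mem_LP] at h
  obtain ⟨m, n, h⟩ := h
  have hpi : (2 * (Real.pi : ℂ)) ≠ 0 := by
    have : (Real.pi : ℂ) ≠ 0 := by exact_mod_cast Real.pi_ne_zero
    exact mul_ne_zero two_ne_zero this
  have h1 := otor_eq ha hd b k
  rw [h] at h1
  have h2 : (a : ℂ) * (d : ℂ) * ((m : ℂ) + (n : ℂ) * Complex.I) =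
      -((k : ℂ) * (a : ℂ)) + (k : ℂ) * (b : ℂ) * Complex.I := by
    apply mul_left_cancel₀ hpi
    linear_combination h1
  have hre := congrArg Complex.re h2
  have him := congrArg Complex.im h2
  simp at hre him
  have hre' : (a : ℤ) * d * m = -(k * a) := by exact_mod_cast hre
  have him' : (a : ℤ) * d * n = k * b := by exact_mod_cast him
  have ha0 : (a : ℤ) ≠ 0 := by exact_mod_cast (by omega : a ≠ 0)
  have hd0 : (d : ℤ) ≠ 0 := by exact_mod_cast (by omega : d ≠ 0)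
  have e1 : (k : ℤ) = d * (-m) := by
    apply mul_left_cancel₀ ha0
    linear_combination hre'
  have e2 : (-m) * b = a * n := by
    apply mul_left_cancel₀ hd0
    rw [e1] at him'
    linear_combination -him'
  have e3 : (a : ℤ) ∣ (-m) := hab.dvd_of_dvd_mul_right ⟨n, e2⟩
  obtain ⟨t, ht⟩ := e3
  rw [ht] at e1
  have e4 : ((a * d : ℕ) : ℤ) ∣ (k : ℤ) := ⟨t, by rw [e1]; push_cast; ring⟩
  have e5 : a * d ∣ k := by exact_mod_cast e4
  exact absurd (Nat.le_of_dvd (by omega) e5) (by omega)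

theorem osig_im {a d : ℕ} (hd : 1 ≤ d) (b : ℤ) : (osig a d b).im = (a : ℝ) / (d : ℝ) := by
  unfold osig
  rw [Complex.div_natCast_im]
  simp

end Pool.Agent.Lib.MP5e
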