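import Pool.Agent.Lib.MP_5e64e7_nt.OFour
import Pool.Agent.Lib.MP_5e64e7_nt.OLam
import Pool.Agent.Lib.MP_5e64e7_nt.OTorPt
import Pool.Agent.Lib.MP_5e64e7_nt.Fper
import Pool.Agent.Lib.MP_5e64e7_nt.Liouv
import Pool.Agent.Lib.MP_5e64e7_nt.TransB

set_option autoImplicit false

/-!
# O.E2 : `E₂` at Gaussian rational points

Notation: `N = a d`, `σ = (a i + b)/d`, `w_k = exp (otor k)`, `x(v) = v/(1-v)²`, `r = rr = e^{-2π}`,
`q = exp (2πi σ)`; `ff w = x(w) + ∑_{m≥1} (x(w r^m) + x(w⁻¹ r^m))` (definition).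

The sum of `ff (w_k)` over `1 ≤ k < N` is computed by splitting `k = k₀ + d t` and summing over
`t < a` first (`four_x`, `four_one`), then over `k₀ < d` (residue classes modulo `d`).
-/

noncomputable section

namespace Pool.Agent.Lib.MP5e

open Polynomial Topology

/-- `x(v) = v/(1-v)²` -/
private def xx (v : ℂ) : ℂ := v / (1 - v) ^ 2

private theorem rrc_ne0 : (rr : ℂ) ≠ 0 := by
  exact_mod_cast rr_pos.ne'

private theorem rr_lt1 : rr < 1 := by
  have := rr_lt
  linarith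

private theorem rrc_exp : (rr : ℂ) = Complex.exp (-2 * (Real.pi : ℂ)) := by
  simp [rr, Complex.ofReal_exp]

private theorem good_rr_pow {w : ℂ} (hw : w ∈ good) (t : ℕ) : (rr : ℂ) ^ t * w ∈ good := by
  induction t with
  | zero => simpa using hw
  | succ t ih =>
    have := good_rr ih
    rwa [← mul_assoc, ← pow_succ'] at this

private theorem ff_rr_pow {w : ℂ} (hw : w ∈ good) (t : ℕ) : ff ((rr : ℂ) ^ t * w) = ff w := by
  induction t with
  | zero => simp
  | succ t ih =>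
    rw [pow_succ', mul_assoc, ff_rr (good_rr_pow hw t), ih]

/-- a number whose absolute value lies strictly between `r` and `1` is good -/
private theorem good_of_norm {w : ℂ} (h1 : rr < ‖w‖) (h2 : ‖w‖ < 1) : w ∈ good := by
  have h0 : 0 < ‖w‖ := lt_trans rr_pos h1
  refine ⟨norm_pos_iff.1 h0, fun k hk => ?_⟩
  have h3 : ‖w‖ = rr ^ k := by
    rw [hk, norm_zpow, Complex.norm_real, Real.norm_of_nonneg rr_pos.le]
  rw [h3] at h1 h2
  rcases le_or_gt k 0 with hk0 | hk0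
  · have : (1 : ℝ) ≤ rr ^ k := one_le_zpow_of_nonpos₀ rr_pos rr_lt1.le hk0
    linarith
  · have h4 : rr ^ k ≤ rr ^ (1 : ℤ) :=
      zpow_le_zpow_right_of_le_one₀ rr_pos rr_lt1.le (by omega)
    rw [zpow_one] at h4
    linarith

private theorem rr_pow_lt_one (m : ℕ) : rr ^ (m + 1) < 1 :=
  pow_lt_one₀ rr_pos.le rr_lt1 (Nat.succ_ne_zero m)

private theorem rr_pow_le (m : ℕ) : rr ^ (m + 1) ≤ rr := by
  calc rr ^ (m + 1) ≤ rr ^ 1 := pow_le_pow_of_le_one rr_pos.le rr_lt1.le (by omega)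
    _ = rr := pow_one rr

private theorem norm_zeta_pow {a : ℕ} (ha : 1 ≤ a) {ζ : ℂ} (hζ : IsPrimitiveRoot ζ a) (t : ℕ) :
    ‖ζ ^ t‖ = 1 := by
  rw [norm_pow, hζ.norm'_eq_one (by omega), one_pow]

private theorem zeta_ne {a : ℕ} (ha : 1 ≤ a) {ζ : ℂ} (hζ : IsPrimitiveRoot ζ a) : ζ ≠ 0 :=
  hζ.ne_zero (by omega)

/-- step 3 -/
private theorem outer {a : ℕ} (ha : 1 ≤ a) {ζ : ℂ} (hζ : IsPrimitiveRoot ζ a) {u : ℂ}
    (h1 : rr < ‖u‖) (h2 : ‖u‖ < 1) :
    ∑ t ∈ Finset.range a, ff (ζ ^ t * u) = (a : ℂ) ^ 2 * (xx (u ^ a) +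
      ∑' m : ℕ, (xx ((u * (rr : ℂ) ^ (m + 1)) ^ a) + xx ((u⁻¹ * (rr : ℂ) ^ (m + 1)) ^ a))) := by
  have hgood : ∀ t : ℕ, ζ ^ t * u ∈ good := by
    intro t
    apply good_of_norm
    · rwa [norm_mul, norm_zeta_pow ha hζ, one_mul]
    · rwa [norm_mul, norm_zeta_pow ha hζ, one_mul]
  have h0 : 0 < ‖u‖ := lt_trans rr_pos h1
  have hu1 : ∀ m : ℕ, ‖u * (rr : ℂ) ^ (m + 1)‖ < 1 := by
    intro m
    rw [norm_mul, norm_rr_pow]
    calc ‖u‖ * rr ^ (m + 1) < 1 * 1 :=
          mul_lt_mul'' h2 (rr_pow_lt_one m) (norm_nonneg _) (pow_nonneg rr_pos.le _)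
      _ = 1 := one_mul 1
  have hu2 : ∀ m : ℕ, ‖u⁻¹ * (rr : ℂ) ^ (m + 1)‖ < 1 := by
    intro m
    rw [norm_mul, norm_rr_pow, norm_inv, inv_mul_lt_iff₀ h0, mul_one]
    exact lt_of_le_of_lt (rr_pow_le m) h1
  unfold ff
  rw [Finset.sum_add_distrib, four_x ha hζ h2, mul_add]
  congr 1
  rw [← Summable.tsum_finsetSum, ← tsum_mul_left]
  · apply tsum_congr
    intro m
    rw [Finset.sum_add_distrib, mul_add]
    congr 1
    · have := four_x ha hζ (hu1 m)
      rw [show (a : ℂ) ^ 2 * xx ((u * (rr : ℂ) ^ (m + 1)) ^ a) = _ from this.symm]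
      apply Finset.sum_congr rfl
      intro t _
      rw [mul_assoc]
    · have := four_x ha hζ.inv (hu2 m)
      rw [show (a : ℂ) ^ 2 * xx ((u⁻¹ * (rr : ℂ) ^ (m + 1)) ^ a) = _ from this.symm]
      apply Finset.sum_congr rfl
      intro t _
      have e : (ζ ^ t * u)⁻¹ * (rr : ℂ) ^ (m + 1) = ζ⁻¹ ^ t * (u⁻¹ * (rr : ℂ) ^ (m + 1)) := by
        rw [mul_inv, inv_pow, mul_assoc]
      rw [e]
  · intro t _
    exact (summable_sq (hgood t)).add (summable_sq (good_inv (hgood t)))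

/-- step 4 -/
private theorem inner {a : ℕ} (ha : 1 ≤ a) {ζ : ℂ} (hζ : IsPrimitiveRoot ζ a)
    (hg : ∀ t ∈ Finset.Ico 1 a, ζ ^ t ∈ good) :
    ∑ t ∈ Finset.Ico 1 a, ff (ζ ^ t) = (1 - (a : ℂ) ^ 2) / 12 +
      ∑' m : ℕ, 2 * ((a : ℂ) ^ 2 * xx (((rr : ℂ) ^ (m + 1)) ^ a) - xx ((rr : ℂ) ^ (m + 1))) := by
  unfold ff
  rw [Finset.sum_add_distrib, four_one ha hζ]
  congr 1
  rw [← Summable.tsum_finsetSum]
  · apply tsum_congr
    intro m
    have hr : ‖(rr : ℂ) ^ (m + 1)‖ < 1 := by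
      rw [norm_rr_pow]
      exact rr_pow_lt_one m
    rw [Finset.sum_add_distrib]
    have key : ∀ z : ℂ, IsPrimitiveRoot z a →
        ∑ t ∈ Finset.Ico 1 a, z ^ t * (rr : ℂ) ^ (m + 1) / (1 - z ^ t * (rr : ℂ) ^ (m + 1)) ^ 2 =
          (a : ℂ) ^ 2 * xx (((rr : ℂ) ^ (m + 1)) ^ a) - xx ((rr : ℂ) ^ (m + 1)) := by
      intro z hz
      have h := four_x ha hz hr
      rw [Finset.range_eq_Ico, Finset.sum_eq_sum_Ico_succ_bot (by omega)] at h
      rw [pow_zero, one_mul] at h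
      unfold xx
      linear_combination h
    have h1 := key ζ hζ
    have h2 := key ζ⁻¹ hζ.inv
    rw [h1]
    have h3 : ∑ t ∈ Finset.Ico 1 a, (ζ ^ t)⁻¹ * (rr : ℂ) ^ (m + 1) /
        (1 - (ζ ^ t)⁻¹ * (rr : ℂ) ^ (m + 1)) ^ 2 =
          (a : ℂ) ^ 2 * xx (((rr : ℂ) ^ (m + 1)) ^ a) - xx ((rr : ℂ) ^ (m + 1)) := by
      rw [← h2]
      apply Finset.sum_congr rfl
      intro t _
      rw [inv_pow]
    rw [h3]
    ring
  · intro t ht
    exact (summable_sq (hg t ht)).add (summable_sq (good_inv (hg t ht)))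

private theorem sum_range_mul (F : ℕ → ℂ) (a d : ℕ) :
    ∑ k ∈ Finset.range (a * d), F k =
      ∑ j ∈ Finset.range d, ∑ t ∈ Finset.range a, F (j + d * t) := by
  induction a with
  | zero => simp
  | succ a ih =>
    rw [Nat.succ_mul, Finset.sum_range_add, ih, ← Finset.sum_add_distrib]
    apply Finset.sum_congr rfl
    intro j _
    rw [Finset.sum_range_succ]
    congr 2
    ring

private theorem sum_residue {f : ℕ → ℂ} (hf : Summable f) {d : ℕ} (hd : 1 ≤ d) :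
    ∑' n, f n = ∑ j ∈ Finset.range d, ∑' m, f (j + d * m) := by
  obtain ⟨d, rfl⟩ : ∃ e, d = e + 1 := ⟨d - 1, by omega⟩
  rw [Nat.sumByResidueClasses hf (d + 1)]
  exact Fin.sum_univ_eq_sum_range (fun j => ∑' m, f (j + (d + 1) * m)) (d + 1)

private theorem exp_otor_add {a d : ℕ} (ha : 1 ≤ a) (hd : 1 ≤ d) (b : ℤ) (j t : ℕ) :
    Complex.exp (otor a d b (j + d * t)) = (rr : ℂ) ^ t *
      (Complex.exp (2 * (Real.pi : ℂ) * Complex.I * ((b : ℂ) / (a : ℂ))) ^ t *
        Complex.exp (otor a d b j)) := by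
  have ha' : (a : ℂ) ≠ 0 := by exact_mod_cast (by omega : a ≠ 0)
  have hd' : (d : ℂ) ≠ 0 := by exact_mod_cast (by omega : d ≠ 0)
  rw [rrc_exp, ← Complex.exp_nat_mul, ← Complex.exp_nat_mul, ← Complex.exp_add, ← Complex.exp_add]
  congr 1
  unfold otor osig
  push_cast
  field_simp
  ring_nf
  simp only [Complex.I_sq]
  ring

private theorem exp_otor_pow {a d : ℕ} (ha : 1 ≤ a) (b : ℤ) (j : ℕ) :
    Complex.exp (otor a d b j) ^ a =
      Complex.exp (2 * (Real.pi : ℂ) * Complex.I * osig a d b) ^ j := by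
  have ha' : (a : ℂ) ≠ 0 := by exact_mod_cast (by omega : a ≠ 0)
  rw [← Complex.exp_nat_mul, ← Complex.exp_nat_mul]
  congr 1
  unfold otor
  field_simp

private theorem rr_pow_a {a d : ℕ} (hd : 1 ≤ d) (b : ℤ) :
    (rr : ℂ) ^ a = Complex.exp (2 * (Real.pi : ℂ) * Complex.I * osig a d b) ^ d := by
  have hd' : (d : ℂ) ≠ 0 := by exact_mod_cast (by omega : d ≠ 0)
  rw [rrc_exp, ← Complex.exp_nat_mul, ← Complex.exp_nat_mul,
    Complex.exp_eq_exp_iff_exists_int]
  refine ⟨-b, ?_⟩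
  unfold osig
  push_cast
  field_simp
  ring_nf
  simp only [Complex.I_sq]
  ring

private theorem norm_exp_otor {a d : ℕ} (ha : 1 ≤ a) (hd : 1 ≤ d) (b : ℤ) (j : ℕ) :
    ‖Complex.exp (otor a d b j)‖ = Real.exp (-(2 * Real.pi * ((j : ℝ) / (d : ℝ)))) := by
  have ha' : (a : ℂ) ≠ 0 := by exact_mod_cast (by omega : a ≠ 0)
  have hd' : (d : ℂ) ≠ 0 := by exact_mod_cast (by omega : d ≠ 0)
  rw [Complex.norm_exp]
  congr 1
  have e : otor a d b j = ((-(2 * Real.pi * ((j : ℝ) / (d : ℝ))) : ℝ) : ℂ) +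
      ((2 * Real.pi * ((j : ℝ) * (b : ℝ) / ((a : ℝ) * (d : ℝ))) : ℝ) : ℂ) * Complex.I := by
    unfold otor osig
    push_cast
    field_simp
    ring_nf
    simp only [Complex.I_sq]
    ring
  rw [e, Complex.add_re, Complex.re_ofReal_mul, Complex.I_re, Complex.ofReal_re]
  ring

theorem E2_osig {a d : ℕ} (ha : 1 ≤ a) (hd : 1 ≤ d) {b : ℤ} (hab : IsCoprime (a : ℤ) b) :
    (a : ℂ) ^ 2 * E2f (osig a d b) =
      3 * ((a : ℂ) * (d : ℂ)) / (Real.pi : ℂ) - 3 * (s0 : ℂ) * oS a d b 1 := by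
  have ha' : (a : ℂ) ≠ 0 := by exact_mod_cast (by omega : a ≠ 0)
  have hd' : (d : ℂ) ≠ 0 := by exact_mod_cast (by omega : d ≠ 0)
  set q : ℂ := Complex.exp (2 * (Real.pi : ℂ) * Complex.I * osig a d b) with hq
  set ζ : ℂ := Complex.exp (2 * (Real.pi : ℂ) * Complex.I * ((b : ℂ) / (a : ℂ))) with hζdef
  have hζ : IsPrimitiveRoot ζ a :=
    Complex.isPrimitiveRoot_exp_of_isCoprime b a (by omega) hab.symm
  have hσ : 0 < (osig a d b).im := by
    rw [osig_im hd]
    have h1 : (0 : ℝ) < a := by exact_mod_cast ha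
    have h2 : (0 : ℝ) < d := by exact_mod_cast hd
    positivity
  have hq1 : ‖q‖ < 1 := by
    rw [hq, Complex.norm_exp]
    have : (2 * (Real.pi : ℂ) * Complex.I * osig a d b).re = -(2 * Real.pi * (osig a d b).im) := by
      simp [Complex.mul_re, Complex.mul_im]
    rw [this, Real.exp_lt_one_iff]
    have := Real.pi_pos
    have := mul_pos Real.pi_pos hσ
    linarith
  -- the Lambert series
  set L : ℕ → ℂ := fun n => xx (q ^ n) with hL
  have hLs : Summable fun n : ℕ => L (n + 1) := summable_lam hq1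
  have hLt : ∑' n : ℕ, L (n + 1) = (1 - E2f (osig a d b)) / 24 := lam_E2 hσ
  set A : ℕ → ℂ := fun j => ∑' m : ℕ, L (j + d * m) with hA
  have hAs : ∀ j, 1 ≤ j → Summable fun m : ℕ => L (j + d * m) := by
    intro j hj
    have hinj : Function.Injective fun m : ℕ => (j - 1) + d * m := by
      intro m n h
      have h' : (j - 1) + d * m = (j - 1) + d * n := h
      exact Nat.eq_of_mul_eq_mul_left (by omega) (Nat.add_left_cancel h')
    have h := hLs.comp_injective hinj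
    refine h.congr fun m => ?_
    simp only [Function.comp]
    congr 1
    omega
  have hAsum : ∑ j ∈ Finset.range d, A (j + 1) = (1 - E2f (osig a d b)) / 24 := by
    rw [← hLt, sum_residue hLs hd]
    apply Finset.sum_congr rfl
    intro j _
    simp only [hA]
    apply tsum_congr
    intro m
    congr 1
    ring
  have erI : Complex.exp (2 * (Real.pi : ℂ) * Complex.I * Complex.I) = (rr : ℂ) := by
    rw [rrc_exp]
    congr 1
    rw [mul_assoc, Complex.I_mul_I]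
    ring
  have hi : ∑' n : ℕ, xx ((rr : ℂ) ^ (n + 1)) = (1 - E2f Complex.I) / 24 := by
    have h := lam_E2 (σ := Complex.I) (by simp)
    rw [erI] at h
    exact h
  have hrr1 : ‖(rr : ℂ)‖ < 1 := by
    have := norm_rr_pow 1
    rw [pow_one, pow_one] at this
    rw [this]
    exact rr_lt1
  have his : Summable fun n : ℕ => xx ((rr : ℂ) ^ (n + 1)) := summable_lam hrr1
  set W : ℕ → ℂ := fun k => Complex.exp (otor a d b k) with hW
  have hWgood : ∀ k, 1 ≤ k → k < a * d → W k ∈ good := fun k h1 h2 =>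
    (exp_mem_good _).2 (otor_notMem ha hd hab h1 h2)
  have hWadd : ∀ j t, W (j + d * t) = (rr : ℂ) ^ t * (ζ ^ t * W j) := exp_otor_add ha hd b
  have hra : (rr : ℂ) ^ a = q ^ d := rr_pow_a hd b
  have hrap : ∀ m : ℕ, ((rr : ℂ) ^ (m + 1)) ^ a = q ^ (d * (m + 1)) := by
    intro m
    rw [← pow_mul, mul_comm (m + 1) a, pow_mul, hra, ← pow_mul]
  -- the part `k₀ ≠ 0`
  have houter : ∀ j, 1 ≤ j → j < d → ∑ t ∈ Finset.range a, ff (W (j + d * t)) =
      (a : ℂ) ^ 2 * (A j + A (d - j)) := by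
    intro j h1 h2
    have hn : ‖W j‖ = Real.exp (-(2 * Real.pi * ((j : ℝ) / (d : ℝ)))) :=
      norm_exp_otor ha hd b j
    have hd0 : (0 : ℝ) < d := by exact_mod_cast hd
    have hj0 : (0 : ℝ) < j := by exact_mod_cast h1
    have hjd : (j : ℝ) / (d : ℝ) < 1 := by
      rw [div_lt_one hd0]
      exact_mod_cast h2
    have n1 : ‖W j‖ < 1 := by
      rw [hn, Real.exp_lt_one_iff]
      have : 0 < 2 * Real.pi * ((j : ℝ) / (d : ℝ)) := by
        have := Real.pi_pos
        positivity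
      linarith
    have n2 : rr < ‖W j‖ := by
      rw [hn]
      unfold rr
      rw [Real.exp_lt_exp]
      have := mul_lt_mul_of_pos_left hjd (show 0 < 2 * Real.pi by have := Real.pi_pos; positivity)
      linarith
    have hmem : ∀ t, ζ ^ t * W j ∈ good := by
      intro t
      apply good_of_norm
      · rwa [norm_mul, norm_zeta_pow ha hζ, one_mul]
      · rwa [norm_mul, norm_zeta_pow ha hζ, one_mul]
    have e1 : ∀ t ∈ Finset.range a, ff (W (j + d * t)) = ff (ζ ^ t * W j) := by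
      intro t _
      rw [hWadd, ff_rr_pow (hmem t)]
    have hWja : W j ^ a = q ^ j := exp_otor_pow ha b j
    have hq0 : q ≠ 0 := Complex.exp_ne_zero _
    have t2 : ∀ m : ℕ, xx ((W j * (rr : ℂ) ^ (m + 1)) ^ a) = L (j + d * (m + 1)) := by
      intro m
      simp only [hL]
      rw [mul_pow, hWja, hrap, ← pow_add]
    have t3 : ∀ m : ℕ, xx (((W j)⁻¹ * (rr : ℂ) ^ (m + 1)) ^ a) = L ((d - j) + d * m) := by
      intro m
      simp only [hL]
      congr 1
      rw [mul_pow, inv_pow, hWja, hrap]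
      have e : d * (m + 1) = j + ((d - j) + d * m) := by
        rw [← add_assoc, Nat.add_sub_cancel' h2.le]
        ring
      rw [e, pow_add, inv_mul_cancel_left₀ (pow_ne_zero _ hq0)]
    rw [Finset.sum_congr rfl e1, outer ha hζ n2 n1]
    congr 1
    have s1 : Summable fun m : ℕ => L (j + d * (m + 1)) :=
      (summable_nat_add_iff (f := fun m : ℕ => L (j + d * m)) 1).2 (hAs j h1)
    have s2 : Summable fun m : ℕ => L ((d - j) + d * m) := hAs (d - j) (by omega)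
    have eA : A j = L j + ∑' m : ℕ, L (j + d * (m + 1)) := (hAs j h1).tsum_eq_zero_add
    rw [eA, hWja]
    rw [tsum_congr (fun m => by rw [t2 m, t3 m]), s1.tsum_add s2, add_assoc]
  -- the part `k₀ = 0`
  have hinner : ∑ t ∈ Finset.Ico 1 a, ff (W (0 + d * t)) = (1 - (a : ℂ) ^ 2) / 12 +
      (2 * (a : ℂ) ^ 2 * A d - 2 * ((1 - E2f Complex.I) / 24)) := by
    have hW0 : W 0 = 1 := by
      simp only [hW]
      unfold otor
      simp
    have hz : ∀ t ∈ Finset.Ico 1 a, ζ ^ t ∈ good := by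
      intro t ht
      rw [Finset.mem_Ico] at ht
      have h1 : W (0 + d * t) ∈ good := by
        apply hWgood
        · have : 1 ≤ d * t := Nat.one_le_iff_ne_zero.2 (Nat.mul_ne_zero (by omega) (by omega))
          omega
        · rw [zero_add, mul_comm a d]
          exact Nat.mul_lt_mul_of_pos_left ht.2 (by omega)
      rw [hWadd, hW0, mul_one] at h1
      refine ⟨pow_ne_zero _ (zeta_ne ha hζ), fun k hk => h1.2 (k + t) ?_⟩
      rw [hk, zpow_add₀ rrc_ne0, zpow_natCast, mul_comm]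
    have e1 : ∀ t ∈ Finset.Ico 1 a, ff (W (0 + d * t)) = ff (ζ ^ t) := by
      intro t ht
      rw [hWadd, hW0, mul_one, ff_rr_pow (hz t ht)]
    rw [Finset.sum_congr rfl e1, inner ha hζ hz]
    congr 1
    have s2 : Summable fun m : ℕ => L (d + d * m) := hAs d hd
    have e2 : ∀ m : ℕ, 2 * ((a : ℂ) ^ 2 * xx (((rr : ℂ) ^ (m + 1)) ^ a) - xx ((rr : ℂ) ^ (m + 1))) =
        2 * (a : ℂ) ^ 2 * L (d + d * m) - 2 * xx ((rr : ℂ) ^ (m + 1)) := by
      intro m
      simp only [hL]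
      rw [hrap, show d * (m + 1) = d + d * m by ring]
      ring
    rw [tsum_congr e2, (s2.mul_left _).tsum_sub (his.mul_left _), tsum_mul_left, tsum_mul_left, hi]
  -- total
  have htot : ∑ k ∈ Finset.Ico 1 (a * d), ff (W k) =
      (E2f Complex.I - (a : ℂ) ^ 2 * E2f (osig a d b)) / 12 := by
    have had : 0 < a * d := Nat.mul_pos (by omega) (by omega)
    set F : ℕ → ℂ := fun k => if k = 0 then 0 else ff (W k) with hF
    have f0 : F 0 = 0 := if_pos rfl
    have f1 : ∀ k, k ≠ 0 → F k = ff (W k) := fun k hk => if_neg hk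
    have g1 : ∑ k ∈ Finset.Ico 1 (a * d), ff (W k) = ∑ k ∈ Finset.range (a * d), F k := by
      rw [Finset.range_eq_Ico, Finset.sum_eq_sum_Ico_succ_bot had, f0, zero_add]
      apply Finset.sum_congr rfl
      intro k hk
      rw [Finset.mem_Ico] at hk
      rw [f1 k (by omega)]
    have g2 : ∑ t ∈ Finset.range a, F (0 + d * t) = (1 - (a : ℂ) ^ 2) / 12 +
        (2 * (a : ℂ) ^ 2 * A d - 2 * ((1 - E2f Complex.I) / 24)) := by
      rw [← hinner, Finset.range_eq_Ico, Finset.sum_eq_sum_Ico_succ_bot (by omega), mul_zero,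
        add_zero, f0, zero_add]
      apply Finset.sum_congr rfl
      intro t ht
      rw [Finset.mem_Ico] at ht
      have : 1 ≤ d * t := Nat.one_le_iff_ne_zero.2 (Nat.mul_ne_zero (by omega) (by omega))
      rw [f1 _ (by omega)]
    have g3 : ∀ j ∈ Finset.Ico 1 d, ∑ t ∈ Finset.range a, F (j + d * t) =
        (a : ℂ) ^ 2 * (A j + A (d - j)) := by
      intro j hj
      rw [Finset.mem_Ico] at hj
      rw [← houter j hj.1 hj.2]
      apply Finset.sum_congr rfl
      intro t _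
      rw [f1 _ (by omega)]
    have g4 : ∑ j ∈ Finset.Ico 1 d, A (d - j) = ∑ j ∈ Finset.Ico 1 d, A j := by
      have h := Finset.sum_Ico_reflect A 1 (m := d) (n := d) (by omega)
      rw [h]
      congr 2
      omega
    have g5 : ∑ j ∈ Finset.Ico 1 d, A j + A d = (1 - E2f (osig a d b)) / 24 := by
      rw [← Finset.sum_Ico_succ_top hd, Finset.sum_Ico_eq_sum_range, ← hAsum,
        Nat.add_sub_cancel]
      apply Finset.sum_congr rfl
      intro j _
      rw [add_comm]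
    rw [g1, sum_range_mul, Finset.range_eq_Ico (a := d), Finset.sum_eq_sum_Ico_succ_bot (by omega), g2,
      Finset.sum_congr rfl g3, ← Finset.mul_sum, Finset.sum_add_distrib, g4]
    linear_combination 2 * (a : ℂ) ^ 2 * g5
  -- conclusion
  have hwp : ∀ k ∈ Finset.Ico 1 (a * d), ff (W k) =
      (s0 : ℂ) / 4 * Xn (otor a d b k) ^ 1 - E2f Complex.I / 12 := by
    intro k hk
    rw [Finset.mem_Ico] at hk
    have h := ff_eq_wp _ (otor_notMem ha hd hab hk.1 hk.2)
    have hs : (s0 : ℂ) ≠ 0 := by exact_mod_cast s0_pos.ne'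
    rw [pow_one]
    unfold Xn
    simp only [hW]
    rw [h]
    field_simp
  rw [Finset.sum_congr rfl hwp, Finset.sum_sub_distrib, ← Finset.mul_sum, Finset.sum_const,
    Nat.card_Ico, nsmul_eq_mul] at htot
  have hN : ((a * d - 1 : ℕ) : ℂ) = (a : ℂ) * (d : ℂ) - 1 := by
    rw [Nat.cast_sub (Nat.one_le_iff_ne_zero.2 (Nat.mul_ne_zero (by omega) (by omega)))]
    push_cast
    ring
  rw [hN, E2f_I] at htot
  have hpi : (Real.pi : ℂ) ≠ 0 := Complex.ofReal_ne_zero.mpr Real.pi_ne_zero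
  unfold oS
  have h3 : 3 * ((a : ℂ) * (d : ℂ)) / (Real.pi : ℂ) = ((a : ℂ) * (d : ℂ)) * (3 / (Real.pi : ℂ)) := by
    ring
  rw [h3]
  linear_combination 12 * htot

end Pool.Agent.Lib.MP5e
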