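import Pool.Agent.Lib.MP_5e64e7_nt.OTorPt

set_option autoImplicit false

/-!
# O.LAT : decomposition of the lattice `ℤσ + ℤ` into cosets of a multiple of `ℤ[i]` (about 150 lines)

`σ = (a i + b)/d`, `a, d ≥ 1`, `gcd(a, b) = 1`, `N = a d`. For `0 ≤ k < N` and `x, y ∈ ℤ` put
`v = (k + d x, a y - b x)`. Then `v₀ σ + v₁ = k σ + x (a i + b) + a y - b x = a (k σ/a + x i + y)`, and
`(k, x, y) ↦ v` is a bijection `Fin N × ℤ × ℤ → ℤ²`: given `(m, n)` one needs `a ∣ b x + n`, which fixes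
`x` modulo `a` (`b` is invertible modulo `a`), and `k = m - d x ∈ [0, a d)` fixes `x` within its class
modulo `a`; then `y = (b x + n)/a`. (Injectivity and surjectivity by hand, `Equiv.ofBijective`.)
Hence `∑_v (v₀ σ + v₁)^(-r) = a^(-r) ∑_{k<N} ∑_{x,y} (kσ/a + x i + y)^(-r)
  = a^(-r) (2πi)^r ∑_{k<N} ∑_{x,y} (otor k + 2πi (x i + y))^(-r)`, and `2πi (x i + y) = -2π x + 2πi y` runs
over `LP.lattice` (`LP.latticeEquivProd`, compare `G2_G` in `G2.lean`), so the inner sum is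
`LP.sumInvPow (-(otor k)) r = ∑' l, ((l + otor k)^r)⁻¹`. Absolute convergence: `PeriodPair.hasSum_sumInvPow`
(`2 < r`), which gives the summability on the right hand side (finite sum over `k`), and the left
hand side is obtained by transport through the bijection (`Equiv.tsum_eq`, `tsum_prod`/`tsum_fintype`).
-/

noncomputable section

namespace Pool.Agent.Lib.MP5e

open Polynomial Topology

/-- the parametrisation of `ℤ²` -/
private def olatE (a d : ℕ) (b : ℤ) (p : Fin (a * d) × (ℤ × ℤ)) : Fin 2 → ℤ :=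
  ![((p.1 : ℕ) : ℤ) - d * p.2.1, a * p.2.2 + b * p.2.1]

private theorem olatE_bij {a d : ℕ} (ha : 1 ≤ a) (hd : 1 ≤ d) {b : ℤ}
    (hab : IsCoprime (a : ℤ) b) : Function.Bijective (olatE a d b) := by
  have ha0 : (a : ℤ) ≠ 0 := by exact_mod_cast (by omega : a ≠ 0)
  have hd0 : (d : ℤ) ≠ 0 := by exact_mod_cast (by omega : d ≠ 0)
  have had : (0 : ℤ) < ((a * d : ℕ) : ℤ) := by
    have : 0 < a * d := Nat.mul_pos ha hd
    exact_mod_cast this
  constructor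
  · rintro ⟨k, x, y⟩ ⟨k', x', y'⟩ h
    have h0 := congrFun h 0
    have h1 := congrFun h 1
    simp only [olatE, Matrix.cons_val_zero, Matrix.cons_val_one] at h0 h1
    have h2 : (a : ℤ) ∣ b * (x - x') := ⟨y' - y, by linear_combination h1⟩
    obtain ⟨t, ht⟩ := hab.dvd_of_dvd_mul_left h2
    have h3 : ((k : ℕ) : ℤ) - ((k' : ℕ) : ℤ) = ((a * d : ℕ) : ℤ) * t := by
      push_cast
      linear_combination h0 + (d : ℤ) * ht
    have hk := k.2
    have hk' := k'.2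
    have hkz : ((k : ℕ) : ℤ) < ((a * d : ℕ) : ℤ) := by exact_mod_cast hk
    have hkz' : ((k' : ℕ) : ℤ) < ((a * d : ℕ) : ℤ) := by exact_mod_cast hk'
    have hk0 : (0 : ℤ) ≤ ((k : ℕ) : ℤ) := Int.natCast_nonneg _
    have hk0' : (0 : ℤ) ≤ ((k' : ℕ) : ℤ) := Int.natCast_nonneg _
    have ht0 : t = 0 := by
      by_contra hne
      rcases lt_or_gt_of_ne hne with h4 | h4
      · have : ((a * d : ℕ) : ℤ) * t ≤ ((a * d : ℕ) : ℤ) * (-1) :=
          mul_le_mul_of_nonneg_left (by omega) had.le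
        omega
      · have : ((a * d : ℕ) : ℤ) * 1 ≤ ((a * d : ℕ) : ℤ) * t :=
          mul_le_mul_of_nonneg_left (by omega) had.le
        omega
    rw [ht0, mul_zero] at ht h3
    have hx : x = x' := by omega
    have hkk : k = k' := by
      apply Fin.ext
      omega
    have hy : y = y' := by
      apply mul_left_cancel₀ ha0
      rw [hx] at h1
      linarith
    rw [hx, hkk, hy]
  · intro v
    obtain ⟨u, w, huw⟩ := hab
    set c : ℤ := v 0 + d * (w * v 1) with hc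
    have hlt := Int.emod_lt_of_pos c had
    have hnn := Int.emod_nonneg c had.ne'
    have hdm := Int.mul_ediv_add_emod c ((a * d : ℕ) : ℤ)
    refine ⟨(⟨(c % ((a * d : ℕ) : ℤ)).toNat, ?_⟩, (w * v 1 - a * (c / ((a * d : ℕ) : ℤ)),
      u * v 1 + b * (c / ((a * d : ℕ) : ℤ)))), ?_⟩
    · have h5 : (((c % ((a * d : ℕ) : ℤ)).toNat : ℕ) : ℤ) < ((a * d : ℕ) : ℤ) := by
        rw [Int.toNat_of_nonneg hnn]; exact hlt
      exact_mod_cast h5
    · have h6 : (((c % ((a * d : ℕ) : ℤ)).toNat : ℕ) : ℤ) = c % ((a * d : ℕ) : ℤ) :=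
        Int.toNat_of_nonneg hnn
      have e0 : (((c % ((a * d : ℕ) : ℤ)).toNat : ℕ) : ℤ) -
          d * (w * v 1 - a * (c / ((a * d : ℕ) : ℤ))) = v 0 := by
        rw [h6]
        have h7 : c % ((a * d : ℕ) : ℤ) = c - ((a : ℤ) * d) * (c / ((a * d : ℕ) : ℤ)) := by
          have h8 : ((a * d : ℕ) : ℤ) * (c / ((a * d : ℕ) : ℤ)) =
            ((a : ℤ) * d) * (c / ((a * d : ℕ) : ℤ)) := by push_cast; rfl
          linarith
        rw [h7, hc]
        ring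
      have e1 : (a : ℤ) * (u * v 1 + b * (c / ((a * d : ℕ) : ℤ))) +
          b * (w * v 1 - a * (c / ((a * d : ℕ) : ℤ))) = v 1 := by
        linear_combination (v 1) * huw
      funext i
      fin_cases i
      · exact e0
      · exact e1

private theorem olat_term {a d : ℕ} (ha : 1 ≤ a) (hd : 1 ≤ d) (b : ℤ) (r : ℕ)
    (k : ℕ) (x y : ℤ) :
    (((((k : ℤ) - d * x : ℤ) : ℂ) * osig a d b + ((a * y + b * x : ℤ) : ℂ)) ^ r)⁻¹ =
      (2 * (Real.pi : ℂ) * Complex.I) ^ r / (a : ℂ) ^ r *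
        ((((x : ℂ) * LP.ω₁ + (y : ℂ) * LP.ω₂) - -(otor a d b k)) ^ r)⁻¹ := by
  have ha' : (a : ℂ) ≠ 0 := by exact_mod_cast (by omega : a ≠ 0)
  have hd' : (d : ℂ) ≠ 0 := by exact_mod_cast (by omega : d ≠ 0)
  have hpi : (Real.pi : ℂ) ≠ 0 := by exact_mod_cast Real.pi_ne_zero
  have h2 : (2 * (Real.pi : ℂ) * Complex.I) ≠ 0 :=
    mul_ne_zero (mul_ne_zero two_ne_zero hpi) Complex.I_ne_zero
  have h1 : ((((k : ℤ) - d * x : ℤ) : ℂ) * osig a d b + ((a * y + b * x : ℤ) : ℂ)) =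
      (a : ℂ) / (2 * (Real.pi : ℂ) * Complex.I) *
        (((x : ℂ) * LP.ω₁ + (y : ℂ) * LP.ω₂) - -(otor a d b k)) := by
    rw [div_mul_eq_mul_div, eq_div_iff h2]
    have e1 : LP.ω₁ = 2 * (Real.pi : ℂ) := rfl
    have e2 : LP.ω₂ = 2 * (Real.pi : ℂ) * Complex.I := rfl
    rw [e1, e2]
    unfold otor osig
    push_cast
    field_simp
    linear_combination (-(x : ℂ) * (a : ℂ) * (d : ℂ)) * Complex.I_sq
  rw [h1, mul_pow, div_pow, mul_inv, inv_div]

theorem lat_sum {a d : ℕ} (ha : 1 ≤ a) (hd : 1 ≤ d) {b : ℤ} (hab : IsCoprime (a : ℤ) b)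
    {r : ℕ} (hr : 2 < r) :
    ∑' v : Fin 2 → ℤ, (((v 0 : ℂ) * osig a d b + (v 1 : ℂ)) ^ r)⁻¹ =
      (2 * (Real.pi : ℂ) * Complex.I) ^ r / (a : ℂ) ^ r *
        ∑ k ∈ Finset.range (a * d), LP.sumInvPow (-(otor a d b k)) r := by
  have hinner : ∀ k : ℕ, HasSum (fun p : ℤ × ℤ =>
      ((((p.1 : ℂ) * LP.ω₁ + (p.2 : ℂ) * LP.ω₂) - -(otor a d b k)) ^ r)⁻¹)
      (LP.sumInvPow (-(otor a d b k)) r) := by
    intro k
    have h1 := LP.hasSum_sumInvPow (-(otor a d b k)) hr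
    rw [← LP.latticeEquivProd.symm.toEquiv.hasSum_iff] at h1
    refine h1.congr_fun ?_ 
    intro p
    have h2 := LP.latticeEquiv_symm_apply p
    change _ = ((((LP.latticeEquivProd.symm p : LP.lattice) : ℂ) - -(otor a d b k)) ^ r)⁻¹
    rw [h2]
  have hsum : Summable (fun p : Fin (a * d) × (ℤ × ℤ) =>
      ((((p.2.1 : ℂ) * LP.ω₁ + (p.2.2 : ℂ) * LP.ω₂) - -(otor a d b (p.1 : ℕ))) ^ r)⁻¹) := by
    rw [← summable_norm_iff, summable_prod_of_nonneg (fun p => norm_nonneg _)]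
    refine ⟨fun k => ?_, Summable.of_finite⟩
    exact (hinner (k : ℕ)).summable.norm
  have hprod : ∑' p : Fin (a * d) × (ℤ × ℤ),
      ((((p.2.1 : ℂ) * LP.ω₁ + (p.2.2 : ℂ) * LP.ω₂) - -(otor a d b (p.1 : ℕ))) ^ r)⁻¹ =
      ∑ k ∈ Finset.range (a * d), LP.sumInvPow (-(otor a d b k)) r := by
    rw [hsum.tsum_prod, tsum_fintype, Finset.sum_range]
    exact Finset.sum_congr rfl fun k _ => (hinner (k : ℕ)).tsum_eq
  rw [← hprod, ← tsum_mul_left, ← (Equiv.ofBijective _ (olatE_bij ha hd hab)).tsum_eq]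
  refine tsum_congr fun p => ?_
  rw [← olat_term ha hd b r (p.1 : ℕ) p.2.1 p.2.2]
  rfl

end Pool.Agent.Lib.MP5e
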