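import Pool.Agent.Lib.MP_5e64e7_nt.OPow
import Pool.Agent.Lib.MP_5e64e7_nt.OLat
import Pool.Agent.Lib.MP_5e64e7_nt.G2

set_option autoImplicit false

/-!
# O.E46 : `E₄` and `E₆` at Gaussian rational points (about 150 lines; checked numerically)

`∑_v (v₀σ + v₁)^(-4) = 2ζ(4) E₄(σ) = (π⁴/45) E4f σ` and `∑_v (v₀σ + v₁)^(-6) = 2ζ(6) E₆(σ) = (2π⁶/945) E6f σ`:
see the proof of `g2_eq` in `G2.lean` (`tsum_eisSummand_eq_tsum_sigma_mul_cexp_pow`, `riemannZeta_four`,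
and `riemannZeta_two_mul_nat` for `ζ(6) = π⁶/945`).
By `lat_sum` the left hand sides are `16π⁴ a^(-4) ∑_{k<N} S₄(k)` and `-64π⁶ a^(-6) ∑_{k<N} S₆(k)`,
`S_r(k) = LP.sumInvPow (-(otor k)) r`. For `k = 0`: `S_r(0) = LP.G r` (`sumInvPow_zero`), `G 4 = g₂/60 = s₀²/240`,
`G 6 = g₃/140 = 0` (`g2_eq`, `g3_eq`). For `1 ≤ k < N` (`otor_notMem`, `weierstrassP_neg`), with
`℘ = (s₀/4) X`: `S₄ = ℘² - g₂/12 = s₀² (3X² - 1)/48` and `S₆ = ℘³ - (3/20) g₂ ℘ = (s₀³/64)(X³ - (3/5) X)`.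
So `(π⁴/45) a⁴ E4f σ = 16π⁴ (s₀²/240 + s₀² ∑ (3X²-1)/48)`, i.e.
`a⁴ E4f σ = s₀² (3 - 15 (N-1) + 45 ∑ X²)`, and
`(2π⁶/945) a⁶ E6f σ = -π⁶ s₀³ ∑ (X³ - (3/5) X)`, i.e. `2 a⁶ E6f σ = -s₀³ (945 ∑ X³ - 567 ∑ X)`.
(`Finset.range (a*d)` is `{0} ∪ Finset.Ico 1 (a*d)`.)
-/

noncomputable section

namespace Pool.Agent.Lib.MP5e

open Polynomial Topology

/-- the full lattice sum of weight 4 -/
private lemma E46_four {σ : ℂ} (hσ : 0 < σ.im) :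
    ∑' v : Fin 2 → ℤ, (((v 0 : ℂ) * σ + (v 1 : ℂ)) ^ 4)⁻¹ =
      (Real.pi : ℂ) ^ 4 / 45 * E4f σ := by
  have h1 := tsum_eisSummand_eq_tsum_sigma_mul_cexp_pow (k := 4) (by norm_num)
    (by decide) ⟨σ, hσ⟩
  have h0 : ∑' v : Fin 2 → ℤ, (((v 0 : ℂ) * σ + (v 1 : ℂ)) ^ 4)⁻¹ =
      ∑' v : Fin 2 → ℤ, EisensteinSeries.eisSummand ((4 : ℕ) : ℤ) v ⟨σ, hσ⟩ := by
    refine tsum_congr fun v => ?_
    rw [EisensteinSeries.eisSummand, zpow_neg, zpow_natCast]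
  have h2 : E4f σ = 1 + 240 * ∑' n : ℕ+, ((ArithmeticFunction.sigma 3 n : ℕ) : ℂ) *
      Complex.exp (2 * (Real.pi : ℂ) * Complex.I * σ) ^ (n : ℕ) := by
    rw [E4f, tsum_pnat_eq_tsum_succ (f := fun n : ℕ => ((ArithmeticFunction.sigma 3 n : ℕ) : ℂ) *
      Complex.exp (2 * (Real.pi : ℂ) * Complex.I * σ) ^ n)]
  have e5 : riemannZeta ((4 : ℕ) : ℂ) = (Real.pi : ℂ) ^ 4 / 90 := by
    rw [← riemannZeta_four]
    norm_num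
  have e6 : (((4 - 1).factorial : ℕ) : ℂ) = 6 := by
    norm_num [Nat.factorial]
  have e7 : (-2 * (Real.pi : ℂ) * Complex.I) ^ 4 = 16 * (Real.pi : ℂ) ^ 4 := by
    rw [show (-2 * (Real.pi : ℂ) * Complex.I) ^ 4 =
      16 * (Real.pi : ℂ) ^ 4 * (Complex.I * Complex.I) ^ 2 by ring, Complex.I_mul_I]
    ring
  rw [h0, h1, e5, e6, e7, h2]
  change 2 * ((Real.pi : ℂ) ^ 4 / 90) + 2 * (16 * (Real.pi : ℂ) ^ 4 / 6) * (∑' n : ℕ+,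
      ((ArithmeticFunction.sigma 3 n : ℕ) : ℂ) *
      Complex.exp (2 * (Real.pi : ℂ) * Complex.I * σ) ^ (n : ℕ)) = _
  ring

/-- the full lattice sum of weight 6 -/
private lemma E46_six {σ : ℂ} (hσ : 0 < σ.im) :
    ∑' v : Fin 2 → ℤ, (((v 0 : ℂ) * σ + (v 1 : ℂ)) ^ 6)⁻¹ =
      2 * (Real.pi : ℂ) ^ 6 / 945 * E6f σ := by
  have h1 := tsum_eisSummand_eq_tsum_sigma_mul_cexp_pow (k := 6) (by norm_num)
    (by decide) ⟨σ, hσ⟩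
  have h0 : ∑' v : Fin 2 → ℤ, (((v 0 : ℂ) * σ + (v 1 : ℂ)) ^ 6)⁻¹ =
      ∑' v : Fin 2 → ℤ, EisensteinSeries.eisSummand ((6 : ℕ) : ℤ) v ⟨σ, hσ⟩ := by
    refine tsum_congr fun v => ?_
    rw [EisensteinSeries.eisSummand, zpow_neg, zpow_natCast]
  have h2 : E6f σ = 1 - 504 * ∑' n : ℕ+, ((ArithmeticFunction.sigma 5 n : ℕ) : ℂ) *
      Complex.exp (2 * (Real.pi : ℂ) * Complex.I * σ) ^ (n : ℕ) := by
    rw [E6f, tsum_pnat_eq_tsum_succ (f := fun n : ℕ => ((ArithmeticFunction.sigma 5 n : ℕ) : ℂ) *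
      Complex.exp (2 * (Real.pi : ℂ) * Complex.I * σ) ^ n)]
  have e5 : riemannZeta ((6 : ℕ) : ℂ) = (Real.pi : ℂ) ^ 6 / 945 := by
    have h3 := riemannZeta_two_mul_nat (k := 3) (by norm_num)
    have h4 : (2 : ℂ) * ((3 : ℕ) : ℂ) = ((6 : ℕ) : ℂ) := by norm_num
    rw [h4] at h3
    rw [h3]
    norm_num [Nat.factorial]
    rw [show _root_.bernoulli 6 = 1 / 42 by decide +kernel]
    push_cast
    ring
  have e6 : (((6 - 1).factorial : ℕ) : ℂ) = 120 := by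
    norm_num [Nat.factorial]
  have e7 : (-2 * (Real.pi : ℂ) * Complex.I) ^ 6 = -64 * (Real.pi : ℂ) ^ 6 := by
    rw [show (-2 * (Real.pi : ℂ) * Complex.I) ^ 6 =
      64 * (Real.pi : ℂ) ^ 6 * (Complex.I * Complex.I) ^ 3 by ring, Complex.I_mul_I]
    ring
  rw [h0, h1, e5, e6, e7, h2]
  change 2 * ((Real.pi : ℂ) ^ 6 / 945) + 2 * (-64 * (Real.pi : ℂ) ^ 6 / 120) * (∑' n : ℕ+,
      ((ArithmeticFunction.sigma 5 n : ℕ) : ℂ) *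
      Complex.exp (2 * (Real.pi : ℂ) * Complex.I * σ) ^ (n : ℕ)) = _
  ring

private lemma E46_zero (a d : ℕ) (b : ℤ) : otor a d b 0 = 0 := by
  simp [otor]

private lemma E46_wp (s : ℂ) : LP.weierstrassP s = (s0 : ℂ) / 4 * Xn s := by
  have hs : (s0 : ℂ) ≠ 0 := by exact_mod_cast s0_pos.ne'
  unfold Xn
  field_simp

private lemma E46_im {a d : ℕ} (ha : 1 ≤ a) (hd : 1 ≤ d) (b : ℤ) : 0 < (osig a d b).im := by
  rw [osig_im hd]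
  have h1 : (0 : ℝ) < a := by exact_mod_cast ha
  have h2 : (0 : ℝ) < d := by exact_mod_cast hd
  positivity

private lemma E46_range {a d : ℕ} (hN : 0 < a * d) (f : ℕ → ℂ) :
    ∑ k ∈ Finset.range (a * d), f k = f 0 + ∑ k ∈ Finset.Ico 1 (a * d), f k := by
  rw [Finset.range_eq_Ico, Finset.sum_eq_sum_Ico_succ_bot hN]

theorem E4_osig {a d : ℕ} (ha : 1 ≤ a) (hd : 1 ≤ d) {b : ℤ} (hab : IsCoprime (a : ℤ) b) :
    (a : ℂ) ^ 4 * E4f (osig a d b) =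
      (s0 : ℂ) ^ 2 * (18 - 15 * ((a : ℂ) * (d : ℂ)) + 45 * oS a d b 2) := by
  have hN : 0 < a * d := Nat.mul_pos ha hd
  have h1 := lat_sum ha hd hab (r := 4) (by norm_num)
  rw [E46_four (E46_im ha hd b), E46_range hN, E46_zero, neg_zero, PeriodPair.sumInvPow_zero] at h1
  have hG : LP.G 4 = (s0 : ℂ) ^ 2 / 240 := by
    have h2 := g2_eq
    rw [PeriodPair.g₂] at h2
    linear_combination h2 / 60
  have hS : ∑ k ∈ Finset.Ico 1 (a * d), LP.sumInvPow (-(otor a d b k)) 4 =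
      (s0 : ℂ) ^ 2 / 16 * oS a d b 2 - (s0 : ℂ) ^ 2 / 48 * ((a : ℂ) * (d : ℂ) - 1) := by
    have h3 : ∀ k ∈ Finset.Ico 1 (a * d), LP.sumInvPow (-(otor a d b k)) 4 =
        (s0 : ℂ) ^ 2 / 16 * Xn (otor a d b k) ^ 2 - (s0 : ℂ) ^ 2 / 48 := by
      intro k hk
      rw [Finset.mem_Ico] at hk
      have h4 : otor a d b k ∉ LP.lattice := otor_notMem ha hd hab hk.1 hk.2
      have h5 : -(otor a d b k) ∉ LP.lattice := fun h => h4 (by simpa using LP.lattice.neg_mem h)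
      rw [sumInvPow_four LP h5, PeriodPair.weierstrassP_neg, g2_eq, E46_wp]
      ring
    rw [Finset.sum_congr rfl h3, Finset.sum_sub_distrib, ← Finset.mul_sum, Finset.sum_const,
      Nat.card_Ico, nsmul_eq_mul, Nat.cast_sub (by omega : 1 ≤ a * d)]
    unfold oS
    push_cast
    ring
  rw [hG, hS] at h1
  have hpi : (Real.pi : ℂ) ≠ 0 := by exact_mod_cast Real.pi_ne_zero
  have ha0 : (a : ℂ) ≠ 0 := by
    have : a ≠ 0 := by omega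
    exact_mod_cast this
  have e7 : (2 * (Real.pi : ℂ) * Complex.I) ^ 4 = 16 * (Real.pi : ℂ) ^ 4 := by
    rw [show (2 * (Real.pi : ℂ) * Complex.I) ^ 4 =
      16 * (Real.pi : ℂ) ^ 4 * (Complex.I * Complex.I) ^ 2 by ring, Complex.I_mul_I]
    ring
  rw [e7] at h1
  have hp4 : (Real.pi : ℂ) ^ 4 ≠ 0 := pow_ne_zero _ hpi
  have ha4 : (a : ℂ) ^ 4 ≠ 0 := pow_ne_zero _ ha0
  have h6 : (Real.pi : ℂ) ^ 4 * ((a : ℂ) ^ 4 * E4f (osig a d b)) = (Real.pi : ℂ) ^ 4 *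
      ((s0 : ℂ) ^ 2 * (18 - 15 * ((a : ℂ) * (d : ℂ)) + 45 * oS a d b 2)) := by
    calc (Real.pi : ℂ) ^ 4 * ((a : ℂ) ^ 4 * E4f (osig a d b))
        = 45 * (a : ℂ) ^ 4 * ((Real.pi : ℂ) ^ 4 / 45 * E4f (osig a d b)) := by ring
      _ = 45 * (a : ℂ) ^ 4 * (16 * (Real.pi : ℂ) ^ 4 / (a : ℂ) ^ 4 *
          ((s0 : ℂ) ^ 2 / 240 + ((s0 : ℂ) ^ 2 / 16 * oS a d b 2 -
            (s0 : ℂ) ^ 2 / 48 * ((a : ℂ) * (d : ℂ) - 1)))) := by rw [h1]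
      _ = ((a : ℂ) ^ 4 / (a : ℂ) ^ 4) * ((Real.pi : ℂ) ^ 4 *
          ((s0 : ℂ) ^ 2 * (18 - 15 * ((a : ℂ) * (d : ℂ)) + 45 * oS a d b 2))) := by ring
      _ = _ := by rw [div_self ha4, one_mul]
  exact mul_left_cancel₀ hp4 h6

theorem E6_osig {a d : ℕ} (ha : 1 ≤ a) (hd : 1 ≤ d) {b : ℤ} (hab : IsCoprime (a : ℤ) b) :
    2 * (a : ℂ) ^ 6 * E6f (osig a d b) =
      -((s0 : ℂ) ^ 3 * (945 * oS a d b 3 - 567 * oS a d b 1)) := by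
  have hN : 0 < a * d := Nat.mul_pos ha hd
  have h1 := lat_sum ha hd hab (r := 6) (by norm_num)
  rw [E46_six (E46_im ha hd b), E46_range hN, E46_zero, neg_zero, PeriodPair.sumInvPow_zero] at h1
  have hG : LP.G 6 = 0 := by
    have h2 := g3_eq
    rw [PeriodPair.g₃] at h2
    linear_combination h2 / 140
  have hS : ∑ k ∈ Finset.Ico 1 (a * d), LP.sumInvPow (-(otor a d b k)) 6 =
      (s0 : ℂ) ^ 3 / 64 * oS a d b 3 - 3 * (s0 : ℂ) ^ 3 / 320 * oS a d b 1 := by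
    have h3 : ∀ k ∈ Finset.Ico 1 (a * d), LP.sumInvPow (-(otor a d b k)) 6 =
        (s0 : ℂ) ^ 3 / 64 * Xn (otor a d b k) ^ 3 -
          3 * (s0 : ℂ) ^ 3 / 320 * Xn (otor a d b k) ^ 1 := by
      intro k hk
      rw [Finset.mem_Ico] at hk
      have h4 : otor a d b k ∉ LP.lattice := otor_notMem ha hd hab hk.1 hk.2
      have h5 : -(otor a d b k) ∉ LP.lattice := fun h => h4 (by simpa using LP.lattice.neg_mem h)
      rw [sumInvPow_six LP h5, PeriodPair.weierstrassP_neg, g2_eq, g3_eq, E46_wp]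
      ring
    rw [Finset.sum_congr rfl h3, Finset.sum_sub_distrib, ← Finset.mul_sum, ← Finset.mul_sum]
    rfl
  rw [hG, hS, zero_add] at h1
  have hpi : (Real.pi : ℂ) ≠ 0 := by exact_mod_cast Real.pi_ne_zero
  have ha0 : (a : ℂ) ≠ 0 := by
    have : a ≠ 0 := by omega
    exact_mod_cast this
  have e7 : (2 * (Real.pi : ℂ) * Complex.I) ^ 6 = -64 * (Real.pi : ℂ) ^ 6 := by
    rw [show (2 * (Real.pi : ℂ) * Complex.I) ^ 6 =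
      64 * (Real.pi : ℂ) ^ 6 * (Complex.I * Complex.I) ^ 3 by ring, Complex.I_mul_I]
    ring
  rw [e7] at h1
  have hp6 : (Real.pi : ℂ) ^ 6 ≠ 0 := pow_ne_zero _ hpi
  have ha6 : (a : ℂ) ^ 6 ≠ 0 := pow_ne_zero _ ha0
  have h6 : (Real.pi : ℂ) ^ 6 * (2 * (a : ℂ) ^ 6 * E6f (osig a d b)) = (Real.pi : ℂ) ^ 6 *
      (-((s0 : ℂ) ^ 3 * (945 * oS a d b 3 - 567 * oS a d b 1))) := by
    calc (Real.pi : ℂ) ^ 6 * (2 * (a : ℂ) ^ 6 * E6f (osig a d b))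
        = 945 * (a : ℂ) ^ 6 * (2 * (Real.pi : ℂ) ^ 6 / 945 * E6f (osig a d b)) := by ring
      _ = 945 * (a : ℂ) ^ 6 * (-64 * (Real.pi : ℂ) ^ 6 / (a : ℂ) ^ 6 *
          ((s0 : ℂ) ^ 3 / 64 * oS a d b 3 - 3 * (s0 : ℂ) ^ 3 / 320 * oS a d b 1)) := by rw [h1]
      _ = ((a : ℂ) ^ 6 / (a : ℂ) ^ 6) * ((Real.pi : ℂ) ^ 6 *
          (-((s0 : ℂ) ^ 3 * (945 * oS a d b 3 - 567 * oS a d b 1)))) := by ring
      _ = _ := by rw [div_self ha6, one_mul]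
  exact mul_left_cancel₀ hp6 h6

end Pool.Agent.Lib.MP5e
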