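import Pool.Agent.Lib.MP_5e64e7_nt.OTor
import Pool.Agent.Lib.MP_5e64e7_nt.OE2
import Pool.Agent.Lib.MP_5e64e7_nt.OE46
import Pool.Agent.Lib.MP_5e64e7_nt.Ser

set_option autoImplicit false

/-!
# O.CMD : heights of `E₂, E₄, E₆` at Gaussian rational points (about 250 lines)

Let `τ = (x + y i)/c` (`gr x y c`), `y > 0`.
Step 1 (reduction). Divide `x, y, c` by `gcd(x, y, c)`: `τ = (y' i + x')/c'` with `gcd(x', y', c') = 1`.
There is an integer `t`, `0 ≤ t ≤ y'`, with `gcd(y', x' + c' t) = 1`: take for `t` the product of the primes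
dividing `y'` but not `x'` (a prime `p` dividing `y'` and `x'` does not divide `c'` nor `t`; a prime dividing
`y'` but not `x'` divides `t`); or use `ZMod.unitsMap_surjective`. With `a = y'`, `d = c'`,
`b = x' + c' t` (`|b| ≤ 2B²`): `τ + t = osig a d b`, `IsCoprime a b`, and `E2f, E4f, E6f` have the
same values at `τ` and `τ + t` (`E2f_add_int`, ...), also the same imaginary part.
Step 2. Apply `exists_tor` to `N = a d ≤ B²`, `s = otor a d b 1` (`otor_mul`, `otor_top`, `otor_notMem`): a field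
`K`, `α`. Put `lam = 2 a α`. By `E2_osig`, `E4_osig`, `E6_osig`, `Im σ = a/d` (`osig_im`):
`lam² E2f σ = s₀ (-12 α² S₁) + lam² · 3/(π Im σ)`,
`lam⁴ E4f σ = s₀² · 16 α⁴ (18 - 15 N + 45 S₂)`, `lam⁶ E6f σ = s₀³ · (-32 α⁶ (945 S₃ - 567 S₁))`, `S_r = oS a d b r`.
`α^r S_r = ∑ (α X_k)^r` and `AI K (2^(2N³)) (α X_k)`; all three are in `AI K (2^E)` with `E` a polynomial in
`N`, so `E ≤ B^C`. Work with exponents: `AI K (2^e) x → AI K (2^f) y → AI K (2^(e+f)) (x*y)` and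
`AI K (2^(e+f+1)) (x+y)` (copy the private lemmas `val_*` of `Val.lean` with base `2`); a sum of `N - 1` terms
in `AI K (2^e)` is in `AI K (2^(e+N))`. Note `N^j ≤ B^(2j)` and constants `≤ 2^12 ≤ B^12`,
so `E ≤ B^C` with, e.g., `C = 40`.
-/

noncomputable section

namespace Pool.Agent.Lib.MP5e

open Polynomial Topology

/-- CM data at `σ` with the scaling factor `lam` -/
def OCMD (K : IntermediateField ℚ ℂ) (E lam : ℕ) (σ : ℂ) : Prop :=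
  1 ≤ lam ∧ lam ≤ 2 ^ E ∧ ∃ a b c : ℂ, AI K ((2 : ℝ) ^ E) a ∧ AI K ((2 : ℝ) ^ E) b ∧
    AI K ((2 : ℝ) ^ E) c ∧
    (lam : ℂ) ^ 2 * E2f σ = (s0 : ℂ) * a + (lam : ℂ) ^ 2 * (3 / ((Real.pi : ℂ) * (σ.im : ℂ))) ∧
    (lam : ℂ) ^ 4 * E4f σ = (s0 : ℂ) ^ 2 * b ∧ (lam : ℂ) ^ 6 * E6f σ = (s0 : ℂ) ^ 3 * c

/-- a shift making the pair coprime -/
private lemma cmd_shift {a c : ℕ} {x : ℤ} (ha : 1 ≤ a)
    (h : ∀ p : ℕ, p.Prime → p ∣ a → (p : ℤ) ∣ x → ¬ p ∣ c) :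
    ∃ t : ℤ, IsCoprime (a : ℤ) (x + c * t) := by
  classical
  set t : ℕ := ∏ p ∈ a.primeFactors.filter (fun p : ℕ => ¬ (p : ℤ) ∣ x), p with ht
  refine ⟨(t : ℤ), ?_⟩
  rw [Int.isCoprime_iff_gcd_eq_one]
  by_contra hne
  have hnc : ¬ Nat.Coprime (a : ℤ).natAbs (x + c * (t : ℤ)).natAbs := hne
  rw [Nat.Prime.not_coprime_iff_dvd] at hnc
  obtain ⟨p, hp, hpa, hpx⟩ := hnc
  rw [Int.natAbs_natCast] at hpa
  have hpx' : (p : ℤ) ∣ x + c * (t : ℤ) := Int.natCast_dvd.mpr hpx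
  by_cases hx : (p : ℤ) ∣ x
  · have h1 : (p : ℤ) ∣ (c : ℤ) * (t : ℤ) := (Int.dvd_add_right hx).mp hpx'
    have h2 : p ∣ c * t := by exact_mod_cast h1
    rcases (Nat.Prime.dvd_mul hp).mp h2 with h3 | h3
    · exact h p hp hpa hx h3
    · rw [ht, Prime.dvd_finset_prod_iff hp.prime] at h3
      obtain ⟨q, hq, hpq⟩ := h3
      rw [Finset.mem_filter] at hq
      have hqp : q.Prime := Nat.prime_of_mem_primeFactors hq.1
      have : p = q := (Nat.prime_dvd_prime_iff_eq hp hqp).mp hpq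
      subst this
      exact hq.2 hx
  · have h1 : p ∣ t := by
      rw [ht]
      apply Finset.dvd_prod_of_mem
      rw [Finset.mem_filter]
      exact ⟨Nat.mem_primeFactors.mpr ⟨hp, hpa, by omega⟩, hx⟩
    have h2 : (p : ℤ) ∣ (c : ℤ) * (t : ℤ) := Dvd.dvd.mul_left (by exact_mod_cast h1) _
    exact hx ((Int.dvd_add_left h2).mp hpx')

/-- reduction to a point `(a i + b) / d` with `a, b` coprime -/
private lemma cmd_red {B c : ℕ} {x y : ℤ} (hc : 1 ≤ c) (hcB : c ≤ B) (hy : 0 < y)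
    (hyB : y ≤ (B : ℤ)) :
    ∃ (a d : ℕ) (b t : ℤ), 1 ≤ a ∧ a ≤ B ∧ 1 ≤ d ∧ d ≤ B ∧ IsCoprime (a : ℤ) b ∧
      osig a d b = gr x y c + (t : ℂ) := by
  obtain ⟨y', rfl⟩ : ∃ y' : ℕ, y = (y' : ℤ) := ⟨y.toNat, by omega⟩
  set g : ℕ := Nat.gcd (Nat.gcd x.natAbs y') c with hg
  have hgpos : 0 < g := Nat.gcd_pos_of_pos_right _ hc
  have hgx : (g : ℤ) ∣ x := by
    apply Int.natCast_dvd.mpr
    exact (Nat.gcd_dvd_left _ _).trans (Nat.gcd_dvd_left _ _)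
  have hgy : g ∣ y' := (Nat.gcd_dvd_left _ _).trans (Nat.gcd_dvd_right _ _)
  have hgc : g ∣ c := Nat.gcd_dvd_right _ _
  obtain ⟨x1, hx1⟩ := hgx
  obtain ⟨a, ha⟩ := hgy
  obtain ⟨d, hd⟩ := hgc
  have hapos : 1 ≤ a := by
    rcases Nat.eq_zero_or_pos a with h | h
    · rw [h] at ha; simp at ha; omega
    · exact h
  have hdpos : 1 ≤ d := by
    rcases Nat.eq_zero_or_pos d with h | h
    · rw [h] at hd; simp at hd; omega
    · exact h
  have haB : a ≤ B := by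
    have : a ≤ y' := by rw [ha]; exact Nat.le_mul_of_pos_left _ hgpos
    have h2 : y' ≤ B := by exact_mod_cast hyB
    omega
  have hdB : d ≤ B := by
    have : d ≤ c := by rw [hd]; exact Nat.le_mul_of_pos_left _ hgpos
    omega
  have hprime : ∀ p : ℕ, p.Prime → p ∣ a → (p : ℤ) ∣ x1 → ¬ p ∣ d := by
    intro p hp hpa hpx hpd
    have h1 : g * p ∣ y' := by rw [ha]; exact Nat.mul_dvd_mul_left _ hpa
    have h2 : g * p ∣ c := by rw [hd]; exact Nat.mul_dvd_mul_left _ hpd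
    have h3 : g * p ∣ x.natAbs := by
      rw [hx1, Int.natAbs_mul, Int.natAbs_natCast]
      exact Nat.mul_dvd_mul_left _ (Int.natCast_dvd.mp hpx)
    have h4 : g * p ∣ g := Nat.dvd_gcd (Nat.dvd_gcd h3 h1) h2
    have h5 : g * p ≤ g := Nat.le_of_dvd hgpos h4
    have h6 := hp.two_le
    nlinarith
  obtain ⟨t, ht⟩ := cmd_shift hapos hprime
  refine ⟨a, d, x1 + d * t, t, hapos, haB, hdpos, hdB, ht, ?_⟩
  have hg0 : (g : ℂ) ≠ 0 := by exact_mod_cast hgpos.ne'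
  have hd0 : (d : ℂ) ≠ 0 := by
    have : d ≠ 0 := by omega
    exact_mod_cast this
  unfold osig gr
  rw [hx1, hd, ha]
  push_cast
  field_simp
  ring

section arith

variable {K : IntermediateField ℚ ℂ}

private lemma cmd_mul {n m : ℕ} {x y : ℂ} (h : AI K ((2 : ℝ) ^ n) x) (h' : AI K ((2 : ℝ) ^ m) y) :
    AI K ((2 : ℝ) ^ (n + m)) (x * y) := by
  rw [pow_add]
  exact h.mul h'

private lemma cmd_sum_le (n m : ℕ) :
    (2 : ℝ) ^ n + (2 : ℝ) ^ m ≤ (2 : ℝ) ^ (n + m + 1) := by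
  have h1 : (1 : ℝ) ≤ (2 : ℝ) ^ n := one_le_pow₀ (by norm_num)
  have h2 : (1 : ℝ) ≤ (2 : ℝ) ^ m := one_le_pow₀ (by norm_num)
  have h3 : (2 : ℝ) ^ (n + m + 1) = 2 * ((2 : ℝ) ^ n * (2 : ℝ) ^ m) := by ring
  rw [h3]
  nlinarith

private lemma cmd_add {n m : ℕ} {x y : ℂ} (h : AI K ((2 : ℝ) ^ n) x)
    (h' : AI K ((2 : ℝ) ^ m) y) : AI K ((2 : ℝ) ^ (n + m + 1)) (x + y) :=
  (h.add h').mono le_rfl (cmd_sum_le n m)

private lemma cmd_sub {n m : ℕ} {x y : ℂ} (h : AI K ((2 : ℝ) ^ n) x)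
    (h' : AI K ((2 : ℝ) ^ m) y) : AI K ((2 : ℝ) ^ (n + m + 1)) (x - y) :=
  (h.sub h').mono le_rfl (cmd_sum_le n m)

private lemma cmd_pow {n : ℕ} (k : ℕ) {x : ℂ} (h : AI K ((2 : ℝ) ^ n) x) :
    AI K ((2 : ℝ) ^ (n * k)) (x ^ k) := by
  rw [pow_mul]
  exact h.pow k

private lemma cmd_const (c n : ℕ) (h : c ≤ 2 ^ n) : AI K ((2 : ℝ) ^ n) (c : ℂ) := by
  refine (AI.nat K c).mono le_rfl ?_
  exact_mod_cast h

private lemma cmd_mono {n m : ℕ} {x : ℂ} (h : AI K ((2 : ℝ) ^ n) x) (hnm : n ≤ m) :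
    AI K ((2 : ℝ) ^ m) x := by
  refine h.mono le_rfl ?_
  exact pow_le_pow_right₀ (by norm_num) hnm

private lemma cmd_sum {M : ℝ} (s : Finset ℕ) (f : ℕ → ℂ) (h : ∀ k ∈ s, AI K M (f k)) :
    AI K ((s.card : ℝ) * M) (∑ k ∈ s, f k) := by
  classical
  induction s using Finset.induction_on with
  | empty => simpa using AI.nat K 0
  | insert a s ha ih =>
    rw [Finset.sum_insert ha, Finset.card_insert_of_notMem ha]
    have h1 := (h a (Finset.mem_insert_self a s)).add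
      (ih (fun k hk => h k (Finset.mem_insert_of_mem hk)))
    refine h1.mono le_rfl ?_
    push_cast
    linarith

/-- the power sums -/
private lemma cmd_S {a d : ℕ} {b : ℤ} {α : ℕ} (hN : 1 ≤ a * d)
    (h : ∀ k : ℕ, 1 ≤ k → k < a * d →
      AI K ((2 : ℝ) ^ (2 * (a * d) ^ 3)) ((α : ℂ) * Xn ((k : ℂ) * otor a d b 1))) (r : ℕ) :
    AI K ((2 : ℝ) ^ ((a * d) ^ 3 * (2 * r + 1))) ((α : ℂ) ^ r * oS a d b r) := by
  set N := a * d with hNdef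
  have hT : N ≤ N ^ 3 := by
    calc N = N ^ 1 := (pow_one N).symm
      _ ≤ N ^ 3 := Nat.pow_le_pow_right hN (by norm_num)
  have e : (α : ℂ) ^ r * oS a d b r =
      ∑ k ∈ Finset.Ico 1 N, ((α : ℂ) * Xn ((k : ℂ) * otor a d b 1)) ^ r := by
    unfold oS
    rw [Finset.mul_sum]
    refine Finset.sum_congr rfl fun k _ => ?_
    rw [otor_mul, mul_pow]
  rw [e]
  have h1 := cmd_sum (K := K) (M := (2 : ℝ) ^ (2 * N ^ 3 * r)) (Finset.Ico 1 N)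
    (fun k => ((α : ℂ) * Xn ((k : ℂ) * otor a d b 1)) ^ r)
    (fun k hk => by
      rw [Finset.mem_Ico] at hk
      exact cmd_pow r (h k hk.1 hk.2))
  refine h1.mono le_rfl ?_
  rw [Nat.card_Ico]
  have h2 : ((N - 1 : ℕ) : ℝ) ≤ (2 : ℝ) ^ N ^ 3 := by
    have h3 : N - 1 ≤ 2 ^ N ^ 3 := by
      have h4 : N < 2 ^ N := Nat.lt_two_pow_self
      have h5 : 2 ^ N ≤ 2 ^ N ^ 3 := Nat.pow_le_pow_right (by norm_num) hT
      omega
    exact_mod_cast h3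
  calc ((N - 1 : ℕ) : ℝ) * (2 : ℝ) ^ (2 * N ^ 3 * r)
      ≤ (2 : ℝ) ^ N ^ 3 * (2 : ℝ) ^ (2 * N ^ 3 * r) :=
        mul_le_mul_of_nonneg_right h2 (by positivity)
    _ = (2 : ℝ) ^ (N ^ 3 * (2 * r + 1)) := by
        rw [← pow_add]
        congr 1
        ring

end arith

theorem ocmd : ∃ C : ℕ, ∀ (K0 : IntermediateField ℚ ℂ), FiniteDimensional ℚ K0 →
    ∀ (B c : ℕ) (x y : ℤ), 2 ≤ B → 1 ≤ c → c ≤ B → |x| ≤ (B : ℤ) → 0 < y → y ≤ (B : ℤ) →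
    ∃ K : IntermediateField ℚ ℂ, K0 ≤ K ∧ FiniteDimensional ℚ K ∧
      Module.finrank ℚ K ≤ B ^ C * Module.finrank ℚ K0 ∧
      ∃ lam : ℕ, OCMD K (B ^ C) lam (gr x y c) := by
  refine ⟨12, ?_⟩
  intro K0 hfd B c x y hB hc hcB _ hy hyB
  obtain ⟨a, d, b, t, ha, haB, hd, hdB, hab, hσ⟩ := cmd_red (x := x) hc hcB hy hyB
  have hN : 1 ≤ a * d := Nat.mul_pos ha hd
  have hNB : a * d ≤ B ^ 2 := by
    calc a * d ≤ B * B := Nat.mul_le_mul haB hdB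
      _ = B ^ 2 := by ring
  set T : ℕ := (a * d) ^ 3 with hTdef
  have hT1 : 1 ≤ T := Nat.one_le_pow _ _ hN
  have hTB : T ≤ B ^ 6 := by
    calc T ≤ (B ^ 2) ^ 3 := Nat.pow_le_pow_left hNB 3
      _ = B ^ 6 := by ring
  have hNT : a * d ≤ T := by
    calc a * d = (a * d) ^ 1 := (pow_one _).symm
      _ ≤ T := Nat.pow_le_pow_right hN (by norm_num)
  have haT : a ≤ T := (Nat.le_mul_of_pos_right a hd).trans hNT
  have hE : 18 * T + 31 ≤ B ^ 12 := by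
    have h64 : 64 ≤ B ^ 6 := by
      calc 64 = 2 ^ 6 := by norm_num
        _ ≤ B ^ 6 := Nat.pow_le_pow_left hB 6
    calc 18 * T + 31 ≤ 64 * T := by omega
      _ ≤ B ^ 6 * B ^ 6 := Nat.mul_le_mul h64 hTB
      _ = B ^ 12 := by ring
  obtain ⟨K, hK, hKfd, hrank, α, hα1, hα, hX⟩ := exists_tor K0 hfd (a * d) hN (otor a d b 1)
    (otor_top ha hd b) (fun k hk hk' => by rw [otor_mul]; exact otor_notMem ha hd hab hk hk')
  refine ⟨K, hK, hKfd, ?_, 2 * a * α, ?_, ?_, ?_⟩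
  · refine hrank.trans (Nat.mul_le_mul_right _ ?_)
    calc (a * d) ^ 3 ≤ B ^ 6 := hTB
      _ ≤ B ^ 12 := Nat.pow_le_pow_right (by omega) (by norm_num)
  · exact Nat.mul_pos (Nat.mul_pos (by norm_num) ha) hα1
  · have h1 : a ≤ 2 ^ T := (haT.trans (Nat.lt_two_pow_self).le)
    calc 2 * a * α ≤ 2 * 2 ^ T * 2 ^ T := Nat.mul_le_mul (Nat.mul_le_mul_left 2 h1) hα
      _ = 2 ^ (2 * T + 1) := by ring
      _ ≤ 2 ^ B ^ 12 := Nat.pow_le_pow_right (by norm_num) (by omega)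
  -- the values
  have hA : AI K ((2 : ℝ) ^ T) (α : ℂ) := cmd_const α T hα
  have hS1 := cmd_S hN hX 1
  have hS2 := cmd_S hN hX 2
  have hS3 := cmd_S hN hX 3
  rw [← hTdef] at hS1 hS2 hS3
  have e2 := E2_osig ha hd hab
  have e4 := E4_osig ha hd hab
  have e6 := E6_osig ha hd hab
  have him : (gr x y c).im = (a : ℝ) / (d : ℝ) := by
    have h1 := osig_im (a := a) hd b
    rw [hσ, Complex.add_im, Complex.intCast_im, add_zero] at h1
    exact h1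
  rw [hσ, E2f_add_int] at e2
  rw [hσ, E4f_add_int] at e4
  rw [hσ, E6f_add_int] at e6
  have ha0 : (a : ℂ) ≠ 0 := by
    have : a ≠ 0 := by omega
    exact_mod_cast this
  have hd0 : (d : ℂ) ≠ 0 := by
    have : d ≠ 0 := by omega
    exact_mod_cast this
  have hπ : (Real.pi : ℂ) ≠ 0 := by exact_mod_cast Real.pi_ne_zero
  refine ⟨-(((12 : ℕ) : ℂ) * (α : ℂ) * ((α : ℂ) ^ 1 * oS a d b 1)),
    ((16 : ℕ) : ℂ) * (α : ℂ) ^ 4 * (((18 : ℕ) : ℂ) - ((15 : ℕ) : ℂ) * ((a * d : ℕ) : ℂ)) +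
      ((720 : ℕ) : ℂ) * (α : ℂ) ^ 2 * ((α : ℂ) ^ 2 * oS a d b 2),
    ((18144 : ℕ) : ℂ) * (α : ℂ) ^ 5 * ((α : ℂ) ^ 1 * oS a d b 1) -
      ((30240 : ℕ) : ℂ) * (α : ℂ) ^ 3 * ((α : ℂ) ^ 3 * oS a d b 3), ?_, ?_, ?_, ?_, ?_, ?_⟩
  · exact cmd_mono (AI.neg (cmd_mul (cmd_mul (cmd_const 12 4 (by norm_num)) hA) hS1)) (by omega)
  · refine cmd_mono (cmd_add (cmd_mul (cmd_mul (cmd_const 16 4 (by norm_num)) (cmd_pow 4 hA))
      (cmd_sub (cmd_const 18 5 (by norm_num)) (cmd_mul (cmd_const 15 4 (by norm_num))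
        (cmd_const (a * d) T (hNT.trans (Nat.lt_two_pow_self).le)))))
      (cmd_mul (cmd_mul (cmd_const 720 10 (by norm_num)) (cmd_pow 2 hA)) hS2)) (by omega)
  · refine cmd_mono (cmd_sub
      (cmd_mul (cmd_mul (cmd_const 18144 15 (by norm_num)) (cmd_pow 5 hA)) hS1)
      (cmd_mul (cmd_mul (cmd_const 30240 15 (by norm_num)) (cmd_pow 3 hA)) hS3)) (by omega)
  · rw [him]
    have h1 : ((2 * a * α : ℕ) : ℂ) ^ 2 * E2f (gr x y c) =
        4 * (α : ℂ) ^ 2 * ((a : ℂ) ^ 2 * E2f (gr x y c)) := by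
      push_cast; ring
    rw [h1, e2]
    push_cast
    field_simp
    ring
  · have h1 : ((2 * a * α : ℕ) : ℂ) ^ 4 * E4f (gr x y c) =
        16 * (α : ℂ) ^ 4 * ((a : ℂ) ^ 4 * E4f (gr x y c)) := by
      push_cast; ring
    rw [h1, e4]
    push_cast
    ring
  · have h1 : ((2 * a * α : ℕ) : ℂ) ^ 6 * E6f (gr x y c) =
        32 * (α : ℂ) ^ 6 * (2 * (a : ℂ) ^ 6 * E6f (gr x y c)) := by
      push_cast; ring
    rw [h1, e6]
    push_cast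
    ring

end Pool.Agent.Lib.MP5e
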