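import Pool.Agent.Lib.MP_5e64e7_nt.ODefs
import Pool.Agent.Lib.MP_5e64e7_nt.Exa

set_option autoImplicit false

/-!
# O.EXA : an explicit number

`w = ∑_m 2^(-a m)`, `a 0 = 1`, `a (k+1) = 2^((k+1) a k)`; deduced from `exa` for `z = i + w`.
-/

noncomputable section

namespace Pool.Agent.Lib.MP5e

open Polynomial Topology

theorem oexa (a : ℕ → ℕ) (h0 : a 0 = 1) (h1 : ∀ k, a (k + 1) = 2 ^ ((k + 1) * a k)) :
    SG ((∑' m : ℕ, (1 : ℝ) / 2 ^ a m : ℝ) : ℂ) := by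
  intro C
  obtain ⟨w, hw⟩ : ∃ w : ℂ, w = ((∑' m : ℕ, (1 : ℝ) / 2 ^ a m : ℝ) : ℂ) := ⟨_, rfl⟩
  have hz : ∀ l : Fin 1, (fun _ : Fin 1 => Complex.I + w) l =
      Complex.I + ((∑' m : ℕ, (1 : ℝ) / 2 ^ a (m * 1 + l) : ℝ) : ℂ) := by
    intro l
    have hl : ((l : Fin 1) : ℕ) = 0 := by
      have := l.2
      omega
    simp only [hl, mul_one, add_zero]
    rw [hw]
  obtain ⟨B, e, g, hB, hdet, hent, hne, hfirst, -⟩ := exa a h0 h1 1 le_rfl _ hz (4 * C)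
  have hne0 := hne 0
  have hf0 := hfirst 0 rfl
  have hd := hdet 0
  obtain ⟨p, hp⟩ : ∃ p : ℤ, p = g 0 0 0 := ⟨_, rfl⟩
  obtain ⟨q, hq⟩ : ∃ q : ℤ, q = g 0 0 1 := ⟨_, rfl⟩
  obtain ⟨r, hr⟩ : ∃ r : ℤ, r = g 0 1 0 := ⟨_, rfl⟩
  obtain ⟨s, hs⟩ : ∃ s : ℤ, s = g 0 1 1 := ⟨_, rfl⟩
  have hpB : |p| ≤ (B : ℤ) := hp ▸ hent 0 0 0
  have hqB : |q| ≤ (B : ℤ) := hq ▸ hent 0 0 1
  have hrB : |r| ≤ (B : ℤ) := hr ▸ hent 0 1 0
  have hsB : |s| ≤ (B : ℤ) := hs ▸ hent 0 1 1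
  have hdet2 : p * s - q * r = 2 ^ e 0 := by
    rw [hp, hq, hr, hs, ← hd, Matrix.det_fin_two]
  have hc0 : 0 < r ^ 2 + s ^ 2 := by
    by_contra hcon
    have e1 : r = 0 := by nlinarith [sq_nonneg r, sq_nonneg s]
    have e2 : s = 0 := by nlinarith [sq_nonneg r, sq_nonneg s]
    rw [e1, e2] at hdet2
    have : (0 : ℤ) < 2 ^ e 0 := by positivity
    linarith
  obtain ⟨c, hc⟩ : ∃ c : ℕ, (c : ℤ) = r ^ 2 + s ^ 2 := ⟨(r ^ 2 + s ^ 2).toNat, by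
    rw [Int.toNat_of_nonneg hc0.le]⟩
  have hB' : (2 : ℤ) ≤ B := by exact_mod_cast hB
  -- the Gaussian rational
  obtain ⟨x, hx⟩ : ∃ x : ℤ, x = (q + r) * s + (p - s) * r := ⟨_, rfl⟩
  obtain ⟨y, hy⟩ : ∃ y : ℤ, y = (p - s) * s - (q + r) * r := ⟨_, rfl⟩
  have htau : tau (g 0) = Complex.I + gr x y c := by
    have hcC : (c : ℂ) = (r : ℂ) ^ 2 + (s : ℂ) ^ 2 := by
      have : ((c : ℤ) : ℂ) = ((r ^ 2 + s ^ 2 : ℤ) : ℂ) := by rw [hc]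
      push_cast at this
      exact this
    have hcC0 : (r : ℂ) ^ 2 + (s : ℂ) ^ 2 ≠ 0 := by
      have : ((r ^ 2 + s ^ 2 : ℤ) : ℂ) ≠ 0 := by exact_mod_cast hc0.ne'
      push_cast at this
      exact this
    have hfac : (r : ℂ) ^ 2 + (s : ℂ) ^ 2 =
        ((r : ℂ) * Complex.I + s) * (s - (r : ℂ) * Complex.I) := by
      linear_combination (r : ℂ) ^ 2 * Complex.I_sq
    have hV : (r : ℂ) * Complex.I + s ≠ 0 := by
      intro h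
      rw [h, zero_mul] at hfac
      exact hcC0 hfac
    unfold tau gr
    rw [← hp, ← hq, ← hr, ← hs, hcC, hx, hy]
    push_cast
    have e1 : ((p : ℂ) * Complex.I + q) / ((r : ℂ) * Complex.I + s) * ((r : ℂ) ^ 2 + (s : ℂ) ^ 2) =
        ((p : ℂ) * Complex.I + q) * (s - (r : ℂ) * Complex.I) := by
      rw [hfac, ← mul_assoc, div_mul_cancel₀ _ hV]
    rw [eq_comm, ← eq_sub_iff_add_eq', div_eq_iff hcC0,
      sub_mul (_ / _) Complex.I, e1]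
    linear_combination ((p : ℂ) * r) * Complex.I_sq
  have hsum : Complex.I + w - tau (g 0) = w - gr x y c := by
    rw [htau]
    ring
  have h4 : (4 : ℤ) * B ^ 2 ≤ B ^ 4 := by
    have e1 : (4 : ℤ) ≤ (B : ℤ) ^ 2 := by nlinarith
    nlinarith [mul_nonneg (sq_nonneg (B : ℤ)) (sub_nonneg.mpr e1)]
  obtain ⟨hp1, hp2⟩ := abs_le.mp hpB
  obtain ⟨hq1, hq2⟩ := abs_le.mp hqB
  obtain ⟨hr1, hr2⟩ := abs_le.mp hrB
  obtain ⟨hs1, hs2⟩ := abs_le.mp hsB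
  have hps : |p - s| ≤ 2 * (B : ℤ) := abs_le.mpr ⟨by linarith, by linarith⟩
  have hqr : |q + r| ≤ 2 * (B : ℤ) := abs_le.mpr ⟨by linarith, by linarith⟩
  have hmul : ∀ u v : ℤ, |u| ≤ 2 * (B : ℤ) → |v| ≤ B → |u * v| ≤ 2 * (B : ℤ) ^ 2 := by
    intro u v hu hv
    rw [abs_mul]
    calc |u| * |v| ≤ 2 * (B : ℤ) * B := mul_le_mul hu hv (abs_nonneg _) (by linarith)
      _ = _ := by ring
  refine ⟨B ^ 4, c, x, y, ?_, ?_, ?_, ?_, ?_, ?_, ?_⟩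
  · calc 2 ≤ B := hB
      _ = B ^ 1 := (pow_one _).symm
      _ ≤ B ^ 4 := Nat.pow_le_pow_right (by omega) (by norm_num)
  · have : (0 : ℤ) < c := by rw [hc]; exact hc0
    exact_mod_cast this
  · have h5 : (c : ℤ) ≤ (B : ℤ) ^ 4 := by
      rw [hc]
      have e1 : r ^ 2 ≤ (B : ℤ) ^ 2 := sq_le_sq' (by linarith) hr2
      have e2 : s ^ 2 ≤ (B : ℤ) ^ 2 := sq_le_sq' (by linarith) hs2
      nlinarith
    exact_mod_cast h5
  · push_cast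
    refine le_trans ?_ h4
    rw [hx]
    refine (abs_add_le _ _).trans ?_
    linarith [hmul _ _ hqr hsB, hmul _ _ hps hrB]
  · push_cast
    refine le_trans ?_ h4
    rw [hy]
    refine (abs_sub _ _).trans ?_
    linarith [hmul _ _ hps hsB, hmul _ _ hqr hrB]
  · rw [← hw]
    intro h
    apply hne0
    change Complex.I + w = tau (g 0)
    rw [htau, h]
  · rw [← hw]
    have h5 : ‖Complex.I + w - tau (g 0)‖ ≤ Real.exp (-((B : ℝ) ^ (4 * C))) := hf0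
    rw [hsum] at h5
    push_cast
    rw [← pow_mul]
    exact h5

end Pool.Agent.Lib.MP5e
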