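import Pool.Agent.Lib.MP_5e64e7_nt.ODefs

set_option autoImplicit false

/-!
# O.FOUR : sums over roots of unity (about 120 lines)

`four_x` : for `|v| < 1`, `v/(1-v)² = ∑_{m ≥ 0} m v^m` (`hasSum_coe_mul_geometric_of_norm_lt_one`).
Sum over `v = ζ^t u`, `t < a`; `∑_{t<a} ζ^(tm) = a` if `a ∣ m` and `0` otherwise
(`IsPrimitiveRoot.geom_sum_eq_zero` etc.), so the sum is `∑_{m, a ∣ m} a m u^m = a² ∑_m m (u^a)^m`.

`four_one` : for `ζ^t ≠ 1` and `S_t = ∑_{j<a} j ζ^(tj)` one has `S_t (ζ^t - 1) = a`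
(telescoping, `∑_{j<a} ζ^(tj) = 0`), and similarly for `ζ^(-t)`; and
`ζ^t/(1-ζ^t)² = - 1/((1-ζ^t)(1-ζ^(-t)))`, so `a² ζ^t/(1-ζ^t)² = - S_t S'_t` with
`S'_t = ∑_{j<a} j ζ^(-tj)`. Sum over all `t < a` (orthogonality):
`∑_{t<a} S_t S'_t = a ∑_{j<a} j²`, the term `t = 0` is `(∑_{j<a} j)²`. So
`a² ∑_{1≤t<a} ζ^t/(1-ζ^t)² = (a(a-1)/2)² - a² (a-1)(2a-1)/6 = a² (1 - a²)/12`.
(Any other proof is fine, e.g. logarithmic derivatives of `1 + X + ... + X^(a-1)` at `1`.)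
-/

noncomputable section

namespace Pool.Agent.Lib.MP5e

open Polynomial Topology

private theorem four_orth {a : ℕ} (_ha : 1 ≤ a) {ζ : ℂ} (hζ : IsPrimitiveRoot ζ a) (e : ℕ) :
    ∑ t ∈ Finset.range a, (ζ ^ t) ^ e = if a ∣ e then (a : ℂ) else 0 := by
  have h1 : ∀ t : ℕ, (ζ ^ t) ^ e = (ζ ^ e) ^ t := fun t => by rw [← pow_mul, ← pow_mul, mul_comm]
  simp_rw [h1]
  split_ifs with h
  · rw [(hζ.pow_eq_one_iff_dvd e).mpr h]
    simp
  · have hne : ζ ^ e ≠ 1 := fun h2 => h ((hζ.pow_eq_one_iff_dvd e).mp h2)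
    have h3 : (ζ ^ e) ^ a = 1 := by rw [← pow_mul, mul_comm, pow_mul, hζ.pow_eq_one, one_pow]
    rw [geom_sum_eq hne, h3]
    simp

theorem four_x {a : ℕ} (ha : 1 ≤ a) {ζ : ℂ} (hζ : IsPrimitiveRoot ζ a) {u : ℂ} (hu : ‖u‖ < 1) :
    ∑ t ∈ Finset.range a, ζ ^ t * u / (1 - ζ ^ t * u) ^ 2 =
      (a : ℂ) ^ 2 * (u ^ a / (1 - u ^ a) ^ 2) := by
  have hz : ‖ζ‖ = 1 := hζ.norm'_eq_one (by omega)
  have h1 : ∀ t ∈ Finset.range a, HasSum (fun m : ℕ => (m : ℂ) * (ζ ^ t * u) ^ m)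
      (ζ ^ t * u / (1 - ζ ^ t * u) ^ 2) := by
    intro t _
    refine hasSum_coe_mul_geometric_of_norm_lt_one ?_
    rw [norm_mul, norm_pow, hz, one_pow, one_mul]
    exact hu
  have h2 := hasSum_sum h1
  have h3 : (fun m : ℕ => ∑ t ∈ Finset.range a, (m : ℂ) * (ζ ^ t * u) ^ m) =
      fun m : ℕ => if a ∣ m then (a : ℂ) * ((m : ℂ) * u ^ m) else 0 := by
    funext m
    have h4 : ∀ t ∈ Finset.range a, (m : ℂ) * (ζ ^ t * u) ^ m =
        ((ζ ^ t) ^ m) * ((m : ℂ) * u ^ m) := fun t _ => by rw [mul_pow]; ring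
    rw [Finset.sum_congr rfl h4, ← Finset.sum_mul, four_orth ha hζ m]
    split_ifs <;> simp
  rw [h3] at h2
  have hua : ‖u ^ a‖ < 1 := by
    rw [norm_pow]
    exact pow_lt_one₀ (norm_nonneg u) hu (by omega)
  have h5 := (hasSum_coe_mul_geometric_of_norm_lt_one hua).mul_left ((a : ℂ) ^ 2)
  have hinj : Function.Injective (fun k : ℕ => a * k) := fun x y h =>
    Nat.eq_of_mul_eq_mul_left (by omega) h
  have h6 : HasSum ((fun m : ℕ => if a ∣ m then (a : ℂ) * ((m : ℂ) * u ^ m) else 0) ∘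
      (fun k : ℕ => a * k)) ((a : ℂ) ^ 2 * (u ^ a / (1 - u ^ a) ^ 2)) := by
    refine h5.congr_fun ?_
    intro k
    simp only [Function.comp_apply, Nat.dvd_mul_right, if_true]
    push_cast
    rw [pow_mul]
    ring
  have h7 := (hinj.hasSum_iff (f := fun m : ℕ => if a ∣ m then (a : ℂ) * ((m : ℂ) * u ^ m) else 0)
    (fun m hm => by
      have : ¬ a ∣ m := fun ⟨k, hk⟩ => hm ⟨k, hk.symm⟩
      simp [this])).mp h6
  exact h2.unique h7

private theorem four_S (z : ℂ) (n : ℕ) :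
    (∑ j ∈ Finset.range n, (j : ℂ) * z ^ j) * (z - 1) =
      (n : ℂ) * z ^ n - z * ∑ j ∈ Finset.range n, z ^ j := by
  induction n with
  | zero => simp
  | succ n ih =>
    rw [Finset.sum_range_succ, Finset.sum_range_succ, add_mul, ih]
    push_cast
    ring

private theorem four_s1 (n : ℕ) : ∑ j ∈ Finset.range n, (j : ℂ) = (n : ℂ) * (n - 1) / 2 := by
  induction n with
  | zero => simp
  | succ n ih =>
    rw [Finset.sum_range_succ, ih]
    push_cast
    ring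

private theorem four_s2 (n : ℕ) :
    ∑ j ∈ Finset.range n, (j : ℂ) * j = (n : ℂ) * (n - 1) * (2 * n - 1) / 6 := by
  induction n with
  | zero => simp
  | succ n ih =>
    rw [Finset.sum_range_succ, ih]
    push_cast
    ring

theorem four_one {a : ℕ} (ha : 1 ≤ a) {ζ : ℂ} (hζ : IsPrimitiveRoot ζ a) :
    ∑ t ∈ Finset.Ico 1 a, ζ ^ t / (1 - ζ ^ t) ^ 2 = (1 - (a : ℂ) ^ 2) / 12 := by
  have ha0 : (a : ℂ) ≠ 0 := by exact_mod_cast (by omega : a ≠ 0)
  have hζ0 : ζ ≠ 0 := hζ.ne_zero (by omega)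
  set S : ℂ → ℂ := fun z => ∑ j ∈ Finset.range a, (j : ℂ) * z ^ j with hS
  -- the values of `S`
  have hSz : ∀ z : ℂ, z ^ a = 1 → z ≠ 1 → S z * (z - 1) = a := by
    intro z h1 h2
    have h3 : ∑ j ∈ Finset.range a, z ^ j = 0 := by
      rw [geom_sum_eq h2, h1]
      simp
    have h4 := four_S z a
    rw [h3, h1] at h4
    rw [hS]
    simpa using h4
  have hterm : ∀ t ∈ Finset.Ico 1 a, ζ ^ t / (1 - ζ ^ t) ^ 2 =
      -(S (ζ ^ t) * S ((ζ ^ t) ^ (a - 1))) / (a : ℂ) ^ 2 := by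
    intro t ht
    rw [Finset.mem_Ico] at ht
    set z := ζ ^ t with hz
    have hz0 : z ≠ 0 := pow_ne_zero t hζ0
    have hza : z ^ a = 1 := by rw [hz, ← pow_mul, mul_comm, pow_mul, hζ.pow_eq_one, one_pow]
    have hz1 : z ≠ 1 := fun h => by
      have := (hζ.pow_eq_one_iff_dvd t).mp h
      exact absurd (Nat.le_of_dvd (by omega) this) (by omega)
    have hw : z ^ (a - 1) * z = 1 := by
      rw [← pow_succ, Nat.sub_add_cancel ha, hza]
    set w := z ^ (a - 1) with hwdef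
    have hwa : w ^ a = 1 := by rw [hwdef, ← pow_mul, mul_comm, pow_mul, hza, one_pow]
    have hw1 : w ≠ 1 := fun h => hz1 (by rw [h, one_mul] at hw; exact hw)
    have e1 := hSz z hza hz1
    have e2 := hSz w hwa hw1
    have hz1' : (1 : ℂ) - z ≠ 0 := sub_ne_zero.mpr (Ne.symm hz1)
    rw [div_eq_div_iff (pow_ne_zero 2 hz1') (pow_ne_zero 2 ha0)]
    have e3 : S z * (z - 1) * (S w * (w - 1)) = (a : ℂ) * a := by rw [e1, e2]
    have e4 : (z - 1) * (w - 1) * z = -(1 - z) ^ 2 := by linear_combination (z - 1) * hw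
    calc z * (a : ℂ) ^ 2 = z * (S z * (z - 1) * (S w * (w - 1))) := by rw [e3]; ring
      _ = S z * S w * ((z - 1) * (w - 1) * z) := by ring
      _ = -(S z * S w) * (1 - z) ^ 2 := by rw [e4]; ring
  rw [Finset.sum_congr rfl hterm, ← Finset.sum_div, Finset.sum_neg_distrib]
  -- the full sum
  have hfull : ∑ t ∈ Finset.range a, S (ζ ^ t) * S ((ζ ^ t) ^ (a - 1)) =
      (a : ℂ) * ((a : ℂ) * (a - 1) * (2 * a - 1) / 6) := by
    rw [← four_s2 a, Finset.mul_sum]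
    have h1 : ∀ t ∈ Finset.range a, S (ζ ^ t) * S ((ζ ^ t) ^ (a - 1)) =
        ∑ j ∈ Finset.range a, ∑ k ∈ Finset.range a,
          ((j : ℂ) * k) * (ζ ^ t) ^ (j + (a - 1) * k) := by
      intro t _
      rw [hS]
      simp only
      rw [Finset.sum_mul_sum]
      refine Finset.sum_congr rfl fun j _ => Finset.sum_congr rfl fun k _ => ?_
      rw [pow_add, pow_mul (ζ ^ t) (a - 1) k]
      ring
    rw [Finset.sum_congr rfl h1, Finset.sum_comm]
    refine Finset.sum_congr rfl fun j hj => ?_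
    rw [Finset.sum_comm]
    have h2 : ∀ k ∈ Finset.range a, ∑ t ∈ Finset.range a,
        ((j : ℂ) * k) * (ζ ^ t) ^ (j + (a - 1) * k) =
        if k = j then (a : ℂ) * ((j : ℂ) * j) else 0 := by
      intro k hk
      rw [Finset.mem_range] at hj hk
      rw [← Finset.mul_sum, four_orth ha hζ]
      have h3 : a ∣ j + (a - 1) * k ↔ k = j := by
        have h4 : j + (a - 1) * k + k = j + a * k := by
          obtain ⟨b, rfl⟩ : ∃ b, a = b + 1 := ⟨a - 1, by omega⟩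
          simp only [Nat.add_sub_cancel]
          ring
        constructor
        · rintro ⟨c, hc⟩
          rw [hc] at h4
          have h5 : (k : ℤ) ≡ (j : ℤ) [ZMOD (a : ℤ)] := by
            refine (Int.modEq_iff_dvd).mpr ⟨(c : ℤ) - k, ?_⟩
            have h6 : ((a * c + k : ℕ) : ℤ) = ((j + a * k : ℕ) : ℤ) := by rw [h4]
            push_cast at h6
            linear_combination -h6
          have h7 : k ≡ j [MOD a] := (Int.natCast_modEq_iff).mp h5
          exact Nat.ModEq.eq_of_lt_of_lt h7 hk hj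
        · rintro rfl
          refine ⟨k, ?_⟩
          have h8 : k + (a - 1) * k + k = a * k + k := by rw [h4]; ring
          exact Nat.add_right_cancel h8
      by_cases hkj : k = j
      · rw [if_pos (h3.mpr hkj), if_pos hkj, hkj]
        ring
      · rw [if_neg (fun h => hkj (h3.mp h)), if_neg hkj]
        ring
    rw [Finset.sum_congr rfl h2, Finset.sum_ite_eq', if_pos hj]
  rw [Finset.range_eq_Ico, Finset.sum_eq_sum_Ico_succ_bot (by omega)] at hfull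
  have h0 : S (ζ ^ 0) = (a : ℂ) * (a - 1) / 2 := by
    rw [← four_s1 a, hS]
    simp
  have h0' : S ((ζ ^ 0) ^ (a - 1)) = (a : ℂ) * (a - 1) / 2 := by
    rw [← four_s1 a, hS]
    simp
  rw [h0, h0'] at hfull
  have hfin : ∑ t ∈ Finset.Ico 1 a, S (ζ ^ t) * S ((ζ ^ t) ^ (a - 1)) =
      (a : ℂ) * ((a : ℂ) * (a - 1) * (2 * a - 1) / 6) -
        (a : ℂ) * (a - 1) / 2 * ((a : ℂ) * (a - 1) / 2) := by
    linear_combination hfull
  rw [hfin, div_eq_iff (pow_ne_zero 2 ha0)]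
  ring

end Pool.Agent.Lib.MP5e
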