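import Pool.Agent.Lib.MP_5e64e7_nt.ODefs

set_option autoImplicit false

/-!
# O.HIT : a path which meets the boundary circles at a generic point (about 200 lines)

`him g u = Im ((A u + B) conj (C u + D))` for `g = !![A, B; C, D]`; so
`him g u = |C u + D|² Im (mob g u)` if `C u + D ≠ 0`, and `him g u = 0` if `C u + D = 0`.

`him_line` : along a real line `s ↦ w + s v` the function `him g` is a real polynomial of degree at most two
in `s`: `c₀ + c₁ s + c₂ s²`, `c₀ = him g w`.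

`ohit` : choose `k₁ ∈ S`, `g k₁ = !![A, B; C, D]`. For real `x` with `A - C x ≠ 0` the point
`p(x) = (D x - B)/(A - C x)` satisfies `A p + B = x (C p + D)` and `C p + D = det/(A - C x) ≠ 0`, so
`him (g k₁) (p x) = 0`; `p` is injective, so these points form an infinite set `Γ`.
Let `Z` be the union of the finite sets `{him (g k) = 0 = him (g l)}`, `k ≠ l` in `S`, and of the poles
`-D_k/C_k` (`C_k ≠ 0`), `k ∈ S`. `w ∉ Z`. For `z ∈ Z` the set of `p ∈ Γ` with `p = w + s (z - w)` for some real `s`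
is finite, because `s ↦ him (g k₁) (w + s (z - w))` is a polynomial of degree at most two with the value
`him (g k₁) w > 0` at `s = 0`, so it has finitely many zeros. So there is `p ∈ Γ` such that no point of `Z` lies on
the segment from `w` to `p`. Let `t₁` be the smallest `t ∈ [0,1]` such that `him (g l) (w + t (p - w)) ≤ 0` for some
`l ∈ S` (the set of such `t` is closed and contains `1`: `IsCompact.exists_isLeast`). `t₁ > 0`, and by
continuity `him (g k) (w + t₁ (p - w)) = 0` for some `k ∈ S` and `≥ 0` for all `l ∈ S`. Put `t0 = w + t₁ (p - w)`. As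
`t0 ∉ Z`, `him (g l) t0 ≠ 0` for `l ≠ k`, so `> 0`, and `C_k t0 + D_k ≠ 0`. For `0 ≤ t < 1`:
`w + t (t0 - w) = w + (t t₁)(p - w)` with `t t₁ < t₁`.
-/

noncomputable section

namespace Pool.Agent.Lib.MP5e

open Polynomial Topology

private theorem ohit_im (r : ℝ) (z : ℂ) : ((r : ℂ) * z).im = r * z.im := by
  simp

theorem him_eq (g : Matrix (Fin 2) (Fin 2) ℂ) {u : ℂ} (h : g 1 0 * u + g 1 1 ≠ 0) :
    him g u = ‖g 1 0 * u + g 1 1‖ ^ 2 * (mob g u).im := by
  unfold him mob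
  set c := g 1 0 * u + g 1 1 with hc
  set a := g 0 0 * u + g 0 1 with ha
  have h1 : ((‖c‖ ^ 2 : ℝ) : ℂ) = c * (starRingEnd ℂ) c := by
    rw [Complex.mul_conj, Complex.normSq_eq_norm_sq]
  have h2 : a * (starRingEnd ℂ) c = ((‖c‖ ^ 2 : ℝ) : ℂ) * (a / c) := by
    rw [h1]
    field_simp
  rw [h2, ohit_im]

theorem him_ne (g : Matrix (Fin 2) (Fin 2) ℂ) {u : ℂ} (h : him g u ≠ 0) :
    g 1 0 * u + g 1 1 ≠ 0 := by
  intro h0
  apply h
  unfold him
  rw [h0, map_zero, mul_zero, Complex.zero_im]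

theorem him_continuous (g : Matrix (Fin 2) (Fin 2) ℂ) : Continuous (him g) := by
  unfold him
  have h1 : Continuous fun u : ℂ => (g 0 0 * u + g 0 1) * (starRingEnd ℂ) (g 1 0 * u + g 1 1) :=
    (by fun_prop : Continuous fun u : ℂ => g 0 0 * u + g 0 1).mul
      (Complex.continuous_conj.comp (by fun_prop : Continuous fun u : ℂ => g 1 0 * u + g 1 1))
  exact Complex.continuous_im.comp h1

/-- quadratic behaviour along real lines -/
private theorem ohit_line (g : Matrix (Fin 2) (Fin 2) ℂ) (w v : ℂ) :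
    ∃ c1 c2 : ℝ, ∀ s : ℝ, him g (w + (s : ℂ) * v) = him g w + c1 * s + c2 * s ^ 2 := by
  refine ⟨(g 0 0 * v * (starRingEnd ℂ) (g 1 0 * w + g 1 1) +
    (g 0 0 * w + g 0 1) * (starRingEnd ℂ) (g 1 0 * v)).im,
    (g 0 0 * v * (starRingEnd ℂ) (g 1 0 * v)).im, fun s => ?_⟩
  unfold him
  have h1 : (g 0 0 * (w + (s : ℂ) * v) + g 0 1) *
      (starRingEnd ℂ) (g 1 0 * (w + (s : ℂ) * v) + g 1 1) =
      (g 0 0 * w + g 0 1) * (starRingEnd ℂ) (g 1 0 * w + g 1 1) +
      (s : ℂ) * (g 0 0 * v * (starRingEnd ℂ) (g 1 0 * w + g 1 1) +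
        (g 0 0 * w + g 0 1) * (starRingEnd ℂ) (g 1 0 * v)) +
      ((s ^ 2 : ℝ) : ℂ) * (g 0 0 * v * (starRingEnd ℂ) (g 1 0 * v)) := by
    have h2 : (starRingEnd ℂ) (g 1 0 * (w + (s : ℂ) * v) + g 1 1) =
        (starRingEnd ℂ) (g 1 0 * w + g 1 1) + (s : ℂ) * (starRingEnd ℂ) (g 1 0 * v) := by
      simp only [map_add, map_mul, Complex.conj_ofReal]
      ring
    rw [h2]
    push_cast
    ring
  rw [h1, Complex.add_im, Complex.add_im, ohit_im, ohit_im]
  ring

/-- the zeros on a line through a point where `him` is positive -/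
private theorem ohit_fin (g : Matrix (Fin 2) (Fin 2) ℂ) (w v : ℂ) (hw : 0 < him g w) :
    {s : ℝ | him g (w + (s : ℂ) * v) = 0}.Finite := by
  obtain ⟨c1, c2, h⟩ := ohit_line g w v
  set q : ℝ[X] := C (him g w) + C c1 * X + C c2 * X ^ 2 with hq
  have hq0 : q ≠ 0 := by
    intro h0
    have h1 : q.eval 0 = him g w := by simp [hq]
    rw [h0, eval_zero] at h1
    exact hw.ne h1
  refine (q.roots.toFinset.finite_toSet).subset fun s hs => ?_
  have hs' : him g (w + (s : ℂ) * v) = 0 := hs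
  rw [h s] at hs'
  rw [Finset.mem_coe, Multiset.mem_toFinset, mem_roots hq0, IsRoot.def, hq]
  simp only [eval_add, eval_mul, eval_C, eval_X, eval_pow]
  exact hs'

theorem ohit (n : ℕ) (g : Fin n → Matrix (Fin 2) (Fin 2) ℂ) (hdet : ∀ k, (g k).det ≠ 0)
    (S : Finset (Fin n)) (hS : S.Nonempty) (w : ℂ) (hw : ∀ k ∈ S, 0 < him (g k) w)
    (hfin : ∀ k ∈ S, ∀ l ∈ S, k ≠ l → {u : ℂ | him (g k) u = 0 ∧ him (g l) u = 0}.Finite) :
    ∃ k ∈ S, ∃ t0 : ℂ, him (g k) t0 = 0 ∧ (g k) 1 0 * t0 + (g k) 1 1 ≠ 0 ∧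
      (∀ l ∈ S, l ≠ k → 0 < him (g l) t0) ∧
      ∀ t : ℝ, 0 ≤ t → t < 1 → ∀ l ∈ S, 0 < him (g l) (w + (t : ℂ) * (t0 - w)) := by
  classical
  obtain ⟨k₁, hk₁⟩ := hS
  set A := g k₁ 0 0 with hA
  set B := g k₁ 0 1 with hB
  set Cc := g k₁ 1 0 with hC
  set D := g k₁ 1 1 with hD
  have hdet1 : A * D - B * Cc ≠ 0 := by
    have := hdet k₁
    rwa [Matrix.det_fin_two] at this
  -- the exceptional set
  set Z : Set ℂ := (⋃ k ∈ S, ⋃ l ∈ S, {u : ℂ | k ≠ l ∧ him (g k) u = 0 ∧ him (g l) u = 0}) ∪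
    (⋃ k ∈ S, {u : ℂ | g k 1 0 * u + g k 1 1 = 0}) with hZ
  have hdet' : ∀ k, ∀ u : ℂ, g k 1 0 = 0 → g k 1 0 * u + g k 1 1 ≠ 0 := by
    intro k u h0 h1
    rw [h0, zero_mul, zero_add] at h1
    apply hdet k
    rw [Matrix.det_fin_two, h0, h1, mul_zero, mul_zero, sub_zero]
  have hZfin : Z.Finite := by
    refine Set.Finite.union ?_ ?_
    · refine S.finite_toSet.biUnion fun k hk => S.finite_toSet.biUnion fun l hl => ?_
      by_cases hkl : k = l
      · refine Set.finite_empty.subset fun u hu => ?_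
        exact hu.1 hkl
      · exact (hfin k hk l hl hkl).subset fun u hu => hu.2
    · refine S.finite_toSet.biUnion fun k _ => ?_
      refine (Set.subsingleton_of_subset_singleton (a := -(g k 1 1) / g k 1 0) ?_).finite
      intro u hu
      have hu' : g k 1 0 * u + g k 1 1 = 0 := hu
      rw [Set.mem_singleton_iff]
      have hC0 : g k 1 0 ≠ 0 := fun h0 => hdet' k u h0 hu'
      rw [eq_div_iff hC0]
      linear_combination hu'
  have hwZ : w ∉ Z := by
    rintro (h | h)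
    · simp only [Set.mem_iUnion] at h
      obtain ⟨k, hk, l, hl, h1, h2, h3⟩ := h
      exact (hw k hk).ne' h2
    · simp only [Set.mem_iUnion] at h
      obtain ⟨k, hk, h1⟩ := h
      exact him_ne (g k) (hw k hk).ne' h1
  -- the points of the first circle
  set P : ℝ → ℂ := fun x => (D * x - B) / (A - Cc * x) with hP
  have hPinj : ∀ x y : ℝ, A - Cc * x ≠ 0 → A - Cc * y ≠ 0 → P x = P y → x = y := by
    intro x y hx hy hxy
    simp only [hP] at hxy
    rw [div_eq_div_iff hx hy] at hxy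
    have h1 : (A * D - B * Cc) * ((x : ℂ) - y) = 0 := by linear_combination hxy
    rcases mul_eq_zero.1 h1 with h2 | h2
    · exact absurd h2 hdet1
    · exact_mod_cast sub_eq_zero.1 h2
  have hP0 : ∀ x : ℝ, A - Cc * x ≠ 0 → him (g k₁) (P x) = 0 := by
    intro x hx
    unfold him
    rw [← hA, ← hB, ← hC, ← hD]
    have hPx : P x * (A - Cc * x) = D * x - B := div_mul_cancel₀ _ hx
    have h1 : A * P x + B = (x : ℂ) * ((A * D - B * Cc) / (A - Cc * x)) := by
      rw [show (x : ℂ) * ((A * D - B * Cc) / (A - Cc * x)) =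
        (x * (A * D - B * Cc)) / (A - Cc * x) from (mul_div_assoc _ _ _).symm, eq_div_iff hx]
      linear_combination A * hPx
    have h2 : Cc * P x + D = (A * D - B * Cc) / (A - Cc * x) := by
      rw [eq_div_iff hx]
      linear_combination Cc * hPx
    rw [h1, h2, mul_assoc, Complex.mul_conj, ohit_im, Complex.ofReal_im, mul_zero]
  -- the exceptional parameters
  have hbad : ({x : ℝ | A - Cc * x = 0} ∪ ⋃ z ∈ Z, {x : ℝ | A - Cc * x ≠ 0 ∧
      ∃ s : ℝ, P x = w + (s : ℂ) * (z - w)}).Finite := by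
    refine Set.Finite.union ?_ (hZfin.biUnion fun z _ => ?_)
    · refine Set.Subsingleton.finite ?_
      intro x hx y hy
      have hx' : A - Cc * x = 0 := hx
      have hy' : A - Cc * y = 0 := hy
      have h1 : Cc * ((x : ℂ) - y) = 0 := by linear_combination hy' - hx'
      rcases mul_eq_zero.1 h1 with h2 | h2
      · exfalso
        rw [h2, zero_mul, sub_zero] at hx'
        apply hdet1
        rw [hx', h2]
        ring
      · exact_mod_cast sub_eq_zero.1 h2
    · have h1 := ohit_fin (g k₁) w (z - w) (hw k₁ hk₁)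
      refine (h1.biUnion (t := fun s => {x : ℝ | A - Cc * x ≠ 0 ∧
        P x = w + (s : ℂ) * (z - w)}) fun s _ => ?_).subset ?_
      · refine Set.Subsingleton.finite ?_
        intro x hx y hy
        exact hPinj x y hx.1 hy.1 (hx.2.trans hy.2.symm)
      · rintro x ⟨hx, s, hs⟩
        simp only [Set.mem_iUnion]
        refine ⟨s, ?_, hx, hs⟩
        change him (g k₁) (w + (s : ℂ) * (z - w)) = 0
        rw [← hs]
        exact hP0 x hx
  obtain ⟨x, hx⟩ := hbad.exists_notMem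
  have hx1 : A - Cc * x ≠ 0 := fun h => hx (Or.inl h)
  set p := P x with hp
  have hp0 : him (g k₁) p = 0 := hP0 x hx1
  have hseg : ∀ t : ℝ, 0 < t → w + (t : ℂ) * (p - w) ∉ Z := by
    intro t ht hz
    apply hx
    refine Or.inr ?_
    simp only [Set.mem_iUnion]
    refine ⟨_, hz, hx1, t⁻¹, ?_⟩
    have ht' : (t : ℂ) ≠ 0 := by exact_mod_cast ht.ne'
    change p = _
    push_cast
    field_simp
    ring
  -- the first exit time
  have hcont : ∀ l, Continuous fun t : ℝ => him (g l) (w + (t : ℂ) * (p - w)) := by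
    intro l
    refine (him_continuous (g l)).comp ?_
    fun_prop
  set K : Set ℝ := Set.Icc 0 1 ∩ ⋃ l ∈ S, {t : ℝ | him (g l) (w + (t : ℂ) * (p - w)) ≤ 0} with hK
  have hKc : IsCompact K := by
    refine isCompact_Icc.inter_right ?_
    refine S.finite_toSet.isClosed_biUnion fun l _ => ?_
    exact isClosed_le (hcont l) continuous_const
  have hKne : K.Nonempty := by
    refine ⟨1, ⟨zero_le_one, le_rfl⟩, ?_⟩
    simp only [Set.mem_iUnion]
    refine ⟨k₁, hk₁, ?_⟩
    change him (g k₁) (w + ((1 : ℝ) : ℂ) * (p - w)) ≤ 0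
    rw [Complex.ofReal_one, one_mul, add_sub_cancel, hp0]
  obtain ⟨t₁, ht₁, hmin⟩ := hKc.exists_isLeast hKne
  have hbefore : ∀ t : ℝ, 0 ≤ t → t < t₁ → ∀ l ∈ S, 0 < him (g l) (w + (t : ℂ) * (p - w)) := by
    intro t h0 ht l hl
    by_contra hcon
    have : t ∈ K := by
      refine ⟨⟨h0, ht.le.trans ht₁.1.2⟩, ?_⟩
      simp only [Set.mem_iUnion]
      exact ⟨l, hl, not_lt.1 hcon⟩
    exact absurd (hmin this) (not_le.2 ht)
  obtain ⟨k, hk, hkt⟩ : ∃ k ∈ S, him (g k) (w + (t₁ : ℂ) * (p - w)) ≤ 0 := by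
    have := ht₁.2
    simp only [Set.mem_iUnion] at this
    obtain ⟨k, hk, h⟩ := this
    exact ⟨k, hk, h⟩
  have ht₁pos : 0 < t₁ := by
    rcases ht₁.1.1.lt_or_eq with h | h
    · exact h
    · exfalso
      rw [← h, Complex.ofReal_zero, zero_mul, add_zero] at hkt
      exact absurd (hw k hk) (not_lt.2 hkt)
  have hge : ∀ l ∈ S, 0 ≤ him (g l) (w + (t₁ : ℂ) * (p - w)) := by
    intro l hl
    have h1 : Filter.Tendsto (fun t : ℝ => him (g l) (w + (t : ℂ) * (p - w))) (𝓝[<] t₁)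
        (𝓝 (him (g l) (w + (t₁ : ℂ) * (p - w)))) :=
      ((hcont l).tendsto t₁).mono_left nhdsWithin_le_nhds
    refine ge_of_tendsto h1 ?_
    filter_upwards [Ioo_mem_nhdsLT ht₁pos] with t ht
    exact (hbefore t ht.1.le ht.2 l hl).le
  set t0 : ℂ := w + (t₁ : ℂ) * (p - w) with ht0
  have hk0 : him (g k) t0 = 0 := le_antisymm hkt (hge k hk)
  have ht0Z : t0 ∉ Z := hseg t₁ ht₁pos
  refine ⟨k, hk, t0, hk0, ?_, ?_, ?_⟩
  · intro h
    apply ht0Z
    refine Or.inr ?_
    simp only [Set.mem_iUnion]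
    exact ⟨k, hk, h⟩
  · intro l hl hlk
    refine lt_of_le_of_ne (hge l hl) fun h => ?_
    apply ht0Z
    refine Or.inl ?_
    simp only [Set.mem_iUnion]
    exact ⟨k, hk, l, hl, hlk.symm, hk0, h.symm⟩
  · intro t h0 h1 l hl
    have h2 : w + (t : ℂ) * (t0 - w) = w + ((t * t₁ : ℝ) : ℂ) * (p - w) := by
      rw [ht0]
      push_cast
      ring
    rw [h2]
    refine hbefore (t * t₁) (mul_nonneg h0 ht₁pos.le) ?_ l hl
    nlinarith

end Pool.Agent.Lib.MP5e
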