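import Pool.Agent.Lib.MP_5e64e7_nt.OHit

set_option autoImplicit false

/-!
# O.HT : images of Gaussian rationals (about 120 lines)

Let `H ≥ 1` be an integer such that `H g_{ij} = A_{ij} + B_{ij} i` with integers `|A_{ij}|, |B_{ij}| ≤ H'` (common
denominator of finitely many rationals). For `u = gr x y c = (x + y i)/c`:
`H c (g₀₀ u + g₀₁) = U` and `H c (g₁₀ u + g₁₁) = V` are Gaussian integers with components of absolute value at most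
`4 H' B`. If `V ≠ 0`, `mob g u = U/V = U V̄/|V|² = gr x' y' c'` with `x' = Re (U V̄)`, `y' = Im (U V̄)`,
`c' = |V|² ≥ 1`, all of absolute value at most `32 H'² B²`, and `32 H'² B² ≤ B^h` for `h` with
`32 H'² ≤ 2^(h-2)`. As `Im (mob g u) = y'/c' > 0`, `0 < y'`.
-/

noncomputable section

namespace Pool.Agent.Lib.MP5e

open Polynomial Topology

theorem gr_im (a b : ℤ) {c : ℕ} (hc : 1 ≤ c) : (gr a b c).im = (b : ℝ) / (c : ℝ) := by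
  have _h := hc
  unfold gr
  have h1 : ((a : ℂ) + (b : ℂ) * Complex.I) / (c : ℂ) =
      ((a : ℂ) + (b : ℂ) * Complex.I) / ((c : ℝ) : ℂ) := by push_cast; rfl
  rw [h1, Complex.div_ofReal_im]
  simp

private theorem oht_den {ι : Type*} [Fintype ι] (r : ι → ℚ) :
    ∃ D : ℕ, 1 ≤ D ∧ ∀ i, ∃ z : ℤ, (D : ℚ) * r i = z := by
  refine ⟨∏ i, (r i).den, ?_, fun i => ?_⟩
  · exact Nat.one_le_iff_ne_zero.mpr (Finset.prod_ne_zero_iff.mpr fun i _ => (r i).den_ne_zero)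
  · obtain ⟨k, hk⟩ := Finset.dvd_prod_of_mem (fun i => (r i).den) (Finset.mem_univ i)
    refine ⟨k * (r i).num, ?_⟩
    have h := Rat.mul_den_eq_num (r i)
    rw [hk]
    push_cast
    rw [← h]
    ring

private theorem oht_int (g : Matrix (Fin 2) (Fin 2) ℂ)
    (hg : ∀ i j, ∃ p q : ℚ, g i j = (p : ℂ) + (q : ℂ) * Complex.I) :
    ∃ (D H : ℕ) (a b : Fin 2 → Fin 2 → ℤ), 1 ≤ D ∧ 
      (∀ i j, |a i j| ≤ (H : ℤ)) ∧ (∀ i j, |b i j| ≤ (H : ℤ)) ∧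
      ∀ i j, (D : ℂ) * g i j = (a i j : ℂ) + (b i j : ℂ) * Complex.I := by
  choose p q hpq using hg
  obtain ⟨D1, hD1, h1⟩ := oht_den (fun k : Fin 2 × Fin 2 => p k.1 k.2)
  obtain ⟨D2, hD2, h2⟩ := oht_den (fun k : Fin 2 × Fin 2 => q k.1 k.2)
  choose a ha using h1
  choose b hb using h2
  refine ⟨D1 * D2, ∑ k : Fin 2 × Fin 2, ((D2 * a k).natAbs + (D1 * b k).natAbs),
    fun i j => D2 * a (i, j), fun i j => D1 * b (i, j),
    Nat.one_le_iff_ne_zero.mpr (Nat.mul_ne_zero (by omega) (by omega)), fun i j => ?_,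
    fun i j => ?_, fun i j => ?_⟩
  · have h3 : (D2 * a (i, j)).natAbs + (D1 * b (i, j)).natAbs ≤
        ∑ k : Fin 2 × Fin 2, ((D2 * a k).natAbs + (D1 * b k).natAbs) :=
      Finset.single_le_sum (f := fun k : Fin 2 × Fin 2 => (D2 * a k).natAbs + (D1 * b k).natAbs)
        (fun _ _ => Nat.zero_le _) (Finset.mem_univ (i, j))
    have h4 : (|(D2 : ℤ) * a (i, j)|) = (((D2 * a (i, j)).natAbs : ℕ) : ℤ) := by simp
    rw [h4]
    exact_mod_cast le_trans (Nat.le_add_right _ _) h3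
  · have h3 : (D2 * a (i, j)).natAbs + (D1 * b (i, j)).natAbs ≤
        ∑ k : Fin 2 × Fin 2, ((D2 * a k).natAbs + (D1 * b k).natAbs) :=
      Finset.single_le_sum (f := fun k : Fin 2 × Fin 2 => (D2 * a k).natAbs + (D1 * b k).natAbs)
        (fun _ _ => Nat.zero_le _) (Finset.mem_univ (i, j))
    have h4 : (|(D1 : ℤ) * b (i, j)|) = (((D1 * b (i, j)).natAbs : ℕ) : ℤ) := by simp
    rw [h4]
    exact_mod_cast le_trans (Nat.le_add_left _ _) h3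
  · have h5 : (D1 : ℂ) * (p i j : ℂ) = (a (i, j) : ℂ) := by exact_mod_cast ha (i, j)
    have h6 : (D2 : ℂ) * (q i j : ℂ) = (b (i, j) : ℂ) := by exact_mod_cast hb (i, j)
    rw [hpq i j]
    push_cast
    rw [← h5, ← h6]
    ring

private theorem oht_bd {a b e x y c H B : ℤ} (_hB : 0 ≤ B) (ha : |a| ≤ H) (hb : |b| ≤ H)
    (he : |e| ≤ H) (hx : |x| ≤ B) (hy : |y| ≤ B) (hc : |c| ≤ B) :
    |a * x + b * y + e * c| ≤ 3 * (H * B) := by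
  have h1 : |a * x| ≤ H * B := by
    rw [abs_mul]; exact mul_le_mul ha hx (abs_nonneg _) (le_trans (abs_nonneg _) ha)
  have h2 : |b * y| ≤ H * B := by
    rw [abs_mul]; exact mul_le_mul hb hy (abs_nonneg _) (le_trans (abs_nonneg _) hb)
  have h3 : |e * c| ≤ H * B := by
    rw [abs_mul]; exact mul_le_mul he hc (abs_nonneg _) (le_trans (abs_nonneg _) he)
  have h4 := abs_add_three (a * x) (b * y) (e * c)
  linarith

private theorem oht_bd2 {a b c d M : ℤ} (ha : |a| ≤ M) (hb : |b| ≤ M)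
    (hc : |c| ≤ M) (hd : |d| ≤ M) : |a * b + c * d| ≤ 2 * (M * M) := by
  have hM : 0 ≤ M := le_trans (abs_nonneg _) ha
  have h1 : |a * b| ≤ M * M := by
    rw [abs_mul]; exact mul_le_mul ha hb (abs_nonneg _) hM
  have h2 : |c * d| ≤ M * M := by
    rw [abs_mul]; exact mul_le_mul hc hd (abs_nonneg _) hM
  have h3 := abs_add_le (a * b) (c * d)
  linarith

theorem oht (g : Matrix (Fin 2) (Fin 2) ℂ)
    (hg : ∀ i j, ∃ p q : ℚ, g i j = (p : ℂ) + (q : ℂ) * Complex.I) :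
    ∃ h : ℕ, ∀ (B c : ℕ) (x y : ℤ), 2 ≤ B → 1 ≤ c → c ≤ B → |x| ≤ (B : ℤ) → |y| ≤ (B : ℤ) →
      0 < (mob g (gr x y c)).im → ∃ (c' : ℕ) (x' y' : ℤ), 1 ≤ c' ∧ c' ≤ B ^ h ∧
        |x'| ≤ ((B ^ h : ℕ) : ℤ) ∧ 0 < y' ∧ y' ≤ ((B ^ h : ℕ) : ℤ) ∧
        mob g (gr x y c) = gr x' y' c' := by
  obtain ⟨D, H, a, b, hD, ha, hb, hab⟩ := oht_int g hg
  refine ⟨18 * H ^ 2 + 2, fun B c x y hB hc hcB hx hy him => ?_⟩
  have hB0 : (0 : ℤ) ≤ (B : ℤ) := by positivity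
  have hc' : |(c : ℤ)| ≤ (B : ℤ) := by rw [abs_of_nonneg (by positivity)]; exact_mod_cast hcB
  have hyn : |-y| ≤ (B : ℤ) := by rw [abs_neg]; exact hy
  -- the four integers
  obtain ⟨U1, hU1⟩ : ∃ z : ℤ, z = a 0 0 * x + b 0 0 * (-y) + a 0 1 * c := ⟨_, rfl⟩
  obtain ⟨U2, hU2⟩ : ∃ z : ℤ, z = a 0 0 * y + b 0 0 * x + b 0 1 * c := ⟨_, rfl⟩
  obtain ⟨V1, hV1⟩ : ∃ z : ℤ, z = a 1 0 * x + b 1 0 * (-y) + a 1 1 * c := ⟨_, rfl⟩
  obtain ⟨V2, hV2⟩ : ∃ z : ℤ, z = a 1 0 * y + b 1 0 * x + b 1 1 * c := ⟨_, rfl⟩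
  have bU1 : |U1| ≤ 3 * ((H : ℤ) * B) := hU1 ▸ oht_bd hB0 (ha 0 0) (hb 0 0) (ha 0 1) hx hyn hc'
  have bU2 : |U2| ≤ 3 * ((H : ℤ) * B) := hU2 ▸ oht_bd hB0 (ha 0 0) (hb 0 0) (hb 0 1) hy hx hc'
  have bV1 : |V1| ≤ 3 * ((H : ℤ) * B) := hV1 ▸ oht_bd hB0 (ha 1 0) (hb 1 0) (ha 1 1) hx hyn hc'
  have bV2 : |V2| ≤ 3 * ((H : ℤ) * B) := hV2 ▸ oht_bd hB0 (ha 1 0) (hb 1 0) (hb 1 1) hy hx hc'
  have bU1n : |(-U1)| ≤ 3 * ((H : ℤ) * B) := by rw [abs_neg]; exact bU1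
  have hDc : ((D : ℂ) * (c : ℂ)) ≠ 0 := by
    have h1 : (D : ℂ) ≠ 0 := by exact_mod_cast (by omega : D ≠ 0)
    have h2 : (c : ℂ) ≠ 0 := by exact_mod_cast (by omega : c ≠ 0)
    exact mul_ne_zero h1 h2
  have hc0 : (c : ℂ) ≠ 0 := by exact_mod_cast (by omega : c ≠ 0)
  have row : ∀ i : Fin 2, ((D : ℂ) * (c : ℂ)) * (g i 0 * gr x y c + g i 1) =
      ((a i 0 * x + b i 0 * (-y) + a i 1 * c : ℤ) : ℂ) +
        ((a i 0 * y + b i 0 * x + b i 1 * c : ℤ) : ℂ) * Complex.I := by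
    intro i
    have h1 : ((D : ℂ) * (c : ℂ)) * (g i 0 * gr x y c + g i 1) =
        ((D : ℂ) * g i 0) * ((c : ℂ) * gr x y c) + ((D : ℂ) * g i 1) * (c : ℂ) := by ring
    have h2 : (c : ℂ) * gr x y c = (x : ℂ) + (y : ℂ) * Complex.I := by
      unfold gr; field_simp
    rw [h1, h2, hab, hab]
    push_cast
    linear_combination (b i 0 : ℂ) * y * Complex.I_mul_I
  have rU : ((D : ℂ) * (c : ℂ)) * (g 0 0 * gr x y c + g 0 1) = (U1 : ℂ) + (U2 : ℂ) * Complex.I := by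
    rw [row 0, hU1, hU2]
  have rV : ((D : ℂ) * (c : ℂ)) * (g 1 0 * gr x y c + g 1 1) = (V1 : ℂ) + (V2 : ℂ) * Complex.I := by
    rw [row 1, hV1, hV2]
  have hm : mob g (gr x y c) = ((U1 : ℂ) + (U2 : ℂ) * Complex.I) / ((V1 : ℂ) + (V2 : ℂ) * Complex.I) := by
    unfold mob
    rw [← rU, ← rV, mul_div_mul_left _ _ hDc]
  have hV : V1 ^ 2 + V2 ^ 2 ≠ 0 := by
    intro h0
    have h1 : V1 = 0 := by nlinarith [sq_nonneg V1, sq_nonneg V2]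
    have h2 : V2 = 0 := by nlinarith [sq_nonneg V1, sq_nonneg V2]
    rw [hm, h1, h2] at him
    simp at him
  have hVpos : 0 < V1 ^ 2 + V2 ^ 2 := lt_of_le_of_ne (by positivity) (Ne.symm hV)
  obtain ⟨c', hc'e⟩ := Int.eq_ofNat_of_zero_le hVpos.le
  have hc'1 : 1 ≤ c' := by omega
  have hbig : ∀ z : ℤ, z ≤ 2 * ((3 * ((H : ℤ) * B)) * (3 * ((H : ℤ) * B))) →
      z ≤ ((B ^ (18 * H ^ 2 + 2) : ℕ) : ℤ) := by
    intro z hz
    have h1 : 18 * H ^ 2 * B ^ 2 ≤ B ^ (18 * H ^ 2 + 2) := by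
      rw [pow_add]
      refine Nat.mul_le_mul_right _ ?_
      exact le_trans (Nat.lt_two_pow_self).le (Nat.pow_le_pow_left hB _)
    have h2 : ((18 * H ^ 2 * B ^ 2 : ℕ) : ℤ) ≤ ((B ^ (18 * H ^ 2 + 2) : ℕ) : ℤ) := by
      exact_mod_cast h1
    refine le_trans (le_trans hz (le_of_eq ?_)) h2
    push_cast
    ring
  have hgr : mob g (gr x y c) = gr (U1 * V1 + U2 * V2) (U2 * V1 + (-U1) * V2) c' := by
    rw [hm]
    unfold gr
    have h1 : (c' : ℂ) = (V1 : ℂ) ^ 2 + (V2 : ℂ) ^ 2 := by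
      have : ((c' : ℤ) : ℂ) = ((V1 ^ 2 + V2 ^ 2 : ℤ) : ℂ) := by rw [hc'e]
      push_cast at this
      exact this
    have h2 : (c' : ℂ) ≠ 0 := by exact_mod_cast (by omega : c' ≠ 0)
    have h3 : ((V1 : ℂ) + (V2 : ℂ) * Complex.I) * ((V1 : ℂ) - (V2 : ℂ) * Complex.I) = (c' : ℂ) := by
      rw [h1]
      linear_combination (-(V2 : ℂ) ^ 2) * Complex.I_mul_I
    have h4 : (V1 : ℂ) + (V2 : ℂ) * Complex.I ≠ 0 := by
      intro h5
      rw [h5, zero_mul] at h3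
      exact h2 h3.symm
    rw [div_eq_div_iff h4 h2]
    rw [← h3]
    push_cast
    linear_combination (-(U2 : ℂ) * V2 * ((V1 : ℂ) + (V2 : ℂ) * Complex.I)) * Complex.I_mul_I
  have him' : (0 : ℝ) < ((U2 * V1 + (-U1) * V2 : ℤ) : ℝ) / (c' : ℝ) := by
    rw [← gr_im (U1 * V1 + U2 * V2) _ hc'1, ← hgr]
    exact him
  have hcp : (0 : ℝ) < (c' : ℝ) := by exact_mod_cast hc'1
  have hy' : 0 < U2 * V1 + (-U1) * V2 := by
    have h1 := (div_pos_iff_of_pos_right hcp).mp him'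
    exact_mod_cast h1
  refine ⟨c', U1 * V1 + U2 * V2, U2 * V1 + (-U1) * V2, hc'1, ?_, ?_, hy', ?_, hgr⟩
  · have h1 : ((c' : ℕ) : ℤ) ≤ ((B ^ (18 * H ^ 2 + 2) : ℕ) : ℤ) := by
      refine hbig _ ?_
      have h2 : (c' : ℤ) = V1 * V1 + V2 * V2 := by
        have : (c' : ℤ) = V1 ^ 2 + V2 ^ 2 := hc'e.symm
        rw [this]; ring
      rw [h2]
      exact le_trans (le_abs_self _) (oht_bd2 bV1 bV1 bV2 bV2)
    exact_mod_cast h1
  · exact hbig _ (oht_bd2 bU1 bV1 bU2 bV2)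
  · exact hbig _ (le_trans (le_abs_self _) (oht_bd2 bU2 bV1 bU1n bV2))

end Pool.Agent.Lib.MP5e
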