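import Pool.Agent.Lib.MP_5e64e7_nt.FuncA

set_option autoImplicit false

/-!
# O.LOC : `j, j', j''` near a real point are independent over the germs of analytic functions

Weights: `wt α = 2 α₁ + 4 α₂`. Induction on the set `S`; let `S` be nonempty and let `W` be the
maximal weight in `S`. For a rational number `ρ = p/r` near `x0` and `p s - q r = 1` put
`t_k = r (v + k) + s`, `u_k = (p (v + k) + q)/t_k`. Then `u_k → ρ` and the relation at `u_k` divided by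
`t_k^W` tends to `∑_{wt α = W} g_α(ρ) ∏_i J_i(v)^(α_i) = 0`. By the independence of `j, j', j''` over
the complex numbers `g_α(ρ) = 0`.
-/

noncomputable section

namespace Pool.Agent.Lib.MP5e

open Polynomial Topology

private lemma oloc_inv (c : ℂ) (r : ℤ) (hr : r ≠ 0) :
    Filter.Tendsto (fun k : ℕ => (c + (r : ℂ) * (k : ℂ))⁻¹) Filter.atTop (𝓝 0) := by
  have h1 : Filter.Tendsto (fun k : ℕ => (k : ℂ)) Filter.atTop (Bornology.cobounded ℂ) := by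
    rw [← tendsto_norm_atTop_iff_cobounded]
    simpa using tendsto_natCast_atTop_atTop (R := ℝ)
  have h2 : Filter.Tendsto (fun k : ℕ => ‖c + (r : ℂ) * (k : ℂ)‖) Filter.atTop Filter.atTop := by
    have h3 : Filter.Tendsto (fun k : ℕ => ‖(r : ℂ)‖ * (k : ℝ) - ‖c‖) Filter.atTop Filter.atTop := by
      apply Filter.tendsto_atTop_add_const_right
      exact (tendsto_natCast_atTop_atTop (R := ℝ)).const_mul_atTop
        (norm_pos_iff.mpr (by exact_mod_cast hr))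
    refine Filter.tendsto_atTop_mono (fun k => ?_) h3
    have h4 : ‖(r : ℂ) * (k : ℂ)‖ = ‖(r : ℂ)‖ * (k : ℝ) := by simp
    rw [← h4]
    have h5 : ‖(r : ℂ) * (k : ℂ)‖ ≤ ‖c + (r : ℂ) * (k : ℂ)‖ + ‖c‖ := by
      have h6 : (r : ℂ) * (k : ℂ) = (c + (r : ℂ) * (k : ℂ)) - c := by ring
      calc ‖(r : ℂ) * (k : ℂ)‖ = ‖(c + (r : ℂ) * (k : ℂ)) - c‖ := by rw [← h6]
        _ ≤ _ := norm_sub_le _ _
    linarith
  rw [tendsto_zero_iff_norm_tendsto_zero]
  simp only [norm_inv]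
  exact h2.inv_tendsto_atTop

private def wt (α : Fin 3 →₀ ℕ) : ℕ := 2 * α 1 + 4 * α 2

private lemma oloc_term (α : Fin 3 →₀ ℕ) (W : ℕ) (hW : wt α ≤ W) (a b c t r : ℂ) (ht : t ≠ 0) :
    (t⁻¹) ^ W * (a ^ α 0 * (t ^ 2 * b) ^ α 1 * (t ^ 4 * c + 2 * r * t ^ 3 * b) ^ α 2) =
      a ^ α 0 * b ^ α 1 * (c + 2 * r * b * t⁻¹) ^ α 2 * (t⁻¹) ^ (W - wt α) := by
  have h1 : t ^ 4 * c + 2 * r * t ^ 3 * b = t ^ 4 * (c + 2 * r * b * t⁻¹) := by
    field_simp
  have h2 : (t⁻¹) ^ W = (t⁻¹) ^ (W - wt α) * (t⁻¹) ^ (wt α) := by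
    rw [← pow_add]
    congr 1
    omega
  have h3 : (t⁻¹) ^ (wt α) * (t ^ (2 * α 1) * t ^ (4 * α 2)) = 1 := by
    unfold wt
    rw [← pow_add, ← mul_pow, inv_mul_cancel₀ ht, one_pow]
  rw [h1, h2, mul_pow, mul_pow, ← pow_mul, ← pow_mul]
  linear_combination (a ^ α 0 * b ^ α 1 * (c + 2 * r * b * t⁻¹) ^ α 2 * (t⁻¹) ^ (W - wt α)) * h3

private lemma oloc_per (k : ℕ) {v : ℂ} (hv : 0 < v.im) :
    0 < (v + k).im ∧ jf (v + k) = jf v ∧ deriv jf (v + k) = deriv jf v ∧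
      deriv (deriv jf) (v + k) = deriv (deriv jf) v := by
  have h0 := sl_im_pos 1 k 0 1 (by ring) hv
  have h1 := jf_sl 1 k 0 1 (by ring) hv
  have h2 := djf_sl 1 k 0 1 (by ring) hv
  have h3 := ddjf_sl 1 k 0 1 (by ring) hv
  simp only [Int.cast_one, one_mul, Int.cast_zero, zero_mul, zero_add, div_one, Int.cast_natCast,
    one_pow, mul_zero, add_zero] at h0 h1 h2 h3
  exact ⟨h0, h1, h2, h3⟩

/-- the relation at a rational point -/
private lemma oloc_point (S : Finset (Fin 3 →₀ ℕ)) (g : (Fin 3 →₀ ℕ) → ℂ → ℂ) (W : ℕ)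
    (hW : ∀ α ∈ S, wt α ≤ W) (p q r s : ℤ) (hr : r ≠ 0) (hdet : p * s - q * r = 1)
    (hc : ∀ α ∈ S, ContinuousAt (g α) ((p : ℂ) / r))
    (h : ∀ᶠ u in 𝓝 ((p : ℂ) / r), 0 < u.im →
      ∑ α ∈ S, g α u * ∏ i : Fin 3, J4 u i.succ ^ α i = 0) (v : ℂ) (hv : 0 < v.im) :
    ∑ α ∈ S, g α ((p : ℂ) / r) * (jf v ^ α 0 * deriv jf v ^ α 1 * deriv (deriv jf) v ^ α 2 *
      0 ^ (W - wt α)) = 0 := by
  have hr' : (r : ℂ) ≠ 0 := by exact_mod_cast hr
  -- the sequence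
  obtain ⟨t, ht⟩ : ∃ t : ℕ → ℂ, ∀ k, t k = (r : ℂ) * (v + k) + s := ⟨_, fun _ => rfl⟩
  obtain ⟨u, hu⟩ : ∃ u : ℕ → ℂ, ∀ k, u k = ((p : ℂ) * (v + k) + q) / ((r : ℂ) * (v + k) + s) :=
    ⟨_, fun _ => rfl⟩
  have ht0 : ∀ k, t k ≠ 0 := by
    intro k
    rw [ht]
    exact JTr_ne p q r s hdet (oloc_per k hv).1
  have htinv : Filter.Tendsto (fun k => (t k)⁻¹) Filter.atTop (𝓝 0) := by
    have h1 := oloc_inv ((r : ℂ) * v + s) r hr
    refine h1.congr fun k => ?_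
    rw [ht]
    congr 1
    ring
  have hu2 : ∀ k, u k = (p : ℂ) / r - (r : ℂ)⁻¹ * (t k)⁻¹ := by
    intro k
    have h1 := ht0 k
    rw [hu, ← ht]
    rw [ht] at h1
    have hd : (p : ℂ) * s - q * r = 1 := by exact_mod_cast hdet
    rw [ht]
    obtain ⟨T, hT⟩ : ∃ T : ℂ, T = (r : ℂ) * (v + k) + s := ⟨_, rfl⟩
    rw [← hT] at h1 ⊢
    have e1 : (p : ℂ) / r - (r : ℂ)⁻¹ * T⁻¹ = ((p : ℂ) * T - 1) / ((r : ℂ) * T) := by
      field_simp
    rw [e1, div_eq_div_iff h1 (mul_ne_zero hr' h1), hT]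
    linear_combination (-((r : ℂ) * (v + k) + s)) * hd
  have hulim : Filter.Tendsto u Filter.atTop (𝓝 ((p : ℂ) / r)) := by
    have h1 : Filter.Tendsto (fun k => (p : ℂ) / r - (r : ℂ)⁻¹ * (t k)⁻¹) Filter.atTop
        (𝓝 ((p : ℂ) / r - (r : ℂ)⁻¹ * 0)) := (htinv.const_mul _).const_sub _
    rw [mul_zero, sub_zero] at h1
    exact h1.congr fun k => (hu2 k).symm
  have hupos : ∀ k, 0 < (u k).im := by
    intro k
    rw [hu]
    exact sl_im_pos p q r s hdet (oloc_per k hv).1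
  have hJ : ∀ k, jf (u k) = jf v ∧ deriv jf (u k) = t k ^ 2 * deriv jf v ∧
      deriv (deriv jf) (u k) = t k ^ 4 * deriv (deriv jf) v +
        2 * (r : ℂ) * t k ^ 3 * deriv jf v := by
    intro k
    obtain ⟨h0, h1, h2, h3⟩ := oloc_per k hv
    have e1 := jf_sl p q r s hdet h0
    have e2 := djf_sl p q r s hdet h0
    have e3 := ddjf_sl p q r s hdet h0
    rw [h1] at e1
    rw [h2] at e2
    rw [h2, h3] at e3
    rw [hu, ht]
    exact ⟨e1, e2, e3⟩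
  -- the relation divided by `t ^ W`
  have hev : ∀ᶠ k in Filter.atTop, ∑ α ∈ S, g α (u k) * (jf v ^ α 0 * deriv jf v ^ α 1 *
      (deriv (deriv jf) v + 2 * (r : ℂ) * deriv jf v * (t k)⁻¹) ^ α 2 *
        ((t k)⁻¹) ^ (W - wt α)) = 0 := by
    filter_upwards [hulim.eventually h] with k hk
    have h1 := hk (hupos k)
    have h2 : ∑ α ∈ S, (t k)⁻¹ ^ W * (g α (u k) * ∏ i : Fin 3, J4 (u k) i.succ ^ α i) = 0 := by
      rw [← Finset.mul_sum, h1, mul_zero]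
    rw [← h2]
    refine Finset.sum_congr rfl fun α hα => ?_
    obtain ⟨e1, e2, e3⟩ := hJ k
    have h3 : ∏ i : Fin 3, J4 (u k) i.succ ^ α i = jf v ^ α 0 * (t k ^ 2 * deriv jf v) ^ α 1 *
        (t k ^ 4 * deriv (deriv jf) v + 2 * (r : ℂ) * t k ^ 3 * deriv jf v) ^ α 2 := by
      rw [Fin.prod_univ_three, ← e1, ← e2, ← e3]
      rfl
    rw [h3, ← oloc_term α W (hW α hα) _ _ _ _ _ (ht0 k)]
    ring
  have hlim : Filter.Tendsto (fun k => ∑ α ∈ S, g α (u k) * (jf v ^ α 0 * deriv jf v ^ α 1 *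
      (deriv (deriv jf) v + 2 * (r : ℂ) * deriv jf v * (t k)⁻¹) ^ α 2 *
        ((t k)⁻¹) ^ (W - wt α))) Filter.atTop
      (𝓝 (∑ α ∈ S, g α ((p : ℂ) / r) * (jf v ^ α 0 * deriv jf v ^ α 1 *
      (deriv (deriv jf) v + 2 * (r : ℂ) * deriv jf v * 0) ^ α 2 * 0 ^ (W - wt α)))) := by
    refine tendsto_finsetSum _ fun α hα => ?_
    refine ((hc α hα).tendsto.comp hulim).mul ?_
    exact (((htinv.const_mul _).const_add _).pow _).const_mul _ |>.mul (htinv.pow _)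
  have h4 := tendsto_nhds_unique (hlim.congr' hev) tendsto_const_nhds
  simpa using h4

private lemma oloc_zero (S : Finset (Fin 3 →₀ ℕ)) (x : (Fin 3 →₀ ℕ) → ℂ) (W : ℕ)
    (hW : ∀ α ∈ S, wt α ≤ W)
    (h : ∀ v : ℂ, 0 < v.im → ∑ α ∈ S, x α * (jf v ^ α 0 * deriv jf v ^ α 1 *
      deriv (deriv jf) v ^ α 2 * 0 ^ (W - wt α)) = 0) : ∀ α ∈ S, wt α = W → x α = 0 := by
  classical
  obtain ⟨Q, hQ⟩ : ∃ Q : MvPolynomial (Fin 3) ℂ,
      Q = ∑ α ∈ S, MvPolynomial.monomial α (x α * 0 ^ (W - wt α)) := ⟨_, rfl⟩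
  have h1 : MvPolynomial.rename Fin.succ Q = 0 := by
    refine J_indep (MvPolynomial.rename Fin.succ Q) {w : ℂ | 0 < w.im}
      (isOpen_lt continuous_const Complex.continuous_im) ⟨Complex.I, by simp⟩ subset_rfl ?_
    intro v hv
    rw [MvPolynomial.eval_rename, hQ, map_sum]
    refine Eq.trans (Finset.sum_congr rfl fun α _ => ?_) (h v hv)
    rw [MvPolynomial.eval_monomial, Finsupp.prod_fintype _ _ (fun i => pow_zero _),
      Fin.prod_univ_three]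
    change x α * 0 ^ (W - wt α) * (jf v ^ α 0 * deriv jf v ^ α 1 * deriv (deriv jf) v ^ α 2) = _
    ring
  have h2 : Q = 0 := by
    have := MvPolynomial.rename_injective (R := ℂ) (Fin.succ : Fin 3 → Fin 4) (Fin.succ_injective 3)
    exact (map_eq_zero_iff _ this).mp h1
  intro α hα hαW
  have h3 : MvPolynomial.coeff α Q = x α := by
    rw [hQ, MvPolynomial.coeff_sum, Finset.sum_eq_single_of_mem α hα]
    · rw [MvPolynomial.coeff_monomial, if_pos rfl, hαW, Nat.sub_self, pow_zero, mul_one]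
    · intro β _ hβ
      rw [MvPolynomial.coeff_monomial, if_neg hβ]
  rw [← h3, h2, MvPolynomial.coeff_zero]

theorem oloc (S : Finset (Fin 3 →₀ ℕ)) (g : (Fin 3 →₀ ℕ) → ℂ → ℂ) (x0 : ℝ)
    (hg : ∀ α ∈ S, AnalyticAt ℂ (g α) (x0 : ℂ))
    (h : ∀ᶠ u in 𝓝 (x0 : ℂ), 0 < u.im →
      ∑ α ∈ S, g α u * ∏ i : Fin 3, J4 u i.succ ^ α i = 0) :
    ∀ α ∈ S, ∀ᶠ u in 𝓝 (x0 : ℂ), g α u = 0 := by
  classical
  induction S using Finset.strongInduction with
  | H S ih =>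
  rcases S.eq_empty_or_nonempty with hS | hS
  · subst hS
    intro α hα
    simp at hα
  obtain ⟨W, hWdef⟩ : ∃ W : ℕ, W = S.sup wt := ⟨_, rfl⟩
  have hW : ∀ α ∈ S, wt α ≤ W := fun α hα => hWdef ▸ Finset.le_sup hα
  obtain ⟨α0, hα0, hα0W⟩ := Finset.exists_mem_eq_sup S hS wt
  -- step 1: the terms of weight `W`
  have hstep : ∀ α ∈ S, wt α = W → ∀ᶠ u in 𝓝 (x0 : ℂ), g α u = 0 := by
    intro α hα hαW
    rw [← (hg α hα).frequently_zero_iff_eventually_zero]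
    have hev : ∀ᶠ z in 𝓝 (x0 : ℂ), (∀ β ∈ S, AnalyticAt ℂ (g β) z) ∧
        ∀ᶠ u in 𝓝 z, 0 < u.im → ∑ α ∈ S, g α u * ∏ i : Fin 3, J4 u i.succ ^ α i = 0 := by
      refine Filter.Eventually.and ?_ (eventually_eventually_nhds.mpr h)
      exact (Filter.eventually_all_finset S).mpr fun β hβ => (hg β hβ).eventually_analyticAt
    obtain ⟨δ, hδ, hball⟩ := Metric.eventually_nhds_iff.mp hev
    rw [Filter.frequently_iff]
    intro V hV
    rw [mem_nhdsWithin] at hV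
    obtain ⟨V', hV'o, hV'x, hV'⟩ := hV
    obtain ⟨ε, hε, hεV⟩ := Metric.isOpen_iff.mp hV'o _ hV'x
    obtain ⟨ρ, hρ1, hρ2⟩ := exists_rat_btwn (show x0 < x0 + min δ ε by
      have := lt_min hδ hε
      linarith)
    have hdist : dist ((ρ : ℝ) : ℂ) (x0 : ℂ) < min δ ε := by
      rw [Complex.dist_eq, ← Complex.ofReal_sub, Complex.norm_real, Real.norm_eq_abs,
        abs_of_pos (by linarith)]
      linarith
    have hρeq : ((ρ : ℝ) : ℂ) = (ρ.num : ℂ) / ((ρ.den : ℤ) : ℂ) := by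
      have h1 : ((ρ : ℝ) : ℂ) = (ρ : ℂ) := by norm_cast
      rw [h1]
      conv_lhs => rw [← Rat.num_div_den ρ]
      push_cast
      rfl
    refine ⟨((ρ : ℝ) : ℂ), hV' ⟨hεV ?_, ?_⟩, ?_⟩
    · rw [Metric.mem_ball]
      exact hdist.trans_le (min_le_right _ _)
    · intro h1
      have h2 : (ρ : ℝ) = x0 := by exact_mod_cast Set.mem_singleton_iff.mp h1
      linarith
    · obtain ⟨han, hrel⟩ := hball (hdist.trans_le (min_le_left _ _))
      have hcop : IsCoprime ρ.num (ρ.den : ℤ) := by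
        rw [Int.isCoprime_iff_gcd_eq_one]
        exact ρ.reduced
      obtain ⟨s, m, hsm⟩ := hcop
      rw [hρeq] at han hrel ⊢
      refine oloc_zero S (fun β => g β ((ρ.num : ℂ) / ((ρ.den : ℤ) : ℂ))) W hW (fun v hv => ?_) α hα hαW
      refine oloc_point S g W hW ρ.num (-m) ρ.den s ?_ ?_ (fun β hβ => (han β hβ).continuousAt)
        hrel v hv
      · exact_mod_cast ρ.den_nz
      · linarith [mul_comm s ρ.num]
  -- step 2: the other terms
  obtain ⟨T, hT⟩ : ∃ T : Finset (Fin 3 →₀ ℕ), T = S.filter fun α => wt α ≠ W := ⟨_, rfl⟩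
  have hTS : T ⊂ S := by
    rw [hT]
    refine Finset.filter_ssubset.mpr ⟨α0, hα0, ?_⟩
    rw [not_not, hWdef, hα0W]
  have hrelT : ∀ᶠ u in 𝓝 (x0 : ℂ), 0 < u.im →
      ∑ α ∈ T, g α u * ∏ i : Fin 3, J4 u i.succ ^ α i = 0 := by
    have h1 : ∀ᶠ u in 𝓝 (x0 : ℂ), ∀ α ∈ S, wt α = W → g α u = 0 := by
      refine (Filter.eventually_all_finset S).mpr fun α hα => ?_
      by_cases hw : wt α = W
      · filter_upwards [hstep α hα hw] with u hu _ using hu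
      · filter_upwards with u hu
        exact absurd hu hw
    filter_upwards [h, h1] with u hu hu1 hpos
    rw [← hu hpos, hT, Finset.sum_filter]
    refine Finset.sum_congr rfl fun α hα => ?_
    by_cases hw : wt α = W
    · rw [if_neg (not_not.mpr hw), hu1 α hα hw, zero_mul]
    · rw [if_pos hw]
  have hTz := ih T hTS (fun α hα => hg α (hTS.1 hα)) hrelT
  intro α hα
  by_cases hw : wt α = W
  · exact hstep α hα hw
  · exact hTz α (by rw [hT]; exact Finset.mem_filter.mpr ⟨hα, hw⟩)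

end Pool.Agent.Lib.MP5e
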