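import Pool.Agent.Lib.MP_5e64e7_nt.OApp
import Pool.Agent.Lib.MP_5e64e7_nt.OOne
import Pool.Agent.Lib.MP_5e64e7_nt.ODist
import Pool.Agent.Lib.MP_5e64e7_nt.OHt

set_option autoImplicit false

/-!
# O.MAIN : the main theorem (about 250 lines)

1. `ϑ` is transcendental (`Main_th` in `Main.lean`, private, copy: `th_measure`).
2. It suffices to prove independence over `ℤ` (see the end of `Main.lean`). Let `P ≠ 0` with
`P (ofam w z) = 0`, `F u = aeval (ofam u (fun k => mob (g k) u)) P`. `F` is analytic at `w` (`J4_analyticAt`,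
`mob (g k)` is analytic at `w` because `C w + D ≠ 0`, as `Im (z k) > 0`), so `|F u| ≤ c₁ |u - w|` near `w`.
3. Let `h` be the maximum of the exponents from `oht` for the `g k` and `1`, `C` from `oapprox`. For `N` large let
`r = gr a b c` be as in `SG w` for the exponent `N`: then `r ≠ w`, `|w - r| ≤ exp(-B^N) ≤ exp (-2^N)`, so `r` is close to `w`
and `Im (mob (g k) r) > 0`; `oapprox` with the bound `B^h`: `F r = 0` or `|F r| ≥ exp(-B^(h C))`, while
`|F r| ≤ c₁ exp(-B^N) < exp(-B^(h C))` for `N` large (as in `Main_step`). So `F r = 0` for points `r ≠ w` arbitrarily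
close to `w`, so `F = 0` near `w` (`AnalyticAt.frequently_zero_iff_eventually_zero`).
4. Let `P' : MvPolynomial (Option (Fin n × Fin 3)) ℂ` be obtained from `P` by specialising the variable `none` to `ϑ`
(`MvPolynomial.optionEquivLeft` or `sumRingEquiv`, cf. `MainG`); `P' ≠ 0` because `ϑ` is transcendental, and
`P' (u, J(mob (g k) u)) = F u = 0` near `w`. The hypothesis `hfin` of `oone`: otherwise `odist` gives
`p, q, r, s` with `z l (r z k + s) = p z k + q`; `r z k + s ≠ 0` (`Im (z k) > 0` and `(r, s) ≠ 0`), so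
`z l = (p z k + q)/(r z k + s)`, `Im (z l) = (p s - q r) Im (z k)/|r z k + s|²`, so `p s - q r > 0`, in contradiction with
`hne`. So `P' = 0`, a contradiction.
-/

noncomputable section

namespace Pool.Agent.Lib.MP5e

open Polynomial Topology

/-- `ϑ` is transcendental -/
private theorem omn_th : Transcendental ℤ (th : ℂ) := by
  obtain ⟨A, hA⟩ := th_measure
  rintro ⟨N, hN0, hN1⟩
  have h1 := hA (max 1 N.natDegree) (2 + N.support.sup (fun k => (N.coeff k).natAbs))
    (le_max_left _ _) (by omega) N hN0 (le_max_right _ _) ?_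
  · rw [hN1, norm_zero] at h1
    exact absurd h1 (not_le.mpr (Real.exp_pos _))
  · intro k
    by_cases hk : k ∈ N.support
    · have h2 : (N.coeff k).natAbs ≤ N.support.sup (fun k => (N.coeff k).natAbs) :=
        Finset.le_sup (f := fun k => (N.coeff k).natAbs) hk
      rw [Int.abs_eq_natAbs]
      exact_mod_cast (by omega : (N.coeff k).natAbs ≤
        2 + N.support.sup (fun k => (N.coeff k).natAbs))
    · rw [Polynomial.mem_support_iff, not_not] at hk
      rw [hk, abs_zero]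
      positivity

private theorem omn_small (ε : ℝ) (hε : 0 < ε) :
    ∃ m : ℕ, Real.exp (-((2 : ℝ) ^ m)) < ε := by
  have h1 : Filter.Tendsto (fun m : ℕ => Real.exp (-((2 : ℝ) ^ m))) Filter.atTop (𝓝 0) := by
    have h2 : Filter.Tendsto (fun m : ℕ => (2 : ℝ) ^ m) Filter.atTop Filter.atTop :=
      tendsto_pow_atTop_atTop_of_one_lt (by norm_num)
    exact Real.tendsto_exp_neg_atTop_nhds_zero.comp h2
  exact (h1.eventually (gt_mem_nhds hε)).exists

/-- specialisation of the variable `none` to `ϑ` -/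
private def omnP {n : ℕ} (P : MvPolynomial (Option (Option (Fin n × Fin 3))) ℤ) :
    MvPolynomial (Option (Fin n × Fin 3)) ℂ :=
  MvPolynomial.map (Polynomial.aeval (R := ℤ) (th : ℂ)).toRingHom
    (MvPolynomial.optionEquivRight ℤ (Option (Fin n × Fin 3)) P)

private theorem omnP_ne {n : ℕ} (P : MvPolynomial (Option (Option (Fin n × Fin 3))) ℤ)
    (hP : P ≠ 0) : omnP P ≠ 0 := by
  intro h
  apply hP
  have h1 : Function.Injective (MvPolynomial.map (σ := Option (Fin n × Fin 3))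
      (Polynomial.aeval (R := ℤ) (th : ℂ)).toRingHom) :=
    MvPolynomial.map_injective _ (transcendental_iff_injective.1 omn_th)
  unfold omnP at h
  rw [map_eq_zero_iff _ h1, map_eq_zero_iff _ (AlgEquiv.injective _)] at h
  exact h

private theorem omnP_eval {n : ℕ} (u : ℂ) (y : Fin n → ℂ)
    (P : MvPolynomial (Option (Option (Fin n × Fin 3))) ℤ) :
    MvPolynomial.eval (fun v : Option (Fin n × Fin 3) =>
      v.elim u fun p => J4 (y p.1) p.2.succ) (omnP P) =
      MvPolynomial.aeval (ofam u y) P := by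
  unfold omnP
  induction P using MvPolynomial.induction_on with
  | C a => simp
  | add p q hp hq =>
    simp only [map_add] at hp hq ⊢
    rw [hp, hq]
  | mul_X p i hp =>
    simp only [map_mul] at hp ⊢
    rw [hp, MvPolynomial.aeval_X]
    congr 1
    rcases i with _ | i
    · rw [MvPolynomial.optionEquivRight_X_none, MvPolynomial.map_C, MvPolynomial.eval_C]
      change Polynomial.aeval (th : ℂ) Polynomial.X = _
      rw [Polynomial.aeval_X]
      rfl
    · rw [MvPolynomial.optionEquivRight_X_some, MvPolynomial.map_X, MvPolynomial.eval_X]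
      rcases i with _ | i
      · rfl
      · rfl

private theorem omn_den {g : Matrix (Fin 2) (Fin 2) ℂ} {w : ℂ} (h : 0 < (mob g w).im) :
    g 1 0 * w + g 1 1 ≠ 0 := by
  intro h0
  unfold mob at h
  rw [h0, div_zero, Complex.zero_im] at h
  exact lt_irrefl _ h

private theorem omn_mob {g : Matrix (Fin 2) (Fin 2) ℂ} {w : ℂ} (h : 0 < (mob g w).im) :
    AnalyticAt ℂ (mob g) w := by
  unfold mob
  refine AnalyticAt.div ?_ ?_ (omn_den h)
  · exact (analyticAt_const.mul analyticAt_id).add analyticAt_const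
  · exact (analyticAt_const.mul analyticAt_id).add analyticAt_const

private theorem omn_ana {n : ℕ} (g : Fin n → Matrix (Fin 2) (Fin 2) ℂ) {w : ℂ}
    (h : ∀ k, 0 < (mob (g k) w).im) (P : MvPolynomial (Option (Option (Fin n × Fin 3))) ℤ) :
    AnalyticAt ℂ (fun u => MvPolynomial.aeval (ofam u fun k => mob (g k) u) P) w := by
  induction P using MvPolynomial.induction_on with
  | C a =>
    simp only [MvPolynomial.aeval_C]
    exact analyticAt_const
  | add p q hp hq =>
    simp only [map_add]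
    exact hp.add hq
  | mul_X p i hp =>
    simp only [map_mul, MvPolynomial.aeval_X]
    refine hp.mul ?_
    rcases i with _ | _ | ⟨k, j⟩
    · exact analyticAt_const
    · exact analyticAt_id
    · have h1 := (J4_analyticAt (h k) j.succ).comp (omn_mob (h k))
      exact h1

/-- the growth inequality -/
private theorem omn_pow {B D m : ℕ} (hB : 2 ≤ B) :
    (B : ℝ) ^ D + 2 ^ m ≤ (B : ℝ) ^ (D + 1 + m) := by
  have hB2 : (2 : ℝ) ≤ B := by exact_mod_cast hB
  have h1 : (1 : ℝ) ≤ (B : ℝ) ^ D := one_le_pow₀ (by linarith)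
  have h2 : (1 : ℝ) ≤ 2 ^ m := one_le_pow₀ (by norm_num)
  have h3 : (2 : ℝ) ^ m ≤ (B : ℝ) ^ m := pow_le_pow_left₀ (by norm_num) hB2 m
  have h4 : (B : ℝ) ^ (D + 1 + m) = (B : ℝ) ^ D * B * (B : ℝ) ^ m := by
    rw [pow_add, pow_add, pow_one]
  have h5 : (B : ℝ) ^ D * 2 * 2 ^ m ≤ (B : ℝ) ^ D * B * (B : ℝ) ^ m := by
    gcongr
  rw [h4]
  refine le_trans ?_ h5
  nlinarith [mul_le_mul_of_nonneg_left h2 (by linarith : (0 : ℝ) ≤ (B : ℝ) ^ D),
    mul_le_mul_of_nonneg_right h1 (by linarith : (0 : ℝ) ≤ (2 : ℝ) ^ m)]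

/-- the zeros of `F` accumulate at `w` -/
private theorem omn_freq {w : ℂ} (hw : SG w) {n : ℕ} (g : Fin n → Matrix (Fin 2) (Fin 2) ℂ)
    (hg : ∀ k i j, ∃ p q : ℚ, g k i j = (p : ℂ) + (q : ℂ) * Complex.I)
    (him : ∀ k, 0 < (mob (g k) w).im) (P : MvPolynomial (Option (Option (Fin n × Fin 3))) ℤ)
    (hP0 : MvPolynomial.aeval (ofam w fun k => mob (g k) w) P = 0) :
    ∃ᶠ u in 𝓝[≠] w, MvPolynomial.aeval (ofam u fun k => mob (g k) u) P = 0 := by
  set F : ℂ → ℂ := fun u => MvPolynomial.aeval (ofam u fun k => mob (g k) u) P with hF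
  have hFa : AnalyticAt ℂ F w := omn_ana g him P
  have hFw : F w = 0 := hP0
  -- local bound
  obtain ⟨c₁, hc₁, hlip⟩ : ∃ c₁ : ℝ, 0 < c₁ ∧ ∀ᶠ u in 𝓝 w, ‖F u‖ ≤ c₁ * ‖u - w‖ := by
    have h1 := hFa.differentiableAt.isBigO_sub
    obtain ⟨c, hc, h2⟩ := h1.exists_pos
    refine ⟨c, hc, ?_⟩
    filter_upwards [h2.bound] with u hu
    rw [hFw, sub_zero] at hu
    exact hu
  have hmob : ∀ᶠ u in 𝓝 w, ∀ k, 0 < (mob (g k) u).im := by
    rw [Filter.eventually_all]
    intro k
    have h1 : ContinuousAt (fun u => (mob (g k) u).im) w :=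
      Complex.continuous_im.continuousAt.comp (omn_mob (him k)).continuousAt
    exact h1.eventually (lt_mem_nhds (him k))
  choose h hh using fun k => oht (g k) (hg k)
  obtain ⟨C, hC⟩ := oapprox n P
  set H : ℕ := Finset.univ.sup h + 1 with hH
  have hhH : ∀ k, h k ≤ H := fun k =>
    (Finset.le_sup (f := h) (Finset.mem_univ k)).trans (Nat.le_succ _)
  rw [Filter.frequently_iff]
  intro U hU
  rw [mem_nhdsWithin_iff_exists_mem_nhds_inter] at hU
  obtain ⟨U', hU', hUU⟩ := hU
  obtain ⟨ε, hε, hball⟩ := Metric.mem_nhds_iff.1 (Filter.inter_mem hU'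
    (Filter.inter_mem hlip hmob))
  obtain ⟨m, hm⟩ := omn_small (min ε (1 / c₁)) (lt_min hε (by positivity))
  obtain ⟨B, c, a, b, hB, hc1, hcB, ha, hb, hne, hdist⟩ := hw (H * C + 1 + m)
  have hB2 : (2 : ℝ) ≤ B := by exact_mod_cast hB
  set r : ℂ := gr a b c with hr
  have hexp : Real.exp (-((B : ℝ) ^ (H * C + 1 + m))) ≤
      Real.exp (-((B : ℝ) ^ (H * C))) * Real.exp (-((2 : ℝ) ^ m)) := by
    rw [← Real.exp_add]
    apply Real.exp_le_exp.mpr
    have := omn_pow (D := H * C) (m := m) hB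
    linarith
  have hexp1 : Real.exp (-((B : ℝ) ^ (H * C))) ≤ 1 := by
    rw [Real.exp_le_one_iff]
    have : (0 : ℝ) ≤ (B : ℝ) ^ (H * C) := by positivity
    linarith
  have hrε : ‖w - r‖ < ε := by
    calc ‖w - r‖ ≤ Real.exp (-((B : ℝ) ^ (H * C + 1 + m))) := hdist
      _ ≤ Real.exp (-((B : ℝ) ^ (H * C))) * Real.exp (-((2 : ℝ) ^ m)) := hexp
      _ ≤ 1 * Real.exp (-((2 : ℝ) ^ m)) :=
          mul_le_mul_of_nonneg_right hexp1 (Real.exp_pos _).le
      _ < ε := by
          rw [one_mul]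
          exact hm.trans_le (min_le_left _ _)
  have hrball : r ∈ Metric.ball w ε := by
    rw [Metric.mem_ball, dist_comm, dist_eq_norm]
    exact hrε
  obtain ⟨hrU, hrlip, hrmob⟩ := hball hrball
  have hrlip' : ‖F r‖ ≤ c₁ * ‖r - w‖ := hrlip
  have hrmob' : ∀ k, 0 < (mob (g k) r).im := hrmob
  refine ⟨r, hUU ⟨hrU, fun h => hne h.symm⟩, ?_⟩
  have hex := fun k => hh k B c a b hB hc1 hcB ha hb (hrmob' k)
  choose c' x' y' h1 h2 h3 h4 h5 h6 using hex
  have hpowle : ∀ k, B ^ h k ≤ B ^ H := fun k => Nat.pow_le_pow_right (by omega) (hhH k)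
  have hBH : B ≤ B ^ H := by
    calc B = B ^ 1 := (pow_one B).symm
      _ ≤ B ^ H := Nat.pow_le_pow_right (by omega) (by omega)
  have hBHi : (B : ℤ) ≤ ((B ^ H : ℕ) : ℤ) := by exact_mod_cast hBH
  have hpowlei : ∀ k, ((B ^ h k : ℕ) : ℤ) ≤ ((B ^ H : ℕ) : ℤ) := fun k => by
    exact_mod_cast hpowle k
  have key := hC (B ^ H) c a b c' x' y' (hB.trans hBH) hc1 (hcB.trans hBH) (ha.trans hBHi)
    (hb.trans hBHi) (fun k => ⟨h1 k, (h2 k).trans (hpowle k), (h3 k).trans (hpowlei k), h4 k,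
      (h5 k).trans (hpowlei k)⟩)
  have hfun : (fun k => gr (x' k) (y' k) (c' k)) = fun k => mob (g k) r := by
    funext k
    exact (h6 k).symm
  rw [hfun] at key
  rcases key with key | key
  · exact key
  · exfalso
    have h7 : Real.exp (-((B : ℝ) ^ (H * C))) ≤ ‖F r‖ := by
      have h8 : ((B ^ H : ℕ) : ℝ) ^ C = (B : ℝ) ^ (H * C) := by
        push_cast
        rw [← pow_mul]
      rw [h8] at key
      exact key
    have h8 : ‖F r‖ < Real.exp (-((B : ℝ) ^ (H * C))) := by
      calc ‖F r‖ ≤ c₁ * ‖r - w‖ := hrlip'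
        _ ≤ c₁ * (Real.exp (-((B : ℝ) ^ (H * C))) * Real.exp (-((2 : ℝ) ^ m))) := by
            refine mul_le_mul_of_nonneg_left ?_ hc₁.le
            rw [norm_sub_rev]
            exact hdist.trans hexp
        _ = Real.exp (-((B : ℝ) ^ (H * C))) * (c₁ * Real.exp (-((2 : ℝ) ^ m))) := by ring
        _ < Real.exp (-((B : ℝ) ^ (H * C))) * 1 := by
            apply mul_lt_mul_of_pos_left _ (Real.exp_pos _)
            have h9 := hm.trans_le (min_le_right _ _)
            rw [lt_div_iff₀ hc₁] at h9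
            linarith
        _ = _ := mul_one _
    exact absurd h7 (not_le.2 h8)

private theorem omn_fin {w : ℂ} {n : ℕ} (g : Fin n → Matrix (Fin 2) (Fin 2) ℂ)
    (hg : ∀ k i j, ∃ p q : ℚ, g k i j = (p : ℂ) + (q : ℂ) * Complex.I)
    (hdet : ∀ k, (g k).det ≠ 0) (hzim : ∀ k, 0 < (mob (g k) w).im)
    (hne : ∀ k l, k ≠ l → ∀ p q r s : ℚ, 0 < p * s - q * r →
      mob (g l) w ≠ ((p : ℂ) * mob (g k) w + q) / ((r : ℂ) * mob (g k) w + s))
    (k l : Fin n) (hkl : k ≠ l) : {u : ℂ | him (g k) u = 0 ∧ him (g l) u = 0}.Finite := by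
  by_contra hinf
  obtain ⟨p, q, r, s, hps, hrel⟩ := odist (g k) (g l) (hg k) (hg l) (hdet k) (hdet l) hinf
  have h1 := hrel w (omn_den (hzim k)) (omn_den (hzim l))
  set z := mob (g k) w with hz
  set z' := mob (g l) w with hz'
  have hzi : 0 < z.im := hzim k
  have hz'i : 0 < z'.im := hzim l
  have hd : (r : ℂ) * z + s ≠ 0 := by
    intro h0
    have h2 := congrArg Complex.im h0
    have h3 := congrArg Complex.re h0
    have e1 : ((r : ℂ) * z + s).im = r * z.im := by
      rw [show (r : ℂ) = ((r : ℝ) : ℂ) by push_cast; rfl,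
        show (s : ℂ) = ((s : ℝ) : ℂ) by push_cast; rfl]
      simp
    have e2 : ((r : ℂ) * z + s).re = r * z.re + s := by
      rw [show (r : ℂ) = ((r : ℝ) : ℂ) by push_cast; rfl,
        show (s : ℂ) = ((s : ℝ) : ℂ) by push_cast; rfl]
      simp
    rw [e1, Complex.zero_im] at h2
    rw [e2, Complex.zero_re] at h3
    have hr0 : (r : ℝ) = 0 := by
      rcases mul_eq_zero.1 h2 with h | h
      · exact h
      · exact absurd h hzi.ne'
    have hs0 : (s : ℝ) = 0 := by
      rw [hr0] at h3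
      linarith
    have hr0' : r = 0 := by exact_mod_cast hr0
    have hs0' : s = 0 := by exact_mod_cast hs0
    apply hps
    rw [hr0', hs0']
    ring
  have hpos : 0 < p * s - q * r := by
    have h2 : z' * ((r : ℂ) * z + s) * (starRingEnd ℂ) ((r : ℂ) * z + s) =
        ((p : ℂ) * z + q) * (starRingEnd ℂ) ((r : ℂ) * z + s) := by rw [h1]
    have h3 : z' * ((r : ℂ) * z + s) * (starRingEnd ℂ) ((r : ℂ) * z + s) =
        ((‖(r : ℂ) * z + s‖ ^ 2 : ℝ) : ℂ) * z' := by
      rw [mul_assoc, Complex.mul_conj, Complex.normSq_eq_norm_sq, mul_comm]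
    rw [h3] at h2
    have h4 := congrArg Complex.im h2
    have e1 : (((‖(r : ℂ) * z + s‖ ^ 2 : ℝ) : ℂ) * z').im = ‖(r : ℂ) * z + s‖ ^ 2 * z'.im := by
      simp only [Complex.mul_im, Complex.ofReal_re, Complex.ofReal_im, zero_mul, add_zero]
    have e2 : (((p : ℂ) * z + q) * (starRingEnd ℂ) ((r : ℂ) * z + s)).im =
        ((p * s - q * r : ℚ) : ℝ) * z.im := by
      have hp' : (p : ℂ) = ((p : ℝ) : ℂ) := by push_cast; rfl
      have hq' : (q : ℂ) = ((q : ℝ) : ℂ) := by push_cast; rfl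
      have hr' : (r : ℂ) = ((r : ℝ) : ℂ) := by push_cast; rfl
      have hs' : (s : ℂ) = ((s : ℝ) : ℂ) := by push_cast; rfl
      rw [hp', hq', hr', hs']
      simp only [map_add, map_mul, Complex.conj_ofReal, Complex.mul_im, Complex.add_im,
        Complex.add_re, Complex.mul_re, Complex.ofReal_re, Complex.ofReal_im, Complex.conj_re,
        Complex.conj_im, zero_mul, add_zero, sub_zero]
      push_cast
      ring
    rw [e1, e2] at h4
    have h5 : 0 < ‖(r : ℂ) * z + s‖ ^ 2 * z'.im :=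
      mul_pos (pow_pos (norm_pos_iff.2 hd) 2) hz'i
    rw [h4] at h5
    have h6 : (0 : ℝ) < ((p * s - q * r : ℚ) : ℝ) := pos_of_mul_pos_left h5 hzi.le
    exact_mod_cast h6
  refine hne k l hkl p q r s hpos ?_
  rw [eq_div_iff hd]
  exact h1

theorem omain {w : ℂ} (hw : SG w) (n : ℕ) (g : Fin n → Matrix (Fin 2) (Fin 2) ℂ)
    (hg : ∀ k i j, ∃ p q : ℚ, g k i j = (p : ℂ) + (q : ℂ) * Complex.I)
    (hdet : ∀ k, (g k).det ≠ 0) (z : Fin n → ℂ) (hz : ∀ k, z k = mob (g k) w)
    (hzim : ∀ k, 0 < (z k).im)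
    (hne : ∀ k l, k ≠ l → ∀ p q r s : ℚ, 0 < p * s - q * r →
      z l ≠ ((p : ℂ) * z k + q) / ((r : ℂ) * z k + s)) :
    AlgebraicIndependent ℚ (ofam w z) := by
  obtain rfl : z = fun k => mob (g k) w := funext hz
  have hint : AlgebraicIndependent ℤ (ofam w fun k => mob (g k) w) := by
    rw [algebraicIndependent_iff]
    intro P hP0
    by_contra hP
    have hfreq := omn_freq hw g hg hzim P hP0
    have hana := omn_ana g hzim P
    have hev := hana.frequently_zero_iff_eventually_zero.1 hfreq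
    have h1 : ∀ᶠ u in 𝓝 w, MvPolynomial.eval (fun v : Option (Fin n × Fin 3) =>
        v.elim u fun p => J4 (mob (g p.1) u) p.2.succ) (omnP P) = 0 := by
      filter_upwards [hev] with u hu
      rw [omnP_eval u (fun k => mob (g k) u) P]
      exact hu
    refine omnP_ne P hP (oone n g hdet w ?_ ?_ (omnP P) h1)
    · intro k
      rw [him_eq (g k) (omn_den (hzim k))]
      exact mul_pos (pow_pos (norm_pos_iff.2 (omn_den (hzim k))) 2) (hzim k)
    · intro k l hkl
      exact omn_fin g hg hdet hzim hne k l hkl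
  have : Algebra.IsAlgebraic ℤ ℚ :=
    ⟨fun x => (IsFractionRing.isAlgebraic_iff ℤ ℚ ℚ).mpr (isAlgebraic_algebraMap x)⟩
  exact hint.extendScalars ℚ

end Pool.Agent.Lib.MP5e
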