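import Pool.Agent.Lib.MP_5e64e7_nt.OXn
import Pool.Agent.Lib.MP_5e64e7_nt.L1l

set_option autoImplicit false

/-!
# O.MUL : multiplication by `k` (about 220 lines)

Statement: for every `k ≥ 1` there are integer polynomials with `Mult k A B` (see `ODefs`).

Proof by strong induction on `k`.
* `k = 1` : `A = X`, `B = 1`.
* `k = 2m`, from `(A, B)` for `m` : `A' = (A² + B²)²`, `B' = 4 (A³ B - A B³)`. For `s ∈ NT`,
  `u = m s` : `u, 2u` are not in the lattice, `x := X(u)`, `x b = a` where `a, b` are the values of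
  `A, B` at `X(s)`; multiply `Xn_dup` by `b⁴`:
  `X(2ms) · 4 (a³ b - a b³) = (a² + b²)²`. Degrees: `A` has degree `n + 1`, `B` degree `n`, leading
  coefficients `α` and `m² α`. So `A'` has degree `4n + 4`, leading coefficient `α⁴`, and `B'` has
  degree `4n + 3` and leading coefficient `4 m² α⁴ = (2m)² α⁴`. Sizes: `L1` is submultiplicative
  (prove it: private lemma, from the expansion of the product, or find it in the file
  `NormR`/`L1l`), `L1 A' ≤ (2 · 4^(m³))² = 4 · 2^(4m³)`, `L1 B' ≤ 8 · 2^(4m³)`, and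
  `4 m³ + 3 ≤ 8 m³`; degree `4 m³ ≤ 8 m³`.
* `k = 2m + 1`, `m ≥ 1`, from `(A, B)` for `m` and `(A₁, B₁)` for `m + 1` :
  `B' = (A₁ B - A B₁)²`, `A' = 2 (A A₁ - B B₁)(A₁ B + A B₁) - X · B'`. For `s ∈ NT` apply `Xn_sym` to
  `u = (m+1) s`, `v = m s` (so `u + v = (2m+1) s`, `u - v = s`), multiply by `b² b₁²`:
  `(X(ks) + X(s)) (a₁ b - a b₁)² = 2 (a a₁ - b b₁)(a₁ b + a b₁)`. Leading terms: `A ~ α X^(n+1)`,
  `B ~ m² α X^n`, `A₁ ~ α₁ X^(n₁+1)`, `B₁ ~ (m+1)² α₁ X^(n₁)`;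
  `A₁ B - A B₁` has the coefficient `α α₁ (m² - (m+1)²) = -(2m+1) α α₁ ≠ 0` at its top degree
  `n + n₁ + 1`, so `B'` has degree `2(n + n₁ + 1)` and leading coefficient `(2m+1)² (α α₁)²`; `A'` has
  degree `2(n + n₁ + 1) + 1` with leading coefficient
  `(α α₁)² (2 (m² + (m+1)²) - (2m+1)²) = (α α₁)²`. Sizes: with `H = 2^(m³)`, `H₁ = 2^((m+1)³)`:
  `L1 (A₁ B - A B₁) ≤ 2 H H₁`, `L1 B' ≤ 4 (H H₁)²`, `L1 A' ≤ 2 (2 H H₁)² + 4 (H H₁)² = 12 (H H₁)²`
  and `2 (m³ + (m+1)³) + 4 ≤ (2m+1)³`; degree `≤ 2 (m³ + (m+1)³) + 1` similarly.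
-/

noncomputable section

namespace Pool.Agent.Lib.MP5e

open Polynomial Topology

private theorem omul_L1_X_pow_mul (i : ℕ) (p : ℤ[X]) : L1 (X ^ i * p) ≤ L1 p := by
  induction i with
  | zero => rw [pow_zero, one_mul]
  | succ i ih =>
    rw [pow_succ', mul_assoc]
    exact (L1_X_mul _).trans ih

private theorem omul_L1_mul (p q : ℤ[X]) : L1 (p * q) ≤ L1 p * L1 q := by
  have h1 : p * q = ∑ i ∈ p.support, C (p.coeff i) * (X ^ i * q) := by
    calc p * q = (∑ i ∈ p.support, C (p.coeff i) * X ^ i) * q := by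
          rw [← Polynomial.as_sum_support_C_mul_X_pow]
      _ = ∑ i ∈ p.support, C (p.coeff i) * (X ^ i * q) := by
          rw [Finset.sum_mul]
          exact Finset.sum_congr rfl fun i _ => by rw [mul_assoc]
  rw [h1]
  refine (L1_sum _ _).trans ?_
  conv_rhs => rw [L1, Finset.sum_mul]
  refine Finset.sum_le_sum fun i _ => ?_
  exact (L1_C_mul _ _).trans (Nat.mul_le_mul_left _ (omul_L1_X_pow_mul i q))

/-- degree at most `N` and coefficient `c` at `N` -/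
private def omulD (P : ℤ[X]) (N : ℕ) (c : ℤ) : Prop := P.natDegree ≤ N ∧ P.coeff N = c

private theorem omulD.mul {P Q : ℤ[X]} {N M : ℕ} {c d : ℤ} (h : omulD P N c) (h' : omulD Q M d) :
    omulD (P * Q) (N + M) (c * d) := by
  refine ⟨Polynomial.natDegree_mul_le_of_le h.1 h'.1, ?_⟩
  rw [Polynomial.coeff_mul_add_eq_of_natDegree_le h.1 h'.1, h.2, h'.2]

private theorem omulD.add {P Q : ℤ[X]} {N : ℕ} {c d : ℤ} (h : omulD P N c) (h' : omulD Q N d) :
    omulD (P + Q) N (c + d) := by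
  refine ⟨Polynomial.natDegree_add_le_of_degree_le h.1 h'.1, ?_⟩
  rw [Polynomial.coeff_add, h.2, h'.2]

private theorem omulD.sub {P Q : ℤ[X]} {N : ℕ} {c d : ℤ} (h : omulD P N c) (h' : omulD Q N d) :
    omulD (P - Q) N (c - d) := by
  refine ⟨Polynomial.natDegree_sub_le_of_le h.1 h'.1 |>.trans (by simp), ?_⟩
  rw [Polynomial.coeff_sub, h.2, h'.2]

private theorem omulD.lift {P : ℤ[X]} {N M : ℕ} {c : ℤ} (h : omulD P N c) (hNM : N < M) :
    omulD P M 0 :=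
  ⟨h.1.trans hNM.le, Polynomial.coeff_eq_zero_of_natDegree_lt (h.1.trans_lt hNM)⟩

private theorem omulD.smul {P : ℤ[X]} {N : ℕ} {c : ℤ} (a : ℤ) (h : omulD P N c) :
    omulD (C a * P) N (a * c) := by
  refine ⟨(Polynomial.natDegree_C_mul_le _ _).trans h.1, ?_⟩
  rw [Polynomial.coeff_C_mul, h.2]

private theorem omulD.cast {P : ℤ[X]} {N M : ℕ} {c d : ℤ} (h : omulD P N c) (h1 : N = M)
    (h2 : c = d) : omulD P M d := by
  subst h1 h2; exact h

private theorem omulD.lead {P : ℤ[X]} {N : ℕ} {c : ℤ} (h : omulD P N c) (hc : c ≠ 0) :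
    P.natDegree = N ∧ P.leadingCoeff = c := by
  have h1 : P.natDegree = N := by
    refine le_antisymm h.1 (Polynomial.le_natDegree_of_ne_zero ?_)
    rw [h.2]; exact hc
  refine ⟨h1, ?_⟩
  rw [Polynomial.leadingCoeff, h1, h.2]

private theorem omulD_self (P : ℤ[X]) : omulD P P.natDegree P.leadingCoeff := ⟨le_rfl, rfl⟩

private theorem omul_even {m : ℕ} (hm : 1 ≤ m) {A B : ℤ[X]} (h : Mult m A B) :
    ∃ A' B' : ℤ[X], Mult (2 * m) A' B' := by
  obtain ⟨hA0, hdeg, hlead, hle, hLA, hLB, hev⟩ := h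
  set n := B.natDegree with hn
  set α := A.leadingCoeff with hα
  have hα0 : α ≠ 0 := Polynomial.leadingCoeff_ne_zero.2 hA0
  have hmz : (m : ℤ) ≠ 0 := by exact_mod_cast (by omega : m ≠ 0)
  have dA : omulD A (n + 1) α := (omulD_self A).cast hdeg rfl
  have dB : omulD B n ((m : ℤ) ^ 2 * α) := (omulD_self B).cast rfl hlead
  have dAA : omulD (A * A) (n + 1 + (n + 1)) (α * α) := dA.mul dA
  have dBB : omulD (B * B) (n + n) ((m : ℤ) ^ 2 * α * ((m : ℤ) ^ 2 * α)) := dB.mul dB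
  have dS : omulD (A * A + B * B) (2 * n + 2) (α ^ 2) :=
    ((dAA.cast (M := 2 * n + 2) (by ring) rfl).add (dBB.lift (M := 2 * n + 2) (by omega))).cast rfl
      (by ring)
  have dA' : omulD ((A * A + B * B) * (A * A + B * B)) (4 * n + 4) (α ^ 4) :=
    (dS.mul dS).cast (by ring) (by ring)
  have dAB : omulD (A * B) (2 * n + 1) ((m : ℤ) ^ 2 * α ^ 2) :=
    (dA.mul dB).cast (by ring) (by ring)
  have dAmB : omulD (A * A - B * B) (2 * n + 2) (α ^ 2) :=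
    ((dAA.cast (M := 2 * n + 2) (by ring) rfl).sub (dBB.lift (M := 2 * n + 2) (by omega))).cast rfl
      (by ring)
  have dB' : omulD (C 4 * (A * B * (A * A - B * B))) (4 * n + 3) ((2 * m : ℤ) ^ 2 * α ^ 4) :=
    ((dAB.mul dAmB).smul 4).cast (by ring) (by ring)
  have lA := dA'.lead (pow_ne_zero _ hα0)
  have lB := dB'.lead (mul_ne_zero (pow_ne_zero _ (mul_ne_zero two_ne_zero hmz))
    (pow_ne_zero _ hα0))
  have hm3 : 1 ≤ m ^ 3 := Nat.one_le_pow _ _ (by omega)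
  have hcube : (2 * m) ^ 3 = 8 * m ^ 3 := by ring
  set H := 2 ^ m ^ 3 with hH
  have hAA : L1 (A * A) ≤ H * H := (omul_L1_mul _ _).trans (Nat.mul_le_mul hLA hLA)
  have hBB : L1 (B * B) ≤ H * H := (omul_L1_mul _ _).trans (Nat.mul_le_mul hLB hLB)
  have hAB : L1 (A * B) ≤ H * H := (omul_L1_mul _ _).trans (Nat.mul_le_mul hLA hLB)
  have hH4 : H * H * (H * H) = 2 ^ (4 * m ^ 3) := by
    rw [hH, ← pow_add, ← pow_add]; congr 1; ring
  refine ⟨(A * A + B * B) * (A * A + B * B), C 4 * (A * B * (A * A - B * B)), ?_, ?_, ?_, ?_, ?_,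
    ?_, ?_⟩
  · intro h0
    have h1 := lA.2
    rw [h0, Polynomial.leadingCoeff_zero] at h1
    exact pow_ne_zero 4 hα0 h1.symm
  · rw [lA.1, lB.1]
  · rw [lA.2, lB.2]; push_cast; ring
  · rw [lA.1, hcube]
    have : n + 1 ≤ m ^ 3 := by rw [← hdeg]; exact hle
    omega
  · rw [hcube]
    have h1 : L1 (A * A + B * B) ≤ 2 * (H * H) := (L1_add _ _).trans (by omega)
    calc L1 ((A * A + B * B) * (A * A + B * B)) ≤ 2 * (H * H) * (2 * (H * H)) :=
          (omul_L1_mul _ _).trans (Nat.mul_le_mul h1 h1)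
      _ = 2 ^ 2 * (H * H * (H * H)) := by ring
      _ = 2 ^ (2 + 4 * m ^ 3) := by rw [hH4, ← pow_add]
      _ ≤ 2 ^ (8 * m ^ 3) := Nat.pow_le_pow_right (by norm_num) (by omega)
  · rw [hcube]
    have h1 : L1 (A * A - B * B) ≤ 2 * (H * H) := (L1_sub _ _).trans (by omega)
    calc L1 (C 4 * (A * B * (A * A - B * B)))
        ≤ (4 : ℤ).natAbs * (H * H * (2 * (H * H))) :=
          (L1_C_mul _ _).trans (Nat.mul_le_mul_left _
            ((omul_L1_mul _ _).trans (Nat.mul_le_mul hAB h1)))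
      _ = 2 ^ 3 * (H * H * (H * H)) := by
          have : (4 : ℤ).natAbs = 4 := rfl
          rw [this]; ring
      _ = 2 ^ (3 + 4 * m ^ 3) := by rw [hH4, ← pow_add]
      _ ≤ 2 ^ (8 * m ^ 3) := Nat.pow_le_pow_right (by norm_num) (by omega)
  · intro s hs
    have hu : (m : ℂ) * s ∉ LP.lattice := NT_notMem hs m hm
    have hu2 : (m : ℂ) * s + (m : ℂ) * s = ((2 * m : ℕ) : ℂ) * s := by push_cast; ring
    have h2u : (m : ℂ) * s + (m : ℂ) * s ∉ LP.lattice := by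
      rw [hu2]; exact NT_notMem hs (2 * m) (by omega)
    have hd := Xn_dup hu h2u
    rw [hu2] at hd
    have he := hev s hs
    simp only [map_mul, map_add, map_sub, Polynomial.aeval_C]
    rw [← he]
    have h4 : (algebraMap ℤ ℂ) 4 = 4 := by simp
    rw [h4]
    linear_combination (aeval (Xn s) B) ^ 4 * hd

private theorem omul_odd {m : ℕ} (hm : 1 ≤ m) {A B A₁ B₁ : ℤ[X]} (h : Mult m A B)
    (h₁ : Mult (m + 1) A₁ B₁) : ∃ A' B' : ℤ[X], Mult (2 * m + 1) A' B' := by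
  obtain ⟨hA0, hdeg, hlead, hle, hLA, hLB, hev⟩ := h
  obtain ⟨hA0', hdeg', hlead', hle', hLA', hLB', hev'⟩ := h₁
  set n := B.natDegree with hn
  set α := A.leadingCoeff with hα
  set n₁ := B₁.natDegree with hn₁
  set α₁ := A₁.leadingCoeff with hα₁
  have hα0 : α ≠ 0 := Polynomial.leadingCoeff_ne_zero.2 hA0
  have hα0' : α₁ ≠ 0 := Polynomial.leadingCoeff_ne_zero.2 hA0'
  have hprod : α * α₁ ≠ 0 := mul_ne_zero hα0 hα0'
  have hk0 : (2 * (m : ℤ) + 1) ≠ 0 := by positivity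
  have dA : omulD A (n + 1) α := (omulD_self A).cast hdeg rfl
  have dB : omulD B n ((m : ℤ) ^ 2 * α) := (omulD_self B).cast rfl hlead
  have dA₁ : omulD A₁ (n₁ + 1) α₁ := (omulD_self A₁).cast hdeg' rfl
  have dB₁ : omulD B₁ n₁ (((m : ℤ) + 1) ^ 2 * α₁) := (omulD_self B₁).cast rfl (by
    rw [hlead']; push_cast; rfl)
  have d1 : omulD (A₁ * B) (n + n₁ + 1) ((m : ℤ) ^ 2 * (α * α₁)) :=
    (dA₁.mul dB).cast (by ring) (by ring)
  have d2 : omulD (A * B₁) (n + n₁ + 1) (((m : ℤ) + 1) ^ 2 * (α * α₁)) :=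
    (dA.mul dB₁).cast (by ring) (by ring)
  have d3 : omulD (A * A₁) (n + n₁ + 2) (α * α₁) := (dA.mul dA₁).cast (by ring) rfl
  have d4 : omulD (B * B₁) (n + n₁ + 2) 0 := (dB.mul dB₁).lift (by omega)
  have dP : omulD (A₁ * B - A * B₁) (n + n₁ + 1) (-(2 * (m : ℤ) + 1) * (α * α₁)) :=
    (d1.sub d2).cast rfl (by ring)
  have dB' : omulD ((A₁ * B - A * B₁) * (A₁ * B - A * B₁)) (2 * (n + n₁ + 1))
      ((2 * (m : ℤ) + 1) ^ 2 * (α * α₁) ^ 2) := (dP.mul dP).cast (by ring) (by ring)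
  have dR : omulD (A * A₁ - B * B₁) (n + n₁ + 2) (α * α₁) := (d3.sub d4).cast rfl (by ring)
  have dT : omulD (A₁ * B + A * B₁) (n + n₁ + 1)
      (((m : ℤ) ^ 2 + ((m : ℤ) + 1) ^ 2) * (α * α₁)) := (d1.add d2).cast rfl (by ring)
  have dX : omulD (X : ℤ[X]) 1 1 := ⟨Polynomial.natDegree_X.le, Polynomial.coeff_X_one⟩
  have dA' : omulD (C 2 * ((A * A₁ - B * B₁) * (A₁ * B + A * B₁)) -
      X * ((A₁ * B - A * B₁) * (A₁ * B - A * B₁))) (2 * (n + n₁ + 1) + 1) ((α * α₁) ^ 2) :=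
    (((((dR.mul dT).smul 2).cast (M := 2 * (n + n₁ + 1) + 1) (by ring) rfl)).sub
      ((dX.mul dB').cast (by ring) rfl)).cast rfl (by ring)
  have lA := dA'.lead (pow_ne_zero _ hprod)
  have lB := dB'.lead (mul_ne_zero (pow_ne_zero _ hk0) (pow_ne_zero _ hprod))
  have hm3 : 1 ≤ m ^ 3 := Nat.one_le_pow _ _ (by omega)
  have hm2 : 1 ≤ m ^ 2 := Nat.one_le_pow _ _ (by omega)
  have hcube : (2 * m + 1) ^ 3 = 8 * m ^ 3 + 12 * m ^ 2 + 6 * m + 1 := by ring
  have hcube1 : (m + 1) ^ 3 = m ^ 3 + 3 * m ^ 2 + 3 * m + 1 := by ring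
  set H := 2 ^ m ^ 3 with hH
  set H₁ := 2 ^ (m + 1) ^ 3 with hH₁
  have e1 : L1 (A₁ * B) ≤ H * H₁ := by
    refine (omul_L1_mul _ _).trans ((Nat.mul_le_mul hLA' hLB).trans ?_)
    rw [mul_comm]
  have e2 : L1 (A * B₁) ≤ H * H₁ := (omul_L1_mul _ _).trans (Nat.mul_le_mul hLA hLB')
  have e3 : L1 (A * A₁) ≤ H * H₁ := (omul_L1_mul _ _).trans (Nat.mul_le_mul hLA hLA')
  have e4 : L1 (B * B₁) ≤ H * H₁ := (omul_L1_mul _ _).trans (Nat.mul_le_mul hLB hLB')
  have e5 : L1 (A₁ * B - A * B₁) ≤ 2 * (H * H₁) := (L1_sub _ _).trans (by omega)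
  have e6 : L1 (A₁ * B + A * B₁) ≤ 2 * (H * H₁) := (L1_add _ _).trans (by omega)
  have e7 : L1 (A * A₁ - B * B₁) ≤ 2 * (H * H₁) := (L1_sub _ _).trans (by omega)
  have e8 : L1 ((A₁ * B - A * B₁) * (A₁ * B - A * B₁)) ≤ 4 * (H * H₁ * (H * H₁)) := by
    refine (omul_L1_mul _ _).trans ((Nat.mul_le_mul e5 e5).trans (le_of_eq ?_))
    ring
  have hT : H * H₁ * (H * H₁) = 2 ^ (2 * (m ^ 3 + (m + 1) ^ 3)) := by
    rw [hH, hH₁, ← pow_add, ← pow_add]; congr 1; ring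
  refine ⟨C 2 * ((A * A₁ - B * B₁) * (A₁ * B + A * B₁)) -
      X * ((A₁ * B - A * B₁) * (A₁ * B - A * B₁)),
    (A₁ * B - A * B₁) * (A₁ * B - A * B₁), ?_, ?_, ?_, ?_, ?_, ?_, ?_⟩
  · intro h0
    have h1 := lA.2
    rw [h0, Polynomial.leadingCoeff_zero] at h1
    exact pow_ne_zero 2 hprod h1.symm
  · rw [lA.1, lB.1]
  · rw [lA.2, lB.2]; push_cast; ring
  · rw [lA.1, hcube]
    have q1 : n + 1 ≤ m ^ 3 := by rw [← hdeg]; exact hle
    have q2 : n₁ + 1 ≤ (m + 1) ^ 3 := by rw [← hdeg']; exact hle'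
    rw [hcube1] at q2
    omega
  · have e9 : L1 (C 2 * ((A * A₁ - B * B₁) * (A₁ * B + A * B₁))) ≤ 8 * (H * H₁ * (H * H₁)) := by
      refine (L1_C_mul _ _).trans ((Nat.mul_le_mul_left _ ((omul_L1_mul _ _).trans
        (Nat.mul_le_mul e7 e6))).trans (le_of_eq ?_))
      have : (2 : ℤ).natAbs = 2 := rfl
      rw [this]; ring
    have e10 := (L1_X_mul ((A₁ * B - A * B₁) * (A₁ * B - A * B₁))).trans e8
    calc L1 (C 2 * ((A * A₁ - B * B₁) * (A₁ * B + A * B₁)) -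
          X * ((A₁ * B - A * B₁) * (A₁ * B - A * B₁)))
        ≤ 8 * (H * H₁ * (H * H₁)) + 4 * (H * H₁ * (H * H₁)) :=
          (L1_sub _ _).trans (Nat.add_le_add e9 e10)
      _ ≤ 2 ^ 4 * (H * H₁ * (H * H₁)) := by omega
      _ = 2 ^ (4 + 2 * (m ^ 3 + (m + 1) ^ 3)) := by rw [hT, ← pow_add]
      _ ≤ 2 ^ (2 * m + 1) ^ 3 := by
          refine Nat.pow_le_pow_right (by norm_num) ?_
          rw [hcube, hcube1]; omega
  · calc L1 ((A₁ * B - A * B₁) * (A₁ * B - A * B₁)) ≤ 2 ^ 2 * (H * H₁ * (H * H₁)) := e8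
      _ = 2 ^ (2 + 2 * (m ^ 3 + (m + 1) ^ 3)) := by rw [hT, ← pow_add]
      _ ≤ 2 ^ (2 * m + 1) ^ 3 := by
          refine Nat.pow_le_pow_right (by norm_num) ?_
          rw [hcube, hcube1]; omega
  · intro s hs
    have hv : (m : ℂ) * s ∉ LP.lattice := NT_notMem hs m hm
    have hu : ((m + 1 : ℕ) : ℂ) * s ∉ LP.lattice := NT_notMem hs (m + 1) (by omega)
    have hs1 : s ∉ LP.lattice := by
      have := NT_notMem hs 1 le_rfl
      rwa [Nat.cast_one, one_mul] at this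
    have huv : ((m + 1 : ℕ) : ℂ) * s + (m : ℂ) * s = ((2 * m + 1 : ℕ) : ℂ) * s := by
      push_cast; ring
    have huv' : ((m + 1 : ℕ) : ℂ) * s - (m : ℂ) * s = s := by push_cast; ring
    have h1 : ((m + 1 : ℕ) : ℂ) * s + (m : ℂ) * s ∉ LP.lattice := by
      rw [huv]; exact NT_notMem hs (2 * m + 1) (by omega)
    have h2 : ((m + 1 : ℕ) : ℂ) * s - (m : ℂ) * s ∉ LP.lattice := by rw [huv']; exact hs1
    have hsym := Xn_sym hu hv h1 h2
    rw [huv, huv'] at hsym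
    have he := hev s hs
    have he' := hev' s hs
    simp only [map_mul, map_add, map_sub, Polynomial.aeval_C, Polynomial.aeval_X]
    rw [← he, ← he']
    have h4 : (algebraMap ℤ ℂ) 2 = 2 := by simp
    rw [h4]
    linear_combination ((aeval (Xn s) B) * (aeval (Xn s) B₁)) ^ 2 * hsym

theorem exists_mult (k : ℕ) (hk : 1 ≤ k) : ∃ A B : ℤ[X], Mult k A B := by
  induction k using Nat.strong_induction_on with
  | _ k ih =>
    rcases Nat.even_or_odd' k with ⟨m, rfl | rfl⟩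
    · obtain ⟨A, B, h⟩ := ih m (by omega) (by omega)
      exact omul_even (by omega) h
    · rcases Nat.eq_zero_or_pos m with rfl | hm
      · refine ⟨X, 1, Polynomial.X_ne_zero, ?_, ?_, ?_, ?_, ?_, ?_⟩
        · simp
        · simp
        · simp
        · rw [L1l_eq_range X 1 Polynomial.natDegree_X.le]
          simp [Finset.sum_range_succ, Polynomial.coeff_X]
        · rw [L1l_eq_range 1 0 (by simp)]
          simp
        · intro s _
          simp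
      · obtain ⟨A, B, h⟩ := ih m (by omega) hm
        obtain ⟨A₁, B₁, h₁⟩ := ih (m + 1) (by omega) (by omega)
        exact omul_odd hm h h₁

end Pool.Agent.Lib.MP5e
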