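import Pool.Agent.Lib.MP_5e64e7_nt.OMul

set_option autoImplicit false

/-!
# O.RAT : torsion values

`tor_root` : if `N s` is in the lattice (`N ≥ 1`), `s` is not, and `Mult N A B`, then `B (X(s)) = 0`.
`mult_rat` : if `s` and `k s` are not in the lattice, then `X(k s)` lies in the field generated by
`X(s)`.
-/

noncomputable section

namespace Pool.Agent.Lib.MP5e

open Polynomial Topology

private lemma orat_cont {s : ℂ} (hs : s ∉ LP.lattice) (A : ℤ[X]) :
    ContinuousAt (fun t => Polynomial.aeval (Xn t) A) s := by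
  have h : (fun t => Polynomial.aeval (Xn t) A) =
      (fun x : ℂ => Polynomial.aeval x A) ∘ Xn := rfl
  rw [h]
  exact (Polynomial.continuous_aeval A).continuousAt.comp (Xn_continuousAt hs)

private lemma orat_contQ {s : ℂ} (hs : s ∉ LP.lattice) (A : ℚ[X]) :
    ContinuousAt (fun t => Polynomial.aeval (Xn t) A) s := by
  have h : (fun t => Polynomial.aeval (Xn t) A) =
      (fun x : ℂ => Polynomial.aeval x A) ∘ Xn := rfl
  rw [h]
  exact (Polynomial.continuous_aeval A).continuousAt.comp (Xn_continuousAt hs)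

theorem tor_root {N : ℕ} (hN : 1 ≤ N) {s : ℂ} (hs : s ∉ LP.lattice)
    (hNs : (N : ℂ) * s ∈ LP.lattice) {A B : ℤ[X]} (h : Mult N A B) :
    Polynomial.aeval (Xn s) B = 0 := by
  obtain ⟨-, -, -, -, -, -, hrel⟩ := h
  have hne : (𝓝[NT] s).NeBot := mem_closure_iff_nhdsWithin_neBot.mp (NT_dense s)
  have hN0 : (N : ℂ) ≠ 0 := by exact_mod_cast (by omega : N ≠ 0)
  have hA : Filter.Tendsto (fun t => Polynomial.aeval (Xn t) A) (𝓝[NT] s)
      (𝓝 (Polynomial.aeval (Xn s) A)) := (orat_cont hs A).tendsto.mono_left nhdsWithin_le_nhds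
  have hB : Filter.Tendsto (fun t => Polynomial.aeval (Xn t) B) (𝓝[NT] s)
      (𝓝 (Polynomial.aeval (Xn s) B)) := (orat_cont hs B).tendsto.mono_left nhdsWithin_le_nhds
  have hmul : Filter.Tendsto (fun t : ℂ => (N : ℂ) * t) (𝓝[NT] s) (𝓝[≠] ((N : ℂ) * s)) := by
    rw [tendsto_nhdsWithin_iff]
    refine ⟨((continuous_const.mul continuous_id).tendsto s).mono_left nhdsWithin_le_nhds, ?_⟩
    filter_upwards [self_mem_nhdsWithin] with t ht hts
    have h1 : (N : ℂ) * t = (N : ℂ) * s := hts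
    exact ht N hN (h1 ▸ hNs)
  have hinf := (Xn_pole hNs).comp hmul
  have hinv : Filter.Tendsto (fun t : ℂ => (Xn ((N : ℂ) * t))⁻¹) (𝓝[NT] s) (𝓝 0) := by
    rw [tendsto_zero_iff_norm_tendsto_zero]
    simp only [norm_inv]
    exact hinf.inv_tendsto_atTop
  have hev : (fun t => Polynomial.aeval (Xn t) A * (Xn ((N : ℂ) * t))⁻¹) =ᶠ[𝓝[NT] s]
      fun t => Polynomial.aeval (Xn t) B := by
    filter_upwards [self_mem_nhdsWithin, hinf.eventually (Filter.eventually_gt_atTop 0)] with t ht hpos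
    have h1 : Xn ((N : ℂ) * t) ≠ 0 := norm_pos_iff.mp hpos
    rw [← hrel t ht]
    field_simp
  have h2 := (hA.mul hinv).congr' hev
  rw [mul_zero] at h2
  exact tendsto_nhds_unique hB h2

private lemma orat_analytic {s : ℂ} (hs : s ∉ LP.lattice) : AnalyticAt ℂ Xn s := by
  have h : Xn = fun t => 4 / (s0 : ℂ) * LP.weierstrassP t := rfl
  rw [h]
  exact analyticAt_const.mul (LP.analyticOnNhd_weierstrassP s hs)

/-- a nonzero polynomial in `X` does not vanish identically near `s` -/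
private lemma orat_ne {s : ℂ} (hs : s ∉ LP.lattice) (G : ℚ[X]) (hG : G ≠ 0) :
    ∀ᶠ t in 𝓝[≠] s, Polynomial.aeval (Xn t) G ≠ 0 := by
  have han : ∀ t ∈ ((LP.lattice : Set ℂ)ᶜ), AnalyticAt ℂ (fun t => Polynomial.aeval (Xn t) G) t := by
    intro t ht
    have h1 := (orat_analytic ht).aeval_polynomial (G.map (algebraMap ℚ ℂ))
    refine h1.congr ?_
    filter_upwards with u
    rw [Polynomial.aeval_map_algebraMap]
  rcases (han s hs).eventually_eq_zero_or_eventually_ne_zero with h0 | h0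
  · exfalso
    have hL : (LP.lattice : Set ℂ).Countable := by
      have : Countable LP.lattice := LP.latticeEquivProd.toEquiv.countable_iff.2 inferInstance
      exact Set.to_countable _
    have hpre : IsPreconnected ((LP.lattice : Set ℂ)ᶜ) :=
      (hL.isConnected_compl_of_one_lt_rank (by simp)).isPreconnected
    have hall := AnalyticOnNhd.eqOn_zero_of_preconnected_of_eventuallyEq_zero
      (f := fun t => Polynomial.aeval (Xn t) G) (fun t ht => han t ht) hpre hs h0
    -- the values of `X` would be roots of `G`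
    obtain ⟨R, hR⟩ : ∃ R : ℝ, ∀ x : ℂ, Polynomial.aeval x G = 0 → ‖x‖ ≤ R := by
      have hfin : {x : ℂ | Polynomial.aeval x G = 0}.Finite := by
        refine (Polynomial.finite_setOfPred_isRoot (p := G.map (algebraMap ℚ ℂ)) ?_).subset ?_
        · exact (Polynomial.map_ne_zero_iff (algebraMap ℚ ℂ).injective).mpr hG
        · intro x hx
          change Polynomial.eval x _ = 0
          rw [Polynomial.eval_map_algebraMap]
          exact hx
      obtain ⟨R, hR⟩ := hfin.isBounded.exists_norm_le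
      exact ⟨R, fun x hx => hR x hx⟩
    have hpole := (Xn_pole (zero_mem LP.lattice)).eventually (Filter.eventually_gt_atTop R)
    have hoff : ∀ᶠ t in 𝓝[≠] (0 : ℂ), t ∉ LP.lattice := by
      have h := LP.compl_lattice_sdiff_singleton_mem_nhds 0
      filter_upwards [mem_nhdsWithin_of_mem_nhds h, self_mem_nhdsWithin] with t ht hne hmem
      exact ht ⟨hmem, hne⟩
    obtain ⟨t, ht1, ht2⟩ := (hpole.and hoff).exists
    exact absurd (hR _ (hall ht2)) (not_le.mpr ht1)
  · exact h0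

theorem mult_rat {k : ℕ} (hk : 1 ≤ k) {s : ℂ} (hs : s ∉ LP.lattice)
    (hks : (k : ℂ) * s ∉ LP.lattice) :
    Xn ((k : ℂ) * s) ∈ IntermediateField.adjoin ℚ {Xn s} := by
  obtain ⟨A, B, hA0, -, hlc, -, -, -, hrel⟩ := exists_mult k hk
  have hB0 : B ≠ 0 := by
    intro h
    rw [h, Polynomial.leadingCoeff_zero] at hlc
    have h1 : (k : ℤ) ^ 2 * A.leadingCoeff ≠ 0 :=
      mul_ne_zero (pow_ne_zero _ (by exact_mod_cast (by omega : k ≠ 0)))
        (Polynomial.leadingCoeff_ne_zero.mpr hA0)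
    exact h1 hlc.symm
  obtain ⟨A', hA'⟩ : ∃ A' : ℚ[X], A' = A.map (Int.castRingHom ℚ) := ⟨_, rfl⟩
  obtain ⟨B', hB'⟩ : ∃ B' : ℚ[X], B' = B.map (Int.castRingHom ℚ) := ⟨_, rfl⟩
  have hB'0 : B' ≠ 0 := by
    rw [hB']
    exact (Polynomial.map_ne_zero_iff (Int.cast_injective)).mpr hB0
  have hcast : ∀ (C : ℤ[X]) (x : ℂ), Polynomial.aeval x (C.map (Int.castRingHom ℚ)) =
      Polynomial.aeval x C := by
    intro C x
    exact Polynomial.aeval_map_algebraMap ℚ x C
  have hrel' : ∀ t ∈ NT, Xn ((k : ℂ) * t) * Polynomial.aeval (Xn t) B' =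
      Polynomial.aeval (Xn t) A' := by
    intro t ht
    rw [hA', hB', hcast, hcast]
    exact hrel t ht
  -- coprime form
  obtain ⟨G, hG⟩ : ∃ G : ℚ[X], G = EuclideanDomain.gcd A' B' := ⟨_, rfl⟩
  obtain ⟨A1, hA1⟩ : G ∣ A' := hG ▸ EuclideanDomain.gcd_dvd_left A' B'
  obtain ⟨B1, hB1⟩ : G ∣ B' := hG ▸ EuclideanDomain.gcd_dvd_right A' B'
  have hG0 : G ≠ 0 := by
    intro h
    rw [h, zero_mul] at hB1
    exact hB'0 hB1
  have hcop : IsCoprime A1 B1 := by
    have h1 := EuclideanDomain.gcd_eq_gcd_ab A' B'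
    rw [← hG] at h1
    refine ⟨EuclideanDomain.gcdA A' B', EuclideanDomain.gcdB A' B', ?_⟩
    generalize EuclideanDomain.gcdA A' B' = u at h1 ⊢
    generalize EuclideanDomain.gcdB A' B' = v at h1 ⊢
    apply mul_left_cancel₀ hG0
    linear_combination (-1 : ℚ[X]) * h1 - u * hA1 - v * hB1
  have hdense : ∀ᶠ t in 𝓝[NT ∩ {s}ᶜ] s, Polynomial.aeval (Xn t) G ≠ 0 := by
    have h1 := orat_ne hs G hG0
    exact h1.filter_mono (nhdsWithin_mono s Set.inter_subset_right)
  have hne : (𝓝[NT ∩ {s}ᶜ] s).NeBot := by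
    rw [← mem_closure_iff_nhdsWithin_neBot]
    have h1 : Dense (NT ∩ {s}ᶜ) := by
      refine NT_dense.inter_of_isOpen_right ?_ isOpen_compl_singleton
      exact dense_compl_singleton s
    exact h1 s
  have hk0 : (k : ℂ) ≠ 0 := by exact_mod_cast (by omega : k ≠ 0)
  have hkc : ContinuousAt (fun t : ℂ => Xn ((k : ℂ) * t)) s := by
    have h1 : ContinuousAt (fun t : ℂ => (k : ℂ) * t) s :=
      (continuous_const.mul continuous_id).continuousAt
    exact ContinuousAt.comp (g := Xn) (f := fun t : ℂ => (k : ℂ) * t) (Xn_continuousAt hks) h1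
  have hlim1 : Filter.Tendsto (fun t => Xn ((k : ℂ) * t) * Polynomial.aeval (Xn t) B1)
      (𝓝[NT ∩ {s}ᶜ] s) (𝓝 (Xn ((k : ℂ) * s) * Polynomial.aeval (Xn s) B1)) :=
    ((hkc.mul (orat_contQ hs B1)).tendsto).mono_left nhdsWithin_le_nhds
  have hlim2 : Filter.Tendsto (fun t => Polynomial.aeval (Xn t) A1)
      (𝓝[NT ∩ {s}ᶜ] s) (𝓝 (Polynomial.aeval (Xn s) A1)) :=
    ((orat_contQ hs A1).tendsto).mono_left nhdsWithin_le_nhds
  have hev : (fun t => Xn ((k : ℂ) * t) * Polynomial.aeval (Xn t) B1) =ᶠ[𝓝[NT ∩ {s}ᶜ] s]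
      fun t => Polynomial.aeval (Xn t) A1 := by
    filter_upwards [hdense, self_mem_nhdsWithin] with t ht1 ht2
    have h1 := hrel' t ht2.1
    rw [hA1, hB1, map_mul, map_mul] at h1
    apply mul_left_cancel₀ ht1
    linear_combination h1
  have heq := tendsto_nhds_unique (hlim1.congr' hev) hlim2
  have hB1ne : Polynomial.aeval (Xn s) B1 ≠ 0 := by
    intro h0
    rw [h0, mul_zero] at heq
    obtain ⟨u, v, huv⟩ := hcop
    have h1 := congrArg (Polynomial.aeval (Xn s)) huv
    rw [map_add, map_mul, map_mul, h0, ← heq, map_one] at h1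
    simp at h1
  have hfinal : Xn ((k : ℂ) * s) = Polynomial.aeval (Xn s) A1 / Polynomial.aeval (Xn s) B1 := by
    rw [eq_div_iff hB1ne, heq]
  rw [hfinal]
  have hmem : ∀ C : ℚ[X], Polynomial.aeval (Xn s) C ∈ IntermediateField.adjoin ℚ {Xn s} := by
    intro C
    have h1 : Polynomial.aeval (Xn s) C ∈ Algebra.adjoin ℚ {Xn s} :=
      Polynomial.aeval_mem_adjoin_singleton ℚ (Xn s)
    exact IntermediateField.algebra_adjoin_le_adjoin ℚ _ h1
  exact div_mem (hmem A1) (hmem B1)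

end Pool.Agent.Lib.MP5e
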