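import Pool.Agent.Lib.MP_5e64e7_nt.OLoc
import Pool.Agent.Lib.MP_5e64e7_nt.OHit

set_option autoImplicit false

/-!
# O.STEP : elimination of one function

Let `φ = mob (g k)`, `g k = !![A, B; C, D]`, `f u = ∑_{α ∈ T} c_α(u) ∏_i J_i(φ u)^(α_i)`.
1. `f = 0` near each point of the half open segment `[w, t0[` (`evz_propagate`).
2. `x0 := φ t0` is real. Let `ψ x = (D x - B)/(A - C x)` be the inverse. On the half disc
`{‖x - x0‖ < ε, Im x > 0}` the function `f ∘ ψ` is analytic, and it vanishes near the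
point `φ (w + t (t0 - w))` for `t < 1` close to `1`; so it vanishes on the half disc.
3. `oloc` for the functions `c_α ∘ ψ`: they vanish near `x0`, so `c_α = 0` near `t0`.
4. The `c_α` are analytic at all points of the closed segment `[w, t0]`, so they vanish near `w`.
-/

noncomputable section

namespace Pool.Agent.Lib.MP5e

open Polynomial Topology

/-- propagation of local vanishing along a preconnected set (not necessarily open) -/
private theorem evz_propagate {f : ℂ → ℂ} {K : Set ℂ} (hK : IsPreconnected K)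
    (hf : ∀ z ∈ K, AnalyticAt ℂ f z) {z0 : ℂ} (hz0 : z0 ∈ K) (h0 : ∀ᶠ u in 𝓝 z0, f u = 0) :
    ∀ z ∈ K, ∀ᶠ u in 𝓝 z, f u = 0 := by
  have hopen : IsOpen {x : ℂ | ∀ᶠ u in 𝓝 x, f u = 0} := isOpen_setOfPred_eventually_nhds
  have hsub : K ⊆ {x : ℂ | ∀ᶠ u in 𝓝 x, f u = 0} := by
    refine hK.subset_of_closure_inter_subset hopen ⟨z0, hz0, h0⟩ ?_
    rintro x ⟨hx, hxK⟩
    rcases (hf x hxK).eventually_eq_zero_or_eventually_ne_zero with h | h
    · exact h
    · exfalso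
      rw [mem_closure_iff_frequently] at hx
      have h1 : ∀ᶠ y in 𝓝 x, y ≠ x → f y ≠ 0 := by
        rw [eventually_nhdsWithin_iff] at h
        exact h
      obtain ⟨y, hy1, hy2⟩ := (hx.and_eventually (eventually_eventually_nhds.2 h1)).exists
      have h3 : ∀ᶠ z in 𝓝 y, z = x := by
        filter_upwards [hy1, hy2] with z a1 a2
        by_contra hne
        exact a2 hne a1
      have h4 : ({x} : Set ℂ) ∈ 𝓝 y := h3
      exact (infinite_of_mem_nhds y h4) (Set.finite_singleton x)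
  exact fun z hz => hsub hz

private theorem mob_im_pos (g : Matrix (Fin 2) (Fin 2) ℂ) {u : ℂ} (h : 0 < him g u) :
    0 < (mob g u).im := by
  have h1 := him_ne g h.ne'
  rw [him_eq g h1] at h
  by_contra h2
  have h3 : ‖g 1 0 * u + g 1 1‖ ^ 2 * (mob g u).im ≤ 0 :=
    mul_nonpos_of_nonneg_of_nonpos (by positivity) (not_lt.1 h2)
  linarith

private theorem mob_analyticAt (g : Matrix (Fin 2) (Fin 2) ℂ) {u : ℂ}
    (h : g 1 0 * u + g 1 1 ≠ 0) : AnalyticAt ℂ (mob g) u := by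
  unfold mob
  exact ((analyticAt_const.mul analyticAt_id).add analyticAt_const).div
    ((analyticAt_const.mul analyticAt_id).add analyticAt_const) h

private theorem mono_analyticAt (α : Fin 3 →₀ ℕ) {φ : ℂ → ℂ} {u : ℂ}
    (hφ : AnalyticAt ℂ φ u) (h : 0 < (φ u).im) :
    AnalyticAt ℂ (fun u => ∏ i : Fin 3, J4 (φ u) i.succ ^ α i) u := by
  apply Finset.analyticAt_fun_prod
  intro i _
  exact ((J4_analyticAt h i.succ).fun_comp hφ).pow _

private theorem seg_preconnected (w t0 : ℂ) (I : Set ℝ) (hI : IsPreconnected I) :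
    IsPreconnected ((fun t : ℝ => w + (t : ℂ) * (t0 - w)) '' I) := by
  apply hI.image
  apply Continuous.continuousOn
  fun_prop

theorem ostep (n : ℕ) (g : Fin n → Matrix (Fin 2) (Fin 2) ℂ) (hdet : ∀ k, (g k).det ≠ 0)
    (S : Finset (Fin n)) (k : Fin n) (hk : k ∈ S) (w t0 : ℂ)
    (h1 : him (g k) t0 = 0) (h2 : (g k) 1 0 * t0 + (g k) 1 1 ≠ 0)
    (h3 : ∀ l ∈ S, l ≠ k → 0 < him (g l) t0)
    (h4 : ∀ t : ℝ, 0 ≤ t → t < 1 → ∀ l ∈ S, 0 < him (g l) (w + (t : ℂ) * (t0 - w)))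
    (T : Finset (Fin 3 →₀ ℕ)) (c : (Fin 3 →₀ ℕ) → ℂ → ℂ)
    (hc : ∀ α ∈ T, ∀ u : ℂ, (∀ l ∈ S, l ≠ k → 0 < him (g l) u) → AnalyticAt ℂ (c α) u)
    (hrel : ∀ᶠ u in 𝓝 w, ∑ α ∈ T, c α u * ∏ i : Fin 3, J4 (mob (g k) u) i.succ ^ α i = 0) :
    ∀ α ∈ T, ∀ᶠ u in 𝓝 w, c α u = 0 := by
  set A := (g k) 0 0 with hA
  set B := (g k) 0 1 with hB
  set C := (g k) 1 0 with hC
  set D := (g k) 1 1 with hD
  have hdet' : A * D - B * C ≠ 0 := by
    have := hdet k
    rwa [Matrix.det_fin_two] at this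
  set φ : ℂ → ℂ := mob (g k) with hφ
  have hφe : ∀ u, φ u = (A * u + B) / (C * u + D) := fun u => rfl
  set f : ℂ → ℂ := fun u => ∑ α ∈ T, c α u * ∏ i : Fin 3, J4 (φ u) i.succ ^ α i with hf
  set γ : ℝ → ℂ := fun t => w + (t : ℂ) * (t0 - w) with hγ
  have hγc : Continuous γ := by
    simp only [hγ]
    fun_prop
  -- step 1
  have hfan : ∀ u, (∀ l ∈ S, 0 < him (g l) u) → AnalyticAt ℂ f u := by
    intro u hu
    apply Finset.analyticAt_fun_sum
    intro α hα
    refine (hc α hα u fun l hl _ => hu l hl).mul ?_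
    exact mono_analyticAt α (mob_analyticAt (g k) (him_ne (g k) (hu k hk).ne'))
      (mob_im_pos (g k) (hu k hk))
  have hseg : ∀ t : ℝ, 0 ≤ t → t < 1 → ∀ᶠ u in 𝓝 (γ t), f u = 0 := by
    intro t ht0 ht1
    refine evz_propagate (K := γ '' Set.Ico 0 1) (seg_preconnected w t0 _ isPreconnected_Ico)
      ?_ (z0 := w) ⟨0, ⟨le_refl 0, one_pos⟩, by simp [hγ]⟩ hrel (γ t) ⟨t, ⟨ht0, ht1⟩, rfl⟩
    rintro z ⟨t, ⟨a1, a2⟩, rfl⟩
    exact hfan _ (h4 t a1 a2)
  -- step 2
  have hx0 : (φ t0).im = 0 := by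
    have h := him_eq (g k) h2
    rw [h1] at h
    have h5 : ‖C * t0 + D‖ ^ 2 ≠ 0 := pow_ne_zero _ (norm_ne_zero_iff.2 h2)
    exact (mul_eq_zero.1 h.symm).resolve_left h5
  obtain ⟨x0, hx0'⟩ : ∃ x0 : ℝ, (x0 : ℂ) = φ t0 := ⟨(φ t0).re, by
    apply Complex.ext
    · simp
    · simp [hx0]⟩
  set ψ : ℂ → ℂ := fun x => (D * x - B) / (A - C * x) with hψ
  have key1 : ∀ u, C * u + D ≠ 0 → A - C * φ u ≠ 0 ∧ ψ (φ u) = u := by
    intro u hu
    have e1 : A - C * φ u = (A * D - B * C) / (C * u + D) := by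
      rw [hφe]
      field_simp
      ring
    have e2 : A - C * φ u ≠ 0 := by
      rw [e1]
      exact div_ne_zero hdet' hu
    refine ⟨e2, ?_⟩
    have e3 : φ u * (C * u + D) = A * u + B := by
      rw [hφe]
      exact div_mul_cancel₀ _ hu
    simp only [hψ]
    rw [div_eq_iff e2]
    linear_combination e3
  have key2 : ∀ x, A - C * x ≠ 0 → C * ψ x + D ≠ 0 ∧ φ (ψ x) = x := by
    intro x hx
    have e1 : C * ψ x + D = (A * D - B * C) / (A - C * x) := by
      simp only [hψ]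
      field_simp
      ring
    have e2 : C * ψ x + D ≠ 0 := by
      rw [e1]
      exact div_ne_zero hdet' hx
    refine ⟨e2, ?_⟩
    have e3 : ψ x * (A - C * x) = D * x - B := by
      simp only [hψ]
      exact div_mul_cancel₀ _ hx
    rw [hφe, div_eq_iff e2]
    linear_combination e3
  have hψan : ∀ x, A - C * x ≠ 0 → AnalyticAt ℂ ψ x := by
    intro x hx
    simp only [hψ]
    exact ((analyticAt_const.mul analyticAt_id).sub analyticAt_const).div
      (analyticAt_const.sub (analyticAt_const.mul analyticAt_id)) hx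
  have hψx0 : ψ x0 = t0 := by
    rw [hx0']
    exact (key1 t0 h2).2
  have hx0ne : A - C * (x0 : ℂ) ≠ 0 := by
    rw [hx0']
    exact (key1 t0 h2).1
  have hev : ∀ᶠ x in 𝓝 (x0 : ℂ), A - C * x ≠ 0 ∧ ∀ l ∈ S, l ≠ k → 0 < him (g l) (ψ x) := by
    have a1 : ∀ᶠ x in 𝓝 (x0 : ℂ), A - C * x ≠ 0 := by
      have : Continuous fun x : ℂ => A - C * x := by fun_prop
      exact this.continuousAt.eventually_ne hx0ne
    have a2 : ∀ᶠ x in 𝓝 (x0 : ℂ), ∀ l ∈ S, l ≠ k → 0 < him (g l) (ψ x) := by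
      rw [Filter.eventually_all_finset]
      intro l hl
      by_cases hlk : l = k
      · exact Filter.Eventually.of_forall fun x hx => absurd hlk hx
      · have b1 : ContinuousAt (fun x => him (g l) (ψ x)) (x0 : ℂ) :=
          (him_continuous (g l)).continuousAt.comp (hψan _ hx0ne).continuousAt
        have b2 : 0 < him (g l) (ψ x0) := by
          rw [hψx0]
          exact h3 l hl hlk
        exact (b1.eventually (eventually_gt_nhds b2)).mono fun x hx _ => hx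
    exact a1.and a2
  obtain ⟨ε, hε, hball⟩ := Metric.eventually_nhds_iff_ball.1 hev
  set F : ℂ → ℂ := fun x => ∑ α ∈ T, c α (ψ x) * ∏ i : Fin 3, J4 x i.succ ^ α i with hF
  have hFan : ∀ x ∈ Metric.ball (x0 : ℂ) ε ∩ {x : ℂ | 0 < x.im}, AnalyticAt ℂ F x := by
    rintro x ⟨hx1, hx2⟩
    apply Finset.analyticAt_fun_sum
    intro α hα
    refine AnalyticAt.mul ?_ (mono_analyticAt α analyticAt_id hx2)
    exact (hc α hα (ψ x) (hball x hx1).2).fun_comp (hψan x (hball x hx1).1)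
  have hHpre : IsPreconnected (Metric.ball (x0 : ℂ) ε ∩ {x : ℂ | 0 < x.im}) := by
    refine Convex.isPreconnected ?_
    refine (convex_ball _ _).inter ?_
    exact convex_halfSpace_im_gt 0
  have hpt : ∃ t : ℝ, 0 ≤ t ∧ t < 1 ∧ φ (γ t) ∈ Metric.ball (x0 : ℂ) ε := by
    have hγ1 : γ 1 = t0 := by simp [hγ]
    have a1 : ContinuousAt (fun t : ℝ => φ (γ t)) 1 := by
      have b1 : ContinuousAt φ (γ 1) := by
        rw [hγ1]
        exact (mob_analyticAt (g k) h2).continuousAt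
      exact b1.comp hγc.continuousAt
    have a2 : ∀ᶠ t in 𝓝 (1 : ℝ), φ (γ t) ∈ Metric.ball (x0 : ℂ) ε := by
      apply a1.eventually_mem
      rw [hγ1, hx0']
      exact Metric.ball_mem_nhds _ hε
    obtain ⟨δ, hδ, h5⟩ := Metric.eventually_nhds_iff_ball.1 a2
    refine ⟨max 0 (1 - δ / 2), le_max_left _ _, max_lt one_pos (by linarith), h5 _ ?_⟩
    rw [Metric.mem_ball, Real.dist_eq, abs_lt]
    constructor
    · have := le_max_right 0 (1 - δ / 2)
      linarith
    · have : max 0 (1 - δ / 2) < 1 := max_lt one_pos (by linarith)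
      linarith
  obtain ⟨t, ht0, ht1, htb⟩ := hpt
  have hden : C * γ t + D ≠ 0 := him_ne (g k) (h4 t ht0 ht1 k hk).ne'
  have hH0 : φ (γ t) ∈ Metric.ball (x0 : ℂ) ε ∩ {x : ℂ | 0 < x.im} :=
    ⟨htb, mob_im_pos (g k) (h4 t ht0 ht1 k hk)⟩
  have hF0 : ∀ᶠ x in 𝓝 (φ (γ t)), F x = 0 := by
    have a0 := (key1 _ hden).1
    have a1 : ContinuousAt ψ (φ (γ t)) := (hψan _ a0).continuousAt
    have a2 : Filter.Tendsto ψ (𝓝 (φ (γ t))) (𝓝 (γ t)) := by
      have := a1.tendsto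
      rwa [(key1 _ hden).2] at this
    have a3 := a2.eventually (hseg t ht0 ht1)
    have a4 : ∀ᶠ x in 𝓝 (φ (γ t)), A - C * x ≠ 0 := by
      have : Continuous fun x : ℂ => A - C * x := by fun_prop
      exact this.continuousAt.eventually_ne a0
    filter_upwards [a3, a4] with x b1 b2
    simp only [hf] at b1
    rw [(key2 x b2).2] at b1
    exact b1
  have hFall := evz_propagate hHpre hFan hH0 hF0
  have hloc : ∀ α ∈ T, ∀ᶠ x in 𝓝 (x0 : ℂ), c α (ψ x) = 0 := by
    refine oloc T (fun α x => c α (ψ x)) x0 ?_ ?_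
    · intro α hα
      have h5 := hball (x0 : ℂ) (Metric.mem_ball_self hε)
      exact (hc α hα (ψ x0) h5.2).fun_comp (hψan _ hx0ne)
    · filter_upwards [Metric.ball_mem_nhds (x0 : ℂ) hε] with x hx hxi
      exact (hFall x ⟨hx, hxi⟩).self_of_nhds
  -- step 3, 4
  intro α hα
  have hct0 : ∀ᶠ u in 𝓝 t0, c α u = 0 := by
    have a1 : Filter.Tendsto φ (𝓝 t0) (𝓝 (x0 : ℂ)) := by
      rw [hx0']
      exact (mob_analyticAt (g k) h2).continuousAt
    have a2 := a1.eventually (hloc α hα)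
    have a3 : ∀ᶠ u in 𝓝 t0, C * u + D ≠ 0 := by
      have : Continuous fun u : ℂ => C * u + D := by fun_prop
      exact this.continuousAt.eventually_ne h2
    filter_upwards [a2, a3] with u b1 b2
    rwa [(key1 u b2).2] at b1
  refine evz_propagate (K := γ '' Set.Icc 0 1) (seg_preconnected w t0 _ isPreconnected_Icc)
    ?_ (z0 := t0) ⟨1, ⟨zero_le_one, le_refl 1⟩, by simp [hγ]⟩ hct0 w
    ⟨0, ⟨le_refl 0, zero_le_one⟩, by simp [hγ]⟩
  rintro z ⟨t, ⟨a1, a2⟩, rfl⟩
  apply hc α hα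
  intro l hl hlk
  rcases a2.lt_or_eq with a3 | a3
  · exact h4 t a1 a3 l hl
  · have : γ t = t0 := by
      rw [a3]
      simp [hγ]
    rw [this]
    exact h3 l hl hlk

end Pool.Agent.Lib.MP5e
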