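import Pool.Agent.Lib.MP_5e64e7_nt.ORat
import Pool.Agent.Lib.MP_5e64e7_nt.RepA

set_option autoImplicit false

/-!
# O.TOR : a field of small degree containing the `X`-coordinates of a cyclic group
-/

noncomputable section

namespace Pool.Agent.Lib.MP5e

open Polynomial Topology

private lemma otor_one_le_L1 (B : ℤ[X]) (hB : B ≠ 0) : B.leadingCoeff.natAbs ≤ L1 B := by
  unfold L1
  exact Finset.single_le_sum (f := fun k => (B.coeff k).natAbs) (fun _ _ => Nat.zero_le _)
    (Polynomial.natDegree_mem_support_of_nonzero hB)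

private lemma otor_lc_pos (B : ℤ[X]) (hB : B ≠ 0) : 1 ≤ B.leadingCoeff.natAbs := by
  have := Polynomial.leadingCoeff_ne_zero.mpr hB
  omega

/-- the roots of an integer polynomial are bounded by the sum of its coefficients -/
private lemma otor_root_le (B : ℤ[X]) (hB : B ≠ 0) (y : ℂ) (hy : Polynomial.aeval y B = 0) :
    ‖y‖ ≤ (L1 B : ℝ) := by
  have h1 : (1 : ℝ) ≤ (L1 B : ℝ) := by
    exact_mod_cast (otor_lc_pos B hB).trans (otor_one_le_L1 B hB)
  rcases le_or_gt ‖y‖ 1 with hy1 | hy1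
  · exact hy1.trans h1
  have hn : B.natDegree ≠ 0 := by
    intro h0
    rw [Polynomial.eq_C_of_natDegree_eq_zero h0, Polynomial.aeval_C] at hy
    have h2 : B.coeff 0 = 0 := by
      have : ((B.coeff 0 : ℤ) : ℂ) = 0 := hy
      exact_mod_cast this
    apply hB
    rw [Polynomial.eq_C_of_natDegree_eq_zero h0, h2, Polynomial.C_0]
  obtain ⟨n, hn'⟩ := Nat.exists_eq_succ_of_ne_zero hn
  have h2 : Polynomial.aeval y B.eraseLead + (B.leadingCoeff : ℂ) * y ^ B.natDegree = 0 := by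
    rw [← hy]
    conv_rhs => rw [← Polynomial.eraseLead_add_monomial_natDegree_leadingCoeff B]
    rw [map_add, Polynomial.aeval_monomial]
    rfl
  have h3 : ‖Polynomial.aeval y B.eraseLead‖ ≤ (L1 B.eraseLead : ℝ) * ‖y‖ ^ n := by
    refine norm_aeval_le _ y n ?_ ‖y‖ hy1.le le_rfl
    have := Polynomial.eraseLead_natDegree_le B
    omega
  have h4 : L1 B.eraseLead ≤ L1 B := by
    unfold L1
    rw [Polynomial.eraseLead_support]
    refine le_trans (Finset.sum_le_sum fun k hk => ?_)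
      (Finset.sum_le_sum_of_subset (Finset.erase_subset _ _))
    rw [Polynomial.eraseLead_coeff_of_ne k (Finset.ne_of_mem_erase hk)]
  have h5 : ‖(B.leadingCoeff : ℂ) * y ^ B.natDegree‖ = ‖Polynomial.aeval y B.eraseLead‖ := by
    have : (B.leadingCoeff : ℂ) * y ^ B.natDegree = -Polynomial.aeval y B.eraseLead := by
      linear_combination h2
    rw [this, norm_neg]
  have h6 : ‖y‖ ^ (n + 1) ≤ ‖(B.leadingCoeff : ℂ) * y ^ B.natDegree‖ := by
    rw [hn', norm_mul, norm_pow]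
    have h7 : (1 : ℝ) ≤ ‖(B.leadingCoeff : ℂ)‖ := by
      rw [Complex.norm_intCast]
      have := otor_lc_pos B hB
      rw [← Int.cast_abs, ← Int.natCast_natAbs]
      exact_mod_cast this
    calc ‖y‖ ^ (n + 1) = 1 * ‖y‖ ^ (n + 1) := (one_mul _).symm
      _ ≤ _ := mul_le_mul_of_nonneg_right h7 (by positivity)
  have h8 : ‖y‖ ^ n * ‖y‖ ≤ ‖y‖ ^ n * (L1 B : ℝ) := by
    calc ‖y‖ ^ n * ‖y‖ = ‖y‖ ^ (n + 1) := (pow_succ _ _).symm
      _ ≤ (L1 B.eraseLead : ℝ) * ‖y‖ ^ n := (h6.trans h5.le).trans h3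
      _ ≤ (L1 B : ℝ) * ‖y‖ ^ n := by
          apply mul_le_mul_of_nonneg_right _ (by positivity)
          exact_mod_cast h4
      _ = _ := mul_comm _ _
  exact le_of_mul_le_mul_left h8 (by positivity)

/-- `α x` for a root `x` of an integer polynomial with leading coefficient `± α` -/
private lemma otor_AI (K : IntermediateField ℚ ℂ) (B : ℤ[X]) (hB : B ≠ 0) (m : ℕ)
    (hL : L1 B ≤ 2 ^ m) (x : ℂ) (hx : Polynomial.aeval x B = 0) (hxK : x ∈ K) :
    AI K ((2 : ℝ) ^ (2 * m)) ((B.leadingCoeff.natAbs : ℂ) * x) := by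
  obtain ⟨α, hα⟩ : ∃ α : ℕ, α = B.leadingCoeff.natAbs := ⟨_, rfl⟩
  rw [← hα]
  have hinj : Function.Injective (algebraMap K ℂ).toIntAlgHom := by
    intro u v huv
    exact (algebraMap K ℂ).injective huv
  have hint : IsIntegral ℤ ((α : ℂ) * x) := by
    have h1 : IsIntegral ℤ (B.leadingCoeff • x) := isIntegral_leadingCoeff_smul B x hx
    rw [zsmul_eq_mul] at h1
    rcases Int.natAbs_eq B.leadingCoeff with h2 | h2
    · rw [h2, ← hα] at h1
      exact_mod_cast h1
    · rw [h2, ← hα] at h1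
      have h3 := h1.neg
      have h4 : -(((-(α : ℤ) : ℤ) : ℂ) * x) = (α : ℂ) * x := by
        push_cast
        ring
      rwa [h4] at h3
  have hmem : (α : ℂ) * x ∈ K := K.mul_mem (natCast_mem K α) hxK
  refine ⟨⟨(α : ℂ) * x, hmem⟩, rfl, ?_, ?_⟩
  · exact (isIntegral_algHom_iff (algebraMap K ℂ).toIntAlgHom hinj).1 hint
  · intro φ
    have h1 : (⟨(α : ℂ) * x, hmem⟩ : K) = (α : K) * ⟨x, hxK⟩ := by
      apply Subtype.ext
      push_cast
      rfl
    rw [h1, map_mul, map_natCast, norm_mul, Complex.norm_natCast]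
    have h2 : Polynomial.aeval (φ ⟨x, hxK⟩) B = 0 := by
      have h3 : Polynomial.aeval (⟨x, hxK⟩ : K) B = 0 := by
        apply hinj
        rw [map_zero, ← Polynomial.aeval_algHom_apply]
        exact hx
      have h4 := Polynomial.aeval_algHom_apply (φ.toRingHom.toIntAlgHom) (⟨x, hxK⟩ : K) B
      rw [h3, map_zero] at h4
      exact h4
    have h3 := otor_root_le B hB _ h2
    have h4 : (α : ℝ) ≤ 2 ^ m := by
      have := (otor_one_le_L1 B hB).trans hL
      rw [← hα] at this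
      exact_mod_cast this
    have h5 : (L1 B : ℝ) ≤ 2 ^ m := by exact_mod_cast hL
    calc (α : ℝ) * ‖φ ⟨x, hxK⟩‖ ≤ 2 ^ m * 2 ^ m :=
          mul_le_mul h4 (h3.trans h5) (norm_nonneg _) (by positivity)
      _ = 2 ^ (2 * m) := by rw [← pow_add, two_mul]

/-- adjoining a root of an integer polynomial -/
private lemma otor_field (K : IntermediateField ℚ ℂ) (hfd : FiniteDimensional ℚ K) (B : ℤ[X])
    (hB : B ≠ 0) (n : ℕ) (hn : B.natDegree ≤ n) (x : ℂ) (hx : Polynomial.aeval x B = 0) :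
    ∃ K' : IntermediateField ℚ ℂ, K ≤ K' ∧ FiniteDimensional ℚ K' ∧
      Module.finrank ℚ K' ≤ n * Module.finrank ℚ K ∧ x ∈ K' := by
  obtain ⟨P, hP⟩ : ∃ P : K[X], P = B.map (algebraMap ℤ K) := ⟨_, rfl⟩
  have hPx : Polynomial.aeval x P = 0 := by
    rw [hP, Polynomial.aeval_map_algebraMap]
    exact hx
  have hP0 : P ≠ 0 := by
    rw [hP]
    exact (Polynomial.map_ne_zero_iff (algebraMap ℤ K).injective_int).mpr hB
  have hxint : IsIntegral K x := by
    rw [← isAlgebraic_iff_isIntegral]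
    exact ⟨P, hP0, hPx⟩
  have hKint : FiniteDimensional K (IntermediateField.adjoin K {x}) :=
    IntermediateField.adjoin.finiteDimensional hxint
  have hfin2 : FiniteDimensional ℚ (IntermediateField.adjoin K {x}) :=
    FiniteDimensional.trans ℚ K _
  set K' : IntermediateField ℚ ℂ :=
    IntermediateField.restrictScalars ℚ (IntermediateField.adjoin K {x}) with hK'
  have hle : K ≤ K' := by
    intro y hy
    have h1 : algebraMap K ℂ ⟨y, hy⟩ ∈ IntermediateField.adjoin K {x} :=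
      IntermediateField.algebraMap_mem _ _
    exact h1
  have hxmem : x ∈ K' := IntermediateField.mem_adjoin_simple_self K x
  refine ⟨K', hle, hfin2, ?_, hxmem⟩
  have h1 : Module.finrank ℚ K * Module.finrank K (IntermediateField.adjoin K {x}) =
      Module.finrank ℚ (IntermediateField.adjoin K {x}) :=
    Module.finrank_mul_finrank ℚ K _
  have h2 : Module.finrank K (IntermediateField.adjoin K {x}) ≤ n := by
    rw [IntermediateField.adjoin.finrank hxint]
    have h3 := Polynomial.natDegree_le_of_dvd (minpoly.dvd K x hPx) hP0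
    refine h3.trans (le_trans ?_ hn)
    rw [hP]
    exact Polynomial.natDegree_map_le
  have h3 : Module.finrank ℚ K' = Module.finrank ℚ (IntermediateField.adjoin K {x}) := rfl
  rw [h3, ← h1, mul_comm]
  exact Nat.mul_le_mul_right _ h2

theorem exists_tor (K0 : IntermediateField ℚ ℂ) (hK0 : FiniteDimensional ℚ K0) (N : ℕ) (hN : 1 ≤ N)
    (s : ℂ) (hNs : (N : ℂ) * s ∈ LP.lattice)
    (hs : ∀ k : ℕ, 1 ≤ k → k < N → (k : ℂ) * s ∉ LP.lattice) :
    ∃ K : IntermediateField ℚ ℂ, K0 ≤ K ∧ FiniteDimensional ℚ K ∧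
      Module.finrank ℚ K ≤ N ^ 3 * Module.finrank ℚ K0 ∧
      ∃ α : ℕ, 1 ≤ α ∧ α ≤ 2 ^ N ^ 3 ∧ ∀ k : ℕ, 1 ≤ k → k < N →
        AI K ((2 : ℝ) ^ (2 * N ^ 3)) ((α : ℂ) * Xn ((k : ℂ) * s)) := by
  rcases eq_or_lt_of_le hN with h1 | h1
  · subst h1
    refine ⟨K0, le_rfl, hK0, by simp, 1, le_rfl, Nat.one_le_two_pow, ?_⟩
    intro k hk1 hk2
    omega
  · have hs1 : s ∉ LP.lattice := by
      have := hs 1 le_rfl h1
      rwa [Nat.cast_one, one_mul] at this
    obtain ⟨A, B, hM⟩ := exists_mult N hN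
    have hroot := tor_root hN hs1 hNs hM
    have hM2 := hM
    obtain ⟨hA0, hdeg, hlc, hdA, -, hLB, -⟩ := hM2
    have hB0 : B ≠ 0 := by
      intro h
      rw [h, Polynomial.leadingCoeff_zero] at hlc
      have h1 : (N : ℤ) ^ 2 * A.leadingCoeff ≠ 0 :=
        mul_ne_zero (pow_ne_zero _ (by exact_mod_cast (by omega : N ≠ 0)))
          (Polynomial.leadingCoeff_ne_zero.mpr hA0)
      exact h1 hlc.symm
    obtain ⟨K, hK1, hK2, hK3, hK4⟩ := otor_field K0 hK0 B hB0 (N ^ 3) (by omega) (Xn s) hroot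
    refine ⟨K, hK1, hK2, hK3, B.leadingCoeff.natAbs, otor_lc_pos B hB0,
      (otor_one_le_L1 B hB0).trans hLB, ?_⟩
    intro k hk1 hk2
    have hks := hs k hk1 hk2
    have hkN : (N : ℂ) * ((k : ℂ) * s) ∈ LP.lattice := by
      have h2 : (N : ℂ) * ((k : ℂ) * s) = (k : ℤ) • ((N : ℂ) * s) := by
        rw [zsmul_eq_mul]
        push_cast
        ring
      rw [h2]
      exact LP.lattice.smul_mem _ hNs
    have hroot2 := tor_root hN hks hkN hM
    refine otor_AI K B hB0 (N ^ 3) hLB _ hroot2 ?_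
    have h3 := mult_rat hk1 hs1 hks
    have h4 : IntermediateField.adjoin ℚ {Xn s} ≤ K :=
      IntermediateField.adjoin_le_iff.mpr (Set.singleton_subset_iff.mpr hK4)
    exact h4 h3

end Pool.Agent.Lib.MP5e
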