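import Pool.Agent.Lib.MP_5e64e7_nt.OCmd
import Pool.Agent.Lib.MP_5e64e7_nt.Val

set_option autoImplicit false

/-!
# O.VAL : `(τ, j, j', j'')` at Gaussian rational points (about 250 lines, adaptation of `Val.lean`)

Let `τ = gr x y c = (x + y i)/c`, `Im τ = y/c`. From `ocmd` we have `K` and `lam` with
`T² E2f-type` relations: put `T = lam²`; then `T E2f τ = s₀ a + T · 3/(π Im τ)`, `T² E4f τ = s₀² b`,
`T³ E6f τ = s₀³ c₆`. This is the situation of `val_formulas` in `Val.lean` (private; copy it) with `t³`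
replaced by `T` (there `8^e = t³`, `64^e = t⁶`, `512^e = t⁹`), `U = y`, `W = c`:
`δ = b³ - c₆² ≠ 0` (`disc_ne`), `j δ = 1728 b³`, `j' (δ T) = -3456 i ϑ (b² c₆)`,
`j'' (δ T² U) = ϑ² (1152 a b² c₆ - 4608 b c₆² - 3456 b⁴) U + 3456 ϑ b² c₆ T W`.
Take `dl = c · δ · T² · y`; then `dl τ = (x + y i) δ T² y`, `dl j = c T² y · 1728 b³`,
`dl j' = c T y · (δ T j')`, `dl j'' = c · (δ T² U j'')`, all of the form `A₀ + A₁ ϑ + A₂ ϑ²` with `A_i` in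
`AI K (2^E')`, `E' ≤ B^C'` (exponent arithmetic with base `2` as in `OCmd`; `AI.rep`, `Rep.th`, `Rep.mul`,
`Rep.add`, `Rep.mono`). `I ∈ K0 ≤ K` gives `AI K 1 I` (`AI.I`).
-/

noncomputable section

namespace Pool.Agent.Lib.MP5e

open Polynomial Topology

section arith

variable {K : IntermediateField ℚ ℂ} {B : ℕ}

private lemma ov_mul {n m : ℕ} {x y : ℂ} (h : AI K ((B : ℝ) ^ n) x) (h' : AI K ((B : ℝ) ^ m) y) :
    AI K ((B : ℝ) ^ (n + m)) (x * y) := by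
  rw [pow_add]
  exact h.mul h'

private lemma ov_sum_le (hB : 2 ≤ B) (n m : ℕ) :
    (B : ℝ) ^ n + (B : ℝ) ^ m ≤ (B : ℝ) ^ (n + m + 1) := by
  have hB' : (2 : ℝ) ≤ B := by exact_mod_cast hB
  have h1 : (1 : ℝ) ≤ (B : ℝ) ^ n := one_le_pow₀ (by linarith)
  have h2 : (1 : ℝ) ≤ (B : ℝ) ^ m := one_le_pow₀ (by linarith)
  have h3 : (B : ℝ) ^ n + (B : ℝ) ^ m ≤ 2 * ((B : ℝ) ^ n * (B : ℝ) ^ m) := by nlinarith
  calc (B : ℝ) ^ n + (B : ℝ) ^ m ≤ 2 * ((B : ℝ) ^ n * (B : ℝ) ^ m) := h3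
    _ ≤ B * ((B : ℝ) ^ n * (B : ℝ) ^ m) := mul_le_mul_of_nonneg_right hB' (by positivity)
    _ = (B : ℝ) ^ (n + m + 1) := by ring

private lemma ov_add (hB : 2 ≤ B) {n m : ℕ} {x y : ℂ} (h : AI K ((B : ℝ) ^ n) x)
    (h' : AI K ((B : ℝ) ^ m) y) : AI K ((B : ℝ) ^ (n + m + 1)) (x + y) :=
  (h.add h').mono le_rfl (ov_sum_le hB n m)

private lemma ov_sub (hB : 2 ≤ B) {n m : ℕ} {x y : ℂ} (h : AI K ((B : ℝ) ^ n) x)
    (h' : AI K ((B : ℝ) ^ m) y) : AI K ((B : ℝ) ^ (n + m + 1)) (x - y) :=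
  (h.sub h').mono le_rfl (ov_sum_le hB n m)

private lemma ov_pow {n : ℕ} (k : ℕ) {x : ℂ} (h : AI K ((B : ℝ) ^ n) x) :
    AI K ((B : ℝ) ^ (n * k)) (x ^ k) := by
  rw [pow_mul]
  exact h.pow k

private lemma ov_int (v : ℤ) (n : ℕ) (h : |v| ≤ (B : ℤ) ^ n) : AI K ((B : ℝ) ^ n) (v : ℂ) := by
  refine (AI.int K v).mono le_rfl ?_
  exact_mod_cast h

private lemma ov_const (hB : 2 ≤ B) (c n : ℕ) (h : c ≤ 2 ^ n) : AI K ((B : ℝ) ^ n) (c : ℂ) := by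
  refine (AI.nat K c).mono le_rfl ?_
  have h1 : (c : ℝ) ≤ 2 ^ n := by exact_mod_cast h
  refine h1.trans ?_
  apply pow_le_pow_left₀ (by norm_num)
  exact_mod_cast hB

private lemma ov_mono (hB : 2 ≤ B) {n m : ℕ} {x : ℂ} (h : AI K ((B : ℝ) ^ n) x) (hnm : n ≤ m) :
    AI K ((B : ℝ) ^ m) x := by
  refine h.mono le_rfl ?_
  apply pow_le_pow_right₀ _ hnm
  have hB' : (2 : ℝ) ≤ B := by exact_mod_cast hB
  linarith

private lemma ov_R0 {n : ℕ} {x : ℂ} (h : AI K ((B : ℝ) ^ n) x) : Rep K 2 ((B : ℝ) ^ n) x :=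
  h.rep 2

private lemma ov_R1 {n : ℕ} {x : ℂ} (h : AI K ((B : ℝ) ^ n) x) :
    Rep K 2 ((B : ℝ) ^ n) (x * (th : ℂ)) := by
  have h1 := (h.rep 1).mul (Rep.th K)
  rw [mul_one] at h1
  exact h1

private lemma ov_R2 {n : ℕ} {x : ℂ} (h : AI K ((B : ℝ) ^ n) x) :
    Rep K 2 ((B : ℝ) ^ n) (x * (th : ℂ) ^ 2) := by
  have h1 := (h.rep 0).mul ((Rep.th K).pow 2)
  rw [one_pow, mul_one, mul_one, zero_add] at h1
  exact h1

private lemma ov_Radd (hB : 2 ≤ B) {n m : ℕ} {x y : ℂ} (h : Rep K 2 ((B : ℝ) ^ n) x)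
    (h' : Rep K 2 ((B : ℝ) ^ m) y) : Rep K 2 ((B : ℝ) ^ (n + m + 1)) (x + y) :=
  (h.add h').mono le_rfl le_rfl (ov_sum_le hB n m)

private lemma ov_Rmono (hB : 2 ≤ B) {n m : ℕ} {x : ℂ} (h : Rep K 2 ((B : ℝ) ^ n) x)
    (hnm : n ≤ m) : Rep K 2 ((B : ℝ) ^ m) x := by
  refine h.mono le_rfl le_rfl ?_
  apply pow_le_pow_right₀ _ hnm
  have hB' : (2 : ℝ) ≤ B := by exact_mod_cast hB
  linarith

end arith

/-- the values at `σ` in terms of `a, b, c` -/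
private lemma ov_formulas {σ a b c T U W Y : ℂ} (hσ : 0 < σ.im) (hT : T ≠ 0)
    (hU : U ≠ 0) (hW : W ≠ 0) (hY : Y = U / W) (hYσ : (σ.im : ℂ) = Y)
    (h2 : T * E2f σ = (s0 : ℂ) * a + T * (3 / ((Real.pi : ℂ) * (σ.im : ℂ))))
    (h4 : T ^ 2 * E4f σ = (s0 : ℂ) ^ 2 * b) (h6 : T ^ 3 * E6f σ = (s0 : ℂ) ^ 3 * c) :
    b ^ 3 - c ^ 2 ≠ 0 ∧ jf σ * (b ^ 3 - c ^ 2) = 1728 * b ^ 3 ∧
    deriv jf σ * ((b ^ 3 - c ^ 2) * T) = -3456 * Complex.I * (th : ℂ) * (b ^ 2 * c) ∧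
    deriv (deriv jf) σ * ((b ^ 3 - c ^ 2) * T ^ 2 * U) =
      (th : ℂ) ^ 2 * (1152 * (a * (b ^ 2 * c)) - 4608 * (b * c ^ 2) - 3456 * b ^ 4) * U +
        3456 * (th : ℂ) * (b ^ 2 * c) * T * W := by
  rw [hYσ] at h2
  have hs : (s0 : ℂ) ≠ 0 := by exact_mod_cast s0_pos.ne'
  have hπ : (Real.pi : ℂ) ≠ 0 := by exact_mod_cast Real.pi_ne_zero
  have hY0 : Y ≠ 0 := by rw [hY]; exact div_ne_zero hU hW
  have hD := disc_ne hσ
  have hth : (th : ℂ) = (Real.pi : ℂ) * (s0 : ℂ) := by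
    unfold th
    push_cast
    ring
  have e4 : E4f σ = (s0 : ℂ) ^ 2 * b / T ^ 2 := by
    rw [eq_div_iff (pow_ne_zero _ hT), ← h4]; ring
  have e6 : E6f σ = (s0 : ℂ) ^ 3 * c / T ^ 3 := by
    rw [eq_div_iff (pow_ne_zero _ hT), ← h6]; ring
  have e2 : E2f σ = (s0 : ℂ) * a / T + 3 / ((Real.pi : ℂ) * Y) := by
    have : T * E2f σ = T * ((s0 : ℂ) * a / T + 3 / ((Real.pi : ℂ) * Y)) := by
      rw [h2]
      field_simp
    exact mul_left_cancel₀ hT this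
  have hDe : E4f σ ^ 3 - E6f σ ^ 2 = (s0 : ℂ) ^ 6 * (b ^ 3 - c ^ 2) / T ^ 6 := by
    rw [e4, e6]
    field_simp
  have hδ : b ^ 3 - c ^ 2 ≠ 0 := by
    intro h
    apply hD
    rw [hDe, h]
    simp
  refine ⟨hδ, ?_, ?_, ?_⟩
  · unfold jf
    rw [hDe, e4]
    field_simp
  · rw [djf hσ, hDe, e4, e6, hth]
    field_simp
    ring
  · rw [ddjf hσ, hDe, e4, e6, e2, hth, hY]
    field_simp
    ring

theorem oval : ∃ C : ℕ, ∀ (K0 : IntermediateField ℚ ℂ), FiniteDimensional ℚ K0 →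
    Complex.I ∈ K0 → ∀ (B c : ℕ) (x y : ℤ), 2 ≤ B → 1 ≤ c → c ≤ B → |x| ≤ (B : ℤ) →
    0 < y → y ≤ (B : ℤ) →
    ∃ K : IntermediateField ℚ ℂ, K0 ≤ K ∧ FiniteDimensional ℚ K ∧
      Module.finrank ℚ K ≤ B ^ C * Module.finrank ℚ K0 ∧
      ∃ dl : ℂ, dl ≠ 0 ∧ AI K ((2 : ℝ) ^ B ^ C) dl ∧
        ∀ k : Fin 4, Rep K 2 ((2 : ℝ) ^ B ^ C) (dl * J4 (gr x y c) k) := by
  obtain ⟨C0, hC0⟩ := ocmd
  refine ⟨C0 + 20, ?_⟩
  intro K0 hfd hI B c x y hB hc1 hcB hx hy0 hy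
  obtain ⟨K, hK, hKfd, hrank, lam, hlam1, hlam2, a, b, c6, ha, hb, hc6, h2, h4, h6⟩ :=
    hC0 K0 hfd B c x y hB hc1 hcB hx hy0 hy
  have hBpos : 0 < B := by omega
  refine ⟨K, hK, hKfd, ?_, ?_⟩
  · refine hrank.trans (Nat.mul_le_mul_right _ ?_)
    exact Nat.pow_le_pow_right hBpos (by omega)
  -- the base
  set F : ℕ := B ^ (C0 + 1) with hF
  set D : ℕ := 2 ^ F with hD
  have hEF : B ^ C0 ≤ F := Nat.pow_le_pow_right hBpos (by omega)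
  have hBF : B ≤ F := by
    calc B = B ^ 1 := (pow_one B).symm
      _ ≤ F := Nat.pow_le_pow_right hBpos (by omega)
  have hF1 : 1 ≤ F := by omega
  have hD2 : 2 ≤ D := by
    calc 2 = 2 ^ 1 := rfl
      _ ≤ D := Nat.pow_le_pow_right (by norm_num) hF1
  have hBD : B ≤ D := (Nat.lt_two_pow_self).le.trans (Nat.pow_le_pow_right (by norm_num) hBF)
  have hED : (2 : ℝ) ^ B ^ C0 ≤ (D : ℝ) ^ 1 := by
    rw [pow_one, hD]
    push_cast
    exact pow_le_pow_right₀ (by norm_num) hEF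
  -- the point
  set σ : ℂ := gr x y c with hσdef
  have hcC : (c : ℂ) ≠ 0 := by
    have : c ≠ 0 := by omega
    exact_mod_cast this
  have hyC : (y : ℂ) ≠ 0 := by
    have : y ≠ 0 := by omega
    exact_mod_cast this
  have hlC : (lam : ℂ) ≠ 0 := by
    have : lam ≠ 0 := by omega
    exact_mod_cast this
  have him : σ.im = (y : ℝ) / c := by
    have h1 : σ = (((x : ℝ) / c : ℝ) : ℂ) + (((y : ℝ) / c : ℝ) : ℂ) * Complex.I := by
      rw [hσdef]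
      unfold gr
      push_cast
      field_simp
    rw [h1, Complex.add_im, Complex.ofReal_im, Complex.im_ofReal_mul]
    simp
  have hσ : 0 < σ.im := by
    rw [him]
    have e1 : (0 : ℝ) < y := by exact_mod_cast hy0
    have e2 : (0 : ℝ) < c := by
      have : 0 < c := by omega
      exact_mod_cast this
    exact div_pos e1 e2
  have hYσ : (σ.im : ℂ) = (y : ℂ) / (c : ℂ) := by
    rw [him]
    push_cast
    rfl
  have hT0 : (lam : ℂ) ^ 2 ≠ 0 := pow_ne_zero _ hlC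
  obtain ⟨hδ, hj, hdj, hddj⟩ := ov_formulas (T := (lam : ℂ) ^ 2) hσ hT0 hyC hcC rfl hYσ h2
    (by rw [← h4]; ring) (by rw [← h6]; ring)
  have hσc : (c : ℂ) * σ = (x : ℂ) + (y : ℂ) * Complex.I := by
    rw [hσdef]
    unfold gr
    field_simp
  set T : ℂ := (lam : ℂ) ^ 2 with hT
  -- sizes
  have ha' : AI K ((D : ℝ) ^ 1) a := ha.mono le_rfl hED
  have hb' : AI K ((D : ℝ) ^ 1) b := hb.mono le_rfl hED
  have hc' : AI K ((D : ℝ) ^ 1) c6 := hc6.mono le_rfl hED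
  have hIK : AI K ((D : ℝ) ^ 0) Complex.I := by
    rw [pow_zero]
    exact AI.I (hK hI)
  have hxA : AI K ((D : ℝ) ^ 1) (x : ℂ) := ov_int _ 1 (by
    rw [pow_one]
    refine hx.trans ?_
    exact_mod_cast hBD)
  have hyA : AI K ((D : ℝ) ^ 1) (y : ℂ) := ov_int _ 1 (by
    rw [pow_one, abs_of_pos hy0]
    refine hy.trans ?_
    exact_mod_cast hBD)
  have hcA : AI K ((D : ℝ) ^ 1) (c : ℂ) := by
    refine (AI.nat K c).mono le_rfl ?_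
    rw [pow_one]
    exact_mod_cast hcB.trans hBD
  have hlA : AI K ((D : ℝ) ^ 1) (lam : ℂ) := by
    refine (AI.nat K lam).mono le_rfl (le_trans ?_ hED)
    exact_mod_cast hlam2
  have hTA : AI K ((D : ℝ) ^ 2) T := ov_pow 2 hlA
  have hδA : AI K ((D : ℝ) ^ 6) (b ^ 3 - c6 ^ 2) := ov_sub hD2 (ov_pow 3 hb') (ov_pow 2 hc')
  have hb2c : AI K ((D : ℝ) ^ 3) (b ^ 2 * c6) := ov_mul (ov_pow 2 hb') hc'
  have c1728 : AI K ((D : ℝ) ^ 11) (1728 : ℂ) := by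
    exact_mod_cast ov_const (K := K) hD2 1728 11 (by norm_num)
  have c1152 : AI K ((D : ℝ) ^ 11) (1152 : ℂ) := by
    exact_mod_cast ov_const (K := K) hD2 1152 11 (by norm_num)
  have c3456 : AI K ((D : ℝ) ^ 12) (3456 : ℂ) := by
    exact_mod_cast ov_const (K := K) hD2 3456 12 (by norm_num)
  have c4608 : AI K ((D : ℝ) ^ 13) (4608 : ℂ) := by
    exact_mod_cast ov_const (K := K) hD2 4608 13 (by norm_num)
  have hfin : (D : ℝ) ^ 200 ≤ (2 : ℝ) ^ B ^ (C0 + 20) := by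
    rw [hD]
    push_cast
    rw [← pow_mul]
    apply pow_le_pow_right₀ (by norm_num)
    calc F * 200 ≤ F * 2 ^ 8 := Nat.mul_le_mul_left _ (by norm_num)
      _ ≤ F * B ^ 8 := Nat.mul_le_mul_left _ (Nat.pow_le_pow_left hB 8)
      _ = B ^ (C0 + 9) := by rw [hF, ← pow_add]
      _ ≤ B ^ (C0 + 20) := Nat.pow_le_pow_right hBpos (by omega)
  refine ⟨(c : ℂ) * (b ^ 3 - c6 ^ 2) * T ^ 2 * y, ?_, ?_, ?_⟩
  · exact mul_ne_zero (mul_ne_zero (mul_ne_zero hcC hδ) (pow_ne_zero _ hT0)) hyC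
  · exact (ov_mono hD2 (ov_mul (ov_mul (ov_mul hcA hδA) (ov_pow 2 hTA)) hyA)
      (m := 200) (by norm_num)).mono le_rfl hfin
  · intro k
    fin_cases k
    · -- τ
      have e1 : (c : ℂ) * (b ^ 3 - c6 ^ 2) * T ^ 2 * y * J4 σ 0 =
          ((x : ℂ) + (y : ℂ) * Complex.I) * (b ^ 3 - c6 ^ 2) * T ^ 2 * y := by
        rw [← hσc]
        change _ * σ = _
        ring
      change Rep K 2 _ ((c : ℂ) * (b ^ 3 - c6 ^ 2) * T ^ 2 * y * J4 σ 0)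
      rw [e1]
      exact (ov_Rmono hD2 (m := 200) (ov_R0 (ov_mul (ov_mul (ov_mul
        (ov_add hD2 hxA (ov_mul hyA hIK)) hδA) (ov_pow 2 hTA)) hyA)) (by norm_num)).mono
        le_rfl le_rfl hfin
    · -- j
      have e1 : (c : ℂ) * (b ^ 3 - c6 ^ 2) * T ^ 2 * y * J4 σ 1 =
          (c : ℂ) * T ^ 2 * y * (1728 * b ^ 3) := by
        change _ * jf σ = _
        rw [← hj]
        ring
      change Rep K 2 _ ((c : ℂ) * (b ^ 3 - c6 ^ 2) * T ^ 2 * y * J4 σ 1)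
      rw [e1]
      exact (ov_Rmono hD2 (m := 200) (ov_R0 (ov_mul (ov_mul (ov_mul hcA (ov_pow 2 hTA)) hyA)
        (ov_mul c1728 (ov_pow 3 hb')))) (by norm_num)).mono le_rfl le_rfl hfin
    · -- j'
      have e1 : (c : ℂ) * (b ^ 3 - c6 ^ 2) * T ^ 2 * y * J4 σ 2 =
          -((c : ℂ) * T * y * (3456 * Complex.I * (b ^ 2 * c6))) * (th : ℂ) := by
        change _ * deriv jf σ = _
        calc _ = (c : ℂ) * T * y * (deriv jf σ * ((b ^ 3 - c6 ^ 2) * T)) := by ring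
          _ = _ := by rw [hdj]; ring
      change Rep K 2 _ ((c : ℂ) * (b ^ 3 - c6 ^ 2) * T ^ 2 * y * J4 σ 2)
      rw [e1]
      exact (ov_Rmono hD2 (m := 200) (ov_R1 (AI.neg (ov_mul (ov_mul (ov_mul hcA hTA) hyA)
        (ov_mul (ov_mul c3456 hIK) hb2c)))) (by norm_num)).mono le_rfl le_rfl hfin
    · -- j''
      have e1 : (c : ℂ) * (b ^ 3 - c6 ^ 2) * T ^ 2 * y * J4 σ 3 =
          (c : ℂ) * y * (1152 * (a * (b ^ 2 * c6)) - 4608 * (b * c6 ^ 2) - 3456 * b ^ 4) *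
            (th : ℂ) ^ 2 +
          ((c : ℂ) * (3456 * (b ^ 2 * c6) * T * c)) * (th : ℂ) := by
        change _ * deriv (deriv jf) σ = _
        calc _ = (c : ℂ) * (deriv (deriv jf) σ * ((b ^ 3 - c6 ^ 2) * T ^ 2 * y)) := by ring
          _ = _ := by rw [hddj]; ring
      change Rep K 2 _ ((c : ℂ) * (b ^ 3 - c6 ^ 2) * T ^ 2 * y * J4 σ 3)
      rw [e1]
      have t1 : AI K ((D : ℝ) ^ 60)
          (1152 * (a * (b ^ 2 * c6)) - 4608 * (b * c6 ^ 2) - 3456 * b ^ 4) :=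
        ov_mono hD2 (ov_sub hD2 (ov_sub hD2 (ov_mul c1152 (ov_mul ha' hb2c))
          (ov_mul c4608 (ov_mul hb' (ov_pow 2 hc')))) (ov_mul c3456 (ov_pow 4 hb')))
          (by norm_num)
      exact (ov_Rmono hD2 (m := 200) (ov_Radd hD2
        (ov_R2 (ov_mul (ov_mul hcA hyA) t1))
        (ov_R1 (ov_mul hcA (ov_mul (ov_mul (ov_mul c3456 hb2c) hTA) hcA)))) (by norm_num)).mono
        le_rfl le_rfl hfin

end Pool.Agent.Lib.MP5e
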