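import Pool.Agent.Lib.MP_5e64e7_nt.OAdd
import Pool.Agent.Lib.MP_5e64e7_nt.G2

set_option autoImplicit false

/-!
# O.XN : the normalised function `X = (4/s₀) ℘` of the lattice `2πℤ[i]` (about 100 lines)

`LP.g₂ = s₀²/4` (`g2_eq`), `LP.g₃ = 0` (`g3_eq`), `s₀ ≠ 0` (`s0_pos`), so with `℘ = (s₀/4) X` :
`wp_sym` gives `Xn_sym`, `wp_dup` together with `PeriodPair.derivWeierstrassP_sq` gives `Xn_dup`
(`4 (4x³ - 4x)(P + 2x) = (6x² - 2)²`, i.e. `4 (x³ - x) P = (x² + 1)²`). The remaining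
statements are immediate from Mathlib and `wp_pole`, `wp_first`. `NT_dense` : the complement of `NT`
is the countable union over `j ≥ 1` of the countable sets `{s | j s ∈ LP.lattice}`, and the
complement of a countable set of complex numbers is dense (`Set.Countable.dense_compl`, with
`𝕜 = ℝ` or `ℂ`).
-/

noncomputable section

namespace Pool.Agent.Lib.MP5e

open Polynomial Topology

private theorem oxn_s0_ne : (s0 : ℂ) ≠ 0 := Complex.ofReal_ne_zero.2 s0_pos.ne'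

private theorem oxn_wp (s : ℂ) : LP.weierstrassP s = (s0 : ℂ) / 4 * Xn s := by
  unfold Xn
  have h := oxn_s0_ne
  field_simp

theorem Xn_add_lattice (s : ℂ) {l : ℂ} (hl : l ∈ LP.lattice) : Xn (s + l) = Xn s := by
  unfold Xn
  rw [LP.weierstrassP_add_coe s ⟨l, hl⟩]

theorem Xn_neg (s : ℂ) : Xn (-s) = Xn s := by
  unfold Xn
  rw [LP.weierstrassP_neg]

theorem Xn_continuousAt {s : ℂ} (hs : s ∉ LP.lattice) : ContinuousAt Xn s := by
  unfold Xn
  exact continuousAt_const.mul (wp_first LP hs).continuousAt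

theorem Xn_pole {l : ℂ} (hl : l ∈ LP.lattice) :
    Filter.Tendsto (fun t => ‖Xn t‖) (𝓝[≠] l) Filter.atTop := by
  have h1 := wp_pole LP hl
  have h2 : 0 < ‖(4 : ℂ) / (s0 : ℂ)‖ :=
    norm_pos_iff.2 (div_ne_zero (by norm_num) oxn_s0_ne)
  have h3 := Filter.Tendsto.const_mul_atTop h2 h1
  refine h3.congr fun t => ?_
  unfold Xn
  rw [norm_mul]

theorem Xn_sym {u v : ℂ} (hu : u ∉ LP.lattice) (hv : v ∉ LP.lattice)
    (huv : u + v ∉ LP.lattice) (huv' : u - v ∉ LP.lattice) :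
    (Xn (u + v) + Xn (u - v)) * (Xn u - Xn v) ^ 2 = 2 * (Xn u * Xn v - 1) * (Xn u + Xn v) := by
  have h := wp_sym LP hu hv huv huv'
  rw [g2_eq, g3_eq, oxn_wp, oxn_wp, oxn_wp, oxn_wp] at h
  have h0 := oxn_s0_ne
  have h3 : ((s0 : ℂ) / 4) ^ 3 ≠ 0 := pow_ne_zero _ (div_ne_zero h0 (by norm_num))
  apply mul_left_cancel₀ h3
  linear_combination h

theorem Xn_dup {u : ℂ} (hu : u ∉ LP.lattice) (h2 : u + u ∉ LP.lattice) :
    Xn (u + u) * (4 * (Xn u ^ 3 - Xn u)) = (Xn u ^ 2 + 1) ^ 2 := by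
  have h := wp_dup LP hu h2
  have hd := LP.derivWeierstrassP_sq u hu
  rw [hd, g2_eq, g3_eq, oxn_wp, oxn_wp] at h
  have h0 := oxn_s0_ne
  have h3 : ((s0 : ℂ) / 4) ^ 4 * 4 ≠ 0 :=
    mul_ne_zero (pow_ne_zero _ (div_ne_zero h0 (by norm_num))) (by norm_num)
  apply mul_left_cancel₀ h3
  linear_combination h

theorem NT_dense : Dense NT := by
  have hc : (NTᶜ : Set ℂ).Countable := by
    have h1 : (NTᶜ : Set ℂ) ⊆ ⋃ j : ℕ, ⋃ (_ : 1 ≤ j), {s : ℂ | (j : ℂ) * s ∈ LP.lattice} := by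
      intro s hs
      have hs' : ¬ ∀ j : ℕ, 1 ≤ j → (j : ℂ) * s ∉ LP.lattice := hs
      push Not at hs'
      obtain ⟨j, hj, hjs⟩ := hs'
      exact Set.mem_iUnion.2 ⟨j, Set.mem_iUnion.2 ⟨hj, hjs⟩⟩
    refine Set.Countable.mono h1 (Set.countable_iUnion fun j => Set.countable_iUnion fun hj => ?_)
    have hj0 : (j : ℂ) ≠ 0 := by
      have : j ≠ 0 := by omega
      exact_mod_cast this
    have hL : (LP.lattice : Set ℂ).Countable := by
      have : Countable LP.lattice := LP.latticeEquivProd.toEquiv.countable_iff.2 inferInstance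
      exact Set.to_countable _
    refine Set.MapsTo.countable_of_injOn (f := fun s : ℂ => (j : ℂ) * s) (t := (LP.lattice : Set ℂ))
      (fun s hs => hs) ?_ hL
    intro a _ b _ hab
    exact mul_left_cancel₀ hj0 hab
  have h := Set.Countable.dense_compl ℝ hc
  rwa [compl_compl] at h

theorem NT_notMem {s : ℂ} (hs : s ∈ NT) (j : ℕ) (hj : 1 ≤ j) : (j : ℂ) * s ∉ LP.lattice :=
  hs j hj

end Pool.Agent.Lib.MP5e
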