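import Pool.Agent.Lib.MP_5e64e7_nt.QDefs
import Pool.Agent.Lib.MP_5e64e7_nt.Exa

set_option autoImplicit false

/-!
# Q.EXA : an explicit tuple for every `m`
-/

noncomputable section

namespace Pool.Agent.Lib.MP5e

open Polynomial Topology

open Exa in
theorem qexa (m : ℕ) (a : ℕ → ℕ) (h0 : a 0 = 1) (h1 : ∀ k, a (k + 1) = 2 ^ ((k + 1) * a k)) :
    QHier (fun l : Fin m => ∑' k : ℕ, (1 : ℝ) / 2 ^ a (k * m + (l : ℕ))) := by
  intro C
  rcases Nat.eq_zero_or_pos m with hm0 | hm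
  · subst hm0
    exact ⟨2, fun l => l.elim0, fun l => l.elim0, le_rfl, fun l => l.elim0, fun l => l.elim0,
      fun l => l.elim0⟩
  obtain ⟨M, hM⟩ : ∃ M : ℕ, M = C + 2 := ⟨_, rfl⟩
  set w : ℕ → ℕ := fun l => a (M * m + l) with hw
  set v : ℕ → ℕ := fun l => ∑ k ∈ Finset.range (M + 1), 2 ^ (w l - a (k * m + l)) with hv
  set T : ℕ → ℝ := fun l => ∑' j : ℕ, (1 : ℝ) / 2 ^ a ((j + (M + 1)) * m + l) with hT
  have hTle : ∀ l, T l ≤ 1 / 2 ^ a ((M + 1) * m + l) * 2 := fun l => tail_le h1 hm (M + 1) l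
  have hleT : ∀ l, 1 / 2 ^ a ((M + 1) * m + l) ≤ T l := fun l => le_tail h1 hm (M + 1) l
  have hT0 : ∀ l, 0 < T l := fun l => lt_of_lt_of_le (by positivity) (hleT l)
  have hwm : ∀ l k, k ≤ M → a (k * m + l) + (M - k) ≤ w l := by
    intro l k hk
    have h2 : k * m + l + (M - k) ≤ M * m + l := by
      have h3 : (M - k) * 1 ≤ (M - k) * m := Nat.mul_le_mul_left _ hm
      have h4 : (M - k) * m + k * m = M * m := by rw [← add_mul, Nat.sub_add_cancel hk]
      omega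
    have h5 := a_le h1 h2
    have h6 := a_add h1 (k * m + l) (M - k)
    simp only [hw]
    omega
  have hvw : ∀ l, (v l : ℝ) / 2 ^ w l = ∑ k ∈ Finset.range (M + 1), (1 : ℝ) / 2 ^ a (k * m + l) := by
    intro l
    simp only [hv]
    push_cast
    rw [Finset.sum_div]
    refine Finset.sum_congr rfl fun k hk => ?_
    rw [Finset.mem_range] at hk
    have h2 := hwm l k (by omega)
    rw [div_eq_div_iff (by positivity) (by positivity), one_mul, ← pow_add]
    congr 1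
    omega
  have hsplit : ∀ l, ∑' k : ℕ, (1 : ℝ) / 2 ^ a (k * m + l) = (v l : ℝ) / 2 ^ w l + T l := by
    intro l
    rw [hvw l]
    have hs : Summable fun k : ℕ => (1 : ℝ) / 2 ^ a (k * m + l) := by
      have := summ h1 hm 0 l
      simpa using this
    exact (hs.sum_add_tsum_nat_add (M + 1)).symm
  have hvB : ∀ l, v l ≤ 2 ^ (w l + 1) := by
    intro l
    have h2 : ∑' k : ℕ, (1 : ℝ) / 2 ^ a (k * m + l) ≤ 2 := by
      have h3 := tail_le h1 hm 0 l
      simp only [add_zero, zero_mul, zero_add] at h3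
      refine h3.trans ?_
      have h4 : (1 : ℝ) / 2 ^ a l ≤ 1 := by
        rw [div_le_one (by positivity)]
        exact one_le_pow₀ (by norm_num)
      linarith
    have h5 := hsplit l
    have h6 := hT0 l
    have h7 : (v l : ℝ) / 2 ^ w l ≤ 2 := by linarith
    rw [div_le_iff₀ (by positivity)] at h7
    have h8 : (v l : ℝ) ≤ ((2 ^ (w l + 1) : ℕ) : ℝ) := by
      push_cast
      rw [pow_succ]; linarith
    exact_mod_cast h8
  obtain ⟨W, hW⟩ : ∃ W : ℕ, W = a (M * m + m - 1) := ⟨_, rfl⟩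
  have hwW : ∀ l, l < m → w l ≤ W := by
    intro l hl
    have := a_le h1 (show M * m + l ≤ M * m + m - 1 by omega)
    simp only [hw]
    omega
  have hWM : C + 2 ≤ W := by
    have h2 := a_add h1 0 (M * m + m - 1)
    rw [h0, zero_add, ← hW] at h2
    have h3 : M * 1 ≤ M * m := Nat.mul_le_mul_left _ hm
    omega
  have hdiff : ∀ l, |(∑' k : ℕ, (1 : ℝ) / 2 ^ a (k * m + l)) - ((v l : ℤ) : ℝ) / ((2 ^ w l : ℕ) : ℝ)|
      = T l := by
    intro l
    rw [hsplit l]
    push_cast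
    rw [add_sub_cancel_left, abs_of_pos (hT0 l)]
  refine ⟨2 ^ (W + 1), fun l => (v l : ℤ), fun l => 2 ^ w l, ?_, ?_, ?_, ?_⟩
  · calc 2 = 2 ^ 1 := (pow_one 2).symm
      _ ≤ 2 ^ (W + 1) := Nat.pow_le_pow_right (by norm_num) (by omega)
  · intro l
    have h2 := hwW l l.2
    refine ⟨Nat.one_le_two_pow, Nat.pow_le_pow_right (by norm_num) (by omega), ?_, ?_⟩
    · rw [Nat.abs_cast]
      have h3 : v l ≤ 2 ^ (W + 1) :=
        (hvB l).trans (Nat.pow_le_pow_right (by norm_num) (by omega))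
      exact_mod_cast h3
    · intro h3
      have h4 := hdiff l
      have h5 := hT0 l
      have h6 : (∑' k : ℕ, (1 : ℝ) / 2 ^ a (k * m + (l : ℕ))) =
          ((v l : ℤ) : ℝ) / ((2 ^ w l : ℕ) : ℝ) := h3
      rw [h6, sub_self, abs_zero] at h4
      linarith
  · intro l hl0
    have h2 := hdiff (l : ℕ)
    rw [hl0] at h2
    have h2' : |(∑' k : ℕ, (1 : ℝ) / 2 ^ a (k * m + (l : ℕ))) -
        ((v l : ℤ) : ℝ) / ((2 ^ w l : ℕ) : ℝ)| = T 0 := by rw [hl0]; exact h2
    refine (le_of_eq h2').trans ?_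
    have h3 := hTle 0
    refine h3.trans ?_
    rw [add_zero]
    obtain ⟨X, hX⟩ : ∃ X : ℕ, X = a ((M + 1) * m) := ⟨_, rfl⟩
    rw [← hX]
    have hXeq : X = 2 ^ ((M + 1) * m * W) := by
      have h4 : (M + 1) * m = (M * m + m - 1) + 1 := by
        have : (M + 1) * m = M * m + m := by ring
        omega
      rw [hX, hW, h4, h1]
    obtain ⟨Y, hY⟩ : ∃ Y : ℕ, Y = (2 ^ (W + 1)) ^ C := ⟨_, rfl⟩
    have hY1 : 1 ≤ Y := by
      rw [hY]
      exact Nat.one_le_pow _ _ (by positivity)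
    have hXY : 2 * Y + 1 ≤ X := by
      have h4 : 4 * Y = 2 ^ ((W + 1) * C + 2) := by
        rw [hY, ← pow_mul, pow_add]
        ring
      have h5 : 2 ^ ((W + 1) * C + 2) ≤ X := by
        rw [hXeq]
        apply Nat.pow_le_pow_right (by norm_num)
        have h6 : (C + 3) * 1 * W ≤ (M + 1) * m * W := by
          apply Nat.mul_le_mul_right
          rw [hM]
          exact Nat.mul_le_mul_left _ hm
        nlinarith
      omega
    have h4 : (1 : ℝ) / 2 ^ X * 2 ≤ (1 / 2) ^ (2 * Y) := by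
      have h5 : (1 : ℝ) / 2 ^ X ≤ 1 / 2 ^ (2 * Y + 1) :=
        one_div_le_one_div_of_le (by positivity) (pow_le_pow_right₀ (by norm_num) hXY)
      calc (1 : ℝ) / 2 ^ X * 2 ≤ 1 / 2 ^ (2 * Y + 1) * 2 :=
            mul_le_mul_of_nonneg_right h5 (by norm_num)
        _ = (1 / 2) ^ (2 * Y) := by
            rw [one_div_pow, pow_succ]
            field_simp
    refine h4.trans ?_
    have h5 : (((2 ^ (W + 1) : ℕ) : ℝ)) ^ C = (Y : ℝ) := by
      rw [hY]
      push_cast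
      ring
    rw [h5]
    have h6 : ((1 : ℝ) / 2) ^ (2 * Y) = (1 / 4) ^ Y := by
      rw [pow_mul]
      norm_num
    rw [h6]
    have h7 : Real.exp (-(Y : ℝ)) = (Real.exp (-1)) ^ Y := by
      rw [← Real.exp_nat_mul]
      congr 1
      ring
    rw [h7]
    apply pow_le_pow_left₀ (by norm_num)
    have h8 : Real.exp 1 ≤ 4 := by
      have := Real.exp_one_lt_d9
      linarith
    rw [Real.exp_neg, one_div]
    exact inv_anti₀ (Real.exp_pos 1) h8
  · intro l l' hll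
    have h2 : |(∑' k : ℕ, (1 : ℝ) / 2 ^ a (k * m + (l' : ℕ))) -
        ((v l' : ℤ) : ℝ) / ((2 ^ w l' : ℕ) : ℝ)| = T l' := hdiff l'
    have h3 : |(∑' k : ℕ, (1 : ℝ) / 2 ^ a (k * m + (l : ℕ))) -
        ((v l : ℤ) : ℝ) / ((2 ^ w l : ℕ) : ℝ)| = T l := hdiff l
    refine (le_of_eq h2).trans (le_trans ?_ (le_of_eq (congrArg (fun x : ℝ => x ^ C) h3.symm)))
    obtain ⟨x, hx⟩ : ∃ x : ℕ, x = (M + 1) * m + (l : ℕ) := ⟨_, rfl⟩
    have hx' : (M + 1) * m + (l' : ℕ) = x + 1 := by omega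
    have h4 := hTle l'
    have h5 := hleT l
    rw [hx'] at h4
    rw [← hx] at h5
    have hxC : C ≤ x + 1 := by
      have h6 : (M + 1) * 1 ≤ (M + 1) * m := Nat.mul_le_mul_left _ hm
      omega
    have h6 := a_mono h1 x
    have h7 : C * a x + 1 ≤ a (x + 1) := by
      have : C * a x ≤ (x + 1) * a x := Nat.mul_le_mul_right _ hxC
      omega
    refine h4.trans (le_trans ?_ (pow_le_pow_left₀ (by positivity) h5 C))
    have h8 : (1 : ℝ) / 2 ^ a (x + 1) ≤ 1 / 2 ^ (C * a x + 1) :=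
      one_div_le_one_div_of_le (by positivity) (pow_le_pow_right₀ (by norm_num) h7)
    calc (1 : ℝ) / 2 ^ a (x + 1) * 2 ≤ 1 / 2 ^ (C * a x + 1) * 2 :=
          mul_le_mul_of_nonneg_right h8 (by norm_num)
      _ = (1 / 2 ^ a x) ^ C := by
          rw [one_div_pow, ← pow_mul, pow_succ, mul_comm C]
          field_simp

end Pool.Agent.Lib.MP5e
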