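import Pool.Agent.Lib.MP_5e64e7_nt.QCmd
import Pool.Agent.Lib.MP_5e64e7_nt.QVal
import Pool.Agent.Lib.MP_5e64e7_nt.QHt
import Pool.Agent.Lib.MP_5e64e7_nt.OLow
import Pool.Agent.Lib.MP_5e64e7_nt.Approx

set_option autoImplicit false

/-!
# Q.APP : values of integer polynomials at rational points (about 250 lines, adaptation of `OApp.lean`)

`x = (a_l/c_l)`. Let `h` be the maximum of the exponents of `qht` for the `f k`, `B' = B^h`. For each `k` let `F_k, R_k` be as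
in `hB`; `K₀ = ⨆ F_k` (finite over `ℚ`: `IntermediateField.finiteDimensional_iSup_of_finite`; for `n = 0` it is `⊥`). As in
`oapp_field`: one field `K ⊇ K₀` with `finrank K ≤ (B'^C₀)^n · finrank K₀` (`C₀` = maximum of the constants of
`qcmd` for the `f k`; enlarge the exponent: `QCMD` is monotone in `E`, `B'^C ≤ B'^C₀`) and denominators `dl_k` (`qval`,
`qy_real` identifies `qy` with the imaginary part; `qz = qgr D x' y' c'`): `AI K M₀ (dl_k)`, `AI K M₀ (dl_k v_{k,i})`,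
`M₀ = 2^(100 B'^C₀ + 100)`. The variables `x_l = a_l/c_l` have the denominator `c_l`. Common denominator
`DL = ∏ c_l · ∏ dl_k`, `AI K M₁ DL` and `AI K M₁ (DL · qfam v)` for all `v`, `M₁ = M₀^(m+n)` (`AI_prod`; `B ≤ M₀`).
Then `Rep K 2 M₁ (DL · qfam v)` (`AI.rep`), `rep_homog` of `Approx.lean`, and the lower bound `orep_lower` (`OLow.lean`) as in
`oapprox`. (Or directly through the norm.)
-/

noncomputable section

namespace Pool.Agent.Lib.MP5e

open Polynomial Topology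

/-- the values at one point -/
private theorem qapp_one {m : ℕ} (f : QF m) (hf : 1 ≤ f.D) (L : PeriodPair)
    (F : IntermediateField ℚ ℂ) (R : ℝ) (hQ : QB f.D L F R) :
    ∃ C : ℕ, ∀ K0 : IntermediateField ℚ ℂ, FiniteDimensional ℚ K0 → F ≤ K0 →
      ∀ (B : ℕ) (a : Fin m → ℤ) (c : Fin m → ℕ), 2 ≤ B →
      (∀ l, 1 ≤ c l ∧ c l ≤ B ∧ |a l| ≤ (B : ℤ)) →
      0 < (qz f (fun l => ((a l : ℂ) / (c l : ℂ)))).im →
      ∃ K : IntermediateField ℚ ℂ, K0 ≤ K ∧ FiniteDimensional ℚ K ∧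
        Module.finrank ℚ K ≤ B ^ C * Module.finrank ℚ K0 ∧
        ∃ dl : ℂ, dl ≠ 0 ∧ AI K ((2 : ℝ) ^ B ^ C) dl ∧
          ∀ j : Fin 3, AI K ((2 : ℝ) ^ B ^ C)
            (dl * qv L (qz f (fun l => ((a l : ℂ) / (c l : ℂ))))
              (qy f (fun l => ((a l : ℂ) / (c l : ℂ)))) j) := by
  obtain ⟨C, hC⟩ := qcmd f.D hf L F R hQ
  obtain ⟨h, hh⟩ := qht f hf
  refine ⟨(h + 1) * C + 8, fun K0 hK0 hFK B a c hB hac him => ?_⟩
  obtain ⟨c', x', y', e1, e2, e3, e4, e5, e6⟩ := hh B a c hB hac him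
  have hBpos : 0 < B := by omega
  have hle : B ^ h ≤ B ^ (h + 1) := Nat.pow_le_pow_right hBpos (by omega)
  have hle' : ((B ^ h : ℕ) : ℤ) ≤ ((B ^ (h + 1) : ℕ) : ℤ) := by exact_mod_cast hle
  have h2 : 2 ≤ B ^ (h + 1) := by
    calc 2 ≤ B ^ 1 := by rwa [pow_one]
      _ ≤ B ^ (h + 1) := Nat.pow_le_pow_right hBpos (by omega)
  obtain ⟨K, k1, k2, k3, lam, k4⟩ := hC K0 hK0 hFK (B ^ (h + 1)) c' x' y' h2 e1 (e2.trans hle)
    (e3.trans hle') e4 (e5.trans hle')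
  rw [← e6] at k4
  obtain ⟨dl, d1, d2, d3⟩ := qval L him k4
  have hy : qy f (fun l => ((a l : ℂ) / (c l : ℂ))) =
      ((qz f (fun l => ((a l : ℂ) / (c l : ℂ)))).im : ℂ) := by
    have h3 := qy_real f (fun l => (a l : ℝ) / (c l : ℝ))
    have h4 : (fun l => (((a l : ℝ) / (c l : ℝ) : ℝ) : ℂ)) =
        fun l => ((a l : ℂ) / (c l : ℂ)) := by
      funext l; push_cast; rfl
    rw [h4] at h3
    exact h3
  have hE : (B ^ (h + 1)) ^ C = B ^ ((h + 1) * C) := (pow_mul _ _ _).symm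
  have hsz : 100 * (B ^ (h + 1)) ^ C + 100 ≤ B ^ ((h + 1) * C + 8) := by
    rw [hE, pow_add]
    have h5 : 1 ≤ B ^ ((h + 1) * C) := Nat.one_le_pow _ _ hBpos
    have h6 : 256 ≤ B ^ 8 := by
      calc 256 = 2 ^ 8 := by norm_num
        _ ≤ B ^ 8 := Nat.pow_le_pow_left hB 8
    calc 100 * B ^ ((h + 1) * C) + 100 ≤ B ^ ((h + 1) * C) * 256 := by omega
      _ ≤ B ^ ((h + 1) * C) * B ^ 8 := Nat.mul_le_mul_left _ h6
  have hszR : (2 : ℝ) ^ (100 * (B ^ (h + 1)) ^ C + 100) ≤ (2 : ℝ) ^ B ^ ((h + 1) * C + 8) :=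
    pow_le_pow_right₀ (by norm_num) hsz
  refine ⟨K, k1, k2, k3.trans (Nat.mul_le_mul_right _ ?_), dl, d1, d2.mono le_rfl hszR,
    fun j => ?_⟩
  · rw [hE]
    exact Nat.pow_le_pow_right hBpos (by omega)
  · rw [hy]
    exact (d3 j).mono le_rfl hszR

/-- one field for all the points -/
private theorem qapp_field {m n : ℕ} (f : Fin n → QF m) (𝓛 : ℕ → PeriodPair) (C0 : ℕ)
    (G : IntermediateField ℚ ℂ)
    (hval : ∀ k, ∀ K0 : IntermediateField ℚ ℂ, FiniteDimensional ℚ K0 → G ≤ K0 →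
      ∀ (B : ℕ) (a : Fin m → ℤ) (c : Fin m → ℕ), 2 ≤ B →
      (∀ l, 1 ≤ c l ∧ c l ≤ B ∧ |a l| ≤ (B : ℤ)) →
      0 < (qz (f k) (fun l => ((a l : ℂ) / (c l : ℂ)))).im →
      ∃ K : IntermediateField ℚ ℂ, K0 ≤ K ∧ FiniteDimensional ℚ K ∧
        Module.finrank ℚ K ≤ B ^ C0 * Module.finrank ℚ K0 ∧
        ∃ dl : ℂ, dl ≠ 0 ∧ AI K ((2 : ℝ) ^ B ^ C0) dl ∧
          ∀ j : Fin 3, AI K ((2 : ℝ) ^ B ^ C0)
            (dl * qv (𝓛 (f k).D) (qz (f k) (fun l => ((a l : ℂ) / (c l : ℂ))))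
              (qy (f k) (fun l => ((a l : ℂ) / (c l : ℂ)))) j))
    (hG : FiniteDimensional ℚ G) (B : ℕ) (a : Fin m → ℤ) (c : Fin m → ℕ) (hB : 2 ≤ B)
    (hac : ∀ l, 1 ≤ c l ∧ c l ≤ B ∧ |a l| ≤ (B : ℤ))
    (him : ∀ k, 0 < (qz (f k) (fun l => ((a l : ℂ) / (c l : ℂ)))).im) (s : Finset (Fin n)) :
    ∃ K : IntermediateField ℚ ℂ, G ≤ K ∧ FiniteDimensional ℚ K ∧
      Module.finrank ℚ K ≤ (B ^ C0) ^ s.card * Module.finrank ℚ G ∧
      ∀ k ∈ s, ∃ dl : ℂ, dl ≠ 0 ∧ AI K ((2 : ℝ) ^ B ^ C0) dl ∧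
        ∀ j : Fin 3, AI K ((2 : ℝ) ^ B ^ C0)
          (dl * qv (𝓛 (f k).D) (qz (f k) (fun l => ((a l : ℂ) / (c l : ℂ))))
            (qy (f k) (fun l => ((a l : ℂ) / (c l : ℂ)))) j) := by
  classical
  induction s using Finset.induction_on with
  | empty => exact ⟨G, le_rfl, hG, by simp, by simp⟩
  | insert k s hk ih =>
    obtain ⟨K, h1, h2, h3, h4⟩ := ih
    obtain ⟨K', h1', h2', h3', dl, h4', h5', h6'⟩ := hval k K h2 h1 B a c hB hac (him k)
    refine ⟨K', h1.trans h1', h2', ?_, ?_⟩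
    · rw [Finset.card_insert_of_notMem hk]
      calc Module.finrank ℚ K' ≤ B ^ C0 * Module.finrank ℚ K := h3'
        _ ≤ B ^ C0 * ((B ^ C0) ^ s.card * Module.finrank ℚ G) := Nat.mul_le_mul_left _ h3
        _ = (B ^ C0) ^ (s.card + 1) * Module.finrank ℚ G := by ring
    · intro k' hk'
      rcases Finset.mem_insert.mp hk' with h | h
      · subst h
        exact ⟨dl, h4', h5', h6'⟩
      · obtain ⟨dl', e1, e2, e3⟩ := h4 k' h
        exact ⟨dl', e1, e2.mono h1' le_rfl, fun j => (e3 j).mono h1' le_rfl⟩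

open Approx in
theorem qapprox {m n : ℕ} (f : Fin n → QF m) (hf : ∀ k, 1 ≤ (f k).D) (𝓛 : ℕ → PeriodPair)
    (hB : ∀ k, ∃ (F : IntermediateField ℚ ℂ) (R : ℝ), QB (f k).D (𝓛 (f k).D) F R)
    (P : MvPolynomial (Fin m ⊕ (Fin n × Fin 3)) ℤ) :
    ∃ C : ℕ, ∀ (B : ℕ) (a : Fin m → ℤ) (c : Fin m → ℕ), 2 ≤ B →
      (∀ l, 1 ≤ c l ∧ c l ≤ B ∧ |a l| ≤ (B : ℤ)) →
      (∀ k, 0 < (qz (f k) (fun l => ((a l : ℂ) / (c l : ℂ)))).im) →
      MvPolynomial.aeval (qfam f 𝓛 (fun l => ((a l : ℂ) / (c l : ℂ)))) P = 0 ∨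
        Real.exp (-((B : ℝ) ^ C)) ≤
          ‖MvPolynomial.aeval (qfam f 𝓛 (fun l => ((a l : ℂ) / (c l : ℂ)))) P‖ := by
  classical
  choose F R hQ using hB
  choose Cc hCc using fun k => qapp_one (f k) (hf k) (𝓛 (f k).D) (F k) (R k) (hQ k)
  obtain ⟨A, hA⟩ := orep_lower
  -- the base field
  set G : IntermediateField ℚ ℂ := ⨆ k, F k with hG
  have hGfd : FiniteDimensional ℚ G := by
    have : ∀ k, FiniteDimensional ℚ (F k) := fun k => (hQ k).2.1
    exact IntermediateField.finiteDimensional_iSup_of_finite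
  set C0 : ℕ := ∑ k, Cc k with hC0
  have hCle : ∀ k, Cc k ≤ C0 := fun k =>
    Finset.single_le_sum (f := Cc) (fun _ _ => Nat.zero_le _) (Finset.mem_univ k)
  have hval : ∀ k, ∀ K0 : IntermediateField ℚ ℂ, FiniteDimensional ℚ K0 → G ≤ K0 →
      ∀ (B : ℕ) (a : Fin m → ℤ) (c : Fin m → ℕ), 2 ≤ B →
      (∀ l, 1 ≤ c l ∧ c l ≤ B ∧ |a l| ≤ (B : ℤ)) →
      0 < (qz (f k) (fun l => ((a l : ℂ) / (c l : ℂ)))).im →
      ∃ K : IntermediateField ℚ ℂ, K0 ≤ K ∧ FiniteDimensional ℚ K ∧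
        Module.finrank ℚ K ≤ B ^ C0 * Module.finrank ℚ K0 ∧
        ∃ dl : ℂ, dl ≠ 0 ∧ AI K ((2 : ℝ) ^ B ^ C0) dl ∧
          ∀ j : Fin 3, AI K ((2 : ℝ) ^ B ^ C0)
            (dl * qv (𝓛 (f k).D) (qz (f k) (fun l => ((a l : ℂ) / (c l : ℂ))))
              (qy (f k) (fun l => ((a l : ℂ) / (c l : ℂ)))) j) := by
    intro k K0 hK0 hGK B a c hB hac him
    obtain ⟨K, h1, h2, h3, dl, h4, h5, h6⟩ := hCc k K0 hK0 ((le_iSup F k).trans hGK) B a c hB
      hac him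
    have hp : B ^ Cc k ≤ B ^ C0 := Nat.pow_le_pow_right (by omega) (hCle k)
    have hpR : (2 : ℝ) ^ B ^ Cc k ≤ (2 : ℝ) ^ B ^ C0 := pow_le_pow_right₀ (by norm_num) hp
    exact ⟨K, h1, h2, h3.trans (Nat.mul_le_mul_right _ hp), dl, h4, h5.mono le_rfl hpR,
      fun j => (h6 j).mono le_rfl hpR⟩
  set f0 := Module.finrank ℚ G with hf0
  set T := P.totalDegree with hT
  set H1 : ℕ := ∑ s ∈ P.support, (P.coeff s).natAbs with hH1
  set C1 : ℕ := n * C0 + f0 + (2 * T + 1) + ((C0 + 1) + (H1 + 3 + (m + n) * T)) with hC1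
  set C2 : ℕ := C0 + 1 + (m + n) * T with hC2
  refine ⟨(A + C1) * A + C2 + 1, fun B a c hB hac him => ?_⟩
  set x : Fin m → ℂ := fun l => ((a l : ℂ) / (c l : ℂ)) with hx
  by_cases h0 : MvPolynomial.aeval (qfam f 𝓛 x) P = 0
  · exact Or.inl h0
  right
  obtain ⟨K, hK1, hK2, hK3, hK4⟩ := qapp_field f 𝓛 C0 G hval hGfd B a c hB hac him Finset.univ
  rw [Finset.card_univ, Fintype.card_fin] at hK3
  choose! dl hdl0 hdlA0 hdlR0 using hK4
  have hBpos : 0 < B := by omega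
  have hB1 : (1 : ℝ) ≤ B := by exact_mod_cast (by omega : 1 ≤ B)
  have hpow : ∀ k : ℕ, k ≤ B ^ k := fun k =>
    (Nat.lt_two_pow_self).le.trans (Nat.pow_le_pow_left hB k)
  set F1 : ℕ := B ^ (C0 + 1) with hF1
  have hEF : B ^ C0 ≤ F1 := Nat.pow_le_pow_right hBpos (by omega)
  have hBF : B ≤ F1 := by
    calc B = B ^ 1 := (pow_one B).symm
      _ ≤ F1 := Nat.pow_le_pow_right hBpos (by omega)
  have hF11 : 1 ≤ F1 := by omega
  set M0 : ℝ := (2 : ℝ) ^ F1 with hM0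
  have hM01 : 1 ≤ M0 := one_le_pow₀ (by norm_num)
  have hEM : (2 : ℝ) ^ B ^ C0 ≤ M0 := pow_le_pow_right₀ (by norm_num) hEF
  have hBM : (B : ℝ) ≤ M0 := by
    have h1 : B ≤ 2 ^ F1 := Nat.lt_two_pow_self.le.trans (Nat.pow_le_pow_right (by norm_num) hBF)
    rw [hM0]
    exact_mod_cast h1
  have hdlA : ∀ k, AI K M0 (dl k) := fun k => (hdlA0 k (Finset.mem_univ _)).mono le_rfl hEM
  have hdlR : ∀ k, ∀ j : Fin 3, AI K M0 (dl k * qv (𝓛 (f k).D) (qz (f k) x) (qy (f k) x) j) :=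
    fun k j => (hdlR0 k (Finset.mem_univ _) j).mono le_rfl hEM
  have hcC : ∀ l, (c l : ℂ) ≠ 0 := fun l => by
    have : c l ≠ 0 := by have := (hac l).1; omega
    exact_mod_cast this
  have hcA : ∀ l, AI K M0 (c l : ℂ) := fun l => by
    refine (AI.nat K (c l)).mono le_rfl ?_
    have h1 : (c l : ℝ) ≤ B := by exact_mod_cast (hac l).2.1
    linarith
  have haA : ∀ l, AI K M0 (a l : ℂ) := fun l => by
    refine (AI.int K (a l)).mono le_rfl ?_
    have h2 : |((a l : ℤ) : ℝ)| ≤ B := by exact_mod_cast (hac l).2.2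
    linarith
  set M1 : ℝ := M0 ^ (m + n) with hM1
  have hM11 : 1 ≤ M1 := one_le_pow₀ hM01
  set DC : ℂ := ∏ l, (c l : ℂ) with hDC
  set DP : ℂ := ∏ k, dl k with hDP
  set DL : ℂ := DC * DP with hDL
  have hDP0 : DP ≠ 0 := Finset.prod_ne_zero_iff.mpr fun k _ => hdl0 k (Finset.mem_univ _)
  have hDC0 : DC ≠ 0 := Finset.prod_ne_zero_iff.mpr fun l _ => hcC l
  have hDL0 : DL ≠ 0 := mul_ne_zero hDC0 hDP0
  have hDPA : AI K (M0 ^ n) DP := by
    have := AI_prod (K := K) Finset.univ M0 dl (fun k _ => hdlA k)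
    rwa [Finset.card_univ, Fintype.card_fin] at this
  have hDCA : AI K (M0 ^ m) DC := by
    have := AI_prod (K := K) Finset.univ M0 (fun l => (c l : ℂ)) (fun l _ => hcA l)
    rwa [Finset.card_univ, Fintype.card_fin] at this
  have hDLA : AI K M1 DL := by
    have := hDCA.mul hDPA
    rwa [← pow_add] at this
  have hvar : ∀ v, Rep K 2 M1 (DL * qfam f 𝓛 x v) := by
    intro v
    rcases v with l | ⟨k, j⟩
    · have h1 : DL * qfam f 𝓛 x (Sum.inl l) =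
          ((a l : ℂ) * ∏ l' ∈ Finset.univ.erase l, (c l' : ℂ)) * DP := by
        rw [hDL, hDC, ← Finset.mul_prod_erase Finset.univ (fun l => (c l : ℂ))
          (Finset.mem_univ l)]
        simp only [qfam, Sum.elim_inl, hx]
        have := hcC l
        field_simp
      rw [h1]
      have h2 : AI K (M0 ^ (m - 1)) (∏ l' ∈ Finset.univ.erase l, (c l' : ℂ)) := by
        have := AI_prod (K := K) (Finset.univ.erase l) M0 (fun l => (c l : ℂ))
          (fun l _ => hcA l)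
        rwa [Finset.card_erase_of_mem (Finset.mem_univ _), Finset.card_univ, Fintype.card_fin]
          at this
      refine (((haA l).mul h2).mul hDPA |>.rep 2).mono le_rfl le_rfl ?_
      have hm : m - 1 + 1 = m := by
        have := l.2
        omega
      have h3 : M0 * M0 ^ (m - 1) = M0 ^ m := by
        rw [← pow_succ', hm]
      rw [h3, ← pow_add]
    · have h1 : DL * qfam f 𝓛 x (Sum.inr (k, j)) =
          (DC * ∏ k' ∈ Finset.univ.erase k, dl k') *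
            (dl k * qv (𝓛 (f k).D) (qz (f k) x) (qy (f k) x) j) := by
        rw [hDL, hDP, ← Finset.mul_prod_erase Finset.univ dl (Finset.mem_univ k)]
        simp only [qfam, Sum.elim_inr]
        ring
      rw [h1]
      have h2 : AI K (M0 ^ (n - 1)) (∏ k' ∈ Finset.univ.erase k, dl k') := by
        have := AI_prod (K := K) (Finset.univ.erase k) M0 dl
          (fun k _ => hdlA k)
        rwa [Finset.card_erase_of_mem (Finset.mem_univ _), Finset.card_univ, Fintype.card_fin]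
          at this
      refine ((hDCA.mul h2).mul (hdlR k j) |>.rep 2).mono le_rfl le_rfl ?_
      have hn : m + (n - 1) + 1 = m + n := by
        have := k.2
        omega
      rw [← pow_add, ← pow_succ, hn]
  have hrep := rep_homog K P (qfam f 𝓛 x) DL M1 hM11 (hDLA.rep 0) hvar
  set X : ℂ := DL ^ P.totalDegree * MvPolynomial.aeval (qfam f 𝓛 x) P with hX
  have hX0 : X ≠ 0 := mul_ne_zero (pow_ne_zero _ hDL0) h0
  have hM1T : M1 ^ P.totalDegree = (2 : ℝ) ^ (F1 * ((m + n) * T)) := by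
    rw [hM1, hM0, ← pow_mul, ← pow_mul]
  set M : ℕ := H1 * 2 ^ (F1 * ((m + n) * T)) + 2 with hM
  have hMle : (∑ s ∈ P.support, |((P.coeff s : ℤ) : ℝ)|) * M1 ^ P.totalDegree ≤ (M : ℝ) := by
    have h1 : (∑ s ∈ P.support, |((P.coeff s : ℤ) : ℝ)|) = (H1 : ℝ) := by
      rw [hH1]
      push_cast
      refine Finset.sum_congr rfl fun s _ => ?_
      rw [Nat.cast_natAbs, Int.cast_abs]
    rw [h1, hM1T, hM]
    push_cast
    linarith
  have h1 := hA K hK2 ((B ^ C0) ^ n * f0) (2 * T + 1) M hK3 (by omega) (by omega) X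
    (hrep.mono le_rfl (by omega) hMle) hX0
  have hlogM : Nat.log 2 M + 1 ≤ B ^ ((C0 + 1) + (H1 + 3 + (m + n) * T)) := by
    have e1 : M < 2 ^ (H1 + 3 + F1 * ((m + n) * T)) := by
      calc M ≤ (H1 + 2) * 2 ^ (F1 * ((m + n) * T)) := by
            rw [hM, Nat.add_mul H1 2]
            have : 1 ≤ 2 ^ (F1 * ((m + n) * T)) := Nat.one_le_pow _ _ (by omega)
            omega
        _ < 2 ^ (H1 + 3) * 2 ^ (F1 * ((m + n) * T)) := by
            apply Nat.mul_lt_mul_of_pos_right _ (by positivity)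
            exact lt_of_lt_of_le Nat.lt_two_pow_self (Nat.pow_le_pow_right (by norm_num) (by omega))
        _ = _ := by rw [← pow_add]
    have e2 : Nat.log 2 M < H1 + 3 + F1 * ((m + n) * T) := Nat.log_lt_of_lt_pow (by omega) e1
    calc Nat.log 2 M + 1 ≤ H1 + 3 + F1 * ((m + n) * T) := e2
      _ ≤ F1 * (H1 + 3) + F1 * ((m + n) * T) := by
          apply Nat.add_le_add_right
          exact Nat.le_mul_of_pos_left _ (by omega)
      _ = F1 * (H1 + 3 + (m + n) * T) := by ring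
      _ ≤ F1 * B ^ (H1 + 3 + (m + n) * T) := Nat.mul_le_mul_left _ (hpow _)
      _ = _ := by rw [hF1, ← pow_add]
  have hsize : (B ^ C0) ^ n * f0 * (2 * T + 1) * (Nat.log 2 M + 1) ≤ B ^ C1 := by
    have e1 : (B ^ C0) ^ n = B ^ (n * C0) := by rw [← pow_mul, mul_comm]
    calc (B ^ C0) ^ n * f0 * (2 * T + 1) * (Nat.log 2 M + 1)
        ≤ B ^ (n * C0) * B ^ f0 * B ^ (2 * T + 1) * B ^ ((C0 + 1) + (H1 + 3 + (m + n) * T)) := by
          rw [e1]
          exact Nat.mul_le_mul (Nat.mul_le_mul (Nat.mul_le_mul_left _ (hpow _)) (hpow _)) hlogM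
      _ = B ^ C1 := by rw [hC1, ← pow_add, ← pow_add, ← pow_add]
  have hexp : (A * ((B ^ C0) ^ n * f0 * (2 * T + 1) * (Nat.log 2 M + 1))) ^ A ≤
      B ^ ((A + C1) * A) := by
    rw [pow_mul]
    apply Nat.pow_le_pow_left
    rw [pow_add]
    exact Nat.mul_le_mul (hpow A) hsize
  have h2 : Real.exp (-((B : ℝ) ^ ((A + C1) * A))) ≤ ‖X‖ := by
    refine le_trans (Real.exp_le_exp.mpr ?_) h1
    have : (((A * ((B ^ C0) ^ n * f0 * (2 * T + 1) * (Nat.log 2 M + 1))) ^ A : ℕ) : ℝ) ≤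
        ((B ^ ((A + C1) * A) : ℕ) : ℝ) := by exact_mod_cast hexp
    push_cast at this ⊢
    linarith
  -- divide by the denominator
  have h3 : ‖X‖ ≤ Real.exp ((B : ℝ) ^ C2) * ‖MvPolynomial.aeval (qfam f 𝓛 x) P‖ := by
    rw [hX, norm_mul, norm_pow]
    gcongr
    calc ‖DL‖ ^ P.totalDegree ≤ M1 ^ P.totalDegree := by
          gcongr
          exact AI_norm_le hDLA
      _ = (2 : ℝ) ^ (F1 * ((m + n) * T)) := hM1T
      _ ≤ (Real.exp 1) ^ (F1 * ((m + n) * T)) := by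
          gcongr
          have := Real.add_one_le_exp (1 : ℝ)
          linarith
      _ = Real.exp ((F1 * ((m + n) * T) : ℕ) : ℝ) := by rw [← Real.exp_nat_mul, mul_one]
      _ ≤ Real.exp ((B : ℝ) ^ C2) := by
          apply Real.exp_le_exp.mpr
          have h1 : F1 * ((m + n) * T) ≤ B ^ C2 := by
            calc F1 * ((m + n) * T) ≤ F1 * B ^ ((m + n) * T) := Nat.mul_le_mul_left _ (hpow _)
              _ = B ^ C2 := by rw [hF1, hC2, ← pow_add]
          exact_mod_cast h1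
  have h4 : Real.exp (-((B : ℝ) ^ ((A + C1) * A + C2 + 1))) *
      Real.exp ((B : ℝ) ^ C2) ≤ Real.exp (-((B : ℝ) ^ ((A + C1) * A))) := by
    rw [← Real.exp_add]
    apply Real.exp_le_exp.mpr
    have e1 : (B : ℝ) ^ ((A + C1) * A) ≤ (B : ℝ) ^ ((A + C1) * A + C2) :=
      pow_le_pow_right₀ hB1 (by omega)
    have e2 : (B : ℝ) ^ C2 ≤ (B : ℝ) ^ ((A + C1) * A + C2) :=
      pow_le_pow_right₀ hB1 (by omega)
    have e3 : 2 * (B : ℝ) ^ ((A + C1) * A + C2) ≤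
        (B : ℝ) ^ ((A + C1) * A + C2 + 1) := by
      rw [pow_succ, mul_comm]
      have : (2 : ℝ) ≤ B := by exact_mod_cast hB
      gcongr
    linarith
  have h5 := (h4.trans h2).trans h3
  have h6 : 0 < Real.exp ((B : ℝ) ^ C2) := Real.exp_pos _
  rw [mul_comm] at h5
  exact le_of_mul_le_mul_left h5 h6

end Pool.Agent.Lib.MP5e
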