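import Pool.Agent.Lib.MP_5e64e7_nt.QRat
import Pool.Agent.Lib.MP_5e64e7_nt.QE46

set_option autoImplicit false

/-!
# Q.BASA : an algebraic equation for `E₄(τ/D) E₄²/E₆²` over `ℚ(E₄³/E₆²)`
-/

noncomputable section

namespace Pool.Agent.Lib.MP5e

open Polynomial Topology

/-- the pointwise statement -/
private theorem qbas_pt (D : ℕ) (hD : 1 ≤ D) {A B : Polynomial (MvPolynomial (Fin 2) ℤ)}
    (hAB : QMult D A B) (τ : ℂ) (hτ : 0 < τ.im) (h4 : E4f τ ≠ 0) (h6 : E6f τ ≠ 0) :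
    ∃ u : ℕ → ℂ, (∀ k ∈ Finset.Ico 1 D, (qsp (3 * (E4f τ ^ 3 / E6f τ ^ 2))
        (2 * (E4f τ ^ 3 / E6f τ ^ 2)) B).eval (u k) = 0) ∧
      E4f (τ / (D : ℂ)) * E4f τ ^ 2 / E6f τ ^ 2 =
        (6 - 5 * (D : ℂ)) * (E4f τ ^ 3 / E6f τ ^ 2) + 5 * ∑ k ∈ Finset.Ico 1 D, u k ^ 2 := by
  have hpi : (Real.pi : ℂ) ≠ 0 := by exact_mod_cast Real.pi_ne_zero
  obtain ⟨lam, hlam⟩ := IsAlgClosed.exists_pow_nat_eq
    ((Real.pi : ℂ) ^ 2 * E6f τ / (3 * E4f τ)) (n := 2) (by norm_num)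
  have hlam0 : lam ≠ 0 := by
    intro h0
    rw [h0] at hlam
    have h1 : (Real.pi : ℂ) ^ 2 * E6f τ / (3 * E4f τ) ≠ 0 :=
      div_ne_zero (mul_ne_zero (pow_ne_zero _ hpi) h6) (mul_ne_zero (by norm_num) h4)
    exact h1 (by rw [← hlam]; norm_num)
  obtain ⟨L, hL⟩ : ∃ L : PeriodPair, L = PL lam τ hlam0 hτ := ⟨_, rfl⟩
  have hω1 : L.ω₁ = lam := by rw [hL]; rfl
  have hω2 : L.ω₂ = τ * L.ω₁ := by rw [hL]; rfl
  have hell : qell L = E6f τ / E4f τ := by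
    unfold qell
    rw [hω1, hlam]
    field_simp
  have e4 := qE4_base L hτ hω2
  have e6 := qE6_base L hτ hω2
  rw [hell] at e4 e6
  have hg2 : L.g₂ / 4 = 3 * (E4f τ ^ 3 / E6f τ ^ 2) := by
    have h1 : L.g₂ / 12 = E4f τ * (E4f τ ^ 2 / E6f τ ^ 2) := by
      rw [e4]
      have : (E6f τ / E4f τ) ^ 2 * (L.g₂ / 12) * (E4f τ ^ 2 / E6f τ ^ 2) = L.g₂ / 12 := by
        field_simp
      calc L.g₂ / 12 = (E6f τ / E4f τ) ^ 2 * (L.g₂ / 12) * (E4f τ ^ 2 / E6f τ ^ 2) := this.symm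
        _ = _ := by
          conv_lhs => rw [← e4]
          conv_rhs => rw [← e4]
    linear_combination 3 * h1
  have hg3 : L.g₃ / 4 = 2 * (E4f τ ^ 3 / E6f τ ^ 2) := by
    have h1 : L.g₃ / 8 = E6f τ * (E4f τ ^ 3 / E6f τ ^ 3) := by
      have : (E6f τ / E4f τ) ^ 3 * (L.g₃ / 8) * (E4f τ ^ 3 / E6f τ ^ 3) = L.g₃ / 8 := by
        field_simp
      calc L.g₃ / 8 = (E6f τ / E4f τ) ^ 3 * (L.g₃ / 8) * (E4f τ ^ 3 / E6f τ ^ 3) := this.symm
        _ = _ := by rw [← e6]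
    have h2 : E6f τ * (E4f τ ^ 3 / E6f τ ^ 3) = E4f τ ^ 3 / E6f τ ^ 2 := by
      field_simp
    linear_combination 2 * h1 + 2 * h2
  refine ⟨fun k => L.weierstrassP (qtor L τ 1 D 0 k), fun k hk => ?_, ?_⟩
  · rw [Finset.mem_Ico] at hk
    rw [← hg2, ← hg3]
    refine qtor_root hD L ?_ ?_ hAB
    · exact qtor_notMem L hτ hω2 le_rfl hD isCoprime_one_left hk.1 (by rw [one_mul]; exact hk.2)
    · have h1 := qtor_top L hω2 (a := 1) (d := D) le_rfl hD 0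
      rw [one_mul] at h1
      have h2 : (D : ℂ) * qtor L τ 1 D 0 k = (k : ℤ) • ((D : ℂ) * qtor L τ 1 D 0 1) := by
        rw [← qtor_mul L τ 1 D 0 k, zsmul_eq_mul]
        push_cast
        ring
      rw [h2]
      exact L.lattice.smul_mem _ h1
  · have h1 := qE4 L hτ hω2 (a := 1) (d := D) (b := 0) le_rfl hD isCoprime_one_left
    have h2 : qsig τ 1 D 0 = τ / (D : ℂ) := by
      unfold qsig
      push_cast
      ring
    rw [h2, hell] at h1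
    unfold qS at h1
    rw [one_mul] at h1
    have h3 : L.g₂ / 12 = E4f τ ^ 3 / E6f τ ^ 2 := by linear_combination (1 / 3) * hg2
    rw [h3] at h1
    push_cast at h1
    have h4' : E4f (τ / (D : ℂ)) * E4f τ ^ 2 / E6f τ ^ 2 =
        (E4f τ ^ 2 / E6f τ ^ 2) * (1 ^ 4 * E4f (τ / (D : ℂ))) := by ring
    rw [h4', h1]
    have h5 : E4f τ ^ 2 / E6f τ ^ 2 * (E6f τ / E4f τ) ^ 2 = 1 := by
      field_simp
    rw [← mul_assoc, h5]
    ring

/-- the parameter space -/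
private def QbT : Type := {τ : ℂ // 0 < τ.im ∧ E4f τ ≠ 0 ∧ E6f τ ≠ 0}

private def qbp (t : QbT) : ℚ[X] →+* ℂ :=
  (Polynomial.aeval (R := ℚ) (E4f t.1 ^ 3 / E6f t.1 ^ 2)).toRingHom

private def qbf : ℚ[X] →+* (QbT → ℂ) := RingHom.pi qbp

private theorem qbf_comp (t : QbT) : (Pi.evalRingHom (fun _ : QbT => ℂ) t).comp qbf = qbp t := by
  ext <;> rfl

private theorem qb_eval (x : QbT → ℂ) (p : ℚ[X][X]) (t : QbT) :
    Polynomial.eval₂ qbf x p t = Polynomial.eval₂ (qbp t) (x t) p := by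
  have h := Polynomial.hom_eval₂ p qbf (Pi.evalRingHom (fun _ : QbT => ℂ) t) x
  rw [qbf_comp] at h
  exact h

private theorem qbp_X (t : QbT) : qbp t X = E4f t.1 ^ 3 / E6f t.1 ^ 2 := by
  unfold qbp
  exact Polynomial.aeval_X _

private theorem qb_sum (s : Finset ℕ) (U : ℕ → QbT → ℂ)
    (h : ∀ k ∈ s, qbf.IsIntegralElem (U k)) : qbf.IsIntegralElem (∑ k ∈ s, U k) := by
  classical
  induction s using Finset.induction_on with
  | empty =>
    rw [Finset.sum_empty]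
    have := qbf.isIntegralElem_map (x := 0)
    rwa [map_zero] at this
  | insert a s ha ih =>
    rw [Finset.sum_insert ha]
    exact RingHom.IsIntegralElem.add _ (h a (Finset.mem_insert_self _ _))
      (ih fun k hk => h k (Finset.mem_insert_of_mem hk))

theorem qbasA (D : ℕ) (hD : 1 ≤ D) : ∃ P : Polynomial (Polynomial ℚ), P.Monic ∧
    ∀ τ : ℂ, 0 < τ.im → E4f τ ≠ 0 → E6f τ ≠ 0 →
      Polynomial.eval₂ (Polynomial.aeval (R := ℚ) (E4f τ ^ 3 / E6f τ ^ 2)).toRingHom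
        (E4f (τ / (D : ℂ)) * E4f τ ^ 2 / E6f τ ^ 2) P = 0 := by
  obtain ⟨A, B, hAB⟩ := qexists_mult D hD
  have hpt := fun t : QbT => qbas_pt D hD hAB t.1 t.2.1 t.2.2.1 t.2.2.2
  choose u hu hθ using hpt
  have hlc : B.leadingCoeff = ((D : ℕ) : MvPolynomial (Fin 2) ℤ) ^ 2 := hAB.2.2.1
  have hD0 : (D : ℚ) ≠ 0 := by
    have : D ≠ 0 := by omega
    exact_mod_cast this
  -- the monic polynomial
  have hqev : qev (3 * X : ℚ[X]) (2 * X) B.leadingCoeff = C ((D : ℚ) ^ 2) := by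
    rw [hlc, map_pow, map_natCast]
    simp
  have hqne : qev (3 * X : ℚ[X]) (2 * X) B.leadingCoeff ≠ 0 := by
    rw [hqev]
    exact Polynomial.C_ne_zero.mpr (pow_ne_zero _ hD0)
  have hmon : (C (C ((D : ℚ) ^ 2)⁻¹) * qsp (3 * X : ℚ[X]) (2 * X) B).Monic := by
    refine Polynomial.monic_C_mul_of_mul_leadingCoeff_eq_one ?_
    unfold qsp
    rw [Polynomial.leadingCoeff_map_of_leadingCoeff_ne_zero _ hqne, hqev, ← C_mul,
      inv_mul_cancel₀ (pow_ne_zero _ hD0), C_1]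
  have hint : ∀ k ∈ Finset.Ico 1 D, qbf.IsIntegralElem (fun t => u t k) := by
    intro k hk
    refine ⟨_, hmon, ?_⟩
    funext t
    rw [qb_eval, Polynomial.eval₂_mul, Polynomial.eval₂_eq_eval_map (qbp t)
      (p := qsp (3 * X : ℚ[X]) (2 * X) B), qsp_map, map_mul, map_mul, qbp_X, map_ofNat, map_ofNat,
      hu t k hk, mul_zero]
    rfl
  have hint2 : qbf.IsIntegralElem (∑ k ∈ Finset.Ico 1 D, (fun t => u t k) * (fun t => u t k)) :=
    qb_sum _ _ fun k hk => RingHom.IsIntegralElem.mul _ (hint k hk) (hint k hk)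
  have hfin : qbf.IsIntegralElem (qbf ((C (6 - 5 * (D : ℚ))) * X) +
      qbf (C 5) * ∑ k ∈ Finset.Ico 1 D, (fun t => u t k) * (fun t => u t k)) :=
    RingHom.IsIntegralElem.add _ (qbf.isIntegralElem_map)
      (RingHom.IsIntegralElem.mul _ (qbf.isIntegralElem_map) hint2)
  obtain ⟨P, hP, hP0⟩ := hfin
  refine ⟨P, hP, fun τ h1 h4 h6 => ?_⟩
  obtain ⟨t, ht⟩ : ∃ t : QbT, t.1 = τ := ⟨⟨τ, h1, h4, h6⟩, rfl⟩
  have h := congrFun hP0 t
  rw [qb_eval] at h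
  have hval : (qbf ((C (6 - 5 * (D : ℚ))) * X) +
      qbf (C 5) * ∑ k ∈ Finset.Ico 1 D, (fun t => u t k) * (fun t => u t k) : QbT → ℂ) t =
      E4f (τ / (D : ℂ)) * E4f τ ^ 2 / E6f τ ^ 2 := by
    rw [← ht, hθ t, Pi.add_apply, Pi.mul_apply, Finset.sum_apply]
    have e1 : qbf ((C (6 - 5 * (D : ℚ))) * X) t =
        (6 - 5 * (D : ℂ)) * (E4f t.1 ^ 3 / E6f t.1 ^ 2) := by
      change qbp t ((C (6 - 5 * (D : ℚ))) * X) = _
      rw [map_mul, qbp_X]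
      congr 1
      change Polynomial.aeval (R := ℚ) (E4f t.1 ^ 3 / E6f t.1 ^ 2) (C (6 - 5 * (D : ℚ))) = _
      rw [Polynomial.aeval_C]
      simp
    have e2 : qbf (C 5) t = 5 := by
      change Polynomial.aeval (R := ℚ) (E4f t.1 ^ 3 / E6f t.1 ^ 2) (C 5) = _
      rw [Polynomial.aeval_C]
      simp
    rw [e1, e2]
    congr 2
    refine Finset.sum_congr rfl fun k _ => ?_
    rw [Pi.mul_apply]
    ring
  rw [hval] at h
  have hq : qbp t = (Polynomial.aeval (R := ℚ) (E4f τ ^ 3 / E6f τ ^ 2)).toRingHom := by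
    unfold qbp
    rw [ht]
  rw [hq] at h
  exact h

end Pool.Agent.Lib.MP5e
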