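import Pool.Agent.Lib.MP_5e64e7_nt.Ser

set_option autoImplicit false

noncomputable section

namespace Pool.Agent.Lib.MP5e

open Polynomial Topology

section aux

open UpperHalfPlane Filter ModularForm EisensteinSeries Derivative
open scoped MatrixGroups Manifold

/-- A level one modular form from a holomorphic, invariant and bounded function. -/
def RamA_mk (k : ℤ) (F : ℍ → ℂ) (hs : ∀ γ : SL(2, ℤ), F ∣[k] γ = F) (hd : MDiff F)
    (hb : IsBoundedAtImInfty F) : ModularForm 𝒮ℒ k where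
  toFun := F
  slash_action_eq' := fun _ ⟨γ, hγ⟩ => hγ ▸ hs γ
  holo' := hd
  bdd_at_cusps' {c} hc := by
    rw [Subgroup.IsArithmetic.isCusp_iff_isCusp_SL2Z] at hc
    rw [OnePoint.isBoundedAt_iff_forall_SL2Z hc]
    intro γ _
    rw [hs γ]
    exact hb

theorem RamA_mk_apply (k : ℤ) (F : ℍ → ℂ) (hs : ∀ γ : SL(2, ℤ), F ∣[k] γ = F) (hd : MDiff F)
    (hb : IsBoundedAtImInfty F) (z : ℍ) : RamA_mk k F hs hd hb z = F z := rfl

/-- In a space of modular forms of dimension one the forms are determined by the value at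
infinity. -/
theorem RamA_unique {k : ℤ} (hr : Module.rank ℂ (ModularForm 𝒮ℒ k) = 1)
    (f g : ModularForm 𝒮ℒ k) (a b : ℂ) (hf : Tendsto f atImInfty (𝓝 a))
    (hg : Tendsto g atImInfty (𝓝 b)) (hb : b ≠ 0) (z : ℍ) : f z = a / b * g z := by
  have hg0 : g ≠ 0 := by
    intro h
    subst h
    exact hb (tendsto_nhds_unique hg (by
      have : ((0 : ModularForm 𝒮ℒ k) : ℍ → ℂ) = fun _ => (0 : ℂ) := rfl
      rw [this]
      exact tendsto_const_nhds))
  obtain ⟨c, hc⟩ := (finrank_eq_one_iff_of_nonzero' g hg0).mp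
    (Module.rank_eq_one_iff_finrank_eq_one.mp hr) f
  have h1 : ∀ w, f w = c * g w := by
    intro w
    rw [← hc]
    rfl
  have h2 : Tendsto f atImInfty (𝓝 (c * b)) := by
    have : (f : ℍ → ℂ) = fun w => c * g w := funext h1
    rw [this]
    exact hg.const_mul c
  have h3 := tendsto_nhds_unique hf h2
  rw [h1, h3, mul_div_cancel_right₀ _ hb]

/-- Functions of `q`. -/
theorem RamA_cusp {F : ℍ → ℂ} (hp : Function.Periodic (F ∘ ofComplex) ((1 : ℝ) : ℂ)) (hd : MDiff F)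
    (hb : IsBoundedAtImInfty F) :
    Tendsto F atImInfty (𝓝 (cuspFunction 1 F 0)) ∧ Tendsto (D F) atImInfty (𝓝 0) := by
  have hdo := differentiableOn_cuspFunction_ball one_pos hp hd hb
  have hq := qParam_tendsto_atImInfty one_pos
  have h0 : Metric.ball (0 : ℂ) 1 ∈ 𝓝 (0 : ℂ) := Metric.ball_mem_nhds _ one_pos
  constructor
  · have h1 := (hdo.differentiableAt h0).continuousAt.tendsto.comp hq
    refine h1.congr fun τ => ?_
    exact eq_cuspFunction τ one_ne_zero hp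
  · have h2 : ContinuousAt (deriv (cuspFunction 1 F)) 0 :=
      ((hdo.deriv Metric.isOpen_ball).differentiableAt h0).continuousAt
    have h3 := hq.mul (h2.tendsto.comp hq)
    rw [zero_mul] at h3
    refine h3.congr fun τ => ?_
    have hτ : ‖Function.Periodic.qParam 1 (τ : ℂ)‖ < 1 :=
      Function.Periodic.norm_qParam_lt_one one_pos τ.im_pos
    have h4 : HasDerivAt (cuspFunction 1 F) (deriv (cuspFunction 1 F)
        (Function.Periodic.qParam 1 (τ : ℂ))) (Function.Periodic.qParam 1 (τ : ℂ)) :=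
      (differentiableAt_cuspFunction one_pos hp hd hb hτ).hasDerivAt
    have h5 : HasDerivAt (fun w : ℂ => Function.Periodic.qParam 1 w)
        (Function.Periodic.qParam 1 (τ : ℂ) * (2 * Real.pi * Complex.I)) (τ : ℂ) := by
      have h6 : HasDerivAt (fun w : ℂ => 2 * (Real.pi : ℂ) * Complex.I * w / ((1 : ℝ) : ℂ))
          (2 * Real.pi * Complex.I) (τ : ℂ) := by
        have h7 := (hasDerivAt_id (τ : ℂ)).const_mul (2 * (Real.pi : ℂ) * Complex.I)
        simpa using h7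
      exact h6.cexp
    have h8 := h4.comp (τ : ℂ) h5
    have h9 : (F ∘ ofComplex) =ᶠ[𝓝 (τ : ℂ)]
        (cuspFunction 1 F ∘ fun w : ℂ => Function.Periodic.qParam 1 w) := by
      filter_upwards [isOpen_upperHalfPlaneSet.mem_nhds τ.im_pos] with w hw
      rw [Function.comp_apply, Function.comp_apply, ofComplex_apply_of_im_pos hw]
      exact (eq_cuspFunction ⟨w, hw⟩ one_ne_zero hp).symm
    rw [normalizedDerivOfComplex, (h8.congr_of_eventuallyEq h9).deriv]
    have h10 : (2 * (Real.pi : ℂ) * Complex.I) ≠ 0 := Complex.two_pi_I_ne_zero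
    rw [Function.comp_apply]
    field_simp

/-- periodicity -/
theorem RamA_per {F : ℍ → ℂ} {f : ℂ → ℂ} (h : ∀ z : ℍ, f z = F z) (hf : ∀ w, f (w + 1) = f w) :
    Function.Periodic (F ∘ ofComplex) ((1 : ℝ) : ℂ) := by
  intro w
  by_cases hw : 0 < w.im
  · have h1 : 0 < (w + ((1 : ℝ) : ℂ)).im := by simpa using hw
    rw [Function.comp_apply, Function.comp_apply, ofComplex_apply_of_im_pos h1,
      ofComplex_apply_of_im_pos hw, ← h, ← h]
    have := hf w
    simpa using this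
  · have h1 : (w + ((1 : ℝ) : ℂ)).im ≤ 0 := by simpa using hw
    rw [Function.comp_apply, Function.comp_apply, ofComplex_apply_of_im_nonpos h1,
      ofComplex_apply_of_im_nonpos (not_lt.1 hw)]

theorem RamA_bdd {k : ℤ} (F : ModularForm 𝒮ℒ k) : IsBoundedAtImInfty F := by
  have : Fact (IsCusp OnePoint.infty 𝒮ℒ) :=
    ⟨(𝒮ℒ).isCusp_of_mem_strictPeriods one_pos one_mem_strictPeriods_SL⟩
  exact ModularFormClass.bdd_at_infty F

theorem RamA_form {k : ℤ} (F : ModularForm 𝒮ℒ k) :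
    Tendsto F atImInfty (𝓝 ((qExpansion 1 F).coeff 0)) ∧ Tendsto (D F) atImInfty (𝓝 0) := by
  have hp := SlashInvariantFormClass.periodic_comp_ofComplex F one_mem_strictPeriods_SL
  have h := RamA_cusp hp F.holo' (RamA_bdd F)
  have h1 : (qExpansion 1 F).coeff 0 = cuspFunction 1 F 0 := by
    rw [qExpansion_coeff]
    simp
  rw [h1]
  exact h

theorem RamA_E4 : Tendsto E₄ atImInfty (𝓝 1) := by
  have h := (RamA_form E₄).1
  rwa [E_qExpansion_coeff_zero _ ⟨2, rfl⟩] at h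

theorem RamA_E6 : Tendsto E₆ atImInfty (𝓝 1) := by
  have h := (RamA_form E₆).1
  rwa [E_qExpansion_coeff_zero _ ⟨3, rfl⟩] at h

theorem RamA_E2 : Tendsto E2 atImInfty (𝓝 1) ∧ Tendsto (D E2) atImInfty (𝓝 0) := by
  have hp : Function.Periodic (E2 ∘ ofComplex) ((1 : ℝ) : ℂ) :=
    RamA_per E2f_coe fun w => by
      have := E2f_add_int w 1
      rwa [Int.cast_one] at this
  have h := RamA_cusp hp E2_mdifferentiable isBoundedAtImInfty_E2
  have han := analyticAt_cuspFunction_zero one_pos hp E2_mdifferentiable isBoundedAtImInfty_E2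
  have h1 := hasFPowerSeriesOnBall_cuspFunction (f := E2)
    (c := fun m : ℕ => (if m = 0 then 1 else -24 * (ArithmeticFunction.sigma 1 m : ℕ) : ℂ))
    one_pos han (fun τ => by
      simpa only [Function.Periodic.qParam, Complex.ofReal_one, div_one] using
        hasSum_qExpansion_E2 (z := τ))
  have h2 : cuspFunction 1 E2 0 = 1 := by
    have h3 := h1.coeff_zero (fun _ => 0)
    rw [← h3]
    simp
  rw [h2] at h
  exact h

theorem RamA_inv {k : ℤ} (F : ModularForm 𝒮ℒ k) (γ : SL(2, ℤ)) : (F : ℍ → ℂ) ∣[k] γ = F :=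
  F.slash_action_eq' _ ⟨γ, rfl⟩

theorem RamA_serre_lim {k : ℤ} (F : ModularForm 𝒮ℒ k) :
    Tendsto (serreDerivative k F) atImInfty
      (𝓝 (0 - (k : ℂ) * 12⁻¹ * 1 * (qExpansion 1 F).coeff 0)) := by
  have h := RamA_form F
  exact h.2.sub ((RamA_E2.1.const_mul ((k : ℂ) * 12⁻¹)).mul h.1)

/-- The Serre derivative of a level one form. -/
def RamA_S {k : ℤ} (F : ModularForm 𝒮ℒ k) (m : ℤ) (hm : k + 2 = m) : ModularForm 𝒮ℒ m :=
  RamA_mk m (serreDerivative k F)
    (fun γ => by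
      have h := serreDerivative_slash_invariant (k := k) F.holo' (RamA_inv F γ)
      rw [hm] at h
      exact h)
    (serreDerivative_mdifferentiable _ F.holo') ((RamA_serre_lim F).isBigO_one ℝ)

theorem RamA_S_apply {k : ℤ} (F : ModularForm 𝒮ℒ k) (m : ℤ) (hm : k + 2 = m) (z : ℍ) :
    RamA_S F m hm z = serreDerivative k F z := rfl

theorem RamA_serre4 (z : ℍ) : serreDerivative 4 E₄ z = -(1 / 3) * E₆ z := by
  have h1 := RamA_serre_lim E₄
  rw [E_qExpansion_coeff_zero _ ⟨2, rfl⟩] at h1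
  have h := RamA_unique levelOne_weight_six_rank_one (RamA_S E₄ 6 (by norm_num)) E₆ _ _ h1
    RamA_E6 one_ne_zero z
  rw [RamA_S_apply] at h
  have h2 : serreDerivative ((4 : ℤ) : ℂ) E₄ z = serreDerivative 4 E₄ z := by norm_num
  have h3 : serreDerivative (((4 : ℕ) : ℤ) : ℂ) E₄ z = serreDerivative 4 E₄ z := by norm_num
  rw [← h3]
  refine h.trans ?_
  norm_num

theorem RamA_weight8 : Module.rank ℂ (ModularForm 𝒮ℒ 8) = 1 := by
  have h := dimension_level_one 8 ⟨4, rfl⟩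
  have h1 : ¬ (8 ≡ 2 [MOD 12]) := by decide
  rw [if_neg h1] at h
  norm_num at h
  exact h

theorem RamA_serre6 (z : ℍ) : serreDerivative 6 E₆ z = -(1 / 2) * E₄ z ^ 2 := by
  have h1 := RamA_serre_lim E₆
  rw [E_qExpansion_coeff_zero _ ⟨3, rfl⟩] at h1
  have hE : Tendsto (ModularForm.mul E₄ E₄) atImInfty (𝓝 (1 * 1)) := RamA_E4.mul RamA_E4
  rw [one_mul] at hE
  have h := RamA_unique (k := 8) RamA_weight8 (RamA_S E₆ 8 (by norm_num)) (ModularForm.mul E₄ E₄) _ _ h1
    hE one_ne_zero z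
  rw [RamA_S_apply] at h
  have h3 : serreDerivative (((6 : ℕ) : ℤ) : ℂ) E₆ z = serreDerivative 6 E₆ z := by norm_num
  rw [← h3]
  refine h.trans ?_
  have h4 : ModularForm.mul E₄ E₄ z = E₄ z * E₄ z := rfl
  rw [h4]
  norm_num
  ring

/-- From the operator `D` to derivatives. -/
theorem RamA_hasDerivAt {F : ℍ → ℂ} {f : ℂ → ℂ} (hF : MDiff F) (h : ∀ z : ℍ, f z = F z)
    (z : ℍ) : HasDerivAt f (2 * (Real.pi : ℂ) * Complex.I * D F z) (z : ℂ) := by
  have h1 : DifferentiableAt ℂ (F ∘ ofComplex) (z : ℂ) := mdifferentiableAt_iff.mp (hF z)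
  have h2 : f =ᶠ[𝓝 (z : ℂ)] (F ∘ ofComplex) := by
    filter_upwards [isOpen_upperHalfPlaneSet.mem_nhds z.im_pos] with w hw
    rw [Function.comp_apply, ofComplex_apply_of_im_pos hw]
    exact h ⟨w, hw⟩
  have h3 := h1.hasDerivAt.congr_of_eventuallyEq h2
  have h4 : 2 * (Real.pi : ℂ) * Complex.I * D F z = deriv (F ∘ ofComplex) (z : ℂ) := by
    rw [normalizedDerivOfComplex, ← mul_assoc, mul_inv_cancel₀ Complex.two_pi_I_ne_zero, one_mul]
  rw [h4]
  exact h3

end aux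

theorem E4f_hasDerivAt {w : ℂ} (hw : 0 < w.im) : HasDerivAt E4f
    (2 * (Real.pi : ℂ) * Complex.I * ((E2f w * E4f w - E6f w) / 3)) w := by
  have h := RamA_hasDerivAt ModularForm.E₄.holo' E4f_coe ⟨w, hw⟩
  have h1 := RamA_serre4 ⟨w, hw⟩
  rw [Derivative.serreDerivative_apply] at h1
  have h2 := E2f_coe ⟨w, hw⟩
  have h4 := E4f_coe ⟨w, hw⟩
  have h6 := E6f_coe ⟨w, hw⟩
  change E2f w = _ at h2
  change E4f w = _ at h4
  change E6f w = _ at h6
  rw [h2, h4, h6]
  have h7 : Derivative.normalizedDerivOfComplex (ModularForm.E₄ : UpperHalfPlane → ℂ) ⟨w, hw⟩ =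
      (EisensteinSeries.E2 ⟨w, hw⟩ * ModularForm.E₄ ⟨w, hw⟩ - ModularForm.E₆ ⟨w, hw⟩) / 3 := by
    linear_combination h1
  rw [← h7]
  exact h

theorem E6f_hasDerivAt {w : ℂ} (hw : 0 < w.im) : HasDerivAt E6f
    (2 * (Real.pi : ℂ) * Complex.I * ((E2f w * E6f w - E4f w ^ 2) / 2)) w := by
  have h := RamA_hasDerivAt ModularForm.E₆.holo' E6f_coe ⟨w, hw⟩
  have h1 := RamA_serre6 ⟨w, hw⟩
  rw [Derivative.serreDerivative_apply] at h1
  have h2 := E2f_coe ⟨w, hw⟩
  have h4 := E4f_coe ⟨w, hw⟩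
  have h6 := E6f_coe ⟨w, hw⟩
  change E2f w = _ at h2
  change E4f w = _ at h4
  change E6f w = _ at h6
  rw [h2, h4, h6]
  have h7 : Derivative.normalizedDerivOfComplex (ModularForm.E₆ : UpperHalfPlane → ℂ) ⟨w, hw⟩ =
      (EisensteinSeries.E2 ⟨w, hw⟩ * ModularForm.E₆ ⟨w, hw⟩ - ModularForm.E₄ ⟨w, hw⟩ ^ 2) / 2 := by
    linear_combination h1
  rw [← h7]
  exact h

end Pool.Agent.Lib.MP5e
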