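import Pool.Agent.Lib.MP_5e64e7_nt.QBasA
import Pool.Agent.Lib.MP_5e64e7_nt.RamA

set_option autoImplicit false

/-!
# Q.BASB : `E₄³/E₆²` is algebraic at `ω = √(-D)`

* `E4_CM` : `-1/ω = ω/D` (`qom_sq`), `E4f_sl 0 (-1) 1 0` : `E₄(-1/ω) = ω⁴ E₄(ω) = D² E₄(ω)`.
* `h(τ) = E₄(τ/D) - D² E₄(τ)` is analytic on `ℍ` (`E4f_diff`, open set, so analytic) and not identically
  zero: for `τ = i t`, `t → ∞`, both `E₄(it/D)` and `E₄(it)` tend to `1` (`RamA_E4` with `E4f_coe`; or directly from the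
  `q`-series), so `h → 1 - D² ≠ 0`.
* Let `P` be the polynomial of `qbasA` and `a = C X · D² ∈ ℚ[X]` i.e. the constant polynomial `D² X` of `ℚ[X][X]`.
  `P = (T - D²X)^e · Q` with `Q(D²X) ≠ 0` in `ℚ[X]` (`Polynomial.exists_eq_pow_rootMultiplicity_mul_and_not_dvd`,
  `dvd_iff_isRoot`; `P ≠ 0` as it is monic). For `τ` in the open set `U = {E₄ ≠ 0, E₆ ≠ 0}`:
  `(θ - D² c)^e Q(c, θ) = 0`, `θ - D² c = h(τ) E₄²/E₆²`. Near `ω` (`ω ∈ U`): `h` is not identically zero near `ω`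
  (identity theorem on the connected set `ℍ`), so `h ≠ 0` on a punctured neighbourhood of `ω`, hence
  `G(τ) := Q(c(τ), θ(τ)) = 0` there and by continuity `G(ω) = 0`. At `ω`: `θ(ω) = D² c(ω)` (`E4_CM`), so
  `G(ω) = (Q.eval (D² X))(c(ω)) = 0`, where `Q.eval (C D² * X) ∈ ℚ[X]` is not zero: `c(ω)` is algebraic.
-/

noncomputable section

namespace Pool.Agent.Lib.MP5e

open Polynomial Topology

theorem E4_CM {D : ℕ} (hD : 1 ≤ D) : E4f (qom D / (D : ℂ)) = (D : ℂ) ^ 2 * E4f (qom D) := by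
  have hw := qom_pos hD
  have h2 := qom_sq D
  have hw0 : qom D ≠ 0 := by
    intro h
    rw [h, Complex.zero_im] at hw
    exact lt_irrefl _ hw
  have hD0 : (D : ℂ) ≠ 0 := by
    have : D ≠ 0 := by omega
    exact_mod_cast this
  have h := E4f_sl 0 (-1) 1 0 (by norm_num) hw
  have e1 : (((0 : ℤ) : ℂ) * qom D + ((-1 : ℤ) : ℂ)) / (((1 : ℤ) : ℂ) * qom D + ((0 : ℤ) : ℂ)) =
      qom D / (D : ℂ) := by
    push_cast
    rw [zero_mul, zero_add, one_mul, add_zero, div_eq_div_iff hw0 hD0]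
    linear_combination -h2
  have e2 : (((1 : ℤ) : ℂ) * qom D + ((0 : ℤ) : ℂ)) ^ 4 = (D : ℂ) ^ 2 := by
    push_cast
    rw [one_mul, add_zero]
    linear_combination (qom D ^ 2 - (D : ℂ)) * h2
  rw [e1, e2] at h
  exact h

/-- limits along the imaginary axis -/
private lemma basB_lim {c : ℝ} (hc : 0 < c) :
    Filter.Tendsto (fun k : ℕ => E4f (((c * ((k : ℝ) + 1) : ℝ) : ℂ) * Complex.I)) Filter.atTop
      (𝓝 1) := by
  have him : ∀ k : ℕ, (((c * ((k : ℝ) + 1) : ℝ) : ℂ) * Complex.I).im = c * ((k : ℝ) + 1) := by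
    intro k
    rw [Complex.im_ofReal_mul, Complex.I_im, mul_one]
  have hpos : ∀ k : ℕ, 0 < (((c * ((k : ℝ) + 1) : ℝ) : ℂ) * Complex.I).im := by
    intro k
    rw [him]
    positivity
  set z : ℕ → UpperHalfPlane := fun k => ⟨((c * ((k : ℝ) + 1) : ℝ) : ℂ) * Complex.I, hpos k⟩
    with hz
  have h1 : Filter.Tendsto z Filter.atTop UpperHalfPlane.atImInfty := by
    unfold UpperHalfPlane.atImInfty
    rw [Filter.tendsto_comap_iff]
    have h2 : UpperHalfPlane.im ∘ z = fun k : ℕ => c * ((k : ℝ) + 1) := by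
      funext k
      exact him k
    rw [h2]
    exact Filter.Tendsto.const_mul_atTop hc
      (Filter.tendsto_atTop_add_const_right _ _ tendsto_natCast_atTop_atTop)
  refine (RamA_E4.comp h1).congr fun k => ?_
  rw [Function.comp_apply, ← E4f_coe]

/-- the function `E₄(τ/D) - D² E₄(τ)` -/
private def bh (D : ℕ) (τ : ℂ) : ℂ := E4f (τ / (D : ℂ)) - (D : ℂ) ^ 2 * E4f τ

private lemma bh_im {D : ℕ} (hD : 1 ≤ D) {τ : ℂ} (hτ : 0 < τ.im) : 0 < (τ / (D : ℂ)).im := by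
  rw [Complex.div_natCast_im]
  have : (0 : ℝ) < D := by exact_mod_cast hD
  positivity

private lemma bh_diff0 {D : ℕ} (hD : 1 ≤ D) {τ : ℂ} (hτ : 0 < τ.im) :
    DifferentiableAt ℂ (fun u : ℂ => E4f (u / (D : ℂ))) τ :=
  DifferentiableAt.comp (g := E4f) (f := fun u : ℂ => u / (D : ℂ)) τ (E4f_diff (bh_im hD hτ))
    (differentiableAt_id.div_const _)

private lemma bh_diff {D : ℕ} (hD : 1 ≤ D) {τ : ℂ} (hτ : 0 < τ.im) :
    DifferentiableAt ℂ (bh D) τ :=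
  (bh_diff0 hD hτ).fun_sub ((E4f_diff hτ).const_mul _)

private lemma bh_an {D : ℕ} (hD : 1 ≤ D) :
    AnalyticOnNhd ℂ (bh D) {u : ℂ | 0 < u.im} := by
  have h1 : DifferentiableOn ℂ (bh D) {u : ℂ | 0 < u.im} := fun u hu =>
    (bh_diff hD hu).differentiableWithinAt
  exact h1.analyticOnNhd (isOpen_lt continuous_const Complex.continuous_im)

private lemma bh_ne {D : ℕ} (hD : 2 ≤ D) {τ : ℂ} (hτ : 0 < τ.im) :
    ¬ ∀ᶠ u in 𝓝 τ, bh D u = 0 := by
  intro h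
  have hconv : Convex ℝ {u : ℂ | 0 < u.im} := convex_halfSpace_im_gt 0
  have h1 : Set.EqOn (bh D) 0 {u : ℂ | 0 < u.im} :=
    (bh_an (by omega)).eqOn_zero_of_preconnected_of_eventuallyEq_zero hconv.isPreconnected hτ h
  have hD0 : (0 : ℝ) < D := by
    have : 0 < D := by omega
    exact_mod_cast this
  have l1 := basB_lim hD0
  have l2 := basB_lim one_pos
  have l3 : Filter.Tendsto (fun k : ℕ => (D : ℂ) ^ 2 *
      E4f ((((D : ℝ) * ((k : ℝ) + 1) : ℝ) : ℂ) * Complex.I)) Filter.atTop (𝓝 ((D : ℂ) ^ 2 * 1)) :=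
    l1.const_mul _
  have l4 : (D : ℂ) ^ 2 * 1 = 1 := by
    refine tendsto_nhds_unique l3 (l2.congr fun k => ?_)
    have him : 0 < ((((D : ℝ) * ((k : ℝ) + 1) : ℝ) : ℂ) * Complex.I).im := by
      rw [Complex.im_ofReal_mul, Complex.I_im, mul_one]
      positivity
    have h3 : bh D ((((D : ℝ) * ((k : ℝ) + 1) : ℝ) : ℂ) * Complex.I) = 0 := h1 him
    unfold bh at h3
    have hDc : (D : ℂ) ≠ 0 := by
      have : D ≠ 0 := by omega
      exact_mod_cast this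
    have h4 : (((D : ℝ) * ((k : ℝ) + 1) : ℝ) : ℂ) * Complex.I / (D : ℂ) =
        (((1 : ℝ) * ((k : ℝ) + 1) : ℝ) : ℂ) * Complex.I := by
      push_cast
      field_simp
    rw [h4] at h3
    exact sub_eq_zero.mp h3
  rw [mul_one] at l4
  have l5 : ((D ^ 2 : ℕ) : ℂ) = ((1 : ℕ) : ℂ) := by
    push_cast
    exact l4
  have l6 : D ^ 2 = 1 := by exact_mod_cast l5
  nlinarith

theorem qbasB (D : ℕ) (hD : 2 ≤ D) (h4 : E4f (qom D) ≠ 0) (h6 : E6f (qom D) ≠ 0) :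
    IsAlgebraic ℚ (E4f (qom D) ^ 3 / E6f (qom D) ^ 2) := by
  have hD1 : 1 ≤ D := by omega
  have hω := qom_pos hD1
  obtain ⟨P, hPm, hP⟩ := qbasA D hD1
  set a : Polynomial ℚ := C ((D : ℚ) ^ 2) * X with ha
  obtain ⟨q, hq, hnd⟩ := Polynomial.exists_eq_pow_rootMultiplicity_mul_and_not_dvd P hPm.ne_zero a
  rw [Polynomial.dvd_iff_isRoot] at hnd
  set e := Polynomial.rootMultiplicity a P with he
  set c : ℂ → ℂ := fun τ => E4f τ ^ 3 / E6f τ ^ 2 with hc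
  set θ : ℂ → ℂ := fun τ => E4f (τ / (D : ℂ)) * E4f τ ^ 2 / E6f τ ^ 2 with hθ
  set G : ℂ → ℂ := fun τ => Polynomial.eval₂ (Polynomial.aeval (R := ℚ) (c τ)).toRingHom (θ τ) q
    with hG
  have hφ : ∀ τ, (Polynomial.aeval (R := ℚ) (c τ)).toRingHom a = (D : ℂ) ^ 2 * c τ := by
    intro τ
    change Polynomial.aeval (R := ℚ) (c τ) (C ((D : ℚ) ^ 2) * X) = _
    rw [map_mul, Polynomial.aeval_C, Polynomial.aeval_X]
    congr 1
    simp
  -- continuity
  have d4 : ContinuousAt E4f (qom D) := (E4f_diff hω).continuousAt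
  have d6 : ContinuousAt E6f (qom D) := (E6f_diff hω).continuousAt
  have d4D : ContinuousAt (fun τ : ℂ => E4f (τ / (D : ℂ))) (qom D) :=
    (bh_diff0 hD1 hω).continuousAt
  have hcc : ContinuousAt c (qom D) := (d4.pow 3).div (d6.pow 2) (pow_ne_zero 2 h6)
  have hθc : ContinuousAt θ (qom D) := (d4D.mul (d4.pow 2)).div (d6.pow 2) (pow_ne_zero 2 h6)
  have hGc : ContinuousAt G (qom D) := by
    have h1 : G = fun τ => ∑ i ∈ Finset.range (q.natDegree + 1),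
        (Polynomial.aeval (R := ℚ) (c τ)) (q.coeff i) * (θ τ) ^ i := by
      funext τ
      rw [hG]
      exact Polynomial.eval₂_eq_sum_range _ _
    rw [h1]
    refine tendsto_finsetSum _ fun i _ => ?_
    refine Filter.Tendsto.mul ?_ (hθc.pow i)
    exact ((Polynomial.continuous_aeval (q.coeff i)).continuousAt).comp hcc
  -- `G = 0` on a punctured neighbourhood
  have hG0 : ∀ᶠ τ in 𝓝[≠] (qom D), G τ = 0 := by
    have h1 : ∀ᶠ τ in 𝓝[≠] (qom D), bh D τ ≠ 0 :=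
      ((bh_an hD1) (qom D) hω).eventually_eq_zero_or_eventually_ne_zero.resolve_left
        (bh_ne hD hω)
    have h2 : ∀ᶠ τ in 𝓝[≠] (qom D), E4f τ ≠ 0 :=
      (d4.eventually_ne h4).filter_mono nhdsWithin_le_nhds
    have h3 : ∀ᶠ τ in 𝓝[≠] (qom D), E6f τ ≠ 0 :=
      (d6.eventually_ne h6).filter_mono nhdsWithin_le_nhds
    have h5' : ∀ᶠ τ in 𝓝 (qom D), 0 < τ.im :=
      (isOpen_lt continuous_const Complex.continuous_im).mem_nhds hω
    have h5 : ∀ᶠ τ in 𝓝[≠] (qom D), 0 < τ.im := h5'.filter_mono nhdsWithin_le_nhds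
    filter_upwards [h1, h2, h3, h5] with τ t1 t2 t3 t5
    have t6 := hP τ t5 t2 t3
    rw [hq, Polynomial.eval₂_mul, Polynomial.eval₂_pow, Polynomial.eval₂_sub, Polynomial.eval₂_X,
      Polynomial.eval₂_C] at t6
    refine (mul_eq_zero.mp t6).resolve_left (pow_ne_zero _ ?_)
    have t7 := hφ τ
    rw [hc] at t7
    rw [t7]
    have t8 : E4f (τ / (D : ℂ)) * E4f τ ^ 2 / E6f τ ^ 2 -
        (D : ℂ) ^ 2 * (E4f τ ^ 3 / E6f τ ^ 2) = bh D τ * (E4f τ ^ 2 / E6f τ ^ 2) := by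
      unfold bh
      field_simp
    rw [t8]
    exact mul_ne_zero t1 (div_ne_zero (pow_ne_zero 2 t2) (pow_ne_zero 2 t3))
  have hGω : G (qom D) = 0 := by
    have h1 : Filter.Tendsto G (𝓝[≠] (qom D)) (𝓝 (G (qom D))) :=
      hGc.tendsto.mono_left nhdsWithin_le_nhds
    have h2 : Filter.Tendsto G (𝓝[≠] (qom D)) (𝓝 0) := by
      refine tendsto_const_nhds.congr' ?_
      filter_upwards [hG0] with τ hτ
      exact hτ.symm
    exact tendsto_nhds_unique h1 h2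
  -- conclusion
  have hθω : θ (qom D) = (Polynomial.aeval (R := ℚ) (c (qom D))).toRingHom a := by
    rw [hφ, hθ, hc]
    change E4f (qom D / (D : ℂ)) * E4f (qom D) ^ 2 / E6f (qom D) ^ 2 =
      (D : ℂ) ^ 2 * (E4f (qom D) ^ 3 / E6f (qom D) ^ 2)
    rw [E4_CM hD1]
    ring
  have h1 : (Polynomial.aeval (R := ℚ) (c (qom D))).toRingHom (q.eval a) = 0 := by
    rw [← Polynomial.eval₂_at_apply, ← hθω]
    exact hGω
  exact ⟨q.eval a, hnd, h1⟩

end Pool.Agent.Lib.MP5e
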