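import Mathlib

set_option autoImplicit false

/-!
# Q.CLR : clearing denominators in a substitution
-/

noncomputable section

namespace Pool.Agent.Lib.MP5e

theorem qclr {σ τ : Type*} (P : MvPolynomial σ ℂ) (N : σ → MvPolynomial τ ℂ)
    (D : MvPolynomial τ ℂ) : ∃ (M : ℕ) (Q : MvPolynomial τ ℂ), ∀ x : τ → ℂ,
      MvPolynomial.eval x D ≠ 0 → MvPolynomial.eval x Q = MvPolynomial.eval x D ^ M *
        MvPolynomial.eval (fun v => MvPolynomial.eval x (N v) / MvPolynomial.eval x D) P := by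
  induction P using MvPolynomial.induction_on with
  | C a =>
    refine ⟨0, MvPolynomial.C a, fun x _ => ?_⟩
    simp
  | add p q hp hq =>
    obtain ⟨M1, Q1, h1⟩ := hp
    obtain ⟨M2, Q2, h2⟩ := hq
    refine ⟨M1 + M2, Q1 * D ^ M2 + Q2 * D ^ M1, fun x hx => ?_⟩
    rw [map_add, map_mul, map_mul, map_pow, map_pow, h1 x hx, h2 x hx, map_add]
    ring
  | mul_X p v hp =>
    obtain ⟨M1, Q1, h1⟩ := hp
    refine ⟨M1 + 1, Q1 * N v, fun x hx => ?_⟩
    rw [map_mul, h1 x hx, map_mul, MvPolynomial.eval_X]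
    field_simp
    ring

end Pool.Agent.Lib.MP5e
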