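import Pool.Agent.Lib.MP_5e64e7_nt.QTor
import Pool.Agent.Lib.MP_5e64e7_nt.QE2
import Pool.Agent.Lib.MP_5e64e7_nt.QE46
import Pool.Agent.Lib.MP_5e64e7_nt.Ser

set_option autoImplicit false

/-!
# Q.CMD : heights of `E₂, E₄, E₆` at the points of `ℚ(√(-D))` (about 250 lines, adaptation of `OCmd.lean`)

`ω = qom D`, `σ = (x + y ω)/c`, `y > 0`. Step 1 (reduction) exactly as `cmd_red`, `cmd_shift` in `OCmd.lean` (private, copy):
`qsig ω a d b = qgr D x y c + t` with `1 ≤ a, d ≤ B`, `IsCoprime a b`, an integer `t`; `E2f, E4f, E6f` and `Im` do not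
change (`E2f_add_int`, ...).
Step 2. `QB D L F R`; `N = a d ≤ B²`. `qexists_tor L K0 _ R` (`AI.mono` from `F` to `K0`), `s = qtor L ω a d b 1`: a
field `K`, `AI K (R^(6N³)) (N² ℘(qtor k))`. Let `r₀` be a natural number with `R ≤ 2^r₀` (then `r₀ ≤ B^r₀`), so
`R^(6N³) ≤ 2^(6 r₀ N³)`. Put `μ = 12 D³ N²`, `lam = a μ`. With `Sr = qS L ω a d b r` (`N^(2r) Sr = ∑ (N² ℘)^r`), `Im σ = a √D/d`
(`qsig_im`, `qom_im`), `E₂*(ω) = E₂(ω) - 3/(π√D)`, `2D³ E₂*(ω) = ℓ u`: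
* `a² (E₂(σ) - 3/(π Im σ)) = N E₂*(ω) + ℓ S₁` (`qE2`; `a² · 3/(π Im σ) = 3ad/(π√D) = N · 3/(π√D)`), so
  `lam² E₂(σ) = ℓ · μ² (N u/(2D³) + S₁) + lam² · 3/(π Im σ)` and
  `μ² (N u/(2D³) + S₁) = (72 D³ N⁵) u + (144 D⁶ N²)(N² S₁)`, an algebraic integer;
* `lam⁴ E₄(σ) = μ⁴ ℓ² ((6-5N) g₂/12 + 5 S₂) = ℓ² (μ³ · 4D³N² (6-5N)(g₂/4) + 5 (μ/N)⁴ (N⁴ S₂))`, `μ/N = 12D³N`;
* `lam⁶ E₆(σ) = (μ⁶/2) ℓ³ ((30-28N) g₃/8 + 35 S₃ - 63 (g₂/12) S₁)`
  `= ℓ³ (μ⁵ · 3D³N² (30-28N)(g₃/4) + 35 (μ⁶/(2N⁶)) (N⁶ S₃) - 21 (μ⁶/(2N²)) (g₂/4)(N² S₁))`.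
All exponents are at most a constant (depending on `D, R`) times `N³ ≤ B⁶`, so `E = B^C` works; `lam ≤ 2^(B^C)`.
-/

noncomputable section

namespace Pool.Agent.Lib.MP5e

open Polynomial Topology

/-- a shift making the pair coprime -/
private lemma qcmd_shift {a c : ℕ} {x : ℤ} (ha : 1 ≤ a)
    (h : ∀ p : ℕ, p.Prime → p ∣ a → (p : ℤ) ∣ x → ¬ p ∣ c) :
    ∃ t : ℤ, IsCoprime (a : ℤ) (x + c * t) := by
  classical
  set t : ℕ := ∏ p ∈ a.primeFactors.filter (fun p : ℕ => ¬ (p : ℤ) ∣ x), p with ht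
  refine ⟨(t : ℤ), ?_⟩
  rw [Int.isCoprime_iff_gcd_eq_one]
  by_contra hne
  have hnc : ¬ Nat.Coprime (a : ℤ).natAbs (x + c * (t : ℤ)).natAbs := hne
  rw [Nat.Prime.not_coprime_iff_dvd] at hnc
  obtain ⟨p, hp, hpa, hpx⟩ := hnc
  rw [Int.natAbs_natCast] at hpa
  have hpx' : (p : ℤ) ∣ x + c * (t : ℤ) := Int.natCast_dvd.mpr hpx
  by_cases hx : (p : ℤ) ∣ x
  · have h1 : (p : ℤ) ∣ (c : ℤ) * (t : ℤ) := (Int.dvd_add_right hx).mp hpx'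
    have h2 : p ∣ c * t := by exact_mod_cast h1
    rcases (Nat.Prime.dvd_mul hp).mp h2 with h3 | h3
    · exact h p hp hpa hx h3
    · rw [ht, Prime.dvd_finset_prod_iff hp.prime] at h3
      obtain ⟨q, hq, hpq⟩ := h3
      rw [Finset.mem_filter] at hq
      have hqp : q.Prime := Nat.prime_of_mem_primeFactors hq.1
      have : p = q := (Nat.prime_dvd_prime_iff_eq hp hqp).mp hpq
      subst this
      exact hq.2 hx
  · have h1 : p ∣ t := by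
      rw [ht]
      apply Finset.dvd_prod_of_mem
      rw [Finset.mem_filter]
      exact ⟨Nat.mem_primeFactors.mpr ⟨hp, hpa, by omega⟩, hx⟩
    have h2 : (p : ℤ) ∣ (c : ℤ) * (t : ℤ) := Dvd.dvd.mul_left (by exact_mod_cast h1) _
    exact hx ((Int.dvd_add_left h2).mp hpx')

/-- reduction to a point `(a ω + b) / d` with `a, b` coprime -/
private lemma qcmd_red (D : ℕ) {B c : ℕ} {x y : ℤ} (hc : 1 ≤ c) (hcB : c ≤ B) (hy : 0 < y)
    (hyB : y ≤ (B : ℤ)) :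
    ∃ (a d : ℕ) (b t : ℤ), 1 ≤ a ∧ a ≤ B ∧ 1 ≤ d ∧ d ≤ B ∧ IsCoprime (a : ℤ) b ∧
      qsig (qom D) a d b = qgr D x y c + (t : ℂ) := by
  obtain ⟨y', rfl⟩ : ∃ y' : ℕ, y = (y' : ℤ) := ⟨y.toNat, by omega⟩
  set g : ℕ := Nat.gcd (Nat.gcd x.natAbs y') c with hg
  have hgpos : 0 < g := Nat.gcd_pos_of_pos_right _ hc
  have hgx : (g : ℤ) ∣ x := by
    apply Int.natCast_dvd.mpr
    exact (Nat.gcd_dvd_left _ _).trans (Nat.gcd_dvd_left _ _)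
  have hgy : g ∣ y' := (Nat.gcd_dvd_left _ _).trans (Nat.gcd_dvd_right _ _)
  have hgc : g ∣ c := Nat.gcd_dvd_right _ _
  obtain ⟨x1, hx1⟩ := hgx
  obtain ⟨a, ha⟩ := hgy
  obtain ⟨d, hd⟩ := hgc
  have hapos : 1 ≤ a := by
    rcases Nat.eq_zero_or_pos a with h | h
    · rw [h] at ha; simp at ha; omega
    · exact h
  have hdpos : 1 ≤ d := by
    rcases Nat.eq_zero_or_pos d with h | h
    · rw [h] at hd; simp at hd; omega
    · exact h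
  have haB : a ≤ B := by
    have : a ≤ y' := by rw [ha]; exact Nat.le_mul_of_pos_left _ hgpos
    have h2 : y' ≤ B := by exact_mod_cast hyB
    omega
  have hdB : d ≤ B := by
    have : d ≤ c := by rw [hd]; exact Nat.le_mul_of_pos_left _ hgpos
    omega
  have hprime : ∀ p : ℕ, p.Prime → p ∣ a → (p : ℤ) ∣ x1 → ¬ p ∣ d := by
    intro p hp hpa hpx hpd
    have h1 : g * p ∣ y' := by rw [ha]; exact Nat.mul_dvd_mul_left _ hpa
    have h2 : g * p ∣ c := by rw [hd]; exact Nat.mul_dvd_mul_left _ hpd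
    have h3 : g * p ∣ x.natAbs := by
      rw [hx1, Int.natAbs_mul, Int.natAbs_natCast]
      exact Nat.mul_dvd_mul_left _ (Int.natCast_dvd.mp hpx)
    have h4 : g * p ∣ g := Nat.dvd_gcd (Nat.dvd_gcd h3 h1) h2
    have h5 : g * p ≤ g := Nat.le_of_dvd hgpos h4
    have h6 := hp.two_le
    nlinarith
  obtain ⟨t, ht⟩ := qcmd_shift hapos hprime
  refine ⟨a, d, x1 + d * t, t, hapos, haB, hdpos, hdB, ht, ?_⟩
  have hg0 : (g : ℂ) ≠ 0 := by exact_mod_cast hgpos.ne'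
  have hd0 : (d : ℂ) ≠ 0 := by
    have : d ≠ 0 := by omega
    exact_mod_cast this
  unfold qsig qgr
  rw [hx1, hd, ha]
  push_cast
  field_simp
  ring

section arith

variable {K : IntermediateField ℚ ℂ} {B : ℕ}

private lemma qm_mul {n m : ℕ} {x y : ℂ} (h : AI K ((B : ℝ) ^ n) x) (h' : AI K ((B : ℝ) ^ m) y) :
    AI K ((B : ℝ) ^ (n + m)) (x * y) := by
  rw [pow_add]
  exact h.mul h'

private lemma qm_sum_le (hB : 2 ≤ B) (n m : ℕ) :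
    (B : ℝ) ^ n + (B : ℝ) ^ m ≤ (B : ℝ) ^ (n + m + 1) := by
  have hB' : (2 : ℝ) ≤ B := by exact_mod_cast hB
  have h1 : (1 : ℝ) ≤ (B : ℝ) ^ n := one_le_pow₀ (by linarith)
  have h2 : (1 : ℝ) ≤ (B : ℝ) ^ m := one_le_pow₀ (by linarith)
  have h3 : (B : ℝ) ^ n + (B : ℝ) ^ m ≤ 2 * ((B : ℝ) ^ n * (B : ℝ) ^ m) := by nlinarith
  calc (B : ℝ) ^ n + (B : ℝ) ^ m ≤ 2 * ((B : ℝ) ^ n * (B : ℝ) ^ m) := h3
    _ ≤ B * ((B : ℝ) ^ n * (B : ℝ) ^ m) := mul_le_mul_of_nonneg_right hB' (by positivity)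
    _ = (B : ℝ) ^ (n + m + 1) := by ring

private lemma qm_add (hB : 2 ≤ B) {n m : ℕ} {x y : ℂ} (h : AI K ((B : ℝ) ^ n) x)
    (h' : AI K ((B : ℝ) ^ m) y) : AI K ((B : ℝ) ^ (n + m + 1)) (x + y) :=
  (h.add h').mono le_rfl (qm_sum_le hB n m)

private lemma qm_sub (hB : 2 ≤ B) {n m : ℕ} {x y : ℂ} (h : AI K ((B : ℝ) ^ n) x)
    (h' : AI K ((B : ℝ) ^ m) y) : AI K ((B : ℝ) ^ (n + m + 1)) (x - y) :=
  (h.sub h').mono le_rfl (qm_sum_le hB n m)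

private lemma qm_pow {n : ℕ} (k : ℕ) {x : ℂ} (h : AI K ((B : ℝ) ^ n) x) :
    AI K ((B : ℝ) ^ (n * k)) (x ^ k) := by
  rw [pow_mul]
  exact h.pow k

private lemma qm_const (hB : 2 ≤ B) (c n : ℕ) (h : c ≤ 2 ^ n) : AI K ((B : ℝ) ^ n) (c : ℂ) := by
  refine (AI.nat K c).mono le_rfl ?_
  have h1 : (c : ℝ) ≤ 2 ^ n := by exact_mod_cast h
  refine h1.trans ?_
  apply pow_le_pow_left₀ (by norm_num)
  exact_mod_cast hB

private lemma qm_mono (hB : 2 ≤ B) {n m : ℕ} {x : ℂ} (h : AI K ((B : ℝ) ^ n) x) (hnm : n ≤ m) :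
    AI K ((B : ℝ) ^ m) x := by
  refine h.mono le_rfl ?_
  apply pow_le_pow_right₀ _ hnm
  have hB' : (2 : ℝ) ≤ B := by exact_mod_cast hB
  linarith

private lemma qm_sum {M : ℝ} (s : Finset ℕ) (f : ℕ → ℂ) (h : ∀ k ∈ s, AI K M (f k)) :
    AI K ((s.card : ℝ) * M) (∑ k ∈ s, f k) := by
  classical
  induction s using Finset.induction_on with
  | empty => simpa using AI.nat K 0
  | insert a s ha ih =>
    rw [Finset.sum_insert ha, Finset.card_insert_of_notMem ha]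
    have h1 := (h a (Finset.mem_insert_self a s)).add
      (ih (fun k hk => h k (Finset.mem_insert_of_mem hk)))
    refine h1.mono le_rfl ?_
    push_cast
    linarith

/-- the power sums -/
private lemma qm_S (L : PeriodPair) (τ : ℂ) {a d : ℕ} {b : ℤ} {e : ℕ}
    (hNB : a * d ≤ B)
    (h : ∀ k : ℕ, 1 ≤ k → k < a * d →
      AI K ((B : ℝ) ^ e) (((a * d : ℕ) : ℂ) ^ 2 * L.weierstrassP ((k : ℂ) * qtor L τ a d b 1)))
    (r : ℕ) :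
    AI K ((B : ℝ) ^ (e * r + 1)) ((((a * d : ℕ) : ℂ) ^ 2) ^ r * qS L τ a d b r) := by
  have e1 : (((a * d : ℕ) : ℂ) ^ 2) ^ r * qS L τ a d b r =
      ∑ k ∈ Finset.Ico 1 (a * d),
        (((a * d : ℕ) : ℂ) ^ 2 * L.weierstrassP ((k : ℂ) * qtor L τ a d b 1)) ^ r := by
    unfold qS
    rw [Finset.mul_sum]
    refine Finset.sum_congr rfl fun k _ => ?_
    rw [qtor_mul, mul_pow]
  rw [e1]
  have h1 := qm_sum (K := K) (M := (B : ℝ) ^ (e * r)) (Finset.Ico 1 (a * d))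
    (fun k => (((a * d : ℕ) : ℂ) ^ 2 * L.weierstrassP ((k : ℂ) * qtor L τ a d b 1)) ^ r)
    (fun k hk => by
      rw [Finset.mem_Ico] at hk
      exact qm_pow r (h k hk.1 hk.2))
  refine h1.mono le_rfl ?_
  rw [Nat.card_Ico]
  have h2 : ((a * d - 1 : ℕ) : ℝ) ≤ (B : ℝ) := by
    have h3 : a * d - 1 ≤ B := by omega
    exact_mod_cast h3
  calc ((a * d - 1 : ℕ) : ℝ) * (B : ℝ) ^ (e * r)
      ≤ (B : ℝ) * (B : ℝ) ^ (e * r) :=
        mul_le_mul_of_nonneg_right h2 (by positivity)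
    _ = (B : ℝ) ^ (e * r + 1) := by ring

end arith

theorem qcmd (D : ℕ) (hD : 1 ≤ D) (L : PeriodPair) (F : IntermediateField ℚ ℂ) (R : ℝ)
    (hB : QB D L F R) : ∃ C : ℕ, ∀ (K0 : IntermediateField ℚ ℂ), FiniteDimensional ℚ K0 →
    F ≤ K0 → ∀ (B c : ℕ) (x y : ℤ), 2 ≤ B → 1 ≤ c → c ≤ B → |x| ≤ (B : ℤ) → 0 < y →
    y ≤ (B : ℤ) →
    ∃ K : IntermediateField ℚ ℂ, K0 ≤ K ∧ FiniteDimensional ℚ K ∧
      Module.finrank ℚ K ≤ B ^ C * Module.finrank ℚ K0 ∧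
      ∃ lam : ℕ, QCMD L K (B ^ C) lam (qgr D x y c) := by
  obtain ⟨hω, _, hR, hg2, hg3, u, hu, hue⟩ := hB
  obtain ⟨r0, hr0⟩ : ∃ r0 : ℕ, R ≤ (2 : ℝ) ^ r0 := by
    obtain ⟨r0, h⟩ := pow_unbounded_of_one_lt R (by norm_num : (1 : ℝ) < 2)
    exact ⟨r0, h.le⟩
  have hτ := qom_pos hD
  refine ⟨D + r0 + 15, ?_⟩
  intro K0 hfd hF B c x y hB hc hcB _ hy hyB
  obtain ⟨a, d, b, t, ha, haB, hd, hdB, hab, hσ⟩ := qcmd_red D (x := x) hc hcB hy hyB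
  have hN : 1 ≤ a * d := Nat.mul_pos ha hd
  have hNB : a * d ≤ B ^ 2 := by
    calc a * d ≤ B * B := Nat.mul_le_mul haB hdB
      _ = B ^ 2 := by ring
  have hB1 : 1 ≤ B := by omega
  set T : ℕ := (a * d) ^ 3 with hTdef
  have hT1 : 1 ≤ T := Nat.one_le_pow _ _ hN
  have hTB : T ≤ B ^ 6 := by
    calc T ≤ (B ^ 2) ^ 3 := Nat.pow_le_pow_left hNB 3
      _ = B ^ 6 := by ring
  have hNT : a * d ≤ T := by
    calc a * d = (a * d) ^ 1 := (pow_one _).symm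
      _ ≤ T := Nat.pow_le_pow_right hN (by norm_num)
  have haT : a ≤ T := (Nat.le_mul_of_pos_right a hd).trans hNT
  obtain ⟨K, hK, hKfd, hrank, hX⟩ := qexists_tor L K0 hfd R hR (hg2.mono hF le_rfl)
    (hg3.mono hF le_rfl) (a * d) hN (qtor L (qom D) a d b 1) (qtor_top L hω ha hd b)
    (fun k hk hk' => by rw [qtor_mul]; exact qtor_notMem L hτ hω ha hd hab hk hk')
  -- the base
  set P : ℕ := (D + r0 + 1) * T with hP
  set Q : ℕ := 2 ^ P with hQ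
  have hTP : T ≤ P := Nat.le_mul_of_pos_left T (by omega)
  have hMP : D + r0 + 1 ≤ P := Nat.le_mul_of_pos_right _ (by omega)
  have hQ2 : 2 ≤ Q := by
    calc 2 = 2 ^ 1 := rfl
      _ ≤ Q := Nat.pow_le_pow_right (by norm_num) (by omega)
  have hPQ : P ≤ Q := (Nat.lt_two_pow_self).le
  have hRQ : R ≤ (Q : ℝ) ^ 1 := by
    rw [pow_one, hQ]
    push_cast
    exact hr0.trans (pow_le_pow_right₀ (by norm_num) (by omega))
  have hfinP : 250 * P ≤ B ^ (D + r0 + 15) := by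
    have h1 : 250 ≤ B ^ 8 := by
      calc 250 ≤ 2 ^ 8 := by norm_num
        _ ≤ B ^ 8 := Nat.pow_le_pow_left hB 8
    have h2 : D + r0 + 1 ≤ B ^ (D + r0 + 1) := (Nat.lt_pow_self (by omega)).le
    calc 250 * P ≤ B ^ 8 * (B ^ (D + r0 + 1) * B ^ 6) :=
          Nat.mul_le_mul h1 (Nat.mul_le_mul h2 hTB)
      _ = B ^ (D + r0 + 15) := by ring
  have hfin : (Q : ℝ) ^ 250 ≤ (2 : ℝ) ^ B ^ (D + r0 + 15) := by
    rw [hQ]
    push_cast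
    rw [← pow_mul]
    exact pow_le_pow_right₀ (by norm_num) (by omega)
  have hKF : F ≤ K := hF.trans hK
  have hDA : AI K ((Q : ℝ) ^ 1) (D : ℂ) := by
    refine (AI.nat K D).mono le_rfl ?_
    rw [pow_one]
    exact_mod_cast (by omega : D ≤ Q)
  have hNA : AI K ((Q : ℝ) ^ 1) ((a * d : ℕ) : ℂ) := by
    refine (AI.nat K (a * d)).mono le_rfl ?_
    rw [pow_one]
    exact_mod_cast (by omega : a * d ≤ Q)
  have huA : AI K ((Q : ℝ) ^ 1) u := hu.mono hKF hRQ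
  have hgA2 : AI K ((Q : ℝ) ^ 1) (L.g₂ / 4) := hg2.mono hKF hRQ
  have hgA3 : AI K ((Q : ℝ) ^ 1) (L.g₃ / 4) := hg3.mono hKF hRQ
  have hX' : ∀ k : ℕ, 1 ≤ k → k < a * d →
      AI K ((Q : ℝ) ^ 6)
        (((a * d : ℕ) : ℂ) ^ 2 * L.weierstrassP ((k : ℂ) * qtor L (qom D) a d b 1)) := by
    intro k hk hk'
    refine (hX k hk hk').mono le_rfl ?_
    have h1 : R ^ (6 * T) ≤ ((2 : ℝ) ^ r0) ^ (6 * T) :=
      pow_le_pow_left₀ (by linarith) hr0 _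
    refine h1.trans ?_
    rw [hQ]
    push_cast
    rw [← pow_mul, ← pow_mul]
    apply pow_le_pow_right₀ (by norm_num)
    calc r0 * (6 * T) = (r0 * T) * 6 := by ring
      _ ≤ P * 6 := by
        apply Nat.mul_le_mul_right
        rw [hP]
        exact Nat.mul_le_mul_right _ (by omega)
  have hadQ : a * d ≤ Q := by omega
  have hS1 := qm_S L (qom D) hadQ hX' 1
  have hS2 := qm_S L (qom D) hadQ hX' 2
  have hS3 := qm_S L (qom D) hadQ hX' 3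
  have cst : ∀ n m : ℕ, n ≤ 2 ^ m → AI K ((Q : ℝ) ^ m) (n : ℂ) := fun n m h =>
    qm_const hQ2 n m h
  have e2 := qE2 L hτ hω ha hd hab
  have e4 := qE4 L hτ hω ha hd hab
  have e6 := qE6 L hτ hω ha hd hab
  have him : (qgr D x y c).im = (a : ℝ) * (qom D).im / (d : ℝ) := by
    have h1 := qsig_im (qom D) (a := a) hd b
    rw [hσ, Complex.add_im, Complex.intCast_im, add_zero] at h1
    exact h1
  rw [hσ, E2f_add_int] at e2
  rw [hσ, E4f_add_int] at e4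
  rw [hσ, E6f_add_int] at e6
  have ha0 : (a : ℂ) ≠ 0 := by
    have : a ≠ 0 := by omega
    exact_mod_cast this
  have hd0 : (d : ℂ) ≠ 0 := by
    have : d ≠ 0 := by omega
    exact_mod_cast this
  have hD0 : (D : ℂ) ≠ 0 := by
    have : D ≠ 0 := by omega
    exact_mod_cast this
  have hπ : (Real.pi : ℂ) ≠ 0 := by exact_mod_cast Real.pi_ne_zero
  have hi0 : (((qom D).im : ℝ) : ℂ) ≠ 0 := by exact_mod_cast hτ.ne'
  set N : ℂ := ((a * d : ℕ) : ℂ) with hNdef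
  have hNad : N = (a : ℂ) * (d : ℂ) := by rw [hNdef]; push_cast; ring
  set M : ℂ := ((12 : ℕ) : ℂ) * (D : ℂ) ^ 3 * N ^ 2 with hM
  have hMA : AI K ((Q : ℝ) ^ 9) M := by
    have h1 := qm_mul (qm_mul (cst 12 4 (by norm_num)) (qm_pow 3 hDA)) (qm_pow 2 hNA)
    exact h1
  have hM1A : AI K ((Q : ℝ) ^ 8) (((12 : ℕ) : ℂ) * (D : ℂ) ^ 3 * N) := by
    have h1 := qm_mul (qm_mul (cst 12 4 (by norm_num)) (qm_pow 3 hDA)) hNA
    exact h1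
  refine ⟨K, hK, hKfd, ?_, 12 * D ^ 3 * (a * d) ^ 2 * a, ?_, ?_, ?_⟩
  · refine hrank.trans (Nat.mul_le_mul_right _ ?_)
    calc (a * d) ^ 3 ≤ B ^ 6 := hTB
      _ ≤ B ^ (D + r0 + 15) := Nat.pow_le_pow_right (by omega) (by omega)
  · have h1 : 0 < D := hD
    have h2 : 0 < a := ha
    have h3 : 0 < a * d := hN
    exact Nat.succ_le_of_lt (by positivity)
  · have h1 : 12 * D ^ 3 * (a * d) ^ 2 * a ≤ Q ^ 4 * Q ^ 3 * Q ^ 2 * Q := by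
      refine Nat.mul_le_mul (Nat.mul_le_mul (Nat.mul_le_mul ?_ ?_) ?_) ?_
      · calc 12 ≤ 2 ^ 4 := by norm_num
          _ ≤ Q ^ 4 := Nat.pow_le_pow_left hQ2 4
      · exact Nat.pow_le_pow_left (by omega) 3
      · exact Nat.pow_le_pow_left hadQ 2
      · omega
    refine h1.trans ?_
    have h2 : Q ^ 4 * Q ^ 3 * Q ^ 2 * Q = 2 ^ (10 * P) := by
      rw [hQ]
      rw [← pow_mul, ← pow_mul, ← pow_mul, ← pow_add, ← pow_add, ← pow_add]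
      ring_nf
    rw [h2]
    exact Nat.pow_le_pow_right (by norm_num) (by omega)
  refine ⟨((72 : ℕ) : ℂ) * (D : ℂ) ^ 3 * N ^ 5 * u +
      ((144 : ℕ) : ℂ) * (D : ℂ) ^ 6 * N ^ 2 * ((N ^ 2) ^ 1 * qS L (qom D) a d b 1),
    M ^ 3 * (((4 : ℕ) : ℂ) * (D : ℂ) ^ 3 * N ^ 2 * (((6 : ℕ) : ℂ) - ((5 : ℕ) : ℂ) * N) *
        (L.g₂ / 4)) +
      ((5 : ℕ) : ℂ) * (((12 : ℕ) : ℂ) * (D : ℂ) ^ 3 * N) ^ 4 *
        ((N ^ 2) ^ 2 * qS L (qom D) a d b 2),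
    M ^ 5 * (((3 : ℕ) : ℂ) * (D : ℂ) ^ 3 * N ^ 2 * (((30 : ℕ) : ℂ) - ((28 : ℕ) : ℂ) * N) *
        (L.g₃ / 4)) +
      ((35 : ℕ) : ℂ) * (((6 : ℕ) : ℂ) * (D : ℂ) ^ 3 * N) *
        (((12 : ℕ) : ℂ) * (D : ℂ) ^ 3 * N) ^ 5 * ((N ^ 2) ^ 3 * qS L (qom D) a d b 3) -
      ((21 : ℕ) : ℂ) * (((6 : ℕ) : ℂ) * (D : ℂ) ^ 3) * M ^ 5 * (L.g₂ / 4) *
        ((N ^ 2) ^ 1 * qS L (qom D) a d b 1), ?_, ?_, ?_, ?_, ?_, ?_⟩
  · refine (qm_mono hQ2 (qm_add hQ2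
      (qm_mul (qm_mul (qm_mul (cst 72 7 (by norm_num)) (qm_pow 3 hDA)) (qm_pow 5 hNA)) huA)
      (qm_mul (qm_mul (qm_mul (cst 144 8 (by norm_num)) (qm_pow 6 hDA)) (qm_pow 2 hNA)) hS1))
      (m := 250) (by norm_num)).mono le_rfl hfin
  · refine (qm_mono hQ2 (qm_add hQ2
      (qm_mul (qm_pow 3 hMA) (qm_mul (qm_mul (qm_mul (qm_mul (cst 4 2 (by norm_num))
        (qm_pow 3 hDA)) (qm_pow 2 hNA)) (qm_sub hQ2 (cst 6 3 (by norm_num))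
        (qm_mul (cst 5 3 (by norm_num)) hNA))) hgA2))
      (qm_mul (qm_mul (cst 5 3 (by norm_num)) (qm_pow 4 hM1A)) hS2))
      (m := 250) (by norm_num)).mono le_rfl hfin
  · refine (qm_mono hQ2 (qm_sub hQ2 (qm_add hQ2
      (qm_mul (qm_pow 5 hMA) (qm_mul (qm_mul (qm_mul (qm_mul (cst 3 2 (by norm_num))
        (qm_pow 3 hDA)) (qm_pow 2 hNA)) (qm_sub hQ2 (cst 30 5 (by norm_num))
        (qm_mul (cst 28 5 (by norm_num)) hNA))) hgA3))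
      (qm_mul (qm_mul (qm_mul (cst 35 6 (by norm_num)) (qm_mul (qm_mul (cst 6 3 (by norm_num))
        (qm_pow 3 hDA)) hNA)) (qm_pow 5 hM1A)) hS3))
      (qm_mul (qm_mul (qm_mul (qm_mul (cst 21 5 (by norm_num)) (qm_mul (cst 6 3 (by norm_num))
        (qm_pow 3 hDA))) (qm_pow 5 hMA)) hgA2) hS1))
      (m := 250) (by norm_num)).mono le_rfl hfin
  · have hE : E2f (qom D) = qell L * u / (2 * (D : ℂ) ^ 3) +
        3 / ((Real.pi : ℂ) * ((qom D).im : ℂ)) := by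
      rw [← hue]
      field_simp
      ring
    have h1 : ((12 * D ^ 3 * (a * d) ^ 2 * a : ℕ) : ℂ) ^ 2 * E2f (qgr D x y c) =
        M ^ 2 * ((a : ℂ) ^ 2 * E2f (qgr D x y c)) := by
      rw [hM, hNdef]; push_cast; ring
    have h2 : ((12 * D ^ 3 * (a * d) ^ 2 * a : ℕ) : ℂ) ^ 2 *
        (3 / ((Real.pi : ℂ) * ((qgr D x y c).im : ℂ))) =
        M ^ 2 * (((a : ℂ) * (d : ℂ)) * (3 / ((Real.pi : ℂ) * ((qom D).im : ℂ)))) := by
      rw [him, hM, hNdef]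
      push_cast
      field_simp
    rw [h1, h2, e2, hE, hM, hNad]
    push_cast
    field_simp
    ring
  · have h1 : ((12 * D ^ 3 * (a * d) ^ 2 * a : ℕ) : ℂ) ^ 4 * E4f (qgr D x y c) =
        M ^ 4 * ((a : ℂ) ^ 4 * E4f (qgr D x y c)) := by
      rw [hM, hNdef]; push_cast; ring
    rw [h1, e4, hM, hNad]
    push_cast
    ring
  · have h1 : ((12 * D ^ 3 * (a * d) ^ 2 * a : ℕ) : ℂ) ^ 6 * E6f (qgr D x y c) =
        M ^ 6 / 2 * (2 * (a : ℂ) ^ 6 * E6f (qgr D x y c)) := by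
      rw [hM, hNdef]; push_cast; ring
    rw [h1, e6, hM, hNad]
    push_cast
    ring

end Pool.Agent.Lib.MP5e
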