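import Pool.Agent.Lib.MP_5e64e7_nt.ODefs
import Pool.Agent.Lib.MP_5e64e7_nt.NormR

set_option autoImplicit false

/-!
# MP_5e64e7_nt, third theorem (all imaginary quadratic fields, real parameters) : definitions (helper16)

`w₀, …, w_{m-1}` are real numbers, hierarchically super-approximable by rational numbers (`QHier`). The points
`z_k = α_k(w)/β_k(w) ∈ ℍ`, `α_k, β_k` affine forms with coefficients in an imaginary quadratic field `ℚ(√-D_k)`.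
Shimura: for `ω = √-D` there is a period `ℓ` (`qell L`) such that for all `σ ∈ ℚ(√-D)`, `Im σ > 0`, the numbers
`j(σ)`, `j'(σ)/(2πiℓ)`, `(j''(σ) - (i/Im σ) j'(σ))/(2πiℓ)²` (`qv`) are algebraic, with explicit heights. So at
rational `x` the numbers `qfam f 𝓛 x` are algebraic, no transcendence measure is needed, and the
`m + 3n` numbers `qfam f 𝓛 w` are algebraically independent. (All identities checked numerically.)
-/

noncomputable section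

namespace Pool.Agent.Lib.MP5e

open Polynomial Topology

/-- `√(-D)` -/
def qom (D : ℕ) : ℂ := (Real.sqrt (D : ℝ) : ℂ) * Complex.I

/-- `(a τ + b)/d` -/
def qsig (τ : ℂ) (a d : ℕ) (b : ℤ) : ℂ := ((a : ℂ) * τ + (b : ℂ)) / (d : ℂ)

/-- the torsion point `ω₁ k σ/a`, `σ = (a τ + b)/d`, of `ℂ/L`, `L = ℤω₁ + ℤω₂`, `ω₂ = τ ω₁` -/
def qtor (L : PeriodPair) (τ : ℂ) (a d : ℕ) (b : ℤ) (k : ℕ) : ℂ :=
  L.ω₁ * ((k : ℂ) * (qsig τ a d b / (a : ℂ)))

/-- the sum of the `r`-th powers of the values of `℘` at the multiples of the torsion point -/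
def qS (L : PeriodPair) (τ : ℂ) (a d : ℕ) (b : ℤ) (r : ℕ) : ℂ :=
  ∑ k ∈ Finset.Ico 1 (a * d), L.weierstrassP (qtor L τ a d b k) ^ r

/-- the period `ℓ = 3 ω₁² / π²` -/
def qell (L : PeriodPair) : ℂ := 3 * L.ω₁ ^ 2 / (Real.pi : ℂ) ^ 2

/-- the row sum `∑ 1/(z+n)²` (the term `z + n = 0` counts as `0`) -/
def qrow (z : ℂ) : ℂ := ∑' n : ℤ, ((z + (n : ℂ)) ^ 2)⁻¹

/-! ### universal multiplication polynomials -/

/-- specialisation of the two parameters -/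
def qev {S : Type*} [CommRing S] (a b : S) : MvPolynomial (Fin 2) ℤ →+* S :=
  MvPolynomial.eval₂Hom (Int.castRingHom S) ![a, b]

/-- specialisation of the coefficients -/
def qsp {S : Type*} [CommRing S] (a b : S) (P : Polynomial (MvPolynomial (Fin 2) ℤ)) :
    Polynomial S := P.map (qev a b)

/-- points of infinite order of `ℂ/L` -/
def QNT (L : PeriodPair) : Set ℂ := {s | ∀ j : ℕ, 1 ≤ j → (j : ℂ) * s ∉ L.lattice}

/-- `℘(ks) B(℘(s)) = A(℘(s))` for all lattices, `A` monic, `B` with leading coefficient `k²`, with sizes;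
`℘'² = 4 (℘³ - α ℘ - β)`, `α = g₂/4`, `β = g₃/4` -/
def QMult (k : ℕ) (A B : Polynomial (MvPolynomial (Fin 2) ℤ)) : Prop :=
  A.Monic ∧ A.natDegree = B.natDegree + 1 ∧
    B.leadingCoeff = ((k : ℕ) : MvPolynomial (Fin 2) ℤ) ^ 2 ∧ A.natDegree ≤ k ^ 3 ∧
    (∀ R : ℝ, 2 ≤ R → ∀ a b : ℂ, ‖a‖ ≤ R → ‖b‖ ≤ R →
      NormR_L (qsp a b A) ≤ R ^ (5 * k ^ 3) ∧ NormR_L (qsp a b B) ≤ R ^ (5 * k ^ 3)) ∧
    ∀ L : PeriodPair, ∀ s ∈ QNT L, L.weierstrassP ((k : ℂ) * s) *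
      (qsp (L.g₂ / 4) (L.g₃ / 4) B).eval (L.weierstrassP s) =
        (qsp (L.g₂ / 4) (L.g₃ / 4) A).eval (L.weierstrassP s)

/-- the period lattice with periods `lam`, `τ lam` -/
def PL (lam τ : ℂ) (h1 : lam ≠ 0) (h2 : 0 < τ.im) : PeriodPair where
  ω₁ := lam
  ω₂ := τ * lam
  indep := by
    rw [LinearIndependent.pair_iff]
    intro s t h
    have h3 : ((s : ℂ) + (t : ℂ) * τ) * lam = 0 := by
      rw [Complex.real_smul, Complex.real_smul] at h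
      linear_combination h
    have h4 := (mul_eq_zero.mp h3).resolve_right h1
    have hre := congrArg Complex.re h4
    have him := congrArg Complex.im h4
    simp at hre him
    rcases him with h5 | h5
    · rw [h5, zero_mul, add_zero] at hre
      exact ⟨hre, h5⟩
    · exact absurd h5 h2.ne'

/-- the base data: a lattice with complex multiplication by `√(-D)` whose invariants are algebraic integers of the
number field `F`, with all conjugates bounded by `R`; the number `2 D³ E₂*(ω)/ℓ` is also in `F` -/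
def QB (D : ℕ) (L : PeriodPair) (F : IntermediateField ℚ ℂ) (R : ℝ) : Prop :=
  L.ω₂ = qom D * L.ω₁ ∧ FiniteDimensional ℚ F ∧ 2 ≤ R ∧ AI F R (L.g₂ / 4) ∧ AI F R (L.g₃ / 4) ∧
    ∃ u : ℂ, AI F R u ∧ (2 * (D : ℂ) ^ 3) *
      (E2f (qom D) - 3 / ((Real.pi : ℂ) * ((qom D).im : ℂ))) = qell L * u

/-- CM data at `σ` with the scaling factor `lam` -/
def QCMD (L : PeriodPair) (K : IntermediateField ℚ ℂ) (E lam : ℕ) (σ : ℂ) : Prop :=
  1 ≤ lam ∧ lam ≤ 2 ^ E ∧ ∃ a b c : ℂ, AI K ((2 : ℝ) ^ E) a ∧ AI K ((2 : ℝ) ^ E) b ∧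
    AI K ((2 : ℝ) ^ E) c ∧
    (lam : ℂ) ^ 2 * E2f σ = qell L * a + (lam : ℂ) ^ 2 * (3 / ((Real.pi : ℂ) * (σ.im : ℂ))) ∧
    (lam : ℂ) ^ 4 * E4f σ = qell L ^ 2 * b ∧ (lam : ℂ) ^ 6 * E6f σ = qell L ^ 3 * c

/-- the point `(x + y √(-D)) / c` -/
def qgr (D : ℕ) (x y : ℤ) (c : ℕ) : ℂ := ((x : ℂ) + (y : ℂ) * qom D) / (c : ℂ)

/-- `K` is relatively algebraically closed in `ℂ` -/
def QCl (K : IntermediateField ℚ ℂ) : Prop := ∀ z : ℂ, IsAlgebraic K z → z ∈ K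

/-! ### the points -/

/-- the affine form `∑ (p_l + q_l ω) x_l + (p_∅ + q_∅ ω)` -/
def qaf {m : ℕ} (ω : ℂ) (p q : Option (Fin m) → ℚ) (x : Fin m → ℂ) : ℂ :=
  (∑ l, ((p (some l) : ℂ) + (q (some l) : ℂ) * ω) * x l) + ((p none : ℂ) + (q none : ℂ) * ω)

/-- its linear part -/
def qli {m : ℕ} (ω : ℂ) (p q : Option (Fin m) → ℚ) (v : Fin m → ℂ) : ℂ :=
  ∑ l, ((p (some l) : ℂ) + (q (some l) : ℂ) * ω) * v l

/-- the data of a point `z = α(w)/β(w)`, `α = p + q ω`, `β = r + s ω`, `ω = √(-D)` -/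
structure QF (m : ℕ) where
  D : ℕ
  p : Option (Fin m) → ℚ
  q : Option (Fin m) → ℚ
  r : Option (Fin m) → ℚ
  s : Option (Fin m) → ℚ

/-- numerator, denominator and their conjugates -/
def qN {m : ℕ} (f : QF m) (x : Fin m → ℂ) : ℂ := qaf (qom f.D) f.p f.q x
def qE {m : ℕ} (f : QF m) (x : Fin m → ℂ) : ℂ := qaf (qom f.D) f.r f.s x
def qNc {m : ℕ} (f : QF m) (x : Fin m → ℂ) : ℂ := qaf (-qom f.D) f.p f.q x
def qEc {m : ℕ} (f : QF m) (x : Fin m → ℂ) : ℂ := qaf (-qom f.D) f.r f.s x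

/-- the point -/
def qz {m : ℕ} (f : QF m) (x : Fin m → ℂ) : ℂ := qN f x / qE f x

/-- the analytic continuation of its imaginary part from real to complex arguments -/
def qy {m : ℕ} (f : QF m) (x : Fin m → ℂ) : ℂ := (qz f x - qNc f x / qEc f x) / (2 * Complex.I)

/-- `j, j'/(2πiℓ), (j'' - (i/y) j')/(2πiℓ)²` -/
def qv (L : PeriodPair) (z y : ℂ) : Fin 3 → ℂ :=
  ![jf z, deriv jf z / (2 * (Real.pi : ℂ) * Complex.I * qell L),
    (deriv (deriv jf) z - Complex.I / y * deriv jf z) /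
      (2 * (Real.pi : ℂ) * Complex.I * qell L) ^ 2]

/-- the `m + 3n` numbers -/
def qfam {m n : ℕ} (f : Fin n → QF m) (𝓛 : ℕ → PeriodPair) (x : Fin m → ℂ) :
    Fin m ⊕ (Fin n × Fin 3) → ℂ :=
  Sum.elim x fun p => qv (𝓛 (f p.1).D) (qz (f p.1) x) (qy (f p.1) x) p.2

/-- hierarchical super-approximability by rational numbers -/
def QHier {m : ℕ} (w : Fin m → ℝ) : Prop :=
  ∀ C : ℕ, ∃ (B : ℕ) (a : Fin m → ℤ) (c : Fin m → ℕ), 2 ≤ B ∧
    (∀ l, 1 ≤ c l ∧ c l ≤ B ∧ |a l| ≤ (B : ℤ) ∧ w l ≠ (a l : ℝ) / (c l : ℝ)) ∧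
    (∀ l : Fin m, (l : ℕ) = 0 → |w l - (a l : ℝ) / (c l : ℝ)| ≤ Real.exp (-((B : ℝ) ^ C))) ∧
    (∀ l l' : Fin m, (l' : ℕ) = (l : ℕ) + 1 →
      |w l' - (a l' : ℝ) / (c l' : ℝ)| ≤ |w l - (a l : ℝ) / (c l : ℝ)| ^ C)

/-- the Moebius transformation `t ↦ z(x + t v)` -/
def qG {m : ℕ} (f : QF m) (x v : Fin m → ℂ) : Matrix (Fin 2) (Fin 2) ℂ :=
  !![qli (qom f.D) f.p f.q v, qN f x; qli (qom f.D) f.r f.s v, qE f x]

/-- there is a direction in which the real loci of the `z_k` are distinct curves -/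
def QDir {m n : ℕ} (f : Fin n → QF m) (w : Fin m → ℂ) : Prop :=
  ∃ v : Fin m → ℂ, ∀ᶠ x in 𝓝 w, (∀ k, (qG (f k) x v).det ≠ 0) ∧
    ∀ k l, k ≠ l → {t : ℂ | him (qG (f k) x v) t = 0 ∧ him (qG (f l) x v) t = 0}.Finite

end Pool.Agent.Lib.MP5e
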