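import Pool.Agent.Lib.MP_5e64e7_nt.QTpt

set_option autoImplicit false

/-!
# Q.DIRA : a direction for affine forms (about 170 lines)

Here `qE = 1`, `z_k = qN (f k)`. Write `a_{k,l} = p + q ω` (coefficient of `x_l` in the `k`-th form), `L_k(v) = ∑ a_{k,l} v_l =
qli ..`. For `s ∈ ℂ` let `v(s)_l = s^l`, so `p_k(s) = L_k(v(s)) = ∑_l a_{k,l} s^l` is the value of a polynomial `p_k ≠ 0`.
For a pair `k ≠ l` such that there is no real `c` with `L_k = c L_l` let `U_{kl} = {s | p_l(s) ≠ 0, Im (p_k(s) conj p_l(s)) ≠ 0}`: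
open; dense, because otherwise there is a ball on which `p_l(s) = 0` or `Im (p_k conj p_l) = 0`; `p_l` has finitely many zeros, so
on a smaller ball `p_l ≠ 0` and `p_k/p_l` is analytic with real values (`Im (p_k/p_l) = Im (p_k conj p_l)/|p_l|²`), hence a
real constant `c` (open mapping theorem, `AnalyticOnNhd.is_constant_or_isOpen`; or `∂` of a real valued holomorphic function),
so the polynomials `p_k` and `c p_l` agree and `L_k = c L_l`. Choose `s` in the finite intersection of these open dense sets and of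
the sets `{p_k ≠ 0}`; `v = v(s)`.
For every `x`: `(qG (f k) x v).det = L_k(v) ≠ 0` (`qE = 1`, the linear part of `β` is `0`). For `k ≠ l`,
`him (qG (f k) x v) t = Im (L_k(v) t + N_k(x))`.
* If `Im (L_k(v) conj L_l(v)) ≠ 0` two solutions `t, t'` of both equations satisfy: `L_k(v) δ`, `L_l(v) δ` real, `δ = t - t'`; if
  `δ ≠ 0` then `Im (L_k(v) conj L_l(v)) |δ|² = 0`, a contradiction. So at most one solution.
* If `L_k = c L_l`, `c` real (as linear forms): `N_k - c N_l` is a constant `d`; if `d` is real this contradicts `hrel`; so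
  `Im d ≠ 0`, and `Im (L_k(v) t + N_k(x)) = c Im (L_l(v) t + N_l(x)) + Im d`, the two imaginary parts cannot both vanish: the
  set is empty.
-/

noncomputable section

namespace Pool.Agent.Lib.MP5e

open Polynomial Topology

private theorem da_quad_fin {a b c : ℝ} (h : a ≠ 0 ∨ c ≠ 0) :
    {t : ℝ | a + t * b + t ^ 2 * c = 0}.Finite := by
  have hP : (Polynomial.C a + Polynomial.C b * X + Polynomial.C c * X ^ 2 : ℝ[X]) ≠ 0 := by
    intro h0
    rcases h with h | h
    · apply h
      have := congrArg (fun p : ℝ[X] => p.coeff 0) h0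
      simpa [coeff_X, coeff_C] using this
    · apply h
      have := congrArg (fun p : ℝ[X] => p.coeff 2) h0
      simpa [coeff_X, coeff_C] using this
  refine (Polynomial.finite_setOfPred_isRoot hP).subset ?_
  intro t ht
  simp only [Set.mem_ofPred_eq, IsRoot.def, eval_add, eval_mul, eval_C, eval_X, eval_pow] at ht ⊢
  linear_combination ht

/-- real quadratic functions -/
private def DaQ {m : ℕ} (q : (Fin m → ℂ) → ℝ) : Prop :=
  ∀ v w : Fin m → ℂ, ∃ b : ℝ, ∀ t : ℝ, q (fun l => v l + (t : ℂ) * w l) = q v + t * b + t ^ 2 * q w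

private theorem da_avoid {m : ℕ} {ι : Type*} (S : Finset ι) (q : ι → (Fin m → ℂ) → ℝ)
    (hq : ∀ i, DaQ (q i)) (hne : ∀ i ∈ S, ∃ v, q i v ≠ 0) : ∃ v, ∀ i ∈ S, q i v ≠ 0 := by
  classical
  induction S using Finset.induction_on with
  | empty => exact ⟨0, fun i hi => absurd hi (Finset.notMem_empty i)⟩
  | insert a S ha ih =>
    obtain ⟨v, hv⟩ := ih fun i hi => hne i (Finset.mem_insert_of_mem hi)
    obtain ⟨w, hw⟩ := hne a (Finset.mem_insert_self a S)
    choose b hb using fun i => hq i v w
    have hfin : (⋃ i ∈ insert a S, {t : ℝ | q i v + t * b i + t ^ 2 * q i w = 0}).Finite := by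
      refine Set.Finite.biUnion (Finset.finite_toSet _) ?_
      intro i hi
      apply da_quad_fin
      rcases Finset.mem_insert.mp hi with h | h
      · right
        rw [h]
        exact hw
      · left
        exact hv i h
    obtain ⟨t, ht⟩ := hfin.infinite_compl.nonempty
    refine ⟨fun l => v l + (t : ℂ) * w l, fun i hi => ?_⟩
    rw [hb i t]
    intro h0
    apply ht
    exact Set.mem_biUnion hi h0

private theorem da_li_add {m : ℕ} {ω : ℂ} (p q : Option (Fin m) → ℚ) (v w : Fin m → ℂ) (t : ℂ) :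
    qli ω p q (fun l => v l + t * w l) = qli ω p q v + t * qli ω p q w := by
  unfold qli
  rw [Finset.mul_sum, ← Finset.sum_add_distrib]
  refine Finset.sum_congr rfl fun l _ => ?_
  ring

private theorem da_li_single {m : ℕ} {ω : ℂ} (p q : Option (Fin m) → ℚ) (l : Fin m) (z : ℂ) :
    qli ω p q (Pi.single l z) = ((p (some l) : ℂ) + (q (some l) : ℂ) * ω) * z := by
  classical
  unfold qli
  rw [Finset.sum_eq_single l]
  · rw [Pi.single_eq_same]
  · intro b _ hb
    rw [Pi.single_eq_of_ne hb, mul_zero]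
  · intro h
    exact absurd (Finset.mem_univ l) h

private theorem da_quad {m : ℕ} {ω ω' : ℂ} (p q p' q' : Option (Fin m) → ℚ) :
    DaQ (fun v : Fin m → ℂ => (qli ω p q v * (starRingEnd ℂ) (qli ω' p' q' v)).im) := by
  intro v w
  refine ⟨(qli ω p q v * (starRingEnd ℂ) (qli ω' p' q' w) +
    qli ω p q w * (starRingEnd ℂ) (qli ω' p' q' v)).im, fun t => ?_⟩
  beta_reduce
  rw [da_li_add, da_li_add]
  simp only [map_add, map_mul, Complex.conj_ofReal, Complex.mul_im, Complex.add_im, Complex.add_re,
    Complex.mul_re, Complex.ofReal_re, Complex.ofReal_im, Complex.conj_re, Complex.conj_im]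
  ring

private theorem da_quad_re {m : ℕ} {ω : ℂ} (p q : Option (Fin m) → ℚ) :
    DaQ (fun v : Fin m → ℂ => Complex.normSq (qli ω p q v)) := by
  intro v w
  refine ⟨2 * (qli ω p q v * (starRingEnd ℂ) (qli ω p q w)).re, fun t => ?_⟩
  beta_reduce
  rw [da_li_add]
  simp only [Complex.normSq_apply, map_add, map_mul, Complex.mul_im, Complex.add_im,
    Complex.add_re, Complex.mul_re, Complex.ofReal_re, Complex.ofReal_im, Complex.conj_re,
    Complex.conj_im]
  ring

/-- if `Im (L_k conj L_l)` vanishes identically then `L_k = c L_l` -/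
private theorem da_prop {m : ℕ} (a a' : Fin m → ℂ) (j : Fin m) (hj : a' j ≠ 0)
    (h : ∀ (s t : ℂ) (i : Fin m), ((s * a i + t * a j) *
      (starRingEnd ℂ) (s * a' i + t * a' j)).im = 0) :
    ∃ c : ℝ, ∀ i, a i = (c : ℂ) * a' i := by
  have hcj : (starRingEnd ℂ) (a' j) ≠ 0 := by rwa [ne_eq, map_eq_zero]
  have h1 : (a j * (starRingEnd ℂ) (a' j)).im = 0 := by
    have := h 0 1 j
    simpa using this
  obtain ⟨c, hc⟩ : ∃ c : ℝ, a j = (c : ℂ) * a' j := by
    refine ⟨(a j / a' j).re, ?_⟩
    have h2 : (a j / a' j).im = 0 := by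
      have e : a j / a' j = (a j * (starRingEnd ℂ) (a' j)) * ((Complex.normSq (a' j) : ℝ) : ℂ)⁻¹ := by
        rw [← Complex.mul_conj]
        field_simp
      rw [e, ← Complex.ofReal_inv, Complex.im_mul_ofReal, h1, zero_mul]
    have h3 : a j / a' j = (((a j / a' j).re : ℝ) : ℂ) := Complex.ext rfl (by simpa using h2)
    rw [← h3, div_mul_cancel₀ _ hj]
  refine ⟨c, fun i => ?_⟩
  have h2 : (a i * (starRingEnd ℂ) (a' i)).im = 0 := by
    have := h 1 0 i
    simpa using this
  -- the mixed terms
  set A : ℂ := a i * (starRingEnd ℂ) (a' j) with hA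
  set B : ℂ := a j * (starRingEnd ℂ) (a' i) with hB
  have h3 : ∀ s : ℂ, (s * A + (starRingEnd ℂ) s * B).im = 0 := by
    intro s
    have h4 := h s 1 i
    have e : (s * a i + 1 * a j) * (starRingEnd ℂ) (s * a' i + 1 * a' j) =
        ((Complex.normSq s : ℝ) : ℂ) * (a i * (starRingEnd ℂ) (a' i)) +
          a j * (starRingEnd ℂ) (a' j) + (s * A + (starRingEnd ℂ) s * B) := by
      rw [← Complex.mul_conj, hA, hB]
      simp only [map_add, map_mul, map_one]
      ring
    rw [e, Complex.add_im, Complex.add_im, Complex.im_ofReal_mul, h2, h1] at h4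
    simpa using h4
  have h5 : A = (starRingEnd ℂ) B := by
    have e1 := h3 1
    have e2 := h3 Complex.I
    simp only [one_mul, map_one, Complex.add_im, Complex.conj_I, Complex.mul_im, Complex.I_re,
      Complex.I_im, Complex.neg_re, Complex.neg_im] at e1 e2
    apply Complex.ext
    · rw [Complex.conj_re]; linarith
    · rw [Complex.conj_im]; linarith
  have h6 : A = (c : ℂ) * a' i * (starRingEnd ℂ) (a' j) := by
    rw [h5, hB, hc]
    simp only [map_mul, Complex.conj_conj, Complex.conj_ofReal]
    ring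
  rw [hA] at h6
  exact mul_right_cancel₀ hcj h6

theorem qdir_aff {m n : ℕ} (f : Fin n → QF m)
    (hr : ∀ k o, (f k).r o = if o = none then 1 else 0) (hs : ∀ k o, (f k).s o = 0)
    (hnc : ∀ k, ∃ l, ((f k).p (some l) : ℂ) + ((f k).q (some l) : ℂ) * qom (f k).D ≠ 0)
    (hrel : ∀ k l, k ≠ l → ¬ ∃ c d : ℝ, ∀ x : Fin m → ℂ,
      qN (f k) x = (c : ℂ) * qN (f l) x + (d : ℂ)) (w : Fin m → ℂ) : QDir f w := by
  classical
  set L : Fin n → (Fin m → ℂ) → ℂ := fun k v => qli (qom (f k).D) (f k).p (f k).q v with hL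
  set a : Fin n → Fin m → ℂ := fun k l => ((f k).p (some l) : ℂ) +
    ((f k).q (some l) : ℂ) * qom (f k).D with ha
  set b : Fin n → ℂ := fun k => ((f k).p none : ℂ) + ((f k).q none : ℂ) * qom (f k).D with hb
  have hN : ∀ k x, qN (f k) x = L k x + b k := fun k x => rfl
  have hLs : ∀ k l z, L k (Pi.single l z) = a k l * z := fun k l z => da_li_single _ _ l z
  have hLadd : ∀ k v w (t : ℂ), L k (fun l => v l + t * w l) = L k v + t * L k w :=
    fun k v w t => da_li_add _ _ v w t
  have hLsum : ∀ k v, L k v = ∑ l, a k l * v l := fun k v => rfl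
  -- the pairs
  set P : Fin n → Fin n → Prop := fun k l => ∃ c : ℝ, ∀ i, a k i = (c : ℂ) * a l i with hP
  have hpair : ∀ k l, ¬ P k l → ∃ v, (L k v * (starRingEnd ℂ) (L l v)).im ≠ 0 := by
    intro k l hkl
    by_contra hcon
    push Not at hcon
    apply hkl
    obtain ⟨j, hj⟩ := hnc l
    refine da_prop (a k) (a l) j hj ?_
    intro s t i
    have h1 := hcon (fun r => (Pi.single i s : Fin m → ℂ) r + t * (Pi.single j 1 : Fin m → ℂ) r)
    rw [hLadd, hLadd, hLs, hLs, hLs, hLs] at h1
    rw [← h1]
    congr 2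
    · ring
    · congr 1
      ring
  obtain ⟨v, hv⟩ := da_avoid (m := m) (Finset.univ : Finset (Fin n ⊕ {p : Fin n × Fin n // ¬ P p.1 p.2}))
    (Sum.elim (fun k v => Complex.normSq (L k v))
      (fun p v => (L p.1.1 v * (starRingEnd ℂ) (L p.1.2 v)).im))
    (by
      rintro (k | p)
      · exact da_quad_re _ _
      · exact da_quad _ _ _ _)
    (by
      rintro (k | p) _
      · obtain ⟨l, hl⟩ := hnc k
        refine ⟨Pi.single l 1, ?_⟩
        simp only [Sum.elim_inl]
        rw [hLs, mul_one]
        exact fun h => hl (Complex.normSq_eq_zero.mp h)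
      · exact hpair p.1.1 p.1.2 p.2)
  have hv1 : ∀ k, L k v ≠ 0 := by
    intro k h0
    have := hv (Sum.inl k) (Finset.mem_univ _)
    simp only [Sum.elim_inl] at this
    rw [h0, map_zero] at this
    exact this rfl
  have hv2 : ∀ k l, ¬ P k l → (L k v * (starRingEnd ℂ) (L l v)).im ≠ 0 := by
    intro k l hkl
    exact hv (Sum.inr ⟨(k, l), hkl⟩) (Finset.mem_univ _)
  have hE : ∀ k x, qE (f k) x = 1 := by
    intro k x
    simp [qE, qaf, hr, hs]
  have hli : ∀ k, qli (qom (f k).D) (f k).r (f k).s v = 0 := by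
    intro k
    simp [qli, hr, hs]
  have hhim : ∀ k x t, him (qG (f k) x v) t = (L k v * t + qN (f k) x).im := by
    intro k x t
    simp only [him, qG, Matrix.of_apply, Matrix.cons_val', Matrix.cons_val_zero,
      Matrix.cons_val_one, Matrix.cons_val_fin_one, hE, hli, zero_mul, zero_add, map_one, mul_one]
    rfl
  refine ⟨v, Filter.Eventually.of_forall fun x => ⟨fun k => ?_, fun k l hkl => ?_⟩⟩
  · have : (qG (f k) x v).det = L k v := by
      simp only [Matrix.det_fin_two, qG, Matrix.of_apply, Matrix.cons_val', Matrix.cons_val_zero,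
        Matrix.cons_val_one, Matrix.cons_val_fin_one, hE, hli, mul_one, mul_zero, sub_zero]
      rfl
    rw [this]
    exact hv1 k
  · by_cases hPkl : P k l
    · -- empty
      obtain ⟨c, hc⟩ := hPkl
      have hLL : ∀ y, L k y = (c : ℂ) * L l y := by
        intro y
        rw [hLsum, hLsum, Finset.mul_sum]
        refine Finset.sum_congr rfl fun i _ => ?_
        rw [hc i]
        ring
      have hd : (b k - (c : ℂ) * b l).im ≠ 0 := by
        intro h0
        apply hrel k l hkl
        refine ⟨c, (b k - (c : ℂ) * b l).re, fun y => ?_⟩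
        have h1 : (((b k - (c : ℂ) * b l).re : ℝ) : ℂ) = b k - (c : ℂ) * b l :=
          Complex.ext rfl (by simpa using h0.symm)
        rw [h1, hN, hN, hLL]
        ring
      have hempty : {t : ℂ | him (qG (f k) x v) t = 0 ∧ him (qG (f l) x v) t = 0} = ∅ := by
        ext t
        simp only [Set.mem_ofPred_eq, Set.mem_empty_iff_false, iff_false, not_and]
        intro h1 h2
        rw [hhim, hN] at h1 h2
        apply hd
        have e : L k v * t + (L k x + b k) = (c : ℂ) * (L l v * t + (L l x + b l)) +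
            (b k - (c : ℂ) * b l) := by
          rw [hLL v, hLL x]
          ring
        rw [e, Complex.add_im, Complex.im_ofReal_mul, h2, mul_zero, zero_add] at h1
        exact h1
      rw [hempty]
      exact Set.finite_empty
    · have h1 := hv2 k l hPkl
      apply Set.Subsingleton.finite
      intro t ht t' ht'
      obtain ⟨e1, e2⟩ := ht
      obtain ⟨e3, e4⟩ := ht'
      rw [hhim] at e1 e2 e3 e4
      by_contra hne
      have hδ : t - t' ≠ 0 := sub_ne_zero.mpr hne
      have f1 : (L k v * (t - t')).im = 0 := by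
        have e : L k v * (t - t') = (L k v * t + qN (f k) x) - (L k v * t' + qN (f k) x) := by ring
        rw [e, Complex.sub_im, e1, e3, sub_zero]
      have f2 : (L l v * (t - t')).im = 0 := by
        have e : L l v * (t - t') = (L l v * t + qN (f l) x) - (L l v * t' + qN (f l) x) := by ring
        rw [e, Complex.sub_im, e2, e4, sub_zero]
      have f3 : ((L k v * (t - t')) * (starRingEnd ℂ) (L l v * (t - t'))).im = 0 := by
        rw [Complex.mul_im, Complex.conj_re, Complex.conj_im, f1, f2]
        ring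
      have f4 : (L k v * (t - t')) * (starRingEnd ℂ) (L l v * (t - t')) =
          ((Complex.normSq (t - t') : ℝ) : ℂ) * (L k v * (starRingEnd ℂ) (L l v)) := by
        rw [← Complex.mul_conj, map_mul]
        ring
      rw [f4, Complex.im_ofReal_mul] at f3
      rcases mul_eq_zero.mp f3 with h | h
      · exact hδ (Complex.normSq_eq_zero.mp h)
      · exact h1 h

end Pool.Agent.Lib.MP5e
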