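import Pool.Agent.Lib.MP_5e64e7_nt.QRel

set_option autoImplicit false

/-!
# Q.DIRG : a direction in the general case

`z_k = α_k/β_k`, non-constant, no two of them related by a real Moebius transformation (as functions of `x`). Then there is a
direction `v` such that for all `x` near `w` the real loci of `t ↦ z_k(x + t v)` are different. At `w` the real locus of
`t ↦ z(w + t v)` is determined by `t(v)` and `|u(v)|`, where `u = (a - ζ b)/(y β(w))`, `t = (a - conj ζ b)/(y β(w))`, `a, b` are the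
linear parts of `α, β` and `ζ = z(w)`, `y = Im ζ`; and if `t_k = t_l` and `|u_k| = |u_l|` identically then `z_k`, `z_l` are related.
-/

noncomputable section

namespace Pool.Agent.Lib.MP5e

open Polynomial Topology ComplexConjugate

private theorem dg_quad_fin {a b c : ℝ} (h : a ≠ 0 ∨ c ≠ 0) :
    {t : ℝ | a + t * b + t ^ 2 * c = 0}.Finite := by
  have hP : (Polynomial.C a + Polynomial.C b * X + Polynomial.C c * X ^ 2 : ℝ[X]) ≠ 0 := by
    intro h0
    rcases h with h | h
    · apply h
      have := congrArg (fun p : ℝ[X] => p.coeff 0) h0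
      simpa [coeff_X, coeff_C] using this
    · apply h
      have := congrArg (fun p : ℝ[X] => p.coeff 2) h0
      simpa [coeff_X, coeff_C] using this
  refine (Polynomial.finite_setOfPred_isRoot hP).subset ?_
  intro t ht
  simp only [Set.mem_ofPred_eq, IsRoot.def, eval_add, eval_mul, eval_C, eval_X, eval_pow] at ht ⊢
  linear_combination ht

/-- real quadratic functions -/
private def DgQ {m : ℕ} (q : (Fin m → ℂ) → ℝ) : Prop :=
  ∀ v w : Fin m → ℂ, ∃ b : ℝ, ∀ t : ℝ, q (fun l => v l + (t : ℂ) * w l) = q v + t * b + t ^ 2 * q w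

private theorem dg_avoid {m : ℕ} {ι : Type*} (S : Finset ι) (q : ι → (Fin m → ℂ) → ℝ)
    (hq : ∀ i, DgQ (q i)) (hne : ∀ i ∈ S, ∃ v, q i v ≠ 0) : ∃ v, ∀ i ∈ S, q i v ≠ 0 := by
  classical
  induction S using Finset.induction_on with
  | empty => exact ⟨0, fun i hi => absurd hi (Finset.notMem_empty i)⟩
  | insert a S ha ih =>
    obtain ⟨v, hv⟩ := ih fun i hi => hne i (Finset.mem_insert_of_mem hi)
    obtain ⟨w, hw⟩ := hne a (Finset.mem_insert_self a S)
    choose b hb using fun i => hq i v w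
    have hfin : (⋃ i ∈ insert a S, {t : ℝ | q i v + t * b i + t ^ 2 * q i w = 0}).Finite := by
      refine Set.Finite.biUnion (Finset.finite_toSet _) ?_
      intro i hi
      apply dg_quad_fin
      rcases Finset.mem_insert.mp hi with h | h
      · right
        rw [h]
        exact hw
      · left
        exact hv i h
    obtain ⟨t, ht⟩ := hfin.infinite_compl.nonempty
    refine ⟨fun l => v l + (t : ℂ) * w l, fun i hi => ?_⟩
    rw [hb i t]
    intro h0
    apply ht
    exact Set.mem_biUnion hi h0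

/-- the linear form with coefficients `c` -/
private def lf {m : ℕ} (c v : Fin m → ℂ) : ℂ := ∑ i, c i * v i

private theorem lf_add {m : ℕ} (c v w : Fin m → ℂ) (t : ℂ) :
    lf c (fun l => v l + t * w l) = lf c v + t * lf c w := by
  unfold lf
  rw [Finset.mul_sum, ← Finset.sum_add_distrib]
  refine Finset.sum_congr rfl fun l _ => ?_
  ring

private theorem lf_single {m : ℕ} (c : Fin m → ℂ) (l : Fin m) (z : ℂ) :
    lf c (Pi.single l z) = c l * z := by
  classical
  unfold lf
  rw [Finset.sum_eq_single l]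
  · rw [Pi.single_eq_same]
  · intro b _ hb
    rw [Pi.single_eq_of_ne hb, mul_zero]
  · intro h
    exact absurd (Finset.mem_univ l) h

private theorem dg_quad {m : ℕ} (c : Fin m → ℂ) :
    DgQ (fun v : Fin m → ℂ => Complex.normSq (lf c v)) := by
  intro v w
  refine ⟨2 * (lf c v * conj (lf c w)).re, fun t => ?_⟩
  beta_reduce
  rw [lf_add]
  simp only [Complex.normSq_apply, Complex.mul_im, Complex.add_im,
    Complex.add_re, Complex.mul_re, Complex.ofReal_re, Complex.ofReal_im, Complex.conj_re,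
    Complex.conj_im]
  ring

private theorem dg_sub {m : ℕ} {q q' : (Fin m → ℂ) → ℝ} (h : DgQ q) (h' : DgQ q') :
    DgQ (fun v => q v - q' v) := by
  intro v w
  obtain ⟨b, hb⟩ := h v w
  obtain ⟨b', hb'⟩ := h' v w
  refine ⟨b - b', fun t => ?_⟩
  beta_reduce
  rw [hb, hb']
  ring

/-- linear forms of the same absolute value are proportional -/
private theorem dg_prop {m : ℕ} (c c' : Fin m → ℂ) (j : Fin m) (hj : c j ≠ 0)
    (h : ∀ v, Complex.normSq (lf c v) = Complex.normSq (lf c' v)) :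
    ∃ μ : ℂ, Complex.normSq μ = 1 ∧ ∀ i, c' i = μ * c i := by
  have h1 : Complex.normSq (c j) = Complex.normSq (c' j) := by
    have := h (Pi.single j 1)
    rwa [lf_single, lf_single, mul_one, mul_one] at this
  have hn : Complex.normSq (c j) ≠ 0 := by
    rw [ne_eq, Complex.normSq_eq_zero]
    exact hj
  have hj' : c' j ≠ 0 := by
    rw [h1] at hn
    rwa [ne_eq, Complex.normSq_eq_zero] at hn
  -- polarisation
  have h2 : ∀ i, c i * conj (c j) = c' i * conj (c' j) := by
    intro i
    have hi : Complex.normSq (c i) = Complex.normSq (c' i) := by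
      have := h (Pi.single i 1)
      rwa [lf_single, lf_single, mul_one, mul_one] at this
    have hs : ∀ s : ℂ, Complex.normSq (c j + s * c i) = Complex.normSq (c' j + s * c' i) := by
      intro s
      have := h (fun l => (Pi.single j 1 : Fin m → ℂ) l + s * (Pi.single i 1 : Fin m → ℂ) l)
      rwa [lf_add, lf_add, lf_single, lf_single, lf_single, lf_single, mul_one, mul_one, mul_one,
        mul_one] at this
    have e1 := hs 1
    have e2 := hs Complex.I
    simp only [Complex.normSq_apply, Complex.add_re, Complex.add_im, Complex.mul_re,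
      Complex.mul_im, Complex.I_re, Complex.I_im, Complex.one_re, Complex.one_im] at e1 e2 h1 hi
    apply Complex.ext
    · simp only [Complex.mul_re, Complex.conj_re, Complex.conj_im]
      linarith
    · simp only [Complex.mul_im, Complex.conj_re, Complex.conj_im]
      linarith
  have hcj : conj (c' j) ≠ 0 := by rwa [ne_eq, map_eq_zero]
  have hcj0 : conj (c j) ≠ 0 := by rwa [ne_eq, map_eq_zero]
  refine ⟨conj (c j) / conj (c' j), ?_, ?_⟩
  · rw [Complex.normSq_div, Complex.normSq_conj, Complex.normSq_conj, ← h1]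
    exact div_self hn
  · intro i
    rw [div_mul_eq_mul_div, eq_div_iff hcj, ← h2 i]
    ring

/-- what the real locus determines -/
private theorem dg_norm (g g' : Matrix (Fin 2) (Fin 2) ℂ) (hdet : g.det ≠ 0)
    (hdet' : g'.det ≠ 0) (h : qRR g g') (ζ ζ' : ℂ) (hE : g 1 1 ≠ 0) (hE' : g' 1 1 ≠ 0)
    (hζ : g 0 1 = ζ * g 1 1) (hζ' : g' 0 1 = ζ' * g' 1 1) (hy : 0 < ζ.im) (hy' : 0 < ζ'.im) :
    (g 0 0 - conj ζ * g 1 0) / (ζ.im * g 1 1) = (g' 0 0 - conj ζ' * g' 1 0) / (ζ'.im * g' 1 1) ∧
      Complex.normSq ((g 0 0 - ζ * g 1 0) / (ζ.im * g 1 1)) =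
        Complex.normSq ((g' 0 0 - ζ' * g' 1 0) / (ζ'.im * g' 1 1)) := by
  obtain ⟨l, a, b, c, d, hl, hΔ, k1, k2, k3, k4⟩ := qrr_real g g' hdet hdet' h
  rw [hζ, hζ'] at k2
  rw [hζ] at k4
  generalize g 0 0 = A at *
  generalize g 1 0 = C at *
  generalize g 1 1 = E at *
  generalize g' 0 0 = A' at *
  generalize g' 1 0 = C' at *
  generalize g' 1 1 = E' at *
  obtain ⟨δ, hδ⟩ : ∃ δ : ℂ, δ = c * ζ + d := ⟨_, rfl⟩
  have k4' : l * E' = E * δ := by rw [k4, hδ]; ring
  have hδ0 : δ ≠ 0 := by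
    intro h0
    rw [h0, mul_zero] at k4'
    exact (mul_ne_zero hl hE') k4'
  have hδc : conj δ = c * conj ζ + d := by
    rw [hδ, map_add, map_mul, Complex.conj_ofReal, Complex.conj_ofReal]
  have hδc0 : conj δ ≠ 0 := by rwa [ne_eq, map_eq_zero]
  have k5 : ζ' * δ = a * ζ + b := by
    have h1 : E * (ζ' * δ) = E * (a * ζ + b) := by
      calc E * (ζ' * δ) = ζ' * (l * E') := by rw [k4']; ring
        _ = l * (ζ' * E') := by ring
        _ = E * (a * ζ + b) := by rw [k2]; ring
    exact mul_left_cancel₀ hE h1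
  have k6 : conj ζ' * conj δ = a * conj ζ + b := by
    rw [← map_mul, k5, map_add, map_mul, Complex.conj_ofReal, Complex.conj_ofReal]
  have him : ∀ z : ℂ, z - conj z = 2 * Complex.I * (z.im : ℂ) := by
    intro z
    rw [Complex.sub_conj]
    push_cast
    ring
  have k7 : (ζ'.im : ℂ) * (δ * conj δ) = ((a : ℂ) * d - b * c) * ζ.im := by
    have h1 : (ζ' - conj ζ') * (δ * conj δ) = ((a : ℂ) * d - b * c) * (ζ - conj ζ) := by
      have e1 : (ζ' - conj ζ') * (δ * conj δ) =
          (ζ' * δ) * conj δ - (conj ζ' * conj δ) * δ := by ring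
      rw [e1, k5, k6, hδc, hδ]
      ring
    rw [him, him] at h1
    have h2 : (2 * Complex.I) * ((ζ'.im : ℂ) * (δ * conj δ)) =
        (2 * Complex.I) * (((a : ℂ) * d - b * c) * ζ.im) := by linear_combination h1
    exact mul_left_cancel₀ (mul_ne_zero two_ne_zero Complex.I_ne_zero) h2
  have hyc : (ζ.im : ℂ) ≠ 0 := by exact_mod_cast hy.ne'
  have hyc' : (ζ'.im : ℂ) ≠ 0 := by exact_mod_cast hy'.ne'
  have m1 : l * conj δ * (A' - conj ζ' * C') = ((a : ℂ) * d - b * c) * (A - conj ζ * C) := by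
    have e1 : l * conj δ * (A' - conj ζ' * C') =
        conj δ * (l * A') - (conj ζ' * conj δ) * (l * C') := by ring
    rw [e1, k1, k3, k6, hδc]
    ring
  have m2 : l * δ * (A' - ζ' * C') = ((a : ℂ) * d - b * c) * (A - ζ * C) := by
    have e1 : l * δ * (A' - ζ' * C') = δ * (l * A') - (ζ' * δ) * (l * C') := by ring
    rw [e1, k1, k3, k5, hδ]
    ring
  constructor
  · rw [div_eq_div_iff (mul_ne_zero hyc hE) (mul_ne_zero hyc' hE')]
    have h1 : (l * conj δ) * ((A - conj ζ * C) * (ζ'.im * E')) =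
        (l * conj δ) * ((A' - conj ζ' * C') * (ζ.im * E)) := by
      calc (l * conj δ) * ((A - conj ζ * C) * (ζ'.im * E'))
          = (A - conj ζ * C) * ζ'.im * conj δ * (l * E') := by ring
        _ = (A - conj ζ * C) * E * (ζ'.im * (δ * conj δ)) := by rw [k4']; ring
        _ = (((a : ℂ) * d - b * c) * (A - conj ζ * C)) * (ζ.im * E) := by rw [k7]; ring
        _ = _ := by rw [← m1]; ring
    exact mul_left_cancel₀ (mul_ne_zero hl hδc0) h1
  · have h1 : (A' - ζ' * C') / (ζ'.im * E') * δ = (A - ζ * C) / (ζ.im * E) * conj δ := by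
      rw [div_mul_eq_mul_div, div_mul_eq_mul_div,
        div_eq_div_iff (mul_ne_zero hyc' hE') (mul_ne_zero hyc hE)]
      have h2 : l * ((A' - ζ' * C') * δ * (ζ.im * E)) =
          l * ((A - ζ * C) * conj δ * (ζ'.im * E')) := by
        calc l * ((A' - ζ' * C') * δ * (ζ.im * E))
            = (l * δ * (A' - ζ' * C')) * (ζ.im * E) := by ring
          _ = (A - ζ * C) * E * (((a : ℂ) * d - b * c) * ζ.im) := by rw [m2]; ring
          _ = (A - ζ * C) * conj δ * ζ'.im * (E * δ) := by rw [← k7]; ring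
          _ = _ := by rw [← k4']; ring
      exact mul_left_cancel₀ hl h2
    have h2 := congrArg Complex.normSq h1
    rw [Complex.normSq_mul, Complex.normSq_mul, Complex.normSq_conj] at h2
    have h3 : Complex.normSq δ ≠ 0 := by rwa [ne_eq, Complex.normSq_eq_zero]
    exact (mul_right_cancel₀ h3 h2).symm

/-- the real Moebius relation -/
private theorem dg_rot (ζ ζ' μ Ew Ew' : ℂ) (hy : 0 < ζ.im) (hy' : 0 < ζ'.im) (hE : Ew ≠ 0)
    (hE' : Ew' ≠ 0) (hμ : Complex.normSq μ = 1) :
    ∃ a b c d : ℝ, a * d - b * c ≠ 0 ∧ ∀ N E N' E' U T : ℂ,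
      N - ζ * E = ζ.im * Ew * U → N - conj ζ * E = ζ.im * Ew * T →
      N' - ζ' * E' = ζ'.im * Ew' * (μ * U) → N' - conj ζ' * E' = ζ'.im * Ew' * T →
      N' * (c * N + d * E) = E' * (a * N + b * E) := by
  obtain ⟨ν, hν⟩ := IsAlgClosed.exists_pow_nat_eq μ (n := 2) (by norm_num)
  have hν1 : Complex.normSq ν = 1 := by
    have h1 : Complex.normSq ν ^ 2 = 1 := by rw [← map_pow, hν, hμ]
    have h2 : 0 ≤ Complex.normSq ν := Complex.normSq_nonneg ν
    nlinarith
  obtain ⟨C, hC⟩ : ∃ C : ℝ, C = ν.re := ⟨_, rfl⟩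
  obtain ⟨S, hS⟩ : ∃ S : ℝ, S = ν.im := ⟨_, rfl⟩
  have hCS : C * C + S * S = 1 := by rw [hC, hS, ← hν1, Complex.normSq_apply]
  have hνe : ν = (C : ℂ) + (S : ℂ) * Complex.I := by
    rw [hC, hS]
    exact (Complex.re_add_im ν).symm
  obtain ⟨x0, hx0⟩ : ∃ x0 : ℝ, x0 = ζ.re := ⟨_, rfl⟩
  obtain ⟨y, hyy⟩ : ∃ y : ℝ, y = ζ.im := ⟨_, rfl⟩
  obtain ⟨x0', hx0'⟩ : ∃ x0 : ℝ, x0 = ζ'.re := ⟨_, rfl⟩
  obtain ⟨y', hyy'⟩ : ∃ y : ℝ, y = ζ'.im := ⟨_, rfl⟩
  have hζ : ζ = (x0 : ℂ) + (y : ℂ) * Complex.I := by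
    rw [hx0, hyy]; exact (Complex.re_add_im ζ).symm
  have hζ' : ζ' = (x0' : ℂ) + (y' : ℂ) * Complex.I := by
    rw [hx0', hyy']; exact (Complex.re_add_im ζ').symm
  have hζc : conj ζ = (x0 : ℂ) - (y : ℂ) * Complex.I := by
    rw [hζ, map_add, map_mul, Complex.conj_ofReal, Complex.conj_ofReal, Complex.conj_I]
    ring
  have hζc' : conj ζ' = (x0' : ℂ) - (y' : ℂ) * Complex.I := by
    rw [hζ', map_add, map_mul, Complex.conj_ofReal, Complex.conj_ofReal, Complex.conj_I]
    ring
  rw [← hyy] at hy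
  rw [← hyy'] at hy'
  refine ⟨x0' * (-S) + y' * C, x0' * (S * x0 + C * y) + y' * (S * y - C * x0), -S,
    S * x0 + C * y, ?_, ?_⟩
  · have e : (x0' * (-S) + y' * C) * (S * x0 + C * y) -
        (x0' * (S * x0 + C * y) + y' * (S * y - C * x0)) * (-S) = y' * y := by
      linear_combination (y' * y) * hCS
    rw [e]
    exact (mul_pos hy' hy).ne'
  · intro N E N' E' U T h1 h2 h3 h4
    rw [← hyy] at h1 h2
    rw [← hyy'] at h3 h4
    rw [hζ] at h1
    rw [hζc] at h2
    rw [hζ'] at h3
    rw [hζc'] at h4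
    have hI := Complex.I_sq
    have hCSc : (C : ℂ) * C + (S : ℂ) * S = 1 := by exact_mod_cast hCS
    have hyc : (y : ℂ) ≠ 0 := by exact_mod_cast hy.ne'
    have hyc' : (y' : ℂ) ≠ 0 := by exact_mod_cast hy'.ne'
    have e1 : 2 * Complex.I * E = Ew * (T - U) := by
      apply mul_left_cancel₀ hyc
      linear_combination h2 - h1
    have e2 : 2 * Complex.I * E' = Ew' * (T - μ * U) := by
      apply mul_left_cancel₀ hyc'
      linear_combination h4 - h3
    have hμe : μ = 1 + 2 * Complex.I * S * ν := by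
      rw [← hν, hνe]
      linear_combination hCSc - (S : ℂ) ^ 2 * hI
    obtain ⟨G, hG⟩ : ∃ G : ℂ, G = -(S : ℂ) * N + ((S : ℂ) * x0 + C * y) * E := ⟨_, rfl⟩
    obtain ⟨H, hH⟩ : ∃ H : ℂ, H = (C : ℂ) * N + ((S : ℂ) * y - C * x0) * E := ⟨_, rfl⟩
    have hμe2 : μ = 2 * C * ν - 1 := by
      rw [← hν, hνe]
      linear_combination -hCSc + (S : ℂ) ^ 2 * hI
    have g1 : G = y * (C - S * Complex.I) * E - S * y * Ew * U := by
      rw [hG]
      linear_combination (-(S : ℂ)) * h1
    have g2 : ν * (C - S * Complex.I) = 1 := by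
      rw [hνe]
      linear_combination hCSc - (S : ℂ) ^ 2 * hI
    have g3 : H = y * Complex.I * (C - S * Complex.I) * E + C * y * Ew * U := by
      rw [hH]
      linear_combination (C : ℂ) * h1 + ((S : ℂ) * y * E) * hI
    have f1 : 2 * Complex.I * (ν * G) = y * Ew * (T - μ * U) := by
      linear_combination (2 * Complex.I * ν) * g1 + (2 * Complex.I * y * E) * g2 + (y : ℂ) * e1 +
        ((y : ℂ) * Ew * U) * hμe
    have f2 : 2 * (ν * H) = y * Ew * (T + μ * U) := by
      linear_combination (2 * ν) * g3 + (2 * Complex.I * y * E) * g2 + (y : ℂ) * e1 -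
        ((y : ℂ) * Ew * U) * hμe2
    have f3 : 2 * (N' - x0' * E') = y' * Ew' * (T + μ * U) := by
      linear_combination h3 + h4
    have hν0 : ν ≠ 0 := by
      intro h0
      rw [h0, map_zero] at hν1
      exact zero_ne_one hν1
    have f4 : (2 * Complex.I * ν * 2) * ((N' - x0' * E') * G) =
        (2 * Complex.I * ν * 2) * (y' * E' * H) := by
      calc (2 * Complex.I * ν * 2) * ((N' - x0' * E') * G)
          = (2 * (N' - x0' * E')) * (2 * Complex.I * (ν * G)) := by ring
        _ = (2 * Complex.I * E') * (2 * (ν * H)) * y' := by rw [f3, f1, e2, f2]; ring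
        _ = _ := by ring
    have f5 := mul_left_cancel₀ (mul_ne_zero (mul_ne_zero (mul_ne_zero two_ne_zero
      Complex.I_ne_zero) hν0) two_ne_zero) f4
    push_cast
    rw [hG, hH] at f5
    linear_combination f5

theorem qdir_gen {m n : ℕ} (f : Fin n → QF m) (w : Fin m → ℂ)
    (hpos : ∀ k, 0 < (qz (f k) w).im) (hnc : ∀ k, ¬ ∃ c : ℂ, ∀ x, qN (f k) x = c * qE (f k) x)
    (hrel : ∀ k l, k ≠ l → ¬ ∃ a b c d : ℝ, a * d - b * c ≠ 0 ∧ ∀ x : Fin m → ℂ,
      qN (f l) x * (c * qN (f k) x + d * qE (f k) x) =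
        qE (f l) x * (a * qN (f k) x + b * qE (f k) x)) : QDir f w := by
  classical
  obtain ⟨ζ, hζ⟩ : ∃ ζ : Fin n → ℂ, ζ = fun k => qz (f k) w := ⟨_, rfl⟩
  obtain ⟨Ew, hEw⟩ : ∃ Ew : Fin n → ℂ, Ew = fun k => qE (f k) w := ⟨_, rfl⟩
  have hy : ∀ k, 0 < (ζ k).im := fun k => by rw [hζ]; exact hpos k
  have hE0 : ∀ k, Ew k ≠ 0 := by
    intro k h0
    have h1 := hpos k
    unfold qz at h1
    rw [hEw] at h0
    change qE (f k) w = 0 at h0
    rw [h0, div_zero, Complex.zero_im] at h1
    exact lt_irrefl _ h1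
  have hNw : ∀ k, qN (f k) w = ζ k * Ew k := by
    intro k
    have h0 := hE0 k
    rw [hEw] at h0
    rw [hζ, hEw]
    change qN (f k) w = qz (f k) w * qE (f k) w
    unfold qz
    rw [div_mul_cancel₀ _ h0]
  obtain ⟨A, hA⟩ : ∃ A : Fin n → Fin m → ℂ, A = fun k i =>
    ((f k).p (some i) : ℂ) + ((f k).q (some i) : ℂ) * qom (f k).D := ⟨_, rfl⟩
  obtain ⟨B, hB⟩ : ∃ B : Fin n → Fin m → ℂ, B = fun k i =>
    ((f k).r (some i) : ℂ) + ((f k).s (some i) : ℂ) * qom (f k).D := ⟨_, rfl⟩
  have hliA : ∀ k v, qli (qom (f k).D) (f k).p (f k).q v = lf (A k) v := by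
    intro k v; rw [hA]; rfl
  have hliB : ∀ k v, qli (qom (f k).D) (f k).r (f k).s v = lf (B k) v := by
    intro k v; rw [hB]; rfl
  have hNx : ∀ k x, qN (f k) x = ζ k * Ew k + lf (A k) (fun i => x i - w i) := by
    intro k x
    rw [← hNw k]
    have e1 : ∀ u : Fin m → ℂ, qN (f k) u = lf (A k) u +
        (((f k).p none : ℂ) + ((f k).q none : ℂ) * qom (f k).D) := by
      intro u; rw [hA]; rfl
    rw [e1, e1]
    have e2 : lf (A k) (fun i => x i - w i) = lf (A k) x - lf (A k) w := by
      unfold lf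
      rw [← Finset.sum_sub_distrib]
      exact Finset.sum_congr rfl fun i _ => by ring
    rw [e2]
    ring
  have hEx : ∀ k x, qE (f k) x = Ew k + lf (B k) (fun i => x i - w i) := by
    intro k x
    rw [hEw]
    change qE (f k) x = qE (f k) w + _
    have e1 : ∀ u : Fin m → ℂ, qE (f k) u = lf (B k) u +
        (((f k).r none : ℂ) + ((f k).s none : ℂ) * qom (f k).D) := by
      intro u; rw [hB]; rfl
    rw [e1, e1]
    have e2 : lf (B k) (fun i => x i - w i) = lf (B k) x - lf (B k) w := by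
      unfold lf
      rw [← Finset.sum_sub_distrib]
      exact Finset.sum_congr rfl fun i _ => by ring
    rw [e2]
    ring
  -- the forms `u`, `t`
  have hyE : ∀ k, ((ζ k).im : ℂ) * Ew k ≠ 0 := fun k =>
    mul_ne_zero (by exact_mod_cast (hy k).ne') (hE0 k)
  obtain ⟨cu, hcu⟩ : ∃ cu : Fin n → Fin m → ℂ, cu = fun k i =>
    (A k i - ζ k * B k i) / ((ζ k).im * Ew k) := ⟨_, rfl⟩
  obtain ⟨ct, hct⟩ : ∃ ct : Fin n → Fin m → ℂ, ct = fun k i =>
    (A k i - conj (ζ k) * B k i) / ((ζ k).im * Ew k) := ⟨_, rfl⟩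
  have hlfu : ∀ k v, lf (cu k) v = (lf (A k) v - ζ k * lf (B k) v) / ((ζ k).im * Ew k) := by
    intro k v
    rw [hcu]
    unfold lf
    rw [Finset.mul_sum, ← Finset.sum_sub_distrib, Finset.sum_div]
    exact Finset.sum_congr rfl fun i _ => by ring
  have hlft : ∀ k v, lf (ct k) v = (lf (A k) v - conj (ζ k) * lf (B k) v) /
      ((ζ k).im * Ew k) := by
    intro k v
    rw [hct]
    unfold lf
    rw [Finset.mul_sum, ← Finset.sum_sub_distrib, Finset.sum_div]
    exact Finset.sum_congr rfl fun i _ => by ring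
  have hcu0 : ∀ k, ∃ j, cu k j ≠ 0 := by
    intro k
    by_contra hcon
    push Not at hcon
    apply hnc k
    refine ⟨ζ k, fun x => ?_⟩
    have h1 : lf (cu k) (fun i => x i - w i) = 0 := by
      unfold lf
      exact Finset.sum_eq_zero fun i _ => by rw [hcon i, zero_mul]
    rw [hlfu, div_eq_zero_iff] at h1
    have h2 := h1.resolve_right (hyE k)
    rw [hNx, hEx]
    linear_combination h2
  have hpair : ∀ k l, k ≠ l → ct k = ct l →
      ∃ v, Complex.normSq (lf (cu k) v) - Complex.normSq (lf (cu l) v) ≠ 0 := by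
    intro k l hkl htt
    by_contra hcon
    push Not at hcon
    obtain ⟨j, hj⟩ := hcu0 k
    obtain ⟨μ, hμ1, hμ2⟩ := dg_prop (cu k) (cu l) j hj fun v => sub_eq_zero.mp (hcon v)
    obtain ⟨a, b, c, d, hdet, hrot⟩ := dg_rot (ζ k) (ζ l) μ (Ew k) (Ew l) (hy k) (hy l) (hE0 k)
      (hE0 l) hμ1
    refine hrel k l hkl ⟨a, b, c, d, hdet, fun x => ?_⟩
    have hu2 : lf (cu l) (fun i => x i - w i) = μ * lf (cu k) (fun i => x i - w i) := by
      unfold lf
      rw [Finset.mul_sum]
      exact Finset.sum_congr rfl fun i _ => by rw [hμ2 i]; ring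
    have ek1 := hlfu k (fun i => x i - w i)
    have ek2 := hlft k (fun i => x i - w i)
    have el1 := hlfu l (fun i => x i - w i)
    have el2 := hlft l (fun i => x i - w i)
    rw [eq_div_iff (hyE k)] at ek1 ek2
    rw [eq_div_iff (hyE l)] at el1 el2
    rw [hu2] at el1
    rw [← htt] at el2
    have him : ∀ z : ℂ, z - conj z = 2 * Complex.I * (z.im : ℂ) := by
      intro z
      rw [Complex.sub_conj]
      push_cast
      ring
    refine hrot _ _ _ _ (lf (cu k) (fun i => x i - w i))
      (2 * Complex.I + lf (ct k) (fun i => x i - w i)) ?_ ?_ ?_ ?_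
    · rw [hNx, hEx]
      linear_combination -ek1
    · rw [hNx, hEx]
      linear_combination -ek2 + Ew k * him (ζ k)
    · rw [hNx, hEx]
      linear_combination -el1
    · rw [hNx, hEx]
      linear_combination -el2 + Ew l * him (ζ l)
  -- the direction
  obtain ⟨Q, hQ⟩ : ∃ Q : (Fin n ⊕ {p : Fin n × Fin n // p.1 ≠ p.2}) → (Fin m → ℂ) → ℝ,
    Q = Sum.elim (fun k v => Complex.normSq (lf (cu k) v))
      (fun p v => if ct p.1.1 = ct p.1.2 then
        Complex.normSq (lf (cu p.1.1) v) - Complex.normSq (lf (cu p.1.2) v)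
        else Complex.normSq (lf (fun i => ct p.1.1 i - ct p.1.2 i) v)) := ⟨_, rfl⟩
  obtain ⟨v, hv⟩ := dg_avoid Finset.univ Q
    (by
      rw [hQ]
      rintro (k | p)
      · exact dg_quad _
      · by_cases hp : ct p.1.1 = ct p.1.2
        · simp only [Sum.elim_inr, if_pos hp]
          exact dg_sub (dg_quad _) (dg_quad _)
        · simp only [Sum.elim_inr, if_neg hp]
          exact dg_quad _)
    (by
      rw [hQ]
      rintro (k | p) _
      · obtain ⟨j, hj⟩ := hcu0 k
        refine ⟨Pi.single j 1, ?_⟩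
        simp only [Sum.elim_inl]
        rw [lf_single, mul_one]
        exact fun h => hj (Complex.normSq_eq_zero.mp h)
      · by_cases hp : ct p.1.1 = ct p.1.2
        · simp only [Sum.elim_inr, if_pos hp]
          exact hpair _ _ p.2 hp
        · simp only [Sum.elim_inr, if_neg hp]
          obtain ⟨j, hj⟩ := Function.ne_iff.mp hp
          refine ⟨Pi.single j 1, ?_⟩
          rw [lf_single, mul_one]
          exact fun h => hj (sub_eq_zero.mp (Complex.normSq_eq_zero.mp h)))
  have hv1 : ∀ k, lf (cu k) v ≠ 0 := by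
    intro k h0
    have h1 := hv (Sum.inl k) (Finset.mem_univ _)
    rw [hQ] at h1
    simp only [Sum.elim_inl] at h1
    rw [h0, map_zero] at h1
    exact h1 rfl
  have hG00 : ∀ k x, qG (f k) x v 0 0 = lf (A k) v := by
    intro k x; rw [← hliA]; rfl
  have hG01 : ∀ k x, qG (f k) x v 0 1 = qN (f k) x := fun k x => rfl
  have hG10 : ∀ k x, qG (f k) x v 1 0 = lf (B k) v := by
    intro k x; rw [← hliB]; rfl
  have hG11 : ∀ k x, qG (f k) x v 1 1 = qE (f k) x := fun k x => rfl
  have hEwk : ∀ k, qE (f k) w = Ew k := fun k => by rw [hEw]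
  have hdetw : ∀ k, (qG (f k) w v).det ≠ 0 := by
    intro k
    rw [Matrix.det_fin_two, hG00, hG01, hG10, hG11, hNw, hEwk]
    have h1 := hv1 k
    rw [hlfu] at h1
    have h2 : lf (A k) v - ζ k * lf (B k) v ≠ 0 := fun h => h1 (by rw [h, zero_div])
    intro h3
    apply mul_ne_zero (hE0 k) h2
    linear_combination h3
  have hrrw : ∀ k l, k ≠ l → ¬ qRR (qG (f k) w v) (qG (f l) w v) := by
    intro k l hkl hRR
    have h1 := dg_norm _ _ (hdetw k) (hdetw l) hRR (ζ k) (ζ l)
      (by rw [hG11, hEwk]; exact hE0 k) (by rw [hG11, hEwk]; exact hE0 l)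
      (by rw [hG01, hG11, hNw, hEwk]) (by rw [hG01, hG11, hNw, hEwk]) (hy k) (hy l)
    rw [hG00, hG10, hG11, hG00, hG10, hG11, hEwk, hEwk, ← hlft, ← hlfu, ← hlft, ← hlfu] at h1
    obtain ⟨h1, h2⟩ := h1
    have h3 := hv (Sum.inr ⟨(k, l), hkl⟩) (Finset.mem_univ _)
    rw [hQ] at h3
    by_cases hp : ct k = ct l
    · simp only [Sum.elim_inr, if_pos hp] at h3
      exact h3 (sub_eq_zero.mpr h2)
    · simp only [Sum.elim_inr, if_neg hp] at h3
      apply h3
      have e : lf (fun i => ct k i - ct l i) v = lf (ct k) v - lf (ct l) v := by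
        unfold lf
        rw [← Finset.sum_sub_distrib]
        exact Finset.sum_congr rfl fun i _ => by ring
      rw [e, h1, sub_self, map_zero]
  -- openness
  have hcont : ∀ k i j, Continuous fun x => qG (f k) x v i j := by
    intro k i j
    fin_cases i <;> fin_cases j
    · exact continuous_const
    · change Continuous fun x => qN (f k) x
      unfold qN qaf
      fun_prop
    · exact continuous_const
    · change Continuous fun x => qE (f k) x
      unfold qE qaf
      fun_prop
  refine ⟨v, ?_⟩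
  have ev1 : ∀ᶠ x in 𝓝 w, ∀ k, (qG (f k) x v).det ≠ 0 := by
    rw [Filter.eventually_all]
    intro k
    have hc : Continuous fun x => (qG (f k) x v).det := by
      simp only [Matrix.det_fin_two]
      exact ((hcont k 0 0).mul (hcont k 1 1)).sub ((hcont k 0 1).mul (hcont k 1 0))
    exact hc.continuousAt.eventually_ne (hdetw k)
  have ev2 : ∀ᶠ x in 𝓝 w, ∀ k l, k ≠ l → ¬ qRR (qG (f k) x v) (qG (f l) x v) := by
    rw [Filter.eventually_all]
    intro k
    rw [Filter.eventually_all]
    intro l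
    by_cases hkl : k = l
    · exact Filter.Eventually.of_forall fun x h => absurd hkl h
    · have hclosed : IsClosed {x | qRR (qG (f k) x v) (qG (f l) x v)} := by
        have c1 := hcont k 0 0
        have c2 := hcont k 0 1
        have c3 := hcont k 1 0
        have c4 := hcont k 1 1
        have c5 := hcont l 0 0
        have c6 := hcont l 0 1
        have c7 := hcont l 1 0
        have c8 := hcont l 1 1
        have hcc : ∀ g : (Fin m → ℂ) → ℂ, Continuous g → Continuous fun x => conj (g x) :=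
          fun g hg => Complex.continuous_conj.comp hg
        unfold qRR
        refine IsClosed.inter ?_ (IsClosed.inter ?_ ?_)
        · exact isClosed_eq (Complex.continuous_im.comp
            (((c5.mul c4).sub (c6.mul c3)).mul (hcc _ ((c7.mul c4).sub (c8.mul c3)))))
            continuous_const
        · exact isClosed_eq (Complex.continuous_im.comp
            ((((c5.mul c4).sub (c6.mul c3)).mul (hcc _ ((c8.mul c1).sub (c7.mul c2)))).add
              (((c6.mul c1).sub (c5.mul c2)).mul (hcc _ ((c7.mul c4).sub (c8.mul c3))))))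
            continuous_const
        · exact isClosed_eq (Complex.continuous_im.comp
            (((c6.mul c1).sub (c5.mul c2)).mul (hcc _ ((c8.mul c1).sub (c7.mul c2)))))
            continuous_const
      have h1 := hclosed.isOpen_compl.mem_nhds (show w ∈ _ from hrrw k l hkl)
      filter_upwards [h1] with x hx _
      exact hx
  filter_upwards [ev1, ev2] with x h1 h2
  exact ⟨h1, fun k l hkl => qrr_fin _ _ (h1 k) (h2 k l hkl)⟩

end Pool.Agent.Lib.MP5e
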