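import Pool.Agent.Lib.MP_5e64e7_nt.QDist

set_option autoImplicit false

/-!
# Q.DIRM : the direction for Moebius transformations of one variable (about 120 lines)

`m = 1`, `v = 1` (the constant function). With `A, B, C, E` the coefficients (`g_k := qG (f k) 0 1 = !![A, B; C, E]`),
`qG (f k) x 1 = !![A, A x₀ + B; C, C x₀ + E]` (`x₀ = x 0`), the determinant is `A E - B C ≠ 0`, and
`him (qG (f k) x 1) t = him g_k (x₀ + t)`. So it suffices that `{u | him g_k u = 0 = him g_l u}` is finite for `k ≠ l`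
(the set for `x` is its translate: `Set.Finite.preimage` of an injective map). Otherwise `qdist` gives
`p, q, r, s` with `z_l (r z_k + s) = p z_k + q` at `u = w 0` (`z_k = mob g_k (w 0) = qz (f k) w`; the denominators `qE` are not zero
because `Im z > 0`), and the argument of `omn_fin` in `OMain.lean` (private, copy) gives `p s - q r > 0` and
`z_l = (p z_k + q)/(r z_k + s)`, a contradiction to `hrel`.
-/

noncomputable section

namespace Pool.Agent.Lib.MP5e

open Polynomial Topology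

private theorem dm_li {ω : ℂ} (p q : Option (Fin 1) → ℚ) :
    qli ω p q 1 = (p (some 0) : ℂ) + (q (some 0) : ℂ) * ω := by
  simp [qli]

private theorem dm_af {ω : ℂ} (p q : Option (Fin 1) → ℚ) (x : Fin 1 → ℂ) :
    qaf ω p q x = ((p (some 0) : ℂ) + (q (some 0) : ℂ) * ω) * x 0 +
      ((p none : ℂ) + (q none : ℂ) * ω) := by
  simp [qaf]

private theorem dm_him (f : QF 1) (x : Fin 1 → ℂ) (t : ℂ) :
    him (qG f x 1) t = him (qG f 0 1) (x 0 + t) := by
  simp only [him, qG, Matrix.of_apply, Matrix.cons_val', Matrix.cons_val_zero,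
    Matrix.cons_val_one, Matrix.cons_val_fin_one, qN, qE, dm_li, dm_af, Pi.zero_apply]
  congr 2
  · ring
  · congr 1
    ring

private theorem dm_det (f : QF 1) (x : Fin 1 → ℂ) : (qG f x 1).det = (qG f 0 1).det := by
  simp only [Matrix.det_fin_two, qG, Matrix.of_apply, Matrix.cons_val', Matrix.cons_val_zero,
    Matrix.cons_val_one, Matrix.cons_val_fin_one, qN, qE, dm_li, dm_af, Pi.zero_apply]
  ring

private theorem dm_mob (f : QF 1) (x : Fin 1 → ℂ) : qz f x = mob (qG f 0 1) (x 0) := by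
  simp only [mob, qz, qG, Matrix.of_apply, Matrix.cons_val', Matrix.cons_val_zero,
    Matrix.cons_val_one, Matrix.cons_val_fin_one, qN, qE, dm_li, dm_af, Pi.zero_apply]
  congr 1 <;> ring

private theorem dm_rat (f : QF 1) (i j : Fin 2) :
    ∃ p q : ℚ, (qG f 0 1) i j = (p : ℂ) + (q : ℂ) * qom f.D := by
  fin_cases i <;> fin_cases j
  · exact ⟨f.p (some 0), f.q (some 0), by simp [qG, dm_li]⟩
  · exact ⟨f.p none, f.q none, by simp [qG, qN, dm_af]⟩
  · exact ⟨f.r (some 0), f.s (some 0), by simp [qG, dm_li]⟩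
  · exact ⟨f.r none, f.s none, by simp [qG, qE, dm_af]⟩

private theorem dm_den {g : Matrix (Fin 2) (Fin 2) ℂ} {u : ℂ} (h : 0 < (mob g u).im) :
    g 1 0 * u + g 1 1 ≠ 0 := by
  intro h0
  rw [mob, h0, div_zero, Complex.zero_im] at h
  exact lt_irrefl _ h

private theorem dm_fin (D : ℕ) (hD : 1 ≤ D) {w : ℂ} {n : ℕ} (g : Fin n → Matrix (Fin 2) (Fin 2) ℂ)
    (hg : ∀ k i j, ∃ p q : ℚ, g k i j = (p : ℂ) + (q : ℂ) * qom D)
    (hdet : ∀ k, (g k).det ≠ 0) (hzim : ∀ k, 0 < (mob (g k) w).im)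
    (hne : ∀ k l, k ≠ l → ∀ p q r s : ℚ, 0 < p * s - q * r →
      mob (g l) w ≠ ((p : ℂ) * mob (g k) w + q) / ((r : ℂ) * mob (g k) w + s))
    (k l : Fin n) (hkl : k ≠ l) : {u : ℂ | him (g k) u = 0 ∧ him (g l) u = 0}.Finite := by
  by_contra hinf
  obtain ⟨p, q, r, s, hps, hrel⟩ := qdist D hD (g k) (g l) (hg k) (hg l) (hdet k) (hdet l) hinf
  have h1 := hrel w (dm_den (hzim k)) (dm_den (hzim l))
  set z := mob (g k) w with hz
  set z' := mob (g l) w with hz'
  have hzi : 0 < z.im := hzim k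
  have hz'i : 0 < z'.im := hzim l
  have hd : (r : ℂ) * z + s ≠ 0 := by
    intro h0
    have h2 := congrArg Complex.im h0
    have h3 := congrArg Complex.re h0
    have e1 : ((r : ℂ) * z + s).im = r * z.im := by
      rw [show (r : ℂ) = ((r : ℝ) : ℂ) by push_cast; rfl,
        show (s : ℂ) = ((s : ℝ) : ℂ) by push_cast; rfl]
      simp
    have e2 : ((r : ℂ) * z + s).re = r * z.re + s := by
      rw [show (r : ℂ) = ((r : ℝ) : ℂ) by push_cast; rfl,
        show (s : ℂ) = ((s : ℝ) : ℂ) by push_cast; rfl]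
      simp
    rw [e1, Complex.zero_im] at h2
    rw [e2, Complex.zero_re] at h3
    have hr0 : (r : ℝ) = 0 := by
      rcases mul_eq_zero.1 h2 with h | h
      · exact h
      · exact absurd h hzi.ne'
    have hs0 : (s : ℝ) = 0 := by
      rw [hr0] at h3
      linarith
    have hr0' : r = 0 := by exact_mod_cast hr0
    have hs0' : s = 0 := by exact_mod_cast hs0
    apply hps
    rw [hr0', hs0']
    ring
  have hpos : 0 < p * s - q * r := by
    have h2 : z' * ((r : ℂ) * z + s) * (starRingEnd ℂ) ((r : ℂ) * z + s) =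
        ((p : ℂ) * z + q) * (starRingEnd ℂ) ((r : ℂ) * z + s) := by rw [h1]
    have h3 : z' * ((r : ℂ) * z + s) * (starRingEnd ℂ) ((r : ℂ) * z + s) =
        ((‖(r : ℂ) * z + s‖ ^ 2 : ℝ) : ℂ) * z' := by
      rw [mul_assoc, Complex.mul_conj, Complex.normSq_eq_norm_sq, mul_comm]
    rw [h3] at h2
    have h4 := congrArg Complex.im h2
    have e1 : (((‖(r : ℂ) * z + s‖ ^ 2 : ℝ) : ℂ) * z').im = ‖(r : ℂ) * z + s‖ ^ 2 * z'.im := by
      simp only [Complex.mul_im, Complex.ofReal_re, Complex.ofReal_im, zero_mul, add_zero]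
    have e2 : (((p : ℂ) * z + q) * (starRingEnd ℂ) ((r : ℂ) * z + s)).im =
        ((p * s - q * r : ℚ) : ℝ) * z.im := by
      have hp' : (p : ℂ) = ((p : ℝ) : ℂ) := by push_cast; rfl
      have hq' : (q : ℂ) = ((q : ℝ) : ℂ) := by push_cast; rfl
      have hr' : (r : ℂ) = ((r : ℝ) : ℂ) := by push_cast; rfl
      have hs' : (s : ℂ) = ((s : ℝ) : ℂ) := by push_cast; rfl
      rw [hp', hq', hr', hs']
      simp only [map_add, map_mul, Complex.conj_ofReal, Complex.mul_im, Complex.add_im,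
        Complex.add_re, Complex.mul_re, Complex.ofReal_re, Complex.ofReal_im, Complex.conj_re,
        Complex.conj_im, zero_mul, add_zero, sub_zero]
      push_cast
      ring
    rw [e1, e2] at h4
    have h5 : 0 < ‖(r : ℂ) * z + s‖ ^ 2 * z'.im :=
      mul_pos (pow_pos (norm_pos_iff.2 hd) 2) hz'i
    rw [h4] at h5
    have h6 : (0 : ℝ) < ((p * s - q * r : ℚ) : ℝ) := pos_of_mul_pos_left h5 hzi.le
    exact_mod_cast h6
  refine hne k l hkl p q r s hpos ?_
  rw [eq_div_iff hd]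
  exact h1

theorem qdir_mob {n : ℕ} (D : ℕ) (hD : 1 ≤ D) (f : Fin n → QF 1) (hfD : ∀ k, (f k).D = D)
    (w : Fin 1 → ℝ) (hdet : ∀ k, (qG (f k) 0 1).det ≠ 0)
    (hpos : ∀ k, 0 < (qz (f k) (fun l => (w l : ℂ))).im)
    (hrel : ∀ k l, k ≠ l → ∀ p q r s : ℚ, 0 < p * s - q * r →
      qz (f l) (fun l => (w l : ℂ)) ≠ ((p : ℂ) * qz (f k) (fun l => (w l : ℂ)) + q) /
        ((r : ℂ) * qz (f k) (fun l => (w l : ℂ)) + s)) :
    QDir f (fun l => (w l : ℂ)) := by
  have hfin := dm_fin D hD (w := ((w 0 : ℝ) : ℂ)) (fun k => qG (f k) 0 1)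
    (fun k i j => by
      obtain ⟨a, b, h⟩ := dm_rat (f k) i j
      rw [hfD k] at h
      exact ⟨a, b, h⟩) hdet
    (fun k => by
      have h := hpos k
      rw [dm_mob] at h
      exact h)
    (fun k l hkl p q r s hps => by
      have h := hrel k l hkl p q r s hps
      rw [dm_mob (f l), dm_mob (f k)] at h
      exact h)
  refine ⟨1, Filter.Eventually.of_forall fun x => ⟨fun k => ?_, fun k l hkl => ?_⟩⟩
  · rw [dm_det]
    exact hdet k
  · have h1 := (hfin k l hkl).preimage (f := fun t : ℂ => x 0 + t)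
      ((add_right_injective (x 0)).injOn)
    refine h1.subset ?_
    intro t ht
    obtain ⟨h2, h3⟩ := ht
    rw [dm_him] at h2 h3
    exact ⟨h2, h3⟩

end Pool.Agent.Lib.MP5e
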