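import Pool.Agent.Lib.MP_5e64e7_nt.QTpt
import Pool.Agent.Lib.MP_5e64e7_nt.OHit

set_option autoImplicit false

/-!
# Q.DIST : two Moebius transformations over `ℚ(√(-D))` with the same real locus
-/

noncomputable section

namespace Pool.Agent.Lib.MP5e

open Polynomial Topology ComplexConjugate

/-- closure properties of `ℚ(√(-D))` -/
private def qdQ (D : ℕ) (z : ℂ) : Prop := ∃ p q : ℚ, z = (p : ℂ) + (q : ℂ) * qom D

private theorem qdQ_mul {D : ℕ} {x y : ℂ} (hx : qdQ D x) (hy : qdQ D y) : qdQ D (x * y) := by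
  obtain ⟨p, q, rfl⟩ := hx
  obtain ⟨r, s, rfl⟩ := hy
  refine ⟨p * r - D * (q * s), p * s + q * r, ?_⟩
  push_cast
  linear_combination ((q : ℂ) * s) * qom_sq D

private theorem qdQ_sub {D : ℕ} {x y : ℂ} (hx : qdQ D x) (hy : qdQ D y) : qdQ D (x - y) := by
  obtain ⟨p, q, rfl⟩ := hx
  obtain ⟨r, s, rfl⟩ := hy
  refine ⟨p - r, q - s, ?_⟩
  push_cast
  ring

private theorem qdQ_conj {D : ℕ} {x : ℂ} (hx : qdQ D x) : qdQ D (conj x) := by
  obtain ⟨p, q, rfl⟩ := hx
  refine ⟨p, -q, ?_⟩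
  have h0 : conj (qom D) = -qom D := by
    unfold qom
    rw [map_mul, Complex.conj_ofReal, Complex.conj_I]
    ring
  rw [map_add, map_mul, h0]
  have h : ∀ r : ℚ, conj (r : ℂ) = (r : ℂ) := fun r => by
    have : ((r : ℝ) : ℂ) = (r : ℂ) := by norm_cast
    rw [← this, Complex.conj_ofReal]
  rw [h, h]
  push_cast
  ring

private theorem qdQ_real {D : ℕ} (hD : 1 ≤ D) {x : ℂ} (hx : qdQ D x) (h : x.im = 0) :
    ∃ p : ℚ, x = p := by
  obtain ⟨p, q, rfl⟩ := hx
  have h1 : ∀ r : ℚ, ((r : ℝ) : ℂ) = (r : ℂ) := fun r => by norm_cast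
  have h2 : ((p : ℂ) + (q : ℂ) * qom D).im = (q : ℝ) * (qom D).im := by
    rw [← h1, ← h1]
    simp
  rw [h2] at h
  have h3 : q = 0 := by
    have := (mul_eq_zero.mp h).resolve_right (qom_pos hD).ne'
    exact_mod_cast this
  refine ⟨p, ?_⟩
  rw [h3]
  simp

/-- three real conditions on a matrix: a multiple has real entries -/
private theorem qdist_lin (a b c d : ℂ) (hdet : a * d - b * c ≠ 0)
    (h2 : (a * conj c).im = 0) (h1 : (a * conj d + b * conj c).im = 0) (h0 : (b * conj d).im = 0) :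
    ∃ l : ℂ, (l = conj c ∨ l = conj d) ∧ l ≠ 0 ∧ (l * a).im = 0 ∧ (l * b).im = 0 ∧
      (l * c).im = 0 ∧ (l * d).im = 0 := by
  have hself : ∀ z : ℂ, (conj z * z).im = 0 := fun z => by
    rw [mul_comm, Complex.mul_conj]
    exact Complex.ofReal_im _
  rcases eq_or_ne d 0 with hd | hd
  · have hc : c ≠ 0 := by
      rintro rfl
      apply hdet
      rw [hd]
      ring
    refine ⟨conj c, Or.inl rfl, ?_, ?_, ?_, hself c, ?_⟩
    · rwa [ne_eq, map_eq_zero]
    · rw [mul_comm]; exact h2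
    · rw [hd, map_zero, mul_zero, zero_add] at h1
      rw [mul_comm]; exact h1
    · rw [hd, mul_zero]; exact Complex.zero_im
  · have hcd : conj d ≠ 0 := by rwa [ne_eq, map_eq_zero]
    refine ⟨conj d, Or.inr rfl, hcd, ?_⟩
    -- coordinates
    obtain ⟨e, he⟩ : ∃ e : ℝ, e = Complex.normSq d := ⟨_, rfl⟩
    have he0 : 0 < e := by rw [he]; exact Complex.normSq_pos.mpr hd
    have hdd : d * conj d = (e : ℂ) := by rw [he]; exact Complex.mul_conj d
    obtain ⟨A, hA⟩ : ∃ A, A = conj d * a := ⟨_, rfl⟩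
    obtain ⟨G, hG⟩ : ∃ G, G = conj d * c := ⟨_, rfl⟩
    obtain ⟨H, hH⟩ : ∃ H, H = conj d * b := ⟨_, rfl⟩
    have hH0 : H.im = 0 := by rw [hH, mul_comm]; exact h0
    have k2 : (A * conj G).im = 0 := by
      have : A * conj G = (e : ℂ) * (a * conj c) := by
        rw [hA, hG, map_mul, Complex.conj_conj, ← hdd]
        ring
      rw [this, Complex.im_ofReal_mul, h2, mul_zero]
    have k1 : (A * (e : ℂ) + H * conj G).im = 0 := by
      have : A * (e : ℂ) + H * conj G = (e : ℂ) * (a * conj d + b * conj c) := by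
        rw [hA, hG, hH, map_mul, Complex.conj_conj, ← hdd]
        ring
      rw [this, Complex.im_ofReal_mul, h1, mul_zero]
    have k0 : A * (e : ℂ) - H * G ≠ 0 := by
      have : A * (e : ℂ) - H * G = conj d * conj d * (a * d - b * c) := by
        rw [hA, hG, hH, ← hdd]
        ring
      rw [this]
      exact mul_ne_zero (mul_ne_zero hcd hcd) hdet
    have m1 : A.im * e - H.re * G.im = 0 := by
      have := k1
      simp only [Complex.add_im, Complex.mul_im, Complex.ofReal_re, Complex.ofReal_im,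
        Complex.conj_re, Complex.conj_im, hH0] at this
      linarith
    have m2 : A.im * G.re - A.re * G.im = 0 := by
      have := k2
      simp only [Complex.mul_im, Complex.conj_re, Complex.conj_im] at this
      linarith
    have m0 : A.re * e - H.re * G.re ≠ 0 := by
      intro h
      apply k0
      apply Complex.ext
      · simp only [Complex.sub_re, Complex.mul_re, Complex.ofReal_re, Complex.ofReal_im, hH0,
          Complex.zero_re]
        linarith
      · simp only [Complex.sub_im, Complex.mul_im, Complex.ofReal_re, Complex.ofReal_im, hH0,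
          Complex.zero_im]
        linarith
    have hGi : G.im = 0 := by
      have : G.im * (A.re * e - H.re * G.re) = 0 := by
        linear_combination (-e) * m2 + G.re * m1
      exact (mul_eq_zero.mp this).resolve_right m0
    have hAi : A.im = 0 := by
      rw [hGi, mul_zero, sub_zero] at m1
      exact (mul_eq_zero.mp m1).resolve_right he0.ne'
    refine ⟨hA ▸ hAi, hH ▸ hH0, hG ▸ hGi, hself d⟩

private theorem qdist_coef (k2 k1 k0 : ℝ)
    (h : (Polynomial.C k2 * X ^ 2 + Polynomial.C k1 * X + Polynomial.C k0 : ℝ[X]) = 0) :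
    k2 = 0 ∧ k1 = 0 ∧ k0 = 0 := by
  refine ⟨?_, ?_, ?_⟩
  · have := congrArg (fun p : ℝ[X] => p.coeff 2) h
    simpa [coeff_X, coeff_C] using this
  · have := congrArg (fun p : ℝ[X] => p.coeff 1) h
    simpa [coeff_X, coeff_C] using this
  · have := congrArg (fun p : ℝ[X] => p.coeff 0) h
    simpa [coeff_X, coeff_C] using this

private theorem qdist_fin (a b c d l e P Q P' Q' : ℂ) (hQ : Q ≠ 0) (hQ' : Q' ≠ 0)
    (h1 : a * P + b * Q = e * P') (h2 : c * P + d * Q = e * Q') :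
    P' / Q' * (l * c * (P / Q) + l * d) = l * a * (P / Q) + l * b := by
  have k1 : l * c * (P / Q) + l * d = l * (e * Q') / Q := by
    rw [← h2, eq_div_iff hQ]
    field_simp
  have k2 : l * a * (P / Q) + l * b = l * (e * P') / Q := by
    rw [← h1, eq_div_iff hQ]
    field_simp
  rw [k1, k2]
  field_simp

theorem qdist (D : ℕ) (hD : 1 ≤ D) (g g' : Matrix (Fin 2) (Fin 2) ℂ)
    (hg : ∀ i j, ∃ p q : ℚ, g i j = (p : ℂ) + (q : ℂ) * qom D)
    (hg' : ∀ i j, ∃ p q : ℚ, g' i j = (p : ℂ) + (q : ℂ) * qom D)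
    (hdet : g.det ≠ 0) (hdet' : g'.det ≠ 0)
    (hinf : {u : ℂ | him g u = 0 ∧ him g' u = 0}.Infinite) :
    ∃ p q r s : ℚ, p * s - q * r ≠ 0 ∧ ∀ u : ℂ, g 1 0 * u + g 1 1 ≠ 0 →
      g' 1 0 * u + g' 1 1 ≠ 0 → mob g' u * ((r : ℂ) * mob g u + s) = (p : ℂ) * mob g u + q := by
  rw [Matrix.det_fin_two] at hdet hdet'
  obtain ⟨A, hA⟩ : ∃ A, A = g 0 0 := ⟨_, rfl⟩
  obtain ⟨B, hB⟩ : ∃ B, B = g 0 1 := ⟨_, rfl⟩
  obtain ⟨C, hC⟩ : ∃ C, C = g 1 0 := ⟨_, rfl⟩
  obtain ⟨E, hE⟩ : ∃ E, E = g 1 1 := ⟨_, rfl⟩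
  obtain ⟨A', hA'⟩ : ∃ A, A = g' 0 0 := ⟨_, rfl⟩
  obtain ⟨B', hB'⟩ : ∃ B, B = g' 0 1 := ⟨_, rfl⟩
  obtain ⟨C', hC'⟩ : ∃ C, C = g' 1 0 := ⟨_, rfl⟩
  obtain ⟨E', hE'⟩ : ∃ E, E = g' 1 1 := ⟨_, rfl⟩
  have qA : qdQ D A := hA ▸ hg 0 0
  have qB : qdQ D B := hB ▸ hg 0 1
  have qC : qdQ D C := hC ▸ hg 1 0
  have qE : qdQ D E := hE ▸ hg 1 1
  have qA' : qdQ D A' := hA' ▸ hg' 0 0
  have qB' : qdQ D B' := hB' ▸ hg' 0 1
  have qC' : qdQ D C' := hC' ▸ hg' 1 0
  have qE' : qdQ D E' := hE' ▸ hg' 1 1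
  unfold him at hinf
  unfold mob
  rw [← hA, ← hB, ← hC, ← hE] at hdet
  rw [← hA', ← hB', ← hC', ← hE'] at hdet'
  rw [← hA, ← hB, ← hC, ← hE, ← hA', ← hB', ← hC', ← hE'] at hinf
  rw [← hA, ← hB, ← hC, ← hE, ← hA', ← hB', ← hC', ← hE']
  obtain ⟨a, ha⟩ : ∃ a, a = A' * E - B' * C := ⟨_, rfl⟩
  obtain ⟨b, hb⟩ : ∃ b, b = B' * A - A' * B := ⟨_, rfl⟩
  obtain ⟨c, hc⟩ : ∃ c, c = C' * E - E' * C := ⟨_, rfl⟩
  obtain ⟨d, hd⟩ : ∃ d, d = E' * A - C' * B := ⟨_, rfl⟩
  have hM1 : ∀ u : ℂ, a * (A * u + B) + b * (C * u + E) = (A * E - B * C) * (A' * u + B') := by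
    intro u; rw [ha, hb]; ring
  have hM2 : ∀ u : ℂ, c * (A * u + B) + d * (C * u + E) = (A * E - B * C) * (C' * u + E') := by
    intro u; rw [hc, hd]; ring
  have hMdet : a * d - b * c ≠ 0 := by
    have : a * d - b * c = (A * E - B * C) * (A' * E' - B' * C') := by
      rw [ha, hb, hc, hd]; ring
    rw [this]
    exact mul_ne_zero hdet hdet'
  -- the quadratic polynomial
  set P : ℝ[X] := Polynomial.C (a * conj c).im * X ^ 2 +
    Polynomial.C (a * conj d + b * conj c).im * X + Polynomial.C (b * conj d).im with hP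
  have hPev : ∀ x : ℝ, P.eval x = ((a * x + b) * conj (c * x + d)).im := by
    intro x
    rw [hP]
    simp only [eval_add, eval_mul, eval_C, eval_pow, eval_X]
    have : (a * x + b) * conj (c * x + d) = ((x ^ 2 : ℝ) : ℂ) * (a * conj c) +
        (x : ℂ) * (a * conj d + b * conj c) + b * conj d := by
      rw [map_add, map_mul, Complex.conj_ofReal]
      push_cast
      ring
    rw [this]
    simp only [Complex.add_im, Complex.im_ofReal_mul]
    ring
  have hpole : {u : ℂ | C * u + E = 0}.Subsingleton := by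
    intro u hu v hv
    change C * u + E = 0 at hu
    change C * v + E = 0 at hv
    by_contra hne
    have hC0 : C * (u - v) = 0 := by linear_combination hu - hv
    have hC1 : C = 0 := (mul_eq_zero.mp hC0).resolve_right (sub_ne_zero.mpr hne)
    have hE1 : E = 0 := by rw [hC1, zero_mul, zero_add] at hu; exact hu
    apply hdet
    rw [hC1, hE1]
    ring
  have hinf' := hinf.sdiff hpole.finite
  have key : ∀ u : ℂ, ((A * u + B) * conj (C * u + E)).im = 0 →
      ((A' * u + B') * conj (C' * u + E')).im = 0 → C * u + E ≠ 0 →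
      ∃ x : ℝ, A * u + B = x * (C * u + E) ∧ P.eval x = 0 := by
    intro u h1 h2 h3
    have hn : 0 < Complex.normSq (C * u + E) := Complex.normSq_pos.mpr h3
    have hn' : ((Complex.normSq (C * u + E) : ℝ) : ℂ) ≠ 0 := by
      exact_mod_cast hn.ne'
    obtain ⟨y, hy⟩ : ∃ y : ℝ, (A * u + B) * conj (C * u + E) = (y : ℂ) :=
      ⟨((A * u + B) * conj (C * u + E)).re, by
        apply Complex.ext
        · simp
        · rw [h1]; simp⟩
    have hx : A * u + B = ((y / Complex.normSq (C * u + E) : ℝ) : ℂ) * (C * u + E) := by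
      rw [Complex.ofReal_div, ← hy, div_mul_eq_mul_div, eq_div_iff hn', ← Complex.mul_conj]
      ring
    refine ⟨_, hx, ?_⟩
    set x := y / Complex.normSq (C * u + E) with hxd
    have h4 : (((A * E - B * C) * (A' * u + B')) * conj ((A * E - B * C) * (C' * u + E'))).im
        = 0 := by
      have : ((A * E - B * C) * (A' * u + B')) * conj ((A * E - B * C) * (C' * u + E')) =
          ((Complex.normSq (A * E - B * C) : ℝ) : ℂ) * ((A' * u + B') * conj (C' * u + E')) := by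
        rw [← Complex.mul_conj, map_mul]
        ring
      rw [this, Complex.im_ofReal_mul, h2, mul_zero]
    rw [← hM1, ← hM2, hx] at h4
    have h5 : (a * (↑x * (C * u + E)) + b * (C * u + E)) *
        conj (c * (↑x * (C * u + E)) + d * (C * u + E)) =
        ((Complex.normSq (C * u + E) : ℝ) : ℂ) * ((a * x + b) * conj (c * x + d)) := by
      rw [← Complex.mul_conj]
      simp only [map_add, map_mul, Complex.conj_ofReal]
      ring
    rw [h5, Complex.im_ofReal_mul] at h4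
    rw [hPev]
    exact (mul_eq_zero.mp h4).resolve_left hn.ne'
  have hP0 : P = 0 := by
    apply Polynomial.eq_zero_of_infinite_isRoot
    by_contra hfin
    rw [Set.not_infinite] at hfin
    apply hinf'
    choose f hf using key
    -- map `u ↦ x`
    have himg : Set.Finite ((fun x : ℝ => (E * x - B) / (A - C * x)) '' {x | P.IsRoot x}) :=
      hfin.image _
    refine himg.subset ?_
    rintro u ⟨⟨h1, h2⟩, h3⟩
    obtain ⟨e1, e2⟩ := hf u h1 h2 h3
    refine ⟨f u h1 h2 h3, e2, ?_⟩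
    have hne : A - C * (f u h1 h2 h3 : ℂ) ≠ 0 := by
      intro h0
      -- then `A = C x`, and `B = E x`, the determinant vanishes
      have hBx : B = (f u h1 h2 h3 : ℂ) * E := by
        linear_combination e1 - u * h0
      apply hdet
      linear_combination E * h0 - C * hBx
    show (E * (f u h1 h2 h3 : ℂ) - B) / (A - C * (f u h1 h2 h3 : ℂ)) = u
    rw [div_eq_iff hne]
    linear_combination (-1 : ℂ) * e1
  obtain ⟨c2, c1, c0⟩ := qdist_coef _ _ _ (hP ▸ hP0)
  obtain ⟨l, hl, hl0, la, lb, lc, ld⟩ := qdist_lin a b c d hMdet c2 c1 c0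
  have qa : qdQ D a := ha ▸ qdQ_sub (qdQ_mul qA' qE) (qdQ_mul qB' qC)
  have qb : qdQ D b := hb ▸ qdQ_sub (qdQ_mul qB' qA) (qdQ_mul qA' qB)
  have qc : qdQ D c := hc ▸ qdQ_sub (qdQ_mul qC' qE) (qdQ_mul qE' qC)
  have qd : qdQ D d := hd ▸ qdQ_sub (qdQ_mul qE' qA) (qdQ_mul qC' qB)
  have ql : qdQ D l := by
    rcases hl with rfl | rfl
    · exact qdQ_conj qc
    · exact qdQ_conj qd
  obtain ⟨p, hp⟩ := qdQ_real hD (qdQ_mul ql qa) la
  obtain ⟨q, hq⟩ := qdQ_real hD (qdQ_mul ql qb) lb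
  obtain ⟨r, hr⟩ := qdQ_real hD (qdQ_mul ql qc) lc
  obtain ⟨s, hs⟩ := qdQ_real hD (qdQ_mul ql qd) ld
  refine ⟨p, q, r, s, ?_, ?_⟩
  · have : ((p * s - q * r : ℚ) : ℂ) ≠ 0 := by
      push_cast
      rw [← hp, ← hq, ← hr, ← hs]
      have e : l * a * (l * d) - l * b * (l * c) = l * l * (a * d - b * c) := by ring
      rw [e]
      exact mul_ne_zero (mul_ne_zero hl0 hl0) hMdet
    exact_mod_cast this
  · intro u hu hu'
    rw [← hp, ← hq, ← hr, ← hs]
    have e1 := hM1 u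
    have e2 := hM2 u
    exact qdist_fin a b c d l (A * E - B * C) (A * u + B) (C * u + E) (A' * u + B') (C' * u + E')
      hu hu' e1 e2

end Pool.Agent.Lib.MP5e
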