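import Mathlib

set_option autoImplicit false

/-!
# Q.HIDA : expansion of an analytic function in the last variable (about 250 lines)

`F : (Fin (m+1) → ℂ) → ℂ` is analytic at `W`, not identically zero near `W`; `w = Fin.init W`, `t₀ = W (last)`.
There are `a`, an analytic function `G` of the first `m` variables, not identically zero near `w`, and `M, ε > 0` with
`‖F (x, t₀ + s) - G x · s^a‖ ≤ M ‖s‖^(a+1)` for `x` near `w`, `‖s‖ < ε`.
-/

noncomputable section

namespace Pool.Agent.Lib.MP5e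

open Topology Metric

/-- Taylor estimate for a function of one variable given with its derivatives -/
private theorem taylor_est {ε M : ℝ} : ∀ (a : ℕ) (ψ : ℕ → ℂ → ℂ),
    (∀ i s, ‖s‖ < ε → HasDerivAt (ψ i) (ψ (i + 1) s) s) → (∀ i, i < a → ψ i 0 = 0) →
    (∀ s, ‖s‖ < ε → ‖ψ (a + 1) s‖ ≤ M) → ∀ s, ‖s‖ < ε →
    ‖ψ 0 s - ψ a 0 * s ^ a / (a.factorial : ℂ)‖ ≤ M * ‖s‖ ^ (a + 1) := by
  intro a
  induction a with
  | zero =>
    intro ψ hd _ hM s hs
    have h0 : (0 : ℂ) ∈ closedBall (0 : ℂ) ‖s‖ := by simp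
    have h1 : s ∈ closedBall (0 : ℂ) ‖s‖ := by simp
    have hsub : ∀ z ∈ closedBall (0 : ℂ) ‖s‖, ‖z‖ < ε := by
      intro z hz
      have : ‖z‖ ≤ ‖s‖ := by simpa using hz
      exact lt_of_le_of_lt this hs
    have h := (convex_closedBall (0 : ℂ) ‖s‖).norm_image_sub_le_of_norm_hasDerivWithin_le
      (f := ψ 0) (f' := ψ 1) (C := M)
      (fun z hz => (hd 0 z (hsub z hz)).hasDerivWithinAt) (fun z hz => hM z (hsub z hz)) h0 h1
    simpa using h
  | succ a ih =>
    intro ψ hd h0 hM s hs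
    have ih' := ih (fun i => ψ (i + 1)) (fun i s hs => hd (i + 1) s hs)
      (fun i hi => h0 (i + 1) (by omega)) (fun s hs => hM s hs)
    have hsub : ∀ z ∈ closedBall (0 : ℂ) ‖s‖, ‖z‖ < ε := by
      intro z hz
      have : ‖z‖ ≤ ‖s‖ := by simpa using hz
      exact lt_of_le_of_lt this hs
    have hM0 : 0 ≤ M := (norm_nonneg _).trans (hM s hs)
    have hder : ∀ z ∈ closedBall (0 : ℂ) ‖s‖, HasDerivWithinAt
        (fun z => ψ 0 z - ψ (a + 1) 0 * z ^ (a + 1) / ((a + 1).factorial : ℂ))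
        (ψ 1 z - ψ (a + 1) 0 * z ^ a / (a.factorial : ℂ)) (closedBall (0 : ℂ) ‖s‖) z := by
      intro z hz
      have h1 := hd 0 z (hsub z hz)
      have h2 : HasDerivAt (fun z : ℂ => ψ (a + 1) 0 * z ^ (a + 1) / ((a + 1).factorial : ℂ))
          (ψ (a + 1) 0 * (((a + 1 : ℕ) : ℂ) * z ^ (a + 1 - 1)) / ((a + 1).factorial : ℂ)) z :=
        ((hasDerivAt_pow (a + 1) z).const_mul _).div_const _
      have h3 : ψ (a + 1) 0 * (((a + 1 : ℕ) : ℂ) * z ^ (a + 1 - 1)) / ((a + 1).factorial : ℂ) =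
          ψ (a + 1) 0 * z ^ a / (a.factorial : ℂ) := by
        rw [Nat.factorial_succ, Nat.add_sub_cancel]
        have ha : ((a + 1 : ℕ) : ℂ) ≠ 0 := by exact_mod_cast Nat.succ_ne_zero a
        have hf : (a.factorial : ℂ) ≠ 0 := by exact_mod_cast Nat.factorial_ne_zero a
        push_cast
        push_cast at ha
        field_simp
      rw [h3] at h2
      exact (h1.sub h2).hasDerivWithinAt
    have hbd : ∀ z ∈ closedBall (0 : ℂ) ‖s‖,
        ‖ψ 1 z - ψ (a + 1) 0 * z ^ a / (a.factorial : ℂ)‖ ≤ M * ‖s‖ ^ (a + 1) := by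
      intro z hz
      refine (ih' z (hsub z hz)).trans ?_
      have : ‖z‖ ≤ ‖s‖ := by simpa using hz
      exact mul_le_mul_of_nonneg_left (pow_le_pow_left₀ (norm_nonneg _) this _) hM0
    have h := (convex_closedBall (0 : ℂ) ‖s‖).norm_image_sub_le_of_norm_hasDerivWithin_le
      hder hbd (x := 0) (y := s) (by simp) (by simp)
    have e0 : ψ 0 0 - ψ (a + 1) 0 * (0 : ℂ) ^ (a + 1) / ((a + 1).factorial : ℂ) = 0 := by
      rw [h0 0 (Nat.succ_pos a)]
      simp
    rw [e0, sub_zero, sub_zero] at h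
    refine h.trans (le_of_eq ?_)
    ring

/-- unit vector of the last variable -/
private def ev (m : ℕ) : Fin (m + 1) → ℂ := Fin.snoc (fun _ : Fin m => (0 : ℂ)) 1

/-- iterated partial derivatives in the last variable -/
private def Dd {m : ℕ} (F : (Fin (m + 1) → ℂ) → ℂ) : ℕ → (Fin (m + 1) → ℂ) → ℂ
  | 0 => F
  | i + 1 => fun x => fderiv ℂ (Dd F i) x (ev m)

private theorem Dd_an {m : ℕ} {F : (Fin (m + 1) → ℂ) → ℂ} {U : Set (Fin (m + 1) → ℂ)}
    (hF : AnalyticOnNhd ℂ F U) (i : ℕ) : AnalyticOnNhd ℂ (Dd F i) U := by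
  induction i with
  | zero => exact hF
  | succ i ih =>
    exact (ContinuousLinearMap.apply ℂ ℂ (ev m)).comp_analyticOnNhd ih.fderiv

private theorem snoc_der {m : ℕ} (x : Fin m → ℂ) (t0 s : ℂ) :
    HasDerivAt (fun s : ℂ => (Fin.snoc x (t0 + s) : Fin (m + 1) → ℂ)) (ev m) s := by
  rw [hasDerivAt_pi]
  intro i
  refine Fin.lastCases ?_ (fun j => ?_) i
  · simp only [Fin.snoc_last, ev]
    simpa using (hasDerivAt_id s).const_add t0
  · simp only [Fin.snoc_castSucc, ev]
    exact hasDerivAt_const s (x j)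

private theorem snoc_ball {m : ℕ} {x w : Fin m → ℂ} {t t0 : ℂ} {r : ℝ}
    (hx : ∀ l, dist (x l) (w l) < r) (ht : dist t t0 < r) (hr : 0 < r) :
    (Fin.snoc x t : Fin (m + 1) → ℂ) ∈ ball (Fin.snoc w t0 : Fin (m + 1) → ℂ) r := by
  rw [mem_ball, dist_pi_lt_iff hr]
  intro i
  refine Fin.lastCases ?_ (fun j => ?_) i
  · simpa using ht
  · simpa using hx j

private theorem Dd_der {m : ℕ} {F : (Fin (m + 1) → ℂ) → ℂ} {U : Set (Fin (m + 1) → ℂ)}
    (hF : AnalyticOnNhd ℂ F U) (i : ℕ) (x : Fin m → ℂ) (t0 s : ℂ)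
    (hs : (Fin.snoc x (t0 + s) : Fin (m + 1) → ℂ) ∈ U) :
    HasDerivAt (fun s : ℂ => Dd F i (Fin.snoc x (t0 + s) : Fin (m + 1) → ℂ))
      (Dd F (i + 1) (Fin.snoc x (t0 + s) : Fin (m + 1) → ℂ)) s := by
  have h1 := ((Dd_an hF i) _ hs).differentiableAt.hasFDerivAt
  exact h1.comp_hasDerivAt s (snoc_der x t0 s)

private theorem snoc_an {m : ℕ} (t0 : ℂ) (x : Fin m → ℂ) :
    AnalyticAt ℂ (fun x : Fin m → ℂ => (Fin.snoc x t0 : Fin (m + 1) → ℂ)) x := by
  rw [analyticAt_pi_iff]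
  intro i
  refine Fin.lastCases ?_ (fun j => ?_) i
  · simp only [Fin.snoc_last]
    exact analyticAt_const
  · simp only [Fin.snoc_castSucc]
    exact (ContinuousLinearMap.proj (R := ℂ) (φ := fun _ : Fin m => ℂ) j).analyticAt x

theorem qhid_step {m : ℕ} (F : (Fin (m + 1) → ℂ) → ℂ) (w : Fin m → ℂ) (t0 : ℂ)
    (hF : AnalyticAt ℂ F (Fin.snoc w t0 : Fin (m + 1) → ℂ))
    (hne : ¬ ∀ᶠ x in 𝓝 (Fin.snoc w t0 : Fin (m + 1) → ℂ), F x = 0) :
    ∃ (a : ℕ) (G : (Fin m → ℂ) → ℂ) (M ε : ℝ), 0 < ε ∧ 0 ≤ M ∧ AnalyticAt ℂ G w ∧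
      (¬ ∀ᶠ x in 𝓝 w, G x = 0) ∧
      ∀ (x : Fin m → ℂ) (s : ℂ), (∀ l, ‖x l - w l‖ < ε) → ‖s‖ < ε →
        ‖F (Fin.snoc x (t0 + s) : Fin (m + 1) → ℂ) - G x * s ^ a‖ ≤ M * ‖s‖ ^ (a + 1) := by
  classical
  obtain ⟨R, hR, hRF⟩ := Metric.eventually_nhds_iff_ball.1 hF.eventually_analyticAt
  have hU : AnalyticOnNhd ℂ F (ball (Fin.snoc w t0 : Fin (m + 1) → ℂ) R) := fun y hy => hRF y hy
  have hin : ∀ (x : Fin m → ℂ) (s : ℂ), x ∈ ball w R → ‖s‖ < R →
      (Fin.snoc x (t0 + s) : Fin (m + 1) → ℂ) ∈ ball (Fin.snoc w t0 : Fin (m + 1) → ℂ) R := by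
    intro x s hx hs
    refine snoc_ball ?_ ?_ hR
    · exact (dist_pi_lt_iff hR).1 hx
    · rw [dist_eq_norm]; simpa using hs
  -- the coefficients
  set Gi : ℕ → (Fin m → ℂ) → ℂ := fun i x => Dd F i (Fin.snoc x t0 : Fin (m + 1) → ℂ) with hGi
  have hGan : ∀ i, AnalyticOnNhd ℂ (Gi i) (ball w R) := by
    intro i x hx
    have h1 : (Fin.snoc x t0 : Fin (m + 1) → ℂ) ∈ ball (Fin.snoc w t0 : Fin (m + 1) → ℂ) R := by
      have := hin x 0 hx (by simpa using hR)
      simpa using this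
    exact AnalyticAt.fun_comp (Dd_an hU i _ h1) (snoc_an t0 x)
  have hzero : ∀ i, (∀ᶠ x in 𝓝 w, Gi i x = 0) → ∀ x ∈ ball w R, Gi i x = 0 := by
    intro i hi x hx
    exact (hGan i).eqOn_zero_of_preconnected_of_eventuallyEq_zero
      (convex_ball w R).isPreconnected (mem_ball_self hR) hi hx
  have hex : ∃ i, ¬ ∀ᶠ x in 𝓝 w, Gi i x = 0 := by
    by_contra hcon
    push Not at hcon
    apply hne
    refine Metric.eventually_nhds_iff_ball.2 ⟨R, hR, fun y hy => ?_⟩
    have hy' := (dist_pi_lt_iff hR).1 hy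
    have hx : (Fin.init y : Fin m → ℂ) ∈ ball w R := by
      rw [mem_ball, dist_pi_lt_iff hR]
      intro j
      have := hy' j.castSucc
      simpa [Fin.init] using this
    have hs : ‖y (Fin.last m) - t0‖ < R := by
      have := hy' (Fin.last m)
      rw [dist_eq_norm] at this
      simpa using this
    set x : Fin m → ℂ := Fin.init y with hxdef
    set φ : ℂ → ℂ := fun s => F (Fin.snoc x (t0 + s) : Fin (m + 1) → ℂ) with hφ
    have hit : ∀ n : ℕ, ∀ s : ℂ, ‖s‖ < R →
        iteratedDeriv n φ s = Dd F n (Fin.snoc x (t0 + s) : Fin (m + 1) → ℂ) := by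
      intro n
      induction n with
      | zero => intro s _; rw [iteratedDeriv_zero]; rfl
      | succ n ih =>
        intro s hs
        rw [iteratedDeriv_succ]
        have h1 : iteratedDeriv n φ =ᶠ[𝓝 s]
            fun s => Dd F n (Fin.snoc x (t0 + s) : Fin (m + 1) → ℂ) := by
          have h2 : ball (0 : ℂ) R ∈ 𝓝 s := isOpen_ball.mem_nhds (by simpa using hs)
          filter_upwards [h2] with u hu
          exact ih u (by simpa using hu)
        rw [h1.deriv_eq]
        exact (Dd_der hU n x t0 s (hin x s hx hs)).deriv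
    have hdiff : DifferentiableOn ℂ φ (ball 0 R) := by
      intro s hs
      exact (Dd_der hU 0 x t0 s (hin x s hx (by simpa using hs))).differentiableAt
        |>.differentiableWithinAt
    have hsum := Complex.hasSum_taylorSeries_on_ball (c := (0 : ℂ)) (r := R)
      hdiff (z := y (Fin.last m) - t0) (by simpa using hs)
    have hz : ∀ n : ℕ, iteratedDeriv n φ 0 = 0 := by
      intro n
      rw [hit n 0 (by simpa using hR), add_zero]
      exact hzero n (hcon n) x hx
    simp only [hz, smul_zero] at hsum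
    have h0 := hsum.unique hasSum_zero
    have e : F y = φ (y (Fin.last m) - t0) := by
      rw [hφ]
      have : (Fin.snoc x (t0 + (y (Fin.last m) - t0)) : Fin (m + 1) → ℂ) = y := by
        rw [add_sub_cancel]
        exact Fin.snoc_init_self y
      simp only [this]
    rw [e]; exact h0
  set a := Nat.find hex with ha
  have ha1 := Nat.find_spec hex
  rw [← ha] at ha1
  have ha2 : ∀ i, i < a → ∀ x ∈ ball w R, Gi i x = 0 := by
    intro i hi
    have := Nat.find_min hex hi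
    push Not at this
    exact hzero i this
  -- bound of the next derivative
  set W : Fin (m + 1) → ℂ := Fin.snoc w t0 with hW
  have hcont : ContinuousAt (Dd F (a + 1)) W :=
    ((Dd_an hU (a + 1)) W (mem_ball_self hR)).continuousAt
  obtain ⟨r, hr, hrM⟩ := Metric.eventually_nhds_iff_ball.1
    (hcont.norm.eventually_le_const (lt_add_one ‖Dd F (a + 1) W‖))
  refine ⟨a, fun x => Gi a x / (a.factorial : ℂ), ‖Dd F (a + 1) W‖ + 1, min R r, lt_min hR hr,
    by positivity, ?_, ?_, ?_⟩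
  · exact (hGan a w (mem_ball_self hR)).div_const
  · intro h
    apply ha1
    filter_upwards [h] with x hx
    have hf : (a.factorial : ℂ) ≠ 0 := by exact_mod_cast Nat.factorial_ne_zero a
    exact (div_eq_zero_iff.1 hx).resolve_right hf
  · intro x s hx hs
    have hxR : x ∈ ball w R := by
      rw [mem_ball, dist_pi_lt_iff hR]
      intro l
      rw [dist_eq_norm]
      exact (hx l).trans_le (min_le_left _ _)
    have h := taylor_est (ε := min R r) (M := ‖Dd F (a + 1) W‖ + 1) a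
      (fun i s => Dd F i (Fin.snoc x (t0 + s) : Fin (m + 1) → ℂ))
      (fun i s hs => Dd_der hU i x t0 s (hin x s hxR (hs.trans_le (min_le_left _ _))))
      (fun i hi => by
        have := ha2 i hi x hxR
        simpa [hGi] using this)
      (fun s hs => by
        refine hrM _ (snoc_ball ?_ ?_ hr)
        · intro l
          rw [dist_eq_norm]
          exact (hx l).trans_le (min_le_right _ _)
        · rw [dist_eq_norm]
          simpa using hs.trans_le (min_le_right _ _)) s hs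
    have e : Gi a x / (a.factorial : ℂ) * s ^ a =
        Dd F a (Fin.snoc x (t0 + 0) : Fin (m + 1) → ℂ) * s ^ a / (a.factorial : ℂ) := by
      rw [add_zero, hGi]; ring
    rw [e]
    exact h

end Pool.Agent.Lib.MP5e
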