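import Pool.Agent.Lib.MP_5e64e7_nt.QTpt

set_option autoImplicit false

/-!
# Q.LAT : decomposition of the lattice `ℤσ + ℤ` into cosets

The parametrisation `(k, p) ↦ (k + d p.2, a p.1 - b p.2)` of `ℤ²`.
-/

noncomputable section

namespace Pool.Agent.Lib.MP5e

open Polynomial Topology

/-- the parametrisation of `ℤ²` -/
private def qlatE (a d : ℕ) (b : ℤ) (p : Fin (a * d) × (ℤ × ℤ)) : Fin 2 → ℤ :=
  ![((p.1 : ℕ) : ℤ) + d * p.2.2, a * p.2.1 - b * p.2.2]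

private theorem qlatE_bij {a d : ℕ} (ha : 1 ≤ a) (hd : 1 ≤ d) {b : ℤ}
    (hab : IsCoprime (a : ℤ) b) : Function.Bijective (qlatE a d b) := by
  have ha0 : (a : ℤ) ≠ 0 := by exact_mod_cast (by omega : a ≠ 0)
  have had : (0 : ℤ) < ((a * d : ℕ) : ℤ) := by
    have : 0 < a * d := Nat.mul_pos ha hd
    exact_mod_cast this
  constructor
  · rintro ⟨k, y, x⟩ ⟨k', y', x'⟩ h
    have h0 := congrFun h 0
    have h1 := congrFun h 1
    simp only [qlatE, Matrix.cons_val_zero, Matrix.cons_val_one] at h0 h1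
    have h2 : (a : ℤ) ∣ b * (x - x') := ⟨y - y', by linear_combination -h1⟩
    obtain ⟨t, ht⟩ := hab.dvd_of_dvd_mul_left h2
    have h3 : ((k : ℕ) : ℤ) - ((k' : ℕ) : ℤ) = ((a * d : ℕ) : ℤ) * (-t) := by
      push_cast
      linear_combination h0 - (d : ℤ) * ht
    have hk := k.2
    have hk' := k'.2
    have hkz : ((k : ℕ) : ℤ) < ((a * d : ℕ) : ℤ) := by exact_mod_cast hk
    have hkz' : ((k' : ℕ) : ℤ) < ((a * d : ℕ) : ℤ) := by exact_mod_cast hk'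
    have hk0 : (0 : ℤ) ≤ ((k : ℕ) : ℤ) := Int.natCast_nonneg _
    have hk0' : (0 : ℤ) ≤ ((k' : ℕ) : ℤ) := Int.natCast_nonneg _
    have ht0 : -t = 0 := by
      by_contra hne
      rcases lt_or_gt_of_ne hne with h4 | h4
      · have : ((a * d : ℕ) : ℤ) * (-t) ≤ ((a * d : ℕ) : ℤ) * (-1) :=
          mul_le_mul_of_nonneg_left (by omega) had.le
        omega
      · have : ((a * d : ℕ) : ℤ) * 1 ≤ ((a * d : ℕ) : ℤ) * (-t) :=
          mul_le_mul_of_nonneg_left (by omega) had.le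
        omega
    rw [ht0, mul_zero] at h3
    have ht1 : t = 0 := by omega
    rw [ht1, mul_zero] at ht
    have hx : x = x' := by omega
    have hkk : k = k' := by
      apply Fin.ext
      omega
    have hy : y = y' := by
      apply mul_left_cancel₀ ha0
      rw [hx] at h1
      linarith
    rw [hx, hkk, hy]
  · intro v
    obtain ⟨u, w, huw⟩ := hab
    set c : ℤ := v 0 + d * (w * v 1) with hc
    have hlt := Int.emod_lt_of_pos c had
    have hnn := Int.emod_nonneg c had.ne'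
    have hdm := Int.mul_ediv_add_emod c ((a * d : ℕ) : ℤ)
    refine ⟨(⟨(c % ((a * d : ℕ) : ℤ)).toNat, ?_⟩, (u * v 1 + b * (c / ((a * d : ℕ) : ℤ)),
      -(w * v 1 - a * (c / ((a * d : ℕ) : ℤ))))), ?_⟩
    · have h5 : (((c % ((a * d : ℕ) : ℤ)).toNat : ℕ) : ℤ) < ((a * d : ℕ) : ℤ) := by
        rw [Int.toNat_of_nonneg hnn]; exact hlt
      exact_mod_cast h5
    · have h6 : (((c % ((a * d : ℕ) : ℤ)).toNat : ℕ) : ℤ) = c % ((a * d : ℕ) : ℤ) :=
        Int.toNat_of_nonneg hnn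
      have e0 : (((c % ((a * d : ℕ) : ℤ)).toNat : ℕ) : ℤ) +
          d * (-(w * v 1 - a * (c / ((a * d : ℕ) : ℤ)))) = v 0 := by
        rw [h6]
        have h7 : c % ((a * d : ℕ) : ℤ) = c - ((a : ℤ) * d) * (c / ((a * d : ℕ) : ℤ)) := by
          have h8 : ((a * d : ℕ) : ℤ) * (c / ((a * d : ℕ) : ℤ)) =
            ((a : ℤ) * d) * (c / ((a * d : ℕ) : ℤ)) := by push_cast; rfl
          linarith
        rw [h7, hc]
        ring
      have e1 : (a : ℤ) * (u * v 1 + b * (c / ((a * d : ℕ) : ℤ))) -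
          b * (-(w * v 1 - a * (c / ((a * d : ℕ) : ℤ)))) = v 1 := by
        linear_combination (v 1) * huw
      funext i
      fin_cases i
      · exact e0
      · exact e1

private theorem qlat_term (L : PeriodPair) {τ : ℂ} (hL : L.ω₂ = τ * L.ω₁) {a d : ℕ}
    (ha : 1 ≤ a) (hd : 1 ≤ d) (b : ℤ) (r : ℕ) (k : ℕ) (y x : ℤ) :
    (((((k : ℤ) + d * x : ℤ) : ℂ) * qsig τ a d b + ((a * y - b * x : ℤ) : ℂ)) ^ r)⁻¹ =
      L.ω₁ ^ r / (a : ℂ) ^ r *
        ((((y : ℂ) * L.ω₁ + (x : ℂ) * L.ω₂) - -(qtor L τ a d b k)) ^ r)⁻¹ := by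
  have ha' : (a : ℂ) ≠ 0 := by exact_mod_cast (by omega : a ≠ 0)
  have hd' : (d : ℂ) ≠ 0 := by exact_mod_cast (by omega : d ≠ 0)
  have h2 := qom1_ne L
  have h1 : ((((k : ℤ) + d * x : ℤ) : ℂ) * qsig τ a d b + ((a * y - b * x : ℤ) : ℂ)) =
      (a : ℂ) / L.ω₁ * (((y : ℂ) * L.ω₁ + (x : ℂ) * L.ω₂) - -(qtor L τ a d b k)) := by
    rw [div_mul_eq_mul_div, eq_div_iff h2, hL]
    unfold qtor qsig
    push_cast
    field_simp
    ring
  rw [h1, mul_pow, div_pow, mul_inv, inv_div]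

theorem qlat_sum (L : PeriodPair) {τ : ℂ} (hτ : 0 < τ.im) (hL : L.ω₂ = τ * L.ω₁) {a d : ℕ}
    (ha : 1 ≤ a) (hd : 1 ≤ d) {b : ℤ} (hab : IsCoprime (a : ℤ) b) {r : ℕ} (hr : 2 < r) :
    ∑' v : Fin 2 → ℤ, (((v 0 : ℂ) * qsig τ a d b + (v 1 : ℂ)) ^ r)⁻¹ =
      L.ω₁ ^ r / (a : ℂ) ^ r *
        ∑ k ∈ Finset.range (a * d), L.sumInvPow (-(qtor L τ a d b k)) r := by
  have _hτ := hτ
  have hinner : ∀ k : ℕ, HasSum (fun p : ℤ × ℤ =>
      ((((p.1 : ℂ) * L.ω₁ + (p.2 : ℂ) * L.ω₂) - -(qtor L τ a d b k)) ^ r)⁻¹)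
      (L.sumInvPow (-(qtor L τ a d b k)) r) := by
    intro k
    have h1 := L.hasSum_sumInvPow (-(qtor L τ a d b k)) hr
    rw [← L.latticeEquivProd.symm.toEquiv.hasSum_iff] at h1
    refine h1.congr_fun ?_
    intro p
    have h2 := L.latticeEquiv_symm_apply p
    change _ = ((((L.latticeEquivProd.symm p : L.lattice) : ℂ) - -(qtor L τ a d b k)) ^ r)⁻¹
    rw [h2]
  have hsum : Summable (fun p : Fin (a * d) × (ℤ × ℤ) =>
      ((((p.2.1 : ℂ) * L.ω₁ + (p.2.2 : ℂ) * L.ω₂) - -(qtor L τ a d b (p.1 : ℕ))) ^ r)⁻¹) := by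
    rw [← summable_norm_iff, summable_prod_of_nonneg (fun p => norm_nonneg _)]
    refine ⟨fun k => ?_, Summable.of_finite⟩
    exact (hinner (k : ℕ)).summable.norm
  have hprod : ∑' p : Fin (a * d) × (ℤ × ℤ),
      ((((p.2.1 : ℂ) * L.ω₁ + (p.2.2 : ℂ) * L.ω₂) - -(qtor L τ a d b (p.1 : ℕ))) ^ r)⁻¹ =
      ∑ k ∈ Finset.range (a * d), L.sumInvPow (-(qtor L τ a d b k)) r := by
    rw [hsum.tsum_prod, tsum_fintype, Finset.sum_range]
    exact Finset.sum_congr rfl fun k _ => (hinner (k : ℕ)).tsum_eq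
  rw [← hprod, ← tsum_mul_left, ← (Equiv.ofBijective _ (qlatE_bij ha hd hab)).tsum_eq]
  refine tsum_congr fun p => ?_
  rw [← qlat_term L hL ha hd b r (p.1 : ℕ) p.2.1 p.2.2]
  rfl

end Pool.Agent.Lib.MP5e
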