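import Pool.Agent.Lib.MP_5e64e7_nt.QTpt

set_option autoImplicit false

/-!
# Q.NONC : a non-quadratic value comes from a non-constant function
-/

noncomputable section

namespace Pool.Agent.Lib.MP5e

open Topology ComplexConjugate

theorem qnonconst {m : ℕ} (f : QF m) (w : Fin m → ℂ) (him : 0 < (qz f w).im)
    (hq : ¬ ∃ a b c : ℚ, a ≠ 0 ∧ (a : ℂ) * qz f w ^ 2 + (b : ℂ) * qz f w + (c : ℂ) = 0) :
    ¬ ∃ c : ℂ, ∀ x, qN f x = c * qE f x := by
  classical
  rintro ⟨c, hc⟩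
  apply hq
  have hE : qE f w ≠ 0 := by
    intro h0
    unfold qz at him
    rw [h0, div_zero, Complex.zero_im] at him
    exact lt_irrefl _ him
  have hzc : qz f w = c := by
    unfold qz
    rw [hc w, mul_div_assoc, div_self hE, mul_one]
  have h0 : ((f.p none : ℂ) + (f.q none : ℂ) * qom f.D) =
      c * ((f.r none : ℂ) + (f.s none : ℂ) * qom f.D) := by
    have := hc 0
    unfold qN qE qaf at this
    simpa using this
  have hl : ∀ l, ((f.p (some l) : ℂ) + (f.q (some l) : ℂ) * qom f.D) =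
      c * ((f.r (some l) : ℂ) + (f.s (some l) : ℂ) * qom f.D) := by
    intro l
    have h1 := hc (Pi.single l 1)
    unfold qN qE qaf at h1
    rw [Finset.sum_eq_single l, Finset.sum_eq_single l, Pi.single_eq_same, mul_one, mul_one] at h1
    · linear_combination h1 - h0
    · intro b _ hb
      rw [Pi.single_eq_of_ne hb, mul_zero]
    · intro h
      exact absurd (Finset.mem_univ l) h
    · intro b _ hb
      rw [Pi.single_eq_of_ne hb, mul_zero]
    · intro h
      exact absurd (Finset.mem_univ l) h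
  have hcoef : ∀ o, ((f.p o : ℂ) + (f.q o : ℂ) * qom f.D) =
      c * ((f.r o : ℂ) + (f.s o : ℂ) * qom f.D) := by
    intro o
    cases o with
    | none => exact h0
    | some l => exact hl l
  obtain ⟨o, ho⟩ : ∃ o, (f.r o : ℂ) + (f.s o : ℂ) * qom f.D ≠ 0 := by
    by_contra hcon
    push Not at hcon
    apply hE
    unfold qE qaf
    rw [hcon none, add_zero]
    exact Finset.sum_eq_zero fun l _ => by rw [hcon (some l), zero_mul]
  have h1 := hcoef o
  have hsq := qom_sq f.D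
  generalize f.p o = P at *
  generalize f.q o = Q at *
  generalize f.r o = R at *
  generalize f.s o = S at *
  have hconj : conj ((R : ℂ) + (S : ℂ) * qom f.D) = (R : ℂ) - (S : ℂ) * qom f.D := by
    have h0 : conj (qom f.D) = -qom f.D := by
      unfold qom
      rw [map_mul, Complex.conj_ofReal, Complex.conj_I]
      ring
    have h : ∀ r : ℚ, conj (r : ℂ) = (r : ℂ) := fun r => by
      have : ((r : ℝ) : ℂ) = (r : ℂ) := by norm_cast
      rw [← this, Complex.conj_ofReal]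
    rw [map_add, map_mul, h0, h, h]
    ring
  have hn0 : (R : ℂ) - (S : ℂ) * qom f.D ≠ 0 := by
    rw [← hconj, ne_eq, map_eq_zero]
    exact ho
  have hn : ((R ^ 2 + f.D * S ^ 2 : ℚ) : ℂ) =
      ((R : ℂ) + (S : ℂ) * qom f.D) * ((R : ℂ) - (S : ℂ) * qom f.D) := by
    push_cast
    linear_combination (S : ℂ) ^ 2 * hsq
  have hn1 : ((R ^ 2 + f.D * S ^ 2 : ℚ) : ℂ) ≠ 0 := by
    rw [hn]
    exact mul_ne_zero ho hn0
  have hn2 : (R ^ 2 + f.D * S ^ 2 : ℚ) ≠ 0 := by exact_mod_cast hn1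
  refine ⟨(R ^ 2 + f.D * S ^ 2) ^ 2, -2 * (R ^ 2 + f.D * S ^ 2) * (P * R + f.D * Q * S),
    (P * R + f.D * Q * S) ^ 2 + f.D * (Q * R - P * S) ^ 2, pow_ne_zero 2 hn2, ?_⟩
  rw [hzc]
  have h2 : c * ((R ^ 2 + f.D * S ^ 2 : ℚ) : ℂ) =
      ((P * R + f.D * Q * S : ℚ) : ℂ) + ((Q * R - P * S : ℚ) : ℂ) * qom f.D := by
    rw [hn]
    push_cast
    linear_combination (-((R : ℂ) - (S : ℂ) * qom f.D)) * h1 - (Q : ℂ) * S * hsq
  have h3 : (c * ((R ^ 2 + f.D * S ^ 2 : ℚ) : ℂ) - ((P * R + f.D * Q * S : ℚ) : ℂ)) ^ 2 =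
      -(f.D : ℂ) * ((Q * R - P * S : ℚ) : ℂ) ^ 2 := by
    rw [h2]
    linear_combination ((Q * R - P * S : ℚ) : ℂ) ^ 2 * hsq
  push_cast at h3 ⊢
  linear_combination h3

end Pool.Agent.Lib.MP5e
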