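import Pool.Agent.Lib.MP_5e64e7_nt.QAlg

set_option autoImplicit false

/-!
# Q.RANK : completing the forms by coordinates (about 130 lines)

Let `a_i ∈ ℂ^m` (`i < r`) be the linear parts, linearly independent, and `e_l` the standard basis of `Fin m → ℂ`. By
`exists_linearIndepOn_extension` (or `LinearIndepOn.extend`/Steinitz) the set `{a_i}` can be extended by some of the `e_l` to a
basis of `ℂ^m`: there is `T : Finset (Fin m)` with `T.card + r = m` such that the family `a_i` (`i < r`), `e_l` (`l ∈ T`) is a
basis. (Own induction is also possible: as long as the span is not everything some `e_l` is not in the span.)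
Let `K` be relatively algebraically closed with `qN (f (κ i)) w ∈ K` and `w_l ∈ K` for `l ∈ T`. The entries of the invertible
`m × m` matrix `M` with the rows `a_i`, `e_l` are in `K` (`qcl_om`), the vector `M w` has entries in `K` (`a_i · w = qN (f (κ i)) w -`
constant term), and `M⁻¹` has entries in `K` (`Matrix.inv_def`, the determinant and the adjugate of a matrix with
entries in the subfield `K`; e.g. `M = M'.map (algebraMap K ℂ)`, `RingHom.map_det`, `RingHom.map_adjugate`); so `w = M⁻¹ (M w)` has
entries in `K`.
-/

noncomputable section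

namespace Pool.Agent.Lib.MP5e

open Polynomial Topology

theorem qrank {m n : ℕ} (f : Fin n → QF m) (w : Fin m → ℂ) (r : ℕ) (κ : Fin r → Fin n)
    (hκ : LinearIndependent ℂ (fun (i : Fin r) (l : Fin m) =>
      ((f (κ i)).p (some l) : ℂ) + ((f (κ i)).q (some l) : ℂ) * qom (f (κ i)).D)) :
    ∃ T : Finset (Fin m), T.card + r = m ∧ ∀ K : IntermediateField ℚ ℂ, QCl K →
      (∀ i, qN (f (κ i)) w ∈ K) → (∀ l ∈ T, w l ∈ K) → ∀ l, w l ∈ K := by
  classical
  set a : Fin r → Fin m → ℂ := fun (i : Fin r) (l : Fin m) =>
      ((f (κ i)).p (some l) : ℂ) + ((f (κ i)).q (some l) : ℂ) * qom (f (κ i)).D with ha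
  set v : Fin r ⊕ Fin m → (Fin m → ℂ) := Sum.elim a (fun l => Pi.single l 1) with hv
  have hs : LinearIndepOn ℂ v (Set.range Sum.inl) := by
    rw [linearIndepOn_range_iff Sum.inl_injective]
    exact hκ
  obtain ⟨b, -, hsb, hspan, hb⟩ := exists_linearIndepOn_extension hs (Set.subset_univ _)
  have hspan' : ⊤ ≤ Submodule.span ℂ (Set.range fun x : b => v x) := by
    intro x _
    have h1 : x = ∑ l, x l • (Pi.single l 1 : Fin m → ℂ) := by
      funext i
      simp [Finset.sum_apply, Pi.single_apply]
    rw [h1]
    refine Submodule.sum_mem _ fun l _ => Submodule.smul_mem _ _ ?_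
    have h2 : v (Sum.inr l) ∈ Submodule.span ℂ (v '' b) := hspan ⟨Sum.inr l, trivial, rfl⟩
    have h3 : v '' b = Set.range fun x : b => v x := Set.image_eq_range v b
    rw [h3] at h2
    exact h2
  have hcard : Fintype.card b = m := by
    have h1 := Module.finrank_eq_card_basis (Module.Basis.mk hb hspan')
    rw [Module.finrank_fin_fun] at h1
    exact h1.symm
  set T : Finset (Fin m) := Finset.univ.filter fun l => Sum.inr l ∈ b with hT
  have hTr : T.card + r = m := by
    refine Eq.trans ?_ hcard
    have e1 : Fintype.card b = (Finset.univ.filter fun x : Fin r ⊕ Fin m => x ∈ b).card :=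
      Fintype.card_subtype _
    have e2 : (Finset.univ.filter fun x : Fin r ⊕ Fin m => x ∈ b) =
        (Finset.univ : Finset (Fin r)).disjSum T := by
      ext x
      rcases x with i | l
      · simp only [Finset.mem_filter, Finset.mem_univ, true_and, Finset.inl_mem_disjSum, iff_true]
        exact hsb ⟨i, rfl⟩
      · simp [hT]
    rw [e1, e2, Finset.card_disjSum, Finset.card_univ, Fintype.card_fin, add_comm]
  refine ⟨T, hTr, ?_⟩
  intro K hK hN hw
  -- the family over `K`
  have hom : ∀ D, qom D ∈ K := fun D => qcl_om hK D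
  have hrat : ∀ q : ℚ, (q : ℂ) ∈ K := fun q => by
    have := K.algebraMap_mem q
    simp at this ⊢
  have haK : ∀ i l, a i l ∈ K := fun i l => K.add_mem (hrat _) (K.mul_mem (hrat _) (hom _))
  set v' : b → (Fin m → K) := fun x => match x.1 with
    | Sum.inl i => fun l => ⟨a i l, haK i l⟩
    | Sum.inr l => Pi.single l 1 with hv'
  have hvv' : ∀ (x : b) (l : Fin m), ((v' x l : K) : ℂ) = v x l := by
    rintro ⟨x, hx⟩ l
    rcases x with i | l'
    · rfl
    · simp only [hv', hv, Sum.elim_inr, Pi.single_apply]
      split_ifs <;> rfl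
  let ι' : (Fin m → K) →ₗ[K] (Fin m → ℂ) :=
    { toFun := fun u l => ((u l : K) : ℂ)
      map_add' := fun u u' => rfl
      map_smul' := fun c u => rfl }
  have hli : LinearIndependent K v' := by
    apply LinearIndependent.of_comp ι'
    have h1 : (ι' ∘ v') = fun x : b => v x := by
      funext x l
      exact hvv' x l
    rw [h1]
    have h2 : LinearIndependent ℂ (fun x : b => v x) := hb
    exact h2.restrict_scalars (by
      intro x y hxy
      simp only [Algebra.smul_def, mul_one] at hxy
      exact Subtype.ext hxy)
  have htop : Submodule.span K (Set.range v') = ⊤ := by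
    apply hli.span_eq_top_of_card_eq_finrank'
    rw [hcard, Module.finrank_fin_fun]
  let S : Submodule K (Fin m → K) :=
    { carrier := {u | ∑ l, ((u l : K) : ℂ) * w l ∈ K}
      add_mem' := by
        intro u u' hu hu'
        simp only [Set.mem_ofPred_eq, Pi.add_apply] at hu hu' ⊢
        have : ∑ l, (((u l + u' l : K) : ℂ)) * w l =
            ∑ l, ((u l : K) : ℂ) * w l + ∑ l, ((u' l : K) : ℂ) * w l := by
          rw [← Finset.sum_add_distrib]
          refine Finset.sum_congr rfl fun l _ => ?_
          push_cast
          ring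
        rw [this]
        exact K.add_mem hu hu'
      zero_mem' := by
        simp only [Set.mem_ofPred_eq, Pi.zero_apply]
        simp
      smul_mem' := by
        intro c u hu
        simp only [Set.mem_ofPred_eq, Pi.smul_apply, smul_eq_mul] at hu ⊢
        have : ∑ l, (((c * u l : K) : ℂ)) * w l = (c : ℂ) * ∑ l, ((u l : K) : ℂ) * w l := by
          rw [Finset.mul_sum]
          refine Finset.sum_congr rfl fun l _ => ?_
          push_cast
          ring
        rw [this]
        exact K.mul_mem c.2 hu }
  have hSv : ∀ x : b, v' x ∈ S := by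
    rintro ⟨x, hx⟩
    change ∑ l, ((v' ⟨x, hx⟩ l : K) : ℂ) * w l ∈ K
    simp only [hvv']
    rcases x with i | l'
    · have h1 : ∑ l, v (Sum.inl i) l * w l = qN (f (κ i)) w -
          (((f (κ i)).p none : ℂ) + ((f (κ i)).q none : ℂ) * qom (f (κ i)).D) := by
        simp only [qN, qaf, hv, Sum.elim_inl, ha]
        ring
      rw [h1]
      exact K.sub_mem (hN i) (K.add_mem (hrat _) (K.mul_mem (hrat _) (hom _)))
    · have h1 : ∑ l, v (Sum.inr l') l * w l = w l' := by
        simp only [hv, Sum.elim_inr, Pi.single_apply]
        simp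
      rw [h1]
      exact hw l' (by
        rw [hT, Finset.mem_filter]
        exact ⟨Finset.mem_univ _, hx⟩)
  have hStop : S = ⊤ := by
    rw [eq_top_iff, ← htop, Submodule.span_le]
    rintro _ ⟨x, rfl⟩
    exact hSv x
  intro l
  have h1 : (Pi.single l 1 : Fin m → K) ∈ S := by
    rw [hStop]
    trivial
  have h2 : ∑ l', (((Pi.single l 1 : Fin m → K) l' : K) : ℂ) * w l' ∈ K := h1
  have h3 : ∑ l', (((Pi.single l 1 : Fin m → K) l' : K) : ℂ) * w l' = w l := by
    rw [Finset.sum_eq_single l]
    · rw [Pi.single_eq_same]
      simp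
    · intro l' _ hl'
      rw [Pi.single_eq_of_ne hl']
      simp
    · intro h
      exact absurd (Finset.mem_univ l) h
  rw [h3] at h2
  exact h2

end Pool.Agent.Lib.MP5e
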