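import Pool.Agent.Lib.MP_5e64e7_nt.QTpt

set_option autoImplicit false

/-!
# Q.RELQ : over one field a real Moebius relation gives a rational one
-/

noncomputable section

namespace Pool.Agent.Lib.MP5e

open Topology ComplexConjugate

/-- the rational affine form -/
private def qr0 {m : ℕ} (p : Option (Fin m) → ℚ) (x : Fin m → ℚ) : ℚ :=
  (∑ l, p (some l) * x l) + p none

private theorem qaf_rat {m : ℕ} (ω : ℂ) (p q : Option (Fin m) → ℚ) (x : Fin m → ℚ) :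
    qaf ω p q (fun l => (((x l : ℚ) : ℝ) : ℂ)) = ((qr0 p x : ℚ) : ℂ) + ((qr0 q x : ℚ) : ℂ) * ω := by
  unfold qaf qr0
  push_cast
  have h : ∑ l, ((p (some l) : ℂ) + (q (some l) : ℂ) * ω) * (x l : ℂ) =
      ∑ l, (p (some l) : ℂ) * (x l : ℂ) + (∑ l, (q (some l) : ℂ) * (x l : ℂ)) * ω := by
    rw [Finset.sum_mul, ← Finset.sum_add_distrib]
    exact Finset.sum_congr rfl fun l _ => by ring
  rw [h]
  ring

private theorem qrq_cont {m : ℕ} (ω : ℂ) (p q : Option (Fin m) → ℚ) :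
    Continuous fun x : Fin m → ℝ => qaf ω p q (fun l => (x l : ℂ)) := by
  unfold qaf
  fun_prop

/-- a real relation between rational numbers and `ω = √(-D)` survives a `ℚ`-linear functional -/
private theorem qrq_lin (D : ℕ) (hD : 1 ≤ D) (a b c d : ℝ) (φ : ℝ →ₗ[ℚ] ℚ)
    (P Q R S P' Q' R' S' : ℚ)
    (h : ((P' : ℂ) + Q' * qom D) * ((c : ℂ) * ((P : ℂ) + Q * qom D) + (d : ℂ) * ((R : ℂ) + S * qom D)) =
      ((R' : ℂ) + S' * qom D) * ((a : ℂ) * ((P : ℂ) + Q * qom D) + (b : ℂ) * ((R : ℂ) + S * qom D))) :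
    ((P' : ℂ) + Q' * qom D) * ((φ c : ℂ) * ((P : ℂ) + Q * qom D) + (φ d : ℂ) * ((R : ℂ) + S * qom D)) =
      ((R' : ℂ) + S' * qom D) * ((φ a : ℂ) * ((P : ℂ) + Q * qom D) + (φ b : ℂ) * ((R : ℂ) + S * qom D)) := by
  have hsq := qom_sq D
  have hreal : ∀ u v : ℝ, (u : ℂ) + (v : ℂ) * qom D = 0 → u = 0 ∧ v = 0 := by
    intro u v h0
    have h1 := congrArg Complex.im h0
    have h2 := congrArg Complex.re h0
    have e1 : ((u : ℂ) + (v : ℂ) * qom D).im = v * (qom D).im := by simp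
    have e2 : ((u : ℂ) + (v : ℂ) * qom D).re = u + v * (qom D).re := by simp
    rw [e1, Complex.zero_im] at h1
    have h3 : v = 0 := (mul_eq_zero.mp h1).resolve_right (qom_pos hD).ne'
    rw [e2, h3, Complex.zero_re, zero_mul, add_zero] at h2
    exact ⟨h2, h3⟩
  have h1 := hreal
    (c * ((P' * P - D * Q' * Q : ℚ) : ℝ) + d * ((P' * R - D * Q' * S : ℚ) : ℝ) -
      a * ((R' * P - D * S' * Q : ℚ) : ℝ) - b * ((R' * R - D * S' * S : ℚ) : ℝ))
    (c * ((P' * Q + Q' * P : ℚ) : ℝ) + d * ((P' * S + Q' * R : ℚ) : ℝ) -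
      a * ((R' * Q + S' * P : ℚ) : ℝ) - b * ((R' * S + S' * R : ℚ) : ℝ)) (by
    push_cast
    linear_combination h - ((Q' : ℂ) * (c * Q + d * S) - S' * (a * Q + b * S)) * hsq)
  obtain ⟨h2, h3⟩ := h1
  have hφ : ∀ (x : ℝ) (t : ℚ), φ (x * (t : ℝ)) = t * φ x := by
    intro x t
    have e : x * (t : ℝ) = t • x := by
      rw [Rat.smul_def]
      ring
    rw [e, map_smul, smul_eq_mul]
  have h4 := congrArg φ h2
  have h5 := congrArg φ h3
  simp only [map_sub, map_add, map_zero, hφ] at h4 h5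
  have h4' : ((((P' * P - D * Q' * Q) * φ c + (P' * R - D * Q' * S) * φ d -
      (R' * P - D * S' * Q) * φ a - (R' * R - D * S' * S) * φ b : ℚ) : ℂ)) = 0 := by
    rw [h4]; simp
  have h5' : ((((P' * Q + Q' * P) * φ c + (P' * S + Q' * R) * φ d -
      (R' * Q + S' * P) * φ a - (R' * S + S' * R) * φ b : ℚ) : ℂ)) = 0 := by
    rw [h5]; simp
  push_cast at h4' h5'
  linear_combination h4' + qom D * h5' +
    ((Q' : ℂ) * (φ c * Q + φ d * S) - S' * (φ a * Q + φ b * S)) * hsq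

theorem qrel_rat {m : ℕ} (f g : QF m) (hD : 1 ≤ f.D) (hfg : g.D = f.D) (w : Fin m → ℝ)
    (hf : 0 < (qz f (fun l => (w l : ℂ))).im) (hg : 0 < (qz g (fun l => (w l : ℂ))).im)
    (a b c d : ℝ) (hdet : a * d - b * c ≠ 0)
    (h : ∀ x : Fin m → ℂ, qN g x * (c * qN f x + d * qE f x) =
      qE g x * (a * qN f x + b * qE f x)) :
    ∃ p q r s : ℚ, 0 < p * s - q * r ∧ qz g (fun l => (w l : ℂ)) =
      ((p : ℂ) * qz f (fun l => (w l : ℂ)) + q) / ((r : ℂ) * qz f (fun l => (w l : ℂ)) + s) := by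
  obtain ⟨φ, hφ⟩ : ∃ φ : ℝ →ₗ[ℚ] ℚ, ¬ (φ a = 0 ∧ φ b = 0) := by
    by_contra hcon
    push Not at hcon
    have ha : a = 0 := (Module.forall_dual_apply_eq_zero_iff ℚ a).mp fun φ => (hcon φ).1
    have hb : b = 0 := (Module.forall_dual_apply_eq_zero_iff ℚ b).mp fun φ => (hcon φ).2
    apply hdet
    rw [ha, hb]
    ring
  have hrat : ∀ x : Fin m → ℚ,
      qN g (fun l => (((x l : ℚ) : ℝ) : ℂ)) * ((φ c : ℂ) * qN f (fun l => (((x l : ℚ) : ℝ) : ℂ)) +
        (φ d : ℂ) * qE f (fun l => (((x l : ℚ) : ℝ) : ℂ))) =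
      qE g (fun l => (((x l : ℚ) : ℝ) : ℂ)) * ((φ a : ℂ) * qN f (fun l => (((x l : ℚ) : ℝ) : ℂ)) +
        (φ b : ℂ) * qE f (fun l => (((x l : ℚ) : ℝ) : ℂ))) := by
    intro x
    have h1 := h (fun l => (((x l : ℚ) : ℝ) : ℂ))
    unfold qN qE at h1 ⊢
    rw [hfg] at h1 ⊢
    rw [qaf_rat, qaf_rat, qaf_rat, qaf_rat] at h1 ⊢
    exact qrq_lin f.D hD a b c d φ _ _ _ _ _ _ _ _ h1
  have hreal : ∀ x : Fin m → ℝ,
      qN g (fun l => ((x l : ℝ) : ℂ)) * ((φ c : ℂ) * qN f (fun l => ((x l : ℝ) : ℂ)) +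
        (φ d : ℂ) * qE f (fun l => ((x l : ℝ) : ℂ))) =
      qE g (fun l => ((x l : ℝ) : ℂ)) * ((φ a : ℂ) * qN f (fun l => ((x l : ℝ) : ℂ)) +
        (φ b : ℂ) * qE f (fun l => ((x l : ℝ) : ℂ))) := by
    have hc1 : Continuous fun x : Fin m → ℝ => qN f (fun l => (x l : ℂ)) := qrq_cont _ _ _
    have hc2 : Continuous fun x : Fin m → ℝ => qE f (fun l => (x l : ℂ)) := qrq_cont _ _ _
    have hc3 : Continuous fun x : Fin m → ℝ => qN g (fun l => (x l : ℂ)) := qrq_cont _ _ _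
    have hc4 : Continuous fun x : Fin m → ℝ => qE g (fun l => (x l : ℂ)) := qrq_cont _ _ _
    have hdense : DenseRange (fun (x : Fin m → ℚ) (l : Fin m) => ((x l : ℚ) : ℝ)) :=
      DenseRange.piMap fun _ => Rat.denseRange_cast
    have heq := hdense.equalizer
      (g := fun x : Fin m → ℝ => qN g (fun l => ((x l : ℝ) : ℂ)) *
        ((φ c : ℂ) * qN f (fun l => ((x l : ℝ) : ℂ)) + (φ d : ℂ) * qE f (fun l => ((x l : ℝ) : ℂ))))
      (h := fun x : Fin m → ℝ => qE g (fun l => ((x l : ℝ) : ℂ)) *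
        ((φ a : ℂ) * qN f (fun l => ((x l : ℝ) : ℂ)) + (φ b : ℂ) * qE f (fun l => ((x l : ℝ) : ℂ))))
      (hc3.mul ((continuous_const.mul hc1).add (continuous_const.mul hc2)))
      (hc4.mul ((continuous_const.mul hc1).add (continuous_const.mul hc2)))
      (funext hrat)
    exact fun x => congrFun heq x
  have hw := hreal w
  obtain ⟨z, hz⟩ : ∃ z, z = qz f (fun l => (w l : ℂ)) := ⟨_, rfl⟩
  obtain ⟨z', hz'⟩ : ∃ z', z' = qz g (fun l => (w l : ℂ)) := ⟨_, rfl⟩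
  rw [← hz] at hf ⊢
  rw [← hz'] at hg ⊢
  have hE : qE f (fun l => (w l : ℂ)) ≠ 0 := by
    intro h0
    rw [hz] at hf
    unfold qz at hf
    rw [h0, div_zero, Complex.zero_im] at hf
    exact lt_irrefl _ hf
  have hE' : qE g (fun l => (w l : ℂ)) ≠ 0 := by
    intro h0
    rw [hz'] at hg
    unfold qz at hg
    rw [h0, div_zero, Complex.zero_im] at hg
    exact lt_irrefl _ hg
  have hN : qN f (fun l => (w l : ℂ)) = z * qE f (fun l => (w l : ℂ)) := by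
    rw [hz]
    unfold qz
    rw [div_mul_cancel₀ _ hE]
  have hN' : qN g (fun l => (w l : ℂ)) = z' * qE g (fun l => (w l : ℂ)) := by
    rw [hz']
    unfold qz
    rw [div_mul_cancel₀ _ hE']
  rw [hN, hN'] at hw
  have hrel : z' * ((φ c : ℂ) * z + (φ d : ℂ)) = (φ a : ℂ) * z + (φ b : ℂ) := by
    apply mul_left_cancel₀ (mul_ne_zero hE hE')
    linear_combination hw
  have him : ∀ p q : ℚ, ((p : ℂ) * z + (q : ℂ)) = 0 → p = 0 ∧ q = 0 := by
    intro p q h0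
    have h2 := congrArg Complex.im h0
    have h3 := congrArg Complex.re h0
    have e1 : ((p : ℂ) * z + (q : ℂ)).im = p * z.im := by
      rw [show (p : ℂ) = ((p : ℝ) : ℂ) by push_cast; rfl,
        show (q : ℂ) = ((q : ℝ) : ℂ) by push_cast; rfl]
      simp
    have e2 : ((p : ℂ) * z + (q : ℂ)).re = p * z.re + q := by
      rw [show (p : ℂ) = ((p : ℝ) : ℂ) by push_cast; rfl,
        show (q : ℂ) = ((q : ℝ) : ℂ) by push_cast; rfl]
      simp
    rw [e1, Complex.zero_im] at h2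
    rw [e2, Complex.zero_re] at h3
    have hp0 : (p : ℝ) = 0 := (mul_eq_zero.1 h2).resolve_right hf.ne'
    have hq0 : (q : ℝ) = 0 := by
      rw [hp0] at h3
      linarith
    exact ⟨by exact_mod_cast hp0, by exact_mod_cast hq0⟩
  have hd : (φ c : ℂ) * z + (φ d : ℂ) ≠ 0 := by
    intro h0
    rw [h0, mul_zero] at hrel
    exact hφ (him _ _ hrel.symm)
  refine ⟨φ a, φ b, φ c, φ d, ?_, by rw [eq_div_iff hd]; exact hrel⟩
  generalize φ a = p at *
  generalize φ b = q at *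
  generalize φ c = r at *
  generalize φ d = s at *
  have h2 : z' * ((r : ℂ) * z + s) * (starRingEnd ℂ) ((r : ℂ) * z + s) =
      ((p : ℂ) * z + q) * (starRingEnd ℂ) ((r : ℂ) * z + s) := by rw [hrel]
  have h3 : z' * ((r : ℂ) * z + s) * (starRingEnd ℂ) ((r : ℂ) * z + s) =
      ((‖(r : ℂ) * z + s‖ ^ 2 : ℝ) : ℂ) * z' := by
    rw [mul_assoc, Complex.mul_conj, Complex.normSq_eq_norm_sq, mul_comm]
  rw [h3] at h2
  have h4 := congrArg Complex.im h2
  have e1 : (((‖(r : ℂ) * z + s‖ ^ 2 : ℝ) : ℂ) * z').im = ‖(r : ℂ) * z + s‖ ^ 2 * z'.im := by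
    simp only [Complex.mul_im, Complex.ofReal_re, Complex.ofReal_im, zero_mul, add_zero]
  have e2 : (((p : ℂ) * z + q) * (starRingEnd ℂ) ((r : ℂ) * z + s)).im =
      ((p * s - q * r : ℚ) : ℝ) * z.im := by
    have hp' : (p : ℂ) = ((p : ℝ) : ℂ) := by push_cast; rfl
    have hq' : (q : ℂ) = ((q : ℝ) : ℂ) := by push_cast; rfl
    have hr' : (r : ℂ) = ((r : ℝ) : ℂ) := by push_cast; rfl
    have hs' : (s : ℂ) = ((s : ℝ) : ℂ) := by push_cast; rfl
    rw [hp', hq', hr', hs']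
    simp only [map_add, map_mul, Complex.conj_ofReal, Complex.mul_im, Complex.add_im,
      Complex.add_re, Complex.mul_re, Complex.ofReal_re, Complex.ofReal_im, Complex.conj_re,
      Complex.conj_im, zero_mul, add_zero, sub_zero]
    push_cast
    ring
  rw [e1, e2] at h4
  have h5 : 0 < ‖(r : ℂ) * z + s‖ ^ 2 * z'.im :=
    mul_pos (pow_pos (norm_pos_iff.2 hd) 2) hg
  rw [h4] at h5
  have h6 : (0 : ℝ) < ((p * s - q * r : ℚ) : ℝ) := pos_of_mul_pos_left h5 hf.le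
  exact_mod_cast h6

end Pool.Agent.Lib.MP5e
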