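import Pool.Agent.Lib.MP_5e64e7_nt.QDefs

set_option autoImplicit false

/-!
# Q.ROWA : the row sums `qrow z = ∑_{n ∈ ℤ} 1/(z+n)²` (about 150 lines)

* `qrow_summable` : for every `z` the family `((z+n)²)⁻¹` is summable (comparison with `1/n²` for `|n| ≥ 2‖z‖ + 1`;
  Mathlib: `EisensteinSeries.linear_right_summable` / `summable_one_div_int_add_...` /
  `Summable.of_norm_bounded_eventually`, or `Summable.of_norm_bounded` with `4/(n²)` off a finite set;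
  `summable_int_iff_summable_nat_and_neg` may help).
* `qrow_add_int`, `qrow_neg` : shift / reflect the index (`Equiv.addRight`, `Equiv.neg`, `tsum_eq`).
* `qrow_exp` : Lipschitz formula for `k = 2`: for `Im z > 0`,
  `∑_n 1/(z+n)² = (-2πi)² ∑_{k≥1} k e^{2πikz} = -4π² q/(1-q)²`. Mathlib:
  `EisensteinSeries.qExpansion_identity` (`Mathlib/NumberTheory/ModularForms/EisensteinSeries/QExpansion.lean`),
  and `tsum_coe_mul_geometric_of_norm_lt_one`.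
* `qrow_norm` : from `qrow_exp`, `‖q‖ = e^{-2π Im z}`, `‖1 - q‖ ≥ 1 - ‖q‖`.
* `qrow_dist` : for `a ≥ 1`, `∑_{t<a} qrow (z + t/a) = ∑_t ∑_n ((z + (t + a n)/a)²)⁻¹ = a² ∑_N ((a z + N)²)⁻¹`:
  `(t, n) ↦ t + a n` is a bijection `Fin a × ℤ → ℤ` (`Int.divModEquiv`); finite sum of summable families.
-/

noncomputable section

namespace Pool.Agent.Lib.MP5e

open Polynomial Topology

theorem qrow_summable (z : ℂ) : Summable fun n : ℤ => ((z + (n : ℂ)) ^ 2)⁻¹ := by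
  have h := EisensteinSeries.linear_right_summable z 1 (k := 2) le_rfl
  refine h.congr ?_
  intro n
  push_cast
  rw [one_mul]
  norm_cast

theorem qrow_add_int (z : ℂ) (n : ℤ) : qrow (z + (n : ℂ)) = qrow z := by
  unfold qrow
  rw [← (Equiv.addRight n).tsum_eq (fun m : ℤ => ((z + (m : ℂ)) ^ 2)⁻¹)]
  apply tsum_congr
  intro m
  simp only [Equiv.coe_addRight]
  push_cast
  congr 2
  ring

theorem qrow_neg (z : ℂ) : qrow (-z) = qrow z := by
  unfold qrow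
  rw [← (Equiv.neg ℤ).tsum_eq (fun m : ℤ => ((z + (m : ℂ)) ^ 2)⁻¹)]
  apply tsum_congr
  intro m
  simp only [Equiv.neg_apply]
  push_cast
  congr 1
  ring

theorem qrow_zero : qrow 0 = (Real.pi : ℂ) ^ 2 / 3 := by
  unfold qrow
  simp only [zero_add]
  have hs := qrow_summable 0
  simp only [zero_add] at hs
  have h0 : HasSum (fun n : ℕ => ((((n : ℕ) : ℂ)) ^ 2)⁻¹) ((Real.pi : ℂ) ^ 2 / 6) := by
    have h1 := Complex.hasSum_ofReal.mpr hasSum_zeta_two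
    have h2 : ((Real.pi ^ 2 / 6 : ℝ) : ℂ) = (Real.pi : ℂ) ^ 2 / 6 := by push_cast; ring
    rw [h2] at h1
    have h3 : (fun n : ℕ => (((1 : ℝ) / (n : ℝ) ^ 2 : ℝ) : ℂ)) =
        fun n : ℕ => ((((n : ℕ) : ℂ)) ^ 2)⁻¹ := by
      funext n
      push_cast
      rw [one_div]
    rw [h3] at h1
    exact h1
  have h1 : HasSum (fun n : ℕ => ((((n + 1 : ℕ) : ℕ) : ℂ) ^ 2)⁻¹) ((Real.pi : ℂ) ^ 2 / 6) := by
    have := (hasSum_nat_add_iff' (f := fun n : ℕ => ((((n : ℕ) : ℂ)) ^ 2)⁻¹) 1).mpr h0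
    simpa using this
  have h2 : ∑' n : ℤ, (((n : ℂ)) ^ 2)⁻¹ = (Real.pi : ℂ) ^ 2 / 6 + (Real.pi : ℂ) ^ 2 / 6 := by
    refine (HasSum.of_nat_of_neg_add_one (f := fun n : ℤ => ((n : ℂ) ^ 2)⁻¹) ?_ ?_).tsum_eq
    · simpa using h0
    · have : (fun n : ℕ => (((-((n : ℤ) + 1) : ℤ) : ℂ) ^ 2)⁻¹) =
          fun n : ℕ => ((((n + 1 : ℕ) : ℕ) : ℂ) ^ 2)⁻¹ := by
        funext n
        push_cast
        congr 1
        ring
      rw [this]
      exact h1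
  rw [h2]
  ring

theorem qrow_exp {z : ℂ} (hz : 0 < z.im) :
    qrow z = -4 * (Real.pi : ℂ) ^ 2 * (Complex.exp (2 * (Real.pi : ℂ) * Complex.I * z) /
      (1 - Complex.exp (2 * (Real.pi : ℂ) * Complex.I * z)) ^ 2) := by
  have h := EisensteinSeries.qExpansion_identity (k := 1) le_rfl ⟨z, hz⟩
  have hq : ‖Complex.exp (2 * (Real.pi : ℂ) * Complex.I * z)‖ < 1 := by
    rw [Complex.norm_exp]
    have hre : (2 * (Real.pi : ℂ) * Complex.I * z).re = -(2 * Real.pi * z.im) := by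
      simp [Complex.mul_re, Complex.mul_im]
    rw [hre, Real.exp_lt_one_iff]
    have := Real.pi_pos
    have : 0 < 2 * Real.pi * z.im := by positivity
    linarith
  have h2 : ∑' n : ℕ, (n : ℂ) ^ 1 * Complex.exp (2 * (Real.pi : ℂ) * Complex.I * z) ^ n =
      Complex.exp (2 * (Real.pi : ℂ) * Complex.I * z) /
        (1 - Complex.exp (2 * (Real.pi : ℂ) * Complex.I * z)) ^ 2 := by
    simp only [pow_one]
    exact tsum_coe_mul_geometric_of_norm_lt_one hq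
  change ∑' n : ℤ, 1 / (z + (n : ℂ)) ^ (1 + 1) = ((-2 * (Real.pi : ℂ) * Complex.I) ^ (1 + 1) /
    ((Nat.factorial 1 : ℕ) : ℂ)) *
    ∑' n : ℕ, (n : ℂ) ^ 1 * Complex.exp (2 * (Real.pi : ℂ) * Complex.I * z) ^ n at h
  rw [h2] at h
  unfold qrow
  have h3 : ∑' n : ℤ, ((z + (n : ℂ)) ^ 2)⁻¹ = ∑' n : ℤ, 1 / (z + (n : ℂ)) ^ (1 + 1) := by
    apply tsum_congr
    intro n
    rw [one_div]
  rw [h3, h, Nat.factorial_one, Nat.cast_one, div_one]
  congr 1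
  have hI : Complex.I ^ 2 = -1 := Complex.I_sq
  linear_combination (4 * (Real.pi : ℂ) ^ 2) * hI

theorem qrow_norm {z : ℂ} (hz : 0 < z.im) :
    ‖qrow z‖ ≤ 4 * Real.pi ^ 2 * (Real.exp (-(2 * Real.pi * z.im)) /
      (1 - Real.exp (-(2 * Real.pi * z.im))) ^ 2) := by
  have hn : ‖Complex.exp (2 * (Real.pi : ℂ) * Complex.I * z)‖ =
      Real.exp (-(2 * Real.pi * z.im)) := by
    rw [Complex.norm_exp]
    congr 1
    simp [Complex.mul_re, Complex.mul_im]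
  have hlt : Real.exp (-(2 * Real.pi * z.im)) < 1 := by
    rw [Real.exp_lt_one_iff]
    have := Real.pi_pos
    have : 0 < 2 * Real.pi * z.im := by positivity
    linarith
  have h0 : 0 < 1 - Real.exp (-(2 * Real.pi * z.im)) := by linarith
  have h1 : 1 - Real.exp (-(2 * Real.pi * z.im)) ≤
      ‖1 - Complex.exp (2 * (Real.pi : ℂ) * Complex.I * z)‖ := by
    have h2 := norm_sub_norm_le (1 : ℂ) (Complex.exp (2 * (Real.pi : ℂ) * Complex.I * z))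
    rw [norm_one, hn] at h2
    exact h2
  have hpi : ‖(-4 * (Real.pi : ℂ) ^ 2)‖ = 4 * Real.pi ^ 2 := by
    rw [norm_mul, norm_neg, norm_pow, Complex.norm_real, Real.norm_eq_abs,
      abs_of_pos Real.pi_pos]
    norm_num
  rw [qrow_exp hz, norm_mul, norm_div, norm_pow, hn, hpi]
  have := Real.exp_pos (-(2 * Real.pi * z.im))
  gcongr

theorem qrow_dist {a : ℕ} (ha : 1 ≤ a) (z : ℂ) :
    ∑ t ∈ Finset.range a, qrow (z + (t : ℂ) / (a : ℂ)) = (a : ℂ) ^ 2 * qrow ((a : ℂ) * z) := by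
  have : NeZero a := ⟨by omega⟩
  have ha0 : (a : ℂ) ≠ 0 := Nat.cast_ne_zero.mpr (by omega)
  have hs := qrow_summable ((a : ℂ) * z)
  have e := (Int.divModEquiv a).symm
  have hs2 : Summable fun p : ℤ × Fin a =>
      (((a : ℂ) * z + (((Int.divModEquiv a).symm p : ℤ) : ℂ)) ^ 2)⁻¹ :=
    ((Int.divModEquiv a).symm.summable_iff (f := fun n : ℤ => (((a : ℂ) * z + (n : ℂ)) ^ 2)⁻¹)).mpr
      hs
  have h1 : qrow ((a : ℂ) * z) = ∑' p : ℤ × Fin a,
      (((a : ℂ) * z + (((Int.divModEquiv a).symm p : ℤ) : ℂ)) ^ 2)⁻¹ := by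
    unfold qrow
    exact ((Int.divModEquiv a).symm.tsum_eq
      (fun n : ℤ => (((a : ℂ) * z + (n : ℂ)) ^ 2)⁻¹)).symm
  have h2 : ∀ p : ℤ × Fin a, (((a : ℂ) * z + (((Int.divModEquiv a).symm p : ℤ) : ℂ)) ^ 2)⁻¹ =
      ((a : ℂ) ^ 2)⁻¹ * ((z + ((p.2 : ℕ) : ℂ) / (a : ℂ) + (p.1 : ℂ)) ^ 2)⁻¹ := by
    intro p
    rw [Int.divModEquiv_symm_apply, ← mul_inv, ← mul_pow]
    congr 2
    push_cast
    field_simp
    ring
  have hs3 : Summable fun p : Fin a × ℤ =>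
      (((a : ℂ) * z + (((Int.divModEquiv a).symm (p.2, p.1) : ℤ) : ℂ)) ^ 2)⁻¹ :=
    (Equiv.prodComm (Fin a) ℤ).summable_iff.mpr hs2
  have h3 : qrow ((a : ℂ) * z) = ∑' p : Fin a × ℤ,
      (((a : ℂ) * z + (((Int.divModEquiv a).symm (p.2, p.1) : ℤ) : ℂ)) ^ 2)⁻¹ := by
    rw [h1]
    exact ((Equiv.prodComm (Fin a) ℤ).tsum_eq _).symm
  rw [h3, hs3.tsum_prod, tsum_fintype]
  have h4 : ∀ t : Fin a, ∑' n : ℤ,
      (((a : ℂ) * z + (((Int.divModEquiv a).symm (n, t) : ℤ) : ℂ)) ^ 2)⁻¹ =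
      ((a : ℂ) ^ 2)⁻¹ * qrow (z + ((t : ℕ) : ℂ) / (a : ℂ)) := by
    intro t
    unfold qrow
    rw [← tsum_mul_left]
    exact tsum_congr fun n => h2 (n, t)
  simp only [h4]
  rw [← Finset.mul_sum, ← mul_assoc, mul_inv_cancel₀ (pow_ne_zero 2 ha0), one_mul,
    Fin.sum_univ_eq_sum_range (fun t : ℕ => qrow (z + (t : ℂ) / (a : ℂ)))]

end Pool.Agent.Lib.MP5e
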