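import Pool.Agent.Lib.MP_5e64e7_nt.QRowA
import Pool.Agent.Lib.MP_5e64e7_nt.QTpt
import Pool.Agent.Lib.MP_5e64e7_nt.OLam

set_option autoImplicit false

/-!
# Q.ROWB : Eisenstein summation of `℘` and `E₂` (about 150 lines)

* `qrow_summable_tau` : `m ↦ qrow (z + m τ)`, `m ∈ ℤ`, is absolutely summable: for `m` large `Im (z + m τ)` is
  large and `‖qrow‖ ≤ C e^{-2π m Im τ}` (`qrow_norm`, the denominator is at least `1/4` for `Im ≥ 1`), for `m → -∞`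
  use `qrow (z + m τ) = qrow (-z + (-m) τ)` (`qrow_neg`). (`summable_int_iff_summable_nat_and_neg` or
  `Summable.of_nat_of_neg`, comparison with a geometric series off a finite set.)
* `qrow_E2` : `∑_{m ∈ ℤ} qrow (m τ) = qrow 0 + 2 ∑_{m ≥ 1} qrow (m τ) = π²/3 - 8π² ∑_{m≥1} q^m/(1-q^m)²`
  `= (π²/3) (1 - 24 ∑ q^m/(1-q^m)²) = (π²/3) E2f τ` by `qrow_exp`, `qrow_zero`, `qrow_neg` and `lam_E2` (`OLam.lean`);
  `tsum_of_nat_of_neg_add_one` / `HasSum.of_nat_of_neg_add_one`.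
* `qrow_wp` : `L.hasSum_weierstrassP (ω₁ z)`: `∑_{l ∈ L} (1/(ω₁ z - l)² - 1/l²) = ℘(ω₁ z)`. Reindex `L` by
  `L.latticeEquivProd.symm : ℤ × ℤ ≃ L`, `(n, m) ↦ n ω₁ + m ω₂ = ω₁ (n + m τ)` (`latticeEquiv_symm_apply`), swap to `(m, n)`
  (`Equiv.prodComm`), multiply by `ω₁²`: `HasSum` over `(m, n)` of `((z - m τ - n)²)⁻¹ - ((m τ + n)²)⁻¹` with sum
  `ω₁² ℘(ω₁ z)`. For fixed `m` the inner sum over `n` is `qrow (z - m τ) - qrow (m τ)` (`qrow_summable`; replace `n` by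
  `-n` in the first sum), `HasSum.prod_fiberwise`; so `ω₁² ℘(ω₁ z) = ∑_m (qrow (z - m τ) - qrow (m τ))`. Split the sum
  (`qrow_summable_tau`), replace `m` by `-m` in the first sum, use `qrow_E2`. (`z` not in the lattice is not
  even needed with the conventions of Lean; `hz` may stay unused.)
-/

noncomputable section

namespace Pool.Agent.Lib.MP5e

open Polynomial Topology

private theorem sum_nat {τ : ℂ} (hτ : 0 < τ.im) (z : ℂ) :
    Summable fun n : ℕ => qrow (z + (n : ℂ) * τ) := by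
  obtain ⟨N, hN⟩ := exists_nat_ge ((1 - z.im) / τ.im)
  have hN' : 1 ≤ z.im + N * τ.im := by
    rw [div_le_iff₀ hτ] at hN
    linarith
  rw [← summable_nat_add_iff N]
  set r : ℝ := Real.exp (-(2 * Real.pi * τ.im)) with hr
  have hr1 : r < 1 := by
    rw [hr, Real.exp_lt_one_iff]
    have := Real.pi_pos
    have : 0 < 2 * Real.pi * τ.im := by positivity
    linarith
  have hr0 : 0 ≤ r := (Real.exp_pos _).le
  refine Summable.of_norm_bounded ((summable_geometric_of_lt_one hr0 hr1).mul_left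
    (16 * Real.pi ^ 2)) ?_
  intro n
  set w : ℂ := z + ((n + N : ℕ) : ℂ) * τ with hw
  have him : w.im = z.im + (n + N) * τ.im := by
    rw [hw]
    simp [Complex.add_im, Complex.mul_im]
  have him1 : 1 + n * τ.im ≤ w.im := by
    rw [him]
    linarith
  have hn0 : 0 ≤ (n : ℝ) * τ.im := by positivity
  have hw0 : 0 < w.im := by linarith
  have h1 := qrow_norm hw0
  have hpi : 3 < Real.pi := Real.pi_gt_three
  have he : Real.exp (-(2 * Real.pi * w.im)) ≤ 1 / 2 := by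
    have h2 : Real.exp (-(2 * Real.pi * w.im)) ≤ Real.exp (-1) := by
      apply Real.exp_le_exp.mpr
      nlinarith
    have h3 : Real.exp (-1) ≤ 1 / 2 := by
      rw [Real.exp_neg]
      have h4 : (2 : ℝ) ≤ Real.exp 1 := by
        have := Real.add_one_le_exp (1 : ℝ)
        linarith
      rw [one_div]
      exact inv_anti₀ (by norm_num) h4
    linarith
  have he0 : 0 < Real.exp (-(2 * Real.pi * w.im)) := Real.exp_pos _
  have hq : Real.exp (-(2 * Real.pi * w.im)) ≤ r ^ n := by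
    rw [hr, ← Real.exp_nat_mul]
    apply Real.exp_le_exp.mpr
    nlinarith
  refine h1.trans ?_
  have h5 : (1 : ℝ) / 4 ≤ (1 - Real.exp (-(2 * Real.pi * w.im))) ^ 2 := by
    nlinarith
  have h6 : Real.exp (-(2 * Real.pi * w.im)) / (1 - Real.exp (-(2 * Real.pi * w.im))) ^ 2 ≤
      4 * r ^ n := by
    rw [div_le_iff₀ (by linarith)]
    have h7 : 0 ≤ r ^ n := pow_nonneg hr0 n
    nlinarith
  calc 4 * Real.pi ^ 2 * (Real.exp (-(2 * Real.pi * w.im)) /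
        (1 - Real.exp (-(2 * Real.pi * w.im))) ^ 2) ≤ 4 * Real.pi ^ 2 * (4 * r ^ n) := by
        gcongr
    _ = 16 * Real.pi ^ 2 * r ^ n := by ring

theorem qrow_summable_tau {τ : ℂ} (hτ : 0 < τ.im) (z : ℂ) :
    Summable fun m : ℤ => qrow (z + (m : ℂ) * τ) := by
  rw [summable_int_iff_summable_nat_and_neg]
  constructor
  · have := sum_nat hτ z
    simpa using this
  · have h := sum_nat hτ (-z)
    refine h.congr ?_
    intro n
    rw [← qrow_neg]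
    congr 1
    push_cast
    ring

theorem qrow_E2 {τ : ℂ} (hτ : 0 < τ.im) :
    ∑' m : ℤ, qrow ((m : ℂ) * τ) = (Real.pi : ℂ) ^ 2 / 3 * E2f τ := by
  have hs : Summable fun n : ℕ => qrow ((n : ℂ) * τ) := by
    have := sum_nat hτ 0
    simpa using this
  have hs1 : Summable fun n : ℕ => qrow (((n + 1 : ℕ) : ℂ) * τ) :=
    (summable_nat_add_iff (f := fun n : ℕ => qrow ((n : ℂ) * τ)) 1).mpr hs
  have hneg : ∀ n : ℕ, qrow (((-((n : ℤ) + 1) : ℤ) : ℂ) * τ) = qrow (((n + 1 : ℕ) : ℂ) * τ) := by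
    intro n
    rw [← qrow_neg]
    congr 1
    push_cast
    ring
  have h1 : ∑' m : ℤ, qrow ((m : ℂ) * τ) =
      ∑' n : ℕ, qrow ((n : ℂ) * τ) + ∑' n : ℕ, qrow (((n + 1 : ℕ) : ℂ) * τ) := by
    rw [tsum_of_nat_of_neg_add_one (f := fun m : ℤ => qrow ((m : ℂ) * τ))]
    · congr 1
      exact tsum_congr hneg
    · simpa using hs
    · exact hs1.congr fun n => (hneg n).symm
  have h2 : ∑' n : ℕ, qrow ((n : ℂ) * τ) =
      (Real.pi : ℂ) ^ 2 / 3 + ∑' n : ℕ, qrow (((n + 1 : ℕ) : ℂ) * τ) := by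
    rw [hs.tsum_eq_zero_add]
    simp [qrow_zero]
  have h3 : ∀ n : ℕ, qrow (((n + 1 : ℕ) : ℂ) * τ) = -4 * (Real.pi : ℂ) ^ 2 *
      (Complex.exp (2 * (Real.pi : ℂ) * Complex.I * τ) ^ (n + 1) /
      (1 - Complex.exp (2 * (Real.pi : ℂ) * Complex.I * τ) ^ (n + 1)) ^ 2) := by
    intro n
    have him : 0 < (((n + 1 : ℕ) : ℂ) * τ).im := by
      have : (((n + 1 : ℕ) : ℂ) * τ).im = ((n + 1 : ℕ) : ℝ) * τ.im := by
        simp [Complex.mul_im]
      rw [this]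
      positivity
    rw [qrow_exp him]
    have : Complex.exp (2 * (Real.pi : ℂ) * Complex.I * (((n + 1 : ℕ) : ℂ) * τ)) =
        Complex.exp (2 * (Real.pi : ℂ) * Complex.I * τ) ^ (n + 1) := by
      rw [← Complex.exp_nat_mul]
      congr 1
      ring
    rw [this]
  rw [h1, h2, tsum_congr h3, tsum_mul_left, lam_E2 hτ]
  ring

private theorem scale_inv {W : ℂ} (hW : W ≠ 0) (x : ℂ) : W ^ 2 * (1 / (W * x) ^ 2) = (x ^ 2)⁻¹ := by
  rw [mul_pow, one_div, mul_inv, ← mul_assoc, mul_inv_cancel₀ (pow_ne_zero 2 hW), one_mul]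

theorem qrow_wp (L : PeriodPair) {τ : ℂ} (hτ : 0 < τ.im) (hL : L.ω₂ = τ * L.ω₁) (z : ℂ)
    (hz : L.ω₁ * z ∉ L.lattice) :
    ∑' m : ℤ, qrow (z + (m : ℂ) * τ) =
      L.ω₁ ^ 2 * L.weierstrassP (L.ω₁ * z) + (Real.pi : ℂ) ^ 2 / 3 * E2f τ := by
  have hW : L.ω₁ ≠ 0 := qom1_ne L
  let e : ℤ × ℤ ≃ L.lattice := (Equiv.prodComm ℤ ℤ).trans L.latticeEquivProd.symm.toEquiv
  have he : ∀ p : ℤ × ℤ, ((e p : L.lattice) : ℂ) = L.ω₁ * ((p.2 : ℂ) + (p.1 : ℂ) * τ) := by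
    intro p
    change ((L.latticeEquivProd.symm (p.2, p.1)).1 : ℂ) = _
    rw [L.latticeEquiv_symm_apply]
    simp only [hL]
    ring
  have H1 := L.hasSum_weierstrassP (L.ω₁ * z)
  have H2 := (e.hasSum_iff (f := fun l : L.lattice => (1 / (L.ω₁ * z - l) ^ 2 - 1 / (l : ℂ) ^ 2))).mpr
    H1
  have H3 := H2.mul_left (L.ω₁ ^ 2)
  have H3' : HasSum (fun p : ℤ × ℤ => ((z - (p.1 : ℂ) * τ + ((-p.2 : ℤ) : ℂ)) ^ 2)⁻¹ -
      (((p.1 : ℂ) * τ + (p.2 : ℂ)) ^ 2)⁻¹) (L.ω₁ ^ 2 * L.weierstrassP (L.ω₁ * z)) := by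
    have hfun : (fun p : ℤ × ℤ => ((z - (p.1 : ℂ) * τ + ((-p.2 : ℤ) : ℂ)) ^ 2)⁻¹ -
        (((p.1 : ℂ) * τ + (p.2 : ℂ)) ^ 2)⁻¹) = fun i => L.ω₁ ^ 2 *
        ((fun l : L.lattice => (1 / (L.ω₁ * z - l) ^ 2 - 1 / (l : ℂ) ^ 2)) ∘ e) i := by
      funext p
      simp only [Function.comp]
      have e1 : L.ω₁ * z - L.ω₁ * ((p.2 : ℂ) + (p.1 : ℂ) * τ) =
          L.ω₁ * (z - (p.1 : ℂ) * τ + ((-p.2 : ℤ) : ℂ)) := by
        push_cast
        ring
      rw [he, mul_sub, e1, scale_inv hW, scale_inv hW, add_comm (p.2 : ℂ)]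
    rw [hfun]
    exact H3
  have H4 := H3'.prod_fiberwise (fun m : ℤ => by
    have h5 : HasSum (fun n : ℤ => ((z - (m : ℂ) * τ + ((-n : ℤ) : ℂ)) ^ 2)⁻¹)
        (qrow (z - (m : ℂ) * τ)) := by
      have h6 := (qrow_summable (z - (m : ℂ) * τ)).hasSum
      exact ((Equiv.neg ℤ).hasSum_iff (f := fun n : ℤ => ((z - (m : ℂ) * τ + (n : ℂ)) ^ 2)⁻¹)).mpr h6
    have h7 : HasSum (fun n : ℤ => (((m : ℂ) * τ + (n : ℂ)) ^ 2)⁻¹) (qrow ((m : ℂ) * τ)) :=
      (qrow_summable ((m : ℂ) * τ)).hasSum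
    exact h5.sub h7)
  have hs := qrow_summable_tau hτ z
  have hs' : Summable fun m : ℤ => qrow (z - (m : ℂ) * τ) := by
    refine ((Equiv.neg ℤ).summable_iff.mpr hs).congr ?_
    intro m
    simp only [Function.comp, Equiv.neg_apply]
    congr 1
    push_cast
    ring
  have hs0 : Summable fun m : ℤ => qrow ((m : ℂ) * τ) := by
    have := qrow_summable_tau hτ 0
    simpa using this
  have h8 : ∑' m : ℤ, qrow (z + (m : ℂ) * τ) = ∑' m : ℤ, qrow (z - (m : ℂ) * τ) := by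
    rw [← (Equiv.neg ℤ).tsum_eq (fun m : ℤ => qrow (z + (m : ℂ) * τ))]
    apply tsum_congr
    intro m
    simp only [Equiv.neg_apply]
    congr 1
    push_cast
    ring
  have h9 := H4.tsum_eq
  rw [hs'.tsum_sub hs0, qrow_E2 hτ] at h9
  rw [h8]
  linear_combination h9

end Pool.Agent.Lib.MP5e
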