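import Pool.Agent.Lib.MP_5e64e7_nt.RBDel
import Pool.Agent.Lib.MP_5e64e7_nt.L1l

set_option autoImplicit false

/-!
# RB.DEC : forms of weight `4r` with integral `q`-expansion are integral combinations of `E₄^(r-3k) Δ^k` (about 170 lines)

Induction on `r` in steps of three (`Nat.strong_induction_on`). `a₀ = coeff 0 F`. `g = f - a₀ E₄^r` (`ModularForm.E₄.pow r`, weight
`r * 4` or so, `mcast`), a form of weight `4r` with `coeff 0 (qExpansion g) = 0` (`coeff 0 rbE = 1`), so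
`g = Δ · h` with `h = CuspForm.discriminantEquiv (toCuspForm g _)` of weight `4r - 12`
(`ModularForm.discriminant_mul_discriminantEquiv_apply`, `ModularForm.qExpansion_eq_qExpansion_discriminant_mul`).
* `r < 3`: the weight is negative, `h = 0` (`ModularFormClass.levelOne_neg_weight_eq_zero`), `f = a₀ E₄^r`, `Q = C a₀`.
* `r ≥ 3`: `qExpansion g = map (F - C a₀ * rbE^r)` (`rbE_map`), `rb_int_div` (with `dZ` of `rb_exists_dZ`) gives `HZ` with
  `map HZ = qExpansion h`, `dZ * HZ = F - C a₀ rbE^r`. Induction hypothesis for `h` (cast to weight `4 (r-3)`): `Q₁`;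
  `Q = C a₀ + X * Q₁`: `f = a₀ E₄^r + Δ E₄^(r-3) Q₁(y) = E₄^r (a₀ + y Q₁(y))`, `y = Δ/E₄³`.
Size: `rbn_div` with `T = r - 1`: `rbn (r-3) HZ ≤ rbn (r-1) HZ ≤ r · rbn r G · (1 + 2^(24(r+1)))^(r-1)`, `r ≤ 2^r`,
`1 + 2^(24(r+1)) ≤ 2^(24(r+1)+1)`: `≤ rbn r G · 2^(50 r²)` for `r ≥ 3` (`r + (24 r + 25)(r - 1) ≤ 50 r²`);
`rbn r G ≤ rbn r F (1 + 2^(8(r+1) r))` (`a₀ ≤ rbn r F`); so
`L1 Q ≤ |a₀| + L1 Q₁ ≤ rbn r F (1 + 2^(10 (r-2)³ + 50 r² + 8 r (r+1) + 1)) ≤ rbn r F · 2^(10 (r-2)³ + 58 r² + 8 r + 2) ≤ rbn r F · 2^(10 (r+1)³)`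
(`10 ((r+1)³ - (r-2)³) = 90 r² - 90 r + 90`; for `r ≥ 3` this is at least `58 r² + 8 r + 2`: the difference `32 r² - 98 r + 88 > 0`).
`L1 (C a + X * Q) ≤ |a| + L1 Q` (write `L1` as a sum over `Finset.range`, or see `NormR.lean`, `OMul.lean` for lemmas on `L1`).
-/

noncomputable section

namespace Pool.Agent.Lib.MP5e

open Polynomial Topology MatrixGroups

private theorem dec_L1_C (a : ℤ) : L1 (C a) ≤ a.natAbs := by
  rw [L1l_eq_range (C a) 0 (by simp)]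
  simp

private theorem dec_fin (a q1 nF e E : ℕ) (ha : a ≤ nF) (hq : q1 ≤ nF * 2 ^ e) (he : e + 1 ≤ E) :
    a + q1 ≤ 2 ^ E * nF := by
  have h9 : 1 ≤ 2 ^ e := Nat.one_le_two_pow
  calc a + q1 ≤ nF * 2 ^ e + nF * 2 ^ e :=
        Nat.add_le_add (ha.trans (Nat.le_mul_of_pos_right _ h9)) hq
    _ = nF * 2 ^ (e + 1) := by rw [pow_succ]; ring
    _ ≤ nF * 2 ^ E := Nat.mul_le_mul_left _ (Nat.pow_le_pow_right (by norm_num) he)
    _ = _ := mul_comm _ _

private theorem dec_size (s nF a q1 nH nd nG nE : ℕ) (ha : a ≤ nF)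
    (hE : nE ≤ 2 ^ (8 * (s + 3 + 1))) (hG : nG ≤ nF + a * nE ^ (s + 3))
    (hd : nd ≤ 2 ^ (24 * (s + 3 + 1)))
    (hH : nH ≤ (s + 2 + 1) * nG * (1 + nd) ^ (s + 2))
    (hq : q1 ≤ 2 ^ (10 * (s + 1) ^ 3) * nH) :
    a + q1 ≤ 2 ^ (10 * (s + 3 + 1) ^ 3) * nF := by
  have h1 : nG ≤ nF * 2 ^ (8 * (s + 3 + 1) * (s + 3) + 1) := by
    have h2 : nE ^ (s + 3) ≤ 2 ^ (8 * (s + 3 + 1) * (s + 3)) := by
      rw [pow_mul]
      exact Nat.pow_le_pow_left hE _
    have h3 : 1 ≤ 2 ^ (8 * (s + 3 + 1) * (s + 3)) := Nat.one_le_two_pow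
    calc nG ≤ nF + a * nE ^ (s + 3) := hG
      _ ≤ nF * 2 ^ (8 * (s + 3 + 1) * (s + 3)) + nF * 2 ^ (8 * (s + 3 + 1) * (s + 3)) :=
          Nat.add_le_add (Nat.le_mul_of_pos_right _ h3) (Nat.mul_le_mul ha h2)
      _ = nF * 2 ^ (8 * (s + 3 + 1) * (s + 3) + 1) := by rw [pow_succ]; ring
  have h4 : (1 + nd) ^ (s + 2) ≤ 2 ^ ((24 * (s + 3 + 1) + 1) * (s + 2)) := by
    rw [pow_mul]
    refine Nat.pow_le_pow_left ?_ _
    have h5 : 1 ≤ 2 ^ (24 * (s + 3 + 1)) := Nat.one_le_two_pow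
    calc 1 + nd ≤ 2 ^ (24 * (s + 3 + 1)) + 2 ^ (24 * (s + 3 + 1)) := Nat.add_le_add h5 hd
      _ = 2 ^ (24 * (s + 3 + 1) + 1) := by rw [pow_succ]; ring
  have h6 : s + 2 + 1 ≤ 2 ^ (s + 3) := (Nat.lt_two_pow_self (n := s + 3)).le
  have h7 : q1 ≤ nF * 2 ^ (10 * (s + 1) ^ 3 + (s + 3) + (8 * (s + 3 + 1) * (s + 3) + 1) +
      (24 * (s + 3 + 1) + 1) * (s + 2)) := by
    calc q1 ≤ 2 ^ (10 * (s + 1) ^ 3) * nH := hq
      _ ≤ 2 ^ (10 * (s + 1) ^ 3) * ((s + 2 + 1) * nG * (1 + nd) ^ (s + 2)) :=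
          Nat.mul_le_mul_left _ hH
      _ ≤ 2 ^ (10 * (s + 1) ^ 3) * (2 ^ (s + 3) * (nF * 2 ^ (8 * (s + 3 + 1) * (s + 3) + 1)) *
            2 ^ ((24 * (s + 3 + 1) + 1) * (s + 2))) :=
          Nat.mul_le_mul_left _ (Nat.mul_le_mul (Nat.mul_le_mul h6 h1) h4)
      _ = _ := by rw [pow_add, pow_add, pow_add]; ring
  have h8 : 10 * (s + 1) ^ 3 + (s + 3) + (8 * (s + 3 + 1) * (s + 3) + 1) +
      (24 * (s + 3 + 1) + 1) * (s + 2) + 1 ≤ 10 * (s + 3 + 1) ^ 3 := by nlinarith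
  exact dec_fin _ _ _ _ _ ha h7 h8

open ModularForm ModularFormClass UpperHalfPlane EisensteinSeries in
private theorem dec_step (r : ℕ) (f : ModularForm 𝒮ℒ ((4 * r : ℕ) : ℤ)) (F : PowerSeries ℤ)
    (hF : PowerSeries.map (Int.castRingHom ℂ) F = UpperHalfPlane.qExpansion 1 f) :
    ∃ h : ModularForm 𝒮ℒ (((4 * r : ℕ) : ℤ) - 12),
      (∀ z : UpperHalfPlane, f z = ((PowerSeries.coeff 0 F : ℤ) : ℂ) * ModularForm.E₄ z ^ r +
        ModularForm.discriminant z * h z) ∧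
      PowerSeries.map (Int.castRingHom ℂ) (F - PowerSeries.C (PowerSeries.coeff 0 F) * rbE ^ r) =
        UpperHalfPlane.qExpansion 1 ModularForm.discriminant * UpperHalfPlane.qExpansion 1 h := by
  set a : ℤ := PowerSeries.coeff 0 F with ha
  let Er : ModularForm 𝒮ℒ ((4 * r : ℕ) : ℤ) :=
    ModularForm.mcast (by push_cast; ring) (ModularForm.E₄.pow r)
  have hEr : ∀ z, Er z = ModularForm.E₄ z ^ r := by
    intro z
    change (ModularForm.E₄.pow r) z = _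
    rw [ModularForm.coe_pow]; rfl
  let g : ModularForm 𝒮ℒ ((4 * r : ℕ) : ℤ) := f - (a : ℂ) • Er
  have hqE : UpperHalfPlane.qExpansion 1 Er =
      PowerSeries.map (Int.castRingHom ℂ) (rbE ^ r) := by
    change UpperHalfPlane.qExpansion 1 (ModularForm.E₄.pow r) = _
    rw [ModularForm.qExpansion_pow one_pos one_mem_strictPeriods_SL, map_pow, rbE_map]
  have hqg : UpperHalfPlane.qExpansion 1 g =
      PowerSeries.map (Int.castRingHom ℂ) (F - PowerSeries.C a * rbE ^ r) := by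
    have h1 : UpperHalfPlane.qExpansion 1 g = UpperHalfPlane.qExpansion 1 f -
        UpperHalfPlane.qExpansion 1 ((a : ℂ) • Er) := by
      change UpperHalfPlane.qExpansion 1 (⇑f - ⇑((a : ℂ) • Er)) = _
      exact ModularForm.qExpansion_sub one_pos one_mem_strictPeriods_SL f ((a : ℂ) • Er)
    have h2 : UpperHalfPlane.qExpansion 1 ((a : ℂ) • Er) = (a : ℂ) •
        UpperHalfPlane.qExpansion 1 Er :=
      ModularForm.qExpansion_smul one_pos one_mem_strictPeriods_SL (a : ℂ) Er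
    rw [h1, h2, hqE, ← hF, map_sub, map_mul, PowerSeries.map_C, PowerSeries.smul_eq_C_mul]
    rfl
  have hcusp : PowerSeries.coeff 0 (UpperHalfPlane.qExpansion 1 g) = 0 := by
    rw [hqg, PowerSeries.coeff_map, map_sub, PowerSeries.coeff_C_mul]
    have h3 : PowerSeries.coeff 0 (rbE ^ r) = 1 := by
      rw [PowerSeries.coeff_zero_eq_constantCoeff_apply, map_pow,
        ← PowerSeries.coeff_zero_eq_constantCoeff_apply]
      simp [rbE]
    rw [h3, ← ha]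
    simp
  refine ⟨CuspForm.discriminantEquiv (toCuspForm g hcusp), ?_, ?_⟩
  · intro z
    rw [discriminant_mul_discriminantEquiv_apply]
    change f z = (a : ℂ) * ModularForm.E₄ z ^ r + (f z - (a : ℂ) • Er z)
    rw [hEr, smul_eq_mul]
    ring
  · rw [← hqg]
    exact qExpansion_eq_qExpansion_discriminant_mul g hcusp

theorem rb_dec (r : ℕ) (f : ModularForm 𝒮ℒ ((4 * r : ℕ) : ℤ)) (F : PowerSeries ℤ)
    (hF : PowerSeries.map (Int.castRingHom ℂ) F = UpperHalfPlane.qExpansion 1 f) :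
    ∃ Q : ℤ[X], Q.natDegree ≤ r ∧ Q.coeff 0 = PowerSeries.coeff 0 F ∧
      L1 Q ≤ 2 ^ (10 * (r + 1) ^ 3) * rbn r F ∧
      ∀ z : UpperHalfPlane, ModularForm.E₄ z ≠ 0 → f z = ModularForm.E₄ z ^ r *
        Polynomial.aeval (ModularForm.discriminant z / ModularForm.E₄ z ^ 3) Q := by
  induction r using Nat.strong_induction_on generalizing F with
  | _ r ih =>
    obtain ⟨h, hh, hq⟩ := dec_step r f F hF
    rcases Nat.lt_or_ge r 3 with hr | hr
    · have hneg : (((4 * r : ℕ) : ℤ) - 12) < 0 := by push_cast; omega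
      have h0 : (⇑h : UpperHalfPlane → ℂ) = 0 :=
        ModularFormClass.levelOne_neg_weight_eq_zero hneg h
      refine ⟨C (PowerSeries.coeff 0 F), by simp, by simp, ?_, ?_⟩
      · refine (dec_L1_C _).trans ((rbn_coeff r 0 (Nat.zero_le _) F).trans ?_)
        exact Nat.le_mul_of_pos_left _ (by positivity)
      · intro z _
        rw [hh z, h0]
        simp
        ring
    · obtain ⟨s, rfl⟩ : ∃ s, r = s + 3 := ⟨r - 3, by omega⟩
      obtain ⟨dZ, hdZ, hd0, hd1, hdn⟩ := rb_exists_dZ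
      rw [← hdZ] at hq
      obtain ⟨HZ, hHZ, hdH⟩ := rb_int_div dZ _ hd0 hd1 _ hq.symm
      let h' : ModularForm 𝒮ℒ ((4 * s : ℕ) : ℤ) := ModularForm.mcast (by push_cast; ring) h
      obtain ⟨Q₁, hQd, hQ0, hQL, hQf⟩ := ih s (by omega) h' HZ hHZ
      refine ⟨C (PowerSeries.coeff 0 F) + X * Q₁, ?_, ?_, ?_, ?_⟩
      · refine (natDegree_add_le _ _).trans (max_le (by simp) ?_)
        refine (natDegree_mul_le).trans ?_
        have := natDegree_X_le (R := ℤ)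
        omega
      · simp
      · refine (L1_add _ _).trans ?_
        refine (Nat.add_le_add (dec_L1_C _) (L1_X_mul _)).trans ?_
        refine dec_size s (rbn (s + 3) F) _ _ (rbn s HZ) (rbn (s + 3) dZ)
          (rbn (s + 3) (F - PowerSeries.C (PowerSeries.coeff 0 F) * rbE ^ (s + 3)))
          (rbn (s + 3) rbE) (rbn_coeff _ 0 (Nat.zero_le _) F) (rbn_E _) ?_ (hdn _) ?_ hQL
        · refine (rbn_sub _ _ _).trans (Nat.add_le_add_left ?_ _)
          rw [rbn_C_mul]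
          exact Nat.mul_le_mul_left _ (rbn_pow _ _ _)
        · refine (rbn_mono (show s ≤ s + 2 by omega) HZ).trans ?_
          exact rbn_div (s + 2) dZ HZ _ hd0 hd1 hdH
      · intro z hz
        rw [hh z]
        have h3 : h z = ModularForm.E₄ z ^ s *
            Polynomial.aeval (ModularForm.discriminant z / ModularForm.E₄ z ^ 3) Q₁ := hQf z hz
        rw [h3, map_add, map_mul, aeval_X, aeval_C]
        simp only [algebraMap_int_eq, eq_intCast]
        field_simp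
        ring

end Pool.Agent.Lib.MP5e
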