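import Pool.Agent.Lib.MP_5e64e7_nt.QDefs

set_option autoImplicit false

/-!
# MP_5e64e7_nt, fourth theorem (points quadratic over `ℚ(w)`), the uniform base: definitions (helper64)

For `ω = √(-D)` the number `y₀ = Δ(ω)/E₄(ω)³` is a root of a nonzero integer polynomial whose degree and whose
logarithmic size are polynomial in `D`. Proof by power sums over the `σ(n)` classes of integer matrices of
determinant `n`, `n ∈ {D, D+1}` not a square, see `/team-store/MP_5e64e7_QP_base64.md`.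
-/

noncomputable section

namespace Pool.Agent.Lib.MP5e

open Polynomial Topology

/-- the representatives `(a b; 0 d)`, `a d = n`, `0 ≤ b < d`, of `SL₂(ℤ) \ M_n`, stored as `(d, b)` (`a = n / d`) -/
def rbI (n : ℕ) : Finset (ℕ × ℕ) := (n.divisors ×ˢ Finset.range n).filter fun p => p.2 < p.1

/-- `a⁴ E₄((a z + b)/d)`, `p = (d, b)`, `a = n/d` -/
def rbf (n : ℕ) (p : ℕ × ℕ) (z : ℂ) : ℂ :=
  ((n / p.1 : ℕ) : ℂ) ^ 4 * E4f ((((n / p.1 : ℕ) : ℂ) * z + (p.2 : ℂ)) / (p.1 : ℂ))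

/-- the power sums `∑ (a⁴ E₄((a z + b)/d))^r`, a modular form of weight `4r` -/
def rbP (n r : ℕ) (z : ℂ) : ℂ := ∑ p ∈ rbI n, rbf n p z ^ r

/-- `y = Δ / E₄³`, `1728 Δ = E₄³ - E₆²` -/
def rby (z : ℂ) : ℂ := (E4f z ^ 3 - E6f z ^ 2) / (1728 * E4f z ^ 3)

/-- `L¹` norm of a truncated integer power series -/
def rbn (T : ℕ) (F : PowerSeries ℤ) : ℕ :=
  ∑ m ∈ Finset.range (T + 1), (PowerSeries.coeff m F).natAbs

/-- the `q`-expansion of `E₄` -/
def rbE : PowerSeries ℤ :=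
  PowerSeries.mk fun m => if m = 0 then 1 else 240 * ((ArithmeticFunction.sigma 3 m : ℕ) : ℤ)

end Pool.Agent.Lib.MP5e
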