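import Pool.Agent.Lib.MP_5e64e7_nt.RBSer

set_option autoImplicit false

/-!
# RB.DEL : the integral `q`-expansions of `E₄` and `Δ` (about 150 lines)

* `rbE_map`: `EisensteinSeries.E_qExpansion_coeff` (Mathlib, `k = 4`, `bernoulli 4 = -1/30`, as in `E4f_coe` of `Ser.lean`).
* `rbn_E`: `σ₃(m) ≤ m⁴` (`m` divisors at most, each cube at most `m³`), so `rbn T rbE ≤ 1 + 240 T T⁴ ≤ 240 (T+1)^5 ≤ 2^(8(T+1))`
  (`(T+1)^5 ≤ 2^(8T)`: `(T+1)^5 ≤ (2^T)^5`).
* Let `e6 = mk (1, -504 σ₅(m))`, `map e6 = qExpansion E₆` (same lemma, `bernoulli 6 = 1/42`), `rbn T e6 ≤ 504 (T+1)^7 ≤ 2^(9(T+1))`.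
  With `rbE = 1 + 240 A`, `e6 = 1 - 504 B`: `rbE³ - e6² = 144 (5A + 7B) + 1728 (100 A² + 8000 A³ - 147 B²)` and every
  coefficient of `5A + 7B` is `∑_{d ∣ m} (5 d³ + 7 d⁵)`, divisible by `12` (check `d mod 12`: `5 d³ + 7 d⁵ = 0` in `ZMod 12`
  by `decide`). So `rbE³ - e6² = 1728 dZ`; `map dZ = qExpansion Δ` from `ModularForm.discriminant_eq_E₄_cube_sub_E₆_sq` and
  the lemmas `ModularForm.qExpansion_sub, qExpansion_pow, qExpansion_smul` (see `GradedRing.lean` of Mathlib, the private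
  lemma `E₄CubeSubE₆SqForm_qExpansion_eq`, for the pattern), or multiply by `1728` and compare.
  `coeff 0 = 0`, `coeff 1 = 1`: from `ModularForm.discriminant_qExpansion_order`/`discriminant_qExpansion_coeff_one` or directly.
  `1728 rbn T dZ = rbn T (rbE³ - e6²) ≤ 2^(24(T+1)) + 2^(18(T+1)) ≤ 1728 · 2^(24(T+1))`.
-/

noncomputable section

namespace Pool.Agent.Lib.MP5e

open Polynomial Topology

open UpperHalfPlane ModularForm ModularFormClass MatrixGroups EisensteinSeries in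
private theorem rbdel_E4 (m : ℕ) : (UpperHalfPlane.qExpansion 1 ModularForm.E₄).coeff m =
    if m = 0 then 1 else 240 * ((ArithmeticFunction.sigma 3 m : ℕ) : ℂ) := by
  have h := EisensteinSeries.E_qExpansion_coeff (k := 4) (by norm_num) ⟨2, rfl⟩ m
  rw [show _root_.bernoulli 4 = -1 / 30 by decide +kernel] at h
  refine h.trans ?_
  split_ifs
  · rfl
  · norm_num

open UpperHalfPlane ModularForm ModularFormClass MatrixGroups EisensteinSeries in
private theorem rbdel_E6 (m : ℕ) : (UpperHalfPlane.qExpansion 1 ModularForm.E₆).coeff m =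
    if m = 0 then 1 else -504 * ((ArithmeticFunction.sigma 5 m : ℕ) : ℂ) := by
  have h := EisensteinSeries.E_qExpansion_coeff (k := 6) (by norm_num) ⟨3, rfl⟩ m
  rw [show _root_.bernoulli 6 = 1 / 42 by decide +kernel] at h
  refine h.trans ?_
  split_ifs
  · rfl
  · norm_num

/-- the `q`-expansion of `E₆` -/
private def rbE6 : PowerSeries ℤ :=
  PowerSeries.mk fun m => if m = 0 then 1 else -504 * ((ArithmeticFunction.sigma 5 m : ℕ) : ℤ)

private theorem rbE6_map : PowerSeries.map (Int.castRingHom ℂ) rbE6 =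
    UpperHalfPlane.qExpansion 1 ModularForm.E₆ := by
  ext m
  rw [PowerSeries.coeff_map, rbdel_E6, rbE6, PowerSeries.coeff_mk]
  split_ifs
  · simp
  · push_cast [Int.castRingHom]
    simp

private theorem rbdel_two (T : ℕ) : T + 1 ≤ 2 ^ T := Nat.lt_two_pow_self

private theorem rbn_E6 (T : ℕ) : rbn T rbE6 ≤ 2 ^ (9 * (T + 1)) := by
  have h1 : ∀ m ∈ Finset.range (T + 1), (PowerSeries.coeff m rbE6).natAbs ≤ 504 * (T + 1) ^ 6 := by
    intro m hm
    have hm' : m ≤ T := Nat.lt_succ_iff.mp (Finset.mem_range.mp hm)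
    rw [rbE6, PowerSeries.coeff_mk]
    split_ifs
    · have : 1 ≤ (T + 1) ^ 6 := Nat.one_le_pow _ _ (Nat.succ_pos T)
      have h2 : (1 : ℤ).natAbs = 1 := rfl
      omega
    · rw [Int.natAbs_mul, Int.natAbs_natCast]
      refine Nat.mul_le_mul (le_refl _) ?_
      refine (ArithmeticFunction.sigma_le_pow_succ 5 m).trans ?_
      exact Nat.pow_le_pow_left (by omega) 6
  have h2 : rbn T rbE6 ≤ (T + 1) * (504 * (T + 1) ^ 6) := by
    unfold rbn
    refine (Finset.sum_le_sum h1).trans ?_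
    rw [Finset.sum_const, Finset.card_range, smul_eq_mul]
  refine h2.trans ?_
  have h3 : (T + 1) * (504 * (T + 1) ^ 6) = 504 * (T + 1) ^ 7 := by ring
  rw [h3]
  calc 504 * (T + 1) ^ 7 ≤ 2 ^ 9 * (2 ^ T) ^ 7 :=
        Nat.mul_le_mul (by norm_num) (Nat.pow_le_pow_left (rbdel_two T) 7)
    _ = 2 ^ (9 + T * 7) := by rw [← pow_mul, ← pow_add]
    _ ≤ 2 ^ (9 * (T + 1)) := Nat.pow_le_pow_right (by norm_num) (by omega)

private theorem rbdel_mod (m : ℕ) : (12 : ℤ) ∣ 5 * ((ArithmeticFunction.sigma 3 m : ℕ) : ℤ) +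
    7 * ((ArithmeticFunction.sigma 5 m : ℕ) : ℤ) := by
  rw [ArithmeticFunction.sigma_apply, ArithmeticFunction.sigma_apply, Nat.cast_sum, Nat.cast_sum,
    Finset.mul_sum, Finset.mul_sum, ← Finset.sum_add_distrib]
  refine Finset.dvd_sum fun d _ => ?_
  have h : ∀ x : ZMod 12, 5 * x ^ 3 + 7 * x ^ 5 = 0 := by decide
  have h2 : ((5 * ((d ^ 3 : ℕ) : ℤ) + 7 * ((d ^ 5 : ℕ) : ℤ) : ℤ) : ZMod 12) = 0 := by
    push_cast
    exact h d
  exact_mod_cast (ZMod.intCast_zmod_eq_zero_iff_dvd _ 12).mp h2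

/-- the `q`-expansion of `Δ` -/
private def rbdelD : PowerSeries ℤ :=
  (PowerSeries.mk fun m => (5 * ((ArithmeticFunction.sigma 3 m : ℕ) : ℤ) +
    7 * ((ArithmeticFunction.sigma 5 m : ℕ) : ℤ)) / 12) +
    100 * (PowerSeries.mk fun m => ((ArithmeticFunction.sigma 3 m : ℕ) : ℤ)) ^ 2 +
    8000 * (PowerSeries.mk fun m => ((ArithmeticFunction.sigma 3 m : ℕ) : ℤ)) ^ 3 -
    147 * (PowerSeries.mk fun m => ((ArithmeticFunction.sigma 5 m : ℕ) : ℤ)) ^ 2

private theorem rbdel_eq : PowerSeries.C (1728 : ℤ) * rbdelD = rbE ^ 3 - rbE6 ^ 2 := by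
  have hE : rbE = 1 + 240 * (PowerSeries.mk fun m => ((ArithmeticFunction.sigma 3 m : ℕ) : ℤ)) := by
    ext m
    have h240 : (240 : PowerSeries ℤ) = PowerSeries.C (240 : ℤ) := rfl
    rw [rbE, PowerSeries.coeff_mk, map_add, h240, PowerSeries.coeff_C_mul, PowerSeries.coeff_mk,
      PowerSeries.coeff_one]
    split_ifs with hm
    · rw [hm]
      simp
    · ring
  have hE6 : rbE6 =
      1 - 504 * (PowerSeries.mk fun m => ((ArithmeticFunction.sigma 5 m : ℕ) : ℤ)) := by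
    ext m
    have h504 : (504 : PowerSeries ℤ) = PowerSeries.C (504 : ℤ) := rfl
    rw [rbE6, PowerSeries.coeff_mk, map_sub, h504, PowerSeries.coeff_C_mul, PowerSeries.coeff_mk,
      PowerSeries.coeff_one]
    split_ifs with hm
    · rw [hm]
      simp
    · ring
  have hC : 12 * (PowerSeries.mk fun m => (5 * ((ArithmeticFunction.sigma 3 m : ℕ) : ℤ) +
      7 * ((ArithmeticFunction.sigma 5 m : ℕ) : ℤ)) / 12) =
      5 * (PowerSeries.mk fun m => ((ArithmeticFunction.sigma 3 m : ℕ) : ℤ)) +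
      7 * (PowerSeries.mk fun m => ((ArithmeticFunction.sigma 5 m : ℕ) : ℤ)) := by
    ext m
    have h12 : (12 : PowerSeries ℤ) = PowerSeries.C (12 : ℤ) := rfl
    have h5 : (5 : PowerSeries ℤ) = PowerSeries.C (5 : ℤ) := rfl
    have h7 : (7 : PowerSeries ℤ) = PowerSeries.C (7 : ℤ) := rfl
    rw [h12, h5, h7, map_add, PowerSeries.coeff_C_mul, PowerSeries.coeff_C_mul,
      PowerSeries.coeff_C_mul, PowerSeries.coeff_mk, PowerSeries.coeff_mk, PowerSeries.coeff_mk]
    exact Int.mul_ediv_cancel' (rbdel_mod m)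
  have h1728 : PowerSeries.C (1728 : ℤ) = (1728 : PowerSeries ℤ) := rfl
  rw [hE, hE6, h1728]
  unfold rbdelD
  linear_combination (144 : PowerSeries ℤ) * hC

open UpperHalfPlane ModularForm ModularFormClass MatrixGroups EisensteinSeries in
private theorem rbdel_q : (1728 : ℂ) • UpperHalfPlane.qExpansion 1 ModularForm.discriminant =
    UpperHalfPlane.qExpansion 1 ModularForm.E₄ ^ 3 -
      UpperHalfPlane.qExpansion 1 ModularForm.E₆ ^ 2 := by
  obtain ⟨F, hF⟩ : ∃ F : ModularForm 𝒮ℒ 12, F =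
      ModularForm.mcast (by decide) (E₄.pow 3) - ModularForm.mcast (by decide) (E₆.pow 2) :=
    ⟨_, rfl⟩
  have h1 : qExpansion 1 F = qExpansion 1 E₄ ^ 3 - qExpansion 1 E₆ ^ 2 := by
    simp only [hF, FunLike.coe_sub, coe_mcast,
      ModularForm.qExpansion_sub one_pos one_mem_strictPeriods_SL,
      ModularForm.qExpansion_pow one_pos one_mem_strictPeriods_SL]
  have h2 : (F : ℍ → ℂ) = ((1728 : ℂ) • CuspForm.discriminant : ℍ → ℂ) := by
    funext z
    have h3 : F z = E₄ z ^ 3 - E₆ z ^ 2 := by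
      simp only [hF, coe_mcast, ModularForm.coe_pow, sub_apply, Pi.pow_apply]
    have h4 := ModularForm.discriminant_eq_E₄_cube_sub_E₆_sq z
    have h5 : ((1728 : ℂ) • CuspForm.discriminant : ℍ → ℂ) z = 1728 * discriminant z := rfl
    rw [h3, h5, h4]
    ring
  rw [← h1, h2]
  exact (ModularForm.qExpansion_smul one_pos one_mem_strictPeriods_SL (1728 : ℂ)
    CuspForm.discriminant).symm

theorem rbE_map : PowerSeries.map (Int.castRingHom ℂ) rbE =
    UpperHalfPlane.qExpansion 1 ModularForm.E₄ := by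
  ext m
  rw [PowerSeries.coeff_map, rbdel_E4, rbE, PowerSeries.coeff_mk]
  split_ifs
  · simp
  · push_cast [Int.castRingHom]
    simp

theorem rbn_E (T : ℕ) : rbn T rbE ≤ 2 ^ (8 * (T + 1)) := by
  have h1 : ∀ m ∈ Finset.range (T + 1), (PowerSeries.coeff m rbE).natAbs ≤ 240 * (T + 1) ^ 4 := by
    intro m hm
    have hm' : m ≤ T := Nat.lt_succ_iff.mp (Finset.mem_range.mp hm)
    rw [rbE, PowerSeries.coeff_mk]
    split_ifs
    · have : 1 ≤ (T + 1) ^ 4 := Nat.one_le_pow _ _ (Nat.succ_pos T)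
      have h2 : (1 : ℤ).natAbs = 1 := rfl
      omega
    · rw [Int.natAbs_mul, Int.natAbs_natCast]
      refine Nat.mul_le_mul (le_refl _) ?_
      refine (ArithmeticFunction.sigma_le_pow_succ 3 m).trans ?_
      exact Nat.pow_le_pow_left (by omega) 4
  have h2 : rbn T rbE ≤ (T + 1) * (240 * (T + 1) ^ 4) := by
    unfold rbn
    refine (Finset.sum_le_sum h1).trans ?_
    rw [Finset.sum_const, Finset.card_range, smul_eq_mul]
  refine h2.trans ?_
  have h3 : (T + 1) * (240 * (T + 1) ^ 4) = 240 * (T + 1) ^ 5 := by ring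
  rw [h3]
  calc 240 * (T + 1) ^ 5 ≤ 2 ^ 8 * (2 ^ T) ^ 5 :=
        Nat.mul_le_mul (by norm_num) (Nat.pow_le_pow_left (rbdel_two T) 5)
    _ = 2 ^ (8 + T * 5) := by rw [← pow_mul, ← pow_add]
    _ ≤ 2 ^ (8 * (T + 1)) := Nat.pow_le_pow_right (by norm_num) (by omega)

theorem rb_exists_dZ : ∃ dZ : PowerSeries ℤ, PowerSeries.map (Int.castRingHom ℂ) dZ =
      UpperHalfPlane.qExpansion 1 ModularForm.discriminant ∧
    PowerSeries.coeff 0 dZ = 0 ∧ PowerSeries.coeff 1 dZ = 1 ∧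
    ∀ T, rbn T dZ ≤ 2 ^ (24 * (T + 1)) := by
  have hmap : PowerSeries.map (Int.castRingHom ℂ) rbdelD =
      UpperHalfPlane.qExpansion 1 ModularForm.discriminant := by
    have h1 := congrArg (PowerSeries.map (Int.castRingHom ℂ)) rbdel_eq
    rw [map_mul, map_sub, map_pow, map_pow, rbE_map, rbE6_map, ← rbdel_q, PowerSeries.map_C] at h1
    ext m
    have h2 := congrArg (PowerSeries.coeff m) h1
    rw [PowerSeries.coeff_C_mul, PowerSeries.coeff_smul] at h2
    have h3 : (Int.castRingHom ℂ) 1728 = 1728 := by simp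
    rw [h3, smul_eq_mul] at h2
    exact mul_left_cancel₀ (by norm_num) h2
  refine ⟨rbdelD, hmap, ?_, ?_, ?_⟩
  · rw [PowerSeries.coeff_zero_eq_constantCoeff]
    unfold rbdelD
    simp only [map_add, map_sub, map_mul, map_pow]
    rw [← PowerSeries.coeff_zero_eq_constantCoeff]
    simp [PowerSeries.coeff_mk]
  · have h1 := congrArg (PowerSeries.coeff 1) hmap
    rw [PowerSeries.coeff_map] at h1
    have h2 : (Int.castRingHom ℂ) (PowerSeries.coeff 1 rbdelD) = 1 :=
      h1.trans ModularForm.discriminant_qExpansion_coeff_one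
    have h3 : ((PowerSeries.coeff 1 rbdelD : ℤ) : ℂ) = ((1 : ℤ) : ℂ) := by
      rw [Int.cast_one]
      exact h2
    exact Int.cast_injective h3
  · intro T
    have h1 : 1728 * rbn T rbdelD = rbn T (rbE ^ 3 - rbE6 ^ 2) := by
      rw [← rbdel_eq, rbn_C_mul]
      rfl
    have h2 : rbn T (rbE ^ 3 - rbE6 ^ 2) ≤ 2 ^ (24 * (T + 1)) + 2 ^ (18 * (T + 1)) := by
      refine (rbn_sub T _ _).trans (Nat.add_le_add ?_ ?_)
      · refine (rbn_pow T _ 3).trans ((Nat.pow_le_pow_left (rbn_E T) 3).trans (le_of_eq ?_))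
        rw [← pow_mul]
        congr 1
        ring
      · refine (rbn_pow T _ 2).trans ((Nat.pow_le_pow_left (rbn_E6 T) 2).trans (le_of_eq ?_))
        rw [← pow_mul]
        congr 1
        ring
    have h3 : 2 ^ (18 * (T + 1)) ≤ 2 ^ (24 * (T + 1)) :=
      Nat.pow_le_pow_right (by norm_num) (by omega)
    omega

end Pool.Agent.Lib.MP5e
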