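import Pool.Agent.Lib.MP_5e64e7_nt.RBDefs

set_option autoImplicit false

/-!
# RB.HNF : Hermite normal form of integer matrices of determinant `n` (about 130 lines, elementary)

`mem_rbI`: unfold. `rhnf_ex`: `(A B; C E)`, `A E - B C = n ≥ 1`. Let `a = gcd(A, C)` (`Int.gcd`, positive as it divides `n`),
`A = q a`, `C = s a`, `gcd(q, s) = 1`; Bezout (`hnf_bezout` of `Hnf.lean` or `Int.gcd_eq_gcd_ab`): `q t' - r' s = 1`.
`(q r'; s t')⁻¹ (A B; C E) = (a b'; 0 d)`, `b' = t' B - r' E`, `d = q E - s B`, `a d = n`, so `d > 0`, `d ∣ n`, `a = n / d`.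
Write `b' = b + k d` with `0 ≤ b < d` (`Int.emod`): `(a b'; 0 d) = (1 k; 0 1) (a b; 0 d)`, so `r = q k + r'`, `t = s k + t'`.
(Pattern: `hnf` in `Hnf.lean`.)
`rhnf_uniq`: `s = 0` (as `n / p.1 ≥ 1`), so `q t = 1`, `q = 1` (positive entries), `t = 1`, hence `p'.1 = p.1` and
`p'.2 = p.2 + r p.1` with both in `[0, p.1)`, so `r = 0`.
-/

noncomputable section

namespace Pool.Agent.Lib.MP5e

open Polynomial Topology

theorem mem_rbI {n : ℕ} (hn : 1 ≤ n) (p : ℕ × ℕ) :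
    p ∈ rbI n ↔ p.1 ∣ n ∧ p.2 < p.1 := by
  unfold rbI
  rw [Finset.mem_filter, Finset.mem_product, Nat.mem_divisors, Finset.mem_range]
  constructor
  · rintro ⟨⟨⟨h1, -⟩, -⟩, h2⟩
    exact ⟨h1, h2⟩
  · rintro ⟨h1, h2⟩
    have h3 := Nat.le_of_dvd hn h1
    exact ⟨⟨⟨h1, by omega⟩, by omega⟩, h2⟩

theorem rbI_card (n : ℕ) : (rbI n).card ≤ n ^ 2 := by
  unfold rbI
  refine (Finset.card_filter_le _ _).trans ?_
  rw [Finset.card_product, Finset.card_range, sq]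
  exact Nat.mul_le_mul_right _ (Nat.card_divisors_le_self n)

theorem rhnf_ex (n : ℕ) (hn : 1 ≤ n) (A B C E : ℤ) (hdet : A * E - B * C = n) :
    ∃ p ∈ rbI n, ∃ q r s t : ℤ, q * t - r * s = 1 ∧ A = q * ((n / p.1 : ℕ) : ℤ) ∧
      B = q * (p.2 : ℤ) + r * (p.1 : ℤ) ∧ C = s * ((n / p.1 : ℕ) : ℤ) ∧
      E = s * (p.2 : ℤ) + t * (p.1 : ℤ) := by
  have hA : ((Int.gcd A C : ℕ) : ℤ) ∣ A := Int.gcd_dvd_left A C
  have hC : ((Int.gcd A C : ℕ) : ℤ) ∣ C := Int.gcd_dvd_right A C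
  have hbez := Int.gcd_eq_gcd_ab A C
  set g : ℕ := Int.gcd A C with hg
  obtain ⟨q, hq⟩ := hA
  obtain ⟨s, hs⟩ := hC
  set u := Int.gcdA A C with hu
  set v := Int.gcdB A C with hv
  have hnz : (n : ℤ) ≠ 0 := by
    have : (0 : ℤ) < (n : ℤ) := by exact_mod_cast hn
    exact this.ne'
  have hdet' : (g : ℤ) * (q * E - s * B) = n := by
    rw [← hdet, hq, hs]
    ring
  have hg0 : (g : ℤ) ≠ 0 := by
    intro h
    rw [h, zero_mul] at hdet'
    exact hnz hdet'.symm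
  have hgpos : (0 : ℤ) < (g : ℤ) := lt_of_le_of_ne (Int.natCast_nonneg g) (Ne.symm hg0)
  have hone : q * u + s * v = 1 := by
    have h1 : (g : ℤ) * (q * u + s * v) = (g : ℤ) * 1 := by
      rw [mul_one]
      conv_rhs => rw [hbez, hq, hs]
      ring
    exact mul_left_cancel₀ hg0 h1
  set D : ℤ := q * E - s * B with hD
  have hDpos : 0 < D := by
    have h1 : (0 : ℤ) < (g : ℤ) * D := by
      rw [hdet']
      exact_mod_cast hn
    exact pos_of_mul_pos_right h1 hgpos.le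
  obtain ⟨d, hd⟩ := Int.eq_ofNat_of_zero_le hDpos.le
  have hgd : g * d = n := by
    have : ((g * d : ℕ) : ℤ) = (n : ℤ) := by
      rw [Nat.cast_mul, ← hd]
      exact hdet'
    exact_mod_cast this
  have hdpos : 0 < d := by
    have : (0 : ℤ) < (d : ℤ) := by
      rw [← hd]
      exact hDpos
    exact_mod_cast this
  set b' : ℤ := u * B + v * E with hb'
  have hmod0 : 0 ≤ b' % (d : ℤ) := Int.emod_nonneg _ (by
    have : (0 : ℤ) < (d : ℤ) := by exact_mod_cast hdpos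
    exact this.ne')
  have hmod1 : b' % (d : ℤ) < (d : ℤ) := Int.emod_lt_of_pos _ (by exact_mod_cast hdpos)
  obtain ⟨b, hb⟩ := Int.eq_ofNat_of_zero_le hmod0
  have hsplit : b' = (b : ℤ) + (b' / (d : ℤ)) * (d : ℤ) := by
    have h1 := Int.emod_add_mul_ediv b' (d : ℤ)
    rw [hb] at h1
    have h2 : ((b : ℕ) : ℤ) + (d : ℤ) * (b' / (d : ℤ)) = b' := h1
    rw [mul_comm (b' / (d : ℤ))]
    exact h2.symm
  have hbd : b < d := by
    have : (b : ℤ) < (d : ℤ) := by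
      have h1 := hmod1
      rw [hb] at h1
      exact h1
    exact_mod_cast this
  have hnd : n / d = g := by
    rw [← hgd]
    exact Nat.mul_div_cancel _ hdpos
  refine ⟨(d, b), (mem_rbI hn (d, b)).2 ⟨⟨g, by rw [← hgd, mul_comm]⟩, hbd⟩, q,
    q * (b' / (d : ℤ)) - v, s, s * (b' / (d : ℤ)) + u, ?_, ?_, ?_, ?_, ?_⟩
  · linear_combination hone
  · show A = q * ((n / d : ℕ) : ℤ)
    rw [hnd, hq]
    ring
  · show B = q * (b : ℤ) + (q * (b' / (d : ℤ)) - v) * (d : ℤ)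
    have h1 : q * (b : ℤ) + (q * (b' / (d : ℤ)) - v) * (d : ℤ) = q * b' - v * (d : ℤ) := by
      linear_combination (-q) * hsplit
    rw [h1]
    have h2 : (d : ℤ) = q * E - s * B := by
      rw [← hD]
      exact hd.symm
    rw [h2, hb']
    linear_combination (-B) * hone
  · show C = s * ((n / d : ℕ) : ℤ)
    rw [hnd, hs]
    ring
  · show E = s * (b : ℤ) + (s * (b' / (d : ℤ)) + u) * (d : ℤ)
    have h1 : s * (b : ℤ) + (s * (b' / (d : ℤ)) + u) * (d : ℤ) = s * b' + u * (d : ℤ) := by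
      linear_combination (-s) * hsplit
    rw [h1]
    have h2 : (d : ℤ) = q * E - s * B := by
      rw [← hD]
      exact hd.symm
    rw [h2, hb']
    linear_combination (-E) * hone

theorem rhnf_uniq (n : ℕ) (hn : 1 ≤ n) (p p' : ℕ × ℕ) (hp : p ∈ rbI n) (hp' : p' ∈ rbI n)
    (q r s t : ℤ) (h : q * t - r * s = 1) (h1 : ((n / p'.1 : ℕ) : ℤ) = q * ((n / p.1 : ℕ) : ℤ))
    (h2 : (p'.2 : ℤ) = q * (p.2 : ℤ) + r * (p.1 : ℤ)) (h3 : 0 = s * ((n / p.1 : ℕ) : ℤ))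
    (h4 : (p'.1 : ℤ) = s * (p.2 : ℤ) + t * (p.1 : ℤ)) : p = p' := by
  rw [mem_rbI hn] at hp hp'
  have hp1 : 0 < p.1 := by omega
  have hp1' : 0 < p'.1 := by omega
  have ha : 0 < n / p.1 := Nat.div_pos (Nat.le_of_dvd hn hp.1) hp1
  have ha' : 0 < n / p'.1 := Nat.div_pos (Nat.le_of_dvd hn hp'.1) hp1'
  have haz : (0 : ℤ) < ((n / p.1 : ℕ) : ℤ) := by exact_mod_cast ha
  have haz' : (0 : ℤ) < ((n / p'.1 : ℕ) : ℤ) := by exact_mod_cast ha'
  have hs : s = 0 := by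
    rcases mul_eq_zero.1 h3.symm with h5 | h5
    · exact h5
    · exact absurd h5 haz.ne'
  have hq0 : 0 < q := by
    rw [h1] at haz'
    exact pos_of_mul_pos_left haz' haz.le
  rw [hs, mul_zero, sub_zero] at h
  have hq : q = 1 := by
    rcases Int.isUnit_iff.1 (IsUnit.of_mul_eq_one t h) with h5 | h5
    · exact h5
    · omega
  rw [hq, one_mul] at h
  rw [hs, h, zero_mul, zero_add, one_mul] at h4
  rw [hq, one_mul] at h2
  have h5 : p'.1 = p.1 := by exact_mod_cast h4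
  have hr : r = 0 := by
    have h6 : (p.2 : ℤ) < (p.1 : ℤ) := by exact_mod_cast hp.2
    have h7 : (p'.2 : ℤ) < (p.1 : ℤ) := by
      rw [← h5]
      exact_mod_cast hp'.2
    have h8 : (0 : ℤ) ≤ (p.2 : ℤ) := Int.natCast_nonneg _
    have h9 : (0 : ℤ) ≤ (p'.2 : ℤ) := Int.natCast_nonneg _
    have h10 : (0 : ℤ) < (p.1 : ℤ) := by exact_mod_cast hp1
    rcases lt_trichotomy r 0 with h11 | h11 | h11
    · have : r * (p.1 : ℤ) ≤ -1 * (p.1 : ℤ) := mul_le_mul_of_nonneg_right (by omega) h10.le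
      linarith
    · exact h11
    · have : 1 * (p.1 : ℤ) ≤ r * (p.1 : ℤ) := mul_le_mul_of_nonneg_right (by omega) h10.le
      linarith
  rw [hr, zero_mul, add_zero] at h2
  have h12 : p'.2 = p.2 := by exact_mod_cast h2
  exact Prod.ext h5.symm h12.symm

end Pool.Agent.Lib.MP5e
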