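import Pool.Agent.Lib.MP_5e64e7_nt.RBSer
import Pool.Agent.Lib.MP_5e64e7_nt.RBDel
import Pool.Agent.Lib.MP_5e64e7_nt.RBHnf

set_option autoImplicit false

/-!
# RB.QS : the `q`-expansion of the power sums (about 200 lines)

Let `c m = coeff m (rbE ^ r)` (integers). For `0 < Im u`: `E4f u ^ r = ∑ c_m q(u)^m`, absolutely convergent (`q(u) = exp(2πiu)`):
from `rbE_map`, `ModularForm.qExpansion_pow`, `E4f_coe` and `ModularFormClass.hasSum_qExpansion` (or directly for `r = 1` from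
the definition of `E4f` and Cauchy products).
For `a d = n`: `∑_{b < d} E4f((a z + b)/d)^r = ∑_m c_m q(a z/d)^m ∑_{b<d} exp(2πi m b/d) = d ∑_l c_{d l} q(z)^{a l}`
(the geometric sum is `d` if `d ∣ m` and `0` otherwise: `IsPrimitiveRoot.geom_sum_eq_zero`, `Complex.isPrimitiveRoot_exp`; the map
`l ↦ d l` is injective, `HasSum` over the multiples, `Function.Injective.hasSum_iff`). So
`F_m = ∑_{d ∣ n, (n/d) ∣ m} (n/d)^(4r) d c_{d (m / (n/d))}` (`F = mk ...`), `HasSum` by adding the finitely many `d ∣ n`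
(`hasSum_sum`; `l ↦ a l` injective again). `rbI n` is the disjoint union over `d ∣ n` of `{d} × [0, d)`
(`Finset.sum_filter`, `Finset.sum_product`, `d ≤ n`).
`F_0 = ∑_{d ∣ n} (n/d)^(4r) d = ∑_{p ∈ rbI n} (n/p.1)^(4r)` as `c_0 = 1`.
Size: `d (m/(n/d)) ≤ n m ≤ n T`, so `|F_m| ≤ n · n^(4r) · n · rbn (n T) (rbE^r)`, `rbn (nT) (rbE ^ r) ≤ 2^(8 (n T + 1) r)`
(`rbn_pow`, `rbn_E`), at most `n` divisors: `rbn r F ≤ (r+1) n^(4r+2) 2^(8(nr+1)r) ≤ 2^(24 n (r+1)²)`
(`r + 1 ≤ 2^r`, `n ≤ 2^n`: exponent `r + n(4r+2) + 8 n r² + 8 r ≤ 24 n (r+1)²`).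
-/

noncomputable section

namespace Pool.Agent.Lib.MP5e

open Polynomial Topology

private theorem qs_congr {f g : ℕ → ℂ} {a : ℂ} (hf : HasSum f a) (h : ∀ m, f m = g m) :
    HasSum g a := by
  rwa [← funext h]

/-- absolute convergence and value of the `q`-series of `E₄` -/
private theorem qs_E4 (u : ℂ) (hu : 0 < u.im) :
    Summable (fun m : ℕ => ‖((PowerSeries.coeff m rbE : ℤ) : ℂ) *
      Complex.exp (2 * (Real.pi : ℂ) * Complex.I * u) ^ m‖) ∧
    HasSum (fun m : ℕ => ((PowerSeries.coeff m rbE : ℤ) : ℂ) *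
      Complex.exp (2 * (Real.pi : ℂ) * Complex.I * u) ^ m) (E4f u) := by
  set q : ℂ := Complex.exp (2 * (Real.pi : ℂ) * Complex.I * u) with hq
  have hq1 : ‖q‖ < 1 := by
    rw [hq, Complex.norm_exp]
    rw [Real.exp_lt_one_iff]
    simp
    positivity
  have hc : ∀ m : ℕ, PowerSeries.coeff m rbE =
      if m = 0 then 1 else 240 * ((ArithmeticFunction.sigma 3 m : ℕ) : ℤ) := fun m => by
    rw [rbE, PowerSeries.coeff_mk]
  have hs1 : Summable (fun m : ℕ => ‖((ArithmeticFunction.sigma 3 (m + 1) : ℕ) : ℂ) *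
      q ^ (m + 1)‖) := by
    have h1 := summable_norm_pow_mul_geometric_of_norm_lt_one (R := ℂ) 4 hq1
    have h2 := (summable_nat_add_iff 1).2 h1
    refine Summable.of_nonneg_of_le (fun _ => norm_nonneg _) (fun m => ?_) h2
    rw [norm_mul, norm_mul]
    refine mul_le_mul_of_nonneg_right ?_ (norm_nonneg _)
    rw [Complex.norm_natCast, norm_pow, Complex.norm_natCast]
    exact_mod_cast ArithmeticFunction.sigma_le_pow_succ 3 (m + 1)
  have hs2 : Summable (fun m : ℕ => ‖((PowerSeries.coeff m rbE : ℤ) : ℂ) * q ^ m‖) := by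
    rw [← summable_nat_add_iff 1]
    have h3 := hs1.mul_left 240
    refine h3.congr fun m => ?_
    rw [hc, if_neg (Nat.succ_ne_zero m)]
    push_cast
    rw [mul_assoc, norm_mul (240 : ℂ)]
    norm_num
  refine ⟨hs2, ?_⟩
  have h4 := hs2.of_norm.hasSum
  have h5 : ∑' m : ℕ, ((PowerSeries.coeff m rbE : ℤ) : ℂ) * q ^ m = E4f u := by
    rw [hs2.of_norm.tsum_eq_zero_add, hc 0, if_pos rfl, E4f, ← tsum_mul_left]
    congr 1
    · simp
    · refine tsum_congr fun m => ?_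
      rw [hc, if_neg (Nat.succ_ne_zero m)]
      push_cast
      rw [mul_assoc]
  rwa [h5] at h4

/-- the `q`-series of the powers of `E₄` -/
private theorem qs_pow (r : ℕ) (u : ℂ) (hu : 0 < u.im) :
    Summable (fun m : ℕ => ‖((PowerSeries.coeff m (rbE ^ r) : ℤ) : ℂ) *
      Complex.exp (2 * (Real.pi : ℂ) * Complex.I * u) ^ m‖) ∧
    HasSum (fun m : ℕ => ((PowerSeries.coeff m (rbE ^ r) : ℤ) : ℂ) *
      Complex.exp (2 * (Real.pi : ℂ) * Complex.I * u) ^ m) (E4f u ^ r) := by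
  obtain ⟨hE1, hE2⟩ := qs_E4 u hu
  set q : ℂ := Complex.exp (2 * (Real.pi : ℂ) * Complex.I * u) with hq
  induction r with
  | zero =>
    have h1 : ∀ m : ℕ, m ≠ 0 → ((PowerSeries.coeff m (rbE ^ 0) : ℤ) : ℂ) * q ^ m = 0 := by
      intro m hm
      rw [pow_zero, PowerSeries.coeff_one, if_neg hm]
      simp
    constructor
    · refine summable_of_ne_finset_zero (s := {0}) fun m hm => ?_
      rw [h1 m (by simpa using hm), norm_zero]
    · have h2 := hasSum_single (f := fun m : ℕ =>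
        ((PowerSeries.coeff m (rbE ^ 0) : ℤ) : ℂ) * q ^ m) 0 h1
      simpa using h2
  | succ r ih =>
    obtain ⟨h1, h2⟩ := ih
    have hco : ∀ m : ℕ, ((PowerSeries.coeff m (rbE ^ (r + 1)) : ℤ) : ℂ) * q ^ m =
        ∑ kl ∈ Finset.HasAntidiagonal.antidiagonal m, (((PowerSeries.coeff kl.1 (rbE ^ r) : ℤ) : ℂ) * q ^ kl.1) *
          (((PowerSeries.coeff kl.2 rbE : ℤ) : ℂ) * q ^ kl.2) := by
      intro m
      rw [pow_succ, PowerSeries.coeff_mul]
      push_cast
      rw [Finset.sum_mul]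
      refine Finset.sum_congr rfl fun kl hkl => ?_
      rw [← Finset.HasAntidiagonal.mem_antidiagonal.1 hkl, pow_add]
      ring
    have h3 := summable_norm_sum_mul_antidiagonal_of_summable_norm h1 hE1
    have h4 := tsum_mul_tsum_eq_tsum_sum_antidiagonal_of_summable_norm h1 hE1
    simp_rw [← hco] at h3 h4
    refine ⟨h3, ?_⟩
    have h5 := h3.of_norm.hasSum
    rw [← h4, h2.tsum_eq, hE2.tsum_eq, ← pow_succ] at h5
    exact h5

/-- geometric sums of roots of unity -/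
private theorem qs_geom (d m : ℕ) (hd : 1 ≤ d) :
    ∑ b ∈ Finset.range d, Complex.exp (2 * (Real.pi : ℂ) * Complex.I * ((m : ℂ) * b / d)) =
      if d ∣ m then (d : ℂ) else 0 := by
  have hd0 : (d : ℂ) ≠ 0 := by exact_mod_cast (show d ≠ 0 by omega)
  have hprim := Complex.isPrimitiveRoot_exp d (show d ≠ 0 by omega)
  set ζ : ℂ := Complex.exp (2 * (Real.pi : ℂ) * Complex.I / d) with hζ
  have h1 : ∀ b : ℕ, Complex.exp (2 * (Real.pi : ℂ) * Complex.I * ((m : ℂ) * b / d)) =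
      (ζ ^ m) ^ b := by
    intro b
    rw [hζ, ← pow_mul, ← Complex.exp_nat_mul]
    congr 1
    push_cast
    field_simp
  simp_rw [h1]
  split_ifs with hdm
  · have h2 : ζ ^ m = 1 := (hprim.pow_eq_one_iff_dvd m).2 hdm
    rw [h2]
    simp
  · have h2 : ζ ^ m ≠ 1 := fun h => hdm ((hprim.pow_eq_one_iff_dvd m).1 h)
    have h3 := geom_sum_mul (ζ ^ m) d
    rw [← pow_mul, mul_comm m d, pow_mul, hprim.pow_eq_one, one_pow, sub_self] at h3
    exact (mul_eq_zero.1 h3).resolve_right (sub_ne_zero.2 h2)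

/-- the contribution of the matrices `(a b; 0 d)`, `0 ≤ b < d` -/
private theorem qs_div (r a d : ℕ) (ha : 1 ≤ a) (hd : 1 ≤ d) (z : ℂ) (hz : 0 < z.im) :
    HasSum (fun m : ℕ => (((if a ∣ m then (d : ℤ) * PowerSeries.coeff (d * (m / a)) (rbE ^ r)
        else 0 : ℤ)) : ℂ) * Complex.exp (2 * (Real.pi : ℂ) * Complex.I * z) ^ m)
      (∑ b ∈ Finset.range d, E4f (((a : ℂ) * z + (b : ℂ)) / (d : ℂ)) ^ r) := by
  have hd0 : (d : ℂ) ≠ 0 := by exact_mod_cast (show d ≠ 0 by omega)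
  have him : ∀ b : ℕ, 0 < (((a : ℂ) * z + (b : ℂ)) / (d : ℂ)).im := by
    intro b
    rw [Complex.div_natCast_im]
    have h1 : ((a : ℂ) * z + (b : ℂ)).im = a * z.im := by simp
    rw [h1]
    have : (0 : ℝ) < a := by exact_mod_cast ha
    have : (0 : ℝ) < d := by exact_mod_cast hd
    positivity
  have h1 : HasSum (fun m : ℕ => ∑ b ∈ Finset.range d,
      ((PowerSeries.coeff m (rbE ^ r) : ℤ) : ℂ) *
        Complex.exp (2 * (Real.pi : ℂ) * Complex.I * (((a : ℂ) * z + (b : ℂ)) / (d : ℂ))) ^ m)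
      (∑ b ∈ Finset.range d, E4f (((a : ℂ) * z + (b : ℂ)) / (d : ℂ)) ^ r) :=
    hasSum_sum fun b _ => (qs_pow r _ (him b)).2
  have h2 : ∀ m : ℕ, ∑ b ∈ Finset.range d, ((PowerSeries.coeff m (rbE ^ r) : ℤ) : ℂ) *
        Complex.exp (2 * (Real.pi : ℂ) * Complex.I * (((a : ℂ) * z + (b : ℂ)) / (d : ℂ))) ^ m =
      if d ∣ m then (d : ℂ) * ((PowerSeries.coeff m (rbE ^ r) : ℤ) : ℂ) *
        Complex.exp (2 * (Real.pi : ℂ) * Complex.I * ((m : ℂ) * (a * z) / d)) else 0 := by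
    intro m
    have h3 : ∀ b : ℕ, ((PowerSeries.coeff m (rbE ^ r) : ℤ) : ℂ) *
        Complex.exp (2 * (Real.pi : ℂ) * Complex.I * (((a : ℂ) * z + (b : ℂ)) / (d : ℂ))) ^ m =
        ((PowerSeries.coeff m (rbE ^ r) : ℤ) : ℂ) *
        Complex.exp (2 * (Real.pi : ℂ) * Complex.I * ((m : ℂ) * (a * z) / d)) *
        Complex.exp (2 * (Real.pi : ℂ) * Complex.I * ((m : ℂ) * b / d)) := by
      intro b
      rw [mul_assoc (_ : ℂ) (Complex.exp _) (Complex.exp _), ← Complex.exp_add,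
        ← Complex.exp_nat_mul]
      congr 2
      field_simp
    simp_rw [h3]
    rw [← Finset.mul_sum, qs_geom d m hd]
    split_ifs
    · ring
    · ring
  simp_rw [h2] at h1
  -- reindex by `m = d l`
  have hinj : Function.Injective (fun l : ℕ => d * l) := fun x y h =>
    Nat.eq_of_mul_eq_mul_left (by omega) h
  rw [← Function.Injective.hasSum_iff hinj] at h1
  swap
  · intro m hm
    rw [if_neg]
    rintro ⟨l, rfl⟩
    exact hm ⟨l, rfl⟩
  have hinja : Function.Injective (fun l : ℕ => a * l) := fun x y h =>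
    Nat.eq_of_mul_eq_mul_left (by omega) h
  rw [← Function.Injective.hasSum_iff hinja]
  swap
  · intro m hm
    rw [if_neg]
    · simp
    · rintro ⟨l, rfl⟩
      exact hm ⟨l, rfl⟩
  refine qs_congr h1 fun l => ?_
  simp only [Function.comp_apply]
  rw [if_pos (Dvd.intro l rfl), if_pos (Dvd.intro l rfl), Nat.mul_div_cancel_left _ (by omega)]
  push_cast
  rw [← Complex.exp_nat_mul]
  congr 2
  push_cast
  field_simp

private theorem qs_rbI (n : ℕ) {M : Type*} [AddCommMonoid M] (f : ℕ × ℕ → M) :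
    ∑ p ∈ rbI n, f p = ∑ d ∈ n.divisors, ∑ b ∈ Finset.range d, f (d, b) := by
  rw [rbI, Finset.sum_filter, Finset.sum_product]
  refine Finset.sum_congr rfl fun d hd => ?_
  rw [← Finset.sum_filter]
  refine Finset.sum_congr ?_ fun _ _ => rfl
  have h1 : d ≤ n := Nat.divisor_le hd
  ext b
  simp only [Finset.mem_filter, Finset.mem_range]
  omega

theorem rb_qs (n r : ℕ) (hn : 1 ≤ n) : ∃ F : PowerSeries ℤ,
    (∀ z : ℂ, 0 < z.im → HasSum (fun m : ℕ => ((PowerSeries.coeff m F : ℤ) : ℂ) *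
      Complex.exp (2 * (Real.pi : ℂ) * Complex.I * z) ^ m) (rbP n r z)) ∧
    PowerSeries.coeff 0 F = ∑ p ∈ rbI n, ((n / p.1 : ℕ) : ℤ) ^ (4 * r) ∧
    rbn r F ≤ 2 ^ (24 * n * (r + 1) ^ 2) := by
  classical
  have hdv : ∀ d ∈ n.divisors, 1 ≤ d ∧ d ≤ n ∧ 1 ≤ n / d ∧ n / d ≤ n := by
    intro d hd
    have h1 := Nat.pos_of_mem_divisors hd
    have h2 := Nat.divisor_le hd
    exact ⟨h1, h2, Nat.div_pos h2 h1, Nat.div_le_self _ _⟩
  refine ⟨PowerSeries.mk fun m => ∑ d ∈ n.divisors, ((n / d : ℕ) : ℤ) ^ (4 * r) *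
    (if (n / d) ∣ m then (d : ℤ) * PowerSeries.coeff (d * (m / (n / d))) (rbE ^ r) else 0),
    ?_, ?_, ?_⟩
  · intro z hz
    have h1 : rbP n r z = ∑ d ∈ n.divisors, ((n / d : ℕ) : ℂ) ^ (4 * r) *
        ∑ b ∈ Finset.range d, E4f ((((n / d : ℕ) : ℂ) * z + (b : ℂ)) / (d : ℂ)) ^ r := by
      rw [rbP, qs_rbI n]
      refine Finset.sum_congr rfl fun d _ => ?_
      rw [Finset.mul_sum]
      refine Finset.sum_congr rfl fun b _ => ?_
      rw [rbf, mul_pow, ← pow_mul]
    rw [h1]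
    have h2 := hasSum_sum (s := n.divisors) (fun d hd =>
      (qs_div r (n / d) d (hdv d hd).2.2.1 (hdv d hd).1 z hz).mul_left
        (((n / d : ℕ) : ℂ) ^ (4 * r)))
    refine qs_congr h2 fun m => ?_
    rw [PowerSeries.coeff_mk, Int.cast_sum, Finset.sum_mul]
    refine Finset.sum_congr rfl fun d _ => ?_
    rw [Int.cast_mul, Int.cast_pow, Int.cast_natCast]
    ring
  · rw [PowerSeries.coeff_mk, qs_rbI n]
    refine Finset.sum_congr rfl fun d _ => ?_
    have h1 : PowerSeries.coeff 0 (rbE ^ r) = 1 := by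
      rw [PowerSeries.coeff_zero_eq_constantCoeff, map_pow]
      have h2 : PowerSeries.constantCoeff rbE = 1 := by
        rw [← PowerSeries.coeff_zero_eq_constantCoeff_apply, rbE, PowerSeries.coeff_mk, if_pos rfl]
      rw [h2, one_pow]
    rw [if_pos (dvd_zero _), Nat.zero_div, mul_zero, h1]
    simp only [Finset.sum_const, Finset.card_range, nsmul_eq_mul]
    ring
  · have hb : ∀ m ≤ r, (PowerSeries.coeff m (PowerSeries.mk fun m => ∑ d ∈ n.divisors,
        ((n / d : ℕ) : ℤ) ^ (4 * r) * (if (n / d) ∣ m then (d : ℤ) *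
          PowerSeries.coeff (d * (m / (n / d))) (rbE ^ r) else 0))).natAbs ≤
        n * (n ^ (4 * r) * (n * 2 ^ (8 * (n * r + 1) * r))) := by
      intro m hm
      rw [PowerSeries.coeff_mk]
      refine (Int.natAbs_sum_le _ _).trans ?_
      have h3 : ∀ d ∈ n.divisors, (((n / d : ℕ) : ℤ) ^ (4 * r) * (if (n / d) ∣ m then (d : ℤ) *
          PowerSeries.coeff (d * (m / (n / d))) (rbE ^ r) else 0)).natAbs ≤
          n ^ (4 * r) * (n * 2 ^ (8 * (n * r + 1) * r)) := by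
        intro d hd
        obtain ⟨hd1, hd2, hd3, hd4⟩ := hdv d hd
        rw [Int.natAbs_mul, Int.natAbs_pow, Int.natAbs_natCast]
        refine Nat.mul_le_mul (Nat.pow_le_pow_left hd4 _) ?_
        split_ifs
        · rw [Int.natAbs_mul, Int.natAbs_natCast]
          refine Nat.mul_le_mul hd2 ?_
          have h4 : d * (m / (n / d)) ≤ n * r :=
            Nat.mul_le_mul hd2 ((Nat.div_le_self _ _).trans hm)
          refine (rbn_coeff (n * r) _ h4 _).trans ((rbn_pow _ _ _).trans ?_)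
          rw [pow_mul]
          exact Nat.pow_le_pow_left (rbn_E _) _
        · simp
      refine (Finset.sum_le_sum h3).trans ?_
      rw [Finset.sum_const, smul_eq_mul]
      exact Nat.mul_le_mul (Nat.card_divisors_le_self n) le_rfl
    have h5 : ∀ F : PowerSeries ℤ, (∀ m ≤ r, (PowerSeries.coeff m F).natAbs ≤
        n * (n ^ (4 * r) * (n * 2 ^ (8 * (n * r + 1) * r)))) →
        rbn r F ≤ 2 ^ (24 * n * (r + 1) ^ 2) := by
      intro F hF
      rw [rbn]
      refine (Finset.sum_le_sum (fun m hm => hF m (Nat.lt_succ_iff.1 (Finset.mem_range.1 hm)))).trans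
        ?_
      rw [Finset.sum_const, Finset.card_range, smul_eq_mul]
      have h6 : r + 1 ≤ 2 ^ r := Nat.lt_two_pow_self
      have h7 : n ≤ 2 ^ n := Nat.lt_two_pow_self.le
      calc (r + 1) * (n * (n ^ (4 * r) * (n * 2 ^ (8 * (n * r + 1) * r))))
          ≤ 2 ^ r * (2 ^ n * ((2 ^ n) ^ (4 * r) * (2 ^ n * 2 ^ (8 * (n * r + 1) * r)))) := by
            gcongr
        _ = 2 ^ (r + (n + (n * (4 * r) + (n + 8 * (n * r + 1) * r)))) := by
            rw [← pow_mul, ← pow_add, ← pow_add, ← pow_add, ← pow_add]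
        _ ≤ 2 ^ (24 * n * (r + 1) ^ 2) := by
            refine Nat.pow_le_pow_right (by norm_num) ?_
            nlinarith [Nat.zero_le (n * r), Nat.zero_le (n * r ^ 2), Nat.mul_le_mul hn (le_refl r),
              Nat.mul_le_mul hn (le_refl (r ^ 2))]
    exact h5 _ hb

end Pool.Agent.Lib.MP5e
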