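import Pool.Agent.Lib.MP_5e64e7_nt.RBInv
import Pool.Agent.Lib.MP_5e64e7_nt.RBQs

set_option autoImplicit false

/-!
# RB.FORM : the power sums as modular forms of level one (about 130 lines)

`toFun z = rbP n r z`. Slash invariance: `SlashInvariantForm.slash_action_generators_SL2Z` with `rbP_T`, `rbP_S` (weight `4r`:
`(f ∣[k] S) z = z^(-k) f(-1/z)`, `UpperHalfPlane.modular_S_smul`, `ModularForm.slash_apply`/`SL_slash_apply`, `denom_S`).
Holomorphic: `E4f_diff` and composition (`UpperHalfPlane.mdifferentiable_iff`). Bounded at the cusps: as in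
`CuspForm.discriminantEquiv` of Mathlib (`DimensionFormula.lean`): `Subgroup.IsArithmetic.isCusp_iff_isCusp_SL2Z`,
`isBoundedAt_iff_forall_SL2Z`, the slash invariance, and `UpperHalfPlane.isBoundedAtImInfty_of_hasSum_qExpansion` with the
`HasSum` of `rb_qs`. `qExpansion 1 f = map F` by `ModularFormClass.qExpansion_coeff_unique` (period `1`, `𝕢 1 z = exp(2πi z)`,
`Function.Periodic.qParam`).
-/

noncomputable section

namespace Pool.Agent.Lib.MP5e

open Polynomial Topology MatrixGroups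

open UpperHalfPlane ModularForm SlashInvariantForm in
private theorem rbf_slash_T (n r : ℕ) (hn : 1 ≤ n) :
    (fun z : UpperHalfPlane => rbP n r (z : ℂ)) ∣[((4 * r : ℕ) : ℤ)] ModularGroup.T
      = fun z : UpperHalfPlane => rbP n r (z : ℂ) := by
  ext z
  rw [SL_slash_apply, modular_T_smul]
  have hden : denom (ModularGroup.T : GL (Fin 2) ℝ) z = 1 := by
    rw [ModularGroup.denom_apply]
    simp [ModularGroup.T]
  rw [hden, one_zpow, mul_one]
  have hc : (((1 : ℝ) +ᵥ z : UpperHalfPlane) : ℂ) = (z : ℂ) + 1 := by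
    rw [coe_vadd]
    push_cast
    ring
  show rbP n r (((1 : ℝ) +ᵥ z : UpperHalfPlane) : ℂ) = rbP n r (z : ℂ)
  rw [hc]
  exact rbP_T n r hn z.im_pos

open UpperHalfPlane ModularForm SlashInvariantForm in
private theorem rbf_slash_S (n r : ℕ) (hn : 1 ≤ n) :
    (fun z : UpperHalfPlane => rbP n r (z : ℂ)) ∣[((4 * r : ℕ) : ℤ)] ModularGroup.S
      = fun z : UpperHalfPlane => rbP n r (z : ℂ) := by
  ext z
  rw [SL_slash_apply, modular_S_smul]
  have hz : (z : ℂ) ≠ 0 := z.ne_zero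
  have hden : denom (ModularGroup.S : GL (Fin 2) ℝ) z = z := ModularGroup.denom_S z
  rw [hden]
  show rbP n r ((-(z : ℂ))⁻¹) * (z : ℂ) ^ (-((4 * r : ℕ) : ℤ)) = rbP n r (z : ℂ)
  have hc : (-(z : ℂ))⁻¹ = -1 / (z : ℂ) := by
    rw [inv_neg, neg_div, one_div]
  rw [hc, rbP_S n r hn z.im_pos, zpow_neg, zpow_natCast]
  have hp : (z : ℂ) ^ (4 * r) ≠ 0 := pow_ne_zero _ hz
  field_simp

private theorem rbP_diff (n r : ℕ) (hn : 1 ≤ n) {z : ℂ} (hz : 0 < z.im) :
    DifferentiableAt ℂ (fun w => rbP n r w) z := by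
  unfold rbP
  refine DifferentiableAt.fun_sum fun p hp => ?_
  have hp' : (p.1 ∣ n ∧ n ≠ 0) ∧ p.2 < n ∧ p.2 < p.1 := by
    have h1 := hp
    unfold rbI at h1
    rw [Finset.mem_filter, Finset.mem_product, Nat.mem_divisors, Finset.mem_range] at h1
    exact ⟨h1.1.1, h1.1.2, h1.2⟩
  have hd : 0 < p.1 := Nat.pos_of_dvd_of_pos hp'.1.1 (by omega)
  have ha : 0 < n / p.1 := Nat.div_pos (Nat.le_of_dvd (by omega) hp'.1.1) hd
  refine DifferentiableAt.fun_pow ?_ r
  unfold rbf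
  refine DifferentiableAt.const_mul ?_ _
  have him : 0 < (((((n / p.1 : ℕ) : ℂ) * z + (p.2 : ℂ)) / (p.1 : ℂ))).im := by
    have e : ((((n / p.1 : ℕ) : ℂ) * z + (p.2 : ℂ)) / (p.1 : ℂ)).im
        = ((n / p.1 : ℕ) : ℝ) * z.im / (p.1 : ℝ) := by
      have e1 : ((((n / p.1 : ℕ) : ℂ) * z + (p.2 : ℂ)) / (p.1 : ℂ))
          = ((((n / p.1 : ℕ) : ℂ) * z + (p.2 : ℂ)) / ((p.1 : ℝ) : ℂ)) := by push_cast; rfl
      rw [e1, Complex.div_ofReal_im]
      congr 1
      have e2 : (((n / p.1 : ℕ) : ℂ) * z + (p.2 : ℂ)) = ((((n / p.1 : ℕ) : ℝ) : ℂ) * z + ((p.2 : ℝ) : ℂ)) := by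
        push_cast
        rfl
      rw [e2, Complex.add_im, Complex.im_ofReal_mul, Complex.ofReal_im, add_zero]
    rw [e]
    have h1 : (0 : ℝ) < ((n / p.1 : ℕ) : ℝ) := by exact_mod_cast ha
    have h2 : (0 : ℝ) < (p.1 : ℝ) := by exact_mod_cast hd
    positivity
  refine DifferentiableAt.comp (g := E4f) (f := fun w : ℂ => (((n / p.1 : ℕ) : ℂ) * w + (p.2 : ℂ)) / (p.1 : ℂ)) z
    (E4f_diff him) ?_
  fun_prop

open UpperHalfPlane ModularForm SlashInvariantForm ModularFormClass in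
theorem rb_form (n r : ℕ) (hn : 1 ≤ n) : ∃ (f : ModularForm 𝒮ℒ ((4 * r : ℕ) : ℤ))
    (F : PowerSeries ℤ), (∀ z : UpperHalfPlane, f z = rbP n r (z : ℂ)) ∧
    PowerSeries.map (Int.castRingHom ℂ) F = UpperHalfPlane.qExpansion 1 f ∧
    PowerSeries.coeff 0 F = ∑ p ∈ rbI n, ((n / p.1 : ℕ) : ℤ) ^ (4 * r) ∧
    rbn r F ≤ 2 ^ (24 * n * (r + 1) ^ 2) := by
  obtain ⟨F, hF1, hF2, hF3⟩ := rb_qs n r hn
  have hsum : ∀ τ : UpperHalfPlane, HasSum (fun m : ℕ => ((PowerSeries.coeff m F : ℤ) : ℂ) •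
      Function.Periodic.qParam 1 (τ : ℂ) ^ m) (rbP n r (τ : ℂ)) := by
    intro τ
    have h := hF1 (τ : ℂ) τ.im_pos
    have e : Function.Periodic.qParam 1 (τ : ℂ) = Complex.exp (2 * (Real.pi : ℂ) * Complex.I * τ) := by
      simp only [Function.Periodic.qParam, Complex.ofReal_one, div_one]
    rw [e]
    simpa only [smul_eq_mul] using h
  have hinv : ∀ γ : Matrix.SpecialLinearGroup (Fin 2) ℤ,
      (fun z : UpperHalfPlane => rbP n r (z : ℂ)) ∣[((4 * r : ℕ) : ℤ)] γ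
        = fun z : UpperHalfPlane => rbP n r (z : ℂ) :=
    slash_action_generators_SL2Z (rbf_slash_S n r hn) (rbf_slash_T n r hn)
  let f : ModularForm 𝒮ℒ ((4 * r : ℕ) : ℤ) :=
    { toFun := fun z : UpperHalfPlane => rbP n r (z : ℂ)
      slash_action_eq' := by
        intro A hA
        obtain ⟨A, rfl⟩ := hA
        exact hinv A
      holo' := by
        rw [UpperHalfPlane.mdifferentiable_iff]
        refine DifferentiableOn.congr (fun z hz => (rbP_diff n r hn hz).differentiableWithinAt)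
          fun z hz => ?_
        simp [ofComplex_apply_of_im_pos hz]
      bdd_at_cusps' := by
        intro c hc
        rw [Subgroup.IsArithmetic.isCusp_iff_isCusp_SL2Z] at hc
        rw [OnePoint.isBoundedAt_iff_forall_SL2Z hc]
        intro γ _
        rw [hinv γ]
        exact isBoundedAtImInfty_of_hasSum_qExpansion one_pos hsum }
  refine ⟨f, F, fun z => rfl, ?_, hF2, hF3⟩
  ext m
  rw [PowerSeries.coeff_map]
  exact ModularFormClass.qExpansion_coeff_unique (f := f) one_pos one_mem_strictPeriods_SL hsum m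

end Pool.Agent.Lib.MP5e
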