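import Pool.Agent.Lib.MP_5e64e7_nt.RBDefs
import Pool.Agent.Lib.MP_5e64e7_nt.L1l

set_option autoImplicit false

/-!
# RB.NEWT : Newton's identities with integer polynomials (about 150 lines, pure algebra)

Put `q 0 = 1`, `q r = ∑_{i=1}^{r} (-1)^(i-1) ((r-1)!/(r-i)!) q (r-i) Q i` (`r ≥ 1`; `(r-1)!/(r-i)!` is a natural number, e.g.
`Nat.descFactorial (r-1) (i-1)`). Then `natDegree (q r) ≤ r` and
`L1 (q r) ≤ ∑_{i=1}^r ((r-1)!/(r-i)!) (r-i)! B^(r-i) B ≤ r (r-1)! B^r = r! B^r` by strong induction (`r ≤ N`; `B ≥ 1`; `L1` is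
submultiplicative and subadditive: see `L1l.lean`, `OMul.lean`; prove what is missing).
If `∑ t_a^i = Q_i(y)` for `1 ≤ i ≤ N`, then `r! e_r(t) = q_r(y)` for `r ≤ N` by strong induction from Newton's identities
`r e_r = ∑_{i=1}^r (-1)^(i-1) e_{r-i} p_i` (`MvPolynomial.mul_esymm_eq_sum`, evaluate at `t` with `MvPolynomial.aeval t`), multiplied by
`(r-1)!`. Finally `∏ (X - t_a) = ∑_{r ≤ N} (-1)^r e_r(t) X^(N-r)` (`Multiset.prod_X_sub_X_eq_sum_esymm`,
`MvPolynomial.prod_C_add_X_eq_sum_esymm` or `Finset.prod_X_sub...`; `N = Fintype.card ι`), times `N! = (N!/r!) r!`.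
-/

noncomputable section

namespace Pool.Agent.Lib.MP5e

open Polynomial Topology

private theorem rbn_L1_X_pow_mul (i : ℕ) (p : ℤ[X]) : L1 (X ^ i * p) ≤ L1 p := by
  induction i with
  | zero => rw [pow_zero, one_mul]
  | succ i ih =>
    rw [pow_succ', mul_assoc]
    exact (L1_X_mul _).trans ih

private theorem rbn_L1_mul (p q : ℤ[X]) : L1 (p * q) ≤ L1 p * L1 q := by
  have h1 : p * q = ∑ i ∈ p.support, C (p.coeff i) * (X ^ i * q) := by
    calc p * q = (∑ i ∈ p.support, C (p.coeff i) * X ^ i) * q := by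
          rw [← Polynomial.as_sum_support_C_mul_X_pow]
      _ = ∑ i ∈ p.support, C (p.coeff i) * (X ^ i * q) := by
          rw [Finset.sum_mul]
          exact Finset.sum_congr rfl fun i _ => by rw [mul_assoc]
  rw [h1]
  refine (L1_sum _ _).trans ?_
  conv_rhs => rw [L1, Finset.sum_mul]
  refine Finset.sum_le_sum fun i _ => ?_
  exact (L1_C_mul _ _).trans (Nat.mul_le_mul_left _ (rbn_L1_X_pow_mul i q))

private theorem rbn_L1_one : L1 (1 : ℤ[X]) ≤ 1 := by
  rw [L1l_eq_range 1 0 (by rw [Polynomial.natDegree_one])]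
  simp

/-- the polynomials `q r` -/
private def rbnq (Q : ℕ → ℤ[X]) : ℕ → ℤ[X]
  | 0 => 1
  | (r + 1) => ∑ j : Fin (r + 1),
      C ((-1) ^ (j : ℕ) * ((r.descFactorial j : ℕ) : ℤ)) * (rbnq Q (r - j) * Q (j + 1))
termination_by r => r
decreasing_by exact Nat.lt_succ_of_le (Nat.sub_le _ _)

private theorem rbnq_zero (Q : ℕ → ℤ[X]) : rbnq Q 0 = 1 := by
  rw [rbnq]

private theorem rbnq_succ (Q : ℕ → ℤ[X]) (r : ℕ) : rbnq Q (r + 1) = ∑ j ∈ Finset.range (r + 1),
    C ((-1) ^ j * ((r.descFactorial j : ℕ) : ℤ)) * (rbnq Q (r - j) * Q (j + 1)) := by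
  rw [rbnq, Finset.sum_range]

private theorem rbnq_deg (Q : ℕ → ℤ[X]) (hdeg : ∀ i, (Q i).natDegree ≤ i) (r : ℕ) :
    (rbnq Q r).natDegree ≤ r := by
  induction r using Nat.strong_induction_on with
  | _ r ih =>
    cases r with
    | zero =>
      rw [rbnq_zero, Polynomial.natDegree_one]
    | succ r =>
      rw [rbnq_succ]
      refine Polynomial.natDegree_sum_le_of_forall_le _ _ (fun j hj => ?_)
      rw [Finset.mem_range] at hj
      refine (Polynomial.natDegree_C_mul_le _ _).trans ?_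
      refine (Polynomial.natDegree_mul_le_of_le (ih (r - j) (by omega)) (hdeg (j + 1))).trans ?_
      omega

private theorem rbnq_L1 (N B : ℕ) (hB : 1 ≤ B) (Q : ℕ → ℤ[X]) (hQ : ∀ i, i ≤ N → L1 (Q i) ≤ B)
    (r : ℕ) : r ≤ N → L1 (rbnq Q r) ≤ r.factorial * B ^ r := by
  induction r using Nat.strong_induction_on with
  | _ r ih =>
    cases r with
    | zero =>
      intro _
      rw [rbnq_zero, Nat.factorial_zero, pow_zero]
      exact rbn_L1_one
    | succ r =>
      intro hr
      rw [rbnq_succ]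
      refine (L1_sum _ _).trans ?_
      have h1 : ∀ j ∈ Finset.range (r + 1),
          L1 (C ((-1) ^ j * ((r.descFactorial j : ℕ) : ℤ)) * (rbnq Q (r - j) * Q (j + 1))) ≤
            r.factorial * B ^ (r + 1) := by
        intro j hj
        rw [Finset.mem_range] at hj
        refine (L1_C_mul _ _).trans ?_
        have h2 : ((-1) ^ j * ((r.descFactorial j : ℕ) : ℤ)).natAbs = r.descFactorial j := by
          rw [Int.natAbs_mul, Int.natAbs_pow, Int.natAbs_neg, Int.natAbs_one, one_pow, one_mul,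
            Int.natAbs_natCast]
        rw [h2]
        have h3 : L1 (rbnq Q (r - j) * Q (j + 1)) ≤ ((r - j).factorial * B ^ (r - j)) * B :=
          (rbn_L1_mul _ _).trans (Nat.mul_le_mul (ih (r - j) (by omega) (by omega))
            (hQ (j + 1) (by omega)))
        have h4 := Nat.factorial_mul_descFactorial (show j ≤ r by omega)
        calc r.descFactorial j * L1 (rbnq Q (r - j) * Q (j + 1)) ≤
            r.descFactorial j * (((r - j).factorial * B ^ (r - j)) * B) :=
              Nat.mul_le_mul_left _ h3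
          _ = ((r - j).factorial * r.descFactorial j) * B ^ (r - j + 1) := by ring
          _ = r.factorial * B ^ (r - j + 1) := by rw [h4]
          _ ≤ r.factorial * B ^ (r + 1) :=
              Nat.mul_le_mul_left _ (Nat.pow_le_pow_right hB (by omega))
      refine (Finset.sum_le_sum h1).trans ?_
      rw [Finset.sum_const, Finset.card_range, smul_eq_mul, Nat.factorial_succ, mul_assoc]

private theorem rbn_esymm_rec {ι : Type} [Fintype ι] (t : ι → ℂ) (r : ℕ) :
    ((r + 1 : ℕ) : ℂ) * MvPolynomial.aeval t (MvPolynomial.esymm ι ℂ (r + 1)) =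
      ∑ j ∈ Finset.range (r + 1), (-1) ^ j *
        MvPolynomial.aeval t (MvPolynomial.esymm ι ℂ (r - j)) * ∑ a, t a ^ (j + 1) := by
  classical
  have h1 := congrArg (MvPolynomial.aeval t) (MvPolynomial.mul_esymm_eq_sum ι ℂ (r + 1))
  rw [map_mul, map_natCast, map_mul, map_pow, map_neg, map_one, map_sum] at h1
  rw [h1, Finset.mul_sum]
  refine Finset.sum_nbij' (fun a => a.2 - 1) (fun j => (r - j, j + 1)) ?_ ?_ ?_ ?_ ?_
  · intro a ha
    rw [Finset.mem_filter, Finset.HasAntidiagonal.mem_antidiagonal] at ha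
    rw [Finset.mem_range]
    omega
  · intro j hj
    rw [Finset.mem_range] at hj
    rw [Finset.mem_filter, Finset.HasAntidiagonal.mem_antidiagonal]
    constructor
    · show r - j + (j + 1) = r + 1
      omega
    · show r - j < r + 1
      omega
  · intro a ha
    rw [Finset.mem_filter, Finset.HasAntidiagonal.mem_antidiagonal] at ha
    refine Prod.ext ?_ ?_
    · show r - (a.2 - 1) = a.1
      omega
    · show a.2 - 1 + 1 = a.2
      omega
  · intro j hj
    show j + 1 - 1 = j
    omega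
  · intro a ha
    rw [Finset.mem_filter, Finset.HasAntidiagonal.mem_antidiagonal] at ha
    obtain ⟨j, hj⟩ : ∃ j, a.2 = j + 1 := ⟨a.2 - 1, by omega⟩
    have ha1 : a.1 = r - j := by omega
    have hjr : j ≤ r := by omega
    rw [map_mul, map_mul, map_pow, map_neg, map_one, ha1, hj]
    have h2 : MvPolynomial.aeval t (MvPolynomial.psum ι ℂ (j + 1)) = ∑ b, t b ^ (j + 1) := by
      rw [MvPolynomial.psum, map_sum]
      exact Finset.sum_congr rfl (fun b _ => by rw [map_pow, MvPolynomial.aeval_X])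
    rw [h2]
    have h3 : ((-1 : ℂ)) ^ (r + 1 + 1) * (-1) ^ (r - j) = (-1) ^ j := by
      rw [← pow_add]
      have h4 : r + 1 + 1 + (r - j) = j + 2 * (r - j + 1) := by omega
      rw [h4, pow_add, pow_mul]
      norm_num
    have h5 : j + 1 - 1 = j := by omega
    rw [h5, ← h3]
    ring

private theorem rbn_aeval (y : ℂ) (c : ℤ) (p q : ℤ[X]) :
    Polynomial.aeval y (C c * (p * q)) = (c : ℂ) * (Polynomial.aeval y p * Polynomial.aeval y q) := by
  rw [map_mul, map_mul, Polynomial.aeval_C, eq_intCast]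

private theorem rbn_esymm_eq (N : ℕ) (Q : ℕ → ℤ[X]) {ι : Type} [Fintype ι] (t : ι → ℂ) (y : ℂ)
    (h : ∀ i, 1 ≤ i → i ≤ N → ∑ a, t a ^ i = Polynomial.aeval y (Q i)) (r : ℕ) :
    r ≤ N → (r.factorial : ℂ) * MvPolynomial.aeval t (MvPolynomial.esymm ι ℂ r) =
      Polynomial.aeval y (rbnq Q r) := by
  induction r using Nat.strong_induction_on with
  | _ r ih =>
    cases r with
    | zero =>
      intro _
      rw [rbnq_zero, MvPolynomial.esymm_zero, map_one, map_one, Nat.factorial_zero]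
      norm_num
    | succ r =>
      intro hr
      rw [rbnq_succ, map_sum, Nat.factorial_succ]
      have h1 := rbn_esymm_rec t r
      have h2 : (((r + 1) * r.factorial : ℕ) : ℂ) *
          MvPolynomial.aeval t (MvPolynomial.esymm ι ℂ (r + 1)) = (r.factorial : ℂ) *
          (((r + 1 : ℕ) : ℂ) * MvPolynomial.aeval t (MvPolynomial.esymm ι ℂ (r + 1))) := by
        push_cast
        ring
      rw [h2, h1, Finset.mul_sum]
      refine Finset.sum_congr rfl (fun j hj => ?_)
      rw [Finset.mem_range] at hj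
      rw [rbn_aeval, ← ih (r - j) (by omega) (by omega), ← h (j + 1) (by omega) (by omega)]
      have h3 := Nat.factorial_mul_descFactorial (show j ≤ r by omega)
      have h4 : (r.factorial : ℂ) = ((r - j).factorial : ℂ) * (r.descFactorial j : ℂ) := by
        exact_mod_cast h3.symm
      rw [h4]
      push_cast
      ring

private theorem rbn_prod {ι : Type} [Fintype ι] (t : ι → ℂ) (x : ℂ) :
    ∏ a, (x - t a) = ∑ r ∈ Finset.range (Fintype.card ι + 1),
      (-1) ^ r * (MvPolynomial.aeval t (MvPolynomial.esymm ι ℂ r) * x ^ (Fintype.card ι - r)) := by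
  have h1 := congrArg (Polynomial.eval x) (Multiset.prod_X_sub_X_eq_sum_esymm
    ((Finset.univ : Finset ι).val.map t))
  have hc : Multiset.card ((Finset.univ : Finset ι).val.map t) = Fintype.card ι := by
    rw [Multiset.card_map]
    rfl
  rw [hc, Polynomial.eval_finsetSum] at h1
  have h2 : Polynomial.eval x (((Finset.univ : Finset ι).val.map t).map
      (fun t => X - C t)).prod = ∏ a, (x - t a) := by
    rw [Multiset.map_map, Polynomial.eval_multiset_prod, Multiset.map_map]
    refine congrArg Multiset.prod (Multiset.map_congr rfl (fun a _ => ?_))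
    simp
  rw [h2] at h1
  rw [h1]
  refine Finset.sum_congr rfl (fun r _ => ?_)
  rw [MvPolynomial.aeval_esymm_eq_multiset_esymm]
  simp

theorem rb_newton (N B : ℕ) (hB : 1 ≤ B) (Q : ℕ → ℤ[X]) (hQ : ∀ i, i ≤ N → L1 (Q i) ≤ B)
    (hdeg : ∀ i, (Q i).natDegree ≤ i) :
    ∃ q : ℕ → ℤ[X], (∀ r, (q r).natDegree ≤ r) ∧ (∀ r, r ≤ N → L1 (q r) ≤ r.factorial * B ^ r) ∧
      ∀ (ι : Type) [Fintype ι], Fintype.card ι = N → ∀ (t : ι → ℂ) (y : ℂ),
        (∀ i, 1 ≤ i → i ≤ N → ∑ a, t a ^ i = Polynomial.aeval y (Q i)) → ∀ x : ℂ,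
        (N.factorial : ℂ) * ∏ a, (x - t a) = ∑ r ∈ Finset.range (N + 1),
          (-1) ^ r * ((N.factorial / r.factorial : ℕ) : ℂ) * Polynomial.aeval y (q r) *
            x ^ (N - r) := by
  refine ⟨rbnq Q, rbnq_deg Q hdeg, rbnq_L1 N B hB Q hQ, ?_⟩
  intro ι _ hcard t y h x
  rw [rbn_prod t x, hcard, Finset.mul_sum]
  refine Finset.sum_congr rfl (fun r hr => ?_)
  rw [Finset.mem_range] at hr
  rw [← rbn_esymm_eq N Q t y h r (by omega)]
  have h1 : ((N.factorial / r.factorial : ℕ) : ℂ) * (r.factorial : ℂ) = (N.factorial : ℂ) := by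
    have h2 : N.factorial / r.factorial * r.factorial = N.factorial :=
      Nat.div_mul_cancel (Nat.factorial_dvd_factorial (by omega))
    exact_mod_cast h2
  rw [← h1]
  ring

end Pool.Agent.Lib.MP5e
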