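import Pool.Agent.Lib.MP_5e64e7_nt.Ser

set_option autoImplicit false

noncomputable section

namespace Pool.Agent.Lib.MP5e

open Polynomial Topology

open UpperHalfPlane MatrixGroups in
/-- the matrix `(p q; r s)` -/
def TransA_mat (p q r s : ℤ) (h : p * s - q * r = 1) : SL(2, ℤ) :=
  ⟨!![p, q; r, s], by rw [Matrix.det_fin_two_of]; exact h⟩

open UpperHalfPlane MatrixGroups in
theorem TransA_coe (p q r s : ℤ) (h : p * s - q * r = 1) (z : ℍ) :
    ((TransA_mat p q r s h • z : ℍ) : ℂ) = ((p : ℂ) * z + q) / ((r : ℂ) * z + s) := by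
  rw [UpperHalfPlane.coe_specialLinearGroup_apply]
  simp [TransA_mat]

open UpperHalfPlane MatrixGroups in
theorem TransA_denom (p q r s : ℤ) (h : p * s - q * r = 1) (z : ℍ) :
    denom (Matrix.SpecialLinearGroup.mapGL ℝ (TransA_mat p q r s h)) z = (r : ℂ) * z + s := by
  exact (ModularGroup.denom_apply (TransA_mat p q r s h) z).trans (by simp [TransA_mat])

theorem sl_im_pos (p q r s : ℤ) (h : p * s - q * r = 1) {w : ℂ} (hw : 0 < w.im) :
    0 < (((p : ℂ) * w + q) / ((r : ℂ) * w + s)).im := by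
  have := (TransA_mat p q r s h • (⟨w, hw⟩ : UpperHalfPlane)).im_pos
  rw [← UpperHalfPlane.coe_im, TransA_coe] at this
  exact this

theorem E4f_sl (p q r s : ℤ) (h : p * s - q * r = 1) {w : ℂ} (hw : 0 < w.im) :
    E4f (((p : ℂ) * w + q) / ((r : ℂ) * w + s)) = ((r : ℂ) * w + s) ^ 4 * E4f w := by
  have h1 := SlashInvariantForm.slash_action_eqn'' ModularForm.E₄
    (γ := Matrix.SpecialLinearGroup.mapGL ℝ (TransA_mat p q r s h))
    (MonoidHom.mem_range.mpr ⟨_, rfl⟩) (⟨w, hw⟩ : UpperHalfPlane)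
  rw [TransA_denom] at h1
  have h2 := TransA_coe p q r s h (⟨w, hw⟩ : UpperHalfPlane)
  change _ = ((p : ℂ) * w + q) / ((r : ℂ) * w + s) at h2
  rw [← h2, E4f_coe]
  change _ = _ * E4f ((⟨w, hw⟩ : UpperHalfPlane) : ℂ)
  rw [E4f_coe]
  exact h1

theorem E6f_sl (p q r s : ℤ) (h : p * s - q * r = 1) {w : ℂ} (hw : 0 < w.im) :
    E6f (((p : ℂ) * w + q) / ((r : ℂ) * w + s)) = ((r : ℂ) * w + s) ^ 6 * E6f w := by
  have h1 := SlashInvariantForm.slash_action_eqn'' ModularForm.E₆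
    (γ := Matrix.SpecialLinearGroup.mapGL ℝ (TransA_mat p q r s h))
    (MonoidHom.mem_range.mpr ⟨_, rfl⟩) (⟨w, hw⟩ : UpperHalfPlane)
  rw [TransA_denom] at h1
  have h2 := TransA_coe p q r s h (⟨w, hw⟩ : UpperHalfPlane)
  change _ = ((p : ℂ) * w + q) / ((r : ℂ) * w + s) at h2
  rw [← h2, E6f_coe]
  change _ = _ * E6f ((⟨w, hw⟩ : UpperHalfPlane) : ℂ)
  rw [E6f_coe]
  exact h1

theorem disc_ne {w : ℂ} (hw : 0 < w.im) : E4f w ^ 3 - E6f w ^ 2 ≠ 0 := by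
  change E4f ((⟨w, hw⟩ : UpperHalfPlane) : ℂ) ^ 3 - E6f ((⟨w, hw⟩ : UpperHalfPlane) : ℂ) ^ 2 ≠ 0
  rw [E4f_coe, E6f_coe]
  have h1 := ModularForm.discriminant_eq_E₄_cube_sub_E₆_sq (⟨w, hw⟩ : UpperHalfPlane)
  have h2 := ModularForm.discriminant_ne_zero (⟨w, hw⟩ : UpperHalfPlane)
  intro h3
  apply h2
  rw [h1, h3]
  simp

end Pool.Agent.Lib.MP5e
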