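import Pool.Agent.Lib.MP_5e64e7_nt.RBHnf
import Pool.Agent.Lib.MP_5e64e7_nt.TransA
import Pool.Agent.Lib.MP_5e64e7_nt.QTpt

set_option autoImplicit false

/-!
# RB.ROOT : one of the values at `ω = √(-D)` is known (about 80 lines)

`α = ω + x`, `ᾱ = x - ω`, `α ᾱ = x² + D = n` (`qom_sq`). The matrix `M = (x, -D; 1, x)` has determinant `n` and fixes `ω`:
`x ω - D = ω (ω + x)`. `rhnf_ex`: `M = (q r; s t)(a b; 0 d)`, `a = n / p.1`, `d = p.1`, `b = p.2`. Put `u = (a ω + b)/d` (`Im u > 0`). Then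
`(q u + r)/(s u + t) = (x ω - D)/(ω + x) = ω` (multiply by `d`: `d (q u + r) = q a ω + q b + r d = x ω - D`,
`d (s u + t) = ω + x`), so `E4f_sl`: `E₄(ω) = (s u + t)⁴ E₄(u) = (α/d)⁴ E₄(u)`, hence
`rbf n p ω = a⁴ E₄(u) = a⁴ d⁴ E₄(ω)/α⁴ = (n/α)⁴ E₄(ω) = ᾱ⁴ E₄(ω)`.
-/

noncomputable section

namespace Pool.Agent.Lib.MP5e

open Polynomial Topology

theorem rb_root (D : ℕ) (hD : 1 ≤ D) (x : ℤ) (n : ℕ) (hn : (n : ℤ) = x ^ 2 + (D : ℤ)) :
    ∃ p ∈ rbI n, rbf n p (qom D) = ((x : ℂ) - qom D) ^ 4 * E4f (qom D) := by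
  have hn1 : 1 ≤ n := by
    have h1 : (1 : ℤ) ≤ (n : ℤ) := by
      rw [hn]
      have h2 : (1 : ℤ) ≤ (D : ℤ) := by exact_mod_cast hD
      nlinarith [sq_nonneg x]
    exact_mod_cast h1
  obtain ⟨p, hp, q, r, s, t, hdet, hA, hB, hC, hE⟩ := rhnf_ex n hn1 x (-(D : ℤ)) 1 x
    (by rw [hn]; ring)
  refine ⟨p, hp, ?_⟩
  obtain ⟨hdvd, hlt⟩ := (mem_rbI hn1 p).1 hp
  have hd0 : 0 < p.1 := by omega
  obtain ⟨a, ha⟩ : ∃ a, a = n / p.1 := ⟨_, rfl⟩
  have had : a * p.1 = n := by rw [ha]; exact Nat.div_mul_cancel hdvd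
  have ha0 : 0 < a := by
    rcases Nat.eq_zero_or_pos a with h | h
    · rw [h, Nat.zero_mul] at had
      omega
    · exact h
  rw [← ha] at hA hC
  have hdC : (p.1 : ℂ) ≠ 0 := by exact_mod_cast hd0.ne'
  have haC : (a : ℂ) ≠ 0 := by exact_mod_cast ha0.ne'
  have hBC : -(D : ℂ) = (q : ℂ) * (p.2 : ℂ) + (r : ℂ) * (p.1 : ℂ) := by exact_mod_cast hB
  have hAC : (x : ℂ) = (q : ℂ) * (a : ℂ) := by exact_mod_cast hA
  have hCC : (1 : ℂ) = (s : ℂ) * (a : ℂ) := by exact_mod_cast hC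
  have hEC : (x : ℂ) = (s : ℂ) * (p.2 : ℂ) + (t : ℂ) * (p.1 : ℂ) := by exact_mod_cast hE
  have hadC : (a : ℂ) * (p.1 : ℂ) = (n : ℂ) := by exact_mod_cast had
  have hnC : (n : ℂ) = (x : ℂ) ^ 2 + (D : ℂ) := by exact_mod_cast hn
  have hω := qom_sq D
  have hωim : 0 < (qom D).im := by
    rw [qom_im]
    exact Real.sqrt_pos.2 (by exact_mod_cast hD)
  obtain ⟨u, hu⟩ : ∃ u : ℂ, u = ((a : ℂ) * qom D + (p.2 : ℂ)) / (p.1 : ℂ) := ⟨_, rfl⟩
  have huim : 0 < u.im := by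
    rw [hu, Complex.div_natCast_im]
    have h1 : ((a : ℂ) * qom D + (p.2 : ℂ)).im = (a : ℝ) * (qom D).im := by
      simp
    rw [h1]
    have h2 : (0 : ℝ) < a := by exact_mod_cast ha0
    have h3 : (0 : ℝ) < p.1 := by exact_mod_cast hd0
    positivity
  have hdu : (p.1 : ℂ) * u = (a : ℂ) * qom D + (p.2 : ℂ) := by
    rw [hu]
    field_simp
  have hden : (p.1 : ℂ) * ((s : ℂ) * u + (t : ℂ)) = qom D + (x : ℂ) := by
    linear_combination (s : ℂ) * hdu - hEC - qom D * hCC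
  have hnum : (p.1 : ℂ) * ((q : ℂ) * u + (r : ℂ)) = (x : ℂ) * qom D - (D : ℂ) := by
    linear_combination (q : ℂ) * hdu - hBC - qom D * hAC
  have hne : qom D + (x : ℂ) ≠ 0 := by
    intro h
    have h1 := congrArg Complex.im h
    simp at h1
    exact hωim.ne' h1
  have hden0 : (s : ℂ) * u + (t : ℂ) ≠ 0 := by
    intro h
    rw [h, mul_zero] at hden
    exact hne hden.symm
  have hfix : ((q : ℂ) * u + (r : ℂ)) / ((s : ℂ) * u + (t : ℂ)) = qom D := by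
    rw [div_eq_iff hden0]
    apply mul_left_cancel₀ hdC
    rw [hnum]
    linear_combination -(qom D) * hden - hω
  have hE4 := E4f_sl q r s t hdet huim
  rw [hfix] at hE4
  unfold rbf
  rw [← ha, ← hu, hE4]
  have h5 : ((x : ℂ) - qom D) * (qom D + (x : ℂ)) = (a : ℂ) * (p.1 : ℂ) := by
    rw [hadC, hnC]
    linear_combination -hω
  have h6 : ((x : ℂ) - qom D) * ((s : ℂ) * u + (t : ℂ)) = (a : ℂ) := by
    apply mul_left_cancel₀ hdC
    linear_combination ((x : ℂ) - qom D) * hden + h5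
  calc (a : ℂ) ^ 4 * E4f u = (((x : ℂ) - qom D) * ((s : ℂ) * u + (t : ℂ))) ^ 4 * E4f u := by
        rw [h6]
    _ = _ := by ring

theorem rb_E4_ne (D : ℕ) : E4f (qom D) ≠ 0 := by
  obtain ⟨e, he⟩ : ∃ e : ℝ, e = 1 + 240 * ∑' m : ℕ,
      (((ArithmeticFunction.sigma 3) (m + 1) : ℕ) : ℝ) *
        Real.exp (-2 * Real.pi * Real.sqrt (D : ℝ)) ^ (m + 1) := ⟨_, rfl⟩
  have h1 : E4f (qom D) = (e : ℂ) := by
    rw [E4f, he]
    have h2 : Complex.exp (2 * (Real.pi : ℂ) * Complex.I * qom D) =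
        ((Real.exp (-2 * Real.pi * Real.sqrt (D : ℝ)) : ℝ) : ℂ) := by
      rw [Complex.ofReal_exp]
      congr 1
      unfold qom
      push_cast
      linear_combination (2 * (Real.pi : ℂ) * (Real.sqrt (D : ℝ) : ℂ)) * Complex.I_sq
    rw [h2]
    push_cast
    rfl
  have h3 : 1 ≤ e := by
    rw [he]
    have : 0 ≤ ∑' m : ℕ, (((ArithmeticFunction.sigma 3) (m + 1) : ℕ) : ℝ) *
        Real.exp (-2 * Real.pi * Real.sqrt (D : ℝ)) ^ (m + 1) := tsum_nonneg fun m => by positivity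
    linarith
  rw [h1]
  have h4 : e ≠ 0 := by
    intro h
    rw [h] at h3
    norm_num at h3
  exact_mod_cast h4

end Pool.Agent.Lib.MP5e
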