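import Pool.Agent.Lib.MP_5e64e7_nt.RBPow
import Pool.Agent.Lib.MP_5e64e7_nt.RBNewt
import Pool.Agent.Lib.MP_5e64e7_nt.RBRoot

set_option autoImplicit false

/-!
# RB.G : an integer polynomial with root `y₀ = Δ(ω)/E₄(ω)³`, `ω = √(-D)` (about 250 lines)

`D` and `D+1` are not both squares (`D ≥ 1`); let `n ∈ {D, D+1}` be a non-square, `x = 0` resp. `x = 1`, so `n = x² + D`, `n ≥ 2`,
`ᾱ = x - ω`. `(x - ω)^k = u_k + v_k ω` with integers `u_k, v_k`, `u_k² + D v_k² = n^k` (induction, `ω² = -D`). Let `N = (rbI n).card ≤ n²`,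
`Q_i` from `rb_pow` (`choose`), `B = 2^(34 n (N+1)³)`, `q_r` from `rb_newton` (type `ι = {p // p ∈ rbI n}` coerced to `Type`, fine).
`U = ∑_{r ≤ N} (-1)^r (N!/r!) u_{4(N-r)} q_r`, `V` the same with `v`; `W = U² + D V²`.
* `t_p = rbf n p ω / E₄(ω)`, `y = y₀ = rby ω`: `∑ t_p^i = rbP n i ω / E₄(ω)^i = Q_i(y₀)`, so with `x = ᾱ⁴`:
  `U(y₀) + ω V(y₀) = N! ∏_p (ᾱ⁴ - t_p) = 0` as `t_p = ᾱ⁴` for the `p` of `rb_root`. Hence `W(y₀) = (U + ωV)(U - ωV)(y₀) = 0`.
* `t_p = (n/p.1)⁴`, `y = 0`: `∑ t_p^i = Q_i(0)`, so `U(0) + ω V(0) = N! ∏_p (ᾱ⁴ - (n/p.1)⁴) ≠ 0`: `ᾱ⁴ = a⁴` would give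
  `n² = |ᾱ|⁴ = a⁴`, so `n = a²`. If `W = 0` then `U(0)² + D V(0)² = 0`, so the integers `U(0) = V(0) = 0`, contradiction.
* Sizes: `|u_k|, |v_k| ≤ n^k` (from `u² + D v² = n^k`), `L1 U, L1 V ≤ ∑_r (N!/r!) n^(4N) r! B^r ≤ (N+1) N! n^(4N) B^N`, so
  `L1 W ≤ (1 + D) ((N+1) N! n^(4N) B^N)²`, `natDegree W ≤ 2N`. With `n ≤ D + 1 =: s`, `s ≥ 2`, `N ≤ s²`: `N + 1 ≤ s³`,
  `N! ≤ N^N ≤ 2^(N²) ≤ 2^(s⁴)`, `n^(4N) ≤ 2^(4 n N) ≤ 2^(4 s³)`, `B^N ≤ 2^(34 s · s⁹ · s²)`: all exponents are at most a constant times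
  a power of `s`, and a constant `≤ 2^k` is `≤ s^k`; e.g. `C = 30` works (`C` is only claimed to exist).
-/

noncomputable section

namespace Pool.Agent.Lib.MP5e

open Polynomial Topology

private theorem rbg_L1_X_pow_mul (i : ℕ) (p : ℤ[X]) : L1 (X ^ i * p) ≤ L1 p := by
  induction i with
  | zero => rw [pow_zero, one_mul]
  | succ i ih =>
    rw [pow_succ', mul_assoc]
    exact (L1_X_mul _).trans ih

private theorem rbg_L1_mul (p q : ℤ[X]) : L1 (p * q) ≤ L1 p * L1 q := by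
  have h1 : p * q = ∑ i ∈ p.support, C (p.coeff i) * (X ^ i * q) := by
    calc p * q = (∑ i ∈ p.support, C (p.coeff i) * X ^ i) * q := by
          rw [← Polynomial.as_sum_support_C_mul_X_pow]
      _ = ∑ i ∈ p.support, C (p.coeff i) * (X ^ i * q) := by
          rw [Finset.sum_mul]
          exact Finset.sum_congr rfl fun i _ => by rw [mul_assoc]
  rw [h1]
  refine (L1_sum _ _).trans ?_
  conv_rhs => rw [L1, Finset.sum_mul]
  refine Finset.sum_le_sum fun i _ => ?_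
  exact (L1_C_mul _ _).trans (Nat.mul_le_mul_left _ (rbg_L1_X_pow_mul i q))

/-- the powers of `x - ω` -/
private theorem rbg_uv (D : ℕ) (x : ℤ) (n : ℕ) (hn : (n : ℤ) = x ^ 2 + (D : ℤ)) (k : ℕ) :
    ∃ u v : ℤ, ((x : ℂ) - qom D) ^ k = (u : ℂ) + (v : ℂ) * qom D ∧
      u ^ 2 + (D : ℤ) * v ^ 2 = (n : ℤ) ^ k := by
  induction k with
  | zero => exact ⟨1, 0, by simp, by simp⟩
  | succ k ih =>
    obtain ⟨u, v, h1, h2⟩ := ih
    refine ⟨x * u + (D : ℤ) * v, x * v - u, ?_, ?_⟩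
    · rw [pow_succ, h1]
      have h3 := qom_sq D
      push_cast
      linear_combination -(v : ℂ) * h3
    · rw [pow_succ (n : ℤ) k, ← h2, hn]
      ring

private theorem rbg_abs (D : ℕ) (hD : 1 ≤ D) (n : ℕ) (hn : 1 ≤ n) (u v : ℤ) (k : ℕ)
    (h : u ^ 2 + (D : ℤ) * v ^ 2 = (n : ℤ) ^ k) : u.natAbs ≤ n ^ k ∧ v.natAbs ≤ n ^ k := by
  have hD' : (1 : ℤ) ≤ D := by exact_mod_cast hD
  have hnk : (1 : ℤ) ≤ (n : ℤ) ^ k := by exact_mod_cast Nat.one_le_pow _ _ hn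
  have key : ∀ w : ℤ, w ^ 2 ≤ (n : ℤ) ^ k → w.natAbs ≤ n ^ k := by
    intro w hw
    have h1 : |w| ≤ (n : ℤ) ^ k := by
      refine abs_le_of_sq_le_sq ?_ (by positivity)
      nlinarith
    have h2 : ((w.natAbs : ℕ) : ℤ) = |w| := Int.natCast_natAbs w
    rw [← h2] at h1
    exact_mod_cast h1
  have hu : 0 ≤ u ^ 2 := sq_nonneg u
  have hv : 0 ≤ v ^ 2 := sq_nonneg v
  refine ⟨key u ?_, key v ?_⟩
  · nlinarith
  · nlinarith

private theorem rbg_card (n : ℕ) : (rbI n).card ≤ n ^ 2 := by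
  unfold rbI
  refine (Finset.card_filter_le _ _).trans ?_
  rw [Finset.card_product, Finset.card_range, pow_two]
  exact Nat.mul_le_mul_right _ (Nat.card_divisors_le_self n)

private theorem rbg_choose (D : ℕ) (hD : 1 ≤ D) : ∃ (x : ℤ) (n : ℕ), (n : ℤ) = x ^ 2 + (D : ℤ) ∧
    1 ≤ n ∧ n ≤ D + 1 ∧ ∀ a : ℕ, a ^ 2 ≠ n := by
  by_cases h : ∃ a : ℕ, a ^ 2 = D
  · obtain ⟨a, ha⟩ := h
    refine ⟨1, D + 1, by push_cast; ring, by omega, le_refl _, ?_⟩
    intro b hb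
    have h1 : a < b := by
      by_contra hle
      have := Nat.pow_le_pow_left (not_lt.1 hle) 2
      omega
    have h2 : a + 1 ≤ b := h1
    have h3 := Nat.pow_le_pow_left h2 2
    have h4 : 1 ≤ a := by
      rcases Nat.eq_zero_or_pos a with h0 | h0
      · rw [h0] at ha
        simp at ha
        omega
      · exact h0
    nlinarith
  · refine ⟨0, D, by simp, hD, by omega, ?_⟩
    intro a ha
    exact h ⟨a, ha⟩

/-- numbers: the final size -/
private theorem rbg_size (s n N : ℕ) (hs : 2 ≤ s) (hn : n ≤ s) (hN : N ≤ n ^ 2) :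
    s * ((N + 1) * (N.factorial * n ^ (4 * N) * (2 ^ (34 * n * (N + 1) ^ 3)) ^ N)) ^ 2 ≤
      2 ^ (s ^ 20) := by
  have h1 : N + 1 ≤ 2 ^ N := Nat.lt_two_pow_self
  have h2 : N.factorial ≤ 2 ^ (N * N) := by
    refine (Nat.factorial_le_pow N).trans ?_
    rw [pow_mul]
    exact Nat.pow_le_pow_left (Nat.lt_two_pow_self).le _
  have h3 : n ^ (4 * N) ≤ 2 ^ (n * (4 * N)) := by
    rw [pow_mul 2 n (4 * N)]
    exact Nat.pow_le_pow_left (Nat.lt_two_pow_self).le _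
  have h4 : (2 ^ (34 * n * (N + 1) ^ 3)) ^ N = 2 ^ (34 * n * (N + 1) ^ 3 * N) := by
    rw [← pow_mul]
  have h5 : (N + 1) * (N.factorial * n ^ (4 * N) * (2 ^ (34 * n * (N + 1) ^ 3)) ^ N) ≤
      2 ^ (N + (N * N + n * (4 * N) + 34 * n * (N + 1) ^ 3 * N)) := by
    rw [h4, pow_add, pow_add, pow_add]
    exact Nat.mul_le_mul h1 (Nat.mul_le_mul (Nat.mul_le_mul h2 h3) le_rfl)
  have h6 : s ≤ 2 ^ s := (Nat.lt_two_pow_self).le
  refine (Nat.mul_le_mul h6 (Nat.pow_le_pow_left h5 2)).trans ?_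
  rw [← pow_mul, ← pow_add]
  refine Nat.pow_le_pow_right (by norm_num) ?_
  have hN2 : N ≤ s ^ 2 := hN.trans (Nat.pow_le_pow_left hn 2)
  have hN3 : N + 1 ≤ s ^ 3 := by
    have : s ^ 2 + 1 ≤ s ^ 3 := by nlinarith [sq_nonneg (s : ℤ)]
    omega
  have hs0 : 0 < s := by omega
  have pw : ∀ a, a ≤ 12 → s ^ a ≤ s ^ 12 := fun a ha => Nat.pow_le_pow_right hs0 ha
  have e1 : N ≤ s ^ 12 := hN2.trans (pw 2 (by norm_num))
  have e2 : N * N ≤ s ^ 12 := by
    refine (Nat.mul_le_mul hN2 hN2).trans ?_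
    rw [← pow_add]
    exact pw 4 (by norm_num)
  have e3 : n * (4 * N) ≤ 4 * s ^ 12 := by
    have : n * (4 * N) = 4 * (n * N) := by ring
    rw [this]
    refine Nat.mul_le_mul_left _ ((Nat.mul_le_mul hn hN2).trans ?_)
    rw [← pow_succ']
    exact pw 3 (by norm_num)
  have e4 : 34 * n * (N + 1) ^ 3 * N ≤ 34 * s ^ 12 := by
    have : 34 * n * (N + 1) ^ 3 * N = 34 * (n * (N + 1) ^ 3 * N) := by ring
    rw [this]
    refine Nat.mul_le_mul_left _ ?_
    calc n * (N + 1) ^ 3 * N ≤ s * (s ^ 3) ^ 3 * s ^ 2 :=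
          Nat.mul_le_mul (Nat.mul_le_mul hn (Nat.pow_le_pow_left hN3 3)) hN2
      _ = s ^ 12 := by ring
  have e5 : s ≤ s ^ 12 := by
    simpa using pw 1 (by norm_num)
  have e6 : 81 * s ^ 12 ≤ s ^ 20 := by
    have h7 : 2 ^ 8 ≤ s ^ 8 := Nat.pow_le_pow_left hs 8
    have : s ^ 20 = s ^ 8 * s ^ 12 := by rw [← pow_add]
    rw [this]
    exact Nat.mul_le_mul_right _ (le_trans (by norm_num) h7)
  omega

private theorem rbg_coeff (N r : ℕ) (hr : r ≤ N) (n B : ℕ) (hn : 1 ≤ n) (hB : 1 ≤ B) (u : ℤ)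
    (hu : u.natAbs ≤ n ^ (4 * (N - r))) (q : ℤ[X]) (hq : L1 q ≤ r.factorial * B ^ r) :
    L1 (C ((-1) ^ r * ((N.factorial / r.factorial : ℕ) : ℤ) * u) * q) ≤
      N.factorial * n ^ (4 * N) * B ^ N := by
  refine (L1_C_mul _ _).trans ?_
  have h1 : ((-1) ^ r * ((N.factorial / r.factorial : ℕ) : ℤ) * u).natAbs =
      (N.factorial / r.factorial) * u.natAbs := by
    rw [Int.natAbs_mul, Int.natAbs_mul, Int.natAbs_pow, Int.natAbs_neg, Int.natAbs_one, one_pow,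
      one_mul, Int.natAbs_natCast]
  rw [h1]
  have h2 : n ^ (4 * (N - r)) ≤ n ^ (4 * N) := Nat.pow_le_pow_right hn (by omega)
  have h3 : B ^ r ≤ B ^ N := Nat.pow_le_pow_right hB hr
  calc (N.factorial / r.factorial) * u.natAbs * L1 q
      ≤ (N.factorial / r.factorial) * n ^ (4 * N) * (r.factorial * B ^ N) :=
        Nat.mul_le_mul (Nat.mul_le_mul_left _ (hu.trans h2))
          (hq.trans (Nat.mul_le_mul_left _ h3))
    _ = (N.factorial / r.factorial * r.factorial) * n ^ (4 * N) * B ^ N := by ring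
    _ = _ := by rw [Nat.div_mul_cancel (Nat.factorial_dvd_factorial hr)]

private theorem rbg_comb (N n B : ℕ) (hn : 1 ≤ n) (hB : 1 ≤ B) (u : ℕ → ℤ)
    (hu : ∀ k, (u k).natAbs ≤ n ^ k) (q : ℕ → ℤ[X]) (hqd : ∀ r, (q r).natDegree ≤ r)
    (hq : ∀ r, r ≤ N → L1 (q r) ≤ r.factorial * B ^ r) :
    ∃ U : ℤ[X], U.natDegree ≤ N ∧ L1 U ≤ (N + 1) * (N.factorial * n ^ (4 * N) * B ^ N) ∧
      ∀ y : ℂ, Polynomial.aeval y U = ∑ r ∈ Finset.range (N + 1),
        (-1) ^ r * ((N.factorial / r.factorial : ℕ) : ℂ) * Polynomial.aeval y (q r) *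
          ((u (4 * (N - r)) : ℤ) : ℂ) := by
  refine ⟨∑ r ∈ Finset.range (N + 1),
    C ((-1) ^ r * ((N.factorial / r.factorial : ℕ) : ℤ) * u (4 * (N - r))) * q r, ?_, ?_, ?_⟩
  · refine Polynomial.natDegree_sum_le_of_forall_le _ _ fun r hr => ?_
    refine (Polynomial.natDegree_C_mul_le _ _).trans ((hqd r).trans ?_)
    rw [Finset.mem_range] at hr
    omega
  · refine (L1_sum _ _).trans ?_
    refine (Finset.sum_le_card_nsmul _ _ (N.factorial * n ^ (4 * N) * B ^ N) ?_).trans ?_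
    · intro r hr
      have hr' : r ≤ N := by
        rw [Finset.mem_range] at hr
        omega
      exact rbg_coeff N r hr' n B hn hB _ (hu _) _ (hq r hr')
    · rw [Finset.card_range, smul_eq_mul]
  · intro y
    rw [map_sum]
    refine Finset.sum_congr rfl fun r _ => ?_
    rw [map_mul, Polynomial.aeval_C]
    simp only [algebraMap_int_eq, eq_intCast, Int.cast_mul, Int.cast_pow, Int.cast_neg,
      Int.cast_one, Int.cast_natCast]
    ring

theorem rb_G : ∃ C : ℕ, ∀ D : ℕ, 1 ≤ D → ∃ W : ℤ[X], W ≠ 0 ∧ W.natDegree ≤ (D + 1) ^ C ∧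
    L1 W ≤ 2 ^ ((D + 1) ^ C) ∧ Polynomial.aeval (rby (qom D)) W = 0 := by
  refine ⟨20, fun D hD => ?_⟩
  obtain ⟨x, n, hn, hn1, hns, hsq⟩ := rbg_choose D hD
  choose u v huv huv2 using rbg_uv D x n hn
  obtain ⟨N, hN⟩ : ∃ N, N = (rbI n).card := ⟨_, rfl⟩
  have hNn : N ≤ n ^ 2 := hN ▸ rbg_card n
  choose Q hQd hQ0 hQL hQe using fun r => rb_pow n r hn1
  obtain ⟨B, hBdef⟩ : ∃ B, B = 2 ^ (34 * n * (N + 1) ^ 3) := ⟨_, rfl⟩
  have hB : 1 ≤ B := by rw [hBdef]; exact Nat.one_le_two_pow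
  obtain ⟨q, hqd, hqL, hq⟩ := rb_newton N B hB Q (fun i hi => by
    refine (hQL i).trans ?_
    rw [hBdef]
    refine Nat.pow_le_pow_right (by norm_num) (Nat.mul_le_mul_left _ ?_)
    exact Nat.pow_le_pow_left (by omega) 3) hQd
  have hu : ∀ k, (u k).natAbs ≤ n ^ k := fun k => (rbg_abs D hD n hn1 _ _ k (huv2 k)).1
  have hv : ∀ k, (v k).natAbs ≤ n ^ k := fun k => (rbg_abs D hD n hn1 _ _ k (huv2 k)).2
  obtain ⟨U, hUd, hUL, hUe⟩ := rbg_comb N n B hn1 hB u hu q hqd hqL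
  obtain ⟨V, hVd, hVL, hVe⟩ := rbg_comb N n B hn1 hB v hv q hqd hqL
  -- the product formula
  have key : ∀ (t : {p // p ∈ rbI n} → ℂ) (y : ℂ),
      (∀ i, 1 ≤ i → i ≤ N → ∑ a, t a ^ i = Polynomial.aeval y (Q i)) →
      (N.factorial : ℂ) * ∏ a, (((x : ℂ) - qom D) ^ 4 - t a) =
        Polynomial.aeval y U + qom D * Polynomial.aeval y V := by
    intro t y h
    rw [hq {p // p ∈ rbI n} (by rw [Fintype.card_coe, hN]) t y h (((x : ℂ) - qom D) ^ 4), hUe y,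
      hVe y, Finset.mul_sum, ← Finset.sum_add_distrib]
    refine Finset.sum_congr rfl fun r _ => ?_
    rw [← pow_mul, huv]
    ring
  have hω := qom_sq D
  refine ⟨U ^ 2 + C (D : ℤ) * V ^ 2, ?_, ?_, ?_, ?_⟩
  · -- nonzero
    intro hW
    have h0 : U.coeff 0 ^ 2 + (D : ℤ) * V.coeff 0 ^ 2 = 0 := by
      have := congrArg (fun P => Polynomial.eval 0 P) hW
      simp only [Polynomial.eval_add, Polynomial.eval_pow, Polynomial.eval_mul,
        Polynomial.eval_C, Polynomial.eval_zero, ← Polynomial.coeff_zero_eq_eval_zero] at this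
      exact this
    have hD' : (1 : ℤ) ≤ D := by exact_mod_cast hD
    have hU0 : U.coeff 0 = 0 := by
      have : U.coeff 0 ^ 2 = 0 := by nlinarith [sq_nonneg (U.coeff 0), sq_nonneg (V.coeff 0)]
      exact pow_eq_zero_iff (two_ne_zero) |>.1 this
    have hV0 : V.coeff 0 = 0 := by
      have : V.coeff 0 ^ 2 = 0 := by nlinarith [sq_nonneg (U.coeff 0), sq_nonneg (V.coeff 0)]
      exact pow_eq_zero_iff (two_ne_zero) |>.1 this
    have hae : ∀ P : ℤ[X], Polynomial.aeval (0 : ℂ) P = ((P.coeff 0 : ℤ) : ℂ) := by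
      intro P
      rw [← Polynomial.coeff_zero_eq_aeval_zero']
      simp
    have h1 := key (fun p => ((n / p.1.1 : ℕ) : ℂ) ^ 4) 0 (fun i _ _ => by
      rw [hae, hQ0 i, Int.cast_sum, ← Finset.sum_coe_sort (rbI n)]
      refine Finset.sum_congr rfl fun p _ => ?_
      rw [← pow_mul, Int.cast_pow, Int.cast_natCast])
    rw [hae, hae, hU0, hV0, Int.cast_zero, mul_zero, add_zero] at h1
    have h2 : (N.factorial : ℂ) ≠ 0 := by exact_mod_cast N.factorial_ne_zero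
    have h3 := (mul_eq_zero.1 h1).resolve_left h2
    obtain ⟨p, -, hp⟩ := Finset.prod_eq_zero_iff.1 h3
    have h4 : ((x : ℂ) - qom D) ^ 4 = ((n / p.1.1 : ℕ) : ℂ) ^ 4 := sub_eq_zero.1 hp
    have h5 : ‖(x : ℂ) - qom D‖ ^ 2 = (n : ℝ) := by
      rw [← Complex.normSq_eq_norm_sq, Complex.normSq_apply]
      unfold qom
      simp only [Complex.sub_re, Complex.sub_im, Complex.intCast_re, Complex.intCast_im,
        Complex.mul_re, Complex.mul_im, Complex.ofReal_re, Complex.ofReal_im, Complex.I_re,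
        Complex.I_im]
      have h6 := Real.mul_self_sqrt (Nat.cast_nonneg (α := ℝ) D)
      have h7 : (n : ℝ) = (x : ℝ) ^ 2 + (D : ℝ) := by exact_mod_cast hn
      rw [h7]
      linear_combination h6
    have h6 : ((n : ℝ)) ^ 2 = ((n / p.1.1 : ℕ) : ℝ) ^ 4 := by
      have := congrArg norm h4
      rw [norm_pow, norm_pow, Complex.norm_natCast] at this
      rw [← h5, ← this]
      ring
    have h7 : n ^ 2 = (n / p.1.1) ^ 4 := by exact_mod_cast h6
    have h8 : n ^ 2 = ((n / p.1.1) ^ 2) ^ 2 := by rw [h7, ← pow_mul]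
    exact hsq _ (Nat.pow_left_injective (n := 2) (by norm_num) h8).symm
  · -- degree
    have h1 : (U ^ 2 + C (D : ℤ) * V ^ 2).natDegree ≤ 2 * N := by
      refine (Polynomial.natDegree_add_le _ _).trans (max_le ?_ ?_)
      · exact Polynomial.natDegree_pow_le_of_le 2 hUd
      · exact (Polynomial.natDegree_C_mul_le _ _).trans
          (Polynomial.natDegree_pow_le_of_le 2 hVd)
    refine h1.trans ?_
    have h2 : n ^ 2 ≤ (D + 1) ^ 2 := Nat.pow_le_pow_left hns 2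
    have h3 : 2 * (D + 1) ^ 2 ≤ (D + 1) ^ 3 := by
      rw [pow_succ (D + 1) 2, mul_comm]
      exact Nat.mul_le_mul_left _ (by omega)
    have h4 : (D + 1) ^ 3 ≤ (D + 1) ^ 20 := Nat.pow_le_pow_right (by omega) (by norm_num)
    omega
  · -- size
    obtain ⟨M, hM⟩ : ∃ M, M = (N + 1) * (N.factorial * n ^ (4 * N) * B ^ N) := ⟨_, rfl⟩
    rw [← hM] at hUL hVL
    have h1 : L1 (U ^ 2 + C (D : ℤ) * V ^ 2) ≤ (D + 1) * M ^ 2 := by
      refine (L1_add _ _).trans ?_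
      have h2 : L1 (U ^ 2) ≤ M ^ 2 := by
        rw [pow_two, pow_two]
        exact (rbg_L1_mul _ _).trans (Nat.mul_le_mul hUL hUL)
      have h3 : L1 (V ^ 2) ≤ M ^ 2 := by
        rw [pow_two, pow_two]
        exact (rbg_L1_mul _ _).trans (Nat.mul_le_mul hVL hVL)
      have h4 : L1 (C (D : ℤ) * V ^ 2) ≤ D * M ^ 2 := by
        refine (L1_C_mul _ _).trans ?_
        rw [Int.natAbs_natCast]
        exact Nat.mul_le_mul_left _ h3
      calc _ ≤ M ^ 2 + D * M ^ 2 := Nat.add_le_add h2 h4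
        _ = _ := by ring
    refine h1.trans ?_
    rw [hM, hBdef]
    exact rbg_size (D + 1) n N (by omega) hns hNn
  · -- the root
    have hE := rb_E4_ne D
    have hy := key (fun p => rbf n p.1 (qom D) / E4f (qom D)) (rby (qom D)) (fun i _ _ => by
      have h1 := hQe i (qom D) (qom_pos hD) hE
      unfold rbP at h1
      rw [← Finset.sum_coe_sort (rbI n)] at h1
      simp only [div_pow]
      rw [← Finset.sum_div, h1, mul_comm, mul_div_assoc, div_self (pow_ne_zero _ hE), mul_one])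
    obtain ⟨p, hp, hpe⟩ := rb_root D hD x n hn
    have h1 : ∏ a : {p // p ∈ rbI n}, (((x : ℂ) - qom D) ^ 4 -
        rbf n a.1 (qom D) / E4f (qom D)) = 0 := by
      refine Finset.prod_eq_zero (Finset.mem_univ ⟨p, hp⟩) ?_
      simp only [hpe]
      rw [mul_div_assoc, div_self hE, mul_one, sub_self]
    rw [h1, mul_zero] at hy
    rw [map_add, map_pow, map_mul, map_pow, Polynomial.aeval_C]
    simp only [algebraMap_int_eq, eq_intCast, Int.cast_natCast]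
    linear_combination (-(Polynomial.aeval (rby (qom D)) U - qom D *
      Polynomial.aeval (rby (qom D)) V)) * hy + (Polynomial.aeval (rby (qom D)) V) ^ 2 * hω

end Pool.Agent.Lib.MP5e
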