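import Pool.Agent.Lib.MP_5e64e7_nt.RBHnf
import Pool.Agent.Lib.MP_5e64e7_nt.TransA

set_option autoImplicit false

/-!
# RB.INV : the power sums are modular (about 150 lines)

General step (`rb_step`): `p, p' ∈ rbI n`, `a = n/p.1`, `d = p.1`, `b = p.2` (same for `p'`), `(A B; C E) ∈ SL₂(ℤ)` and
`(a b; 0 d)(A B; C E) = (q r; s t)(a' b'; 0 d')` with `q t - r s = 1`. Then for `0 < Im z`, `u = (a' z + b')/d'`:
`(a γz + b)/d = (q u + r)/(s u + t)`, `(s u + t) d' = d (C z + E)` and `E4f_sl` gives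
`rbf n p (γ z) = a⁴ (s u + t)⁴ E₄(u) = (a d)⁴ (C z + E)⁴ / d'⁴ E₄(u) = (C z + E)⁴ a'⁴ E₄(u) = (C z + E)⁴ rbf n p' z` (`a d = a' d' = n`).
For every `p` there is `p' = π(p)` by `rhnf_ex` (the product has determinant `n`); for `γ = S = (0 -1; 1 0)` the map `π` is an
involution and for `T = (1 1; 0 1)` it has the inverse map given by `T⁻¹` (`rhnf_uniq`), so `Finset.sum_bij` (or
`Finset.sum_nbij'`, or injective + same finite set `Finset.sum_bijective`/`Finset.surjOn_of_injOn_of_card_le`) gives the sums.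
For `T` one can take directly `π(d, b) = (d, (a + b) % d)`, `rbf n p (z+1) = rbf n (π p) z` by `E4f_add_int`; for `S` injectivity of `π`:
if `π p₁ = π p₂` then `M_{p₁} = δ M_{p₂}`, `δ ∈ SL₂(ℤ)`, so `p₁ = p₂` by `rhnf_uniq`.
-/

noncomputable section

namespace Pool.Agent.Lib.MP5e

open Polynomial Topology

private theorem rbinv_den_ne (A B C E : ℤ) (hγ : A * E - B * C = 1) {z : ℂ} (hz : 0 < z.im) :
    (C : ℂ) * z + E ≠ 0 := by
  intro h
  have h1 := congrArg Complex.im h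
  simp only [Complex.add_im, Complex.mul_im, Complex.intCast_re, Complex.intCast_im, zero_mul,
    add_zero, Complex.zero_im] at h1
  have hC : (C : ℝ) = 0 := by
    rcases mul_eq_zero.1 h1 with h2 | h2
    · exact h2
    · exact absurd h2 hz.ne'
  have hC' : C = 0 := by exact_mod_cast hC
  rw [hC'] at h hγ
  have hE : (E : ℂ) = 0 := by simpa using h
  have hE' : E = 0 := by exact_mod_cast hE
  rw [hE'] at hγ
  simp at hγ

theorem rb_step (n : ℕ) (hn : 1 ≤ n) (p p' : ℕ × ℕ) (hp : p ∈ rbI n) (hp' : p' ∈ rbI n)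
    (A B C E q r s t : ℤ) (hγ : A * E - B * C = 1) (hδ : q * t - r * s = 1)
    (e1 : ((n / p.1 : ℕ) : ℤ) * A + (p.2 : ℤ) * C = q * ((n / p'.1 : ℕ) : ℤ))
    (e2 : ((n / p.1 : ℕ) : ℤ) * B + (p.2 : ℤ) * E = q * (p'.2 : ℤ) + r * (p'.1 : ℤ))
    (e3 : (p.1 : ℤ) * C = s * ((n / p'.1 : ℕ) : ℤ))
    (e4 : (p.1 : ℤ) * E = s * (p'.2 : ℤ) + t * (p'.1 : ℤ)) {z : ℂ} (hz : 0 < z.im) :
    rbf n p (((A : ℂ) * z + B) / ((C : ℂ) * z + E)) = ((C : ℂ) * z + E) ^ 4 * rbf n p' z := by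
  rw [mem_rbI hn] at hp hp'
  have hd : 0 < p.1 := by omega
  have hd' : 0 < p'.1 := by omega
  have ha' : 0 < n / p'.1 := Nat.div_pos (Nat.le_of_dvd hn hp'.1) hd'
  have hn1 : n / p.1 * p.1 = n := Nat.div_mul_cancel hp.1
  have hn2 : n / p'.1 * p'.1 = n := Nat.div_mul_cancel hp'.1
  have hden := rbinv_den_ne A B C E hγ hz
  unfold rbf
  generalize n / p.1 = a at *
  generalize n / p'.1 = a' at *
  obtain ⟨d, b⟩ := p
  obtain ⟨d', b'⟩ := p'
  simp only at *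
  have e1' : (a : ℂ) * A + (b : ℂ) * C = q * a' := by exact_mod_cast e1
  have e2' : (a : ℂ) * B + (b : ℂ) * E = q * b' + r * d' := by exact_mod_cast e2
  have e3' : (d : ℂ) * C = s * a' := by exact_mod_cast e3
  have e4' : (d : ℂ) * E = s * b' + t * d' := by exact_mod_cast e4
  have hdc : (d : ℂ) ≠ 0 := by exact_mod_cast hd.ne'
  have hdc' : (d' : ℂ) ≠ 0 := by exact_mod_cast hd'.ne'
  have had : (a : ℂ) * d = a' * d' := by
    have : a * d = a' * d' := by rw [hn1, hn2]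
    exact_mod_cast this
  set u : ℂ := ((a' : ℂ) * z + b') / d' with hu
  have hud : u * d' = (a' : ℂ) * z + b' := by
    rw [hu, div_mul_cancel₀ _ hdc']
  have huim : 0 < u.im := by
    have h1 : u = ((a' : ℝ) / (d' : ℝ) : ℝ) * z + (((b' : ℝ) / (d' : ℝ) : ℝ) : ℂ) := by
      rw [hu]
      push_cast
      field_simp
    rw [h1, Complex.add_im, Complex.ofReal_im, add_zero, Complex.im_ofReal_mul]
    exact mul_pos (div_pos (by exact_mod_cast ha') (by exact_mod_cast hd')) hz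
  have hst : ((s : ℂ) * u + t) * d' = d * ((C : ℂ) * z + E) := by
    linear_combination (s : ℂ) * hud - z * e3' - e4'
  have hstne : (s : ℂ) * u + t ≠ 0 := by
    intro h
    rw [h, zero_mul] at hst
    exact (mul_ne_zero hdc hden) hst.symm
  have hqr : ((q : ℂ) * u + r) * d' = ((a : ℂ) * (A * z + B) + b * (C * z + E)) := by
    linear_combination (q : ℂ) * hud - z * e1' - e2'
  have harg : ((a : ℂ) * (((A : ℂ) * z + B) / ((C : ℂ) * z + E)) + b) / d
      = ((q : ℂ) * u + r) / ((s : ℂ) * u + t) := by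
    have h1 : (a : ℂ) * (((A : ℂ) * z + B) / ((C : ℂ) * z + E)) + b
        = ((a : ℂ) * (A * z + B) + b * (C * z + E)) / ((C : ℂ) * z + E) := by
      rw [eq_div_iff hden, add_mul, ← mul_div_assoc, div_mul_cancel₀ _ hden]
    rw [h1, ← hqr, div_div, mul_comm ((C : ℂ) * z + E) (d : ℂ), ← hst, mul_div_mul_right _ _ hdc']
  rw [harg, E4f_sl q r s t hδ huim]
  have hmain : (a : ℂ) * (s * u + t) = (C * z + E) * a' := by
    have h2 : ((a : ℂ) * (s * u + t)) * d' = ((C * z + E) * a') * d' := by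
      linear_combination (a : ℂ) * hst + (C * z + E) * had
    exact mul_right_cancel₀ hdc' h2
  calc (a : ℂ) ^ 4 * (((s : ℂ) * u + t) ^ 4 * E4f u)
      = ((a : ℂ) * (s * u + t)) ^ 4 * E4f u := by ring
    _ = _ := by rw [hmain]; ring

private theorem rbinv_sl (n r : ℕ) (hn : 1 ≤ n) (A B C E : ℤ) (hγ : A * E - B * C = 1) {z : ℂ}
    (hz : 0 < z.im) :
    rbP n r (((A : ℂ) * z + B) / ((C : ℂ) * z + E)) = ((C : ℂ) * z + E) ^ (4 * r) * rbP n r z := by
  have hex : ∀ p : ℕ × ℕ, p ∈ rbI n → ∃ p' ∈ rbI n, ∃ q r s t : ℤ, q * t - r * s = 1 ∧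
      ((n / p.1 : ℕ) : ℤ) * A + (p.2 : ℤ) * C = q * ((n / p'.1 : ℕ) : ℤ) ∧
      ((n / p.1 : ℕ) : ℤ) * B + (p.2 : ℤ) * E = q * (p'.2 : ℤ) + r * (p'.1 : ℤ) ∧
      (p.1 : ℤ) * C = s * ((n / p'.1 : ℕ) : ℤ) ∧
      (p.1 : ℤ) * E = s * (p'.2 : ℤ) + t * (p'.1 : ℤ) := by
    intro p hp
    apply rhnf_ex n hn
    rw [mem_rbI hn] at hp
    have hn1 : n / p.1 * p.1 = n := Nat.div_mul_cancel hp.1
    have hn1' : ((n / p.1 : ℕ) : ℤ) * (p.1 : ℤ) = n := by exact_mod_cast hn1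
    linear_combination (A * E - B * C) * hn1' + (n : ℤ) * hγ
  choose! π hπ using hex
  have hmem : ∀ p ∈ rbI n, π p ∈ rbI n := fun p hp => (hπ p hp).1
  have hinj : Set.InjOn π (rbI n : Set (ℕ × ℕ)) := by
    intro p1 hp1 p2 hp2 h
    have hp1' : p1 ∈ rbI n := hp1
    have hp2' : p2 ∈ rbI n := hp2
    obtain ⟨-, q1, r1, s1, t1, hd1, f1, f2, f3, f4⟩ := hπ p1 hp1'
    obtain ⟨-, q2, r2, s2, t2, hd2, g1, g2, g3, g4⟩ := hπ p2 hp2'
    rw [← h] at g1 g2 g3 g4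
    generalize ((n / (π p1).1 : ℕ) : ℤ) = a' at *
    generalize ((π p1).1 : ℤ) = d' at *
    generalize ((π p1).2 : ℤ) = b' at *
    have x1 : ((n / p1.1 : ℕ) : ℤ) = q1 * (a' * E - b' * C) + r1 * (-(d' * C)) := by
      linear_combination E * f1 - C * f2 - ((n / p1.1 : ℕ) : ℤ) * hγ
    have x2 : 0 = s1 * (a' * E - b' * C) + t1 * (-(d' * C)) := by
      linear_combination E * f3 - C * f4
    have x3 : (p1.2 : ℤ) = q1 * (b' * A - a' * B) + r1 * (d' * A) := by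
      linear_combination A * f2 - B * f1 - (p1.2 : ℤ) * hγ
    have x4 : (p1.1 : ℤ) = s1 * (b' * A - a' * B) + t1 * (d' * A) := by
      linear_combination A * f4 - B * f3 - (p1.1 : ℤ) * hγ
    have y1 : ((n / p2.1 : ℕ) : ℤ) = q2 * (a' * E - b' * C) + r2 * (-(d' * C)) := by
      linear_combination E * g1 - C * g2 - ((n / p2.1 : ℕ) : ℤ) * hγ
    have y2 : 0 = s2 * (a' * E - b' * C) + t2 * (-(d' * C)) := by
      linear_combination E * g3 - C * g4
    have y3 : (p2.2 : ℤ) = q2 * (b' * A - a' * B) + r2 * (d' * A) := by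
      linear_combination A * g2 - B * g1 - (p2.2 : ℤ) * hγ
    have y4 : (p2.1 : ℤ) = s2 * (b' * A - a' * B) + t2 * (d' * A) := by
      linear_combination A * g4 - B * g3 - (p2.1 : ℤ) * hγ
    generalize (a' * E - b' * C) = x at *
    generalize (-(d' * C)) = y at *
    generalize (b' * A - a' * B) = w at *
    generalize (d' * A) = v at *
    have hx : x = t2 * ((n / p2.1 : ℕ) : ℤ) := by
      linear_combination (-t2) * y1 + r2 * y2 - x * hd2
    have hy : y = -(s2 * ((n / p2.1 : ℕ) : ℤ)) := by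
      linear_combination s2 * y1 - q2 * y2 - y * hd2
    have hw : w = t2 * (p2.2 : ℤ) - r2 * (p2.1 : ℤ) := by
      linear_combination (-t2) * y3 + r2 * y4 - w * hd2
    have hv : v = q2 * (p2.1 : ℤ) - s2 * (p2.2 : ℤ) := by
      linear_combination s2 * y3 - q2 * y4 - v * hd2
    refine (rhnf_uniq n hn p2 p1 hp2' hp1' (q1 * t2 - r1 * s2) (r1 * q2 - q1 * r2)
      (s1 * t2 - t1 * s2) (t1 * q2 - s1 * r2) ?_ ?_ ?_ ?_ ?_).symm
    · linear_combination (q2 * t2 - r2 * s2) * hd1 + hd2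
    · rw [x1, hx, hy]; ring
    · rw [x3, hw, hv]; ring
    · rw [x2, hx, hy]; ring
    · rw [x4, hw, hv]; ring
  have hsurj : Set.SurjOn π (rbI n : Set (ℕ × ℕ)) (rbI n : Set (ℕ × ℕ)) :=
    Finset.surjOn_of_injOn_of_card_le π hmem hinj le_rfl
  unfold rbP
  rw [Finset.mul_sum]
  refine Finset.sum_nbij π hmem hinj hsurj ?_
  intro p hp
  obtain ⟨-, q1, r1, s1, t1, hd1, f1, f2, f3, f4⟩ := hπ p hp
  rw [rb_step n hn p (π p) hp (hmem p hp) A B C E q1 r1 s1 t1 hγ hd1 f1 f2 f3 f4 hz, mul_pow,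
    ← pow_mul]

theorem rbP_T (n r : ℕ) (hn : 1 ≤ n) {z : ℂ} (hz : 0 < z.im) : rbP n r (z + 1) = rbP n r z := by
  have h := rbinv_sl n r hn 1 1 0 1 (by norm_num) hz
  simpa using h

theorem rbP_S (n r : ℕ) (hn : 1 ≤ n) {z : ℂ} (hz : 0 < z.im) :
    rbP n r (-1 / z) = z ^ (4 * r) * rbP n r z := by
  have h := rbinv_sl n r hn 0 (-1) 1 0 (by norm_num) hz
  simpa using h

end Pool.Agent.Lib.MP5e
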