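import Pool.Agent.Lib.MP_5e64e7_nt.RBForm
import Pool.Agent.Lib.MP_5e64e7_nt.RBDec
import Pool.Agent.Lib.MP_5e64e7_nt.Ser

set_option autoImplicit false

/-!
# RB.POW : the power sums as polynomials in `y = Δ/E₄³` (about 40 lines)

`rb_form` and `rb_dec`; `E4f_coe`, `E6f_coe`, `ModularForm.discriminant_eq_E₄_cube_sub_E₆_sq` identify `rby z` with
`Δ z / E₄ z ^ 3`. `10 (r+1)³ + 24 n (r+1)² ≤ 34 n (r+1)³`.
-/

noncomputable section

namespace Pool.Agent.Lib.MP5e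

open Polynomial Topology

theorem rb_pow (n r : ℕ) (hn : 1 ≤ n) : ∃ Q : ℤ[X], Q.natDegree ≤ r ∧
    Q.coeff 0 = ∑ p ∈ rbI n, ((n / p.1 : ℕ) : ℤ) ^ (4 * r) ∧
    L1 Q ≤ 2 ^ (34 * n * (r + 1) ^ 3) ∧
    ∀ z : ℂ, 0 < z.im → E4f z ≠ 0 → rbP n r z = E4f z ^ r * Polynomial.aeval (rby z) Q := by
  obtain ⟨f, F, hf, hF, hF0, hFn⟩ := rb_form n r hn
  obtain ⟨Q, hQd, hQ0, hQL, hQ⟩ := rb_dec r f F hF
  refine ⟨Q, hQd, hQ0.trans hF0, ?_, ?_⟩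
  · refine hQL.trans ((Nat.mul_le_mul_left _ hFn).trans ?_)
    rw [← pow_add]
    refine Nat.pow_le_pow_right (by norm_num) ?_
    have h1 : (r + 1) ^ 2 ≤ (r + 1) ^ 3 := Nat.pow_le_pow_right (by omega) (by omega)
    have h2 : 24 * n * (r + 1) ^ 2 ≤ 24 * n * (r + 1) ^ 3 := Nat.mul_le_mul_left _ h1
    have h3 : 10 * (r + 1) ^ 3 ≤ 10 * n * (r + 1) ^ 3 := Nat.mul_le_mul_right _ (by omega)
    have h4 : 34 * n * (r + 1) ^ 3 = 10 * n * (r + 1) ^ 3 + 24 * n * (r + 1) ^ 3 := by ring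
    omega
  · intro z hz hE
    obtain ⟨w, hw⟩ : ∃ w : UpperHalfPlane, (w : ℂ) = z := ⟨⟨z, hz⟩, rfl⟩
    have h4 : E4f z = ModularForm.E₄ w := by rw [← hw]; exact E4f_coe w
    have h6 : E6f z = ModularForm.E₆ w := by rw [← hw]; exact E6f_coe w
    have hE' : ModularForm.E₄ w ≠ 0 := by rw [← h4]; exact hE
    have h5 : rby z = ModularForm.discriminant w / ModularForm.E₄ w ^ 3 := by
      unfold rby
      rw [h4, h6, ModularForm.discriminant_eq_E₄_cube_sub_E₆_sq]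
      field_simp
    rw [h5, h4, ← hQ w hE', hf w, hw]

end Pool.Agent.Lib.MP5e
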