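import Pool.Agent.Lib.MP_5e64e7_nt.RBDefs

set_option autoImplicit false

/-!
# RB.SER : truncated `L¹` norms of integer power series, division (about 130 lines, elementary)

`rbn T F = ∑_{m ≤ T} |F_m|`.
* `rbn_mul`: `∑_{m ≤ T} |∑_{i+j=m} F_i G_j| ≤ ∑_{i ≤ T} ∑_{j ≤ T} |F_i| |G_j|` (`PowerSeries.coeff_mul`,
  `Finset.sum_sigma'`, the antidiagonals of `m ≤ T` are disjoint subsets of the square). `rbn_one : rbn T 1 = 1`, hence
  `rbn_pow` by induction.
* `rbn_div`: `H_m = G_{m+1} - ∑_{i=2}^{m+1} d_i H_{m+1-i}` (coefficient `m+1` of `d * H = G`, `d_0 = 0`, `d_1 = 1`). With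
  `g = rbn (T+1) G`, `δ = rbn (T+1) d`: `|H_m| ≤ g (1+δ)^m` for `m ≤ T` by strong induction
  (`|H_m| ≤ g + δ g (1+δ)^(m-1) ≤ g (1+δ)^m` for `m ≥ 1`), and sum over `m ≤ T`.
* `rb_int_div`: the same recursion over `ℂ` shows by strong induction that every coefficient of `H` is an integer
  (`∃ c : ℤ, coeff m H = c`); choose them; `d * HZ = G` by injectivity of `PowerSeries.map (Int.castRingHom ℂ)`.
-/

noncomputable section

namespace Pool.Agent.Lib.MP5e

open Polynomial Topology

theorem rbn_coeff (T m : ℕ) (hm : m ≤ T) (F : PowerSeries ℤ) :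
    (PowerSeries.coeff m F).natAbs ≤ rbn T F := by
  unfold rbn
  exact Finset.single_le_sum (f := fun m => (PowerSeries.coeff m F).natAbs)
    (fun _ _ => Nat.zero_le _) (Finset.mem_range.mpr (Nat.lt_succ_of_le hm))

theorem rbn_mono {T T' : ℕ} (h : T ≤ T') (F : PowerSeries ℤ) : rbn T F ≤ rbn T' F := by
  unfold rbn
  exact Finset.sum_le_sum_of_subset (Finset.range_subset_range.mpr (Nat.succ_le_succ h))

theorem rbn_add (T : ℕ) (F G : PowerSeries ℤ) : rbn T (F + G) ≤ rbn T F + rbn T G := by
  unfold rbn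
  rw [← Finset.sum_add_distrib]
  refine Finset.sum_le_sum fun m _ => ?_
  rw [map_add]
  exact Int.natAbs_add_le _ _

theorem rbn_sub (T : ℕ) (F G : PowerSeries ℤ) : rbn T (F - G) ≤ rbn T F + rbn T G := by
  unfold rbn
  rw [← Finset.sum_add_distrib]
  refine Finset.sum_le_sum fun m _ => ?_
  rw [map_sub]
  exact Int.natAbs_sub_le _ _

theorem rbn_C_mul (T : ℕ) (a : ℤ) (F : PowerSeries ℤ) :
    rbn T (PowerSeries.C a * F) = a.natAbs * rbn T F := by
  unfold rbn
  rw [Finset.mul_sum]
  refine Finset.sum_congr rfl fun m _ => ?_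
  rw [PowerSeries.coeff_C_mul, Int.natAbs_mul]

theorem rbn_mul (T : ℕ) (F G : PowerSeries ℤ) : rbn T (F * G) ≤ rbn T F * rbn T G := by
  unfold rbn
  have h1 : ∀ m, (PowerSeries.coeff m (F * G)).natAbs ≤ ∑ k ∈ Finset.range (m + 1),
      (PowerSeries.coeff k F).natAbs * (PowerSeries.coeff (m - k) G).natAbs := by
    intro m
    rw [PowerSeries.coeff_mul, Finset.Nat.sum_antidiagonal_eq_sum_range_succ_mk]
    refine (Int.natAbs_sum_le _ _).trans (le_of_eq ?_)
    refine Finset.sum_congr rfl fun k _ => ?_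
    rw [Int.natAbs_mul]
  refine (Finset.sum_le_sum fun m _ => h1 m).trans ?_
  rw [Finset.sum_range_diag_flip (T + 1) (fun i j =>
    (PowerSeries.coeff i F).natAbs * (PowerSeries.coeff j G).natAbs), Finset.sum_mul]
  refine Finset.sum_le_sum fun i _ => ?_
  rw [← Finset.mul_sum]
  refine Nat.mul_le_mul_left _ ?_
  exact Finset.sum_le_sum_of_subset (Finset.range_subset_range.mpr (Nat.sub_le _ _))

theorem rbn_pow (T : ℕ) (F : PowerSeries ℤ) (r : ℕ) : rbn T (F ^ r) ≤ rbn T F ^ r := by
  induction r with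
  | zero =>
    rw [pow_zero, pow_zero]
    unfold rbn
    rw [Finset.sum_eq_single 0]
    · simp
    · intro m _ hm
      rw [PowerSeries.coeff_one, if_neg hm]
      rfl
    · intro h
      exact absurd (Finset.mem_range.mpr (Nat.succ_pos T)) h
  | succ r ih =>
    rw [pow_succ, pow_succ]
    exact (rbn_mul T _ _).trans (Nat.mul_le_mul_right _ ih)

private theorem rbser_rec {R : Type*} [CommRing R] (d H : PowerSeries R)
    (h0 : PowerSeries.coeff 0 d = 0) (h1 : PowerSeries.coeff 1 d = 1) (m : ℕ) :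
    PowerSeries.coeff (m + 1) (d * H) = PowerSeries.coeff m H +
      ∑ i ∈ Finset.range m, PowerSeries.coeff (i + 2) d * PowerSeries.coeff (m - 1 - i) H := by
  rw [PowerSeries.coeff_mul, Finset.Nat.sum_antidiagonal_eq_sum_range_succ_mk,
    Finset.sum_range_succ', Finset.sum_range_succ']
  simp only [h0, zero_mul, add_zero, zero_add, h1, one_mul]
  rw [add_comm]
  congr 1
  refine Finset.sum_congr rfl fun i hi => ?_
  have hi' := Finset.mem_range.mp hi
  have h2 : m + 1 - (i + 1 + 1) = m - 1 - i := by omega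
  rw [h2]

theorem rbn_div (T : ℕ) (d H G : PowerSeries ℤ) (h0 : PowerSeries.coeff 0 d = 0)
    (h1 : PowerSeries.coeff 1 d = 1) (hG : d * H = G) :
    rbn T H ≤ (T + 1) * rbn (T + 1) G * (1 + rbn (T + 1) d) ^ T := by
  have hb : ∀ m ≤ T, (PowerSeries.coeff m H).natAbs ≤
      rbn (T + 1) G * (1 + rbn (T + 1) d) ^ m := by
    intro m
    induction m using Nat.strong_induction_on with
    | _ m ih =>
      intro hm
      have hrec := rbser_rec d H h0 h1 m
      rw [hG] at hrec
      have h2 : PowerSeries.coeff m H = PowerSeries.coeff (m + 1) G -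
          ∑ i ∈ Finset.range m, PowerSeries.coeff (i + 2) d * PowerSeries.coeff (m - 1 - i) H := by
        rw [hrec]
        ring
      have hg : (PowerSeries.coeff (m + 1) G).natAbs ≤ rbn (T + 1) G :=
        rbn_coeff _ _ (Nat.succ_le_succ hm) G
      rcases Nat.eq_zero_or_pos m with rfl | hm0
      · rw [h2, Finset.range_zero, Finset.sum_empty, sub_zero, pow_zero, mul_one]
        exact hg
      · have h3 : (∑ i ∈ Finset.range m, PowerSeries.coeff (i + 2) d *
            PowerSeries.coeff (m - 1 - i) H).natAbs ≤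
            rbn (T + 1) d * (rbn (T + 1) G * (1 + rbn (T + 1) d) ^ (m - 1)) := by
          refine (Int.natAbs_sum_le _ _).trans ?_
          have h4 : ∑ i ∈ Finset.range m, (PowerSeries.coeff (i + 2) d).natAbs ≤
              rbn (T + 1) d := by
            have h5 : rbn (m + 1) d ≤ rbn (T + 1) d := rbn_mono (Nat.succ_le_succ hm) d
            refine le_trans ?_ h5
            unfold rbn
            rw [Finset.sum_range_succ', Finset.sum_range_succ']
            exact (Nat.le_add_right _ _).trans (Nat.le_add_right _ _)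
          refine le_trans ?_ (Nat.mul_le_mul_right _ h4)
          rw [Finset.sum_mul]
          refine Finset.sum_le_sum fun i hi => ?_
          rw [Int.natAbs_mul]
          refine Nat.mul_le_mul_left _ ?_
          have hi' := Finset.mem_range.mp hi
          refine (ih (m - 1 - i) (by omega) (by omega)).trans ?_
          refine Nat.mul_le_mul_left _ ?_
          exact Nat.pow_le_pow_right (by omega) (by omega)
        rw [h2]
        refine (Int.natAbs_sub_le _ _).trans ((Nat.add_le_add hg h3).trans ?_)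
        obtain ⟨k, rfl⟩ : ∃ k, m = k + 1 := ⟨m - 1, by omega⟩
        rw [Nat.add_sub_cancel, pow_succ]
        have h6 : 1 ≤ (1 + rbn (T + 1) d) ^ k := Nat.one_le_pow _ _ (by omega)
        have h7 : rbn (T + 1) G * 1 ≤ rbn (T + 1) G * (1 + rbn (T + 1) d) ^ k :=
          Nat.mul_le_mul_left _ h6
        have h8 : rbn (T + 1) G * ((1 + rbn (T + 1) d) ^ k * (1 + rbn (T + 1) d)) =
            rbn (T + 1) G * (1 + rbn (T + 1) d) ^ k +
              rbn (T + 1) d * (rbn (T + 1) G * (1 + rbn (T + 1) d) ^ k) := by ring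
        rw [h8]
        omega
  calc rbn T H = ∑ m ∈ Finset.range (T + 1), (PowerSeries.coeff m H).natAbs := rfl
    _ ≤ ∑ m ∈ Finset.range (T + 1), rbn (T + 1) G * (1 + rbn (T + 1) d) ^ T := by
        refine Finset.sum_le_sum fun m hm => ?_
        have hm' := Nat.lt_succ_iff.mp (Finset.mem_range.mp hm)
        exact (hb m hm').trans (Nat.mul_le_mul_left _ (Nat.pow_le_pow_right (by omega) hm'))
    _ = (T + 1) * rbn (T + 1) G * (1 + rbn (T + 1) d) ^ T := by
        rw [Finset.sum_const, Finset.card_range, smul_eq_mul]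
        ring

theorem rb_int_div (d G : PowerSeries ℤ) (h0 : PowerSeries.coeff 0 d = 0)
    (h1 : PowerSeries.coeff 1 d = 1) (H : PowerSeries ℂ)
    (h : PowerSeries.map (Int.castRingHom ℂ) d * H = PowerSeries.map (Int.castRingHom ℂ) G) :
    ∃ HZ : PowerSeries ℤ, PowerSeries.map (Int.castRingHom ℂ) HZ = H ∧ d * HZ = G := by
  have h0' : PowerSeries.coeff 0 (PowerSeries.map (Int.castRingHom ℂ) d) = 0 := by
    rw [PowerSeries.coeff_map, h0, map_zero]
  have h1' : PowerSeries.coeff 1 (PowerSeries.map (Int.castRingHom ℂ) d) = 1 := by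
    rw [PowerSeries.coeff_map, h1, map_one]
  have hint : ∀ m, ∃ c : ℤ, (c : ℂ) = PowerSeries.coeff m H := by
    intro m
    induction m using Nat.strong_induction_on with
    | _ m ih =>
      have hrec := rbser_rec _ H h0' h1' m
      rw [h] at hrec
      choose! c hc using ih
      refine ⟨PowerSeries.coeff (m + 1) G - ∑ i ∈ Finset.range m,
        PowerSeries.coeff (i + 2) d * c (m - 1 - i), ?_⟩
      rw [PowerSeries.coeff_map] at hrec
      have h2 : PowerSeries.coeff m H = (Int.castRingHom ℂ) (PowerSeries.coeff (m + 1) G) -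
          ∑ i ∈ Finset.range m, PowerSeries.coeff (i + 2) (PowerSeries.map (Int.castRingHom ℂ) d) *
            PowerSeries.coeff (m - 1 - i) H := by
        rw [hrec]
        ring
      rw [h2, Int.cast_sub, Int.cast_sum]
      congr 1
      refine Finset.sum_congr rfl fun i hi => ?_
      have hi' := Finset.mem_range.mp hi
      rw [Int.cast_mul, hc _ (by omega), PowerSeries.coeff_map]
      rfl
  choose c hc using hint
  have hmap : PowerSeries.map (Int.castRingHom ℂ) (PowerSeries.mk c) = H := by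
    ext m
    rw [PowerSeries.coeff_map, PowerSeries.coeff_mk]
    exact hc m
  refine ⟨PowerSeries.mk c, hmap, ?_⟩
  apply PowerSeries.map_injective (Int.castRingHom ℂ) Int.cast_injective
  rw [map_mul, hmap, h]

end Pool.Agent.Lib.MP5e
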