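import Pool.Agent.Lib.MP_5e64e7_nt.RBDefs
import Pool.Agent.Lib.MP_5e64e7_nt.RepA
import Pool.Agent.Lib.MP_5e64e7_nt.L1l

set_option autoImplicit false

/-!
# RB.SUB : from `y₀` to `e = E₆/l₀³`, and algebraic numbers with a given equation (about 180 lines, algebra)

* `rb_sub`: `W₁ = ∑_{k ≤ d} w_k 1728^(d-k) (1 - X²)^k`, `d = natDegree W`. Degree `≤ 2d`; the coefficient of `X^(2d)` is
  `(-1)^d w_d ≠ 0`; `L1 ((1 - X²)^k) ≤ 2^k`, `2^k 1728^(d-k) ≤ 1728^d`.
* `rb_int`: `c` the leading coefficient of `W`, `M = |c| ≤ L1 W ≤ A`. `c e` is an algebraic integer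
  (Mathlib: `isIntegral_leadingCoeff_smul`, or `IsIntegral` of `leadingCoeff • root`), so `M e = ± c e` is one. `F = ℚ(e)`:
  `IntermediateField.adjoin.finrank` = degree of the minimal polynomial, which divides `W` over `ℚ`: at most `natDegree W`.
  For an embedding `φ : F → ℂ`, `φ(e)` is a root of `W`, and a root `x` of an integer polynomial `W ≠ 0` satisfies `|x| ≤ L1 W`
  (if `|x| > 1`: `|c| |x|^d ≤ (L1 W - |c|) |x|^(d-1)`), so `|φ(M e)| ≤ A · A`. (Patterns: `bas_field` in `QBas.lean`,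
  `qtor_root_le` in `QTor.lean`.)
-/

noncomputable section

namespace Pool.Agent.Lib.MP5e

open Polynomial Topology

private lemma rbs_L1 (k : ℕ) : L1 ((1 - X ^ 2 : ℤ[X]) ^ k) ≤ 2 ^ k := by
  induction k with
  | zero =>
    rw [pow_zero, pow_zero]
    unfold L1
    rw [show (1 : ℤ[X]) = C 1 from rfl]
    refine (Finset.sum_le_sum_of_subset (Polynomial.support_C_subset 1)).trans ?_
    simp
  | succ k ih =>
    have h : (1 - X ^ 2 : ℤ[X]) ^ (k + 1) =
        (1 - X ^ 2 : ℤ[X]) ^ k - X * (X * (1 - X ^ 2 : ℤ[X]) ^ k) := by ring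
    rw [h]
    refine (L1_sub _ _).trans ?_
    have h1 := (L1_X_mul (X * (1 - X ^ 2 : ℤ[X]) ^ k)).trans (L1_X_mul _)
    have h2 : 2 ^ (k + 1) = 2 ^ k + 2 ^ k := by ring
    rw [h2]
    exact Nat.add_le_add ih (h1.trans ih)

private def rbsW (W : ℤ[X]) : ℤ[X] := ∑ k ∈ Finset.range (W.natDegree + 1),
  C (W.coeff k * 1728 ^ (W.natDegree - k)) * (1 - X ^ 2) ^ k

private lemma rbs_deg (W : ℤ[X]) : (rbsW W).natDegree ≤ 2 * W.natDegree := by
  unfold rbsW
  refine Polynomial.natDegree_sum_le_of_forall_le _ _ ?_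
  intro k hk
  rw [Finset.mem_range] at hk
  refine (Polynomial.natDegree_C_mul_le _ _).trans ?_
  refine (Polynomial.natDegree_pow_le).trans ?_
  have h1 : (1 - X ^ 2 : ℤ[X]).natDegree ≤ 2 := by
    refine (Polynomial.natDegree_sub_le _ _).trans ?_
    simp
  calc k * (1 - X ^ 2 : ℤ[X]).natDegree ≤ k * 2 := Nat.mul_le_mul_left _ h1
    _ ≤ 2 * W.natDegree := by omega

private lemma rbs_size (W : ℤ[X]) : L1 (rbsW W) ≤ 1728 ^ W.natDegree * L1 W := by
  unfold rbsW
  refine (L1_sum _ _).trans ?_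
  rw [L1l_eq_range W W.natDegree le_rfl, Finset.mul_sum]
  refine Finset.sum_le_sum fun k hk => ?_
  rw [Finset.mem_range] at hk
  refine (L1_C_mul _ _).trans ?_
  rw [Int.natAbs_mul, Int.natAbs_pow]
  have h1 : (1728 : ℤ).natAbs = 1728 := rfl
  rw [h1]
  have h2 := rbs_L1 k
  have h3 : 1728 ^ (W.natDegree - k) * 2 ^ k ≤ 1728 ^ W.natDegree := by
    calc 1728 ^ (W.natDegree - k) * 2 ^ k ≤ 1728 ^ (W.natDegree - k) * 1728 ^ k :=
          Nat.mul_le_mul_left _ (Nat.pow_le_pow_left (by norm_num) k)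
      _ = 1728 ^ W.natDegree := by
          rw [← pow_add]
          congr 1
          omega
  calc (W.coeff k).natAbs * 1728 ^ (W.natDegree - k) * L1 ((1 - X ^ 2 : ℤ[X]) ^ k)
      ≤ (W.coeff k).natAbs * 1728 ^ (W.natDegree - k) * 2 ^ k := Nat.mul_le_mul_left _ h2
    _ = (W.coeff k).natAbs * (1728 ^ (W.natDegree - k) * 2 ^ k) := by ring
    _ ≤ (W.coeff k).natAbs * 1728 ^ W.natDegree := Nat.mul_le_mul_left _ h3
    _ = 1728 ^ W.natDegree * (W.coeff k).natAbs := by ring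

private lemma rbs_eval (W : ℤ[X]) (e : ℂ) : Polynomial.aeval e (rbsW W) =
    1728 ^ W.natDegree * Polynomial.aeval ((1 - e ^ 2) / 1728) W := by
  unfold rbsW
  rw [map_sum, Polynomial.aeval_eq_sum_range (p := W), Finset.mul_sum]
  refine Finset.sum_congr rfl fun k hk => ?_
  rw [Finset.mem_range] at hk
  rw [map_mul, map_pow, map_sub, map_pow, Polynomial.aeval_X, map_one, Polynomial.aeval_C,
    zsmul_eq_mul]
  have h1 : (1728 : ℂ) ^ W.natDegree = 1728 ^ (W.natDegree - k) * 1728 ^ k := by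
    rw [← pow_add]
    congr 1
    omega
  rw [h1, div_pow]
  simp only [algebraMap_int_eq, eq_intCast, Int.cast_mul, Int.cast_pow, Int.cast_ofNat]
  field_simp

theorem rb_sub (W : ℤ[X]) (hW : W ≠ 0) : ∃ W1 : ℤ[X], W1 ≠ 0 ∧
    W1.natDegree ≤ 2 * W.natDegree ∧ L1 W1 ≤ 1728 ^ W.natDegree * L1 W ∧
    ∀ e : ℂ, Polynomial.aeval e W1 =
      1728 ^ W.natDegree * Polynomial.aeval ((1 - e ^ 2) / 1728) W := by
  refine ⟨rbsW W, ?_, rbs_deg W, rbs_size W, rbs_eval W⟩
  intro h0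
  apply hW
  have h1 : ∀ y : ℂ, (W.map (Int.castRingHom ℂ)).eval y = 0 := by
    intro y
    obtain ⟨e, he⟩ := IsAlgClosed.exists_pow_nat_eq (1 - 1728 * y) (n := 2) (by norm_num)
    have h2 := rbs_eval W e
    rw [h0, map_zero, he] at h2
    have h3 : (1 - (1 - 1728 * y)) / 1728 = y := by ring
    rw [h3] at h2
    have h4 : Polynomial.aeval y W = 0 := by
      rcases mul_eq_zero.mp h2.symm with h | h
      · exact absurd h (by norm_num)
      · exact h
    rw [Polynomial.eval_map]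
    exact h4
  have h5 : W.map (Int.castRingHom ℂ) = 0 := Polynomial.funext fun y => by
    rw [h1 y, Polynomial.eval_zero]
  have h6 : Function.Injective (Int.castRingHom ℂ) := RingHom.injective_int _
  exact (Polynomial.map_eq_zero_iff h6).mp h5

private lemma rbs_root (W : ℤ[X]) (hW : W ≠ 0) (x : ℂ) (hx : Polynomial.aeval x W = 0) :
    ‖x‖ ≤ L1 W := by
  have hlc : 1 ≤ W.leadingCoeff.natAbs := by
    rw [Nat.one_le_iff_ne_zero]
    exact Int.natAbs_ne_zero.mpr (Polynomial.leadingCoeff_ne_zero.mpr hW)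
  have hL : L1 W = ∑ k ∈ Finset.range W.natDegree, (W.coeff k).natAbs + W.leadingCoeff.natAbs := by
    rw [L1l_eq_range W W.natDegree le_rfl, Finset.sum_range_succ]
    rfl
  have hM1 : (1 : ℝ) ≤ (L1 W : ℝ) := by
    have : 1 ≤ L1 W := by omega
    exact_mod_cast this
  rcases le_or_gt ‖x‖ 1 with hx1 | hx1
  · exact hx1.trans hM1
  rcases Nat.eq_zero_or_pos W.natDegree with hn | hn
  · exfalso
    rw [Polynomial.aeval_eq_sum_range, hn, Finset.sum_range_one, pow_zero, zsmul_eq_mul,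
      mul_one] at hx
    have h1 : W.coeff 0 = 0 := by exact_mod_cast hx
    have h2 : W.leadingCoeff = 0 := by
      rw [← Polynomial.coeff_natDegree, hn]
      exact h1
    exact hW (Polynomial.leadingCoeff_eq_zero.mp h2)
  obtain ⟨n, hn'⟩ := Nat.exists_eq_succ_of_ne_zero hn.ne'
  rw [Nat.succ_eq_add_one] at hn'
  have hnorm : ∀ k : ℤ, ‖(k : ℂ)‖ = (k.natAbs : ℝ) := by
    intro k
    rw [Complex.norm_intCast, Nat.cast_natAbs, Int.cast_abs]
  have hev : (W.leadingCoeff : ℂ) * x ^ (n + 1) =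
      -∑ k ∈ Finset.range (n + 1), (W.coeff k : ℂ) * x ^ k := by
    rw [Polynomial.aeval_eq_sum_range, hn', Finset.sum_range_succ] at hx
    have h1 : W.leadingCoeff = W.coeff (n + 1) := by
      rw [← Polynomial.coeff_natDegree, hn']
    rw [h1]
    have h2 : ∑ k ∈ Finset.range (n + 1), (W.coeff k : ℂ) * x ^ k =
        ∑ k ∈ Finset.range (n + 1), W.coeff k • x ^ k :=
      Finset.sum_congr rfl fun k _ => by rw [zsmul_eq_mul]
    rw [h2]
    rw [zsmul_eq_mul] at hx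
    linear_combination hx
  have h3 : ‖∑ k ∈ Finset.range (n + 1), (W.coeff k : ℂ) * x ^ k‖ ≤
      (∑ k ∈ Finset.range (n + 1), ((W.coeff k).natAbs : ℝ)) * ‖x‖ ^ n := by
    rw [Finset.sum_mul]
    refine (norm_sum_le _ _).trans (Finset.sum_le_sum fun k hk => ?_)
    rw [norm_mul, norm_pow, hnorm]
    refine mul_le_mul_of_nonneg_left ?_ (Nat.cast_nonneg _)
    refine pow_le_pow_right₀ hx1.le ?_
    have := Finset.mem_range.mp hk
    omega
  have h4 : (∑ k ∈ Finset.range (n + 1), ((W.coeff k).natAbs : ℝ)) ≤ (L1 W : ℝ) := by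
    rw [hL, hn']
    push_cast
    have : (0 : ℝ) ≤ (W.leadingCoeff.natAbs : ℝ) := Nat.cast_nonneg _
    linarith
  have h5 : ‖x‖ ^ (n + 1) ≤ ‖(W.leadingCoeff : ℂ) * x ^ (n + 1)‖ := by
    rw [norm_mul, norm_pow, hnorm]
    have : (1 : ℝ) ≤ (W.leadingCoeff.natAbs : ℝ) := by exact_mod_cast hlc
    have h6 : (0 : ℝ) ≤ ‖x‖ ^ (n + 1) := by positivity
    nlinarith
  rw [hev, norm_neg] at h5
  have hpos : (0 : ℝ) < ‖x‖ ^ n := by positivity
  have h7 : ‖x‖ ^ n * ‖x‖ ≤ ‖x‖ ^ n * (L1 W : ℝ) := by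
    calc ‖x‖ ^ n * ‖x‖ = ‖x‖ ^ (n + 1) := (pow_succ _ _).symm
      _ ≤ (∑ k ∈ Finset.range (n + 1), ((W.coeff k).natAbs : ℝ)) * ‖x‖ ^ n := h5.trans h3
      _ ≤ (L1 W : ℝ) * ‖x‖ ^ n := mul_le_mul_of_nonneg_right h4 hpos.le
      _ = ‖x‖ ^ n * (L1 W : ℝ) := mul_comm _ _
  exact le_of_mul_le_mul_left h7 hpos

theorem rb_int (W : ℤ[X]) (hW : W ≠ 0) (e : ℂ) (he : Polynomial.aeval e W = 0) (A : ℕ)
    (hA : L1 W ≤ A) :
    ∃ (M : ℕ) (F : IntermediateField ℚ ℂ), 1 ≤ M ∧ M ≤ A ∧ FiniteDimensional ℚ F ∧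
      Module.finrank ℚ F ≤ W.natDegree ∧ AI F ((A : ℝ) ^ 2) ((M : ℂ) * e) := by
  have hlc : 1 ≤ W.leadingCoeff.natAbs := by
    rw [Nat.one_le_iff_ne_zero]
    exact Int.natAbs_ne_zero.mpr (Polynomial.leadingCoeff_ne_zero.mpr hW)
  have hL : W.leadingCoeff.natAbs ≤ L1 W := by
    rw [L1l_eq_range W W.natDegree le_rfl, Finset.sum_range_succ]
    exact Nat.le_add_left _ _
  have hinjQ : Function.Injective (Int.castRingHom ℚ) := RingHom.injective_int _
  have hWQ : W.map (Int.castRingHom ℚ) ≠ 0 := by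
    intro h
    exact hW ((Polynomial.map_eq_zero_iff hinjQ).mp h)
  have hroot : Polynomial.aeval e (W.map (Int.castRingHom ℚ)) = 0 := by
    have h := Polynomial.aeval_map_algebraMap ℚ e W
    rw [he] at h
    exact h
  have heint : IsIntegral ℚ e := by
    rw [← isAlgebraic_iff_isIntegral]
    exact ⟨_, hWQ, hroot⟩
  have hint : IsIntegral ℤ (W.leadingCoeff • e) := isIntegral_leadingCoeff_smul W e he
  have hMint : IsIntegral ℤ ((W.leadingCoeff.natAbs : ℂ) * e) := by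
    rw [zsmul_eq_mul] at hint
    rcases Int.natAbs_eq W.leadingCoeff with h | h
    · have h1 : (W.leadingCoeff : ℂ) = (W.leadingCoeff.natAbs : ℂ) := by
        have h2 : ((W.leadingCoeff : ℤ) : ℂ) = (((W.leadingCoeff.natAbs : ℕ) : ℤ) : ℂ) := by
          rw [← h]
        rw [h2, Int.cast_natCast]
      rw [← h1]
      exact hint
    · have h1 : (W.leadingCoeff.natAbs : ℂ) = -(W.leadingCoeff : ℂ) := by
        have h2 : ((W.leadingCoeff : ℤ) : ℂ) = ((-((W.leadingCoeff.natAbs : ℕ) : ℤ) : ℤ) : ℂ) := by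
          rw [← h]
        rw [h2, Int.cast_neg, Int.cast_natCast, neg_neg]
      rw [h1, neg_mul]
      exact hint.neg
  set F : IntermediateField ℚ ℂ := IntermediateField.adjoin ℚ {e} with hF
  have hfd : FiniteDimensional ℚ F := IntermediateField.adjoin.finiteDimensional heint
  have heF : e ∈ F := IntermediateField.mem_adjoin_simple_self ℚ e
  refine ⟨W.leadingCoeff.natAbs, F, hlc, hL.trans hA, hfd, ?_, ?_⟩
  · rw [hF, IntermediateField.adjoin.finrank heint]
    have h3 := Polynomial.natDegree_le_of_dvd (minpoly.dvd ℚ e hroot) hWQ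
    exact h3.trans (Polynomial.natDegree_map_le)
  · have hinj : Function.Injective (IsScalarTower.toAlgHom ℤ F ℂ) :=
      fun a b h => Subtype.ext h
    set a : F := (W.leadingCoeff.natAbs : F) * ⟨e, heF⟩ with ha
    have hae : (a : ℂ) = (W.leadingCoeff.natAbs : ℂ) * e := by
      rw [ha]
      simp
    refine ⟨a, hae, ?_, ?_⟩
    · apply (isIntegral_algHom_iff (IsScalarTower.toAlgHom ℤ F ℂ) hinj).mp
      have h1 : (IsScalarTower.toAlgHom ℤ F ℂ) a = (a : ℂ) := rfl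
      rw [h1, hae]
      exact hMint
    · intro φ
      rw [ha, map_mul, map_natCast, norm_mul, Complex.norm_natCast]
      have h1 : Polynomial.aeval (φ ⟨e, heF⟩) W = 0 := by
        have h2 : Polynomial.aeval (⟨e, heF⟩ : F) W = 0 := by
          apply hinj
          rw [map_zero, ← Polynomial.aeval_algHom_apply]
          exact he
        have h3 := Polynomial.aeval_algHom_apply (φ.restrictScalars ℤ) (⟨e, heF⟩ : F) W
        rw [h2, map_zero] at h3
        exact h3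
      have h4 := rbs_root W hW _ h1
      have h5 : (L1 W : ℝ) ≤ A := by exact_mod_cast hA
      have h6 : (W.leadingCoeff.natAbs : ℝ) ≤ A := by exact_mod_cast hL.trans hA
      rw [pow_two]
      exact mul_le_mul h6 (h4.trans h5) (norm_nonneg _) (Nat.cast_nonneg _)

end Pool.Agent.Lib.MP5e
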