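import Pool.Agent.Lib.MP_5e64e7_nt.RBG
import Pool.Agent.Lib.MP_5e64e7_nt.RBSub
import Pool.Agent.Lib.MP_5e64e7_nt.QBas

set_option autoImplicit false

/-!
# RB.AS : the uniform base data (about 250 lines; copy and vary `qbas` in `QBas.lean`)

`W` of `rb_G`, `W₁` of `rb_sub`: `natDegree W₁ ≤ 2 s^C`, `L1 W₁ ≤ 1728^(s^C) 2^(s^C) ≤ A := 2^(12 s^C)` (`s = D + 1 ≥ 2`).
`l₀` with `l₀² = E₄(ω)` (`rb_E4_ne`), `e = E₆(ω)/l₀³`: `e² = E₆²/E₄³ = 1 - 1728 rby ω`, so `W₁(e) = 0`. `rb_int` (with `W₁`, `A`): `M ≤ A`,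
`F₀`, `finrank F₀ ≤ 2 s^C`, `AI F₀ A² (M e)`. `l = l₀/M`, `lam² = π² l/3`, `L = PL lam ω`, `qell L = l` as in `qbas`;
`g₂/4 = 3 E₄/l² = 3 M²` and `g₃/4 = 2 E₆/l³ = 2 M³ e = 2 M² (M e)`, so both are `AI F₀ R₀`, `R₀ = 2^ρ` with `3 A⁴ ≤ 2^(48 s^C + 2)`,
`ρ = 48 s^C + 2`. Then as in `qbas` (`qexists_tor` with `N = D`: `finrank F ≤ D³ finrank F₀ ≤ s³ · 2 s^C`), `R₁ = R₀^(6 D³)`,
`u = -∑ D² ℘(k s)`, `AI F (D R₁) u`, `R = 2^r₀`, `r₀ = 6 D³ ρ + D + ρ` (`D ≤ 2^D`). The identity for `E₂` is copied from `qbas` (its private lemmas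
`bas_sum`, `bas_E2`, `bas_nat` have to be copied). Constant: e.g. `C' = C + 20`.
-/

noncomputable section

namespace Pool.Agent.Lib.MP5e

open Polynomial Topology

private lemma ra_nat (v : ℕ) : IsIntegral ℤ ((v : ℕ) : ℂ) := by
  have h := isIntegral_algebraMap (R := ℤ) (A := ℂ) (x := (v : ℤ))
  simpa using h


private lemma ra_sum {K : IntermediateField ℚ ℂ} {M : ℝ} (s : Finset ℕ) (f : ℕ → ℂ)
    (h : ∀ k ∈ s, AI K M (f k)) : AI K ((s.card : ℝ) * M) (∑ k ∈ s, f k) := by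
  classical
  induction s using Finset.induction_on with
  | empty =>
    rw [Finset.sum_empty, Finset.card_empty]
    have h0 := AI.nat K 0
    simpa using h0
  | insert a s ha ih =>
    rw [Finset.sum_insert ha, Finset.card_insert_of_notMem ha]
    have h1 := (h a (Finset.mem_insert_self _ _)).add
      (ih fun k hk => h k (Finset.mem_insert_of_mem hk))
    refine h1.mono le_rfl (le_of_eq ?_)
    push_cast
    ring

/-- `E₂` at `ω` -/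
private lemma ra_E2 {D : ℕ} (hD : 1 ≤ D) :
    E2f (qom D / (D : ℂ)) = -(D : ℂ) * E2f (qom D) +
      6 * ((qom D).im : ℂ) / (Real.pi : ℂ) := by
  have hw := qom_pos hD
  have h2 := qom_sq D
  have hpi : (Real.pi : ℂ) ≠ 0 := Complex.ofReal_ne_zero.mpr Real.pi_ne_zero
  have hw0 : qom D ≠ 0 := by
    intro h
    rw [h, Complex.zero_im] at hw
    exact lt_irrefl _ hw
  have hD0 : (D : ℂ) ≠ 0 := by
    have : D ≠ 0 := by omega
    exact_mod_cast this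
  have h := E2f_sl 0 (-1) 1 0 (by norm_num) hw
  have e1 : (((0 : ℤ) : ℂ) * qom D + ((-1 : ℤ) : ℂ)) / (((1 : ℤ) : ℂ) * qom D + ((0 : ℤ) : ℂ)) =
      qom D / (D : ℂ) := by
    push_cast
    rw [zero_mul, zero_add, one_mul, add_zero, div_eq_div_iff hw0 hD0]
    linear_combination -h2
  rw [e1] at h
  rw [h]
  have e3 : qom D = ((qom D).im : ℂ) * Complex.I := by
    rw [qom_im]
    rfl
  push_cast
  rw [one_mul, add_zero, h2, mul_one]
  congr 1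
  rw [div_eq_div_iff (mul_ne_zero hpi Complex.I_ne_zero) hpi]
  linear_combination (6 * (Real.pi : ℂ)) * e3

private lemma ra_A (s P : ℕ) : 1728 ^ s ^ P * 2 ^ s ^ P ≤ 2 ^ (12 * s ^ P) := by
  have h1 : (1728 : ℕ) ≤ 2 ^ 11 := by norm_num
  calc 1728 ^ s ^ P * 2 ^ s ^ P ≤ (2 ^ 11) ^ s ^ P * 2 ^ s ^ P :=
        Nat.mul_le_mul_right _ (Nat.pow_le_pow_left h1 _)
    _ = 2 ^ (12 * s ^ P) := by rw [← pow_mul, ← pow_add]; congr 1; ring

theorem rbas : ∃ C : ℕ, ∀ D : ℕ, 1 ≤ D →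
    ∃ (L : PeriodPair) (F : IntermediateField ℚ ℂ) (r0 : ℕ), QB D L F ((2 : ℝ) ^ r0) ∧
      Module.finrank ℚ F ≤ (D + 1) ^ C ∧ r0 ≤ (D + 1) ^ C := by
  obtain ⟨C, hC⟩ := rb_G
  refine ⟨C + 20, fun D hD => ?_⟩
  obtain ⟨W, hW0, hWd, hWL, hWy⟩ := hC D hD
  obtain ⟨W1, hW10, hW1d, hW1L, hW1e⟩ := rb_sub W hW0
  have hω := qom_pos hD
  have hpi : (Real.pi : ℂ) ≠ 0 := Complex.ofReal_ne_zero.mpr Real.pi_ne_zero
  have hE4 := rb_E4_ne D
  obtain ⟨s, hs⟩ : ∃ s : ℕ, s = D + 1 := ⟨_, rfl⟩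
  have hs2 : 2 ≤ s := by omega
  rw [← hs] at hWd hWL ⊢
  obtain ⟨l0, hl0⟩ := IsAlgClosed.exists_pow_nat_eq (E4f (qom D)) (n := 2) (by norm_num)
  have hl00 : l0 ≠ 0 := by
    intro h
    apply hE4
    rw [← hl0, h]
    ring
  obtain ⟨e, he⟩ : ∃ e : ℂ, e = E6f (qom D) / l0 ^ 3 := ⟨_, rfl⟩
  have he2 : (1 - e ^ 2) / 1728 = rby (qom D) := by
    have h6 : l0 ^ 6 = E4f (qom D) ^ 3 := by rw [← hl0]; ring
    have : e ^ 2 = E6f (qom D) ^ 2 / E4f (qom D) ^ 3 := by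
      rw [he, div_pow, ← h6]
      ring
    rw [this]
    unfold rby
    have h3 : E4f (qom D) ^ 3 ≠ 0 := pow_ne_zero _ hE4
    field_simp
  have heW : Polynomial.aeval e W1 = 0 := by
    rw [hW1e, he2, hWy, mul_zero]
  obtain ⟨A, hA⟩ : ∃ A : ℕ, A = 2 ^ (12 * s ^ C) := ⟨_, rfl⟩
  have hA1 : L1 W1 ≤ A := by
    refine hW1L.trans (le_trans ?_ (hA ▸ ra_A s C))
    exact Nat.mul_le_mul (Nat.pow_le_pow_right (by norm_num) hWd) hWL
  obtain ⟨M, F0, hM1, hMA, hF0, hFr, hMe⟩ := rb_int W1 hW10 e heW A hA1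
  have hMc : (M : ℂ) ≠ 0 := by
    have : M ≠ 0 := by omega
    exact_mod_cast this
  set l : ℂ := l0 / (M : ℂ) with hl
  have hl_ne : l ≠ 0 := div_ne_zero hl00 hMc
  obtain ⟨lam, hlam⟩ := IsAlgClosed.exists_pow_nat_eq ((Real.pi : ℂ) ^ 2 * l / 3) (n := 2)
    (by norm_num)
  have hlam0 : lam ≠ 0 := by
    intro h
    rw [h, zero_pow two_ne_zero] at hlam
    have : (Real.pi : ℂ) ^ 2 * l / 3 ≠ 0 :=
      div_ne_zero (mul_ne_zero (pow_ne_zero 2 hpi) hl_ne) (by norm_num)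
    exact this hlam.symm
  set L : PeriodPair := PL lam (qom D) hlam0 hω with hL
  have hL1 : L.ω₁ = lam := rfl
  have hL2 : L.ω₂ = qom D * L.ω₁ := rfl
  have hell : qell L = l := by
    unfold qell
    rw [hL1, hlam]
    field_simp
  have g2 : L.g₂ / 4 = ((3 * M ^ 2 : ℕ) : ℂ) := by
    have h1 : L.g₂ / 4 = 3 * E4f (qom D) / l ^ 2 := by
      rw [qE4_base L hω hL2, hell]
      field_simp
      ring
    rw [h1, ← hl0, hl]
    push_cast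
    field_simp
  have g3 : L.g₃ / 4 = ((2 * M ^ 2 : ℕ) : ℂ) * ((M : ℂ) * e) := by
    have h1 : L.g₃ / 4 = 2 * E6f (qom D) / l ^ 3 := by
      rw [qE6_base L hω hL2, hell]
      field_simp
      ring
    rw [h1, he, hl]
    push_cast
    field_simp
  obtain ⟨ρ, hρ⟩ : ∃ ρ : ℕ, ρ = 48 * s ^ C + 2 := ⟨_, rfl⟩
  set R0 : ℝ := (2 : ℝ) ^ ρ with hR0def
  have hR0 : 2 ≤ R0 := by
    calc (2 : ℝ) = 2 ^ 1 := (pow_one 2).symm
      _ ≤ 2 ^ ρ := pow_le_pow_right₀ (by norm_num) (by omega)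
  have hAR : 3 * (A : ℝ) ^ 4 ≤ R0 := by
    rw [hA, hR0def, hρ]
    push_cast
    rw [← pow_mul, pow_add]
    have : 12 * s ^ C * 4 = 48 * s ^ C := by ring
    rw [this]
    have h2 : (0 : ℝ) ≤ 2 ^ (48 * s ^ C) := by positivity
    nlinarith
  have hA1' : (1 : ℝ) ≤ A := by
    have : 1 ≤ A := hM1.trans hMA
    exact_mod_cast this
  have hMA' : (M : ℝ) ≤ A := by exact_mod_cast hMA
  have hM0 : (0 : ℝ) ≤ M := Nat.cast_nonneg M
  have hA2 : AI F0 R0 (L.g₂ / 4) := by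
    rw [g2]
    refine (AI.nat F0 _).mono le_rfl (le_trans ?_ hAR)
    push_cast
    have h1 : (M : ℝ) ^ 2 ≤ (A : ℝ) ^ 2 := pow_le_pow_left₀ hM0 hMA' 2
    have h2 : (A : ℝ) ^ 2 ≤ (A : ℝ) ^ 4 := pow_le_pow_right₀ hA1' (by norm_num)
    linarith
  have hA3 : AI F0 R0 (L.g₃ / 4) := by
    rw [g3]
    refine ((AI.nat F0 _).mul hMe).mono le_rfl (le_trans ?_ hAR)
    push_cast
    have h1 : (M : ℝ) ^ 2 ≤ (A : ℝ) ^ 2 := pow_le_pow_left₀ hM0 hMA' 2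
    have h2 : (M : ℝ) ^ 2 * (A : ℝ) ^ 2 ≤ (A : ℝ) ^ 2 * (A : ℝ) ^ 2 :=
      mul_le_mul_of_nonneg_right h1 (by positivity)
    have h3 : (A : ℝ) ^ 2 * (A : ℝ) ^ 2 = (A : ℝ) ^ 4 := by ring
    have h4 : (0 : ℝ) ≤ (A : ℝ) ^ 4 := by positivity
    nlinarith
  obtain ⟨F, hle, hFd, hrank, hF⟩ := qexists_tor L F0 hF0 R0 hR0 hA2 hA3 D hD
    (qtor L (qom D) 1 D 0 1)
    (by
      have h := qtor_top L hL2 (a := 1) (d := D) le_rfl hD 0
      rwa [one_mul] at h)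
    (fun k hk1 hk2 => by
      rw [qtor_mul]
      exact qtor_notMem L hω hL2 le_rfl hD isCoprime_one_left hk1 (by omega))
  set R1 : ℝ := R0 ^ (6 * D ^ 3) with hR1
  have hR1pos : 0 ≤ R1 := by positivity
  have hu := (ra_sum (K := F) (M := R1) (Finset.Ico 1 D)
    (fun k => (D : ℂ) ^ 2 * L.weierstrassP ((k : ℂ) * qtor L (qom D) 1 D 0 1)) (fun k hk => by
      rw [Finset.mem_Ico] at hk
      exact hF k hk.1 hk.2)).neg
  have hcard : ((Finset.Ico 1 D).card : ℝ) * R1 ≤ (D : ℝ) * R1 := by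
    refine mul_le_mul_of_nonneg_right ?_ hR1pos
    rw [Nat.card_Ico]
    exact_mod_cast Nat.sub_le D 1
  obtain ⟨r0, hr0⟩ : ∃ r0 : ℕ, r0 = 6 * D ^ 3 * ρ + D + ρ := ⟨_, rfl⟩
  have hb1 : R0 ≤ (2 : ℝ) ^ r0 := pow_le_pow_right₀ (by norm_num) (by omega)
  have hb2 : (D : ℝ) * R1 ≤ (2 : ℝ) ^ r0 := by
    have h1 : (D : ℝ) ≤ 2 ^ D := by exact_mod_cast (Nat.lt_two_pow_self (n := D)).le
    have h2 : R1 = 2 ^ (ρ * (6 * D ^ 3)) := by rw [hR1, hR0def, ← pow_mul]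
    calc (D : ℝ) * R1 ≤ 2 ^ D * 2 ^ (ρ * (6 * D ^ 3)) := by
          rw [h2]
          exact mul_le_mul_of_nonneg_right h1 (by positivity)
      _ = 2 ^ (D + ρ * (6 * D ^ 3)) := by rw [← pow_add]
      _ ≤ 2 ^ r0 := by
          apply pow_le_pow_right₀ (by norm_num)
          rw [hr0]
          have : ρ * (6 * D ^ 3) = 6 * D ^ 3 * ρ := by ring
          omega
  have hsC : 1 ≤ s ^ C := Nat.one_le_pow _ _ (by omega)
  have hDs : D ^ 3 ≤ s ^ 3 := Nat.pow_le_pow_left (by omega) 3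
  refine ⟨L, F, r0, ⟨hL2, hFd, hR0.trans hb1,
    hA2.mono hle hb1, hA3.mono hle hb1, _,
    hu.mono le_rfl (hcard.trans hb2), ?_⟩, ?_, ?_⟩
  · -- the identity
    have h1 := qE2 L hω hL2 (a := 1) (d := D) (b := 0) le_rfl hD isCoprime_one_left
    have h2 : qsig (qom D) 1 D 0 = qom D / (D : ℂ) := by
      unfold qsig
      push_cast
      rw [one_mul, add_zero]
    rw [h2, ra_E2 hD] at h1
    have h3 : qS L (qom D) 1 D 0 1 =
        ∑ k ∈ Finset.Ico 1 D, L.weierstrassP ((k : ℂ) * qtor L (qom D) 1 D 0 1) := by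
      unfold qS
      rw [one_mul]
      refine Finset.sum_congr rfl fun k _ => ?_
      rw [pow_one, qtor_mul]
    rw [h3] at h1
    push_cast at h1
    rw [← Finset.mul_sum]
    have him : ((qom D).im : ℂ) ≠ 0 := by exact_mod_cast hω.ne'
    have hsq : ((qom D).im : ℂ) ^ 2 = (D : ℂ) := by
      rw [qom_im, ← Complex.ofReal_pow, Real.sq_sqrt (Nat.cast_nonneg D)]
      push_cast
      rfl
    have h4 : (3 : ℂ) / ((Real.pi : ℂ) * ((qom D).im : ℂ)) * (D : ℂ) =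
        3 * ((qom D).im : ℂ) / (Real.pi : ℂ) := by
      rw [← hsq]
      field_simp
    set S := ∑ k ∈ Finset.Ico 1 D, L.weierstrassP ((k : ℂ) * qtor L (qom D) 1 D 0 1)
    linear_combination (-(D : ℂ) ^ 2) * h1 - 2 * (D : ℂ) ^ 2 * h4
  · have h1 : Module.finrank ℚ F0 ≤ 2 * s ^ C := hFr.trans (hW1d.trans (Nat.mul_le_mul_left _ hWd))
    calc Module.finrank ℚ F ≤ D ^ 3 * Module.finrank ℚ F0 := hrank
      _ ≤ s ^ 3 * (s * s ^ C) := by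
          refine Nat.mul_le_mul hDs (h1.trans (Nat.mul_le_mul_right _ hs2))
      _ = s ^ (C + 4) := by ring
      _ ≤ s ^ (C + 20) := Nat.pow_le_pow_right (by omega) (by omega)
  · have hρ' : ρ ≤ 50 * s ^ C := by omega
    have h64 : 6 * 50 + 51 ≤ s ^ 9 := by
      calc 6 * 50 + 51 ≤ 2 ^ 9 := by norm_num
        _ ≤ s ^ 9 := Nat.pow_le_pow_left hs2 9
    have h3 : 1 ≤ s ^ 3 := Nat.one_le_pow _ _ (by omega)
    have hD3 : D ≤ s ^ 3 * s ^ C := by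
      calc D ≤ s := by omega
        _ = s ^ 1 := (pow_one s).symm
        _ ≤ s ^ 3 := Nat.pow_le_pow_right (by omega) (by norm_num)
        _ ≤ s ^ 3 * s ^ C := Nat.le_mul_of_pos_right _ (by omega)
    have hp : ρ ≤ 50 * (s ^ 3 * s ^ C) := hρ'.trans (Nat.mul_le_mul_left _
      (Nat.le_mul_of_pos_left _ (by omega)))
    calc r0 = 6 * D ^ 3 * ρ + D + ρ := hr0
      _ ≤ 6 * s ^ 3 * (50 * s ^ C) + s ^ 3 * s ^ C + 50 * (s ^ 3 * s ^ C) := by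
          refine Nat.add_le_add (Nat.add_le_add (Nat.mul_le_mul (Nat.mul_le_mul_left _ hDs) hρ')
            hD3) hp
      _ = (6 * 50 + 51) * (s ^ 3 * s ^ C) := by ring
      _ ≤ s ^ 9 * (s ^ 3 * s ^ C) := Nat.mul_le_mul_right _ h64
      _ = s ^ (C + 12) := by ring
      _ ≤ s ^ (C + 20) := Nat.pow_le_pow_right (by omega) (by omega)

end Pool.Agent.Lib.MP5e
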