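import Pool.Agent.Lib.MP_5e64e7_nt.RDefs

set_option autoImplicit false

/-!
# R.CLR : clearing denominators of integer polynomials at rational points (about 120 lines)

`q = ∏ c_l`. For a monomial `s` with `|s| = ∑ s_l ≤ e`: `(∏ (a_l/c_l)^(s_l)) q^e = ∏ a_l^(s_l) · (q^e / ∏ c_l^(s_l))`, and
`∏ c_l^(s_l)` divides `∏ c_l^e = q^e` (`s_l ≤ |s| ≤ e`): the quotient is `∏ c_l^(e - s_l)`. So
`P(a/c) q^e = p` with the integer `p = ∑ coeff_s ∏ a_l^(s_l) ∏ c_l^(e - s_l)`. Size: every term is at most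
`|coeff_s| B^(e m) B^(e m)`, so `|p| ≤ H B^(2 e m) ≤ B^(H + 2 e m)`, `H = ∑ |coeff_s|` (`H ≤ 2^H ≤ B^H`).
(`MvPolynomial.aeval_def`, `MvPolynomial.eval₂_eq'`, `MvPolynomial.le_totalDegree`.)
The rational version gives `rD`: `d(a/c) q^(2 deg d)` is an integer, `rD` its absolute value if it is positive; it is
positive because its value in `ℂ` is a positive real number times `q^..` (`hpos`; the value at a rational point is real).
-/

noncomputable section

namespace Pool.Agent.Lib.MP5e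

open Polynomial Topology

private theorem clr_le {m : ℕ} (P : MvPolynomial (Fin m) ℤ) (e : ℕ) (he : P.totalDegree ≤ e)
    (s : Fin m →₀ ℕ) (hs : s ∈ P.support) (l : Fin m) : s l ≤ e := by
  have h1 := MvPolynomial.le_totalDegree hs
  by_cases h0 : s l = 0
  · omega
  · have hl : l ∈ s.support := Finsupp.mem_support_iff.2 h0
    have h2 : s l ≤ s.sum fun _ e => e :=
      Finset.single_le_sum (f := fun i => s i) (fun _ _ => Nat.zero_le _) hl
    omega

private theorem clr_eq {K : Type*} [Field K] [CharZero K] {m : ℕ} (P : MvPolynomial (Fin m) ℤ) (e : ℕ)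
    (he : P.totalDegree ≤ e) (a : Fin m → ℤ) (c : Fin m → ℕ) (hc : ∀ l, 1 ≤ c l) :
    MvPolynomial.aeval (fun l => (a l : K) / (c l : K)) P * ((∏ l, c l : ℕ) : K) ^ e =
      ((∑ s ∈ P.support, P.coeff s * ∏ l, (a l ^ s l * (c l : ℤ) ^ (e - s l)) : ℤ) : K) := by
  rw [MvPolynomial.aeval_def, MvPolynomial.eval₂_eq', Finset.sum_mul, Int.cast_sum]
  refine Finset.sum_congr rfl fun s hs => ?_
  rw [Nat.cast_prod, ← Finset.prod_pow, mul_assoc, ← Finset.prod_mul_distrib, Int.cast_mul,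
    Int.cast_prod]
  have h1 : (algebraMap ℤ K) (MvPolynomial.coeff s P) = ((MvPolynomial.coeff s P : ℤ) : K) := by
    simp
  rw [h1]
  congr 1
  refine Finset.prod_congr rfl fun l _ => ?_
  have hle := clr_le P e he s hs l
  have hc0 : (c l : K) ≠ 0 := by
    have := hc l
    exact_mod_cast (by omega : c l ≠ 0)
  obtain ⟨t, ht⟩ := Nat.exists_eq_add_of_le hle
  rw [ht, Nat.add_sub_cancel_left, div_pow, pow_add]
  push_cast
  field_simp

private theorem clr_abs {m : ℕ} (P : MvPolynomial (Fin m) ℤ) (e : ℕ)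
    (he : P.totalDegree ≤ e) (B : ℕ) (a : Fin m → ℤ) (c : Fin m → ℕ) (hB : RHgt B a c) :
    |∑ s ∈ P.support, P.coeff s * ∏ l, (a l ^ s l * (c l : ℤ) ^ (e - s l))| ≤
      (B : ℤ) ^ ((∑ s ∈ P.support, (P.coeff s).natAbs) + 2 * e * m) := by
  have hB1 : (1 : ℤ) ≤ (B : ℤ) := by
    have := hB.1
    exact_mod_cast (by omega : 1 ≤ B)
  have hprod : ∀ s ∈ P.support, |∏ l, (a l ^ s l * (c l : ℤ) ^ (e - s l))| ≤ (B : ℤ) ^ (2 * e * m) := by
    intro s hs
    rw [Finset.abs_prod]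
    calc ∏ l, |a l ^ s l * (c l : ℤ) ^ (e - s l)| ≤ ∏ _l : Fin m, (B : ℤ) ^ (2 * e) := by
          refine Finset.prod_le_prod (fun _ _ => abs_nonneg _) fun l _ => ?_
          have hle := clr_le P e he s hs l
          obtain ⟨h1, h2, h3⟩ := hB.2 l
          have h2' : (c l : ℤ) ≤ (B : ℤ) := by exact_mod_cast h2
          have hc0 : (0 : ℤ) ≤ (c l : ℤ) := by positivity
          rw [abs_mul, abs_pow, abs_pow, abs_of_nonneg hc0]
          calc |a l| ^ s l * (c l : ℤ) ^ (e - s l) ≤ (B : ℤ) ^ s l * (B : ℤ) ^ (e - s l) :=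
                mul_le_mul (pow_le_pow_left₀ (abs_nonneg _) h3 _) (pow_le_pow_left₀ hc0 h2' _)
                  (by positivity) (by positivity)
            _ = (B : ℤ) ^ e := by rw [← pow_add, Nat.add_sub_cancel' hle]
            _ ≤ (B : ℤ) ^ (2 * e) := pow_le_pow_right₀ hB1 (by omega)
      _ = (B : ℤ) ^ (2 * e * m) := by
          rw [Finset.prod_const, Finset.card_univ, Fintype.card_fin, ← pow_mul]
  calc |∑ s ∈ P.support, P.coeff s * ∏ l, (a l ^ s l * (c l : ℤ) ^ (e - s l))|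
      ≤ ∑ s ∈ P.support, |P.coeff s * ∏ l, (a l ^ s l * (c l : ℤ) ^ (e - s l))| :=
        Finset.abs_sum_le_sum_abs _ _
    _ ≤ ∑ s ∈ P.support, ((P.coeff s).natAbs : ℤ) * (B : ℤ) ^ (2 * e * m) := by
        refine Finset.sum_le_sum fun s hs => ?_
        rw [abs_mul, Int.abs_eq_natAbs (P.coeff s)]
        exact mul_le_mul_of_nonneg_left (hprod s hs) (by positivity)
    _ = ((∑ s ∈ P.support, (P.coeff s).natAbs : ℕ) : ℤ) * (B : ℤ) ^ (2 * e * m) := by
        rw [← Finset.sum_mul, Nat.cast_sum]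
    _ ≤ (B : ℤ) ^ (∑ s ∈ P.support, (P.coeff s).natAbs) * (B : ℤ) ^ (2 * e * m) := by
        refine mul_le_mul_of_nonneg_right ?_ (by positivity)
        have h4 : ∀ H : ℕ, (H : ℤ) ≤ (B : ℤ) ^ H := by
          intro H
          have h5 : H < B ^ H := Nat.lt_pow_self (by have := hB.1; omega)
          exact_mod_cast h5.le
        exact h4 _
    _ = (B : ℤ) ^ ((∑ s ∈ P.support, (P.coeff s).natAbs) + 2 * e * m) := by rw [pow_add]

theorem rclr {m : ℕ} (P : MvPolynomial (Fin m) ℤ) (e : ℕ) (he : P.totalDegree ≤ e) :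
    ∃ h : ℕ, ∀ (B : ℕ) (a : Fin m → ℤ) (c : Fin m → ℕ), RHgt B a c →
      ∃ p : ℤ, |p| ≤ (B : ℤ) ^ h ∧
        MvPolynomial.aeval (fun l => (a l : ℚ) / (c l : ℚ)) P * ((∏ l, c l : ℕ) : ℚ) ^ e = (p : ℚ) ∧
        rev P (rpt a c) * ((∏ l, c l : ℕ) : ℂ) ^ e = (p : ℂ) := by
  refine ⟨(∑ s ∈ P.support, (P.coeff s).natAbs) + 2 * e * m, ?_⟩
  intro B a c hB
  refine ⟨∑ s ∈ P.support, P.coeff s * ∏ l, (a l ^ s l * (c l : ℤ) ^ (e - s l)),
    clr_abs P e he B a c hB, ?_, ?_⟩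
  · exact clr_eq P e he a c fun l => (hB.2 l).1
  · exact clr_eq P e he a c fun l => (hB.2 l).1

theorem rD_spec {m : ℕ} (d : MvPolynomial (Fin m) ℤ) :
    ∃ h : ℕ, ∀ (B : ℕ) (a : Fin m → ℤ) (c : Fin m → ℕ), RHgt B a c →
      0 < (rev d (rpt a c)).re →
      1 ≤ rD d a c ∧ rD d a c ≤ B ^ h ∧
        rev d (rpt a c) * ((∏ l, c l : ℕ) : ℂ) ^ (2 * d.totalDegree) = (rD d a c : ℂ) := by
  obtain ⟨h, H⟩ := rclr d (2 * d.totalDegree) (by omega)
  refine ⟨h, ?_⟩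
  intro B a c hB hpos
  obtain ⟨p, hp1, hp2, hp3⟩ := H B a c hB
  have hrD : rD d a c = p.toNat := by
    unfold rD
    rw [hp2, Rat.num_intCast]
  have hq : 0 < ∏ l, c l := Finset.prod_pos fun l _ => Nat.lt_of_lt_of_le Nat.zero_lt_one (hB.2 l).1
  have hre := congrArg Complex.re hp3
  have h1 : ((∏ l, c l : ℕ) : ℂ) ^ (2 * d.totalDegree) =
      (((((∏ l, c l : ℕ) : ℝ) ^ (2 * d.totalDegree) : ℝ)) : ℂ) := by
    push_cast
    rfl
  rw [h1, Complex.re_mul_ofReal, Complex.intCast_re] at hre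
  have hp0 : (0 : ℝ) < (p : ℝ) := by
    rw [← hre]
    have h2 : (0 : ℝ) < ((∏ l, c l : ℕ) : ℝ) := by exact_mod_cast hq
    positivity
  have hp0' : 0 < p := by exact_mod_cast hp0
  have hcast : ((p.toNat : ℕ) : ℤ) = p := Int.toNat_of_nonneg hp0'.le
  rw [hrD]
  refine ⟨by omega, ?_, ?_⟩
  · have h3 : ((p.toNat : ℕ) : ℤ) ≤ (B : ℤ) ^ h := by
      rw [hcast]
      exact (le_abs_self p).trans hp1
    exact_mod_cast h3
  · rw [hp3]
    have h4 : ((p.toNat : ℕ) : ℂ) = (((p.toNat : ℕ) : ℤ) : ℂ) := by push_cast; rfl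
    rw [h4, hcast]

end Pool.Agent.Lib.MP5e
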