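import Pool.Agent.Lib.MP_5e64e7_nt.QDefs

set_option autoImplicit false

/-!
# MP_5e64e7_nt, fourth theorem (all points quadratic over `ℚ(w)`, moving discriminants) : definitions (helper16, helper64)

`w = (w₀, …, w_{m-1})` real numbers, hierarchically super-approximable by rational numbers (`QHier`). The points
`z_k = (P_k(w) + Q_k(w) √(-d_k(w)))/R_k(w) ∈ ℍ`, `d_k, P_k, Q_k, R_k` integer polynomials, `d_k(w) > 0`: all the points of
the upper half plane of degree `2` over `ℚ(w)`. At a rational point `x` near `w` the point `z_k(x)` is quadratic, with a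
discriminant of size polynomial in the height of `x`, and `j(z_k(x))`, `κ(z_k(x)) = (j'' - (i/Im z) j')/j'²` and
`j'(z_k(x))/j'(z_l(x))` for `d_k = d_l` are algebraic of polynomially bounded degree and log height. So the numbers
`w_l, j(z_k), κ(z_k), j'(z_k)/j'(z_{rep k})` are algebraically independent as soon as the `z_k` are.
-/

noncomputable section

namespace Pool.Agent.Lib.MP5e

open Polynomial Topology

/-- the data of a point `z = (P(w) + Q(w) √(-d(w)))/R(w)` -/
structure RF (m : ℕ) where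
  d : MvPolynomial (Fin m) ℤ
  P : MvPolynomial (Fin m) ℤ
  Q : MvPolynomial (Fin m) ℤ
  R : MvPolynomial (Fin m) ℤ

/-- value of an integer polynomial at a complex point -/
def rev {m : ℕ} (P : MvPolynomial (Fin m) ℤ) (x : Fin m → ℂ) : ℂ := MvPolynomial.aeval x P

/-- the branch of `√d` which is positive where `d` is positive -/
def rs {m : ℕ} (f : RF m) (x : Fin m → ℂ) : ℂ := rev f.d x ^ ((1 : ℂ) / 2)

/-- the point -/
def rz {m : ℕ} (f : RF m) (x : Fin m → ℂ) : ℂ :=
  (rev f.P x + rev f.Q x * (Complex.I * rs f x)) / rev f.R x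

/-- the analytic continuation of its imaginary part -/
def ry {m : ℕ} (f : RF m) (x : Fin m → ℂ) : ℂ := rev f.Q x * rs f x / rev f.R x

/-- `κ = (j'' - (i/y) j')/j'²` -/
def rkap (z y : ℂ) : ℂ :=
  (deriv (deriv jf) z - Complex.I / y * deriv jf z) / deriv jf z ^ 2

/-- the classes: `rep k` is the representative of the class of `k`, the points of a class have the same `d` -/
def RRep {m n : ℕ} (f : Fin n → RF m) (rep : Fin n → Fin n) : Prop :=
  ∀ k, rep (rep k) = rep k ∧ (f (rep k)).d = (f k).d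

/-- the numbers `x_l, j(z_k), κ(z_k)`, and `j'(z_k)/j'(z_{rep k})` for `rep k ≠ k` -/
def rfam {m n : ℕ} (f : Fin n → RF m) (rep : Fin n → Fin n) (x : Fin m → ℂ) :
    Fin m ⊕ ((Fin n × Fin 2) ⊕ {k : Fin n // rep k ≠ k}) → ℂ :=
  Sum.elim x (Sum.elim
    (fun p => ![jf (rz (f p.1) x), rkap (rz (f p.1) x) (ry (f p.1) x)] p.2)
    (fun k => deriv jf (rz (f k.1) x) / deriv jf (rz (f (rep k.1)) x)))

/-- the conditions at a point near which everything is analytic -/
def RGood {m : ℕ} (f : RF m) (x : Fin m → ℂ) : Prop :=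
  0 < (rev f.d x).re ∧ 0 < (rz f x).im

/-- the rational point `(a_l/c_l)` -/
def rpt {m : ℕ} (a : Fin m → ℤ) (c : Fin m → ℕ) : Fin m → ℂ := fun l => (a l : ℂ) / (c l : ℂ)

/-- the heights are at most `B` -/
def RHgt {m : ℕ} (B : ℕ) (a : Fin m → ℤ) (c : Fin m → ℕ) : Prop :=
  2 ≤ B ∧ ∀ l, 1 ≤ c l ∧ c l ≤ B ∧ |a l| ≤ (B : ℤ)

/-- the integer `d(a/c) (∏ c_l)^(2 deg d)`; `√(-d(a/c)) = √(-rD)/(∏ c_l)^(deg d)` -/
def rD {m : ℕ} (d : MvPolynomial (Fin m) ℤ) (a : Fin m → ℤ) (c : Fin m → ℕ) : ℕ :=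
  (MvPolynomial.aeval (fun l => (a l : ℚ) / (c l : ℚ)) d *
    ((∏ l, c l : ℕ) : ℚ) ^ (2 * d.totalDegree)).num.toNat

/-- numbers with a denominator, both of degree and log height at most `N` -/
def RAlg (K : IntermediateField ℚ ℂ) (N : ℕ) (v : ℂ) : Prop :=
  ∃ dl : ℂ, dl ≠ 0 ∧ AI K ((2 : ℝ) ^ N) dl ∧ AI K ((2 : ℝ) ^ N) (dl * v)

end Pool.Agent.Lib.MP5e
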