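import Pool.Agent.Lib.MP_5e64e7_nt.RDefs

set_option autoImplicit false

/-!
# R.DER : derivations of `ℂ` (about 150 lines; only Mathlib)

`rder`: let `s ⊇ range w` be a transcendence basis of `ℂ/ℚ` (`AlgebraicIndependent.exists_...superset`, see
`exists_isTranscendenceBasis_superset` or similar), `A = Algebra.adjoin ℚ s`, `K = IntermediateField.adjoin ℚ s`. `A → K` is a
localization and `K → ℂ` is algebraic, separable (characteristic `0`), so `A → ℂ` is formally etale
(`Algebra.FormallyEtale.of_isLocalization`, `Algebra.FormallyEtale.of_isSeparable`, `Algebra.FormallyEtale.comp`; see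
`Mathlib/RingTheory/Smooth/Field.lean`, `scoped IntermediateField.algebraAdjoinAdjoin`). `A ≃ MvPolynomial s ℚ`
(`AlgebraicIndependent.aevalEquiv`), so there is a derivation `D₀ : A → ℂ` with arbitrary values on `s`
(`MvPolynomial.mkDerivation`), chosen with `D₀ (w l) = u l` (`w` is injective). Extend it with
`KaehlerDifferential.tensorKaehlerEquivOfFormallyEtale ℚ A ℂ` and its lemma `..._symm_D_algebraMap`: the derivation
`D₀` gives a linear map `Ω[A/ℚ] → ℂ` (`Derivation.liftKaehlerDifferential`), its base change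
`ℂ ⊗ Ω[A/ℚ] → ℂ` (`LinearMap.liftBaseChange`), compose with the inverse equivalence and with `KaehlerDifferential.D ℚ ℂ`.
(Other route: `ℂ` is formally smooth over `MvPolynomial (Fin m) ℚ` and lift `id` to `TrivSqZeroExt ℂ ℂ`; or extend by Zorn.)

`rconst`: `K = {x | D x = 0}` is a subfield (Leibniz rule, `Derivation.leibniz_inv`) containing `ℚ`. Relatively
algebraically closed: `x` algebraic over `K`, `p = minpoly K x`, `0 = D (p(x)) = p'(x) D x` because `D` vanishes on `K`
(`D` is a derivation over `K`; `Derivation.map_aeval`; or write the sum out), `p'(x) ≠ 0` (separable, characteristic `0`).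
-/

noncomputable section

namespace Pool.Agent.Lib.MP5e

theorem rder {m : ℕ} (w : Fin m → ℂ) (hw : AlgebraicIndependent ℚ w) (u : Fin m → ℂ) :
    ∃ D : Derivation ℚ ℂ ℂ, ∀ l, D (w l) = u l := by
  classical
  have hinj : Function.Injective w := hw.injective
  obtain ⟨t, hwt, ht⟩ := exists_isTranscendenceBasis_superset
    (s := Set.range w) (R := ℚ) (A := ℂ) hw.to_subtype_range
  let S := MvPolynomial t ℚ
  let A := Algebra.adjoin ℚ (Set.range ((↑) : t → ℂ))
  let K := IntermediateField.adjoin ℚ (Set.range ((↑) : t → ℂ))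
  let e : S ≃ₐ[ℚ] A := ht.1.aevalEquiv
  open scoped IntermediateField.algebraAdjoinAdjoin in
  let iSA : Algebra S A := e.toRingEquiv.toRingHom.toAlgebra
  let iSK : Algebra S K := ((algebraMap A K).comp e.toRingEquiv.toRingHom).toAlgebra
  let iSC : Algebra S ℂ := (MvPolynomial.aeval ((↑) : t → ℂ) : S →ₐ[ℚ] ℂ).toRingHom.toAlgebra
  have t1 : IsScalarTower S A K := IsScalarTower.of_algebraMap_eq' rfl
  have t2 : IsScalarTower S K ℂ := IsScalarTower.of_algebraMap_eq (fun x => by
    change (MvPolynomial.aeval ((↑) : t → ℂ)) x = ((algebraMap A K (e x) : K) : ℂ)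
    exact (ht.1.algebraMap_aevalEquiv x).symm)
  have t3 : IsScalarTower ℚ S ℂ := IsScalarTower.of_algebraMap_eq (fun x => by
    exact ((MvPolynomial.aeval ((↑) : t → ℂ) : S →ₐ[ℚ] ℂ).commutes x).symm)
  have f1 : Algebra.FormallyEtale S A :=
    Algebra.FormallyEtale.of_equiv (A := S) (AlgEquiv.ofBijective (Algebra.ofId S A) e.bijective)
  have f2 : Algebra.FormallyEtale A K := Algebra.FormallyEtale.of_isLocalization (nonZeroDivisors A)
  have f3 : Algebra.FormallyEtale S K := Algebra.FormallyEtale.comp S A K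
  have alg : Algebra.IsAlgebraic K ℂ := ht.isAlgebraic_field
  have sep : Algebra.IsSeparable K ℂ := inferInstance
  have f4 : Algebra.FormallyEtale K ℂ := Algebra.FormallyEtale.of_isSeparable K ℂ
  have f5 : Algebra.FormallyEtale S ℂ := Algebra.FormallyEtale.comp S K ℂ
  let val : t → ℂ := fun x => if h : ∃ l, w l = x then u h.choose else 0
  let D₀ : Derivation ℚ S ℂ := MvPolynomial.mkDerivation ℚ val
  let L : TensorProduct S ℂ (Ω[S⁄ℚ]) →ₗ[ℂ] ℂ := LinearMap.liftBaseChange ℂ D₀.liftKaehlerDifferential
  let D : Derivation ℚ ℂ ℂ :=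
    (L ∘ₗ (KaehlerDifferential.tensorKaehlerEquivOfFormallyEtale ℚ S ℂ).symm.toLinearMap).compDer
      (KaehlerDifferential.D ℚ ℂ)
  refine ⟨D, fun l => ?_⟩
  have hmem : w l ∈ t := hwt ⟨l, rfl⟩
  have h1 : w l = algebraMap S ℂ (MvPolynomial.X ⟨w l, hmem⟩) := by
    change _ = (MvPolynomial.aeval ((↑) : t → ℂ)) (MvPolynomial.X ⟨w l, hmem⟩)
    simp
  have h2 : D (algebraMap S ℂ (MvPolynomial.X ⟨w l, hmem⟩)) = val ⟨w l, hmem⟩ := by
    change L ((KaehlerDifferential.tensorKaehlerEquivOfFormallyEtale ℚ S ℂ).symm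
      (KaehlerDifferential.D ℚ ℂ (algebraMap S ℂ (MvPolynomial.X ⟨w l, hmem⟩)))) = _
    rw [KaehlerDifferential.tensorKaehlerEquivOfFormallyEtale_symm_D_algebraMap]
    simp only [L, D₀, LinearMap.liftBaseChange_tmul, one_smul, Derivation.liftKaehlerDifferential_comp_D]
    exact MvPolynomial.mkDerivation_X ℚ val _
  rw [h1, h2]
  have hex : ∃ l', w l' = w l := ⟨l, rfl⟩
  change (if h : ∃ l', w l' = w l then u h.choose else 0) = u l
  rw [dif_pos hex]
  exact congrArg u (hinj hex.choose_spec)

theorem rconst (D : Derivation ℚ ℂ ℂ) :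
    ∃ K : IntermediateField ℚ ℂ, QCl K ∧ ∀ x, x ∈ K ↔ D x = 0 := by
  let K : IntermediateField ℚ ℂ :=
    { carrier := {x | D x = 0}
      mul_mem' := by
        intro a b ha hb
        have ha' : D a = 0 := ha
        have hb' : D b = 0 := hb
        change D (a * b) = 0
        rw [D.leibniz, ha', hb']; simp
      one_mem' := by change D 1 = 0; simp
      add_mem' := by
        intro a b ha hb
        have ha' : D a = 0 := ha
        have hb' : D b = 0 := hb
        change D (a + b) = 0
        rw [map_add, ha', hb', add_zero]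
      zero_mem' := by change D 0 = 0; simp
      algebraMap_mem' := by intro r; change D (algebraMap ℚ ℂ r) = 0; exact D.map_algebraMap r
      inv_mem' := by
        intro a ha
        have ha' : D a = 0 := ha
        change D a⁻¹ = 0
        rw [D.leibniz_inv, ha']; simp }
  refine ⟨K, ?_, fun x => Iff.rfl⟩
  intro x hx
  let D' : Derivation K ℂ ℂ :=
    { toFun := D
      map_add' := fun a b => map_add D a b
      map_smul' := by
        intro k a
        have hk : D (k : ℂ) = 0 := k.2
        change D ((k : ℂ) * a) = (k : ℂ) * D a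
        rw [D.leibniz, hk]; simp
      map_one_eq_zero' := D.map_one_eq_zero
      leibniz' := fun a b => D.leibniz a b }
  have h1 : D' (Polynomial.aeval x (minpoly K x)) =
      Polynomial.aeval x (Polynomial.derivative (minpoly K x)) • D' x := D'.map_aeval _ _
  rw [minpoly.aeval, map_zero] at h1
  have hsep : (minpoly K x).Separable := (minpoly.irreducible hx.isIntegral).separable
  have hne : Polynomial.aeval x (Polynomial.derivative (minpoly K x)) ≠ 0 :=
    hsep.aeval_derivative_ne_zero (minpoly.aeval K x)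
  rcases smul_eq_zero.1 h1.symm with h | h
  · exact absurd h hne
  · exact h

end Pool.Agent.Lib.MP5e
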