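import Pool.Agent.Lib.MP_5e64e7_nt.FuncA

set_option autoImplicit false

/-!
# R.GEN : generic points (about 200 lines)

`rgen_zero`: `Q = 0`. It is enough to show that `Q` vanishes at all `e : (Fin n × Fin 4) ⊕ τ → ℂ`
(`MvPolynomial.funext`). `O` contains a product of open sets: `U_k ∋ ζ_k` (`k : Fin n`, in the upper half plane) and `V_t`
(`t : τ`), nonempty. Claim, by induction on the finite set `s ⊆ Fin n`: `Q` vanishes at all `e` with
`e (inl (k, ·)) = J4 ζ_k`, `ζ_k ∈ U_k`, for `k ∉ s` (and arbitrary values for `k ∈ s`) and `e (inr t) ∈ V_t` for all `t`.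
Step: substitute all the coordinates except `(k, 0..3)` (`MvPolynomial.aeval` to `MvPolynomial (Fin 4) ℂ`), the
resulting polynomial vanishes at `J4 ζ` for `ζ ∈ U_k`, so it is `0` by `J_indep` (`FuncA.lean`). The same induction for the
`t`'s (a polynomial in one variable with infinitely many zeros vanishes), or `MvPolynomial.funext_set`.

`rgen`: `X = (Fin n → ℂ) × (τ → ℂ)` is a complete metric space, so a Baire space. Let
`H = {p | ∀ k, 0 < Im (p.1 k)}` (open). For a nonzero `Q : MvPolynomial _ ℚ` (countably many) let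
`U_Q = (closure H)ᶜ ∪ {p ∈ H | Q(J4 (p.1 k), p.2) ≠ 0}`: open (`J4_analyticAt` gives continuity on `H`), dense (`rgen_zero`
for `Q` mapped to `ℂ`: an open set meeting the closure of `H` meets `H` in a nonempty open set). `dense_iInter_of_isOpen`:
there is `p ∈ O` in all `U_Q`; `p ∈ H`, so `Q(p) ≠ 0` for all nonzero `Q`: algebraic independence
(`algebraicIndependent_iff`).
-/

noncomputable section

namespace Pool.Agent.Lib.MP5e

open Polynomial Topology

/-- the numbers `J4 (p.1 k)` and `p.2 t` -/
def rgp {n : ℕ} {τ : Type} (p : (Fin n → ℂ) × (τ → ℂ)) : (Fin n × Fin 4) ⊕ τ → ℂ :=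
  Sum.elim (fun i => J4 (p.1 i.1) i.2) p.2

private lemma rg_eval {σ : Type} (Q : MvPolynomial σ ℂ) (g : σ → MvPolynomial (Fin 4) ℂ)
    (v : Fin 4 → ℂ) : MvPolynomial.eval v (MvPolynomial.aeval g Q) =
      MvPolynomial.eval (fun x => MvPolynomial.eval v (g x)) Q := by
  induction Q using MvPolynomial.induction_on with
  | C a => simp
  | add p q hp hq => simp only [map_add, hp, hq]
  | mul_X p i hp => simp only [map_mul, MvPolynomial.aeval_X, hp, MvPolynomial.eval_X]

private lemma rg_eval1 {σ : Type} (Q : MvPolynomial σ ℂ) (g : σ → ℂ[X])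
    (v : ℂ) : Polynomial.eval v (MvPolynomial.aeval g Q) =
      MvPolynomial.eval (fun x => Polynomial.eval v (g x)) Q := by
  induction Q using MvPolynomial.induction_on with
  | C a => simp
  | add p q hp hq => simp only [map_add, Polynomial.eval_add, hp, hq]
  | mul_X p i hp =>
    simp only [map_mul, MvPolynomial.aeval_X, Polynomial.eval_mul, hp, MvPolynomial.eval_X]

theorem rgen_zero {n : ℕ} {τ : Type} [Fintype τ] (O : Set ((Fin n → ℂ) × (τ → ℂ)))
    (hO : IsOpen O) (hne : O.Nonempty) (him : ∀ p ∈ O, ∀ k, 0 < (p.1 k).im)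
    (Q : MvPolynomial ((Fin n × Fin 4) ⊕ τ) ℂ) (hQ : ∀ p ∈ O, MvPolynomial.eval (rgp p) Q = 0) :
    Q = 0 := by
  classical
  obtain ⟨p0, hp0⟩ := hne
  obtain ⟨ε, hε, hball⟩ := Metric.isOpen_iff.mp hO p0 hp0
  have hmem : ∀ p : (Fin n → ℂ) × (τ → ℂ), (∀ k, dist (p.1 k) (p0.1 k) < ε) →
      (∀ t, dist (p.2 t) (p0.2 t) < ε) → p ∈ O := by
    intro p h1 h2
    apply hball
    rw [Metric.mem_ball, Prod.dist_eq, max_lt_iff]
    exact ⟨(dist_pi_lt_iff hε).mpr h1, (dist_pi_lt_iff hε).mpr h2⟩
  have him' : ∀ k, Metric.ball (p0.1 k) ε ⊆ {w : ℂ | 0 < w.im} := by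
    intro k ζ hζ
    have h1 := him (Function.update p0.1 k ζ, p0.2) (hmem _ (by
      intro l
      by_cases h : l = k
      · subst h
        simpa using hζ
      · simpa [h] using hε) (by
      intro t
      simpa using hε)) k
    simpa using h1
  have P1 : ∀ s : Finset (Fin n), ∀ e : (Fin n × Fin 4) ⊕ τ → ℂ,
      (∀ k, k ∉ s → ∃ ζ ∈ Metric.ball (p0.1 k) ε, ∀ i, e (Sum.inl (k, i)) = J4 ζ i) →
      (∀ t, dist (e (Sum.inr t)) (p0.2 t) < ε) → MvPolynomial.eval e Q = 0 := by
    intro s
    induction s using Finset.induction_on with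
    | empty =>
      intro e h1 h2
      choose ζ hζ1 hζ2 using fun k => h1 k (Finset.notMem_empty k)
      have h3 : e = rgp (ζ, fun t => e (Sum.inr t)) := by
        funext x
        rcases x with ⟨k, i⟩ | t
        · exact hζ2 k i
        · rfl
      rw [h3]
      exact hQ _ (hmem _ (fun k => hζ1 k) h2)
    | insert k s hk ih =>
      intro e h1 h2
      set g : (Fin n × Fin 4) ⊕ τ → MvPolynomial (Fin 4) ℂ :=
        Sum.elim (fun i => if i.1 = k then MvPolynomial.X i.2 else MvPolynomial.C (e (Sum.inl i)))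
          (fun t => MvPolynomial.C (e (Sum.inr t))) with hg
      have h3 : MvPolynomial.aeval g Q = 0 := by
        apply J_indep _ (Metric.ball (p0.1 k) ε) Metric.isOpen_ball
          ⟨p0.1 k, Metric.mem_ball_self hε⟩ (him' k)
        intro ζ hζ
        rw [rg_eval]
        apply ih
        · intro l hl
          by_cases hlk : l = k
          · subst hlk
            refine ⟨ζ, hζ, fun i => ?_⟩
            simp [hg]
          · obtain ⟨ζ', hζ', h5⟩ := h1 l (by
              rw [Finset.mem_insert]
              tauto)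
            refine ⟨ζ', hζ', fun i => ?_⟩
            simp [hg, hlk, h5 i]
        · intro t
          simpa [hg] using h2 t
      have h4 := rg_eval Q g (fun i => e (Sum.inl (k, i)))
      rw [h3, map_zero] at h4
      rw [h4]
      congr 1
      · congr 1
        funext x
        rcases x with ⟨l, i⟩ | t
        · by_cases hlk : l = k
          · subst hlk
            simp [hg]
          · simp [hg, hlk]
        · simp [hg]
  have P2 : ∀ s : Finset τ, ∀ e : (Fin n × Fin 4) ⊕ τ → ℂ,
      (∀ t, t ∉ s → dist (e (Sum.inr t)) (p0.2 t) < ε) → MvPolynomial.eval e Q = 0 := by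
    intro s
    induction s using Finset.induction_on with
    | empty =>
      intro e h2
      exact P1 Finset.univ e (fun k hk => absurd (Finset.mem_univ k) hk)
        (fun t => h2 t (Finset.notMem_empty t))
    | insert t s ht ih =>
      intro e h2
      set g : (Fin n × Fin 4) ⊕ τ → ℂ[X] :=
        Sum.elim (fun i => Polynomial.C (e (Sum.inl i)))
          (fun t' => if t' = t then Polynomial.X else Polynomial.C (e (Sum.inr t'))) with hg
      have h3 : MvPolynomial.aeval g Q = 0 := by
        apply Polynomial.eq_zero_of_infinite_isRoot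
        have hinf : (Metric.ball (p0.2 t) ε).Infinite :=
          infinite_of_mem_nhds (p0.2 t) (Metric.ball_mem_nhds _ hε)
        refine hinf.mono ?_
        intro v hv
        change Polynomial.eval v _ = 0
        rw [rg_eval1]
        apply ih
        intro t' ht'
        by_cases h : t' = t
        · subst h
          simpa [hg] using hv
        · have := h2 t' (by
            rw [Finset.mem_insert]
            tauto)
          simpa [hg, h] using this
      have h4 := rg_eval1 Q g (e (Sum.inr t))
      rw [h3, Polynomial.eval_zero] at h4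
      rw [h4]
      congr 1
      · congr 1
        funext x
        rcases x with i | t'
        · simp [hg]
        · by_cases h : t' = t
          · subst h
            simp [hg]
          · simp [hg, h]
  apply MvPolynomial.funext
  intro e
  rw [map_zero]
  exact P2 Finset.univ e (fun t ht => absurd (Finset.mem_univ t) ht)

theorem rgen {n : ℕ} {τ : Type} [Fintype τ] (O : Set ((Fin n → ℂ) × (τ → ℂ)))
    (hO : IsOpen O) (hne : O.Nonempty) (him : ∀ p ∈ O, ∀ k, 0 < (p.1 k).im) :
    ∃ p ∈ O, AlgebraicIndependent ℚ (rgp p) := by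
  classical
  set H : Set ((Fin n → ℂ) × (τ → ℂ)) := {p | ∀ k, 0 < (p.1 k).im} with hH
  have hHo : IsOpen H := by
    have : H = ⋂ k, {p : (Fin n → ℂ) × (τ → ℂ) | 0 < (p.1 k).im} := by
      ext p
      simp [hH]
    rw [this]
    apply isOpen_iInter_of_finite
    intro k
    exact isOpen_lt continuous_const (Complex.continuous_im.comp
      ((continuous_apply k).comp continuous_fst))
  have hcont : ∀ Q : MvPolynomial ((Fin n × Fin 4) ⊕ τ) ℂ,
      ContinuousOn (fun p : (Fin n → ℂ) × (τ → ℂ) => MvPolynomial.eval (rgp p) Q) H := by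
    intro Q p hp
    apply ContinuousAt.continuousWithinAt
    induction Q using MvPolynomial.induction_on with
    | C a =>
      simp only [MvPolynomial.eval_C]
      exact continuousAt_const
    | add q r hq hr =>
      simp only [map_add]
      exact hq.add hr
    | mul_X q i hq =>
      simp only [map_mul, MvPolynomial.eval_X]
      refine hq.mul ?_
      rcases i with ⟨k, i⟩ | t
      · have h1 : ContinuousAt (fun u => J4 u i) (p.1 k) := (J4_analyticAt (hp k) i).continuousAt
        have h2 : ContinuousAt (fun p : (Fin n → ℂ) × (τ → ℂ) => p.1 k) p :=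
          ((continuous_apply k).comp continuous_fst).continuousAt
        exact ContinuousAt.comp (f := fun p : (Fin n → ℂ) × (τ → ℂ) => p.1 k) h1 h2
      · exact ((continuous_apply t).comp continuous_snd).continuousAt
  set U : {Q : MvPolynomial ((Fin n × Fin 4) ⊕ τ) ℚ // Q ≠ 0} →
      Set ((Fin n → ℂ) × (τ → ℂ)) := fun Q => (closure H)ᶜ ∪
    (H ∩ (fun p : (Fin n → ℂ) × (τ → ℂ) =>
      MvPolynomial.eval (rgp p) (MvPolynomial.map (algebraMap ℚ ℂ) Q.1)) ⁻¹' {0}ᶜ) with hU
  have hUo : ∀ Q, IsOpen (U Q) := fun Q =>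
    isClosed_closure.isOpen_compl.union
      ((hcont _).isOpen_inter_preimage hHo isClosed_singleton.isOpen_compl)
  have hUd : ∀ Q, Dense (U Q) := by
    intro Q
    rw [dense_iff_inter_open]
    intro W hW hWne
    by_cases hWH : (W ∩ H).Nonempty
    · by_contra hcon
      rw [Set.not_nonempty_iff_eq_empty] at hcon
      apply Q.2
      have h0 : MvPolynomial.map (algebraMap ℚ ℂ) Q.1 = 0 := by
        apply rgen_zero (W ∩ H) (hW.inter hHo) hWH (fun p hp => hp.2)
        intro p hp
        by_contra hne0
        have : p ∈ W ∩ U Q := ⟨hp.1, Or.inr ⟨hp.2, hne0⟩⟩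
        rw [hcon] at this
        exact this
      exact MvPolynomial.map_injective _ (algebraMap ℚ ℂ).injective (by rw [h0, map_zero])
    · obtain ⟨p, hp⟩ := hWne
      refine ⟨p, hp, Or.inl ?_⟩
      intro hcl
      rw [mem_closure_iff] at hcl
      exact hWH (hcl W hW hp)
  have hct0 : Countable (MvPolynomial ((Fin n × Fin 4) ⊕ τ) ℚ) := by
    have h := MvPolynomial.cardinalMk_le_max (σ := ((Fin n × Fin 4) ⊕ τ)) (R := ℚ)
    rw [← Cardinal.mk_le_aleph0_iff]
    exact h.trans (max_le (max_le Cardinal.mk_le_aleph0 Cardinal.mk_le_aleph0) le_rfl)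
  have hd := dense_iInter_of_isOpen hUo hUd
  obtain ⟨p, hpO, hpU⟩ := hd.inter_open_nonempty O hO hne
  refine ⟨p, hpO, ?_⟩
  rw [algebraicIndependent_iff]
  intro P hP
  by_contra hP0
  have h1 := Set.mem_iInter.mp hpU ⟨P, hP0⟩
  rcases h1 with h1 | h1
  · exact h1 (subset_closure (him p hpO))
  · apply h1.2
    change MvPolynomial.eval (rgp p) (MvPolynomial.map (algebraMap ℚ ℂ) P) = 0
    rw [MvPolynomial.eval_map]
    have : MvPolynomial.aeval (rgp p) P = MvPolynomial.eval₂ (algebraMap ℚ ℂ) (rgp p) P :=
      MvPolynomial.aeval_def _ _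
    rw [← this]
    exact hP

end Pool.Agent.Lib.MP5e
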