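import Pool.Agent.Lib.MP_5e64e7_nt.ROpn
import Pool.Agent.Lib.MP_5e64e7_nt.RGen
import Pool.Agent.Lib.MP_5e64e7_nt.RMem
import Pool.Agent.Lib.MP_5e64e7_nt.QExch

set_option autoImplicit false

/-!
# R.FUN : the functions `rfam f rep` are algebraically independent (about 180 lines)

`T` from `qexch w hw (fun k => rz (f k) w) hz ...` (`rz_mem`): `T.card + n = m` and `hcl`. Let
`U = {x | (∀ k, RGood (f k) x) ∧ aeval (rfam f rep x) P = 0} ∈ 𝓝 w` (`rgood_nhds`, `hP`). By `ropn`,
`rPhi f T '' U ∈ 𝓝 (rPhi f T w)`. `O = interior (rPhi f T '' U) ∩ {p | ∀ k, 0 < Im (p.1 k)}` is open and contains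
`rPhi f T w`. By `rgen` there is `p = rPhi f T x`, `x ∈ U`, such that the `4n + card T = m + 3n` numbers `rgp p`, i.e.
`J4 (rz (f k) x) i` and `x_t`, are algebraically independent. In particular `deriv jf (rz (f k) x) ≠ 0` (it is
transcendental: the member `(k, 2)`). Consider the family `y` of the `m + 3n` numbers `rfam f rep x i` and
`deriv jf (rz (f k) x)`, `rep k = k` (index type `(Fin m ⊕ ((Fin n × Fin 2) ⊕ {k // rep k ≠ k})) ⊕ {k // rep k = k}`). Every
relatively algebraically closed `K` containing all the `y` contains all the `rgp p` (`rmem_bwd`), so by `qtrd` there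
is `s` with `card s ≥ m + 3n` such that `y|s` is independent: `s = univ`, so `y` is algebraically independent over `ℚ`, and so
is `rfam f rep x` (`AlgebraicIndependent.comp` with `Sum.inl`). Since `aeval (rfam f rep x) P = 0`, `P = 0` (map `P` to
`ℚ` coefficients, `MvPolynomial.map_injective`).
-/

noncomputable section

namespace Pool.Agent.Lib.MP5e

open Polynomial Topology

theorem rfun {m n : ℕ} (f : Fin n → RF m) (rep : Fin n → Fin n) (hrep : RRep f rep)
    (w : Fin m → ℂ) (hw : AlgebraicIndependent ℚ w) (h : ∀ k, RGood (f k) w)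
    (hz : AlgebraicIndependent ℚ (fun k => rz (f k) w))
    (P : MvPolynomial (Fin m ⊕ ((Fin n × Fin 2) ⊕ {k : Fin n // rep k ≠ k})) ℤ)
    (hP : ∀ᶠ x in 𝓝 w, MvPolynomial.aeval (rfam f rep x) P = 0) : P = 0 := by
  classical
  obtain ⟨T, hT, hcl⟩ := qexch w hw (fun k => rz (f k) w) hz
    (fun K hK hx k => (rz_mem (f k) w K hK hx).1)
  obtain ⟨U, hUdef⟩ : ∃ U : Set (Fin m → ℂ), U = {x | (∀ k, RGood (f k) x) ∧
      MvPolynomial.aeval (rfam f rep x) P = 0} := ⟨_, rfl⟩
  have hU : U ∈ 𝓝 w := by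
    have h1 : ∀ᶠ x in 𝓝 w, ∀ k, RGood (f k) x := by
      rw [Filter.eventually_all]
      exact fun k => rgood_nhds (f k) w (h k)
    rw [hUdef]
    filter_upwards [h1, hP] with x a b
    exact ⟨a, b⟩
  have hop := ropn f w hw h T hT hcl U hU
  have hHo : IsOpen {p : (Fin n → ℂ) × ({l // l ∈ T} → ℂ) | ∀ k, 0 < (p.1 k).im} := by
    have : {p : (Fin n → ℂ) × ({l // l ∈ T} → ℂ) | ∀ k, 0 < (p.1 k).im} =
        ⋂ k, {p : (Fin n → ℂ) × ({l // l ∈ T} → ℂ) | 0 < (p.1 k).im} := by
      ext p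
      simp
    rw [this]
    apply isOpen_iInter_of_finite
    intro k
    exact isOpen_lt continuous_const (Complex.continuous_im.comp
      ((continuous_apply k).comp continuous_fst))
  obtain ⟨p, hp, hpi⟩ := rgen (interior (rPhi f T '' U) ∩
      {p : (Fin n → ℂ) × ({l // l ∈ T} → ℂ) | ∀ k, 0 < (p.1 k).im})
    (isOpen_interior.inter hHo)
    ⟨rPhi f T w, mem_interior_iff_mem_nhds.mpr hop, fun k => (h k).2⟩ (fun p hp => hp.2)
  obtain ⟨x, hxU, rfl⟩ := interior_subset hp.1
  rw [hUdef] at hxU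
  obtain ⟨hxg, hxP⟩ := hxU
  have hjx : ∀ k, deriv jf (rz (f k) x) ≠ 0 := by
    intro k h0
    have h1 := hpi.transcendental (Sum.inl (k, 2))
    apply h1
    change IsAlgebraic ℚ (deriv jf (rz (f k) x))
    rw [h0]
    exact isAlgebraic_zero
  obtain ⟨s, hs1, hs2⟩ := qtrd (κ := (Fin m ⊕ ((Fin n × Fin 2) ⊕ {k : Fin n // rep k ≠ k})) ⊕
      {k : Fin n // rep k = k}) (rgp (rPhi f T x))
    (Sum.elim (rfam f rep x) (fun k => deriv jf (rz (f k.1) x))) hpi (by
    intro K hK hy
    have h1 := rmem_bwd f rep hrep x hjx K hK (fun i => hy (Sum.inl i))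
      (fun k hk => hy (Sum.inr ⟨k, hk⟩))
    rintro (⟨k, i⟩ | t)
    · exact h1.2 k i
    · exact h1.1 t.1)
  have hcard : Fintype.card ((Fin m ⊕ ((Fin n × Fin 2) ⊕ {k : Fin n // rep k ≠ k})) ⊕
      {k : Fin n // rep k = k}) ≤ s.card := by
    refine le_trans (le_of_eq ?_) hs1
    have h1 : Fintype.card {k : Fin n // rep k ≠ k} + Fintype.card {k : Fin n // rep k = k} = n := by
      have h2 := Fintype.card_subtype_compl (fun k : Fin n => rep k = k)
      have h3 := Fintype.card_subtype_le (fun k : Fin n => rep k = k)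
      rw [Fintype.card_fin] at h2 h3
      change Fintype.card {k : Fin n // ¬ rep k = k} + _ = n
      omega
    simp only [Fintype.card_sum, Fintype.card_prod, Fintype.card_fin, Fintype.card_coe]
    omega
  have hsu : s = Finset.univ := by
    apply Finset.eq_univ_of_card
    exact le_antisymm (Finset.card_le_univ s) hcard
  have hind : AlgebraicIndependent ℚ (rfam f rep x) := by
    have h1 := hs2.comp (fun i : Fin m ⊕ ((Fin n × Fin 2) ⊕ {k : Fin n // rep k ≠ k}) =>
      (⟨Sum.inl i, by rw [hsu]; exact Finset.mem_univ _⟩ : {k // k ∈ s})) (by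
      intro i j hij
      exact Sum.inl_injective (congrArg Subtype.val hij))
    exact h1
  have h0 : MvPolynomial.map (algebraMap ℤ ℚ) P = 0 := by
    rw [algebraicIndependent_iff] at hind
    apply hind
    rw [MvPolynomial.aeval_map_algebraMap]
    exact hxP
  exact MvPolynomial.map_injective _ (RingHom.injective_int (algebraMap ℤ ℚ)) (by rw [h0, map_zero])

end Pool.Agent.Lib.MP5e
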