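import Pool.Agent.Lib.MP_5e64e7_nt.RDefs
import Pool.Agent.Lib.MP_5e64e7_nt.OLow
import Pool.Agent.Lib.MP_5e64e7_nt.Approx

set_option autoImplicit false

/-!
# R.LOW : lower bound for the value of an integer polynomial at algebraic numbers (about 150 lines, adaptation of the second
half of the proof of `qapprox` in `QApp.lean`)

For every `i` let `dl_i` be the denominator from `RAlg`. `DL = ∏ dl_i`, `M₀ = 2^(B^C₀)`, `M₁ = M₀^(card ι)` :
`AI K M₁ DL`, `AI K M₁ (DL · v_i)` (`AI_prod`). Then `Rep K 2 M₁ (DL · v_i)` (`AI.rep`), `rep_homog` of `Approx.lean` and the lower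
bound `orep_lower` (`OLow.lean`) exactly as in `qapprox` (there `M₀ = 2^(F1)`; here `F1 = B^(C0+1)`, degree at most
`B^C0`), and `‖DL‖^deg P ≤ M₁^deg P ≤ exp(B^C2)`.
-/

noncomputable section

namespace Pool.Agent.Lib.MP5e

open Polynomial Topology

open Approx in
theorem rlow {ι : Type} [Fintype ι] (P : MvPolynomial ι ℤ) (C0 : ℕ) :
    ∃ C : ℕ, ∀ (B : ℕ) (K : IntermediateField ℚ ℂ) (v : ι → ℂ), 2 ≤ B →
      FiniteDimensional ℚ K → Module.finrank ℚ K ≤ B ^ C0 → (∀ i, RAlg K (B ^ C0) (v i)) →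
      MvPolynomial.aeval v P = 0 ∨ Real.exp (-((B : ℝ) ^ C)) ≤ ‖MvPolynomial.aeval v P‖ := by
  classical
  obtain ⟨A, hA⟩ := orep_lower
  set T := P.totalDegree with hT
  set H1 : ℕ := ∑ s ∈ P.support, (P.coeff s).natAbs with hH1
  set n : ℕ := Fintype.card ι with hn
  set C1 : ℕ := C0 + (2 * T + 1) + (C0 + (H1 + 3 + n * T)) with hC1
  set C2 : ℕ := C0 + n * T with hC2
  refine ⟨(A + C1) * A + C2 + 1, fun B K v hB hK2 hK3 hv => ?_⟩
  by_cases h0 : MvPolynomial.aeval v P = 0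
  · exact Or.inl h0
  right
  choose dl hdl0 hdlA hdlR using hv
  have hBpos : 0 < B := by omega
  have hB1 : (1 : ℝ) ≤ B := by exact_mod_cast (by omega : 1 ≤ B)
  have hpow : ∀ k : ℕ, k ≤ B ^ k := fun k =>
    (Nat.lt_two_pow_self).le.trans (Nat.pow_le_pow_left hB k)
  set F1 : ℕ := B ^ C0 with hF1
  have hF11 : 1 ≤ F1 := Nat.one_le_pow _ _ hBpos
  set M0 : ℝ := (2 : ℝ) ^ F1 with hM0
  have hM01 : 1 ≤ M0 := one_le_pow₀ (by norm_num)
  set M1 : ℝ := M0 ^ n with hM1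
  have hM11 : 1 ≤ M1 := one_le_pow₀ hM01
  set DL : ℂ := ∏ k, dl k with hDL
  have hDL0 : DL ≠ 0 := Finset.prod_ne_zero_iff.mpr fun k _ => hdl0 k
  have hDLA : AI K M1 DL := by
    have := AI_prod (K := K) Finset.univ M0 dl (fun k _ => hdlA k)
    rwa [Finset.card_univ] at this
  have hvar : ∀ i, Rep K 2 M1 (DL * v i) := by
    intro k
    have h1 : DL * v k = (∏ k' ∈ Finset.univ.erase k, dl k') * (dl k * v k) := by
      rw [hDL, ← Finset.mul_prod_erase Finset.univ dl (Finset.mem_univ k)]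
      ring
    rw [h1]
    have h2 : AI K (M0 ^ (n - 1)) (∏ k' ∈ Finset.univ.erase k, dl k') := by
      have := AI_prod (K := K) (Finset.univ.erase k) M0 dl
        (fun k _ => hdlA k)
      rwa [Finset.card_erase_of_mem (Finset.mem_univ _), Finset.card_univ]
        at this
    refine (h2.mul (hdlR k) |>.rep 2).mono le_rfl le_rfl ?_
    have hn1 : (n - 1) + 1 = n := by
      have : 0 < n := Fintype.card_pos_iff.mpr ⟨k⟩
      omega
    rw [← pow_succ, hn1]
  have hrep := rep_homog K P v DL M1 hM11 (hDLA.rep 0) hvar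
  set X : ℂ := DL ^ P.totalDegree * MvPolynomial.aeval v P with hX
  have hX0 : X ≠ 0 := mul_ne_zero (pow_ne_zero _ hDL0) h0
  have hM1T : M1 ^ P.totalDegree = (2 : ℝ) ^ (F1 * (n * T)) := by
    rw [hM1, hM0, ← pow_mul, ← pow_mul]
  set M : ℕ := H1 * 2 ^ (F1 * (n * T)) + 2 with hM
  have hMle : (∑ s ∈ P.support, |((P.coeff s : ℤ) : ℝ)|) * M1 ^ P.totalDegree ≤ (M : ℝ) := by
    have h1 : (∑ s ∈ P.support, |((P.coeff s : ℤ) : ℝ)|) = (H1 : ℝ) := by
      rw [hH1]
      push_cast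
      refine Finset.sum_congr rfl fun s _ => ?_
      rw [Nat.cast_natAbs, Int.cast_abs]
    rw [h1, hM1T, hM]
    push_cast
    linarith
  have h1 := hA K hK2 (B ^ C0) (2 * T + 1) M hK3 (by omega) (by omega) X
    (hrep.mono le_rfl (by omega) hMle) hX0
  have hlogM : Nat.log 2 M + 1 ≤ B ^ (C0 + (H1 + 3 + n * T)) := by
    have e1 : M < 2 ^ (H1 + 3 + F1 * (n * T)) := by
      calc M ≤ (H1 + 2) * 2 ^ (F1 * (n * T)) := by
            rw [hM, Nat.add_mul H1 2]
            have : 1 ≤ 2 ^ (F1 * (n * T)) := Nat.one_le_pow _ _ (by omega)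
            omega
        _ < 2 ^ (H1 + 3) * 2 ^ (F1 * (n * T)) := by
            apply Nat.mul_lt_mul_of_pos_right _ (by positivity)
            exact lt_of_lt_of_le Nat.lt_two_pow_self (Nat.pow_le_pow_right (by norm_num) (by omega))
        _ = _ := by rw [← pow_add]
    have e2 : Nat.log 2 M < H1 + 3 + F1 * (n * T) := Nat.log_lt_of_lt_pow (by omega) e1
    calc Nat.log 2 M + 1 ≤ H1 + 3 + F1 * (n * T) := e2
      _ ≤ F1 * (H1 + 3) + F1 * (n * T) := by
          apply Nat.add_le_add_right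
          exact Nat.le_mul_of_pos_left _ (by omega)
      _ = F1 * (H1 + 3 + n * T) := by ring
      _ ≤ F1 * B ^ (H1 + 3 + n * T) := Nat.mul_le_mul_left _ (hpow _)
      _ = _ := by rw [hF1, ← pow_add]
  have hsize : B ^ C0 * (2 * T + 1) * (Nat.log 2 M + 1) ≤ B ^ C1 := by
    calc B ^ C0 * (2 * T + 1) * (Nat.log 2 M + 1)
        ≤ B ^ C0 * B ^ (2 * T + 1) * B ^ (C0 + (H1 + 3 + n * T)) :=
          Nat.mul_le_mul (Nat.mul_le_mul_left _ (hpow _)) hlogM
      _ = B ^ C1 := by rw [hC1, ← pow_add, ← pow_add]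
  have hexp : (A * (B ^ C0 * (2 * T + 1) * (Nat.log 2 M + 1))) ^ A ≤
      B ^ ((A + C1) * A) := by
    rw [pow_mul]
    apply Nat.pow_le_pow_left
    rw [pow_add]
    exact Nat.mul_le_mul (hpow A) hsize
  have h2 : Real.exp (-((B : ℝ) ^ ((A + C1) * A))) ≤ ‖X‖ := by
    refine le_trans (Real.exp_le_exp.mpr ?_) h1
    have : (((A * (B ^ C0 * (2 * T + 1) * (Nat.log 2 M + 1))) ^ A : ℕ) : ℝ) ≤
        ((B ^ ((A + C1) * A) : ℕ) : ℝ) := by exact_mod_cast hexp
    push_cast at this ⊢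
    linarith
  -- divide by the denominator
  have h3 : ‖X‖ ≤ Real.exp ((B : ℝ) ^ C2) * ‖MvPolynomial.aeval v P‖ := by
    rw [hX, norm_mul, norm_pow]
    gcongr
    calc ‖DL‖ ^ P.totalDegree ≤ M1 ^ P.totalDegree := by
          gcongr
          exact AI_norm_le hDLA
      _ = (2 : ℝ) ^ (F1 * (n * T)) := hM1T
      _ ≤ (Real.exp 1) ^ (F1 * (n * T)) := by
          gcongr
          have := Real.add_one_le_exp (1 : ℝ)
          linarith
      _ = Real.exp ((F1 * (n * T) : ℕ) : ℝ) := by rw [← Real.exp_nat_mul, mul_one]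
      _ ≤ Real.exp ((B : ℝ) ^ C2) := by
          apply Real.exp_le_exp.mpr
          have h1 : F1 * (n * T) ≤ B ^ C2 := by
            calc F1 * (n * T) ≤ F1 * B ^ (n * T) := Nat.mul_le_mul_left _ (hpow _)
              _ = B ^ C2 := by rw [hF1, hC2, ← pow_add]
          exact_mod_cast h1
  have h4 : Real.exp (-((B : ℝ) ^ ((A + C1) * A + C2 + 1))) *
      Real.exp ((B : ℝ) ^ C2) ≤ Real.exp (-((B : ℝ) ^ ((A + C1) * A))) := by
    rw [← Real.exp_add]
    apply Real.exp_le_exp.mpr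
    have e1 : (B : ℝ) ^ ((A + C1) * A) ≤ (B : ℝ) ^ ((A + C1) * A + C2) :=
      pow_le_pow_right₀ hB1 (by omega)
    have e2 : (B : ℝ) ^ C2 ≤ (B : ℝ) ^ ((A + C1) * A + C2) :=
      pow_le_pow_right₀ hB1 (by omega)
    have e3 : 2 * (B : ℝ) ^ ((A + C1) * A + C2) ≤
        (B : ℝ) ^ ((A + C1) * A + C2 + 1) := by
      rw [pow_succ, mul_comm]
      have : (2 : ℝ) ≤ B := by exact_mod_cast hB
      gcongr
    linarith
  have h5 := (h4.trans h2).trans h3
  have h6 : 0 < Real.exp ((B : ℝ) ^ C2) := Real.exp_pos _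
  rw [mul_comm] at h5
  exact le_of_mul_le_mul_left h5 h6

end Pool.Agent.Lib.MP5e
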