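import Pool.Agent.Lib.MP_5e64e7_nt.RNz

set_option autoImplicit false

noncomputable section

namespace Pool.Agent.Lib.MP5e

open Polynomial Topology

private theorem rmai_nz {m n : ℕ} (f : Fin n → RF m) (w : Fin m → ℝ) (hw : QHier w)
    (h : ∀ k, RGood (f k) (fun l => (w l : ℂ)))
    (hz : AlgebraicIndependent ℚ (fun k => rz (f k) (fun l => (w l : ℂ)))) (k : Fin n) :
    deriv jf (rz (f k) (fun l => (w l : ℂ))) ≠ 0 :=
  rnz (f k) w hw (h k) (hz.transcendental k)

theorem rmain {m n : ℕ} (f : Fin n → RF m) (rep : Fin n → Fin n) (hrep : RRep f rep)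
    (w : Fin m → ℝ) (hw : QHier w) (h : ∀ k, RGood (f k) (fun l => (w l : ℂ)))
    (hz : AlgebraicIndependent ℚ (fun k => rz (f k) (fun l => (w l : ℂ)))) :
    AlgebraicIndependent ℚ (rfam f rep (fun l => (w l : ℂ))) := by
  classical
  have hwi := rw_indep w hw
  have hj : ∀ k, deriv jf (rz (f k) (fun l => (w l : ℂ))) ≠ 0 := fun k =>
    rnz (f k) w hw (h k) (hz.transcendental k)
  obtain ⟨C, hC⟩ := rfld f rep hrep
  have hU : {x : Fin m → ℂ | ∀ k, RGood (f k) x} ∈ 𝓝 (fun l => (w l : ℂ)) := by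
    have h1 : ∀ᶠ x in 𝓝 (fun l => (w l : ℂ)), ∀ k, RGood (f k) x :=
      Filter.eventually_all.2 (fun k => rgood_nhds (f k) _ (h k))
    exact h1
  have hint : AlgebraicIndependent ℤ (rfam f rep (fun l => (w l : ℂ))) := by
    rw [algebraicIndependent_iff]
    intro P hP
    refine rfun f rep hrep _ hwi h hz P ?_
    exact rtransfer w hw (fun x => rfam f rep x) (fun i => rfam_analytic f rep w h hj i)
      {x : Fin m → ℂ | ∀ k, RGood (f k) x} hU C (fun B a c hB hx => hC B a c hB hx) P hP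
  have : Algebra.IsAlgebraic ℤ ℚ :=
    ⟨fun x => (IsFractionRing.isAlgebraic_iff ℤ ℚ ℚ).mpr (isAlgebraic_algebraMap x)⟩
  exact hint.extendScalars ℚ

theorem rtd {m n : ℕ} (f : Fin n → RF m) (rep : Fin n → Fin n) (hrep : RRep f rep)
    (w : Fin m → ℝ) (hw : QHier w) (h : ∀ k, RGood (f k) (fun l => (w l : ℂ)))
    (hz : AlgebraicIndependent ℚ (fun k => rz (f k) (fun l => (w l : ℂ)))) (d : ℕ)
    (hd : d + (Finset.univ.filter (fun k => rep k = k)).card ≤ 4 * n) :
    ∃ g : Fin d → ℂ, AlgebraicIndependent ℚ g ∧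
      ∀ t, ∃ v : Fin n × Fin 4, g t = J4 (rz (f v.1) (fun l => (w l : ℂ))) v.2 := by
  classical
  have hwi := rw_indep w hw
  obtain ⟨T, hT, hcl⟩ := qexch (fun l => (w l : ℂ)) hwi
    (fun k => rz (f k) (fun l => (w l : ℂ))) hz
    (fun K hK hx k => (rz_mem (f k) _ K hK hx).1)
  refine rsub (rfam f rep (fun l => (w l : ℂ)))
    (fun v : Fin n × Fin 4 => J4 (rz (f v.1) (fun l => (w l : ℂ))) v.2)
    (fun t : {l // l ∈ T} => (w t.1 : ℂ)) (rmain f rep hrep w hw h hz) ?_ d ?_
  · intro K hK h1 h2 i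
    refine rmem_fwd f rep _ K hK ?_ (fun k i => h1 (k, i)) i
    exact hcl K hK (fun k => h1 (k, 0)) (fun l hl => h2 ⟨l, hl⟩)
  · have h1 : Fintype.card {k : Fin n // rep k ≠ k} +
        (Finset.univ.filter (fun k => rep k = k)).card = n := by
      rw [Fintype.card_subtype]
      have h2 := Finset.card_filter_add_card_filter_not (s := (Finset.univ : Finset (Fin n)))
        (fun k => rep k = k)
      rw [Finset.card_univ, Fintype.card_fin] at h2
      have h3 : (Finset.univ.filter (fun k : Fin n => rep k ≠ k)) =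
        (Finset.univ.filter (fun k : Fin n => ¬ rep k = k)) := rfl
      rw [h3]
      omega
    simp only [Fintype.card_sum, Fintype.card_fin, Fintype.card_prod, Fintype.card_coe]
    omega

end Pool.Agent.Lib.MP5e
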