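import Pool.Agent.Lib.MP_5e64e7_nt.RAna
import Pool.Agent.Lib.MP_5e64e7_nt.RDer

set_option autoImplicit false

/-!
# R.OPN : `x ↦ (z_k(x), x_t)` is open at `w` (about 180 lines)

`rz_der`: if `D` is a derivation of `ℂ` with `D (w_l) = u_l` then `D (rz f w) = fderiv ℂ (rz f) w u`. First
`D (rev P w) = fderiv ℂ (rev P) w u` by induction on `P` (`MvPolynomial.induction_on`; `D` of an integer is `0`,
product rule on both sides, `D (w_l) = u_l`). Then `rs² = rev d` (`rs_sq`) gives `2 rs D(rs) = D(rev d w)` and, near `w`,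
`2 rs · fderiv rs w u = fderiv (rev d) w u`, `rs ≠ 0`. `D I = 0` because `I² = -1`. Finally
`rz · R = P + Q I rs` near `w` (`R ≠ 0`), differentiate both (`D` and `fderiv · u`) and divide by `R(w) ≠ 0`.

`ropn`: `Φ = rPhi f T` is analytic at `w`, so it has a strict derivative `A` (`AnalyticAt.hasStrictFDerivAt`). `A` is
injective: let `A u = 0`, so `fderiv (rz (f k)) w u = 0` for all `k` and `u_t = 0` for `t ∈ T` (`fderiv` of the components:
`HasStrictFDerivAt` of a pair and of a pi function; or argue with `HasFDerivAt.comp` and the projections). Let `D` be from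
`rder w hw u` and `K` its field of constants (`rconst`). By `rz_der` all `rz (f k) w ∈ K`, and `w_t ∈ K` for `t ∈ T`, so
all `w_l ∈ K` by `hcl`: `u_l = D (w_l) = 0`. The dimensions are equal (`hT`), so `A` is surjective
(`LinearMap.injective_iff_surjective_of_finrank_eq_finrank`), and `HasStrictFDerivAt.map_nhds_eq_of_surj` gives the claim.
-/

noncomputable section

namespace Pool.Agent.Lib.MP5e

open Polynomial Topology

/-- the local coordinates -/
def rPhi {m n : ℕ} (f : Fin n → RF m) (T : Finset (Fin m)) (x : Fin m → ℂ) :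
    (Fin n → ℂ) × ({l // l ∈ T} → ℂ) :=
  (fun k => rz (f k) x, fun t => x t.1)

private theorem ropn_rev {m : ℕ} (w : Fin m → ℂ) (D : Derivation ℚ ℂ ℂ) (u : Fin m → ℂ)
    (hD : ∀ l, D (w l) = u l) (P : MvPolynomial (Fin m) ℤ) :
    D (rev P w) = fderiv ℂ (rev P) w u := by
  induction P using MvPolynomial.induction_on with
  | C a =>
    have h1 : (rev (MvPolynomial.C a) : (Fin m → ℂ) → ℂ) = fun _ => (a : ℂ) := by
      funext x
      simp [rev]
    rw [h1]
    simp
  | add p q hp hq =>
    have h1 : (rev (p + q) : (Fin m → ℂ) → ℂ) = fun x => rev p x + rev q x := by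
      funext x
      simp [rev]
    have h2 : HasFDerivAt (fun x => rev p x + rev q x)
        (fderiv ℂ (rev p) w + fderiv ℂ (rev q) w) w :=
      (rev_analytic p w).differentiableAt.hasFDerivAt.add
        (rev_analytic q w).differentiableAt.hasFDerivAt
    rw [h1, h2.fderiv]
    simp [hp, hq]
  | mul_X p i hp =>
    have h1 : (rev (p * MvPolynomial.X i) : (Fin m → ℂ) → ℂ) = fun x => rev p x * x i := by
      funext x
      simp [rev]
    have h3 : HasFDerivAt (fun x : Fin m → ℂ => x i)
        (ContinuousLinearMap.proj (R := ℂ) (φ := fun _ : Fin m => ℂ) i) w :=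
      (ContinuousLinearMap.proj (R := ℂ) (φ := fun _ : Fin m => ℂ) i).hasFDerivAt
    have h2 := (rev_analytic p w).differentiableAt.hasFDerivAt.mul h3
    rw [h1]
    have h4 : fderiv ℂ (fun x => rev p x * x i) w = _ := h2.fderiv
    rw [h4]
    simp [hp, hD]

theorem rz_der {m : ℕ} (f : RF m) (w : Fin m → ℂ) (h : RGood f w) (D : Derivation ℚ ℂ ℂ)
    (u : Fin m → ℂ) (hD : ∀ l, D (w l) = u l) : D (rz f w) = fderiv ℂ (rz f) w u := by
  have hR := rR_ne f w h
  have hs := rs_ne f w h
  have hrev := ropn_rev w D u hD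
  -- the square root
  have hrs : D (rs f w) = fderiv ℂ (rs f) w u := by
    have h1 : HasFDerivAt (rs f) (fderiv ℂ (rs f) w) w :=
      (rs_analytic f w h).differentiableAt.hasFDerivAt
    have h2 := h1.mul h1
    have h3 : (fun x => rs f x * rs f x) = rev f.d := by
      funext x
      rw [← rs_sq f x, sq]
    have h4 : fderiv ℂ (fun x => rs f x * rs f x) w = _ := h2.fderiv
    have h5 := hrev f.d
    rw [← h3, h4] at h5
    have h6 : D (rs f w * rs f w) = rs f w • D (rs f w) + rs f w • D (rs f w) := D.leibniz _ _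
    simp only [] at h5
    rw [h6] at h5
    simp at h5
    have h7 : (2 * rs f w) * (D (rs f w) - fderiv ℂ (rs f) w u) = 0 := by
      linear_combination h5
    rcases mul_eq_zero.mp h7 with h8 | h8
    · exact absurd h8 (mul_ne_zero two_ne_zero hs)
    · exact sub_eq_zero.mp h8
  have hI : D Complex.I = 0 := by
    have h1 : D (Complex.I * Complex.I) = Complex.I • D Complex.I + Complex.I • D Complex.I :=
      D.leibniz _ _
    rw [Complex.I_mul_I] at h1
    simp at h1
    have h2 : (2 * Complex.I) * D Complex.I = 0 := by linear_combination -h1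
    rcases mul_eq_zero.mp h2 with h3 | h3
    · exact absurd h3 (mul_ne_zero two_ne_zero Complex.I_ne_zero)
    · exact h3
  -- the functions
  have hz : HasFDerivAt (rz f) (fderiv ℂ (rz f) w) w :=
    (rz_analytic f w h).differentiableAt.hasFDerivAt
  have hRd : HasFDerivAt (rev f.R) (fderiv ℂ (rev f.R) w) w :=
    (rev_analytic f.R w).differentiableAt.hasFDerivAt
  have hPd : HasFDerivAt (rev f.P) (fderiv ℂ (rev f.P) w) w :=
    (rev_analytic f.P w).differentiableAt.hasFDerivAt
  have hQd : HasFDerivAt (rev f.Q) (fderiv ℂ (rev f.Q) w) w :=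
    (rev_analytic f.Q w).differentiableAt.hasFDerivAt
  have hsd : HasFDerivAt (rs f) (fderiv ℂ (rs f) w) w :=
    (rs_analytic f w h).differentiableAt.hasFDerivAt
  have hleft := hz.mul hRd
  have hright := hPd.add (hQd.mul (hsd.const_mul Complex.I))
  have hev : (fun x => rz f x * rev f.R x) =ᶠ[𝓝 w]
      (fun x => rev f.P x + rev f.Q x * (Complex.I * rs f x)) := by
    filter_upwards [rgood_nhds f w h] with x hx
    unfold rz
    rw [div_mul_cancel₀ _ (rR_ne f x hx)]
  have hL : fderiv ℂ (fun x => rz f x * rev f.R x) w = _ := hleft.fderiv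
  have hRr : fderiv ℂ (fun x => rev f.P x + rev f.Q x * (Complex.I * rs f x)) w = _ :=
    hright.fderiv
  have hE := hev.fderiv_eq (𝕜 := ℂ)
  rw [hL, hRr] at hE
  have hE2 := congrArg (fun A => A u) hE
  have hpt : rz f w * rev f.R w = rev f.P w + rev f.Q w * (Complex.I * rs f w) := by
    have := hev.self_of_nhds
    exact this
  have hDpt := congrArg D hpt
  rw [D.leibniz, map_add, D.leibniz, D.leibniz, hI, hrs, hrev, hrev, hrev] at hDpt
  simp at hE2 hDpt
  have h9 : rev f.R w * (D (rz f w) - fderiv ℂ (rz f) w u) = 0 := by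
    linear_combination hDpt - hE2
  rcases mul_eq_zero.mp h9 with h8 | h8
  · exact absurd h8 hR
  · exact sub_eq_zero.mp h8

theorem ropn {m n : ℕ} (f : Fin n → RF m) (w : Fin m → ℂ) (hw : AlgebraicIndependent ℚ w)
    (h : ∀ k, RGood (f k) w) (T : Finset (Fin m)) (hT : T.card + n = m)
    (hcl : ∀ K : IntermediateField ℚ ℂ, QCl K → (∀ k, rz (f k) w ∈ K) → (∀ l ∈ T, w l ∈ K) →
      ∀ l, w l ∈ K) (U : Set (Fin m → ℂ)) (hU : U ∈ 𝓝 w) :
    rPhi f T '' U ∈ 𝓝 (rPhi f T w) := by
  have han : AnalyticAt ℂ (rPhi f T) w := by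
    unfold rPhi
    apply AnalyticAt.prod
    · exact AnalyticAt.pi (fun k => rz_analytic (f k) w (h k))
    · exact AnalyticAt.pi (fun t =>
        (ContinuousLinearMap.proj (R := ℂ) (φ := fun _ : Fin m => ℂ) t.1).analyticAt w)
  have hst := han.hasStrictFDerivAt
  have hfd : HasFDerivAt (rPhi f T) (fderiv ℂ (rPhi f T) w) w :=
    han.differentiableAt.hasFDerivAt
  have hinj : Function.Injective (fderiv ℂ (rPhi f T) w) := by
    rw [injective_iff_map_eq_zero]
    intro u hu
    obtain ⟨D, hD⟩ := rder w hw u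
    obtain ⟨K, hK, hKD⟩ := rconst D
    have h1 : ∀ k, rz (f k) w ∈ K := by
      intro k
      rw [hKD, rz_der (f k) w (h k) D u hD]
      have h2 := ((ContinuousLinearMap.proj (R := ℂ) (φ := fun _ : Fin n => ℂ) k).comp
        (ContinuousLinearMap.fst ℂ (Fin n → ℂ) ({l // l ∈ T} → ℂ))).hasFDerivAt
          (x := rPhi f T w)
      have h3 := h2.comp w hfd
      have h4 : fderiv ℂ (rz (f k)) w = _ := h3.fderiv
      rw [h4]
      simp [hu]
    have h2 : ∀ l ∈ T, w l ∈ K := by
      intro l hl
      rw [hKD, hD]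
      have h2 := ((ContinuousLinearMap.proj (R := ℂ) (φ := fun _ : {l // l ∈ T} => ℂ)
        ⟨l, hl⟩).comp
        (ContinuousLinearMap.snd ℂ (Fin n → ℂ) ({l // l ∈ T} → ℂ))).hasFDerivAt
          (x := rPhi f T w)
      have h3 := h2.comp w hfd
      have h5 : HasFDerivAt (fun x : Fin m → ℂ => x l)
        (ContinuousLinearMap.proj (R := ℂ) (φ := fun _ : Fin m => ℂ) l) w :=
        (ContinuousLinearMap.proj (R := ℂ) (φ := fun _ : Fin m => ℂ) l).hasFDerivAt
      have h6 := h5.unique h3
      have h7 := congrArg (fun A => A u) h6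
      simpa [hu] using h7
    have h3 := hcl K hK h1 h2
    funext l
    rw [← hD l]
    exact (hKD _).mp (h3 l)
  have hsurj : Function.Surjective (fderiv ℂ (rPhi f T) w) := by
    have h1 : Module.finrank ℂ (Fin m → ℂ) =
        Module.finrank ℂ ((Fin n → ℂ) × ({l // l ∈ T} → ℂ)) := by
      rw [Module.finrank_prod, Module.finrank_fintype_fun_eq_card,
        Module.finrank_fintype_fun_eq_card, Module.finrank_fintype_fun_eq_card]
      simp
      omega
    exact (LinearMap.injective_iff_surjective_of_finrank_eq_finrank h1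
      (f := ((fderiv ℂ (rPhi f T) w : (Fin m → ℂ) →L[ℂ]
        ((Fin n → ℂ) × ({l // l ∈ T} → ℂ))) : (Fin m → ℂ) →ₗ[ℂ]
        ((Fin n → ℂ) × ({l // l ∈ T} → ℂ))))).mp hinj
  have hmap := hst.map_nhds_eq_of_surj (LinearMap.range_eq_top.mpr hsurj)
  rw [← hmap]
  exact Filter.image_mem_map hU

end Pool.Agent.Lib.MP5e
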