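import Pool.Agent.Lib.MP_5e64e7_nt.RepA

set_option autoImplicit false

noncomputable section

namespace Pool.Agent.Lib.MP5e

open Polynomial Topology

theorem AI.rep {K : IntermediateField ℚ ℂ} {M : ℝ} {x : ℂ} (h : AI K M x) (m : ℕ) :
    Rep K m M x := by
  obtain ⟨a, ha, hint, hb⟩ := h
  refine ⟨Polynomial.C a, by simp, fun k => ?_, fun φ => ?_, ?_⟩
  · rw [Polynomial.coeff_C]
    split_ifs
    · exact hint
    · exact isIntegral_zero
  · rw [Finset.sum_eq_single_of_mem 0 (by simp)]
    · simpa using hb φ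
    · intro k _ hk
      rw [Polynomial.coeff_C, if_neg hk]
      simp
  · rw [Polynomial.aeval_C]
    exact ha

theorem Rep.th (K : IntermediateField ℚ ℂ) : Rep K 1 1 (MP5e.th : ℂ) := by
  refine ⟨Polynomial.X, by simp, fun k => ?_, fun φ => ?_, ?_⟩
  · rw [Polynomial.coeff_X]
    split_ifs
    · exact isIntegral_one
    · exact isIntegral_zero
  · rw [Finset.sum_range_succ, Finset.sum_range_one]
    simp
  · simp

theorem Rep.nonneg {K : IntermediateField ℚ ℂ} {m : ℕ} {M : ℝ} {x : ℂ} (h : Rep K m M x) :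
    0 ≤ M := by
  obtain ⟨R, _, _, hb, _⟩ := h
  exact (Finset.sum_nonneg fun _ _ => norm_nonneg _).trans (hb K.val)

theorem RepB_sum_ext {K : IntermediateField ℚ ℂ} (R : Polynomial K) (φ : K →ₐ[ℚ] ℂ) {m m' : ℕ}
    (hR : R.natDegree ≤ m) (hm : m ≤ m') :
    ∑ k ∈ Finset.range (m' + 1), ‖φ (R.coeff k)‖ = ∑ k ∈ Finset.range (m + 1), ‖φ (R.coeff k)‖ := by
  symm
  apply Finset.sum_subset
  · intro k hk
    simp only [Finset.mem_range] at *
    omega
  · intro k _ hk
    simp only [Finset.mem_range] at hk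
    rw [Polynomial.coeff_eq_zero_of_natDegree_lt (by omega)]
    simp

theorem Rep.mono {K K' : IntermediateField ℚ ℂ} (hK : K ≤ K') {m m' : ℕ} (hm : m ≤ m')
    {M M' : ℝ} (hM : M ≤ M') {x : ℂ} (h : Rep K m M x) : Rep K' m' M' x := by
  obtain ⟨R, hd, hint, hb, hx⟩ := h
  refine ⟨R.map (IntermediateField.inclusion hK : K →+* K'), ?_, ?_, ?_, ?_⟩
  · exact (Polynomial.natDegree_map_le).trans (hd.trans hm)
  · intro k
    rw [Polynomial.coeff_map]
    exact (hint k).map ((IntermediateField.inclusion hK).restrictScalars ℤ)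
  · intro φ
    have h1 := hb (φ.comp (IntermediateField.inclusion hK))
    rw [← RepB_sum_ext R (φ.comp (IntermediateField.inclusion hK)) hd hm] at h1
    refine le_trans (le_of_eq ?_) (h1.trans hM)
    refine Finset.sum_congr rfl fun k _ => ?_
    rw [Polynomial.coeff_map]
    rfl
  · rw [← hx, Polynomial.aeval_def, Polynomial.aeval_def, Polynomial.eval₂_map]
    congr 1

theorem Rep.add {K : IntermediateField ℚ ℂ} {m : ℕ} {M M' : ℝ} {x y : ℂ} (h : Rep K m M x)
    (h' : Rep K m M' y) : Rep K m (M + M') (x + y) := by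
  obtain ⟨R, hd, hint, hb, hx⟩ := h
  obtain ⟨R', hd', hint', hb', hx'⟩ := h'
  refine ⟨R + R', (Polynomial.natDegree_add_le _ _).trans (max_le hd hd'), fun k => ?_,
    fun φ => ?_, ?_⟩
  · rw [Polynomial.coeff_add]
    exact (hint k).add (hint' k)
  · refine le_trans ?_ (add_le_add (hb φ) (hb' φ))
    rw [← Finset.sum_add_distrib]
    refine Finset.sum_le_sum fun k _ => ?_
    rw [Polynomial.coeff_add, map_add]
    exact norm_add_le _ _
  · rw [map_add, hx, hx']

theorem Rep.mul {K : IntermediateField ℚ ℂ} {m m' : ℕ} {M M' : ℝ} {x y : ℂ} (h : Rep K m M x)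
    (h' : Rep K m' M' y) : Rep K (m + m') (M * M') (x * y) := by
  have hM := h.nonneg
  obtain ⟨R, hd, hint, hb, hx⟩ := h
  obtain ⟨R', hd', hint', hb', hx'⟩ := h'
  refine ⟨R * R', Polynomial.natDegree_mul_le.trans (add_le_add hd hd'), fun k => ?_,
    fun φ => ?_, ?_⟩
  · rw [Polynomial.coeff_mul]
    exact IsIntegral.sum _ fun p _ => (hint _).mul (hint' _)
  · have h1 : ∑ k ∈ Finset.range (m + m' + 1), ‖φ ((R * R').coeff k)‖ ≤
        (∑ k ∈ Finset.range (m + 1), ‖φ (R.coeff k)‖) *
          ∑ k ∈ Finset.range (m' + 1), ‖φ (R'.coeff k)‖ := by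
      calc ∑ k ∈ Finset.range (m + m' + 1), ‖φ ((R * R').coeff k)‖
          ≤ ∑ k ∈ Finset.range (m + m' + 1), ∑ p ∈ Finset.HasAntidiagonal.antidiagonal k,
              ‖φ (R.coeff p.1)‖ * ‖φ (R'.coeff p.2)‖ := by
            refine Finset.sum_le_sum fun k _ => ?_
            rw [Polynomial.coeff_mul, map_sum]
            refine (norm_sum_le _ _).trans (Finset.sum_le_sum fun p _ => ?_)
            rw [map_mul, norm_mul]
        _ = ∑ p ∈ Finset.range (m + 1) ×ˢ Finset.range (m' + 1),
              ‖φ (R.coeff p.1)‖ * ‖φ (R'.coeff p.2)‖ := by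
            rw [Finset.sum_sigma' (Finset.range (m + m' + 1))]
            symm
            refine Finset.sum_bij_ne_zero (fun p _ _ => (⟨p.1 + p.2, p⟩ : Σ _ : ℕ, ℕ × ℕ))
              ?_ ?_ ?_ ?_
            · intro p hp _
              simp only [Finset.mem_product, Finset.mem_range, Finset.mem_sigma,
                Finset.HasAntidiagonal.mem_antidiagonal, and_true] at *
              omega
            · intro p _ _ q _ _ hpq
              simp only [Sigma.mk.injEq, heq_eq_eq] at hpq
              exact hpq.2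
            · intro p hp hne
              simp only [Finset.mem_sigma, Finset.HasAntidiagonal.mem_antidiagonal, Finset.mem_range] at hp
              refine ⟨p.2, ?_, hne, ?_⟩
              · simp only [Finset.mem_product, Finset.mem_range]
                have h1 : R.coeff p.2.1 ≠ 0 := by
                  intro h0; apply hne; simp [h0]
                have h2 : R'.coeff p.2.2 ≠ 0 := by
                  intro h0; apply hne; simp [h0]
                have h3 := Polynomial.le_natDegree_of_ne_zero h1
                have h4 := Polynomial.le_natDegree_of_ne_zero h2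
                omega
              · obtain ⟨k, p⟩ := p
                simp only [Sigma.mk.injEq, heq_eq_eq, and_true]
                exact hp.2
            · intro p _ _
              rfl
        _ = _ := by
            rw [Finset.sum_mul_sum, ← Finset.sum_product']
    exact h1.trans (mul_le_mul (hb φ) (hb' φ) (Finset.sum_nonneg fun _ _ => norm_nonneg _) hM)
  · rw [map_mul, hx, hx']

theorem Rep.zero (K : IntermediateField ℚ ℂ) (m : ℕ) : Rep K m 0 0 := by
  refine ⟨0, by simp, fun k => ?_, fun φ => ?_, ?_⟩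
  · rw [Polynomial.coeff_zero]; exact isIntegral_zero
  · simp
  · simp

theorem RepB_one (K : IntermediateField ℚ ℂ) (m : ℕ) : Rep K m 1 1 := by
  have h := (AI.nat K 1).rep m
  simpa using h

theorem Rep.pow {K : IntermediateField ℚ ℂ} {m : ℕ} {M : ℝ} {x : ℂ} (h : Rep K m M x) (k : ℕ) :
    Rep K (k * m) (M ^ k) (x ^ k) := by
  induction k with
  | zero => simpa using RepB_one K 0
  | succ k ih =>
    rw [pow_succ, pow_succ, Nat.succ_mul]
    exact ih.mul h

theorem Rep.sum {K : IntermediateField ℚ ℂ} {m : ℕ} {ι : Type*} (s : Finset ι) (M : ι → ℝ)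
    (x : ι → ℂ) (h : ∀ i ∈ s, Rep K m (M i) (x i)) : Rep K m (∑ i ∈ s, M i) (∑ i ∈ s, x i) := by
  classical
  induction s using Finset.induction_on with
  | empty => simpa using Rep.zero K m
  | insert a s ha ih =>
    rw [Finset.sum_insert ha, Finset.sum_insert ha]
    exact (h a (Finset.mem_insert_self _ _)).add
      (ih fun i hi => h i (Finset.mem_insert_of_mem hi))

theorem Rep.prod {K : IntermediateField ℚ ℂ} {ι : Type*} (s : Finset ι) (m : ι → ℕ) (M : ι → ℝ)
    (x : ι → ℂ) (h : ∀ i ∈ s, Rep K (m i) (M i) (x i)) :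
    Rep K (∑ i ∈ s, m i) (∏ i ∈ s, M i) (∏ i ∈ s, x i) := by
  classical
  induction s using Finset.induction_on with
  | empty => simpa using RepB_one K 0
  | insert a s ha ih =>
    rw [Finset.sum_insert ha, Finset.prod_insert ha, Finset.prod_insert ha]
    exact (h a (Finset.mem_insert_self _ _)).mul
      (ih fun i hi => h i (Finset.mem_insert_of_mem hi))

end Pool.Agent.Lib.MP5e
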