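import Pool.Agent.Lib.MP_5e64e7_nt.NormR
import Pool.Agent.Lib.MP_5e64e7_nt.Meas

set_option autoImplicit false

noncomputable section

namespace Pool.Agent.Lib.MP5e

open Polynomial Topology

theorem rep_lower : ∃ A : ℕ, ∀ (K : IntermediateField ℚ ℂ), FiniteDimensional ℚ K →
    ∀ (d m M : ℕ), Module.finrank ℚ K ≤ d → 1 ≤ m → 2 ≤ M → ∀ x : ℂ, Rep K m (M : ℝ) x → x ≠ 0 →
    Real.exp (-(((A * (d * m * M) : ℕ) : ℝ) ^ A)) ≤ ‖x‖ := by
  obtain ⟨A0, hA0⟩ := th_measure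
  set B0 : ℕ := Nat.ceil th with hB0
  refine ⟨2 * A0 + B0 + 3, fun K hfd d m M hd hm hM x hx h0 => ?_⟩
  have hf1 : 1 ≤ Module.finrank ℚ K := Module.finrank_pos
  have hd1 : 1 ≤ d := hf1.trans hd
  obtain ⟨N, hN0, hNd, hNc, hNn⟩ := norm_poly K hfd m M x hx h0
  set x0 : ℕ := d * m * M with hx0
  have hx2 : 2 ≤ x0 := by
    rw [hx0]
    calc 2 = 1 * 1 * 2 := rfl
      _ ≤ d * m * M := Nat.mul_le_mul (Nat.mul_le_mul hd1 hm) hM
  have hM1 : 1 ≤ M := by omega
  have h1 := hA0 (m * d) (M ^ d) (Nat.mul_pos hm hd1) (by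
    calc 2 ≤ M ^ 1 := by rw [pow_one]; exact hM
      _ ≤ M ^ d := Nat.pow_le_pow_right hM1 hd1) N hN0 (hNd.trans (Nat.mul_le_mul_left _ hd)) (by
    intro k
    have h2 := hNc k
    have h3 : (M : ℝ) ^ Module.finrank ℚ K ≤ (M : ℝ) ^ d := by
      apply pow_le_pow_right₀ _ hd
      exact_mod_cast hM1
    have h4 := h2.trans h3
    exact_mod_cast h4)
  have hlog : Nat.log 2 (M ^ d) + 1 ≤ M * d := by
    have h2 : M ^ d < 2 ^ (M * d) := by
      rw [pow_mul]
      exact Nat.pow_lt_pow_left Nat.lt_two_pow_self (by omega)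
    exact Nat.log_lt_of_lt_pow (by positivity) h2
  have hL : m * d * (Nat.log 2 (M ^ d) + 1) ≤ x0 ^ 2 := by
    calc m * d * (Nat.log 2 (M ^ d) + 1) ≤ m * d * (M * d) := Nat.mul_le_mul_left _ hlog
      _ = 1 * 1 * (m * d * (M * d)) := by ring
      _ ≤ m * M * (m * d * (M * d)) := by
          apply Nat.mul_le_mul_right
          exact Nat.mul_le_mul hm hM1
      _ = x0 ^ 2 := by rw [hx0]; ring
  set A : ℕ := 2 * A0 + B0 + 3 with hA
  have hmain : (A0 * (m * d * (Nat.log 2 (M ^ d) + 1))) ^ A0 + x0 * (1 + B0) ≤ (A * x0) ^ A := by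
    have hAx : 2 ≤ A * x0 := by nlinarith
    have h2 : (A0 * (m * d * (Nat.log 2 (M ^ d) + 1))) ^ A0 ≤ (A * x0) ^ (2 * A0) := by
      rw [pow_mul]
      apply Nat.pow_le_pow_left
      calc A0 * (m * d * (Nat.log 2 (M ^ d) + 1)) ≤ A0 * x0 ^ 2 := Nat.mul_le_mul_left _ hL
        _ ≤ A ^ 2 * x0 ^ 2 := by
            apply Nat.mul_le_mul_right
            nlinarith
        _ = (A * x0) ^ 2 := by ring
    have h3 : x0 * (1 + B0) ≤ (A * x0) ^ 1 := by
      rw [pow_one, mul_comm]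
      apply Nat.mul_le_mul_right
      omega
    calc (A0 * (m * d * (Nat.log 2 (M ^ d) + 1))) ^ A0 + x0 * (1 + B0)
        ≤ (A * x0) ^ (2 * A0) + (A * x0) ^ 1 := Nat.add_le_add h2 h3
      _ ≤ (A * x0) ^ (2 * A0 + 1) + (A * x0) ^ (2 * A0 + 1) := by
          apply Nat.add_le_add
          · exact Nat.pow_le_pow_right (by omega) (by omega)
          · exact Nat.pow_le_pow_right (by omega) (by omega)
      _ = 2 * (A * x0) ^ (2 * A0 + 1) := by ring
      _ ≤ (A * x0) * (A * x0) ^ (2 * A0 + 1) := Nat.mul_le_mul_right _ hAx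
      _ = (A * x0) ^ (2 * A0 + 2) := by ring
      _ ≤ (A * x0) ^ A := Nat.pow_le_pow_right (by omega) (by omega)
  have hth1 : 1 ≤ th := one_le_th
  have hthB : th ≤ B0 := Nat.le_ceil _
  have hfac : ((M : ℝ) * th ^ m) ^ (Module.finrank ℚ K - 1) ≤ Real.exp ((x0 * (1 + B0) : ℕ) : ℝ) := by
    have hb : (M : ℝ) * th ^ m ≤ Real.exp ((M + m * B0 : ℕ) : ℝ) := by
      have e1 : (M : ℝ) ≤ Real.exp M := by
        have := Real.add_one_le_exp (M : ℝ); linarith
      have e2 : th ^ m ≤ Real.exp ((m * B0 : ℕ) : ℝ) := by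
        have e3 : th ≤ Real.exp B0 := by
          have := Real.add_one_le_exp (B0 : ℝ); linarith
        calc th ^ m ≤ (Real.exp B0) ^ m := by gcongr
          _ = Real.exp ((m * B0 : ℕ) : ℝ) := by
            rw [← Real.exp_nat_mul]; push_cast; rfl
      push_cast at e2 ⊢
      rw [Real.exp_add]
      gcongr
    have h1b : 1 ≤ (M : ℝ) * th ^ m := by
      have e1 : (1 : ℝ) ≤ M := by exact_mod_cast hM1
      have e2 : (1 : ℝ) ≤ th ^ m := one_le_pow₀ hth1
      nlinarith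
    calc ((M : ℝ) * th ^ m) ^ (Module.finrank ℚ K - 1) ≤ ((M : ℝ) * th ^ m) ^ d :=
          pow_le_pow_right₀ h1b (by omega)
      _ ≤ (Real.exp ((M + m * B0 : ℕ) : ℝ)) ^ d := by gcongr
      _ = Real.exp ((d * (M + m * B0) : ℕ) : ℝ) := by
          rw [← Real.exp_nat_mul]; push_cast; rfl
      _ ≤ Real.exp ((x0 * (1 + B0) : ℕ) : ℝ) := by
          apply Real.exp_le_exp.mpr
          have : d * (M + m * B0) ≤ x0 * (1 + B0) := by
            rw [hx0]
            have e1 : M ≤ m * M := Nat.le_mul_of_pos_left _ hm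
            have e2 : m * B0 ≤ m * M * B0 := by
              apply Nat.mul_le_mul_right
              exact Nat.le_mul_of_pos_right _ hM1
            calc d * (M + m * B0) ≤ d * (m * M + m * M * B0) :=
                  Nat.mul_le_mul_left _ (Nat.add_le_add e1 e2)
              _ = d * m * M * (1 + B0) := by ring
          exact_mod_cast this
  have h2 : Real.exp (-(((A0 * (m * d * (Nat.log 2 (M ^ d) + 1)) : ℕ) : ℝ) ^ A0)) ≤
      ‖x‖ * Real.exp ((x0 * (1 + B0) : ℕ) : ℝ) := by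
    refine h1.trans (hNn.trans ?_)
    gcongr
  have h3 : Real.exp (-(((A * x0 : ℕ) : ℝ) ^ A)) * Real.exp ((x0 * (1 + B0) : ℕ) : ℝ) ≤
      ‖x‖ * Real.exp ((x0 * (1 + B0) : ℕ) : ℝ) := by
    refine le_trans ?_ h2
    rw [← Real.exp_add]
    apply Real.exp_le_exp.mpr
    have h4 : (((A0 * (m * d * (Nat.log 2 (M ^ d) + 1))) ^ A0 + x0 * (1 + B0) : ℕ) : ℝ) ≤
        (((A * x0) ^ A : ℕ) : ℝ) := by exact_mod_cast hmain
    push_cast at h4 ⊢
    linarith
  exact le_of_mul_le_mul_right h3 (Real.exp_pos _)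

end Pool.Agent.Lib.MP5e
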