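import Pool.Agent.Lib.MP_5e64e7_nt.Defs

set_option autoImplicit false

noncomputable section

namespace Pool.Agent.Lib.MP5e

open Polynomial Topology

/-! ### Arithmetic identities for the divisor sums -/

private theorem sig_two (k : ℕ) : ArithmeticFunction.sigma k 2 = 1 + 2 ^ k := by
  have h := ArithmeticFunction.sigma_apply_prime_pow (k := k) (i := 1) Nat.prime_two
  rw [pow_one] at h
  rw [h]
  simp [Finset.sum_range_succ]

private theorem sig_odd (k : ℕ) {n : ℕ} (hn : Odd n) :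
    ArithmeticFunction.sigma k (2 * n) = (1 + 2 ^ k) * ArithmeticFunction.sigma k n := by
  have hc : Nat.Coprime 2 n := (Nat.coprime_two_left).mpr hn
  rw [ArithmeticFunction.isMultiplicative_sigma.map_mul_of_coprime hc, sig_two]

private theorem sig_even (k : ℕ) {m : ℕ} (hm : m ≠ 0) :
    ArithmeticFunction.sigma k (2 * (2 * m)) + 2 ^ k * ArithmeticFunction.sigma k m =
      (1 + 2 ^ k) * ArithmeticFunction.sigma k (2 * m) := by
  obtain ⟨a, u, hu, rfl⟩ := Nat.exists_eq_two_pow_mul_odd hm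
  have hc : ∀ b : ℕ, Nat.Coprime (2 ^ b) u := fun b =>
    Nat.Coprime.pow_left b ((Nat.coprime_two_left).mpr hu)
  have hs : ∀ b : ℕ, ArithmeticFunction.sigma k (2 ^ b * u) =
      (∑ j ∈ Finset.range (b + 1), 2 ^ (j * k)) * ArithmeticFunction.sigma k u := by
    intro b
    rw [ArithmeticFunction.isMultiplicative_sigma.map_mul_of_coprime (hc b),
      ArithmeticFunction.sigma_apply_prime_pow Nat.prime_two]
  have e1 : 2 * (2 * (2 ^ a * u)) = 2 ^ (a + 2) * u := by ring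
  have e2 : 2 * (2 ^ a * u) = 2 ^ (a + 1) * u := by ring
  rw [e1, e2, hs, hs, hs]
  have h1 : ∑ j ∈ Finset.range (a + 2 + 1), 2 ^ (j * k) =
      (∑ j ∈ Finset.range (a + 1 + 1), 2 ^ (j * k)) + 2 ^ ((a + 2) * k) :=
    Finset.sum_range_succ _ _
  have h2 : 2 ^ k * ∑ j ∈ Finset.range (a + 1), 2 ^ (j * k) + 1 =
      ∑ j ∈ Finset.range (a + 1 + 1), 2 ^ (j * k) := by
    rw [Finset.sum_range_succ' (fun j => 2 ^ (j * k)) (a + 1), Finset.mul_sum]
    congr 1
    · refine Finset.sum_congr rfl fun j _ => ?_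
      rw [← pow_add]
      congr 1
      ring
    · simp
  have h3 : 2 ^ k * ∑ j ∈ Finset.range (a + 1 + 1), 2 ^ (j * k) + 1 =
      ∑ j ∈ Finset.range (a + 2 + 1), 2 ^ (j * k) := by
    rw [Finset.sum_range_succ' (fun j => 2 ^ (j * k)) (a + 2), Finset.mul_sum]
    congr 1
    · refine Finset.sum_congr rfl fun j _ => ?_
      rw [← pow_add]
      congr 1
      ring
    · simp
  obtain ⟨A, hA⟩ : ∃ A, A = ∑ j ∈ Finset.range (a + 1), 2 ^ (j * k) := ⟨_, rfl⟩
  obtain ⟨B, hB⟩ : ∃ B, B = ∑ j ∈ Finset.range (a + 1 + 1), 2 ^ (j * k) := ⟨_, rfl⟩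
  obtain ⟨C, hC⟩ : ∃ C, C = ∑ j ∈ Finset.range (a + 2 + 1), 2 ^ (j * k) := ⟨_, rfl⟩
  rw [← hA, ← hB] at h2
  rw [← hB, ← hC] at h3
  rw [← hA, ← hB, ← hC]
  calc C * ArithmeticFunction.sigma k u + 2 ^ k * (A * ArithmeticFunction.sigma k u)
      = (C + 2 ^ k * A) * ArithmeticFunction.sigma k u := by ring
    _ = (1 + 2 ^ k) * (B * ArithmeticFunction.sigma k u) := by
        rw [← h3, ← mul_assoc]
        congr 1
        have : 2 ^ k * A + 1 = B := h2
        calc 2 ^ k * B + 1 + 2 ^ k * A = 2 ^ k * B + (2 ^ k * A + 1) := by ring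
          _ = (1 + 2 ^ k) * B := by rw [this]; ring

/-- the series -/
private def Sk (k : ℕ) (x : ℂ) : ℂ :=
  ∑' m : ℕ, (((ArithmeticFunction.sigma k) (m + 1) : ℕ) : ℂ) * x ^ (m + 1)

private theorem summable_Sk (k : ℕ) {x : ℂ} (hx : ‖x‖ < 1) :
    Summable (fun m : ℕ => (((ArithmeticFunction.sigma k) (m + 1) : ℕ) : ℂ) * x ^ (m + 1)) := by
  have h := (summable_nat_add_iff 1).mpr
    (summable_norm_pow_mul_geometric_of_norm_lt_one (k + 1) (r := x) hx)
  refine Summable.of_norm_bounded h fun m => ?_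
  rw [norm_mul, norm_mul, norm_pow (((m + 1 : ℕ) : ℂ)), Complex.norm_natCast, Complex.norm_natCast]
  refine mul_le_mul_of_nonneg_right ?_ (norm_nonneg _)
  exact_mod_cast ArithmeticFunction.sigma_le_pow_succ k (m + 1)

private theorem even_odd {f : ℕ → ℂ} (hf : Summable f) :
    ∑' m, f m = ∑' j, f (2 * j) + ∑' j, f (2 * j + 1) := by
  have h1 : Summable (fun j : ℕ => f (2 * j)) :=
    hf.comp_injective (i := fun j : ℕ => 2 * j) (fun a b h => by simpa using h)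
  have h2 : Summable (fun j : ℕ => f (2 * j + 1)) :=
    hf.comp_injective (i := fun j : ℕ => 2 * j + 1) (fun a b h => by simpa using h)
  exact (tsum_even_add_odd h1 h2).symm

private theorem key (k : ℕ) {p : ℂ} (hp : ‖p‖ < 1) :
    2 ^ k * Sk k ((p ^ 2) ^ 2) + (Sk k p + Sk k (-p)) / 2 = (2 ^ k + 1) * Sk k (p ^ 2) := by
  have hq : ‖p ^ 2‖ < 1 := by
    rw [norm_pow]
    exact pow_lt_one₀ (norm_nonneg _) hp (by norm_num)
  have hq2 : ‖(p ^ 2) ^ 2‖ < 1 := by
    rw [norm_pow]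
    exact pow_lt_one₀ (norm_nonneg _) hq (by norm_num)
  have hp' : ‖-p‖ < 1 := by rwa [norm_neg]
  have s1 := summable_Sk k hp
  have s2 := summable_Sk k hp'
  have s3 := summable_Sk k hq
  have s4 := summable_Sk k hq2
  -- the sum of the two halves
  have t1 : (Sk k p + Sk k (-p)) / 2 =
      ∑' j : ℕ, (((ArithmeticFunction.sigma k) (2 * (j + 1)) : ℕ) : ℂ) * (p ^ 2) ^ (j + 1) := by
    unfold Sk
    rw [← s1.tsum_add s2, even_odd (s1.add s2)]
    have z1 : ∀ j : ℕ, (((ArithmeticFunction.sigma k) (2 * j + 1) : ℕ) : ℂ) * p ^ (2 * j + 1) +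
        (((ArithmeticFunction.sigma k) (2 * j + 1) : ℕ) : ℂ) * (-p) ^ (2 * j + 1) = 0 := by
      intro j
      rw [Odd.neg_pow ⟨j, rfl⟩]
      ring
    have z2 : ∀ j : ℕ, (((ArithmeticFunction.sigma k) (2 * j + 1 + 1) : ℕ) : ℂ) *
        p ^ (2 * j + 1 + 1) +
        (((ArithmeticFunction.sigma k) (2 * j + 1 + 1) : ℕ) : ℂ) * (-p) ^ (2 * j + 1 + 1) =
        2 * ((((ArithmeticFunction.sigma k) (2 * (j + 1)) : ℕ) : ℂ) * (p ^ 2) ^ (j + 1)) := by
      intro j
      have e : 2 * j + 1 + 1 = 2 * (j + 1) := by ring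
      rw [e, Even.neg_pow ⟨j + 1, by ring⟩, pow_mul]
      ring
    rw [tsum_congr z1, tsum_congr z2, tsum_zero, zero_add, tsum_mul_left]
    ring
  have s5 : Summable (fun j : ℕ =>
      (((ArithmeticFunction.sigma k) (2 * (j + 1)) : ℕ) : ℂ) * (p ^ 2) ^ (j + 1)) := by
    have h := s1.comp_injective (i := fun j : ℕ => 2 * j + 1) (fun a b h => by simpa using h)
    refine h.congr fun j => ?_
    show (((ArithmeticFunction.sigma k) (2 * j + 1 + 1) : ℕ) : ℂ) * p ^ (2 * j + 1 + 1) = _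
    have e : 2 * j + 1 + 1 = 2 * (j + 1) := by ring
    rw [e, pow_mul]
  -- the difference
  have t2 : (∑' j : ℕ, (((ArithmeticFunction.sigma k) (2 * (j + 1)) : ℕ) : ℂ) *
      (p ^ 2) ^ (j + 1)) - (2 ^ k + 1) * Sk k (p ^ 2) = -(2 ^ k * Sk k ((p ^ 2) ^ 2)) := by
    unfold Sk
    rw [← tsum_mul_left, ← s5.tsum_sub (s3.mul_left _), even_odd (s5.sub (s3.mul_left _)),
      ← tsum_mul_left, ← tsum_neg]
    have z1 : ∀ j : ℕ, (((ArithmeticFunction.sigma k) (2 * (2 * j + 1)) : ℕ) : ℂ) *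
        (p ^ 2) ^ (2 * j + 1) - (2 ^ k + 1) * ((((ArithmeticFunction.sigma k) (2 * j + 1) : ℕ) : ℂ) *
        (p ^ 2) ^ (2 * j + 1)) = 0 := by
      intro j
      rw [sig_odd k (⟨j, rfl⟩ : Odd (2 * j + 1))]
      push_cast
      ring
    have z2 : ∀ j : ℕ, (((ArithmeticFunction.sigma k) (2 * (2 * j + 1 + 1)) : ℕ) : ℂ) *
        (p ^ 2) ^ (2 * j + 1 + 1) -
        (2 ^ k + 1) * ((((ArithmeticFunction.sigma k) (2 * j + 1 + 1) : ℕ) : ℂ) *
        (p ^ 2) ^ (2 * j + 1 + 1)) =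
        -(2 ^ k * ((((ArithmeticFunction.sigma k) (j + 1) : ℕ) : ℂ) * ((p ^ 2) ^ 2) ^ (j + 1))) := by
      intro j
      have e : 2 * j + 1 + 1 = 2 * (j + 1) := by ring
      have h := congrArg (fun x : ℕ => (x : ℂ)) (sig_even k (Nat.succ_ne_zero j))
      simp only [Nat.cast_add, Nat.cast_mul, Nat.cast_pow, Nat.cast_ofNat, Nat.cast_one,
        Nat.succ_eq_add_one] at h
      rw [e, pow_mul (p ^ 2) 2 (j + 1)]
      linear_combination ((p ^ 2) ^ 2) ^ (j + 1) * h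
    rw [tsum_congr z1, tsum_congr z2, tsum_zero, zero_add]
  rw [t1]
  linear_combination t2

private theorem norm_exp_lt {w : ℂ} (hw : 0 < w.im) :
    ‖Complex.exp (2 * (Real.pi : ℂ) * Complex.I * w)‖ < 1 := by
  rw [Complex.norm_exp]
  have h : (2 * (Real.pi : ℂ) * Complex.I * w).re = -(2 * Real.pi * w.im) := by
    simp
  rw [h, Real.exp_lt_one_iff]
  have := Real.pi_pos
  have : 0 < 2 * Real.pi * w.im := by positivity
  linarith

private theorem exp_args {w : ℂ} :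
    Complex.exp (2 * (Real.pi : ℂ) * Complex.I * (2 * w)) =
      (Complex.exp (2 * (Real.pi : ℂ) * Complex.I * (w / 2)) ^ 2) ^ 2 ∧
    Complex.exp (2 * (Real.pi : ℂ) * Complex.I * w) =
      Complex.exp (2 * (Real.pi : ℂ) * Complex.I * (w / 2)) ^ 2 ∧
    Complex.exp (2 * (Real.pi : ℂ) * Complex.I * ((w + 1) / 2)) =
      -Complex.exp (2 * (Real.pi : ℂ) * Complex.I * (w / 2)) := by
  refine ⟨?_, ?_, ?_⟩
  · rw [← pow_mul, ← Complex.exp_nat_mul]
    congr 1
    push_cast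
    ring
  · rw [← Complex.exp_nat_mul]
    congr 1
    push_cast
    ring
  · have h : 2 * (Real.pi : ℂ) * Complex.I * ((w + 1) / 2) =
        2 * (Real.pi : ℂ) * Complex.I * (w / 2) + (Real.pi : ℂ) * Complex.I := by ring
    rw [h, Complex.exp_add, Complex.exp_pi_mul_I]
    ring

private theorem keyw (k : ℕ) {w : ℂ} (hw : 0 < w.im) :
    2 ^ k * Sk k (Complex.exp (2 * (Real.pi : ℂ) * Complex.I * (2 * w))) +
      (Sk k (Complex.exp (2 * (Real.pi : ℂ) * Complex.I * (w / 2))) +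
        Sk k (Complex.exp (2 * (Real.pi : ℂ) * Complex.I * ((w + 1) / 2)))) / 2 =
      (2 ^ k + 1) * Sk k (Complex.exp (2 * (Real.pi : ℂ) * Complex.I * w)) := by
  obtain ⟨e1, e2, e3⟩ := exp_args (w := w)
  have hp : ‖Complex.exp (2 * (Real.pi : ℂ) * Complex.I * (w / 2))‖ < 1 := by
    apply norm_exp_lt
    have : (w / 2).im = w.im / 2 := by
      simp
    rw [this]
    linarith
  rw [e1, e2, e3]
  exact key k hp

theorem sig2 {w : ℂ} (hw : 0 < w.im) :
    2 * E2f (2 * w) + (E2f (w / 2) + E2f ((w + 1) / 2)) / 2 = 3 * E2f w := by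
  have h := keyw 1 hw
  unfold Sk at h
  unfold E2f
  linear_combination (-24) * h

theorem sig4 {w : ℂ} (hw : 0 < w.im) :
    8 * E4f (2 * w) + (E4f (w / 2) + E4f ((w + 1) / 2)) / 2 = 9 * E4f w := by
  have h := keyw 3 hw
  unfold Sk at h
  unfold E4f
  linear_combination 240 * h

theorem sig6 {w : ℂ} (hw : 0 < w.im) :
    32 * E6f (2 * w) + (E6f (w / 2) + E6f ((w + 1) / 2)) / 2 = 33 * E6f w := by
  have h := keyw 5 hw
  unfold Sk at h
  unfold E6f
  linear_combination (-504) * h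

end Pool.Agent.Lib.MP5e
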