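import Pool.Agent.Lib.MP_5e64e7_nt.UVal
import Pool.Agent.Lib.MP_5e64e7_nt.RBas
import Pool.Agent.Lib.MP_5e64e7_nt.RCmd

set_option autoImplicit false

/-!
# U.FLD : one number field for all the values at points of `ℚ(√(-D))` (block E, helper16)
-/

noncomputable section

namespace Pool.Agent.Lib.MP5e

open Polynomial Topology

/-- the base point of `ℚ(√(-D))`, with imaginary part between `1/2` and `1` -/
def usig (D : ℕ) : ℂ := qgr D 0 1 (Nat.sqrt D + 1)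

theorem qgr_im (D : ℕ) (x y : ℤ) (c : ℕ) : (qgr D x y c).im = (y : ℝ) * Real.sqrt D / c := by
  unfold qgr qom
  rw [Complex.div_natCast_im]
  simp

theorem usig_im {D : ℕ} (hD : 1 ≤ D) : 1 / 2 ≤ (usig D).im ∧ (usig D).im ≤ 1 := by
  have h1 : (usig D).im = Real.sqrt D / ((Nat.sqrt D : ℝ) + 1) := by
    unfold usig
    rw [qgr_im]
    push_cast
    rw [one_mul]
  have h0 : (0 : ℝ) ≤ Real.sqrt D := Real.sqrt_nonneg _
  have h2 : (Nat.sqrt D : ℝ) ≤ Real.sqrt D := Real.nat_sqrt_le_real_sqrt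
  have h3 : Real.sqrt D ≤ (Nat.sqrt D : ℝ) + 1 := Real.real_sqrt_le_nat_sqrt_succ
  have h4 : (1 : ℝ) ≤ Real.sqrt D := by
    rw [Real.one_le_sqrt]
    exact_mod_cast hD
  have h5 : (0 : ℝ) < (Nat.sqrt D : ℝ) + 1 := by positivity
  rw [h1]
  constructor
  · rw [div_le_div_iff₀ (by norm_num) h5]
    linarith
  · rw [div_le_one h5]
    exact h3

/-- a quadratic field -/
theorem uquad (x : ℂ) (D : ℤ) (hx : x ^ 2 = (D : ℂ)) :
    FiniteDimensional ℚ (IntermediateField.adjoin ℚ ({x} : Set ℂ)) ∧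
      Module.finrank ℚ (IntermediateField.adjoin ℚ ({x} : Set ℂ)) ≤ 2 := by
  have hmon : (Polynomial.X ^ 2 - Polynomial.C (D : ℚ)).Monic :=
    Polynomial.monic_X_pow_sub_C _ (by norm_num)
  have hroot : Polynomial.aeval x (Polynomial.X ^ 2 - Polynomial.C (D : ℚ)) = 0 := by
    simp [hx]
  have hint : IsIntegral ℚ x := ⟨_, hmon, by rwa [← Polynomial.aeval_def]⟩
  refine ⟨IntermediateField.adjoin.finiteDimensional hint, ?_⟩
  rw [IntermediateField.adjoin.finrank hint]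
  refine (Polynomial.natDegree_le_of_dvd (minpoly.dvd ℚ x hroot) hmon.ne_zero).trans ?_
  rw [Polynomial.natDegree_X_pow_sub_C]

theorem uqom_AI {K : IntermediateField ℚ ℂ} {D : ℕ} (h : qom D ∈ K) :
    AI K ((D : ℝ) + 1) (qom D) := by
  have h2 : (⟨qom D, h⟩ : K) ^ 2 = -(D : K) := by
    apply Subtype.ext
    simp [qom_sq]
  refine ⟨⟨qom D, h⟩, rfl, ?_, fun φ => ?_⟩
  · refine IsIntegral.of_pow (n := 2) (by norm_num) ?_
    rw [h2]
    have h3 : IsIntegral ℤ ((D : ℕ) : K) := by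
      have := isIntegral_algebraMap (R := ℤ) (A := K) (x := (D : ℤ))
      simpa using this
    exact h3.neg
  · have h3 : (φ ⟨qom D, h⟩) ^ 2 = -(D : ℂ) := by
      rw [← map_pow, h2]; simp
    have h4 : ‖φ ⟨qom D, h⟩‖ ^ 2 = (D : ℝ) := by
      rw [← norm_pow, h3]; simp
    nlinarith [norm_nonneg (φ ⟨qom D, h⟩), sq_nonneg (‖φ ⟨qom D, h⟩‖ - 1)]

private theorem ufl_two (N : ℕ) : (N : ℝ) ≤ 2 ^ N := by
  exact_mod_cast Nat.lt_two_pow_self.le

/-- the imaginary part -/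
theorem uim_alg {K : IntermediateField ℚ ℂ} {B D H c : ℕ} {x y : ℤ} (hB : 2 ≤ B)
    (hI : Complex.I ∈ K) (h : qom D ∈ K) (hD : D ≤ B) (hc : 1 ≤ c) (hcB : c ≤ B ^ H)
    (hy : 0 < y) (hyB : y ≤ (B : ℤ) ^ H) :
    RAlg K (B ^ (H + 3)) ((qgr D x y c).im : ℂ) := by
  have hBH : 1 ≤ B ^ H := Nat.one_le_pow _ _ (by omega)
  have hcC : (c : ℂ) ≠ 0 := by
    have : c ≠ 0 := by omega
    exact_mod_cast this
  have e0 : (c : ℂ) * ((qgr D x y c).im : ℂ) = -((y : ℂ) * (Complex.I * qom D)) := by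
    rw [qgr_im]
    push_cast
    rw [mul_div_cancel₀ _ hcC]
    unfold qom
    linear_combination ((y : ℂ) * ((Real.sqrt (D : ℝ) : ℝ) : ℂ)) * Complex.I_sq
  refine ⟨(c : ℂ), hcC, ?_, ?_⟩
  · refine (AI.nat K c).mono le_rfl ?_
    have h1 : c ≤ 2 ^ (B ^ (H + 3)) := by
      calc c ≤ B ^ H := hcB
        _ ≤ B ^ (H + 3) := Nat.pow_le_pow_right (by omega) (by omega)
        _ ≤ 2 ^ (B ^ (H + 3)) := Nat.lt_two_pow_self.le
    exact_mod_cast h1
  · rw [e0]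
    refine ((AI.int K y).mul ((AI.I hI).mul (uqom_AI h))).neg.mono le_rfl ?_
    have h1 : |(y : ℝ)| ≤ ((B ^ H : ℕ) : ℝ) := by
      rw [abs_of_pos (by exact_mod_cast hy)]
      exact_mod_cast hyB
    have h2 : (D : ℝ) + 1 ≤ ((B ^ 2 : ℕ) : ℝ) := by
      have : D + 1 ≤ B ^ 2 := by nlinarith
      exact_mod_cast this
    calc |(y : ℝ)| * (1 * ((D : ℝ) + 1)) ≤ ((B ^ H : ℕ) : ℝ) * ((B ^ 2 : ℕ) : ℝ) := by
          rw [one_mul]
          exact mul_le_mul h1 h2 (by positivity) (by positivity)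
      _ = ((B ^ (H + 2) : ℕ) : ℝ) := by push_cast; rw [pow_add]
      _ ≤ ((B ^ (H + 3) : ℕ) : ℝ) := by
          exact_mod_cast Nat.pow_le_pow_right (by omega) (by omega)
      _ ≤ 2 ^ (B ^ (H + 3)) := ufl_two _

private theorem ufl_qcmd {L : PeriodPair} {K K' : IntermediateField ℚ ℂ} {E E' lam : ℕ} {σ : ℂ}
    (hK : K ≤ K') (hE : E ≤ E') (h : QCMD L K E lam σ) : QCMD L K' E' lam σ := by
  obtain ⟨h1, h2, a, b, c, ha, hb, hc, h3, h4, h5⟩ := h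
  have hER : (2 : ℝ) ^ E ≤ (2 : ℝ) ^ E' := pow_le_pow_right₀ (by norm_num) hE
  exact ⟨h1, h2.trans (Nat.pow_le_pow_right (by norm_num) hE), a, b, c, ha.mono hK hER,
    hb.mono hK hER, hc.mono hK hER, h3, h4, h5⟩

/-- the points: coordinates of height at most `B^h` -/
def UGr {n : ℕ} (B D h : ℕ) (z : Fin n → ℂ) : Prop :=
  ∀ k, ∃ (c' : ℕ) (x' y' : ℤ), 1 ≤ c' ∧ c' ≤ B ^ h ∧ |x'| ≤ (B : ℤ) ^ h ∧ 0 < y' ∧
    y' ≤ (B : ℤ) ^ h ∧ z k = qgr D x' y' c'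

theorem ufld (n h : ℕ) : ∃ C : ℕ, ∀ (B D : ℕ) (z : Fin n → ℂ), 2 ≤ B → 1 ≤ D → D ≤ B →
    UGr B D h z →
    ∃ (L : PeriodPair) (K : IntermediateField ℚ ℂ) (lam0 : ℕ), FiniteDimensional ℚ K ∧
      Module.finrank ℚ K ≤ B ^ C ∧ Complex.I ∈ K ∧ qom D ∈ K ∧
      QCMD L K (B ^ C) lam0 (usig D) ∧ RAlg K (B ^ C) ((usig D).im : ℂ) ∧
      ∀ k, ∃ lam, QCMD L K (B ^ C) lam (z k) ∧ RAlg K (B ^ C) ((z k).im : ℂ) := by
  classical
  obtain ⟨Cb, hCb⟩ := rbas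
  obtain ⟨H, hH⟩ : ∃ H : ℕ, H = h + 2 := ⟨_, rfl⟩
  obtain ⟨C1, hC1⟩ : ∃ C1 : ℕ, C1 = 2 * Cb + 11 + 6 * H := ⟨_, rfl⟩
  refine ⟨C1 + (2 * Cb + 2) + 6 * H * (n + 1) + (H + 3), fun B D z hB hD1 hDB hz => ?_⟩
  have hBpos : 0 < B := by omega
  obtain ⟨L, F, r0, hQ, hF, hr⟩ := hCb D hD1
  have hD2 : D + 1 ≤ B ^ 2 := by nlinarith
  have hDC : (D + 1) ^ Cb ≤ B ^ (2 * Cb) := by
    rw [pow_mul]
    exact Nat.pow_le_pow_left hD2 Cb
  have hFfd : FiniteDimensional ℚ F := hQ.2.1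
  -- the base field
  obtain ⟨i1, i2⟩ := uquad Complex.I (-1) (by simp)
  obtain ⟨q1, q2⟩ := uquad (qom D) (-(D : ℤ)) (by rw [qom_sq]; push_cast; ring)
  obtain ⟨K0, hK0⟩ : ∃ K0 : IntermediateField ℚ ℂ, K0 = F ⊔
      (IntermediateField.adjoin ℚ ({Complex.I} : Set ℂ) ⊔
        IntermediateField.adjoin ℚ ({qom D} : Set ℂ)) := ⟨_, rfl⟩
  have hK0F : F ≤ K0 := by rw [hK0]; exact le_sup_left
  have hK0I : Complex.I ∈ K0 := by
    have h1 : IntermediateField.adjoin ℚ ({Complex.I} : Set ℂ) ≤ K0 := by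
      rw [hK0]
      exact le_sup_left.trans le_sup_right
    exact h1 (IntermediateField.mem_adjoin_simple_self ℚ _)
  have hK0q : qom D ∈ K0 := by
    have h1 : IntermediateField.adjoin ℚ ({qom D} : Set ℂ) ≤ K0 := by
      rw [hK0]
      exact le_sup_right.trans le_sup_right
    exact h1 (IntermediateField.mem_adjoin_simple_self ℚ _)
  have hK0fd : FiniteDimensional ℚ K0 := by
    rw [hK0]
    infer_instance
  have hK0r : Module.finrank ℚ K0 ≤ B ^ (2 * Cb + 2) := by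
    rw [hK0]
    have h1 := IntermediateField.finrank_sup_le F
      (IntermediateField.adjoin ℚ ({Complex.I} : Set ℂ) ⊔
        IntermediateField.adjoin ℚ ({qom D} : Set ℂ))
    have h2 := IntermediateField.finrank_sup_le
      (IntermediateField.adjoin ℚ ({Complex.I} : Set ℂ))
      (IntermediateField.adjoin ℚ ({qom D} : Set ℂ))
    have h3 : Module.finrank ℚ (IntermediateField.adjoin ℚ ({Complex.I} : Set ℂ) ⊔
        IntermediateField.adjoin ℚ ({qom D} : Set ℂ) : IntermediateField ℚ ℂ) ≤ 2 * 2 :=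
      h2.trans (Nat.mul_le_mul i2 q2)
    calc _ ≤ _ := h1
      _ ≤ B ^ (2 * Cb) * (2 * 2) := Nat.mul_le_mul (hF.trans hDC) h3
      _ ≤ B ^ (2 * Cb) * (B * B) := Nat.mul_le_mul_left _ (Nat.mul_le_mul hB hB)
      _ = B ^ (2 * Cb + 2) := by rw [pow_add]; ring
  -- the points
  obtain ⟨zz, hzz⟩ : ∃ zz : Option (Fin n) → ℂ, zz = fun o => o.elim (usig D) z := ⟨_, rfl⟩
  have hgr : ∀ o, ∃ (c' : ℕ) (x' y' : ℤ), 1 ≤ c' ∧ c' ≤ B ^ H ∧ |x'| ≤ ((B ^ H : ℕ) : ℤ) ∧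
      0 < y' ∧ y' ≤ ((B ^ H : ℕ) : ℤ) ∧ zz o = qgr D x' y' c' := by
    rintro (_ | k)
    · refine ⟨Nat.sqrt D + 1, 0, 1, by omega, ?_, ?_, one_pos, ?_, ?_⟩
      · have h1 : Nat.sqrt D ≤ D := Nat.sqrt_le_self D
        calc Nat.sqrt D + 1 ≤ D + 1 := by omega
          _ ≤ B ^ 2 := hD2
          _ ≤ B ^ H := Nat.pow_le_pow_right hBpos (by omega)
      · simp
      · exact_mod_cast Nat.one_le_pow _ _ hBpos
      · rw [hzz]
        rfl
    · obtain ⟨c', x', y', g1, g2, g3, g4, g5, g6⟩ := hz k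
      have h1 : B ^ h ≤ B ^ H := Nat.pow_le_pow_right hBpos (by omega)
      have h2 : (B : ℤ) ^ h ≤ ((B ^ H : ℕ) : ℤ) := by exact_mod_cast h1
      refine ⟨c', x', y', g1, g2.trans h1, g3.trans h2, g4, g5.trans h2, ?_⟩
      rw [hzz]
      exact g6
  have hE : 250 * (D + r0 + 1) * (B ^ H) ^ 6 ≤ B ^ C1 := by
    have g1 : 250 ≤ B ^ 8 := by
      calc 250 ≤ 2 ^ 8 := by norm_num
        _ ≤ B ^ 8 := Nat.pow_le_pow_left hB 8
    have g2 : D + r0 + 1 ≤ B ^ (2 * Cb + 3) := by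
      have g3 : r0 ≤ B ^ (2 * Cb) := hr.trans hDC
      have g4 : 1 ≤ B ^ (2 * Cb) := Nat.one_le_pow _ _ hBpos
      have g5 : B ^ (2 * Cb + 3) = B ^ (2 * Cb) * (B ^ 2 * B) := by
        rw [pow_add]
        ring
      have g6 : D + 1 + r0 ≤ B ^ (2 * Cb) * (B ^ 2 + 1) := by nlinarith
      have g7 : B ^ 2 + 1 ≤ B ^ 2 * B := by nlinarith
      calc D + r0 + 1 = D + 1 + r0 := by ring
        _ ≤ B ^ (2 * Cb) * (B ^ 2 + 1) := g6
        _ ≤ B ^ (2 * Cb) * (B ^ 2 * B) := Nat.mul_le_mul_left _ g7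
        _ = _ := g5.symm
    calc 250 * (D + r0 + 1) * (B ^ H) ^ 6
        ≤ B ^ 8 * B ^ (2 * Cb + 3) * (B ^ H) ^ 6 :=
          Nat.mul_le_mul_right _ (Nat.mul_le_mul g1 g2)
      _ = B ^ C1 := by
          rw [hC1, ← pow_mul, ← pow_add, ← pow_add]
          congr 1
          ring
  have h2H : 2 ≤ B ^ H := by
    calc 2 ≤ B ^ 1 := by rwa [pow_one]
      _ ≤ B ^ H := Nat.pow_le_pow_right hBpos (by omega)
  have key : ∀ s : Finset (Option (Fin n)), ∃ K : IntermediateField ℚ ℂ, K0 ≤ K ∧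
      FiniteDimensional ℚ K ∧
      Module.finrank ℚ K ≤ (B ^ (6 * H)) ^ s.card * Module.finrank ℚ K0 ∧
      ∀ o ∈ s, ∃ lam, QCMD L K (B ^ C1) lam (zz o) := by
    intro s
    induction s using Finset.induction_on with
    | empty => exact ⟨K0, le_rfl, hK0fd, by simp, by simp⟩
    | insert o s ho ih =>
      obtain ⟨K, h0, h1, h2, h3⟩ := ih
      obtain ⟨c', x', y', e3, e4, e5, e6, e7, e8⟩ := hgr o
      obtain ⟨K', k1, k2, k3, lam, k4⟩ := rcmd D hD1 L F r0 hQ K h1 (hK0F.trans h0) (B ^ H) c'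
        x' y' h2H e3 e4 e5 e6 e7
      refine ⟨K', h0.trans k1, k2, ?_, ?_⟩
      · rw [Finset.card_insert_of_notMem ho]
        calc Module.finrank ℚ K' ≤ (B ^ H) ^ 6 * Module.finrank ℚ K := k3
          _ ≤ (B ^ H) ^ 6 * ((B ^ (6 * H)) ^ s.card * Module.finrank ℚ K0) :=
              Nat.mul_le_mul_left _ h2
          _ = (B ^ (6 * H)) ^ (s.card + 1) * Module.finrank ℚ K0 := by
              rw [pow_succ (B ^ (6 * H)), ← pow_mul B H 6, mul_comm H 6]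
              ring
      · intro o' ho'
        rcases Finset.mem_insert.mp ho' with hoo | hoo
        · subst hoo
          rw [← e8] at k4
          exact ⟨lam, ufl_qcmd le_rfl hE k4⟩
        · obtain ⟨lam', hl⟩ := h3 o' hoo
          exact ⟨lam', ufl_qcmd k1 le_rfl hl⟩
  obtain ⟨K, h0, h1, h2, h3⟩ := key Finset.univ
  have hcard : (Finset.univ : Finset (Option (Fin n))).card = n + 1 := by
    rw [Finset.card_univ, Fintype.card_option, Fintype.card_fin]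
  rw [hcard] at h2
  have hCC : B ^ C1 ≤ B ^ (C1 + (2 * Cb + 2) + 6 * H * (n + 1) + (H + 3)) :=
    Nat.pow_le_pow_right hBpos (by omega)
  have hH3 : B ^ (H + 3) ≤ B ^ (C1 + (2 * Cb + 2) + 6 * H * (n + 1) + (H + 3)) :=
    Nat.pow_le_pow_right hBpos (by omega)
  have him : ∀ o, RAlg K (B ^ (C1 + (2 * Cb + 2) + 6 * H * (n + 1) + (H + 3)))
      ((zz o).im : ℂ) := by
    intro o
    obtain ⟨c', x', y', e3, e4, e5, e6, e7, e8⟩ := hgr o
    rw [e8]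
    refine RAlg.mono' le_rfl hH3 (uim_alg hB (h0 hK0I) (h0 hK0q) hDB e3 e4 e6 ?_)
    exact_mod_cast e7
  obtain ⟨lam0, hlam0⟩ := h3 none (Finset.mem_univ _)
  refine ⟨L, K, lam0, h1, ?_, h0 hK0I, h0 hK0q, ?_, ?_, ?_⟩
  · calc Module.finrank ℚ K ≤ (B ^ (6 * H)) ^ (n + 1) * Module.finrank ℚ K0 := h2
      _ ≤ (B ^ (6 * H)) ^ (n + 1) * B ^ (2 * Cb + 2) := Nat.mul_le_mul_left _ hK0r
      _ = B ^ (6 * H * (n + 1) + (2 * Cb + 2)) := by rw [← pow_mul, ← pow_add]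
      _ ≤ _ := Nat.pow_le_pow_right hBpos (by omega)
  · have h4 := ufl_qcmd le_rfl hCC hlam0
    rw [hzz] at h4
    exact h4
  · have h4 := him none
    rw [hzz] at h4
    exact h4
  · intro k
    obtain ⟨lam, hl⟩ := h3 (some k) (Finset.mem_univ _)
    refine ⟨lam, ?_, ?_⟩
    · have h4 := ufl_qcmd le_rfl hCC hl
      rw [hzz] at h4
      exact h4
    · have h4 := him (some k)
      rw [hzz] at h4
      exact h4

end Pool.Agent.Lib.MP5e
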