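import Pool.Agent.Lib.MP_5e64e7_nt.UFld

set_option autoImplicit false

/-!
# U.HT : heights of the values of rational functions at points of `ℚ(√(-D))` (block E; models `HHt.lean`, `RHt.lean`)

For an integer polynomial `P` in the variables `Fin m ⊕ Fin M` there is `h` such that for all `B, D, w', v'` with
`UPt B D w'`, `UPt B D v'` there are integers `q, p, r` with `P(w', v') q = p + r ω`, `ω = qom D`, `ω² = -D`,
`1 ≤ q ≤ B^h`, `|p|, |r| <= B^h`. Then `z' = A(w',v')/Bp(w',v')`,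
denominator `s + t ω`, multiply by `s - t ω`: `(s + t ω)(s - t ω) = s² + D t² >= 1`.
-/

noncomputable section

namespace Pool.Agent.Lib.MP5e

open Polynomial Topology

private theorem UHt_add {B M : ℕ} (hB : 2 ≤ B) {a b : ℤ} (ha : |a| ≤ ((B ^ M : ℕ) : ℤ))
    (hb : |b| ≤ ((B ^ M : ℕ) : ℤ)) : |a + b| ≤ ((B ^ (M + 1) : ℕ) : ℤ) := by
  have h1 := abs_add_le a b
  have h2 : B ^ M * 2 ≤ B ^ (M + 1) := by
    rw [pow_succ]
    exact Nat.mul_le_mul_left _ hB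
  have h3 : ((B ^ M * 2 : ℕ) : ℤ) ≤ ((B ^ (M + 1) : ℕ) : ℤ) := by exact_mod_cast h2
  push_cast at h3 ha hb ⊢
  linarith

private theorem UHt_mul {B M N : ℕ} {a b : ℤ} (ha : |a| ≤ ((B ^ M : ℕ) : ℤ))
    (hb : |b| ≤ ((B ^ N : ℕ) : ℤ)) : |a * b| ≤ ((B ^ (M + N) : ℕ) : ℤ) := by
  rw [abs_mul, pow_add]
  push_cast at ha hb ⊢
  exact mul_le_mul ha hb (abs_nonneg _) (by positivity)

private theorem UHt_mono {B M N : ℕ} (hB : 2 ≤ B) (h : M ≤ N) {a : ℤ}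
    (ha : |a| ≤ ((B ^ M : ℕ) : ℤ)) : |a| ≤ ((B ^ N : ℕ) : ℤ) := by
  refine le_trans ha ?_
  exact_mod_cast Nat.pow_le_pow_right (by omega) h

private theorem UHt_nat {B M c : ℕ} (h : c ≤ B ^ M) : |((c : ℕ) : ℤ)| ≤ ((B ^ M : ℕ) : ℤ) := by
  rw [abs_of_nonneg (by positivity)]
  exact_mod_cast h

/-- values of an integer polynomial at a point of `ℚ(√(-D))` of height at most `B` -/
private theorem UHt_poly {σ : Type*} (P : MvPolynomial σ ℤ) : ∃ h : ℕ, ∀ (B D : ℕ) (x : σ → ℂ),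
    2 ≤ B → D ≤ B → (∀ l, ∃ (a b : ℤ) (c : ℕ), 1 ≤ c ∧ c ≤ B ∧ |a| ≤ (B : ℤ) ∧ |b| ≤ (B : ℤ) ∧
      x l = qgr D a b c) → ∃ (q : ℕ) (p r : ℤ), 1 ≤ q ∧ q ≤ B ^ h ∧
      |p| ≤ ((B ^ h : ℕ) : ℤ) ∧ |r| ≤ ((B ^ h : ℕ) : ℤ) ∧
      MvPolynomial.aeval x P * (q : ℂ) = (p : ℂ) + (r : ℂ) * qom D := by
  induction P using MvPolynomial.induction_on with
  | C a =>
    refine ⟨a.natAbs, fun B D x hB _ _ => ⟨1, a, 0, le_rfl, ?_, ?_, ?_, ?_⟩⟩
    · exact Nat.one_le_pow _ _ (by omega)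
    · have h1 : a.natAbs ≤ B ^ a.natAbs :=
        le_trans (Nat.lt_two_pow_self).le (Nat.pow_le_pow_left hB _)
      have h2 : |a| = ((a.natAbs : ℕ) : ℤ) := by simp
      rw [h2]
      exact_mod_cast h1
    · rw [abs_zero]
      positivity
    · simp
  | add P Q ihP ihQ =>
    obtain ⟨h1, H1⟩ := ihP
    obtain ⟨h2, H2⟩ := ihQ
    refine ⟨h1 + h2 + 1, fun B D x hB hD hx => ?_⟩
    obtain ⟨q1, p1, r1, q1a, q1b, bp1, br1, E1⟩ := H1 B D x hB hD hx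
    obtain ⟨q2, p2, r2, q2a, q2b, bp2, br2, E2⟩ := H2 B D x hB hD hx
    refine ⟨q1 * q2, p1 * q2 + p2 * q1, r1 * q2 + r2 * q1, Nat.mul_pos q1a q2a, ?_,
      UHt_add hB ?_ ?_, UHt_add hB ?_ ?_, ?_⟩
    · calc q1 * q2 ≤ B ^ h1 * B ^ h2 := Nat.mul_le_mul q1b q2b
        _ = B ^ (h1 + h2) := (pow_add _ _ _).symm
        _ ≤ B ^ (h1 + h2 + 1) := Nat.pow_le_pow_right (by omega) (by omega)
    · exact UHt_mul bp1 (UHt_nat q2b)
    · exact UHt_mono hB (by omega) (UHt_mul bp2 (UHt_nat q1b))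
    · exact UHt_mul br1 (UHt_nat q2b)
    · exact UHt_mono hB (by omega) (UHt_mul br2 (UHt_nat q1b))
    · rw [map_add]
      push_cast
      linear_combination (q2 : ℂ) * E1 + (q1 : ℂ) * E2
  | mul_X P i ih =>
    obtain ⟨h1, H1⟩ := ih
    refine ⟨h1 + 3, fun B D x hB hD hx => ?_⟩
    obtain ⟨q1, p1, r1, q1a, q1b, bp1, br1, E1⟩ := H1 B D x hB hD hx
    obtain ⟨a, b, c, c1, cB, ha, hb, hxi⟩ := hx i
    have ha' : |a| ≤ ((B ^ 1 : ℕ) : ℤ) := by rw [pow_one]; exact ha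
    have hb' : |b| ≤ ((B ^ 1 : ℕ) : ℤ) := by rw [pow_one]; exact hb
    have hD' : |(-(D : ℤ))| ≤ ((B ^ 1 : ℕ) : ℤ) := by
      rw [abs_neg, pow_one, abs_of_nonneg (by positivity)]
      exact_mod_cast hD
    have hc0 : (c : ℂ) ≠ 0 := by exact_mod_cast (by omega : c ≠ 0)
    have hgr : x i * (c : ℂ) = (a : ℂ) + (b : ℂ) * qom D := by
      rw [hxi]
      unfold qgr
      rw [div_mul_cancel₀ _ hc0]
    refine ⟨q1 * c, p1 * a + r1 * b * (-(D : ℤ)), p1 * b + r1 * a, Nat.mul_pos q1a c1, ?_,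
      UHt_add (M := h1 + 2) hB ?_ ?_, UHt_add (M := h1 + 2) hB ?_ ?_, ?_⟩
    · calc q1 * c ≤ B ^ h1 * B ^ 1 := Nat.mul_le_mul q1b (by rw [pow_one]; exact cB)
        _ = B ^ (h1 + 1) := (pow_add _ _ _).symm
        _ ≤ B ^ (h1 + 3) := Nat.pow_le_pow_right (by omega) (by omega)
    · exact UHt_mono hB (by omega) (UHt_mul bp1 ha')
    · exact UHt_mul (M := h1 + 1) (N := 1) (UHt_mul br1 hb') hD'
    · exact UHt_mono hB (by omega) (UHt_mul bp1 hb')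
    · exact UHt_mono hB (by omega) (UHt_mul br1 ha')
    · rw [map_mul, MvPolynomial.aeval_X]
      have h4 : MvPolynomial.aeval x P * x i * ((q1 * c : ℕ) : ℂ) =
          (MvPolynomial.aeval x P * (q1 : ℂ)) * (x i * (c : ℂ)) := by push_cast; ring
      rw [h4, E1, hgr]
      push_cast
      linear_combination (r1 : ℂ) * b * qom_sq D

private theorem UHt_pt {m M : ℕ} {B D : ℕ} {w' : Fin m → ℂ} {v' : Fin M → ℂ} (hw : UPt B D w')
    (hv : UPt B D v') (l : Fin m ⊕ Fin M) : ∃ (a b : ℤ) (c : ℕ), 1 ≤ c ∧ c ≤ B ∧ |a| ≤ (B : ℤ) ∧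
      |b| ≤ (B : ℤ) ∧ Sum.elim w' v' l = qgr D a b c := by
  obtain ⟨-, -, a, b, c, H⟩ := hw
  obtain ⟨-, -, a', b', c', H'⟩ := hv
  rcases l with l | l
  · obtain ⟨h1, h2, h3, h4, h5⟩ := H l
    exact ⟨a l, b l, c l, h1, h2, h3, h4, h5⟩
  · obtain ⟨h1, h2, h3, h4, h5⟩ := H' l
    exact ⟨a' l, b' l, c' l, h1, h2, h3, h4, h5⟩

theorem uht {m M : ℕ} (A Bp : MvPolynomial (Fin m ⊕ Fin M) ℤ) :
    ∃ h : ℕ, ∀ (B D : ℕ) (w' : Fin m → ℂ) (v' : Fin M → ℂ), 2 ≤ B → UPt B D w' → UPt B D v' →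
      0 < (MvPolynomial.aeval (Sum.elim w' v') A / MvPolynomial.aeval (Sum.elim w' v') Bp : ℂ).im →
      ∃ (c' : ℕ) (x' y' : ℤ), 1 ≤ c' ∧ c' ≤ B ^ h ∧ |x'| ≤ (B : ℤ) ^ h ∧ 0 < y' ∧
        y' ≤ (B : ℤ) ^ h ∧
        MvPolynomial.aeval (Sum.elim w' v') A / MvPolynomial.aeval (Sum.elim w' v') Bp =
          qgr D x' y' c' := by
  obtain ⟨hA, HA⟩ := UHt_poly A
  obtain ⟨hQ, HQ⟩ := UHt_poly Bp
  refine ⟨hA + 3 * hQ + 2, fun B D w' v' hB hw hv him => ?_⟩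
  have hD1 : 1 ≤ D := hw.1
  have hDB : D ≤ B := hw.2.1
  obtain ⟨q1, p, r, q1a, q1b, bp, br, E1⟩ := HA B D _ hB hDB (UHt_pt hw hv)
  obtain ⟨q2, s, t, q2a, q2b, bs, bt, E2⟩ := HQ B D _ hB hDB (UHt_pt hw hv)
  set u : ℂ := MvPolynomial.aeval (Sum.elim w' v') A with hu
  set v : ℂ := MvPolynomial.aeval (Sum.elim w' v') Bp with hv'
  have hq1 : (q1 : ℂ) ≠ 0 := by exact_mod_cast (by omega : q1 ≠ 0)
  have hq2 : (q2 : ℂ) ≠ 0 := by exact_mod_cast (by omega : q2 ≠ 0)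
  have hDz : (1 : ℤ) ≤ (D : ℤ) := by exact_mod_cast hD1
  have hv0 : v ≠ 0 := by
    intro h0
    rw [h0, div_zero, Complex.zero_im] at him
    exact lt_irrefl _ him
  have hV : s ^ 2 + D * t ^ 2 ≠ 0 := by
    intro h0
    have h2 : t = 0 := by
      by_contra ht
      have h3 : 0 < t ^ 2 := by positivity
      nlinarith [sq_nonneg s]
    have h1 : s = 0 := by
      rw [h2] at h0
      have h4 : s ^ 2 = 0 := by linarith
      exact (pow_eq_zero_iff two_ne_zero).1 h4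
    rw [h1, h2] at E2
    apply hv0
    have h3 : v * (q2 : ℂ) = 0 := by rw [E2]; simp
    exact (mul_eq_zero.1 h3).resolve_right hq2
  have hVpos : 0 < s ^ 2 + D * t ^ 2 := lt_of_le_of_ne (by positivity) (Ne.symm hV)
  obtain ⟨g, hg⟩ := Int.eq_ofNat_of_zero_le hVpos.le
  have hg1 : 1 ≤ g := by omega
  have hgC : (g : ℂ) = (s : ℂ) ^ 2 + (D : ℂ) * (t : ℂ) ^ 2 := by
    have : ((g : ℤ) : ℂ) = ((s ^ 2 + D * t ^ 2 : ℤ) : ℂ) := by rw [hg]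
    push_cast at this
    exact this
  have hg0 : (g : ℂ) ≠ 0 := by exact_mod_cast (by omega : g ≠ 0)
  have hD' : |(D : ℤ)| ≤ ((B ^ 1 : ℕ) : ℤ) := by
    rw [pow_one, abs_of_nonneg (by positivity)]
    exact_mod_cast hDB
  have hval : u / v = qgr D ((q2 : ℤ) * (p * s + r * t * D)) ((q2 : ℤ) * (r * s + p * (-t)))
      (q1 * g) := by
    unfold qgr
    have h2 : ((q1 * g : ℕ) : ℂ) ≠ 0 := by push_cast; exact mul_ne_zero hq1 hg0
    have h3 : (v * (q2 : ℂ)) * ((s : ℂ) - (t : ℂ) * qom D) = (g : ℂ) := by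
      rw [E2, hgC]
      linear_combination (-(t : ℂ) ^ 2) * qom_sq D
    rw [div_eq_div_iff hv0 h2]
    have h5 : (s : ℂ) - (t : ℂ) * qom D ≠ 0 := by
      intro h6
      rw [h6, mul_zero] at h3
      exact hg0 h3.symm
    push_cast
    have h6 : u * ((q1 : ℂ) * (g : ℂ)) = ((p : ℂ) + (r : ℂ) * qom D) * (g : ℂ) := by
      rw [← E1]; ring
    have h7 : ((q2 : ℂ) * ((p : ℂ) * s + r * t * D) + (q2 : ℂ) * ((r : ℂ) * s + p * -t) * qom D) * v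
        = ((p : ℂ) + (r : ℂ) * qom D) * ((v * (q2 : ℂ)) * ((s : ℂ) - (t : ℂ) * qom D)) := by
      linear_combination ((r : ℂ) * t * v * q2) * qom_sq D
    rw [h6, h7, h3]
  have hqg : 1 ≤ q1 * g := Nat.mul_pos q1a hg1
  have hy : 0 < (q2 : ℤ) * (r * s + p * (-t)) := by
    rw [hval, qgr_im] at him
    have h1 : (0 : ℝ) < ((q1 * g : ℕ) : ℝ) := by exact_mod_cast hqg
    have h2 : (0 : ℝ) < Real.sqrt D := Real.sqrt_pos.2 (by exact_mod_cast hD1)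
    have h3 := (div_pos_iff_of_pos_right h1).mp him
    have h4 := (pos_iff_pos_of_mul_pos h3).2 h2
    exact_mod_cast h4
  have bD := UHt_mul (UHt_mul br bt) hD'
  refine ⟨q1 * g, (q2 : ℤ) * (p * s + r * t * D), (q2 : ℤ) * (r * s + p * (-t)), hqg, ?_, ?_, hy,
    ?_, hval⟩
  · have h1 : |s * s + t * t * D| ≤ ((B ^ (hQ + hQ + 1 + 1) : ℕ) : ℤ) :=
      UHt_add hB (UHt_mono hB (by omega) (UHt_mul bs bs)) (UHt_mul (UHt_mul bt bt) hD')
    have h3 : (g : ℤ) = s * s + t * t * D := by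
      have : (g : ℤ) = s ^ 2 + D * t ^ 2 := hg.symm
      rw [this]; ring
    have h4 : |((q1 : ℕ) : ℤ) * (g : ℤ)| ≤ ((B ^ (hA + (hQ + hQ + 1 + 1)) : ℕ) : ℤ) := by
      rw [h3]
      exact UHt_mul (UHt_nat q1b) h1
    have h5 := le_trans (le_abs_self _) (UHt_mono hB
      (by omega : hA + (hQ + hQ + 1 + 1) ≤ hA + 3 * hQ + 2) h4)
    exact_mod_cast h5
  · have h1 : |p * s + r * t * D| ≤ ((B ^ (hA + hQ + 1 + 1) : ℕ) : ℤ) :=
      UHt_add hB (UHt_mono hB (by omega) (UHt_mul bp bs)) bD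
    have h2 := UHt_mono hB (by omega : hQ + (hA + hQ + 1 + 1) ≤ hA + 3 * hQ + 2)
      (UHt_mul (UHt_nat q2b) h1)
    push_cast at h2
    exact h2
  · have btn : |-t| ≤ ((B ^ hQ : ℕ) : ℤ) := by rw [abs_neg]; exact bt
    have h1 : |r * s + p * (-t)| ≤ ((B ^ (hA + hQ + 1) : ℕ) : ℤ) :=
      UHt_add hB (UHt_mul br bs) (UHt_mul bp btn)
    have h2 := le_trans (le_abs_self _) (UHt_mono hB
      (by omega : hQ + (hA + hQ + 1) ≤ hA + 3 * hQ + 2) (UHt_mul (UHt_nat q2b) h1))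
    push_cast at h2
    exact h2

/-- clearing denominators -/
private theorem UHt_clear {σ : Type*} (P : MvPolynomial σ ℚ) : ∃ (n : ℕ) (Q : MvPolynomial σ ℤ),
    n ≠ 0 ∧ ∀ x : σ → ℂ, MvPolynomial.aeval x Q = (n : ℂ) * MvPolynomial.aeval x P := by
  induction P using MvPolynomial.induction_on with
  | C a =>
    refine ⟨a.den, MvPolynomial.C a.num, a.den_nz, fun x => ?_⟩
    have h0 : (a.den : ℂ) ≠ 0 := by exact_mod_cast a.den_nz
    have h1 : ((a : ℚ) : ℂ) = (a.num : ℂ) / (a.den : ℂ) := by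
      exact Rat.cast_def a
    rw [MvPolynomial.algHom_C, MvPolynomial.algHom_C]
    have h2 : (algebraMap ℚ ℂ) a = (a : ℂ) := by simp
    have h3 : (algebraMap ℤ ℂ) a.num = (a.num : ℂ) := by simp
    rw [h2, h3, h1, mul_div_cancel₀ _ h0]
  | add P Q ihP ihQ =>
    obtain ⟨n1, Q1, hn1, H1⟩ := ihP
    obtain ⟨n2, Q2, hn2, H2⟩ := ihQ
    refine ⟨n1 * n2, (n2 : MvPolynomial σ ℤ) * Q1 + (n1 : MvPolynomial σ ℤ) * Q2,
      mul_ne_zero hn1 hn2, fun x => ?_⟩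
    rw [map_add, map_mul, map_mul, map_natCast, map_natCast, H1, H2, map_add]
    push_cast
    ring
  | mul_X P i ih =>
    obtain ⟨n1, Q1, hn1, H1⟩ := ih
    refine ⟨n1, Q1 * MvPolynomial.X i, hn1, fun x => ?_⟩
    rw [map_mul, MvPolynomial.aeval_X, H1, map_mul, MvPolynomial.aeval_X]
    ring

/-- elements of `ℚ(w, v)` are quotients of integer polynomials -/
theorem uE_form {m M : ℕ} (w : Fin m → ℂ) (v : Fin M → ℂ) (z : ℂ) (hz : z ∈ UE w v) :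
    ∃ A Bp : MvPolynomial (Fin m ⊕ Fin M) ℤ, MvPolynomial.aeval (Sum.elim w v) Bp ≠ (0 : ℂ) ∧
      z = MvPolynomial.aeval (Sum.elim w v) A / MvPolynomial.aeval (Sum.elim w v) Bp := by
  unfold UE at hz
  rw [← Set.Sum.elim_range, IntermediateField.mem_adjoin_range_iff] at hz
  obtain ⟨r, s, hrs⟩ := hz
  obtain ⟨n1, A, hn1, H1⟩ := UHt_clear r
  obtain ⟨n2, S, hn2, H2⟩ := UHt_clear s
  have h1 : (n1 : ℂ) ≠ 0 := by exact_mod_cast hn1
  have h2 : (n2 : ℂ) ≠ 0 := by exact_mod_cast hn2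
  by_cases h0 : (MvPolynomial.aeval (Sum.elim w v) s : ℂ) = 0
  · refine ⟨0, 1, by simp, ?_⟩
    rw [hrs, h0]
    simp
  · refine ⟨(n2 : MvPolynomial (Fin m ⊕ Fin M) ℤ) * A, (n1 : MvPolynomial (Fin m ⊕ Fin M) ℤ) * S,
      ?_, ?_⟩
    · rw [map_mul, map_natCast, H2]
      exact mul_ne_zero h1 (mul_ne_zero h2 h0)
    · rw [map_mul, map_natCast, H1, map_mul, map_natCast, H2, hrs]
      field_simp

/-- the coordinates are algebraic with controlled degree and height -/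
theorem uPt_alg {m : ℕ} : ∃ C : ℕ, ∀ (B D : ℕ) (x : Fin m → ℂ) (K : IntermediateField ℚ ℂ),
    2 ≤ B → UPt B D x → qom D ∈ K → ∀ l, RAlg K (B ^ C) (x l) := by
  refine ⟨4, fun B D x K hB hx hK l => ?_⟩
  obtain ⟨hD1, hDB, a, b, c, H⟩ := hx
  obtain ⟨c1, cB, ha, hb, hxl⟩ := H l
  have hc0 : (c l : ℂ) ≠ 0 := by exact_mod_cast (by omega : c l ≠ 0)
  have hB2 : (2 : ℝ) ≤ (B : ℝ) := by exact_mod_cast hB
  have hbig : (B : ℝ) ^ 4 ≤ 2 ^ (B ^ 4) := by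
    have h1 : B ^ 4 ≤ 2 ^ (B ^ 4) := Nat.lt_two_pow_self.le
    exact_mod_cast h1
  have hDr : (D : ℝ) ≤ (B : ℝ) := by exact_mod_cast hDB
  have har : |((a l : ℤ) : ℝ)| ≤ (B : ℝ) := by exact_mod_cast ha
  have hbr : |((b l : ℤ) : ℝ)| ≤ (B : ℝ) := by exact_mod_cast hb
  refine ⟨(c l : ℂ), hc0, ?_, ?_⟩
  · refine (AI.nat K (c l)).mono le_rfl (le_trans ?_ hbig)
    have h1 : ((c l : ℕ) : ℝ) ≤ (B : ℝ) := by exact_mod_cast cB
    nlinarith [pow_nonneg (by linarith : (0 : ℝ) ≤ B) 3, pow_le_pow_left₀ (by norm_num : (0 : ℝ) ≤ 2) hB2 3]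
  · have e0 : (c l : ℂ) * x l = (a l : ℂ) + (b l : ℂ) * qom D := by
      rw [hxl]
      unfold qgr
      rw [mul_div_cancel₀ _ hc0]
    rw [e0]
    refine ((AI.int K (a l)).add ((AI.int K (b l)).mul (uqom_AI hK))).mono le_rfl
      (le_trans ?_ hbig)
    have h2 : |((b l : ℤ) : ℝ)| * ((D : ℝ) + 1) ≤ (B : ℝ) * ((B : ℝ) + 1) :=
      mul_le_mul hbr (by linarith) (by positivity) (by linarith)
    have h3 : (B : ℝ) + (B : ℝ) * ((B : ℝ) + 1) ≤ (B : ℝ) ^ 4 := by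
      have h4 : (4 : ℝ) ≤ (B : ℝ) ^ 2 := by nlinarith
      have h5 : (B : ℝ) ^ 4 = (B : ℝ) ^ 2 * (B : ℝ) ^ 2 := by ring
      nlinarith [sq_nonneg ((B : ℝ) ^ 2)]
    linarith

end Pool.Agent.Lib.MP5e
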