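import Pool.Agent.Lib.MP_5e64e7_nt.UTra
import Pool.Agent.Lib.MP_5e64e7_nt.UHt
import Pool.Agent.Lib.MP_5e64e7_nt.UFld
import Pool.Agent.Lib.MP_5e64e7_nt.RLow
import Pool.Agent.Lib.MP_5e64e7_nt.GFunC

set_option autoImplicit false

/-!
# U.ADM : the stages; `w` is algebraically independent (block E, helper16)
-/

noncomputable section

namespace Pool.Agent.Lib.MP5e

open Polynomial Topology

/-- the admissible points of height at most `B` -/
def UAdm {m M : ℕ} (w : Fin m → ℂ) (v : Fin M → ℂ) (ε : ℝ) (B : ℕ) (x : Fin m → ℂ) : Prop :=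
  ∃ (D : ℕ) (v' : Fin M → ℂ), UPt B D x ∧ UPt B D v' ∧ USpec w v x v' ∧ ∀ j, ‖v j - v' j‖ ≤ ε

theorem uadm {m M : ℕ} {w : Fin m → ℂ} {v : Fin M → ℂ} (h : UCM w v) {ε : ℝ} (hε : 0 < ε)
    (C : ℕ) : ∃ (B : ℕ) (x : Fin m → ℂ), 2 ≤ B ∧ UAdm w v ε B x ∧ (∀ l, w l ≠ x l) ∧
      (∀ l : Fin m, (l : ℕ) = 0 → ‖w l - x l‖ ≤ Real.exp (-((B : ℝ) ^ C))) ∧
      (∀ l l' : Fin m, (l' : ℕ) = (l : ℕ) + 1 → ‖w l' - x l'‖ ≤ ‖w l - x l‖ ^ C) := by
  obtain ⟨n, hn⟩ := exists_nat_one_div_lt hε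
  obtain ⟨B, D, w', v', hB, h1, h2, h3, h4, h5, h6, h7⟩ := h.2 (max C n)
  have hB1 : (1 : ℝ) ≤ B := by exact_mod_cast (by omega : 1 ≤ B)
  have hle : ∀ (k : ℕ) (l : Fin m), (l : ℕ) = k → ‖w l - w' l‖ ≤ 1 := by
    intro k
    induction k with
    | zero =>
      intro l hl
      refine (h6 l hl).trans ?_
      rw [Real.exp_le_one_iff]
      have : (0 : ℝ) ≤ (B : ℝ) ^ (max C n) := by positivity
      linarith
    | succ k ih =>
      intro l hl
      have hk : k < m := by omega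
      refine (h7 ⟨k, hk⟩ l hl).trans ?_
      exact pow_le_one₀ (norm_nonneg _) (ih ⟨k, hk⟩ rfl)
  refine ⟨B, w', hB, ⟨D, v', h1, h2, h3, fun j => (h4 j).trans ?_⟩, h5, ?_, ?_⟩
  · refine le_trans ?_ hn.le
    have h8 : (n : ℝ) ≤ ((max C n : ℕ) : ℝ) := by exact_mod_cast le_max_right C n
    apply one_div_le_one_div_of_le (by positivity)
    linarith
  · intro l hl
    refine (h6 l hl).trans (Real.exp_le_exp.mpr ?_)
    have h8 : (B : ℝ) ^ C ≤ (B : ℝ) ^ (max C n) := pow_le_pow_right₀ hB1 (le_max_left _ _)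
    linarith
  · intro l l' hl
    refine (h7 l l' hl).trans ?_
    exact pow_le_pow_of_le_one (norm_nonneg _) (hle _ l rfl) (le_max_left _ _)

/-- a polynomial which vanishes near a point is zero -/
theorem upoly_zero {m : ℕ} (w : Fin m → ℂ) (P : MvPolynomial (Fin m) ℂ)
    (hP : ∀ᶠ x in 𝓝 w, MvPolynomial.eval x P = 0) : P = 0 := by
  have hinj : Function.Injective (Sum.inl : Fin m → Fin m ⊕ (Fin 0 × Fin 3)) :=
    Sum.inl_injective
  have h1 : MvPolynomial.rename (Sum.inl : Fin m → Fin m ⊕ (Fin 0 × Fin 3)) P = 0 := by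
    apply gfunC (n := 0) (fun k => Fin.elim0 k) w (fun k => Fin.elim0 k) (fun k => Fin.elim0 k)
      (fun k => Fin.elim0 k)
    filter_upwards [hP] with x hx
    rw [MvPolynomial.eval_rename]
    exact hx
  exact MvPolynomial.rename_injective _ hinj (by rw [h1, map_zero])

theorem aeval_analytic {m : ℕ} (w : Fin m → ℂ) (P : MvPolynomial (Fin m) ℤ) :
    AnalyticAt ℂ (fun x : Fin m → ℂ => (MvPolynomial.aeval x P : ℂ)) w := by
  induction P using MvPolynomial.induction_on with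
  | C a =>
    simp only [MvPolynomial.aeval_C]
    exact analyticAt_const
  | add p q hp hq =>
    simp only [map_add]
    exact hp.add hq
  | mul_X p i hp =>
    simp only [map_mul, MvPolynomial.aeval_X]
    exact hp.mul ((ContinuousLinearMap.proj (R := ℂ) (φ := fun _ : Fin m => ℂ) i).analyticAt w)

/-- `w` is algebraically independent -/
theorem uw {m M : ℕ} {w : Fin m → ℂ} {v : Fin M → ℂ} (h : UCM w v) :
    AlgebraicIndependent ℚ w := by
  have hint : AlgebraicIndependent ℤ w := by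
    rw [algebraicIndependent_iff]
    intro P hP0
    obtain ⟨C0, hC0⟩ := uPt_alg (m := m)
    obtain ⟨C1, hC1⟩ := rlow P (C0 + 1)
    have h1 := utransfer w (UAdm w v 1) (uadm h one_pos)
      (fun x => (MvPolynomial.aeval x P : ℂ)) (aeval_analytic w P) hP0 Set.univ
      Filter.univ_mem C1 (by
        rintro B x hB ⟨D, v', hx, -⟩ -
        have hBpos : 0 < B := by omega
        obtain ⟨q1, q2⟩ := uquad (qom D) (-(D : ℤ)) (by rw [qom_sq]; push_cast; ring)
        refine hC1 B (IntermediateField.adjoin ℚ ({qom D} : Set ℂ)) x hB q1 ?_ ?_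
        · calc _ ≤ 2 := q2
            _ ≤ B ^ 1 := by rwa [pow_one]
            _ ≤ B ^ (C0 + 1) := Nat.pow_le_pow_right hBpos (by omega)
        · intro l
          exact (hC0 B D x _ hB hx (IntermediateField.mem_adjoin_simple_self ℚ _) l).mono' le_rfl
            (Nat.pow_le_pow_right hBpos (by omega)))
    have h2 : MvPolynomial.map (Int.castRingHom ℂ) P = 0 := by
      apply upoly_zero w
      filter_upwards [h1] with x hx
      rw [MvPolynomial.eval_map]
      exact hx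
    exact (map_eq_zero_iff _ (MvPolynomial.map_injective _ (RingHom.injective_int _))).1 h2
  have : Algebra.IsAlgebraic ℤ ℚ :=
    ⟨fun x => (IsFractionRing.isAlgebraic_iff ℤ ℚ ℚ).mpr (isAlgebraic_algebraMap x)⟩
  exact hint.extendScalars ℚ

end Pool.Agent.Lib.MP5e
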