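import Pool.Agent.Lib.MP_5e64e7_nt.UDefs
import Pool.Agent.Lib.MP_5e64e7_nt.Approx
import Pool.Agent.Lib.MP_5e64e7_nt.TransA

set_option autoImplicit false

/-!
# U.BD : bounds on the strip `1/R <= Im tau <= R` (block B)

`E2f, E4f, E6f` are functions of `q = uq tau`, `|q| = exp(-2 pi Im tau)` in a compact subset of `(0,1)`, so the series are
bounded by constants (`sigma_k (n) <= n^(k+1)`; or continuity and periodicity with period `1`: the rectangle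
`0 <= Re <= 1, 1/R <= Im <= R` is compact). `udisc`: `disc_ne` and compactness (`E4f_add_int`, `E6f_add_int`).
`us_bd`: `s^6 (b^3 - c^2) = E4^3 - E6^2`; `b^3 - c^2` is a nonzero `AI K (2 * 2^(3N))`, so its absolute value is at least
`(2 * 2^(3N))^(-(N-1))` (norm; see `ai_low`) and at most `2 * 2^(3N)`.
`ai_low`: the norm of a nonzero algebraic integer is a nonzero integer: see the last part of the proof of `liou` in `Liou.lean`.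
-/

noncomputable section

namespace Pool.Agent.Lib.MP5e

open Polynomial Topology

/-- the absolute value of the norm of a nonzero algebraic integer is at least `1` -/
theorem ai_norm {F : Type*} [Field F] [Algebra ℚ F] [FiniteDimensional ℚ F] {a : F}
    (hint : IsIntegral ℤ a) (ha0 : a ≠ 0) : (1 : ℝ) ≤ ‖∏ σ : F →ₐ[ℚ] ℂ, σ a‖ := by
  have h := Algebra.isIntegral_norm ℚ hint
  obtain ⟨z, hz⟩ := (IsIntegrallyClosed.isIntegral_iff (R := ℤ) (K := ℚ)).1 h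
  have hz0 : z ≠ 0 := by
    intro h1
    rw [h1, map_zero] at hz
    exact ha0 (Algebra.norm_eq_zero_iff.1 hz.symm)
  have hnorm := Algebra.norm_eq_prod_embeddings ℚ ℂ a
  rw [← hnorm, ← hz]
  have h1 : (algebraMap ℚ ℂ) ((algebraMap ℤ ℚ) z) = (z : ℂ) := by simp
  rw [h1, Complex.norm_intCast]
  have h2 : (1 : ℤ) ≤ |z| := Int.one_le_abs hz0
  exact_mod_cast h2

theorem ai_low {K : IntermediateField ℚ ℂ} (hK : FiniteDimensional ℚ K) {M : ℝ} (hM : 1 ≤ M)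
    {x : ℂ} (hx : AI K M x) (h0 : x ≠ 0) : 1 ≤ ‖x‖ * M ^ (Module.finrank ℚ K - 1) := by
  classical
  obtain ⟨a, ha, hint, hb⟩ := hx
  have ha0 : a ≠ 0 := by
    rintro rfl
    apply h0
    rw [← ha]
    simp
  have hz1 := ai_norm hint ha0
  have hsplit : ∏ σ : K →ₐ[ℚ] ℂ, σ a =
      (K.val a) * ∏ σ ∈ (Finset.univ : Finset (K →ₐ[ℚ] ℂ)).erase K.val, σ a :=
    (Finset.mul_prod_erase _ (fun σ : K →ₐ[ℚ] ℂ => σ a) (Finset.mem_univ _)).symm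
  have hcard : (Finset.univ.erase K.val : Finset (K →ₐ[ℚ] ℂ)).card = Module.finrank ℚ K - 1 := by
    rw [Finset.card_erase_of_mem (Finset.mem_univ _), Finset.card_univ, AlgHom.card ℚ K ℂ]
  have hval : (K.val a) = x := ha
  rw [hsplit, norm_mul, hval] at hz1
  refine hz1.trans (mul_le_mul_of_nonneg_left ?_ (norm_nonneg _))
  rw [norm_prod, ← hcard]
  exact (Finset.prod_le_prod (fun _ _ => norm_nonneg _) (fun σ _ => hb σ)).trans_eq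
    (Finset.prod_const _)

/-- a function of period `1`, continuous on `ℍ`, is bounded on the strip `1 / R ≤ Im τ ≤ R` (helper21) -/
theorem udisc_bdd (f : ℂ → ℂ) (hf : ∀ w : ℂ, 0 < w.im → ContinuousAt f w)
    (hper : ∀ (w : ℂ) (v : ℤ), f (w + v) = f w) (R : ℝ) (hR : 0 < R) :
    ∃ C : ℝ, ∀ τ : ℂ, 1 / R ≤ τ.im → τ.im ≤ R → ‖f τ‖ ≤ C := by
  have hS : IsCompact (Set.Icc (0 : ℝ) 1 ×ℂ Set.Icc (1 / R) R) := isCompact_Icc.reProdIm isCompact_Icc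
  have hR' : 0 < 1 / R := by positivity
  obtain ⟨C, hC⟩ := hS.exists_bound_of_continuousOn (f := f) (fun w hw =>
    (hf w (lt_of_lt_of_le hR' (Complex.mem_reProdIm.1 hw).2.1)).continuousWithinAt)
  refine ⟨C, fun τ h1 h2 => ?_⟩
  have h3 : f τ = f (τ + ((-⌊τ.re⌋ : ℤ) : ℂ)) := (hper τ _).symm
  rw [h3]
  refine hC _ (Complex.mem_reProdIm.2 ⟨?_, ?_⟩)
  · rw [Complex.add_re, Complex.intCast_re, Int.cast_neg]
    exact ⟨by linarith [Int.floor_le τ.re], by linarith [Int.lt_floor_add_one τ.re]⟩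
  · rw [Complex.add_im, Complex.intCast_im, add_zero]
    exact ⟨h1, h2⟩

theorem uEbd (R : ℝ) (hR : 0 < R) : ∃ C : ℝ, 1 ≤ C ∧ ∀ τ : ℂ, R⁻¹ ≤ τ.im → τ.im ≤ R →
    ‖E2f τ‖ ≤ C ∧ ‖E4f τ‖ ≤ C ∧ ‖E6f τ‖ ≤ C := by
  obtain ⟨C2, h2⟩ := udisc_bdd E2f (fun w hw => (E2f_diff hw).continuousAt) E2f_add_int R hR
  obtain ⟨C4, h4⟩ := udisc_bdd E4f (fun w hw => (E4f_diff hw).continuousAt) E4f_add_int R hR
  obtain ⟨C6, h6⟩ := udisc_bdd E6f (fun w hw => (E6f_diff hw).continuousAt) E6f_add_int R hR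
  refine ⟨max 1 (max C2 (max C4 C6)), le_max_left _ _, fun τ h7 h8 => ?_⟩
  rw [inv_eq_one_div] at h7
  refine ⟨(h2 τ h7 h8).trans ?_, (h4 τ h7 h8).trans ?_, (h6 τ h7 h8).trans ?_⟩
  · exact (le_max_left _ _).trans (le_max_right _ _)
  · exact ((le_max_left _ _).trans (le_max_right _ _)).trans (le_max_right _ _)
  · exact ((le_max_right _ _).trans (le_max_right _ _)).trans (le_max_right _ _)

theorem udisc_c1 {w : ℂ} (hw : 0 < w.im) : ContinuousAt (fun w : ℂ => E4f w ^ 3 - E6f w ^ 2) w := by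
  have h1 : ContinuousAt (fun w : ℂ => E4f w ^ 3) w := (E4f_diff hw).continuousAt.pow 3
  have h2 : ContinuousAt (fun w : ℂ => E6f w ^ 2) w := (E6f_diff hw).continuousAt.pow 2
  exact h1.sub h2

theorem udisc_c2 {w : ℂ} (hw : 0 < w.im) :
    ContinuousAt (fun w : ℂ => (E4f w ^ 3 - E6f w ^ 2)⁻¹) w := by
  have h1 := udisc_c1 hw
  have h2 : (fun w : ℂ => E4f w ^ 3 - E6f w ^ 2) w ≠ 0 := disc_ne hw
  exact ContinuousAt.inv₀ (G₀ := ℂ) (f := fun w : ℂ => E4f w ^ 3 - E6f w ^ 2) h1 h2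

theorem udisc_per (w : ℂ) (v : ℤ) :
    (E4f (w + v) ^ 3 - E6f (w + v) ^ 2)⁻¹ = (E4f w ^ 3 - E6f w ^ 2)⁻¹ := by
  rw [E4f_add_int, E6f_add_int]

theorem udisc (R : ℝ) (hR : 0 < R) : ∃ c : ℝ, 0 < c ∧ ∀ τ : ℂ, R⁻¹ ≤ τ.im → τ.im ≤ R →
    c ≤ ‖E4f τ ^ 3 - E6f τ ^ 2‖ := by
  obtain ⟨C, hC⟩ := udisc_bdd (fun w : ℂ => (E4f w ^ 3 - E6f w ^ 2)⁻¹)
    (fun w hw => udisc_c2 hw) udisc_per R hR
  refine ⟨(max 1 C)⁻¹, by positivity, fun τ h1 h2 => ?_⟩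
  rw [inv_eq_one_div] at h1
  have h3 := (hC τ h1 h2).trans (le_max_right 1 C)
  have h4 : 0 < τ.im := lt_of_lt_of_le (by positivity) h1
  have h5 : 0 < ‖E4f τ ^ 3 - E6f τ ^ 2‖ := norm_pos_iff.2 (disc_ne h4)
  rw [norm_inv] at h3
  exact (inv_le_comm₀ h5 (by positivity)).1 h3

/-- `2 ^ (k + (3 N + 1) N) ≤ exp (N ^ (k + 5))` -/
theorem us_num (k N m : ℕ) (hN : 2 ≤ N) (hm : m ≤ k + (3 * N + 1) * N) :
    (2 : ℝ) ^ m ≤ Real.exp ((N : ℝ) ^ (k + 5)) := by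
  have h1 : (2 : ℝ) ≤ Real.exp 1 := by
    have := Real.add_one_le_exp (1 : ℝ)
    linarith
  have h2 : (2 : ℝ) ^ m ≤ Real.exp m := by
    calc (2 : ℝ) ^ m ≤ (Real.exp 1) ^ m := pow_le_pow_left₀ (by norm_num) h1 m
      _ = Real.exp m := by rw [← Real.exp_nat_mul, mul_one]
  refine h2.trans (Real.exp_le_exp.2 ?_)
  have h3 : m ≤ N ^ (k + 5) := by
    have h4 : k ≤ N ^ k := (Nat.lt_two_pow_self.le).trans (Nat.pow_le_pow_left hN k)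
    have h5 : (3 * N + 1) * N ≤ N ^ 4 := by
      have h6 : 2 * 2 ≤ N * N := Nat.mul_le_mul hN hN
      have h7 : (3 * N + 1) * N ≤ 4 * (N * N) := by nlinarith
      calc (3 * N + 1) * N ≤ 4 * (N * N) := h7
        _ ≤ (N * N) * (N * N) := Nat.mul_le_mul_right _ h6
        _ = N ^ 4 := by ring
    have h8 : 1 ≤ N ^ k := Nat.one_le_pow _ _ (by omega)
    have h9 : 1 ≤ N ^ 4 := Nat.one_le_pow _ _ (by omega)
    have h10 : N ^ k + N ^ 4 ≤ 2 * (N ^ k * N ^ 4) := by nlinarith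
    have h11 : 2 * (N ^ k * N ^ 4) ≤ N * (N ^ k * N ^ 4) := Nat.mul_le_mul_right _ hN
    have h12 : N * (N ^ k * N ^ 4) = N ^ (k + 5) := by ring
    omega
  exact_mod_cast h3

theorem us_bd (R : ℝ) (hR : 0 < R) : ∃ A : ℕ, ∀ (N : ℕ) (K : IntermediateField ℚ ℂ), 2 ≤ N →
    FiniteDimensional ℚ K → Module.finrank ℚ K ≤ N → ∀ τ s b c : ℂ, R⁻¹ ≤ τ.im → τ.im ≤ R →
    AI K ((2 : ℝ) ^ N) b → AI K ((2 : ℝ) ^ N) c → E4f τ = s ^ 2 * b → E6f τ = s ^ 3 * c →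
      s ≠ 0 ∧ b ^ 3 ≠ c ^ 2 ∧ Real.exp (-((N : ℝ) ^ A)) ≤ ‖s‖ ∧ ‖s‖ ≤ Real.exp ((N : ℝ) ^ A) ∧
        ‖E2f τ / s‖ ≤ Real.exp ((N : ℝ) ^ A) := by
  obtain ⟨C, hC1, hC⟩ := uEbd R hR
  obtain ⟨c0, hc0, hc⟩ := udisc R hR
  set c1 : ℝ := min 1 c0 with hc1
  have hc1pos : 0 < c1 := lt_min one_pos hc0
  have hc1one : c1 ≤ 1 := min_le_left _ _
  have hc1c0 : c1 ≤ c0 := min_le_right _ _
  obtain ⟨k, hk⟩ := pow_unbounded_of_one_lt (max (2 * C ^ 3) (C / c1)) (one_lt_two : (1 : ℝ) < 2)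
  have hk1 : 2 * C ^ 3 ≤ 2 ^ k := (le_max_left _ _).trans hk.le
  have hk2 : C / c1 ≤ 2 ^ k := (le_max_right _ _).trans hk.le
  refine ⟨k + 5, fun N K hN hK hfin τ s b c hτ1 hτ2 hb hcc hE4 hE6 => ?_⟩
  obtain ⟨hE2b, hE4b, hE6b⟩ := hC τ hτ1 hτ2
  have hdisc := hc τ hτ1 hτ2
  have hR' : 0 < R⁻¹ := by positivity
  have hne := disc_ne (lt_of_lt_of_le hR' hτ1)
  have hid : E4f τ ^ 3 - E6f τ ^ 2 = s ^ 6 * (b ^ 3 - c ^ 2) := by
    rw [hE4, hE6]; ring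
  have hs0 : s ≠ 0 := by
    rintro rfl
    apply hne
    rw [hid]; simp
  have hd0 : b ^ 3 - c ^ 2 ≠ 0 := by
    intro h
    apply hne
    rw [hid, h, mul_zero]
  -- the height of `b ^ 3 - c ^ 2`
  have h2N : (1 : ℝ) ≤ 2 ^ N := one_le_pow₀ (by norm_num)
  have hAI : AI K ((2 : ℝ) ^ (3 * N + 1)) (b ^ 3 - c ^ 2) := by
    have h1 := (hb.pow 3).sub (hcc.pow 2)
    refine h1.mono le_rfl ?_
    have h2 : ((2 : ℝ) ^ N) ^ 2 ≤ ((2 : ℝ) ^ N) ^ 3 := pow_le_pow_right₀ h2N (by norm_num)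
    have h3 : (2 : ℝ) ^ (3 * N + 1) = 2 * ((2 : ℝ) ^ N) ^ 3 := by
      rw [← pow_mul, mul_comm N 3, pow_succ]; ring
    rw [h3]; linarith
  have hM1 : (1 : ℝ) ≤ 2 ^ (3 * N + 1) := one_le_pow₀ (by norm_num)
  have hup : ‖b ^ 3 - c ^ 2‖ ≤ 2 ^ (3 * N + 1) := Approx.AI_norm_le hAI
  have hlow := ai_low hK hM1 hAI hd0
  have hlow2 : 1 ≤ ‖b ^ 3 - c ^ 2‖ * ((2 : ℝ) ^ ((3 * N + 1) * N)) := by
    refine hlow.trans (mul_le_mul_of_nonneg_left ?_ (norm_nonneg _))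
    rw [pow_mul]
    exact pow_le_pow_right₀ hM1 (by omega)
  have hnorm : ‖E4f τ ^ 3 - E6f τ ^ 2‖ = ‖s‖ ^ 6 * ‖b ^ 3 - c ^ 2‖ := by
    rw [hid, norm_mul, norm_pow]
  have hspos : 0 < ‖s‖ := norm_pos_iff.2 hs0
  have hdpos : 0 < ‖b ^ 3 - c ^ 2‖ := norm_pos_iff.2 hd0
  -- the upper bound of the numerator
  have hnum : ‖E4f τ ^ 3 - E6f τ ^ 2‖ ≤ 2 ^ k := by
    have h1 : ‖E4f τ ^ 3‖ ≤ C ^ 3 := by
      rw [norm_pow]; exact pow_le_pow_left₀ (norm_nonneg _) hE4b 3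
    have h2 : ‖E6f τ ^ 2‖ ≤ C ^ 3 := by
      rw [norm_pow]
      exact (pow_le_pow_left₀ (norm_nonneg _) hE6b 2).trans (pow_le_pow_right₀ hC1 (by norm_num))
    exact (norm_sub_le _ _).trans (by linarith)
  -- lower bound of `s`
  have hslow : c1 ≤ ‖s‖ * 2 ^ (3 * N + 1) := by
    rcases le_total 1 ‖s‖ with h1 | h1
    · nlinarith
    · have h2 : ‖s‖ ^ 6 ≤ ‖s‖ := by
        calc ‖s‖ ^ 6 ≤ ‖s‖ ^ 1 := pow_le_pow_of_le_one hspos.le h1 (by norm_num)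
          _ = ‖s‖ := pow_one _
      calc c1 ≤ c0 := hc1c0
        _ ≤ ‖E4f τ ^ 3 - E6f τ ^ 2‖ := hdisc
        _ = ‖s‖ ^ 6 * ‖b ^ 3 - c ^ 2‖ := hnorm
        _ ≤ ‖s‖ * 2 ^ (3 * N + 1) := mul_le_mul h2 hup hdpos.le hspos.le
  have hc1k : 1 ≤ 2 ^ k * c1 := by
    have h1 : C ≤ 2 ^ k * c1 := (div_le_iff₀ hc1pos).1 hk2
    linarith
  -- upper bound of `s`
  have hsup : ‖s‖ ≤ 2 ^ (k + (3 * N + 1) * N) := by
    rcases le_total ‖s‖ 1 with h1 | h1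
    · exact h1.trans (one_le_pow₀ (by norm_num))
    · have h2 : ‖s‖ ≤ ‖s‖ ^ 6 := by
        calc ‖s‖ = ‖s‖ ^ 1 := (pow_one _).symm
          _ ≤ ‖s‖ ^ 6 := pow_le_pow_right₀ h1 (by norm_num)
      have h3 : ‖s‖ ^ 6 ≤ ‖s‖ ^ 6 * (‖b ^ 3 - c ^ 2‖ * ((2 : ℝ) ^ ((3 * N + 1) * N))) :=
        le_mul_of_one_le_right (by positivity) hlow2
      calc ‖s‖ ≤ ‖s‖ ^ 6 * (‖b ^ 3 - c ^ 2‖ * ((2 : ℝ) ^ ((3 * N + 1) * N))) := h2.trans h3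
        _ = ‖E4f τ ^ 3 - E6f τ ^ 2‖ * (2 : ℝ) ^ ((3 * N + 1) * N) := by rw [hnorm]; ring
        _ ≤ 2 ^ k * (2 : ℝ) ^ ((3 * N + 1) * N) :=
          mul_le_mul_of_nonneg_right hnum (by positivity)
        _ = 2 ^ (k + (3 * N + 1) * N) := (pow_add _ _ _).symm
  have hslow2 : 1 ≤ ‖s‖ * 2 ^ (k + (3 * N + 1)) := by
    calc (1 : ℝ) ≤ 2 ^ k * c1 := hc1k
      _ ≤ 2 ^ k * (‖s‖ * 2 ^ (3 * N + 1)) := mul_le_mul_of_nonneg_left hslow (by positivity)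
      _ = ‖s‖ * 2 ^ (k + (3 * N + 1)) := by rw [pow_add]; ring
  have hmul : k + (3 * N + 1) ≤ k + (3 * N + 1) * N := by nlinarith
  have hexp := us_num k N (k + (3 * N + 1)) hN hmul
  refine ⟨hs0, fun h => hd0 (sub_eq_zero.2 h), ?_, hsup.trans (us_num k N _ hN le_rfl), ?_⟩
  · rw [Real.exp_neg]
    rw [inv_le_iff_one_le_mul₀ (Real.exp_pos _)]
    exact hslow2.trans (mul_le_mul_of_nonneg_left hexp hspos.le)
  · rw [norm_div, div_le_iff₀ hspos]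
    have h1 : C ≤ 2 ^ k * c1 := (div_le_iff₀ hc1pos).1 hk2
    calc ‖E2f τ‖ ≤ C := hE2b
      _ ≤ 2 ^ k * c1 := h1
      _ ≤ 2 ^ k * (‖s‖ * 2 ^ (3 * N + 1)) := mul_le_mul_of_nonneg_left hslow (by positivity)
      _ = 2 ^ (k + (3 * N + 1)) * ‖s‖ := by rw [pow_add 2 k]; ring
      _ ≤ Real.exp ((N : ℝ) ^ (k + 5)) * ‖s‖ := mul_le_mul_of_nonneg_right hexp hspos.le

end Pool.Agent.Lib.MP5e
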