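import Pool.Agent.Lib.MP_5e64e7_nt.UDefs

set_option autoImplicit false

noncomputable section

namespace Pool.Agent.Lib.MP5e

open Polynomial Topology

theorem urho_eq {q : ℂ} (hq0 : q ≠ 0) (K : ℕ) :
    urho q K = Real.exp (-Real.log ‖q‖ * (K + 1 / 2)) := by
  have hq : 0 < ‖q‖ := norm_pos_iff.2 hq0
  have h1 : Real.sqrt ‖q‖ = Real.exp (Real.log ‖q‖ / 2) := by
    rw [Real.sqrt_eq_rpow, Real.rpow_def_of_pos hq]
    congr 1
    ring
  unfold urho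
  rw [h1, ← Real.exp_nat_mul, ← Real.exp_neg]
  congr 1
  push_cast
  ring

theorem urho_pos {q : ℂ} (hq0 : q ≠ 0) (K : ℕ) : 0 < urho q K := by
  rw [urho_eq hq0]
  exact Real.exp_pos _

private lemma uba_log {q : ℂ} (hq0 : q ≠ 0) (hq1 : ‖q‖ < 1) : 0 < -Real.log ‖q‖ := by
  have := Real.log_neg (norm_pos_iff.2 hq0) hq1
  linarith

private lemma uba_pow {q : ℂ} (hq0 : q ≠ 0) (n : ℕ) :
    ‖q‖ ^ n = Real.exp (-(-Real.log ‖q‖ * n)) := by
  rw [neg_mul, neg_neg, mul_comm, Real.exp_nat_mul, Real.exp_log (norm_pos_iff.2 hq0)]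

theorem one_lt_urho {q : ℂ} (hq0 : q ≠ 0) (hq1 : ‖q‖ < 1) (K : ℕ) : 1 < urho q K := by
  rw [urho_eq hq0]
  rw [Real.one_lt_exp_iff]
  have := uba_log hq0 hq1
  positivity

theorem ucirc_good {q : ℂ} (hq0 : q ≠ 0) (hq1 : ‖q‖ < 1) (K : ℕ) (w : ℂ)
    (h : ‖w‖ = urho q K ∨ ‖w‖ = (urho q K)⁻¹) : w ∈ ugood q := by
  have hw : 0 < ‖w‖ := by
    rcases h with h | h
    · rw [h]; exact urho_pos hq0 K
    · rw [h]; exact inv_pos.mpr (urho_pos hq0 K)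
  refine ⟨norm_pos_iff.mp hw, ?_⟩
  intro k hk
  have hq : 0 < ‖q‖ := norm_pos_iff.2 hq0
  have hL := uba_log hq0 hq1
  set L := -Real.log ‖q‖ with hLd
  have h1 : ‖w‖ = Real.exp (-(L * k)) := by
    rw [hk, norm_zpow, hLd, neg_mul, neg_neg, ← Real.rpow_intCast, Real.rpow_def_of_pos hq]
  rcases h with h | h
  · rw [h1] at h
    rw [urho_eq hq0] at h
    rw [← hLd] at h
    have h2 := Real.exp_injective h
    have h3 : L * (((K : ℝ) + 1 / 2) + k) = 0 := by linarith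
    have h4 : ((K : ℝ) + 1 / 2) + k = 0 := by
      rcases mul_eq_zero.mp h3 with h5 | h5
      · exact absurd h5 hL.ne'
      · exact h5
    have h6 : (2 * (K : ℝ) + 1) + 2 * k = 0 := by linarith
    have h5 : ((2 * (K : ℤ) + 1) + 2 * k : ℤ) = 0 := by exact_mod_cast h6
    omega
  · rw [h1] at h
    rw [urho_eq hq0] at h
    rw [← hLd, ← Real.exp_neg] at h
    have h2 := Real.exp_injective h
    have h3 : L * (((K : ℝ) + 1 / 2) - k) = 0 := by linarith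
    have h4 : ((K : ℝ) + 1 / 2) - k = 0 := by
      rcases mul_eq_zero.mp h3 with h5 | h5
      · exact absurd h5 hL.ne'
      · exact h5
    have h6 : (2 * (K : ℝ) + 1) - 2 * k = 0 := by linarith
    have h5 : ((2 * (K : ℤ) + 1) - 2 * k : ℤ) = 0 := by exact_mod_cast h6
    omega

theorem ucirc_ann {q : ℂ} (hq0 : q ≠ 0) (hq1 : ‖q‖ < 1) (K : ℕ) :
    {w : ℂ | (urho q K)⁻¹ ≤ ‖w‖ ∧ ‖w‖ ≤ urho q K} ⊆ uann q K := by
  rintro w ⟨h1, h2⟩
  have hL := uba_log hq0 hq1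
  have h3 : ‖q‖ ^ (K + 1) < (urho q K)⁻¹ := by
    rw [uba_pow hq0]
    rw [urho_eq hq0]
    rw [← Real.exp_neg]
    apply Real.exp_lt_exp.mpr
    push_cast
    nlinarith
  have h4 : urho q K < (‖q‖ ^ (K + 1))⁻¹ := by
    rw [uba_pow hq0, ← Real.exp_neg, neg_neg]
    rw [urho_eq hq0]
    apply Real.exp_lt_exp.mpr
    push_cast
    nlinarith
  exact ⟨lt_of_lt_of_le h3 h1, lt_of_le_of_lt h2 h4⟩

private lemma uba_norm_one_sub (q u : ℂ) (k : ℕ) :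
    ‖1 - u * q ^ (k + 1)‖ ≤ 1 + ‖u‖ * ‖q‖ ^ (k + 1) := by
  refine (norm_sub_le _ _).trans ?_
  rw [norm_one, norm_mul, norm_pow]

private lemma uba_pow_le_one {q : ℂ} (hq1 : ‖q‖ < 1) (k : ℕ) : ‖q‖ ^ (k + 1) ≤ 1 :=
  pow_le_one₀ (norm_nonneg _) hq1.le

theorem uh_circ {q : ℂ} (hq0 : q ≠ 0) (hq1 : ‖q‖ < 1) (K : ℕ) (w : ℂ)
    (h : ‖w‖ = urho q K ∨ ‖w‖ = (urho q K)⁻¹) :
    ‖uh q K w‖ ≤ Real.exp ((2 - Real.log ‖q‖) * ((K : ℝ) + 1) ^ 2) := by
  have hL := uba_log hq0 hq1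
  have hρ : 1 < urho q K := one_lt_urho hq0 hq1 K
  have hρ0 : 0 < urho q K := urho_pos hq0 K
  have hρi : (urho q K)⁻¹ ≤ 1 := inv_le_one_of_one_le₀ (by linarith)
  have hw1 : ‖w‖ ≤ urho q K ∧ ‖w‖⁻¹ ≤ urho q K ∧ ‖w‖ * ‖w‖⁻¹ = 1 := by
    rcases h with h | h
    · rw [h]
      exact ⟨le_refl _, by linarith, mul_inv_cancel₀ hρ0.ne'⟩
    · rw [h, inv_inv]
      exact ⟨by linarith, le_refl _, inv_mul_cancel₀ hρ0.ne'⟩
  have hmin : ‖w‖ ≤ 1 ∨ ‖w‖⁻¹ ≤ 1 := by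
    rcases h with h | h
    · right
      rw [h]
      exact hρi
    · left
      rw [h]
      exact hρi
  -- first factor
  have h1 : ‖1 - w‖ ≤ 4 * urho q K := by
    refine (norm_sub_le _ _).trans ?_
    rw [norm_one]
    linarith [hw1.1]
  have h2 : ∀ k < K, ‖(1 - w⁻¹ * q ^ (k + 1)) * (1 - w * q ^ (k + 1))‖ ≤ 4 * urho q K := by
    intro k _
    have hr1 := uba_pow_le_one hq1 k
    have hr0 : 0 ≤ ‖q‖ ^ (k + 1) := pow_nonneg (norm_nonneg _) _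
    have ha := uba_norm_one_sub q w⁻¹ k
    have hc := uba_norm_one_sub q w k
    rw [norm_inv] at ha
    have hn0 : 0 ≤ ‖w‖ := norm_nonneg _
    have hn1 : 0 ≤ ‖w‖⁻¹ := inv_nonneg.2 hn0
    have ha2 : ‖1 - w⁻¹ * q ^ (k + 1)‖ ≤ 1 + ‖w‖⁻¹ := by nlinarith
    have hc2 : ‖1 - w * q ^ (k + 1)‖ ≤ 1 + ‖w‖ := by nlinarith
    rw [norm_mul]
    calc ‖1 - w⁻¹ * q ^ (k + 1)‖ * ‖1 - w * q ^ (k + 1)‖
        ≤ (1 + ‖w‖⁻¹) * (1 + ‖w‖) := mul_le_mul ha2 hc2 (norm_nonneg _) (by positivity)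
      _ = 2 + ‖w‖ + ‖w‖⁻¹ := by linear_combination hw1.2.2
      _ ≤ 4 * urho q K := by
          rcases hmin with h5 | h5
          · linarith [hw1.2.1]
          · linarith [hw1.1]
  have h3 : ‖uh q K w‖ ≤ 4 * urho q K * ∏ k ∈ Finset.range K, (4 * urho q K) := by
    unfold uh
    rw [norm_mul, norm_prod]
    apply mul_le_mul h1 _ (Finset.prod_nonneg (fun _ _ => norm_nonneg _)) (by positivity)
    apply Finset.prod_le_prod (fun _ _ => norm_nonneg _)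
    intro k hk
    exact h2 k (Finset.mem_range.mp hk)
  refine h3.trans ?_
  rw [Finset.prod_const, Finset.card_range, ← pow_succ']
  have h4 : 4 * urho q K ≤ Real.exp (2 + -Real.log ‖q‖ * (K + 1 / 2)) := by
    rw [Real.exp_add]
    rw [urho_eq hq0]
    refine mul_le_mul_of_nonneg_right ?_ (Real.exp_pos _).le
    have h5 : Real.exp 2 = (Real.exp 1) ^ 2 := by
      rw [← Real.exp_nat_mul]
      norm_num
    rw [h5]
    have h6 := Real.exp_one_gt_d9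
    nlinarith
  calc (4 * urho q K) ^ (K + 1)
      ≤ (Real.exp (2 + -Real.log ‖q‖ * (K + 1 / 2))) ^ (K + 1) :=
        pow_le_pow_left₀ (by positivity) h4 _
    _ = Real.exp (((K + 1 : ℕ) : ℝ) * (2 + -Real.log ‖q‖ * (K + 1 / 2))) := by
        rw [← Real.exp_nat_mul]
    _ ≤ Real.exp ((2 - Real.log ‖q‖) * ((K : ℝ) + 1) ^ 2) := by
        apply Real.exp_le_exp.mpr
        push_cast
        have hK : (0 : ℝ) ≤ K := Nat.cast_nonneg K
        set L := -Real.log ‖q‖ with hLd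
        have e : 2 - Real.log ‖q‖ = 2 + L := by rw [hLd]; ring
        rw [e]
        nlinarith [mul_nonneg hL.le hK, mul_nonneg hK hK]

/-- the constant for the bounds near `-1` -/
def uc0 (r : ℝ) : ℝ := 3 * Real.exp (4 * r / (1 - r) ^ 2)

theorem uc0_pos (r : ℝ) : 0 < uc0 r := by
  unfold uc0
  positivity

private lemma uba_geom {q : ℂ} {r : ℝ} (hqr : ‖q‖ ≤ r) (hr : r < 1) (K : ℕ) :
    ∑ k ∈ Finset.range K, ‖q‖ ^ (k + 1) ≤ r / (1 - r) := by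
  have hr0 : 0 ≤ r := (norm_nonneg _).trans hqr
  have h1 : ∀ n : ℕ, ∑ k ∈ Finset.range n, r ^ (k + 1) = r / (1 - r) - r ^ (n + 1) / (1 - r) := by
    have h2 : 1 - r ≠ 0 := by linarith
    intro n
    induction n with
    | zero => simp
    | succ n ih =>
      rw [Finset.sum_range_succ, ih]
      field_simp
      ring
  calc ∑ k ∈ Finset.range K, ‖q‖ ^ (k + 1) ≤ ∑ k ∈ Finset.range K, r ^ (k + 1) :=
        Finset.sum_le_sum fun k _ => pow_le_pow_left₀ (norm_nonneg _) hqr _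
    _ = r / (1 - r) - r ^ (K + 1) / (1 - r) := h1 K
    _ ≤ r / (1 - r) := by
        have : 0 ≤ r ^ (K + 1) / (1 - r) := div_nonneg (pow_nonneg hr0 _) (by linarith)
        linarith

private lemma uba_cmp {r : ℝ} (hr0 : 0 ≤ r) (hr : r < 1) : r / (1 - r) ≤ r / (1 - r) ^ 2 := by
  have h1 : 0 < 1 - r := by linarith
  apply div_le_div_of_nonneg_left hr0 (by positivity)
  nlinarith

theorem uh_near {q : ℂ} {r : ℝ} (hqr : ‖q‖ ≤ r) (hr : r < 1) (K : ℕ) (w : ℂ)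
    (h : ‖w + 1‖ ≤ 1 / 2) : ‖uh q K w‖ ≤ uc0 r := by
  have hr0 : 0 ≤ r := (norm_nonneg _).trans hqr
  have h1 : ‖1 - w‖ ≤ 3 := by
    have e : 1 - w = 2 - (w + 1) := by ring
    rw [e]
    refine (norm_sub_le _ _).trans ?_
    rw [Complex.norm_ofNat]
    linarith
  have hw1 : ‖w‖ ≤ 2 := by
    have e : w = (w + 1) - 1 := by ring
    rw [e]
    refine (norm_sub_le _ _).trans ?_
    rw [norm_one]
    linarith
  have hw2 : 1 / 2 ≤ ‖w‖ := by
    have e : (1 : ℂ) = (w + 1) - w := by ring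
    have h2 : ‖(1 : ℂ)‖ ≤ ‖w + 1‖ + ‖w‖ := by
      conv_lhs => rw [e]
      exact norm_sub_le _ _
    rw [norm_one] at h2
    linarith
  have hw3 : ‖w⁻¹‖ ≤ 2 := by
    rw [norm_inv]
    rw [inv_le_comm₀ (by linarith) (by norm_num)]
    linarith
  have h2 : ∀ k, ‖(1 - w⁻¹ * q ^ (k + 1)) * (1 - w * q ^ (k + 1))‖ ≤
      Real.exp (4 * ‖q‖ ^ (k + 1)) := by
    intro k
    have hk0 : 0 ≤ ‖q‖ ^ (k + 1) := pow_nonneg (norm_nonneg _) _
    have ha := uba_norm_one_sub q w⁻¹ k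
    have hc := uba_norm_one_sub q w k
    have hb : 1 + 2 * ‖q‖ ^ (k + 1) ≤ Real.exp (2 * ‖q‖ ^ (k + 1)) := by
      have := Real.add_one_le_exp (2 * ‖q‖ ^ (k + 1))
      linarith
    have ha' : ‖1 - w⁻¹ * q ^ (k + 1)‖ ≤ Real.exp (2 * ‖q‖ ^ (k + 1)) := by
      refine le_trans ha (le_trans ?_ hb)
      nlinarith
    have hc' : ‖1 - w * q ^ (k + 1)‖ ≤ Real.exp (2 * ‖q‖ ^ (k + 1)) := by
      refine le_trans hc (le_trans ?_ hb)
      nlinarith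
    rw [norm_mul]
    calc _ ≤ Real.exp (2 * ‖q‖ ^ (k + 1)) * Real.exp (2 * ‖q‖ ^ (k + 1)) :=
          mul_le_mul ha' hc' (norm_nonneg _) (Real.exp_pos _).le
      _ = Real.exp (4 * ‖q‖ ^ (k + 1)) := by rw [← Real.exp_add]; congr 1; ring
  have h3 : ∏ k ∈ Finset.range K, ‖(1 - w⁻¹ * q ^ (k + 1)) * (1 - w * q ^ (k + 1))‖ ≤
      Real.exp (∑ k ∈ Finset.range K, 4 * ‖q‖ ^ (k + 1)) := by
    rw [Real.exp_sum]
    exact Finset.prod_le_prod (fun _ _ => norm_nonneg _) (fun k _ => h2 k)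
  have h4 : ∑ k ∈ Finset.range K, 4 * ‖q‖ ^ (k + 1) ≤ 4 * r / (1 - r) ^ 2 := by
    rw [← Finset.mul_sum, mul_div_assoc]
    exact mul_le_mul_of_nonneg_left ((uba_geom hqr hr K).trans (uba_cmp hr0 hr)) (by norm_num)
  unfold uh uc0
  rw [norm_mul, norm_prod]
  exact mul_le_mul h1 (h3.trans (Real.exp_le_exp.mpr h4))
    (Finset.prod_nonneg (fun _ _ => norm_nonneg _)) (by norm_num)

private lemma uba_exp {x : ℝ} (h1 : x < 1) : Real.exp (-(x / (1 - x))) ≤ 1 - x := by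
  have h2 : 0 < 1 - x := by linarith
  have h3 : (1 - x)⁻¹ ≤ Real.exp (x / (1 - x)) := by
    have h4 := Real.add_one_le_exp (x / (1 - x))
    have h5 : x / (1 - x) + 1 = (1 - x)⁻¹ := by
      field_simp
      ring
    linarith
  rw [Real.exp_neg]
  calc (Real.exp (x / (1 - x)))⁻¹ ≤ ((1 - x)⁻¹)⁻¹ :=
        inv_anti₀ (inv_pos.2 h2) h3
    _ = 1 - x := inv_inv _

theorem uh_neg_one {q : ℂ} {r : ℝ} (hqr : ‖q‖ ≤ r) (hr : r < 1) (K : ℕ) :
    (uc0 r)⁻¹ ≤ ‖uh q K (-1)‖ := by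
  have hr0 : 0 ≤ r := (norm_nonneg _).trans hqr
  have hr1 : 0 < 1 - r := by linarith
  unfold uh
  rw [norm_mul, norm_prod]
  have h1 : ‖(1 : ℂ) - -1‖ = 2 := by
    norm_num
  have h2 : ∀ k, Real.exp (-(2 / (1 - r) * ‖q‖ ^ (k + 1))) ≤
      ‖(1 - (-1 : ℂ)⁻¹ * q ^ (k + 1)) * (1 - (-1) * q ^ (k + 1))‖ := by
    intro k
    have e : (1 - (-1 : ℂ)⁻¹ * q ^ (k + 1)) * (1 - (-1) * q ^ (k + 1)) =
        (1 - -q ^ (k + 1)) * (1 - -q ^ (k + 1)) := by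
      rw [inv_neg, inv_one]
      ring
    have hx0 : 0 ≤ ‖q‖ ^ (k + 1) := pow_nonneg (norm_nonneg _) _
    have hx1 : ‖q‖ ^ (k + 1) ≤ r := by
      calc ‖q‖ ^ (k + 1) ≤ ‖q‖ ^ 1 :=
            pow_le_pow_of_le_one (norm_nonneg _) (by linarith) (by omega)
        _ ≤ r := by rw [pow_one]; exact hqr
    have h3 : 1 - ‖q‖ ^ (k + 1) ≤ ‖1 - -q ^ (k + 1)‖ := by
      have := norm_sub_norm_le (1 : ℂ) (-q ^ (k + 1))
      rw [norm_one, norm_neg, norm_pow] at this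
      exact this
    have h4 := uba_exp (lt_of_le_of_lt hx1 hr)
    have h5 : Real.exp (-(1 / (1 - r) * ‖q‖ ^ (k + 1))) ≤
        Real.exp (-(‖q‖ ^ (k + 1) / (1 - ‖q‖ ^ (k + 1)))) := by
      apply Real.exp_le_exp.mpr
      apply neg_le_neg
      rw [one_div, mul_comm, ← div_eq_mul_inv]
      exact div_le_div_of_nonneg_left hx0 hr1 (by linarith)
    have h6 : Real.exp (-(1 / (1 - r) * ‖q‖ ^ (k + 1))) ≤ ‖1 - -q ^ (k + 1)‖ :=
      h5.trans (h4.trans h3)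
    rw [e, norm_mul]
    calc Real.exp (-(2 / (1 - r) * ‖q‖ ^ (k + 1)))
        = Real.exp (-(1 / (1 - r) * ‖q‖ ^ (k + 1))) *
          Real.exp (-(1 / (1 - r) * ‖q‖ ^ (k + 1))) := by
          rw [← Real.exp_add]
          congr 1
          ring
      _ ≤ _ := mul_le_mul h6 h6 (Real.exp_pos _).le (norm_nonneg _)
  have h3 : Real.exp (∑ k ∈ Finset.range K, -(2 / (1 - r) * ‖q‖ ^ (k + 1))) ≤
      ∏ k ∈ Finset.range K, ‖(1 - (-1 : ℂ)⁻¹ * q ^ (k + 1)) * (1 - (-1) * q ^ (k + 1))‖ := by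
    rw [Real.exp_sum]
    exact Finset.prod_le_prod (fun _ _ => (Real.exp_pos _).le) (fun k _ => h2 k)
  have h4 : -(4 * r / (1 - r) ^ 2) ≤ ∑ k ∈ Finset.range K, -(2 / (1 - r) * ‖q‖ ^ (k + 1)) := by
    rw [Finset.sum_neg_distrib, ← Finset.mul_sum]
    apply neg_le_neg
    calc 2 / (1 - r) * ∑ k ∈ Finset.range K, ‖q‖ ^ (k + 1)
        ≤ 2 / (1 - r) * (r / (1 - r)) :=
          mul_le_mul_of_nonneg_left (uba_geom hqr hr K) (by positivity)
      _ = 2 * r / (1 - r) ^ 2 := by field_simp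
      _ ≤ 4 * r / (1 - r) ^ 2 := by
          apply div_le_div_of_nonneg_right _ (by positivity)
          linarith
  have h5 : (uc0 r)⁻¹ = 3⁻¹ * Real.exp (-(4 * r / (1 - r) ^ 2)) := by
    unfold uc0
    rw [mul_inv, Real.exp_neg]
  rw [h5, h1]
  calc 3⁻¹ * Real.exp (-(4 * r / (1 - r) ^ 2)) ≤ 2 * Real.exp (-(4 * r / (1 - r) ^ 2)) :=
        mul_le_mul_of_nonneg_right (by norm_num) (Real.exp_pos _).le
    _ ≤ _ := mul_le_mul_of_nonneg_left ((Real.exp_le_exp.mpr h4).trans h3) (by norm_num)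

theorem uh_differentiableAt (q : ℂ) (K : ℕ) {w : ℂ} (hw : w ≠ 0) :
    DifferentiableAt ℂ (uh q K) w := by
  have h : uh q K = fun w : ℂ => (1 - w) * ∏ k ∈ Finset.range K,
      ((1 - w⁻¹ * q ^ (k + 1)) * (1 - w * q ^ (k + 1))) := rfl
  rw [h]
  apply DifferentiableAt.mul
  · exact (differentiableAt_const _).sub differentiableAt_id
  · apply DifferentiableAt.fun_finsetProd
    intro k _
    apply DifferentiableAt.mul
    · exact (differentiableAt_const _).sub ((differentiableAt_inv hw).mul (differentiableAt_const _))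
    · exact (differentiableAt_const _).sub (differentiableAt_id.mul (differentiableAt_const _))

end Pool.Agent.Lib.MP5e
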