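import Pool.Agent.Lib.MP_5e64e7_nt.UFgood

set_option autoImplicit false

noncomputable section

namespace Pool.Agent.Lib.MP5e

open Polynomial Topology

private def uhfT (q : ℂ) (k : ℕ) (w : ℂ) : ℂ :=
  w * q ^ (k + 1) / (1 - w * q ^ (k + 1)) ^ 2 +
    w⁻¹ * q ^ (k + 1) / (1 - w⁻¹ * q ^ (k + 1)) ^ 2

private def uhgT (q : ℂ) (k : ℕ) (w : ℂ) : ℂ :=
  w⁻¹ * q ^ (k + 1) / (1 - w⁻¹ * q ^ (k + 1)) -
    w * q ^ (k + 1) / (1 - w * q ^ (k + 1))

theorem uann_ne_zero {q : ℂ} {K : ℕ} {w : ℂ} (hw : w ∈ uann q K) : w ≠ 0 := by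
  intro h
  have h1 := hw.1
  rw [h, norm_zero] at h1
  have := pow_nonneg (norm_nonneg q) (K + 1)
  linarith

private lemma uhf_good {q : ℂ} {w : ℂ} (hw : w ∈ ugood q) (k : ℕ) :
    1 - w * q ^ (k + 1) ≠ 0 ∧ 1 - w⁻¹ * q ^ (k + 1) ≠ 0 ∧ 1 - w ≠ 0 := by
  refine ⟨fun h => ?_, fun h => ?_, fun h => ?_⟩
  · apply hw.2 (-((k + 1 : ℕ) : ℤ))
    rw [zpow_neg, zpow_natCast]
    exact eq_inv_of_mul_eq_one_left (sub_eq_zero.1 h).symm
  · apply hw.2 ((k + 1 : ℕ) : ℤ)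
    rw [zpow_natCast]
    have h1 : w⁻¹ * q ^ (k + 1) = 1 := (sub_eq_zero.1 h).symm
    have h2 := eq_inv_of_mul_eq_one_right h1
    rw [inv_inv] at h2
    exact h2.symm
  · apply hw.2 0
    rw [zpow_zero]
    exact (sub_eq_zero.1 h).symm

private lemma uhf_small {q : ℂ} (hq0 : q ≠ 0) {w : ℂ} {K : ℕ} (hw : w ∈ uann q K) (k : ℕ) :
    ‖w * q ^ (k + (K + 1) + 1)‖ ≤ ‖q‖ ^ (k + 1) ∧
      ‖w⁻¹ * q ^ (k + (K + 1) + 1)‖ ≤ ‖q‖ ^ (k + 1) := by
  have hq : 0 < ‖q‖ := norm_pos_iff.2 hq0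
  have hp := pow_pos hq (K + 1)
  have hp2 := pow_pos hq (k + 1)
  have he : k + (K + 1) + 1 = (K + 1) + (k + 1) := by omega
  have hw0 : 0 < ‖w‖ := norm_pos_iff.2 (uann_ne_zero hw)
  rw [norm_mul, norm_mul, norm_pow, norm_inv, he, pow_add]
  constructor
  · have h1 : ‖w‖ * ‖q‖ ^ (K + 1) ≤ 1 := by
      have := hw.2.le
      rw [← one_div, le_div_iff₀ hp] at this
      exact this
    rw [← mul_assoc]
    nlinarith
  · have h1 : ‖w‖⁻¹ * ‖q‖ ^ (K + 1) ≤ 1 := by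
      rw [inv_mul_le_iff₀ hw0, mul_one]
      exact hw.1.le
    rw [← mul_assoc]
    nlinarith

private lemma uhf_rrpow {q : ℂ} (hq1 : ‖q‖ < 1) (k : ℕ) : ‖q‖ ^ (k + 1) ≤ ‖q‖ := by
  calc ‖q‖ ^ (k + 1) ≤ ‖q‖ ^ 1 :=
        pow_le_pow_of_le_one (norm_nonneg _) hq1.le (by omega)
    _ = ‖q‖ := pow_one _

/-- elementary bound for the terms -/
lemma uhf_one {a : ℂ} {x r : ℝ} (ha : ‖a‖ ≤ x) (hx : x ≤ r) (hr : r < 1) :
    1 - a ≠ 0 ∧ ‖a / (1 - a) ^ 2‖ ≤ x / (1 - r) ^ 2 ∧ ‖a / (1 - a)‖ ≤ x / (1 - r) ^ 2 := by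
  have h1 : 1 - x ≤ ‖1 - a‖ := by
    have := norm_sub_norm_le (1 : ℂ) a
    rw [norm_one] at this
    linarith
  have h2 : 1 - r ≤ ‖1 - a‖ := by linarith
  have hx0 : 0 ≤ x := (norm_nonneg _).trans ha
  have hr0 : 0 < 1 - r := by linarith
  have hr1 : 1 - r ≤ 1 := by linarith
  refine ⟨fun h => ?_, ?_, ?_⟩
  · rw [h, norm_zero] at h2
    linarith
  · rw [norm_div, norm_pow]
    exact div_le_div₀ hx0 ha (by positivity) (pow_le_pow_left₀ hr0.le h2 2)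
  · rw [norm_div]
    refine div_le_div₀ hx0 ha (by positivity) (le_trans ?_ h2)
    nlinarith

private lemma uhf_bd {q : ℂ} (hq0 : q ≠ 0) (hq1 : ‖q‖ < 1) {w : ℂ} {K : ℕ} (hw : w ∈ uann q K)
    (k : ℕ) :
    ‖uhfT q (k + (K + 1)) w‖ ≤ 2 / (1 - ‖q‖) ^ 2 * ‖q‖ ^ (k + 1) ∧
      ‖uhgT q (k + (K + 1)) w‖ ≤ 2 / (1 - ‖q‖) ^ 2 * ‖q‖ ^ (k + 1) := by
  obtain ⟨h1, h2⟩ := uhf_small hq0 hw k
  have hx := uhf_rrpow hq1 k
  obtain ⟨-, a1, a2⟩ := uhf_one h1 hx hq1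
  obtain ⟨-, b1, b2⟩ := uhf_one h2 hx hq1
  have e : 2 / (1 - ‖q‖) ^ 2 * ‖q‖ ^ (k + 1) =
      ‖q‖ ^ (k + 1) / (1 - ‖q‖) ^ 2 + ‖q‖ ^ (k + 1) / (1 - ‖q‖) ^ 2 := by ring
  rw [e]
  constructor
  · unfold uhfT
    exact (norm_add_le _ _).trans (add_le_add a1 b1)
  · unfold uhgT
    exact (norm_sub_le _ _).trans (add_le_add b2 a2)

private lemma uhf_sum {q : ℂ} (hq1 : ‖q‖ < 1) (c : ℝ) :
    Summable (fun k : ℕ => c * ‖q‖ ^ (k + 1)) := by
  have h : Summable (fun k : ℕ => ‖q‖ ^ k) :=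
    summable_geometric_of_lt_one (norm_nonneg _) hq1
  exact ((summable_nat_add_iff 1).2 h).mul_left c

private lemma uhf_diffw (q : ℂ) (K : ℕ) : DifferentiableOn ℂ (fun w : ℂ => w⁻¹) (uann q K) :=
  fun _ hw => (differentiableAt_inv (uann_ne_zero hw)).differentiableWithinAt

private lemma uhf_diff (q : ℂ) (K k : ℕ)
    (h : ∀ w ∈ uann q K, 1 - w * q ^ (k + 1) ≠ 0 ∧ 1 - w⁻¹ * q ^ (k + 1) ≠ 0) :
    DifferentiableOn ℂ (uhfT q k) (uann q K) ∧ DifferentiableOn ℂ (uhgT q k) (uann q K) := by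
  have e1 : DifferentiableOn ℂ (fun w : ℂ => w * q ^ (k + 1)) (uann q K) :=
    differentiableOn_id.mul_const _
  have e2 : DifferentiableOn ℂ (fun w : ℂ => w⁻¹ * q ^ (k + 1)) (uann q K) :=
    (uhf_diffw q K).mul_const _
  have d1 : DifferentiableOn ℂ (fun w : ℂ => 1 - w * q ^ (k + 1)) (uann q K) :=
    (differentiableOn_const 1).sub e1
  have d2 : DifferentiableOn ℂ (fun w : ℂ => 1 - w⁻¹ * q ^ (k + 1)) (uann q K) :=
    (differentiableOn_const 1).sub e2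
  constructor
  · exact (e1.div (d1.pow 2) (fun w hw => pow_ne_zero 2 (h w hw).1)).add
      (e2.div (d2.pow 2) (fun w hw => pow_ne_zero 2 (h w hw).2))
  · exact (e2.div d2 (fun w hw => (h w hw).2)).sub (e1.div d1 (fun w hw => (h w hw).1))

private lemma uhf_tail {q : ℂ} (hq0 : q ≠ 0) (hq1 : ‖q‖ < 1) (K : ℕ) :
    DifferentiableOn ℂ (fun w => ∑' k, uhfT q (k + (K + 1)) w) (uann q K) ∧
      DifferentiableOn ℂ (fun w => ∑' k, uhgT q (k + (K + 1)) w) (uann q K) := by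
  have hne : ∀ k : ℕ, ∀ w ∈ uann q K, 1 - w * q ^ (k + (K + 1) + 1) ≠ 0 ∧
      1 - w⁻¹ * q ^ (k + (K + 1) + 1) ≠ 0 := fun k w hw =>
    ⟨(uhf_one (uhf_small hq0 hw k).1 (uhf_rrpow hq1 k) hq1).1,
      (uhf_one (uhf_small hq0 hw k).2 (uhf_rrpow hq1 k) hq1).1⟩
  constructor
  · exact Complex.differentiableOn_tsum_of_summable_norm (uhf_sum hq1 _)
      (fun k => (uhf_diff q K (k + (K + 1)) (hne k)).1) (isOpen_uann q K)
      (fun k w hw => (uhf_bd hq0 hq1 hw k).1)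
  · exact Complex.differentiableOn_tsum_of_summable_norm (uhf_sum hq1 _)
      (fun k => (uhf_diff q K (k + (K + 1)) (hne k)).2) (isOpen_uann q K)
      (fun k w hw => (uhf_bd hq0 hq1 hw k).2)

private lemma uhf_hh (q : ℂ) (K j : ℕ) : DifferentiableOn ℂ (uh q j) (uann q K) := by
  unfold uh
  apply DifferentiableOn.mul ((differentiableOn_const 1).sub differentiableOn_id)
  apply DifferentiableOn.fun_finsetProd
  intro k _
  exact ((differentiableOn_const 1).sub ((uhf_diffw q K).mul_const _)).mul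
    ((differentiableOn_const 1).sub (differentiableOn_id.mul_const _))

theorem uh_succ (q : ℂ) (j : ℕ) (w : ℂ) : uh q (j + 1) w =
    uh q j w * ((1 - w⁻¹ * q ^ (j + 1)) * (1 - w * q ^ (j + 1))) := by
  unfold uh
  rw [Finset.prod_range_succ]
  ring

/-- the finite parts -/
private lemma uhf_fin (q : ℂ) (K j : ℕ) : ∃ F G : ℂ → ℂ, DifferentiableOn ℂ F (uann q K) ∧
    DifferentiableOn ℂ G (uann q K) ∧ ∀ w ∈ ugood q,
      F w = uh q j w ^ 2 * (w / (1 - w) ^ 2 + ∑ k ∈ Finset.range j, uhfT q k w) ∧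
      G w = uh q j w * ((w + 1) / (2 * (w - 1)) + ∑ k ∈ Finset.range j, uhgT q k w) := by
  induction j with
  | zero =>
    refine ⟨fun w => w, fun w => -(w + 1) / 2, differentiableOn_id,
      ((differentiableOn_id.add (differentiableOn_const 1)).neg).div_const 2, fun w hw => ?_⟩
    have h1 := (uhf_good hw 0).2.2
    have h2 : w - 1 ≠ 0 := by
      intro h
      apply h1
      linear_combination -h
    unfold uh
    simp only [Finset.range_zero, Finset.prod_empty, Finset.sum_empty, add_zero, mul_one]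
    constructor
    · field_simp
    · field_simp
      ring
  | succ j ih =>
    obtain ⟨F, G, hF, hG, hFG⟩ := ih
    have e1 : DifferentiableOn ℂ (fun w : ℂ => w * q ^ (j + 1)) (uann q K) :=
      differentiableOn_id.mul_const _
    have e2 : DifferentiableOn ℂ (fun w : ℂ => w⁻¹ * q ^ (j + 1)) (uann q K) :=
      (uhf_diffw q K).mul_const _
    have d1 : DifferentiableOn ℂ (fun w : ℂ => 1 - w * q ^ (j + 1)) (uann q K) :=
      (differentiableOn_const 1).sub e1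
    have d2 : DifferentiableOn ℂ (fun w : ℂ => 1 - w⁻¹ * q ^ (j + 1)) (uann q K) :=
      (differentiableOn_const 1).sub e2
    refine ⟨fun w => ((1 - w⁻¹ * q ^ (j + 1)) * (1 - w * q ^ (j + 1))) ^ 2 * F w +
        uh q j w ^ 2 * ((1 - w⁻¹ * q ^ (j + 1)) ^ 2 * (w * q ^ (j + 1)) +
          (1 - w * q ^ (j + 1)) ^ 2 * (w⁻¹ * q ^ (j + 1))),
      fun w => ((1 - w⁻¹ * q ^ (j + 1)) * (1 - w * q ^ (j + 1))) * G w +
        uh q j w * ((1 - w * q ^ (j + 1)) * (w⁻¹ * q ^ (j + 1)) -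
          (1 - w⁻¹ * q ^ (j + 1)) * (w * q ^ (j + 1))), ?_, ?_, ?_⟩
    · exact (((d2.mul d1).pow 2).mul hF).add
        (((uhf_hh q K j).pow 2).mul (((d2.pow 2).mul e1).add ((d1.pow 2).mul e2)))
    · exact ((d2.mul d1).mul hG).add ((uhf_hh q K j).mul ((d1.mul e2).sub (d2.mul e1)))
    · intro w hw
      obtain ⟨n1, n2, -⟩ := uhf_good hw j
      obtain ⟨i1, i2⟩ := hFG w hw
      beta_reduce
      rw [i1, i2, uh_succ, Finset.sum_range_succ, Finset.sum_range_succ]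
      set S := ∑ k ∈ Finset.range j, uhfT q k w
      set S' := ∑ k ∈ Finset.range j, uhgT q k w
      unfold uhfT uhgT
      set a := w * q ^ (j + 1)
      set b := w⁻¹ * q ^ (j + 1)
      set P := w / (1 - w) ^ 2
      set Q := (w + 1) / (2 * (w - 1))
      constructor
      · field_simp
        ring
      · field_simp
        ring

theorem exists_uHF {q : ℂ} (hq0 : q ≠ 0) (hq1 : ‖q‖ < 1) (K : ℕ) :
    ∃ HF HG : ℂ → ℂ, DifferentiableOn ℂ HF (uann q K) ∧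
    DifferentiableOn ℂ HG (uann q K) ∧
    ∀ w ∈ uann q K, w ∈ ugood q →
      HF w = uh q K w ^ 2 * uf q w ∧ HG w = uh q K w * ug q w := by
  obtain ⟨F, G, hF, hG, hFG⟩ := uhf_fin q K K
  have hK : DifferentiableOn ℂ (uhfT q K) (uann q K) ∧
      DifferentiableOn ℂ (uhgT q K) (uann q K) := by
    apply uhf_diff
    intro w hw
    obtain ⟨h1, h2⟩ := uterm_bound hq0 hq1 K hw K (by omega)
    refine ⟨fun h => ?_, fun h => ?_⟩
    · rw [← sub_eq_zero.1 h, norm_one] at h1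
      exact lt_irrefl _ h1
    · rw [← sub_eq_zero.1 h, norm_one] at h2
      exact lt_irrefl _ h2
  obtain ⟨t1, t2⟩ := uhf_tail hq0 hq1 K
  refine ⟨fun w => F w + uh q K w ^ 2 * (uhfT q K w + ∑' k, uhfT q (k + (K + 1)) w),
    fun w => G w + uh q K w * (uhgT q K w + ∑' k, uhgT q (k + (K + 1)) w),
    hF.add (((uhf_hh q K K).pow 2).mul (hK.1.add t1)),
    hG.add ((uhf_hh q K K).mul (hK.2.add t2)), fun w hw hg => ?_⟩
  obtain ⟨i1, i2⟩ := hFG w hg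
  have s1 : Summable (fun k => uhfT q k w) :=
    (summable_nat_add_iff (K + 1)).1
      (Summable.of_norm_bounded (uhf_sum hq1 _) fun k => (uhf_bd hq0 hq1 hw k).1)
  have s2 : Summable (fun k => uhgT q k w) :=
    (summable_nat_add_iff (K + 1)).1
      (Summable.of_norm_bounded (uhf_sum hq1 _) fun k => (uhf_bd hq0 hq1 hw k).2)
  have f1 : uf q w = w / (1 - w) ^ 2 + (∑ k ∈ Finset.range K, uhfT q k w + uhfT q K w +
      ∑' k, uhfT q (k + (K + 1)) w) := by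
    rw [← Finset.sum_range_succ, s1.sum_add_tsum_nat_add (K + 1)]
    rfl
  have f2 : ug q w = (w + 1) / (2 * (w - 1)) + (∑ k ∈ Finset.range K, uhgT q k w + uhgT q K w +
      ∑' k, uhgT q (k + (K + 1)) w) := by
    rw [← Finset.sum_range_succ, s2.sum_add_tsum_nat_add (K + 1)]
    rfl
  beta_reduce
  constructor
  · rw [i1, f1]
    ring
  · rw [i2, f2]
    ring

end Pool.Agent.Lib.MP5e
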