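import Pool.Agent.Lib.MP_5e64e7_nt.UFper
import Pool.Agent.Lib.MP_5e64e7_nt.UHfun
import Pool.Agent.Lib.MP_5e64e7_nt.UBdsA

set_option autoImplicit false

noncomputable section

namespace Pool.Agent.Lib.MP5e

open Polynomial Topology

theorem ugood_pow {q : ℂ} (hq0 : q ≠ 0) {w : ℂ} (hw : w ∈ ugood q) (m : ℕ) :
    q ^ m * w ∈ ugood q := by
  induction m with
  | zero => simpa using hw
  | succ m ih =>
    have h := ugood_q hq0 ih
    rw [pow_succ']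
    rwa [← mul_assoc] at h

theorem uf_pow {q : ℂ} (hq0 : q ≠ 0) (hq1 : ‖q‖ < 1) {w : ℂ} (hw : w ∈ ugood q) (m : ℕ) :
    uf q (q ^ m * w) = uf q w := by
  induction m with
  | zero => rw [pow_zero, one_mul]
  | succ m ih =>
    rw [pow_succ', mul_assoc, uf_q hq0 hq1 (ugood_pow hq0 hw m), ih]

theorem ug_pow {q : ℂ} (hq0 : q ≠ 0) (hq1 : ‖q‖ < 1) {w : ℂ} (hw : w ∈ ugood q) (m : ℕ) :
    ug q (q ^ m * w) = ug q w - m := by
  induction m with
  | zero => rw [pow_zero, one_mul]; simp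
  | succ m ih =>
    rw [pow_succ', mul_assoc, ug_q hq0 hq1 (ugood_pow hq0 hw m), ih]
    push_cast
    ring

/-- the constant for the circle bounds -/
def uc2 (r : ℝ) : ℝ := 3 / ((1 - Real.sqrt r) ^ 2 * (1 - r))

theorem one_le_uc2 {r : ℝ} (h0 : 0 ≤ r) (h1 : r < 1) : 1 ≤ uc2 r := by
  have h2 : Real.sqrt r < 1 := by
    rw [Real.sqrt_lt' one_pos]
    simpa using h1
  have h3 := Real.sqrt_nonneg r
  unfold uc2
  rw [le_div_iff₀ (by have : 0 < 1 - Real.sqrt r := by linarith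
                      have : 0 < 1 - r := by linarith
                      positivity)]
  have h4 : (1 - Real.sqrt r) ^ 2 ≤ 1 := by nlinarith
  have h5 : (1 - Real.sqrt r) ^ 2 * (1 - r) ≤ 1 * 1 :=
    mul_le_mul h4 (by linarith) (by linarith) (by norm_num)
  linarith

/-- bounds on the circle `|w| = |q|^{1/2}` -/
private lemma ubb_base {q : ℂ} {r : ℝ} (hq0 : q ≠ 0) (hqr : ‖q‖ ≤ r) (hr : r < 1) (w : ℂ)
    (hw : ‖w‖ = Real.sqrt ‖q‖) : ‖uf q w‖ ≤ uc2 r ∧ ‖ug q w‖ ≤ uc2 r := by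
  have hq : 0 < ‖q‖ := norm_pos_iff.2 hq0
  have hr0 : 0 ≤ r := hq.le.trans hqr
  have hq1 : ‖q‖ < 1 := lt_of_le_of_lt hqr hr
  set s : ℝ := Real.sqrt r with hs
  have hs0 : 0 ≤ s := Real.sqrt_nonneg r
  have hs1 : s < 1 := by
    rw [hs, Real.sqrt_lt' one_pos]
    simpa using hr
  have hws : ‖w‖ ≤ s := by
    rw [hw]
    exact Real.sqrt_le_sqrt hqr
  have hw0 : 0 < ‖w‖ := by
    rw [hw]
    exact Real.sqrt_pos.2 hq
  have hwq : ‖w‖⁻¹ * ‖q‖ = ‖w‖ := by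
    have h1 : ‖w‖ * ‖w‖ = ‖q‖ := by
      rw [hw]
      exact Real.mul_self_sqrt hq.le
    rw [inv_mul_eq_iff_eq_mul₀ hw0.ne']
    exact h1.symm
  have t1 : ∀ k : ℕ, ‖w * q ^ (k + 1)‖ ≤ s * r ^ k := by
    intro k
    rw [norm_mul, norm_pow]
    have h1 : ‖q‖ ^ (k + 1) ≤ r ^ k := by
      rw [pow_succ]
      calc ‖q‖ ^ k * ‖q‖ ≤ r ^ k * 1 :=
            mul_le_mul (pow_le_pow_left₀ hq.le hqr k) hq1.le hq.le (pow_nonneg hr0 _)
        _ = r ^ k := mul_one _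
    exact mul_le_mul hws h1 (pow_nonneg hq.le _) hs0
  have t2 : ∀ k : ℕ, ‖w⁻¹ * q ^ (k + 1)‖ ≤ s * r ^ k := by
    intro k
    rw [norm_mul, norm_pow, norm_inv, pow_succ', ← mul_assoc, hwq]
    exact mul_le_mul hws (pow_le_pow_left₀ hq.le hqr k) (pow_nonneg hq.le _) hs0
  have t3 : ∀ k : ℕ, s * r ^ k ≤ s := fun k =>
    mul_le_of_le_one_right hs0 (pow_le_one₀ hr0 hr.le)
  have hsum : Summable (fun k : ℕ => 2 * s / (1 - s) ^ 2 * r ^ k) :=
    (summable_geometric_of_lt_one hr0 hr).mul_left _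
  have htsum : ∑' k : ℕ, 2 * s / (1 - s) ^ 2 * r ^ k = 2 * s / ((1 - s) ^ 2 * (1 - r)) := by
    rw [tsum_mul_left, tsum_geometric_of_lt_one hr0 hr]
    have h1 : 1 - s ≠ 0 := by linarith
    have h2 : 1 - r ≠ 0 := by linarith
    field_simp
  have hsplit : ∀ k : ℕ, 2 * s / (1 - s) ^ 2 * r ^ k =
      s * r ^ k / (1 - s) ^ 2 + s * r ^ k / (1 - s) ^ 2 := by
    intro k
    ring
  have b1 : ∀ k : ℕ, ‖w * q ^ (k + 1) / (1 - w * q ^ (k + 1)) ^ 2 +
      w⁻¹ * q ^ (k + 1) / (1 - w⁻¹ * q ^ (k + 1)) ^ 2‖ ≤ 2 * s / (1 - s) ^ 2 * r ^ k := by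
    intro k
    rw [hsplit]
    exact (norm_add_le _ _).trans
      (add_le_add (uhf_one (t1 k) (t3 k) hs1).2.1 (uhf_one (t2 k) (t3 k) hs1).2.1)
  have b2 : ∀ k : ℕ, ‖w⁻¹ * q ^ (k + 1) / (1 - w⁻¹ * q ^ (k + 1)) -
      w * q ^ (k + 1) / (1 - w * q ^ (k + 1))‖ ≤ 2 * s / (1 - s) ^ 2 * r ^ k := by
    intro k
    rw [hsplit]
    exact (norm_sub_le _ _).trans
      (add_le_add (uhf_one (t2 k) (t3 k) hs1).2.2 (uhf_one (t1 k) (t3 k) hs1).2.2)
  have s1 := tsum_of_norm_bounded hsum.hasSum b1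
  have s2 := tsum_of_norm_bounded hsum.hasSum b2
  rw [htsum] at s1 s2
  have hden : 0 < (1 - s) ^ 2 * (1 - r) := by
    have : 0 < 1 - s := by linarith
    have : 0 < 1 - r := by linarith
    positivity
  have h1s : 0 < 1 - s := by linarith
  have hfin : 1 / (1 - s) ^ 2 + 2 * s / ((1 - s) ^ 2 * (1 - r)) ≤ uc2 r := by
    unfold uc2
    rw [← hs]
    have e1 : 1 / (1 - s) ^ 2 = (1 - r) / ((1 - s) ^ 2 * (1 - r)) := by
      have h1 : 1 - s ≠ 0 := h1s.ne'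
      have h2 : 1 - r ≠ 0 := by linarith
      field_simp
    rw [e1, ← add_div]
    apply div_le_div_of_nonneg_right _ hden.le
    linarith
  obtain ⟨-, f1, -⟩ := uhf_one hws (le_refl s) hs1
  constructor
  · unfold uf
    refine (norm_add_le _ _).trans (le_trans (add_le_add (f1.trans ?_) s1) hfin)
    exact div_le_div_of_nonneg_right hs1.le (by positivity)
  · unfold ug
    refine (norm_add_le _ _).trans (le_trans (add_le_add ?_ s2) hfin)
    have h1 : 1 - s ≤ ‖w - 1‖ := by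
      have := norm_sub_norm_le (1 : ℂ) w
      rw [norm_one, norm_sub_rev] at this
      linarith
    have h2 : ‖w + 1‖ ≤ 2 := by
      refine (norm_add_le _ _).trans ?_
      rw [norm_one]
      linarith
    rw [norm_div, norm_mul, Complex.norm_ofNat]
    calc ‖w + 1‖ / (2 * ‖w - 1‖) ≤ 2 / (2 * (1 - s)) :=
          div_le_div₀ (by norm_num) h2 (by positivity) (by linarith)
      _ = 1 / (1 - s) := by
          have h3 : 1 - s ≠ 0 := h1s.ne'
          field_simp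
      _ ≤ 1 / (1 - s) ^ 2 := by
          apply one_div_le_one_div_of_le (by positivity)
          nlinarith

theorem ufg_circ {q : ℂ} {r : ℝ} (hq0 : q ≠ 0) (hqr : ‖q‖ ≤ r) (hr : r < 1) (K : ℕ) (w : ℂ)
    (hw : ‖w‖ = urho q K ∨ ‖w‖ = (urho q K)⁻¹) :
    ‖uf q w‖ ≤ uc2 r ∧ ‖ug q w‖ ≤ K + 1 + uc2 r := by
  have hq : 0 < ‖q‖ := norm_pos_iff.2 hq0
  have hq1 : ‖q‖ < 1 := lt_of_le_of_lt hqr hr
  have hsq : 0 < Real.sqrt ‖q‖ := Real.sqrt_pos.2 hq
  have hq2 : ‖q‖ = Real.sqrt ‖q‖ ^ 2 := (Real.sq_sqrt hq.le).symm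
  rcases hw with hw | hw
  · have hwg : w ∈ ugood q := ucirc_good hq0 hq1 K w (Or.inl hw)
    have h1 : ‖q ^ (K + 1) * w‖ = Real.sqrt ‖q‖ := by
      rw [norm_mul, norm_pow, hw]
      unfold urho
      set x := Real.sqrt ‖q‖
      rw [hq2]
      field_simp
      ring
    obtain ⟨h3, h4⟩ := ubb_base hq0 hqr hr _ h1
    rw [uf_pow hq0 hq1 hwg] at h3
    rw [ug_pow hq0 hq1 hwg] at h4
    refine ⟨h3, ?_⟩
    have h5 : ug q w = (ug q w - ((K + 1 : ℕ) : ℂ)) + ((K + 1 : ℕ) : ℂ) := by ring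
    rw [h5]
    refine (norm_add_le _ _).trans ?_
    rw [Complex.norm_natCast]
    push_cast at h4 ⊢
    linarith
  · have hr0 : q ^ K ≠ 0 := pow_ne_zero _ hq0
    have h1 : ‖(q ^ K)⁻¹ * w‖ = Real.sqrt ‖q‖ := by
      rw [norm_mul, norm_inv, norm_pow, hw]
      unfold urho
      rw [inv_inv]
      set x := Real.sqrt ‖q‖
      rw [hq2]
      field_simp
      ring
    have h2 : (q ^ K)⁻¹ * w ∈ ugood q := by
      apply ucirc_good hq0 hq1 0
      right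
      rw [h1]
      unfold urho
      rw [inv_inv]
      simp
    obtain ⟨h3, h4⟩ := ubb_base hq0 hqr hr _ h1
    have h5 : w = q ^ K * ((q ^ K)⁻¹ * w) := by
      rw [← mul_assoc, mul_inv_cancel₀ hr0, one_mul]
    have h6 : uf q w = uf q ((q ^ K)⁻¹ * w) := by
      conv_lhs => rw [h5]
      exact uf_pow hq0 hq1 h2 K
    have h7 : ug q w = ug q ((q ^ K)⁻¹ * w) - K := by
      conv_lhs => rw [h5]
      exact ug_pow hq0 hq1 h2 K
    refine ⟨by rw [h6]; exact h3, ?_⟩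
    rw [h7]
    refine (norm_sub_le _ _).trans ?_
    rw [Complex.norm_natCast]
    linarith

end Pool.Agent.Lib.MP5e
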