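import Pool.Agent.Lib.MP_5e64e7_nt.UDefs
import Pool.Agent.Lib.MP_5e64e7_nt.Approx

set_option autoImplicit false

/-!
# U.CC : sizes of the Taylor coefficients (block B; inductions on `t`)

`uc (t+1) i k j` is a combination of values of `uc t` at `(i-1,k+1,j)` (coefficient `i`), `(i+2,k-1,j)` (coefficient `6k`),
`(i,k-1,j)` (coefficient `6kb`), `(i,k,j-1)` (coefficient `j kappa`), `(i+1,k,j-1)` (coefficient `j lam`). With
`n = i + k + j + t` the sum of the numerical coefficients is at most `i + 12 k + 2 j <= 14 n`, one factor `M` at most is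
used, and `i + k + j + t` does not increase. `uc_hom`: multiply by `lam^j`. `uc_map`: ring homomorphisms.
-/

noncomputable section

namespace Pool.Agent.Lib.MP5e

open Polynomial Topology

theorem uc_map {S T : Type*} [CommRing S] [CommRing T] (φ : S →+* T) (b e κ lam : S)
    (t i k j : ℕ) : φ (uc b e κ lam t i k j) = uc (φ b) (φ e) (φ κ) (φ lam) t i k j := by
  induction t generalizing i k j with
  | zero => simp [uc]
  | succ t ih => simp only [uc, map_add, map_mul, map_sub, map_natCast, map_ofNat, ih]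

theorem uc_hom {S : Type*} [CommRing S] (b e κ lam : S) (t i k j : ℕ) :
    lam ^ j * uc b e κ 1 t i k j = uc b e (lam * κ) lam t i k j := by
  induction t generalizing i k j with
  | zero =>
    rcases Nat.eq_zero_or_pos j with hj | hj
    · subst hj; simp [uc]
    · simp [uc, zero_pow (by omega : j ≠ 0)]
  | succ t ih =>
    rcases Nat.eq_zero_or_pos j with hj | hj
    · subst hj
      simp only [uc, ← ih]
      simp
    · obtain ⟨j, rfl⟩ : ∃ j', j = j' + 1 := ⟨j - 1, by omega⟩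
      simp only [uc, ← ih, Nat.add_sub_cancel]
      ring

private theorem UCc_gen {S : Type*} [CommRing S] (Q : ℝ → S → Prop)
    (hmono : ∀ M M' x, M ≤ M' → Q M x → Q M' x)
    (hadd : ∀ M M' x y, Q M x → Q M' y → Q (M + M') (x + y))
    (hsub : ∀ M M' x y, Q M x → Q M' y → Q (M + M') (x - y))
    (hmul : ∀ M M' x y, Q M x → Q M' y → Q (M * M') (x * y))
    (hnat : ∀ v : ℕ, Q (v : ℝ) (v : S)) {M : ℝ} (hM : 1 ≤ M) {b e κ lam : S}
    (hb : Q M b) (he : Q M e) (hκ : Q M κ) (hl : Q M lam) (t i k j : ℕ) :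
    Q ((14 * ((i + k + j + t : ℕ) : ℝ)) ^ t * M ^ (i + k + j + t)) (uc b e κ lam t i k j) := by
  have h00 : Q 0 0 := by simpa using hnat 0
  have h11 : Q 1 1 := by simpa using hnat 1
  have hpow0 : ∀ k : ℕ, Q 1 ((0 : S) ^ k) := by
    intro k
    rcases Nat.eq_zero_or_pos k with hk | hk
    · subst hk; simpa using h11
    · rw [zero_pow (by omega)]
      exact hmono 0 1 0 zero_le_one h00
  have hpow : ∀ k : ℕ, Q (M ^ k) (e ^ k) := by
    intro k
    induction k with
    | zero => simpa using h11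
    | succ k ih => rw [pow_succ, pow_succ]; exact hmul _ _ _ _ ih he
  have hnz : ∀ (a : ℕ) (x : S) (B : ℝ), (a ≠ 0 → Q B x) → Q (a * B) ((a : S) * x) := by
    intro a x B h
    rcases Nat.eq_zero_or_pos a with ha | ha
    · subst ha; simpa using h00
    · exact hmul _ _ _ _ (hnat a) (h (by omega))
  induction t generalizing i k j with
  | zero =>
    have h := hmul _ _ _ _ (hmul _ _ _ _ (hpow i) (hpow0 k)) (hpow0 j)
    refine hmono _ _ _ ?_ h
    rw [mul_one, mul_one, pow_zero, one_mul]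
    exact pow_le_pow_right₀ hM (by omega)
  | succ t ih =>
    set n : ℕ := i + k + j + (t + 1) with hn
    set A : ℝ := (14 * (n : ℝ)) ^ t with hA
    have hA0 : 0 ≤ A := by positivity
    have hM0 : 0 ≤ M := by linarith
    have key : ∀ i' k' j' m : ℕ, i' + k' + j' + t ≤ m → m ≤ n →
        Q (A * M ^ m) (uc b e κ lam t i' k' j') := by
      intro i' k' j' m h1 h2
      refine hmono _ _ _ ?_ (ih i' k' j')
      refine mul_le_mul ?_ (pow_le_pow_right₀ hM h1) (by positivity) hA0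
      refine pow_le_pow_left₀ (by positivity) ?_ t
      have : ((i' + k' + j' + t : ℕ) : ℝ) ≤ n := by exact_mod_cast h1.trans h2
      linarith
    have hstep : ∀ (m : ℕ) (x y : S), m + 1 ≤ n → Q M x → Q (A * M ^ m) y →
        Q (A * M ^ n) (x * y) := by
      intro m x y hm hx hy
      refine hmono _ _ _ ?_ (hmul _ _ _ _ hx hy)
      calc M * (A * M ^ m) = A * M ^ (m + 1) := by ring
        _ ≤ A * M ^ n := mul_le_mul_of_nonneg_left (pow_le_pow_right₀ hM hm) hA0
    set B : ℝ := A * M ^ n with hB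
    have hB0 : 0 ≤ B := by positivity
    have t1 : Q (i * B) ((i : S) * uc b e κ lam t (i - 1) (k + 1) j) :=
      hnz _ _ _ fun hi => key _ _ _ _ (by omega) le_rfl
    have t2 : Q (k * (6 * B + 6 * B)) ((k : S) * (6 * uc b e κ lam t (i + 2) (k - 1) j -
        6 * b * uc b e κ lam t i (k - 1) j)) := by
      refine hnz _ _ _ fun hk => ?_
      have h6 : Q 6 6 := by simpa using hnat 6
      refine hsub _ _ _ _ (hmul _ _ _ _ h6 (key _ _ _ _ (by omega) le_rfl)) ?_
      rw [mul_assoc]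
      exact hmul _ _ _ _ h6 (hstep (n - 1) _ _ (by omega) hb (key _ _ _ _ (by omega) (by omega)))
    have t3 : Q (j * (B + B)) ((j : S) * (κ * uc b e κ lam t i k (j - 1) -
        lam * uc b e κ lam t (i + 1) k (j - 1))) := by
      refine hnz _ _ _ fun hj => ?_
      exact hsub _ _ _ _ (hstep (n - 1) _ _ (by omega) hκ (key _ _ _ _ (by omega) (by omega)))
        (hstep (n - 1) _ _ (by omega) hl (key _ _ _ _ (by omega) (by omega)))
    rw [uc]
    refine hmono _ _ _ ?_ (hadd _ _ _ _ (hadd _ _ _ _ t1 t2) t3)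
    have hnr : (n : ℝ) = i + k + j + (t + 1) := by rw [hn]; push_cast; ring
    calc (i : ℝ) * B + k * (6 * B + 6 * B) + j * (B + B) = (i + 12 * k + 2 * j) * B := by ring
      _ ≤ (14 * n) * B := by
        refine mul_le_mul_of_nonneg_right ?_ hB0
        rw [hnr]
        have h1 : (0 : ℝ) ≤ i := Nat.cast_nonneg _
        have h2 : (0 : ℝ) ≤ k := Nat.cast_nonneg _
        have h3 : (0 : ℝ) ≤ j := Nat.cast_nonneg _
        have h4 : (0 : ℝ) ≤ t := Nat.cast_nonneg _
        linarith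
      _ = (14 * (n : ℝ)) ^ (t + 1) * M ^ n := by rw [hB, hA, pow_succ]; ring

theorem uc_norm {M : ℝ} (hM : 1 ≤ M) {b e κ lam : ℂ} (hb : ‖b‖ ≤ M) (he : ‖e‖ ≤ M) (hκ : ‖κ‖ ≤ M)
    (hl : ‖lam‖ ≤ M) (t i k j : ℕ) :
    ‖uc b e κ lam t i k j‖ ≤ (14 * ((i + k + j + t : ℕ) : ℝ)) ^ t * M ^ (i + k + j + t) := by
  refine UCc_gen (fun M x => ‖x‖ ≤ M) (fun _ _ _ h h' => le_trans h' h)
    (fun _ _ _ _ h h' => (norm_add_le _ _).trans (add_le_add h h'))
    (fun _ _ _ _ h h' => (norm_sub_le _ _).trans (add_le_add h h'))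
    (fun A A' x y h h' => ?_) (fun v => by simp) hM hb he hκ hl t i k j
  rw [norm_mul]
  exact mul_le_mul h h' (norm_nonneg _) ((norm_nonneg _).trans h)

theorem uc_AI {K : IntermediateField ℚ ℂ} {M : ℝ} (hM : 1 ≤ M) {b e κ lam : ℂ} (hb : AI K M b)
    (he : AI K M e) (hκ : AI K M κ) (hl : AI K M lam) (t i k j : ℕ) :
    AI K ((14 * ((i + k + j + t : ℕ) : ℝ)) ^ t * M ^ (i + k + j + t)) (uc b e κ lam t i k j) := by
  exact UCc_gen (fun M x => AI K M x) (fun _ _ _ h h' => h'.mono le_rfl h)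
    (fun _ _ _ _ h h' => h.add h') (fun _ _ _ _ h h' => h.sub h')
    (fun _ _ _ _ h h' => h.mul h') (fun v => AI.nat K v) hM hb he hκ hl t i k j

theorem uc_lip {M : ℝ} (hM : 1 ≤ M) {b e κ κ' : ℂ} (hb : ‖b‖ ≤ M) (he : ‖e‖ ≤ M) (hκ : ‖κ‖ ≤ M)
    (hκ' : ‖κ'‖ ≤ M) (t i k j : ℕ) :
    ‖uc b e κ 1 t i k j - uc b e κ' 1 t i k j‖ ≤
      ‖κ - κ'‖ * (t * ((14 * ((i + k + j + t : ℕ) : ℝ)) ^ t * M ^ (i + k + j + t))) := by
  induction t generalizing i k j with
  | zero => simp [uc]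
  | succ t ih =>
    set n : ℕ := i + k + j + (t + 1) with hn
    set A : ℝ := (14 * (n : ℝ)) ^ t with hA
    set δ : ℝ := ‖κ - κ'‖ with hδ
    have hδ0 : 0 ≤ δ := norm_nonneg _
    have hA0 : 0 ≤ A := by positivity
    have hM0 : 0 ≤ M := by linarith
    have h1M : ‖(1 : ℂ)‖ ≤ M := by simpa using hM
    have keyA : ∀ i' k' j' m : ℕ, i' + k' + j' + t ≤ m → m ≤ n →
        (14 * ((i' + k' + j' + t : ℕ) : ℝ)) ^ t * M ^ (i' + k' + j' + t) ≤ A * M ^ m := by
      intro i' k' j' m h1 h2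
      refine mul_le_mul ?_ (pow_le_pow_right₀ hM h1) (by positivity) hA0
      refine pow_le_pow_left₀ (by positivity) ?_ t
      have : ((i' + k' + j' + t : ℕ) : ℝ) ≤ n := by exact_mod_cast h1.trans h2
      linarith
    have key : ∀ i' k' j' m : ℕ, i' + k' + j' + t ≤ m → m ≤ n →
        ‖uc b e κ 1 t i' k' j' - uc b e κ' 1 t i' k' j'‖ ≤ δ * (t * (A * M ^ m)) := by
      intro i' k' j' m h1 h2
      refine (ih i' k' j').trans ?_
      exact mul_le_mul_of_nonneg_left
        (mul_le_mul_of_nonneg_left (keyA _ _ _ _ h1 h2) (Nat.cast_nonneg _)) hδ0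
    have keyN : ∀ i' k' j' m : ℕ, i' + k' + j' + t ≤ m → m ≤ n →
        ‖uc b e κ' 1 t i' k' j'‖ ≤ A * M ^ m := fun i' k' j' m h1 h2 =>
      (uc_norm hM hb he hκ' h1M t i' k' j').trans (keyA _ _ _ _ h1 h2)
    set B : ℝ := A * M ^ n with hB
    have hB0 : 0 ≤ B := by positivity
    have hup : ∀ (m : ℕ), m + 1 ≤ n → M * (A * M ^ m) ≤ B := by
      intro m hm
      calc M * (A * M ^ m) = A * M ^ (m + 1) := by ring
        _ ≤ A * M ^ n := mul_le_mul_of_nonneg_left (pow_le_pow_right₀ hM hm) hA0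
    have hnz : ∀ (a : ℕ) (x : ℂ) (Z : ℝ), (a ≠ 0 → ‖x‖ ≤ Z) → ‖(a : ℂ) * x‖ ≤ a * Z := by
      intro a x Z h
      rcases Nat.eq_zero_or_pos a with ha | ha
      · subst ha; simp
      · rw [norm_mul, Complex.norm_natCast]
        exact mul_le_mul_of_nonneg_left (h (by omega)) (Nat.cast_nonneg _)
    have t0 : (0 : ℝ) ≤ t := Nat.cast_nonneg _
    have t1 : ‖(i : ℂ) * (uc b e κ 1 t (i - 1) (k + 1) j - uc b e κ' 1 t (i - 1) (k + 1) j)‖ ≤
        i * (δ * (t * B)) := hnz _ _ _ fun hi => key _ _ _ _ (by omega) le_rfl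
    have t2 : ‖(k : ℂ) * (6 * (uc b e κ 1 t (i + 2) (k - 1) j - uc b e κ' 1 t (i + 2) (k - 1) j) -
        6 * (b * (uc b e κ 1 t i (k - 1) j - uc b e κ' 1 t i (k - 1) j)))‖ ≤
        k * (6 * (δ * (t * B)) + 6 * (δ * (t * B))) := by
      refine hnz _ _ _ fun hk => ?_
      refine (norm_sub_le _ _).trans (add_le_add ?_ ?_)
      · rw [norm_mul]
        have : ‖(6 : ℂ)‖ = 6 := by simp
        rw [this]
        exact mul_le_mul_of_nonneg_left (key _ _ _ _ (by omega) le_rfl) (by norm_num)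
      · rw [norm_mul, norm_mul]
        have : ‖(6 : ℂ)‖ = 6 := by simp
        rw [this]
        refine mul_le_mul_of_nonneg_left ?_ (by norm_num)
        calc ‖b‖ * ‖uc b e κ 1 t i (k - 1) j - uc b e κ' 1 t i (k - 1) j‖
            ≤ M * (δ * (t * (A * M ^ (n - 1)))) :=
              mul_le_mul hb (key _ _ _ _ (by omega) (by omega)) (norm_nonneg _) hM0
          _ = δ * (t * (M * (A * M ^ (n - 1)))) := by ring
          _ ≤ δ * (t * B) := mul_le_mul_of_nonneg_left
              (mul_le_mul_of_nonneg_left (hup _ (by omega)) t0) hδ0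
    have t3 : ‖(j : ℂ) * (κ * (uc b e κ 1 t i k (j - 1) - uc b e κ' 1 t i k (j - 1)) +
        (κ - κ') * uc b e κ' 1 t i k (j - 1) -
        (uc b e κ 1 t (i + 1) k (j - 1) - uc b e κ' 1 t (i + 1) k (j - 1)))‖ ≤
        j * (δ * (t * B) + δ * B + δ * (t * B)) := by
      refine hnz _ _ _ fun hj => ?_
      refine (norm_sub_le _ _).trans (add_le_add ((norm_add_le _ _).trans (add_le_add ?_ ?_)) ?_)
      · rw [norm_mul]
        calc ‖κ‖ * ‖uc b e κ 1 t i k (j - 1) - uc b e κ' 1 t i k (j - 1)‖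
            ≤ M * (δ * (t * (A * M ^ (n - 1)))) :=
              mul_le_mul hκ (key _ _ _ _ (by omega) (by omega)) (norm_nonneg _) hM0
          _ = δ * (t * (M * (A * M ^ (n - 1)))) := by ring
          _ ≤ δ * (t * B) := mul_le_mul_of_nonneg_left
              (mul_le_mul_of_nonneg_left (hup _ (by omega)) t0) hδ0
      · rw [norm_mul]
        exact mul_le_mul_of_nonneg_left (keyN _ _ _ _ (by omega) le_rfl) hδ0
      · exact key _ _ _ _ (by omega) le_rfl
    have hsplit : uc b e κ 1 (t + 1) i k j - uc b e κ' 1 (t + 1) i k j =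
        (i : ℂ) * (uc b e κ 1 t (i - 1) (k + 1) j - uc b e κ' 1 t (i - 1) (k + 1) j) +
        (k : ℂ) * (6 * (uc b e κ 1 t (i + 2) (k - 1) j - uc b e κ' 1 t (i + 2) (k - 1) j) -
        6 * (b * (uc b e κ 1 t i (k - 1) j - uc b e κ' 1 t i (k - 1) j))) +
        (j : ℂ) * (κ * (uc b e κ 1 t i k (j - 1) - uc b e κ' 1 t i k (j - 1)) +
        (κ - κ') * uc b e κ' 1 t i k (j - 1) -
        (uc b e κ 1 t (i + 1) k (j - 1) - uc b e κ' 1 t (i + 1) k (j - 1))) := by
      simp only [uc]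
      ring
    rw [hsplit]
    refine ((norm_add_le _ _).trans (add_le_add ((norm_add_le _ _).trans
      (add_le_add t1 t2)) t3)).trans ?_
    have hnr : (n : ℝ) = i + k + j + (t + 1) := by rw [hn]; push_cast; ring
    have hC : (i : ℝ) * t + 12 * k * t + j * (2 * t + 1) ≤ ((t : ℝ) + 1) * (14 * n) := by
      rw [hnr]
      have h1 : (0 : ℝ) ≤ i := Nat.cast_nonneg _
      have h2 : (0 : ℝ) ≤ k := Nat.cast_nonneg _
      have h3 : (0 : ℝ) ≤ j := Nat.cast_nonneg _
      nlinarith [mul_nonneg h1 t0, mul_nonneg h2 t0, mul_nonneg h3 t0, mul_nonneg t0 t0]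
    calc (i : ℝ) * (δ * (t * B)) + k * (6 * (δ * (t * B)) + 6 * (δ * (t * B))) +
          j * (δ * (t * B) + δ * B + δ * (t * B))
        = (δ * B) * ((i : ℝ) * t + 12 * k * t + j * (2 * t + 1)) := by ring
      _ ≤ (δ * B) * (((t : ℝ) + 1) * (14 * n)) :=
          mul_le_mul_of_nonneg_left hC (mul_nonneg hδ0 hB0)
      _ = δ * (((t + 1 : ℕ) : ℝ) * ((14 * (n : ℝ)) ^ (t + 1) * M ^ n)) := by
          rw [hB, hA, pow_succ]; push_cast; ring

end Pool.Agent.Lib.MP5e
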