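import Pool.Agent.Lib.MP_5e64e7_nt.UDefs
import Pool.Agent.Lib.UM.Zero

set_option autoImplicit false

/-!
# U.ZERO : the zero estimate (last module of block C, models `Zps, Zwt, ZwtA, ZwtB, Zimp, Zimp2, Zlin, Zero`)
-/

noncomputable section

namespace Pool.Agent.Lib.MP5e

open Polynomial Topology

private theorem UZero_uc {S : Type*} [CommRing S] (b e κ : S) (t : ℕ) : ∀ i k j : ℕ,
    uc b e κ 1 t i k j = Pool.Agent.Lib.UM.uc κ e (6 * b) t i k j := by
  induction t with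
  | zero => intro i k j; rfl
  | succ t ih =>
    intro i k j
    simp only [uc, Pool.Agent.Lib.UM.uc, ih, one_mul]

theorem uzero {b c e κ : ℂ} (he : e ^ 3 = 3 * b * e - 2 * c) (hd : b ^ 3 ≠ c ^ 2) (D : ℕ)
    (a : ℕ → ℕ → ℂ) (hne : ∃ i ≤ D, ∃ j ≤ D, a i j ≠ 0) :
    ∃ t ≤ 10 * (D + 1) ^ 2, (∑ i ∈ Finset.range (D + 1), ∑ j ∈ Finset.range (D + 1),
      a i j * uc b e κ 1 t i 0 j) ≠ 0 := by
  have h1 : 6 * e ^ 2 - 6 * b ≠ 0 := by
    intro h
    apply hd
    have hb : e ^ 2 = b := by linear_combination h / 6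
    have hc : c = b * e := by
      have : e ^ 3 = b * e := by rw [← hb]; ring
      linear_combination (he - this) / 2
    rw [hc]
    calc b ^ 3 = b ^ 2 * e ^ 2 := by rw [hb]; ring
      _ = (b * e) ^ 2 := by ring
  have h2 : 3 * e ^ 2 - 2 * (6 * b) ≠ 0 := by
    intro h
    apply hd
    have hb : e ^ 2 = 4 * b := by linear_combination h / 3
    have hc : b * e = -2 * c := by
      have : e ^ 3 = 4 * b * e := by rw [← hb]; ring
      linear_combination this * (-1) + he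
    have h3 : (b * e) ^ 2 = 4 * b ^ 3 := by rw [mul_pow, hb]; ring
    have h4 : (b * e) ^ 2 = 4 * c ^ 2 := by rw [hc]; ring
    linear_combination (h4 - h3) / 4
  obtain ⟨t, ht, h⟩ := Pool.Agent.Lib.UM.zero_estimate ⟨κ, e, 6 * b, h1, h2⟩ D a hne
  refine ⟨t, ht, ?_⟩
  simp only [UZero_uc]
  exact h

end Pool.Agent.Lib.MP5e
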