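import Pool.Agent.Lib.MP_5e64e7_nt.UCc
import Pool.Agent.Lib.MP_5e64e7_nt.UBd
import Pool.Agent.Lib.MP_5e64e7_nt.UZero
import Pool.Agent.Lib.MP_5e64e7_nt.Box

set_option autoImplicit false

/-!
# U.CON : the contradiction (block D, model `contra` of `Meas.lean`)
-/

noncomputable section

namespace Pool.Agent.Lib.MP5e

open Polynomial Topology

/-- the pigeonhole lemma with double indices -/
private theorem UCon_box2 (D T Bd m : ℕ) (V : ℝ) (hV : 0 ≤ V) (v : ℕ → ℕ → ℕ → ℂ)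
    (hv : ∀ i ≤ D, ∀ j ≤ D, ∀ t < T, ‖v t i j‖ ≤ V) (hm : 1 ≤ m)
    (h : m ^ (2 * T) < (Bd + 1) ^ ((D + 1) ^ 2)) :
    ∃ b : ℕ → ℕ → ℤ, (∃ i ≤ D, ∃ j ≤ D, b i j ≠ 0) ∧ (∀ i j, |b i j| ≤ (Bd : ℤ)) ∧
      ∀ t < T, ‖∑ i ∈ Finset.range (D + 1), ∑ j ∈ Finset.range (D + 1), (b i j : ℂ) * v t i j‖ ≤
        4 * ((D + 1) ^ 2 : ℕ) * Bd * V / m := by
  classical
  rw [pow_two] at h
  let E := (finProdFinEquiv : Fin (D + 1) × Fin (D + 1) ≃ Fin ((D + 1) * (D + 1)))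
  obtain ⟨a, ha0, haB, hat⟩ := box ((D + 1) * (D + 1)) T Bd m V hV
    (fun q t => v t ((E.symm q).1 : ℕ) ((E.symm q).2 : ℕ))
    (fun q t => hv _ (Nat.lt_succ_iff.mp (E.symm q).1.2) _ (Nat.lt_succ_iff.mp (E.symm q).2.2) _
      t.2) hm h
  refine ⟨fun i j => if h : i < D + 1 ∧ j < D + 1 then a (E (⟨i, h.1⟩, ⟨j, h.2⟩)) else 0, ?_, ?_,
    ?_⟩
  · obtain ⟨q, hq⟩ := Function.ne_iff.mp ha0
    refine ⟨(E.symm q).1, Nat.lt_succ_iff.mp (E.symm q).1.2, (E.symm q).2,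
      Nat.lt_succ_iff.mp (E.symm q).2.2, ?_⟩
    have h1 : ((E.symm q).1 : ℕ) < D + 1 ∧ ((E.symm q).2 : ℕ) < D + 1 :=
      ⟨(E.symm q).1.2, (E.symm q).2.2⟩
    simp only [h1, and_self, dite_true, Fin.eta, Prod.mk.eta, Equiv.apply_symm_apply]
    simpa using hq
  · intro i j
    dsimp only
    split_ifs
    · exact haB _
    · simp
  · intro t ht
    have h1 := hat ⟨t, ht⟩
    have h2 : ∑ q, (a q : ℂ) * v t ((E.symm q).1 : ℕ) ((E.symm q).2 : ℕ) =
        ∑ i ∈ Finset.range (D + 1), ∑ j ∈ Finset.range (D + 1),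
          (((if h : i < D + 1 ∧ j < D + 1 then a (E (⟨i, h.1⟩, ⟨j, h.2⟩)) else 0 : ℤ)) : ℂ) *
            v t i j := by
      rw [← Equiv.sum_comp E, Fintype.sum_prod_type, Finset.sum_range]
      refine Finset.sum_congr rfl fun i _ => ?_
      rw [Finset.sum_range]
      refine Finset.sum_congr rfl fun j _ => ?_
      have h1 : (i : ℕ) < D + 1 ∧ (j : ℕ) < D + 1 := ⟨i.2, j.2⟩
      rw [dif_pos h1]
      simp
    simp only at h1
    rw [h2] at h1
    have h3 : (((D + 1) ^ 2 : ℕ) : ℝ) = (((D + 1) * (D + 1) : ℕ) : ℝ) := by rw [pow_two]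
    rw [h3]
    exact h1

/-- sums of `AI` elements -/
private theorem UCon_AI_sum {F : IntermediateField ℚ ℂ} {M : ℝ} (n : ℕ) (x : ℕ → ℂ)
    (h : ∀ i < n, AI F M (x i)) : AI F (n * M) (∑ i ∈ Finset.range n, x i) := by
  induction n with
  | zero => simpa using AI.nat F 0
  | succ n ih =>
    rw [Finset.sum_range_succ]
    refine ((ih fun i hi => h i (by omega)).add (h n (by omega))).mono le_rfl (le_of_eq ?_)
    push_cast; ring

/-- the value `∑ b_ij uc t i 0 j` -/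
private def UCon_A (b e κ : ℂ) (D : ℕ) (v : ℕ → ℕ → ℤ) (t : ℕ) : ℂ :=
  ∑ i ∈ Finset.range (D + 1), ∑ j ∈ Finset.range (D + 1), (v i j : ℂ) * uc b e κ 1 t i 0 j

private theorem UCon_AI {F : IntermediateField ℚ ℂ} {W : ℝ} (hW : 1 ≤ W) {b e κ lam : ℂ}
    (hb : AI F W b) (he : AI F W e) (hl : AI F W lam) (hlk : AI F W (lam * κ)) (D Bd : ℕ)
    (v : ℕ → ℕ → ℤ) (hv : ∀ i j, |v i j| ≤ (Bd : ℤ)) (t : ℕ) :
    AI F (((D + 1) ^ 2 * Bd : ℕ) * (14 * (2 * D + t : ℕ)) ^ t * W ^ (2 * D + t))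
      (lam ^ D * UCon_A b e κ D v t) := by
  have h1 : lam ^ D * UCon_A b e κ D v t = ∑ i ∈ Finset.range (D + 1),
      ∑ j ∈ Finset.range (D + 1), (v i j : ℂ) * (lam ^ (D - j) * uc b e (lam * κ) lam t i 0 j) := by
    unfold UCon_A
    rw [Finset.mul_sum]
    refine Finset.sum_congr rfl fun i _ => ?_
    rw [Finset.mul_sum]
    refine Finset.sum_congr rfl fun j hj => ?_
    have hjD : j ≤ D := Nat.lt_succ_iff.mp (Finset.mem_range.mp hj)
    rw [← uc_hom]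
    have h2 : lam ^ D = lam ^ (D - j) * lam ^ j := by rw [← pow_add]; congr 1; omega
    rw [h2]
    ring
  rw [h1]
  have hW0 : 0 ≤ W := by linarith
  have h3 : AI F (((D + 1 : ℕ) : ℝ) * (((D + 1 : ℕ) : ℝ) *
      (Bd * ((14 * (2 * D + t : ℕ)) ^ t * W ^ (2 * D + t)))))
      (∑ i ∈ Finset.range (D + 1), ∑ j ∈ Finset.range (D + 1),
        (v i j : ℂ) * (lam ^ (D - j) * uc b e (lam * κ) lam t i 0 j)) := by
    refine UCon_AI_sum _ _ fun i hi => UCon_AI_sum _ _ fun j hj => ?_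
    have h4 := (AI.int F (v i j)).mul ((hl.pow (D - j)).mul (uc_AI hW hb he hlk hl t i 0 j))
    refine h4.mono le_rfl ?_
    have h5 : |((v i j : ℤ) : ℝ)| ≤ Bd := by exact_mod_cast hv i j
    refine mul_le_mul h5 ?_ (by positivity) (Nat.cast_nonneg _)
    have h6 : W ^ (D - j) * ((14 * ((i + 0 + j + t : ℕ) : ℝ)) ^ t * W ^ (i + 0 + j + t)) =
        (14 * ((i + 0 + j + t : ℕ) : ℝ)) ^ t * W ^ (D - j + (i + 0 + j + t)) := by
      rw [pow_add W (D - j)]; ring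
    rw [h6]
    refine mul_le_mul ?_ (pow_le_pow_right₀ hW (by omega)) (by positivity) (by positivity)
    refine pow_le_pow_left₀ (by positivity) ?_ t
    refine mul_le_mul_of_nonneg_left ?_ (by norm_num)
    exact_mod_cast (by omega : i + 0 + j + t ≤ 2 * D + t)
  refine h3.mono le_rfl (le_of_eq ?_)
  push_cast
  ring

theorem ucon {b c e κ κ' lam : ℂ} (he3 : e ^ 3 = 3 * b * e - 2 * c) (hdisc : b ^ 3 ≠ c ^ 2)
    (F : IntermediateField ℚ ℂ) (hF : FiniteDimensional ℚ F) {d l : ℕ} (hl : 1 ≤ l)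
    (hFd : Module.finrank ℚ F ≤ d) (hb : AI F ((2 : ℝ) ^ l) b) (he : AI F ((2 : ℝ) ^ l) e)
    (hlam : AI F ((2 : ℝ) ^ l) lam) (hlk : AI F ((2 : ℝ) ^ l) (lam * κ')) (hlam0 : lam ≠ 0)
    (hκ : ‖κ‖ ≤ 2 ^ l) (hκ' : ‖κ'‖ ≤ 2 ^ l) {δ : ℝ} (hδ0 : 0 < δ) (hclose : ‖κ - κ'‖ ≤ δ)
    {C D M2 T0 K Z Q : ℕ} (hC : 1 ≤ C) (hD1 : 1 ≤ D) (hM2 : M2 = (D + 1) ^ 2)
    (hT0 : T0 = M2 / (8 * (d + 1))) (hKT : C * D * K ≤ T0) (hK1 : 1 ≤ K)
    (hZ : Z = 10 * (D + 1) ^ 2)
    (hQ : Q = 14 * (2 * D + Z)) {Γ S η : ℝ}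
    (hΓ : Γ = ((14 * (2 * D + T0)) ^ T0 * 2 ^ (l * (3 * D + T0)) : ℕ)) (hS : S = (M2 : ℝ) ^ 2 * Γ)
    (hη : η = δ * Z * (S * (Q : ℝ) ^ Z * 2 ^ (l * (2 * D + Z))))
    (hext : ∀ (T : ℕ), C * D * K ≤ T → ∀ (a : ℕ → ℕ → ℂ) (S η : ℝ),
      (∑ i ∈ Finset.range (D + 1), ∑ j ∈ Finset.range (D + 1), ‖a i j‖) ≤ S → 0 ≤ η →
      (∀ t < T, ‖∑ i ∈ Finset.range (D + 1), ∑ j ∈ Finset.range (D + 1),
        a i j * uc b e κ 1 t i 0 j‖ ≤ η) →
      ‖∑ i ∈ Finset.range (D + 1), ∑ j ∈ Finset.range (D + 1), a i j * uc b e κ 1 T i 0 j‖ ≤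
        T.factorial * ((2 : ℝ) ^ l) ^ T *
          (S * Real.exp (-((K : ℝ) * T / C)) + η * ((2 : ℝ) ^ l) ^ (K * T)))
    (hnum : ∀ T : ℕ, T0 ≤ T → T ≤ Z →
      (T.factorial * ((2 : ℝ) ^ l) ^ T * (S * Real.exp (-((K : ℝ) * T / C)) +
        η * ((2 : ℝ) ^ l) ^ (K * T)) + η) * (S * (Q : ℝ) ^ T * 2 ^ (l * (3 * D + T))) ^ d < 1) :
    False := by
  classical
  set W : ℝ := (2 : ℝ) ^ l with hW
  have hW1 : 1 ≤ W := one_le_pow₀ (by norm_num)
  have hW0 : 0 ≤ W := by linarith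
  have hWp : ∀ n : ℕ, (2 : ℝ) ^ (l * n) = W ^ n := fun n => by rw [hW, ← pow_mul]
  have hd1 : 1 ≤ d := by
    have : 0 < Module.finrank ℚ F := Module.finrank_pos
    omega
  have hT01 : 1 ≤ T0 := by
    have : 1 ≤ C * D * K := Nat.mul_pos (Nat.mul_pos hC hD1) hK1
    omega
  have hT0M : 8 * (d + 1) * T0 ≤ M2 := by
    rw [hT0]; exact Nat.mul_div_le _ _
  set G : ℕ := (14 * (2 * D + T0)) ^ T0 * 2 ^ (l * (3 * D + T0)) with hG
  have hG8 : 8 ≤ G := by
    have h1 : 8 ≤ (14 * (2 * D + T0)) ^ T0 := by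
      calc 8 ≤ 14 * (2 * D + T0) := by omega
        _ = (14 * (2 * D + T0)) ^ 1 := (pow_one _).symm
        _ ≤ _ := Nat.pow_le_pow_right (by omega) hT01
    calc 8 = 8 * 1 := rfl
      _ ≤ _ := Nat.mul_le_mul h1 Nat.one_le_two_pow
  set Bd : ℕ := M2 * G with hBd
  have hM24 : 4 ≤ M2 := by rw [hM2]; nlinarith
  have hBd5 : 5 ≤ Bd := by nlinarith
  set m : ℕ := 5 * Bd ^ (2 * (d + 1)) with hm
  have hm1 : 1 ≤ m := Nat.one_le_iff_ne_zero.mpr (by positivity)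
  have hpig : m ^ (2 * T0) < (Bd + 1) ^ ((D + 1) ^ 2) := by
    rw [← hM2]
    calc m ^ (2 * T0) = 5 ^ (2 * T0) * Bd ^ (2 * (d + 1) * (2 * T0)) := by
          rw [hm, mul_pow, ← pow_mul]
      _ ≤ Bd ^ (2 * T0) * Bd ^ (2 * (d + 1) * (2 * T0)) :=
          Nat.mul_le_mul_right _ (Nat.pow_le_pow_left hBd5 _)
      _ = Bd ^ (2 * T0 + 2 * (d + 1) * (2 * T0)) := by rw [← pow_add]
      _ ≤ Bd ^ M2 := Nat.pow_le_pow_right (by omega) (by nlinarith)
      _ < (Bd + 1) ^ M2 := Nat.pow_lt_pow_left (by omega) (by omega)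
  have hbn : ‖b‖ ≤ W := Approx.AI_norm_le hb
  have hen : ‖e‖ ≤ W := Approx.AI_norm_le he
  have hln : ‖lam‖ ≤ W := Approx.AI_norm_le hlam
  have h1n : ‖(1 : ℂ)‖ ≤ W := by simpa using hW1
  set V : ℝ := ((14 * (2 * D + T0)) ^ T0 : ℕ) * W ^ (2 * D + T0) with hV
  obtain ⟨v, hvne, hvB, hvt⟩ := UCon_box2 D T0 Bd m V (by positivity)
    (fun t i j => uc b e κ' 1 t i 0 j) (by
      intro i hi j hj t ht
      refine (uc_norm hW1 hbn hen hκ' h1n t i 0 j).trans ?_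
      rw [hV]
      refine mul_le_mul ?_ (pow_le_pow_right₀ hW1 (by omega)) (by positivity) (by positivity)
      have h1 : (14 * (i + 0 + j + t)) ^ t ≤ (14 * (2 * D + T0)) ^ T0 := by
        calc (14 * (i + 0 + j + t)) ^ t ≤ (14 * (2 * D + T0)) ^ t :=
              Nat.pow_le_pow_left (by omega) _
          _ ≤ (14 * (2 * D + T0)) ^ T0 := Nat.pow_le_pow_right (by omega) ht.le
      exact_mod_cast h1) hm1 hpig
  have hS' : S = ((M2 * Bd : ℕ) : ℝ) := by
    rw [hS, hΓ, hBd]; push_cast; ring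
  have hS1 : 1 ≤ S := by
    rw [hS']; exact_mod_cast (Nat.one_le_iff_ne_zero.mpr (by positivity))
  have hQ1 : 1 ≤ (Q : ℝ) := by
    rw [hQ]; exact_mod_cast (show 1 ≤ 14 * (2 * D + Z) by omega)
  -- the Liouville bound
  have hliou : ∀ (t : ℕ) (R : ℝ), 0 ≤ R → (14 * ((2 * D + t : ℕ) : ℝ)) ^ t ≤ R →
      UCon_A b e κ' D v t ≠ 0 →
      1 ≤ ‖UCon_A b e κ' D v t‖ * (S * R * W ^ (3 * D + t)) ^ d := by
    intro t R hR0 hR hne
    have h1 := UCon_AI hW1 hb he hlam hlk D Bd v hvB t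
    have hpp : 1 ≤ (14 * ((2 * D + t : ℕ) : ℝ)) ^ t := by
      rcases Nat.eq_zero_or_pos t with h | h
      · subst h; simp
      · refine one_le_pow₀ ?_
        have : (1 : ℝ) ≤ ((2 * D + t : ℕ) : ℝ) := by exact_mod_cast (by omega : 1 ≤ 2 * D + t)
        linarith
    set M : ℝ := S * R * W ^ (2 * D + t) with hM
    have hR1 : 1 ≤ R := hpp.trans hR
    have hM1 : 1 ≤ M := one_le_mul_of_one_le_of_one_le
      (one_le_mul_of_one_le_of_one_le hS1 hR1) (one_le_pow₀ hW1)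
    have h2 : AI F M (lam ^ D * UCon_A b e κ' D v t) := by
      refine h1.mono le_rfl ?_
      rw [hM, hS', hM2]
      exact mul_le_mul_of_nonneg_right (mul_le_mul_of_nonneg_left hR (Nat.cast_nonneg _))
        (by positivity)
    have h3 := ai_low hF hM1 h2 (mul_ne_zero (pow_ne_zero _ hlam0) hne)
    refine h3.trans ?_
    rw [norm_mul, norm_pow]
    have h4 : M ^ (Module.finrank ℚ F - 1) ≤ M ^ (d - 1) := pow_le_pow_right₀ hM1 (by omega)
    calc ‖lam‖ ^ D * ‖UCon_A b e κ' D v t‖ * M ^ (Module.finrank ℚ F - 1)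
        ≤ W ^ D * ‖UCon_A b e κ' D v t‖ * M ^ (d - 1) :=
          mul_le_mul (mul_le_mul_of_nonneg_right (pow_le_pow_left₀ (norm_nonneg _) hln D)
            (norm_nonneg _)) h4 (by positivity) (by positivity)
      _ ≤ ‖UCon_A b e κ' D v t‖ * ((M * W ^ D) ^ 1 * (M * W ^ D) ^ (d - 1)) := by
          have h5 : M ^ (d - 1) ≤ (M * W ^ D) ^ (d - 1) := pow_le_pow_left₀ (by linarith)
            (le_mul_of_one_le_right (by linarith) (one_le_pow₀ hW1)) _
          have h6 : W ^ D ≤ (M * W ^ D) ^ 1 := by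
            rw [pow_one]; exact le_mul_of_one_le_left (by positivity) hM1
          calc W ^ D * ‖UCon_A b e κ' D v t‖ * M ^ (d - 1)
              = ‖UCon_A b e κ' D v t‖ * (W ^ D * M ^ (d - 1)) := by ring
            _ ≤ _ := mul_le_mul_of_nonneg_left (mul_le_mul h6 h5 (by positivity) (by positivity))
              (norm_nonneg _)
      _ = ‖UCon_A b e κ' D v t‖ * (S * R * W ^ (3 * D + t)) ^ d := by
          rw [← pow_add]
          congr 2
          · rw [hM, show 3 * D + t = (2 * D + t) + D by ring, pow_add]; ring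
          · omega
  -- initial vanishing
  have hinit : ∀ t < T0, UCon_A b e κ' D v t = 0 := by
    intro t ht
    by_contra hne
    have h0 : (14 * ((2 * D + t : ℕ) : ℝ)) ^ t ≤ (((14 * (2 * D + T0)) ^ T0 : ℕ) : ℝ) := by
      have : (14 * (2 * D + t)) ^ t ≤ (14 * (2 * D + T0)) ^ T0 := by
        calc (14 * (2 * D + t)) ^ t ≤ (14 * (2 * D + T0)) ^ t := Nat.pow_le_pow_left (by omega) _
          _ ≤ _ := Nat.pow_le_pow_right (by omega) ht.le
      exact_mod_cast this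
    have h1 := hliou t (((14 * (2 * D + T0)) ^ T0 : ℕ) : ℝ) (Nat.cast_nonneg _) h0 hne
    have h2 := hvt t ht
    have h2' : ‖UCon_A b e κ' D v t‖ ≤ 4 * ((D + 1) ^ 2 : ℕ) * Bd * V / m := h2
    have hGr : (G : ℝ) = (((14 * (2 * D + T0)) ^ T0 : ℕ) : ℝ) * W ^ (3 * D + T0) := by
      rw [hG, ← hWp]; push_cast; ring
    have h3 : S * (((14 * (2 * D + T0)) ^ T0 : ℕ) : ℝ) * W ^ (3 * D + t) ≤ (Bd : ℝ) ^ 2 := by
      have e1 : W ^ (3 * D + t) ≤ W ^ (3 * D + T0) := pow_le_pow_right₀ hW1 (by omega)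
      calc S * (((14 * (2 * D + T0)) ^ T0 : ℕ) : ℝ) * W ^ (3 * D + t)
          ≤ S * (((14 * (2 * D + T0)) ^ T0 : ℕ) : ℝ) * W ^ (3 * D + T0) :=
            mul_le_mul_of_nonneg_left e1 (by positivity)
        _ = S * G := by rw [hGr]; ring
        _ = (Bd : ℝ) ^ 2 := by rw [hS', hBd]; push_cast; ring
    have h4 : 4 * (((D + 1) ^ 2 : ℕ) : ℝ) * Bd * V / m ≤ 4 * (Bd : ℝ) ^ 2 / m := by
      apply div_le_div_of_nonneg_right _ (by positivity)
      have e1 : V ≤ G := by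
        rw [hV, hGr]
        exact mul_le_mul_of_nonneg_left (pow_le_pow_right₀ hW1 (by omega)) (Nat.cast_nonneg _)
      calc 4 * (((D + 1) ^ 2 : ℕ) : ℝ) * Bd * V ≤ 4 * (((D + 1) ^ 2 : ℕ) : ℝ) * Bd * G :=
            mul_le_mul_of_nonneg_left e1 (by positivity)
        _ = 4 * (Bd : ℝ) ^ 2 := by rw [← hM2, hBd]; push_cast; ring
    have h6 : (1 : ℝ) ≤ (4 * (Bd : ℝ) ^ 2 / m) * ((Bd : ℝ) ^ 2) ^ d := by
      refine h1.trans ?_
      refine mul_le_mul (h2'.trans h4) (pow_le_pow_left₀ (by positivity) h3 d) (by positivity)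
        (by positivity)
    have h7 : (4 * (Bd : ℝ) ^ 2 / m) * ((Bd : ℝ) ^ 2) ^ d = 4 / 5 := by
      have hBd0 : (Bd : ℝ) ≠ 0 := by
        have : (5 : ℝ) ≤ Bd := by exact_mod_cast hBd5
        positivity
      rw [hm]
      push_cast
      rw [div_mul_eq_mul_div, div_eq_div_iff (by positivity) (by norm_num)]
      ring
    rw [h7] at h6
    norm_num at h6
  -- extrapolation
  let a : ℕ → ℕ → ℂ := fun i j => (v i j : ℂ)
  have hav : ∀ i j, ‖a i j‖ ≤ (Bd : ℝ) := by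
    intro i j
    have h3 : ‖a i j‖ = |(v i j : ℝ)| := by
      simp only [a]
      rw [← Complex.ofReal_intCast, Complex.norm_real, Real.norm_eq_abs]
    rw [h3]
    exact_mod_cast hvB i j
  have haS : (∑ i ∈ Finset.range (D + 1), ∑ j ∈ Finset.range (D + 1), ‖a i j‖) ≤ S := by
    have h1 : ∀ i ∈ Finset.range (D + 1), (∑ j ∈ Finset.range (D + 1), ‖a i j‖) ≤
        (D + 1) * (Bd : ℝ) := by
      intro i _
      refine (Finset.sum_le_sum fun j _ => hav i j).trans ?_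
      simp
    refine (Finset.sum_le_sum h1).trans ?_
    rw [hS', hM2]
    simp only [Finset.sum_const, Finset.card_range, nsmul_eq_mul]
    push_cast
    apply le_of_eq
    ring
  have hη0 : 0 ≤ η := by
    rw [hη]; positivity
  have hdiff : ∀ t ≤ Z, ‖UCon_A b e κ D v t - UCon_A b e κ' D v t‖ ≤ η := by
    intro t ht
    have h1 : UCon_A b e κ D v t - UCon_A b e κ' D v t = ∑ i ∈ Finset.range (D + 1),
        ∑ j ∈ Finset.range (D + 1), a i j * (uc b e κ 1 t i 0 j - uc b e κ' 1 t i 0 j) := by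
      unfold UCon_A
      rw [← Finset.sum_sub_distrib]
      refine Finset.sum_congr rfl fun i _ => ?_
      rw [← Finset.sum_sub_distrib]
      refine Finset.sum_congr rfl fun j _ => ?_
      simp only [a]
      ring
    rw [h1]
    set X : ℝ := δ * (Z * ((Q : ℝ) ^ Z * W ^ (2 * D + Z))) with hX
    have h2 : ∀ i ∈ Finset.range (D + 1), ∀ j ∈ Finset.range (D + 1),
        ‖a i j * (uc b e κ 1 t i 0 j - uc b e κ' 1 t i 0 j)‖ ≤ Bd * X := by
      intro i hi j hj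
      have hi' := Finset.mem_range.mp hi
      have hj' := Finset.mem_range.mp hj
      rw [norm_mul]
      refine mul_le_mul (hav i j) ?_ (norm_nonneg _) (Nat.cast_nonneg _)
      refine (uc_lip hW1 hbn hen hκ hκ' t i 0 j).trans ?_
      rw [hX]
      refine mul_le_mul hclose ?_ (by positivity) hδ0.le
      refine mul_le_mul (by exact_mod_cast ht) ?_ (by positivity) (Nat.cast_nonneg _)
      refine mul_le_mul ?_ (pow_le_pow_right₀ hW1 (by omega)) (by positivity) (by positivity)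
      have h3 : (14 * (i + 0 + j + t)) ^ t ≤ Q ^ Z := by
        calc (14 * (i + 0 + j + t)) ^ t ≤ Q ^ t := Nat.pow_le_pow_left (by omega) _
          _ ≤ Q ^ Z := Nat.pow_le_pow_right (by omega) ht
      exact_mod_cast h3
    calc ‖∑ i ∈ Finset.range (D + 1), ∑ j ∈ Finset.range (D + 1),
          a i j * (uc b e κ 1 t i 0 j - uc b e κ' 1 t i 0 j)‖
        ≤ ∑ i ∈ Finset.range (D + 1), ∑ j ∈ Finset.range (D + 1), Bd * X := by
          refine (norm_sum_le _ _).trans (Finset.sum_le_sum fun i hi => ?_)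
          exact (norm_sum_le _ _).trans (Finset.sum_le_sum fun j hj => h2 i hi j hj)
      _ = η := by
          rw [hη, hS', hM2, hWp, hX]
          simp only [Finset.sum_const, Finset.card_range, nsmul_eq_mul]
          push_cast
          ring
  have hall : ∀ T, T ≤ Z → UCon_A b e κ' D v T = 0 := by
    intro T
    induction T using Nat.strong_induction_on with
    | _ T ih =>
      intro hTZ
      rcases lt_or_ge T T0 with hT | hT
      · exact hinit T hT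
      · by_contra hne
        have h1 : ∀ t < T, ‖∑ i ∈ Finset.range (D + 1), ∑ j ∈ Finset.range (D + 1),
            a i j * uc b e κ 1 t i 0 j‖ ≤ η := by
          intro t ht
          have h2 := hdiff t (by omega)
          rwa [ih t ht (by omega), sub_zero] at h2
        have h2 := hext T (hKT.trans hT) a S η haS hη0 h1
        have h2' : ‖UCon_A b e κ D v T‖ ≤ T.factorial * W ^ T *
          (S * Real.exp (-((K : ℝ) * T / C)) + η * W ^ (K * T)) := h2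
        have h3 : ‖UCon_A b e κ' D v T‖ ≤
            T.factorial * W ^ T * (S * Real.exp (-((K : ℝ) * T / C)) + η * W ^ (K * T)) + η := by
          have h4 := hdiff T hTZ
          have h5 : ‖UCon_A b e κ' D v T‖ ≤ ‖UCon_A b e κ D v T‖ +
              ‖UCon_A b e κ D v T - UCon_A b e κ' D v T‖ := by
            have := norm_sub_le (UCon_A b e κ D v T)
              (UCon_A b e κ D v T - UCon_A b e κ' D v T)
            simpa using this
          linarith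
        have h4 := hliou T ((Q : ℝ) ^ T) (by positivity) (by
          refine pow_le_pow_left₀ (by positivity) ?_ T
          exact_mod_cast (by omega : 14 * (2 * D + T) ≤ Q)) hne
        have h5 := hnum T hT hTZ
        rw [hWp] at h5
        have h6 : (1 : ℝ) ≤ (T.factorial * W ^ T * (S * Real.exp (-((K : ℝ) * T / C)) +
            η * W ^ (K * T)) + η) * (S * (Q : ℝ) ^ T * W ^ (3 * D + T)) ^ d :=
          h4.trans (mul_le_mul_of_nonneg_right h3 (by positivity))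
        linarith
  -- contradiction with the zero estimate
  obtain ⟨i, hi, j, hj, hij⟩ := hvne
  obtain ⟨t, ht, hne⟩ := uzero (κ := κ') he3 hdisc D a ⟨i, hi, j, hj, by simpa [a] using hij⟩
  exact hne (hall t (by rw [hZ]; exact ht))

end Pool.Agent.Lib.MP5e
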