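import Pool.Agent.Lib.MP_5e64e7_nt.GDefs

set_option autoImplicit false

/-!
# MP_5e64e7_nt, sixth theorem (uniform measure for the periods of CM lattices) : definitions (helper16)

`q = exp(2 pi i tau)`, `0 < |q| < 1` complex. `x = uf q w + E2/12` is the Weierstrass function of the lattice
`2 pi i (Z + Z tau)` at `s`, `w = exp s`; `d/ds (ug q (exp s)) = - uf q (exp s)`. With `E4 = s^2 b`, `E6 = s^3 c`,
`mu^2 = s/12`, `X = uX q (E2/12) mu`, `G = uG q mu`: `X' = Y`, `Y' = 6 X^2 - 6 b`, `G' = E2/s - X`,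
`Y^2 = 4 X^3 - 12 b X + 8 c`, at `0`: `X = e`, `e^3 = 3 b e - 2 c`, `Y = 0`, `G = 0`.
-/

noncomputable section

namespace Pool.Agent.Lib.MP5e

open Polynomial Topology

/-- the normalised `℘`-function in the multiplicative variable -/
def uf (q w : ℂ) : ℂ := w / (1 - w) ^ 2 + ∑' k : ℕ,
  (w * q ^ (k + 1) / (1 - w * q ^ (k + 1)) ^ 2 +
    w⁻¹ * q ^ (k + 1) / (1 - w⁻¹ * q ^ (k + 1)) ^ 2)

/-- the normalised `ζ`-function in the multiplicative variable -/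
def ug (q w : ℂ) : ℂ := (w + 1) / (2 * (w - 1)) + ∑' k : ℕ,
  (w⁻¹ * q ^ (k + 1) / (1 - w⁻¹ * q ^ (k + 1)) -
    w * q ^ (k + 1) / (1 - w * q ^ (k + 1)))

/-- the complement of `0` and the poles -/
def ugood (q : ℂ) : Set ℂ := {w | w ≠ 0 ∧ ∀ k : ℤ, w ≠ q ^ k}

/-- the Laurent polynomial vanishing at the poles `q^k`, `|k| ≤ K` -/
def uh (q : ℂ) (K : ℕ) (w : ℂ) : ℂ :=
  (1 - w) * ∏ k ∈ Finset.range K, ((1 - w⁻¹ * q ^ (k + 1)) * (1 - w * q ^ (k + 1)))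

/-- the annulus `|q|^{K+1} < |w| < |q|^{-(K+1)}` -/
def uann (q : ℂ) (K : ℕ) : Set ℂ := {w | ‖q‖ ^ (K + 1) < ‖w‖ ∧ ‖w‖ < (‖q‖ ^ (K + 1))⁻¹}

/-- the radius `|q|^{-(K+1/2)}` -/
def urho (q : ℂ) (K : ℕ) : ℝ := (Real.sqrt ‖q‖ ^ (2 * K + 1))⁻¹

/-- `P(x, g)` in the multiplicative variable -/
def uFW (q ε μ : ℂ) (D : ℕ) (a : ℕ → ℕ → ℂ) (w : ℂ) : ℂ :=
  ∑ i ∈ Finset.range (D + 1), ∑ j ∈ Finset.range (D + 1),
    a i j * ((uf q w + ε) / μ ^ 2) ^ i * (ug q w / μ) ^ j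

/-- `X(t)` -/
def uX (q ε μ t : ℂ) : ℂ := (uf q (-Complex.exp (t / μ)) + ε) / μ ^ 2

/-- `G(t)` -/
def uG (q μ t : ℂ) : ℂ := ug q (-Complex.exp (t / μ)) / μ

/-- `P(X(t), G(t))` -/
def uF (q ε μ : ℂ) (D : ℕ) (a : ℕ → ℕ → ℂ) (t : ℂ) : ℂ :=
  ∑ i ∈ Finset.range (D + 1), ∑ j ∈ Finset.range (D + 1),
    a i j * uX q ε μ t ^ i * uG q μ t ^ j

/-- `uc b e κ lam t i k j`: the value at the origin of the `t`-th derivative of `X^i Y^k G^j`, where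
`X' = Y`, `Y' = 6X² - 6b`, `G' = κ - lam X` and `X(0) = e`, `Y(0) = 0`, `G(0) = 0`. -/
def uc {S : Type*} [CommRing S] (b e κ lam : S) : ℕ → ℕ → ℕ → ℕ → S
  | 0, i, k, j => e ^ i * 0 ^ k * 0 ^ j
  | t + 1, i, k, j => (i : S) * uc b e κ lam t (i - 1) (k + 1) j +
      (k : S) * (6 * uc b e κ lam t (i + 2) (k - 1) j - 6 * b * uc b e κ lam t i (k - 1) j) +
      (j : S) * (κ * uc b e κ lam t i k (j - 1) - lam * uc b e κ lam t (i + 1) k (j - 1))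

/-- the formal power series `X^i Y^k G^j` -/
def uPhi (b e κ : ℂ) (i k j : ℕ) : PowerSeries ℂ :=
  PowerSeries.mk (fun t => uc b e κ 1 t i k j / (t.factorial : ℂ))

/-- elements of `ℂ[X, Y]` of weight at most `w` (`X` has weight 2, `Y` weight 3) -/
def uWt (b e κ : ℂ) (w : ℕ) (f : PowerSeries ℂ) : Prop :=
  ∃ A B : ℂ[X], 2 * A.natDegree ≤ w ∧ (B = 0 ∨ 2 * B.natDegree + 3 ≤ w) ∧
    f = Polynomial.aeval (uPhi b e κ 1 0 0) A +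
      Polynomial.aeval (uPhi b e κ 1 0 0) B * uPhi b e κ 0 1 0

/-- the derivation `Y ∂_X + (6X²-6b) ∂_Y + (κ - X) ∂_G` on coefficient sequences `∑ c_m G^m` -/
def udS (b e κ : ℂ) (c : ℕ → PowerSeries ℂ) : ℕ → PowerSeries ℂ := fun m =>
  PowerSeries.derivative ℂ (c m) +
    ((m + 1 : ℕ) : PowerSeries ℂ) * (PowerSeries.C κ - uPhi b e κ 1 0 0) * c (m + 1)

/-- `q = exp(2 pi i tau)` -/
def uq (τ : ℂ) : ℂ := Complex.exp (2 * (Real.pi : ℂ) * Complex.I * τ)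

/-- the lattice `2 pi i (Z + Z tau)` -/
def uL (τ : ℂ) (h : 0 < τ.im) : PeriodPair :=
  PL (2 * (Real.pi : ℂ) * Complex.I) τ
    (mul_ne_zero (mul_ne_zero two_ne_zero (by exact_mod_cast Real.pi_ne_zero)) Complex.I_ne_zero) h

/-! ### the application -/

/-- `x` is a point `((a_l + b_l √(-D))/c_l)_l` of height at most `B` of `ℚ(√(-D))`, `1 ≤ D ≤ B` -/
def UPt {m : ℕ} (B D : ℕ) (x : Fin m → ℂ) : Prop :=
  1 ≤ D ∧ D ≤ B ∧ ∃ (a b : Fin m → ℤ) (c : Fin m → ℕ),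
    ∀ l, 1 ≤ c l ∧ c l ≤ B ∧ |a l| ≤ (B : ℤ) ∧ |b l| ≤ (B : ℤ) ∧ x l = qgr D (a l) (b l) (c l)

/-- `(w', v')` is a specialisation of `(w, v)` over `ℚ` -/
def USpec {m M : ℕ} (w : Fin m → ℂ) (v : Fin M → ℂ) (w' : Fin m → ℂ) (v' : Fin M → ℂ) : Prop :=
  ∀ P : MvPolynomial (Fin m ⊕ Fin M) ℤ, MvPolynomial.aeval (Sum.elim w v) P = 0 →
    MvPolynomial.aeval (Sum.elim w' v') P = 0

/-- `(w, v)` is hierarchically super-approximable by points of imaginary quadratic fields; `v` is algebraic over `ℚ(w)` -/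
def UCM {m M : ℕ} (w : Fin m → ℂ) (v : Fin M → ℂ) : Prop :=
  (∀ j, IsAlgebraic (IntermediateField.adjoin ℚ (Set.range w)) (v j)) ∧
  ∀ C : ℕ, ∃ (B D : ℕ) (w' : Fin m → ℂ) (v' : Fin M → ℂ), 2 ≤ B ∧ UPt B D w' ∧ UPt B D v' ∧
    USpec w v w' v' ∧ (∀ j, ‖v j - v' j‖ ≤ 1 / ((C : ℝ) + 1)) ∧ (∀ l, w l ≠ w' l) ∧
    (∀ l : Fin m, (l : ℕ) = 0 → ‖w l - w' l‖ ≤ Real.exp (-((B : ℝ) ^ C))) ∧
    (∀ l l' : Fin m, (l' : ℕ) = (l : ℕ) + 1 → ‖w l' - w' l'‖ ≤ ‖w l - w' l‖ ^ C)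

/-- the field `ℚ(w, v)` -/
def UE {m M : ℕ} (w : Fin m → ℂ) (v : Fin M → ℂ) : IntermediateField ℚ ℂ :=
  IntermediateField.adjoin ℚ (Set.range w ∪ Set.range v)

end Pool.Agent.Lib.MP5e
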