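import Pool.Agent.Lib.MP_5e64e7_nt.UDefs
import Pool.Agent.Lib.MP_5e64e7_nt.DerB

set_option autoImplicit false

/-!
# U.DER : the derivatives of `P(X, G)` at the origin (block B, model `DerB.lean`)
-/

noncomputable section

namespace Pool.Agent.Lib.MP5e

open Polynomial Topology

private theorem UDer_mon (b e κ : ℂ) (X Y G : ℂ → ℂ)
    (hX : ∀ᶠ s in 𝓝 (0 : ℂ), HasDerivAt X (Y s) s)
    (hY : ∀ᶠ s in 𝓝 (0 : ℂ), HasDerivAt Y (6 * X s ^ 2 - 6 * b) s)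
    (hG : ∀ᶠ s in 𝓝 (0 : ℂ), HasDerivAt G (κ - X s) s)
    (hX0 : X 0 = e) (hY0 : Y 0 = 0) (hG0 : G 0 = 0) (t i k j : ℕ) :
    iteratedDeriv t (fun s => X s ^ i * Y s ^ k * G s ^ j) 0 = uc b e κ 1 t i k j := by
  have aX := derB_contDiffAt X Y hX
  have aY := derB_contDiffAt Y _ hY
  have aG := derB_contDiffAt G _ hG
  have aF : ∀ i k j : ℕ, AnalyticAt ℂ (fun s => X s ^ i * Y s ^ k * G s ^ j) 0 := fun i k j =>
    ((aX.pow i).mul (aY.pow k)).mul (aG.pow j)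
  induction t generalizing i k j with
  | zero =>
    rw [iteratedDeriv_zero]
    simp only [hX0, hY0, hG0, uc]
  | succ t ih =>
    rw [iteratedDeriv_succ']
    have hd : deriv (fun s => X s ^ i * Y s ^ k * G s ^ j) =ᶠ[𝓝 (0 : ℂ)]
        fun s => (i : ℂ) * (X s ^ (i - 1) * Y s ^ (k + 1) * G s ^ j) +
          (6 * (k : ℂ)) * (X s ^ (i + 2) * Y s ^ (k - 1) * G s ^ j) +
          (-(6 * b) * (k : ℂ)) * (X s ^ i * Y s ^ (k - 1) * G s ^ j) +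
          ((j : ℂ) * κ) * (X s ^ i * Y s ^ k * G s ^ (j - 1)) +
          (-(j : ℂ)) * (X s ^ (i + 1) * Y s ^ k * G s ^ (j - 1)) := by
      filter_upwards [hX, hY, hG] with s h1 h2 h3
      have h4 := ((h1.fun_pow i).fun_mul (h2.fun_pow k)).fun_mul (h3.fun_pow j)
      rw [h4.deriv]
      ring
    rw [hd.iteratedDeriv_eq t, derB_lin t _ _ _ _ _ _ _ _ _ _ (aF _ _ _) (aF _ _ _) (aF _ _ _)
      (aF _ _ _) (aF _ _ _), ih, ih, ih, ih, ih, uc]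
    ring

theorem uder (b e κ : ℂ) (X Y G : ℂ → ℂ)
    (hX : ∀ᶠ s in 𝓝 (0 : ℂ), HasDerivAt X (Y s) s)
    (hY : ∀ᶠ s in 𝓝 (0 : ℂ), HasDerivAt Y (6 * X s ^ 2 - 6 * b) s)
    (hG : ∀ᶠ s in 𝓝 (0 : ℂ), HasDerivAt G (κ - X s) s)
    (hX0 : X 0 = e) (hY0 : Y 0 = 0) (hG0 : G 0 = 0) (D : ℕ) (a : ℕ → ℕ → ℂ) (t : ℕ) :
    iteratedDeriv t (fun s => ∑ i ∈ Finset.range (D + 1), ∑ j ∈ Finset.range (D + 1),
      a i j * X s ^ i * G s ^ j) 0 =
    ∑ i ∈ Finset.range (D + 1), ∑ j ∈ Finset.range (D + 1), a i j * uc b e κ 1 t i 0 j := by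
  have aX := derB_contDiffAt X Y hX
  have aG := derB_contDiffAt G _ hG
  have aF : ∀ i j : ℕ, AnalyticAt ℂ (fun s => a i j * X s ^ i * G s ^ j) 0 := fun i j =>
    (analyticAt_const.mul (aX.pow i)).mul (aG.pow j)
  rw [iteratedDeriv_fun_sum fun i _ => ContDiffAt.sum fun j _ => (aF i j).contDiffAt]
  refine Finset.sum_congr rfl fun i _ => ?_
  rw [iteratedDeriv_fun_sum fun j _ => (aF i j).contDiffAt]
  refine Finset.sum_congr rfl fun j _ => ?_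
  have h1 : (fun s => a i j * X s ^ i * G s ^ j) =
      fun s => a i j * (X s ^ i * Y s ^ 0 * G s ^ j) := by
    funext s; rw [pow_zero]; ring
  rw [h1, iteratedDeriv_const_mul_field, UDer_mon b e κ X Y G hX hY hG hX0 hY0 hG0]

end Pool.Agent.Lib.MP5e
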