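import Pool.Agent.Lib.MP_5e64e7_nt.UHier

set_option autoImplicit false

/-!
# U.EXM : complex numbers approximated by points of infinitely many imaginary quadratic fields

`QHier x` at `C' = n0 + 2 C + 2` gives `B, a, c`; the distances `δ_l = |x_l - a_l/c_l|` satisfy `δ_l ≤ E = exp(-B^C')` and
`δ_l' ≤ δ_l^C'` for all `l < l'`. `n0` is large enough for `E < x_m`, `E < √x_m`, so `a_m ≥ 1`. `D = a_m c_m`,
`√(a_m/c_m) = √D/c_m`, `w'_l = a_l/c_l + √(-D)/c_m = (a_l c_m + c_l √(-D))/(c_l c_m)`, heights at most `B²`.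
`Re (w_l - w'_l) = x_l - a_l/c_l`, `|w_l - w'_l| ≤ δ_l + |√x_m - √(a_m/c_m)|`, `|√u - √v| ≤ |u - v|/√u`.
So `δ_l ≤ |w_l - w'_l| ≤ 2 δ_l` for `l < m`. The new `B` is `B²`.
-/

noncomputable section

namespace Pool.Agent.Lib.MP5e

open Polynomial Topology

/-- the chain of distances -/
theorem uex_chain {k : ℕ} (δ : Fin k → ℝ) (h0 : ∀ l, 0 ≤ δ l) (E : ℝ) (hE : E ≤ 1) (C : ℕ)
    (hC : 1 ≤ C) (h1 : ∀ l : Fin k, (l : ℕ) = 0 → δ l ≤ E)
    (h2 : ∀ l l' : Fin k, (l' : ℕ) = (l : ℕ) + 1 → δ l' ≤ δ l ^ C) :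
    (∀ l, δ l ≤ E) ∧ (∀ l l' : Fin k, (l : ℕ) < (l' : ℕ) → δ l' ≤ δ l ^ C) := by
  have hk : ∀ n : ℕ, ∀ h : n < k, δ ⟨n, h⟩ ≤ E := by
    intro n
    induction n with
    | zero => exact fun h => h1 _ rfl
    | succ n ih =>
      intro h
      have g1 := ih (by omega)
      refine (h2 ⟨n, by omega⟩ ⟨n + 1, h⟩ rfl).trans ?_
      exact (pow_le_of_le_one (h0 _) (g1.trans hE) (by omega)).trans g1
  refine ⟨fun l => hk l l.2, fun l l' hl => ?_⟩
  have hm : ∀ n : ℕ, ∀ h : n < k, (l : ℕ) < n → δ ⟨n, h⟩ ≤ δ l ^ C := by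
    intro n
    induction n with
    | zero => intro h h3; omega
    | succ n ih =>
      intro h h3
      by_cases h4 : (l : ℕ) = n
      · exact h2 l ⟨n + 1, h⟩ (by simp [h4])
      · refine (h2 ⟨n, by omega⟩ ⟨n + 1, h⟩ rfl).trans ?_
        refine (pow_le_of_le_one (h0 _) ((hk n (by omega)).trans hE) (by omega)).trans ?_
        exact ih (by omega) (by omega)
  exact hm l' l'.2 hl

/-- real numbers -/
theorem uexr {m : ℕ} (x : Fin m → ℝ) (hx : QHier x) (D : ℕ) (hD : 1 ≤ D) :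
    UHier {D} (fun l : Fin m => (x l : ℂ)) := by
  intro C
  obtain ⟨B, a, c, hB, h1, h2, h3⟩ := hx ((D + 1) * (C + 1))
  have hBD : B ≤ B * D := Nat.le_mul_of_pos_right _ hD
  have hDBD : D ≤ B * D := Nat.le_mul_of_pos_left _ (by omega)
  have hBDz : (B : ℤ) ≤ ((B * D : ℕ) : ℤ) := by exact_mod_cast hBD
  have hq : ∀ l, qgr D (a l) 0 (c l) = (((a l : ℝ) / (c l : ℝ) : ℝ) : ℂ) := by
    intro l
    unfold qgr
    push_cast
    ring
  have hn : ∀ l, ‖(x l : ℂ) - qgr D (a l) 0 (c l)‖ = |x l - (a l : ℝ) / (c l : ℝ)| := by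
    intro l
    rw [hq, ← Complex.ofReal_sub, Complex.norm_real, Real.norm_eq_abs]
  have hE1 : Real.exp (-((B : ℝ) ^ ((D + 1) * (C + 1)))) ≤ 1 := by
    rw [Real.exp_le_one_iff, neg_nonpos]
    positivity
  obtain ⟨k1, -⟩ := uex_chain (fun l => |x l - (a l : ℝ) / (c l : ℝ)|) (fun _ => abs_nonneg _)
    _ hE1 ((D + 1) * (C + 1)) (Nat.mul_pos (by omega) (by omega)) h2 h3
  refine ⟨B * D, D, fun l => qgr D (a l) 0 (c l), by omega, rfl,
    ⟨hD, hDBD, a, fun _ => 0, c, fun l => ⟨(h1 l).1, (h1 l).2.1.trans hBD,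
      (h1 l).2.2.1.trans hBDz, ?_, rfl⟩⟩, ?_, ?_, ?_⟩
  · rw [abs_zero]
    positivity
  · intro l h
    have h4 : ‖(x l : ℂ) - qgr D (a l) 0 (c l)‖ = 0 := by
      rw [norm_eq_zero, sub_eq_zero]
      exact h
    rw [hn, abs_eq_zero, sub_eq_zero] at h4
    exact (h1 l).2.2.2 h4
  · intro l hl
    simp only
    rw [hn]
    refine (h2 l hl).trans ?_
    rw [Real.exp_le_exp, neg_le_neg_iff]
    have g1 : D ≤ B ^ D := (Nat.lt_two_pow_self).le.trans (Nat.pow_le_pow_left hB D)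
    have g2 : (B * D) ^ C ≤ B ^ ((D + 1) * (C + 1)) := by
      calc (B * D) ^ C ≤ (B * B ^ D) ^ C := Nat.pow_le_pow_left (Nat.mul_le_mul_left _ g1) C
        _ = B ^ ((D + 1) * C) := by rw [← pow_succ', ← pow_mul]
        _ ≤ B ^ ((D + 1) * (C + 1)) :=
          Nat.pow_le_pow_right (by omega) (Nat.mul_le_mul_left _ (by omega))
    exact_mod_cast g2
  · intro l l' hl
    simp only
    rw [hn, hn]
    refine (h3 l l' hl).trans ?_
    refine pow_le_pow_of_le_one (abs_nonneg _) ((k1 l).trans hE1) ?_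
    nlinarith

theorem uexm {m : ℕ} (x : Fin (m + 1) → ℝ) (hx : QHier x) (hpos : 0 < x (Fin.last m)) :
    UHier Set.univ (fun l : Fin m => (x l.castSucc : ℂ) +
      Complex.I * (Real.sqrt (x (Fin.last m)) : ℂ)) := by
  intro C
  obtain ⟨X, hX⟩ : ∃ X : ℝ, X = x (Fin.last m) := ⟨_, rfl⟩
  rw [← hX] at hpos ⊢
  have hsX : 0 < Real.sqrt X := Real.sqrt_pos.2 hpos
  have hlim : Filter.Tendsto (fun n : ℕ => Real.exp (-((2 : ℝ) ^ n))) Filter.atTop (𝓝 0) :=
    Real.tendsto_exp_neg_atTop_nhds_zero.comp (tendsto_pow_atTop_atTop_of_one_lt (by norm_num))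
  have hev := hlim.eventually_lt_const (lt_min hpos hsX)
  obtain ⟨n0, hn0⟩ := Filter.eventually_atTop.1 hev
  obtain ⟨C', hC'⟩ : ∃ C' : ℕ, C' = n0 + 2 * C + 2 := ⟨_, rfl⟩
  have hC2 : Real.exp (-((2 : ℝ) ^ C')) < min X (Real.sqrt X) := hn0 C' (by omega)
  obtain ⟨B, a, c, hB, h1, h2, h3⟩ := hx C'
  have hBr : (2 : ℝ) ≤ (B : ℝ) := by exact_mod_cast hB
  obtain ⟨E, hE⟩ : ∃ E : ℝ, E = Real.exp (-((B : ℝ) ^ C')) := ⟨_, rfl⟩
  have hE0 : 0 < E := by rw [hE]; exact Real.exp_pos _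
  have hE2 : E ≤ Real.exp (-((2 : ℝ) ^ C')) := by
    rw [hE, Real.exp_le_exp, neg_le_neg_iff]
    exact pow_le_pow_left₀ (by norm_num) hBr _
  have hEX : E < X := lt_of_le_of_lt hE2 (lt_of_lt_of_le hC2 (min_le_left _ _))
  have hEs : E < Real.sqrt X := lt_of_le_of_lt hE2 (lt_of_lt_of_le hC2 (min_le_right _ _))
  have he1 : Real.exp (-1) ≤ 1 / 2 := by
    rw [Real.exp_neg, inv_eq_one_div]
    have := Real.add_one_le_exp (1 : ℝ)
    exact one_div_le_one_div_of_le (by norm_num) (by linarith)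
  have hEh : E ≤ 1 / 2 := by
    refine hE2.trans (le_trans ?_ he1)
    rw [Real.exp_le_exp, neg_le_neg_iff]
    exact one_le_pow₀ (by norm_num)
  rw [← hE] at h2
  obtain ⟨k1, k2⟩ := uex_chain (fun l => |x l - (a l : ℝ) / (c l : ℝ)|) (fun _ => abs_nonneg _)
    E (by linarith) C' (by omega) h2 h3
  -- the last coordinate
  obtain ⟨u, hu⟩ : ∃ u : ℝ, u = (a (Fin.last m) : ℝ) / (c (Fin.last m) : ℝ) := ⟨_, rfl⟩
  obtain ⟨cm, hcm⟩ : ∃ cm : ℕ, cm = c (Fin.last m) := ⟨_, rfl⟩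
  have hcm1 : 1 ≤ cm := by rw [hcm]; exact (h1 _).1
  have hcmB : cm ≤ B := by rw [hcm]; exact (h1 _).2.1
  have hcmr : (0 : ℝ) < (cm : ℝ) := by exact_mod_cast hcm1
  have hδm : |X - u| ≤ E := by
    have := k1 (Fin.last m)
    rw [← hX, ← hu] at this
    exact this
  have hu0 : 0 < u := by
    have := (abs_le.1 hδm).2
    linarith
  have ham0 : 0 < a (Fin.last m) := by
    have h4 : 0 < (a (Fin.last m) : ℝ) := by
      rw [hu, ← hcm] at hu0
      exact (div_pos_iff_of_pos_right hcmr).1 hu0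
    exact_mod_cast h4
  obtain ⟨am, ham⟩ : ∃ am : ℕ, a (Fin.last m) = (am : ℤ) :=
    Int.eq_ofNat_of_zero_le ham0.le
  have ham1 : 1 ≤ am := by omega
  have hamB : am ≤ B := by
    have := (h1 (Fin.last m)).2.2.1
    rw [ham, abs_of_nonneg (by positivity)] at this
    exact_mod_cast this
  obtain ⟨D, hD⟩ : ∃ D : ℕ, D = am * cm := ⟨_, rfl⟩
  have hsD : Real.sqrt D = cm * Real.sqrt u := by
    have h4 : (D : ℝ) = (cm : ℝ) ^ 2 * u := by
      rw [hD, hu, ← hcm, ham]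
      push_cast
      field_simp
    rw [h4, Real.sqrt_mul (by positivity), Real.sqrt_sq hcmr.le]
  have hsu : |Real.sqrt X - Real.sqrt u| * Real.sqrt X ≤ |X - u| := by
    have h4 : X - u = (Real.sqrt X - Real.sqrt u) * (Real.sqrt X + Real.sqrt u) := by
      have g1 := Real.mul_self_sqrt hpos.le
      have g2 := Real.mul_self_sqrt hu0.le
      linear_combination -g1 + g2
    rw [h4, abs_mul, abs_of_nonneg (a := Real.sqrt X + Real.sqrt u) (by positivity)]
    refine mul_le_mul_of_nonneg_left ?_ (abs_nonneg _)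
    linarith [Real.sqrt_nonneg u]
  -- the points
  obtain ⟨w', hw'⟩ : ∃ w' : Fin m → ℂ, w' = fun l => qgr D (a l.castSucc * cm) (c l.castSucc)
    (c l.castSucc * cm) := ⟨_, rfl⟩
  have hdiff : ∀ l : Fin m, ((x l.castSucc : ℂ) + Complex.I * (Real.sqrt X : ℂ)) - w' l =
      ((x l.castSucc - (a l.castSucc : ℝ) / (c l.castSucc : ℝ) : ℝ) : ℂ) +
        Complex.I * ((Real.sqrt X - Real.sqrt u : ℝ) : ℂ) := by
    intro l
    have hc0 : (c l.castSucc : ℂ) ≠ 0 := by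
      have := (h1 l.castSucc).1
      exact_mod_cast (by omega : c l.castSucc ≠ 0)
    have hcm0 : (cm : ℂ) ≠ 0 := by exact_mod_cast (by omega : cm ≠ 0)
    rw [hw']
    simp only
    unfold qgr qom
    rw [hsD]
    push_cast
    field_simp
    ring
  have hlow : ∀ l : Fin m, |x l.castSucc - (a l.castSucc : ℝ) / (c l.castSucc : ℝ)| ≤
      ‖((x l.castSucc : ℂ) + Complex.I * (Real.sqrt X : ℂ)) - w' l‖ := by
    intro l
    have h4 := Complex.abs_re_le_norm
      (((x l.castSucc : ℂ) + Complex.I * (Real.sqrt X : ℂ)) - w' l)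
    have h5 : (((x l.castSucc : ℂ) + Complex.I * (Real.sqrt X : ℂ)) - w' l).re =
        x l.castSucc - (a l.castSucc : ℝ) / (c l.castSucc : ℝ) := by
      rw [hdiff]
      simp
    rwa [h5] at h4
  have hupp : ∀ l : Fin m, ‖((x l.castSucc : ℂ) + Complex.I * (Real.sqrt X : ℂ)) - w' l‖ ≤
      2 * |x l.castSucc - (a l.castSucc : ℝ) / (c l.castSucc : ℝ)| := by
    intro l
    obtain ⟨d, hd⟩ : ∃ d : ℝ, d = |x l.castSucc - (a l.castSucc : ℝ) / (c l.castSucc : ℝ)| :=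
      ⟨_, rfl⟩
    have hd0 : 0 ≤ d := by rw [hd]; exact abs_nonneg _
    have hdE : d ≤ E := by rw [hd]; exact k1 l.castSucc
    have h4 : |X - u| ≤ d ^ C' := by
      have h5 := k2 l.castSucc (Fin.last m) (by simp)
      rw [← hX, ← hu, ← hd] at h5
      exact h5
    have h5 : d ^ C' ≤ d * Real.sqrt X := by
      calc d ^ C' ≤ d ^ 2 := pow_le_pow_of_le_one hd0 (by linarith) (by omega)
        _ = d * d := by ring
        _ ≤ d * Real.sqrt X := mul_le_mul_of_nonneg_left (by linarith) hd0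
    have h6 : |Real.sqrt X - Real.sqrt u| ≤ d := by
      have h7 : |Real.sqrt X - Real.sqrt u| * Real.sqrt X ≤ d * Real.sqrt X := by linarith
      exact le_of_mul_le_mul_right h7 hsX
    rw [hdiff, ← hd]
    refine (norm_add_le _ _).trans ?_
    rw [norm_mul, Complex.norm_I, one_mul, Complex.norm_real, Complex.norm_real,
      Real.norm_eq_abs, Real.norm_eq_abs, ← hd]
    linarith
  have hBB : B ≤ B ^ 2 := by nlinarith
  have hz : ∀ {s t : ℕ}, s ≤ B → t ≤ B → s * t ≤ B ^ 2 := by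
    intro s t hs ht
    rw [pow_two]
    exact Nat.mul_le_mul hs ht
  refine ⟨B ^ 2, D, w', by nlinarith, Set.mem_univ _, ⟨?_, ?_, fun l => a l.castSucc * cm,
    fun l => c l.castSucc, fun l => c l.castSucc * cm, fun l => ⟨?_, ?_, ?_, ?_, ?_⟩⟩, ?_, ?_, ?_⟩
  · rw [hD]
    exact Nat.mul_pos (by omega) (by omega)
  · rw [hD]
    exact hz hamB hcmB
  · exact Nat.mul_pos (h1 _).1 (by omega)
  · exact hz (h1 _).2.1 hcmB
  · rw [abs_mul, abs_of_nonneg (a := (cm : ℤ)) (by positivity)]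
    push_cast
    rw [pow_two]
    refine mul_le_mul (h1 _).2.2.1 (by exact_mod_cast hcmB) (by positivity) (by positivity)
  · simp only
    rw [abs_of_nonneg (by positivity)]
    exact_mod_cast (h1 l.castSucc).2.1.trans hBB
  · rw [hw']
  · intro l h
    have h4 := hlow l
    simp only at h
    rw [h, sub_self, norm_zero] at h4
    have h5 := abs_eq_zero.1 (le_antisymm h4 (abs_nonneg _))
    exact (h1 l.castSucc).2.2.2 (sub_eq_zero.1 h5)
  · intro l hl
    refine (hupp l).trans ?_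
    have h4 : |x l.castSucc - (a l.castSucc : ℝ) / (c l.castSucc : ℝ)| ≤ E :=
      h2 l.castSucc (by simpa using hl)
    have h5 : (2 : ℝ) ≤ Real.exp 1 := by
      have := Real.add_one_le_exp (1 : ℝ)
      linarith
    calc 2 * |x l.castSucc - (a l.castSucc : ℝ) / (c l.castSucc : ℝ)| ≤ Real.exp 1 * E :=
          mul_le_mul h5 h4 (abs_nonneg _) (by positivity)
      _ = Real.exp (1 + -((B : ℝ) ^ C')) := by rw [hE, Real.exp_add]
      _ ≤ Real.exp (-(((B ^ 2 : ℕ) : ℝ) ^ C)) := by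
        rw [Real.exp_le_exp]
        have h6 : (B ^ 2) ^ C + 1 ≤ B ^ C' := by
          have h7 : 1 ≤ (B ^ 2) ^ C := Nat.one_le_pow _ _ (by positivity)
          calc (B ^ 2) ^ C + 1 ≤ (B ^ 2) ^ C * 2 := by omega
            _ ≤ (B ^ 2) ^ C * B := Nat.mul_le_mul_left _ hB
            _ = B ^ (2 * C + 1) := by rw [← pow_mul, pow_succ]
            _ ≤ B ^ C' := Nat.pow_le_pow_right (by omega) (by omega)
        have h8 : (((B ^ 2 : ℕ) : ℝ) ^ C) + 1 ≤ (B : ℝ) ^ C' := by exact_mod_cast h6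
        linarith
  · intro l l' hl
    refine (hupp l').trans (le_trans ?_ (pow_le_pow_left₀ (abs_nonneg _) (hlow l) C))
    have h4 : |x l'.castSucc - (a l'.castSucc : ℝ) / (c l'.castSucc : ℝ)| ≤
        |x l.castSucc - (a l.castSucc : ℝ) / (c l.castSucc : ℝ)| ^ C' :=
      h3 l.castSucc l'.castSucc (by simpa using hl)
    obtain ⟨d, hd⟩ : ∃ d : ℝ, d = |x l.castSucc - (a l.castSucc : ℝ) / (c l.castSucc : ℝ)| :=
      ⟨_, rfl⟩
    have hd0 : 0 ≤ d := by rw [hd]; exact abs_nonneg _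
    have hdE : d ≤ E := by rw [hd]; exact k1 l.castSucc
    rw [← hd] at h4 ⊢
    calc 2 * |x l'.castSucc - (a l'.castSucc : ℝ) / (c l'.castSucc : ℝ)| ≤ 2 * d ^ C' := by
          linarith
      _ ≤ 2 * d ^ (C + 1) := by
          have := pow_le_pow_of_le_one hd0 (by linarith) (by omega : C + 1 ≤ C')
          linarith
      _ = (2 * d) * d ^ C := by ring
      _ ≤ 1 * d ^ C := mul_le_mul_of_nonneg_right (by linarith) (pow_nonneg hd0 _)
      _ = d ^ C := one_mul _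

end Pool.Agent.Lib.MP5e
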