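import Pool.Agent.Lib.MP_5e64e7_nt.UDefs

set_option autoImplicit false

/-!
# U.HIER : hierarchical approximation by points of imaginary quadratic fields
-/

noncomputable section

namespace Pool.Agent.Lib.MP5e

open Polynomial Topology

/-- `w` is hierarchically super-approximable by points of the fields `ℚ(√(-D))`, `D ∈ S` -/
def UHier {m : ℕ} (S : Set ℕ) (w : Fin m → ℂ) : Prop :=
  ∀ C : ℕ, ∃ (B D : ℕ) (w' : Fin m → ℂ), 2 ≤ B ∧ D ∈ S ∧ UPt B D w' ∧ (∀ l, w l ≠ w' l) ∧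
    (∀ l : Fin m, (l : ℕ) = 0 → ‖w l - w' l‖ ≤ Real.exp (-((B : ℝ) ^ C))) ∧
    (∀ l l' : Fin m, (l' : ℕ) = (l : ℕ) + 1 → ‖w l' - w' l'‖ ≤ ‖w l - w' l‖ ^ C)

end Pool.Agent.Lib.MP5e
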