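import Pool.Agent.Lib.MP_5e64e7_nt.UAdm
import Pool.Agent.Lib.MP_5e64e7_nt.UHier

set_option autoImplicit false

/-!
# U.EXA : fields `ℚ(w)` and `ℚ(√(-D))(w)` satisfy `UCM` (block E, helper16)
-/

noncomputable section

namespace Pool.Agent.Lib.MP5e

open Polynomial Topology

/-- hierarchically approximable numbers are algebraically independent -/
theorem uhier_ind {m : ℕ} {S : Set ℕ} {w : Fin m → ℂ} (h : UHier S w) :
    AlgebraicIndependent ℚ w := by
  have hint : AlgebraicIndependent ℤ w := by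
    rw [algebraicIndependent_iff]
    intro P hP0
    obtain ⟨C0, hC0⟩ := uPt_alg (m := m)
    obtain ⟨C1, hC1⟩ := rlow P (C0 + 1)
    have h1 := utransfer w (fun B x => ∃ D, UPt B D x) (fun C => by
        obtain ⟨B, D, x, a1, a2, a3, a4, a5, a6⟩ := h C
        exact ⟨B, x, a1, ⟨D, a3⟩, a4, a5, a6⟩)
      (fun x => (MvPolynomial.aeval x P : ℂ)) (aeval_analytic w P) hP0 Set.univ
      Filter.univ_mem C1 (by
        rintro B x hB ⟨D, hx⟩ -
        have hBpos : 0 < B := by omega
        obtain ⟨q1, q2⟩ := uquad (qom D) (-(D : ℤ)) (by rw [qom_sq]; push_cast; ring)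
        refine hC1 B (IntermediateField.adjoin ℚ ({qom D} : Set ℂ)) x hB q1 ?_ ?_
        · calc _ ≤ 2 := q2
            _ ≤ B ^ 1 := by rwa [pow_one]
            _ ≤ B ^ (C0 + 1) := Nat.pow_le_pow_right hBpos (by omega)
        · intro l
          exact (hC0 B D x _ hB hx (IntermediateField.mem_adjoin_simple_self ℚ _) l).mono' le_rfl
            (Nat.pow_le_pow_right hBpos (by omega)))
    have h2 : MvPolynomial.map (Int.castRingHom ℂ) P = 0 := by
      apply upoly_zero w
      filter_upwards [h1] with x hx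
      rw [MvPolynomial.eval_map]
      exact hx
    exact (map_eq_zero_iff _ (MvPolynomial.map_injective _ (RingHom.injective_int _))).1 h2
  have : Algebra.IsAlgebraic ℤ ℚ :=
    ⟨fun x => (IsFractionRing.isAlgebraic_iff ℤ ℚ ℚ).mpr (isAlgebraic_algebraMap x)⟩
  exact hint.extendScalars ℚ

private theorem uex_eval {m M : ℕ} (v : Fin M → ℂ) (S : IntermediateField ℚ ℂ)
    (hv : ∀ j, v j ∈ S) (x : Fin m → ℂ) (P : MvPolynomial (Fin m ⊕ Fin M) ℤ) :
    MvPolynomial.aeval x (MvPolynomial.aeval (Sum.elim MvPolynomial.X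
      fun j => MvPolynomial.C (⟨v j, hv j⟩ : S)) P : MvPolynomial (Fin m) S) =
      (MvPolynomial.aeval (Sum.elim x v) P : ℂ) := by
  induction P using MvPolynomial.induction_on with
  | C a => simp
  | add p q hp hq => simp only [map_add, hp, hq]
  | mul_X p i hp =>
    simp only [map_mul, hp, MvPolynomial.aeval_X]
    congr 1
    rcases i with l | j
    · simp
    · simp only [Sum.elim_inr, MvPolynomial.aeval_C]
      rfl

/-- specialisation over algebraic constants -/
theorem uspec_const {m M : ℕ} {w : Fin m → ℂ} (hw : AlgebraicIndependent ℚ w)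
    (v : Fin M → ℂ) (S : IntermediateField ℚ ℂ) (hS : Algebra.IsAlgebraic ℚ S)
    (hv : ∀ j, v j ∈ S) (w' : Fin m → ℂ) : USpec w v w' v := by
  intro P hP
  have hwS : AlgebraicIndependent S w := hw.extendScalars S
  rw [← uex_eval v S hv] at hP ⊢
  rw [(algebraicIndependent_iff.1 hwS) _ hP, map_zero]

/-- the field `ℚ(w)` -/
theorem uhier_cm0 {m : ℕ} {S : Set ℕ} {w : Fin m → ℂ} (h : UHier S w) :
    UCM w (fun k : Fin 0 => (k.elim0 : ℂ)) := by
  refine ⟨fun j => j.elim0, fun C => ?_⟩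
  obtain ⟨B, D, x, a1, a2, a3, a4, a5, a6⟩ := h C
  refine ⟨B, D, x, fun k => k.elim0, a1, a3, ⟨a3.1, a3.2.1, fun k => k.elim0, fun k => k.elim0,
    fun k => k.elim0, fun k => k.elim0⟩, ?_, fun j => j.elim0, a4, a5, a6⟩
  have h1 := uspec_const (uhier_ind h) (fun k : Fin 0 => (k.elim0 : ℂ)) ⊥ inferInstance
    (fun k => k.elim0) x
  exact h1

/-- the field `ℚ(√(-D))(w)` -/
theorem uhier_cm1 {m : ℕ} {D : ℕ} {w : Fin m → ℂ} (h : UHier {D} w) :
    UCM w (fun _ : Fin 1 => qom D) := by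
  obtain ⟨q1, q2⟩ := uquad (qom D) (-(D : ℤ)) (by rw [qom_sq]; push_cast; ring)
  have hmem : qom D ∈ IntermediateField.adjoin ℚ ({qom D} : Set ℂ) :=
    IntermediateField.mem_adjoin_simple_self ℚ _
  have halg : Algebra.IsAlgebraic ℚ (IntermediateField.adjoin ℚ ({qom D} : Set ℂ)) :=
    inferInstance
  refine ⟨fun j => ?_, fun C => ?_⟩
  · have h1 : IsIntegral ℚ (qom D) := by
      refine ⟨Polynomial.X ^ 2 - Polynomial.C (-(D : ℚ)),
        Polynomial.monic_X_pow_sub_C _ (by norm_num), ?_⟩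
      rw [← Polynomial.aeval_def]
      simp [qom_sq]
    exact h1.isAlgebraic.tower_top _
  · obtain ⟨B, D', x, a1, a2, a3, a4, a5, a6⟩ := h C
    have hD : D' = D := a2
    subst hD
    refine ⟨B, D', x, fun _ => qom D', a1, a3, ⟨a3.1, a3.2.1, fun _ => 0, fun _ => 1,
      fun _ => 1, fun _ => ⟨le_rfl, show 1 ≤ B by omega, by simp, ?_, ?_⟩⟩, ?_, fun j => ?_,
      a4, a5, a6⟩
    · rw [abs_one]
      exact_mod_cast (by omega : 1 ≤ B)
    · simp [qgr]
    · exact uspec_const (uhier_ind h) _ _ halg (fun _ => hmem) x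
    · rw [sub_self, norm_zero]
      positivity

end Pool.Agent.Lib.MP5e
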