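import Pool.Agent.Lib.MP_5e64e7_nt.UFgood

set_option autoImplicit false

noncomputable section

namespace Pool.Agent.Lib.MP5e

open Polynomial Topology

private theorem one_sub_ne_of_le {c : ℝ} (hc : 0 < c) {z : ℂ} (h : c ≤ ‖1 - z‖) : 1 - z ≠ 0 := by
  intro h0
  rw [h0, norm_zero] at h
  linarith

/-- a ball around a good point with uniform bounds -/
private theorem ugood_ball {q w₀ : ℂ} (hq0 : q ≠ 0) (hq1 : ‖q‖ < 1) (hw : w₀ ∈ ugood q) :
    ∃ c M ε : ℝ, 0 < c ∧ 0 < M ∧ 0 < ε ∧ ∀ w ∈ Metric.ball w₀ ε, w ∈ ugood q ∧ ‖w‖ ≤ M ∧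
      ‖w⁻¹‖ ≤ M ∧ (∀ k : ℕ, c ≤ ‖1 - w * q ^ k‖) ∧
      ∀ k : ℕ, c ≤ ‖1 - w⁻¹ * q ^ k‖ := by
  obtain ⟨c, M, hc, hM, h⟩ := ugood_unif hq0 hq1 hw
  obtain ⟨ε, hε, h1⟩ := Metric.eventually_nhds_iff_ball.1 h
  exact ⟨c, M, ε, hc, hM, hε, h1⟩

private theorem usq_bound {q : ℂ} {c M : ℝ} (hc : 0 < c) {x : ℂ} (k : ℕ) (hx : ‖x‖ ≤ M)
    (h : c ≤ ‖1 - x * q ^ (k + 1)‖) :
    ‖x * q ^ (k + 1) / (1 - x * q ^ (k + 1)) ^ 2‖ ≤ M * ‖q‖ ^ (k + 1) / c ^ 2 := by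
  have hM : 0 ≤ M := (norm_nonneg x).trans hx
  rw [norm_div, norm_mul, norm_uq_pow, norm_pow]
  exact div_le_div₀ (by positivity)
    (mul_le_mul_of_nonneg_right hx (by positivity)) (by positivity)
    (pow_le_pow_left₀ hc.le h 2)

theorem uf_differentiableAt {q w : ℂ} (hq0 : q ≠ 0) (hq1 : ‖q‖ < 1) (hw : w ∈ ugood q) :
    DifferentiableAt ℂ (uf q) w := by
  obtain ⟨c, M, ε, hc, hM, hε, h⟩ := ugood_ball hq0 hq1 hw
  have h1 : DifferentiableAt ℂ (fun w : ℂ => w / (1 - w) ^ 2) w := by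
    have h2 := ugood_one_sub hw 0
    rw [pow_zero, mul_one] at h2
    exact DifferentiableAt.div (by fun_prop) (by fun_prop) (pow_ne_zero 2 h2)
  have h3 : DifferentiableOn ℂ (fun w : ℂ => ∑' k : ℕ,
      (w * q ^ (k + 1) / (1 - w * q ^ (k + 1)) ^ 2 +
        w⁻¹ * q ^ (k + 1) / (1 - w⁻¹ * q ^ (k + 1)) ^ 2)) (Metric.ball w ε) := by
    refine Complex.differentiableOn_tsum_of_summable_norm
      (u := fun k => M * ‖q‖ ^ (k + 1) / c ^ 2 + M * ‖q‖ ^ (k + 1) / c ^ 2) ?_ ?_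
      Metric.isOpen_ball ?_
    · exact (((summable_uq hq1).mul_left M).div_const (c ^ 2)).add
        (((summable_uq hq1).mul_left M).div_const (c ^ 2))
    · intro k z hz
      obtain ⟨hz0, -, -, hz1, hz2⟩ := h z hz
      have e1 : 1 - z * q ^ (k + 1) ≠ 0 := one_sub_ne_of_le hc (hz1 _)
      have e2 : 1 - z⁻¹ * q ^ (k + 1) ≠ 0 := one_sub_ne_of_le hc (hz2 _)
      have e3 : z ≠ 0 := hz0.1
      apply DifferentiableAt.differentiableWithinAt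
      have hi : DifferentiableAt ℂ (fun z : ℂ => z⁻¹) z := differentiableAt_inv e3
      refine DifferentiableAt.add ?_ ?_
      · exact DifferentiableAt.div (by fun_prop) (by fun_prop) (pow_ne_zero 2 e1)
      · exact DifferentiableAt.div (hi.mul_const _)
          (((hi.mul_const _).const_sub 1).pow 2) (pow_ne_zero 2 e2)
    · intro k z hz
      obtain ⟨hz0, hz3, hz4, hz1, hz2⟩ := h z hz
      exact (norm_add_le _ _).trans (add_le_add (usq_bound hc k hz3 (hz1 _))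
        (usq_bound hc k hz4 (hz2 _)))
  have h4 := h3.differentiableAt (Metric.isOpen_ball.mem_nhds (Metric.mem_ball_self hε))
  exact h1.add h4

private theorem term_deriv (a : ℂ) {z : ℂ} (hz : z ≠ 0) (e1 : 1 - z * a ≠ 0)
    (e2 : 1 - z⁻¹ * a ≠ 0) :
    HasDerivAt (fun z : ℂ => z⁻¹ * a / (1 - z⁻¹ * a) - z * a / (1 - z * a))
      (-(z * a / (1 - z * a) ^ 2 + z⁻¹ * a / (1 - z⁻¹ * a) ^ 2) / z) z := by
  have hi : HasDerivAt (fun z : ℂ => z⁻¹) (-(z ^ 2)⁻¹) z := hasDerivAt_inv hz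
  have h1 : HasDerivAt (fun z : ℂ => z⁻¹ * a) (-(z ^ 2)⁻¹ * a) z := hi.mul_const a
  have h2 : HasDerivAt (fun z : ℂ => 1 - z⁻¹ * a) (-(-(z ^ 2)⁻¹ * a)) z := h1.const_sub 1
  have h3 : HasDerivAt (fun z : ℂ => z * a) (1 * a) z := (hasDerivAt_id z).mul_const a
  have h4 : HasDerivAt (fun z : ℂ => 1 - z * a) (-(1 * a)) z := h3.const_sub 1
  have h5 := (h1.div h2 e2).sub (h3.div h4 e1)
  refine h5.congr_deriv ?_
  have e3 : z - a ≠ 0 := by
    intro h0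
    apply e2
    have : a = z := (sub_eq_zero.1 h0).symm
    rw [this, inv_mul_cancel₀ hz, sub_self]
  have e4 : 1 - z⁻¹ * a = (z - a) / z := by field_simp
  rw [e4]
  field_simp
  ring

theorem ug_hasDerivAt {q w : ℂ} (hq0 : q ≠ 0) (hq1 : ‖q‖ < 1) (hw : w ∈ ugood q) :
    HasDerivAt (ug q) (-(uf q w) / w) w := by
  obtain ⟨c, M, ε, hc, hM, hε, h⟩ := ugood_ball hq0 hq1 hw
  have hw0 : w ≠ 0 := hw.1
  have hw1 : 1 - w ≠ 0 := by
    have h2 := ugood_one_sub hw 0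
    rwa [pow_zero, mul_one] at h2
  have hw2 : w - 1 ≠ 0 := by
    intro h0
    apply hw1
    rw [← neg_sub, h0, neg_zero]
  have hmem : w ∈ Metric.ball w ε := Metric.mem_ball_self hε
  have h1 : HasDerivAt (fun w : ℂ => (w + 1) / (2 * (w - 1))) (-(w / (1 - w) ^ 2) / w) w := by
    have a1 : HasDerivAt (fun w : ℂ => w + 1) 1 w := (hasDerivAt_id w).add_const 1
    have a2 : HasDerivAt (fun w : ℂ => 2 * (w - 1)) (2 * 1) w :=
      ((hasDerivAt_id w).sub_const 1).const_mul 2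
    refine (a1.div a2 (mul_ne_zero two_ne_zero hw2)).congr_deriv ?_
    have e5 : (1 - w) ^ 2 = (w - 1) ^ 2 := by ring
    rw [e5]
    field_simp
    ring
  have h2 : HasDerivAt (fun w : ℂ => ∑' k : ℕ,
      (w⁻¹ * q ^ (k + 1) / (1 - w⁻¹ * q ^ (k + 1)) -
        w * q ^ (k + 1) / (1 - w * q ^ (k + 1))))
      (∑' k : ℕ, (-(w * q ^ (k + 1) / (1 - w * q ^ (k + 1)) ^ 2 +
        w⁻¹ * q ^ (k + 1) / (1 - w⁻¹ * q ^ (k + 1)) ^ 2) / w)) w := by
    refine hasDerivAt_tsum_of_isPreconnected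
      (u := fun k => (M * ‖q‖ ^ (k + 1) / c ^ 2 + M * ‖q‖ ^ (k + 1) / c ^ 2) * M)
      (t := Metric.ball w ε) (y₀ := w)
      (g := fun (k : ℕ) (w : ℂ) => w⁻¹ * q ^ (k + 1) / (1 - w⁻¹ * q ^ (k + 1)) -
        w * q ^ (k + 1) / (1 - w * q ^ (k + 1)))
      (g' := fun (k : ℕ) (w : ℂ) => -(w * q ^ (k + 1) / (1 - w * q ^ (k + 1)) ^ 2 +
        w⁻¹ * q ^ (k + 1) / (1 - w⁻¹ * q ^ (k + 1)) ^ 2) / w)
      ?_ Metric.isOpen_ball (convex_ball w ε).isPreconnected ?_ ?_ hmem ?_ hmem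
    · exact ((((summable_uq hq1).mul_left M).div_const (c ^ 2)).add
        (((summable_uq hq1).mul_left M).div_const (c ^ 2))).mul_right M
    · intro k z hz
      obtain ⟨hz0, -, -, hz1, hz2⟩ := h z hz
      have e1 : 1 - z * q ^ (k + 1) ≠ 0 := one_sub_ne_of_le hc (hz1 _)
      have e2 : 1 - z⁻¹ * q ^ (k + 1) ≠ 0 := one_sub_ne_of_le hc (hz2 _)
      exact term_deriv _ hz0.1 e1 e2
    · intro k z hz
      obtain ⟨hz0, hz3, hz4, hz1, hz2⟩ := h z hz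
      rw [div_eq_mul_inv _ z, norm_mul, norm_neg]
      refine mul_le_mul ?_ hz4 (norm_nonneg _) ?_
      · exact (norm_add_le _ _).trans (add_le_add (usq_bound hc k hz3 (hz1 _))
          (usq_bound hc k hz4 (hz2 _)))
      · positivity
    · exact (summable_uone hq0 hq1 (ugood_inv hw)).sub (summable_uone hq0 hq1 hw)
  have h3 := h1.add h2
  refine h3.congr_deriv ?_
  unfold uf
  rw [tsum_div_const, tsum_neg]
  ring

end Pool.Agent.Lib.MP5e
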