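import Pool.Agent.Lib.MP_5e64e7_nt.UExtB
import Pool.Agent.Lib.MP_5e64e7_nt.UFdiff
import Pool.Agent.Lib.MP_5e64e7_nt.Sch
import Pool.Agent.Lib.MP_5e64e7_nt.Chg

set_option autoImplicit false

/-!
# U.EXT : the uniform extrapolation estimate (last module of block A, model `Ext.lean`)
-/

noncomputable section

namespace Pool.Agent.Lib.MP5e

open Polynomial Topology

/-- the substitution `w = -exp (s / μ)` -/
private def uephi (μ w : ℂ) : ℂ := μ * Complex.log (-w)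

private lemma uex_sub {q ε μ : ℂ} (hμ : μ ≠ 0) (D : ℕ) (a : ℕ → ℕ → ℂ) {w : ℂ} (hw : w ≠ 0) :
    uF q ε μ D a (uephi μ w) = uFW q ε μ D a w := by
  have h1 : -Complex.exp (uephi μ w / μ) = w := by
    unfold uephi
    rw [mul_div_cancel_left₀ _ hμ, Complex.exp_log (neg_ne_zero.2 hw), neg_neg]
  unfold uF uFW uX uG
  rw [h1]

private lemma uex_slit {w : ℂ} (hw : ‖w + 1‖ ≤ 1 / 2) : -w ∈ Complex.slitPlane := by
  rw [Complex.mem_slitPlane_iff]
  left
  have h1 := (Complex.abs_re_le_norm (w + 1)).trans hw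
  rw [Complex.add_re, Complex.one_re, abs_le] at h1
  rw [Complex.neg_re]
  linarith

private lemma uex_phi_diff (μ : ℂ) {w : ℂ} (hw : ‖w + 1‖ ≤ 1 / 2) :
    DifferentiableAt ℂ (uephi μ) w :=
  (differentiableAt_id.neg.clog (uex_slit hw)).const_mul _

private lemma uex_phi_norm (μ : ℂ) {w : ℂ} (hw : ‖w + 1‖ ≤ 1 / 2) : ‖uephi μ w‖ ≤ ‖μ‖ := by
  have h0 : ‖-(w + 1)‖ ≤ 1 / 2 := by rwa [norm_neg]
  have h1 := Complex.norm_log_one_add_half_le_self h0
  rw [norm_neg] at h1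
  have h2 : 1 + -(w + 1) = -w := by ring
  rw [h2] at h1
  unfold uephi
  rw [norm_mul]
  have := norm_nonneg μ
  nlinarith [norm_nonneg (Complex.log (-w))]

private lemma uex_nhds : ∀ᶠ w in 𝓝 (-1 : ℂ), ‖w + 1‖ ≤ 1 / 2 := by
  have h : Filter.Tendsto (fun w : ℂ => ‖w + 1‖) (𝓝 (-1)) (𝓝 ‖(-1 : ℂ) + 1‖) :=
    (continuous_norm.comp (continuous_id.add continuous_const)).tendsto _
  rw [neg_add_cancel, norm_zero] at h
  exact h.eventually (Iic_mem_nhds (by norm_num))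

private lemma uex_ne {w : ℂ} (hw : ‖w + 1‖ ≤ 1 / 2) : w ≠ 0 := by
  intro h
  rw [h, zero_add, norm_one] at hw
  norm_num at hw

private lemma uex_phi_analytic (μ : ℂ) : AnalyticAt ℂ (uephi μ) (-1) := by
  rw [Complex.analyticAt_iff_eventually_differentiableAt]
  exact uex_nhds.mono fun w hw => uex_phi_diff μ hw

private lemma uex_phi_zero (μ : ℂ) : uephi μ (-1) = 0 := by
  unfold uephi
  rw [neg_neg, Complex.log_one, mul_zero]

private lemma uex_phi_deriv (μ : ℂ) : deriv (uephi μ) (-1) = -μ := by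
  have h1 : HasDerivAt (fun w : ℂ => -w) (-1) (-1) := hasDerivAt_neg (-1 : ℂ)
  have h2 : (fun w : ℂ => -w) (-1) ∈ Complex.slitPlane := by
    simp
  have h3 := (h1.clog h2).const_mul μ
  have h4 : deriv (uephi μ) (-1) = μ * (-1 / (fun w : ℂ => -w) (-1)) := h3.deriv
  rw [h4]
  simp

private lemma uex_F_analytic {q : ℂ} (hq0 : q ≠ 0) (hq1 : ‖q‖ < 1) (ε μ : ℂ) (D : ℕ)
    (a : ℕ → ℕ → ℂ) : AnalyticAt ℂ (uF q ε μ D a) 0 := by
  rw [Complex.analyticAt_iff_eventually_differentiableAt]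
  have hd : ∀ t : ℂ, HasDerivAt (fun t : ℂ => -Complex.exp (t / μ))
      (-(Complex.exp (t / μ) * (1 / μ))) t := fun t =>
    (((hasDerivAt_id t).div_const μ).cexp).neg
  have hc : ∀ᶠ t in 𝓝 (0 : ℂ), -Complex.exp (t / μ) ∈ ugood q := by
    apply (hd 0).continuousAt.eventually
    change ∀ᶠ y in 𝓝 (-Complex.exp (0 / μ)), y ∈ ugood q
    rw [zero_div, Complex.exp_zero]
    exact (isOpen_ugood hq0 hq1).mem_nhds (neg_one_mem_ugood hq0 hq1)
  filter_upwards [hc] with s hs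
  have h1 : DifferentiableAt ℂ (uX q ε μ) s :=
    ((((uf_differentiableAt hq0 hq1 hs).comp s (hd s).differentiableAt).add_const ε).div_const
      (μ ^ 2))
  have h2 : DifferentiableAt ℂ (uG q μ) s :=
    (((ug_hasDerivAt hq0 hq1 hs).differentiableAt.comp s (hd s).differentiableAt).div_const μ)
  unfold uF
  apply DifferentiableAt.fun_sum
  intro i _
  apply DifferentiableAt.fun_sum
  intro j _
  exact ((h1.pow i).const_mul _).mul (h2.pow j)

private lemma uex_hh_analytic (q : ℂ) (D K : ℕ) :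
    AnalyticAt ℂ (fun w => uh q K w ^ (3 * D)) (-1) := by
  rw [Complex.analyticAt_iff_eventually_differentiableAt]
  exact uex_nhds.mono fun w hw => (uh_differentiableAt q K (uex_ne hw)).pow _

private lemma uex_sum {m : ℝ} (hm : 1 ≤ m) (T : ℕ) :
    ∑ l ∈ Finset.range T, m ^ l / (l.factorial : ℝ) ≤ 3 * m ^ T := by
  have h1 := Real.sum_le_exp_of_nonneg (zero_le_one) T
  have h2 : Real.exp 1 ≤ 3 := by
    have := Real.exp_one_lt_d9
    linarith
  calc ∑ l ∈ Finset.range T, m ^ l / (l.factorial : ℝ)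
      ≤ ∑ l ∈ Finset.range T, m ^ T * ((1 : ℝ) ^ l / (l.factorial : ℝ)) := by
        refine Finset.sum_le_sum fun l hl => ?_
        rw [one_pow, ← mul_div_assoc, mul_one]
        exact div_le_div_of_nonneg_right (pow_le_pow_right₀ hm (Finset.mem_range.1 hl).le)
          (by positivity)
    _ = m ^ T * ∑ l ∈ Finset.range T, (1 : ℝ) ^ l / (l.factorial : ℝ) := by
        rw [Finset.mul_sum]
    _ ≤ m ^ T * 3 := mul_le_mul_of_nonneg_left (h1.trans h2) (by positivity)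
    _ = 3 * m ^ T := by ring

/-- Cauchy estimate for the polynomial part -/
private lemma uex_cauchy {q μ : ℂ} {c₀ m : ℝ} (hc : 1 ≤ c₀) (hm : 1 ≤ m) (hμ : ‖μ‖ ≤ m)
    (D K T : ℕ) (hnear : ∀ w : ℂ, ‖w + 1‖ ≤ 1 / 2 → ‖uh q K w‖ ≤ c₀) (f : ℂ → ℂ) (η : ℝ)
    (hη : 0 ≤ η) (hf : ∀ t < T, ‖iteratedDeriv t f 0‖ ≤ η) (k : ℕ) :
    ‖iteratedDeriv k (fun w => uh q K w ^ (3 * D) * ∑ l ∈ Finset.range T,
        iteratedDeriv l f 0 / (l.factorial : ℂ) * uephi μ w ^ l) (-1)‖ ≤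
      (c₀ ^ (3 * D) * η * (3 * m ^ T)) * k.factorial * 2 ^ k := by
  set C : ℝ := c₀ ^ (3 * D) * η * (3 * m ^ T) with hC
  have hball : ∀ z ∈ Metric.closedBall (-1 : ℂ) (1 / 2), ‖z + 1‖ ≤ 1 / 2 := by
    intro z hz
    rw [Metric.mem_closedBall, dist_eq_norm, sub_neg_eq_add] at hz
    exact hz
  have hd : DifferentiableOn ℂ (fun w => uh q K w ^ (3 * D) * ∑ l ∈ Finset.range T,
        iteratedDeriv l f 0 / (l.factorial : ℂ) * uephi μ w ^ l)
        (closure (Metric.ball (-1) (1 / 2))) := by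
    intro z hz
    have hz' := hball z (Metric.closure_ball_subset_closedBall hz)
    apply DifferentiableAt.differentiableWithinAt
    apply DifferentiableAt.mul ((uh_differentiableAt q K (uex_ne hz')).pow _)
    apply DifferentiableAt.fun_sum
    intro l _
    exact ((uex_phi_diff μ hz').pow l).const_mul _
  have h := Complex.norm_iteratedDeriv_le_of_forall_mem_sphere_norm_le k
    (show (0 : ℝ) < 1 / 2 by norm_num) hd.diffContOnCl (C := C) (by
      intro z hz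
      have hz' := hball z (Metric.sphere_subset_closedBall hz)
      rw [norm_mul, norm_pow]
      have h1 : ‖uh q K z‖ ^ (3 * D) ≤ c₀ ^ (3 * D) :=
        pow_le_pow_left₀ (norm_nonneg _) (hnear z hz') _
      have h2 : ‖∑ l ∈ Finset.range T, iteratedDeriv l f 0 / (l.factorial : ℂ) * uephi μ z ^ l‖ ≤
          η * (3 * m ^ T) := by
        calc ‖∑ l ∈ Finset.range T, iteratedDeriv l f 0 / (l.factorial : ℂ) * uephi μ z ^ l‖
            ≤ ∑ l ∈ Finset.range T,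
                ‖iteratedDeriv l f 0 / (l.factorial : ℂ) * uephi μ z ^ l‖ :=
              norm_sum_le _ _
          _ ≤ ∑ l ∈ Finset.range T, η * (m ^ l / l.factorial) := by
              refine Finset.sum_le_sum fun l hl => ?_
              rw [norm_mul, norm_div, norm_pow, Complex.norm_natCast]
              have hl0 : (0 : ℝ) < l.factorial := by exact_mod_cast Nat.factorial_pos l
              calc ‖iteratedDeriv l f 0‖ / l.factorial * ‖uephi μ z‖ ^ l
                  ≤ η / l.factorial * m ^ l := by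
                    refine mul_le_mul ?_ ?_ (by positivity) (by positivity)
                    · exact div_le_div_of_nonneg_right (hf l (Finset.mem_range.1 hl)) hl0.le
                    · exact pow_le_pow_left₀ (norm_nonneg _) ((uex_phi_norm μ hz').trans hμ) l
                _ = η * (m ^ l / l.factorial) := by ring
          _ = η * ∑ l ∈ Finset.range T, m ^ l / l.factorial := by rw [Finset.mul_sum]
          _ ≤ η * (3 * m ^ T) :=
              mul_le_mul_of_nonneg_left (uex_sum hm T) hη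
      rw [hC, mul_assoc]
      exact mul_le_mul h1 h2 (norm_nonneg _) (by positivity))
  refine h.trans (le_of_eq ?_)
  rw [div_pow, one_pow, div_div_eq_mul_div, div_one]
  ring

theorem uext (r0 r1 : ℝ) (h0 : 0 < r0) (h1 : r1 < 1) : ∃ (c : ℝ) (C : ℕ), 1 ≤ c ∧ 1 ≤ C ∧
    ∀ q : ℂ, r0 ≤ ‖q‖ → ‖q‖ ≤ r1 →
    ∀ (ε μ : ℂ) (m : ℝ), 1 ≤ m → ‖ε‖ ≤ m → m⁻¹ ≤ ‖μ‖ → ‖μ‖ ≤ m →
    ∀ (D K T : ℕ), 1 ≤ D → 1 ≤ K → C * D * K ≤ T → ∀ (a : ℕ → ℕ → ℂ) (S η : ℝ),
    (∑ i ∈ Finset.range (D + 1), ∑ j ∈ Finset.range (D + 1), ‖a i j‖) ≤ S → 0 ≤ η →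
    (∀ t < T, ‖iteratedDeriv t (uF q ε μ D a) 0‖ ≤ η) →
    ‖iteratedDeriv T (uF q ε μ D a) 0‖ ≤ T.factorial * (c * m ^ C) ^ T *
      (S * Real.exp (-((K : ℝ) * T / C)) + η * (c * m ^ C) ^ (K * T)) := by
  rcases lt_or_ge r1 r0 with hr | hr
  · exact ⟨1, 1, le_rfl, le_rfl, fun q hq0 hq1 => absurd (hq0.trans hq1) (not_le.2 hr)⟩
  have hr10 : 0 < r1 := h0.trans_le hr
  obtain ⟨c₁, C₁, hc₁, hC₁, hbound⟩ := ubound_circ r0 r1 h0 h1
  set c₀ : ℝ := uc0 r1 with hc₀d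
  have hc₀ : 1 ≤ c₀ := by
    rw [hc₀d]
    unfold uc0
    have h2 : 0 ≤ 4 * r1 / (1 - r1) ^ 2 := by positivity
    have h3 := Real.one_le_exp h2
    linarith
  have hL1 : 0 < -Real.log r1 := by
    have := Real.log_neg hr10 h1
    linarith
  have hL0 : 0 < -Real.log r0 := by
    have := Real.log_neg h0 (hr.trans_lt h1)
    linarith
  set L1 : ℝ := -Real.log r1 with hL1d
  set L0 : ℝ := -Real.log r0 with hL0d
  obtain ⟨K0, hK0⟩ := exists_nat_ge (8 / L1)
  rw [div_le_iff₀ hL1] at hK0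
  have hK01 : 1 ≤ K0 := by
    rcases Nat.eq_zero_or_pos K0 with h | h
    · rw [h] at hK0
      norm_num at hK0
    · exact h
  have hK01r : (1 : ℝ) ≤ K0 := by exact_mod_cast hK01
  obtain ⟨C, hC⟩ := exists_nat_ge (4 * C₁ * K0 ^ 2)
  have hC4K : 4 * (K0 : ℝ) ≤ C := by
    refine le_trans ?_ hC
    calc 4 * (K0 : ℝ) = 4 * (1 * (K0 * 1)) := by ring
      _ ≤ 4 * (C₁ * (K0 * K0)) := by
          refine mul_le_mul_of_nonneg_left ?_ (by norm_num)
          exact mul_le_mul hC₁ (mul_le_mul_of_nonneg_left hK01r (by positivity)) (by positivity)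
            (by positivity)
      _ = 4 * C₁ * K0 ^ 2 := by ring
  have hC4 : (4 : ℝ) ≤ C := by linarith
  have hC2 : 2 ≤ C := by
    have : (2 : ℝ) ≤ C := by linarith
    exact_mod_cast this
  set E : ℝ := Real.exp (2 * L0 * K0) with hE
  set c : ℝ := 2 * c₀ ^ 3 * c₁ + 36 * c₀ ^ 6 + E with hc
  have hc₀3 : 1 ≤ c₀ ^ 3 := one_le_pow₀ hc₀
  have hc₀6 : 1 ≤ c₀ ^ 6 := one_le_pow₀ hc₀
  have hE0 : 0 < E := Real.exp_pos _
  have hA0 : 0 ≤ 2 * c₀ ^ 3 * c₁ := by positivity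
  have hc36 : 36 * c₀ ^ 6 ≤ c := by linarith
  have hc1 : 1 ≤ c := by linarith
  refine ⟨c, C, hc1, by omega, ?_⟩
  intro q hq0 hq1 ε μ m hm hε hμ1 hμ2 D K T hD hK hT a S η hS hη hder
  have hq0' : 0 < ‖q‖ := h0.trans_le hq0
  have hq1' : ‖q‖ < 1 := hq1.trans_lt h1
  have hqne : q ≠ 0 := norm_pos_iff.1 hq0'
  have hm0 : 0 < m := by linarith
  have hμn : 0 < ‖μ‖ := (inv_pos.2 hm0).trans_le hμ1
  have hμ0 : μ ≠ 0 := norm_pos_iff.1 hμn
  have hlq1 : L1 ≤ -Real.log ‖q‖ := by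
    have := Real.log_le_log hq0' hq1
    rw [hL1d]
    linarith
  have hlq0 : -Real.log ‖q‖ ≤ L0 := by
    have := Real.log_le_log h0 hq0
    rw [hL0d]
    linarith
  set lq : ℝ := -Real.log ‖q‖ with hlq
  have hlqp : 0 < lq := hL1.trans_le hlq1
  have hD1 : (1 : ℝ) ≤ D := by exact_mod_cast hD
  have hK1 : (1 : ℝ) ≤ K := by exact_mod_cast hK
  have hT' : (C : ℝ) * D * K ≤ T := by exact_mod_cast hT
  have hDK : (1 : ℝ) ≤ D * K := one_le_mul_of_one_le_of_one_le hD1 hK1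
  have hT4 : (4 : ℝ) ≤ T := by
    calc (4 : ℝ) = 4 * 1 := by norm_num
      _ ≤ C * (D * K) := mul_le_mul hC4 hDK (by norm_num) (by linarith)
      _ = C * D * K := by ring
      _ ≤ T := hT'
  have hS0 : 0 ≤ S := (Finset.sum_nonneg fun i _ => Finset.sum_nonneg fun j _ =>
    norm_nonneg _).trans hS
  set K' : ℕ := K0 * K with hK'
  have hK'1 : 1 ≤ K' := Nat.one_le_iff_ne_zero.2 (Nat.mul_ne_zero (by omega) (by omega))
  have hK'r : (K' : ℝ) = K0 * K := by rw [hK']; push_cast; ring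
  obtain ⟨Ψ, hΨd, hΨ⟩ := exists_uPsi hqne hq1' ε μ D K' a
  set f := uF q ε μ D a with hf
  set ρ := urho q K' with hρ
  have hρe : ρ = Real.exp (lq * (K' + 1 / 2)) := urho_eq hqne K'
  have hlK : 8 * (K : ℝ) ≤ lq * K' := by
    rw [hK'r]
    calc 8 * (K : ℝ) ≤ (K0 * L1) * K := mul_le_mul_of_nonneg_right hK0 (by positivity)
      _ ≤ (K0 * lq) * K := by
          refine mul_le_mul_of_nonneg_right ?_ (by positivity)
          exact mul_le_mul_of_nonneg_left hlq1 (by positivity)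
      _ = lq * (K0 * K) := by ring
  have hρ20 : 20 ≤ ρ := by
    rw [hρe]
    have h2 : (8 : ℝ) ≤ lq * (K' + 1 / 2) := by
      rw [mul_add]
      linarith
    have h3 : (20 : ℝ) ≤ Real.exp 8 := by
      have h4 : Real.exp 8 = Real.exp 1 ^ 8 := by
        rw [← Real.exp_nat_mul]
        norm_num
      have h5 := Real.exp_one_gt_d9
      have h6 : (2 : ℝ) ≤ Real.exp 1 := by linarith
      rw [h4]
      calc (20 : ℝ) ≤ 2 ^ 8 := by norm_num
        _ ≤ Real.exp 1 ^ 8 := pow_le_pow_left₀ (by norm_num) h6 8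
    exact h3.trans (Real.exp_le_exp.2 h2)
  have hρ0 : 0 < ρ := by linarith
  set ε' : ℝ := c₀ ^ (3 * D) * η * (3 * m ^ T) with hε'
  have hε'0 : 0 ≤ ε' := by positivity
  -- Taylor / change of variables
  obtain ⟨chg1, chg2⟩ := chg f (uephi μ) (fun w => uh q K' w ^ (3 * D)) (-1) (-μ)
    (uex_F_analytic hqne hq1' ε μ D a) (uex_phi_analytic μ) (uex_phi_zero μ) (uex_phi_deriv μ)
    (uex_hh_analytic q D K') T
  have hev : Ψ =ᶠ[𝓝 (-1 : ℂ)] fun w => uh q K' w ^ (3 * D) * f (uephi μ w) := by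
    have hm1 : (-1 : ℂ) ∈ uann q K' := by
      apply ucirc_ann hqne hq1' K'
      have h2 : (urho q K')⁻¹ ≤ 1 := inv_le_one_of_one_le₀ (by linarith)
      refine ⟨?_, ?_⟩ <;> rw [norm_neg, norm_one] <;> linarith
    filter_upwards [uex_nhds, (isOpen_uann q K').mem_nhds hm1,
      (isOpen_ugood hqne hq1').mem_nhds (neg_one_mem_ugood hqne hq1')] with w h1 h2 h3
    rw [hΨ w h2 h3, hf, uex_sub hμ0 D a (uex_ne h1)]
  have hder' : ∀ k, iteratedDeriv k Ψ (-1) =
      iteratedDeriv k (fun w => uh q K' w ^ (3 * D) * f (uephi μ w)) (-1) := fun k =>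
    hev.iteratedDeriv_eq k
  have hcau := uex_cauchy hc₀ hm hμ2 D K' T (fun w hw => uh_near hq1 h1 K' w hw) f η hη hder
  rw [← hε'] at hcau
  -- Schwarz lemma
  have hsch := sch ρ hρ20 Ψ (uann q K') (isOpen_uann q K') (ucirc_ann hqne hq1' K') hΨd
    (S * Real.exp (C₁ * D * ((K' : ℝ) + 1) ^ 2) * (c₁ * m ^ 4) ^ (D * K')) (by
      intro w hw
      have h1 : w ∈ ugood q := ucirc_good hqne hq1' K' w hw
      have h2 : w ∈ uann q K' := by
        apply ucirc_ann hqne hq1' K'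
        have h3 : (urho q K')⁻¹ ≤ urho q K' := by
          have : (urho q K')⁻¹ ≤ 1 := inv_le_one_of_one_le₀ (by linarith)
          linarith
        rcases hw with hw | hw
        · refine ⟨?_, ?_⟩ <;> rw [hw]
          exact h3
        · refine ⟨?_, ?_⟩ <;> rw [hw]
          exact h3
      rw [hΨ w h2 h1]
      exact hbound q hq0 hq1 ε μ m hm hε hμ1 D K' a S w hD hK'1 hS hw) T ε' hε'0 (by
      intro k hk
      rw [hder' k, chg1 k hk]
      exact hcau k)
  rw [hder' T, chg2] at hsch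
  -- the derivative of `f`
  have hh1 : 1 ≤ c₀ * ‖uh q K' (-1)‖ := by
    have h2 := uh_neg_one hq1 h1 K'
    have h3 : 0 < c₀ := by linarith
    calc (1 : ℝ) = c₀ * c₀⁻¹ := (mul_inv_cancel₀ h3.ne').symm
      _ ≤ c₀ * ‖uh q K' (-1)‖ := mul_le_mul_of_nonneg_left h2 h3.le
  have hmμ : 1 ≤ m * ‖μ‖ := by
    calc (1 : ℝ) = m * m⁻¹ := (mul_inv_cancel₀ hm0.ne').symm
      _ ≤ m * ‖μ‖ := mul_le_mul_of_nonneg_left hμ1 hm0.le
  have hF0 : (0 : ℝ) < T.factorial := by exact_mod_cast Nat.factorial_pos T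
  set G := iteratedDeriv T (fun w => uh q K' w ^ (3 * D) * ∑ l ∈ Finset.range T,
        iteratedDeriv l f 0 / (l.factorial : ℂ) * uephi μ w ^ l) (-1) with hG
  set M : ℝ := S * Real.exp (C₁ * D * ((K' : ℝ) + 1) ^ 2) * (c₁ * m ^ 4) ^ (D * K') with hM
  have hM0 : 0 ≤ M := by positivity
  have key : ‖iteratedDeriv T f 0‖ ≤ c₀ ^ (3 * D) * m ^ T *
      (T.factorial * 2 ^ T * (ρ ^ (T / 2))⁻¹ * (M + ε' * (3 * ρ) ^ T) +
        ε' * T.factorial * 2 ^ T) := by
    have e1 : ‖uh q K' (-1) ^ (3 * D) * (-μ) ^ T * iteratedDeriv T f 0‖ =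
        ‖uh q K' (-1)‖ ^ (3 * D) * (‖μ‖ ^ T * ‖iteratedDeriv T f 0‖) := by
      rw [norm_mul, norm_mul, norm_pow, norm_pow, norm_neg, mul_assoc]
    have e2 : ‖iteratedDeriv T f 0‖ ≤ c₀ ^ (3 * D) * m ^ T *
        ‖uh q K' (-1) ^ (3 * D) * (-μ) ^ T * iteratedDeriv T f 0‖ := by
      rw [e1]
      have e3 : 1 ≤ (c₀ * ‖uh q K' (-1)‖) ^ (3 * D) * (m * ‖μ‖) ^ T :=
        one_le_mul_of_one_le_of_one_le (one_le_pow₀ hh1) (one_le_pow₀ hmμ)
      calc ‖iteratedDeriv T f 0‖ ≤ (c₀ * ‖uh q K' (-1)‖) ^ (3 * D) * (m * ‖μ‖) ^ T *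
            ‖iteratedDeriv T f 0‖ := le_mul_of_one_le_left (norm_nonneg _) e3
        _ = c₀ ^ (3 * D) * m ^ T *
            (‖uh q K' (-1)‖ ^ (3 * D) * (‖μ‖ ^ T * ‖iteratedDeriv T f 0‖)) := by
            rw [mul_pow, mul_pow]
            ring
    have e3 := norm_sub_le (G + uh q K' (-1) ^ (3 * D) * (-μ) ^ T * iteratedDeriv T f 0) G
    rw [add_sub_cancel_left] at e3
    have e4 : ‖G‖ ≤ ε' * T.factorial * 2 ^ T := hcau T
    refine e2.trans (mul_le_mul_of_nonneg_left ?_ (by positivity))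
    linarith
  -- numerical estimates
  have hhalf : ((T : ℝ) - 1) / 2 ≤ ((T / 2 : ℕ) : ℝ) := by
    have h1 : T ≤ 2 * (T / 2) + 1 := by omega
    have h2 : (T : ℝ) ≤ 2 * ((T / 2 : ℕ) : ℝ) + 1 := by exact_mod_cast h1
    linarith
  have hTpos : 0 < T := by
    have : 0 < (T : ℝ) := by linarith
    exact_mod_cast this
  have hDT : D ≤ T := by
    have : (D : ℝ) ≤ T := by
      calc (D : ℝ) = 1 * (D * 1) := by ring
        _ ≤ C * (D * K) := by
            refine mul_le_mul (by linarith) (mul_le_mul_of_nonneg_left hK1 (by positivity))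
              (by positivity) (by linarith)
        _ = C * D * K := by ring
        _ ≤ T := hT'
    exact_mod_cast this
  have hNT : 4 * (D * K') ≤ T := by
    have h2 : (4 : ℝ) * (D * (K0 * K)) ≤ T := by
      calc (4 : ℝ) * (D * (K0 * K)) = (4 * K0) * (D * K) := by ring
        _ ≤ C * (D * K) := mul_le_mul_of_nonneg_right hC4K (by positivity)
        _ = C * D * K := by ring
        _ ≤ T := hT'
    rw [hK']
    exact_mod_cast h2
  have n1 : (ρ ^ (T / 2))⁻¹ * M ≤ S * Real.exp (-((K : ℝ) * T)) * (c₁ ^ T * m ^ T) := by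
    have h1 : (ρ ^ (T / 2))⁻¹ = Real.exp (-(((T / 2 : ℕ) : ℝ) * (lq * (K' + 1 / 2)))) := by
      rw [hρe, ← Real.exp_nat_mul, ← Real.exp_neg]
    have h2 : (c₁ * m ^ 4) ^ (D * K') ≤ c₁ ^ T * m ^ T := by
      rw [mul_pow, ← pow_mul]
      refine mul_le_mul (pow_le_pow_right₀ hc₁ (by omega)) (pow_le_pow_right₀ hm hNT)
        (by positivity) (by positivity)
    have h3 : Real.exp (-(((T / 2 : ℕ) : ℝ) * (lq * (K' + 1 / 2)))) *
        Real.exp (C₁ * D * ((K' : ℝ) + 1) ^ 2) ≤ Real.exp (-((K : ℝ) * T)) := by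
      rw [← Real.exp_add]
      apply Real.exp_le_exp.2
      have h4 : ((T : ℝ) - 1) / 2 * (8 * K) ≤ ((T / 2 : ℕ) : ℝ) * (lq * (K' + 1 / 2)) := by
        refine mul_le_mul hhalf ?_ (by positivity) (by positivity)
        rw [mul_add]
        linarith
      have h5 : C₁ * (D : ℝ) * ((K' : ℝ) + 1) ^ 2 ≤ T * K := by
        have hK'r1 : (1 : ℝ) ≤ K' := by exact_mod_cast hK'1
        have h6 : ((K' : ℝ) + 1) ^ 2 ≤ 4 * (K0 ^ 2 * K ^ 2) := by
          rw [← mul_pow, ← hK'r]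
          calc ((K' : ℝ) + 1) ^ 2 ≤ (2 * K') ^ 2 :=
                pow_le_pow_left₀ (by positivity) (by linarith) 2
            _ = 4 * (K' : ℝ) ^ 2 := by ring
        calc C₁ * (D : ℝ) * ((K' : ℝ) + 1) ^ 2 ≤ C₁ * D * (4 * (K0 ^ 2 * K ^ 2)) :=
              mul_le_mul_of_nonneg_left h6 (by positivity)
          _ = (4 * C₁ * K0 ^ 2) * (D * K ^ 2) := by ring
          _ ≤ C * (D * K ^ 2) := mul_le_mul_of_nonneg_right hC (by positivity)
          _ = (C * D * K) * K := by ring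
          _ ≤ T * K := mul_le_mul_of_nonneg_right hT' (by positivity)
      have h7 : ((T : ℝ) - 1) / 2 * (8 * K) = 4 * (T * K) - 4 * K := by ring
      have h8 : 4 * (K : ℝ) ≤ T * K := mul_le_mul_of_nonneg_right hT4 (by positivity)
      rw [h7] at h4
      have h9 : (K : ℝ) * T = T * K := mul_comm _ _
      rw [h9]
      have h10 : 0 ≤ (T : ℝ) * K := by positivity
      linarith
    calc (ρ ^ (T / 2))⁻¹ * M = S * (Real.exp (-(((T / 2 : ℕ) : ℝ) * (lq * (K' + 1 / 2)))) *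
          Real.exp (C₁ * D * ((K' : ℝ) + 1) ^ 2)) * (c₁ * m ^ 4) ^ (D * K') := by
          rw [h1, hM]
          ring
      _ ≤ S * Real.exp (-((K : ℝ) * T)) * (c₁ ^ T * m ^ T) := by
          refine mul_le_mul (mul_le_mul_of_nonneg_left h3 hS0) h2 (by positivity) (by positivity)
  have n2 : (ρ ^ (T / 2))⁻¹ * (ε' * (3 * ρ) ^ T) + ε' ≤
      η * ((18 * c₀ ^ 3) ^ T * m ^ T) * E ^ (K * T) := by
    have h1 : (ρ ^ (T / 2))⁻¹ ≤ 1 := inv_le_one_of_one_le₀ (one_le_pow₀ (by linarith))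
    have h2 : (ρ ^ (T / 2))⁻¹ * (ε' * (3 * ρ) ^ T) ≤ ε' * (3 * ρ) ^ T := by
      exact mul_le_of_le_one_left (by positivity) h1
    have h3 : ε' ≤ ε' * (3 * ρ) ^ T := le_mul_of_one_le_right hε'0 (one_le_pow₀ (by linarith))
    have h4 : ρ ^ T ≤ E ^ (K * T) := by
      rw [hρe, hE, ← Real.exp_nat_mul, ← Real.exp_nat_mul]
      apply Real.exp_le_exp.2
      push_cast
      have hK'r1 : (1 : ℝ) ≤ K' := by exact_mod_cast hK'1
      have h5 : lq * ((K' : ℝ) + 1 / 2) ≤ L0 * (2 * K') :=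
        mul_le_mul hlq0 (by linarith) (by positivity) hL0.le
      calc (T : ℝ) * (lq * (K' + 1 / 2)) ≤ T * (L0 * (2 * K')) :=
            mul_le_mul_of_nonneg_left h5 (by positivity)
        _ = (K : ℝ) * T * (2 * L0 * K0) := by rw [hK'r]; ring
    have h6 : (6 : ℝ) ≤ 6 ^ T := by
      calc (6 : ℝ) = 6 ^ 1 := by norm_num
        _ ≤ 6 ^ T := pow_le_pow_right₀ (by norm_num) hTpos
    have h7 : c₀ ^ (3 * D) ≤ (c₀ ^ 3) ^ T := by
      rw [← pow_mul]
      exact pow_le_pow_right₀ hc₀ (by omega)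
    calc (ρ ^ (T / 2))⁻¹ * (ε' * (3 * ρ) ^ T) + ε' ≤ 2 * (ε' * (3 * ρ) ^ T) := by linarith
      _ = η * (6 * c₀ ^ (3 * D) * 3 ^ T * m ^ T) * ρ ^ T := by
          rw [hε', mul_pow]
          ring
      _ ≤ η * (6 ^ T * (c₀ ^ 3) ^ T * 3 ^ T * m ^ T) * E ^ (K * T) := by
          refine mul_le_mul (mul_le_mul_of_nonneg_left ?_ hη) h4 (by positivity) (by positivity)
          refine mul_le_mul_of_nonneg_right ?_ (by positivity)
          refine mul_le_mul_of_nonneg_right ?_ (by positivity)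
          exact mul_le_mul h6 h7 (by positivity) (by positivity)
      _ = η * ((18 * c₀ ^ 3) ^ T * m ^ T) * E ^ (K * T) := by
          have : (18 : ℝ) * c₀ ^ 3 = 6 * c₀ ^ 3 * 3 := by ring
          rw [this, mul_pow, mul_pow]
  have hc3D : c₀ ^ (3 * D) ≤ (c₀ ^ 3) ^ T := by
    rw [← pow_mul]
    exact pow_le_pow_right₀ hc₀ (by omega)
  have hAc : (2 * c₀ ^ 3 * c₁) ^ T ≤ c ^ T := pow_le_pow_left₀ hA0 (by linarith) T
  have hA'c : (36 * c₀ ^ 6) ^ T ≤ c ^ T := pow_le_pow_left₀ (by positivity) hc36 T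
  have hc0 : 0 < c := by linarith
  have hmC : m ^ (2 * T) ≤ (m ^ C) ^ T := by
    rw [← pow_mul]
    exact pow_le_pow_right₀ hm (Nat.mul_le_mul_right T hC2)
  have hmC1 : 1 ≤ m ^ C := one_le_pow₀ hm
  have hEc : E ^ (K * T) ≤ (c * m ^ C) ^ (K * T) := by
    refine pow_le_pow_left₀ hE0.le ?_ _
    have h2 : E ≤ c := by linarith
    exact h2.trans (le_mul_of_one_le_right hc0.le hmC1)
  have hexp : Real.exp (-((K : ℝ) * T)) ≤ Real.exp (-((K : ℝ) * T / C)) := by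
    apply Real.exp_le_exp.2
    have h2 : (K : ℝ) * T / C ≤ K * T := div_le_self (by positivity) (by linarith)
    linarith
  calc ‖iteratedDeriv T f 0‖ ≤ c₀ ^ (3 * D) * m ^ T *
      (T.factorial * 2 ^ T * (ρ ^ (T / 2))⁻¹ * (M + ε' * (3 * ρ) ^ T) +
        ε' * T.factorial * 2 ^ T) := key
    _ = c₀ ^ (3 * D) * (m ^ T * (T.factorial * 2 ^ T * ((ρ ^ (T / 2))⁻¹ * M +
          ((ρ ^ (T / 2))⁻¹ * (ε' * (3 * ρ) ^ T) + ε')))) := by ring
    _ ≤ (c₀ ^ 3) ^ T * (m ^ T * (T.factorial * 2 ^ T *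
          (S * Real.exp (-((K : ℝ) * T)) * (c₁ ^ T * m ^ T) +
          η * ((18 * c₀ ^ 3) ^ T * m ^ T) * E ^ (K * T)))) := by
        refine mul_le_mul hc3D ?_ (by positivity) (by positivity)
        refine mul_le_mul_of_nonneg_left ?_ (by positivity)
        refine mul_le_mul_of_nonneg_left ?_ (by positivity)
        exact add_le_add n1 n2
    _ = T.factorial * m ^ (2 * T) * ((2 * c₀ ^ 3 * c₁) ^ T * (S * Real.exp (-((K : ℝ) * T))) +
          (36 * c₀ ^ 6) ^ T * (η * E ^ (K * T))) := by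
        have i1 : (36 * c₀ ^ 6) ^ T = 2 ^ T * (c₀ ^ 3) ^ T * (18 * c₀ ^ 3) ^ T := by
          rw [← mul_pow, ← mul_pow]
          congr 1
          ring
        have i2 : (2 * c₀ ^ 3 * c₁) ^ T = 2 ^ T * (c₀ ^ 3) ^ T * c₁ ^ T := by
          rw [← mul_pow, ← mul_pow]
        have i3 : m ^ (2 * T) = m ^ T * m ^ T := by rw [two_mul, pow_add]
        rw [i1, i2, i3]
        ring
    _ ≤ T.factorial * (m ^ C) ^ T * (c ^ T * (S * Real.exp (-((K : ℝ) * T / C))) +
          c ^ T * (η * (c * m ^ C) ^ (K * T))) := by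
        refine mul_le_mul (mul_le_mul_of_nonneg_left hmC hF0.le) ?_ (by positivity)
          (by positivity)
        refine add_le_add ?_ ?_
        · exact mul_le_mul hAc (mul_le_mul_of_nonneg_left hexp hS0) (by positivity)
            (by positivity)
        · exact mul_le_mul hA'c (mul_le_mul_of_nonneg_left hEc hη) (by positivity)
            (by positivity)
    _ = T.factorial * (c * m ^ C) ^ T *
      (S * Real.exp (-((K : ℝ) * T / C)) + η * (c * m ^ C) ^ (K * T)) := by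
        rw [mul_pow c (m ^ C) T]
        ring

end Pool.Agent.Lib.MP5e
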