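import Pool.Agent.Lib.MP_5e64e7_nt.UBdsB

set_option autoImplicit false

noncomputable section

namespace Pool.Agent.Lib.MP5e

open Polynomial Topology

theorem exists_uPsi {q : ℂ} (hq0 : q ≠ 0) (hq1 : ‖q‖ < 1) (ε μ : ℂ) (D K : ℕ) (a : ℕ → ℕ → ℂ) :
    ∃ Ψ : ℂ → ℂ, DifferentiableOn ℂ Ψ (uann q K) ∧
    ∀ w ∈ uann q K, w ∈ ugood q → Ψ w = uh q K w ^ (3 * D) * uFW q ε μ D a w := by
  obtain ⟨HF, HG, hF, hG, hFG⟩ := exists_uHF hq0 hq1 K
  have hh1 : DifferentiableOn ℂ (uh q K) (uann q K) := fun w hw =>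
    (uh_differentiableAt q K (uann_ne_zero hw)).differentiableWithinAt
  refine ⟨fun w => ∑ i ∈ Finset.range (D + 1), ∑ j ∈ Finset.range (D + 1), a i j *
    ((HF w + uh q K w ^ 2 * ε) / μ ^ 2) ^ i *
      (HG w / μ) ^ j * uh q K w ^ (3 * D - 2 * i - j), ?_, ?_⟩
  · refine DifferentiableOn.fun_sum fun i _ => DifferentiableOn.fun_sum fun j _ => ?_
    exact (((((hF.add ((hh1.pow 2).mul_const _)).div_const _).pow i).const_mul _).mul
      ((hG.div_const _).pow j)).mul (hh1.pow _)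
  · intro w hw hg
    obtain ⟨h1, h2⟩ := hFG w hw hg
    simp only [uFW, Finset.mul_sum]
    refine Finset.sum_congr rfl fun i hi => Finset.sum_congr rfl fun j hj => ?_
    rw [Finset.mem_range] at hi hj
    have h3 : (HF w + uh q K w ^ 2 * ε) / μ ^ 2 =
        uh q K w ^ 2 * ((uf q w + ε) / μ ^ 2) := by
      rw [h1]; ring
    have h4 : HG w / μ = uh q K w * (ug q w / μ) := by
      rw [h2]; ring
    rw [h3, h4, mul_pow, mul_pow]
    have h5 : uh q K w ^ (3 * D) = (uh q K w ^ 2) ^ i * uh q K w ^ j *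
        uh q K w ^ (3 * D - 2 * i - j) := by
      rw [← pow_mul, ← pow_add, ← pow_add]
      congr 1
      omega
    rw [h5]
    ring

theorem one_le_uc0 {r : ℝ} (h0 : 0 ≤ r) : 1 ≤ uc0 r := by
  unfold uc0
  have h1 : 1 ≤ Real.exp (4 * r / (1 - r) ^ 2) := Real.one_le_exp (by positivity)
  linarith

theorem uh_near_ex (r1 : ℝ) (h0 : 0 < r1) (h1 : r1 < 1) : ∃ c : ℝ, 1 ≤ c ∧
    ∀ q : ℂ, ‖q‖ ≤ r1 → ∀ K : ℕ,
      (∀ w : ℂ, ‖w + 1‖ ≤ 1 / 2 → ‖uh q K w‖ ≤ c) ∧ c⁻¹ ≤ ‖uh q K (-1)‖ :=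
  ⟨uc0 r1, one_le_uc0 h0.le, fun _ hq K =>
    ⟨fun w hw => uh_near hq h1 K w hw, uh_neg_one hq h1 K⟩⟩

theorem ubound_circ (r0 r1 : ℝ) (h0 : 0 < r0) (h1 : r1 < 1) : ∃ (c C : ℝ), 1 ≤ c ∧ 1 ≤ C ∧
    ∀ q : ℂ, r0 ≤ ‖q‖ → ‖q‖ ≤ r1 →
    ∀ (ε μ : ℂ) (m : ℝ), 1 ≤ m → ‖ε‖ ≤ m → m⁻¹ ≤ ‖μ‖ →
    ∀ (D K : ℕ) (a : ℕ → ℕ → ℂ) (S : ℝ) (w : ℂ), 1 ≤ D → 1 ≤ K →
    (∑ i ∈ Finset.range (D + 1), ∑ j ∈ Finset.range (D + 1), ‖a i j‖) ≤ S →
    (‖w‖ = urho q K ∨ ‖w‖ = (urho q K)⁻¹) →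
    ‖uh q K w ^ (3 * D) * uFW q ε μ D a w‖ ≤
      S * Real.exp (C * D * ((K : ℝ) + 1) ^ 2) * (c * m ^ 4) ^ (D * K) := by
  by_cases h01 : r1 < r0
  · refine ⟨1, 1, le_refl _, le_refl _, fun q hq0 hq1 => ?_⟩
    exact absurd (hq0.trans hq1) (not_le.2 h01)
  have hr1 : 0 ≤ r1 := h0.le.trans (not_lt.1 h01)
  set c0 : ℝ := uc2 r1 + 1 with hc0
  have hc02 : 2 ≤ c0 := by
    have := one_le_uc2 hr1 h1
    linarith
  refine ⟨(c0 + 1) * (2 * c0), 3 * (2 - Real.log r0), by nlinarith, ?_, ?_⟩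
  · have := Real.log_nonpos h0.le (le_trans (not_lt.1 h01) h1.le)
    linarith
  intro q hq0' hq1' ε μ m hm hε hμ D K a S w hD hK hS hw
  have hq : 0 < ‖q‖ := lt_of_lt_of_le h0 hq0'
  have hq0 : q ≠ 0 := norm_pos_iff.1 hq
  have hq1 : ‖q‖ < 1 := lt_of_le_of_lt hq1' h1
  have hm0 : 0 < m := by linarith
  have hμ0 : 0 < ‖μ‖ := lt_of_lt_of_le (inv_pos.2 hm0) hμ
  have hμi : ‖μ‖⁻¹ ≤ m := by
    rw [inv_le_comm₀ hμ0 hm0]
    exact hμ
  obtain ⟨hf, hg⟩ := ufg_circ hq0 hq1' h1 K w hw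
  have hx : ‖(uf q w + ε) / μ ^ 2‖ ≤ (c0 + 1) * m ^ 3 := by
    rw [div_eq_mul_inv, norm_mul, norm_inv, norm_pow, ← inv_pow]
    have h2 : ‖uf q w + ε‖ ≤ (c0 + 1) * m := by
      refine (norm_add_le _ _).trans ?_
      nlinarith
    calc ‖uf q w + ε‖ * ‖μ‖⁻¹ ^ 2 ≤ ((c0 + 1) * m) * m ^ 2 :=
          mul_le_mul h2 (pow_le_pow_left₀ (inv_nonneg.2 hμ0.le) hμi 2) (by positivity)
            (by positivity)
      _ = (c0 + 1) * m ^ 3 := by ring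
  have hK1 : (K : ℝ) + 1 ≤ 2 ^ K := by
    have h2 : K + 1 ≤ 2 ^ K := Nat.lt_two_pow_self
    exact_mod_cast h2
  have hgm : ‖ug q w / μ‖ ≤ 2 ^ K * c0 * m := by
    rw [div_eq_mul_inv, norm_mul, norm_inv]
    have h2 : ‖ug q w‖ ≤ 2 ^ K * c0 := by
      refine hg.trans ?_
      have hK0 : (0 : ℝ) ≤ K := Nat.cast_nonneg K
      have : (K : ℝ) + 1 + uc2 r1 = K + c0 := by rw [hc0]; ring
      rw [this]
      nlinarith
    exact mul_le_mul h2 hμi (inv_nonneg.2 hμ0.le) (by positivity)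
  have h2K : (1 : ℝ) ≤ 2 ^ K := one_le_pow₀ (by norm_num)
  have hx1 : (1 : ℝ) ≤ (c0 + 1) * m ^ 3 := by
    have : (1 : ℝ) ≤ m ^ 3 := one_le_pow₀ hm
    nlinarith
  have hg1 : (1 : ℝ) ≤ 2 ^ K * c0 * m := by
    have : (1 : ℝ) ≤ 2 ^ K * c0 := by nlinarith
    nlinarith
  have hS0 : 0 ≤ S := le_trans (Finset.sum_nonneg fun _ _ => Finset.sum_nonneg fun _ _ =>
    norm_nonneg _) hS
  have hFW : ‖uFW q ε μ D a w‖ ≤ S * (((c0 + 1) * m ^ 3) ^ D * (2 ^ K * c0 * m) ^ D) := by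
    unfold uFW
    calc ‖∑ i ∈ Finset.range (D + 1), ∑ j ∈ Finset.range (D + 1),
          a i j * ((uf q w + ε) / μ ^ 2) ^ i * (ug q w / μ) ^ j‖
        ≤ ∑ i ∈ Finset.range (D + 1), ∑ j ∈ Finset.range (D + 1),
          ‖a i j‖ * (((c0 + 1) * m ^ 3) ^ D * (2 ^ K * c0 * m) ^ D) := by
          refine (norm_sum_le _ _).trans (Finset.sum_le_sum fun i hi => ?_)
          refine (norm_sum_le _ _).trans (Finset.sum_le_sum fun j hj => ?_)
          rw [Finset.mem_range] at hi hj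
          rw [norm_mul, norm_mul, norm_pow, norm_pow, mul_assoc]
          refine mul_le_mul_of_nonneg_left ?_ (norm_nonneg _)
          refine mul_le_mul ?_ ?_ (by positivity) (by positivity)
          · exact (pow_le_pow_left₀ (norm_nonneg _) hx i).trans
              (pow_le_pow_right₀ hx1 (by omega))
          · exact (pow_le_pow_left₀ (norm_nonneg _) hgm j).trans
              (pow_le_pow_right₀ hg1 (by omega))
      _ = (∑ i ∈ Finset.range (D + 1), ∑ j ∈ Finset.range (D + 1), ‖a i j‖) *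
          (((c0 + 1) * m ^ 3) ^ D * (2 ^ K * c0 * m) ^ D) := by
          rw [Finset.sum_mul]
          refine Finset.sum_congr rfl fun i _ => ?_
          rw [Finset.sum_mul]
      _ ≤ S * (((c0 + 1) * m ^ 3) ^ D * (2 ^ K * c0 * m) ^ D) :=
          mul_le_mul_of_nonneg_right hS (by positivity)
  have hhb : ‖uh q K w ^ (3 * D)‖ ≤
      Real.exp (3 * (2 - Real.log r0) * D * ((K : ℝ) + 1) ^ 2) := by
    rw [norm_pow]
    calc ‖uh q K w‖ ^ (3 * D) ≤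
          Real.exp ((2 - Real.log ‖q‖) * ((K : ℝ) + 1) ^ 2) ^ (3 * D) :=
          pow_le_pow_left₀ (norm_nonneg _) (uh_circ hq0 hq1 K w hw) _
      _ ≤ Real.exp ((2 - Real.log r0) * ((K : ℝ) + 1) ^ 2) ^ (3 * D) := by
          refine pow_le_pow_left₀ (Real.exp_pos _).le (Real.exp_le_exp.2 ?_) _
          refine mul_le_mul_of_nonneg_right ?_ (by positivity)
          have := Real.log_le_log h0 hq0'
          linarith
      _ = Real.exp (3 * (2 - Real.log r0) * D * ((K : ℝ) + 1) ^ 2) := by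
          rw [← Real.exp_nat_mul]
          congr 1
          push_cast
          ring
  have hfin : ((c0 + 1) * m ^ 3) ^ D * (2 ^ K * c0 * m) ^ D ≤
      ((c0 + 1) * (2 * c0) * m ^ 4) ^ (D * K) := by
    have e0 : (1 : ℝ) ≤ (c0 + 1) * c0 * m ^ 4 := by
      have h2 : (1 : ℝ) ≤ m ^ 4 := one_le_pow₀ hm
      have h3 : (1 : ℝ) ≤ (c0 + 1) * c0 := by nlinarith
      exact one_le_mul_of_one_le_of_one_le h3 h2
    calc ((c0 + 1) * m ^ 3) ^ D * (2 ^ K * c0 * m) ^ D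
        = 2 ^ (D * K) * ((c0 + 1) * c0 * m ^ 4) ^ D := by
          rw [mul_comm D K, pow_mul, ← mul_pow, ← mul_pow]
          congr 1
          ring
      _ ≤ 2 ^ (D * K) * ((c0 + 1) * c0 * m ^ 4) ^ (D * K) :=
          mul_le_mul_of_nonneg_left
            (pow_le_pow_right₀ e0 (Nat.le_mul_of_pos_right D hK)) (by positivity)
      _ = ((c0 + 1) * (2 * c0) * m ^ 4) ^ (D * K) := by
          rw [← mul_pow]
          congr 1
          ring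
  rw [norm_mul]
  calc ‖uh q K w ^ (3 * D)‖ * ‖uFW q ε μ D a w‖
      ≤ Real.exp (3 * (2 - Real.log r0) * D * ((K : ℝ) + 1) ^ 2) *
        (S * (((c0 + 1) * m ^ 3) ^ D * (2 ^ K * c0 * m) ^ D)) :=
        mul_le_mul hhb hFW (norm_nonneg _) (Real.exp_pos _).le
    _ ≤ Real.exp (3 * (2 - Real.log r0) * D * ((K : ℝ) + 1) ^ 2) *
        (S * ((c0 + 1) * (2 * c0) * m ^ 4) ^ (D * K)) :=
        mul_le_mul_of_nonneg_left (mul_le_mul_of_nonneg_left hfin hS0) (Real.exp_pos _).le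
    _ = S * Real.exp (3 * (2 - Real.log r0) * D * ((K : ℝ) + 1) ^ 2) *
        ((c0 + 1) * (2 * c0) * m ^ 4) ^ (D * K) := by ring

end Pool.Agent.Lib.MP5e
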