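import Pool.Agent.Lib.MP_5e64e7_nt.UDefs

set_option autoImplicit false

noncomputable section

namespace Pool.Agent.Lib.MP5e

open Polynomial Topology

theorem isOpen_uann (q : ℂ) (K : ℕ) : IsOpen (uann q K) :=
  (isOpen_lt continuous_const continuous_norm).inter (isOpen_lt continuous_norm continuous_const)

private theorem norm_uq (q : ℂ) (k : ℤ) : ‖q ^ k‖ = ‖q‖ ^ k := norm_zpow _ _

private theorem uq_pos {q : ℂ} (hq0 : q ≠ 0) : 0 < ‖q‖ := norm_pos_iff.2 hq0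

private theorem ugood_eq {q : ℂ} (hq0 : q ≠ 0) (hq1 : ‖q‖ < 1) : ugood q = ⋃ K : ℕ, uann q K ∩
    ⋂ k ∈ Finset.Icc (-(K + 1 : ℤ)) (K + 1), {w : ℂ | w ≠ q ^ k} := by
  have hr := uq_pos hq0
  ext w
  simp only [Set.mem_iUnion, Set.mem_inter_iff, Set.mem_iInter, Set.mem_ofPred_eq]
  constructor
  · rintro ⟨h0, h1⟩
    have hw : 0 < ‖w‖ := norm_pos_iff.2 h0
    obtain ⟨n, hn⟩ := exists_pow_lt_of_lt_one (lt_min hw (inv_pos.2 hw)) hq1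
    have hn2 : ‖q‖ ^ (n + 1) < min ‖w‖ (‖w‖)⁻¹ := by
      refine lt_of_le_of_lt ?_ hn
      exact pow_le_pow_of_le_one hr.le hq1.le (Nat.le_succ n)
    refine ⟨n, ⟨hn2.trans_le (min_le_left _ _), ?_⟩, fun k _ => h1 k⟩
    have h3 := hn2.trans_le (min_le_right _ _)
    have h4 := inv_strictAnti₀ (pow_pos hr _) h3
    rwa [inv_inv] at h4
  · rintro ⟨K, ⟨h1, h2⟩, h3⟩
    have hw : 0 < ‖w‖ := lt_trans (pow_pos hr _) h1
    refine ⟨norm_pos_iff.1 hw, fun k hk => ?_⟩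
    have hnorm : ‖w‖ = ‖q‖ ^ k := by rw [hk, norm_uq]
    by_cases hk1 : (K + 1 : ℤ) < k
    · have h4 : ‖q‖ ^ k ≤ ‖q‖ ^ ((K + 1 : ℕ) : ℤ) :=
        zpow_le_zpow_right_of_le_one₀ hr hq1.le (by push_cast; omega)
      rw [zpow_natCast] at h4
      linarith
    · by_cases hk2 : k < -(K + 1 : ℤ)
      · have h4 : ‖q‖ ^ (-((K + 1 : ℕ) : ℤ)) ≤ ‖q‖ ^ k :=
          zpow_le_zpow_right_of_le_one₀ hr hq1.le (by push_cast; omega)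
        rw [zpow_neg, zpow_natCast] at h4
        linarith
      · exact h3 k (Finset.mem_Icc.2 ⟨by omega, by omega⟩) hk

theorem isOpen_ugood {q : ℂ} (hq0 : q ≠ 0) (hq1 : ‖q‖ < 1) : IsOpen (ugood q) := by
  rw [ugood_eq hq0 hq1]
  refine isOpen_iUnion fun K => (isOpen_uann q K).inter ?_
  exact isOpen_biInter_finset fun k _ => isOpen_ne

theorem neg_one_mem_ugood {q : ℂ} (hq0 : q ≠ 0) (hq1 : ‖q‖ < 1) : (-1 : ℂ) ∈ ugood q := by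
  have hr := uq_pos hq0
  refine ⟨by norm_num, fun k hk => ?_⟩
  have h1 : ‖q‖ ^ k = 1 := by
    rw [← norm_uq, ← hk, norm_neg, norm_one]
  have h2 : k = 0 := by
    by_contra hk0
    rcases lt_or_gt_of_ne hk0 with h | h
    · have := one_lt_zpow_of_neg₀ hr hq1 h
      linarith
    · have := zpow_lt_one₀ hr hq1 h
      linarith
  rw [h2, zpow_zero] at hk
  norm_num at hk

theorem ugood_q {q w : ℂ} (hq0 : q ≠ 0) (hw : w ∈ ugood q) : q * w ∈ ugood q := by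
  refine ⟨mul_ne_zero hq0 hw.1, fun k hk => ?_⟩
  apply hw.2 (k - 1)
  rw [zpow_sub₀ hq0, zpow_one, eq_div_iff hq0, mul_comm]
  exact hk

theorem ugood_inv {q w : ℂ} (hw : w ∈ ugood q) : w⁻¹ ∈ ugood q := by
  refine ⟨inv_ne_zero hw.1, fun k hk => ?_⟩
  apply hw.2 (-k)
  rw [zpow_neg, ← hk, inv_inv]

/-- crude bound for the terms of the series -/
theorem uterm_bound {q : ℂ} (hq0 : q ≠ 0) (hq1 : ‖q‖ < 1) (K : ℕ) {w : ℂ} (hw : w ∈ uann q K)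
    (k : ℕ) (hk : K < k + 1) :
    ‖w * q ^ (k + 1)‖ < 1 ∧ ‖w⁻¹ * q ^ (k + 1)‖ < 1 := by
  have hr := uq_pos hq0
  obtain ⟨h1, h2⟩ := hw
  have hw0 : 0 < ‖w‖ := lt_trans (pow_pos hr _) h1
  have h3 : ‖q‖ ^ (k + 1) ≤ ‖q‖ ^ (K + 1) :=
    pow_le_pow_of_le_one hr.le hq1.le (by omega)
  have h4 : 0 < ‖q‖ ^ (K + 1) := pow_pos hr _
  have h5 : ‖q ^ (k + 1)‖ = ‖q‖ ^ (k + 1) := norm_pow _ _
  constructor
  · rw [norm_mul, h5]
    calc ‖w‖ * ‖q‖ ^ (k + 1) ≤ ‖w‖ * ‖q‖ ^ (K + 1) := mul_le_mul_of_nonneg_left h3 hw0.le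
      _ < (‖q‖ ^ (K + 1))⁻¹ * ‖q‖ ^ (K + 1) := mul_lt_mul_of_pos_right h2 h4
      _ = 1 := inv_mul_cancel₀ h4.ne'
  · rw [norm_mul, h5, norm_inv]
    calc ‖w‖⁻¹ * ‖q‖ ^ (k + 1) ≤ ‖w‖⁻¹ * ‖q‖ ^ (K + 1) :=
          mul_le_mul_of_nonneg_left h3 (inv_pos.2 hw0).le
      _ < ‖w‖⁻¹ * ‖w‖ := mul_lt_mul_of_pos_left h1 (inv_pos.2 hw0)
      _ = 1 := inv_mul_cancel₀ hw0.ne'

theorem ugood_one_sub {q w : ℂ} (hw : w ∈ ugood q) (k : ℕ) : 1 - w * q ^ k ≠ 0 := by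
  intro h
  apply hw.2 (-(k : ℤ))
  rw [zpow_neg, zpow_natCast]
  exact eq_inv_of_mul_eq_one_left (sub_eq_zero.1 h).symm

theorem norm_uq_pow (q : ℂ) (k : ℕ) : ‖q ^ k‖ = ‖q‖ ^ k := norm_pow _ _

private theorem ugood_unif_fin {q w₀ : ℂ} (hw : w₀ ∈ ugood q) (n : ℕ) :
    ∃ c : ℝ, 0 < c ∧ ∀ᶠ w in 𝓝 w₀, ∀ k < n, c ≤ ‖1 - w * q ^ k‖ := by
  induction n with
  | zero => exact ⟨1, one_pos, Filter.Eventually.of_forall fun w k hk => absurd hk (Nat.not_lt_zero k)⟩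
  | succ n ih =>
    obtain ⟨c, hc, h⟩ := ih
    have h1 : 0 < ‖1 - w₀ * q ^ n‖ := norm_pos_iff.2 (ugood_one_sub hw n)
    have h2 : ContinuousAt (fun w : ℂ => ‖1 - w * q ^ n‖) w₀ := by fun_prop
    have h3 : ∀ᶠ w in 𝓝 w₀, ‖1 - w₀ * q ^ n‖ / 2 < ‖1 - w * q ^ n‖ :=
      h2.eventually_const_lt (by linarith)
    refine ⟨min c (‖1 - w₀ * q ^ n‖ / 2), lt_min hc (by linarith), ?_⟩
    filter_upwards [h, h3] with w hw1 hw2 k hk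
    rcases Nat.lt_succ_iff_lt_or_eq.1 hk with hk' | rfl
    · exact (min_le_left _ _).trans (hw1 k hk')
    · exact (min_le_right _ _).trans hw2.le

private theorem ugood_unif_aux {q w₀ : ℂ} (hq0 : q ≠ 0) (hq1 : ‖q‖ < 1) (hw : w₀ ∈ ugood q) :
    ∃ c : ℝ, 0 < c ∧ ∀ᶠ w in 𝓝 w₀, ∀ k : ℕ, c ≤ ‖1 - w * q ^ k‖ := by
  have hr := uq_pos hq0
  obtain ⟨n, hn⟩ := exists_pow_lt_of_lt_one
    (show (0 : ℝ) < 1 / (2 * (‖w₀‖ + 1)) by positivity) hq1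
  obtain ⟨c, hc, h⟩ := ugood_unif_fin hw n
  have h1 : ∀ᶠ w in 𝓝 w₀, ‖w‖ < ‖w₀‖ + 1 :=
    (continuous_norm.continuousAt).eventually_lt_const (by linarith)
  refine ⟨min c (1 / 2), lt_min hc (by norm_num), ?_⟩
  filter_upwards [h, h1] with w hw1 hw2 k
  by_cases hk : k < n
  · exact (min_le_left _ _).trans (hw1 k hk)
  · refine (min_le_right _ _).trans ?_
    have h2 : ‖q‖ ^ k ≤ 1 / (2 * (‖w₀‖ + 1)) :=
      (pow_le_pow_of_le_one hr.le hq1.le (not_lt.1 hk)).trans hn.le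
    have h3 : ‖w * q ^ k‖ ≤ 1 / 2 := by
      rw [norm_mul, norm_uq_pow]
      calc ‖w‖ * ‖q‖ ^ k ≤ (‖w₀‖ + 1) * (1 / (2 * (‖w₀‖ + 1))) :=
            mul_le_mul hw2.le h2 (pow_nonneg hr.le _) (by positivity)
        _ = 1 / 2 := by field_simp
    have h4 : ‖(1 : ℂ)‖ - ‖w * q ^ k‖ ≤ ‖1 - w * q ^ k‖ := norm_sub_norm_le _ _
    rw [norm_one] at h4
    linarith

/-- uniform bounds near a good point -/
theorem ugood_unif {q w₀ : ℂ} (hq0 : q ≠ 0) (hq1 : ‖q‖ < 1) (hw : w₀ ∈ ugood q) :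
    ∃ c M : ℝ, 0 < c ∧ 0 < M ∧ ∀ᶠ w in 𝓝 w₀, w ∈ ugood q ∧ ‖w‖ ≤ M ∧ ‖w⁻¹‖ ≤ M ∧
      (∀ k : ℕ, c ≤ ‖1 - w * q ^ k‖) ∧ ∀ k : ℕ, c ≤ ‖1 - w⁻¹ * q ^ k‖ := by
  obtain ⟨c₁, hc₁, h1⟩ := ugood_unif_aux hq0 hq1 hw
  obtain ⟨c₂, hc₂, h2⟩ := ugood_unif_aux hq0 hq1 (ugood_inv hw)
  have hinv : Filter.Tendsto (fun w : ℂ => w⁻¹) (𝓝 w₀) (𝓝 w₀⁻¹) := tendsto_inv₀ hw.1
  have h3 := hinv.eventually h2
  have h4 : ∀ᶠ w in 𝓝 w₀, ‖w‖ < ‖w₀‖ + 1 :=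
    (continuous_norm.continuousAt).eventually_lt_const (by linarith)
  have h5 : ∀ᶠ w in 𝓝 w₀, ‖w⁻¹‖ < ‖w₀⁻¹‖ + 1 :=
    (hinv.norm).eventually_lt_const (by linarith)
  have h6 : ∀ᶠ w in 𝓝 w₀, w ∈ ugood q := (isOpen_ugood hq0 hq1).mem_nhds hw
  refine ⟨min c₁ c₂, max (‖w₀‖ + 1) (‖w₀⁻¹‖ + 1), lt_min hc₁ hc₂,
    lt_max_of_lt_left (by positivity), ?_⟩
  filter_upwards [h1, h3, h4, h5, h6] with w a1 a2 a3 a4 a5
  exact ⟨a5, a3.le.trans (le_max_left _ _), a4.le.trans (le_max_right _ _),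
    fun k => (min_le_left _ _).trans (a1 k), fun k => (min_le_right _ _).trans (a2 k)⟩

theorem summable_uq {q : ℂ} (hq1 : ‖q‖ < 1) : Summable fun k : ℕ => ‖q‖ ^ (k + 1) := by
  have := (summable_geometric_of_lt_one (norm_nonneg q) hq1).mul_left ‖q‖
  refine this.congr fun k => ?_
  rw [pow_succ']

/-- the terms of `uf` are summable -/
theorem summable_usq {q w : ℂ} (hq0 : q ≠ 0) (hq1 : ‖q‖ < 1) (hw : w ∈ ugood q) :
    Summable fun k : ℕ => w * q ^ (k + 1) / (1 - w * q ^ (k + 1)) ^ 2 := by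
  have hr := uq_pos hq0
  obtain ⟨c, M, hc, hM, h⟩ := ugood_unif hq0 hq1 hw
  obtain ⟨-, h1, -, h2, -⟩ := h.self_of_nhds
  refine Summable.of_norm_bounded (((summable_uq hq1).mul_left M).div_const (c ^ 2)) fun k => ?_
  rw [norm_div, norm_mul, norm_uq_pow, norm_pow]
  exact div_le_div₀ (by have := pow_pos hr (k + 1); positivity)
    (mul_le_mul_of_nonneg_right h1 (pow_nonneg hr.le _)) (by positivity)
    (pow_le_pow_left₀ hc.le (h2 (k + 1)) 2)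

/-- the terms of `ug` are summable -/
theorem summable_uone {q w : ℂ} (hq0 : q ≠ 0) (hq1 : ‖q‖ < 1) (hw : w ∈ ugood q) :
    Summable fun k : ℕ => w * q ^ (k + 1) / (1 - w * q ^ (k + 1)) := by
  have hr := uq_pos hq0
  obtain ⟨c, M, hc, hM, h⟩ := ugood_unif hq0 hq1 hw
  obtain ⟨-, h1, -, h2, -⟩ := h.self_of_nhds
  refine Summable.of_norm_bounded (((summable_uq hq1).mul_left M).div_const c) fun k => ?_
  rw [norm_div, norm_mul, norm_uq_pow]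
  exact div_le_div₀ (by have := pow_pos hr (k + 1); positivity)
    (mul_le_mul_of_nonneg_right h1 (pow_nonneg hr.le _)) hc (h2 (k + 1))

end Pool.Agent.Lib.MP5e
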