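import Pool.Agent.Lib.MP_5e64e7_nt.UMain
import Pool.Agent.Lib.MP_5e64e7_nt.GSpl
import Pool.Agent.Lib.MP_5e64e7_nt.GPar
import Pool.Agent.Lib.MP_5e64e7_nt.GDimU
import Pool.Agent.Lib.MP_5e64e7_nt.GDimG
import Pool.Agent.Lib.MP_5e64e7_nt.RMem

set_option autoImplicit false

/-!
# U.FIN : the frozen inequality for all tuples of `ℚ(w, v) ∩ ℍ` (block E, helper16)
-/

noncomputable section

namespace Pool.Agent.Lib.MP5e

open Polynomial Topology

theorem uqgr_rat {D : ℕ} {x y : ℤ} {c : ℕ} (hc : 1 ≤ c) (hy : 0 < y) :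
    ∃ u v : ℚ, 0 < v ∧ qgr D x y c = (u : ℂ) + (v : ℂ) * qom D := by
  refine ⟨(x : ℚ) / (c : ℚ), (y : ℚ) / (c : ℚ), ?_, ?_⟩
  · have h1 : (0 : ℚ) < y := by exact_mod_cast hy
    have h2 : (0 : ℚ) < c := by exact_mod_cast (by omega : 0 < c)
    exact div_pos h1 h2
  · unfold qgr
    push_cast
    ring

private theorem ufi_J4 {n : ℕ} (z : Fin n → ℂ) (K : IntermediateField ℚ ℂ)
    (h : ∀ p, ggr z p ∈ K) (k : Fin n) (i : Fin 4) : J4 (z k) i ∈ K := h (i, k)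

theorem ufin {m M : ℕ} {w : Fin m → ℂ} {v : Fin M → ℂ} (h : UCM w v) {n : ℕ} (z : Fin n → ℂ)
    (hz : ∀ k, z k ∈ UE w v) (him : ∀ k, 0 < (z k).im) (d : ℕ)
    (hd : ((d : WithBot ℕ∞) + ringKrullDim (MvPolynomial (Fin n) ℂ ⧸
        (⨅ w ∈ gU z, RingHom.ker (MvPolynomial.eval w))) ≤
      ringKrullDim (MvPolynomial (Fin 4 × Fin n) (integralClosure ℚ ℂ) ⧸
        (⨅ w ∈ gU z, RingHom.ker (MvPolynomial.aeval (R := integralClosure ℚ ℂ) (ggr w)))))) :
    ∃ x : Fin d → ℂ, AlgebraicIndependent ℚ x ∧ ∀ t, ∃ p : Fin 4 × Fin n, x t = ggr z p := by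
  classical
  obtain ⟨N, κ, φ, hκ1, hκ2, h1, h2, h3⟩ := gpar z him
  obtain ⟨D, hD1, hDq⟩ : ∃ D : ℕ, 1 ≤ D ∧ ∀ k, GQuad (z k) →
      ∃ (c : ℕ) (x y : ℤ), 1 ≤ c ∧ 0 < y ∧ z k = qgr D x y c := by
    obtain ⟨ζ, -, -, -, -, -, h6, -⟩ := uzeta h z hz him
    exact h6
  have hQ : ∀ k, GQuad (z k) → ∃ u v : ℚ, 0 < v ∧ z k = (u : ℂ) + (v : ℂ) * qom D := by
    intro k hk
    obtain ⟨c, x, y, hc, hy, he⟩ := hDq k hk
    rw [he]
    exact uqgr_rat hc hy
  obtain ⟨c, hc1, hc2, hc3⟩ := gspl D hD1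
  have hU := gdimU z κ φ (fun u hu => ⟨(h1 u hu).1, (h1 u hu).2.1⟩) h2 h3
  have hdd : ((d + N : ℕ) : WithBot ℕ∞) ≤ ringKrullDim (MvPolynomial (Fin 4 × Fin n)
      (integralClosure ℚ ℂ) ⧸
        (⨅ w ∈ gU z, RingHom.ker (MvPolynomial.aeval (R := integralClosure ℚ ℂ) (ggr w)))) := by
    refine le_trans ?_ hd
    push_cast
    exact add_le_add_right hU _
  by_cases hgood : ∃ k, GQuad (z k) ∧ ¬ (deriv jf (z k) = 0 ∧ deriv (deriv jf) (z k) = 0)
  · have hG := gdimG (γ := Fin 1) z κ φ (fun u hu => ⟨(h1 u hu).1, (h1 u hu).2.2⟩) h2 h3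
      (fun _ => c) (by
        intro K hK hcK k hk i
        obtain ⟨u, v, hv, huv⟩ := hQ k hk
        rw [huv]
        exact hc1 K hK (hcK 0) u v hv i) (d + N) hdd
    rw [Fintype.card_fin] at hG
    obtain ⟨k, hk1, hk2⟩ := hgood
    obtain ⟨i, hi, hT⟩ : ∃ i : Fin 3, i ≠ 0 ∧ J4 (z k) i.succ ≠ 0 := by
      by_cases h0 : deriv jf (z k) = 0
      · exact ⟨2, by decide, fun h5 => hk2 ⟨h0, h5⟩⟩
      · exact ⟨1, by decide, h0⟩
    have hind := umainT h (fun l => z (κ l)) (fun l => hz _) (fun l => him _) hκ1 hκ2 (z k)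
      (hz k) (him k) hk1 i hi hT
    refine rsub (κ₂ := Fin 0) (fun o : Option (Fin N × Fin 3) =>
      o.elim (J4 (z k) i.succ) (fun p => J4 (z (κ p.1)) p.2.succ)) (ggr z)
      (fun i => Fin.elim0 i) ?_ ?_ d ?_ |>.imp fun x hx => ⟨hx.1, hx.2⟩
    · have h5 := hind.comp (fun o : Option (Fin N × Fin 3) => o.map Sum.inr)
        (Option.map_injective Sum.inr_injective)
      convert h5 using 1
      funext o
      rcases o with _ | p
      · rfl
      · rfl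
    · intro K hK hy _ p
      rcases p with _ | ⟨l, i'⟩
      · exact ufi_J4 z K hy k i.succ
      · exact ufi_J4 z K hy (κ l) i'.succ
    · rw [Fintype.card_option, Fintype.card_prod, Fintype.card_fin, Fintype.card_fin,
        Fintype.card_fin]
      omega
  · have hG := gdimG (γ := Fin 0) z κ φ (fun u hu => ⟨(h1 u hu).1, (h1 u hu).2.2⟩) h2 h3
      (fun i => Fin.elim0 i) (by
        intro K hK _ k hk i
        obtain ⟨u, v, hv, huv⟩ := hQ k hk
        have h0 : deriv jf (z k) = 0 ∧ deriv (deriv jf) (z k) = 0 := by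
          by_contra h0
          exact hgood ⟨k, hk, h0⟩
        obtain ⟨h5, h6⟩ := hc2 K hK u v hv
        rw [← huv] at h5 h6
        fin_cases i
        · exact h6
        · exact h5
        · change deriv jf (z k) ∈ K
          rw [h0.1]
          exact zero_mem K
        · change deriv (deriv jf) (z k) ∈ K
          rw [h0.2]
          exact zero_mem K) (d + N) hdd
    rw [Fintype.card_fin] at hG
    have hind := umain h (fun l => z (κ l)) (fun l => hz _) (fun l => him _) hκ1 hκ2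
    refine rsub (κ₂ := Fin 0) (fun p : Fin N × Fin 3 => J4 (z (κ p.1)) p.2.succ) (ggr z)
      (fun i => Fin.elim0 i) ?_ ?_ d ?_ |>.imp fun x hx => ⟨hx.1, hx.2⟩
    · exact hind.comp (Sum.inr : Fin N × Fin 3 → Fin m ⊕ (Fin N × Fin 3)) Sum.inr_injective
    · rintro K hK hy _ ⟨l, i⟩
      exact ufi_J4 z K hy (κ l) i.succ
    · rw [Fintype.card_prod, Fintype.card_fin, Fintype.card_fin, Fintype.card_fin]
      omega

end Pool.Agent.Lib.MP5e
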