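import Pool.Agent.Lib.MP_5e64e7_nt.UDefs

set_option autoImplicit false

/-!
# U.IMP : a number algebraic over `ℚ(w)` is the value of an algebraic function of `w` (block E)

Elements of `ℚ(w)` are quotients of integer polynomials (`frac_form`). Take `F ∈ ℤ[x][y]`, `F ≠ 0`, `F(w, v) = 0` of
minimal degree in `y`: the degree is positive (`w` is algebraically independent), so `∂F/∂y ≠ 0` has smaller degree and
`∂F/∂y (w, v) ≠ 0`. Implicit function theorem: the map `(x, y) ↦ (x, F(x, y))` of `(Fin m → ℂ) × ℂ` is analytic with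
invertible derivative at `(w, v)`, `ψ x` = second component of its local inverse at `(x, 0)`.
-/

noncomputable section

namespace Pool.Agent.Lib.MP5e

open Polynomial Topology

/-- value of `F ∈ ℤ[x][y]` -/
def uev {m : ℕ} (F : Polynomial (MvPolynomial (Fin m) ℤ)) (x : Fin m → ℂ) (y : ℂ) : ℂ :=
  (F.map (MvPolynomial.aeval (R := ℤ) x).toRingHom).eval y

/-- clearing the denominators of a rational polynomial -/
theorem uclear {σ : Type} (r : MvPolynomial σ ℚ) :
    ∃ (N : ℕ) (R : MvPolynomial σ ℤ), N ≠ 0 ∧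
      ∀ x : σ → ℂ, MvPolynomial.aeval x R = (N : ℂ) * MvPolynomial.aeval x r := by
  induction r using MvPolynomial.induction_on with
  | C a =>
    refine ⟨a.den, MvPolynomial.C a.num, a.den_nz, fun x => ?_⟩
    rw [MvPolynomial.algHom_C, MvPolynomial.algHom_C]
    simp only [algebraMap_int_eq, eq_intCast, eq_ratCast]
    have h := Rat.den_mul_eq_num a
    have h2 : ((a.den : ℚ) : ℂ) * ((a : ℚ) : ℂ) = ((a.num : ℚ) : ℂ) := by
      rw [← Rat.cast_mul, h]
    simpa using h2.symm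
  | add p q hp hq =>
    obtain ⟨N, R, hN, hR⟩ := hp
    obtain ⟨M, S, hM, hS⟩ := hq
    refine ⟨N * M, MvPolynomial.C (M : ℤ) * R + MvPolynomial.C (N : ℤ) * S, mul_ne_zero hN hM,
      fun x => ?_⟩
    rw [map_add, map_mul, map_mul, hR, hS, map_add, MvPolynomial.algHom_C, MvPolynomial.algHom_C]
    simp only [algebraMap_int_eq, eq_intCast, Int.cast_natCast, Nat.cast_mul]
    ring
  | mul_X p i hp =>
    obtain ⟨N, R, hN, hR⟩ := hp
    refine ⟨N, R * MvPolynomial.X i, hN, fun x => ?_⟩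
    rw [map_mul, map_mul, hR, MvPolynomial.aeval_X, MvPolynomial.aeval_X]
    ring

/-- elements of `ℚ(u)` are quotients of integer polynomials -/
theorem frac_form {σ : Type} (u : σ → ℂ) (z : ℂ)
    (hz : z ∈ IntermediateField.adjoin ℚ (Set.range u)) :
    ∃ A B : MvPolynomial σ ℤ, MvPolynomial.aeval u B ≠ (0 : ℂ) ∧
      z = MvPolynomial.aeval u A / MvPolynomial.aeval u B := by
  obtain ⟨r, s, hrs⟩ := (IntermediateField.mem_adjoin_range_iff ℚ u z).1 hz
  by_cases hs : MvPolynomial.aeval u s = (0 : ℂ)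
  · refine ⟨0, 1, by simp, ?_⟩
    rw [hrs, hs]; simp
  · obtain ⟨N, R, hN, hR⟩ := uclear r
    obtain ⟨M, S, hM, hS⟩ := uclear s
    have hN' : (N : ℂ) ≠ 0 := by exact_mod_cast hN
    have hM' : (M : ℂ) ≠ 0 := by exact_mod_cast hM
    refine ⟨MvPolynomial.C (M : ℤ) * R, MvPolynomial.C (N : ℤ) * S, ?_, ?_⟩
    · rw [map_mul, hS, MvPolynomial.algHom_C]
      simp only [algebraMap_int_eq, eq_intCast, Int.cast_natCast]
      exact mul_ne_zero hN' (mul_ne_zero hM' hs)
    · rw [map_mul, map_mul, hS, hR, MvPolynomial.algHom_C, MvPolynomial.algHom_C, hrs]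
      simp only [algebraMap_int_eq, eq_intCast, Int.cast_natCast]
      field_simp

theorem uev_sum {m : ℕ} (F : Polynomial (MvPolynomial (Fin m) ℤ)) (x : Fin m → ℂ) (y : ℂ) :
    uev F x y = ∑ i ∈ Finset.range (F.natDegree + 1), MvPolynomial.aeval x (F.coeff i) * y ^ i := by
  unfold uev
  rw [Polynomial.eval_map, Polynomial.eval₂_eq_sum_range]
  rfl

/-- there is a nonzero `F ∈ ℤ[x][y]` with `F(w, v) = 0` -/
theorem exists_uF {m : ℕ} (w : Fin m → ℂ) (v : ℂ)
    (hv : IsAlgebraic (IntermediateField.adjoin ℚ (Set.range w)) v) :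
    ∃ F : Polynomial (MvPolynomial (Fin m) ℤ), F ≠ 0 ∧ uev F w v = 0 := by
  classical
  obtain ⟨p, hp, hpv⟩ := hv
  have hc : ∀ i : ℕ, ∃ A B : MvPolynomial (Fin m) ℤ, MvPolynomial.aeval w B ≠ (0 : ℂ) ∧
      ((p.coeff i : IntermediateField.adjoin ℚ (Set.range w)) : ℂ) =
        MvPolynomial.aeval w A / MvPolynomial.aeval w B :=
    fun i => frac_form w _ (p.coeff i).2
  choose A B hB hAB using hc
  set n := p.natDegree with hn
  set c : ℕ → MvPolynomial (Fin m) ℤ := fun i =>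
    A i * ∏ j ∈ (Finset.range (n + 1)).erase i, B j with hcdef
  set bb : ℂ := ∏ j ∈ Finset.range (n + 1), MvPolynomial.aeval w (B j) with hbb
  have hbb0 : bb ≠ 0 := Finset.prod_ne_zero_iff.2 fun j _ => hB j
  have hcv : ∀ i ∈ Finset.range (n + 1), MvPolynomial.aeval w (c i) = (p.coeff i : ℂ) * bb := by
    intro i hi
    rw [hcdef, hbb]
    simp only
    rw [map_mul, map_prod, ← Finset.mul_prod_erase _ _ hi, hAB i]
    field_simp [hB i]
  set F : Polynomial (MvPolynomial (Fin m) ℤ) :=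
    ∑ i ∈ Finset.range (n + 1), Polynomial.monomial i (c i) with hF
  have hFc : ∀ i ∈ Finset.range (n + 1), F.coeff i = c i := by
    intro i hi
    rw [hF, Polynomial.finsetSum_coeff]
    simp only [Polynomial.coeff_monomial]
    rw [Finset.sum_ite_eq']
    simp [hi]
  refine ⟨F, ?_, ?_⟩
  · intro h0
    have h1 := hFc n (by simp)
    rw [h0, Polynomial.coeff_zero] at h1
    have h2 := hcv n (by simp)
    rw [← h1, map_zero] at h2
    have h3 : (p.coeff n : ℂ) ≠ 0 := by
      have : p.coeff n ≠ 0 := by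
        rw [hn]; exact Polynomial.leadingCoeff_ne_zero.2 hp
      intro h; exact this (by exact_mod_cast h)
    exact mul_ne_zero h3 hbb0 h2.symm
  · have h1 : uev F w v = ∑ i ∈ Finset.range (n + 1), MvPolynomial.aeval w (c i) * v ^ i := by
      unfold uev
      rw [hF, Polynomial.map_sum, Polynomial.eval_finsetSum]
      refine Finset.sum_congr rfl fun i _ => ?_
      rw [Polynomial.map_monomial, Polynomial.eval_monomial]
      rfl
    rw [h1, Finset.sum_congr rfl (fun i hi => by rw [hcv i hi])]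
    have h2 : (Polynomial.aeval v p : ℂ) =
        ∑ i ∈ Finset.range (n + 1), (p.coeff i : ℂ) * v ^ i := by
      rw [Polynomial.aeval_eq_sum_range, hn]
      refine Finset.sum_congr rfl fun i _ => ?_
      rw [Algebra.smul_def]; rfl
    rw [h2] at hpv
    calc ∑ i ∈ Finset.range (n + 1), (p.coeff i : ℂ) * bb * v ^ i
        = bb * ∑ i ∈ Finset.range (n + 1), (p.coeff i : ℂ) * v ^ i := by
          rw [Finset.mul_sum]
          exact Finset.sum_congr rfl fun i _ => by ring
      _ = 0 := by rw [hpv, mul_zero]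

/-- a nonzero `F ∈ ℤ[x][y]` with `F(w, v) = 0` and `∂F/∂y (w, v) ≠ 0` -/
theorem exists_uF_sep {m : ℕ} (w : Fin m → ℂ) (hw : AlgebraicIndependent ℚ w) (v : ℂ)
    (hv : IsAlgebraic (IntermediateField.adjoin ℚ (Set.range w)) v) :
    ∃ F : Polynomial (MvPolynomial (Fin m) ℤ), F ≠ 0 ∧ uev F w v = 0 ∧
      uev (Polynomial.derivative F) w v ≠ 0 := by
  classical
  have hex : ∃ n : ℕ, ∃ F : Polynomial (MvPolynomial (Fin m) ℤ), F ≠ 0 ∧ uev F w v = 0 ∧
      F.natDegree = n := by
    obtain ⟨F, h1, h2⟩ := exists_uF w v hv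
    exact ⟨_, F, h1, h2, rfl⟩
  obtain ⟨F, hF0, hF, hFn⟩ := Nat.find_spec hex
  have hinj : ∀ a : MvPolynomial (Fin m) ℤ, MvPolynomial.aeval w a = (0 : ℂ) → a = 0 := by
    intro a ha
    have h1 : MvPolynomial.aeval w (MvPolynomial.map (Int.castRingHom ℚ) a) = (0 : ℂ) := by
      rw [← ha, MvPolynomial.aeval_def, MvPolynomial.aeval_def, MvPolynomial.eval₂_map]
      congr 1
    have h2 := (algebraicIndependent_iff.1 hw) _ h1
    exact MvPolynomial.map_injective _ Int.cast_injective (by rw [h2, map_zero])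
  have hdeg : F.natDegree ≠ 0 := by
    intro h0
    rw [Polynomial.eq_C_of_natDegree_eq_zero h0] at hF hF0
    unfold uev at hF
    rw [Polynomial.map_C, Polynomial.eval_C] at hF
    exact hF0 (by rw [hinj _ hF, Polynomial.C_0])
  have hder0 : Polynomial.derivative F ≠ 0 := fun h =>
    hdeg (Polynomial.derivative_eq_zero.1 h)
  refine ⟨F, hF0, hF, fun h => ?_⟩
  have hlt : (Polynomial.derivative F).natDegree < Nat.find hex := by
    rw [← hFn]; exact Polynomial.natDegree_derivative_lt hdeg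
  exact Nat.find_min hex hlt ⟨_, hder0, h, rfl⟩

theorem uimp {m : ℕ} (w : Fin m → ℂ) (hw : AlgebraicIndependent ℚ w) (v : ℂ)
    (hv : IsAlgebraic (IntermediateField.adjoin ℚ (Set.range w)) v) :
    ∃ (F : Polynomial (MvPolynomial (Fin m) ℤ)) (ψ : (Fin m → ℂ) → ℂ) (ε : ℝ), F ≠ 0 ∧
      AnalyticAt ℂ ψ w ∧ ψ w = v ∧ uev F w v = 0 ∧ (∀ᶠ x in 𝓝 w, uev F x (ψ x) = 0) ∧
      0 < ε ∧ ∀ᶠ x in 𝓝 w, ∀ y : ℂ, ‖y - v‖ < ε → uev F x y = 0 → y = ψ x := by
  obtain ⟨F, hF0, hF, hd⟩ := exists_uF_sep w hw v hv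
  set g : (Fin m → ℂ) × ℂ → ℂ := fun z => uev F z.1 z.2 with hg
  have hga : AnalyticAt ℂ g (w, v) := by
    have h1 : g = fun z => ∑ i ∈ Finset.range (F.natDegree + 1),
        MvPolynomial.aeval z.1 (F.coeff i) * z.2 ^ i := by
      funext z; exact uev_sum F z.1 z.2
    rw [h1]
    refine Finset.analyticAt_fun_sum _ fun i _ => ?_
    refine AnalyticAt.mul ?_ (analyticAt_snd.pow i)
    refine AnalyticAt.aeval_mvPolynomial (fun l => ?_) _
    exact ((ContinuousLinearMap.proj (R := ℂ) (φ := fun _ : Fin m => ℂ) l).analyticAt _).comp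
      analyticAt_fst
  set G : (Fin m → ℂ) × ℂ → (Fin m → ℂ) × ℂ := fun z => (z.1, g z) with hG
  have hGa : AnalyticAt ℂ G (w, v) := analyticAt_fst.prod hga
  set g' := fderiv ℂ g (w, v) with hg'
  have hgd : HasFDerivAt g g' (w, v) := hga.differentiableAt.hasFDerivAt
  set d := uev (Polynomial.derivative F) w v with hddef
  have hgd1 : g' (0, 1) = d := by
    have h1 : HasDerivAt (fun y : ℂ => g (w, y)) (g' (0, 1)) v := by
      have h2 : HasDerivAt (fun y : ℂ => ((w, y) : (Fin m → ℂ) × ℂ)) (0, 1) v :=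
        (hasDerivAt_const v w).prodMk (hasDerivAt_id v)
      exact hgd.comp_hasDerivAt v h2
    have h2 : HasDerivAt (fun y : ℂ => g (w, y)) d v := by
      have h3 := Polynomial.hasDerivAt (F.map (MvPolynomial.aeval (R := ℤ) w).toRingHom) v
      rw [Polynomial.derivative_map] at h3
      exact h3
    exact h1.unique h2
  set u : ℂˣ := Units.mk0 d hd with hu
  set i : ((Fin m → ℂ) × ℂ) ≃L[ℂ] (Fin m → ℂ) × ℂ :=
    (ContinuousLinearEquiv.refl ℂ (Fin m → ℂ)).skewProd (ContinuousLinearEquiv.unitsEquivAut ℂ u)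
      (g'.comp (ContinuousLinearMap.inl ℂ (Fin m → ℂ) ℂ)) with hi
  have hGd : fderiv ℂ G (w, v) = (i : ((Fin m → ℂ) × ℂ) →L[ℂ] (Fin m → ℂ) × ℂ) := by
    have h1 : HasFDerivAt G ((ContinuousLinearMap.fst ℂ (Fin m → ℂ) ℂ).prod g') (w, v) :=
      (hasFDerivAt_fst).prodMk hgd
    rw [h1.fderiv]
    refine ContinuousLinearMap.ext fun z => ?_
    rw [ContinuousLinearEquiv.coe_coe, hi, ContinuousLinearEquiv.skewProd_apply]
    have h2 : z = (z.1, 0) + z.2 • ((0 : Fin m → ℂ), (1 : ℂ)) := by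
      ext <;> simp
    refine Prod.ext rfl ?_
    have h3 : g' z = g' (z.1, 0) + z.2 * d := by
      conv_lhs => rw [h2]
      rw [map_add, map_smul, hgd1, smul_eq_mul]
    show g' z = _
    rw [h3, ContinuousLinearEquiv.unitsEquivAut_apply]
    simp only [hu, Units.val_mk0, ContinuousLinearMap.comp_apply, ContinuousLinearMap.inl_apply]
    ring
  have hs : HasStrictFDerivAt G (i : ((Fin m → ℂ) × ℂ) →L[ℂ] (Fin m → ℂ) × ℂ) (w, v) := by
    rw [← hGd]; exact hGa.hasStrictFDerivAt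
  have hGw : G (w, v) = (w, 0) := by
    rw [hG]; simp only; rw [Prod.mk.injEq]; exact ⟨rfl, hF⟩
  set e := hs.toOpenPartialHomeomorph G with he
  have hes : AnalyticAt ℂ e.symm (w, 0) := by
    rw [← hGw]
    exact e.analyticAt_symm' hs.mem_toOpenPartialHomeomorph_source hGa hGd
  have hew : e.symm (w, 0) = (w, v) := by
    rw [← hGw]
    exact e.left_inv hs.mem_toOpenPartialHomeomorph_source
  have hcont : Filter.Tendsto (fun x : Fin m → ℂ => ((x, 0) : (Fin m → ℂ) × ℂ)) (𝓝 w)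
      (𝓝 (w, 0)) :=
    (continuous_id.prodMk continuous_const).tendsto w
  refine ⟨F, fun x => (e.symm (x, 0)).2, ?_⟩
  have hleft := hs.eventually_left_inverse
  have hright := hs.eventually_right_inverse
  rw [hGw] at hright
  have hl2 : ∀ᶠ z in 𝓝 w ×ˢ 𝓝 v, e.symm (G z) = z := by
    rw [← nhds_prod_eq]; exact hleft
  obtain ⟨pa, hpa, pb, hpb, hab⟩ := Filter.eventually_prod_iff.1 hl2
  obtain ⟨ε, hε, hball⟩ := Metric.eventually_nhds_iff.1 hpb
  refine ⟨ε, hF0, ?_, by show (e.symm (w, 0)).2 = v; rw [hew], hF, ?_, hε, ?_⟩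
  · have h1 : AnalyticAt ℂ (fun x : Fin m → ℂ => ((x, 0) : (Fin m → ℂ) × ℂ)) w :=
      analyticAt_id.prod analyticAt_const
    have h2 : AnalyticAt ℂ (fun x : Fin m → ℂ => e.symm (x, 0)) w :=
      AnalyticAt.fun_comp (g := fun z => e.symm z) (f := fun x : Fin m → ℂ => (x, 0)) hes h1
    exact AnalyticAt.fun_comp (g := Prod.snd) analyticAt_snd h2
  · filter_upwards [hcont.eventually hright] with x hx
    have h1 : G (e.symm (x, 0)) = (x, 0) := hx
    have h2 := congrArg Prod.fst h1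
    have h3 := congrArg Prod.snd h1
    rw [hG] at h2 h3
    simp only [hg] at h2 h3
    rw [h2] at h3
    exact h3
  · filter_upwards [hpa] with x hx y hy hxy
    have h1 : e.symm (G (x, y)) = (x, y) := hab hx (hball (by rw [dist_eq_norm]; exact hy))
    have h2 : G (x, y) = (x, 0) := by
      rw [hG]; simp only; rw [Prod.mk.injEq]; exact ⟨rfl, hxy⟩
    rw [h2] at h1
    rw [h1]

end Pool.Agent.Lib.MP5e
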