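import Pool.Agent.Lib.MP_5e64e7_nt.UAdm
import Pool.Agent.Lib.MP_5e64e7_nt.UImp

set_option autoImplicit false

/-!
# U.FN : the elements of `ℚ(w, v)` as algebraic functions of `w` (block E, helper16)
-/

noncomputable section

namespace Pool.Agent.Lib.MP5e

open Polynomial Topology

theorem uE_alg {m M : ℕ} {w : Fin m → ℂ} {v : Fin M → ℂ} (h : UCM w v) {z : ℂ}
    (hz : z ∈ UE w v) : IsAlgebraic (IntermediateField.adjoin ℚ (Set.range w)) z := by
  obtain ⟨A, hA⟩ : ∃ A : IntermediateField ℚ ℂ, A = (algebraicClosure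
    (IntermediateField.adjoin ℚ (Set.range w)) ℂ).restrictScalars ℚ := ⟨_, rfl⟩
  have h1 : UE w v ≤ A := by
    unfold UE
    rw [IntermediateField.adjoin_le_iff]
    rintro y (⟨l, rfl⟩ | ⟨j, rfl⟩)
    · rw [hA]
      change w l ∈ algebraicClosure (IntermediateField.adjoin ℚ (Set.range w)) ℂ
      rw [mem_algebraicClosure_iff]
      have h2 : w l ∈ IntermediateField.adjoin ℚ (Set.range w) :=
        IntermediateField.subset_adjoin ℚ _ ⟨l, rfl⟩
      exact isAlgebraic_algebraMap (⟨w l, h2⟩ : IntermediateField.adjoin ℚ (Set.range w))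
    · rw [hA]
      change v j ∈ algebraicClosure (IntermediateField.adjoin ℚ (Set.range w)) ℂ
      rw [mem_algebraicClosure_iff]
      exact h.1 j
  have h3 := h1 hz
  rw [hA] at h3
  exact mem_algebraicClosure_iff.1 h3

/-- `b^d F(x, a/b)` as an integer polynomial -/
private def ufnG {m M : ℕ} (F : Polynomial (MvPolynomial (Fin m) ℤ))
    (A Bp : MvPolynomial (Fin m ⊕ Fin M) ℤ) : MvPolynomial (Fin m ⊕ Fin M) ℤ :=
  ∑ k ∈ Finset.range (F.natDegree + 1),
    MvPolynomial.rename Sum.inl (F.coeff k) * A ^ k * Bp ^ (F.natDegree - k)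

private theorem ufnG_eval {m M : ℕ} (F : Polynomial (MvPolynomial (Fin m) ℤ))
    (A Bp : MvPolynomial (Fin m ⊕ Fin M) ℤ) (x : Fin m → ℂ) (y : Fin M → ℂ)
    (hb : MvPolynomial.aeval (Sum.elim x y) Bp ≠ (0 : ℂ)) :
    MvPolynomial.aeval (Sum.elim x y) (ufnG F A Bp) =
      (MvPolynomial.aeval (Sum.elim x y) Bp : ℂ) ^ F.natDegree *
        uev F x (MvPolynomial.aeval (Sum.elim x y) A / MvPolynomial.aeval (Sum.elim x y) Bp) := by
  unfold ufnG uev
  rw [Polynomial.eval_eq_sum_range' (n := F.natDegree + 1)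
    (Nat.lt_succ_of_le Polynomial.natDegree_map_le), map_sum, Finset.mul_sum]
  refine Finset.sum_congr rfl fun k hk => ?_
  have hk' : k ≤ F.natDegree := Nat.lt_succ_iff.1 (Finset.mem_range.1 hk)
  rw [map_mul, map_mul, map_pow, map_pow, MvPolynomial.aeval_rename, Polynomial.coeff_map]
  have h1 : (Sum.elim x y) ∘ (Sum.inl : Fin m → Fin m ⊕ Fin M) = x := by
    funext l
    rfl
  rw [h1]
  change _ = _ * (MvPolynomial.aeval x (F.coeff k) * _)
  obtain ⟨e, he⟩ : ∃ e, F.natDegree = k + e := ⟨F.natDegree - k, by omega⟩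
  rw [he, Nat.add_sub_cancel_left, div_pow, pow_add]
  field_simp

private theorem ufn_cont {X : Type} [TopologicalSpace X] (fA fB : X → ℂ) (p0 : X)
    (hA : Continuous fA) (hB : Continuous fB) (h0 : fB p0 ≠ 0) {ε : ℝ} (hε : 0 < ε) :
    ∀ᶠ p in 𝓝 p0, fB p ≠ 0 ∧ ‖fA p / fB p - fA p0 / fB p0‖ < ε := by
  refine (hB.continuousAt.eventually_ne h0).and ?_
  have hq : ContinuousAt (fun p => fA p / fB p) p0 := hA.continuousAt.div hB.continuousAt h0
  have h1 := hq.eventually (Metric.ball_mem_nhds _ hε)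
  filter_upwards [h1] with p hp
  rw [← dist_eq_norm]
  exact hp

theorem ufn {m M : ℕ} {w : Fin m → ℂ} {v : Fin M → ℂ} (h : UCM w v) (z : ℂ)
    (hz : z ∈ UE w v) : ∃ (ζ : (Fin m → ℂ) → ℂ) (A Bp : MvPolynomial (Fin m ⊕ Fin M) ℤ) (ε : ℝ),
      0 < ε ∧ AnalyticAt ℂ ζ w ∧ ζ w = z ∧
      (∃ Q : Polynomial (MvPolynomial (Fin m) ℂ), Q ≠ 0 ∧
        ∀ᶠ x in 𝓝 w, (Q.map (MvPolynomial.eval x)).eval (ζ x) = 0) ∧
      ∀ᶠ x in 𝓝 w, ∀ v' : Fin M → ℂ, (∀ j, ‖v j - v' j‖ ≤ ε) → USpec w v x v' →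
        ζ x = MvPolynomial.aeval (Sum.elim x v') A / MvPolynomial.aeval (Sum.elim x v') Bp := by
  obtain ⟨A, Bp, hB0, hzA⟩ := uE_form w v z hz
  obtain ⟨F, ψ, ε₀, hF0, hψ1, hψ2, hFw, hψ3, hε₀, huniq⟩ := uimp w (uw h) z (uE_alg h hz)
  -- continuity of the quotient
  have hcont : ∀ P : MvPolynomial (Fin m ⊕ Fin M) ℤ, Continuous
      (fun p : (Fin m → ℂ) × (Fin M → ℂ) => (MvPolynomial.aeval (Sum.elim p.1 p.2) P : ℂ)) := by
    intro P
    induction P using MvPolynomial.induction_on with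
    | C a =>
      simp only [MvPolynomial.aeval_C]
      exact continuous_const
    | add p q hp hq =>
      simp only [map_add]
      exact hp.add hq
    | mul_X p i hp =>
      simp only [map_mul, MvPolynomial.aeval_X]
      refine hp.mul ?_
      rcases i with l | j
      · exact (continuous_apply l).comp continuous_fst
      · exact (continuous_apply j).comp continuous_snd
  have hev := ufn_cont (fun p : (Fin m → ℂ) × (Fin M → ℂ) =>
    (MvPolynomial.aeval (Sum.elim p.1 p.2) A : ℂ))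
    (fun p : (Fin m → ℂ) × (Fin M → ℂ) => (MvPolynomial.aeval (Sum.elim p.1 p.2) Bp : ℂ))
    (w, v) (hcont A) (hcont Bp) hB0 hε₀
  obtain ⟨δ, hδ, hball⟩ := Metric.eventually_nhds_iff.1 hev
  refine ⟨ψ, A, Bp, δ / 2, by positivity, hψ1, hψ2,
    ⟨F.map (MvPolynomial.map (Int.castRingHom ℂ)), ?_, ?_⟩, ?_⟩
  · intro h0
    exact hF0 ((Polynomial.map_eq_zero_iff
      (MvPolynomial.map_injective _ (RingHom.injective_int _))).1 h0)
  · filter_upwards [hψ3] with x hx
    rw [Polynomial.map_map]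
    unfold uev at hx
    have h1 : (MvPolynomial.eval x).comp (MvPolynomial.map (Int.castRingHom ℂ)) =
        (MvPolynomial.aeval (R := ℤ) x).toRingHom := by
      apply RingHom.ext
      intro P
      change MvPolynomial.eval x (MvPolynomial.map (Int.castRingHom ℂ) P) =
        MvPolynomial.aeval x P
      rw [MvPolynomial.eval_map]
      rfl
    rw [h1]
    exact hx
  · filter_upwards [huniq, Metric.ball_mem_nhds w hδ] with x hx hxb v' hv' hspec
    have hd : dist (x, v') (w, v) < δ := by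
      rw [Prod.dist_eq, max_lt_iff]
      refine ⟨hxb, ?_⟩
      refine lt_of_le_of_lt ((dist_pi_le_iff (by positivity : (0 : ℝ) ≤ δ / 2)).2 ?_)
        (by linarith : δ / 2 < δ)
      intro j
      rw [dist_comm, dist_eq_norm]
      exact hv' j
    obtain ⟨hb, hn⟩ := hball hd
    have hn' : ‖(MvPolynomial.aeval (Sum.elim x v') A : ℂ) /
        MvPolynomial.aeval (Sum.elim x v') Bp - z‖ < ε₀ := by
      rw [hzA]
      exact hn
    refine (hx _ hn' ?_).symm
    have h2 : MvPolynomial.aeval (Sum.elim w v) (ufnG F A Bp) = (0 : ℂ) := by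
      rw [ufnG_eval F A Bp w v hB0, ← hzA, hFw, mul_zero]
    have h3 := hspec _ h2
    rw [ufnG_eval F A Bp x v' hb] at h3
    exact (mul_eq_zero.1 h3).resolve_left (pow_ne_zero _ hb)

end Pool.Agent.Lib.MP5e
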