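import Pool.Agent.Lib.MP_5e64e7_nt.UFgood

set_option autoImplicit false

noncomputable section

namespace Pool.Agent.Lib.MP5e

open Polynomial Topology

private theorem uf_split {q w : ℂ} (hq0 : q ≠ 0) (hq1 : ‖q‖ < 1) (hw : w ∈ ugood q) :
    uf q w = w / (1 - w) ^ 2 +
    (∑' k : ℕ, w * q ^ (k + 1) / (1 - w * q ^ (k + 1)) ^ 2) +
    ∑' k : ℕ, w⁻¹ * q ^ (k + 1) / (1 - w⁻¹ * q ^ (k + 1)) ^ 2 := by
  unfold uf
  rw [(summable_usq hq0 hq1 hw).tsum_add (summable_usq hq0 hq1 (ugood_inv hw)), add_assoc]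

private theorem ug_split {q w : ℂ} (hq0 : q ≠ 0) (hq1 : ‖q‖ < 1) (hw : w ∈ ugood q) :
    ug q w = (w + 1) / (2 * (w - 1)) +
    ((∑' k : ℕ, w⁻¹ * q ^ (k + 1) / (1 - w⁻¹ * q ^ (k + 1))) -
    ∑' k : ℕ, w * q ^ (k + 1) / (1 - w * q ^ (k + 1))) := by
  unfold ug
  rw [(summable_uone hq0 hq1 (ugood_inv hw)).tsum_sub (summable_uone hq0 hq1 hw)]

private theorem inv_uq_mul {q w : ℂ} (hq0 : q ≠ 0) (k : ℕ) :
    (q * w)⁻¹ * q ^ (k + 1 + 1) = w⁻¹ * q ^ (k + 1) := by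
  rw [mul_inv, pow_succ _ (k + 1)]
  field_simp

private theorem inv_uq_mul0 {q w : ℂ} (hq0 : q ≠ 0) :
    (q * w)⁻¹ * q ^ (0 + 1) = w⁻¹ := by
  rw [mul_inv, zero_add, pow_one]
  field_simp

private theorem uq_mul {q w : ℂ} (k : ℕ) :
    (q * w) * q ^ (k + 1) = w * q ^ (k + 1 + 1) := by
  rw [pow_succ _ (k + 1)]
  ring

private theorem one_sub_ne {q w : ℂ} (hw : w ∈ ugood q) : 1 - w ≠ 0 := by
  have h2 := ugood_one_sub hw 0
  rwa [pow_zero, mul_one] at h2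

theorem uf_q {q w : ℂ} (hq0 : q ≠ 0) (hq1 : ‖q‖ < 1) (hw : w ∈ ugood q) :
    uf q (q * w) = uf q w := by
  have hrw := ugood_q hq0 hw
  rw [uf_split hq0 hq1 hrw, uf_split hq0 hq1 hw]
  have h1 := (summable_usq hq0 hq1 (ugood_inv hrw)).tsum_eq_zero_add
  have h2 := (summable_usq hq0 hq1 hw).tsum_eq_zero_add
  rw [h1, h2]
  simp only [inv_uq_mul hq0, inv_uq_mul0 hq0, uq_mul]
  have h3 : w⁻¹ / (1 - w⁻¹) ^ 2 = w / (1 - w) ^ 2 := by
    have e1 := one_sub_ne hw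
    have e2 := one_sub_ne (ugood_inv hw)
    have e3 : w ≠ 0 := hw.1
    have e4 : 1 - w⁻¹ = -(1 - w) / w := by field_simp; ring
    rw [e4]
    field_simp
  rw [h3, zero_add, pow_one, mul_comm q w]
  ring

theorem ug_q {q w : ℂ} (hq0 : q ≠ 0) (hq1 : ‖q‖ < 1) (hw : w ∈ ugood q) :
    ug q (q * w) = ug q w - 1 := by
  have hrw := ugood_q hq0 hw
  rw [ug_split hq0 hq1 hrw, ug_split hq0 hq1 hw]
  have h1 := (summable_uone hq0 hq1 (ugood_inv hrw)).tsum_eq_zero_add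
  have h2 := (summable_uone hq0 hq1 hw).tsum_eq_zero_add
  rw [h1, h2]
  simp only [inv_uq_mul hq0, inv_uq_mul0 hq0, uq_mul]
  have h3 : w⁻¹ / (1 - w⁻¹) = (w + 1) / (2 * (w - 1)) - 1 / 2 := by
    have e1 := one_sub_ne hw
    have e3 : w ≠ 0 := hw.1
    have e4 : 1 - w⁻¹ = (w - 1) / w := by field_simp
    have e5 : w - 1 ≠ 0 := by
      intro h0
      apply e1
      rw [← neg_sub, h0, neg_zero]
    rw [e4]
    field_simp
    ring
  have h4 : (q * w + 1) / (2 * (q * w - 1)) =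
      -(w * q ^ (0 + 1) / (1 - w * q ^ (0 + 1))) - 1 / 2 := by
    have e1 := one_sub_ne hrw
    have e5 : q * w - 1 ≠ 0 := by
      intro h0
      apply e1
      rw [← neg_sub, h0, neg_zero]
    have e6 : 1 - w * q ^ (0 + 1) = -(q * w - 1) := by ring
    rw [e6]
    field_simp
    ring
  rw [h3, h4]
  ring

theorem uf_inv {q w : ℂ} (hw : w ∈ ugood q) : uf q w⁻¹ = uf q w := by
  have h3 : w⁻¹ / (1 - w⁻¹) ^ 2 = w / (1 - w) ^ 2 := by
    have e1 := one_sub_ne hw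
    have e2 := one_sub_ne (ugood_inv hw)
    have e3 : w ≠ 0 := hw.1
    have e4 : 1 - w⁻¹ = -(1 - w) / w := by field_simp; ring
    rw [e4]
    field_simp
  unfold uf
  rw [h3, inv_inv]
  congr 1
  exact tsum_congr fun k => add_comm _ _

theorem ug_neg_one (q : ℂ) : ug q (-1) = 0 := by
  unfold ug
  have h : (-1 : ℂ)⁻¹ = -1 := by norm_num
  rw [h]
  simp

end Pool.Agent.Lib.MP5e
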