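import Pool.Agent.Lib.MP_5e64e7_nt.UDefs
import Pool.Agent.Lib.MP_5e64e7_nt.GFunC

set_option autoImplicit false

/-!
# U.FUNC : the functions `x_l, J(ζ_k(x))` are algebraically independent over `ℂ` (block E; copy of `GFunC.lean` with `rz (f k)`
replaced by `ζ k`)

The only new point is the algebraicity on lines: `Q ≠ 0` has a coefficient `Q_j ∈ ℂ[x]`, `Q_j ≠ 0`; add the functions
`x ↦ eval x Q_j` (one for every `k`) to the list of functions avoided by `x0` (`gavoid` in step (1)); then the restriction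
of `Q` to the line through `x0` is not zero (its `j`-th coefficient does not vanish at `t = 0`).
-/

noncomputable section

namespace Pool.Agent.Lib.MP5e

open Polynomial Topology

private theorem ufc_line {m : ℕ} (x v : Fin m → ℂ) (A : MvPolynomial (Fin m) ℂ) (t : ℂ) :
    Polynomial.eval t (MvPolynomial.aeval (fun l => C (x l) + C (v l) * X : Fin m → ℂ[X]) A) =
      MvPolynomial.eval (fun l => x l + t * v l) A := by
  induction A using MvPolynomial.induction_on with
  | C a => simp
  | add p q hp hq => rw [map_add, Polynomial.eval_add, hp, hq, map_add]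
  | mul_X p l hp =>
    rw [map_mul, Polynomial.eval_mul, hp]
    simp [mul_comm t]

private theorem ufc_eval {σ τ : Type} (Q : MvPolynomial σ ℂ) (g : σ → MvPolynomial τ ℂ)
    (v : τ → ℂ) : MvPolynomial.eval v (MvPolynomial.aeval g Q) =
      MvPolynomial.eval (fun x => MvPolynomial.eval v (g x)) Q := by
  induction Q using MvPolynomial.induction_on with
  | C a => simp
  | add p q hp hq => simp only [map_add, hp, hq]
  | mul_X p i hp => simp only [map_mul, MvPolynomial.aeval_X, hp, MvPolynomial.eval_X]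

private theorem ufc_den {p q r s : ℚ} (h : 0 < p * s - q * r) {z : ℂ} (hz : 0 < z.im) :
    (r : ℂ) * z + (s : ℂ) ≠ 0 := by
  intro h0
  have h1 := congrArg Complex.im h0
  simp at h1
  rcases h1 with h1 | h1
  · have h2 := congrArg Complex.re h0
    have hr : r = 0 := by exact_mod_cast h1
    subst hr
    simp at h2
    subst h2
    simp at h
  · exact hz.ne' h1

private theorem ufc_ana {m : ℕ} (A : MvPolynomial (Fin m) ℂ) (x : Fin m → ℂ) :
    AnalyticAt ℂ (fun u : Fin m → ℂ => MvPolynomial.eval u A) x := by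
  induction A using MvPolynomial.induction_on with
  | C a => simpa using (analyticAt_const : AnalyticAt ℂ (fun _ : Fin m → ℂ => a) x)
  | add p q hp hq =>
    simp only [map_add]
    exact hp.add hq
  | mul_X p l hp =>
    simp only [map_mul, MvPolynomial.eval_X]
    exact hp.mul ((ContinuousLinearMap.proj (R := ℂ) (φ := fun _ : Fin m => ℂ) l).analyticAt x)

/-- the statement at a point without relations -/
private theorem ufc_point {m n : ℕ} (ζ : Fin n → (Fin m → ℂ) → ℂ) (w : Fin m → ℂ) (ε : ℝ)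
    (hε : 0 < ε) (hana : ∀ x ∈ Metric.ball w ε, ∀ k, AnalyticAt ℂ (ζ k) x)
    (him : ∀ x ∈ Metric.ball w ε, ∀ k, 0 < (ζ k x).im)
    (Q : Fin n → Polynomial (MvPolynomial (Fin m) ℂ))
    (hQe : ∀ x ∈ Metric.ball w ε, ∀ k, ((Q k).map (MvPolynomial.eval x)).eval (ζ k x) = 0)
    (hnc : ∀ k, ¬ ∀ᶠ x in 𝓝 w, ζ k x = ζ k w)
    (P : MvPolynomial (Fin m ⊕ (Fin n × Fin 3)) ℂ)
    (hP0 : ∀ x ∈ Metric.ball w ε, MvPolynomial.eval
      (Sum.elim x fun p : Fin n × Fin 3 => J4 (ζ p.1 x) p.2.succ) P = 0)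
    (x0 : Fin m → ℂ) (hx0 : x0 ∈ Metric.ball w ε)
    (hQ0 : ∀ k, MvPolynomial.eval x0 (Q k).leadingCoeff ≠ 0)
    (hD : ∀ k l, k ≠ l → ¬ GRel (ζ k x0) (ζ l x0)) (e : Fin n × Fin 3 → ℂ) :
    MvPolynomial.eval (Sum.elim x0 e) P = 0 := by
  classical
  have hBo : IsOpen (Metric.ball w ε) := Metric.isOpen_ball
  have hBp : IsPreconnected (Metric.ball w ε) := (convex_ball w ε).isPreconnected
  obtain ⟨x1, hx1, hne⟩ := gavoid (Metric.ball w ε) hBo hBp
    (fun k x => ζ k x - ζ k x0)
    (fun k x hx => (hana x hx k).sub analyticAt_const)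
    (by
      intro k
      by_contra hcon
      push Not at hcon
      apply hnc k
      have h1 := hcon w (Metric.mem_ball_self hε)
      filter_upwards [hBo.mem_nhds (Metric.mem_ball_self hε)] with x hx
      have h2 := hcon x hx
      rw [sub_eq_zero] at h1 h2
      rw [h2, h1])
    (Metric.ball w ε) hBo ⟨w, Metric.mem_ball_self hε⟩ subset_rfl
  set v : Fin m → ℂ := fun l => x1 l - x0 l with hv
  set L : ℂ → Fin m → ℂ := fun t l => x0 l + t * v l with hL
  have hL0 : L 0 = x0 := by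
    funext l
    simp [hL]
  have hL1 : L 1 = x1 := by
    funext l
    simp [hL, hv]
  have hLa : ∀ t, AnalyticAt ℂ L t := fun t =>
    AnalyticAt.pi (fun l => analyticAt_const.add (analyticAt_id.mul analyticAt_const))
  have hLc : Continuous L := continuous_iff_continuousAt.2 (fun t => (hLa t).continuousAt)
  set T : Set ℂ := L ⁻¹' Metric.ball w ε with hT
  have hTo : IsOpen T := hBo.preimage hLc
  have hTc : Convex ℝ T := by
    intro t1 h1 t2 h2 a b ha hb hab
    have h3 := convex_ball w ε h1 h2 ha hb hab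
    have h4 : L (a • t1 + b • t2) = a • L t1 + b • L t2 := by
      funext l
      have hab' : (a : ℂ) + (b : ℂ) = 1 := by exact_mod_cast hab
      simp only [hL, Pi.add_apply, Pi.smul_apply, Complex.real_smul]
      linear_combination (-(x0 l)) * hab'
    show L (a • t1 + b • t2) ∈ Metric.ball w ε
    rw [h4]
    exact h3
  have hTp : IsPreconnected T := hTc.isPreconnected
  have h0T : (0 : ℂ) ∈ T := by
    show L 0 ∈ Metric.ball w ε
    rw [hL0]; exact hx0
  have h1T : (1 : ℂ) ∈ T := by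
    show L 1 ∈ Metric.ball w ε
    rw [hL1]; exact hx1
  have hTn : ∀ᶠ t in 𝓝 (0 : ℂ), t ∈ T := hTo.mem_nhds h0T
  have hza : ∀ k, AnalyticOnNhd ℂ (fun t => ζ k (L t)) T := fun k t ht =>
    AnalyticAt.comp (g := ζ k) (f := L) (hana _ ht k) (hLa t)
  set g : Fin m ⊕ (Fin n × Fin 3) → MvPolynomial (Option (Fin n × Fin 3)) ℂ :=
    Sum.elim (fun l => MvPolynomial.C (x0 l) + MvPolynomial.C (v l) * MvPolynomial.X none)
      (fun p => MvPolynomial.X (some p)) with hg
  have hQ : MvPolynomial.aeval g P = 0 := by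
    refine ft n (fun k t => ζ k (L t)) 0 (fun k => hza k 0 h0T)
      (fun k => him _ h0T k) ?_ ?_ ?_ _ ?_
    · intro k
      set cx : MvPolynomial (Fin m) ℂ →ₐ[ℂ] ℂ[X] :=
        MvPolynomial.aeval (fun l => C (x0 l) + C (v l) * X : Fin m → ℂ[X]) with hcx
      have hcxe : ∀ A t, (cx A).eval t = MvPolynomial.eval (L t) A :=
        fun A t => ufc_line x0 v A t
      have hcomp : ∀ t, (Polynomial.evalRingHom t).comp (cx : MvPolynomial (Fin m) ℂ →+* ℂ[X]) =
          MvPolynomial.eval (L t) := fun t => by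
        apply RingHom.ext
        intro A
        exact hcxe A t
      refine ⟨(Q k).map (cx : MvPolynomial (Fin m) ℂ →+* ℂ[X]), ?_, ?_⟩
      · intro hz
        have h2 := congrArg (fun p => Polynomial.coeff p (Q k).natDegree) hz
        simp only [Polynomial.coeff_map, Polynomial.coeff_zero] at h2
        have h3 := hcxe (Q k).leadingCoeff 0
        have h4 : cx (Q k).leadingCoeff = 0 := h2
        rw [h4, Polynomial.eval_zero, hL0] at h3
        exact hQ0 k h3.symm
      · filter_upwards [hTn] with t ht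
        rw [Polynomial.map_map, hcomp]
        exact hQe _ ht k
    · intro k hcon
      have h5 := (hza k).eqOn_of_preconnected_of_eventuallyEq
        (g := fun _ => ζ k (L 0)) (fun t _ => analyticAt_const) hTp h0T hcon h1T
      apply hne k
      have h6 : ζ k (L 1) = ζ k (L 0) := h5
      rw [hL1, hL0] at h6
      rw [h6, sub_self]
    · intro k l hkl a b c d hdet hcon
      have h7 := hcon.self_of_nhds
      rw [hL0] at h7
      exact hD k l hkl ⟨a, b, c, d, hdet, h7⟩
    · filter_upwards [hTn] with t ht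
      have h8 := hP0 (L t) ht
      rw [ufc_eval]
      rw [← h8]
      congr 2
      funext i
      rcases i with l | p
      · simp [hg, hL, mul_comm t]
      · simp [hg]
  have h9 := ufc_eval P g (fun o => o.elim 0 e)
  rw [hQ, map_zero] at h9
  rw [h9]
  congr 2
  funext i
  rcases i with l | p
  · simp [hg]
  · simp [hg]

theorem ufunC {m n : ℕ} (ζ : Fin n → (Fin m → ℂ) → ℂ) (w : Fin m → ℂ)
    (ha : ∀ k, AnalyticAt ℂ (ζ k) w) (him : ∀ k, 0 < (ζ k w).im)
    (halg : ∀ k, ∃ Q : Polynomial (MvPolynomial (Fin m) ℂ), Q ≠ 0 ∧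
      ∀ᶠ x in 𝓝 w, (Q.map (MvPolynomial.eval x)).eval (ζ k x) = 0)
    (hnc : ∀ k, ¬ ∀ᶠ x in 𝓝 w, ζ k x = ζ k w)
    (hrel : ∀ k l, k ≠ l → ¬ GRel (ζ k w) (ζ l w))
    (P : MvPolynomial (Fin m ⊕ (Fin n × Fin 3)) ℂ)
    (hP : ∀ᶠ x in 𝓝 w, MvPolynomial.eval
      (Sum.elim x fun p : Fin n × Fin 3 => J4 (ζ p.1 x) p.2.succ) P = 0) : P = 0 := by
  classical
  choose Q hQne hQev using halg
  have hev : ∀ᶠ x in 𝓝 w, (∀ k, AnalyticAt ℂ (ζ k) x ∧ 0 < (ζ k x).im ∧
      ((Q k).map (MvPolynomial.eval x)).eval (ζ k x) = 0) ∧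
      MvPolynomial.eval (Sum.elim x fun p : Fin n × Fin 3 => J4 (ζ p.1 x) p.2.succ) P = 0 :=
    (Filter.eventually_all.2 (fun k => (ha k).eventually_analyticAt.and
      (((Complex.continuous_im.continuousAt.comp (ha k).continuousAt).eventually
        (lt_mem_nhds (him k))).and (hQev k)))).and hP
  obtain ⟨ε, hε, hB⟩ := Metric.eventually_nhds_iff_ball.1 hev
  have hBo : IsOpen (Metric.ball w ε) := Metric.isOpen_ball
  have hBp : IsPreconnected (Metric.ball w ε) := (convex_ball w ε).isPreconnected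
  have hana : ∀ x ∈ Metric.ball w ε, ∀ k, AnalyticAt ℂ (ζ k) x := fun x hx k => ((hB x hx).1 k).1
  have himb : ∀ x ∈ Metric.ball w ε, ∀ k, 0 < (ζ k x).im := fun x hx k => ((hB x hx).1 k).2.1
  have hQe : ∀ x ∈ Metric.ball w ε, ∀ k, ((Q k).map (MvPolynomial.eval x)).eval (ζ k x) = 0 :=
    fun x hx k => ((hB x hx).1 k).2.2
  have hP0 : ∀ x ∈ Metric.ball w ε, MvPolynomial.eval
      (Sum.elim x fun p : Fin n × Fin 3 => J4 (ζ p.1 x) p.2.succ) P = 0 := fun x hx => (hB x hx).2
  have hlead : ∀ k, ∃ x ∈ Metric.ball w ε, MvPolynomial.eval x (Q k).leadingCoeff ≠ 0 := by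
    intro k
    by_contra hcon
    push Not at hcon
    apply hQne k
    rw [← Polynomial.leadingCoeff_eq_zero]
    refine MvPolynomial.funext_set (fun l => Metric.ball (w l) ε) ?_ ?_
    · intro l
      exact infinite_of_mem_nhds (w l) (Metric.ball_mem_nhds _ hε)
    · intro y hy
      rw [map_zero]
      apply hcon
      rw [Metric.mem_ball, dist_pi_lt_iff hε]
      intro l
      exact hy l (Set.mem_univ _)
  have hdense : ∀ O : Set (Fin m → ℂ), IsOpen O → O.Nonempty → O ⊆ Metric.ball w ε →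
      ∃ x ∈ O, (∀ k, MvPolynomial.eval x (Q k).leadingCoeff ≠ 0) ∧
        ∀ k l, k ≠ l → ¬ GRel (ζ k x) (ζ l x) := by
    intro O hO hne hOB
    obtain ⟨x, hx, hxn⟩ := gavoid (ι := Fin n ⊕ {q : Fin n × Fin n × ℚ × ℚ × ℚ × ℚ //
        q.1 ≠ q.2.1 ∧ 0 < q.2.2.1 * q.2.2.2.2.2 - q.2.2.2.1 * q.2.2.2.2.1})
      (Metric.ball w ε) hBo hBp
      (Sum.elim (fun k x => MvPolynomial.eval x (Q k).leadingCoeff)
        (fun q x => ζ q.1.2.1 x * ((q.1.2.2.2.2.1 : ℂ) * ζ q.1.1 x + (q.1.2.2.2.2.2 : ℂ)) -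
          ((q.1.2.2.1 : ℂ) * ζ q.1.1 x + (q.1.2.2.2.1 : ℂ))))
      (by
        rintro (k | q)
        · intro x _
          exact ufc_ana _ x
        · intro x hx
          have h1 := hana x hx q.1.1
          have h2 := hana x hx q.1.2.1
          exact (h2.mul ((analyticAt_const.mul h1).add analyticAt_const)).sub
            ((analyticAt_const.mul h1).add analyticAt_const))
      (by
        rintro (k | ⟨⟨k, l, p, q, r, s⟩, hkl, hdet⟩)
        · exact hlead k
        · refine ⟨w, Metric.mem_ball_self hε, fun h0 => ?_⟩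
          have hd := ufc_den hdet (him k)
          refine hrel k l hkl ⟨p, q, r, s, hdet, ?_⟩
          rw [eq_div_iff hd]
          exact sub_eq_zero.1 h0)
      O hO hne hOB
    refine ⟨x, hx, fun k => hxn (Sum.inl k), fun k l hkl hr => ?_⟩
    obtain ⟨p, q, r, s, hdet, he⟩ := hr
    have hd := ufc_den hdet (himb x (hOB hx) k)
    rw [eq_div_iff hd] at he
    exact hxn (Sum.inr ⟨⟨k, l, p, q, r, s⟩, hkl, hdet⟩) (sub_eq_zero.2 he)
  have hall : ∀ x ∈ Metric.ball w ε, ∀ e : Fin n × Fin 3 → ℂ,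
      MvPolynomial.eval (Sum.elim x e) P = 0 := by
    intro x hx e
    by_contra hne
    have hc : Continuous (fun y : Fin m → ℂ =>
        MvPolynomial.eval (Sum.elim y e : Fin m ⊕ (Fin n × Fin 3) → ℂ) P) := by
      refine (MvPolynomial.continuous_eval P).comp (continuous_pi fun i => ?_)
      rcases i with l | p
      · exact continuous_apply l
      · exact continuous_const
    have hO : IsOpen ({y | MvPolynomial.eval (Sum.elim y e : Fin m ⊕ (Fin n × Fin 3) → ℂ) P ≠ 0} ∩
        Metric.ball w ε) := (isOpen_ne_fun hc continuous_const).inter hBo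
    obtain ⟨y, ⟨hy1, hy2⟩, hy4, hy3⟩ := hdense _ hO ⟨x, hne, hx⟩ Set.inter_subset_right
    exact hy1 (ufc_point ζ w ε hε hana himb Q hQe hnc P hP0 y hy2 hy4 hy3 e)
  refine MvPolynomial.funext_set (Sum.elim (fun l => Metric.ball (w l) ε) (fun _ => Set.univ))
    ?_ ?_
  · rintro (l | p)
    · exact infinite_of_mem_nhds (w l) (Metric.ball_mem_nhds _ hε)
    · exact Set.infinite_univ
  · intro y hy
    rw [map_zero]
    have h1 : (Sum.elim (fun l => y (Sum.inl l)) (fun p => y (Sum.inr p)) :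
        Fin m ⊕ (Fin n × Fin 3) → ℂ) = y := by
      funext i
      rcases i with l | p <;> rfl
    rw [← h1]
    apply hall
    rw [Metric.mem_ball, dist_pi_lt_iff hε]
    intro l
    exact hy (Sum.inl l) (Set.mem_univ _)

end Pool.Agent.Lib.MP5e
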