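import Pool.Agent.Lib.MP_5e64e7_nt.UDefs
import Pool.Agent.Lib.MP_5e64e7_nt.Trans

set_option autoImplicit false

/-!
# UMEAS, block A: `g₂` and `g₃` of the lattice `2πi (ℤ + ℤτ)`
-/

noncomputable section

namespace Pool.Agent.Lib.MP5e

open Polynomial Topology

private lemma uG_G (τ : ℂ) (h : 0 < τ.im) (k : ℕ) : (uL τ h).G k = ∑' p : ℤ × ℤ,
    (((p.1 : ℂ) * (2 * (Real.pi : ℂ) * Complex.I) +
      (p.2 : ℂ) * (τ * (2 * (Real.pi : ℂ) * Complex.I))) ^ k)⁻¹ := by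
  rw [PeriodPair.G, ← (uL τ h).latticeEquivProd.symm.toEquiv.tsum_eq]
  refine tsum_congr fun p => ?_
  have := (uL τ h).latticeEquiv_symm_apply p
  change (((((uL τ h).latticeEquivProd.symm p : (uL τ h).lattice) : ℂ)) ^ k)⁻¹ = _
  rw [this]
  rfl

private lemma uG_eis (τ : ℂ) (h : 0 < τ.im) (k : ℕ) :
    (uL τ h).G k = ((2 * (Real.pi : ℂ) * Complex.I) ^ k)⁻¹ *
      ∑' v : Fin 2 → ℤ, EisensteinSeries.eisSummand (k : ℤ) v ⟨τ, h⟩ := by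
  rw [uG_G, ← tsum_mul_left, ← ((finTwoArrowEquiv ℤ).trans (Equiv.prodComm ℤ ℤ)).tsum_eq]
  refine tsum_congr fun v => ?_
  have e1 : (((finTwoArrowEquiv ℤ).trans (Equiv.prodComm ℤ ℤ)) v).1 = v 1 := rfl
  have e2 : (((finTwoArrowEquiv ℤ).trans (Equiv.prodComm ℤ ℤ)) v).2 = v 0 := rfl
  rw [e1, e2, EisensteinSeries.eisSummand, zpow_neg, ← mul_inv]
  congr 1
  have e3 : (((v 0 : ℤ) : ℂ) * τ + ((v 1 : ℤ) : ℂ)) ^ ((k : ℕ) : ℤ) =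
    (((v 0 : ℤ) : ℂ) * τ + ((v 1 : ℤ) : ℂ)) ^ k := by norm_cast
  change _ = _ * (((v 0 : ℤ) : ℂ) * τ + ((v 1 : ℤ) : ℂ)) ^ ((k : ℕ) : ℤ)
  rw [e3, ← mul_pow]
  congr 1
  ring

theorem ug2_eq (τ : ℂ) (h : 0 < τ.im) : (uL τ h).g₂ = E4f τ / 12 := by
  have hpi : (Real.pi : ℂ) ≠ 0 := by exact_mod_cast Real.pi_ne_zero
  have h1 := tsum_eisSummand_eq_tsum_sigma_mul_cexp_pow (k := 4) (by norm_num)
    (by decide) ⟨τ, h⟩
  have h2 : E4f τ = 1 + 240 * ∑' n : ℕ+, ((ArithmeticFunction.sigma 3 n : ℕ) : ℂ) *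
      Complex.exp (2 * (Real.pi : ℂ) * Complex.I * τ) ^ (n : ℕ) := by
    rw [E4f, tsum_pnat_eq_tsum_succ (f := fun n : ℕ => ((ArithmeticFunction.sigma 3 n : ℕ) : ℂ) *
      Complex.exp (2 * (Real.pi : ℂ) * Complex.I * τ) ^ n)]
  rw [PeriodPair.g₂, uG_eis]
  have e4 : ((4 : ℕ) : ℤ) = 4 := rfl
  rw [e4] at h1 ⊢
  rw [h1]
  have e5 : riemannZeta ((4 : ℕ) : ℂ) = (Real.pi : ℂ) ^ 4 / 90 := by
    rw [← riemannZeta_four]
    norm_num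
  have e6 : (((4 - 1).factorial : ℕ) : ℂ) = 6 := by
    norm_num [Nat.factorial]
  rw [e5, e6]
  change 60 * (((2 * (Real.pi : ℂ) * Complex.I) ^ 4)⁻¹ * (2 * ((Real.pi : ℂ) ^ 4 / 90) +
    2 * ((-2 * (Real.pi : ℂ) * Complex.I) ^ 4 / 6) * ∑' n : ℕ+,
      ((ArithmeticFunction.sigma 3 n : ℕ) : ℂ) *
      Complex.exp (2 * (Real.pi : ℂ) * Complex.I * τ) ^ (n : ℕ))) = E4f τ / 12
  have e7 : (-2 * (Real.pi : ℂ) * Complex.I) ^ 4 = 16 * (Real.pi : ℂ) ^ 4 := by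
    rw [show (-2 * (Real.pi : ℂ) * Complex.I) ^ 4 =
      16 * (Real.pi : ℂ) ^ 4 * (Complex.I * Complex.I) ^ 2 by ring, Complex.I_mul_I]
    ring
  have e8 : (2 * (Real.pi : ℂ) * Complex.I) ^ 4 = 16 * (Real.pi : ℂ) ^ 4 := by
    rw [show (2 * (Real.pi : ℂ) * Complex.I) ^ 4 =
      16 * (Real.pi : ℂ) ^ 4 * (Complex.I * Complex.I) ^ 2 by ring, Complex.I_mul_I]
    ring
  rw [e7, e8, h2]
  generalize (∑' n : ℕ+, ((ArithmeticFunction.sigma 3 n : ℕ) : ℂ) *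
      Complex.exp (2 * (Real.pi : ℂ) * Complex.I * τ) ^ (n : ℕ)) = S
  field_simp
  ring

theorem ug3_eq (τ : ℂ) (h : 0 < τ.im) : (uL τ h).g₃ = -E6f τ / 216 := by
  have hpi : (Real.pi : ℂ) ≠ 0 := by exact_mod_cast Real.pi_ne_zero
  have h1 := tsum_eisSummand_eq_tsum_sigma_mul_cexp_pow (k := 6) (by norm_num)
    (by decide) ⟨τ, h⟩
  have h2 : E6f τ = 1 - 504 * ∑' n : ℕ+, ((ArithmeticFunction.sigma 5 n : ℕ) : ℂ) *
      Complex.exp (2 * (Real.pi : ℂ) * Complex.I * τ) ^ (n : ℕ) := by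
    rw [E6f, tsum_pnat_eq_tsum_succ (f := fun n : ℕ => ((ArithmeticFunction.sigma 5 n : ℕ) : ℂ) *
      Complex.exp (2 * (Real.pi : ℂ) * Complex.I * τ) ^ n)]
  rw [PeriodPair.g₃, uG_eis]
  have e4 : ((6 : ℕ) : ℤ) = 6 := rfl
  rw [e4] at h1 ⊢
  rw [h1]
  have e5 : riemannZeta ((6 : ℕ) : ℂ) = (Real.pi : ℂ) ^ 6 / 945 := by
    have := riemannZeta_two_mul_nat (k := 3) (by norm_num)
    rw [show ((6 : ℕ) : ℂ) = 2 * ((3 : ℕ) : ℂ) by norm_num, this,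
      show _root_.bernoulli (2 * 3) = 1 / 42 by decide +kernel]
    norm_num [Nat.factorial]
    ring
  have e6 : (((6 - 1).factorial : ℕ) : ℂ) = 120 := by
    norm_num [Nat.factorial]
  rw [e5, e6]
  change 140 * (((2 * (Real.pi : ℂ) * Complex.I) ^ 6)⁻¹ * (2 * ((Real.pi : ℂ) ^ 6 / 945) +
    2 * ((-2 * (Real.pi : ℂ) * Complex.I) ^ 6 / 120) * ∑' n : ℕ+,
      ((ArithmeticFunction.sigma 5 n : ℕ) : ℂ) *
      Complex.exp (2 * (Real.pi : ℂ) * Complex.I * τ) ^ (n : ℕ))) = -E6f τ / 216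
  have e7 : (-2 * (Real.pi : ℂ) * Complex.I) ^ 6 = -64 * (Real.pi : ℂ) ^ 6 := by
    rw [show (-2 * (Real.pi : ℂ) * Complex.I) ^ 6 =
      64 * (Real.pi : ℂ) ^ 6 * (Complex.I * Complex.I) ^ 3 by ring, Complex.I_mul_I]
    ring
  have e8 : (2 * (Real.pi : ℂ) * Complex.I) ^ 6 = -64 * (Real.pi : ℂ) ^ 6 := by
    rw [show (2 * (Real.pi : ℂ) * Complex.I) ^ 6 =
      64 * (Real.pi : ℂ) ^ 6 * (Complex.I * Complex.I) ^ 3 by ring, Complex.I_mul_I]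
    ring
  rw [e7, e8, h2]
  generalize (∑' n : ℕ+, ((ArithmeticFunction.sigma 5 n : ℕ) : ℂ) *
      Complex.exp (2 * (Real.pi : ℂ) * Complex.I * τ) ^ (n : ℕ)) = S
  field_simp
  ring

end Pool.Agent.Lib.MP5e
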