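import Pool.Agent.Lib.MP_5e64e7_nt.UFdiff
import Pool.Agent.Lib.MP_5e64e7_nt.UFper

set_option autoImplicit false

noncomputable section

namespace Pool.Agent.Lib.MP5e

open Polynomial Topology Filter

theorem uq_ne (τ : ℂ) : uq τ ≠ 0 := Complex.exp_ne_zero _

theorem uq_norm (τ : ℂ) : ‖uq τ‖ = Real.exp (-2 * Real.pi * τ.im) := by
  rw [uq, Complex.norm_exp]
  congr 1
  simp

theorem uq_lt {τ : ℂ} (h : 0 < τ.im) : ‖uq τ‖ < 1 := by
  rw [uq_norm, Real.exp_lt_one_iff]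
  have := Real.pi_pos
  nlinarith [mul_pos this h]

private lemma Uv_zpow (τ : ℂ) (k : ℤ) :
    uq τ ^ k = Complex.exp (2 * (Real.pi : ℂ) * Complex.I * τ * k) := by
  rw [uq, ← Complex.exp_int_mul]
  ring_nf

theorem exp_mem_ugood {τ : ℂ} (h : 0 < τ.im) (s : ℂ) :
    Complex.exp s ∈ ugood (uq τ) ↔ s ∉ (uL τ h).lattice := by
  rw [ugood, Set.mem_ofPred_eq, PeriodPair.mem_lattice]
  constructor
  · rintro ⟨-, h⟩ ⟨m, n, e⟩
    apply h n
    rw [Uv_zpow, ← e, Complex.exp_eq_exp_iff_exists_int]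
    refine ⟨m, ?_⟩
    simp [uL, PL]
    ring
  · intro h
    refine ⟨Complex.exp_ne_zero _, fun k hk => h ?_⟩
    rw [Uv_zpow, Complex.exp_eq_exp_iff_exists_int] at hk
    obtain ⟨n, hn⟩ := hk
    refine ⟨n, k, ?_⟩
    rw [hn]
    simp [uL, PL]
    ring

private def UvA (s : ℂ) : ℂ := (Complex.exp s - (1 + s + s ^ 2 / 2 + s ^ 3 / 6)) / s ^ 3

private lemma UvA_lim : Tendsto UvA (𝓝[≠] 0) (𝓝 0) := by
  have h : ∀ᶠ s in 𝓝[≠] (0 : ℂ), ‖UvA s‖ ≤ ‖s‖ := by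
    filter_upwards [nhdsWithin_le_nhds (Metric.ball_mem_nhds (0 : ℂ) one_pos),
      self_mem_nhdsWithin] with s hs hs0
    have hs0' : s ≠ 0 := hs0
    have h1 : ‖s‖ ≤ 1 := (mem_ball_zero_iff.mp hs).le
    have h2 := Complex.exp_bound h1 (n := 4) (by norm_num)
    have h3 : ∑ m ∈ Finset.range 4, s ^ m / (m.factorial : ℂ) = 1 + s + s ^ 2 / 2 + s ^ 3 / 6 := by
      simp [Finset.sum_range_succ, Nat.factorial]
    rw [h3] at h2
    have h4 : ‖s‖ ^ 4 * (((4 : ℕ).succ : ℝ) * (((4 : ℕ).factorial : ℝ) * ((4 : ℕ) : ℝ))⁻¹)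
        ≤ ‖s‖ ^ 4 := by
      have : (((4 : ℕ).succ : ℝ) * (((4 : ℕ).factorial : ℝ) * ((4 : ℕ) : ℝ))⁻¹) ≤ 1 := by
        norm_num [Nat.factorial]
      nlinarith [pow_nonneg (norm_nonneg s) 4]
    rw [UvA, norm_div, norm_pow, div_le_iff₀ (by positivity)]
    calc _ ≤ ‖s‖ ^ 4 := h2.trans h4
      _ = ‖s‖ * ‖s‖ ^ 3 := by ring
  refine squeeze_zero_norm' h ?_
  have : Tendsto (fun s : ℂ => ‖s‖) (𝓝 0) (𝓝 0) := by
    simpa using (continuous_norm (E := ℂ)).tendsto 0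
  exact this.mono_left nhdsWithin_le_nhds

private lemma Uv_lim : Tendsto (fun s : ℂ => Complex.exp s / (1 - Complex.exp s) ^ 2 - 1 / s ^ 2)
    (𝓝[≠] 0) (𝓝 (-1 / 12)) := by
  have hid : Tendsto (fun s : ℂ => s) (𝓝[≠] 0) (𝓝 0) := tendsto_id.mono_left nhdsWithin_le_nhds
  have hA := UvA_lim
  have hE : Tendsto (fun s : ℂ => 1 + s / 2 + s ^ 2 / 6 + s ^ 2 * UvA s) (𝓝[≠] 0) (𝓝 1) := by
    have := (((tendsto_const_nhds (x := (1 : ℂ))).add (hid.div_const 2)).add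
      ((hid.pow 2).div_const 6)).add ((hid.pow 2).mul hA)
    simpa using this
  have hR : Tendsto (fun s : ℂ => -1 / 12 + s / 6 + s * UvA s - 2 * UvA s
      - s * (1 / 6 + UvA s) - s ^ 2 * (1 / 6 + UvA s) ^ 2) (𝓝[≠] 0) (𝓝 (-1 / 12)) := by
    have h1 := ((((tendsto_const_nhds (x := (-1 / 12 : ℂ))).add (hid.div_const 6)).add
      (hid.mul hA)).sub (hA.const_mul 2)).sub (hid.mul (hA.const_add (1 / 6)))
    have h2 := h1.sub ((hid.pow 2).mul ((hA.const_add (1 / 6)).pow 2))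
    simpa using h2
  have hQ := hR.div (hE.pow 2) (by norm_num)
  have e1 : (-1 / 12 : ℂ) / 1 ^ 2 = -1 / 12 := by norm_num
  rw [e1] at hQ
  refine hQ.congr' ?_
  filter_upwards [hE.eventually_ne one_ne_zero, self_mem_nhdsWithin] with s hs hs0
  have hs0' : s ≠ 0 := hs0
  have he : Complex.exp s = 1 + s + s ^ 2 / 2 + s ^ 3 / 6 + s ^ 3 * UvA s := by
    rw [UvA]
    field_simp
    ring
  simp only [Pi.div_apply]
  rw [he]
  have h1 : (1 - (1 + s + s ^ 2 / 2 + s ^ 3 / 6 + s ^ 3 * UvA s)) ^ 2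
      = s ^ 2 * (1 + s / 2 + s ^ 2 / 6 + s ^ 2 * UvA s) ^ 2 := by ring
  have h4 : 1 + s + s ^ 2 / 2 + s ^ 3 / 6 + s ^ 3 * UvA s =
      (1 + s / 2 + s ^ 2 / 6 + s ^ 2 * UvA s) ^ 2 + s ^ 2 * (-1 / 12 + s / 6 + s * UvA s
      - 2 * UvA s - s * (1 / 6 + UvA s) - s ^ 2 * (1 / 6 + UvA s) ^ 2) := by ring
  rw [h1, h4]
  have h2 : (1 + s / 2 + s ^ 2 / 6 + s ^ 2 * UvA s) ≠ 0 := hs
  generalize (1 + s / 2 + s ^ 2 / 6 + s ^ 2 * UvA s) = E at h2
  generalize (-1 / 12 + s / 6 + s * UvA s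
      - 2 * UvA s - s * (1 / 6 + UvA s) - s ^ 2 * (1 / 6 + UvA s) ^ 2) = R
  field_simp
  ring

private def UvT (q w : ℂ) : ℂ := ∑' k : ℕ,
  (w * q ^ (k + 1) / (1 - w * q ^ (k + 1)) ^ 2 +
    w⁻¹ * q ^ (k + 1) / (1 - w⁻¹ * q ^ (k + 1)) ^ 2)

private lemma Uv_pow_le {q : ℂ} (hq1 : ‖q‖ < 1) (k : ℕ) : ‖q‖ ^ (k + 1) ≤ ‖q‖ := by
  calc ‖q‖ ^ (k + 1) = ‖q‖ ^ k * ‖q‖ := by ring
    _ ≤ 1 * ‖q‖ := by
      apply mul_le_mul_of_nonneg_right _ (norm_nonneg _)
      exact pow_le_one₀ (norm_nonneg _) hq1.le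
    _ = ‖q‖ := one_mul _

private lemma Uv_term {q : ℂ} (hq1 : ‖q‖ < 1) (x : ℂ) (hx : ‖x‖ ≤ 1 + (1 - ‖q‖) / 2) (k : ℕ) :
    1 - x * q ^ (k + 1) ≠ 0 ∧
    ‖x * q ^ (k + 1) / (1 - x * q ^ (k + 1)) ^ 2‖ ≤ 8 / (1 - ‖q‖) ^ 2 * ‖q‖ ^ (k + 1) := by
  set r := ‖q‖ with hr
  have hr0 : 0 ≤ r := norm_nonneg _
  have hp0 : 0 ≤ r ^ (k + 1) := by positivity
  have h1 : ‖x * q ^ (k + 1)‖ ≤ (1 + (1 - r) / 2) * r ^ (k + 1) := by
    rw [norm_mul, norm_pow]
    exact mul_le_mul_of_nonneg_right hx hp0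
  have h2 : r ^ (k + 1) ≤ r := Uv_pow_le hq1 k
  have h3 : (1 - r) / 2 ≤ ‖1 - x * q ^ (k + 1)‖ := by
    have h4 := norm_sub_norm_le (1 : ℂ) (x * q ^ (k + 1))
    rw [norm_one] at h4
    have h5 : (1 + (1 - r) / 2) * r ^ (k + 1) ≤ (1 + (1 - r) / 2) * r :=
      mul_le_mul_of_nonneg_left h2 (by linarith)
    have h6 : (1 + (1 - r) / 2) * r ≤ (1 + r) / 2 := by nlinarith
    linarith
  have h0 : 0 < (1 - r) / 2 := by linarith
  refine ⟨fun h => ?_, ?_⟩
  · rw [h, norm_zero] at h3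
    linarith
  · rw [norm_div, norm_pow]
    have h4 : ((1 - r) / 2) ^ 2 ≤ ‖1 - x * q ^ (k + 1)‖ ^ 2 := pow_le_pow_left₀ h0.le h3 2
    have h5 : ‖x * q ^ (k + 1)‖ ≤ 2 * r ^ (k + 1) := h1.trans (by nlinarith)
    calc ‖x * q ^ (k + 1)‖ / ‖1 - x * q ^ (k + 1)‖ ^ 2 ≤ (2 * r ^ (k + 1)) / ((1 - r) / 2) ^ 2 :=
          div_le_div₀ (by positivity) h5 (by positivity) h4
      _ = 8 / (1 - r) ^ 2 * r ^ (k + 1) := by
          have : (1 - r) ≠ 0 := by linarith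
          field_simp
          ring

private lemma UvT_cont {q : ℂ} (hq1 : ‖q‖ < 1) : ContinuousAt (UvT q) 1 := by
  set r := ‖q‖ with hr
  have hr0 : 0 ≤ r := norm_nonneg _
  have hball : Metric.closedBall (1 : ℂ) ((1 - r) / 4) ∈ 𝓝 (1 : ℂ) :=
    Metric.closedBall_mem_nhds _ (by linarith)
  have hnorm : ∀ w ∈ Metric.closedBall (1 : ℂ) ((1 - r) / 4),
      ‖w‖ ≤ 1 + (1 - r) / 2 ∧ ‖w⁻¹‖ ≤ 1 + (1 - r) / 2 ∧ w ≠ 0 := by
    intro w hw
    rw [mem_closedBall_iff_norm] at hw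
    have h1 : ‖w‖ ≤ ‖w - 1‖ + ‖(1 : ℂ)‖ := by
      simpa using norm_add_le (w - 1) 1
    have h2 : ‖(1 : ℂ)‖ ≤ ‖w‖ + ‖w - 1‖ := by
      have := norm_sub_le w (w - 1)
      simpa using this
    rw [norm_one] at h1 h2
    have h3 : 1 - (1 - r) / 4 ≤ ‖w‖ := by linarith
    have h4 : 0 < 1 - (1 - r) / 4 := by linarith
    refine ⟨by linarith, ?_, ?_⟩
    · rw [norm_inv]
      have h5 : ‖w‖⁻¹ ≤ (1 - (1 - r) / 4)⁻¹ := inv_anti₀ h4 h3
      refine h5.trans ?_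
      rw [inv_le_iff_one_le_mul₀ h4]
      nlinarith
    · intro h
      rw [h, norm_zero] at h3
      linarith
  have : ContinuousOn (UvT q) (Metric.closedBall (1 : ℂ) ((1 - r) / 4)) := by
    refine continuousOn_tsum (u := fun k => 16 / (1 - r) ^ 2 * r ^ (k + 1)) ?_ ?_ ?_
    · intro k w hw
      obtain ⟨h1, h2, h3⟩ := hnorm w hw
      have t1 := (Uv_term hq1 w h1 k).1
      have t2 := (Uv_term hq1 w⁻¹ h2 k).1
      apply ContinuousAt.continuousWithinAt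
      apply ContinuousAt.add
      · exact ContinuousAt.div (by fun_prop) (by fun_prop) (pow_ne_zero _ t1)
      · exact ContinuousAt.div ((continuousAt_inv₀ h3).mul continuousAt_const)
          ((continuousAt_const.sub ((continuousAt_inv₀ h3).mul continuousAt_const)).pow 2)
          (pow_ne_zero _ t2)
    · exact (summable_uq hq1).mul_left _
    · intro k w hw
      obtain ⟨h1, h2, h3⟩ := hnorm w hw
      have t1 := (Uv_term hq1 w h1 k).2
      have t2 := (Uv_term hq1 w⁻¹ h2 k).2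
      calc _ ≤ _ := norm_add_le _ _
        _ ≤ 8 / (1 - r) ^ 2 * r ^ (k + 1) + 8 / (1 - r) ^ 2 * r ^ (k + 1) := add_le_add t1 t2
        _ = 16 / (1 - r) ^ 2 * r ^ (k + 1) := by ring
  exact this.continuousAt hball

private lemma UvT_one {q : ℂ} (hq1 : ‖q‖ < 1) : UvT q 1 = 2 * ∑' m : ℕ,
    (((ArithmeticFunction.sigma 1) (m + 1) : ℕ) : ℂ) * q ^ (m + 1) := by
  have h1 := tsum_prod_pow_eq_tsum_sigma 1 hq1
  have h2 : ∀ d : ℕ+, ∑' c : ℕ+, ((c : ℕ) : ℂ) ^ 1 * q ^ ((d : ℕ) * (c : ℕ)) =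
      q ^ (d : ℕ) / (1 - q ^ (d : ℕ)) ^ 2 := by
    intro d
    have hd : ‖q ^ (d : ℕ)‖ < 1 := by
      rw [norm_pow]
      exact pow_lt_one₀ (norm_nonneg _) hq1 d.ne_zero
    rw [← tsum_coe_mul_geometric_of_norm_lt_one hd]
    have hs : Summable (fun n : ℕ => ((n : ℕ) : ℂ) * (q ^ (d : ℕ)) ^ n) :=
      (hasSum_coe_mul_geometric_of_norm_lt_one hd).summable
    rw [tsum_pnat_eq_tsum_succ (f := fun n : ℕ => ((n : ℕ) : ℂ) ^ 1 * q ^ ((d : ℕ) * n)),
      hs.tsum_eq_zero_add]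
    simp [pow_mul]
  rw [tsum_congr h2] at h1
  rw [tsum_pnat_eq_tsum_succ (f := fun n : ℕ => q ^ n / (1 - q ^ n) ^ 2),
    tsum_pnat_eq_tsum_succ (f := fun n : ℕ =>
      (((ArithmeticFunction.sigma 1) n : ℕ) : ℂ) * q ^ n)] at h1
  rw [← h1, UvT, ← tsum_mul_left]
  refine tsum_congr fun k => ?_
  simp only [inv_one, one_mul]
  ring

private lemma Uv_val {τ : ℂ} (h : 0 < τ.im) : (-1 / 12 : ℂ) + UvT (uq τ) 1 =
    -(E2f τ) / 12 := by
  have h1 : UvT (uq τ) 1 = _ := UvT_one (uq_lt h)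
  rw [h1, E2f, uq]
  ring

open Classical in
private def UvR (τ : ℂ) (h : 0 < τ.im) (s : ℂ) : ℂ :=
  if s ∈ (uL τ h).lattice then -(E2f τ) / 12
  else uf (uq τ) (Complex.exp s) - (uL τ h).weierstrassP s

private lemma UvR_diff {τ : ℂ} (h : 0 < τ.im) {s : ℂ} (hs : s ∉ (uL τ h).lattice) :
    DifferentiableAt ℂ (UvR τ h) s := by
  have h1 : DifferentiableAt ℂ
      (fun z => uf (uq τ) (Complex.exp z) - (uL τ h).weierstrassP z) s := by
    have hg : Complex.exp s ∈ ugood (uq τ) := (exp_mem_ugood h s).2 hs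
    have h2 := (uf_differentiableAt (uq_ne τ) (uq_lt h) hg).comp s
      Complex.differentiable_exp.differentiableAt
    exact h2.sub ((uL τ h).analyticOnNhd_weierstrassP s hs).differentiableAt
  refine h1.congr_of_eventuallyEq ?_
  filter_upwards [(uL τ h).isClosed_lattice.isOpen_compl.mem_nhds hs] with z hz
  have hz' : z ∉ (uL τ h).lattice := hz
  rw [UvR, if_neg hz']

private lemma UvR_cont {τ : ℂ} (h : 0 < τ.im) : ContinuousAt (UvR τ h) 0 := by
  rw [continuousAt_iff_punctured_nhds]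
  have h0 : UvR τ h 0 = -(E2f τ) / 12 := by
    rw [UvR, if_pos (zero_mem _)]
  rw [h0, ← Uv_val h]
  have hT : Tendsto (fun s : ℂ => UvT (uq τ) (Complex.exp s)) (𝓝[≠] 0)
      (𝓝 (UvT (uq τ) 1)) := by
    have h1 : ContinuousAt (fun s : ℂ => UvT (uq τ) (Complex.exp s)) 0 := by
      apply ContinuousAt.comp (g := UvT (uq τ)) (f := Complex.exp)
      · rw [Complex.exp_zero]
        exact UvT_cont (uq_lt h)
      · exact Complex.continuous_exp.continuousAt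
    have h2 : Tendsto (fun s : ℂ => UvT (uq τ) (Complex.exp s)) (𝓝 0)
      (𝓝 (UvT (uq τ) (Complex.exp 0))) := h1
    rw [Complex.exp_zero] at h2
    exact h2.mono_left nhdsWithin_le_nhds
  have hP : Tendsto (fun s : ℂ => (uL τ h).weierstrassPExcept 0 s) (𝓝[≠] 0) (𝓝 0) := by
    have h1 := ((uL τ h).analyticAt_weierstrassPExcept 0).continuousAt
    have h2 : Tendsto (fun s : ℂ => (uL τ h).weierstrassPExcept 0 s) (𝓝 0)
      (𝓝 ((uL τ h).weierstrassPExcept 0 0)) := h1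
    rw [(uL τ h).weierstrassPExcept_zero] at h2
    exact h2.mono_left nhdsWithin_le_nhds
  have hA := (Uv_lim.add hT).sub hP
  rw [sub_zero] at hA
  refine hA.congr' ?_
  filter_upwards [nhdsWithin_le_nhds ((uL τ h).compl_lattice_sdiff_singleton_mem_nhds 0),
    self_mem_nhdsWithin] with s hs hs0
  have hs0' : s ≠ 0 := hs0
  have hs1 : s ∉ (uL τ h).lattice := fun h => hs ⟨h, hs0'⟩
  rw [UvR, if_neg hs1]
  have h1 := (uL τ h).weierstrassPExcept_def (0 : (uL τ h).lattice) s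
  simp only [ZeroMemClass.coe_zero, sub_zero] at h1
  rw [h1]
  have h2 : uf (uq τ) (Complex.exp s) =
    Complex.exp s / (1 - Complex.exp s) ^ 2 + UvT (uq τ) (Complex.exp s) := rfl
  rw [h2]
  simp
  ring

private lemma UvR_analytic_zero {τ : ℂ} (h : 0 < τ.im) : AnalyticAt ℂ (UvR τ h) 0 := by
  refine Complex.analyticAt_of_differentiable_on_punctured_nhds_of_continuousAt ?_ (UvR_cont h)
  filter_upwards [nhdsWithin_le_nhds ((uL τ h).compl_lattice_sdiff_singleton_mem_nhds 0),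
    self_mem_nhdsWithin] with s hs hs0
  have hs0' : s ≠ 0 := hs0
  exact UvR_diff h fun h => hs ⟨h, hs0'⟩

private lemma UvR_add {τ : ℂ} (h : 0 < τ.im) (s l : ℂ) (hl : l ∈ (uL τ h).lattice) :
    UvR τ h (s + l) = UvR τ h s := by
  let G : AddSubgroup ℂ :=
    { carrier := { z | ∀ s, UvR τ h (s + z) = UvR τ h s }
      add_mem' := by
        intro a b ha hb s
        rw [← add_assoc, hb, ha]
      zero_mem' := by simp
      neg_mem' := by
        intro z hz s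
        rw [← hz (s + -z)]
        simp }
  have key : ∀ z ∈ (uL τ h).lattice, (∀ s, s ∉ (uL τ h).lattice →
      uf (uq τ) (Complex.exp (s + z)) = uf (uq τ) (Complex.exp s)) → z ∈ G := by
    intro z hz h' s
    by_cases hs : s ∈ (uL τ h).lattice
    · have : s + z ∈ (uL τ h).lattice := add_mem hs hz
      rw [UvR, UvR, if_pos hs, if_pos this]
    · have : s + z ∉ (uL τ h).lattice := fun h' => hs (by simpa using sub_mem h' hz)
      rw [UvR, UvR, if_neg hs, if_neg this, h' s hs]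
      have := (uL τ h).weierstrassP_add_coe s ⟨z, hz⟩
      simp only at this
      rw [this]
  have : (uL τ h).lattice ≤ AddSubgroup.toIntSubmodule G := by
    rw [PeriodPair.lattice, Submodule.span_le]
    rintro _ (rfl | rfl)
    · apply key _ (uL τ h).ω₁_mem_lattice
      intro s hs
      congr 1
      rw [Complex.exp_eq_exp_iff_exists_int]
      exact ⟨1, by simp [uL, PL]⟩
    · apply key _ (uL τ h).ω₂_mem_lattice
      intro s hs
      have h2 : Complex.exp (s + (uL τ h).ω₂) = uq τ * Complex.exp s := by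
        rw [uq, ← Complex.exp_add]
        congr 1
        simp only [uL, PL]
        ring
      rw [h2]
      exact uf_q (uq_ne τ) (uq_lt h) ((exp_mem_ugood h s).2 hs)
  exact this hl s

private lemma UvR_differentiable {τ : ℂ} (h : 0 < τ.im) : Differentiable ℂ (UvR τ h) := by
  intro s
  by_cases hs : s ∈ (uL τ h).lattice
  · have h0 : DifferentiableAt ℂ (UvR τ h) (s - s) := by
      rw [sub_self]
      exact (UvR_analytic_zero h).differentiableAt
    have h1 : DifferentiableAt ℂ (fun z => UvR τ h (z - s)) s :=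
      DifferentiableAt.comp (g := UvR τ h) (f := fun z => z - s) s h0 (by fun_prop)
    have h2 : (fun z => UvR τ h (z - s)) = UvR τ h := by
      funext z
      have := UvR_add h (z - s) s hs
      rw [← this]
      simp
    rwa [h2] at h1
  · exact UvR_diff h hs

private lemma UvR_const {τ : ℂ} (h : 0 < τ.im) (s : ℂ) : UvR τ h s = UvR τ h 0 := by
  have hd := UvR_differentiable h
  exact hd.apply_eq_apply_of_bounded (IsZLattice.isCompact_range_of_periodic (uL τ h).lattice _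
    hd.continuous fun z w hw => UvR_add h z w hw).isBounded s 0

theorem uf_eq_wp' {τ : ℂ} (h : 0 < τ.im) (s : ℂ) (hs : s ∉ (uL τ h).lattice) :
    uf (uq τ) (Complex.exp s) = (uL τ h).weierstrassP s - E2f τ / 12 := by
  have h1 := UvR_const h s
  rw [UvR, UvR, if_neg hs, if_pos (zero_mem _)] at h1
  linear_combination h1

theorem uexp_mem_good {τ : ℂ} (h : 0 < τ.im) (s : ℂ) :
    Complex.exp s ∈ ugood (uq τ) ↔ s ∉ (uL τ h).lattice := exp_mem_ugood h s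

end Pool.Agent.Lib.MP5e
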