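import Pool.Agent.Lib.MP_5e64e7_nt.UDefs

set_option autoImplicit false

/-!
# U.NUM : the numerical inequality (block D). All quantities are bounded by powers of two.
-/

noncomputable section

namespace Pool.Agent.Lib.MP5e

open Polynomial Topology

private theorem UNum_two_pow_le (m : ℕ) : (2 : ℝ) ^ m ≤ Real.exp m := by
  have h : (2 : ℝ) ≤ Real.exp 1 := by
    have := Real.exp_one_gt_d9
    linarith
  calc (2 : ℝ) ^ m ≤ Real.exp 1 ^ m := pow_le_pow_left₀ (by norm_num) h m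
    _ = Real.exp m := by rw [← Real.exp_nat_mul, mul_one]

theorem unum {C l d D M2 T0 K Z Q : ℕ} {δ Γ S η : ℝ} (hC : 1 ≤ C) (hl : 1 ≤ l) (hd : 1 ≤ d)
    (hD1 : 1 ≤ D) (hM2 : M2 = (D + 1) ^ 2) (hZ : Z = 10 * (D + 1) ^ 2)
    (hQ : Q = 14 * (2 * D + Z)) (hQl : Q ≤ 2 ^ l) (hDT : D ≤ T0) (hK : 26 * C * l * (d + 1) ≤ K)
    (hΓ : Γ = ((14 * (2 * D + T0)) ^ T0 * 2 ^ (l * (3 * D + T0)) : ℕ)) (hS : S = (M2 : ℝ) ^ 2 * Γ)
    (hδ0 : 0 < δ) (hδ : δ * 2 ^ (l * Z * (K + 31 * (d + 1))) ≤ 1)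
    (hη : η = δ * Z * (S * (Q : ℝ) ^ Z * 2 ^ (l * (2 * D + Z)))) (T : ℕ) (hT0 : T0 ≤ T)
    (hTZ : T ≤ Z) :
    (T.factorial * ((2 : ℝ) ^ l) ^ T * (S * Real.exp (-((K : ℝ) * T / C)) +
      η * ((2 : ℝ) ^ l) ^ (K * T)) + η) * (S * (Q : ℝ) ^ T * 2 ^ (l * (3 * D + T))) ^ d < 1 := by
  have h12 : (1 : ℝ) ≤ 2 := by norm_num
  have hT1 : 1 ≤ T := by omega
  have hZ1 : 1 ≤ Z := by omega
  have hTQ : T ≤ Q := by omega
  have hM2Q : M2 ≤ Q := by rw [hQ, hZ, hM2]; omega
  have hT0Q : 14 * (2 * D + T0) ≤ Q := by omega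
  have hQr : (Q : ℝ) ≤ 2 ^ l := by exact_mod_cast hQl
  have hQ0 : (0 : ℝ) ≤ Q := Nat.cast_nonneg _
  have hQ1 : (1 : ℝ) ≤ Q := by exact_mod_cast (by omega : 1 ≤ Q)
  -- powers of two
  have hQp : ∀ m : ℕ, (Q : ℝ) ^ m ≤ 2 ^ (l * m) := fun m => by
    rw [pow_mul]; exact pow_le_pow_left₀ hQ0 hQr m
  have hΓ0 : 0 < Γ := by
    rw [hΓ]
    have : 0 < (14 * (2 * D + T0)) ^ T0 * 2 ^ (l * (3 * D + T0)) :=
      Nat.mul_pos (Nat.pow_pos (by omega)) (by positivity)
    exact_mod_cast this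
  have hM21 : (1 : ℝ) ≤ M2 := by
    rw [hM2]
    exact_mod_cast Nat.one_le_iff_ne_zero.mpr (by positivity)
  have hS0 : 0 < S := by rw [hS]; positivity
  have hΓle : Γ ≤ 2 ^ (l * (3 * D + 2 * T0)) := by
    rw [hΓ]
    push_cast
    have h1 : (14 * (2 * (D : ℝ) + T0)) ^ T0 ≤ 2 ^ (l * T0) := by
      refine le_trans (pow_le_pow_left₀ (by positivity) ?_ T0) (hQp T0)
      exact_mod_cast hT0Q
    calc (14 * (2 * (D : ℝ) + T0)) ^ T0 * 2 ^ (l * (3 * D + T0))
        ≤ 2 ^ (l * T0) * 2 ^ (l * (3 * D + T0)) :=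
          mul_le_mul_of_nonneg_right h1 (by positivity)
      _ = 2 ^ (l * (3 * D + 2 * T0)) := by rw [← pow_add]; congr 1; ring
  have hSle : S ≤ 2 ^ (l * (7 * T)) := by
    have h1 : (M2 : ℝ) ^ 2 ≤ 2 ^ (l * 2) :=
      le_trans (pow_le_pow_left₀ (by positivity) (by exact_mod_cast hM2Q) 2) (hQp 2)
    calc S = (M2 : ℝ) ^ 2 * Γ := hS
      _ ≤ 2 ^ (l * 2) * 2 ^ (l * (3 * D + 2 * T0)) :=
          mul_le_mul h1 hΓle hΓ0.le (by positivity)
      _ = 2 ^ (l * 2 + l * (3 * D + 2 * T0)) := by rw [← pow_add]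
      _ ≤ 2 ^ (l * (7 * T)) := by
          apply pow_le_pow_right₀ h12
          rw [← mul_add]
          apply Nat.mul_le_mul_left
          omega
  have hfac : (T.factorial : ℝ) ≤ 2 ^ (l * T) := by
    calc (T.factorial : ℝ) ≤ (T : ℝ) ^ T := by exact_mod_cast Nat.factorial_le_pow T
      _ ≤ (Q : ℝ) ^ T := pow_le_pow_left₀ (Nat.cast_nonneg _) (by exact_mod_cast hTQ) T
      _ ≤ 2 ^ (l * T) := hQp T
  set B : ℝ := S * (Q : ℝ) ^ T * 2 ^ (l * (3 * D + T)) with hB
  have hB0 : 0 < B := by positivity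
  have hBle : B ≤ 2 ^ (l * (12 * T)) := by
    calc B ≤ 2 ^ (l * (7 * T)) * 2 ^ (l * T) * 2 ^ (l * (3 * D + T)) :=
          mul_le_mul_of_nonneg_right (mul_le_mul hSle (hQp T) (by positivity) (by positivity))
            (by positivity)
      _ = 2 ^ (l * (7 * T) + l * T + l * (3 * D + T)) := by rw [← pow_add, ← pow_add]
      _ ≤ 2 ^ (l * (12 * T)) := by
          apply pow_le_pow_right₀ h12
          rw [← mul_add, ← mul_add]
          apply Nat.mul_le_mul_left
          omega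
  have hBd : B ^ d ≤ 2 ^ (l * (12 * T) * d) := by
    rw [pow_mul]; exact pow_le_pow_left₀ hB0.le hBle d
  have hBd0 : 0 ≤ B ^ d := by positivity
  have hc1 : ∀ m : ℕ, ((2 : ℝ) ^ l) ^ m = 2 ^ (l * m) := fun m => by rw [pow_mul]
  -- the exponential
  have hexp : Real.exp (-((K : ℝ) * T / C)) * 2 ^ (26 * l * (d + 1) * T) ≤ 1 := by
    have h1 := UNum_two_pow_le (26 * l * (d + 1) * T)
    have h2 : (((26 * l * (d + 1) * T : ℕ)) : ℝ) ≤ (K : ℝ) * T / C := by
      rw [le_div_iff₀ (by exact_mod_cast hC)]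
      have h3 : 26 * l * (d + 1) * T * C ≤ K * T := by
        calc 26 * l * (d + 1) * T * C = 26 * C * l * (d + 1) * T := by ring
          _ ≤ K * T := Nat.mul_le_mul_right _ hK
      exact_mod_cast h3
    calc Real.exp (-((K : ℝ) * T / C)) * 2 ^ (26 * l * (d + 1) * T)
        ≤ Real.exp (-((K : ℝ) * T / C)) * Real.exp ((K : ℝ) * T / C) :=
          mul_le_mul_of_nonneg_left (h1.trans (Real.exp_le_exp.mpr h2)) (Real.exp_pos _).le
      _ = 1 := by rw [← Real.exp_add]; simp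
  -- main term
  have hlTd : 1 ≤ l * T * (d + 1) := Nat.mul_pos (Nat.mul_pos hl hT1) (by omega)
  have hmain : (T.factorial : ℝ) * ((2 : ℝ) ^ l) ^ T * (S * Real.exp (-((K : ℝ) * T / C))) * B ^ d ≤
      1 / 4 := by
    have h1 : (T.factorial : ℝ) * ((2 : ℝ) ^ l) ^ T * (S * Real.exp (-((K : ℝ) * T / C))) * B ^ d ≤
        2 ^ (l * T) * 2 ^ (l * T) * (2 ^ (l * (7 * T)) * Real.exp (-((K : ℝ) * T / C))) *
          2 ^ (l * (12 * T) * d) := by
      rw [hc1]
      refine mul_le_mul (mul_le_mul (mul_le_mul_of_nonneg_right hfac (by positivity))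
        (mul_le_mul_of_nonneg_right hSle (Real.exp_pos _).le) (by positivity) (by positivity)) hBd
        hBd0 (by positivity)
    refine h1.trans ?_
    have h2 : (2 : ℝ) ^ (l * T) * 2 ^ (l * T) * (2 ^ (l * (7 * T)) *
        Real.exp (-((K : ℝ) * T / C))) * 2 ^ (l * (12 * T) * d) =
        Real.exp (-((K : ℝ) * T / C)) * 2 ^ (l * T + l * T + l * (7 * T) + l * (12 * T) * d) := by
      rw [pow_add, pow_add, pow_add]; ring
    rw [h2]
    have h3 : l * T + l * T + l * (7 * T) + l * (12 * T) * d + 2 ≤ 26 * l * (d + 1) * T := by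
      calc l * T + l * T + l * (7 * T) + l * (12 * T) * d + 2
          ≤ l * T + l * T + l * (7 * T) + l * (12 * T) * d + 2 * (l * T * (d + 1)) := by omega
        _ = l * T * (11 + 14 * d) := by ring
        _ ≤ l * T * (26 * (d + 1)) := Nat.mul_le_mul_left _ (by omega)
        _ = 26 * l * (d + 1) * T := by ring
    have h4 : Real.exp (-((K : ℝ) * T / C)) * (2 ^ (l * T + l * T + l * (7 * T) +
        l * (12 * T) * d) * 4) ≤ 1 := by
      refine le_trans (mul_le_mul_of_nonneg_left ?_ (Real.exp_pos _).le) hexp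
      calc (2 : ℝ) ^ (l * T + l * T + l * (7 * T) + l * (12 * T) * d) * 4 =
            2 ^ (l * T + l * T + l * (7 * T) + l * (12 * T) * d + 2) := by
            rw [pow_add _ _ 2]; norm_num
        _ ≤ 2 ^ (26 * l * (d + 1) * T) := pow_le_pow_right₀ h12 h3
    linarith
  -- the error terms
  have hη0 : 0 ≤ η := by rw [hη]; positivity
  have hηle : η ≤ δ * 2 ^ (l * (12 * Z)) := by
    have hSZ : S ≤ 2 ^ (l * (7 * Z)) := hSle.trans
      (pow_le_pow_right₀ h12 (Nat.mul_le_mul_left _ (by omega)))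
    have hZQ : (Z : ℝ) ≤ 2 ^ (l * 1) := by
      rw [mul_one]
      refine le_trans ?_ hQr
      exact_mod_cast (by omega : Z ≤ Q)
    rw [hη, mul_assoc]
    refine mul_le_mul_of_nonneg_left ?_ hδ0.le
    calc (Z : ℝ) * (S * (Q : ℝ) ^ Z * 2 ^ (l * (2 * D + Z)))
        ≤ 2 ^ (l * 1) * (2 ^ (l * (7 * Z)) * 2 ^ (l * Z) * 2 ^ (l * (2 * D + Z))) :=
          mul_le_mul hZQ (mul_le_mul_of_nonneg_right (mul_le_mul hSZ (hQp Z) (by positivity)
            (by positivity)) (by positivity)) (by positivity) (by positivity)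
      _ = 2 ^ (l * 1 + (l * (7 * Z) + l * Z + l * (2 * D + Z))) := by
          rw [← pow_add, ← pow_add, ← pow_add]
      _ ≤ 2 ^ (l * (12 * Z)) := by
          apply pow_le_pow_right₀ h12
          rw [← mul_add, ← mul_add, ← mul_add]
          apply Nat.mul_le_mul_left
          omega
  have herr : (T.factorial * ((2 : ℝ) ^ l) ^ T * (η * ((2 : ℝ) ^ l) ^ (K * T)) + η) * B ^ d ≤
      1 / 4 := by
    have h1 : T.factorial * ((2 : ℝ) ^ l) ^ T * (η * ((2 : ℝ) ^ l) ^ (K * T)) + η ≤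
        2 ^ (l * T + l * T + l * (K * T) + 1) * η := by
      rw [hc1, hc1]
      have h2 : T.factorial * (2 : ℝ) ^ (l * T) * (η * 2 ^ (l * (K * T))) ≤
          2 ^ (l * T + l * T + l * (K * T)) * η := by
        calc T.factorial * (2 : ℝ) ^ (l * T) * (η * 2 ^ (l * (K * T)))
            ≤ 2 ^ (l * T) * (2 : ℝ) ^ (l * T) * (η * 2 ^ (l * (K * T))) :=
              mul_le_mul_of_nonneg_right (mul_le_mul_of_nonneg_right hfac (by positivity))
                (by positivity)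
          _ = 2 ^ (l * T + l * T + l * (K * T)) * η := by rw [pow_add, pow_add]; ring
      have h3 : η ≤ 2 ^ (l * T + l * T + l * (K * T)) * η := by
        have h4 : (1 : ℝ) ≤ 2 ^ (l * T + l * T + l * (K * T)) := one_le_pow₀ h12
        nlinarith
      rw [pow_succ]
      linarith
    calc (T.factorial * ((2 : ℝ) ^ l) ^ T * (η * ((2 : ℝ) ^ l) ^ (K * T)) + η) * B ^ d
        ≤ (2 ^ (l * T + l * T + l * (K * T) + 1) * (δ * 2 ^ (l * (12 * Z)))) *
          2 ^ (l * (12 * T) * d) :=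
          mul_le_mul (h1.trans (mul_le_mul_of_nonneg_left hηle (by positivity))) hBd hBd0
            (by positivity)
      _ = δ * 2 ^ (l * T + l * T + l * (K * T) + 1 + l * (12 * Z) + l * (12 * T) * d) := by
          rw [pow_add _ _ (l * (12 * T) * d), pow_add _ _ (l * (12 * Z))]; ring
      _ ≤ 1 / 4 := by
          have h5 : l * T + l * T + l * (K * T) + 1 + l * (12 * Z) + l * (12 * T) * d + 2 ≤
              l * Z * (K + 31 * (d + 1)) := by
            have hlZ : 1 ≤ l * Z := Nat.mul_pos hl hZ1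
            have e1 : l * T ≤ l * Z := Nat.mul_le_mul_left _ hTZ
            have e2 : l * (K * T) ≤ l * Z * K := by
              calc l * (K * T) ≤ l * (K * Z) :=
                    Nat.mul_le_mul_left _ (Nat.mul_le_mul_left _ hTZ)
                _ = l * Z * K := by ring
            have e3 : l * (12 * T) * d ≤ l * Z * (12 * d) := by
              calc l * (12 * T) * d ≤ l * (12 * Z) * d :=
                    Nat.mul_le_mul_right _ (Nat.mul_le_mul_left _ (Nat.mul_le_mul_left _ hTZ))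
                _ = l * Z * (12 * d) := by ring
            calc l * T + l * T + l * (K * T) + 1 + l * (12 * Z) + l * (12 * T) * d + 2
                ≤ l * Z + l * Z + l * Z * K + l * Z + l * (12 * Z) + l * Z * (12 * d) +
                  2 * (l * Z) := by omega
              _ = l * Z * (K + 17 + 12 * d) := by ring
              _ ≤ l * Z * (K + 31 * (d + 1)) := Nat.mul_le_mul_left _ (by omega)
          have h6 : δ * (2 ^ (l * T + l * T + l * (K * T) + 1 + l * (12 * Z) +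
              l * (12 * T) * d) * 4) ≤ 1 := by
            refine le_trans (mul_le_mul_of_nonneg_left ?_ hδ0.le) hδ
            calc (2 : ℝ) ^ (l * T + l * T + l * (K * T) + 1 + l * (12 * Z) + l * (12 * T) * d) * 4 =
                  2 ^ (l * T + l * T + l * (K * T) + 1 + l * (12 * Z) + l * (12 * T) * d + 2) := by
                  rw [pow_add _ _ 2]; norm_num
              _ ≤ 2 ^ (l * Z * (K + 31 * (d + 1))) := pow_le_pow_right₀ h12 h5
          linarith
  calc (T.factorial * ((2 : ℝ) ^ l) ^ T * (S * Real.exp (-((K : ℝ) * T / C)) +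
      η * ((2 : ℝ) ^ l) ^ (K * T)) + η) * B ^ d
      = (T.factorial : ℝ) * ((2 : ℝ) ^ l) ^ T * (S * Real.exp (-((K : ℝ) * T / C))) * B ^ d +
        (T.factorial * ((2 : ℝ) ^ l) ^ T * (η * ((2 : ℝ) ^ l) ^ (K * T)) + η) * B ^ d := by ring
    _ ≤ 1 / 4 + 1 / 4 := add_le_add hmain herr
    _ < 1 := by norm_num

end Pool.Agent.Lib.MP5e
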