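import Pool.Agent.Lib.MP_5e64e7_nt.UG23
import Pool.Agent.Lib.MP_5e64e7_nt.ULiouv

set_option autoImplicit false

/-!
# U.ODE : the differential equations at a general `tau` (block A, models `Liouv.lean`, `G2.lean`, `Ode.lean`)
-/

noncomputable section

namespace Pool.Agent.Lib.MP5e

open Polynomial Topology

private theorem uO_open (L : PeriodPair) : IsOpen ((L.lattice : Set ℂ)ᶜ) :=
  L.isClosed_lattice.isOpen_compl

private theorem uO_P (L : PeriodPair) {z : ℂ} (hz : z ∉ L.lattice) :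
    HasDerivAt L.weierstrassP (L.derivWeierstrassP z) z := by
  have h := (L.differentiableOn_weierstrassP.differentiableAt
    ((uO_open L).mem_nhds hz)).hasDerivAt
  rwa [L.deriv_weierstrassP] at h

private theorem uO_Q (L : PeriodPair) {z : ℂ} (hz : z ∉ L.lattice) :
    HasDerivAt L.derivWeierstrassP (deriv L.derivWeierstrassP z) z :=
  (L.differentiableOn_derivWeierstrassP.differentiableAt ((uO_open L).mem_nhds hz)).hasDerivAt

/-- the derivative of `℘` does not vanish locally -/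
private theorem uO_nz (L : PeriodPair) {z₀ : ℂ} (hz₀ : z₀ ∉ L.lattice) :
    ¬ ∀ᶠ z in 𝓝 z₀, L.derivWeierstrassP z = 0 := by
  intro h
  have hc : IsPreconnected ((L.lattice : Set ℂ)ᶜ) := by
    refine (Set.Countable.isConnected_compl_of_one_lt_rank (by simp) ?_).2
    exact countable_of_Lindelof_of_discrete (X := L.lattice)
  have h1 := L.analyticOnNhd_derivWeierstrassP.eqOn_zero_of_preconnected_of_eventuallyEq_zero
    hc hz₀ h
  have h2 : ∀ᶠ z in 𝓝[≠] (0 : ℂ), L.derivWeierstrassPExcept 0 z * z ^ 3 = 2 := by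
    have h3 := L.compl_lattice_sdiff_singleton_mem_nhds 0
    filter_upwards [nhdsWithin_le_nhds h3, self_mem_nhdsWithin] with z hz hz0
    have hz0' : z ≠ 0 := hz0
    have hzL : z ∉ L.lattice := fun h4 => hz ⟨h4, hz0'⟩
    have h5 := L.derivWeierstrassPExcept_def ⟨0, L.lattice.zero_mem⟩ z
    have h6 : L.derivWeierstrassP z = 0 := h1 hzL
    rw [h6, zero_add] at h5
    change L.derivWeierstrassPExcept 0 z = 2 / (z - 0) ^ 3 at h5
    rw [h5, sub_zero]
    field_simp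
  have h3 : Filter.Tendsto (fun z : ℂ => L.derivWeierstrassPExcept 0 z * z ^ 3) (𝓝[≠] 0)
      (𝓝 (L.derivWeierstrassPExcept 0 0 * 0 ^ 3)) := by
    have h4 : ContinuousAt (fun z : ℂ => L.derivWeierstrassPExcept 0 z * z ^ 3) 0 :=
      (L.analyticAt_derivWeierstrassPExcept 0).continuousAt.mul (continuousAt_id.pow 3)
    exact h4.tendsto.mono_left nhdsWithin_le_nhds
  have h4 : Filter.Tendsto (fun z : ℂ => L.derivWeierstrassPExcept 0 z * z ^ 3) (𝓝[≠] 0)
      (𝓝 2) := by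
    refine Filter.Tendsto.congr' ?_ tendsto_const_nhds
    filter_upwards [h2] with z hz
    exact hz.symm
  have h5 := tendsto_nhds_unique h3 h4
  norm_num at h5

private theorem uO_PP (L : PeriodPair) {z : ℂ} (hz : z ∉ L.lattice) :
    HasDerivAt L.derivWeierstrassP (6 * L.weierstrassP z ^ 2 - L.g₂ / 2) z := by
  have key : ∀ z : ℂ, z ∉ L.lattice → L.derivWeierstrassP z *
      (deriv L.derivWeierstrassP z - (6 * L.weierstrassP z ^ 2 - L.g₂ / 2)) = 0 := by
    intro z hz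
    have h1 : HasDerivAt (fun z => L.derivWeierstrassP z ^ 2 -
        (4 * L.weierstrassP z ^ 3 - L.g₂ * L.weierstrassP z)) _ z :=
      ((uO_Q L hz).pow 2).sub ((((uO_P L hz).pow 3).const_mul 4).sub
        ((uO_P L hz).const_mul L.g₂))
    have h2 : (fun z => L.derivWeierstrassP z ^ 2 -
        (4 * L.weierstrassP z ^ 3 - L.g₂ * L.weierstrassP z)) =ᶠ[𝓝 z]
        fun _ => -L.g₃ := by
      filter_upwards [(uO_open L).mem_nhds hz] with v hv
      have h3 := L.derivWeierstrassP_sq v hv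
      rw [h3]
      ring
    have h3 := h1.unique ((hasDerivAt_const z (-L.g₃)).congr_of_eventuallyEq h2)
    linear_combination 1 / 2 * h3
  have h1 : deriv L.derivWeierstrassP z - (6 * L.weierstrassP z ^ 2 - L.g₂ / 2) = 0 := by
    by_contra h
    have hA : AnalyticAt ℂ (deriv L.derivWeierstrassP) z :=
      (L.analyticOnNhd_derivWeierstrassP z hz).deriv
    have hcont : ContinuousAt (fun z => deriv L.derivWeierstrassP z -
        (6 * L.weierstrassP z ^ 2 - L.g₂ / 2)) z :=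
      hA.continuousAt.sub ((((uO_P L hz).continuousAt.pow 2).const_mul 6).sub_const _)
    have h2 := hcont.eventually_ne h
    refine uO_nz L hz ?_
    filter_upwards [h2, (uO_open L).mem_nhds hz] with v hv hv'
    exact (mul_eq_zero.1 (key v hv')).resolve_right hv
  have h2 := uO_Q L hz
  rwa [sub_eq_zero.1 h1] at h2

private theorem uO_half {τ : ℂ} (h : 0 < τ.im) : (Real.pi : ℂ) * Complex.I ∉ (uL τ h).lattice := by
  have h1 := (uL τ h).ω₁_div_two_notMem_lattice
  have h2 : (uL τ h).ω₁ / 2 = (Real.pi : ℂ) * Complex.I := by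
    change 2 * (Real.pi : ℂ) * Complex.I / 2 = _
    ring
  rwa [h2] at h1

private theorem uO_exp (μ t : ℂ) : -Complex.exp (t / μ) =
    Complex.exp ((Real.pi : ℂ) * Complex.I + t / μ) := by
  rw [Complex.exp_add, Complex.exp_pi_mul_I]
  ring

private theorem uO_dhalf {τ : ℂ} (h : 0 < τ.im) :
    (uL τ h).derivWeierstrassP ((Real.pi : ℂ) * Complex.I) = 0 := by
  have h1 := (uL τ h).derivWeierstrassP_neg ((Real.pi : ℂ) * Complex.I)
  have h2 := (uL τ h).derivWeierstrassP_add_coe (-((Real.pi : ℂ) * Complex.I))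
    ⟨(uL τ h).ω₁, (uL τ h).ω₁_mem_lattice⟩
  have h3 : -((Real.pi : ℂ) * Complex.I) +
      ((⟨(uL τ h).ω₁, (uL τ h).ω₁_mem_lattice⟩ : (uL τ h).lattice) : ℂ) =
      (Real.pi : ℂ) * Complex.I := by
    change -((Real.pi : ℂ) * Complex.I) + 2 * (Real.pi : ℂ) * Complex.I = _
    ring
  rw [h3, h1] at h2
  exact self_eq_neg.1 h2

/-- the lattice function in the multiplicative variable -/
theorem uf_eq_wp {τ : ℂ} (h : 0 < τ.im) (s : ℂ) (hs : s ∉ (uL τ h).lattice) :
    uf (uq τ) (Complex.exp s) = (uL τ h).weierstrassP s - E2f τ / 12 :=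
  uf_eq_wp' h s hs

theorem uode {τ s b c μ : ℂ} (hτ : 0 < τ.im) (hs : s ≠ 0) (h4 : E4f τ = s ^ 2 * b)
    (h6 : E6f τ = s ^ 3 * c) (hμ : μ ^ 2 = s / 12) :
    ∃ (Y : ℂ → ℂ) (e : ℂ), e ^ 3 = 3 * b * e - 2 * c ∧
      (∀ᶠ t in 𝓝 (0 : ℂ), HasDerivAt (uX (uq τ) (E2f τ / 12) μ) (Y t) t) ∧
      (∀ᶠ t in 𝓝 (0 : ℂ), HasDerivAt Y (6 * uX (uq τ) (E2f τ / 12) μ t ^ 2 - 6 * b) t) ∧
      (∀ᶠ t in 𝓝 (0 : ℂ), HasDerivAt (uG (uq τ) μ)
        (E2f τ / s - uX (uq τ) (E2f τ / 12) μ t) t) ∧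
      uX (uq τ) (E2f τ / 12) μ 0 = e ∧ Y 0 = 0 ∧ uG (uq τ) μ 0 = 0 := by
  have hμ0 : μ ≠ 0 := by
    rintro rfl
    apply hs
    have : s = 12 * (s / 12) := by ring
    rw [this, ← hμ]
    ring
  have hs2 : s = 12 * μ ^ 2 := by rw [hμ]; ring
  have hq0 : 0 < ‖uq τ‖ := norm_pos_iff.2 (Complex.exp_ne_zero _)
  have hq1 : ‖uq τ‖ < 1 := by
    rw [uq, Complex.norm_exp, Real.exp_lt_one_iff]
    have h1 : (2 * (Real.pi : ℂ) * Complex.I * τ).re = -(2 * Real.pi * τ.im) := by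
      simp
    rw [h1]
    have := Real.pi_pos
    nlinarith [mul_pos Real.pi_pos hτ]
  set L := uL τ hτ with hL
  have hg2 : L.g₂ = E4f τ / 12 := ug2_eq τ hτ
  have hg3 : L.g₃ = -E6f τ / 216 := ug3_eq τ hτ
  have hff : ∀ z : ℂ, z ∉ L.lattice →
      uf (uq τ) (Complex.exp z) + E2f τ / 12 = L.weierstrassP z := by
    intro z hz
    rw [uf_eq_wp hτ z hz]
    ring
  have hX : ∀ t : ℂ, (Real.pi : ℂ) * Complex.I + t / μ ∉ L.lattice →
      uX (uq τ) (E2f τ / 12) μ t = L.weierstrassP ((Real.pi : ℂ) * Complex.I + t / μ) / μ ^ 2 := by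
    intro t ht
    rw [uX, uO_exp, hff _ ht]
  have hlin : ∀ t : ℂ, HasDerivAt (fun t : ℂ => (Real.pi : ℂ) * Complex.I + t / μ) (1 / μ) t := by
    intro t
    simpa using ((hasDerivAt_id t).div_const μ).const_add ((Real.pi : ℂ) * Complex.I)
  have hev2 : ∀ t : ℂ, (Real.pi : ℂ) * Complex.I + t / μ ∉ L.lattice →
      ∀ᶠ s in 𝓝 t, (Real.pi : ℂ) * Complex.I + s / μ ∉ L.lattice := by
    intro t ht
    exact (hlin t).continuousAt.eventually ((uO_open L).mem_nhds ht)
  have h00 : (Real.pi : ℂ) * Complex.I + 0 / μ = (Real.pi : ℂ) * Complex.I := by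
    rw [zero_div, add_zero]
  have hhalf0 : (Real.pi : ℂ) * Complex.I + 0 / μ ∉ L.lattice := by
    rw [h00]
    exact uO_half hτ
  have hev : ∀ᶠ t in 𝓝 (0 : ℂ), (Real.pi : ℂ) * Complex.I + t / μ ∉ L.lattice := hev2 0 hhalf0
  refine ⟨fun t => L.derivWeierstrassP ((Real.pi : ℂ) * Complex.I + t / μ) / μ ^ 3,
    L.weierstrassP ((Real.pi : ℂ) * Complex.I) / μ ^ 2, ?_, ?_, ?_, ?_, ?_, ?_, ?_⟩
  · have h1 := L.derivWeierstrassP_sq _ (uO_half hτ)
    rw [uO_dhalf hτ, hg2, hg3, h4, h6, hs2] at h1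
    field_simp
    linear_combination (-1 / 4) * h1
  · filter_upwards [hev] with t ht
    have h1 : uX (uq τ) (E2f τ / 12) μ =ᶠ[𝓝 t] fun t =>
        L.weierstrassP ((Real.pi : ℂ) * Complex.I + t / μ) / μ ^ 2 := by
      filter_upwards [hev2 t ht] with s hs
      exact hX s hs
    refine HasDerivAt.congr_of_eventuallyEq ?_ h1
    refine (((uO_P L ht).comp t (hlin t)).div_const (μ ^ 2)).congr_deriv ?_
    field_simp
  · filter_upwards [hev] with t ht
    refine (((uO_PP L ht).comp t (hlin t)).div_const (μ ^ 3)).congr_deriv ?_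
    rw [hX t ht, hg2, h4, hs2]
    field_simp
    ring
  · filter_upwards [hev] with t ht
    have hw : -Complex.exp (t / μ) ∈ ugood (uq τ) := by
      rw [uO_exp, uexp_mem_good hτ]
      exact ht
    have hw0 : Complex.exp (t / μ) ≠ 0 := Complex.exp_ne_zero _
    have h1 : HasDerivAt (fun t : ℂ => -Complex.exp (t / μ))
        (-(Complex.exp (t / μ) * (1 / μ))) t := by
      have h2 : HasDerivAt (fun t : ℂ => t / μ) (1 / μ) t := (hasDerivAt_id t).div_const μ
      exact (h2.cexp).neg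
    have h2 := ((ug_hasDerivAt (norm_pos_iff.1 hq0) hq1 hw).comp t h1).div_const μ
    refine HasDerivAt.congr_deriv (f := uG (uq τ) μ) h2 ?_
    unfold uX
    rw [hs2]
    field_simp
    ring
  · rw [hX 0 hhalf0, h00]
  · change L.derivWeierstrassP ((Real.pi : ℂ) * Complex.I + 0 / μ) / μ ^ 3 = 0
    rw [h00, uO_dhalf hτ, zero_div]
  · rw [uG, zero_div, Complex.exp_zero, ug_neg_one, zero_div]

end Pool.Agent.Lib.MP5e
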