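import Pool.Agent.Lib.MP_5e64e7_nt.UDefs
import Pool.Agent.Lib.MP_5e64e7_nt.Approx

set_option autoImplicit false

/-!
# U.ROOT : a root near `κ`, and the number field which contains everything (block D)
-/

noncomputable section

namespace Pool.Agent.Lib.MP5e

open Polynomial Topology

private theorem urt_prod_ge (x : ℂ) (δ : ℝ) (hδ : 0 ≤ δ) (s : Multiset ℂ)
    (h : ∀ a ∈ s, δ ≤ ‖x - a‖) : δ ^ Multiset.card s ≤ ‖(s.map (fun a => x - a)).prod‖ := by
  induction s using Multiset.induction_on with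
  | empty => simp
  | cons a s ih =>
    have h1 := ih (fun b hb => h b (Multiset.mem_cons_of_mem hb))
    have h2 := h a (Multiset.mem_cons_self a s)
    rw [Multiset.card_cons, Multiset.map_cons, Multiset.prod_cons, norm_mul, pow_succ, mul_comm]
    exact mul_le_mul h2 h1 (by positivity) (norm_nonneg _)

theorem uroot {K : IntermediateField ℚ ℂ} (P : Polynomial K) (hP : 1 ≤ P.natDegree) (κ : ℂ) :
    ∃ κ' : ℂ, Polynomial.aeval κ' P = 0 ∧
      ‖κ - κ'‖ ^ P.natDegree * ‖((P.leadingCoeff : K) : ℂ)‖ ≤ ‖Polynomial.aeval κ P‖ := by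
  classical
  set p : ℂ[X] := P.map (algebraMap K ℂ) with hp
  have hinj : Function.Injective (algebraMap K ℂ) := (algebraMap K ℂ).injective
  have hP0 : P ≠ 0 := by
    rintro rfl
    simp at hP
  have hp0 : p ≠ 0 := (Polynomial.map_ne_zero_iff hinj).2 hP0
  have hdeg : p.natDegree = P.natDegree := natDegree_map_eq_of_injective hinj P
  have hsp := IsAlgClosed.splits p
  have hcard : Multiset.card p.roots = P.natDegree := by
    rw [← hdeg]
    exact (splits_iff_card_roots.1 hsp)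
  have hlc : p.leadingCoeff = ((P.leadingCoeff : K) : ℂ) := by
    rw [hp, leadingCoeff_map_of_injective hinj]
    rfl
  have hne : p.roots.toFinset.Nonempty := by
    rw [Finset.nonempty_iff_ne_empty]
    intro h
    rw [Multiset.toFinset_eq_empty] at h
    rw [h, Multiset.card_zero] at hcard
    omega
  obtain ⟨κ', hκ', hmin⟩ := p.roots.toFinset.exists_min_image (fun a => ‖κ - a‖) hne
  refine ⟨κ', ?_, ?_⟩
  · have h1 : p.eval κ' = 0 := (mem_roots hp0).1 (Multiset.mem_toFinset.1 hκ')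
    rw [← eval_map_algebraMap]
    exact h1
  · have hev : aeval κ P = p.eval κ := by rw [hp, eval_map_algebraMap]
    rw [hev, hsp.eval_eq_prod_roots, norm_mul, hlc, mul_comm]
    refine mul_le_mul_of_nonneg_left ?_ (norm_nonneg _)
    rw [← hcard]
    exact urt_prod_ge κ _ (norm_nonneg _) p.roots
      (fun a ha => hmin a (Multiset.mem_toFinset.2 ha))

/-- adjoining a root -/
private theorem urt_step (K : IntermediateField ℚ ℂ) (hfd : FiniteDimensional ℚ K) (n : ℕ)
    (x : ℂ) (Q : Polynomial K) (hQ0 : Q ≠ 0) (hQn : Q.natDegree ≤ n) (hx : aeval x Q = 0) :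
    ∃ K' : IntermediateField ℚ ℂ, K ≤ K' ∧ FiniteDimensional ℚ K' ∧
      Module.finrank ℚ K' ≤ n * Module.finrank ℚ K ∧ x ∈ K' := by
  have hxint : IsIntegral K x := by
    have : IsAlgebraic K x := ⟨Q, hQ0, hx⟩
    exact this.isIntegral
  have hKint : FiniteDimensional K (IntermediateField.adjoin K {x}) :=
    IntermediateField.adjoin.finiteDimensional hxint
  have hfin2 : FiniteDimensional ℚ (IntermediateField.adjoin K {x}) :=
    FiniteDimensional.trans ℚ K _
  set K' : IntermediateField ℚ ℂ :=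
    IntermediateField.restrictScalars ℚ (IntermediateField.adjoin K {x}) with hK'
  have hle : K ≤ K' := by
    intro y hy
    have h1 : algebraMap K ℂ ⟨y, hy⟩ ∈ IntermediateField.adjoin K {x} :=
      IntermediateField.algebraMap_mem _ _
    exact h1
  have hxmem : x ∈ K' := IntermediateField.mem_adjoin_simple_self K x
  refine ⟨K', hle, hfin2, ?_, hxmem⟩
  have h1 : Module.finrank ℚ K * Module.finrank K (IntermediateField.adjoin K {x}) =
      Module.finrank ℚ (IntermediateField.adjoin K {x}) :=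
    Module.finrank_mul_finrank ℚ K _
  have h2 : Module.finrank K (IntermediateField.adjoin K {x}) ≤ n := by
    rw [IntermediateField.adjoin.finrank hxint]
    exact (natDegree_le_of_dvd (minpoly.dvd K x hx) hQ0).trans hQn
  have h3 : Module.finrank ℚ K' = Module.finrank ℚ (IntermediateField.adjoin K {x}) := rfl
  rw [h3, ← h1, mul_comm]
  exact Nat.mul_le_mul_right _ h2

private theorem urt_AI {F : IntermediateField ℚ ℂ} {M : ℝ} {x : ℂ} (hx : x ∈ F)
    (hi : IsIntegral ℤ x) (h : ∀ φ : F →ₐ[ℚ] ℂ, ‖φ ⟨x, hx⟩‖ ≤ M) : AI F M x := by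
  refine ⟨⟨x, hx⟩, rfl, ?_, h⟩
  have hinj : Function.Injective (algebraMap F ℂ).toIntAlgHom := by
    intro u v huv
    exact (algebraMap F ℂ).injective huv
  exact (isIntegral_algHom_iff (algebraMap F ℂ).toIntAlgHom hinj).1 hi

private theorem urt_int {F : IntermediateField ℚ ℂ} {M : ℝ} {x : ℂ} (h : AI F M x) :
    IsIntegral ℤ x := by
  obtain ⟨a, ha, hi, -⟩ := h
  rw [← ha]
  exact hi.map (algebraMap F ℂ).toIntAlgHom

private theorem urt_norm {F : IntermediateField ℚ ℂ} {M : ℝ} {x : ℂ} (h : AI F M x) (hx : x ∈ F)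
    (φ : F →ₐ[ℚ] ℂ) : ‖φ ⟨x, hx⟩‖ ≤ M := by
  obtain ⟨a, ha, -, hb⟩ := h
  have : (⟨x, hx⟩ : F) = a := Subtype.ext ha.symm
  rw [this]
  exact hb φ

/-- the roots of a cubic -/
private theorem urt_cub {x b c M : ℝ} (hM : 0 ≤ M) (hx : 0 ≤ x) (hb : b ≤ M) (hc : c ≤ M)
    (h : x ^ 3 ≤ 3 * b * x + 2 * c) : x ≤ 1 + 5 * M := by
  by_contra hcon
  push Not at hcon
  have h1 : 1 < x := by linarith
  have h2 : x ^ 3 ≤ 5 * M * x := by nlinarith
  have h3 : x ^ 2 ≤ 5 * M := by
    have : x * x ^ 2 ≤ x * (5 * M) := by nlinarith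
    exact le_of_mul_le_mul_left this (by linarith)
  nlinarith

/-- the roots of a polynomial -/
private theorem urt_lam (p : ℂ[X]) (n : ℕ) (hn : 1 ≤ n) (hpn : p.natDegree = n) (M : ℝ)
    (hM : ∀ k, ‖p.coeff k‖ ≤ M) (z : ℂ) (hz : p.eval z = 0) :
    ‖p.leadingCoeff * z‖ ≤ n * M := by
  have hM0 : 0 ≤ M := (norm_nonneg _).trans (hM 0)
  have hn1 : (1 : ℝ) ≤ n := by exact_mod_cast hn
  rw [norm_mul]
  have hl : ‖p.leadingCoeff‖ ≤ M := hM _
  rcases le_or_gt ‖z‖ 1 with h1 | h1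
  · calc ‖p.leadingCoeff‖ * ‖z‖ ≤ M * 1 := mul_le_mul hl h1 (norm_nonneg _) hM0
      _ ≤ n * M := by nlinarith
  · have h2 : p.leadingCoeff * z ^ n = -∑ k ∈ Finset.range n, p.coeff k * z ^ k := by
      have h3 := hz
      rw [eval_eq_sum_range, hpn, Finset.sum_range_succ] at h3
      have h4 : p.leadingCoeff = p.coeff n := by rw [leadingCoeff, hpn]
      rw [h4]
      linear_combination h3
    have h3 : ‖p.leadingCoeff‖ * ‖z‖ ^ n ≤ n * M * ‖z‖ ^ (n - 1) := by
      rw [← norm_pow, ← norm_mul, h2, norm_neg]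
      refine (norm_sum_le _ _).trans ?_
      calc ∑ k ∈ Finset.range n, ‖p.coeff k * z ^ k‖
          ≤ ∑ k ∈ Finset.range n, M * ‖z‖ ^ (n - 1) := by
            refine Finset.sum_le_sum fun k hk => ?_
            rw [Finset.mem_range] at hk
            rw [norm_mul, norm_pow]
            exact mul_le_mul (hM k) (pow_le_pow_right₀ h1.le (by omega)) (by positivity) hM0
        _ = n * M * ‖z‖ ^ (n - 1) := by
            rw [Finset.sum_const, Finset.card_range, nsmul_eq_mul, mul_assoc]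
    have h4 : ‖z‖ ^ n = ‖z‖ * ‖z‖ ^ (n - 1) := by
      rw [← pow_succ', Nat.sub_add_cancel hn]
    rw [h4, ← mul_assoc] at h3
    exact le_of_mul_le_mul_right h3 (by positivity)

/-- `lc(P) x` is integral -/
private theorem urt_lc_int {K : IntermediateField ℚ ℂ} (P : Polynomial K)
    (hP : ∀ k, IsIntegral ℤ ((P.coeff k : K) : ℂ)) (x : ℂ) (hx : aeval x P = 0) :
    IsIntegral ℤ (((P.leadingCoeff : K) : ℂ) * x) := by
  set R := integralClosure ℤ ℂ with hR
  set p : ℂ[X] := P.map (algebraMap K ℂ) with hp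
  have hl : p ∈ lifts (algebraMap R ℂ) := by
    rw [lifts_iff_coeff_lifts]
    intro k
    rw [hp, coeff_map]
    exact ⟨⟨_, hP k⟩, rfl⟩
  obtain ⟨Q, hQ⟩ := (mem_lifts p).1 hl
  have hinj : Function.Injective (algebraMap R ℂ) := fun u v h => Subtype.ext h
  have hQx : aeval x Q = 0 := by
    rw [← eval_map_algebraMap, hQ, hp, eval_map_algebraMap]
    exact hx
  have h1 := isIntegral_leadingCoeff_smul (R := R) Q x hQx
  have h2 : Q.leadingCoeff • x = ((P.leadingCoeff : K) : ℂ) * x := by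
    have h3 : (algebraMap R ℂ) Q.leadingCoeff = ((P.leadingCoeff : K) : ℂ) := by
      rw [← leadingCoeff_map_of_injective hinj, hQ, hp,
        leadingCoeff_map_of_injective (algebraMap K ℂ).injective]
      rfl
    rw [Algebra.smul_def, h3]
  rw [h2] at h1
  exact isIntegral_trans (R := ℤ) (A := R) _ h1

theorem ufield {K : IntermediateField ℚ ℂ} {N : ℕ} (hN : 2 ≤ N) (hK : FiniteDimensional ℚ K)
    (hKN : Module.finrank ℚ K ≤ N) {b c e κ' : ℂ} (hb : AI K ((2 : ℝ) ^ N) b)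
    (hc : AI K ((2 : ℝ) ^ N) c) (he : e ^ 3 = 3 * b * e - 2 * c) (P : Polynomial K)
    (hPN : P.natDegree ≤ N) (hP1 : 1 ≤ P.natDegree)
    (hPc : ∀ k, AI K ((2 : ℝ) ^ N) ((P.coeff k : K) : ℂ)) (hroot : Polynomial.aeval κ' P = 0) :
    ∃ F : IntermediateField ℚ ℂ, K ≤ F ∧ FiniteDimensional ℚ F ∧ Module.finrank ℚ F ≤ 3 * N ^ 2 ∧
      AI F ((2 : ℝ) ^ (3 * N)) b ∧ AI F ((2 : ℝ) ^ (3 * N)) e ∧
      AI F ((2 : ℝ) ^ (3 * N)) ((P.leadingCoeff : K) : ℂ) ∧
      AI F ((2 : ℝ) ^ (3 * N)) (((P.leadingCoeff : K) : ℂ) * κ') := by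
  have hM1 : (1 : ℝ) ≤ (2 : ℝ) ^ N := one_le_pow₀ (by norm_num)
  have hbK : b ∈ K := hb.mem
  have hcK : c ∈ K := hc.mem
  -- the field
  set Q : Polynomial K := X ^ 3 - C (3 * ⟨b, hbK⟩) * X - C (-(2 * ⟨c, hcK⟩)) with hQ
  have hQm : Q.Monic ∧ Q.natDegree = 3 := by
    have h1 : (C (3 * (⟨b, hbK⟩ : K)) * X + C (-(2 * (⟨c, hcK⟩ : K))) : K[X]).degree < 3 := by
      have := degree_linear_le (a := 3 * (⟨b, hbK⟩ : K)) (b := -(2 * (⟨c, hcK⟩ : K)))
      exact lt_of_le_of_lt this (by norm_num)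
    have h2 : Q = X ^ 3 - (C (3 * (⟨b, hbK⟩ : K)) * X + C (-(2 * (⟨c, hcK⟩ : K)))) := by
      rw [hQ]
      ring
    rw [h2]
    constructor
    · exact monic_X_pow_sub (n := 3) (by simpa using h1)
    · rw [natDegree_sub_eq_left_of_natDegree_lt]
      · exact natDegree_X_pow 3
      · rw [natDegree_X_pow]
        have h3 := natDegree_linear_le (a := 3 * (⟨b, hbK⟩ : K)) (b := -(2 * (⟨c, hcK⟩ : K)))
        omega
  have hQe : aeval e Q = 0 := by
    rw [hQ]
    simp only [map_sub, map_mul, map_pow, aeval_X, aeval_C, map_neg, map_ofNat]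
    have h1 : (algebraMap K ℂ) ⟨b, hbK⟩ = b := rfl
    have h2 : (algebraMap K ℂ) ⟨c, hcK⟩ = c := rfl
    rw [h1, h2, he]
    ring
  obtain ⟨K1, hKK1, hK1fd, hK1n, heK1⟩ := urt_step K hK 3 e Q hQm.1.ne_zero hQm.2.le hQe
  have hP0 : P ≠ 0 := by
    rintro rfl
    simp at hP1
  have hiinj : Function.Injective (IntermediateField.inclusion hKK1) :=
    IntermediateField.inclusion_injective hKK1
  set P1 : Polynomial K1 := P.map (IntermediateField.inclusion hKK1).toRingHom with hP1d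
  have hP10 : P1 ≠ 0 := (Polynomial.map_ne_zero_iff hiinj).2 hP0
  have hP1n : P1.natDegree ≤ N := (natDegree_map_le).trans hPN
  have hP1x : aeval κ' P1 = 0 := by
    rw [← eval_map_algebraMap, hP1d, Polynomial.map_map]
    have h1 : (algebraMap K1 ℂ).comp (IntermediateField.inclusion hKK1).toRingHom =
        algebraMap K ℂ := by
      ext y
      rfl
    rw [h1, eval_map_algebraMap]
    exact hroot
  obtain ⟨F, hK1F, hFfd, hFn, hκF⟩ := urt_step K1 hK1fd N κ' P1 hP10 hP1n hP1x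
  have hKF : K ≤ F := hKK1.trans hK1F
  have heF : e ∈ F := hK1F heK1
  have h2N : (2 : ℝ) ^ N ≤ (2 : ℝ) ^ (3 * N) := pow_le_pow_right₀ (by norm_num) (by omega)
  have hbF : AI F ((2 : ℝ) ^ N) b := hb.mono hKF le_rfl
  have hcF : AI F ((2 : ℝ) ^ N) c := hc.mono hKF le_rfl
  have hPF : ∀ k, AI F ((2 : ℝ) ^ N) ((P.coeff k : K) : ℂ) := fun k => (hPc k).mono hKF le_rfl
  have h4N : (16 : ℝ) ≤ (2 : ℝ) ^ (2 * N) := by
    calc (16 : ℝ) = 2 ^ 4 := by norm_num
      _ ≤ 2 ^ (2 * N) := pow_le_pow_right₀ (by norm_num) (by omega)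
  have h3N : (2 : ℝ) ^ (3 * N) = (2 : ℝ) ^ (2 * N) * (2 : ℝ) ^ N := by
    rw [← pow_add]
    congr 1
    omega
  refine ⟨F, hKF, hFfd, ?_, hbF.mono le_rfl h2N, ?_, (hPF _).mono le_rfl h2N, ?_⟩
  · calc Module.finrank ℚ F ≤ N * Module.finrank ℚ K1 := hFn
      _ ≤ N * (3 * Module.finrank ℚ K) := Nat.mul_le_mul_left _ hK1n
      _ ≤ N * (3 * N) := Nat.mul_le_mul_left _ (Nat.mul_le_mul_left _ hKN)
      _ = 3 * N ^ 2 := by ring
  · refine urt_AI heF ?_ fun φ => ?_
    · set R := integralClosure ℤ ℂ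
      let b1 : R := ⟨b, urt_int hb⟩
      let c1 : R := ⟨-c, (urt_int hc).neg⟩
      have h1 : (C (3 * b1) * X + C (2 * c1) : R[X]).degree < 3 := by
        have := degree_linear_le (a := 3 * b1) (b := 2 * c1)
        exact lt_of_le_of_lt this (by norm_num)
      have hm : (X ^ 3 - (C (3 * b1) * X + C (2 * c1)) : R[X]).Monic :=
        monic_X_pow_sub (n := 3) (by simpa using h1)
      have h2 : IsIntegral R e := by
        refine ⟨_, hm, ?_⟩
        rw [← aeval_def]
        simp only [map_sub, map_add, map_mul, map_pow, aeval_X, aeval_C]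
        have h1 : (algebraMap R ℂ) b1 = b := rfl
        have h2 : (algebraMap R ℂ) c1 = -c := rfl
        rw [h1, h2, he]
        simp only [map_ofNat]
        ring
      exact isIntegral_trans (R := ℤ) (A := R) e h2
    · have e1 : φ ⟨e, heF⟩ ^ 3 = 3 * φ ⟨b, hbF.mem⟩ * φ ⟨e, heF⟩ - 2 * φ ⟨c, hcF.mem⟩ := by
        have h1 : (⟨e, heF⟩ : F) ^ 3 = 3 * ⟨b, hbF.mem⟩ * ⟨e, heF⟩ - 2 * ⟨c, hcF.mem⟩ := by
          apply Subtype.ext
          push_cast
          exact he
        have h2 := congrArg φ h1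
        simp only [map_pow, map_sub, map_mul, map_ofNat] at h2
        exact h2
      have h1 := urt_norm hbF hbF.mem φ
      have h2 := urt_norm hcF hcF.mem φ
      have h3 : ‖φ ⟨e, heF⟩‖ ^ 3 ≤ 3 * ‖φ ⟨b, hbF.mem⟩‖ * ‖φ ⟨e, heF⟩‖ +
          2 * ‖φ ⟨c, hcF.mem⟩‖ := by
        rw [← norm_pow, e1]
        refine (norm_sub_le _ _).trans (le_of_eq ?_)
        simp
      have h4 := urt_cub (by positivity) (norm_nonneg _) h1 h2 h3
      refine h4.trans ?_
      rw [h3N]
      nlinarith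
  · have hlF : ((P.leadingCoeff : K) : ℂ) ∈ F := (hPF _).mem
    refine urt_AI (F.mul_mem hlF hκF) (urt_lc_int P (fun k => urt_int (hPc k)) κ' hroot)
      fun φ => ?_
    let ψ : K →ₐ[ℚ] ℂ := φ.comp (IntermediateField.inclusion hKF)
    set p : ℂ[X] := P.map ψ.toRingHom with hp
    have hψinj : Function.Injective ψ.toRingHom := ψ.toRingHom.injective
    have hpn : p.natDegree = P.natDegree := natDegree_map_eq_of_injective hψinj P
    have hpM : ∀ k, ‖p.coeff k‖ ≤ (2 : ℝ) ^ N := by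
      intro k
      rw [hp, coeff_map]
      exact urt_norm (hPF k) (hPF k).mem φ
    have hpz : p.eval (φ ⟨κ', hκF⟩) = 0 := by
      set PF : Polynomial F := P.map (IntermediateField.inclusion hKF).toRingHom with hPFd
      have h1 : PF.eval ⟨κ', hκF⟩ = 0 := by
        have h2 : (algebraMap F ℂ) (PF.eval ⟨κ', hκF⟩) = 0 := by
          rw [← Polynomial.eval₂_at_apply, hPFd, Polynomial.eval₂_map]
          have h3 : (algebraMap F ℂ).comp (IntermediateField.inclusion hKF).toRingHom =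
              algebraMap K ℂ := by
            ext y
            rfl
          rw [h3]
          exact hroot
        exact (algebraMap F ℂ).injective (by rw [h2, map_zero])
      have h2 := congrArg φ h1
      rw [map_zero] at h2
      rw [← h2, hp]
      have h3 : φ.toRingHom (PF.eval ⟨κ', hκF⟩) = (PF.map φ.toRingHom).eval (φ ⟨κ', hκF⟩) := by
        have h5 := Polynomial.eval_map (p := PF) φ.toRingHom (φ ⟨κ', hκF⟩)
        rw [h5]
        exact (Polynomial.eval₂_hom φ.toRingHom _).symm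
      have h4 : PF.map φ.toRingHom = P.map ψ.toRingHom := by
        rw [hPFd, Polynomial.map_map]
        rfl
      rw [← h4]
      exact h3.symm
    have h1 := urt_lam p P.natDegree hP1 hpn _ hpM _ hpz
    have h2 : p.leadingCoeff * φ ⟨κ', hκF⟩ =
        φ ⟨((P.leadingCoeff : K) : ℂ) * κ', F.mul_mem hlF hκF⟩ := by
      rw [hp, leadingCoeff_map_of_injective hψinj]
      have h3 : (⟨((P.leadingCoeff : K) : ℂ) * κ', F.mul_mem hlF hκF⟩ : F) =
          (IntermediateField.inclusion hKF P.leadingCoeff) * ⟨κ', hκF⟩ := rfl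
      rw [h3, map_mul]
      rfl
    rw [← h2]
    refine h1.trans ?_
    rw [h3N]
    have h5 : ((P.natDegree : ℕ) : ℝ) ≤ (2 : ℝ) ^ (2 * N) := by
      have h6 : P.natDegree ≤ 2 ^ (2 * N) := by
        calc P.natDegree ≤ N := hPN
          _ ≤ 2 * N := by omega
          _ ≤ 2 ^ (2 * N) := Nat.lt_two_pow_self.le
      exact_mod_cast h6
    exact mul_le_mul_of_nonneg_right h5 (by positivity)

end Pool.Agent.Lib.MP5e
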