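import Pool.Agent.Lib.MP_5e64e7_nt.UExt
import Pool.Agent.Lib.MP_5e64e7_nt.UOde
import Pool.Agent.Lib.MP_5e64e7_nt.UDer
import Pool.Agent.Lib.MP_5e64e7_nt.UCc
import Pool.Agent.Lib.MP_5e64e7_nt.UZero
import Pool.Agent.Lib.MP_5e64e7_nt.UBd
import Pool.Agent.Lib.MP_5e64e7_nt.UNum
import Pool.Agent.Lib.MP_5e64e7_nt.UCon
import Pool.Agent.Lib.MP_5e64e7_nt.URoot

set_option autoImplicit false

/-!
# U.MEAS : the uniform measure (last module of block D)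
-/

noncomputable section

namespace Pool.Agent.Lib.MP5e

open Polynomial Topology

/-- the last inequality -/
private theorem UMeas_last (C a N : ℕ) (hN : 2 ≤ N) (hC : 1 ≤ C) (l d D M2 T0 K Z : ℕ)
    (hl : l = N ^ a) (hl1 : 1 ≤ l) (hdN : d + 1 ≤ N ^ 4)
    (hD : D = 208 * C ^ 2 * l * (d + 1) ^ 2) (hM2 : M2 = (D + 1) ^ 2)
    (hT0 : T0 = M2 / (8 * (d + 1))) (hK : K = T0 / (C * D)) (hZ : Z = 10 * (D + 1) ^ 2)
    (hd1 : 1 ≤ d) :
    (l * Z * (K + 31 * (d + 1))) * N + N ^ 2 ≤ N ^ (21 + 6 * (16 + 2 * C + a) + 2) := by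
  have hN1 : 1 ≤ N := by omega
  have h2p : ∀ k : ℕ, 2 ^ k ≤ N ^ k := fun k => Nat.pow_le_pow_left hN k
  have hC2 : C ≤ 2 ^ C := Nat.lt_two_pow_self.le
  have hCC : 1 ≤ C ^ 2 := Nat.pow_pos hC
  have hT0M : T0 ≤ M2 := by rw [hT0]; exact Nat.div_le_self _ _
  have hKT : K ≤ T0 := by rw [hK]; exact Nat.div_le_self _ _
  have hM2Z : M2 ≤ Z := by rw [hM2, hZ]; omega
  have hlD : l ≤ D := by
    rw [hD]
    calc l = 1 * l * 1 := by ring
      _ ≤ 208 * C ^ 2 * l * (d + 1) ^ 2 :=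
        Nat.mul_le_mul (Nat.mul_le_mul_right _ (by omega)) (Nat.pow_pos (by omega))
  have hD1 : 1 ≤ D := by omega
  have hZD : Z ≤ 40 * D ^ 2 := by rw [hZ]; nlinarith
  have hdD : d + 1 ≤ D := by
    rw [hD]
    calc d + 1 = 1 * 1 * (d + 1) := by ring
      _ ≤ 208 * C ^ 2 * l * (d + 1) ^ 2 := by
        refine Nat.mul_le_mul (Nat.mul_le_mul (by omega) hl1) ?_
        nlinarith
  have hDZ : D ≤ Z := by rw [hZ]; nlinarith
  have hE : l * Z * (K + 31 * (d + 1)) ≤ 32 * Z ^ 3 := by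
    calc l * Z * (K + 31 * (d + 1)) ≤ Z * Z * (Z + 31 * Z) :=
          Nat.mul_le_mul (Nat.mul_le_mul_right _ (by omega)) (by omega)
      _ = 32 * Z ^ 3 := by ring
  have hE2 : l * Z * (K + 31 * (d + 1)) ≤ 2 ^ 21 * D ^ 6 := by
    refine hE.trans ?_
    calc 32 * Z ^ 3 ≤ 32 * (40 * D ^ 2) ^ 3 :=
          Nat.mul_le_mul_left _ (Nat.pow_le_pow_left hZD 3)
      _ = 2048000 * D ^ 6 := by ring
      _ ≤ 2 ^ 21 * D ^ 6 := Nat.mul_le_mul_right _ (by norm_num)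
  have hD3 : D ≤ N ^ (16 + 2 * C + a) := by
    calc D = 208 * C ^ 2 * l * (d + 1) ^ 2 := hD
      _ ≤ 2 ^ 8 * (2 ^ C) ^ 2 * l * (N ^ 4) ^ 2 := by gcongr; norm_num
      _ = 2 ^ (8 + 2 * C) * (N ^ a * N ^ 8) := by rw [hl, pow_add]; ring
      _ ≤ N ^ (8 + 2 * C) * (N ^ a * N ^ 8) := Nat.mul_le_mul_right _ (h2p _)
      _ = N ^ (16 + 2 * C + a) := by rw [← pow_add, ← pow_add]; congr 1; ring
  obtain ⟨g, hg⟩ : ∃ g, g = 16 + 2 * C + a := ⟨_, rfl⟩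
  rw [← hg] at hD3 ⊢
  have hE3 : l * Z * (K + 31 * (d + 1)) ≤ N ^ (21 + 6 * g) := by
    refine hE2.trans ?_
    have e1 : 2 ^ 21 * D ^ 6 ≤ N ^ 21 * (N ^ g) ^ 6 :=
      Nat.mul_le_mul (Nat.pow_le_pow_left hN 21) (Nat.pow_le_pow_left hD3 6)
    have e2 : N ^ 21 * (N ^ g) ^ 6 = N ^ (21 + 6 * g) := by
      rw [← pow_mul, ← pow_add, mul_comm g 6]
    rw [e2] at e1
    exact e1
  obtain ⟨e1, he1⟩ : ∃ e1, e1 = 21 + 6 * g := ⟨_, rfl⟩
  rw [← he1] at hE3 ⊢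
  have h5 : N ^ 2 ≤ N ^ e1 * N := by
    calc N ^ 2 = N ^ 1 * N := by ring
      _ ≤ N ^ e1 * N := Nat.mul_le_mul_right _ (Nat.pow_le_pow_right hN1 (by omega))
  calc l * Z * (K + 31 * (d + 1)) * N + N ^ 2 ≤ N ^ e1 * N + N ^ e1 * N :=
        Nat.add_le_add (Nat.mul_le_mul_right _ hE3) h5
    _ = 2 * (N ^ e1 * N) := by ring
    _ ≤ N * (N ^ e1 * N) := Nat.mul_le_mul_right _ hN
    _ = N ^ (e1 + 2) := by rw [pow_add]; ring

/-- the choice of the exponents -/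
private theorem UMeas_par (A1 c2 C : ℕ) (hC : 1 ≤ C) : ∃ a A : ℕ, 2 ≤ A ∧ ∀ N : ℕ, 2 ≤ N →
    ∀ l d D M2 T0 K Z Q : ℕ, l = N ^ a → d = 3 * N ^ 2 → D = 208 * C ^ 2 * l * (d + 1) ^ 2 →
      M2 = (D + 1) ^ 2 → T0 = M2 / (8 * (d + 1)) → K = T0 / (C * D) → Z = 10 * (D + 1) ^ 2 →
      Q = 14 * (2 * D + Z) →
    1 ≤ l ∧ 3 * N ≤ l ∧ 2 * N ^ A1 + 1 ≤ l ∧ c2 + 2 * C * N ^ A1 ≤ l ∧ 1 ≤ D ∧ Q ≤ 2 ^ l ∧
      26 * C * l * (d + 1) ≤ K ∧ 1 ≤ K ∧ D ≤ T0 ∧ C * D * K ≤ T0 ∧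
      (l * Z * (K + 31 * (d + 1))) * N + N ^ 2 ≤ N ^ A := by
  set a : ℕ := A1 + c2 + 2 * C + 20 with ha
  refine ⟨a, 21 + 6 * (16 + 2 * C + a) + 2, by omega, ?_⟩
  intro N hN l d D M2 T0 K Z Q hl hd hD hM2 hT0 hK hZ hQ
  have hN1 : 1 ≤ N := by omega
  have hp : ∀ k : ℕ, 1 ≤ N ^ k := fun k => Nat.one_le_pow _ _ hN1
  have h2p : ∀ k : ℕ, 2 ^ k ≤ N ^ k := fun k => Nat.pow_le_pow_left hN k
  have hl1 : 1 ≤ l := by rw [hl]; exact hp a
  -- `2 ^ (a - 1)`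
  have h2a : 3 * a + 29 ≤ 2 ^ (a - 1) := by
    obtain ⟨k, hk⟩ : ∃ k, a = 20 + k := ⟨a - 20, by omega⟩
    rw [hk, show 20 + k - 1 = 19 + k by omega, pow_add]
    have : k + 1 ≤ 2 ^ k := Nat.lt_two_pow_self
    have h19 : (2 : ℕ) ^ 19 = 524288 := by norm_num
    rw [h19]
    linarith
  have hNa : N * (3 * a + 29) ≤ N ^ a := by
    calc N * (3 * a + 29) ≤ N * 2 ^ (a - 1) := Nat.mul_le_mul_left _ h2a
      _ ≤ N * N ^ (a - 1) := Nat.mul_le_mul_left _ (h2p _)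
      _ = N ^ (a - 1 + 1) := by rw [pow_succ]; ring
      _ = N ^ a := by rw [Nat.sub_add_cancel (by omega : 1 ≤ a)]
  have c1 : 3 * N ≤ l := by
    rw [hl]
    refine le_trans ?_ hNa
    rw [mul_comm 3 N]
    exact Nat.mul_le_mul_left _ (by omega)
  have c2' : 2 * N ^ A1 + 1 ≤ l := by
    have h1 : N ^ A1 * 4 ≤ N ^ a := by
      calc N ^ A1 * 4 = N ^ A1 * 2 ^ 2 := by norm_num
        _ ≤ N ^ A1 * N ^ 2 := Nat.mul_le_mul_left _ (h2p 2)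
        _ = N ^ (A1 + 2) := by rw [pow_add]
        _ ≤ N ^ a := Nat.pow_le_pow_right hN1 (by omega)
    have := hp A1
    rw [hl]
    omega
  have c3 : c2 + 2 * C * N ^ A1 ≤ l := by
    rw [hl]
    calc c2 + 2 * C * N ^ A1 ≤ c2 * N ^ A1 + 2 * C * N ^ A1 :=
          Nat.add_le_add_right (Nat.le_mul_of_pos_right _ (hp A1)) _
      _ = (c2 + 2 * C) * N ^ A1 := by ring
      _ ≤ 2 ^ (c2 + 2 * C) * N ^ A1 := Nat.mul_le_mul_right _ Nat.lt_two_pow_self.le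
      _ ≤ N ^ (c2 + 2 * C) * N ^ A1 := Nat.mul_le_mul_right _ (h2p _)
      _ = N ^ (c2 + 2 * C + A1) := by rw [← pow_add]
      _ ≤ N ^ a := Nat.pow_le_pow_right hN1 (by omega)
  have hd1 : 1 ≤ d := by rw [hd]; have := hp 2; omega
  have hdN : d + 1 ≤ N ^ 4 := by
    have h1 : 4 ≤ N ^ 2 := by nlinarith
    have h2 : N ^ 4 = N ^ 2 * N ^ 2 := by ring
    rw [hd, h2]
    nlinarith
  have hD1 : 1 ≤ D := by
    rw [hD]
    exact Nat.mul_pos (Nat.mul_pos (Nat.mul_pos (by norm_num) (Nat.pow_pos (by omega))) hl1)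
      (Nat.pow_pos (by omega))
  have hC2 : C ≤ 2 ^ C := Nat.lt_two_pow_self.le
  have hDle : 2 ^ 5 * D ≤ 2 ^ (13 + 2 * C) * (N ^ a * N ^ 8) := by
    calc 2 ^ 5 * D = 6656 * C ^ 2 * l * (d + 1) ^ 2 := by rw [hD]; ring
      _ ≤ 2 ^ 13 * (2 ^ C) ^ 2 * l * (N ^ 4) ^ 2 := by gcongr; norm_num
      _ = 2 ^ (13 + 2 * C) * (N ^ a * N ^ 8) := by
          rw [hl, pow_add]; ring
  have hNN : N ≤ 2 ^ N := Nat.lt_two_pow_self.le
  have c4 : Q ≤ 2 ^ l := by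
    have h1 : Q ≤ (2 ^ 5 * D) ^ 2 := by
      rw [hQ, hZ]
      nlinarith
    refine h1.trans ?_
    calc (2 ^ 5 * D) ^ 2 ≤ (2 ^ (13 + 2 * C) * (N ^ a * N ^ 8)) ^ 2 := Nat.pow_le_pow_left hDle 2
      _ = 2 ^ (26 + 4 * C) * N ^ (2 * (a + 8)) := by
          rw [← pow_add, mul_pow, ← pow_mul, ← pow_mul]; congr 2 <;> ring
      _ ≤ 2 ^ (26 + 4 * C) * (2 ^ N) ^ (2 * (a + 8)) :=
          Nat.mul_le_mul_left _ (Nat.pow_le_pow_left hNN _)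
      _ = 2 ^ (26 + 4 * C + N * (2 * (a + 8))) := by rw [← pow_mul, ← pow_add]
      _ ≤ 2 ^ l := by
          apply Nat.pow_le_pow_right (by norm_num)
          rw [hl]
          refine le_trans ?_ hNa
          have h2 : 26 + 4 * C ≤ N * (13 + 2 * C) := by nlinarith
          have h3 : N * (13 + 2 * C) + N * (2 * (a + 8)) = N * (13 + 2 * C + 2 * (a + 8)) := by ring
          have h4 : N * (13 + 2 * C + 2 * (a + 8)) ≤ N * (3 * a + 29) :=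
            Nat.mul_le_mul_left _ (by omega)
          omega
  have hCD : 1 ≤ C * D := Nat.mul_pos hC hD1
  have c5 : 26 * C * l * (d + 1) ≤ K := by
    rw [hK, Nat.le_div_iff_mul_le hCD, hT0, Nat.le_div_iff_mul_le (by omega), hM2]
    calc 26 * C * l * (d + 1) * (C * D) * (8 * (d + 1)) = (208 * C ^ 2 * l * (d + 1) ^ 2) * D := by
          ring
      _ = D * D := by rw [← hD]
      _ ≤ (D + 1) ^ 2 := by nlinarith
  have c6 : 1 ≤ K := le_trans (Nat.mul_pos (Nat.mul_pos (Nat.mul_pos (by norm_num) hC) hl1)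
    (by omega)) c5
  have c7 : C * D * K ≤ T0 := by rw [hK]; exact Nat.mul_div_le _ _
  have c8 : D ≤ T0 := by
    refine le_trans ?_ c7
    calc D = 1 * D * 1 := by ring
      _ ≤ C * D * K := Nat.mul_le_mul (Nat.mul_le_mul_right _ hC) c6
  refine ⟨hl1, c1, c2', c3, hD1, c4, c5, c6, c8, c7, ?_⟩
  exact UMeas_last C a N hN hC l d D M2 T0 K Z hl hl1 hdN hD hM2 hT0 hK hZ hd1

private theorem UMeas_two_le_exp : (2 : ℝ) ≤ Real.exp 1 := by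
  have := Real.exp_one_gt_d9
  linarith

private theorem UMeas_two_pow_le (m : ℕ) : (2 : ℝ) ^ m ≤ Real.exp m := by
  calc (2 : ℝ) ^ m ≤ Real.exp 1 ^ m := pow_le_pow_left₀ (by norm_num) UMeas_two_le_exp m
    _ = Real.exp m := by rw [← Real.exp_nat_mul, mul_one]

private theorem UMeas_exp_le (m : ℕ) : Real.exp m ≤ (2 : ℝ) ^ (2 * m) := by
  have h : Real.exp 1 ≤ 4 := by
    have := Real.exp_one_lt_d9
    linarith
  calc Real.exp m = Real.exp 1 ^ m := by rw [← Real.exp_nat_mul, mul_one]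
    _ ≤ 4 ^ m := pow_le_pow_left₀ (Real.exp_pos _).le h m
    _ = 2 ^ (2 * m) := by rw [pow_mul]; norm_num

theorem umeas (R : ℝ) (hR : 0 < R) : ∃ A : ℕ, ∀ (N : ℕ) (K : IntermediateField ℚ ℂ), 2 ≤ N →
    FiniteDimensional ℚ K → Module.finrank ℚ K ≤ N → ∀ τ s b c : ℂ, R⁻¹ ≤ τ.im → τ.im ≤ R →
    AI K ((2 : ℝ) ^ N) b → AI K ((2 : ℝ) ^ N) c → E4f τ = s ^ 2 * b → E6f τ = s ^ 3 * c →
    ∀ P : Polynomial K, P ≠ 0 → P.natDegree ≤ N → (∀ k, AI K ((2 : ℝ) ^ N) ((P.coeff k : K) : ℂ)) →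
      Real.exp (-((N : ℝ) ^ A)) ≤ ‖Polynomial.aeval (E2f τ / s) P‖ := by
  classical
  -- the constants
  obtain ⟨c0, C, hc0, hC, hext⟩ := uext (Real.exp (-(2 * Real.pi * R)))
    (Real.exp (-(2 * Real.pi * R⁻¹))) (Real.exp_pos _) (by
      rw [Real.exp_lt_one_iff]
      have : 0 < 2 * Real.pi * R⁻¹ := by positivity
      linarith)
  obtain ⟨A1, hA1⟩ := us_bd R hR
  obtain ⟨CE, hCE1, hCE⟩ := uEbd R hR
  obtain ⟨c2, hc2⟩ : ∃ c2 : ℕ, c0 * (12 * CE) ^ C ≤ 2 ^ c2 := by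
    obtain ⟨k, hk⟩ := pow_unbounded_of_one_lt (c0 * (12 * CE) ^ C) (by norm_num : (1 : ℝ) < 2)
    exact ⟨k, hk.le⟩
  obtain ⟨a, A, hA2, hpar⟩ := UMeas_par A1 c2 C hC
  refine ⟨A, ?_⟩
  intro N K hN hK hKN τ s b c hτ1 hτ2 hb hc h4 h6 P hP hPN hPc
  have hτ : 0 < τ.im := lt_of_lt_of_le (by positivity) hτ1
  obtain ⟨hs0, hdisc, hslo, hsup, hκup⟩ := hA1 N K hN hK hKN τ s b c hτ1 hτ2 hb hc h4 h6
  set κ : ℂ := E2f τ / s with hκdef
  obtain ⟨l, hl⟩ : ∃ l, l = N ^ a := ⟨_, rfl⟩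
  obtain ⟨d, hd⟩ : ∃ d, d = 3 * N ^ 2 := ⟨_, rfl⟩
  obtain ⟨D, hD⟩ : ∃ D, D = 208 * C ^ 2 * l * (d + 1) ^ 2 := ⟨_, rfl⟩
  obtain ⟨M2, hM2⟩ : ∃ M2, M2 = (D + 1) ^ 2 := ⟨_, rfl⟩
  obtain ⟨T0, hT0⟩ : ∃ T0, T0 = M2 / (8 * (d + 1)) := ⟨_, rfl⟩
  obtain ⟨KK, hKK⟩ : ∃ KK, KK = T0 / (C * D) := ⟨_, rfl⟩
  obtain ⟨Z, hZ⟩ : ∃ Z, Z = 10 * (D + 1) ^ 2 := ⟨_, rfl⟩
  obtain ⟨Q, hQ⟩ : ∃ Q, Q = 14 * (2 * D + Z) := ⟨_, rfl⟩
  obtain ⟨hl1, hl3, hlA, hlc, hD1, hQl, hKbig, hK1, hDT, hCDK, hlast⟩ :=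
    hpar N hN l d D M2 T0 KK Z Q hl hd hD hM2 hT0 hKK hZ hQ
  clear hpar
  obtain ⟨E, hE⟩ : ∃ E, E = l * Z * (KK + 31 * (d + 1)) := ⟨_, rfl⟩
  rw [← hE] at hlast
  -- the leading coefficient
  have hlead0 : ((P.leadingCoeff : K) : ℂ) ≠ 0 := by
    intro h
    apply hP
    rw [← Polynomial.leadingCoeff_eq_zero]
    exact_mod_cast h
  have hleadAI : AI K ((2 : ℝ) ^ N) ((P.leadingCoeff : K) : ℂ) := hPc P.natDegree
  have hleadlo : (1 : ℝ) ≤ ‖((P.leadingCoeff : K) : ℂ)‖ * Real.exp ((N : ℝ) ^ 2) := by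
    have h1 := ai_low hK (one_le_pow₀ (by norm_num)) hleadAI hlead0
    refine h1.trans (mul_le_mul_of_nonneg_left ?_ (norm_nonneg _))
    rw [← pow_mul]
    refine (UMeas_two_pow_le _).trans (Real.exp_le_exp.mpr ?_)
    have h2 : N * (Module.finrank ℚ K - 1) ≤ N ^ 2 := by
      rw [pow_two]; exact Nat.mul_le_mul_left _ (by omega)
    exact_mod_cast h2
  by_contra hlt
  push Not at hlt
  rcases Nat.eq_zero_or_pos P.natDegree with hdeg | hdeg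
  · -- constant polynomials
    have h1 : P = Polynomial.C P.leadingCoeff := by
      rw [Polynomial.leadingCoeff, hdeg]
      exact Polynomial.eq_C_of_natDegree_eq_zero hdeg
    have h2 : Polynomial.aeval κ P = ((P.leadingCoeff : K) : ℂ) := by
      conv_lhs => rw [h1]
      rw [Polynomial.aeval_C]
      rfl
    rw [h2] at hlt
    have h3 : Real.exp (-((N : ℝ) ^ A)) * Real.exp ((N : ℝ) ^ 2) ≤ 1 := by
      rw [← Real.exp_add, Real.exp_le_one_iff]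
      have : (N : ℝ) ^ 2 ≤ (N : ℝ) ^ A :=
        pow_le_pow_right₀ (by exact_mod_cast (by omega : 1 ≤ N)) hA2
      linarith
    have h4 : ‖((P.leadingCoeff : K) : ℂ)‖ * Real.exp ((N : ℝ) ^ 2) <
        Real.exp (-((N : ℝ) ^ A)) * Real.exp ((N : ℝ) ^ 2) :=
      mul_lt_mul_of_pos_right hlt (Real.exp_pos _)
    linarith
  · obtain ⟨κ', hroot, hnear⟩ := uroot P hdeg κ
    -- the root is close
    set δ : ℝ := ((2 : ℝ) ^ E)⁻¹ with hδ
    have hδ0 : 0 < δ := by positivity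
    have hδ1 : δ ≤ 1 := inv_le_one_of_one_le₀ (one_le_pow₀ (by norm_num))
    have hclose : ‖κ - κ'‖ ≤ δ := by
      by_contra hfar
      push Not at hfar
      have h1 : δ ^ N ≤ ‖κ - κ'‖ ^ P.natDegree := by
        calc δ ^ N ≤ δ ^ P.natDegree := pow_le_pow_of_le_one hδ0.le hδ1 hPN
          _ ≤ ‖κ - κ'‖ ^ P.natDegree := pow_le_pow_left₀ hδ0.le hfar.le _
      have h2 : Real.exp (-((E * N : ℕ) : ℝ)) ≤ δ ^ N := by
        rw [hδ, inv_pow, ← pow_mul, Real.exp_neg]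
        exact inv_anti₀ (by positivity) (UMeas_two_pow_le _)
      have h3 : Real.exp (-((E * N : ℕ) : ℝ)) ≤
          ‖κ - κ'‖ ^ P.natDegree * (‖((P.leadingCoeff : K) : ℂ)‖ * Real.exp ((N : ℝ) ^ 2)) := by
        calc Real.exp (-((E * N : ℕ) : ℝ)) ≤ ‖κ - κ'‖ ^ P.natDegree * 1 := by
              rw [mul_one]; exact h2.trans h1
          _ ≤ _ := mul_le_mul_of_nonneg_left hleadlo (by positivity)
      have h4' : ‖κ - κ'‖ ^ P.natDegree * (‖((P.leadingCoeff : K) : ℂ)‖ * Real.exp ((N : ℝ) ^ 2)) <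
          Real.exp (-((N : ℝ) ^ A)) * Real.exp ((N : ℝ) ^ 2) := by
        rw [← mul_assoc]
        exact mul_lt_mul_of_pos_right (hnear.trans_lt hlt) (Real.exp_pos _)
      have h5 : Real.exp (-((N : ℝ) ^ A)) * Real.exp ((N : ℝ) ^ 2) ≤
          Real.exp (-((E * N : ℕ) : ℝ)) := by
        rw [← Real.exp_add]
        apply Real.exp_le_exp.mpr
        have h6 : ((E * N + N ^ 2 : ℕ) : ℝ) ≤ ((N ^ A : ℕ) : ℝ) := by exact_mod_cast hlast
        push_cast at h6 ⊢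
        linarith
      linarith
    -- the field
    obtain ⟨μ, hμ⟩ : ∃ μ : ℂ, μ ^ 2 = s / 12 :=
      IsAlgClosed.exists_pow_nat_eq (s / 12) (by norm_num)
    obtain ⟨Y, e, he3, hodeX, hodeY, hodeG, hX0, hY0, hG0⟩ := uode hτ hs0 h4 h6 hμ
    obtain ⟨F, hKF, hF, hFN, hFb, hFe, hFl, hFlk⟩ := ufield hN hK hKN hb hc he3 P hPN hdeg hPc hroot
    rw [← hd] at hFN
    have h2l : (2 : ℝ) ^ (3 * N) ≤ 2 ^ l := pow_le_pow_right₀ (by norm_num) hl3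
    -- the bounds
    set X : ℝ := Real.exp ((N : ℝ) ^ A1) with hX
    have hX1 : 1 ≤ X := Real.one_le_exp (by positivity)
    have hX2 : X ≤ 2 ^ (2 * N ^ A1) := by
      have := UMeas_exp_le (N ^ A1)
      push_cast at this
      exact this
    have hXl : X + 1 ≤ 2 ^ l := by
      calc X + 1 ≤ X * 2 := by linarith
        _ ≤ 2 ^ (2 * N ^ A1) * 2 := mul_le_mul_of_nonneg_right hX2 (by norm_num)
        _ = 2 ^ (2 * N ^ A1 + 1) := by rw [pow_succ]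
        _ ≤ 2 ^ l := pow_le_pow_right₀ (by norm_num) hlA
    have hκ1 : ‖κ‖ ≤ 2 ^ l := by linarith
    have hκ'1 : ‖κ'‖ ≤ 2 ^ l := by
      have h1 : ‖κ'‖ ≤ ‖κ‖ + ‖κ - κ'‖ := by
        have := norm_sub_le κ (κ - κ')
        simpa using this
      linarith
    set m : ℝ := 12 * CE * X with hm
    have hm1 : 1 ≤ m := by
      rw [hm]
      have : 1 ≤ CE * X := one_le_mul_of_one_le_of_one_le hCE1 hX1
      nlinarith
    have hcm : c0 * m ^ C ≤ 2 ^ l := by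
      calc c0 * m ^ C = c0 * (12 * CE) ^ C * X ^ C := by rw [hm, mul_pow]; ring
        _ ≤ 2 ^ c2 * (2 ^ (2 * N ^ A1)) ^ C := by
            refine mul_le_mul hc2 (pow_le_pow_left₀ (by linarith) hX2 C) (by positivity)
              (by positivity)
        _ = 2 ^ (c2 + 2 * C * N ^ A1) := by rw [← pow_mul, ← pow_add]; congr 1; ring
        _ ≤ 2 ^ l := pow_le_pow_right₀ (by norm_num) hlc
    have hcm0 : 0 ≤ c0 * m ^ C := by positivity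
    have hμn : ‖μ‖ ^ 2 = ‖s‖ / 12 := by
      rw [← norm_pow, hμ, norm_div]
      norm_num
    have hμup : ‖μ‖ ≤ m := by
      have h1 : ‖μ‖ ^ 2 ≤ X ^ 2 := by
        rw [hμn]
        nlinarith
      have h2 : ‖μ‖ ≤ X := le_of_sq_le_sq h1 (by linarith)
      have h3 : X ≤ m := by rw [hm]; nlinarith
      linarith
    have hμlo : m⁻¹ ≤ ‖μ‖ := by
      by_contra h
      push Not at h
      have h1 : m⁻¹ ≤ (12 * X)⁻¹ := by
        apply inv_anti₀ (by positivity)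
        rw [hm]
        nlinarith
      have h2 : (12 * X)⁻¹ ≤ 1 := inv_le_one_of_one_le₀ (by linarith)
      have h3 : (12 * X)⁻¹ ≤ ‖μ‖ ^ 2 := by
        have e1 : X⁻¹ ≤ ‖s‖ := by rw [hX, ← Real.exp_neg]; exact hslo
        rw [hμn, mul_inv]
        linarith
      have h4' : ‖μ‖ < (12 * X)⁻¹ := lt_of_lt_of_le h h1
      have h5 : ‖μ‖ ^ 2 ≤ ‖μ‖ * 1 := by
        rw [pow_two]
        exact mul_le_mul_of_nonneg_left (by linarith) (norm_nonneg _)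
      linarith
    have hq : ‖uq τ‖ = Real.exp (-(2 * Real.pi * τ.im)) := by
      unfold uq
      rw [Complex.norm_exp]
      congr 1
      simp [Complex.mul_re, Complex.mul_im]
    have hq0 : Real.exp (-(2 * Real.pi * R)) ≤ ‖uq τ‖ := by
      rw [hq]
      apply Real.exp_le_exp.mpr
      have := mul_le_mul_of_nonneg_left hτ2 (by positivity : 0 ≤ 2 * Real.pi)
      linarith
    have hq1 : ‖uq τ‖ ≤ Real.exp (-(2 * Real.pi * R⁻¹)) := by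
      rw [hq]
      apply Real.exp_le_exp.mpr
      have := mul_le_mul_of_nonneg_left hτ1 (by positivity : 0 ≤ 2 * Real.pi)
      linarith
    have hεm : ‖E2f τ / 12‖ ≤ m := by
      have h1 := (hCE τ hτ1 hτ2).1
      rw [norm_div]
      have h2 : ‖(12 : ℂ)‖ = 12 := by norm_num
      rw [h2, hm]
      have h3 : CE ≤ CE * X := le_mul_of_one_le_right (by linarith) hX1
      have h4' : ‖E2f τ‖ / 12 ≤ CE := by linarith [norm_nonneg (E2f τ)]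
      linarith
    have hder : ∀ (v : ℕ → ℕ → ℂ) (t : ℕ), iteratedDeriv t (uF (uq τ) (E2f τ / 12) μ D v) 0 =
        ∑ i ∈ Finset.range (D + 1), ∑ j ∈ Finset.range (D + 1), v i j * uc b e κ 1 t i 0 j :=
      fun v t => uder b e κ (uX (uq τ) (E2f τ / 12) μ) Y (uG (uq τ) μ) hodeX hodeY hodeG hX0 hY0
        hG0 D v t
    refine ucon (b := b) (c := c) (e := e) (κ := κ) (κ' := κ')
      (lam := ((P.leadingCoeff : K) : ℂ)) he3 hdisc F hF hl1 hFN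
      (hFb.mono le_rfl h2l) (hFe.mono le_rfl h2l) (hFl.mono le_rfl h2l) (hFlk.mono le_rfl h2l)
      hlead0 hκ1 hκ'1 hδ0 hclose hC hD1 hM2 hT0 hCDK hK1 hZ hQ rfl rfl rfl ?_ ?_
    · intro T hT v S η hS hη hsmall
      have h1 := hext (uq τ) hq0 hq1 (E2f τ / 12) μ m hm1 hεm hμlo hμup D KK T hD1 hK1 hT v S η hS hη
        (fun t ht => by rw [hder]; exact hsmall t ht)
      rw [hder] at h1
      have hS0 : 0 ≤ S := le_trans (Finset.sum_nonneg fun i _ => Finset.sum_nonneg fun j _ =>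
        norm_nonneg _) hS
      refine h1.trans ?_
      have p1 : (c0 * m ^ C) ^ T ≤ ((2 : ℝ) ^ l) ^ T := pow_le_pow_left₀ hcm0 hcm T
      have p2 : (c0 * m ^ C) ^ (KK * T) ≤ ((2 : ℝ) ^ l) ^ (KK * T) := pow_le_pow_left₀ hcm0 hcm _
      have p3 : 0 ≤ S * Real.exp (-((KK : ℝ) * T / C)) := mul_nonneg hS0 (Real.exp_pos _).le
      have p4 : 0 ≤ η * (c0 * m ^ C) ^ (KK * T) := mul_nonneg hη (pow_nonneg hcm0 _)
      refine mul_le_mul (mul_le_mul_of_nonneg_left p1 (Nat.cast_nonneg _)) ?_ (by linarith)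
        (by positivity)
      have := mul_le_mul_of_nonneg_left p2 hη
      linarith
    · intro T hT hTZ
      exact unum hC hl1 (by rw [hd]; have := Nat.one_le_pow 2 N (by omega); omega) hD1 hM2 hZ hQ hQl
        hDT hKbig rfl rfl hδ0 (by rw [hδ, hE]; exact le_of_eq (inv_mul_cancel₀ (by positivity)))
        rfl T hT hTZ

end Pool.Agent.Lib.MP5e
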