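import Pool.Agent.Lib.MP_5e64e7_nt.Approx

set_option autoImplicit false

/-!
# U.REP : polynomials in one (transcendental) number `κ` with integral coefficients in a number field (helper21)

`URep κ K m M x` is the predicate `Rep` of `Defs.lean` with an arbitrary number `κ` instead of `ϑ`.
-/

noncomputable section

namespace Pool.Agent.Lib.MP5e

open Polynomial Topology

/-- `x = R(κ)` with `R ∈ K[X]` of degree at most `m`, with integral coefficients, all of whose
conjugates have `L¹`-norm at most `M` -/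
def URep (κ : ℂ) (K : IntermediateField ℚ ℂ) (m : ℕ) (M : ℝ) (x : ℂ) : Prop :=
  ∃ R : Polynomial K, R.natDegree ≤ m ∧ (∀ k, IsIntegral ℤ (R.coeff k)) ∧
    (∀ φ : K →ₐ[ℚ] ℂ, ∑ k ∈ Finset.range (m + 1), ‖φ (R.coeff k)‖ ≤ M) ∧
    Polynomial.aeval κ R = x

theorem AI.urep (κ : ℂ) {K : IntermediateField ℚ ℂ} {M : ℝ} {x : ℂ} (h : AI K M x) (m : ℕ) :
    URep κ K m M x := by
  obtain ⟨a, ha, hint, hb⟩ := h
  refine ⟨Polynomial.C a, by simp, fun k => ?_, fun φ => ?_, ?_⟩
  · rw [Polynomial.coeff_C]
    split_ifs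
    · exact hint
    · exact isIntegral_zero
  · rw [Finset.sum_eq_single_of_mem 0 (by simp)]
    · simpa using hb φ
    · intro k _ hk
      rw [Polynomial.coeff_C, if_neg hk]
      simp
  · rw [Polynomial.aeval_C]
    exact ha

theorem URep.self (κ : ℂ) (K : IntermediateField ℚ ℂ) : URep κ K 1 1 κ := by
  refine ⟨Polynomial.X, by simp, fun k => ?_, fun φ => ?_, ?_⟩
  · rw [Polynomial.coeff_X]
    split_ifs
    · exact isIntegral_one
    · exact isIntegral_zero
  · rw [Finset.sum_range_succ, Finset.sum_range_one]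
    simp
  · simp

theorem URep.nonneg {κ : ℂ} {K : IntermediateField ℚ ℂ} {m : ℕ} {M : ℝ} {x : ℂ} (h : URep κ K m M x) :
    0 ≤ M := by
  obtain ⟨R, _, _, hb, _⟩ := h
  exact (Finset.sum_nonneg fun _ _ => norm_nonneg _).trans (hb K.val)

theorem URep.mono {κ : ℂ} {K K' : IntermediateField ℚ ℂ} (hK : K ≤ K') {m m' : ℕ} (hm : m ≤ m')
    {M M' : ℝ} (hM : M ≤ M') {x : ℂ} (h : URep κ K m M x) : URep κ K' m' M' x := by
  obtain ⟨R, hd, hint, hb, hx⟩ := h
  refine ⟨R.map (IntermediateField.inclusion hK : K →+* K'), ?_, ?_, ?_, ?_⟩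
  · exact (Polynomial.natDegree_map_le).trans (hd.trans hm)
  · intro k
    rw [Polynomial.coeff_map]
    exact (hint k).map ((IntermediateField.inclusion hK).restrictScalars ℤ)
  · intro φ
    have h1 := hb (φ.comp (IntermediateField.inclusion hK))
    rw [← RepB_sum_ext R (φ.comp (IntermediateField.inclusion hK)) hd hm] at h1
    refine le_trans (le_of_eq ?_) (h1.trans hM)
    refine Finset.sum_congr rfl fun k _ => ?_
    rw [Polynomial.coeff_map]
    rfl
  · rw [← hx, Polynomial.aeval_def, Polynomial.aeval_def, Polynomial.eval₂_map]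
    congr 1

theorem URep.add {κ : ℂ} {K : IntermediateField ℚ ℂ} {m : ℕ} {M M' : ℝ} {x y : ℂ} (h : URep κ K m M x)
    (h' : URep κ K m M' y) : URep κ K m (M + M') (x + y) := by
  obtain ⟨R, hd, hint, hb, hx⟩ := h
  obtain ⟨R', hd', hint', hb', hx'⟩ := h'
  refine ⟨R + R', (Polynomial.natDegree_add_le _ _).trans (max_le hd hd'), fun k => ?_,
    fun φ => ?_, ?_⟩
  · rw [Polynomial.coeff_add]
    exact (hint k).add (hint' k)
  · refine le_trans ?_ (add_le_add (hb φ) (hb' φ))
    rw [← Finset.sum_add_distrib]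
    refine Finset.sum_le_sum fun k _ => ?_
    rw [Polynomial.coeff_add, map_add]
    exact norm_add_le _ _
  · rw [map_add, hx, hx']

theorem URep.mul {κ : ℂ} {K : IntermediateField ℚ ℂ} {m m' : ℕ} {M M' : ℝ} {x y : ℂ} (h : URep κ K m M x)
    (h' : URep κ K m' M' y) : URep κ K (m + m') (M * M') (x * y) := by
  have hM := h.nonneg
  obtain ⟨R, hd, hint, hb, hx⟩ := h
  obtain ⟨R', hd', hint', hb', hx'⟩ := h'
  refine ⟨R * R', Polynomial.natDegree_mul_le.trans (add_le_add hd hd'), fun k => ?_,
    fun φ => ?_, ?_⟩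
  · rw [Polynomial.coeff_mul]
    exact IsIntegral.sum _ fun p _ => (hint _).mul (hint' _)
  · have h1 : ∑ k ∈ Finset.range (m + m' + 1), ‖φ ((R * R').coeff k)‖ ≤
        (∑ k ∈ Finset.range (m + 1), ‖φ (R.coeff k)‖) *
          ∑ k ∈ Finset.range (m' + 1), ‖φ (R'.coeff k)‖ := by
      calc ∑ k ∈ Finset.range (m + m' + 1), ‖φ ((R * R').coeff k)‖
          ≤ ∑ k ∈ Finset.range (m + m' + 1), ∑ p ∈ Finset.HasAntidiagonal.antidiagonal k,
              ‖φ (R.coeff p.1)‖ * ‖φ (R'.coeff p.2)‖ := by
            refine Finset.sum_le_sum fun k _ => ?_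
            rw [Polynomial.coeff_mul, map_sum]
            refine (norm_sum_le _ _).trans (Finset.sum_le_sum fun p _ => ?_)
            rw [map_mul, norm_mul]
        _ = ∑ p ∈ Finset.range (m + 1) ×ˢ Finset.range (m' + 1),
              ‖φ (R.coeff p.1)‖ * ‖φ (R'.coeff p.2)‖ := by
            rw [Finset.sum_sigma' (Finset.range (m + m' + 1))]
            symm
            refine Finset.sum_bij_ne_zero (fun p _ _ => (⟨p.1 + p.2, p⟩ : Σ _ : ℕ, ℕ × ℕ))
              ?_ ?_ ?_ ?_
            · intro p hp _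
              simp only [Finset.mem_product, Finset.mem_range, Finset.mem_sigma,
                Finset.HasAntidiagonal.mem_antidiagonal, and_true] at *
              omega
            · intro p _ _ q _ _ hpq
              simp only [Sigma.mk.injEq, heq_eq_eq] at hpq
              exact hpq.2
            · intro p hp hne
              simp only [Finset.mem_sigma, Finset.HasAntidiagonal.mem_antidiagonal, Finset.mem_range] at hp
              refine ⟨p.2, ?_, hne, ?_⟩
              · simp only [Finset.mem_product, Finset.mem_range]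
                have h1 : R.coeff p.2.1 ≠ 0 := by
                  intro h0; apply hne; simp [h0]
                have h2 : R'.coeff p.2.2 ≠ 0 := by
                  intro h0; apply hne; simp [h0]
                have h3 := Polynomial.le_natDegree_of_ne_zero h1
                have h4 := Polynomial.le_natDegree_of_ne_zero h2
                omega
              · obtain ⟨k, p⟩ := p
                simp only [Sigma.mk.injEq, heq_eq_eq, and_true]
                exact hp.2
            · intro p _ _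
              rfl
        _ = _ := by
            rw [Finset.sum_mul_sum, ← Finset.sum_product']
    exact h1.trans (mul_le_mul (hb φ) (hb' φ) (Finset.sum_nonneg fun _ _ => norm_nonneg _) hM)
  · rw [map_mul, hx, hx']

theorem URep.zero (κ : ℂ) (K : IntermediateField ℚ ℂ) (m : ℕ) : URep κ K m 0 0 := by
  refine ⟨0, by simp, fun k => ?_, fun φ => ?_, ?_⟩
  · rw [Polynomial.coeff_zero]; exact isIntegral_zero
  · simp
  · simp

theorem URep.one (κ : ℂ) (K : IntermediateField ℚ ℂ) (m : ℕ) : URep κ K m 1 1 := by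
  have h := (AI.nat K 1).urep κ m
  simpa using h

theorem URep.pow {κ : ℂ} {K : IntermediateField ℚ ℂ} {m : ℕ} {M : ℝ} {x : ℂ} (h : URep κ K m M x) (k : ℕ) :
    URep κ K (k * m) (M ^ k) (x ^ k) := by
  induction k with
  | zero => simpa using URep.one κ K 0
  | succ k ih =>
    rw [pow_succ, pow_succ, Nat.succ_mul]
    exact ih.mul h

theorem URep.sum {κ : ℂ} {K : IntermediateField ℚ ℂ} {m : ℕ} {ι : Type*} (s : Finset ι) (M : ι → ℝ)
    (x : ι → ℂ) (h : ∀ i ∈ s, URep κ K m (M i) (x i)) : URep κ K m (∑ i ∈ s, M i) (∑ i ∈ s, x i) := by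
  classical
  induction s using Finset.induction_on with
  | empty => simpa using URep.zero κ K m
  | insert a s ha ih =>
    rw [Finset.sum_insert ha, Finset.sum_insert ha]
    exact (h a (Finset.mem_insert_self _ _)).add
      (ih fun i hi => h i (Finset.mem_insert_of_mem hi))

theorem URep.prod {κ : ℂ} {K : IntermediateField ℚ ℂ} {ι : Type*} (s : Finset ι) (m : ι → ℕ) (M : ι → ℝ)
    (x : ι → ℂ) (h : ∀ i ∈ s, URep κ K (m i) (M i) (x i)) :
    URep κ K (∑ i ∈ s, m i) (∏ i ∈ s, M i) (∏ i ∈ s, x i) := by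
  classical
  induction s using Finset.induction_on with
  | empty => simpa using URep.one κ K 0
  | insert a s ha ih =>
    rw [Finset.sum_insert ha, Finset.prod_insert ha, Finset.prod_insert ha]
    exact (h a (Finset.mem_insert_self _ _)).mul
      (ih fun i hi => h i (Finset.mem_insert_of_mem hi))

/-- the coefficients of a representing polynomial -/
theorem URep.coeff {κ : ℂ} {K : IntermediateField ℚ ℂ} {m : ℕ} {M : ℝ} {x : ℂ}
    (h : URep κ K m M x) : ∃ R : Polynomial K, R.natDegree ≤ m ∧
      (∀ k, AI K M (R.coeff k : ℂ)) ∧ Polynomial.aeval κ R = x := by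
  have hM := h.nonneg
  obtain ⟨R, hd, hint, hb, hx⟩ := h
  refine ⟨R, hd, fun k => ⟨R.coeff k, rfl, hint k, fun φ => ?_⟩, hx⟩
  by_cases hk : k ∈ Finset.range (m + 1)
  · exact (Finset.single_le_sum (f := fun k => ‖φ (R.coeff k)‖) (fun _ _ => norm_nonneg _)
      hk).trans (hb φ)
  · rw [Polynomial.coeff_eq_zero_of_natDegree_lt
      (by simp only [Finset.mem_range] at hk; omega)]
    simpa using hM

open Approx in
theorem urep_homog {ι : Type*} (κ : ℂ) (K : IntermediateField ℚ ℂ) (P : MvPolynomial ι ℤ)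
    (x : ι → ℂ) (dl : ℂ) (M : ℝ) (hM : 1 ≤ M) (hdl : URep κ K 2 M dl)
    (hx : ∀ v, URep κ K 2 M (dl * x v)) :
    URep κ K (2 * P.totalDegree)
      ((∑ s ∈ P.support, |((P.coeff s : ℤ) : ℝ)|) * M ^ P.totalDegree)
      (dl ^ P.totalDegree * MvPolynomial.aeval x P) := by
  rw [homog, Finset.sum_mul]
  refine URep.sum _ _ _ fun s hs => ?_
  have h1 : (s.sum fun _ k => k) ≤ P.totalDegree := MvPolynomial.le_totalDegree hs
  refine URep.mono le_rfl (m := 0 + ((P.totalDegree - s.sum fun _ k => k) * 2 +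
    ∑ v ∈ s.support, s v * 2)) ?_ (M := |((P.coeff s : ℤ) : ℝ)| *
      (M ^ (P.totalDegree - s.sum fun _ k => k) * ∏ v ∈ s.support, M ^ s v)) ?_ ?_
  · rw [← Finset.sum_mul]
    have : ∑ v ∈ s.support, s v = s.sum fun _ k => k := rfl
    rw [this]
    omega
  · rw [Finset.prod_pow_eq_pow_sum]
    have : ∑ v ∈ s.support, s v = s.sum fun _ k => k := rfl
    rw [this, ← pow_add]
    apply le_of_eq
    congr 2
    omega
  · exact ((AI.int K _).urep κ 0).mul ((hdl.pow _).mul
      (URep.prod _ _ _ _ fun v _ => (hx v).pow _))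

end Pool.Agent.Lib.MP5e
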