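import Pool.Agent.Lib.MP_5e64e7_nt.RDefs
import Pool.Agent.Lib.MP_5e64e7_nt.QVal
import Pool.Agent.Lib.MP_5e64e7_nt.URep
import Pool.Agent.Lib.MP_5e64e7_nt.UBd
import Pool.Agent.Lib.MP_5e64e7_nt.UMeas

set_option autoImplicit false

/-!
# U.LOW : lower bound for the value of an integer polynomial at CM values with one transcendental slot `u = π ℓ` (helper21)

With `QCMD L K E lam σ`: `s = ℓ/lam²`, `E₄(σ) = s² b`, `E₆(σ) = s³ c`, `κ = E₂(σ)/s = a + 3 lam²/(Y u)`, `Y = Im σ`,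
`u = π ℓ`. Let `yd, yd·Y` be integral; `θ = yd Y (κ - a)`, `θ u = 3 lam² yd`. If `DL` is a common denominator of the
`α_{i,d}` then `DLX = DL θ²` and `DLX (α_{i,0} + α_{i,1} u + α_{i,2} u²)` are polynomials of degree `2` in `κ` with integral
coefficients in `K`. So `DLX^(deg P) · P(v) = Q(κ)`, `Q ∈ K[X]` of degree at most `2 deg P`: the measure `umeas` applies.
-/

noncomputable section

namespace Pool.Agent.Lib.MP5e

open Polynomial Topology

theorem URep.norm_le {κ : ℂ} {K : IntermediateField ℚ ℂ} {m : ℕ} {M : ℝ} {x : ℂ}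
    (h : URep κ K m M x) : ‖x‖ ≤ M * (1 + ‖κ‖) ^ m := by
  obtain ⟨R, hd, hint, hb, hx⟩ := h
  have h1 : x = ∑ k ∈ Finset.range (m + 1), ((R.coeff k : K) : ℂ) * κ ^ k := by
    rw [← hx, Polynomial.aeval_eq_sum_range' (Nat.lt_succ_of_le hd)]
    refine Finset.sum_congr rfl fun k _ => ?_
    rw [Algebra.smul_def]
    rfl
  rw [h1]
  refine (norm_sum_le _ _).trans ?_
  have hκ := norm_nonneg κ
  calc ∑ k ∈ Finset.range (m + 1), ‖((R.coeff k : K) : ℂ) * κ ^ k‖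
      ≤ ∑ k ∈ Finset.range (m + 1), ‖K.val (R.coeff k)‖ * (1 + ‖κ‖) ^ m := by
        refine Finset.sum_le_sum fun k hk => ?_
        rw [norm_mul, norm_pow]
        have h2 : ‖κ‖ ^ k ≤ (1 + ‖κ‖) ^ m :=
          (pow_le_pow_left₀ hκ (by linarith) k).trans
            (pow_le_pow_right₀ (by linarith) (by have := Finset.mem_range.1 hk; omega))
        exact mul_le_mul_of_nonneg_left h2 (norm_nonneg _)
    _ = (∑ k ∈ Finset.range (m + 1), ‖K.val (R.coeff k)‖) * (1 + ‖κ‖) ^ m :=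
        (Finset.sum_mul _ _ _).symm
    _ ≤ M * (1 + ‖κ‖) ^ m := mul_le_mul_of_nonneg_right (hb K.val) (by positivity)

/-- the number `s = ℓ/lam²` -/
theorem ulow_kap {L : PeriodPair} {K : IntermediateField ℚ ℂ} {E lam : ℕ} {σ : ℂ} (hσ : 0 < σ.im)
    (h : QCMD L K E lam σ) : ∃ a b c : ℂ, AI K ((2 : ℝ) ^ E) a ∧ AI K ((2 : ℝ) ^ E) b ∧
      AI K ((2 : ℝ) ^ E) c ∧ E4f σ = (qell L / (lam : ℂ) ^ 2) ^ 2 * b ∧
      E6f σ = (qell L / (lam : ℂ) ^ 2) ^ 3 * c ∧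
      E2f σ / (qell L / (lam : ℂ) ^ 2) =
        a + 3 * (lam : ℂ) ^ 2 / ((σ.im : ℂ) * ((Real.pi : ℂ) * qell L)) := by
  obtain ⟨hlam1, hlam2, a, b, c, ha, hb, hc, h2, h4, h6⟩ := h
  have hell := qell_ne L
  have hlC : (lam : ℂ) ≠ 0 := by
    have : lam ≠ 0 := by omega
    exact_mod_cast this
  have hYC : (σ.im : ℂ) ≠ 0 := by exact_mod_cast hσ.ne'
  have hπ : (Real.pi : ℂ) ≠ 0 := by exact_mod_cast Real.pi_ne_zero
  refine ⟨a, b, c, ha, hb, hc, ?_, ?_, ?_⟩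
  · rw [div_pow, div_mul_eq_mul_div, eq_div_iff (by positivity), ← h4]
    ring
  · rw [div_pow, div_mul_eq_mul_div, eq_div_iff (by positivity), ← h6]
    ring
  · rw [div_div_eq_mul_div, div_eq_iff hell, mul_comm (E2f σ), h2]
    field_simp

open Approx in
theorem ulow_den {ι : Type} [Fintype ι] {K : IntermediateField ℚ ℂ} {F lam : ℕ} {κ a u Y yd : ℂ}
    (hF : 1 ≤ F) (hlam1 : 1 ≤ lam) (hlam2 : lam ≤ 2 ^ F) (hu : u ≠ 0) (hY : Y ≠ 0) (hyd : yd ≠ 0)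
    (ha : AI K ((2 : ℝ) ^ F) a) (hydA : AI K ((2 : ℝ) ^ F) yd)
    (hynA : AI K ((2 : ℝ) ^ F) (yd * Y)) (hκ : κ = a + 3 * (lam : ℂ) ^ 2 / (Y * u))
    (al : ι → Fin 3 → ℂ) (hal : ∀ i d, RAlg K F (al i d)) :
    ∃ dx : ℂ, dx ≠ 0 ∧ URep κ K 2 ((2 : ℝ) ^ (F * (3 * Fintype.card ι + 12))) dx ∧
      ∀ i, URep κ K 2 ((2 : ℝ) ^ (F * (3 * Fintype.card ι + 12)))
        (dx * (al i 0 + al i 1 * u + al i 2 * u ^ 2)) := by
  classical
  set M0 : ℝ := (2 : ℝ) ^ F with hM0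
  have hM2 : 2 ≤ M0 := by
    calc (2 : ℝ) = 2 ^ 1 := (pow_one _).symm
      _ ≤ 2 ^ F := pow_le_pow_right₀ (by norm_num) hF
  have hM1 : 1 ≤ M0 := by linarith
  choose dl hdl0 hdlA hdlR using hal
  set n : ℕ := Fintype.card ι with hn
  have hcard : Fintype.card (ι × Fin 3) = 3 * n := by
    rw [Fintype.card_prod, Fintype.card_fin, hn]
    ring
  set DL : ℂ := ∏ p : ι × Fin 3, dl p.1 p.2 with hDL
  have hDL0 : DL ≠ 0 := Finset.prod_ne_zero_iff.mpr fun p _ => hdl0 p.1 p.2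
  have hDLA : AI K (M0 ^ (3 * n)) DL := by
    have := AI_prod (K := K) Finset.univ M0 (fun p : ι × Fin 3 => dl p.1 p.2)
      (fun p _ => hdlA p.1 p.2)
    rwa [Finset.card_univ, hcard] at this
  have hDLal : ∀ i d, AI K (M0 ^ (3 * n)) (DL * al i d) := by
    intro i d
    have h1 : DL * al i d = (∏ p ∈ Finset.univ.erase (i, d), dl p.1 p.2) *
        (dl i d * al i d) := by
      rw [hDL, ← Finset.mul_prod_erase Finset.univ (fun p : ι × Fin 3 => dl p.1 p.2)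
        (Finset.mem_univ (i, d))]
      ring
    rw [h1]
    have h2 : AI K (M0 ^ (3 * n - 1)) (∏ p ∈ Finset.univ.erase (i, d), dl p.1 p.2) := by
      have := AI_prod (K := K) (Finset.univ.erase (i, d)) M0 (fun p : ι × Fin 3 => dl p.1 p.2)
        (fun p _ => hdlA p.1 p.2)
      rwa [Finset.card_erase_of_mem (Finset.mem_univ _), Finset.card_univ, hcard] at this
    have h3 : (3 * n - 1) + 1 = 3 * n := by
      have : 0 < n := Fintype.card_pos_iff.mpr ⟨i⟩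
      omega
    have h4 := h2.mul (hdlR i d)
    rwa [← pow_succ, h3] at h4
  -- the number `θ`
  set c0 : ℂ := 3 * (lam : ℂ) ^ 2 * yd with hc0
  have hlC : (lam : ℂ) ≠ 0 := by
    have : lam ≠ 0 := by omega
    exact_mod_cast this
  have hc00 : c0 ≠ 0 := mul_ne_zero (mul_ne_zero (by norm_num) (pow_ne_zero _ hlC)) hyd
  have hlamA : AI K M0 (lam : ℂ) := by
    refine (AI.nat K lam).mono le_rfl ?_
    rw [hM0]
    exact_mod_cast hlam2
  have h3A : AI K (M0 ^ 2) (3 : ℂ) := by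
    have h := AI.nat K 3
    refine AI.mono le_rfl ?_ (by exact_mod_cast h : AI K ((3 : ℕ) : ℝ) (3 : ℂ))
    push_cast
    nlinarith
  have hc0A : AI K (M0 ^ 5) c0 := by
    have h := (h3A.mul (hlamA.pow 2)).mul hydA
    have e : M0 ^ 2 * M0 ^ 2 * M0 = M0 ^ 5 := by ring
    rwa [e] at h
  set θ : ℂ := yd * Y * κ + (-(yd * Y * a)) with hθ
  have hθu : θ * u = c0 := by
    rw [hθ, hκ, hc0]
    field_simp
    ring
  have hθ0 : θ ≠ 0 := by
    intro h
    rw [h, zero_mul] at hθu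
    exact hc00 hθu.symm
  have hθR : URep κ K 1 (M0 ^ 5) θ := by
    have h1 := (hynA.urep κ 0).mul (URep.self κ K)
    have h2 := ((hynA.mul ha).neg).urep κ 1
    rw [zero_add] at h1
    refine (h1.add h2).mono le_rfl le_rfl ?_
    have e1 : M0 * 1 + M0 * M0 ≤ M0 ^ 2 * 2 := by nlinarith
    have e2 : M0 ^ 2 * 2 ≤ M0 ^ 2 * M0 := mul_le_mul_of_nonneg_left hM2 (by positivity)
    have e3 : M0 ^ 2 * M0 = M0 ^ 3 := by ring
    have e4 : M0 ^ 3 ≤ M0 ^ 5 := pow_le_pow_right₀ hM1 (by norm_num)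
    linarith
  have hfin : (2 : ℝ) ^ (F * (3 * n + 12)) = M0 ^ (3 * n + 12) := by rw [hM0, ← pow_mul]
  have hle : M0 ^ (3 * n + 10) ≤ M0 ^ (3 * n + 12) := pow_le_pow_right₀ hM1 (by omega)
  rw [hfin]
  refine ⟨DL * θ ^ 2, mul_ne_zero hDL0 (pow_ne_zero _ hθ0), ?_, fun i => ?_⟩
  · have h1 := (hDLA.urep κ 0).mul (hθR.pow 2)
    refine h1.mono le_rfl (by norm_num) (le_trans (le_of_eq ?_) hle)
    ring
  · have h0 := ((hDLal i 0).urep κ 0).mul (hθR.pow 2)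
    have h1 := (((hDLal i 1).mul hc0A).urep κ 0).mul hθR
    have h2 := ((hDLal i 2).mul (hc0A.pow 2)).urep κ 2
    have h0' : URep κ K 2 (M0 ^ (3 * n + 10)) (DL * al i 0 * θ ^ 2) :=
      h0.mono le_rfl (by norm_num) (le_of_eq (by ring))
    have h1' : URep κ K 2 (M0 ^ (3 * n + 10)) (DL * al i 1 * c0 * θ) :=
      h1.mono le_rfl (by norm_num) (le_of_eq (by ring))
    have h2' : URep κ K 2 (M0 ^ (3 * n + 10)) (DL * al i 2 * c0 ^ 2) :=
      h2.mono le_rfl (by norm_num) (le_of_eq (by ring))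
    have e : DL * θ ^ 2 * (al i 0 + al i 1 * u + al i 2 * u ^ 2) =
        DL * al i 0 * θ ^ 2 + DL * al i 1 * c0 * θ + DL * al i 2 * c0 ^ 2 := by
      rw [← hθu]
      ring
    rw [e]
    refine ((h0'.add h1').add h2').mono le_rfl le_rfl ?_
    have e1 : M0 ^ (3 * n + 12) = M0 ^ (3 * n + 10) * M0 ^ 2 := by rw [← pow_add]
    have e2 : (0 : ℝ) ≤ M0 ^ (3 * n + 10) := by positivity
    have e3 : 3 ≤ M0 ^ 2 := by nlinarith
    have e4 := mul_le_mul_of_nonneg_left e3 e2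
    rw [e1]
    linarith

theorem ulow_pow {B x y : ℕ} (hB : 2 ≤ B) : B ^ x + B ^ y ≤ B ^ (x + y + 1) := by
  have h1 : 1 ≤ B ^ x := Nat.one_le_pow _ _ (by omega)
  have h2 : 1 ≤ B ^ y := Nat.one_le_pow _ _ (by omega)
  have h3 : B ^ x + B ^ y ≤ B ^ x * B ^ y * 2 := by nlinarith
  calc B ^ x + B ^ y ≤ B ^ x * B ^ y * 2 := h3
    _ ≤ B ^ x * B ^ y * B := Nat.mul_le_mul_left _ hB
    _ = B ^ (x + y + 1) := by ring

open Approx in
/-- values `α₀ + α₁ u + α₂ u²`, `u = π ℓ` -/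
theorem ulow {ι : Type} [Fintype ι] (P : MvPolynomial ι ℤ) (C0 : ℕ) (R : ℝ) (hR : 0 < R) :
    ∃ C : ℕ, ∀ (B : ℕ) (K : IntermediateField ℚ ℂ) (v : ι → ℂ) (L : PeriodPair) (lam : ℕ) (σ : ℂ),
      2 ≤ B → FiniteDimensional ℚ K → Module.finrank ℚ K ≤ B ^ C0 → R⁻¹ ≤ σ.im → σ.im ≤ R →
      QCMD L K (B ^ C0) lam σ → RAlg K (B ^ C0) (σ.im : ℂ) →
      (∀ i, ∃ al : Fin 3 → ℂ, (∀ d, RAlg K (B ^ C0) (al d)) ∧
        v i = al 0 + al 1 * ((Real.pi : ℂ) * qell L) + al 2 * ((Real.pi : ℂ) * qell L) ^ 2) →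
      MvPolynomial.aeval v P = 0 ∨ Real.exp (-((B : ℝ) ^ C)) ≤ ‖MvPolynomial.aeval v P‖ := by
  classical
  obtain ⟨A, hA⟩ := umeas R hR
  obtain ⟨A', hA'⟩ := us_bd R hR
  set T := P.totalDegree with hT
  set H1 : ℕ := ∑ s ∈ P.support, (P.coeff s).natAbs with hH1
  set n : ℕ := Fintype.card ι with hn
  set C1 : ℕ := C0 + (H1 + (3 * n + 12) * T) + 2 * T + 1 with hC1
  set C2 : ℕ := (C0 + (3 * n + 12) * T) + (2 * T + (C1 * A' + 1)) + 1 with hC2
  refine ⟨C1 * A + C2 + 1, fun B K v L lam σ hB hK2 hK3 hσ1 hσ2 hQ hYR hv => ?_⟩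
  by_cases h0 : MvPolynomial.aeval v P = 0
  · exact Or.inl h0
  right
  have hσ : 0 < σ.im := lt_of_lt_of_le (inv_pos.2 hR) hσ1
  have hBpos : 0 < B := by omega
  have hB1 : (1 : ℝ) ≤ B := by exact_mod_cast (by omega : 1 ≤ B)
  have hpow : ∀ k : ℕ, k ≤ B ^ k := fun k =>
    (Nat.lt_two_pow_self).le.trans (Nat.pow_le_pow_left hB k)
  set F1 : ℕ := B ^ C0 with hF1
  have hF11 : 1 ≤ F1 := Nat.one_le_pow _ _ hBpos
  obtain ⟨a, b, c, haA, hbA, hcA, hE4, hE6, hE2⟩ := ulow_kap hσ hQ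
  have hlam1 := hQ.1
  have hlam2 := hQ.2.1
  obtain ⟨yd, hyd0, hydA, hynA⟩ := hYR
  choose al hal hv' using hv
  set s : ℂ := qell L / (lam : ℂ) ^ 2 with hs
  set κ : ℂ := E2f σ / s with hκd
  have hell := qell_ne L
  have hπ : (Real.pi : ℂ) ≠ 0 := by exact_mod_cast Real.pi_ne_zero
  have hYC : (σ.im : ℂ) ≠ 0 := by exact_mod_cast hσ.ne'
  obtain ⟨dx, hdx0, hdxR, hdxv⟩ := ulow_den (κ := κ) hF11 hlam1 hlam2 (mul_ne_zero hπ hell) hYC
    hyd0 haA hydA hynA hE2 al hal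
  have hvar : ∀ i, URep κ K 2 ((2 : ℝ) ^ (F1 * (3 * n + 12))) (dx * v i) := by
    intro i
    rw [hv' i]
    exact hdxv i
  have hM1 : (1 : ℝ) ≤ (2 : ℝ) ^ (F1 * (3 * n + 12)) := one_le_pow₀ (by norm_num)
  have hrep := urep_homog κ K P v dx _ hM1 hdxR hvar
  set X : ℂ := dx ^ P.totalDegree * MvPolynomial.aeval v P with hX
  have hX0 : X ≠ 0 := mul_ne_zero (pow_ne_zero _ hdx0) h0
  obtain ⟨Q, hQd, hQc, hQx⟩ := hrep.coeff
  -- the number `N`
  set N : ℕ := B ^ C1 with hN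
  have hN2 : 2 ≤ N := by
    calc 2 ≤ B := hB
      _ = B ^ 1 := (pow_one B).symm
      _ ≤ B ^ C1 := Nat.pow_le_pow_right hBpos (by omega)
  have hNF : F1 ≤ N := Nat.pow_le_pow_right hBpos (by omega)
  have hNT : 2 * T ≤ N := (hpow (2 * T)).trans (Nat.pow_le_pow_right hBpos (by omega))
  have hMN : (∑ s ∈ P.support, |((P.coeff s : ℤ) : ℝ)|) *
      ((2 : ℝ) ^ (F1 * (3 * n + 12))) ^ P.totalDegree ≤ (2 : ℝ) ^ N := by
    have h1 : (∑ s ∈ P.support, |((P.coeff s : ℤ) : ℝ)|) = (H1 : ℝ) := by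
      rw [hH1]
      push_cast
      refine Finset.sum_congr rfl fun s _ => ?_
      rw [Nat.cast_natAbs, Int.cast_abs]
    have h2 : (H1 : ℝ) ≤ (2 : ℝ) ^ H1 := by exact_mod_cast (Nat.lt_two_pow_self).le
    rw [h1, ← pow_mul, ← hT]
    calc (H1 : ℝ) * (2 : ℝ) ^ (F1 * (3 * n + 12) * T)
        ≤ (2 : ℝ) ^ H1 * (2 : ℝ) ^ (F1 * (3 * n + 12) * T) :=
          mul_le_mul_of_nonneg_right h2 (by positivity)
      _ = (2 : ℝ) ^ (H1 + F1 * (3 * n + 12) * T) := (pow_add _ _ _).symm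
      _ ≤ (2 : ℝ) ^ N := by
          refine pow_le_pow_right₀ (by norm_num) ?_
          calc H1 + F1 * (3 * n + 12) * T ≤ F1 * H1 + F1 * (3 * n + 12) * T :=
                Nat.add_le_add_right (Nat.le_mul_of_pos_left _ (by omega)) _
            _ = F1 * (H1 + (3 * n + 12) * T) := by ring
            _ ≤ F1 * B ^ (H1 + (3 * n + 12) * T) := Nat.mul_le_mul_left _ (hpow _)
            _ = B ^ (C0 + (H1 + (3 * n + 12) * T)) := by rw [hF1, ← pow_add]
            _ ≤ N := Nat.pow_le_pow_right hBpos (by omega)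
  have hFN : (2 : ℝ) ^ F1 ≤ (2 : ℝ) ^ N := pow_le_pow_right₀ (by norm_num) hNF
  have hQ0 : Q ≠ 0 := by
    rintro rfl
    rw [map_zero] at hQx
    exact hX0 hQx.symm
  have hbN := hbA.mono le_rfl hFN
  have hcN := hcA.mono le_rfl hFN
  have hlow := hA N K hN2 hK2 (hK3.trans hNF) σ s b c hσ1 hσ2 hbN hcN hE4 hE6 Q hQ0
    (hQd.trans hNT) (fun k => (hQc k).mono le_rfl hMN)
  rw [← hκd, hQx] at hlow
  -- the upper bound for the denominator
  obtain ⟨-, -, -, -, hκb⟩ := hA' N K hN2 hK2 (hK3.trans hNF) σ s b c hσ1 hσ2 hbN hcN hE4 hE6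
  rw [← hκd] at hκb
  have hdxn := hdxR.norm_le
  have hexp2 : (2 : ℝ) ≤ Real.exp 1 := by
    have := Real.add_one_le_exp (1 : ℝ)
    linarith
  have h1κ : 1 + ‖κ‖ ≤ Real.exp ((N : ℝ) ^ A' + 1) := by
    have e1 : (1 : ℝ) ≤ Real.exp ((N : ℝ) ^ A') := Real.one_le_exp (by positivity)
    rw [Real.exp_add]
    nlinarith [Real.exp_pos ((N : ℝ) ^ A')]
  have hdxT : ‖dx‖ ^ T ≤ Real.exp ((B : ℝ) ^ C2) := by
    calc ‖dx‖ ^ T ≤ ((2 : ℝ) ^ (F1 * (3 * n + 12)) * (1 + ‖κ‖) ^ 2) ^ T :=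
          pow_le_pow_left₀ (norm_nonneg _) hdxn T
      _ ≤ (Real.exp 1 ^ (F1 * (3 * n + 12)) * (Real.exp ((N : ℝ) ^ A' + 1)) ^ 2) ^ T := by
          have hκ0 := norm_nonneg κ
          gcongr
      _ = Real.exp (((F1 * ((3 * n + 12) * T) : ℕ) : ℝ) + ((2 * T : ℕ) : ℝ) * ((N : ℝ) ^ A' + 1)) := by
          rw [← Real.exp_nat_mul, ← Real.exp_nat_mul, ← Real.exp_add, ← Real.exp_nat_mul]
          congr 1
          push_cast
          ring
      _ ≤ Real.exp ((B : ℝ) ^ C2) := by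
          apply Real.exp_le_exp.mpr
          have e1 : F1 * ((3 * n + 12) * T) ≤ B ^ (C0 + (3 * n + 12) * T) := by
            calc F1 * ((3 * n + 12) * T) ≤ F1 * B ^ ((3 * n + 12) * T) :=
                  Nat.mul_le_mul_left _ (hpow _)
              _ = _ := by rw [hF1, ← pow_add]
          have e2 : 2 * T * (N ^ A' + 1) ≤ B ^ (2 * T + (C1 * A' + 1)) := by
            have e3 : N ^ A' + 1 ≤ B ^ (C1 * A' + 1) := by
              have e4 := ulow_pow (B := B) (x := C1 * A') (y := 0) hB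
              rw [pow_zero] at e4
              rw [hN, ← pow_mul]
              exact e4
            calc 2 * T * (N ^ A' + 1) ≤ B ^ (2 * T) * B ^ (C1 * A' + 1) :=
                  Nat.mul_le_mul (hpow _) e3
              _ = _ := by rw [← pow_add]
          have e5 := ulow_pow (B := B) (x := C0 + (3 * n + 12) * T)
            (y := 2 * T + (C1 * A' + 1)) hB
          have e6 : F1 * ((3 * n + 12) * T) + 2 * T * (N ^ A' + 1) ≤ B ^ C2 := by
            rw [hC2]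
            omega
          have e7 : ((F1 * ((3 * n + 12) * T) + 2 * T * (N ^ A' + 1) : ℕ) : ℝ) ≤
              ((B ^ C2 : ℕ) : ℝ) := by exact_mod_cast e6
          push_cast at e7 ⊢
          linarith
  have hlow' : Real.exp (-((B : ℝ) ^ (C1 * A))) ≤ ‖X‖ := by
    have e : ((N : ℕ) : ℝ) ^ A = (B : ℝ) ^ (C1 * A) := by
      rw [hN]
      push_cast
      rw [← pow_mul]
    rwa [e] at hlow
  have h3 : ‖X‖ ≤ Real.exp ((B : ℝ) ^ C2) * ‖MvPolynomial.aeval v P‖ := by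
    rw [hX, norm_mul, norm_pow]
    exact mul_le_mul_of_nonneg_right hdxT (norm_nonneg _)
  have h4 : Real.exp (-((B : ℝ) ^ (C1 * A + C2 + 1))) * Real.exp ((B : ℝ) ^ C2) ≤
      Real.exp (-((B : ℝ) ^ (C1 * A))) := by
    rw [← Real.exp_add]
    apply Real.exp_le_exp.mpr
    have e1 := ulow_pow (B := B) (x := C1 * A) (y := C2) hB
    have e2 : ((B ^ (C1 * A) + B ^ C2 : ℕ) : ℝ) ≤ ((B ^ (C1 * A + C2 + 1) : ℕ) : ℝ) := by
      exact_mod_cast e1
    push_cast at e2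
    linarith
  have h5 := (h4.trans hlow').trans h3
  have h6 : 0 < Real.exp ((B : ℝ) ^ C2) := Real.exp_pos _
  rw [mul_comm] at h5
  exact le_of_mul_le_mul_left h5 h6

/-- `κ` is transcendental -/
theorem ukap_trans (R : ℝ) (hR : 0 < R) (K : IntermediateField ℚ ℂ) (hK : FiniteDimensional ℚ K)
    (τ s b c : ℂ) (h1 : R⁻¹ ≤ τ.im) (h2 : τ.im ≤ R) (E : ℕ) (hb : AI K ((2 : ℝ) ^ E) b)
    (hc : AI K ((2 : ℝ) ^ E) c) (h4 : E4f τ = s ^ 2 * b) (h6 : E6f τ = s ^ 3 * c) :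
    Transcendental ℤ (E2f τ / s) := by
  obtain ⟨A, hA⟩ := umeas R hR
  rintro ⟨P, hP0, hP⟩
  set H : ℕ := ∑ k ∈ P.support, (P.coeff k).natAbs with hH
  set N : ℕ := 2 + Module.finrank ℚ K + E + P.natDegree + H with hN
  have hinj : Function.Injective (algebraMap ℤ K) := (algebraMap ℤ K).injective_int
  have hQ0 : P.map (algebraMap ℤ K) ≠ 0 := (Polynomial.map_ne_zero_iff hinj).2 hP0
  have hEN : (2 : ℝ) ^ E ≤ (2 : ℝ) ^ N := pow_le_pow_right₀ (by norm_num) (by omega)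
  have h := hA N K (by omega) hK (by omega) τ s b c h1 h2 (hb.mono le_rfl hEN)
    (hc.mono le_rfl hEN) h4 h6 (P.map (algebraMap ℤ K)) hQ0
    (Polynomial.natDegree_map_le.trans (by omega)) (fun k => ?_)
  · rw [Polynomial.aeval_map_algebraMap, hP, norm_zero] at h
    exact absurd h (not_le.2 (Real.exp_pos _))
  · have e1 : (((P.map (algebraMap ℤ K)).coeff k : K) : ℂ) = ((P.coeff k : ℤ) : ℂ) := by
      rw [Polynomial.coeff_map]
      simp
    rw [e1]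
    refine (AI.int K _).mono le_rfl ?_
    have e2 : (P.coeff k).natAbs ≤ H := by
      by_cases hk : k ∈ P.support
      · exact Finset.single_le_sum (f := fun k => (P.coeff k).natAbs) (fun _ _ => Nat.zero_le _) hk
      · rw [Polynomial.notMem_support_iff.1 hk]
        simp
    have e3 : H ≤ 2 ^ N := (Nat.lt_two_pow_self).le.trans (Nat.pow_le_pow_right (by norm_num)
      (by omega))
    have e4 : |((P.coeff k : ℤ) : ℝ)| = (((P.coeff k).natAbs : ℕ) : ℝ) := by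
      rw [Nat.cast_natAbs, Int.cast_abs]
    rw [e4]
    exact_mod_cast e2.trans e3

/-- version with the slot: the relation is identical in the slot, or the value is bounded from below -/
theorem ulow_slot {ι : Type} [Fintype ι] (P : MvPolynomial ι ℤ) (C0 : ℕ) (R : ℝ) (hR : 0 < R) :
    ∃ C : ℕ, ∀ (B : ℕ) (K : IntermediateField ℚ ℂ) (al : ι → Fin 3 → ℂ) (L : PeriodPair)
      (lam : ℕ) (σ : ℂ),
      2 ≤ B → FiniteDimensional ℚ K → Module.finrank ℚ K ≤ B ^ C0 → R⁻¹ ≤ σ.im → σ.im ≤ R →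
      QCMD L K (B ^ C0) lam σ → RAlg K (B ^ C0) (σ.im : ℂ) →
      (∀ i d, RAlg K (B ^ C0) (al i d)) →
      (∀ t : ℂ, MvPolynomial.aeval (fun i => al i 0 + al i 1 * t + al i 2 * t ^ 2) P = 0) ∨
        Real.exp (-((B : ℝ) ^ C)) ≤ ‖MvPolynomial.aeval (fun i => al i 0 +
          al i 1 * ((Real.pi : ℂ) * qell L) + al i 2 * ((Real.pi : ℂ) * qell L) ^ 2) P‖ := by
  obtain ⟨C, hC⟩ := ulow P C0 R hR
  refine ⟨C, fun B K al L lam σ hB hK2 hK3 hσ1 hσ2 hQ hYR hal => ?_⟩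
  rcases hC B K _ L lam σ hB hK2 hK3 hσ1 hσ2 hQ hYR (fun i => ⟨al i, hal i, rfl⟩) with h0 | h
  · left
    have hσ : 0 < σ.im := lt_of_lt_of_le (inv_pos.2 hR) hσ1
    have hell := qell_ne L
    have hπ : (Real.pi : ℂ) ≠ 0 := by exact_mod_cast Real.pi_ne_zero
    have hYC : (σ.im : ℂ) ≠ 0 := by exact_mod_cast hσ.ne'
    have hmem : ∀ v : ℂ, RAlg K (B ^ C0) v → v ∈ K := by
      rintro v ⟨d, hd0, hd1, hd2⟩
      have h1 := K.mul_mem (K.inv_mem hd1.mem) hd2.mem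
      rwa [inv_mul_cancel_left₀ hd0] at h1
    set W : Polynomial K := MvPolynomial.aeval (fun i =>
      Polynomial.C (⟨al i 0, hmem _ (hal i 0)⟩ : K) +
        Polynomial.C (⟨al i 1, hmem _ (hal i 1)⟩ : K) * Polynomial.X +
        Polynomial.C (⟨al i 2, hmem _ (hal i 2)⟩ : K) * Polynomial.X ^ 2) P with hW
    have hWt : ∀ t : ℂ, Polynomial.aeval t W =
        MvPolynomial.aeval (fun i => al i 0 + al i 1 * t + al i 2 * t ^ 2) P := by
      intro t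
      have h1 := MvPolynomial.comp_aeval_apply (R := ℤ) (fun i =>
        Polynomial.C (⟨al i 0, hmem _ (hal i 0)⟩ : K) +
          Polynomial.C (⟨al i 1, hmem _ (hal i 1)⟩ : K) * Polynomial.X +
          Polynomial.C (⟨al i 2, hmem _ (hal i 2)⟩ : K) * Polynomial.X ^ 2)
        ((Polynomial.aeval (R := K) t).restrictScalars ℤ) P
      rw [AlgHom.restrictScalars_apply] at h1
      rw [hW, h1]
      congr 2
      funext i
      simp only [AlgHom.restrictScalars_apply, map_add, map_mul, map_pow, Polynomial.aeval_C,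
        Polynomial.aeval_X]
      rfl
    by_cases hW0 : W = 0
    · intro t
      rw [← hWt t, hW0, map_zero]
    · exfalso
      have hu : IsAlgebraic K ((Real.pi : ℂ) * qell L) := ⟨W, hW0, by rw [hWt, h0]⟩
      obtain ⟨a, b, c, haA, hbA, hcA, hE4, hE6, hE2⟩ := ulow_kap hσ hQ
      have halg : ∀ v : ℂ, v ∈ K → IsAlgebraic K v := fun v hv =>
        isAlgebraic_algebraMap (R := K) (⟨v, hv⟩ : K)
      have hκ : IsAlgebraic K (E2f σ / (qell L / (lam : ℂ) ^ 2)) := by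
        rw [hE2]
        refine (halg _ haA.mem).add ?_
        rw [div_eq_mul_inv]
        refine IsAlgebraic.mul (halg _ ?_) (IsAlgebraic.inv ((halg _ (hmem _ hYR)).mul hu))
        exact K.mul_mem (by exact_mod_cast (AI.nat K 3).mem)
          (K.pow_mem (AI.nat K lam).mem 2)
      have hκ2 : IsAlgebraic ℚ (E2f σ / (qell L / (lam : ℂ) ^ 2)) := hκ.restrictScalars ℚ
      exact ukap_trans R hR K hK2 σ _ b c hσ1 hσ2 (B ^ C0) hbA hcA hE4 hE6
        ((IsFractionRing.isAlgebraic_iff ℤ ℚ ℂ).2 hκ2)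
  · exact Or.inr h

end Pool.Agent.Lib.MP5e
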