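import Pool.Agent.Lib.MP_5e64e7_nt.UStg
import Pool.Agent.Lib.MP_5e64e7_nt.UFn
import Pool.Agent.Lib.MP_5e64e7_nt.UFunC
import Pool.Agent.Lib.MP_5e64e7_nt.GCon

set_option autoImplicit false

/-!
# U.MAIN : the numbers `w, J(z_k)`, `z_k ∈ ℚ(w, v)`, are algebraically independent (block E, helper16)
-/

noncomputable section

namespace Pool.Agent.Lib.MP5e

open Polynomial Topology

/-- there are admissible points in every neighbourhood of `w` -/
theorem uadm_near {m M : ℕ} {w : Fin m → ℂ} {v : Fin M → ℂ} (h : UCM w v) {ε : ℝ} (hε : 0 < ε)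
    {U : Set (Fin m → ℂ)} (hU : U ∈ 𝓝 w) :
    ∃ (B : ℕ) (x : Fin m → ℂ), 2 ≤ B ∧ UAdm w v ε B x ∧ x ∈ U := by
  obtain ⟨δ, hδ, hball⟩ := Metric.mem_nhds_iff.1 hU
  obtain ⟨C, hC⟩ : ∃ C : ℕ, Real.exp (-((2 : ℝ) ^ C)) < δ := by
    have h1 : Filter.Tendsto (fun m : ℕ => Real.exp (-((2 : ℝ) ^ m))) Filter.atTop (𝓝 0) := by
      have h2 : Filter.Tendsto (fun m : ℕ => (2 : ℝ) ^ m) Filter.atTop Filter.atTop :=
        tendsto_pow_atTop_atTop_of_one_lt (by norm_num)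
      exact Real.tendsto_exp_neg_atTop_nhds_zero.comp h2
    exact (h1.eventually (gt_mem_nhds hδ)).exists
  obtain ⟨B, x, hB, hadm, -, h1, h2⟩ := uadm h hε (C + 1)
  have hB2 : (2 : ℝ) ≤ B := by exact_mod_cast hB
  have hle : ∀ (k : ℕ) (l : Fin m), (l : ℕ) = k → ‖w l - x l‖ ≤ Real.exp (-((2 : ℝ) ^ C)) := by
    intro k
    induction k with
    | zero =>
      intro l hl
      refine (h1 l hl).trans (Real.exp_le_exp.mpr ?_)
      have e1 : (2 : ℝ) ^ C ≤ (2 : ℝ) ^ (C + 1) := pow_le_pow_right₀ (by norm_num) (by omega)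
      have e2 : (2 : ℝ) ^ (C + 1) ≤ (B : ℝ) ^ (C + 1) := pow_le_pow_left₀ (by norm_num) hB2 _
      linarith
    | succ k ih =>
      intro l hl
      have hk : k < m := by omega
      have h3 := ih ⟨k, hk⟩ rfl
      have h4 : ‖w ⟨k, hk⟩ - x ⟨k, hk⟩‖ ≤ 1 := by
        refine h3.trans ?_
        rw [Real.exp_le_one_iff]
        have : (0 : ℝ) ≤ (2 : ℝ) ^ C := by positivity
        linarith
      refine (h2 ⟨k, hk⟩ l hl).trans (le_trans ?_ h3)
      calc ‖w ⟨k, hk⟩ - x ⟨k, hk⟩‖ ^ (C + 1) ≤ ‖w ⟨k, hk⟩ - x ⟨k, hk⟩‖ ^ 1 :=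
            pow_le_pow_of_le_one (norm_nonneg _) h4 (by omega)
        _ = _ := pow_one _
  refine ⟨B, x, hB, hadm, hball ?_⟩
  rw [Metric.mem_ball, dist_comm]
  refine lt_of_le_of_lt ((dist_pi_le_iff (Real.exp_pos _).le).2 fun l => ?_) hC
  rw [dist_eq_norm]
  exact hle _ l rfl

theorem gquad_qgr (D : ℕ) (x y : ℤ) (c : ℕ) : GQuad (qgr D x y c) := by
  have h1 : qgr D x y c = (((x : ℚ) / (c : ℚ) : ℚ) : ℂ) + (((y : ℚ) / (c : ℚ) : ℚ) : ℂ) * qom D := by
    unfold qgr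
    push_cast
    ring
  rw [h1]
  exact gquad_om D _ _

/-- two roots of a quadratic polynomial in the upper half plane are equal -/
private theorem umn_root {a b c : ℝ} (ha : a ≠ 0) {z z' : ℂ} (hz : 0 < z.im) (hz' : 0 < z'.im)
    (h : (a : ℂ) * z ^ 2 + (b : ℂ) * z + (c : ℂ) = 0)
    (h' : (a : ℂ) * z' ^ 2 + (b : ℂ) * z' + (c : ℂ) = 0) : z' = z := by
  have h1 : (z' - z) * ((a : ℂ) * (z' + z) + (b : ℂ)) = 0 := by
    linear_combination h' - h
  rcases mul_eq_zero.1 h1 with h2 | h2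
  · exact sub_eq_zero.1 h2
  · exfalso
    have h3 := congrArg Complex.im h2
    simp at h3
    rcases h3 with h4 | h4
    · exact ha h4
    · linarith

/-- the integral form of a quadratic relation -/
private theorem umn_int {z : ℂ} (h : GQuad z) : ∃ a b c : ℤ, a ≠ 0 ∧
    (a : ℂ) * z ^ 2 + (b : ℂ) * z + (c : ℂ) = 0 := by
  obtain ⟨a, b, c, ha, h⟩ := h
  refine ⟨a.num * b.den * c.den, b.num * a.den * c.den, c.num * a.den * b.den, ?_, ?_⟩
  · have h1 : a.num ≠ 0 := Rat.num_ne_zero.2 ha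
    have h2 : (b.den : ℤ) ≠ 0 := by exact_mod_cast b.den_nz
    have h3 : (c.den : ℤ) ≠ 0 := by exact_mod_cast c.den_nz
    exact mul_ne_zero (mul_ne_zero h1 h2) h3
  · have ea : (a.num : ℂ) = (a : ℂ) * (a.den : ℂ) := by
      have := Rat.mul_den_eq_num a
      exact_mod_cast this.symm
    have eb : (b.num : ℂ) = (b : ℂ) * (b.den : ℂ) := by
      have := Rat.mul_den_eq_num b
      exact_mod_cast this.symm
    have ec : (c.num : ℂ) = (c : ℂ) * (c.den : ℂ) := by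
      have := Rat.mul_den_eq_num c
      exact_mod_cast this.symm
    push_cast
    rw [ea, eb, ec]
    linear_combination ((a.den : ℂ) * (b.den : ℂ) * (c.den : ℂ)) * h

/-- analyticity of the values -/
private theorem umn_ana {m n : ℕ} {w : Fin m → ℂ} (ζ : Fin n → (Fin m → ℂ) → ℂ)
    (ha : ∀ k, AnalyticAt ℂ (ζ k) w) (him : ∀ k, 0 < (ζ k w).im)
    (P : MvPolynomial (Fin m ⊕ (Fin n × Fin 4)) ℤ) :
    AnalyticAt ℂ (fun x => (MvPolynomial.aeval (ufam4 x fun k => ζ k x) P : ℂ)) w := by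
  induction P using MvPolynomial.induction_on with
  | C a =>
    simp only [MvPolynomial.aeval_C]
    exact analyticAt_const
  | add p q hp hq =>
    simp only [map_add]
    exact hp.add hq
  | mul_X p i hp =>
    simp only [map_mul, MvPolynomial.aeval_X]
    refine hp.mul ?_
    rcases i with l | ⟨k, j⟩
    · exact (ContinuousLinearMap.proj (R := ℂ) (φ := fun _ : Fin m => ℂ) l).analyticAt w
    · exact AnalyticAt.comp (g := fun u => J4 u j) (J4_analyticAt (him k) j) (ha k)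

/-- the functions -/
theorem uzeta {m M : ℕ} {w : Fin m → ℂ} {v : Fin M → ℂ} (h : UCM w v) {n : ℕ} (z : Fin n → ℂ)
    (hz : ∀ k, z k ∈ UE w v) (him : ∀ k, 0 < (z k).im) :
    ∃ ζ : Fin n → (Fin m → ℂ) → ℂ, (∀ k, AnalyticAt ℂ (ζ k) w) ∧ (∀ k, ζ k w = z k) ∧
      (∀ k, ∃ Q : Polynomial (MvPolynomial (Fin m) ℂ), Q ≠ 0 ∧
        ∀ᶠ x in 𝓝 w, (Q.map (MvPolynomial.eval x)).eval (ζ k x) = 0) ∧
      (∀ k, ¬ GQuad (z k) → ¬ ∀ᶠ x in 𝓝 w, ζ k x = ζ k w) ∧
      (∀ k, GQuad (z k) → ∀ᶠ x in 𝓝 w, ζ k x = z k) ∧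
      (∃ D : ℕ, 1 ≤ D ∧ ∀ k, GQuad (z k) →
        ∃ (c : ℕ) (x y : ℤ), 1 ≤ c ∧ 0 < y ∧ z k = qgr D x y c) ∧
      ∀ P : MvPolynomial (Fin m ⊕ (Fin n × Fin 4)) ℤ,
        MvPolynomial.aeval (ufam4 w z) P = (0 : ℂ) →
        ∀ᶠ x in 𝓝 w, (MvPolynomial.aeval (ufam4 x fun k => ζ k x) P : ℂ) = 0 := by
  choose ζ A Bp ε hε h1 h2 h3 h4 using fun k => ufn h (z k) (hz k)
  choose hh hht using fun k => uht (A k) (Bp k)
  obtain ⟨H, hH⟩ : ∃ H : ℕ, H = ∑ k, hh k := ⟨_, rfl⟩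
  have hhH : ∀ k, hh k ≤ H := fun k => by
    rw [hH]
    exact Finset.single_le_sum (f := hh) (fun _ _ => Nat.zero_le _) (Finset.mem_univ k)
  obtain ⟨ε₀, hε₀, hε₁⟩ : ∃ ε₀ : ℝ, 0 < ε₀ ∧ ∀ k, ε₀ ≤ ε k := by
    rcases isEmpty_or_nonempty (Fin n) with hn | hn
    · exact ⟨1, one_pos, fun k => hn.elim k⟩
    · obtain ⟨k0, hk0⟩ := Finite.exists_min ε
      exact ⟨ε k0, hε k0, hk0⟩
  have himw : ∀ k, 0 < (ζ k w).im := fun k => by rw [h2 k]; exact him k
  have hev : ∀ᶠ x in 𝓝 w, (∀ k, ∀ v' : Fin M → ℂ, (∀ j, ‖v j - v' j‖ ≤ ε k) → USpec w v x v' →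
      ζ k x = MvPolynomial.aeval (Sum.elim x v') (A k) /
        MvPolynomial.aeval (Sum.elim x v') (Bp k)) ∧ ∀ k, 0 < (ζ k x).im := by
    refine (Filter.eventually_all.2 h4).and (Filter.eventually_all.2 fun k => ?_)
    have h5 : ContinuousAt (fun x => (ζ k x).im) w :=
      Complex.continuous_im.continuousAt.comp (h1 k).continuousAt
    exact h5.eventually (lt_mem_nhds (himw k))
  obtain ⟨U, hUd⟩ : ∃ U : Set (Fin m → ℂ), U = {x | (∀ k, ∀ v' : Fin M → ℂ,
      (∀ j, ‖v j - v' j‖ ≤ ε k) → USpec w v x v' →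
      ζ k x = MvPolynomial.aeval (Sum.elim x v') (A k) /
        MvPolynomial.aeval (Sum.elim x v') (Bp k)) ∧ ∀ k, 0 < (ζ k x).im} := ⟨_, rfl⟩
  have hU : U ∈ 𝓝 w := by
    rw [hUd]
    exact hev
  -- the stages
  have hstage : ∀ (B : ℕ) (x : Fin m → ℂ), 2 ≤ B → UAdm w v ε₀ B x → x ∈ U →
      ∃ D, UPt B D x ∧ UGr B D H (fun k => ζ k x) := by
    rintro B x hB ⟨D, v', hx, hv', hspec, hv⟩ hxU
    rw [hUd] at hxU
    obtain ⟨hx1, hx2⟩ := hxU
    refine ⟨D, hx, fun k => ?_⟩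
    have e1 := hx1 k v' (fun j => (hv j).trans (hε₁ k)) hspec
    have e2 := hx2 k
    rw [e1] at e2
    obtain ⟨c', x', y', g1, g2, g3, g4, g5, g6⟩ := hht k B D x v' hB hx hv' e2
    have g7 : B ^ hh k ≤ B ^ H := Nat.pow_le_pow_right (by omega) (hhH k)
    have g8 : (B : ℤ) ^ hh k ≤ (B : ℤ) ^ H := by exact_mod_cast g7
    refine ⟨c', x', y', g1, g2.trans g7, g3.trans g8, g4, g5.trans g8, ?_⟩
    rw [← g6]
    exact e1
  -- the transfer
  have hP : ∀ P : MvPolynomial (Fin m ⊕ (Fin n × Fin 4)) ℤ,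
      MvPolynomial.aeval (ufam4 w z) P = (0 : ℂ) →
      ∀ᶠ x in 𝓝 w, (MvPolynomial.aeval (ufam4 x fun k => ζ k x) P : ℂ) = 0 := by
    intro P hP0
    obtain ⟨C1, hC1⟩ := ustage H P
    refine utransfer w (UAdm w v ε₀) (uadm h hε₀) _ (umn_ana ζ h1 himw P) ?_ U hU C1 ?_
    · have e : (fun k => ζ k w) = z := funext h2
      rw [e]
      exact hP0
    · intro B x hB hadm hxU
      obtain ⟨D, hx, hgr⟩ := hstage B x hB hadm hxU
      exact hC1 B D x _ hB hx hgr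
  -- the quadratic points
  have hquad : ∀ k, GQuad (z k) → ∀ᶠ x in 𝓝 w, ζ k x = z k := by
    intro k hk
    obtain ⟨a, b, c, ha, habc⟩ := umn_int hk
    have h5 := hP (MvPolynomial.C a * MvPolynomial.X (Sum.inr (k, 0)) ^ 2 +
      MvPolynomial.C b * MvPolynomial.X (Sum.inr (k, 0)) + MvPolynomial.C c) (by
        simp only [map_add, map_mul, map_pow, MvPolynomial.aeval_C, MvPolynomial.aeval_X]
        exact habc)
    filter_upwards [h5, hev] with x hx hx2
    simp only [map_add, map_mul, map_pow, MvPolynomial.aeval_C, MvPolynomial.aeval_X] at hx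
    have hx' : (((a : ℝ)) : ℂ) * (ζ k x) ^ 2 + (((b : ℝ)) : ℂ) * (ζ k x) + (((c : ℝ)) : ℂ) = 0 := by
      push_cast
      exact hx
    refine umn_root (a := (a : ℝ)) (b := (b : ℝ)) (c := (c : ℝ)) (by exact_mod_cast ha)
      (him k) (hx2.2 k) ?_ hx'
    push_cast
    exact habc
  refine ⟨ζ, h1, h2, h3, ?_, hquad, ?_, hP⟩
  · intro k hk hc
    obtain ⟨B, x, hB, hadm, hxU, hxc⟩ := uadm_near h hε₀ (Filter.inter_mem hU hc)
    obtain ⟨D, -, hgr⟩ := hstage B x hB hadm hxU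
    obtain ⟨c', x', y', -, -, -, -, -, g6⟩ := hgr k
    have g6' : ζ k x = qgr D x' y' c' := g6
    have hxc' : ζ k x = ζ k w := hxc
    rw [hxc', h2 k] at g6'
    apply hk
    rw [g6']
    exact gquad_qgr D x' y' c'
  · have hq2 : ∀ᶠ x in 𝓝 w, ∀ k, GQuad (z k) → ζ k x = z k := by
      rw [Filter.eventually_all]
      intro k
      by_cases hk : GQuad (z k)
      · filter_upwards [hquad k hk] with x hx _
        exact hx
      · exact Filter.Eventually.of_forall fun x hk' => absurd hk' hk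
    obtain ⟨B, x, hB, hadm, hxU, hxc⟩ := uadm_near h hε₀ (Filter.inter_mem hU hq2)
    obtain ⟨D, hx, hgr⟩ := hstage B x hB hadm hxU
    refine ⟨D, hx.1, fun k hk => ?_⟩
    obtain ⟨c', x', y', g1, -, -, g4, -, g6⟩ := hgr k
    refine ⟨c', x', y', g1, g4, ?_⟩
    have hxc' : ζ k x = z k := hxc k hk
    rw [← hxc']
    exact g6

private def umnI {m n : ℕ} : Fin m ⊕ (Fin n × Fin 3) → Fin m ⊕ (Fin n × Fin 4) :=
  Sum.map id (fun p => (p.1, p.2.succ))

private theorem umnI_inj {m n : ℕ} : Function.Injective (umnI (m := m) (n := n)) := by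
  rintro (l | ⟨k, i⟩) (l' | ⟨k', i'⟩) h
  · simpa [umnI] using h
  · exact absurd h (by simp [umnI])
  · exact absurd h (by simp [umnI])
  · simpa [umnI] using h

private theorem umnI_fam {m n : ℕ} (x : Fin m → ℂ) (z : Fin n → ℂ) :
    ufam4 x z ∘ umnI = ufam x z := by
  funext v
  rcases v with l | ⟨k, i⟩
  · rfl
  · rfl

theorem uextend {ι : Type} {x : ι → ℂ} (h : AlgebraicIndependent ℤ x) :
    AlgebraicIndependent ℚ x := by
  have : Algebra.IsAlgebraic ℤ ℚ :=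
    ⟨fun x => (IsFractionRing.isAlgebraic_iff ℤ ℚ ℚ).mpr (isAlgebraic_algebraMap x)⟩
  exact h.extendScalars ℚ

/-- **the main theorem** -/
theorem umain {m M : ℕ} {w : Fin m → ℂ} {v : Fin M → ℂ} (h : UCM w v) {n : ℕ} (z : Fin n → ℂ)
    (hz : ∀ k, z k ∈ UE w v) (him : ∀ k, 0 < (z k).im) (hq : ∀ k, ¬ GQuad (z k))
    (hrel : ∀ k l, k ≠ l → ¬ GRel (z k) (z l)) : AlgebraicIndependent ℚ (ufam w z) := by
  apply uextend
  rw [algebraicIndependent_iff]
  intro P hP0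
  obtain ⟨ζ, h1, h2, h3, h4, -, -, h7⟩ := uzeta h z hz him
  have h8 := h7 (MvPolynomial.rename umnI P) (by
    rw [MvPolynomial.aeval_rename, umnI_fam]
    exact hP0)
  have h9 : MvPolynomial.map (Int.castRingHom ℂ) P = 0 := by
    apply ufunC ζ w h1 (fun k => by rw [h2 k]; exact him k) h3 (fun k => h4 k (hq k))
      (fun k l hkl => by rw [h2 k, h2 l]; exact hrel k l hkl)
    filter_upwards [h8] with x hx
    rw [MvPolynomial.aeval_rename, umnI_fam] at hx
    rw [MvPolynomial.eval_map]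
    exact hx
  exact (map_eq_zero_iff _ (MvPolynomial.map_injective _ (RingHom.injective_int _))).1 h9

/-- specialisation of the variable `none` to `T` -/
private def umnP {σ : Type} (T : ℂ) (P : MvPolynomial (Option σ) ℤ) : MvPolynomial σ ℂ :=
  MvPolynomial.map (Polynomial.aeval (R := ℤ) T).toRingHom
    (MvPolynomial.optionEquivRight ℤ σ P)

private theorem umnP_ne {σ : Type} {T : ℂ} (hT : Transcendental ℤ T)
    (P : MvPolynomial (Option σ) ℤ) (h : umnP T P = 0) : P = 0 := by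
  have h1 : Function.Injective (MvPolynomial.map (σ := σ)
      (Polynomial.aeval (R := ℤ) T).toRingHom) :=
    MvPolynomial.map_injective _ (transcendental_iff_injective.1 hT)
  unfold umnP at h
  rw [map_eq_zero_iff _ h1, map_eq_zero_iff _ (AlgEquiv.injective _)] at h
  exact h

private theorem umnP_eval {σ : Type} (T : ℂ) (y : σ → ℂ) (P : MvPolynomial (Option σ) ℤ) :
    MvPolynomial.eval y (umnP T P) =
      MvPolynomial.aeval (fun o : Option σ => o.elim T y) P := by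
  unfold umnP
  induction P using MvPolynomial.induction_on with
  | C a => simp
  | add p q hp hq =>
    simp only [map_add] at hp hq ⊢
    rw [hp, hq]
  | mul_X p i hp =>
    simp only [map_mul] at hp ⊢
    rw [hp, MvPolynomial.aeval_X]
    congr 1
    rcases i with _ | i
    · rw [MvPolynomial.optionEquivRight_X_none, MvPolynomial.map_C, MvPolynomial.eval_C]
      change Polynomial.aeval T Polynomial.X = _
      rw [Polynomial.aeval_X]
      rfl
    · rw [MvPolynomial.optionEquivRight_X_some, MvPolynomial.map_X, MvPolynomial.eval_X]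
      rfl

private def umnO {m n : ℕ} (i : Fin 3) :
    Option (Fin m ⊕ (Fin n × Fin 3)) → Fin m ⊕ (Fin (n + 1) × Fin 4) :=
  fun o => o.elim (Sum.inr (0, i.succ)) (Sum.map id (fun p => (p.1.succ, p.2.succ)))

private theorem umnO_fam {m n : ℕ} (i : Fin 3) (x : Fin m → ℂ) (z : Fin (n + 1) → ℂ) :
    ufam4 x z ∘ umnO i = fun o : Option (Fin m ⊕ (Fin n × Fin 3)) =>
      o.elim (J4 (z 0) i.succ) (ufam x fun k => z k.succ) := by
  funext o
  rcases o with _ | (l | ⟨k, i⟩)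
  · rfl
  · rfl
  · rfl

/-- **the main theorem** with a period -/
theorem umainT {m M : ℕ} {w : Fin m → ℂ} {v : Fin M → ℂ} (h : UCM w v) {n : ℕ} (z : Fin n → ℂ)
    (hz : ∀ k, z k ∈ UE w v) (him : ∀ k, 0 < (z k).im) (hq : ∀ k, ¬ GQuad (z k))
    (hrel : ∀ k l, k ≠ l → ¬ GRel (z k) (z l)) (τ : ℂ) (hτ : τ ∈ UE w v) (hτi : 0 < τ.im)
    (hτq : GQuad τ) (i : Fin 3) (hi : i ≠ 0) (hT : J4 τ i.succ ≠ 0) :
    AlgebraicIndependent ℚ (fun o : Option (Fin m ⊕ (Fin n × Fin 3)) =>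
      o.elim (J4 τ i.succ) (ufam w z)) := by
  apply uextend
  rw [algebraicIndependent_iff]
  intro P hP0
  obtain ⟨z', hz'⟩ : ∃ z' : Fin (n + 1) → ℂ, z' = Fin.cons τ z := ⟨_, rfl⟩
  have hz0 : z' 0 = τ := by rw [hz']; rfl
  have hzs : ∀ k : Fin n, z' k.succ = z k := fun k => by rw [hz']; rfl
  have hzm : ∀ k, z' k ∈ UE w v := by
    intro k
    induction k using Fin.cases with
    | zero => rw [hz0]; exact hτ
    | succ k => rw [hzs]; exact hz k
  have hzi : ∀ k, 0 < (z' k).im := by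
    intro k
    induction k using Fin.cases with
    | zero => rw [hz0]; exact hτi
    | succ k => rw [hzs]; exact him k
  obtain ⟨ζ, h1, h2, h3, h4, h5, ⟨D, hD, h6⟩, h7⟩ := uzeta h z' hzm hzi
  have hTt : Transcendental ℤ (J4 τ i.succ) := by
    obtain ⟨c, x, y, hc, hy, he⟩ := h6 0 (by rw [hz0]; exact hτq)
    rw [hz0] at he
    rw [he] at hT ⊢
    exact uT0_trans hD hc hy i hi hT
  have h8 := h7 (MvPolynomial.rename (umnO i) P) (by
    rw [MvPolynomial.aeval_rename, umnO_fam, hz0]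
    have e : (fun k => z' k.succ) = z := funext hzs
    rw [e]
    exact hP0)
  apply umnP_ne hTt
  apply ufunC (fun k => ζ k.succ) w (fun k => h1 _)
    (fun k => by rw [h2 k.succ]; exact hzi _) (fun k => h3 _)
    (fun k => h4 k.succ (by rw [hzs]; exact hq k))
    (fun k l hkl => by rw [h2 k.succ, h2 l.succ, hzs, hzs]; exact hrel k l hkl)
  filter_upwards [h8, h5 0 (by rw [hz0]; exact hτq)] with x hx hx0
  rw [MvPolynomial.aeval_rename, umnO_fam, hx0, hz0] at hx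
  change MvPolynomial.eval (ufam x fun k => ζ k.succ x) _ = 0
  rw [umnP_eval]
  exact hx

end Pool.Agent.Lib.MP5e
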