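import Pool.Agent.Lib.MP_5e64e7_nt.UFld
import Pool.Agent.Lib.MP_5e64e7_nt.UHt
import Pool.Agent.Lib.MP_5e64e7_nt.ULow

set_option autoImplicit false

/-!
# U.STG : the lower bound at the stages (block E, helper16)
-/

noncomputable section

namespace Pool.Agent.Lib.MP5e

open Polynomial Topology

/-- the numbers `w, j(z_k), j'(z_k), j''(z_k)` -/
def ufam {m n : ℕ} (w : Fin m → ℂ) (z : Fin n → ℂ) : Fin m ⊕ (Fin n × Fin 3) → ℂ :=
  Sum.elim w (fun p => J4 (z p.1) p.2.succ)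

theorem qgr_pos {D : ℕ} (hD : 1 ≤ D) {x y : ℤ} {c : ℕ} (hc : 1 ≤ c) (hy : 0 < y) :
    0 < (qgr D x y c).im := by
  rw [qgr_im]
  have h1 : (0 : ℝ) < y := by exact_mod_cast hy
  have h2 : (0 : ℝ) < c := by exact_mod_cast hc
  have h3 : (0 : ℝ) < D := by exact_mod_cast hD
  positivity

/-- the numbers `w, z_k, j(z_k), j'(z_k), j''(z_k)` -/
def ufam4 {m n : ℕ} (w : Fin m → ℂ) (z : Fin n → ℂ) : Fin m ⊕ (Fin n × Fin 4) → ℂ :=
  Sum.elim w (fun p => J4 (z p.1) p.2)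

/-- the points are algebraic -/
theorem uqgr_alg {K : IntermediateField ℚ ℂ} {B D H c : ℕ} {x y : ℤ} (hB : 2 ≤ B)
    (h : qom D ∈ K) (hD : D ≤ B) (hc : 1 ≤ c) (hcB : c ≤ B ^ H) (hx : |x| ≤ (B : ℤ) ^ H)
    (hy : 0 < y) (hyB : y ≤ (B : ℤ) ^ H) : RAlg K (B ^ (H + 3)) (qgr D x y c) := by
  have hBH : 1 ≤ B ^ H := Nat.one_le_pow _ _ (by omega)
  have hcC : (c : ℂ) ≠ 0 := by
    have : c ≠ 0 := by omega
    exact_mod_cast this
  have e0 : (c : ℂ) * qgr D x y c = (x : ℂ) + (y : ℂ) * qom D := by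
    unfold qgr
    rw [mul_div_cancel₀ _ hcC]
  refine ⟨(c : ℂ), hcC, ?_, ?_⟩
  · refine (AI.nat K c).mono le_rfl ?_
    have h1 : c ≤ 2 ^ (B ^ (H + 3)) := by
      calc c ≤ B ^ H := hcB
        _ ≤ B ^ (H + 3) := Nat.pow_le_pow_right (by omega) (by omega)
        _ ≤ 2 ^ (B ^ (H + 3)) := Nat.lt_two_pow_self.le
    exact_mod_cast h1
  · rw [e0]
    refine ((AI.int K x).add ((AI.int K y).mul (uqom_AI h))).mono le_rfl ?_
    have h0 : |(x : ℝ)| ≤ ((B ^ H : ℕ) : ℝ) := by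
      rw [← Int.cast_abs]
      exact_mod_cast hx
    have h1 : |(y : ℝ)| ≤ ((B ^ H : ℕ) : ℝ) := by
      rw [abs_of_pos (by exact_mod_cast hy)]
      exact_mod_cast hyB
    have h2 : (D : ℝ) + 1 ≤ ((B ^ 2 : ℕ) : ℝ) := by
      have : D + 1 ≤ B ^ 2 := by nlinarith
      exact_mod_cast this
    calc |(x : ℝ)| + |(y : ℝ)| * ((D : ℝ) + 1)
        ≤ ((B ^ H : ℕ) : ℝ) + ((B ^ H : ℕ) : ℝ) * ((B ^ 2 : ℕ) : ℝ) :=
          add_le_add h0 (mul_le_mul h1 h2 (by positivity) (by positivity))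
      _ = ((B ^ H * (1 + B ^ 2) : ℕ) : ℝ) := by push_cast; ring
      _ ≤ ((B ^ (H + 3) : ℕ) : ℝ) := by
          have h3 : 1 + B ^ 2 ≤ B ^ 3 := by nlinarith
          have h4 : B ^ H * (1 + B ^ 2) ≤ B ^ (H + 3) := by
            rw [pow_add]
            exact Nat.mul_le_mul_left _ h3
          exact_mod_cast h4
      _ ≤ 2 ^ (B ^ (H + 3)) := by exact_mod_cast Nat.lt_two_pow_self.le

theorem ustage {m n : ℕ} (h : ℕ) (P : MvPolynomial (Fin m ⊕ (Fin n × Fin 4)) ℤ) :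
    ∃ C : ℕ, ∀ (B D : ℕ) (x : Fin m → ℂ) (z : Fin n → ℂ), 2 ≤ B → UPt B D x → UGr B D h z →
      (MvPolynomial.aeval (ufam4 x z) P = 0 ∨
        Real.exp (-((B : ℝ) ^ C)) ≤ ‖MvPolynomial.aeval (ufam4 x z) P‖) := by
  obtain ⟨C1, h1⟩ := ufld n h
  obtain ⟨C2, h2⟩ := uPt_alg (m := m)
  obtain ⟨C, hC⟩ := ulow P (C1 + C2 + 9 + (h + 3)) 2 (by norm_num)
  refine ⟨C, fun B D x z hB hx hz => ?_⟩
  have hBpos : 0 < B := by omega
  obtain ⟨L, K, lam0, k1, k2, k3, k4, k5, k6, k7⟩ := h1 B D z hB hx.1 hx.2.1 hz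
  have e1 : B ^ C1 ≤ B ^ (C1 + C2 + 9 + (h + 3)) := Nat.pow_le_pow_right hBpos (by omega)
  have e2 : B ^ C2 ≤ B ^ (C1 + C2 + 9 + (h + 3)) := Nat.pow_le_pow_right hBpos (by omega)
  have e4 : B ^ (h + 3) ≤ B ^ (C1 + C2 + 9 + (h + 3)) := Nat.pow_le_pow_right hBpos (by omega)
  have e3 : 200 * B ^ C1 + 200 ≤ B ^ (C1 + C2 + 9 + (h + 3)) := by
    have g1 : 400 ≤ B ^ 9 := by
      calc 400 ≤ 2 ^ 9 := by norm_num
        _ ≤ B ^ 9 := Nat.pow_le_pow_left hB 9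
    have g2 : 1 ≤ B ^ C1 := Nat.one_le_pow _ _ hBpos
    calc 200 * B ^ C1 + 200 ≤ B ^ C1 * 400 := by omega
      _ ≤ B ^ C1 * B ^ 9 := Nat.mul_le_mul_left _ g1
      _ = B ^ (C1 + 9) := by rw [pow_add]
      _ ≤ _ := Nat.pow_le_pow_right hBpos (by omega)
  obtain ⟨i1, i2⟩ := usig_im hx.1
  have hmono : ∀ {lam : ℕ} {σ : ℂ}, QCMD L K (B ^ C1) lam σ →
      QCMD L K (B ^ (C1 + C2 + 9 + (h + 3))) lam σ := by
    rintro lam σ ⟨g1, g2, a, b, c, ha, hb, hc, g3, g4, g5⟩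
    have hER : (2 : ℝ) ^ (B ^ C1) ≤ (2 : ℝ) ^ (B ^ (C1 + C2 + 9 + (h + 3))) :=
      pow_le_pow_right₀ (by norm_num) e1
    exact ⟨g1, g2.trans (Nat.pow_le_pow_right (by norm_num) e1), a, b, c, ha.mono le_rfl hER,
      hb.mono le_rfl hER, hc.mono le_rfl hER, g3, g4, g5⟩
  refine hC B K (ufam4 x z) L lam0 (usig D) hB k1 (k2.trans e1) ?_ ?_ (hmono k5)
    (k6.mono' le_rfl e1) ?_
  · rw [show ((2 : ℝ))⁻¹ = 1 / 2 by norm_num]
    exact i1
  · linarith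
  · rintro (l | ⟨k, i⟩)
    · refine ⟨![x l, 0, 0], ?_, ?_⟩
      · intro d
        fin_cases d
        · exact (h2 B D x K hB hx k4 l).mono' le_rfl e2
        · exact RAlg.zero K _
        · exact RAlg.zero K _
      · simp [ufam4]
    · obtain ⟨lam, g1, g2⟩ := k7 k
      obtain ⟨c', x', y', a1, a2, a3, a4, a5, a6⟩ := hz k
      have hpos : 0 < (z k).im := by
        rw [a6]
        exact qgr_pos hx.1 a1 a4
      induction i using Fin.cases with
      | zero =>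
        refine ⟨![z k, 0, 0], ?_, ?_⟩
        · intro d
          fin_cases d
          · change RAlg K _ (z k)
            rw [a6]
            exact (uqgr_alg hB k4 hx.2.1 a1 a2 a3 a4 a5).mono' le_rfl e4
          · exact RAlg.zero K _
          · exact RAlg.zero K _
        · simp [ufam4, J4]
      | succ i =>
        obtain ⟨al, a1, a2, -⟩ := uval L hpos g1 k3 g2 i
        exact ⟨al, fun d => (a1 d).mono' le_rfl e3, a2⟩

/-- the values `j'`, `j''` at a quadratic point are zero or transcendental -/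
theorem uT0_trans {D : ℕ} (hD : 1 ≤ D) {x y : ℤ} {c : ℕ} (hc : 1 ≤ c) (hy : 0 < y) (i : Fin 3)
    (hi : i ≠ 0) (h0 : J4 (qgr D x y c) i.succ ≠ 0) :
    Transcendental ℤ (J4 (qgr D x y c) i.succ) := by
  rintro ⟨N, hN0, hN1⟩
  obtain ⟨C1, h1⟩ := ufld 1 1
  obtain ⟨P, hP⟩ : ∃ P : MvPolynomial (Fin 1) ℤ, P = Polynomial.aeval (MvPolynomial.X 0) N :=
    ⟨_, rfl⟩
  have hPe : ∀ t : ℂ, MvPolynomial.aeval (fun _ : Fin 1 => t) P = Polynomial.aeval t N := by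
    intro t
    rw [hP, ← Polynomial.aeval_algHom_apply, MvPolynomial.aeval_X]
  obtain ⟨C, hC⟩ := ulow_slot P (C1 + 9) 2 (by norm_num)
  obtain ⟨B, hBd⟩ : ∃ B : ℕ, B = D + c + x.natAbs + y.natAbs + 2 := ⟨_, rfl⟩
  have hB : 2 ≤ B := by omega
  have hBpos : 0 < B := by omega
  obtain ⟨L, K, lam0, k1, k2, k3, k4, k5, k6, k7⟩ := h1 B D (fun _ => qgr D x y c) hB hD
    (by omega) (fun _ => ⟨c, x, y, hc, by rw [pow_one]; omega,
      by rw [pow_one, Int.abs_eq_natAbs]; omega, hy, by rw [pow_one]; omega, rfl⟩)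
  have e1 : B ^ C1 ≤ B ^ (C1 + 9) := Nat.pow_le_pow_right hBpos (by omega)
  have e3 : 200 * B ^ C1 + 200 ≤ B ^ (C1 + 9) := by
    have g1 : 400 ≤ B ^ 9 := by
      calc 400 ≤ 2 ^ 9 := by norm_num
        _ ≤ B ^ 9 := Nat.pow_le_pow_left hB 9
    have g2 : 1 ≤ B ^ C1 := Nat.one_le_pow _ _ hBpos
    calc 200 * B ^ C1 + 200 ≤ B ^ C1 * 400 := by omega
      _ ≤ B ^ C1 * B ^ 9 := Nat.mul_le_mul_left _ g1
      _ = B ^ (C1 + 9) := by rw [pow_add]
  obtain ⟨i1, i2⟩ := usig_im hD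
  have hmono : ∀ {lam : ℕ} {σ : ℂ}, QCMD L K (B ^ C1) lam σ →
      QCMD L K (B ^ (C1 + 9)) lam σ := by
    rintro lam σ ⟨g1, g2, a, b, c, ha, hb, hc, g3, g4, g5⟩
    have hER : (2 : ℝ) ^ (B ^ C1) ≤ (2 : ℝ) ^ (B ^ (C1 + 9)) :=
      pow_le_pow_right₀ (by norm_num) e1
    exact ⟨g1, g2.trans (Nat.pow_le_pow_right (by norm_num) e1), a, b, c, ha.mono le_rfl hER,
      hb.mono le_rfl hER, hc.mono le_rfl hER, g3, g4, g5⟩
  obtain ⟨lam, g1, g2⟩ := k7 0
  obtain ⟨al, a1, a2, a3⟩ := uval L (qgr_pos hD hc hy) g1 k3 g2 i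
  have a0 := a3 hi
  have key := hC B K (fun _ => al) L lam0 (usig D) hB k1 (k2.trans e1)
    (by rw [show ((2 : ℝ))⁻¹ = 1 / 2 by norm_num]; exact i1) (by linarith) (hmono k5)
    (k6.mono' le_rfl e1) (fun _ d => (a1 d).mono' le_rfl e3)
  rw [← a2, hPe, hN1, norm_zero] at key
  rcases key with key | key
  · -- the polynomial vanishes identically in the slot
    have h2 : ∀ t : ℂ, Polynomial.aeval (al 1 * t + al 2 * t ^ 2) N = 0 := by
      intro t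
      have h3 := key t
      rw [hPe, a0, zero_add] at h3
      exact h3
    obtain ⟨Q, hQ⟩ : ∃ Q : Polynomial ℂ, Q = Polynomial.C (al 1) * Polynomial.X +
      Polynomial.C (al 2) * Polynomial.X ^ 2 := ⟨_, rfl⟩
    have h4 : (N.map (Int.castRingHom ℂ)).comp Q = 0 := by
      apply Polynomial.funext
      intro t
      rw [Polynomial.eval_comp, Polynomial.eval_zero, hQ]
      have h5 := h2 t
      rw [Polynomial.aeval_def, ← Polynomial.eval_map] at h5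
      simpa using h5
    have hN2 : N.map (Int.castRingHom ℂ) ≠ 0 := by
      rw [Ne, Polynomial.map_eq_zero_iff (RingHom.injective_int _)]
      exact hN0
    rcases Polynomial.comp_eq_zero_iff.1 h4 with h5 | h5
    · exact hN2 h5
    · obtain ⟨-, h6⟩ := h5
      have h7 : Q.eval 0 = 0 := by rw [hQ]; simp
      rw [h6, Polynomial.eval_C] at h7
      rw [h7, map_zero] at h6
      have h8 : al 1 = 0 := by
        have := congrArg (fun q => Polynomial.coeff q 1) h6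
        rw [hQ] at this
        simpa [Polynomial.coeff_X] using this
      have h9 : al 2 = 0 := by
        have := congrArg (fun q => Polynomial.coeff q 2) h6
        rw [hQ] at this
        simpa [Polynomial.coeff_X] using this
      apply h0
      rw [a2, a0, h8, h9]
      ring
  · exact absurd key (not_le.2 (Real.exp_pos _))

end Pool.Agent.Lib.MP5e
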