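import Pool.Agent.Lib.MP_5e64e7_nt.UDefs
import Pool.Agent.Lib.MP_5e64e7_nt.QHid

set_option autoImplicit false

/-!
# U.TRA : transfer principle for hierarchical approximations (block E; copy of the proof of `rtransfer` in `RTra.lean`
from `qhid` on, without `rlow`)
-/

noncomputable section

namespace Pool.Agent.Lib.MP5e

open Polynomial Topology

private theorem utra_small (ε : ℝ) (hε : 0 < ε) :
    ∃ m : ℕ, Real.exp (-((2 : ℝ) ^ m)) < ε := by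
  have h1 : Filter.Tendsto (fun m : ℕ => Real.exp (-((2 : ℝ) ^ m))) Filter.atTop (𝓝 0) := by
    have h2 : Filter.Tendsto (fun m : ℕ => (2 : ℝ) ^ m) Filter.atTop Filter.atTop :=
      tendsto_pow_atTop_atTop_of_one_lt (by norm_num)
    exact Real.tendsto_exp_neg_atTop_nhds_zero.comp h2
  exact (h1.eventually (gt_mem_nhds hε)).exists

/-- the growth inequality -/
private theorem utra_pow {B D m : ℕ} (hB : 2 ≤ B) :
    (B : ℝ) ^ D + 2 ^ m ≤ (B : ℝ) ^ (D + 1 + m) := by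
  have hB2 : (2 : ℝ) ≤ B := by exact_mod_cast hB
  have h1 : (1 : ℝ) ≤ (B : ℝ) ^ D := one_le_pow₀ (by linarith)
  have h2 : (1 : ℝ) ≤ 2 ^ m := one_le_pow₀ (by norm_num)
  have h3 : (2 : ℝ) ^ m ≤ (B : ℝ) ^ m := pow_le_pow_left₀ (by norm_num) hB2 m
  have h4 : (B : ℝ) ^ (D + 1 + m) = (B : ℝ) ^ D * B * (B : ℝ) ^ m := by
    rw [pow_add, pow_add, pow_one]
  have h5 : (B : ℝ) ^ D * 2 * 2 ^ m ≤ (B : ℝ) ^ D * B * (B : ℝ) ^ m := by
    gcongr
  rw [h4]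
  refine le_trans ?_ h5
  nlinarith [mul_le_mul_of_nonneg_left h2 (by linarith : (0 : ℝ) ≤ (B : ℝ) ^ D),
    mul_le_mul_of_nonneg_right h1 (by linarith : (0 : ℝ) ≤ (2 : ℝ) ^ m)]

theorem utransfer {m : ℕ} (w : Fin m → ℂ) (Adm : ℕ → (Fin m → ℂ) → Prop)
    (hadm : ∀ C : ℕ, ∃ (B : ℕ) (x : Fin m → ℂ), 2 ≤ B ∧ Adm B x ∧ (∀ l, w l ≠ x l) ∧
      (∀ l : Fin m, (l : ℕ) = 0 → ‖w l - x l‖ ≤ Real.exp (-((B : ℝ) ^ C))) ∧
      (∀ l l' : Fin m, (l' : ℕ) = (l : ℕ) + 1 → ‖w l' - x l'‖ ≤ ‖w l - x l‖ ^ C))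
    (F : (Fin m → ℂ) → ℂ) (hF : AnalyticAt ℂ F w) (hFw : F w = 0)
    (U : Set (Fin m → ℂ)) (hU : U ∈ 𝓝 w) (C1 : ℕ)
    (hlow : ∀ (B : ℕ) (x : Fin m → ℂ), 2 ≤ B → Adm B x → x ∈ U →
      F x = 0 ∨ Real.exp (-((B : ℝ) ^ C1)) ≤ ‖F x‖) :
    ∀ᶠ x in 𝓝 w, F x = 0 := by
  obtain ⟨c₁, hc₁, hlip⟩ : ∃ c₁ : ℝ, 0 < c₁ ∧ ∀ᶠ u in 𝓝 w, ‖F u‖ ≤ c₁ * ‖u - w‖ := by
    have h1 := hF.differentiableAt.isBigO_sub
    obtain ⟨c, hc, h2⟩ := h1.exists_pos
    refine ⟨c, hc, ?_⟩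
    filter_upwards [h2.bound] with u hu
    rw [hFw, sub_zero] at hu
    exact hu
  apply qhid m F w hF
  intro C ε hε
  obtain ⟨δ, hδ, hball⟩ := Metric.mem_nhds_iff.1 (Filter.inter_mem hlip hU)
  obtain ⟨m0, hm0⟩ := utra_small (min (min ε δ) (1 / c₁)) (lt_min (lt_min hε hδ) (by positivity))
  obtain ⟨B, r, hB2, hAdm, hne, hfirst, hchain⟩ := hadm (C1 + 1 + (m0 + C))
  obtain ⟨N, hN⟩ : ∃ N : ℕ, N = C1 + 1 + (m0 + C) := ⟨_, rfl⟩
  rw [← hN] at hfirst hchain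
  have hexp : Real.exp (-((B : ℝ) ^ N)) ≤
      Real.exp (-((B : ℝ) ^ C1)) * Real.exp (-((2 : ℝ) ^ m0)) := by
    rw [← Real.exp_add]
    apply Real.exp_le_exp.mpr
    have h1 := utra_pow (D := C1) (m := m0 + C) hB2
    rw [← hN] at h1
    have h2 : (2 : ℝ) ^ m0 ≤ 2 ^ (m0 + C) := pow_le_pow_right₀ (by norm_num) (by omega)
    linarith
  have hexp1 : Real.exp (-((B : ℝ) ^ C1)) ≤ 1 := by
    rw [Real.exp_le_one_iff]
    have : (0 : ℝ) ≤ (B : ℝ) ^ C1 := by positivity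
    linarith
  have hexp2 : Real.exp (-((B : ℝ) ^ N)) ≤ 1 := by
    rw [Real.exp_le_one_iff]
    have : (0 : ℝ) ≤ (B : ℝ) ^ N := by positivity
    linarith
  have hexp3 : Real.exp (-((B : ℝ) ^ N)) < min ε δ := by
    calc Real.exp (-((B : ℝ) ^ N))
        ≤ Real.exp (-((B : ℝ) ^ C1)) * Real.exp (-((2 : ℝ) ^ m0)) := hexp
      _ ≤ 1 * Real.exp (-((2 : ℝ) ^ m0)) :=
          mul_le_mul_of_nonneg_right hexp1 (Real.exp_pos _).le
      _ < min ε δ := by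
          rw [one_mul]
          exact hm0.trans_le (min_le_left _ _)
  -- all distances are small
  have hall : ∀ (j : ℕ) (hj : j < m), ‖w ⟨j, hj⟩ - r ⟨j, hj⟩‖ ≤ Real.exp (-((B : ℝ) ^ N)) := by
    intro j
    induction j with
    | zero =>
      intro hj
      exact hfirst ⟨0, hj⟩ rfl
    | succ j ih =>
      intro hj
      have h1 := ih (by omega)
      have h2 := hchain ⟨j, by omega⟩ ⟨j + 1, hj⟩ rfl
      refine h2.trans (le_trans ?_ h1)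
      have hN1 : N ≠ 0 := by omega
      exact pow_le_of_le_one (norm_nonneg _) (h1.trans hexp2) hN1
  have hall' : ∀ l, ‖w l - r l‖ ≤ Real.exp (-((B : ℝ) ^ N)) :=
    fun l => hall l l.2
  have hnorm : ∀ l, ‖r l - w l‖ = ‖w l - r l‖ := fun l => norm_sub_rev _ _
  have hrw : ‖r - w‖ ≤ Real.exp (-((B : ℝ) ^ N)) := by
    rw [pi_norm_le_iff_of_nonneg (Real.exp_pos _).le]
    intro l
    rw [Pi.sub_apply, hnorm l]
    exact hall' l
  have hrball : r ∈ Metric.ball w δ := by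
    rw [Metric.mem_ball, dist_eq_norm]
    exact lt_of_le_of_lt hrw (hexp3.trans_le (min_le_right _ _))
  obtain ⟨hrlip, hrU⟩ := hball hrball
  have hrlip' : ‖F r‖ ≤ c₁ * ‖r - w‖ := hrlip
  refine ⟨r, ?_, ?_, ?_, ?_⟩
  · intro l h
    exact hne l h.symm
  · intro l
    rw [hnorm l]
    exact lt_of_le_of_lt (hall' l) (hexp3.trans_le (min_le_left _ _))
  · intro l l' hll
    rw [hnorm l, hnorm l']
    refine (hchain l l' hll).trans ?_
    exact pow_le_pow_of_le_one (norm_nonneg _) ((hall' l).trans hexp2) (by omega)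
  · rcases hlow B r hB2 hAdm hrU with key | key
    · exact key
    · exfalso
      have h8 : ‖F r‖ < Real.exp (-((B : ℝ) ^ C1)) := by
        calc ‖F r‖ ≤ c₁ * ‖r - w‖ := hrlip'
          _ ≤ c₁ * (Real.exp (-((B : ℝ) ^ C1)) * Real.exp (-((2 : ℝ) ^ m0))) :=
              mul_le_mul_of_nonneg_left (hrw.trans hexp) hc₁.le
          _ = Real.exp (-((B : ℝ) ^ C1)) * (c₁ * Real.exp (-((2 : ℝ) ^ m0))) := by ring
          _ < Real.exp (-((B : ℝ) ^ C1)) * 1 := by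
              apply mul_lt_mul_of_pos_left _ (Real.exp_pos _)
              have h9 := hm0.trans_le (min_le_right _ _)
              rw [lt_div_iff₀ hc₁] at h9
              linarith
          _ = _ := mul_one _
      exact absurd key (not_le.2 h8)

end Pool.Agent.Lib.MP5e
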