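import Pool.Agent.Lib.MP_5e64e7_nt.UDefs
import Pool.Agent.Lib.MP_5e64e7_nt.QVal

set_option autoImplicit false

/-!
# U.VAL : all CM values of one field are polynomials of degree at most `2` in `u = π ℓ` (block E)
-/

noncomputable section

namespace Pool.Agent.Lib.MP5e

open Polynomial Topology

theorem RAlg.mono' {K K' : IntermediateField ℚ ℂ} (hK : K ≤ K') {N N' : ℕ} (hN : N ≤ N') {v : ℂ}
    (h : RAlg K N v) : RAlg K' N' v := by
  obtain ⟨dl, h0, h1, h2⟩ := h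
  have hNR : (2 : ℝ) ^ N ≤ (2 : ℝ) ^ N' := pow_le_pow_right₀ (by norm_num) hN
  exact ⟨dl, h0, h1.mono hK hNR, h2.mono hK hNR⟩

theorem RAlg.mul {K : IntermediateField ℚ ℂ} {N N' : ℕ} {v v' : ℂ}
    (h : RAlg K N v) (h' : RAlg K N' v') : RAlg K (N + N') (v * v') := by
  obtain ⟨dl, h0, h1, h2⟩ := h
  obtain ⟨dl', h0', h1', h2'⟩ := h'
  refine ⟨dl * dl', mul_ne_zero h0 h0', ?_, ?_⟩
  · rw [pow_add]
    exact h1.mul h1'
  · rw [pow_add]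
    have := h2.mul h2'
    rwa [show dl * v * (dl' * v') = dl * dl' * (v * v') by ring] at this

theorem RAlg.inv {K : IntermediateField ℚ ℂ} {N : ℕ} {v : ℂ} (hv : v ≠ 0)
    (h : RAlg K N v) : RAlg K N v⁻¹ := by
  obtain ⟨dl, h0, h1, h2⟩ := h
  refine ⟨dl * v, mul_ne_zero h0 hv, h2, ?_⟩
  rwa [mul_assoc, mul_inv_cancel₀ hv, mul_one]

theorem RAlg.zero (K : IntermediateField ℚ ℂ) (N : ℕ) : RAlg K N 0 := by
  have h1 : (1 : ℝ) ≤ 2 ^ N := one_le_pow₀ (by norm_num)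
  refine ⟨1, one_ne_zero, ?_, ?_⟩
  · have := AI.nat K 1
    rw [Nat.cast_one, Nat.cast_one] at this
    exact this.mono le_rfl h1
  · have := AI.nat K 0
    rw [Nat.cast_zero, Nat.cast_zero] at this
    rw [mul_zero]
    exact this.mono le_rfl (by linarith)

section arith

variable {K : IntermediateField ℚ ℂ} {B : ℕ}

private lemma uvl_mul {n m : ℕ} {x y : ℂ} (h : AI K ((B : ℝ) ^ n) x) (h' : AI K ((B : ℝ) ^ m) y) :
    AI K ((B : ℝ) ^ (n + m)) (x * y) := by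
  rw [pow_add]
  exact h.mul h'

private lemma uvl_sum_le (hB : 2 ≤ B) (n m : ℕ) :
    (B : ℝ) ^ n + (B : ℝ) ^ m ≤ (B : ℝ) ^ (n + m + 1) := by
  have hB' : (2 : ℝ) ≤ B := by exact_mod_cast hB
  have h1 : (1 : ℝ) ≤ (B : ℝ) ^ n := one_le_pow₀ (by linarith)
  have h2 : (1 : ℝ) ≤ (B : ℝ) ^ m := one_le_pow₀ (by linarith)
  have h3 : (B : ℝ) ^ n + (B : ℝ) ^ m ≤ 2 * ((B : ℝ) ^ n * (B : ℝ) ^ m) := by nlinarith
  calc (B : ℝ) ^ n + (B : ℝ) ^ m ≤ 2 * ((B : ℝ) ^ n * (B : ℝ) ^ m) := h3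
    _ ≤ B * ((B : ℝ) ^ n * (B : ℝ) ^ m) := mul_le_mul_of_nonneg_right hB' (by positivity)
    _ = (B : ℝ) ^ (n + m + 1) := by ring

private lemma uvl_add (hB : 2 ≤ B) {n m : ℕ} {x y : ℂ} (h : AI K ((B : ℝ) ^ n) x)
    (h' : AI K ((B : ℝ) ^ m) y) : AI K ((B : ℝ) ^ (n + m + 1)) (x + y) :=
  (h.add h').mono le_rfl (uvl_sum_le hB n m)

private lemma uvl_sub (hB : 2 ≤ B) {n m : ℕ} {x y : ℂ} (h : AI K ((B : ℝ) ^ n) x)
    (h' : AI K ((B : ℝ) ^ m) y) : AI K ((B : ℝ) ^ (n + m + 1)) (x - y) :=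
  (h.sub h').mono le_rfl (uvl_sum_le hB n m)

private lemma uvl_pow {n : ℕ} (k : ℕ) {x : ℂ} (h : AI K ((B : ℝ) ^ n) x) :
    AI K ((B : ℝ) ^ (n * k)) (x ^ k) := by
  rw [pow_mul]
  exact h.pow k

private lemma uvl_const (hB : 2 ≤ B) (c n : ℕ) (h : c ≤ 2 ^ n) : AI K ((B : ℝ) ^ n) (c : ℂ) := by
  refine (AI.nat K c).mono le_rfl ?_
  have h1 : (c : ℝ) ≤ 2 ^ n := by exact_mod_cast h
  refine h1.trans ?_
  apply pow_le_pow_left₀ (by norm_num)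
  exact_mod_cast hB

private lemma uvl_mono (hB : 2 ≤ B) {n m : ℕ} {x : ℂ} (h : AI K ((B : ℝ) ^ n) x) (hnm : n ≤ m) :
    AI K ((B : ℝ) ^ m) x := by
  refine h.mono le_rfl ?_
  apply pow_le_pow_right₀ _ hnm
  have hB' : (2 : ℝ) ≤ B := by exact_mod_cast hB
  linarith

end arith

/-- the values at `σ` in terms of `a, b, c` -/
private lemma uvl_formulas {σ ell a b c T Y : ℂ} (hσ : 0 < σ.im) (hT : T ≠ 0) (hs : ell ≠ 0)
    (hYσ : (σ.im : ℂ) = Y)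
    (h2 : T * E2f σ = ell * a + T * (3 / ((Real.pi : ℂ) * (σ.im : ℂ))))
    (h4 : T ^ 2 * E4f σ = ell ^ 2 * b) (h6 : T ^ 3 * E6f σ = ell ^ 3 * c) :
    b ^ 3 - c ^ 2 ≠ 0 ∧ jf σ * (b ^ 3 - c ^ 2) = 1728 * b ^ 3 ∧
    deriv jf σ * ((b ^ 3 - c ^ 2) * T) =
      -3456 * Complex.I * ((Real.pi : ℂ) * ell) * (b ^ 2 * c) ∧
    deriv (deriv jf) σ * ((b ^ 3 - c ^ 2) * T ^ 2 * Y) =
      ((Real.pi : ℂ) * ell) ^ 2 *
        (1152 * (a * (b ^ 2 * c)) - 4608 * (b * c ^ 2) - 3456 * b ^ 4) * Y +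
        3456 * ((Real.pi : ℂ) * ell) * (b ^ 2 * c) * T := by
  have hY0 : Y ≠ 0 := by
    rw [← hYσ]
    exact_mod_cast hσ.ne'
  rw [hYσ] at h2
  have hπ : (Real.pi : ℂ) ≠ 0 := by exact_mod_cast Real.pi_ne_zero
  have hD := disc_ne hσ
  have e4 : E4f σ = ell ^ 2 * b / T ^ 2 := by
    rw [eq_div_iff (pow_ne_zero _ hT), ← h4]; ring
  have e6 : E6f σ = ell ^ 3 * c / T ^ 3 := by
    rw [eq_div_iff (pow_ne_zero _ hT), ← h6]; ring
  have e2 : E2f σ = ell * a / T + 3 / ((Real.pi : ℂ) * Y) := by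
    have : T * E2f σ = T * (ell * a / T + 3 / ((Real.pi : ℂ) * Y)) := by
      rw [h2]
      field_simp
    exact mul_left_cancel₀ hT this
  have hDe : E4f σ ^ 3 - E6f σ ^ 2 = ell ^ 6 * (b ^ 3 - c ^ 2) / T ^ 6 := by
    rw [e4, e6]
    field_simp
  have hδ : b ^ 3 - c ^ 2 ≠ 0 := by
    intro h
    apply hD
    rw [hDe, h]
    simp
  refine ⟨hδ, ?_, ?_, ?_⟩
  · unfold jf
    rw [hDe, e4]
    field_simp
  · rw [djf hσ, hDe, e4, e6]
    field_simp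
    ring
  · rw [ddjf hσ, hDe, e4, e6, e2]
    field_simp
    ring

/-- packaged form of the data -/
private lemma uvl_data (L : PeriodPair) {K : IntermediateField ℚ ℂ} {E lam : ℕ} {σ : ℂ}
    (hσ : 0 < σ.im) (h : QCMD L K E lam σ) :
    ∃ a b c T : ℂ, T ≠ 0 ∧ AI K (((2 ^ (E + 1) : ℕ) : ℝ) ^ 1) a ∧
      AI K (((2 ^ (E + 1) : ℕ) : ℝ) ^ 1) b ∧ AI K (((2 ^ (E + 1) : ℕ) : ℝ) ^ 1) c ∧
      AI K (((2 ^ (E + 1) : ℕ) : ℝ) ^ 2) T ∧
      b ^ 3 - c ^ 2 ≠ 0 ∧ jf σ * (b ^ 3 - c ^ 2) = 1728 * b ^ 3 ∧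
      deriv jf σ * ((b ^ 3 - c ^ 2) * T) =
        -3456 * Complex.I * ((Real.pi : ℂ) * qell L) * (b ^ 2 * c) ∧
      deriv (deriv jf) σ * ((b ^ 3 - c ^ 2) * T ^ 2 * (σ.im : ℂ)) =
        ((Real.pi : ℂ) * qell L) ^ 2 *
          (1152 * (a * (b ^ 2 * c)) - 4608 * (b * c ^ 2) - 3456 * b ^ 4) * (σ.im : ℂ) +
          3456 * ((Real.pi : ℂ) * qell L) * (b ^ 2 * c) * T := by
  obtain ⟨hlam1, hlam2, a, b, c, ha, hb, hc, h2, h4, h6⟩ := h
  have hell := qell_ne L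
  have hlC : (lam : ℂ) ≠ 0 := by
    have : lam ≠ 0 := by omega
    exact_mod_cast this
  have hT0 : (lam : ℂ) ^ 2 ≠ 0 := pow_ne_zero _ hlC
  obtain ⟨hδ, hj, hdj, hddj⟩ := uvl_formulas (T := (lam : ℂ) ^ 2) hσ hT0 hell rfl h2
    (by rw [← h4]; ring) (by rw [← h6]; ring)
  have hED : (2 : ℝ) ^ E ≤ ((2 ^ (E + 1) : ℕ) : ℝ) ^ 1 := by
    rw [pow_one]
    push_cast
    exact pow_le_pow_right₀ (by norm_num) (by omega)
  have hlA : AI K (((2 ^ (E + 1) : ℕ) : ℝ) ^ 1) (lam : ℂ) := by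
    refine (AI.nat K lam).mono le_rfl (le_trans ?_ hED)
    exact_mod_cast hlam2
  exact ⟨a, b, c, (lam : ℂ) ^ 2, hT0, ha.mono le_rfl hED, hb.mono le_rfl hED,
    hc.mono le_rfl hED, uvl_pow 2 hlA, hδ, hj, hdj, hddj⟩

private lemma uvl_fin (E : ℕ) : ((2 ^ (E + 1) : ℕ) : ℝ) ^ 100 = (2 : ℝ) ^ (100 * E + 100) := by
  push_cast
  rw [← pow_mul]
  ring_nf

private lemma uvl_two (E : ℕ) : 2 ≤ 2 ^ (E + 1) := by
  calc 2 = 2 ^ 1 := rfl
    _ ≤ 2 ^ (E + 1) := Nat.pow_le_pow_right (by norm_num) (by omega)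

private lemma uvl_zero {K : IntermediateField ℚ ℂ} (E : ℕ) {v : ℂ} (hv : v = 0) :
    RAlg K (100 * E + 100) v := by
  refine ⟨1, one_ne_zero, ?_, ?_⟩
  · rw [← uvl_fin]
    have h := uvl_mono (uvl_two E) (uvl_const (K := K) (uvl_two E) 1 0 (by norm_num))
      (m := 100) (by norm_num)
    exact_mod_cast h
  · rw [← uvl_fin, hv, mul_zero]
    have h := uvl_mono (uvl_two E) (uvl_const (K := K) (uvl_two E) 0 0 (by norm_num))
      (m := 100) (by norm_num)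
    exact_mod_cast h


/-- the values of `j, j', j''` -/
theorem uval (L : PeriodPair) {K : IntermediateField ℚ ℂ} {E lam : ℕ} {σ : ℂ}
    (hσ : 0 < σ.im) (h : QCMD L K E lam σ) (hI : Complex.I ∈ K) (hy : RAlg K E (σ.im : ℂ))
    (i : Fin 3) : ∃ al : Fin 3 → ℂ, (∀ d, RAlg K (200 * E + 200) (al d)) ∧
      J4 σ i.succ = al 0 + al 1 * ((Real.pi : ℂ) * qell L) +
        al 2 * ((Real.pi : ℂ) * qell L) ^ 2 ∧ (i ≠ 0 → al 0 = 0) := by
  obtain ⟨a, b, c, T, hT, ha, hb, hc, hTA, hδ, hj, hdj, hddj⟩ := uvl_data L hσ h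
  have hD2 := uvl_two E
  have hY : (σ.im : ℂ) ≠ 0 := by exact_mod_cast hσ.ne'
  have hδT : (b ^ 3 - c ^ 2) * T ≠ 0 := mul_ne_zero hδ hT
  have hδT2 : (b ^ 3 - c ^ 2) * T ^ 2 ≠ 0 := mul_ne_zero hδ (pow_ne_zero _ hT)
  have c1728 : AI K (((2 ^ (E + 1) : ℕ) : ℝ) ^ 11) (1728 : ℂ) := by
    exact_mod_cast uvl_const (K := K) hD2 1728 11 (by norm_num)
  have c3456 : AI K (((2 ^ (E + 1) : ℕ) : ℝ) ^ 12) (3456 : ℂ) := by
    exact_mod_cast uvl_const (K := K) hD2 3456 12 (by norm_num)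
  have c4608 : AI K (((2 ^ (E + 1) : ℕ) : ℝ) ^ 13) (4608 : ℂ) := by
    exact_mod_cast uvl_const (K := K) hD2 4608 13 (by norm_num)
  have c1152 : AI K (((2 ^ (E + 1) : ℕ) : ℝ) ^ 11) (1152 : ℂ) := by
    exact_mod_cast uvl_const (K := K) hD2 1152 11 (by norm_num)
  have cI : AI K (((2 ^ (E + 1) : ℕ) : ℝ) ^ 0) Complex.I := by
    rw [pow_zero]
    exact AI.I hI
  fin_cases i
  · refine ⟨![jf σ, 0, 0], ?_, ?_, fun h => absurd rfl h⟩
    · intro d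
      fin_cases d
      · change RAlg K (200 * E + 200) (jf σ)
        refine RAlg.mono' le_rfl (N := 100 * E + 100) (by omega) ⟨b ^ 3 - c ^ 2, hδ, ?_, ?_⟩
        · rw [← uvl_fin]
          exact uvl_mono hD2 (uvl_sub hD2 (uvl_pow 3 hb) (uvl_pow 2 hc)) (m := 100) (by norm_num)
        · rw [← uvl_fin, mul_comm, hj]
          exact uvl_mono hD2 (uvl_mul c1728 (uvl_pow 3 hb)) (m := 100) (by norm_num)
      · exact RAlg.zero K _
      · exact RAlg.zero K _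
    · simp [J4]
  · refine ⟨![0, -3456 * Complex.I * (b ^ 2 * c) / ((b ^ 3 - c ^ 2) * T), 0], ?_, ?_,
      fun _ => rfl⟩
    · intro d
      fin_cases d
      · exact RAlg.zero K _
      · change RAlg K (200 * E + 200) (-3456 * Complex.I * (b ^ 2 * c) / ((b ^ 3 - c ^ 2) * T))
        refine RAlg.mono' le_rfl (N := 100 * E + 100) (by omega)
          ⟨(b ^ 3 - c ^ 2) * T, hδT, ?_, ?_⟩
        · rw [← uvl_fin]
          exact uvl_mono hD2 (uvl_mul (uvl_sub hD2 (uvl_pow 3 hb) (uvl_pow 2 hc)) hTA) (m := 100)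
            (by norm_num)
        · rw [← uvl_fin, mul_div_cancel₀ _ hδT]
          have h1 := uvl_mono hD2 (uvl_mul (uvl_mul c3456 cI) (uvl_mul (uvl_pow 2 hb) hc))
            (m := 100) (by norm_num)
          have h2 := h1.neg
          rwa [show -(3456 * Complex.I * (b ^ 2 * c)) = -3456 * Complex.I * (b ^ 2 * c) by ring]
            at h2
      · exact RAlg.zero K _
    · have h1 : deriv jf σ = -3456 * Complex.I * ((Real.pi : ℂ) * qell L) * (b ^ 2 * c) /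
          ((b ^ 3 - c ^ 2) * T) := by
        rw [eq_div_iff hδT, hdj]
      change deriv jf σ = 0 + (-3456 * Complex.I * (b ^ 2 * c) / ((b ^ 3 - c ^ 2) * T)) *
        ((Real.pi : ℂ) * qell L) + 0 * ((Real.pi : ℂ) * qell L) ^ 2
      rw [h1]
      ring
  · refine ⟨![0, 3456 * (b ^ 2 * c) / ((b ^ 3 - c ^ 2) * T) * (σ.im : ℂ)⁻¹,
      (1152 * (a * (b ^ 2 * c)) - 4608 * (b * c ^ 2) - 3456 * b ^ 4) /
        ((b ^ 3 - c ^ 2) * T ^ 2)], ?_, ?_, fun _ => rfl⟩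
    · intro d
      fin_cases d
      · exact RAlg.zero K _
      · change RAlg K (200 * E + 200)
          (3456 * (b ^ 2 * c) / ((b ^ 3 - c ^ 2) * T) * (σ.im : ℂ)⁻¹)
        refine RAlg.mono' le_rfl (N := (100 * E + 100) + E) (by omega)
          (RAlg.mul ⟨(b ^ 3 - c ^ 2) * T, hδT, ?_, ?_⟩ (hy.inv hY))
        · rw [← uvl_fin]
          exact uvl_mono hD2 (uvl_mul (uvl_sub hD2 (uvl_pow 3 hb) (uvl_pow 2 hc)) hTA) (m := 100)
            (by norm_num)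
        · rw [← uvl_fin, mul_div_cancel₀ _ hδT]
          exact uvl_mono hD2 (uvl_mul c3456 (uvl_mul (uvl_pow 2 hb) hc)) (m := 100) (by norm_num)
      · change RAlg K (200 * E + 200)
          ((1152 * (a * (b ^ 2 * c)) - 4608 * (b * c ^ 2) - 3456 * b ^ 4) /
            ((b ^ 3 - c ^ 2) * T ^ 2))
        refine RAlg.mono' le_rfl (N := 100 * E + 100) (by omega)
          ⟨(b ^ 3 - c ^ 2) * T ^ 2, hδT2, ?_, ?_⟩
        · rw [← uvl_fin]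
          exact uvl_mono hD2 (uvl_mul (uvl_sub hD2 (uvl_pow 3 hb) (uvl_pow 2 hc))
            (uvl_pow 2 hTA)) (m := 100) (by norm_num)
        · rw [← uvl_fin, mul_div_cancel₀ _ hδT2]
          exact uvl_mono hD2 (uvl_sub hD2 (uvl_sub hD2
            (uvl_mul c1152 (uvl_mul ha (uvl_mul (uvl_pow 2 hb) hc)))
            (uvl_mul c4608 (uvl_mul hb (uvl_pow 2 hc))))
            (uvl_mul c3456 (uvl_pow 4 hb))) (m := 100) (by norm_num)
    · have h1 : deriv (deriv jf) σ = (((Real.pi : ℂ) * qell L) ^ 2 *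
          (1152 * (a * (b ^ 2 * c)) - 4608 * (b * c ^ 2) - 3456 * b ^ 4) * (σ.im : ℂ) +
          3456 * ((Real.pi : ℂ) * qell L) * (b ^ 2 * c) * T) /
            ((b ^ 3 - c ^ 2) * T ^ 2 * (σ.im : ℂ)) := by
        rw [eq_div_iff (mul_ne_zero hδT2 hY), hddj]
      change deriv (deriv jf) σ = 0 + (3456 * (b ^ 2 * c) / ((b ^ 3 - c ^ 2) * T) *
        (σ.im : ℂ)⁻¹) * ((Real.pi : ℂ) * qell L) +
        ((1152 * (a * (b ^ 2 * c)) - 4608 * (b * c ^ 2) - 3456 * b ^ 4) /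
            ((b ^ 3 - c ^ 2) * T ^ 2)) * ((Real.pi : ℂ) * qell L) ^ 2
      rw [h1]
      field_simp
      ring

end Pool.Agent.Lib.MP5e
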