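import Pool.Agent.Lib.MP_5e64e7_nt.GDefs

set_option autoImplicit false

/-!
# MP_5e64e7_nt, block V (one transcendental slot for the tuples of points quadratic over `ℚ(w)`) : definitions (helper21)

`vfam f g S g0 x` is `gfam f g S x` and the number `j'(rz g0 x)`, where `g0` is one of the bases: one of the points `f k'`,
`k' ∉ S`, or a point constant near `w` (a CM point).
-/

noncomputable section

namespace Pool.Agent.Lib.MP5e

open Polynomial Topology

/-- the numbers `gfam f g S x` and `j'(rz g0 x)` -/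
def vfam {m n : ℕ} (f g : Fin n → RF m) (S : Finset (Fin n)) (g0 : RF m) (x : Fin m → ℂ) :
    Option (Fin m ⊕ ((Fin n × Fin 2) ⊕ {k : Fin n // k ∈ S})) → ℂ
  | none => deriv jf (rz g0 x)
  | some i => gfam f g S x i

/-- `g0` is one of the points `f k'`, `k' ∉ S`, or constant near `w` with a transcendental value of `j'` -/
def VSlot {m n : ℕ} (f : Fin n → RF m) (S : Finset (Fin n)) (g0 : RF m) (w : Fin m → ℂ) : Prop :=
  RGood g0 w ∧ ((∃ k', k' ∉ S ∧ g0 = f k') ∨
    ((∀ᶠ x in 𝓝 w, rz g0 x = rz g0 w) ∧ Transcendental ℚ (deriv jf (rz g0 w))))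

end Pool.Agent.Lib.MP5e
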