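import Pool.Agent.Lib.MP_5e64e7_nt.VTd
import Pool.Agent.Lib.MP_5e64e7_nt.GFin

set_option autoImplicit false

/-!
# V.FIN : the frozen inequality and independence, with one transcendental slot (models: `gA`, `gB`, `gE` of `GFin.lean`; helper21)
-/

noncomputable section

namespace Pool.Agent.Lib.MP5e

open Polynomial Topology

/-- `3 N + ρ + 1 - f₀` of the numbers `z_k, j(z_k), j'(z_k), j''(z_k)` are independent -/
theorem vB {m n N ρ F : ℕ} (w : Fin m → ℝ) (hw : QHier w) (z : Fin n → ℂ)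
    (him : ∀ i, 0 < (z i).im) (s : Fin F → ℂ) (e : Fin n → Fin F) (hs : ∀ i, s i ^ 2 ∈ gQ w)
    (hz : ∀ k, z k ∈ gQs w (s (e k)))
    (κ : Fin N → Fin n) (hq : ∀ l, ¬ GQuad (z (κ l)))
    (hrel : ∀ l l', l ≠ l' → ¬ GRel (z (κ l)) (z (κ l')))
    (hper : 0 < N ∨ ∃ k, GQuad (z k) ∧ ¬ (deriv jf (z k) = 0 ∧ deriv (deriv jf) (z k) = 0))
    (μ : Fin ρ → Fin n) (hμ : AlgebraicIndependent ℚ (fun i => z (μ i))) (d : ℕ)
    (hdd : d + Nat.card {i : Fin F // (∃ l, e (κ l) = i) ∧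
      ∀ k, e k = i → GQuad (z k) → deriv jf (z k) = 0 ∧ deriv (deriv jf) (z k) = 0} ≤
        3 * N + ρ + 1) :
    ∃ x : Fin d → ℂ, AlgebraicIndependent ℚ x ∧ ∀ t, ∃ p : Fin 4 × Fin n, x t = ggr z p := by
  obtain ⟨f, hf1, hf2, hf3⟩ := gforms w z him s e hs hz
  exact vtd w hw f hf1 e hf2 z hf3 κ hq hrel hper μ hμ d hdd

/-- `m + 3 N + 1 - f₀` of the numbers `w_l, z_k, j(z_k), j'(z_k), j''(z_k)` are independent -/
theorem vBw {m n N F : ℕ} (w : Fin m → ℝ) (hw : QHier w) (z : Fin n → ℂ)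
    (him : ∀ i, 0 < (z i).im) (s : Fin F → ℂ) (e : Fin n → Fin F) (hs : ∀ i, s i ^ 2 ∈ gQ w)
    (hz : ∀ k, z k ∈ gQs w (s (e k)))
    (κ : Fin N → Fin n) (hq : ∀ l, ¬ GQuad (z (κ l)))
    (hrel : ∀ l l', l ≠ l' → ¬ GRel (z (κ l)) (z (κ l')))
    (hper : 0 < N ∨ ∃ k, GQuad (z k) ∧ ¬ (deriv jf (z k) = 0 ∧ deriv (deriv jf) (z k) = 0))
    (d : ℕ) (hdd : d + Nat.card {i : Fin F // (∃ l, e (κ l) = i) ∧
      ∀ k, e k = i → GQuad (z k) → deriv jf (z k) = 0 ∧ deriv (deriv jf) (z k) = 0} ≤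
        m + 3 * N + 1) :
    ∃ x : Fin d → ℂ, AlgebraicIndependent ℚ x ∧
      ∀ t, ∃ p : Fin m ⊕ (Fin 4 × Fin n), x t = Sum.elim (fun l => (w l : ℂ)) (ggr z) p := by
  obtain ⟨f, hf1, hf2, hf3⟩ := gforms w z him s e hs hz
  exact vtdw w hw f hf1 e hf2 z hf3 κ hq hrel hper d hdd

private theorem vfin_card {F : ℕ} (P Q S : Fin F → Prop) (h : ∀ i, P i → ¬ Q i)
    (hP : ∀ i, P i → S i) (hQ : ∀ i, Q i → S i) :
    Nat.card {i // P i} + Nat.card {i // Q i} ≤ Nat.card {i // S i} := by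
  classical
  rw [Nat.card_eq_fintype_card, Nat.card_eq_fintype_card, Nat.card_eq_fintype_card,
    ← Fintype.card_sum]
  have h1 : Function.Injective (Sum.elim (fun i : {i // P i} => (⟨i.1, hP _ i.2⟩ : {i // S i}))
      (fun i : {i // Q i} => (⟨i.1, hQ _ i.2⟩ : {i // S i}))) := by
    refine Function.Injective.sumElim ?_ ?_ ?_
    · intro a b hab
      exact Subtype.ext (congrArg (fun x : {i // S i} => x.1) hab)
    · intro a b hab
      exact Subtype.ext (congrArg (fun x : {i // S i} => x.1) hab)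
    · intro a b hab
      have h2 : a.1 = b.1 := congrArg (fun x : {i // S i} => x.1) hab
      exact h a.1 a.2 (h2 ▸ b.2)
  exact Fintype.card_le_of_injective _ h1

/-- the inequality of Q1, if the number of classes with periods is at most `ρ + 1` -/
theorem vA {m n ρ F : ℕ} (w : Fin m → ℝ) (hw : QHier w) (z : Fin n → ℂ)
    (him : ∀ i, 0 < (z i).im) (s : Fin F → ℂ) (e : Fin n → Fin F) (hs : ∀ i, s i ^ 2 ∈ gQ w)
    (hz : ∀ k, z k ∈ gQs w (s (e k)))
    (μ : Fin ρ → Fin n) (hμ : AlgebraicIndependent ℚ (fun i => z (μ i)))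
    (hF : Nat.card {i : Fin F // ∃ k, e k = i ∧
      ¬ (GQuad (z k) ∧ deriv jf (z k) = 0 ∧ deriv (deriv jf) (z k) = 0)} ≤ ρ + 1) (d : ℕ)
    (hd : ((d : WithBot ℕ∞) + ringKrullDim (MvPolynomial (Fin n) ℂ ⧸
        (⨅ w ∈ gU z, RingHom.ker (MvPolynomial.eval w))) ≤
      ringKrullDim (MvPolynomial (Fin 4 × Fin n) (integralClosure ℚ ℂ) ⧸
        (⨅ w ∈ gU z, RingHom.ker (MvPolynomial.aeval (R := integralClosure ℚ ℂ) (ggr w)))))) :
    ∃ x : Fin d → ℂ, AlgebraicIndependent ℚ x ∧ ∀ t, ∃ p : Fin 4 × Fin n, x t = ggr z p := by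
  classical
  obtain ⟨f, hf1, hf2, hf3⟩ := gforms w z him s e hs hz
  obtain ⟨N, κ, φ, hκ1, hκ2, h1, h2, h3⟩ := gpar z him
  have hwi := rw_indep w hw
  have hD : ∀ i, ∃ D : ℕ, 1 ≤ D ∧ ∀ k, e k = i → GQuad (z k) → ∃ u v : ℚ, 0 < v ∧
      z k = (u : ℂ) + (v : ℂ) * qom D := by
    intro i
    obtain ⟨D, hD1, hD2⟩ := gconD (ι := {k : Fin n // e k = i ∧ GQuad (z k)})
      (fun k => f k.1) w (fun k => hf1 k.1) (fun k l => hf2 _ _ (k.2.1.trans l.2.1.symm))
      (fun k => gconst (f k.1) w hwi (hf1 k.1) (by rw [hf3]; exact galg k.2.2))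
    refine ⟨D, hD1, fun k hk hq => ?_⟩
    have h4 := hD2 ⟨k, hk, hq⟩
    rwa [hf3] at h4
  choose D hD1 hD2 using hD
  choose c hc1 hc2 hc3 using fun i => gspl (D i) (hD1 i)
  obtain ⟨good, hgood⟩ : ∃ good : Fin F → Prop, good = fun i => ∃ k, e k = i ∧ GQuad (z k) ∧
      ¬ (deriv jf (z k) = 0 ∧ deriv (deriv jf) (z k) = 0) := ⟨_, rfl⟩
  have hc : ∀ K : IntermediateField ℚ ℂ, QCl K → (∀ i : {i // good i}, c i.1 ∈ K) →
      ∀ k, GQuad (z k) → ∀ i, J4 (z k) i ∈ K := by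
    intro K hK hcK k hk i
    obtain ⟨u, v, hv, huv⟩ := hD2 (e k) k rfl hk
    by_cases hg : good (e k)
    · rw [huv]
      exact hc1 (e k) K hK (hcK ⟨e k, hg⟩) u v hv i
    · have h0 : deriv jf (z k) = 0 ∧ deriv (deriv jf) (z k) = 0 := by
        by_contra h0
        apply hg
        rw [hgood]
        exact ⟨k, rfl, hk, h0⟩
      obtain ⟨h5, h6⟩ := hc2 (e k) K hK u v hv
      rw [← huv] at h5 h6
      fin_cases i
      · exact h6
      · exact h5
      · change deriv jf (z k) ∈ K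
        rw [h0.1]
        exact zero_mem K
      · change deriv (deriv jf) (z k) ∈ K
        rw [h0.2]
        exact zero_mem K
  have hU := gdimU z κ φ (fun u hu => ⟨(h1 u hu).1, (h1 u hu).2.1⟩) h2 h3
  have hG := gdimG (γ := {i // good i}) z κ φ (fun u hu => ⟨(h1 u hu).1, (h1 u hu).2.2⟩) h2 h3
    (fun i => c i.1) hc (d + N) (by
      refine le_trans ?_ hd
      push_cast
      exact add_le_add_right hU _)
  have hcard := vfin_card (fun i : Fin F => (∃ l, e (κ l) = i) ∧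
      ∀ k, e k = i → GQuad (z k) → deriv jf (z k) = 0 ∧ deriv (deriv jf) (z k) = 0) good
      (fun i => ∃ k, e k = i ∧
        ¬ (GQuad (z k) ∧ deriv jf (z k) = 0 ∧ deriv (deriv jf) (z k) = 0)) (by
    intro i hi hgi
    rw [hgood] at hgi
    obtain ⟨k, hk1, hk2, hk3⟩ := hgi
    exact hk3 (hi.2 k hk1 hk2)) (by
    rintro i ⟨⟨l, hl⟩, -⟩
    exact ⟨κ l, hl, fun hcon => hκ1 l hcon.1⟩) (by
    intro i hi
    rw [hgood] at hi
    obtain ⟨k, hk1, hk2, hk3⟩ := hi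
    exact ⟨k, hk1, fun hcon => hk3 hcon.2⟩)
  rw [Nat.card_eq_fintype_card (α := {i // good i})] at hcard
  by_cases hper : 0 < N ∨ ∃ k, GQuad (z k) ∧
      ¬ (deriv jf (z k) = 0 ∧ deriv (deriv jf) (z k) = 0)
  · refine vtd w hw f hf1 e hf2 z hf3 κ hκ1 hκ2 hper μ hμ d ?_
    omega
  · -- no periods: `d = 0`
    have hN : N = 0 := by
      by_contra hN
      exact hper (Or.inl (Nat.pos_of_ne_zero hN))
    have hg0 : Fintype.card {i // good i} = 0 := by
      rw [Fintype.card_eq_zero_iff]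
      refine ⟨?_⟩
      rintro ⟨i, h5⟩
      rw [hgood] at h5
      obtain ⟨k, -, hk2, hk3⟩ := h5
      exact hper (Or.inr ⟨k, hk2, hk3⟩)
    have hd0 : d = 0 := by omega
    subst hd0
    exact ⟨fun t => t.elim0, algebraicIndependent_empty_type_iff.2
      (RingHom.injective (algebraMap ℚ ℂ)), fun t => t.elim0⟩

/-- one field `E = ℚ(w)(s)`: all tuples -/
theorem vE {m n : ℕ} (w : Fin m → ℝ) (hw : QHier w) (z : Fin n → ℂ)
    (him : ∀ i, 0 < (z i).im) (s : ℂ) (hs : s ^ 2 ∈ gQ w) (hz : ∀ k, z k ∈ gQs w s) (d : ℕ)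
    (hd : ((d : WithBot ℕ∞) + ringKrullDim (MvPolynomial (Fin n) ℂ ⧸
        (⨅ w ∈ gU z, RingHom.ker (MvPolynomial.eval w))) ≤
      ringKrullDim (MvPolynomial (Fin 4 × Fin n) (integralClosure ℚ ℂ) ⧸
        (⨅ w ∈ gU z, RingHom.ker (MvPolynomial.aeval (R := integralClosure ℚ ℂ) (ggr w)))))) :
    ∃ x : Fin d → ℂ, AlgebraicIndependent ℚ x ∧ ∀ t, ∃ p : Fin 4 × Fin n, x t = ggr z p := by
  refine vA (F := 1) (ρ := 0) w hw z him (fun _ => s) (fun _ => 0) (fun _ => hs) hz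
    (fun t => t.elim0) (algebraicIndependent_empty_type_iff.2
      (RingHom.injective (algebraMap ℚ ℂ))) ?_ d hd
  rw [zero_add]
  refine (Nat.card_le_card_of_injective (Subtype.val) Subtype.val_injective).trans ?_
  rw [Nat.card_eq_fintype_card, Fintype.card_fin]

/-- the numbers `w, j(z_k), j'(z_k), j''(z_k)` are algebraically independent (`z_k ∈ ℚ(w)(s)`) -/
theorem vind {m N : ℕ} (w : Fin m → ℝ) (hw : QHier w) (z : Fin N → ℂ)
    (him : ∀ i, 0 < (z i).im) (s : ℂ) (hs : s ^ 2 ∈ gQ w) (hz : ∀ k, z k ∈ gQs w s)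
    (hq : ∀ k, ¬ GQuad (z k)) (hrel : ∀ k l, k ≠ l → ¬ GRel (z k) (z l)) :
    AlgebraicIndependent ℚ (Sum.elim (fun l => (w l : ℂ))
      (fun p : Fin N × Fin 3 => J4 (z p.1) p.2.succ)) := by
  classical
  rcases Nat.eq_zero_or_pos N with hN | hN
  · subst hN
    refine vexact (fun l => (w l : ℂ)) _ (rw_indep w hw) (fun K _ h i => h (Sum.inl i)) ?_
    simp
  obtain ⟨f, hf1, hf2, hf3⟩ := gforms (F := 1) w z him (fun _ => s) (fun _ => 0)
    (fun _ => hs) hz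
  obtain ⟨ι, _, y, hy, hcard, hmem⟩ := vkey w hw f hf1 (fun _ => (0 : Fin 1)) (fun k l _ =>
    hf2 k l rfl) z hf3 (fun k => k) hq hrel (Or.inl hN)
  refine vexact y _ hy ?_ ?_
  · intro K hK hY
    have hwK : ∀ l, (w l : ℂ) ∈ K := fun l => hY (Sum.inl l)
    refine hmem K hK hwK ?_
    rintro ⟨a, k⟩
    fin_cases a
    · have h1 := (rz_mem (f k) _ K hK hwK).1
      rw [hf3] at h1
      exact h1
    · exact hY (Sum.inr (k, 0))
    · exact hY (Sum.inr (k, 1))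
    · exact hY (Sum.inr (k, 2))
  · have h1 : Nat.card {i : Fin 1 // (∃ l : Fin N, (0 : Fin 1) = i) ∧
        ∀ k : Fin N, (0 : Fin 1) = i → GQuad (z k) →
          deriv jf (z k) = 0 ∧ deriv (deriv jf) (z k) = 0} ≤ 1 := by
      refine (Nat.card_le_card_of_injective (Subtype.val) Subtype.val_injective).trans ?_
      rw [Nat.card_eq_fintype_card, Fintype.card_fin]
    simp only [Fintype.card_sum, Fintype.card_prod, Fintype.card_fin]
    omega

/-- the same with one of the numbers `j'(τ), j''(τ)`, `τ ∈ ℚ(w)(s)` quadratic -/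
theorem vindT {m N : ℕ} (w : Fin m → ℝ) (hw : QHier w) (z : Fin N → ℂ)
    (him : ∀ i, 0 < (z i).im) (s : ℂ) (hs : s ^ 2 ∈ gQ w) (hz : ∀ k, z k ∈ gQs w s)
    (hq : ∀ k, ¬ GQuad (z k)) (hrel : ∀ k l, k ≠ l → ¬ GRel (z k) (z l))
    (τ : ℂ) (hτim : 0 < τ.im) (hτ : τ ∈ gQs w s) (hτq : GQuad τ) (T : ℂ) (hT0 : T ≠ 0)
    (hT : T = deriv jf τ ∨ T = deriv (deriv jf) τ) :
    AlgebraicIndependent ℚ (fun o : Option (Fin m ⊕ (Fin N × Fin 3)) =>
      o.elim T (Sum.elim (fun l => (w l : ℂ))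
        (fun p : Fin N × Fin 3 => J4 (z p.1) p.2.succ))) := by
  classical
  have hwi := rw_indep w hw
  obtain ⟨z', hz'⟩ : ∃ z' : Fin (N + 1) → ℂ, z' = Fin.cons τ z := ⟨_, rfl⟩
  have hz0 : z' 0 = τ := by rw [hz']; rfl
  have hzs : ∀ k : Fin N, z' k.succ = z k := fun k => by rw [hz']; rfl
  have him' : ∀ k, 0 < (z' k).im := by
    intro k
    refine Fin.cases ?_ (fun k => ?_) k
    · rw [hz0]; exact hτim
    · rw [hzs]; exact him k
  have hzE : ∀ k, z' k ∈ gQs w s := by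
    intro k
    refine Fin.cases ?_ (fun k => ?_) k
    · rw [hz0]; exact hτ
    · rw [hzs]; exact hz k
  obtain ⟨f, hf1, hf2, hf3⟩ := gforms (F := 1) w z' him' (fun _ => s) (fun _ => 0)
    (fun _ => hs) hzE
  have hgood : ¬ (deriv jf τ = 0 ∧ deriv (deriv jf) τ = 0) := by
    rintro ⟨h1, h2⟩
    rcases hT with hT | hT
    · exact hT0 (hT.trans h1)
    · exact hT0 (hT.trans h2)
  obtain ⟨D, hD1, hD2⟩ := gconD (ι := Unit) (fun _ => f 0) w (fun _ => hf1 0) (fun _ _ => rfl)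
    (fun _ => gconst (f 0) w hwi (hf1 0) (by rw [hf3, hz0]; exact galg hτq))
  obtain ⟨u, v, hv, huv⟩ := hD2 ()
  rw [hf3, hz0] at huv
  obtain ⟨ι, _, y, hy, hcard, hmem⟩ := vkey w hw f hf1 (fun _ => (0 : Fin 1)) (fun k l _ =>
    hf2 k l rfl) z' hf3 (fun k : Fin N => k.succ) (fun k => by rw [hzs]; exact hq k)
    (fun k l hkl => by
      show ¬ GRel (z' k.succ) (z' l.succ)
      rw [hzs, hzs]; exact hrel k l hkl)
    (Or.inr ⟨0, by rw [hz0]; exact hτq, by rw [hz0]; exact hgood⟩)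
  refine vexact y _ hy ?_ ?_
  · intro K hK hY
    have hwK : ∀ l, (w l : ℂ) ∈ K := fun l => hY (some (Sum.inl l))
    have hTK : T ∈ K := hY none
    refine hmem K hK hwK ?_
    rintro ⟨a, k⟩
    refine Fin.cases ?_ (fun k => ?_) k
    · have h1 : ∀ a : Fin 4, J4 (z' 0) a ∈ K := by
        intro a
        rw [hz0]
        exact vspl D hD1 u v hv τ huv T hT0 hT K hK hTK a
      exact h1 a
    · fin_cases a
      · have h1 := (rz_mem (f k.succ) _ K hK hwK).1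
        rw [hf3] at h1
        exact h1
      · have h1 := hY (some (Sum.inr (k, 0)))
        change jf (z' k.succ) ∈ K
        rw [hzs]
        exact h1
      · have h1 := hY (some (Sum.inr (k, 1)))
        change deriv jf (z' k.succ) ∈ K
        rw [hzs]
        exact h1
      · have h1 := hY (some (Sum.inr (k, 2)))
        change deriv (deriv jf) (z' k.succ) ∈ K
        rw [hzs]
        exact h1
  · have h1 : Nat.card {i : Fin 1 // (∃ l : Fin N, (0 : Fin 1) = i) ∧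
        ∀ k : Fin (N + 1), (0 : Fin 1) = i → GQuad (z' k) →
          deriv jf (z' k) = 0 ∧ deriv (deriv jf) (z' k) = 0} = 0 := by
      rw [Nat.card_eq_fintype_card, Fintype.card_eq_zero_iff]
      refine ⟨fun i => ?_⟩
      have h2 := i.2.2 0 (Subsingleton.elim _ _) (by rw [hz0]; exact hτq)
      rw [hz0] at h2
      exact hgood h2
    simp only [Fintype.card_option, Fintype.card_sum, Fintype.card_prod, Fintype.card_fin]
    omega

end Pool.Agent.Lib.MP5e
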