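import Pool.Agent.Lib.MP_5e64e7_nt.GFunC
import Pool.Agent.Lib.MP_5e64e7_nt.RMem
import Pool.Agent.Lib.MP_5e64e7_nt.QTrd
import Pool.Agent.Lib.MP_5e64e7_nt.VDefs

set_option autoImplicit false

/-!
# V.FUN : the functions `vfam f g S g0` are algebraically independent over `ℚ` (`gfun` of `GFun.lean` with one slot; helper21)

As in `GFun.lean`: at a generic point `x` near `w` the numbers `gall f x` and `c t`, `t ∈ T`, are algebraically independent,
where `T` is a transcendence basis of the constants `c`; if `rz g0` is constant, the constant `j'(rz g0 w)` is put into `T`.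
-/

noncomputable section

namespace Pool.Agent.Lib.MP5e

open Polynomial Topology

private theorem vf_basis {κ : Type} [Fintype κ] (c : κ → ℂ) (Q : Prop) (k0 : κ)
    (h0 : Q → Transcendental ℚ (c k0)) :
    ∃ T : Finset κ, (Q → ∃ k ∈ T, c k = c k0) ∧
      AlgebraicIndependent ℚ (fun k : {k // k ∈ T} => c k) ∧
      ∀ K : IntermediateField ℚ ℂ, QCl K → (∀ k ∈ T, c k ∈ K) → ∀ k, c k ∈ K := by
  classical
  set M := AlgebraicIndependent.matroid ℚ ℂ with hM
  obtain ⟨B, hB, hB0⟩ : ∃ B, M.IsBasis B (Set.range c) ∧ (Q → c k0 ∈ B) := by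
    by_cases hQ : Q
    · have hI0 : M.Indep {c k0} := by
        rw [hM, AlgebraicIndependent.matroid_indep_iff]
        exact (algebraicIndependent_unique_type_iff).2 (h0 hQ)
      obtain ⟨B, hB, hB0⟩ := hI0.subset_isBasis_of_subset
        (Set.singleton_subset_iff.2 ⟨k0, rfl⟩ : {c k0} ⊆ Set.range c)
        (by rw [hM, AlgebraicIndependent.matroid_e]; exact Set.subset_univ _)
      exact ⟨B, hB, fun _ => hB0 rfl⟩
    · obtain ⟨B, hB⟩ := M.exists_isBasis (Set.range c)
      exact ⟨B, hB, fun h => absurd h hQ⟩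
  have hBy : ∀ b : B, ∃ k, c k = b := fun b => hB.subset b.2
  choose g hg using hBy
  have hBfin : B.Finite := (Set.finite_range c).subset hB.subset
  have : Fintype B := hBfin.fintype
  refine ⟨Finset.univ.image g, ?_, ?_, ?_⟩
  · intro hQ
    refine ⟨g ⟨c k0, hB0 hQ⟩, Finset.mem_image_of_mem _ (Finset.mem_univ _), ?_⟩
    rw [hg]
  · have hBind : AlgebraicIndependent ℚ (fun b : B => (b : ℂ)) := hB.indep
    have hmem : ∀ k : {k // k ∈ Finset.univ.image g}, c k ∈ B := by
      rintro ⟨k, hk⟩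
      obtain ⟨b, _, rfl⟩ := Finset.mem_image.mp hk
      simp only [hg]
      exact b.2
    have h2 := hBind.comp (fun k : {k // k ∈ Finset.univ.image g} => (⟨c k, hmem k⟩ : B)) (by
      rintro ⟨k, hk⟩ ⟨l, hl⟩ hkl
      obtain ⟨b, _, rfl⟩ := Finset.mem_image.mp hk
      obtain ⟨b', _, rfl⟩ := Finset.mem_image.mp hl
      have h3 : c (g b) = c (g b') := congrArg Subtype.val hkl
      rw [hg, hg] at h3
      have h4 : b = b' := Subtype.ext h3
      subst h4
      rfl)
    exact h2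
  · intro K hK hT k
    have h3 : c k ∈ M.closure B := by
      rw [hB.closure_eq_closure]
      refine M.subset_closure _ ?_ ⟨k, rfl⟩
      rw [hM, AlgebraicIndependent.matroid_e]
      exact Set.subset_univ _
    have hx0 : IsAlgebraic (IntermediateField.adjoin ℚ B) (c k) := by
      rw [IntermediateField.isAlgebraic_adjoin_iff]
      rw [hM, AlgebraicIndependent.matroid_closure_eq, SetLike.mem_coe,
        Subalgebra.mem_algebraicClosure] at h3
      exact h3
    apply hK
    have hBK : B ⊆ K := by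
      intro b hb
      have h4 := hT (g ⟨b, hb⟩) (Finset.mem_image_of_mem _ (Finset.mem_univ _))
      rw [hg] at h4
      exact h4
    have hle : IntermediateField.adjoin ℚ B ≤ K := IntermediateField.adjoin_le_iff.mpr hBK
    obtain ⟨P, hP0, hP⟩ := hx0
    refine ⟨P.map (IntermediateField.inclusion hle).toRingHom, ?_, ?_⟩
    · exact (Polynomial.map_ne_zero_iff (IntermediateField.inclusion_injective hle)).mpr hP0
    · rw [Polynomial.aeval_def, Polynomial.eval₂_map]
      exact hP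

private theorem vf_ne {σ τ : Type} (c : τ → ℂ) (hc : AlgebraicIndependent ℚ c)
    (Q : MvPolynomial (σ ⊕ τ) ℚ)
    (h : MvPolynomial.aeval (Sum.elim (fun i => MvPolynomial.X i)
      (fun t => MvPolynomial.C (c t)) : σ ⊕ τ → MvPolynomial σ ℂ) Q = 0) : Q = 0 := by
  have key : (MvPolynomial.aeval (Sum.elim (fun i => MvPolynomial.X i)
      (fun t => MvPolynomial.C (c t)) : σ ⊕ τ → MvPolynomial σ ℂ) :
        MvPolynomial (σ ⊕ τ) ℚ →ₐ[ℚ] MvPolynomial σ ℂ) =
      (MvPolynomial.mapAlgHom (MvPolynomial.aeval c)).comp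
        (MvPolynomial.sumAlgEquiv ℚ σ τ).toAlgHom := by
    apply MvPolynomial.algHom_ext
    rintro (i | t)
    · simp
    · simp
  rw [key] at h
  have hinj : Function.Injective (MvPolynomial.mapAlgHom (σ := σ)
      (MvPolynomial.aeval c : MvPolynomial τ ℚ →ₐ[ℚ] ℂ)) := by
    have h1 : Function.Injective (MvPolynomial.aeval c : MvPolynomial τ ℚ →ₐ[ℚ] ℂ) := hc
    exact MvPolynomial.map_injective _ h1
  have h2 : (MvPolynomial.sumAlgEquiv ℚ σ τ) Q = 0 := by
    apply hinj
    rw [map_zero]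
    exact h
  exact (EmbeddingLike.map_eq_zero_iff (f := MvPolynomial.sumAlgEquiv ℚ σ τ)).mp h2

private theorem vf_eval {σ τ : Type} (e : σ → ℂ) (c : τ → ℂ) (Q : MvPolynomial (σ ⊕ τ) ℚ) :
    MvPolynomial.eval e (MvPolynomial.aeval (Sum.elim (fun i => MvPolynomial.X i)
      (fun t => MvPolynomial.C (c t)) : σ ⊕ τ → MvPolynomial σ ℂ) Q) =
    MvPolynomial.aeval (Sum.elim e c) Q := by
  induction Q using MvPolynomial.induction_on with
  | C a =>
    rw [MvPolynomial.algHom_C, MvPolynomial.algHom_C]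
    rw [IsScalarTower.algebraMap_apply ℚ ℂ (MvPolynomial σ ℂ), MvPolynomial.algebraMap_eq,
      MvPolynomial.eval_C]
  | add p q hp hq => rw [map_add, map_add, map_add, hp, hq]
  | mul_X p i hp =>
    rw [map_mul, map_mul, map_mul, hp, MvPolynomial.aeval_X, MvPolynomial.aeval_X]
    rcases i with i | t
    · simp
    · simp

private theorem vf_analytic {m n : ℕ} (f : Fin n → RF m) (x : Fin m → ℂ)
    (h : ∀ k, RGood (f k) x) (Q : MvPolynomial (Fin m ⊕ (Fin n × Fin 3)) ℂ) :
    AnalyticAt ℂ (fun x => MvPolynomial.eval (gall f x) Q) x := by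
  induction Q using MvPolynomial.induction_on with
  | C a =>
    simp only [MvPolynomial.eval_C]
    exact analyticAt_const
  | add q r hq hr =>
    simp only [map_add]
    exact hq.add hr
  | mul_X q i hq =>
    simp only [map_mul, MvPolynomial.eval_X]
    refine hq.mul ?_
    rcases i with l | ⟨k, i⟩
    · exact (ContinuousLinearMap.proj (R := ℂ) (φ := fun _ : Fin m => ℂ) l).analyticAt x
    · have h1 : AnalyticAt ℂ (fun u => J4 u i.succ) (rz (f k) x) := J4_analyticAt (h k).2 _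
      exact h1.comp (rz_analytic (f k) x (h k))

theorem vfun {m n : ℕ} (f g : Fin n → RF m) (S : Finset (Fin n)) (g0 : RF m) (w : Fin m → ℂ)
    (h : ∀ k, RGood (f k) w) (hb : GBase f g S w) (h0 : VSlot f S g0 w)
    (hnc : ∀ k, ¬ ∀ᶠ x in 𝓝 w, rz (f k) x = rz (f k) w)
    (hrel : ∀ k l, k ≠ l → ¬ GRel (rz (f k) w) (rz (f l) w))
    (P : MvPolynomial (Option (Fin m ⊕ ((Fin n × Fin 2) ⊕ {k : Fin n // k ∈ S}))) ℤ)
    (hP : ∀ᶠ x in 𝓝 w, MvPolynomial.aeval (vfam f g S g0 x) P = 0) : P = 0 := by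
  classical
  obtain ⟨hgd, hgg, hgj, hgS⟩ := hb
  obtain ⟨hg0, hslot⟩ := h0
  obtain ⟨c, hcdef⟩ : ∃ c : Option (Fin n) → ℂ,
      c = fun o => o.elim (deriv jf (rz g0 w)) (fun k => deriv jf (rz (g k) w)) := ⟨_, rfl⟩
  obtain ⟨T, hT0, hTi, hTcl⟩ := vf_basis c ((∀ᶠ x in 𝓝 w, rz g0 x = rz g0 w) ∧
    Transcendental ℚ (deriv jf (rz g0 w))) none (by rw [hcdef]; exact fun h => h.2)
  -- the open ball
  have hev : ∀ᶠ x in 𝓝 w, (∀ k, RGood (f k) x) ∧ MvPolynomial.aeval (vfam f g S g0 x) P = 0 ∧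
      (∀ k ∈ S, (∃ k', k' ∉ S ∧ g k = f k') ∨ rz (g k) x = rz (g k) w) ∧
      ((∀ᶠ x in 𝓝 w, rz g0 x = rz g0 w) → rz g0 x = rz g0 w) := by
    have h1 : ∀ᶠ x in 𝓝 w, ∀ k, RGood (f k) x := by
      rw [Filter.eventually_all]
      exact fun k => rgood_nhds (f k) w (h k)
    have h2 : ∀ᶠ x in 𝓝 w, ∀ k ∈ S, (∃ k', k' ∉ S ∧ g k = f k') ∨ rz (g k) x = rz (g k) w := by
      rw [Filter.eventually_all]
      intro k
      by_cases hk : k ∈ S
      · rcases hgS k hk with h3 | h3
        · exact Filter.Eventually.of_forall fun x _ => Or.inl h3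
        · filter_upwards [h3] with x hx _
          exact Or.inr hx
      · exact Filter.Eventually.of_forall fun x hk' => absurd hk' hk
    have h3 : ∀ᶠ x in 𝓝 w, ((∀ᶠ x in 𝓝 w, rz g0 x = rz g0 w) → rz g0 x = rz g0 w) := by
      by_cases hc : ∀ᶠ x in 𝓝 w, rz g0 x = rz g0 w
      · filter_upwards [hc] with x hx _
        exact hx
      · exact Filter.Eventually.of_forall fun x hc' => absurd hc' hc
    filter_upwards [h1, hP, h2, h3] with x a b d e
    exact ⟨a, b, d, e⟩
  obtain ⟨ε, hε, hball⟩ := Metric.eventually_nhds_iff_ball.mp hev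
  have hct0 : Countable (MvPolynomial ((Fin m ⊕ (Fin n × Fin 3)) ⊕ {t // t ∈ T}) ℚ) := by
    have h := MvPolynomial.cardinalMk_le_max
      (σ := ((Fin m ⊕ (Fin n × Fin 3)) ⊕ {t // t ∈ T})) (R := ℚ)
    rw [← Cardinal.mk_le_aleph0_iff]
    exact h.trans (max_le (max_le Cardinal.mk_le_aleph0 Cardinal.mk_le_aleph0) le_rfl)
  obtain ⟨Qc, hQc⟩ : ∃ Qc : MvPolynomial ((Fin m ⊕ (Fin n × Fin 3)) ⊕ {t // t ∈ T}) ℚ →
      MvPolynomial (Fin m ⊕ (Fin n × Fin 3)) ℂ, Qc = fun Q =>
      MvPolynomial.aeval (Sum.elim (fun i => MvPolynomial.X i)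
        (fun t : {t // t ∈ T} => MvPolynomial.C (c t)) :
        (Fin m ⊕ (Fin n × Fin 3)) ⊕ {t // t ∈ T} → MvPolynomial (Fin m ⊕ (Fin n × Fin 3)) ℂ) Q :=
    ⟨_, rfl⟩
  obtain ⟨x, hxB, hxQ⟩ := gavoid
    (ι := {Q : MvPolynomial ((Fin m ⊕ (Fin n × Fin 3)) ⊕ {t // t ∈ T}) ℚ // Q ≠ 0})
    (Metric.ball w ε) Metric.isOpen_ball (convex_ball w ε).isPreconnected
    (fun Q x => MvPolynomial.eval (gall f x) (Qc Q.1))
    (fun Q x hx => vf_analytic f x (hball x hx).1 _)
    (by
      intro Q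
      by_contra hcon
      push Not at hcon
      apply Q.2
      apply vf_ne (fun t : {t // t ∈ T} => c t) hTi Q.1
      have h1 := gfunC f w h hnc hrel (Qc Q.1) (by
        filter_upwards [Metric.ball_mem_nhds w hε] with x hx
        exact hcon x hx)
      rw [hQc] at h1
      exact h1)
    (Metric.ball w ε) Metric.isOpen_ball ⟨w, Metric.mem_ball_self hε⟩ subset_rfl
  obtain ⟨hxg, hxP, hxS, hx0⟩ := hball x hxB
  have hpi : AlgebraicIndependent ℚ (Sum.elim (gall f x) (fun t : {t // t ∈ T} => c t)) := by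
    rw [algebraicIndependent_iff]
    intro Q hQ
    by_contra hQ0
    apply hxQ ⟨Q, hQ0⟩
    simp only [hQc]
    rw [vf_eval]
    exact hQ
  have hjx : ∀ k, deriv jf (rz (f k) x) ≠ 0 := by
    intro k h0
    have h1 := hpi.transcendental (Sum.inl (Sum.inr (k, 1)))
    apply h1
    change IsAlgebraic ℚ (deriv jf (rz (f k) x))
    rw [h0]
    exact isAlgebraic_zero
  obtain ⟨s, hs1, hs2⟩ := qtrd
    (κ := ((Fin m ⊕ ((Fin n × Fin 2) ⊕ {k : Fin n // k ∈ S})) ⊕ {k : Fin n // k ∉ S}) ⊕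
      {t // t ∈ T})
    (Sum.elim (gall f x) (fun t : {t // t ∈ T} => c t))
    (Sum.elim (Sum.elim (gfam f g S x) (fun k => deriv jf (rz (f k.1) x)))
      (fun t : {t // t ∈ T} => c t)) hpi (by
    intro K hK hy
    have hyf : ∀ i, gfam f g S x i ∈ K := fun i => hy (Sum.inl (Sum.inl i))
    have hyd : ∀ k, k ∉ S → deriv jf (rz (f k) x) ∈ K := fun k hk => hy (Sum.inl (Sum.inr ⟨k, hk⟩))
    have hyc : ∀ k, c k ∈ K := hTcl K hK (fun k hk => hy (Sum.inr ⟨k, hk⟩))
    have hxl : ∀ l, x l ∈ K := fun l => hyf (Sum.inl l)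
    have h1 : ∀ k, jf (rz (f k) x) ∈ K := fun k => hyf (Sum.inr (Sum.inl (k, 0)))
    have hkap : ∀ k, rkap (rz (f k) x) (ry (f k) x) ∈ K :=
      fun k => hyf (Sum.inr (Sum.inl (k, 1)))
    have hI := qcl_I hK
    have h2 : ∀ k, deriv jf (rz (f k) x) ∈ K := by
      intro k
      by_cases hk : k ∈ S
      · have hq : deriv jf (rz (f k) x) / deriv jf (rz (g k) x) ∈ K :=
          hyf (Sum.inr (Sum.inr ⟨k, hk⟩))
        have hgk : deriv jf (rz (g k) x) ∈ K ∧ deriv jf (rz (g k) x) ≠ 0 := by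
          rcases hxS k hk with ⟨k', hk', he⟩ | he
          · rw [he]
            exact ⟨hyd k' hk', hjx k'⟩
          · rw [he]
            have h3 := hyc (some k)
            rw [hcdef] at h3
            exact ⟨h3, hgj k⟩
        have h4 := mul_mem hq hgk.1
        rwa [div_mul_cancel₀ _ hgk.2] at h4
      · exact hyd k hk
    have h3 : ∀ k, deriv (deriv jf) (rz (f k) x) ∈ K := by
      intro k
      have hz := rz_mem (f k) x K hK hxl
      have hk := hkap k
      unfold rkap at hk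
      have h4 := add_mem (mul_mem hk (pow_mem (h2 k) 2)) (mul_mem (div_mem hI hz.2) (h2 k))
      rwa [div_mul_cancel₀ _ (pow_ne_zero 2 (hjx k)), sub_add_cancel] at h4
    rintro ((l | ⟨k, i⟩) | t)
    · exact hxl l
    · fin_cases i
      · exact h1 k
      · exact h2 k
      · exact h3 k
    · exact hyc t.1)
  have hcard : Fintype.card (((Fin m ⊕ ((Fin n × Fin 2) ⊕ {k : Fin n // k ∈ S})) ⊕
      {k : Fin n // k ∉ S}) ⊕ {t // t ∈ T}) ≤ s.card := by
    refine le_trans (le_of_eq ?_) hs1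
    have h1 : Fintype.card {k : Fin n // k ∈ S} + Fintype.card {k : Fin n // k ∉ S} = n := by
      have h2 := Fintype.card_subtype_compl (fun k : Fin n => k ∈ S)
      have h3 := Fintype.card_subtype_le (fun k : Fin n => k ∈ S)
      rw [Fintype.card_fin] at h2 h3
      omega
    simp only [Fintype.card_sum, Fintype.card_prod, Fintype.card_fin]
    simp only [Fintype.card_coe] at h1 ⊢
    omega
  have hsu : s = Finset.univ := by
    apply Finset.eq_univ_of_card
    exact le_antisymm (Finset.card_le_univ s) hcard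
  have hind : AlgebraicIndependent ℚ (vfam f g S g0 x) := by
    obtain ⟨i0, hi0, hy0⟩ : ∃ i0 : ((Fin m ⊕ ((Fin n × Fin 2) ⊕ {k : Fin n // k ∈ S})) ⊕
        {k : Fin n // k ∉ S}) ⊕ {t // t ∈ T}, (∀ i, i0 ≠ Sum.inl (Sum.inl i)) ∧
        (Sum.elim (Sum.elim (gfam f g S x) (fun k => deriv jf (rz (f k.1) x)))
          (fun t : {t // t ∈ T} => c t)) i0 = deriv jf (rz g0 x) := by
      rcases hslot with ⟨k', hk', he⟩ | hc
      · refine ⟨Sum.inl (Sum.inr ⟨k', hk'⟩), fun i hi => ?_, ?_⟩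
        · exact absurd (Sum.inl_injective hi) (by simp)
        · rw [he]
          rfl
      · obtain ⟨k1, hk1, hk2⟩ := hT0 hc
        refine ⟨Sum.inr ⟨k1, hk1⟩, fun i hi => by simp at hi, ?_⟩
        change c k1 = _
        rw [hk2, hcdef, hx0 hc.1]
        rfl
    have h1 := hs2.comp (fun i : Option (Fin m ⊕ ((Fin n × Fin 2) ⊕ {k : Fin n // k ∈ S})) =>
      (⟨i.elim i0 (fun i => Sum.inl (Sum.inl i)), by rw [hsu]; exact Finset.mem_univ _⟩ :
        {k // k ∈ s})) (by
      intro i j hij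
      have hij' := congrArg Subtype.val hij
      rcases i with _ | i <;> rcases j with _ | j
      · rfl
      · exact absurd hij' (hi0 j)
      · exact absurd hij'.symm (hi0 i)
      · exact congrArg some (Sum.inl_injective (Sum.inl_injective hij')))
    have h2 : (vfam f g S g0 x) = fun i : Option (Fin m ⊕ ((Fin n × Fin 2) ⊕
        {k : Fin n // k ∈ S})) =>
        (Sum.elim (Sum.elim (gfam f g S x) (fun k => deriv jf (rz (f k.1) x)))
          (fun t : {t // t ∈ T} => c t)) (i.elim i0 (fun i => Sum.inl (Sum.inl i))) := by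
      funext i
      rcases i with _ | i
      · exact hy0.symm
      · rfl
    rw [h2]
    exact h1
  have h0 : MvPolynomial.map (algebraMap ℤ ℚ) P = 0 := by
    rw [algebraicIndependent_iff] at hind
    apply hind
    rw [MvPolynomial.aeval_map_algebraMap]
    exact hxP
  exact MvPolynomial.map_injective _ (RingHom.injective_int (algebraMap ℤ ℚ)) (by rw [h0, map_zero])

end Pool.Agent.Lib.MP5e
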