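import Pool.Agent.Lib.MP_5e64e7_nt.UFld
import Pool.Agent.Lib.MP_5e64e7_nt.ULow
import Pool.Agent.Lib.MP_5e64e7_nt.JDer

set_option autoImplicit false

/-!
# V.TRN : `j'(τ)` is transcendental for every quadratic `τ` with `j'(τ) ≠ 0` (helper21)

`ufld` with the point `τ = qgr D x y c`: `QCMD L K E lam τ`, `s = ℓ/lam²`, `E₄ = s² b`, `E₆ = s³ c`,
`κ = E₂/s = a + 3/(Y π s)`, `j'(τ) = - 2 π i · 1728 · s b² c/(b³ - c²)`: if `j'(τ)` is algebraic and not `0`, then `π s` and `κ` are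
algebraic, but `κ` is transcendental (`ukap_trans`).
-/

noncomputable section

namespace Pool.Agent.Lib.MP5e

open Polynomial Topology

theorem vtrn_gr (D : ℕ) (x y : ℤ) (c : ℕ) (hD : 1 ≤ D) (hc : 1 ≤ c) (hy : 0 < y)
    (hne : deriv jf (qgr D x y c) ≠ 0) : Transcendental ℚ (deriv jf (qgr D x y c)) := by
  obtain ⟨C, hC⟩ := ufld 1 1
  obtain ⟨B, hB⟩ : ∃ B : ℕ, B = D + x.natAbs + y.natAbs + c + 2 := ⟨_, rfl⟩
  obtain ⟨L, K, lam0, hK, -, hI, hom, -, -, hz⟩ := hC B D (fun _ => qgr D x y c) (by omega) hD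
    (by omega) (by
      intro k
      refine ⟨c, x, y, hc, by rw [pow_one]; omega, ?_, hy, ?_, rfl⟩
      · rw [pow_one, Int.abs_eq_natAbs]
        exact_mod_cast (by omega : x.natAbs ≤ B)
      · rw [pow_one]
        have : ((y.natAbs : ℕ) : ℤ) = y := Int.natAbs_of_nonneg hy.le
        rw [← this]
        exact_mod_cast (by omega : y.natAbs ≤ B))
  obtain ⟨lam, hQ, hYR⟩ := hz 0
  obtain ⟨τ, hτ⟩ : ∃ τ : ℂ, τ = qgr D x y c := ⟨_, rfl⟩
  rw [← hτ] at hQ hYR hne ⊢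
  have him : 0 < τ.im := by
    rw [hτ, qgr_im]
    have h1 : (0 : ℝ) < (y : ℝ) := by exact_mod_cast hy
    have h2 : 0 < Real.sqrt D := Real.sqrt_pos.2 (by exact_mod_cast hD)
    have h3 : (0 : ℝ) < c := by exact_mod_cast hc
    positivity
  obtain ⟨a, b, e, haA, hbA, heA, hE4, hE6, hE2⟩ := ulow_kap him hQ
  have hell := qell_ne L
  have hπ : (Real.pi : ℂ) ≠ 0 := by exact_mod_cast Real.pi_ne_zero
  have hlC : (lam : ℂ) ≠ 0 := by
    have : lam ≠ 0 := by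
      have := hQ.1
      omega
    exact_mod_cast this
  have hYC : (τ.im : ℂ) ≠ 0 := by exact_mod_cast him.ne'
  obtain ⟨s, hs⟩ : ∃ s : ℂ, s = qell L / (lam : ℂ) ^ 2 := ⟨_, rfl⟩
  rw [← hs] at hE4 hE6 hE2
  have hs0 : s ≠ 0 := by
    rw [hs]
    exact div_ne_zero hell (pow_ne_zero _ hlC)
  have hκ2 : E2f τ / s = a + 3 / ((τ.im : ℂ) * ((Real.pi : ℂ) * s)) := by
    rw [hE2, hs]
    field_simp
  intro halg
  have halgK : ∀ v : ℂ, v ∈ K → IsAlgebraic ℚ v := fun v hv =>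
    (isAlgebraic_algebraMap (R := K) (⟨v, hv⟩ : K)).restrictScalars ℚ
  have hd := disc_ne him
  have hδ : b ^ 3 - e ^ 2 ≠ 0 := by
    intro h
    apply hd
    rw [hE4, hE6]
    linear_combination s ^ 6 * h
  have hdj : deriv jf τ * (b ^ 3 - e ^ 2) =
      -(2 * Complex.I) * 1728 * (b ^ 2 * e) * ((Real.pi : ℂ) * s) := by
    have h1 := djf him
    rw [hE4, hE6] at h1
    rw [h1]
    have h2 : (s ^ 2 * b) ^ 3 - (s ^ 3 * e) ^ 2 = s ^ 6 * (b ^ 3 - e ^ 2) := by ring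
    rw [h2]
    field_simp
  have hbe : b ^ 2 * e ≠ 0 := by
    intro h
    rw [h] at hdj
    have h1 : deriv jf τ * (b ^ 3 - e ^ 2) = 0 := by
      rw [hdj]
      ring
    exact (mul_ne_zero hne hδ) h1
  have hbalg := halgK b hbA.mem
  have healg := halgK e heA.mem
  have hIalg : IsAlgebraic ℚ Complex.I := halgK _ hI
  have hnum : IsAlgebraic ℚ (-(2 * Complex.I) * 1728 * (b ^ 2 * e)) := by
    refine IsAlgebraic.mul (IsAlgebraic.mul ((IsAlgebraic.mul ?_ hIalg).neg) ?_)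
      ((hbalg.pow 2).mul healg)
    · exact_mod_cast isAlgebraic_natCast (R := ℚ) (A := ℂ) 2
    · exact_mod_cast isAlgebraic_natCast (R := ℚ) (A := ℂ) 1728
  have hnum0 : -(2 * Complex.I) * 1728 * (b ^ 2 * e) ≠ 0 :=
    mul_ne_zero (mul_ne_zero (neg_ne_zero.2 (mul_ne_zero two_ne_zero Complex.I_ne_zero))
      (by norm_num)) hbe
  have hπs : IsAlgebraic ℚ ((Real.pi : ℂ) * s) := by
    have h1 : (Real.pi : ℂ) * s = deriv jf τ * (b ^ 3 - e ^ 2) *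
        (-(2 * Complex.I) * 1728 * (b ^ 2 * e))⁻¹ := by
      rw [hdj, mul_right_comm _ ((Real.pi : ℂ) * s) _, mul_inv_cancel₀ hnum0, one_mul]
    rw [h1]
    exact (halg.mul ((hbalg.pow 3).sub (healg.pow 2))).mul hnum.inv
  have hY : IsAlgebraic ℚ (τ.im : ℂ) := by
    obtain ⟨d, hd0, hd1, hd2⟩ := hYR
    have h1 := (halgK _ hd1.mem).inv.mul (halgK _ hd2.mem)
    rwa [inv_mul_cancel_left₀ hd0] at h1
  have hκ : IsAlgebraic ℚ (E2f τ / s) := by
    rw [hκ2]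
    refine (halgK a haA.mem).add ?_
    rw [div_eq_mul_inv]
    refine IsAlgebraic.mul ?_ (hY.mul hπs).inv
    exact_mod_cast isAlgebraic_natCast (R := ℚ) (A := ℂ) 3
  obtain ⟨R, hR⟩ : ∃ R : ℝ, R = max τ.im τ.im⁻¹ := ⟨_, rfl⟩
  have hR0 : 0 < R := by
    rw [hR]
    exact lt_max_of_lt_left him
  have h1 : R⁻¹ ≤ τ.im := by
    rw [inv_le_comm₀ hR0 him, hR]
    exact le_max_right _ _
  have h2 : τ.im ≤ R := by
    rw [hR]
    exact le_max_left _ _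
  exact ukap_trans R hR0 K hK τ s b e h1 h2 (B ^ C) hbA heA hE4 hE6
    ((IsFractionRing.isAlgebraic_iff ℤ ℚ ℂ).2 hκ)

/-- `j'(τ)` is transcendental for `τ = u + v √(-D)`, if it is not `0` -/
theorem vtrn (D : ℕ) (hD : 1 ≤ D) (u v : ℚ) (hv : 0 < v)
    (hne : deriv jf ((u : ℂ) + (v : ℂ) * qom D) ≠ 0) :
    Transcendental ℚ (deriv jf ((u : ℂ) + (v : ℂ) * qom D)) := by
  have h : (u : ℂ) + (v : ℂ) * qom D =
      qgr D (u.num * v.den) (v.num * u.den) (u.den * v.den) := by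
    unfold qgr
    have hu : (u.den : ℂ) ≠ 0 := by exact_mod_cast u.den_nz
    have hv : (v.den : ℂ) ≠ 0 := by exact_mod_cast v.den_nz
    have hu2 : (u : ℂ) = (u.num : ℂ) / (u.den : ℂ) := Rat.cast_def u
    have hv2 : (v : ℂ) = (v.num : ℂ) / (v.den : ℂ) := Rat.cast_def v
    rw [hu2, hv2]
    push_cast
    field_simp
  rw [h] at hne ⊢
  refine vtrn_gr D _ _ _ hD ?_ ?_ hne
  · exact Nat.mul_pos u.den_pos v.den_pos
  · exact mul_pos (Rat.num_pos.2 hv) (by exact_mod_cast u.den_pos)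

end Pool.Agent.Lib.MP5e
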