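import Pool.Agent.Lib.MP_5e64e7_nt.VMain
import Pool.Agent.Lib.MP_5e64e7_nt.VTrn
import Pool.Agent.Lib.MP_5e64e7_nt.GTd

set_option autoImplicit false

/-!
# V.KEY : `m + 3 N + 1 - f₀` algebraically independent numbers (`gtd` of `GTd.lean` with one slot more; helper21)

The bases and the set `S` are chosen as in `gtd`. The slot is `j'(z_(κ l))`, `l ∉ S` (the representative of a class without good
special coordinate), or, if `S` is everything, `j'(M z_k)` for a good special coordinate `z_k`.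
-/

noncomputable section

namespace Pool.Agent.Lib.MP5e

open Polynomial Topology

private theorem vtd_alg {z : ℂ} (h : GQuad z) : IsAlgebraic ℚ z := by
  obtain ⟨a, b, c, ha, h⟩ := h
  refine ⟨C a * X ^ 2 + C b * X + C c, ?_, ?_⟩
  · intro h0
    have h1 := congrArg (fun p => Polynomial.coeff p 2) h0
    simp at h1
    exact ha h1
  · simpa using h

/-- the base of a class which contains a good constant point -/
private theorem vtd_base {m n : ℕ} (w : Fin m → ℝ) (hw : QHier w) (f : RF m)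
    (h : RGood f (fun l => (w l : ℂ))) (z : Fin n → ℂ) (k : Fin n)
    (hz : rz f (fun l => (w l : ℂ)) = z k) (hq : GQuad (z k))
    (hne : ¬ (deriv jf (z k) = 0 ∧ deriv (deriv jf) (z k) = 0)) :
    ∃ g : RF m, g.d = f.d ∧ RGood g (fun l => (w l : ℂ)) ∧
      deriv jf (rz g (fun l => (w l : ℂ))) ≠ 0 ∧
      (∀ᶠ x in 𝓝 (fun l => (w l : ℂ)), rz g x = rz g (fun l => (w l : ℂ))) ∧
      Transcendental ℚ (deriv jf (rz g (fun l => (w l : ℂ)))) ∧
      ∀ K : IntermediateField ℚ ℂ, QCl K → (∀ p, ggr z p ∈ K) →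
        deriv jf (rz g (fun l => (w l : ℂ))) ∈ K := by
  have hwi := rw_indep w hw
  have hc : ∀ᶠ x in 𝓝 (fun l => (w l : ℂ)), rz f x = rz f (fun l => (w l : ℂ)) := by
    apply gconst f w hwi h
    rw [hz]
    exact vtd_alg hq
  obtain ⟨D, hD, huv⟩ := gconD (ι := Unit) (fun _ => f) w (fun _ => h) (fun _ _ => rfl)
    (fun _ => hc)
  obtain ⟨u, v, hv, hzk⟩ := huv ()
  have hzk' : z k = (u : ℂ) + (v : ℂ) * qom D := hz.symm.trans hzk
  obtain ⟨c, hA, -, hC⟩ := gspl D hD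
  have him : 0 < (z k).im := by
    rw [← hz]
    exact h.2
  obtain ⟨M, hM, hMz⟩ := gmul_nz (z k) him
  have hgz : rz (gmul M f) (fun l => (w l : ℂ)) = (M : ℂ) * z k := by
    rw [gmul_rz, hz]
  refine ⟨gmul M f, rfl, gmul_good hM f _ h, ?_, ?_, ?_, ?_⟩
  · rw [hgz]
    exact hMz
  · filter_upwards [hc] with x hx
    rw [gmul_rz, gmul_rz, hx]
  · have hMv : (0 : ℚ) < (M : ℚ) * v := by
      have hM0 : (0 : ℚ) < (M : ℚ) := by exact_mod_cast hM
      exact mul_pos hM0 hv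
    have h5 : (((M : ℚ) * u : ℚ) : ℂ) + (((M : ℚ) * v : ℚ) : ℂ) * qom D = (M : ℂ) * z k := by
      rw [hzk']
      push_cast
      ring
    have h6 := vtrn D hD ((M : ℚ) * u) ((M : ℚ) * v) hMv (by rw [h5]; exact hMz)
    rw [h5] at h6
    rw [hgz]
    exact h6
  · intro K hK hp
    have h2 : deriv jf (z k) ∈ K := hp (2, k)
    have h3 : deriv (deriv jf) (z k) ∈ K := hp (3, k)
    rw [hzk'] at h2 h3 hne
    have hcK : c ∈ K := hC K hK u v hv hne h2 h3
    have hMv : (0 : ℚ) < (M : ℚ) * v := by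
      have hM0 : (0 : ℚ) < (M : ℚ) := by exact_mod_cast hM
      exact mul_pos hM0 hv
    have h4 := hA K hK hcK ((M : ℚ) * u) ((M : ℚ) * v) hMv 2
    have h5 : (((M : ℚ) * u : ℚ) : ℂ) + (((M : ℚ) * v : ℚ) : ℂ) * qom D = (M : ℂ) * z k := by
      rw [hzk']
      push_cast
      ring
    rw [h5] at h4
    rw [hgz]
    exact h4

theorem vkey {m n N F : ℕ} (w : Fin m → ℝ) (hw : QHier w) (f : Fin n → RF m)
    (h : ∀ k, RGood (f k) (fun l => (w l : ℂ))) (e : Fin n → Fin F)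
    (hd : ∀ k l, e k = e l → (f k).d = (f l).d) (z : Fin n → ℂ)
    (hz : ∀ k, rz (f k) (fun l => (w l : ℂ)) = z k)
    (κ : Fin N → Fin n) (hq : ∀ l, ¬ GQuad (z (κ l)))
    (hrel : ∀ l l', l ≠ l' → ¬ GRel (z (κ l)) (z (κ l')))
    (hper : 0 < N ∨ ∃ k, GQuad (z k) ∧ ¬ (deriv jf (z k) = 0 ∧ deriv (deriv jf) (z k) = 0)) :
    ∃ (ι : Type) (_ : Fintype ι) (y : ι → ℂ), AlgebraicIndependent ℚ y ∧
      m + 3 * N + 1 ≤ Fintype.card ι + Nat.card {i : Fin F // (∃ l, e (κ l) = i) ∧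
        ∀ k, e k = i → GQuad (z k) → deriv jf (z k) = 0 ∧ deriv (deriv jf) (z k) = 0} ∧
      ∀ K : IntermediateField ℚ ℂ, QCl K → (∀ l, (w l : ℂ) ∈ K) → (∀ p, ggr z p ∈ K) →
        ∀ i, y i ∈ K := by
  classical
  have hwi := rw_indep w hw
  -- good and bad classes
  obtain ⟨bad, hbad⟩ : ∃ bad : Fin F → Prop, bad = fun i => ∀ k, e k = i → GQuad (z k) →
    deriv jf (z k) = 0 ∧ deriv (deriv jf) (z k) = 0 := ⟨_, rfl⟩
  have hgood : ∀ i, ¬ bad i → ∃ g : RF m, (∀ k, e k = i → g.d = (f k).d) ∧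
      RGood g (fun l => (w l : ℂ)) ∧ deriv jf (rz g (fun l => (w l : ℂ))) ≠ 0 ∧
      (∀ᶠ x in 𝓝 (fun l => (w l : ℂ)), rz g x = rz g (fun l => (w l : ℂ))) ∧
      ∀ K : IntermediateField ℚ ℂ, QCl K → (∀ p, ggr z p ∈ K) →
        deriv jf (rz g (fun l => (w l : ℂ))) ∈ K := by
    intro i hi
    rw [hbad] at hi
    push Not at hi
    obtain ⟨k, hk1, hk2, hk3⟩ := hi
    obtain ⟨g, hg1, hg2, hg3, hg4, -, hg6⟩ := vtd_base w hw (f k) (h k) z k (hz k) hk2
      (fun h0 => hk3 h0.1 h0.2)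
    exact ⟨g, fun k' hk' => hg1.trans (hd k k' (hk1.trans hk'.symm)), hg2, hg3, hg4, hg6⟩
  -- representatives
  obtain ⟨rep, hrep⟩ : ∃ rep : {i : Fin F // ∃ l, e (κ l) = i} → Fin N,
      ∀ i, e (κ (rep i)) = i.1 := ⟨fun i => i.2.choose, fun i => i.2.choose_spec⟩
  obtain ⟨rp, hrp⟩ : ∃ rp : Fin N → Fin N, rp = fun l => rep ⟨e (κ l), l, rfl⟩ := ⟨_, rfl⟩
  have hrp1 : ∀ l, e (κ (rp l)) = e (κ l) := by
    intro l
    rw [hrp]
    exact hrep ⟨e (κ l), l, rfl⟩
  have hrp2 : ∀ l l', e (κ l) = e (κ l') → rp l = rp l' := by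
    intro l l' hll
    rw [hrp]
    exact congrArg rep (Subtype.ext hll)
  -- the bases
  have hbase : ∀ l, ∃ g : RF m, g.d = (f (κ l)).d ∧ RGood g (fun l => (w l : ℂ)) ∧
      deriv jf (rz g (fun l => (w l : ℂ))) ≠ 0 ∧
      (bad (e (κ l)) → g = f (κ (rp l))) ∧
      (¬ bad (e (κ l)) →
        ∀ᶠ x in 𝓝 (fun l => (w l : ℂ)), rz g x = rz g (fun l => (w l : ℂ))) ∧
      ∀ K : IntermediateField ℚ ℂ, QCl K → (∀ p, ggr z p ∈ K) →
        deriv jf (rz g (fun l => (w l : ℂ))) ∈ K := by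
    intro l
    by_cases hb : bad (e (κ l))
    · refine ⟨f (κ (rp l)), hd _ _ (hrp1 l), h _, ?_, fun _ => rfl, fun hn => absurd hb hn, ?_⟩
      · apply rnz (f (κ (rp l))) w hw (h _)
        apply gtrans (f (κ (rp l))) w hwi (h _)
        rw [hz]
        exact hq _
      · intro K hK hp
        rw [hz]
        exact hp (2, κ (rp l))
    · obtain ⟨g, hg1, hg2, hg3, hg4, hg5⟩ := hgood _ hb
      exact ⟨g, hg1 _ rfl, hg2, hg3, fun hb' => absurd hb' hb, fun _ => hg4, hg5⟩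
  choose g hg1 hg2 hg3 hg4 hg5 hg6 using hbase
  obtain ⟨S, hS⟩ : ∃ S : Finset (Fin N),
      S = Finset.univ.filter (fun l => ¬ (bad (e (κ l)) ∧ rp l = l)) := ⟨_, rfl⟩
  have hSm : ∀ l, l ∉ S ↔ bad (e (κ l)) ∧ rp l = l := by
    intro l
    rw [hS, Finset.mem_filter]
    constructor
    · intro hl
      by_contra hn
      exact hl ⟨Finset.mem_univ _, hn⟩
    · rintro hl ⟨-, hn⟩
      exact hn hl
  have hb : GBase (fun l => f (κ l)) g S (fun l => (w l : ℂ)) := by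
    refine ⟨hg1, hg2, hg3, ?_⟩
    intro l _
    by_cases hb : bad (e (κ l))
    · left
      refine ⟨rp l, ?_, hg4 l hb⟩
      rw [hSm, hrp1]
      exact ⟨hb, hrp2 _ _ (hrp1 l)⟩
    · right
      exact hg5 l hb
  -- the slot
  have hslot : ∃ g0 : RF m, VSlot (fun l => f (κ l)) S g0 (fun l => (w l : ℂ)) ∧
      ∀ K : IntermediateField ℚ ℂ, QCl K → (∀ p, ggr z p ∈ K) →
        deriv jf (rz g0 (fun l => (w l : ℂ))) ∈ K := by
    by_cases hex : ∃ l, l ∉ S
    · obtain ⟨l, hl⟩ := hex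
      refine ⟨f (κ l), ⟨h _, Or.inl ⟨l, hl, rfl⟩⟩, fun K _ hp => ?_⟩
      rw [hz]
      exact hp (2, κ l)
    · obtain ⟨k, hk1, hk2⟩ : ∃ k, GQuad (z k) ∧
          ¬ (deriv jf (z k) = 0 ∧ deriv (deriv jf) (z k) = 0) := by
        rcases hper with hN | hk
        · by_contra hcon
          apply hex
          refine ⟨rp ⟨0, hN⟩, ?_⟩
          rw [hSm]
          refine ⟨?_, hrp2 _ _ (hrp1 _)⟩
          rw [hbad]
          intro k _ hk2
          by_contra hk3
          exact hcon ⟨k, hk2, hk3⟩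
        · exact hk
      obtain ⟨g0, -, hg2, -, hg4, hg5, hg6⟩ := vtd_base w hw (f k) (h k) z k (hz k) hk1 hk2
      exact ⟨g0, ⟨hg2, Or.inr ⟨hg4, hg5⟩⟩, hg6⟩
  obtain ⟨g0, hg0, hg0K⟩ := hslot
  have hmain := vmain (fun l => f (κ l)) g S g0 w hw (fun l => h (κ l)) hb hg0
    (fun l => by
      apply rnz (f (κ l)) w hw (h _)
      apply gtrans (f (κ l)) w hwi (h _)
      rw [hz]
      exact hq _)
    (fun l => by
      apply gnonc (f (κ l)) w (h _)
      rw [hz]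
      exact hq _)
    (fun l l' hll => by
      show ¬ GRel (rz (f (κ l)) (fun l => (w l : ℂ))) (rz (f (κ l')) (fun l => (w l : ℂ)))
      rw [hz, hz]
      exact hrel l l' hll)
  refine ⟨_, inferInstance, vfam (fun l => f (κ l)) g S g0 (fun l => (w l : ℂ)), hmain, ?_, ?_⟩
  · have hcount : Nat.card {l : Fin N // l ∉ S} ≤
        Nat.card {i : Fin F // (∃ l, e (κ l) = i) ∧
          ∀ k, e k = i → GQuad (z k) → deriv jf (z k) = 0 ∧ deriv (deriv jf) (z k) = 0} := by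
      have hbi : ∀ i, bad i → ∀ k, e k = i → GQuad (z k) →
          deriv jf (z k) = 0 ∧ deriv (deriv jf) (z k) = 0 := by
        intro i hi
        rw [hbad] at hi
        exact hi
      refine Nat.card_le_card_of_injective (fun l : {l : Fin N // l ∉ S} =>
        (⟨e (κ l.1), ⟨l.1, rfl⟩, hbi _ ((hSm l.1).1 l.2).1⟩ : {i : Fin F // (∃ l, e (κ l) = i) ∧
          ∀ k, e k = i → GQuad (z k) →
            deriv jf (z k) = 0 ∧ deriv (deriv jf) (z k) = 0})) ?_
      intro l l' hll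
      have h3 : e (κ l.1) = e (κ l'.1) := congrArg Subtype.val hll
      apply Subtype.ext
      rw [← ((hSm l.1).1 l.2).2, ← ((hSm l'.1).1 l'.2).2]
      exact hrp2 _ _ h3
    have hcS : Nat.card {l : Fin N // l ∉ S} + S.card = N := by
      rw [Nat.card_eq_fintype_card, Fintype.card_subtype_compl (fun l => l ∈ S), Fintype.card_fin,
        Fintype.card_coe]
      have h4 : S.card ≤ N := by
        have h5 := Finset.card_le_univ S
        rwa [Fintype.card_fin] at h5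
      omega
    simp only [Fintype.card_option, Fintype.card_sum, Fintype.card_fin, Fintype.card_prod,
      Fintype.card_coe]
    omega
  · intro K hK hwK h1 i
    rcases i with _ | l | ⟨⟨k, a⟩ | k⟩
    · exact hg0K K hK h1
    · exact hwK l
    · fin_cases a
      · show jf (rz (f (κ k)) (fun l => (w l : ℂ))) ∈ K
        rw [hz]
        exact h1 (1, κ k)
      · change rkap (rz (f (κ k)) (fun l => (w l : ℂ))) (ry (f (κ k)) (fun l => (w l : ℂ))) ∈ K
        rw [hz]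
        unfold rkap
        exact div_mem (sub_mem (h1 (3, κ k)) (mul_mem (div_mem (qcl_I hK)
          (rz_mem (f (κ k)) _ K hK hwK).2) (h1 (2, κ k)))) (pow_mem (h1 (2, κ k)) 2)
    · show deriv jf (rz (f (κ k.1)) (fun l => (w l : ℂ))) /
        deriv jf (rz (g k.1) (fun l => (w l : ℂ))) ∈ K
      refine div_mem ?_ (hg6 k.1 K hK h1)
      rw [hz]
      exact h1 (2, κ k.1)

end Pool.Agent.Lib.MP5e
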