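import Pool.Agent.Lib.MP_5e64e7_nt.VFun
import Pool.Agent.Lib.MP_5e64e7_nt.UTra
import Pool.Agent.Lib.MP_5e64e7_nt.UFld
import Pool.Agent.Lib.MP_5e64e7_nt.ULow
import Pool.Agent.Lib.MP_5e64e7_nt.GMain

set_option autoImplicit false

/-!
# V.MAIN : the numbers `vfam f g S g0 w` are algebraically independent (`gmain` with one transcendental slot; helper21)

At a rational point `x` near `w` the numbers `gfam f g S x` are algebraic (`rfld`), and `j'(rz g0 x)` is a polynomial in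
`u = π ℓ(D)`, `D = rD g0.d a c` (`ufld`, `uval`). The lower bound is `ulow`, the transfer principle is `utransfer`, and the functional
part is `vfun`.
-/

noncomputable section

namespace Pool.Agent.Lib.MP5e

open Polynomial Topology

private def vapp {m n : ℕ} (f g : Fin n → RF m) : Fin (n + n) → RF m := Fin.append f g

private def vrep {n : ℕ} : Fin (n + n) → Fin (n + n) :=
  Fin.addCases (fun k => Fin.natAdd n k) (fun k => Fin.natAdd n k)

private theorem vrep_left {n : ℕ} (k : Fin n) : vrep (Fin.castAdd n k) = Fin.natAdd n k :=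
  Fin.addCases_left _

private theorem vrep_right {n : ℕ} (k : Fin n) :
    vrep (Fin.natAdd n k) = (Fin.natAdd n k : Fin (n + n)) :=
  Fin.addCases_right _

private theorem vapp_left {m n : ℕ} (f g : Fin n → RF m) (k : Fin n) :
    vapp f g (Fin.castAdd n k) = f k := Fin.append_left _ _ _

private theorem vapp_right {m n : ℕ} (f g : Fin n → RF m) (k : Fin n) :
    vapp f g (Fin.natAdd n k) = g k := Fin.append_right _ _ _

private theorem vrep_ne {n : ℕ} (k : Fin n) : vrep (Fin.castAdd n k) ≠ Fin.castAdd n k := by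
  rw [vrep_left]
  intro h
  have h1 := congrArg Fin.val h
  simp only [Fin.val_natAdd, Fin.val_castAdd] at h1
  have := k.2
  omega

private def vidx {m n : ℕ} (S : Finset (Fin n)) :
    Fin m ⊕ ((Fin n × Fin 2) ⊕ {k : Fin n // k ∈ S}) →
      Fin m ⊕ ((Fin (n + n) × Fin 2) ⊕ {k : Fin (n + n) // vrep k ≠ k})
  | Sum.inl l => Sum.inl l
  | Sum.inr (Sum.inl (k, a)) => Sum.inr (Sum.inl (Fin.castAdd n k, a))
  | Sum.inr (Sum.inr k) => Sum.inr (Sum.inr ⟨Fin.castAdd n k.1, vrep_ne k.1⟩)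

private theorem vfam_eq {m n : ℕ} (f g : Fin n → RF m) (S : Finset (Fin n)) (x : Fin m → ℂ)
    (i : Fin m ⊕ ((Fin n × Fin 2) ⊕ {k : Fin n // k ∈ S})) :
    gfam f g S x i = rfam (vapp f g) vrep x (vidx S i) := by
  rcases i with l | ⟨k, a⟩ | k
  · rfl
  · change _ = ![jf (rz (vapp f g (Fin.castAdd n k)) x),
      rkap (rz (vapp f g (Fin.castAdd n k)) x) (ry (vapp f g (Fin.castAdd n k)) x)] a
    rw [vapp_left]
    rfl
  · change _ = deriv jf (rz (vapp f g (Fin.castAdd n k.1)) x) /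
      deriv jf (rz (vapp f g (vrep (Fin.castAdd n k.1))) x)
    rw [vrep_left, vapp_left, vapp_right]
    rfl

private theorem vqcmd_mono {L : PeriodPair} {K K' : IntermediateField ℚ ℂ} {E E' lam : ℕ} {σ : ℂ}
    (hK : K ≤ K') (hE : E ≤ E') (h : QCMD L K E lam σ) : QCMD L K' E' lam σ := by
  obtain ⟨h1, h2, a, b, c, ha, hb, hc, h3, h4, h5⟩ := h
  have hER : (2 : ℝ) ^ E ≤ (2 : ℝ) ^ E' := pow_le_pow_right₀ (by norm_num) hE
  exact ⟨h1, h2.trans (Nat.pow_le_pow_right (by norm_num) hE), a, b, c, ha.mono hK hER,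
    hb.mono hK hER, hc.mono hK hER, h3, h4, h5⟩

private theorem vana {m : ℕ} {ι : Type} (wc : Fin m → ℂ) (v : (Fin m → ℂ) → ι → ℂ)
    (hv : ∀ i, AnalyticAt ℂ (fun x => v x i) wc) (P : MvPolynomial ι ℤ) :
    AnalyticAt ℂ (fun x => MvPolynomial.aeval (v x) P) wc := by
  induction P using MvPolynomial.induction_on with
  | C a =>
    simp only [MvPolynomial.aeval_C]
    exact analyticAt_const
  | add p q hp hq =>
    simp only [map_add]
    exact hp.add hq
  | mul_X p i hp =>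
    simp only [map_mul, MvPolynomial.aeval_X]
    exact hp.mul (hv i)

/-- the field and the data at a rational point -/
private theorem vdata {m n : ℕ} (f g : Fin n → RF m) (S : Finset (Fin n)) (g0 : RF m)
    (hgd : ∀ k, (g k).d = (f k).d) :
    ∃ C0 : ℕ, ∀ (B : ℕ) (a : Fin m → ℤ) (c : Fin m → ℕ), RHgt B a c →
      (∀ k, RGood (vapp f g k) (rpt a c)) → RGood g0 (rpt a c) →
      ∃ (K : IntermediateField ℚ ℂ) (L : PeriodPair) (lam : ℕ) (σ : ℂ), FiniteDimensional ℚ K ∧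
        Module.finrank ℚ K ≤ B ^ C0 ∧ (2 : ℝ)⁻¹ ≤ σ.im ∧ σ.im ≤ 2 ∧ QCMD L K (B ^ C0) lam σ ∧
        RAlg K (B ^ C0) (σ.im : ℂ) ∧
        ∀ i, ∃ al : Fin 3 → ℂ, (∀ d, RAlg K (B ^ C0) (al d)) ∧
          vfam f g S g0 (rpt a c) i = al 0 + al 1 * ((Real.pi : ℂ) * qell L) +
            al 2 * ((Real.pi : ℂ) * qell L) ^ 2 := by
  classical
  have hrep : RRep (vapp f g) vrep := by
    intro k
    refine Fin.addCases (fun k => ?_) (fun k => ?_) k
    · rw [vrep_left, vrep_right, vapp_left, vapp_right]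
      exact ⟨rfl, hgd k⟩
    · rw [vrep_right, vrep_right]
      exact ⟨rfl, rfl⟩
  obtain ⟨C3, hC3⟩ := rfld (vapp f g) vrep hrep
  obtain ⟨h0, hh0⟩ := rht g0
  obtain ⟨C2, hC2⟩ := ufld 1 1
  refine ⟨C3 + (h0 + 1) * C2 + 9, fun B a c hB hgood hg0 => ?_⟩
  have hB2 : 2 ≤ B := hB.1
  have hBpos : 0 < B := by omega
  obtain ⟨K1, k1, k2, k3⟩ := hC3 B a c hB hgood
  obtain ⟨d1, d2, c', x', y', d3, d4, d5, d6, d7, d8, d9⟩ := hh0 B a c hB hg0
  have hBh : B ^ h0 ≤ B ^ (h0 + 1) := Nat.pow_le_pow_right hBpos (Nat.le_succ _)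
  have hBhZ : (B : ℤ) ^ h0 ≤ (((B ^ (h0 + 1) : ℕ) : ℤ)) ^ 1 := by
    rw [pow_one]
    exact_mod_cast hBh
  have h2B : 2 ≤ B ^ (h0 + 1) := by
    calc 2 ≤ B ^ 1 := by rwa [pow_one]
      _ ≤ B ^ (h0 + 1) := Nat.pow_le_pow_right hBpos (by omega)
  obtain ⟨L, K2, lam0, e1, e2, e3, e4, e5, e6, e7⟩ := hC2 (B ^ (h0 + 1)) (rD g0.d a c)
    (fun _ => rz g0 (rpt a c)) h2B d1 (d2.trans hBh) (fun _ => ⟨c', x', y', d3,
      by rw [pow_one]; exact d4.trans hBh, d5.trans hBhZ, d6, d7.trans hBhZ, d8⟩)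
  obtain ⟨lam, q1, q2⟩ := e7 0
  obtain ⟨al, al1, al2⟩ := uval L hg0.2 q1 e3 q2 1
  obtain ⟨u1, u2⟩ := usig_im d1
  have hX : (B ^ (h0 + 1)) ^ C2 = B ^ ((h0 + 1) * C2) := by rw [← pow_mul]
  rw [hX] at e2 e5 e6 al1
  obtain ⟨C0, hC0⟩ : ∃ C0, C0 = C3 + (h0 + 1) * C2 + 9 := ⟨_, rfl⟩
  rw [← hC0]
  have hN1 : B ^ C3 ≤ B ^ C0 := Nat.pow_le_pow_right hBpos (by omega)
  have hN2 : B ^ ((h0 + 1) * C2) ≤ B ^ C0 := Nat.pow_le_pow_right hBpos (by omega)
  have hN3 : 200 * B ^ ((h0 + 1) * C2) + 200 ≤ B ^ C0 := by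
    have g1 : 1 ≤ B ^ ((h0 + 1) * C2) := Nat.one_le_pow _ _ hBpos
    have g2 : 512 ≤ B ^ 9 := by
      calc 512 = 2 ^ 9 := by norm_num
        _ ≤ B ^ 9 := Nat.pow_le_pow_left hB2 9
    calc 200 * B ^ ((h0 + 1) * C2) + 200 ≤ B ^ ((h0 + 1) * C2) * 512 := by omega
      _ ≤ B ^ ((h0 + 1) * C2) * B ^ 9 := Nat.mul_le_mul_left _ g2
      _ = B ^ ((h0 + 1) * C2 + 9) := (pow_add _ _ _).symm
      _ ≤ _ := Nat.pow_le_pow_right hBpos (by omega)
  refine ⟨K1 ⊔ K2, L, lam0, usig (rD g0.d a c), inferInstance, ?_, ?_, ?_,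
    vqcmd_mono le_sup_right hN2 e5, RAlg.mono' le_sup_right hN2 e6, ?_⟩
  · calc Module.finrank ℚ (K1 ⊔ K2 : IntermediateField ℚ ℂ) ≤
          Module.finrank ℚ K1 * Module.finrank ℚ K2 := IntermediateField.finrank_sup_le K1 K2
      _ ≤ B ^ C3 * B ^ ((h0 + 1) * C2) := Nat.mul_le_mul k2 e2
      _ = B ^ (C3 + (h0 + 1) * C2) := (pow_add _ _ _).symm
      _ ≤ _ := Nat.pow_le_pow_right hBpos (by omega)
  · norm_num at u1 ⊢
    exact u1
  · linarith
  · intro i
    rcases i with _ | i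
    · exact ⟨al, fun d => RAlg.mono' le_sup_right hN3 (al1 d), al2.1⟩
    · refine ⟨![gfam f g S (rpt a c) i, 0, 0], fun d => ?_, ?_⟩
      · have h1 : RAlg K1 (B ^ C3) (gfam f g S (rpt a c) i) := by
          rw [vfam_eq]
          exact k3 _
        fin_cases d
        · exact RAlg.mono' le_sup_left hN1 h1
        · exact RAlg.zero _ _
        · exact RAlg.zero _ _
      · simp [vfam]

theorem vmain {m n : ℕ} (f g : Fin n → RF m) (S : Finset (Fin n)) (g0 : RF m) (w : Fin m → ℝ)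
    (hw : QHier w) (h : ∀ k, RGood (f k) (fun l => (w l : ℂ)))
    (hb : GBase f g S (fun l => (w l : ℂ))) (h0 : VSlot f S g0 (fun l => (w l : ℂ)))
    (hj : ∀ k, deriv jf (rz (f k) (fun l => (w l : ℂ))) ≠ 0)
    (hnc : ∀ k, ¬ ∀ᶠ x in 𝓝 (fun l => (w l : ℂ)), rz (f k) x = rz (f k) (fun l => (w l : ℂ)))
    (hrel : ∀ k l, k ≠ l →
      ¬ GRel (rz (f k) (fun l => (w l : ℂ))) (rz (f l) (fun l => (w l : ℂ)))) :
    AlgebraicIndependent ℚ (vfam f g S g0 (fun l => (w l : ℂ))) := by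
  classical
  have hb' := hb
  obtain ⟨hgd, hgg, hgj, hgS⟩ := hb
  have hF : ∀ k, RGood (vapp f g k) (fun l => (w l : ℂ)) := by
    intro k
    refine Fin.addCases (fun k => ?_) (fun k => ?_) k
    · rw [vapp_left]; exact h k
    · rw [vapp_right]; exact hgg k
  have hFj : ∀ k, deriv jf (rz (vapp f g k) (fun l => (w l : ℂ))) ≠ 0 := by
    intro k
    refine Fin.addCases (fun k => ?_) (fun k => ?_) k
    · rw [vapp_left]; exact hj k
    · rw [vapp_right]; exact hgj k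
  obtain ⟨C0, hC0⟩ := vdata f g S g0 hgd
  have hU : {x : Fin m → ℂ | (∀ k, RGood (vapp f g k) x) ∧ RGood g0 x} ∈
      𝓝 (fun l => (w l : ℂ)) := by
    have h1 : ∀ᶠ x in 𝓝 (fun l => (w l : ℂ)), ∀ k, RGood (vapp f g k) x :=
      Filter.eventually_all.2 (fun k => rgood_nhds (vapp f g k) _ (hF k))
    exact h1.and (rgood_nhds g0 _ h0.1)
  have hint : AlgebraicIndependent ℤ (vfam f g S g0 (fun l => (w l : ℂ))) := by
    rw [algebraicIndependent_iff]
    intro P hP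
    refine vfun f g S g0 _ h hb' h0 hnc hrel P ?_
    obtain ⟨C1, hC1⟩ := ulow P C0 2 two_pos
    refine utransfer (fun l => (w l : ℂ)) (fun B x => ∃ a c, RHgt B a c ∧ x = rpt a c) ?_
      (fun x => MvPolynomial.aeval (vfam f g S g0 x) P) ?_ hP _ hU C1 ?_
    · intro C
      obtain ⟨B, a, c, hB2, hac, hfirst, hchain⟩ := hw C
      have hnorm : ∀ l, ‖(w l : ℂ) - rpt a c l‖ = |w l - (a l : ℝ) / (c l : ℝ)| := by
        intro l
        have h1 : (w l : ℂ) - rpt a c l = ((w l - (a l : ℝ) / (c l : ℝ) : ℝ) : ℂ) := by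
          simp only [rpt]
          push_cast
          rfl
        rw [h1, Complex.norm_real, Real.norm_eq_abs]
      refine ⟨B, rpt a c, hB2, ⟨a, c, ⟨hB2, fun l => ⟨(hac l).1, (hac l).2.1, (hac l).2.2.1⟩⟩,
        rfl⟩, ?_, ?_, ?_⟩
      · intro l hl
        have h1 := hnorm l
        rw [hl, sub_self, norm_zero] at h1
        have h2 := abs_eq_zero.mp h1.symm
        exact (hac l).2.2.2 (by linarith)
      · intro l hl
        rw [hnorm l]
        exact hfirst l hl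
      · intro l l' hll
        rw [hnorm l, hnorm l']
        exact hchain l l' hll
    · refine vana _ (fun x => vfam f g S g0 x) (fun i => ?_) P
      rcases i with _ | i
      · have h1 : AnalyticAt ℂ (fun u => J4 u 2) (rz g0 (fun l => (w l : ℂ))) :=
          J4_analyticAt h0.1.2 _
        exact h1.comp (rz_analytic g0 _ h0.1)
      · have h1 := rfam_analytic (vapp f g) vrep w hF hFj (vidx S i)
        simp only [← vfam_eq] at h1
        exact h1
    · rintro B x hB ⟨a, c, hac, rfl⟩ hx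
      obtain ⟨K, L, lam, σ, e1, e2, e3, e4, e5, e6, e7⟩ := hC0 B a c hac hx.1 hx.2
      exact hC1 B K _ L lam σ hB e1 e2 e3 e4 e5 e6 e7
  have : Algebra.IsAlgebraic ℤ ℚ :=
    ⟨fun x => (IsFractionRing.isAlgebraic_iff ℤ ℚ ℚ).mpr (isAlgebraic_algebraMap x)⟩
  exact hint.extendScalars ℚ

end Pool.Agent.Lib.MP5e
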