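import Pool.Agent.Lib.MP_5e64e7_nt.VKey
import Pool.Agent.Lib.MP_5e64e7_nt.QSpl

set_option autoImplicit false

/-!
# V.TD : transcendence degree, and the numbers of one field (helper21)
-/

noncomputable section

namespace Pool.Agent.Lib.MP5e

open Polynomial Topology

/-- `3 N + ρ + 1 - f₀` of the numbers `z_k, j(z_k), j'(z_k), j''(z_k)` are algebraically independent -/
theorem vtd {m n N ρ F : ℕ} (w : Fin m → ℝ) (hw : QHier w) (f : Fin n → RF m)
    (h : ∀ k, RGood (f k) (fun l => (w l : ℂ))) (e : Fin n → Fin F)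
    (hd : ∀ k l, e k = e l → (f k).d = (f l).d) (z : Fin n → ℂ)
    (hz : ∀ k, rz (f k) (fun l => (w l : ℂ)) = z k)
    (κ : Fin N → Fin n) (hq : ∀ l, ¬ GQuad (z (κ l)))
    (hrel : ∀ l l', l ≠ l' → ¬ GRel (z (κ l)) (z (κ l')))
    (hper : 0 < N ∨ ∃ k, GQuad (z k) ∧ ¬ (deriv jf (z k) = 0 ∧ deriv (deriv jf) (z k) = 0))
    (μ : Fin ρ → Fin n) (hμ : AlgebraicIndependent ℚ (fun i => z (μ i))) (d : ℕ)
    (hdd : d + Nat.card {i : Fin F // (∃ l, e (κ l) = i) ∧
      ∀ k, e k = i → GQuad (z k) → deriv jf (z k) = 0 ∧ deriv (deriv jf) (z k) = 0} ≤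
        3 * N + ρ + 1) :
    ∃ x : Fin d → ℂ, AlgebraicIndependent ℚ x ∧ ∀ t, ∃ p : Fin 4 × Fin n, x t = ggr z p := by
  classical
  have hwi := rw_indep w hw
  obtain ⟨ι, _, y, hy, hcard, hmem⟩ := vkey w hw f h e hd z hz κ hq hrel hper
  obtain ⟨T, hT, hcl⟩ := qexch (fun l => (w l : ℂ)) hwi (fun i => z (μ i)) hμ
    (fun K hK hx i => by
      have h1 := (rz_mem (f (μ i)) _ K hK hx).1
      rw [hz] at h1
      exact h1)
  refine rsub y (ggr z) (fun t : {l // l ∈ T} => (w t.1 : ℂ)) hy ?_ d ?_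
  · intro K hK h1 h2 i
    exact hmem K hK (hcl K hK (fun i => h1 (0, μ i)) (fun l hl => h2 ⟨l, hl⟩)) h1 i
  · rw [Fintype.card_coe]
    omega

/-- `m + 3 N + 1 - f₀` of the numbers `w_l, z_k, j(z_k), j'(z_k), j''(z_k)` are algebraically
independent -/
theorem vtdw {m n N F : ℕ} (w : Fin m → ℝ) (hw : QHier w) (f : Fin n → RF m)
    (h : ∀ k, RGood (f k) (fun l => (w l : ℂ))) (e : Fin n → Fin F)
    (hd : ∀ k l, e k = e l → (f k).d = (f l).d) (z : Fin n → ℂ)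
    (hz : ∀ k, rz (f k) (fun l => (w l : ℂ)) = z k)
    (κ : Fin N → Fin n) (hq : ∀ l, ¬ GQuad (z (κ l)))
    (hrel : ∀ l l', l ≠ l' → ¬ GRel (z (κ l)) (z (κ l')))
    (hper : 0 < N ∨ ∃ k, GQuad (z k) ∧ ¬ (deriv jf (z k) = 0 ∧ deriv (deriv jf) (z k) = 0))
    (d : ℕ) (hdd : d + Nat.card {i : Fin F // (∃ l, e (κ l) = i) ∧
      ∀ k, e k = i → GQuad (z k) → deriv jf (z k) = 0 ∧ deriv (deriv jf) (z k) = 0} ≤
        m + 3 * N + 1) :
    ∃ x : Fin d → ℂ, AlgebraicIndependent ℚ x ∧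
      ∀ t, ∃ p : Fin m ⊕ (Fin 4 × Fin n), x t = Sum.elim (fun l => (w l : ℂ)) (ggr z) p := by
  classical
  obtain ⟨ι, _, y, hy, hcard, hmem⟩ := vkey w hw f h e hd z hz κ hq hrel hper
  refine rsub y (Sum.elim (fun l => (w l : ℂ)) (ggr z)) (fun t : Fin 0 => t.elim0) hy ?_ d ?_
  · intro K hK h1 _ i
    exact hmem K hK (fun l => h1 (Sum.inl l)) (fun p => h1 (Sum.inr p)) i
  · rw [Fintype.card_fin]
    omega

/-- a family of `card ι` numbers which generates `card ι` independent numbers is independent -/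
theorem vexact {ι κ : Type} [Fintype ι] [Fintype κ] (y : ι → ℂ) (Y : κ → ℂ)
    (hy : AlgebraicIndependent ℚ y)
    (h : ∀ K : IntermediateField ℚ ℂ, QCl K → (∀ k, Y k ∈ K) → ∀ i, y i ∈ K)
    (hc : Fintype.card κ ≤ Fintype.card ι) : AlgebraicIndependent ℚ Y := by
  classical
  obtain ⟨s, hs1, hs2⟩ := qtrd y Y hy h
  have hsu : s = Finset.univ := by
    apply Finset.eq_univ_of_card
    exact le_antisymm (Finset.card_le_univ s) (hc.trans hs1)
  have h1 := hs2.comp (fun k : κ => (⟨k, by rw [hsu]; exact Finset.mem_univ _⟩ : {k // k ∈ s})) (by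
    intro i j hij
    exact congrArg Subtype.val hij)
  exact h1

/-- one of the numbers `j'(τ), j''(τ)`, if it is not `0`, generates `J(τ)` -/
theorem vspl (D : ℕ) (hD : 1 ≤ D) (u v : ℚ) (hv : 0 < v) (τ : ℂ)
    (hτ : τ = (u : ℂ) + (v : ℂ) * qom D) (T : ℂ) (hT0 : T ≠ 0)
    (hT : T = deriv jf τ ∨ T = deriv (deriv jf) τ) (K : IntermediateField ℚ ℂ) (hK : QCl K)
    (hTK : T ∈ K) (i : Fin 4) : J4 τ i ∈ K := by
  obtain ⟨L, F, R, hB⟩ := qbas D hD
  obtain ⟨P, hP⟩ : ∃ P : ℂ, P = 2 * (Real.pi : ℂ) * Complex.I * qell L := ⟨_, rfl⟩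
  have hP0 : P ≠ 0 := by
    rw [hP]
    exact mul_ne_zero (mul_ne_zero (mul_ne_zero two_ne_zero
      (Complex.ofReal_ne_zero.mpr Real.pi_ne_zero)) Complex.I_ne_zero) (qell_ne L)
  have q0 : jf τ ∈ K := qspl_alg D hD L F R hB K hK _ ⟨u, v, hv, hτ⟩ 0
  have q1 : deriv jf τ / P ∈ K := by
    have h1 := qspl_alg D hD L F R hB K hK _ ⟨u, v, hv, hτ⟩ 1
    rw [hP]
    exact h1
  have q2 : (deriv (deriv jf) τ - Complex.I / ((τ.im : ℝ) : ℂ) * deriv jf τ) / P ^ 2 ∈ K := by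
    have h1 := qspl_alg D hD L F R hB K hK _ ⟨u, v, hv, hτ⟩ 2
    rw [hP]
    exact h1
  have hI := qcl_I hK
  have hvK : (v : ℂ) ∈ K := by
    have := K.algebraMap_mem v
    simpa using this
  have huK : (u : ℂ) ∈ K := by
    have := K.algebraMap_mem u
    simpa using this
  have hτK : τ ∈ K := by
    rw [hτ]
    exact add_mem huK (mul_mem hvK (qcl_om hK D))
  have him : ((τ.im : ℝ) : ℂ) ∈ K := by
    have e1 : ((τ.im : ℝ) : ℂ) = (v : ℂ) * (qom D / Complex.I) := by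
      have e : τ.im = (v : ℝ) * (qom D).im := by
        rw [hτ, show (u : ℂ) = ((u : ℝ) : ℂ) by push_cast; rfl,
          show (v : ℂ) = ((v : ℝ) : ℂ) by push_cast; rfl]
        simp
      have e2 : qom D / Complex.I = ((qom D).im : ℂ) := by
        rw [qom_im]
        unfold qom
        rw [mul_div_cancel_right₀ _ Complex.I_ne_zero]
      rw [e, e2]
      push_cast
      rfl
    rw [e1]
    exact mul_mem hvK (div_mem (qcl_om hK D) hI)
  have hPK : P ∈ K := by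
    rcases hT with hT | hT
    · have h1 : P = T / (deriv jf τ / P) := by
        rw [hT] at hT0 ⊢
        field_simp
      rw [h1]
      exact div_mem hTK q1
    · apply hK
      obtain ⟨α, hα⟩ : ∃ α : K, (α : ℂ) =
        (deriv (deriv jf) τ - Complex.I / ((τ.im : ℝ) : ℂ) * deriv jf τ) / P ^ 2 := ⟨⟨_, q2⟩, rfl⟩
      obtain ⟨β, hβ⟩ : ∃ β : K, (β : ℂ) =
        Complex.I / ((τ.im : ℝ) : ℂ) * (deriv jf τ / P) := ⟨⟨_, mul_mem (div_mem hI him) q1⟩, rfl⟩
      obtain ⟨t, ht⟩ : ∃ t : K, (t : ℂ) = T := ⟨⟨_, hTK⟩, rfl⟩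
      refine ⟨C α * X ^ 2 + C β * X - C t, ?_, ?_⟩
      · intro h0
        have h1 := congrArg (fun p => Polynomial.coeff p 0) h0
        simp at h1
        apply hT0
        rw [← ht, h1]
        rfl
      · have h2 : Polynomial.aeval P (C α * X ^ 2 + C β * X - C t) =
            (α : ℂ) * P ^ 2 + (β : ℂ) * P - (t : ℂ) := by
          simp only [map_sub, map_add, map_mul, map_pow, Polynomial.aeval_C, Polynomial.aeval_X]
          rfl
        rw [h2, hα, hβ, ht, hT]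
        field_simp
        ring
  have d1 : deriv jf τ ∈ K := by
    have h := mul_mem q1 hPK
    rwa [div_mul_cancel₀ _ hP0] at h
  have d2 : deriv (deriv jf) τ ∈ K := by
    have h := add_mem (mul_mem q2 (pow_mem hPK 2)) (mul_mem (div_mem hI him) d1)
    rwa [div_mul_cancel₀ _ (pow_ne_zero 2 hP0), sub_add_cancel] at h
  fin_cases i
  · exact hτK
  · exact q0
  · exact d1
  · exact d2

end Pool.Agent.Lib.MP5e
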