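import Pool.Agent.Lib.MP_5e64e7_nt.Defs

set_option autoImplicit false

noncomputable section

namespace Pool.Agent.Lib.MP5e

open Polynomial Topology

private lemma zimp_const (κ : ℂ) (e : ℕ) (he : 1 ≤ e) (q : ℂ) (hq : q ≠ 0) (E : ℂ[X])
    (h : derivative E * (4 * X ^ 3 - 4 * X) + E * (6 * X ^ 2 - 2) =
      (e : ℂ[X]) * (X - C κ) * C q) : False := by
  have he' : (e : ℂ) ≠ 0 := by
    have : e ≠ 0 := by omega
    exact_mod_cast this
  rcases eq_or_ne E 0 with rfl | hE
  · simp only [derivative_zero, zero_mul, add_zero] at h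
    have h1 := congrArg (fun f : ℂ[X] => f.coeff 1) h
    have e1 : ((e : ℂ[X]) * (X - C κ) * C q).coeff 1 = e * q := by
      rw [coeff_mul_C, ← C_eq_natCast, coeff_C_mul, coeff_sub, coeff_X_one, coeff_C]
      simp
    simp only [coeff_zero, e1] at h1
    exact (mul_ne_zero he' hq) h1.symm
  · set k := E.natDegree with hk
    have h1 := congrArg (fun f : ℂ[X] => f.coeff (k + 2)) h
    have e1 : ((e : ℂ[X]) * (X - C κ) * C q).coeff (k + 2) = 0 := by
      rw [coeff_mul_C, ← C_eq_natCast, coeff_C_mul, coeff_sub, coeff_X, coeff_C]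
      simp
    have e2 : (derivative E * (4 * X ^ 3 - 4 * X) + E * (6 * X ^ 2 - 2)).coeff (k + 2) =
        (4 * k + 6) * E.coeff k := by
      have r1 : derivative E * (4 * X ^ 3 - 4 * X) + E * (6 * X ^ 2 - 2) =
          C 4 * (derivative E * X ^ 3) - C 4 * (derivative E * X) + C 6 * (E * X ^ 2) -
            C 2 * E := by
        simp only [map_ofNat]
        ring
      have z1 : (derivative E).coeff (k + 1) = 0 := by
        rw [coeff_derivative, coeff_eq_zero_of_natDegree_lt (by omega), zero_mul]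
      have z2 : E.coeff (k + 2) = 0 := coeff_eq_zero_of_natDegree_lt (by omega)
      have z3 : (derivative E * X ^ 3).coeff (k + 2) = k * E.coeff k := by
        rw [coeff_mul_X_pow']
        rcases Nat.eq_zero_or_pos k with h0 | h0
        · rw [if_neg (by omega), h0]
          simp
        · rw [if_pos (by omega), coeff_derivative]
          have : k + 2 - 3 + 1 = k := by omega
          rw [this]
          have hc : ((k + 2 - 3 : ℕ) : ℂ) + 1 = k := by exact_mod_cast this
          rw [hc, mul_comm]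
      rw [r1, coeff_sub, coeff_add, coeff_sub, coeff_C_mul, coeff_C_mul, coeff_C_mul, coeff_C_mul,
        z3, coeff_mul_X, z1, coeff_mul_X_pow, z2]
      ring
    simp only [e1, e2] at h1
    have h2 : E.coeff k ≠ 0 := by
      rw [hk]
      exact leadingCoeff_ne_zero.2 hE
    have h3 : (4 * (k : ℂ) + 6) ≠ 0 := by
      have : ((4 * k + 6 : ℕ) : ℂ) ≠ 0 := Nat.cast_ne_zero.2 (by omega)
      push_cast at this
      exact this
    exact (mul_ne_zero h3 h2) h1

private lemma zimp_cop (κ : ℂ) (e : ℕ) (he : 1 ≤ e) (Q E : ℂ[X]) (hQ : Q ≠ 0)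
    (hc : IsCoprime Q E)
    (h : (Q * derivative E - E * derivative Q) * (4 * X ^ 3 - 4 * X) + Q * E * (6 * X ^ 2 - 2) =
      (e : ℂ[X]) * (X - C κ) * Q ^ 2) : False := by
  rcases Nat.eq_zero_or_pos Q.natDegree with h0 | h0
  · obtain ⟨q, rfl⟩ : ∃ q, Q = C q := ⟨Q.coeff 0, eq_C_of_natDegree_eq_zero h0⟩
    have hq : q ≠ 0 := fun hq0 => hQ (by rw [hq0, C_0])
    refine zimp_const κ e he q hq E ?_
    have hCq : (C q : ℂ[X]) ≠ 0 := hQ
    apply mul_left_cancel₀ hCq
    rw [derivative_C, mul_zero, sub_zero] at h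
    linear_combination h
  · obtain ⟨α, hα⟩ := Complex.exists_root (f := Q) (natDegree_pos_iff_degree_pos.1 h0)
    have hEα : E.eval α ≠ 0 := by
      intro hE0
      obtain ⟨u, v, huv⟩ := hc
      have := congrArg (eval α) huv
      rw [eval_add, eval_mul, eval_mul, hE0, hα.eq_zero, mul_zero, mul_zero, add_zero,
        eval_one] at this
      exact zero_ne_one this
    obtain ⟨Q2, hQ2, hnd⟩ := exists_eq_pow_rootMultiplicity_mul_and_not_dvd Q hQ α
    set m := rootMultiplicity α Q with hm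
    have hm1 : 1 ≤ m := (rootMultiplicity_pos hQ).2 hα
    have hQ2α : Q2.eval α ≠ 0 := fun h00 => hnd (dvd_iff_isRoot.2 h00)
    obtain ⟨r, hr⟩ : ∃ r, m = r + 1 := ⟨m - 1, by omega⟩
    have hX : (X - C α : ℂ[X]) ≠ 0 := X_sub_C_ne_zero α
    have hQ' : derivative Q = (X - C α) ^ r * (C (m : ℂ) * Q2 + (X - C α) * derivative Q2) := by
      rw [hQ2, hr, derivative_mul, derivative_X_sub_C_pow]
      push_cast
      ring
    have step1 : (X - C α) * Q2 * (derivative E * (4 * X ^ 3 - 4 * X) + E * (6 * X ^ 2 - 2) -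
        (e : ℂ[X]) * (X - C κ) * Q) =
        E * (4 * X ^ 3 - 4 * X) * (C (m : ℂ) * Q2 + (X - C α) * derivative Q2) := by
      apply mul_left_cancel₀ (pow_ne_zero r hX)
      have e1 : (X - C α) ^ r * ((X - C α) * Q2 *
          (derivative E * (4 * X ^ 3 - 4 * X) + E * (6 * X ^ 2 - 2) -
          (e : ℂ[X]) * (X - C κ) * Q)) =
          Q * (derivative E * (4 * X ^ 3 - 4 * X) + E * (6 * X ^ 2 - 2) -
          (e : ℂ[X]) * (X - C κ) * Q) := by
        have : Q = (X - C α) ^ r * (X - C α) * Q2 := by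
          rw [← pow_succ, ← hr]
          exact hQ2
        calc _ = ((X - C α) ^ r * (X - C α) * Q2) *
              (derivative E * (4 * X ^ 3 - 4 * X) + E * (6 * X ^ 2 - 2) -
              (e : ℂ[X]) * (X - C κ) * Q) := by ring
          _ = _ := by rw [← this]
      rw [e1]
      have e2 : (X - C α) ^ r * (E * (4 * X ^ 3 - 4 * X) *
          (C (m : ℂ) * Q2 + (X - C α) * derivative Q2)) =
          E * derivative Q * (4 * X ^ 3 - 4 * X) := by
        rw [hQ']
        ring
      rw [e2]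
      linear_combination h
    have hmne : (m : ℂ) ≠ 0 := by
      have : m ≠ 0 := by omega
      exact_mod_cast this
    have hcα : 4 * α ^ 3 - 4 * α = 0 := by
      have h2 := congrArg (eval α) step1
      simp only [eval_mul, eval_sub, eval_add, eval_X, eval_C, sub_self, zero_mul, eval_pow,
        eval_ofNat, add_zero] at h2
      have h3 : E.eval α * (4 * α ^ 3 - 4 * α) * ((m : ℂ) * Q2.eval α) = 0 := h2.symm
      rcases mul_eq_zero.1 h3 with h4 | h4
      · rcases mul_eq_zero.1 h4 with h5 | h5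
        · exact absurd h5 hEα
        · exact h5
      · exact absurd h4 (mul_ne_zero hmne hQ2α)
    have hcf : (4 * X ^ 3 - 4 * X : ℂ[X]) =
        (X - C α) * (4 * (X ^ 2 + C α * X + C (α ^ 2)) - 4) := by
      have h2 : (C (4 * α ^ 3 - 4 * α) : ℂ[X]) = 0 := by rw [hcα, C_0]
      simp only [map_sub, map_mul, map_pow, map_ofNat] at h2 ⊢
      linear_combination h2
    have step2 : Q2 * (derivative E * (4 * X ^ 3 - 4 * X) + E * (6 * X ^ 2 - 2) -
        (e : ℂ[X]) * (X - C κ) * Q) =
        E * (4 * (X ^ 2 + C α * X + C (α ^ 2)) - 4) *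
          (C (m : ℂ) * Q2 + (X - C α) * derivative Q2) := by
      apply mul_left_cancel₀ hX
      have e3 : (X - C α) * (E * (4 * (X ^ 2 + C α * X + C (α ^ 2)) - 4) *
          (C (m : ℂ) * Q2 + (X - C α) * derivative Q2)) =
          E * (4 * X ^ 3 - 4 * X) * (C (m : ℂ) * Q2 + (X - C α) * derivative Q2) := by
        rw [hcf]
        ring
      rw [e3, ← step1]
      ring
    have h2 := congrArg (eval α) step2
    simp only [eval_mul, eval_sub, eval_add, eval_X, eval_C, sub_self, zero_mul, eval_pow,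
      eval_ofNat, add_zero, hα.eq_zero, mul_zero, sub_zero, hcα, zero_add] at h2
    have h3 : (E.eval α * Q2.eval α) * ((6 * α ^ 2 - 2) * (1 - 2 * m)) = 0 := by
      linear_combination h2
    rcases mul_eq_zero.1 h3 with h4 | h4
    · exact (mul_ne_zero hEα hQ2α) h4
    · rcases mul_eq_zero.1 h4 with h5 | h5
      · have h6 : α * (α ^ 2 - 1) = 0 := by linear_combination hcα / 4
        rcases mul_eq_zero.1 h6 with h7 | h7
        · rw [h7] at h5
          norm_num at h5
        · have h8 : (4 : ℂ) = 0 := by linear_combination h5 - 6 * h7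
          norm_num at h8
      · have h6 : (2 * (m : ℂ)) = 1 := by linear_combination -h5
        have h7 : 2 * m = 1 := by exact_mod_cast h6
        omega

theorem zimp (κ : ℂ) (e : ℕ) (he : 1 ≤ e) (Q E : ℂ[X]) (hQ : Q ≠ 0) :
    (Q * derivative E - E * derivative Q) * (4 * X ^ 3 - 4 * X) + Q * E * (6 * X ^ 2 - 2) ≠
      (e : ℂ[X]) * (X - C κ) * Q ^ 2 := by
  intro h
  obtain ⟨g, Q1, E1, hg, hcop, hQ1, hE1⟩ : ∃ g Q1 E1 : ℂ[X], g ≠ 0 ∧ IsCoprime Q1 E1 ∧
      Q = g * Q1 ∧ E = g * E1 := by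
    have hgne : EuclideanDomain.gcd Q E ≠ 0 := fun h0 => hQ (EuclideanDomain.gcd_eq_zero_iff.1 h0).1
    obtain ⟨Q1, hQ1⟩ := EuclideanDomain.gcd_dvd_left Q E
    obtain ⟨E1, hE1⟩ := EuclideanDomain.gcd_dvd_right Q E
    refine ⟨EuclideanDomain.gcd Q E, Q1, E1, hgne, ?_, hQ1, hE1⟩
    have h1 := EuclideanDomain.gcd_eq_gcd_ab Q E
    refine ⟨EuclideanDomain.gcdA Q E, EuclideanDomain.gcdB Q E, ?_⟩
    apply mul_left_cancel₀ hgne
    rw [mul_one]
    calc _ = (EuclideanDomain.gcd Q E * Q1) * EuclideanDomain.gcdA Q E +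
          (EuclideanDomain.gcd Q E * E1) * EuclideanDomain.gcdB Q E := by ring
      _ = Q * EuclideanDomain.gcdA Q E + E * EuclideanDomain.gcdB Q E := by rw [← hQ1, ← hE1]
      _ = _ := h1.symm
  have hQ1ne : Q1 ≠ 0 := fun h0 => hQ (by rw [hQ1, h0, mul_zero])
  refine zimp_cop κ e he Q1 E1 hQ1ne hcop ?_
  apply mul_left_cancel₀ (pow_ne_zero 2 hg)
  rw [hQ1, hE1, derivative_mul, derivative_mul] at h
  linear_combination h

end Pool.Agent.Lib.MP5e
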