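import Pool.Agent.Lib.MP_5e64e7_nt.Zps

set_option autoImplicit false

noncomputable section

namespace Pool.Agent.Lib.MP5e

open Polynomial Topology

private lemma zwtB_order_lin (κ α : ℂ) :
    (Phi κ 1 0 0 - PowerSeries.C α).order ≤ ((2 : ℕ) : ℕ∞) := by
  by_cases h : α = -1
  · refine PowerSeries.order_le 2 ?_
    have h1 := PowerSeries.coeff_derivative (R := ℂ) (Phi κ 1 0 0) 1
    have h2 := PowerSeries.coeff_derivative (R := ℂ) (Phi κ 0 1 0) 0
    rw [dX] at h1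
    rw [dY] at h2
    have h3 : PowerSeries.coeff 0 (6 * Phi κ 1 0 0 ^ 2 - 2 : PowerSeries ℂ) = 4 := by
      rw [PowerSeries.coeff_zero_eq_constantCoeff_apply, map_sub, map_mul, map_pow, X_const,
        map_ofNat, map_ofNat]
      norm_num
    rw [h3] at h2
    rw [map_sub, PowerSeries.coeff_C]
    intro h4
    norm_num at h4 h1 h2
    rw [h4] at h1
    rw [h1] at h2
    norm_num at h2
  · refine (PowerSeries.order_le 0 ?_).trans (by norm_num)
    rw [PowerSeries.coeff_zero_eq_constantCoeff_apply, map_sub, X_const,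
      PowerSeries.constantCoeff_C]
    intro h4
    exact h (by linear_combination -h4)

private lemma zwtB_aux (κ : ℂ) (n : ℕ) : ∀ A : ℂ[X], A ≠ 0 → A.natDegree = n →
    (aeval (Phi κ 1 0 0) A : PowerSeries ℂ).order ≤ ((2 * n : ℕ) : ℕ∞) := by
  induction n with
  | zero =>
    intro A hA hn
    rw [natDegree_eq_zero] at hn
    obtain ⟨a, rfl⟩ := hn
    have ha : a ≠ 0 := fun h => hA (by rw [h, C_0])
    refine PowerSeries.order_le 0 ?_
    rw [aeval_C]
    show PowerSeries.coeff 0 (PowerSeries.C a) ≠ 0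
    rw [PowerSeries.coeff_zero_C]
    exact ha
  | succ n ih =>
    intro A hA hn
    have hdeg : A.degree ≠ 0 := by
      intro h
      rw [degree_eq_natDegree hA, hn] at h
      norm_cast at h
    obtain ⟨α, hα⟩ := IsAlgClosed.exists_root A hdeg
    obtain ⟨B, rfl⟩ := dvd_iff_isRoot.2 hα
    have hB : B ≠ 0 := right_ne_zero_of_mul hA
    have hnB : B.natDegree = n := by
      rw [natDegree_mul (X_sub_C_ne_zero α) hB, natDegree_X_sub_C] at hn
      omega
    have h1 := ih B hB hnB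
    rw [map_mul, PowerSeries.order_mul, map_sub, aeval_X, aeval_C]
    have h2 := zwtB_order_lin κ α
    have h3 : ((2 * (n + 1) : ℕ) : ℕ∞) = ((2 : ℕ) : ℕ∞) + ((2 * n : ℕ) : ℕ∞) := by
      rw [← Nat.cast_add]
      congr 1
      ring
    rw [h3]
    exact add_le_add h2 h1

theorem order_aeval_X (κ : ℂ) (A : ℂ[X]) (hA : A ≠ 0) :
    (aeval (Phi κ 1 0 0) A : PowerSeries ℂ).order ≤ ((2 * A.natDegree : ℕ) : ℕ∞) :=
  zwtB_aux κ _ A hA rfl

theorem aeval_X_injective (κ : ℂ) (A : ℂ[X]) (h : aeval (Phi κ 1 0 0) A = 0) : A = 0 := by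
  by_contra hA
  have h1 := order_aeval_X κ A hA
  rw [h, PowerSeries.order_zero, top_le_iff] at h1
  exact absurd h1 (ENat.natCast_ne_top _)

private lemma zwtB_c : (4 * X ^ 3 - 4 * X : ℂ[X]).natDegree = 3 := by
  have : (4 * X ^ 3 - 4 * X : ℂ[X]) = C 4 * X ^ 3 + C 0 * X ^ 2 + C (-4) * X + C 0 := by
    rw [C_neg, map_ofNat, C_0]; ring
  rw [this]
  exact natDegree_cubic (by norm_num)

private lemma zwtB_aeval_c (κ : ℂ) : aeval (Phi κ 1 0 0) (4 * X ^ 3 - 4 * X : ℂ[X]) =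
    Phi κ 0 1 0 ^ 2 := by
  rw [Y_sq]
  simp only [map_sub, map_mul, map_pow, aeval_X, map_ofNat]

private lemma zwtB_parity {A B : ℂ[X]} (h : A ^ 2 = B ^ 2 * (4 * X ^ 3 - 4 * X)) :
    A = 0 ∧ B = 0 := by
  have hc : (4 * X ^ 3 - 4 * X : ℂ[X]) ≠ 0 := by
    intro h0
    have := zwtB_c
    rw [h0, natDegree_zero] at this
    norm_num at this
  by_cases hB : B = 0
  · rw [hB] at h
    refine ⟨?_, hB⟩
    have h1 : A ^ 2 = 0 := by rw [h]; ring
    exact pow_eq_zero_iff (two_ne_zero) |>.1 h1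
  · exfalso
    have h1 := congrArg natDegree h
    rw [natDegree_pow, natDegree_mul (pow_ne_zero 2 hB) hc, natDegree_pow, zwtB_c] at h1
    omega

/-- uniqueness of the representation -/
theorem Wt_unique (κ : ℂ) (A B : ℂ[X])
    (h : aeval (Phi κ 1 0 0) A + aeval (Phi κ 1 0 0) B * Phi κ 0 1 0 = 0) : A = 0 ∧ B = 0 := by
  apply zwtB_parity
  have h1 : aeval (Phi κ 1 0 0) (A ^ 2 - B ^ 2 * (4 * X ^ 3 - 4 * X)) = 0 := by
    rw [map_sub, map_mul, map_pow, map_pow, zwtB_aeval_c]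
    have h2 : aeval (Phi κ 1 0 0) A = - (aeval (Phi κ 1 0 0) B * Phi κ 0 1 0) := by
      linear_combination h
    rw [h2]
    ring
  have h2 := aeval_X_injective κ _ h1
  exact sub_eq_zero.1 h2

theorem Wt.order_le {κ : ℂ} {w : ℕ} {f : PowerSeries ℂ} (hf : Wt κ w f) (h0 : f ≠ 0) :
    f.order ≤ ((2 * w : ℕ) : ℕ∞) := by
  obtain ⟨A, B, h1, h2, h3⟩ := hf
  set Q : ℂ[X] := A ^ 2 - B ^ 2 * (4 * X ^ 3 - 4 * X) with hQ
  have hQ0 : Q ≠ 0 := by
    intro h
    obtain ⟨hA, hB⟩ := zwtB_parity (sub_eq_zero.1 h)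
    apply h0
    rw [h3, hA, hB]
    simp
  have hQe : aeval (Phi κ 1 0 0) Q =
      f * (aeval (Phi κ 1 0 0) A - aeval (Phi κ 1 0 0) B * Phi κ 0 1 0) := by
    rw [hQ, h3, map_sub, map_mul, map_pow, map_pow, zwtB_aeval_c]
    ring
  have h4 := order_aeval_X κ Q hQ0
  rw [hQe, PowerSeries.order_mul] at h4
  have h5 : f.order ≤ ((2 * Q.natDegree : ℕ) : ℕ∞) := le_self_add.trans h4
  refine h5.trans ?_
  have h6 : Q.natDegree ≤ w := by
    have e1 := natDegree_sub_le (A ^ 2) (B ^ 2 * (4 * X ^ 3 - 4 * X))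
    have e2 := natDegree_pow_le (p := A) (n := 2)
    rw [← hQ] at e1
    rcases h2 with h2 | h2
    · rw [h2] at e1
      have e3 : ((0 : ℂ[X]) ^ 2 * (4 * X ^ 3 - 4 * X)).natDegree = 0 := by
        have : ((0 : ℂ[X]) ^ 2 * (4 * X ^ 3 - 4 * X)) = 0 := by ring
        rw [this, natDegree_zero]
      rw [e3] at e1
      omega
    · have e3 := natDegree_mul_le (p := B ^ 2) (q := (4 * X ^ 3 - 4 * X : ℂ[X]))
      have e4 := natDegree_pow_le (p := B) (n := 2)
      rw [zwtB_c] at e3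
      omega
  exact_mod_cast (by omega : 2 * Q.natDegree ≤ 2 * w)

end Pool.Agent.Lib.MP5e
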