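import Pool.Agent.Lib.MP_5e64e7_nt.Defs

set_option autoImplicit false

noncomputable section

namespace Pool.Agent.Lib.MP5e

open Polynomial Topology

theorem zps_coeff (κ : ℂ) (i e j t : ℕ) :
    PowerSeries.coeff t (Phi κ i e j) = aeval κ (cc t i e j) / (t.factorial : ℂ) := by
  unfold Phi
  rw [PowerSeries.coeff_mk]

/-- the derivation on the formal monomials -/
theorem zps_d (κ : ℂ) (i e j : ℕ) :
    PowerSeries.derivative ℂ (Phi κ i e j) =
      PowerSeries.C (i : ℂ) * Phi κ (i - 1) (e + 1) j +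
      PowerSeries.C (e : ℂ) * (PowerSeries.C 6 * Phi κ (i + 2) (e - 1) j -
        PowerSeries.C 2 * Phi κ i (e - 1) j) +
      PowerSeries.C (j : ℂ) * (PowerSeries.C κ * Phi κ i e (j - 1) -
        Phi κ (i + 1) e (j - 1)) := by
  ext t
  rw [PowerSeries.coeff_derivative]
  simp only [map_add, map_sub, PowerSeries.coeff_C_mul, zps_coeff]
  have h1 : cc (t + 1) i e j = (i : ℤ[X]) * cc t (i - 1) (e + 1) j +
      (e : ℤ[X]) * (6 * cc t (i + 2) (e - 1) j - 2 * cc t i (e - 1) j) +
      (j : ℤ[X]) * (X * cc t i e (j - 1) - cc t (i + 1) e (j - 1)) := by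
    rw [cc]
  rw [h1]
  simp only [map_add, map_sub, map_mul, map_natCast, aeval_X, map_ofNat]
  have h2 : ((t + 1).factorial : ℂ) = ((t : ℂ) + 1) * (t.factorial : ℂ) := by
    rw [Nat.factorial_succ]
    push_cast
    ring
  rw [h2]
  have h3 : (t.factorial : ℂ) ≠ 0 := by exact_mod_cast t.factorial_ne_zero
  have h4 : ((t : ℂ) + 1) ≠ 0 := by exact_mod_cast Nat.succ_ne_zero t
  field_simp

theorem zps_coeff_zero (κ : ℂ) (i e j : ℕ) :
    PowerSeries.coeff 0 (Phi κ i e j) = (-1) ^ i * 0 ^ e * 0 ^ j := by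
  rw [zps_coeff]
  have h1 : cc 0 i e j = (-1) ^ i * 0 ^ e * 0 ^ j := by rw [cc]
  rw [h1]
  simp

theorem Phi_mul (κ : ℂ) (i e j i' e' j' : ℕ) :
    Phi κ i e j * Phi κ i' e' j' = Phi κ (i + i') (e + e') (j + j') := by
  have key : ∀ n : ℕ, ∀ i e j i' e' j' : ℕ,
      PowerSeries.coeff n (Phi κ i e j * Phi κ i' e' j') =
        PowerSeries.coeff n (Phi κ (i + i') (e + e') (j + j')) := by
    intro n
    induction n with
    | zero =>
      intro i e j i' e' j'
      rw [PowerSeries.coeff_zero_eq_constantCoeff_apply, map_mul,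
        ← PowerSeries.coeff_zero_eq_constantCoeff_apply,
        ← PowerSeries.coeff_zero_eq_constantCoeff_apply, zps_coeff_zero, zps_coeff_zero,
        zps_coeff_zero, pow_add, pow_add, pow_add]
      ring
    | succ n ih =>
      intro i e j i' e' j'
      have hn : ((n : ℂ) + 1) ≠ 0 := by exact_mod_cast Nat.succ_ne_zero n
      have h1 := PowerSeries.coeff_derivative (R := ℂ) (Phi κ i e j * Phi κ i' e' j') n
      have h2 := PowerSeries.coeff_derivative (R := ℂ) (Phi κ (i + i') (e + e') (j + j')) n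
      have h3 : PowerSeries.coeff n (PowerSeries.derivative ℂ (Phi κ i e j * Phi κ i' e' j')) =
          PowerSeries.coeff n
            (PowerSeries.derivative ℂ (Phi κ (i + i') (e + e') (j + j'))) := by
        rw [Derivation.leibniz, smul_eq_mul, smul_eq_mul, zps_d, zps_d, zps_d]
        have e1 : Phi κ i e j * (PowerSeries.C (i' : ℂ) * Phi κ (i' - 1) (e' + 1) j' +
              PowerSeries.C (e' : ℂ) * (PowerSeries.C 6 * Phi κ (i' + 2) (e' - 1) j' -
                PowerSeries.C 2 * Phi κ i' (e' - 1) j') +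
              PowerSeries.C (j' : ℂ) * (PowerSeries.C κ * Phi κ i' e' (j' - 1) -
                Phi κ (i' + 1) e' (j' - 1))) +
            Phi κ i' e' j' * (PowerSeries.C (i : ℂ) * Phi κ (i - 1) (e + 1) j +
              PowerSeries.C (e : ℂ) * (PowerSeries.C 6 * Phi κ (i + 2) (e - 1) j -
                PowerSeries.C 2 * Phi κ i (e - 1) j) +
              PowerSeries.C (j : ℂ) * (PowerSeries.C κ * Phi κ i e (j - 1) -
                Phi κ (i + 1) e (j - 1))) =
            PowerSeries.C (i' : ℂ) * (Phi κ i e j * Phi κ (i' - 1) (e' + 1) j') +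
            PowerSeries.C (e' : ℂ) * (PowerSeries.C 6 * (Phi κ i e j * Phi κ (i' + 2) (e' - 1) j') -
                PowerSeries.C 2 * (Phi κ i e j * Phi κ i' (e' - 1) j')) +
            PowerSeries.C (j' : ℂ) * (PowerSeries.C κ * (Phi κ i e j * Phi κ i' e' (j' - 1)) -
                Phi κ i e j * Phi κ (i' + 1) e' (j' - 1)) +
            (PowerSeries.C (i : ℂ) * (Phi κ i' e' j' * Phi κ (i - 1) (e + 1) j) +
              PowerSeries.C (e : ℂ) * (PowerSeries.C 6 * (Phi κ i' e' j' * Phi κ (i + 2) (e - 1) j) -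
                PowerSeries.C 2 * (Phi κ i' e' j' * Phi κ i (e - 1) j)) +
              PowerSeries.C (j : ℂ) * (PowerSeries.C κ * (Phi κ i' e' j' * Phi κ i e (j - 1)) -
                Phi κ i' e' j' * Phi κ (i + 1) e (j - 1))) := by ring
        rw [e1]
        simp only [map_add, map_sub, PowerSeries.coeff_C_mul, ih]
        have a1 : (i' : ℂ) * PowerSeries.coeff n (Phi κ (i + (i' - 1)) (e + (e' + 1)) (j + j')) =
            (i' : ℂ) * PowerSeries.coeff n (Phi κ (i + i' - 1) (e + e' + 1) (j + j')) := by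
          rcases Nat.eq_zero_or_pos i' with h | h
          · rw [h, Nat.cast_zero, zero_mul, zero_mul]
          · rw [show i + (i' - 1) = i + i' - 1 by omega, show e + (e' + 1) = e + e' + 1 by omega]
        have a2 : (e' : ℂ) * (6 * PowerSeries.coeff n
              (Phi κ (i + (i' + 2)) (e + (e' - 1)) (j + j')) -
              2 * PowerSeries.coeff n (Phi κ (i + i') (e + (e' - 1)) (j + j'))) =
            (e' : ℂ) * (6 * PowerSeries.coeff n (Phi κ (i + i' + 2) (e + e' - 1) (j + j')) -
              2 * PowerSeries.coeff n (Phi κ (i + i') (e + e' - 1) (j + j'))) := by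
          rcases Nat.eq_zero_or_pos e' with h | h
          · rw [h, Nat.cast_zero, zero_mul, zero_mul]
          · rw [show e + (e' - 1) = e + e' - 1 by omega, show i + (i' + 2) = i + i' + 2 by omega]
        have a3 : (j' : ℂ) * (κ * PowerSeries.coeff n
              (Phi κ (i + i') (e + e') (j + (j' - 1))) -
              PowerSeries.coeff n (Phi κ (i + (i' + 1)) (e + e') (j + (j' - 1)))) =
            (j' : ℂ) * (κ * PowerSeries.coeff n (Phi κ (i + i') (e + e') (j + j' - 1)) -
              PowerSeries.coeff n (Phi κ (i + i' + 1) (e + e') (j + j' - 1))) := by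
          rcases Nat.eq_zero_or_pos j' with h | h
          · rw [h, Nat.cast_zero, zero_mul, zero_mul]
          · rw [show j + (j' - 1) = j + j' - 1 by omega, show i + (i' + 1) = i + i' + 1 by omega]
        have b1 : (i : ℂ) * PowerSeries.coeff n (Phi κ (i' + (i - 1)) (e' + (e + 1)) (j' + j)) =
            (i : ℂ) * PowerSeries.coeff n (Phi κ (i + i' - 1) (e + e' + 1) (j + j')) := by
          rcases Nat.eq_zero_or_pos i with h | h
          · rw [h, Nat.cast_zero, zero_mul, zero_mul]
          · rw [show i' + (i - 1) = i + i' - 1 by omega, show e' + (e + 1) = e + e' + 1 by omega,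
              Nat.add_comm j' j]
        have b2 : (e : ℂ) * (6 * PowerSeries.coeff n
              (Phi κ (i' + (i + 2)) (e' + (e - 1)) (j' + j)) -
              2 * PowerSeries.coeff n (Phi κ (i' + i) (e' + (e - 1)) (j' + j))) =
            (e : ℂ) * (6 * PowerSeries.coeff n (Phi κ (i + i' + 2) (e + e' - 1) (j + j')) -
              2 * PowerSeries.coeff n (Phi κ (i + i') (e + e' - 1) (j + j'))) := by
          rcases Nat.eq_zero_or_pos e with h | h
          · rw [h, Nat.cast_zero, zero_mul, zero_mul]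
          · rw [show e' + (e - 1) = e + e' - 1 by omega, show i' + (i + 2) = i + i' + 2 by omega,
              Nat.add_comm j' j, Nat.add_comm i' i]
        have b3 : (j : ℂ) * (κ * PowerSeries.coeff n
              (Phi κ (i' + i) (e' + e) (j' + (j - 1))) -
              PowerSeries.coeff n (Phi κ (i' + (i + 1)) (e' + e) (j' + (j - 1)))) =
            (j : ℂ) * (κ * PowerSeries.coeff n (Phi κ (i + i') (e + e') (j + j' - 1)) -
              PowerSeries.coeff n (Phi κ (i + i' + 1) (e + e') (j + j' - 1))) := by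
          rcases Nat.eq_zero_or_pos j with h | h
          · rw [h, Nat.cast_zero, zero_mul, zero_mul]
          · rw [show j' + (j - 1) = j + j' - 1 by omega, show i' + (i + 1) = i + i' + 1 by omega,
              Nat.add_comm e' e, Nat.add_comm i' i]
        rw [a1, a2, a3, b1, b2, b3]
        push_cast
        ring
      rw [h1, h2] at h3
      exact mul_right_cancel₀ hn h3
  exact PowerSeries.ext fun n => key n i e j i' e' j'

theorem zps_one (κ : ℂ) : Phi κ 0 0 0 = 1 := by
  ext n
  cases n with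
  | zero => rw [zps_coeff_zero]; simp
  | succ n =>
    rw [zps_coeff]
    have h1 : cc (n + 1) 0 0 0 = 0 := by
      rw [cc]
      simp
    rw [h1, PowerSeries.coeff_one]
    simp

theorem Phi_eq (κ : ℂ) (i e j : ℕ) :
    Phi κ i e j = Phi κ 1 0 0 ^ i * Phi κ 0 1 0 ^ e * Phi κ 0 0 1 ^ j := by
  have h1 : ∀ i, Phi κ 1 0 0 ^ i = Phi κ i 0 0 := by
    intro i
    induction i with
    | zero => rw [pow_zero, zps_one]
    | succ i ih => rw [pow_succ, ih, Phi_mul]
  have h2 : ∀ e, Phi κ 0 1 0 ^ e = Phi κ 0 e 0 := by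
    intro e
    induction e with
    | zero => rw [pow_zero, zps_one]
    | succ e ih => rw [pow_succ, ih, Phi_mul]
  have h3 : ∀ j, Phi κ 0 0 1 ^ j = Phi κ 0 0 j := by
    intro j
    induction j with
    | zero => rw [pow_zero, zps_one]
    | succ j ih => rw [pow_succ, ih, Phi_mul]
  rw [h1, h2, h3, Phi_mul, Phi_mul]
  simp

theorem dX (κ : ℂ) : PowerSeries.derivative ℂ (Phi κ 1 0 0) = Phi κ 0 1 0 := by
  rw [zps_d]
  simp

theorem dY (κ : ℂ) :
    PowerSeries.derivative ℂ (Phi κ 0 1 0) = 6 * Phi κ 1 0 0 ^ 2 - 2 := by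
  rw [zps_d, Phi_eq κ (0 + 2) (1 - 1) 0]
  simp only [Nat.sub_self, zps_one, pow_zero, mul_one, Nat.cast_zero, map_zero, zero_mul,
    Nat.cast_one, map_one, one_mul, zero_add, add_zero]
  rw [map_ofNat, map_ofNat]

theorem dG (κ : ℂ) :
    PowerSeries.derivative ℂ (Phi κ 0 0 1) = PowerSeries.C κ - Phi κ 1 0 0 := by
  rw [zps_d]
  simp [zps_one]

theorem Y_sq (κ : ℂ) : Phi κ 0 1 0 ^ 2 = 4 * Phi κ 1 0 0 ^ 3 - 4 * Phi κ 1 0 0 := by
  have h4 : (4 : PowerSeries ℂ) = PowerSeries.C 4 := by rw [map_ofNat]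
  refine PowerSeries.derivative.ext ?_ ?_
  · rw [h4, map_sub, Derivation.leibniz_pow, Derivation.leibniz, Derivation.leibniz,
      Derivation.leibniz_pow, dX, dY, PowerSeries.derivative_C]
    simp only [smul_eq_mul, nsmul_eq_mul, mul_zero, add_zero]
    rw [map_ofNat]
    push_cast
    ring
  · have c1 : PowerSeries.constantCoeff (Phi κ 0 1 0) = 0 := by
      rw [← PowerSeries.coeff_zero_eq_constantCoeff_apply, zps_coeff_zero]; simp
    have c2 : PowerSeries.constantCoeff (Phi κ 1 0 0) = -1 := by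
      rw [← PowerSeries.coeff_zero_eq_constantCoeff_apply, zps_coeff_zero]; simp
    rw [map_pow, map_sub, map_mul, map_mul, map_pow, c1, c2, map_ofNat]
    norm_num

theorem X_const (κ : ℂ) : PowerSeries.constantCoeff (Phi κ 1 0 0) = -1 := by
  rw [← PowerSeries.coeff_zero_eq_constantCoeff_apply, zps_coeff_zero]; simp

theorem coeff_comb (κ : ℂ) (D : ℕ) (a : ℕ → ℕ → ℂ) (t : ℕ) :
    PowerSeries.coeff t (∑ i ∈ Finset.range (D + 1), ∑ j ∈ Finset.range (D + 1),
      PowerSeries.C (a i j) * Phi κ 1 0 0 ^ i * Phi κ 0 0 1 ^ j) =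
    (∑ i ∈ Finset.range (D + 1), ∑ j ∈ Finset.range (D + 1),
      a i j * aeval κ (cc t i 0 j)) / (t.factorial : ℂ) := by
  rw [map_sum, Finset.sum_div]
  refine Finset.sum_congr rfl fun i _ => ?_
  rw [map_sum, Finset.sum_div]
  refine Finset.sum_congr rfl fun j _ => ?_
  have h1 : Phi κ 1 0 0 ^ i * Phi κ 0 0 1 ^ j = Phi κ i 0 j := by
    rw [Phi_eq κ i 0 j, pow_zero, mul_one]
  rw [mul_assoc, h1, PowerSeries.coeff_C_mul, zps_coeff, mul_div_assoc]

end Pool.Agent.Lib.MP5e
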