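import Pool.Agent.Lib.MP_5e64e7_nt.Zps

set_option autoImplicit false

noncomputable section

namespace Pool.Agent.Lib.MP5e

open Polynomial Topology

theorem Wt.mono {κ : ℂ} {w w' : ℕ} {f : PowerSeries ℂ} (h : Wt κ w f) (hw : w ≤ w') :
    Wt κ w' f := by
  obtain ⟨A, B, h1, h2, h3⟩ := h
  exact ⟨A, B, h1.trans hw, h2.imp id (fun h => h.trans hw), h3⟩

theorem Wt_C (κ : ℂ) (b : ℂ) : Wt κ 0 (PowerSeries.C b) := by
  refine ⟨C b, 0, by simp, Or.inl rfl, ?_⟩
  rw [aeval_C, map_zero, zero_mul, add_zero]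
  rfl

theorem Wt_X (κ : ℂ) : Wt κ 2 (Phi κ 1 0 0) := by
  refine ⟨X, 0, by simp, Or.inl rfl, ?_⟩
  rw [aeval_X, map_zero, zero_mul, add_zero]

theorem Wt_Y (κ : ℂ) : Wt κ 3 (Phi κ 0 1 0) := by
  refine ⟨0, 1, by simp, Or.inr (by simp), ?_⟩
  rw [map_zero, map_one, one_mul, zero_add]

theorem Wt.add {κ : ℂ} {w : ℕ} {f g : PowerSeries ℂ} (hf : Wt κ w f) (hg : Wt κ w g) :
    Wt κ w (f + g) := by
  obtain ⟨A, B, h1, h2, h3⟩ := hf
  obtain ⟨A', B', h1', h2', h3'⟩ := hg
  refine ⟨A + A', B + B', ?_, ?_, ?_⟩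
  · have := natDegree_add_le A A'
    omega
  · by_cases h0 : B + B' = 0
    · exact Or.inl h0
    · right
      have := natDegree_add_le B B'
      rcases h2 with h2 | h2 <;> rcases h2' with h2' | h2'
      · exact absurd (by rw [h2, h2', add_zero]) h0
      · rw [h2, zero_add]; exact h2'
      · rw [h2', add_zero]; exact h2
      · omega
  · rw [h3, h3', map_add, map_add]
    ring

theorem Wt.neg {κ : ℂ} {w : ℕ} {f : PowerSeries ℂ} (hf : Wt κ w f) : Wt κ w (-f) := by
  obtain ⟨A, B, h1, h2, h3⟩ := hf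
  refine ⟨-A, -B, by rwa [natDegree_neg], ?_, ?_⟩
  · rw [natDegree_neg]
    exact h2.imp (fun h => by rw [h, neg_zero]) id
  · rw [h3, map_neg, map_neg]
    ring

private lemma zwtA_c : (4 * X ^ 3 - 4 * X : ℂ[X]).natDegree ≤ 3 := by
  have : (4 * X ^ 3 - 4 * X : ℂ[X]) = C 4 * X ^ 3 + (C (-4) * X ^ 1) := by
    rw [C_neg, map_ofNat]; ring
  rw [this]
  refine (natDegree_add_le _ _).trans (max_le ?_ ?_)
  · exact (natDegree_C_mul_X_pow_le 4 3)
  · exact (natDegree_C_mul_X_pow_le (-4) 1).trans (by norm_num)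

private lemma zwtA_d : (6 * X ^ 2 - 2 : ℂ[X]).natDegree ≤ 2 := by
  have : (6 * X ^ 2 - 2 : ℂ[X]) = C 6 * X ^ 2 + C (-2) := by
    rw [C_neg, map_ofNat, map_ofNat]; ring
  rw [this]
  refine (natDegree_add_le _ _).trans (max_le ?_ ?_)
  · exact (natDegree_C_mul_X_pow_le 6 2)
  · rw [natDegree_C]; norm_num

theorem zwtA_aeval_c (κ : ℂ) : aeval (Phi κ 1 0 0) (4 * X ^ 3 - 4 * X : ℂ[X]) =
    Phi κ 0 1 0 ^ 2 := by
  rw [Y_sq]
  simp only [map_sub, map_mul, map_pow, aeval_X, map_ofNat]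

theorem zwtA_aeval_d (κ : ℂ) : aeval (Phi κ 1 0 0) (6 * X ^ 2 - 2 : ℂ[X]) =
    PowerSeries.derivative ℂ (Phi κ 0 1 0) := by
  rw [dY]
  simp only [map_sub, map_mul, map_pow, aeval_X, map_ofNat]

theorem Wt.mul {κ : ℂ} {w w' : ℕ} {f g : PowerSeries ℂ} (hf : Wt κ w f) (hg : Wt κ w' g) :
    Wt κ (w + w') (f * g) := by
  obtain ⟨A, B, h1, h2, h3⟩ := hf
  obtain ⟨A', B', h1', h2', h3'⟩ := hg
  refine ⟨A * A' + B * B' * (4 * X ^ 3 - 4 * X), A * B' + B * A', ?_, ?_, ?_⟩
  · have e1 := natDegree_add_le (A * A') (B * B' * (4 * X ^ 3 - 4 * X))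
    have e2 := natDegree_mul_le (p := A) (q := A')
    by_cases hB : B * B' = 0
    · rw [hB, zero_mul, add_zero]
      omega
    · have hB1 := left_ne_zero_of_mul hB
      have hB2 := right_ne_zero_of_mul hB
      have e3 := natDegree_mul_le (p := B * B') (q := (4 * X ^ 3 - 4 * X : ℂ[X]))
      have e4 := natDegree_mul_le (p := B) (q := B')
      have e5 := zwtA_c
      have e6 := h2.resolve_left hB1
      have e7 := h2'.resolve_left hB2
      omega
  · by_cases h0 : A * B' + B * A' = 0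
    · exact Or.inl h0
    · right
      have e1 := natDegree_mul_le (p := A) (q := B')
      have e2 := natDegree_mul_le (p := B) (q := A')
      have e3 := natDegree_add_le (A * B') (B * A')
      rcases h2 with h2 | h2 <;> rcases h2' with h2' | h2'
      · exact absurd (by rw [h2, h2', mul_zero, zero_mul, add_zero]) h0
      · rw [h2, zero_mul, add_zero]; omega
      · rw [h2', mul_zero, zero_add]; omega
      · omega
  · rw [h3, h3']
    simp only [map_add, map_mul (aeval (Phi κ 1 0 0))]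
    rw [← map_mul (aeval (Phi κ 1 0 0)) B B']
    have e1 := zwtA_aeval_c κ
    simp only [map_sub, map_mul] at e1 ⊢
    rw [e1]
    ring

theorem zwtA_deriv (κ : ℂ) (A : ℂ[X]) :
    PowerSeries.derivative ℂ (aeval (Phi κ 1 0 0) A) =
      aeval (Phi κ 1 0 0) (derivative A) * Phi κ 0 1 0 := by
  rw [Derivation.map_aeval, dX, smul_eq_mul]

theorem Wt.deriv {κ : ℂ} {w : ℕ} {f : PowerSeries ℂ} (hf : Wt κ w f) :
    Wt κ (w + 1) (PowerSeries.derivative ℂ f) := by
  obtain ⟨A, B, h1, h2, h3⟩ := hf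
  refine ⟨derivative B * (4 * X ^ 3 - 4 * X) + B * (6 * X ^ 2 - 2), derivative A, ?_, ?_, ?_⟩
  · by_cases hB : B = 0
    · rw [hB, derivative_zero, zero_mul, zero_mul, add_zero, natDegree_zero]
      omega
    · have e0 := h2.resolve_left hB
      have e1 := natDegree_add_le (derivative B * (4 * X ^ 3 - 4 * X)) (B * (6 * X ^ 2 - 2))
      have e2 := natDegree_mul_le (p := derivative B) (q := (4 * X ^ 3 - 4 * X : ℂ[X]))
      have e3 := natDegree_mul_le (p := B) (q := (6 * X ^ 2 - 2 : ℂ[X]))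
      have e4 := zwtA_c
      have e5 := zwtA_d
      have e6 := natDegree_derivative_le B
      by_cases hd : B.natDegree = 0
      · have h7 : derivative B = 0 := derivative_of_natDegree_zero hd
        rw [h7, zero_mul, zero_add]
        omega
      · omega
  · by_cases hd : A.natDegree = 0
    · exact Or.inl (derivative_of_natDegree_zero hd)
    · right
      have e6 := natDegree_derivative_le A
      omega
  · rw [h3, map_add, Derivation.leibniz, zwtA_deriv, zwtA_deriv, map_add, map_mul, map_mul,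
      zwtA_aeval_c, zwtA_aeval_d, smul_eq_mul, smul_eq_mul]
    ring

private lemma zwtA_sum {κ : ℂ} {w : ℕ} {ι : Type*} (s : Finset ι) (f : ι → PowerSeries ℂ)
    (h : ∀ i ∈ s, Wt κ w (f i)) : Wt κ w (∑ i ∈ s, f i) := by
  classical
  induction s using Finset.induction_on with
  | empty =>
    rw [Finset.sum_empty]
    have := (Wt_C κ 0).mono (Nat.zero_le w)
    rwa [map_zero] at this
  | insert a s ha ih =>
    rw [Finset.sum_insert ha]
    exact (h a (Finset.mem_insert_self a s)).add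
      (ih fun i hi => h i (Finset.mem_insert_of_mem hi))

private lemma zwtA_prod {κ : ℂ} {ι : Type*} (s : Finset ι) (w : ι → ℕ)
    (f : ι → PowerSeries ℂ) (h : ∀ i ∈ s, Wt κ (w i) (f i)) :
    Wt κ (∑ i ∈ s, w i) (∏ i ∈ s, f i) := by
  classical
  induction s using Finset.induction_on with
  | empty =>
    rw [Finset.sum_empty, Finset.prod_empty]
    have := Wt_C κ 1
    rwa [map_one] at this
  | insert a s ha ih =>
    rw [Finset.sum_insert ha, Finset.prod_insert ha]
    exact (h a (Finset.mem_insert_self a s)).mul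
      (ih fun i hi => h i (Finset.mem_insert_of_mem hi))

theorem Wt.det {κ : ℂ} {n : ℕ} (M : Matrix (Fin n) (Fin n) (PowerSeries ℂ)) (w : Fin n → ℕ)
    (h : ∀ i j, Wt κ (w i) (M i j)) : Wt κ (∑ i, w i) M.det := by
  rw [Matrix.det_apply]
  refine zwtA_sum _ _ fun σ _ => ?_
  have h1 : Wt κ (∑ i, w i) (∏ i, M (σ i) i) := by
    have h2 := zwtA_prod Finset.univ (fun i => w (σ i)) (fun i => M (σ i) i)
      (fun i _ => h (σ i) i)
    rwa [Equiv.sum_comp σ w] at h2
  rcases Int.units_eq_one_or (Equiv.Perm.sign σ) with h3 | h3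
  · rw [h3, one_smul]
    exact h1
  · rw [h3, Units.neg_smul, one_smul]
    exact h1.neg

end Pool.Agent.Lib.MP5e
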